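import Mathlib
import Mathlib.NumberTheory.ZetaValues

/- Helper88.SlabBasic -/
section
set_option autoImplicit false

open MeasureTheory Set
open scoped ENNReal Topology

namespace Pool.Agent.M18.Helper88.Slab

/-- The uniform probability measure on `[-1,1]`. -/
noncomputable def U : Measure ℝ := (2⁻¹ : ℝ≥0∞) • volume.restrict (Icc (-1) 1)

instance : IsProbabilityMeasure U := by
  constructor
  simp only [U, Measure.smul_apply, MeasurableSet.univ, Measure.restrict_apply, univ_inter,
    Real.volume_Icc, smul_eq_mul]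
  norm_num
  exact ENNReal.inv_mul_cancel (by norm_num) (by norm_num)

lemma integral_U {E : Type*} [NormedAddCommGroup E] [NormedSpace ℝ E] (f : ℝ → E) :
    ∫ u, f u ∂U = (1/2 : ℝ) • ∫ u in (-1)..1, f u := by
  rw [U, integral_smul_measure, intervalIntegral.integral_of_le (by norm_num),
    integral_Icc_eq_integral_Ioc]
  simp

/-- The uniform probability measure on the cube `[-1,1]^n`. -/
noncomputable def cube (n : ℕ) : Measure (Fin n → ℝ) := Measure.pi (fun _ => U)

instance (n : ℕ) : IsProbabilityMeasure (cube n) := by unfold cube; infer_instance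

lemma ae_U : ∀ᵐ u ∂U, u ∈ Icc (-1:ℝ) 1 := by
  have : ∀ᵐ u ∂(volume.restrict (Icc (-1:ℝ) 1)), u ∈ Icc (-1:ℝ) 1 :=
    ae_restrict_mem measurableSet_Icc
  exact Measure.ae_smul_measure this _

lemma ae_cube (n : ℕ) : ∀ᵐ x ∂(cube n), x ∈ Icc (fun _ : Fin n => (-1:ℝ)) (fun _ => 1) := by
  have h : ∀ᵐ x ∂(cube n), ∀ i, x i ∈ Icc (-1:ℝ) 1 := by
    rw [Filter.eventually_all]
    intro i
    exact (Measure.tendsto_eval_ae_ae (μ := fun _ : Fin n => U) (i := i)).eventually ae_U
  filter_upwards [h] with x hx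
  exact ⟨fun i => (hx i).1, fun i => (hx i).2⟩

lemma integrable_cube {n : ℕ} {E : Type*} [NormedAddCommGroup E]
    {f : (Fin n → ℝ) → E} (hf : Continuous f) :
    Integrable f (cube n) := by
  obtain ⟨C, hC⟩ := (isCompact_Icc (a := (fun _ : Fin n => (-1:ℝ)))
    (b := fun _ => 1)).exists_bound_of_continuousOn hf.continuousOn
  refine Integrable.of_bound hf.aestronglyMeasurable C ?_
  filter_upwards [ae_cube n] with x hx
  exact hC x hx

/-- Averaging operator. -/
noncomputable def A (b : ℝ) (Q : ℝ → ℝ) (y : ℝ) : ℝ := ∫ u, Q (b * u + y) ∂U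

lemma cube_split {n : ℕ} (i : Fin (n+1)) (a : Fin (n+1) → ℝ) (g : ℝ → ℝ)
    (hint : Integrable (fun x : Fin (n+1) → ℝ => g (∑ j, a j * x j)) (cube (n+1))) :
    ∫ x, g (∑ j, a j * x j) ∂(cube (n+1)) =
      ∫ y, A (a i) g (∑ j, a (i.succAbove j) * y j) ∂(cube n) := by
  have hmp := measurePreserving_piFinSuccAbove (fun _ : Fin (n+1) => U) i
  set e := MeasurableEquiv.piFinSuccAbove (fun _ : Fin (n+1) => ℝ) i with he
  let F : ℝ × (Fin n → ℝ) → ℝ := fun p => g (a i * p.1 + ∑ j, a (i.succAbove j) * p.2 j)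
  have hFe : ∀ x : Fin (n+1) → ℝ, F (e x) = g (∑ j, a j * x j) := by
    intro x
    simp only [F, he]
    rw [Fin.sum_univ_succAbove _ i]
    rfl
  have hintF : Integrable F (U.prod (cube n)) := by
    have := hmp.integrable_comp_emb e.measurableEmbedding (g := F)
    rw [show (cube n) = Measure.pi (fun j => (fun _ : Fin (n+1) => U) (i.succAbove j)) from rfl]
    rw [← this]
    refine hint.congr ?_
    filter_upwards with x
    simp [hFe]
  calc ∫ x, g (∑ j, a j * x j) ∂(cube (n+1)) = ∫ x, F (e x) ∂(cube (n+1)) := by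
        simp_rw [hFe]
    _ = ∫ p, F p ∂(U.prod (cube n)) := hmp.integral_comp e.measurableEmbedding F
    _ = ∫ y, (∫ u, F (u, y) ∂U) ∂(cube n) := integral_prod_symm F hintF
    _ = _ := rfl

lemma cube_split_cont {n : ℕ} (i : Fin (n+1)) (a : Fin (n+1) → ℝ) (g : ℝ → ℝ)
    (hg : Continuous g) :
    ∫ x, g (∑ j, a j * x j) ∂(cube (n+1)) =
      ∫ y, A (a i) g (∑ j, a (i.succAbove j) * y j) ∂(cube n) :=
  cube_split i a g (integrable_cube (by fun_prop))

/-- Even locally integrable functions all of whose symmetric averages are nonnegative. -/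
structure Good0 (Q : ℝ → ℝ) : Prop where
  int : ∀ x y, IntervalIntegrable Q volume x y
  even : ∀ y, Q (-y) = Q y
  nonneg : ∀ v, 0 ≤ v → 0 ≤ ∫ y in (0:ℝ)..v, Q y

/-- Even continuous functions all of whose symmetric averages are nonnegative. -/
structure Good (Q : ℝ → ℝ) : Prop where
  cont : Continuous Q
  even : ∀ y, Q (-y) = Q y
  nonneg : ∀ v, 0 ≤ v → 0 ≤ ∫ y in (0:ℝ)..v, Q y

lemma Good.toGood0 {Q : ℝ → ℝ} (h : Good Q) : Good0 Q :=
  ⟨fun _ _ => h.cont.intervalIntegrable _ _, h.even, h.nonneg⟩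

lemma A_eq (b : ℝ) (Q : ℝ → ℝ) (y : ℝ) : A b Q y = (1/2 : ℝ) * ∫ u in (-1)..1, Q (b * u + y) := by
  rw [A, integral_U]; simp

lemma A_neg_b (b : ℝ) (Q : ℝ → ℝ) (y : ℝ) : A (-b) Q y = A b Q y := by
  rw [A_eq, A_eq]
  congr 1
  have := intervalIntegral.integral_comp_neg (a := -1) (b := 1) (f := fun u => Q (b * u + y))
  simp only [neg_neg] at this
  rw [← this]
  congr 1
  ext u
  ring_nf

lemma A_abs_b (b : ℝ) (Q : ℝ → ℝ) (y : ℝ) : A |b| Q y = A b Q y := by
  rcases abs_choice b with h | h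
  · rw [h]
  · rw [h, A_neg_b]

lemma A_even (b : ℝ) {Q : ℝ → ℝ} (hQ : ∀ y, Q (-y) = Q y) (y : ℝ) : A b Q (-y) = A b Q y := by
  rw [← A_neg_b, A, A]
  congr 1
  ext u
  rw [← hQ]
  ring_nf

lemma A_zero (Q : ℝ → ℝ) (y : ℝ) : A 0 Q y = Q y := by
  rw [A_eq]; simp; ring

/-- For `b>0` the average is a difference quotient of the primitive. -/
lemma A_eq_diff {b : ℝ} (hb : 0 < b) {Q : ℝ → ℝ} (hQ : ∀ x y, IntervalIntegrable Q volume x y)
    (y : ℝ) :
    A b Q y = (1/(2*b)) * ((∫ t in (0:ℝ)..(y+b), Q t) - ∫ t in (0:ℝ)..(y-b), Q t) := by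
  rw [A_eq, intervalIntegral.integral_interval_sub_left (hQ _ _) (hQ _ _)]
  rw [intervalIntegral.integral_comp_mul_add _ hb.ne']
  simp only [smul_eq_mul]
  rw [show b * -1 + y = y - b by ring, show b * 1 + y = y + b by ring]
  field_simp

lemma Good0.A {Q : ℝ → ℝ} (hQ : Good0 Q) {b : ℝ} (hb : b ≠ 0) : Good (A b Q) := by
  wlog hb' : 0 < b generalizing b
  · have h := this (b := -b) (by simpa using hb) (by
      have := lt_of_le_of_ne (not_lt.mp hb') hb
      (clear * - this; linarith))
    have h2 : Pool.Agent.M18.Helper88.Slab.A (-b) Q = Pool.Agent.M18.Helper88.Slab.A b Q := by ext y; exact A_neg_b b Q y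
    rwa [h2] at h
  clear hb
  have hb := hb'
  -- primitive
  set P : ℝ → ℝ := fun x => ∫ t in (0:ℝ)..x, Q t with hP
  have hPc : Continuous P := by
    exact intervalIntegral.continuous_primitive hQ.int 0
  have hAeq : Pool.Agent.M18.Helper88.Slab.A b Q = fun y => (1/(2*b)) * (P (y+b) - P (y-b)) := by
    ext y; exact A_eq_diff hb hQ.int y
  refine ⟨by rw [hAeq]; fun_prop, A_even b hQ.even, ?_⟩
  intro v hv
  have hPodd : ∀ x, P (-x) = - P x := by
    intro x
    simp only [hP]
    have h1 := intervalIntegral.integral_comp_neg (a := 0) (b := x) (f := Q)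
    simp only [neg_zero] at h1
    rw [intervalIntegral.integral_symm, ← h1]
    congr 1
    apply intervalIntegral.integral_congr
    intro t _
    exact hQ.even t
  have hPnn : ∀ x, 0 ≤ x → 0 ≤ P x := hQ.nonneg
  have h1 : ∫ y in (0:ℝ)..v, Pool.Agent.M18.Helper88.Slab.A b Q y = (1/(2*b)) * ((∫ y in (0:ℝ)..v, P (y+b)) -
      ∫ y in (0:ℝ)..v, P (y-b)) := by
    have c1 : Continuous fun y => P (y + b) := by fun_prop
    have c2 : Continuous fun y => P (y - b) := by fun_prop
    rw [← intervalIntegral.integral_sub (c1.intervalIntegrable _ _)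
      (c2.intervalIntegrable _ _), ← intervalIntegral.integral_const_mul]
    apply intervalIntegral.integral_congr
    intro y _
    exact A_eq_diff hb hQ.int y
  rw [h1]
  rw [intervalIntegral.integral_comp_add_right (f := P) b, intervalIntegral.integral_comp_sub_right (f := P) b]
  have hint : ∀ x y, IntervalIntegrable P volume x y := fun x y => hPc.intervalIntegrable x y
  -- R x = ∫_0^x P is even
  set R : ℝ → ℝ := fun x => ∫ t in (0:ℝ)..x, P t with hR
  have hReven : ∀ x, R (-x) = R x := by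
    intro x
    simp only [hR]
    have h1 := intervalIntegral.integral_comp_neg (a := 0) (b := x) (f := P)
    simp only [neg_zero] at h1
    rw [intervalIntegral.integral_symm, ← h1]
    rw [← intervalIntegral.integral_neg]
    apply intervalIntegral.integral_congr
    intro t _
    simp [hPodd t]
  have e1 : ∫ x in (0 + b)..(v + b), P x = R (v+b) - R b := by
    simp only [hR]
    rw [intervalIntegral.integral_interval_sub_left (hint _ _) (hint _ _)]
    simp
  have e2 : ∫ x in (0 - b)..(v - b), P x = R (v-b) - R b := by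
    rw [← hReven b]
    simp only [hR]
    rw [intervalIntegral.integral_interval_sub_left (hint _ _) (hint _ _)]
    simp
  rw [e1, e2]
  have hle : |v - b| ≤ v + b := by
    rw [abs_le]; constructor <;> (clear * - hv hb'; linarith)
  have e3 : R (v-b) = R |v-b| := by
    rcases abs_choice (v-b) with h | h
    · rw [h]
    · rw [h, hReven]
  have e4 : 0 ≤ R (v+b) - R |v-b| := by
    simp only [hR]
    rw [intervalIntegral.integral_interval_sub_left (hint _ _) (hint _ _)]
    apply intervalIntegral.integral_nonneg hle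
    intro u hu
    exact hPnn u (le_trans (abs_nonneg _) hu.1)
  have : 0 ≤ (1/(2*b)) := by positivity
  rw [e3]
  apply mul_nonneg this
  (clear * - e4; linarith)

lemma Good.A {Q : ℝ → ℝ} (hQ : Good Q) (b : ℝ) : Good (A b Q) := by
  rcases eq_or_ne b 0 with rfl | hb
  · have : Pool.Agent.M18.Helper88.Slab.A 0 Q = Q := by ext y; exact A_zero Q y
    rwa [this]
  · exact hQ.toGood0.A hb

lemma Good.zero {Q : ℝ → ℝ} (hQ : Good Q) : 0 ≤ Q 0 := by
  have hd : HasDerivAt (fun x => ∫ t in (0:ℝ)..x, Q t) (Q 0) 0 :=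
    intervalIntegral.integral_hasDerivAt_right (hQ.cont.intervalIntegrable _ _)
      (hQ.cont.stronglyMeasurableAtFilter _ _) hQ.cont.continuousAt
  have h2 := hd.tendsto_slope_zero_right
  refine ge_of_tendsto h2 ?_
  filter_upwards [self_mem_nhdsWithin] with t ht
  have ht' : (0:ℝ) < t := ht
  simp only [zero_add, intervalIntegral.integral_same, sub_zero, smul_eq_mul]
  exact mul_nonneg (by (clear * - ht'; positivity)) (hQ.nonneg t ht'.le)

lemma Good.cube {Q : ℝ → ℝ} (hQ : Good Q) {n : ℕ} (b : Fin n → ℝ) :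
    0 ≤ ∫ y, Q (∑ j, b j * y j) ∂(cube n) := by
  induction n generalizing Q with
  | zero =>
    simp only [Finset.univ_eq_empty, Finset.sum_empty, integral_const]
    simp [hQ.zero]
  | succ n ih =>
    rw [cube_split_cont 0 b Q hQ.cont]
    exact ih (hQ.A (b 0)) (fun j => b (Fin.succAbove 0 j))

lemma A_cont (b : ℝ) {Q : ℝ → ℝ} (hQ : Continuous Q) : Continuous (A b Q) := by
  have : A b Q = fun y => (1/2 : ℝ) * ∫ u in (-1:ℝ)..1, Q (b * u + y) := by
    ext y; exact A_eq b Q y
  rw [this]
  refine continuous_const.mul ?_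
  apply intervalIntegral.continuous_parametric_intervalIntegral_of_continuous' (f := fun y u => Q (b * u + y))
  fun_prop

/-- Second moment. -/
lemma cube_sq {n : ℕ} (b : Fin n → ℝ) (k : ℝ) :
    ∫ y, ((∑ j, b j * y j)^2 + k) ∂(cube n) = (∑ j, b j ^ 2) / 3 + k := by
  induction n generalizing k with
  | zero => simp
  | succ n ih =>
    rw [cube_split_cont 0 b (fun z => z^2 + k) (by fun_prop)]
    have : ∀ y : ℝ, A (b 0) (fun z => z^2 + k) y = y^2 + (b 0 ^2 / 3 + k) := by
      intro y
      rw [A_eq]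
      have h : ∀ u : ℝ, (b 0 * u + y)^2 + k = b 0 ^2 * u^2 + (2 * b 0 * y) * u^1 + (y^2 + k) := by
        intro u; ring
      simp_rw [h]
      rw [intervalIntegral.integral_add, intervalIntegral.integral_add]
      · rw [intervalIntegral.integral_const_mul, intervalIntegral.integral_const_mul,
          integral_pow, integral_pow, intervalIntegral.integral_const]
        simp only [smul_eq_mul]
        push_cast
        ring
      all_goals exact Continuous.intervalIntegrable (by fun_prop) _ _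
    simp_rw [this]
    rw [ih, Fin.sum_univ_succ]
    simp only [Fin.zero_succAbove]
    ring

/-- The indicator function of `[-T,T]`. -/
noncomputable def ind (T : ℝ) (z : ℝ) : ℝ := if |z| ≤ T then 1 else 0

lemma ind_measurable (T : ℝ) : Measurable (ind T) := by
  unfold ind
  apply Measurable.ite _ measurable_const measurable_const
  exact measurableSet_le (by fun_prop) (by fun_prop)

lemma ind_nonneg (T z : ℝ) : 0 ≤ ind T z := by
  unfold ind; split_ifs <;> norm_num

lemma ind_le_one (T z : ℝ) : ind T z ≤ 1 := by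
  unfold ind; split_ifs <;> norm_num

lemma ind_integrable_cube {n : ℕ} (T : ℝ) (a : Fin n → ℝ) :
    Integrable (fun x : Fin n → ℝ => ind T (∑ j, a j * x j)) (cube n) := by
  refine Integrable.of_bound ?_ 1 ?_
  · exact ((ind_measurable T).comp (by fun_prop)).aestronglyMeasurable
  · filter_upwards with x
    rw [Real.norm_eq_abs, abs_of_nonneg (ind_nonneg _ _)]
    exact ind_le_one _ _

/-- Clamp function, the primitive of the indicator. -/
noncomputable def clamp (T x : ℝ) : ℝ := max (-T) (min T x)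

lemma ind_intervalIntegrable (T x y : ℝ) : IntervalIntegrable (ind T) volume x y := by
  rw [intervalIntegrable_iff]
  refine Measure.integrableOn_of_bounded (M := 1) (by simp) (ind_measurable T).aestronglyMeasurable ?_
  filter_upwards with x
  rw [Real.norm_eq_abs, abs_of_nonneg (ind_nonneg _ _)]
  exact ind_le_one _ _

lemma integral_ind_nonneg {T : ℝ} (hT : 0 ≤ T) {x : ℝ} (hx : 0 ≤ x) :
    ∫ t in (0:ℝ)..x, ind T t = min T x := by
  rcases le_total x T with h | h
  · rw [min_eq_right h]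
    have : ∫ t in (0:ℝ)..x, ind T t = ∫ t in (0:ℝ)..x, (1:ℝ) := by
      apply intervalIntegral.integral_congr
      intro t ht
      rw [uIcc_of_le hx] at ht
      simp only [ind]
      rw [if_pos]
      rw [abs_of_nonneg ht.1]; exact ht.2.trans h
    rw [this]; simp
  · rw [min_eq_left h]
    rw [← intervalIntegral.integral_add_adjacent_intervals (b := T)
      (ind_intervalIntegrable _ _ _) (ind_intervalIntegrable _ _ _)]
    have h1 : ∫ t in (0:ℝ)..T, ind T t = ∫ t in (0:ℝ)..T, (1:ℝ) := by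
      apply intervalIntegral.integral_congr
      intro t ht
      rw [uIcc_of_le hT] at ht
      simp only [ind]
      rw [if_pos]
      rw [abs_of_nonneg ht.1]; exact ht.2
    have h2 : ∫ t in T..x, ind T t = ∫ t in T..x, (0:ℝ) := by
      rw [intervalIntegral.integral_of_le h, intervalIntegral.integral_of_le h]
      apply setIntegral_congr_fun measurableSet_Ioc
      intro t ht
      simp only [ind]
      rw [if_neg]
      rw [not_le, abs_of_nonneg (hT.trans ht.1.le)]
      exact ht.1
    rw [h1, h2]; simp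

lemma ind_even (T y : ℝ) : ind T (-y) = ind T y := by simp [ind]

lemma integral_ind {T : ℝ} (hT : 0 ≤ T) (x : ℝ) :
    ∫ t in (0:ℝ)..x, ind T t = clamp T x := by
  rcases le_total 0 x with h | h
  · rw [integral_ind_nonneg hT h, clamp, max_eq_right]
    apply le_min <;> (clear * - hT h; linarith)
  · have h1 := intervalIntegral.integral_comp_neg (a := 0) (b := -x) (f := ind T)
    simp only [neg_zero, neg_neg] at h1
    rw [intervalIntegral.integral_symm, ← h1]
    simp_rw [ind_even]
    rw [integral_ind_nonneg hT (by (clear * - h; linarith)), clamp, min_eq_right (by linarith : x ≤ T)]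
    rw [← max_neg_neg]
    simp

/-- The trapezoid function: probability that a uniform on `[y-s,y+s]` lies in `[-T,T]`. -/
lemma A_ind {s T : ℝ} (hs : 0 < s) (hT : 0 ≤ T) (y : ℝ) :
    A s (ind T) y = (clamp T (y+s) - clamp T (y-s)) / (2*s) := by
  rw [A_eq_diff hs (ind_intervalIntegrable T), integral_ind hT, integral_ind hT]
  ring

lemma A_ind_lower {s T : ℝ} (hs : 0 < s) (hT : 0 ≤ T) {y : ℝ} (hy : 0 ≤ y) :
    min 1 (T/s) - max 0 (y - |T - s|) / (2*s) ≤ A s (ind T) y := by
  rw [A_ind hs hT]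
  rw [le_div_iff₀ (by positivity), sub_mul, div_mul_cancel₀ _ (by positivity)]
  rcases le_total s T with h | h
  · rw [abs_of_nonneg (by linarith), min_eq_left (by rw [le_div_iff₀ hs]; (clear * - h; linarith))]
    unfold clamp
    rcases le_total y (T - s) with h2 | h2
    · rw [max_eq_left (by linarith), min_eq_right (by linarith), max_eq_right (by linarith),
        min_eq_right (by linarith), max_eq_right (by linarith)]
      linarith
    · rw [max_eq_right (by linarith : (0:ℝ) ≤ y - (T - s)), min_eq_left (by linarith : T ≤ y + s),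
        max_eq_right (by linarith : -T ≤ T)]
      have : max (-T) (min T (y - s)) ≤ y - s := by
        apply max_le
        · linarith
        · exact min_le_right _ _
      linarith
  · rw [abs_of_nonpos (by linarith), min_eq_right (by rw [div_le_iff₀ hs]; linarith)]
    have hTs : T / s * (2 * s) = 2 * T := by field_simp
    rw [hTs]
    unfold clamp
    rw [min_eq_left (by (clear * - hy h; linarith) : T ≤ y + s), max_eq_right (by (clear * - hT; linarith) : -T ≤ T)]
    rcases le_total y (s - T) with h2 | h2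
    · have : max (-T) (min T (y - s)) = -T := by
        apply max_eq_left
        exact (min_le_right _ _).trans (by linarith)
      rw [this, max_eq_left (by linarith)]
      linarith
    · have : max (-T) (min T (y - s)) ≤ y - s := by
        apply max_le
        · linarith
        · exact min_le_right _ _
      rw [max_eq_right (by linarith)]
      linarith

lemma integral_max {c v : ℝ} (hc : 0 ≤ c) (hv : 0 ≤ v) :
    ∫ y in (0:ℝ)..v, max 0 (y - c) = (max 0 (v-c))^2/2 := by
  rcases le_total v c with h | h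
  · rw [max_eq_left (by linarith)]
    have : ∫ y in (0:ℝ)..v, max 0 (y - c) = ∫ y in (0:ℝ)..v, (0:ℝ) := by
      apply intervalIntegral.integral_congr
      intro t ht
      rw [uIcc_of_le hv] at ht
      simp only
      rw [max_eq_left]
      linarith [ht.2]
    rw [this]; simp
  · rw [max_eq_right (by linarith : (0:ℝ) ≤ v - c)]
    have cont : Continuous fun y : ℝ => max 0 (y - c) := by fun_prop
    rw [← intervalIntegral.integral_add_adjacent_intervals (b := c)
      (cont.intervalIntegrable _ _) (cont.intervalIntegrable _ _)]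
    have h1 : ∫ y in (0:ℝ)..c, max 0 (y - c) = ∫ y in (0:ℝ)..c, (0:ℝ) := by
      apply intervalIntegral.integral_congr
      intro t ht
      rw [uIcc_of_le hc] at ht
      simp only
      rw [max_eq_left]
      linarith [ht.2]
    have h2 : ∫ y in c..v, max 0 (y - c) = ∫ y in c..v, (y - c) := by
      apply intervalIntegral.integral_congr
      intro t ht
      rw [uIcc_of_le h] at ht
      simp only
      rw [max_eq_right]
      linarith [ht.1]
    rw [h1, h2]
    simp
    ring

/-- The unimodality (tangent line) bound. -/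
theorem tangent_bound {s T α γ : ℝ} (hs : 0 < s) (hT : 0 ≤ T)
    (h : ∀ v, 0 ≤ v → 0 ≤ min 1 (T/s) * v - (max 0 (v - |T - s|))^2/(4*s) - α * v + γ * v^3)
    {n : ℕ} (b : Fin n → ℝ) :
    α - γ * ∑ j, b j ^ 2 ≤ ∫ y, A s (ind T) (∑ j, b j * y j) ∂(cube n) := by
  set Q : ℝ → ℝ := fun y => A s (ind T) y + (3 * γ * y^2 - α) with hQdef
  have hgood1 : Continuous (A s (ind T)) := by
    have : A s (ind T) = fun y => (clamp T (y+s) - clamp T (y-s)) / (2*s) := by
      ext y; exact A_ind hs hT y
    rw [this]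
    unfold clamp
    fun_prop
  have hQc : Continuous Q := by fun_prop
  have hQ : Good Q := by
    refine ⟨hQc, ?_, ?_⟩
    · intro y
      simp only [hQdef]
      rw [A_even s (ind_even T)]
      ring
    · intro v hv
      have hlow : ∫ y in (0:ℝ)..v, ((min 1 (T/s) - max 0 (y - |T - s|) / (2*s)) +
          (3 * γ * y^2 - α)) ≤ ∫ y in (0:ℝ)..v, Q y := by
        apply intervalIntegral.integral_mono_on hv
        · exact Continuous.intervalIntegrable (by fun_prop) _ _
        · exact hQc.intervalIntegrable _ _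
        · intro y hy
          simp only [hQdef]
          have := A_ind_lower hs hT hy.1
          linarith
      refine le_trans ?_ hlow
      have : ∫ y in (0:ℝ)..v, ((min 1 (T/s) - max 0 (y - |T - s|) / (2*s)) +
          (3 * γ * y^2 - α)) = min 1 (T/s) * v - (max 0 (v - |T - s|))^2/(4*s) - α * v + γ * v^3 := by
        rw [intervalIntegral.integral_add, intervalIntegral.integral_sub,
          intervalIntegral.integral_sub, intervalIntegral.integral_div,
          integral_max (abs_nonneg _) hv]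
        · simp only [intervalIntegral.integral_const_mul, integral_pow,
            intervalIntegral.integral_const, smul_eq_mul]
          push_cast
          ring
        all_goals exact Continuous.intervalIntegrable (by fun_prop) _ _
      rw [this]
      exact h v hv
  have hcube := hQ.cube b
  have hsplit : ∫ y, Q (∑ j, b j * y j) ∂(cube n) =
      (∫ y, A s (ind T) (∑ j, b j * y j) ∂(cube n)) +
        ∫ y, (3 * γ) * ((∑ j, b j * y j)^2 + 0) - α ∂(cube n) := by
    rw [← integral_add]
    · congr 1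
      ext y
      simp only [hQdef]
      ring
    · exact integrable_cube (by fun_prop)
    · exact integrable_cube (by fun_prop)
  rw [hsplit, integral_sub (integrable_cube (by fun_prop)) (integrable_cube (by fun_prop)),
    integral_const_mul, cube_sq] at hcube
  simp only [integral_const, probReal_univ, smul_eq_mul] at hcube
  (clear * - hcube; linarith)

end Pool.Agent.M18.Helper88.Slab
end

/- Helper88.SlabLarge -/
section
set_option autoImplicit false

open MeasureTheory Set
open scoped ENNReal Topology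

namespace Pool.Agent.M18.Helper88.Slab

/-- `ℙ (|∑ a_j U_j| ≤ T)`. -/
noncomputable def prob {n : ℕ} (a : Fin n → ℝ) (T : ℝ) : ℝ :=
  ∫ x, ind T (∑ j, a j * x j) ∂(cube n)

lemma prob_split {n : ℕ} (a : Fin (n+1) → ℝ) (i : Fin (n+1)) (T : ℝ) :
    prob a T = ∫ y, A |a i| (ind T) (∑ j, a (i.succAbove j) * y j) ∂(cube n) := by
  rw [prob, cube_split i a (ind T) (ind_integrable_cube T a)]
  simp_rw [A_abs_b]

lemma prob_ge {n : ℕ} (a : Fin (n+1) → ℝ) (i : Fin (n+1)) {s T α γ : ℝ} (hT : 0 ≤ T)
    (ha : ∑ j, a j ^ 2 = 1) (hs : 0 < s) (hsa : |a i| = s)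
    (h : ∀ v, 0 ≤ v → 0 ≤ min 1 (T/s) * v - (max 0 (v - |T - s|))^2/(4*s) - α * v + γ * v^3) :
    α - γ * (1 - s^2) ≤ prob a T := by
  rw [prob_split a i, hsa]
  have := tangent_bound hs hT h (fun j => a (i.succAbove j))
  have h2 : ∑ j, a (i.succAbove j) ^ 2 = 1 - s^2 := by
    rw [← hsa, sq_abs, ← ha, Fin.sum_univ_succAbove _ i]; ring
  rwa [h2] at this

/-- tangent from zero: the cubic inequality. -/
lemma cubic0 {s c m α v : ℝ} (hs : 0 < s) (hc : 0 < c) (hm : α ≤ m) (hv : 0 ≤ v) :
    0 ≤ m * v - (max 0 (v - c))^2/(4*s) - α * v + (1/(27*s*c)) * v^3 := by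
  rcases le_total v c with h | h
  · rw [max_eq_left (by (clear * - h; linarith))]
    have : 0 ≤ (1/(27*s*c)) * v^3 := by (clear * - hs hc hv; positivity)
    have h2 : 0 ≤ (m - α) * v := mul_nonneg (by (clear * - hm; linarith)) hv
    have h3 : (0:ℝ)^2/(4*s) = 0 := by simp
    rw [h3]
    (clear * - this h2; nlinarith)
  · rw [max_eq_right (by linarith : (0:ℝ) ≤ v - c)]
    have key : (1/(27*s*c)) * v^3 - (v-c)^2/(4*s) = (v-3*c)^2*(4*v-3*c)/(108*s*c) := by
      field_simp
      ring
    have : 0 ≤ (v-3*c)^2*(4*v-3*c)/(108*s*c) := by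
      apply div_nonneg _ (by positivity)
      apply mul_nonneg (sq_nonneg _)
      (clear * - hc h; linarith)
    have h2 : 0 ≤ (m - α) * v := mul_nonneg (by (clear * - hm; linarith)) hv
    (clear * - key this h2; nlinarith)

/-- tangent at `r`: the cubic inequality. -/
lemma cubic1 {s c m r v : ℝ} (hs : 0 < s) (hc : 0 ≤ c) (hr : 0 < r) (hrc : 3 * c ≤ r) (hv : 0 ≤ v) :
    0 ≤ m * v - (max 0 (v - c))^2/(4*s) -
      (m - (r-c)^2/(4*s*r) + (r^2-c^2)/(8*s*r)) * v + ((r^2-c^2)/(8*s*r^3)) * v^3 := by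
  have hcr : c < r := by (clear * - hr hrc; linarith)
  have hpos : 0 < r^2 - c^2 := by (clear * - hc hrc hr; nlinarith)
  rcases le_total v c with h | h
  · rw [max_eq_left (by linarith)]
    have e : m * v - 0 ^ 2 / (4 * s) - (m - (r-c)^2/(4*s*r) + (r^2-c^2)/(8*s*r)) * v +
        ((r^2-c^2)/(8*s*r^3)) * v^3 =
        ((r-c)*(r-3*c)/(8*s*r)) * v + ((r^2-c^2)/(8*s*r^3)) * v^3 := by
      field_simp
      ring
    rw [e]
    have h1 : 0 ≤ (r-c)*(r-3*c)/(8*s*r) := by
      apply div_nonneg _ (by positivity)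
      apply mul_nonneg <;> (clear * - hr hrc; linarith)
    have h2 : 0 ≤ ((r^2-c^2)/(8*s*r^3)) * v^3 := by (clear * - hpos hs hr hv; positivity)
    have := mul_nonneg h1 hv
    (clear * - h2 this; linarith)
  · rw [max_eq_right (by (clear * - h; linarith) : (0:ℝ) ≤ v - c)]
    have e : m * v - (v-c) ^ 2 / (4 * s) - (m - (r-c)^2/(4*s*r) + (r^2-c^2)/(8*s*r)) * v +
        ((r^2-c^2)/(8*s*r^3)) * v^3 =
        (v-r)^2 * ((r^2-c^2) * v - 2*r*c^2)/(8*s*r^3) := by
      field_simp
      ring
    rw [e]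
    apply div_nonneg _ (by positivity)
    apply mul_nonneg (sq_nonneg _)
    have : (r^2-c^2) * c ≤ (r^2-c^2) * v := mul_le_mul_of_nonneg_left h hpos.le
    (clear * - this hc hrc hpos hr; nlinarith [mul_nonneg hc (mul_nonneg hc (by linarith : 0 ≤ r - 3*c)), mul_nonneg hc hpos.le,
      mul_nonneg hc (mul_nonneg hr.le (by linarith : 0 ≤ r - 3*c))])

/-- The critical half-width. -/
noncomputable def T0 : ℝ := 2 * Real.sqrt 2 - 2

lemma sqrt2_bounds : 1.41421 < Real.sqrt 2 ∧ Real.sqrt 2 < 1.41422 := by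
  constructor
  · apply Real.lt_sqrt_of_sq_lt; norm_num
  · rw [Real.sqrt_lt' (by norm_num)]; norm_num

lemma T0_pos : 0 < T0 := by
  unfold T0; (clear * -; linarith [sqrt2_bounds.1])

lemma two_dim {s r : ℝ} (h1 : 0.57 ≤ s) (h2 : s ≤ 0.93) (hr : 0 ≤ r) (hsr : s^2 + r^2 = 1) :
    (s+r-T0)^2 ≤ (1 - T0) * (4*s*r) := by
  obtain ⟨q1, q2⟩ := sqrt2_bounds
  have hq : Real.sqrt 2 ^ 2 = 2 := Real.sq_sqrt (by norm_num)
  have hu : s + r ≤ Real.sqrt 2 := by
    apply Real.le_sqrt_of_sq_le
    (clear * - hsr; nlinarith [sq_nonneg (s - r)])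
  have hT : T0 = 2 * Real.sqrt 2 - 2 := rfl
  have h3 : 0.22 ≤ s * r := by
    have h4 : 0.22^2 ≤ (s*r)^2 := by
      have : r^2 = 1 - s^2 := by (clear * - hsr; linarith)
      rw [mul_pow, this]
      have h5 : 0 ≤ (s^2 - 0.57^2) := by (clear * - h1; nlinarith)
      have h6 : 0 ≤ (0.93^2 - s^2) := by (clear * - h2 h1; nlinarith)
      (clear * - q1 q2 h6 h5; nlinarith [mul_nonneg h5 h6])
    exact (abs_le_of_sq_le_sq h4 (by (clear * - h1 hr; positivity)) |> fun h => (le_abs_self _).trans h)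
  have h4 : 4 * s * r = 2 * ((s+r)^2 - 1) := by (clear * - hsr; nlinarith)
  have hu2 : 1.2 ≤ s + r := by
    have : (1.2:ℝ)^2 ≤ (s+r)^2 := by (clear * - hsr h3; nlinarith)
    exact (abs_le_of_sq_le_sq this (by (clear * - h1 hr; positivity)) |> fun h => (le_abs_self _).trans h)
  rw [h4, hT]
  generalize s + r = u at *
  generalize Real.sqrt 2 = q at *
  have fac : (1 - (2*q-2)) * (2 * (u^2 - 1)) - (u - (2*q-2))^2 =
      (q - u) * ((4*q-5) * u - (9*q - 12)) + (q^2 - 2) * (5 - 4 * u) := by
    ring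
  rw [hq] at fac
  have h5 : 0 ≤ (4*q-5) * u - (9*q - 12) := by
    have : (4*1.41421-5) * 1.2 ≤ (4*q-5) * u := by
      apply mul_le_mul <;> (clear * - q1 hu2 q2; linarith)
    (clear * - q1 q2 this; linarith)
  have h6 : 0 ≤ (q - u) * ((4*q-5) * u - (9*q - 12)) := mul_nonneg (by (clear * - hu; linarith)) h5
  (clear * - fac h6; linarith)

lemma num3 {s T : ℝ} (hs : 0.93 ≤ s) (hT1 : 0.82842 ≤ T) (hT2 : T ≤ 0.82844) :
    0 ≤ 27*T*(s-T) - (1+s) := by
  have h1 : (27*0.82842)*(s - 0.82844) ≤ 27*T*(s-T) := by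
    apply mul_le_mul <;> (clear * - hT1 hT2 hs; linarith)
  linarith

theorem large_case {n : ℕ} (a : Fin (n+1) → ℝ) (i : Fin (n+1))
    (ha : ∑ j, a j ^ 2 = 1) (hs : 1/2 ≤ |a i|) : T0 ≤ prob a T0 := by
  set s := |a i| with hsdef
  have hs0 : 0 < s := by (clear * - hs; linarith)
  have hs1 : s ≤ 1 := by
    have : a i ^2 ≤ 1 := by
      rw [← ha]
      exact Finset.single_le_sum (f := fun j => a j ^2) (fun j _ => sq_nonneg _) (Finset.mem_univ i)
    have : |a i| ^ 2 ≤ 1 := by rwa [sq_abs]
    (clear * - this hs; nlinarith [abs_nonneg (a i)])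
  obtain ⟨q1, q2⟩ := sqrt2_bounds
  have hq : Real.sqrt 2 ^ 2 = 2 := Real.sq_sqrt (by norm_num)
  have hT : T0 = 2 * Real.sqrt 2 - 2 := rfl
  have hTp := T0_pos
  set q := Real.sqrt 2 with hqdef
  rcases le_total s 0.57 with h1 | h1
  · -- tangent from zero, s < T
    have hc : 0 < T0 - s := by rw [hT]; (clear * - q1 q2 h1; linarith)
    have key := prob_ge a i (T := T0) (α := 1) (γ := 1/(27*s*(T0-s))) hTp.le ha hs0 rfl (by
      intro v hv
      have hmin : min 1 (T0/s) = 1 := by
        rw [min_eq_left]; rw [le_div_iff₀ hs0]; (clear * - hc; linarith)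
      rw [hmin]
      have habs : |T0 - s| = T0 - s := abs_of_pos hc
      rw [habs]
      exact cubic0 hs0 hc le_rfl hv)
    refine le_trans ?_ key
    have : 1 / (27*s*(T0-s)) * (1 - s^2) ≤ 1 - T0 := by
      rw [div_mul_eq_mul_div, one_mul, div_le_iff₀ (by (clear * - hs hc; positivity)), hT]
      (clear * - q1 hq h1 hs hs1; nlinarith)
    (clear * - this; linarith)
  rcases le_total s 0.93 with h2 | h2
  · -- tangent at r
    set r := Real.sqrt (1 - s^2) with hr
    have hr2 : r^2 = 1 - s^2 := Real.sq_sqrt (by (clear * - hs1 hs; nlinarith))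
    have hr0 : 0.3 ≤ r := by
      apply Real.le_sqrt_of_sq_le; (clear * - q1 q2 h2 hs hs1; nlinarith)
    have hrpos : 0 < r := by (clear * - q1 q2 hr0; linarith)
    set c := |T0 - s| with hcdef
    have hc3 : 3 * c ≤ r := by
      have hc' : 0 ≤ c := abs_nonneg _
      have : (3*c)^2 ≤ r^2 := by
        rw [hr2, mul_pow, hcdef, sq_abs, hT]
        (clear * - hs1 q1 q2 hq hs h1 h2; nlinarith)
      (clear * - this hrpos hc'; nlinarith)
    have hc0 : 0 ≤ c := abs_nonneg _
    have key := prob_ge a i (T := T0) (α := (min 1 (T0/s) - (r-c)^2/(4*s*r) + (r^2-c^2)/(8*s*r)))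
      (γ := (r^2-c^2)/(8*s*r^3)) hTp.le ha hs0 rfl (by
      intro v hv
      exact cubic1 hs0 hc0 hrpos hc3 hv)
    refine le_trans ?_ key
    rw [← hr2]
    have e : (min 1 (T0/s) - (r-c)^2/(4*s*r) + (r^2-c^2)/(8*s*r)) - (r^2-c^2)/(8*s*r^3) * r^2 =
      min 1 (T0/s) - (r-c)^2/(4*s*r) := by
      field_simp
      ring
    rw [e]
    have e2 : min 1 (T0/s) - (r-c)^2/(4*s*r) = 1 - (s+r-T0)^2/(4*s*r) := by
      rcases le_total s T0 with h3 | h3
      · rw [hcdef, abs_of_nonneg (by (clear * - h3; linarith)), min_eq_left (by rw [le_div_iff₀ hs0]; (clear * - h3; linarith))]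
        ring
      · rw [hcdef, abs_of_nonpos (by (clear * - h3; linarith)), min_eq_right (by rw [div_le_iff₀ hs0]; (clear * - h3; linarith))]
        field_simp
        ring
    rw [e2]
    have main : (s+r-T0)^2 ≤ (1 - T0) * (4*s*r) := two_dim h1 h2 hrpos.le (by (clear * - hr2; linarith))
    have : (s+r-T0)^2/(4*s*r) ≤ 1 - T0 := by
      rw [div_le_iff₀ (by (clear * - hs hr0; positivity))]
      exact main
    (clear * - this; linarith)
  · have hc : 0 < s - T0 := by rw [hT]; (clear * - q1 q2 h2; linarith)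
    have key := prob_ge a i (T := T0) (α := T0/s) (γ := 1/(27*s*(s-T0))) hTp.le ha hs0 rfl (by
      intro v hv
      have hmin : min 1 (T0/s) = T0/s := by
        rw [min_eq_right]; rw [div_le_iff₀ hs0]; (clear * - hc; linarith)
      rw [hmin]
      have habs : |T0 - s| = s - T0 := by rw [abs_of_neg (by (clear * - hc; linarith))]; ring
      rw [habs]
      exact cubic0 hs0 hc le_rfl hv)
    refine le_trans ?_ key
    have e : T0/s - 1/(27*s*(s-T0)) * (1-s^2) - T0 = (1-s)*(27*T0*(s-T0) - (1+s))/(27*s*(s-T0)) := by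
      field_simp
      ring
    have : 0 ≤ (1-s)*(27*T0*(s-T0) - (1+s))/(27*s*(s-T0)) := by
      apply div_nonneg _ (by (clear * - hs hc; positivity))
      apply mul_nonneg (by (clear * - hs1; linarith))
      apply num3 h2 <;> (clear * - q1 hT q2; linarith)
    (clear * - e this; linarith)

end Pool.Agent.M18.Helper88.Slab
end

/- Helper88.SlabFourier -/
section
set_option autoImplicit false

open MeasureTheory Set Real
open scoped ENNReal Topology FourierTransform

namespace Pool.Agent.M18.Helper88.Slab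

lemma integral_exp_scaled (T c : ℝ) :
    ∫ z in (-T)..T, Complex.exp (((c * z : ℝ) : ℂ) * Complex.I) = ((2 * T * sinc (T * c) : ℝ) : ℂ) := by
  rcases eq_or_ne c 0 with rfl | hc
  · simp
    ring
  · have := intervalIntegral.integral_comp_mul_left (a := -T) (b := T)
      (fun t : ℝ => Complex.exp ((t : ℂ) * Complex.I)) hc
    rw [this, show c * -T = - (T * c) by ring, show c * T = T * c by ring,
      integral_exp_mul_I_eq_sinc]
    rw [Complex.real_smul]
    have hc' : (c : ℂ) ≠ 0 := by exact_mod_cast hc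
    push_cast
    (clear * - hc'; field_simp)

lemma A_cos (b x y : ℝ) : A b (fun z => Real.cos (x * z)) y = sinc (b * x) * Real.cos (x * y) := by
  rw [A_eq]
  rcases eq_or_ne (b * x) 0 with h | h
  · have : ∀ u : ℝ, x * (b * u + y) = x * y := by
      intro u
      have : x * (b * u + y) = (b * x) * u + x * y := by ring
      rw [this, h]; ring
    simp_rw [this]
    rw [h]
    simp
    ring
  · have h1 : ∀ u : ℝ, Real.cos (x * (b * u + y)) = Real.cos ((b * x) * u + x * y) := by
      intro u; ring_nf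
    simp_rw [h1]
    rw [intervalIntegral.integral_comp_mul_add (fun z => Real.cos z) h (x * y), integral_cos,
      sinc_of_ne_zero h]
    rw [show (b * x) * 1 + x * y = x * y + b * x by ring, show (b * x) * (-1) + x * y = x * y - b * x by ring]
    rw [Real.sin_add, Real.sin_sub, smul_eq_mul]
    field_simp
    ring

lemma cube_cos {n : ℕ} (b : Fin n → ℝ) (x : ℝ) :
    ∫ y, Real.cos (x * ∑ j, b j * y j) ∂(cube n) = ∏ j, sinc (b j * x) := by
  induction n with
  | zero => simp
  | succ n ih =>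
    rw [cube_split_cont 0 b (fun z => Real.cos (x * z)) (by fun_prop)]
    simp_rw [A_cos]
    rw [integral_const_mul, ih, Fin.prod_univ_succ]
    simp

lemma sinc_mul_bound {s T : ℝ} (hs : 0 < s) (hT : 0 < T) (x : ℝ) :
    |sinc (T * x) * sinc (s * x)| ≤ (1 + 1/(T*s)) * (1 + x^2)⁻¹ := by
  rcases eq_or_ne x 0 with rfl | hx
  · simp
    (clear * - hs hT; positivity)
  have h1 : |sinc (T * x) * sinc (s * x)| ≤ 1 := by
    rw [abs_mul]
    exact mul_le_one₀ (abs_sinc_le_one _) (abs_nonneg _) (abs_sinc_le_one _)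
  have habs : ∀ z : ℝ, z ≠ 0 → |sinc z| ≤ 1/|z| := by
    intro z hz
    rw [sinc_of_ne_zero hz, abs_div]
    gcongr
    exact abs_sin_le_one z
  have h2 : |sinc (T * x) * sinc (s * x)| ≤ 1/(T*s) * (x^2)⁻¹ := by
    rw [abs_mul]
    have := mul_le_mul (habs (T*x) (by positivity)) (habs (s*x) (by positivity)) (abs_nonneg _) (by positivity)
    refine this.trans (le_of_eq ?_)
    rw [abs_mul, abs_mul, abs_of_pos hs, abs_of_pos hT]
    rw [show x^2 = |x|^2 by rw [sq_abs]]
    field_simp
  set K := 1/(T*s) with hK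
  have hKpos : 0 < K := by positivity
  have hx2 : 0 < x^2 := by positivity
  rcases le_total (x^2) K with h | h
  · refine h1.trans ?_
    rw [← div_eq_mul_inv, le_div_iff₀ (by positivity)]
    (clear * - h; linarith)
  · refine h2.trans ?_
    rw [← div_eq_mul_inv, ← div_eq_mul_inv, div_le_div_iff₀ (by positivity) (by positivity)]
    (clear * - h; nlinarith)

lemma integrable_sinc_mul {s T : ℝ} (hs : 0 < s) (hT : 0 < T) :
    Integrable (fun x : ℝ => sinc (T * x) * sinc (s * x)) := by
  have hb : Integrable (fun x : ℝ => (1 + 1/(T*s)) * (1 + x^2)⁻¹) :=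
    integrable_inv_one_add_sq.const_mul _
  refine hb.mono' ?_ ?_
  · exact ((continuous_sinc.comp (by fun_prop)).mul (continuous_sinc.comp (by fun_prop))).aestronglyMeasurable
  · filter_upwards with x
    rw [Real.norm_eq_abs]
    exact sinc_mul_bound hs hT x

lemma A_ind_cont {s T : ℝ} (hs : 0 < s) (hT : 0 ≤ T) : Continuous (A s (ind T)) := by
  have : A s (ind T) = fun y => (clamp T (y+s) - clamp T (y-s)) / (2*s) := by
    ext y; exact A_ind hs hT y
  rw [this]
  unfold clamp
  fun_prop

lemma A_ind_zero {s T : ℝ} (hs : 0 < s) (hT : 0 ≤ T) {y : ℝ} (hy : T + s < |y|) :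
    A s (ind T) y = 0 := by
  rw [A_ind hs hT]
  unfold clamp
  rcases le_total 0 y with h | h
  · rw [abs_of_nonneg h] at hy
    rw [min_eq_left (by linarith), min_eq_left (by (clear * - hy; linarith))]
    simp
  · rw [abs_of_nonpos h] at hy
    rw [max_eq_left (by rw [min_le_iff]; right; (clear * - hy; linarith)), max_eq_left (by rw [min_le_iff]; right; linarith)]
    simp

lemma A_ind_integrable {s T : ℝ} (hs : 0 < s) (hT : 0 ≤ T) : Integrable (A s (ind T)) := by
  apply (A_ind_cont hs hT).integrable_of_hasCompactSupport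
  apply HasCompactSupport.of_support_subset_isCompact (isCompact_Icc (a := -(T+s)) (b := T+s))
  intro y hy
  by_contra hcon
  apply hy
  apply A_ind_zero hs hT
  rw [mem_Icc, ← abs_le, not_le] at hcon
  exact hcon

lemma fourier_A_ind {s T : ℝ} (hs : 0 < s) (hT : 0 < T) (ξ : ℝ) :
    𝓕 (fun y => ((A s (ind T) y : ℝ) : ℂ)) ξ =
      ((2 * T * (sinc (T * (2 * π * ξ)) * sinc (s * (2 * π * ξ))) : ℝ) : ℂ) := by
  rw [Real.fourier_real_eq_integral_exp_smul]
  set e : ℝ → ℂ := fun y => Complex.exp (((-2 * π * y * ξ : ℝ) : ℂ) * Complex.I) with he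
  have hec : Continuous e := by fun_prop
  have hnorm : ∀ y, ‖e y‖ = 1 := fun y => Complex.norm_exp_ofReal_mul_I _
  have hadd : ∀ y z, e (y + z) = e y * e z := by
    intro y z
    simp only [he]
    rw [← Complex.exp_add]
    congr 1
    push_cast
    ring
  -- joint integrability
  have hjoint : Integrable (Function.uncurry fun (y u : ℝ) => e y * ((ind T (s * u + y) : ℝ) : ℂ))
      (volume.prod U) := by
    have hdom : Integrable (fun p : ℝ × ℝ => (indicator (Icc (-(T+s)) (T+s)) (fun _ => (1:ℝ)) p.1) * 1)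
        (volume.prod U) := by
      apply Integrable.mul_prod (f := fun y : ℝ => indicator (Icc (-(T+s)) (T+s)) (fun _ => (1:ℝ)) y)
        (g := fun _ : ℝ => (1:ℝ))
      · rw [integrable_indicator_iff measurableSet_Icc]
        simp
      · exact integrable_const _
    refine hdom.mono' ?_ ?_
    · apply Measurable.aestronglyMeasurable
      apply Measurable.mul
      · exact hec.measurable.comp measurable_fst
      · exact Complex.measurable_ofReal.comp ((ind_measurable T).comp (by fun_prop))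
    · have hae : ∀ᵐ p : ℝ × ℝ ∂(volume.prod U), p.2 ∈ Icc (-1:ℝ) 1 := by
        exact (Measure.quasiMeasurePreserving_snd (μ := (volume : Measure ℝ)) (ν := U)).ae ae_U
      filter_upwards [hae] with p hp
      simp only [Function.uncurry, norm_mul, hnorm, one_mul, Complex.norm_real, Real.norm_eq_abs,
        abs_of_nonneg (ind_nonneg _ _), mul_one]
      by_cases hcase : p.1 ∈ Icc (-(T+s)) (T+s)
      · rw [indicator_of_mem hcase]; exact ind_le_one _ _
      · rw [indicator_of_notMem hcase]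
        have : ind T (s * p.2 + p.1) = 0 := by
          unfold ind
          rw [if_neg]
          rw [not_le]
          rw [mem_Icc, ← abs_le, not_le] at hcase
          have h1 : |s * p.2| ≤ s := by
            rw [abs_mul, abs_of_pos hs]
            have : |p.2| ≤ 1 := abs_le.mpr hp
            (clear * - hs this; nlinarith)
          have h2 : |p.1| ≤ |s * p.2 + p.1| + |s * p.2| := by
            have := abs_sub (s * p.2 + p.1) (s * p.2)
            simpa using this
          (clear * - hcase h1 h2; linarith)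
        rw [this]
  calc ∫ y, e y • ((A s (ind T) y : ℝ) : ℂ)
      = ∫ y, ∫ u, e y * ((ind T (s * u + y) : ℝ) : ℂ) ∂U := by
        congr 1
        ext y
        rw [smul_eq_mul, integral_const_mul, A]
        congr 1
        exact (integral_ofReal).symm
    _ = ∫ u, ∫ y, e y * ((ind T (s * u + y) : ℝ) : ℂ) ∂volume ∂U := integral_integral_swap hjoint
    _ = ∫ u, e (-(s * u)) * (∫ z, e z * ((ind T z : ℝ) : ℂ)) ∂U := by
        congr 1
        ext u
        have := integral_add_right_eq_self (μ := (volume : Measure ℝ)) (fun z : ℝ => e (z + -(s*u)) * ((ind T z : ℝ) : ℂ)) (s * u)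
        simp only [add_neg_cancel_right] at this
        rw [← integral_const_mul]
        simp_rw [add_comm (s * u)]
        rw [this]
        congr 1
        ext z
        rw [hadd]; ring
    _ = (∫ u, e (-(s * u)) ∂U) * (∫ z, e z * ((ind T z : ℝ) : ℂ)) := by
        rw [integral_mul_const]
    _ = _ := by
        have h1 : ∫ u, e (-(s * u)) ∂U = ((sinc (s * (2 * π * ξ)) : ℝ) : ℂ) := by
          rw [integral_U]
          have h := integral_exp_scaled 1 (s * (2 * π * ξ))
          have h' : ∀ u : ℝ, e (-(s * u)) = Complex.exp (((s * (2 * π * ξ) * u : ℝ) : ℂ) * Complex.I) := by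
            intro u
            simp only [he]
            congr 2
            push_cast
            ring
          simp_rw [h']
          rw [h]
          rw [Complex.real_smul]
          push_cast
          rw [one_mul]
          ring
        have h2 : ∫ z, e z * ((ind T z : ℝ) : ℂ) = ((2 * T * sinc (T * (2 * π * ξ)) : ℝ) : ℂ) := by
          have h3 : (fun z => e z * ((ind T z : ℝ) : ℂ)) = indicator (Icc (-T) T) e := by
            ext z
            by_cases hz : z ∈ Icc (-T) T
            · rw [indicator_of_mem hz]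
              unfold ind
              rw [if_pos (abs_le.mpr hz)]
              simp
            · rw [indicator_of_notMem hz]
              unfold ind
              rw [if_neg (fun h => hz (abs_le.mp h))]
              simp
          rw [h3, integral_indicator measurableSet_Icc, integral_Icc_eq_integral_Ioc,
            ← intervalIntegral.integral_of_le (by linarith)]
          have h := integral_exp_scaled T (-(2 * π * ξ))
          have h' : ∀ u : ℝ, e u = Complex.exp (((-(2 * π * ξ) * u : ℝ) : ℂ) * Complex.I) := by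
            intro u
            simp only [he]
            congr 2
            push_cast
            ring
          simp_rw [h']
          rw [h, show T * -(2 * π * ξ) = -(T * (2 * π * ξ)) by ring, sinc_neg]
        rw [h1, h2]
        push_cast
        ring

/-- Fourier representation of the trapezoid. -/
lemma A_ind_fourier {s T : ℝ} (hs : 0 < s) (hT : 0 < T) (y : ℝ) :
    A s (ind T) y = (T / π) * ∫ x, sinc (T * x) * sinc (s * x) * Real.cos (x * y) := by
  set f : ℝ → ℂ := fun y => ((A s (ind T) y : ℝ) : ℂ) with hf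
  have hfc : Continuous f := Complex.continuous_ofReal.comp (A_ind_cont hs hT.le)
  have hfi : Integrable f := (A_ind_integrable hs hT.le).ofReal
  have hF : 𝓕 f = fun ξ => ((2 * T * (sinc (T * (2 * π * ξ)) * sinc (s * (2 * π * ξ))) : ℝ) : ℂ) := by
    ext ξ; exact fourier_A_ind hs hT ξ
  have hi0 : Integrable (fun ξ : ℝ => sinc (T * (2 * π * ξ)) * sinc (s * (2 * π * ξ))) :=
    (integrable_sinc_mul hs hT).comp_mul_left' (g := fun x => sinc (T * x) * sinc (s * x)) (by positivity : (2 * π : ℝ) ≠ 0)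
  have hFi : Integrable (𝓕 f) := by
    rw [hF]
    exact (hi0.const_mul (2*T)).ofReal
  have hinv := hfc.fourierInv_fourier_eq hfi hFi
  have h1 : f y = 𝓕⁻ (𝓕 f) y := by rw [hinv]
  rw [Real.fourierInv_eq', hF] at h1
  have h2 : A s (ind T) y = (∫ ξ : ℝ, Complex.exp (((2 * π * inner ℝ ξ y : ℝ) : ℂ) * Complex.I) •
      (((2 * T * (sinc (T * (2 * π * ξ)) * sinc (s * (2 * π * ξ))) : ℝ) : ℂ))).re := by
    rw [← h1]; simp [hf]
  rw [h2]
  have hint : Integrable (fun ξ : ℝ => Complex.exp (((2 * π * inner ℝ ξ y : ℝ) : ℂ) * Complex.I) •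
      (((2 * T * (sinc (T * (2 * π * ξ)) * sinc (s * (2 * π * ξ))) : ℝ) : ℂ))) := by
    have h3 := ((hi0.const_mul (2*T)).ofReal (𝕜 := ℂ))
    refine h3.mono ?_ ?_
    · have hc : Continuous (fun ξ : ℝ => Complex.exp (((2 * π * inner ℝ ξ y : ℝ) : ℂ) * Complex.I) •
      (((2 * T * (sinc (T * (2 * π * ξ)) * sinc (s * (2 * π * ξ))) : ℝ) : ℂ))) := by
        have := continuous_sinc
        fun_prop
      exact hc.aestronglyMeasurable
    · filter_upwards with ξ
      rw [norm_smul, Complex.norm_exp_ofReal_mul_I, one_mul]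
      rfl
  have h4 := integral_re hint
  have h5 : (∫ ξ : ℝ, Complex.exp (((2 * π * inner ℝ ξ y : ℝ) : ℂ) * Complex.I) •
      (((2 * T * (sinc (T * (2 * π * ξ)) * sinc (s * (2 * π * ξ))) : ℝ) : ℂ))).re =
      ∫ ξ : ℝ, 2 * T * (sinc (T * (2 * π * ξ)) * sinc (s * (2 * π * ξ)) * Real.cos ((2 * π * ξ) * y)) := by
    have h6 : (∫ ξ : ℝ, Complex.exp (((2 * π * inner ℝ ξ y : ℝ) : ℂ) * Complex.I) •
      (((2 * T * (sinc (T * (2 * π * ξ)) * sinc (s * (2 * π * ξ))) : ℝ) : ℂ))).re =
      RCLike.re (∫ ξ : ℝ, Complex.exp (((2 * π * inner ℝ ξ y : ℝ) : ℂ) * Complex.I) •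
      (((2 * T * (sinc (T * (2 * π * ξ)) * sinc (s * (2 * π * ξ))) : ℝ) : ℂ))) := rfl
    rw [h6, ← h4]
    congr 1
    ext ξ
    have h7 : ∀ θ r : ℝ, RCLike.re (Complex.exp ((θ : ℂ) * Complex.I) • ((r : ℝ) : ℂ)) = Real.cos θ * r := by
      intro θ r
      simp only [smul_eq_mul, RCLike.re_eq_complex_re]
      rw [Complex.re_mul_ofReal, Complex.exp_ofReal_mul_I_re]
    rw [h7]
    have h8 : (inner ℝ ξ y : ℝ) = ξ * y := by simp [mul_comm]
    rw [h8, show 2 * π * (ξ * y) = (2 * π * ξ) * y by ring]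
    ring
  rw [h5, integral_const_mul,
    Measure.integral_comp_mul_left (fun x : ℝ => sinc (T * x) * sinc (s * x) * Real.cos (x * y)) (2*π)]
  rw [abs_of_pos (by positivity), smul_eq_mul]
  have hJ : ∀ J : ℝ, 2 * T * ((2 * π)⁻¹ * J) = T / π * J := by
    intro J; field_simp
  exact hJ _

/-- Fourier formula for the slab probability. -/
lemma prob_fourier {n : ℕ} (a : Fin n → ℝ) (i : Fin n) (hi : a i ≠ 0) {T : ℝ} (hT : 0 < T) :
    prob a T = (T / π) * ∫ x, sinc (T * x) * ∏ j, sinc (a j * x) := by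
  obtain ⟨m, rfl⟩ : ∃ m, n = m + 1 := ⟨n - 1, by have := i.2; omega⟩
  have hs : 0 < |a i| := abs_pos.mpr hi
  rw [prob_split a i]
  simp_rw [A_ind_fourier hs hT]
  rw [integral_const_mul]
  congr 1
  have hjoint : Integrable (Function.uncurry fun (y : Fin m → ℝ) (x : ℝ) =>
      sinc (T * x) * sinc (|a i| * x) * Real.cos (x * ∑ j, a (i.succAbove j) * y j))
      ((cube m).prod volume) := by
    have hdom : Integrable (fun p : (Fin m → ℝ) × ℝ => (1:ℝ) * (sinc (T * p.2) * sinc (|a i| * p.2)))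
        ((cube m).prod volume) :=
      Integrable.mul_prod (f := fun _ : Fin m → ℝ => (1:ℝ))
        (g := fun x : ℝ => sinc (T * x) * sinc (|a i| * x)) (integrable_const _) (integrable_sinc_mul hs hT)
    refine hdom.mono ?_ ?_
    · have hc : Continuous (Function.uncurry fun (y : Fin m → ℝ) (x : ℝ) =>
        sinc (T * x) * sinc (|a i| * x) * Real.cos (x * ∑ j, a (i.succAbove j) * y j)) := by
        have := continuous_sinc
        unfold Function.uncurry
        fun_prop
      exact hc.aestronglyMeasurable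
    · filter_upwards with p
      simp only [Function.uncurry, one_mul]
      rw [norm_mul]
      exact mul_le_of_le_one_right (norm_nonneg _) (abs_cos_le_one _)
  rw [integral_integral_swap hjoint]
  congr 1
  ext x
  rw [integral_const_mul, cube_cos, Fin.prod_univ_succAbove _ i, mul_assoc]
  congr 2
  rcases abs_choice (a i) with h | h
  · rw [h]
  · rw [h, neg_mul, sinc_neg]

/-- Gaussian Fourier integral. -/
lemma gauss_cos (y : ℝ) : ∫ x : ℝ, Real.cos (x * y) * Real.exp (-x^2/6) =
    Real.sqrt (6 * π) * Real.exp (-(3/2) * y^2) := by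
  have h := fourierIntegral_gaussian (b := (1/6 : ℂ)) (by norm_num) (y : ℂ)
  have hint : Integrable (fun x : ℝ => Complex.exp (Complex.I * y * x) * Complex.exp (-(1/6 : ℂ) * (x:ℂ)^2)) := by
    have h0 : Integrable (fun x : ℝ => Real.exp (-(1/6) * x^2)) := integrable_exp_neg_mul_sq (by norm_num)
    refine (h0.ofReal (𝕜 := ℂ)).mono ?_ ?_
    · have : Continuous (fun x : ℝ => Complex.exp (Complex.I * y * x) * Complex.exp (-(1/6 : ℂ) * (x:ℂ)^2)) := by
        fun_prop
      exact this.aestronglyMeasurable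
    · filter_upwards with x
      have e1 : Complex.I * y * x = ((y * x : ℝ) : ℂ) * Complex.I := by push_cast; ring
      have e2 : Complex.exp (-(1/6 : ℂ) * (x:ℂ)^2) = ((Real.exp (-(1/6) * x^2) : ℝ) : ℂ) := by
        push_cast; rfl
      rw [norm_mul, e1, Complex.norm_exp_ofReal_mul_I, one_mul, e2]
      rfl
  have h2 := congrArg RCLike.re h
  rw [← integral_re hint] at h2
  have h3 : ∀ x : ℝ, RCLike.re (Complex.exp (Complex.I * y * x) * Complex.exp (-(1/6 : ℂ) * (x:ℂ)^2)) =
      Real.cos (x * y) * Real.exp (-x^2/6) := by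
    intro x
    have e1 : Complex.I * y * x = ((x * y : ℝ) : ℂ) * Complex.I := by push_cast; ring
    have e2 : Complex.exp (-(1/6 : ℂ) * (x:ℂ)^2) = ((Real.exp (-x^2/6) : ℝ) : ℂ) := by
      push_cast; congr 1; ring
    rw [e1, e2, RCLike.re_eq_complex_re, Complex.re_mul_ofReal, Complex.exp_ofReal_mul_I_re]
  simp_rw [h3] at h2
  rw [h2]
  have e3 : ((π : ℂ) / (1/6 : ℂ)) ^ (1/2 : ℂ) = ((Real.sqrt (6 * π) : ℝ) : ℂ) := by
    rw [Real.sqrt_eq_rpow, Complex.ofReal_cpow (by positivity)]
    push_cast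
    congr 1
    ring
  have e4 : Complex.exp (-(y:ℂ)^2 / (4 * (1/6 : ℂ))) = ((Real.exp (-(3/2) * y^2) : ℝ) : ℂ) := by
    push_cast
    congr 1
    ring
  rw [e3, e4, ← Complex.ofReal_mul]
  rfl

end Pool.Agent.M18.Helper88.Slab
end

/- Helper28.FA.ProbTwo -/
section
/-!
# Two explicit coordinates (MP_66ebcc_gt, module FA-F4)
-/

set_option autoImplicit false

open MeasureTheory Set Real
open Pool.Agent.M18.Helper88.Slab

namespace Pool.Agent.M18.Helper89.FA

namespace ProbTwo

/-- The integral of a positive part. -/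
theorem integral_pos_part_le {a b : ℝ} (hab : a ≤ b) :
    ∫ v in a..b, max 0 v ≤ (max 0 b) ^ 2 / 2 := by
  have cont : Continuous fun y : ℝ => max 0 y := by fun_prop
  rcases le_total b 0 with h | h
  · have : ∫ v in a..b, max 0 v = ∫ v in a..b, (0 : ℝ) := by
      apply intervalIntegral.integral_congr
      intro t ht
      rw [uIcc_of_le hab] at ht
      simp only
      rw [max_eq_left]
      (clear * - h ht; linarith [ht.2])
    rw [this]
    simp only [intervalIntegral.integral_const, smul_eq_mul, mul_zero]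
    (clear * -; positivity)
  · rw [max_eq_right h]
    rcases le_total 0 a with h2 | h2
    · have : ∫ v in a..b, max 0 v = ∫ v in a..b, v := by
        apply intervalIntegral.integral_congr
        intro t ht
        rw [uIcc_of_le hab] at ht
        simp only
        rw [max_eq_right]
        (clear * - h2 ht; linarith [ht.1])
      rw [this, integral_id]
      (clear * -; nlinarith [sq_nonneg a])
    · rw [← intervalIntegral.integral_add_adjacent_intervals (b := 0)
        (cont.intervalIntegrable _ _) (cont.intervalIntegrable _ _)]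
      have h3 : ∫ v in a..0, max 0 v = ∫ v in a..0, (0 : ℝ) := by
        apply intervalIntegral.integral_congr
        intro t ht
        rw [uIcc_of_le h2] at ht
        simp only
        rw [max_eq_left]
        (clear * - ht; linarith [ht.2])
      have h4 : ∫ v in (0 : ℝ)..b, max 0 v = ∫ v in (0 : ℝ)..b, v := by
        apply intervalIntegral.integral_congr
        intro t ht
        rw [uIcc_of_le h] at ht
        simp only
        rw [max_eq_right]
        (clear * - ht; linarith [ht.1])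
      rw [h3, h4, integral_id]
      simp

/-- Average of a positive part. -/
theorem A_pos_part {q c : ℝ} (hq : 0 < q) (y : ℝ) :
    A q (fun x => max 0 (c + x)) y ≤ (max 0 (c + y + q)) ^ 2 / (4 * q) := by
  rw [A_eq]
  have h1 : ∫ u in (-1 : ℝ)..1, max 0 (c + (q * u + y)) =
      q⁻¹ • ∫ v in (q * (-1) + (c + y))..(q * 1 + (c + y)), max 0 v := by
    rw [← intervalIntegral.integral_comp_mul_add (fun v => max 0 v) hq.ne']
    apply intervalIntegral.integral_congr
    intro u _
    simp only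
    congr 1
    ring
  rw [h1]
  have h2 := integral_pos_part_le (a := q * (-1) + (c + y)) (b := q * 1 + (c + y)) (by (clear * - hq; linarith))
  rw [show q * 1 + (c + y) = c + y + q by ring] at h2 ⊢
  rw [smul_eq_mul]
  calc 1 / 2 * (q⁻¹ * ∫ v in (q * (-1) + (c + y))..(c + y + q), max 0 v)
      ≤ 1 / 2 * (q⁻¹ * ((max 0 (c + y + q)) ^ 2 / 2)) := by gcongr
    _ = _ := by field_simp; ring

theorem A_pos_part' {q c : ℝ} (hq : 0 < q) (y : ℝ) :
    A q (fun x => max 0 (c - x)) y ≤ (max 0 (c - y + q)) ^ 2 / (4 * q) := by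
  have h1 := A_pos_part (c := c) hq (-y)
  have h2 : A q (fun x => max 0 (c - x)) y = A q (fun x => max 0 (c + x)) (-y) := by
    rw [← A_neg_b, A, A]
    congr 1
    ext u
    congr 1
    ring
  rw [h2]
  rw [show c - y + q = c + -y + q by ring]
  exact h1

/-- The one-coordinate bound. -/
theorem A_ind_ge {p t : ℝ} (hp : 0 < p) (ht : 0 ≤ t) (y : ℝ) :
    1 - (max 0 (p - t + y) + max 0 (p - t - y)) / (2 * p) ≤ A p (ind t) y := by
  rw [A_ind hp ht, le_div_iff₀ (by positivity), sub_mul, div_mul_cancel₀ _ (by positivity), one_mul]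
  unfold clamp
  have h1 : (y + p) - max 0 (p - t + y) ≤ max (-t) (min t (y + p)) := by
    apply le_max_of_le_right
    apply le_min
    · linarith [le_max_right 0 (p - t + y)]
    · (clear * -; linarith [le_max_left 0 (p - t + y)])
  have h2 : max (-t) (min t (y - p)) ≤ (y - p) + max 0 (p - t - y) := by
    apply max_le
    · linarith [le_max_right 0 (p - t - y)]
    · exact (min_le_right _ _).trans (by (clear * -; linarith [le_max_left 0 (p - t - y)]))
  (clear * - h1 h2; linarith)

/-- The function bounding the defect. -/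
noncomputable def F (d y : ℝ) : ℝ := (max 0 (d + y)) ^ 2 + (max 0 (d - y)) ^ 2

theorem F_cont (d : ℝ) : Continuous (F d) := by unfold F; fun_prop

/-- The two-coordinate bound. -/
theorem two_ge {p q t : ℝ} (hp : 0 < p) (hq : 0 < q) (ht : 0 ≤ t) (y : ℝ) :
    1 - F (p + q - t) y / (8 * (p * q)) ≤ A q (A p (ind t)) y := by
  have c1 : Continuous fun x : ℝ => max 0 (p - t + x) := by fun_prop
  have c2 : Continuous fun x : ℝ => max 0 (p - t - x) := by fun_prop
  have h1 : A q (fun x => 1 - (max 0 (p - t + x) + max 0 (p - t - x)) / (2 * p)) y ≤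
      A q (A p (ind t)) y := by
    rw [A_eq, A_eq]
    apply mul_le_mul_of_nonneg_left _ (by norm_num)
    apply intervalIntegral.integral_mono_on (by norm_num)
    · exact Continuous.intervalIntegrable (by fun_prop) _ _
    · exact ((A_ind_cont hp ht).comp (by fun_prop)).intervalIntegrable _ _
    · intro u _
      exact A_ind_ge hp ht _
  refine le_trans ?_ h1
  have h2 : A q (fun x => 1 - (max 0 (p - t + x) + max 0 (p - t - x)) / (2 * p)) y =
      1 - (A q (fun x => max 0 (p - t + x)) y + A q (fun x => max 0 (p - t - x)) y) / (2 * p) := by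
    rw [A_eq, A_eq, A_eq, intervalIntegral.integral_sub, intervalIntegral.integral_div,
      intervalIntegral.integral_add]
    · simp only [intervalIntegral.integral_const, smul_eq_mul]
      ring
    all_goals exact Continuous.intervalIntegrable (by fun_prop) _ _
  rw [h2]
  have h3 := A_pos_part (c := p - t) hq y
  have h4 := A_pos_part' (c := p - t) hq y
  have h5 : (A q (fun x => max 0 (p - t + x)) y + A q (fun x => max 0 (p - t - x)) y) / (2 * p) ≤
      F (p + q - t) y / (8 * (p * q)) := by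
    calc _ ≤ ((max 0 (p - t + y + q)) ^ 2 / (4 * q) + (max 0 (p - t - y + q)) ^ 2 / (4 * q)) /
          (2 * p) := by (clear * - h3 h4 hp; gcongr)
      _ = _ := by
          unfold F
          rw [show p - t + y + q = p + q - t + y by ring, show p - t - y + q = p + q - t - y by ring]
          field_simp
          ring
  (clear * - h5; linarith)

/-- The integral of `F`. -/
theorem integral_F {d v : ℝ} (hd : 0 ≤ d) (hv : 0 ≤ v) :
    ∫ y in (0 : ℝ)..v, F d y ≤ ((d + v) ^ 3 - (max 0 (d - v)) ^ 3) / 3 := by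
  have c1 : Continuous fun x : ℝ => (max 0 (d + x)) ^ 2 := by fun_prop
  have c2 : Continuous fun x : ℝ => (max 0 (d - x)) ^ 2 := by fun_prop
  have h1 : ∫ y in (0 : ℝ)..v, F d y = (∫ y in (0 : ℝ)..v, (max 0 (d + y)) ^ 2) +
      ∫ y in (0 : ℝ)..v, (max 0 (d - y)) ^ 2 := by
    unfold F
    rw [intervalIntegral.integral_add (c1.intervalIntegrable _ _) (c2.intervalIntegrable _ _)]
  have h2 : ∫ y in (0 : ℝ)..v, (max 0 (d + y)) ^ 2 = ((d + v) ^ 3 - d ^ 3) / 3 := by
    have h3 : ∫ y in (0 : ℝ)..v, (max 0 (d + y)) ^ 2 = ∫ y in (0 : ℝ)..v, (d + y) ^ 2 := by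
      apply intervalIntegral.integral_congr
      intro t ht
      rw [uIcc_of_le hv] at ht
      simp only
      rw [max_eq_right (by (clear * - hd ht; linarith [ht.1]))]
    rw [h3, intervalIntegral.integral_comp_add_left (fun y => y ^ 2), integral_pow]
    norm_num
  have h4 : ∀ w, 0 ≤ w → w ≤ d → ∫ y in (0 : ℝ)..w, (max 0 (d - y)) ^ 2 =
      (d ^ 3 - (d - w) ^ 3) / 3 := by
    intro w hw hwd
    have h3 : ∫ y in (0 : ℝ)..w, (max 0 (d - y)) ^ 2 = ∫ y in (0 : ℝ)..w, (d - y) ^ 2 := by
      apply intervalIntegral.integral_congr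
      intro t ht
      rw [uIcc_of_le hw] at ht
      simp only
      rw [max_eq_right (by (clear * - hwd ht; linarith [ht.2]))]
    rw [h3, intervalIntegral.integral_comp_sub_left (fun y => y ^ 2), integral_pow]
    norm_num
  rw [h1, h2]
  rcases le_total v d with h | h
  · rw [h4 v hv h, max_eq_right (by (clear * - h; linarith))]
    apply le_of_eq
    ring
  · rw [← intervalIntegral.integral_add_adjacent_intervals (b := d)
      (c2.intervalIntegrable _ _) (c2.intervalIntegrable _ _), h4 d hd le_rfl,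
      max_eq_left (by (clear * - h; linarith))]
    have h5 : ∫ y in d..v, (max 0 (d - y)) ^ 2 = ∫ y in d..v, (0 : ℝ) := by
      apply intervalIntegral.integral_congr
      intro t ht
      rw [uIcc_of_le h] at ht
      simp only
      rw [max_eq_left (by (clear * - ht; linarith [ht.1]))]
      ring
    rw [h5]
    simp only [intervalIntegral.integral_const, smul_eq_mul, mul_zero, sub_self]
    apply le_of_eq
    ring

/-- The cubic inequality. -/
theorem cubic {d z v : ℝ} (hd : 0 ≤ d) (hz : 0 < z) (hdz : d ≤ z) (hv : 0 ≤ v) :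
    ((d + v) ^ 3 - (max 0 (d - v)) ^ 3) / 3 ≤
      d * (z + d) ^ 2 / (2 * z) * v + (z + d) ^ 2 * (2 * z - d) / (6 * z ^ 3) * v ^ 3 := by
  -- the case `d ≤ v`
  have key : ∀ v, 0 ≤ v → d ≤ v → (d + v) ^ 3 / 3 ≤
      d * (z + d) ^ 2 / (2 * z) * v + (z + d) ^ 2 * (2 * z - d) / (6 * z ^ 3) * v ^ 3 := by
    intro v hv hdv
    have e : d * (z + d) ^ 2 / (2 * z) * v + (z + d) ^ 2 * (2 * z - d) / (6 * z ^ 3) * v ^ 3 -
        (d + v) ^ 3 / 3 = (v - z) ^ 2 * (d * ((3 * z ^ 2 - d ^ 2) * v - 2 * z * d ^ 2)) /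
          (6 * z ^ 3) := by
      field_simp
      ring
    have h1 : 0 ≤ (3 * z ^ 2 - d ^ 2) * v - 2 * z * d ^ 2 := by
      have h2 : 0 ≤ 3 * z ^ 2 - d ^ 2 := by (clear * - hd hdz hz; nlinarith)
      have h3 : 0 ≤ (3 * z ^ 2 - d ^ 2) * (v - d) := mul_nonneg h2 (by (clear * - hdv; linarith))
      have h4 : 0 ≤ d * ((3 * z + d) * (z - d)) :=
        mul_nonneg hd (mul_nonneg (by (clear * - hd hz; linarith)) (by (clear * - hdz; linarith)))
      (clear * - h3 h4; nlinarith)
    have h5 : 0 ≤ (v - z) ^ 2 * (d * ((3 * z ^ 2 - d ^ 2) * v - 2 * z * d ^ 2)) /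
          (6 * z ^ 3) := by (clear * - hd h1 hz; positivity)
    (clear * - e h5; linarith)
  rcases le_total v d with h | h
  · rw [max_eq_right (by linarith)]
    set α := d * (z + d) ^ 2 / (2 * z) with hα
    set γ := (z + d) ^ 2 * (2 * z - d) / (6 * z ^ 3) with hγ
    have h1 : 0 ≤ α - 2 * d ^ 2 := by
      have : α - 2 * d ^ 2 = d * (z - d) ^ 2 / (2 * z) := by
        rw [hα]; field_simp; ring
      rw [this]; (clear * - hd hz; positivity)
    have h2 := key d hd le_rfl
    have h3 : (d + v) ^ 3 / 3 - (d - v) ^ 3 / 3 = v * (2 * d ^ 2 + 2 * v ^ 2 / 3) := by ring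
    rw [sub_div, h3]
    have h4 : 2 * d ^ 2 + 2 * v ^ 2 / 3 ≤ α + γ * v ^ 2 := by
      rcases le_total (2 / 3) γ with h5 | h5
      · (clear * - h1 h5; nlinarith [sq_nonneg v])
      · rcases hd.eq_or_lt with h6 | h6
        · have h7 : v = 0 := by (clear * - hv h h6; linarith)
          rw [h7]
          (clear * - h1; nlinarith)
        · have h7 : 8 * d ^ 2 / 3 ≤ α + γ * d ^ 2 := by
            have h8 : d * (8 * d ^ 2 / 3) ≤ d * (α + γ * d ^ 2) := by (clear * - h2; nlinarith)
            exact le_of_mul_le_mul_left h8 h6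
          have h8 : v ^ 2 ≤ d ^ 2 := by (clear * - hd h hv; nlinarith)
          (clear * - h7 h5 h8; nlinarith)
    calc v * (2 * d ^ 2 + 2 * v ^ 2 / 3) ≤ v * (α + γ * v ^ 2) := by gcongr
      _ = α * v + γ * v ^ 3 := by ring
  · rw [max_eq_left (by linarith)]
    have := key v hv h
    simpa using this

/-- Expectation of `F`, first bound. -/
theorem expect_F_a {k : ℕ} (b : Fin k → ℝ) (d : ℝ) (hd : 0 ≤ d) :
    ∫ y, F d (∑ l, b l * y l) ∂(cube k) ≤ 2 * d ^ 2 + 2 / 3 * ∑ l, b l ^ 2 := by
  have h1 : ∫ y, F d (∑ l, b l * y l) ∂(cube k) ≤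
      ∫ y, (2 * ((∑ l, b l * y l) ^ 2 + d ^ 2)) ∂(cube k) := by
    apply integral_mono
    · exact integrable_cube ((F_cont d).comp (by fun_prop))
    · exact integrable_cube (by fun_prop)
    · intro y
      simp only
      unfold F
      set w := ∑ l, b l * y l
      have h2 : (max 0 (d + w)) ^ 2 ≤ (d + w) ^ 2 := by
        rcases le_total 0 (d + w) with h | h
        · rw [max_eq_right h]
        · rw [max_eq_left h]; nlinarith
      have h3 : (max 0 (d - w)) ^ 2 ≤ (d - w) ^ 2 := by
        rcases le_total 0 (d - w) with h | h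
        · rw [max_eq_right h]
        · rw [max_eq_left h]; (clear * -; nlinarith)
      nlinarith
  rw [integral_const_mul, cube_sq] at h1
  (clear * - h1; linarith)

/-- Expectation of `F`, second bound. -/
theorem expect_F_b {k : ℕ} (b : Fin k → ℝ) {d z : ℝ} (hd : 0 ≤ d) (hz : 0 < z) (hdz : d ≤ z)
    (hm : ∑ l, b l ^ 2 = z ^ 2) :
    ∫ y, F d (∑ l, b l * y l) ∂(cube k) ≤ (z + d) ^ 3 / (3 * z) := by
  set α := d * (z + d) ^ 2 / (2 * z) with hα
  set γ := (z + d) ^ 2 * (2 * z - d) / (6 * z ^ 3) with hγ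
  set Q : ℝ → ℝ := fun y => α + 3 * γ * y ^ 2 - F d y with hQd
  have hFc := F_cont d
  have hQ : Good Q := by
    refine ⟨by fun_prop, ?_, ?_⟩
    · intro y
      simp only [hQd]
      unfold F
      rw [show d + -y = d - y by ring, show d - -y = d + y by ring]
      ring
    · intro v hv
      have h1 : ∫ y in (0 : ℝ)..v, Q y = (α * v + γ * v ^ 3) - ∫ y in (0 : ℝ)..v, F d y := by
        simp only [hQd]
        rw [intervalIntegral.integral_sub, intervalIntegral.integral_add]
        · simp only [intervalIntegral.integral_const_mul, integral_pow,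
            intervalIntegral.integral_const, smul_eq_mul]
          push_cast
          ring
        all_goals exact Continuous.intervalIntegrable (by fun_prop) _ _
      rw [h1]
      have h2 := integral_F hd hv
      have h3 := cubic hd hz hdz hv
      linarith
  have hcube := hQ.cube b
  have hsplit : ∫ y, Q (∑ j, b j * y j) ∂(cube k) =
      (∫ y, (3 * γ) * ((∑ j, b j * y j) ^ 2 + 0) + α ∂(cube k)) -
        ∫ y, F d (∑ j, b j * y j) ∂(cube k) := by
    rw [← integral_sub]
    · congr 1
      ext y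
      simp only [hQd]
      ring
    · exact integrable_cube (by fun_prop)
    · exact integrable_cube (hFc.comp (by fun_prop))
  rw [hsplit, integral_add (integrable_cube (by fun_prop)) (integrable_cube (by fun_prop)),
    integral_const_mul, cube_sq, hm] at hcube
  simp only [integral_const, probReal_univ, smul_eq_mul] at hcube
  have e : 3 * γ * (z ^ 2 / 3 + 0) + 1 * α = (z + d) ^ 3 / (3 * z) := by
    rw [hγ, hα]; field_simp; ring
  rw [e] at hcube
  (clear * - hcube; linarith)

/-- Reduction to the expectation of `F`. -/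
theorem prob_ge_F {n : ℕ} (a : Fin n → ℝ) (i j : Fin n) (hij : i ≠ j) (ha : ∑ l, a l ^ 2 = 1)
    {t : ℝ} (ht : 0 < t) (hi : a i ≠ 0) (hj : a j ≠ 0) :
    ∃ (k : ℕ) (b : Fin k → ℝ), ∑ l, b l ^ 2 = 1 - a i ^ 2 - a j ^ 2 ∧
      1 - (∫ y, F (|a i| + |a j| - t) (∑ l, b l * y l) ∂(cube k)) / (8 * (|a i| * |a j|)) ≤
        prob a t := by
  obtain ⟨k, rfl⟩ : ∃ k, n = k + 1 := ⟨n - 1, by have := i.pos; omega⟩
  obtain ⟨j', rfl⟩ := Fin.exists_succAbove_eq (Ne.symm hij)
  obtain ⟨m, rfl⟩ : ∃ m, k = m + 1 := ⟨k - 1, by have := j'.pos; omega⟩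
  have hp : 0 < |a i| := abs_pos.2 hi
  have hq : 0 < |a (i.succAbove j')| := abs_pos.2 hj
  refine ⟨m, fun l => a (i.succAbove (j'.succAbove l)), ?_, ?_⟩
  · rw [← ha, Fin.sum_univ_succAbove _ i, Fin.sum_univ_succAbove _ j']
    ring
  · rw [prob_split a i, cube_split_cont j' _ _ (A_ind_cont hp ht.le)]
    set p := |a i|
    set q := |a (i.succAbove j')| with hqd
    have hF : ∀ y : Fin m → ℝ, 1 - F (p + q - t)
        (∑ l, a (i.succAbove (j'.succAbove l)) * y l) / (8 * (p * q)) ≤
        A (a (i.succAbove j')) (A p (ind t)) (∑ l, a (i.succAbove (j'.succAbove l)) * y l) := by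
      intro y
      rw [← A_abs_b (a (i.succAbove j'))]
      exact two_ge hp hq ht.le _
    have hFc := F_cont (p + q - t)
    have hI1 : Integrable (fun y : Fin m → ℝ => F (p + q - t)
        (∑ l, a (i.succAbove (j'.succAbove l)) * y l) / (8 * (p * q))) (cube m) :=
      integrable_cube ((hFc.comp (by fun_prop)).div_const _)
    calc 1 - (∫ y, F (p + q - t) (∑ l, a (i.succAbove (j'.succAbove l)) * y l) ∂(cube m)) /
          (8 * (p * q)) = ∫ y, (1 - F (p + q - t)
            (∑ l, a (i.succAbove (j'.succAbove l)) * y l) / (8 * (p * q))) ∂(cube m) := by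
          rw [integral_sub (integrable_const _) hI1, integral_div]
          simp
      _ ≤ _ := by
          apply integral_mono
          · exact (integrable_const _).sub hI1
          · exact integrable_cube ((A_cont _ (A_ind_cont hp ht.le)).comp (by fun_prop))
          · exact hF

end ProbTwo

open ProbTwo in
theorem prob_two {n : ℕ} (a : Fin n → ℝ) (i j : Fin n) (hij : i ≠ j) (ha : ∑ l, a l ^ 2 = 1)
    {t : ℝ} (ht : 0 < t) (hi : a i ≠ 0) (hj : a j ≠ 0) (hs : t ≤ |a i| + |a j|) :
    1 - (3 * (|a i| + |a j| - t) ^ 2 + (1 - a i ^ 2 - a j ^ 2)) / (12 * (|a i| * |a j|)) ≤ prob a t ∧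
    ∀ z : ℝ, 0 < z → z ^ 2 = 1 - a i ^ 2 - a j ^ 2 →
      1 - (z + (|a i| + |a j| - t)) ^ 3 / (24 * (|a i| * |a j|) * z) ≤ prob a t := by
  obtain ⟨k, b, hb, hF⟩ := prob_ge_F a i j hij ha ht hi hj
  have hp : 0 < |a i| := abs_pos.2 hi
  have hq : 0 < |a j| := abs_pos.2 hj
  set p := |a i|
  set q := |a j|
  set d := p + q - t with hd
  have hd0 : 0 ≤ d := by rw [hd]; (clear * - hs; linarith)
  have h1 := expect_F_a b d hd0
  rw [hb] at h1
  set m := 1 - a i ^ 2 - a j ^ 2 with hm
  have hA : 1 - (3 * d ^ 2 + m) / (12 * (p * q)) ≤ prob a t := by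
    refine le_trans ?_ hF
    have h2 : (∫ y, F d (∑ l, b l * y l) ∂(cube k)) / (8 * (p * q)) ≤
        (2 * d ^ 2 + 2 / 3 * m) / (8 * (p * q)) := by gcongr
    have h3 : (2 * d ^ 2 + 2 / 3 * m) / (8 * (p * q)) = (3 * d ^ 2 + m) / (12 * (p * q)) := by
      field_simp
      ring
    (clear * - h2 h3; linarith)
  refine ⟨hA, ?_⟩
  intro z hz hzm
  rcases le_total d z with h | h
  · refine le_trans ?_ hF
    have h2 := expect_F_b b hd0 hz h (by rw [hb, hzm])
    have h3 : (∫ y, F d (∑ l, b l * y l) ∂(cube k)) / (8 * (p * q)) ≤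
        ((z + d) ^ 3 / (3 * z)) / (8 * (p * q)) := by (clear * - h2 hi hj; gcongr)
    have h4 : ((z + d) ^ 3 / (3 * z)) / (8 * (p * q)) = (z + d) ^ 3 / (24 * (p * q) * z) := by
      field_simp
      ring
    linarith
  · refine le_trans ?_ hA
    rw [← hzm]
    have h3 : (3 * d ^ 2 + z ^ 2) / (12 * (p * q)) ≤ (z + d) ^ 3 / (24 * (p * q) * z) := by
      rw [div_le_div_iff₀ (by positivity) (by positivity)]
      have h4 : 0 ≤ (d - z) ^ 3 := pow_nonneg (by (clear * - h; linarith)) 3
      have h5 : (3 * d ^ 2 + z ^ 2) * (24 * (p * q) * z) + (d - z) ^ 3 * (12 * (p * q)) =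
          (z + d) ^ 3 * (12 * (p * q)) := by ring
      have h6 : 0 ≤ (d - z) ^ 3 * (12 * (p * q)) := by (clear * - h hi hj; positivity)
      (clear * - h6; linarith)
    linarith

end Pool.Agent.M18.Helper89.FA
end

/- Helper34.Slab.FTwoValue -/
section
set_option autoImplicit false

open MeasureTheory Set Real
open scoped ENNReal Topology

namespace Pool.Agent.M18.Helper34.Slab

open Pool.Agent.M18.Helper88.Slab

/-- The slab orthogonal to `f₂`. -/
lemma prob_f2 {n : ℕ} (hn : 2 ≤ n) {t : ℝ} (h1 : 1 / Real.sqrt 2 ≤ t) (h2 : t ≤ Real.sqrt 2) :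
    prob (fun j : Fin n => if (j : ℕ) < 2 then 1 / Real.sqrt 2 else 0) t =
      Real.sqrt 2 * t - t^2/2 := by
  obtain ⟨m, rfl⟩ : ∃ m, n = m + 2 := ⟨n - 2, by omega⟩
  obtain ⟨s, hs⟩ : ∃ s, s = 1 / Real.sqrt 2 := ⟨_, rfl⟩
  have hq0 : 0 < Real.sqrt 2 := by positivity
  have hq : Real.sqrt 2 ^ 2 = 2 := Real.sq_sqrt (by norm_num)
  have hs0 : 0 < s := by rw [hs]; positivity
  have hs2 : s^2 = 1/2 := by rw [hs, div_pow, hq]; norm_num
  have hqs : Real.sqrt 2 = 2 * s := by
    rw [hs]; field_simp; (clear * - hq; linarith)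
  rw [← hs] at h1
  simp_rw [← hs]
  have ht0 : 0 ≤ t := hs0.le.trans h1
  rw [prob_split _ 0, cube_split_cont 0 _ _ (by
    have e : |(if ((0 : Fin (m + 1 + 1)) : ℕ) < 2 then s else 0)| = s := by simp [abs_of_pos hs0]
    rw [e]
    exact A_ind_cont hs0 ht0)]
  have e0 : |(if ((0 : Fin (m + 1 + 1)) : ℕ) < 2 then s else 0)| = s := by simp [abs_of_pos hs0]
  have e1 : (if ((((0 : Fin (m+1+1)).succAbove (0 : Fin (m + 1)) : Fin (m + 1 + 1))) : ℕ) < 2 then s else 0) = s := by
    simp
  have e2 : ∀ j : Fin m, (if ((((0 : Fin (m+1+1)).succAbove ((0 : Fin (m+1)).succAbove j) : Fin (m + 1 + 1))) : ℕ) < 2 then s else 0) = 0 := by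
    intro j
    simp
  rw [e0, e1]
  simp only [e2, zero_mul, Finset.sum_const_zero, integral_const, probReal_univ, one_smul]
  -- now compute `A s (A s (ind t)) 0`
  have heven : ∀ y, A s (ind t) (-y) = A s (ind t) y := A_even s (ind_even t)
  have hcont := A_ind_cont hs0 ht0
  rw [A_eq]
  simp only [add_zero]
  rw [intervalIntegral.integral_comp_mul_left (fun z => A s (ind t) z) hs0.ne']
  have hsym : ∫ z in (s * -1)..(s * 1), A s (ind t) z = 2 * ∫ z in (0:ℝ)..s, A s (ind t) z := by
    rw [mul_neg_one, mul_one,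
      ← intervalIntegral.integral_add_adjacent_intervals (b := (0:ℝ))
      (hcont.intervalIntegrable _ _) (hcont.intervalIntegrable _ _)]
    have := intervalIntegral.integral_comp_neg (a := 0) (b := s) (f := A s (ind t))
    simp only [neg_zero] at this
    rw [← this]
    have h3 : ∫ x in (0:ℝ)..s, A s (ind t) (-x) = ∫ x in (0:ℝ)..s, A s (ind t) x := by
      apply intervalIntegral.integral_congr
      intro x _
      exact heven x
    rw [h3]; ring
  rw [hsym]
  have hc : 0 ≤ t - s := by (clear * - h1; linarith)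
  have hval : ∫ z in (0:ℝ)..s, A s (ind t) z = ∫ z in (0:ℝ)..s, (1 - max 0 (z - (t - s)) / (2*s)) := by
    apply intervalIntegral.integral_congr
    intro z hz
    rw [uIcc_of_le hs0.le] at hz
    simp only
    rw [A_ind hs0 ht0]
    unfold clamp
    rw [min_eq_right (by (clear * - h1 hs0 hz; linarith [hz.1, hz.2]) : z - s ≤ t),
      max_eq_right (by (clear * - h1 hz; linarith [hz.1]) : -t ≤ z - s),
      max_eq_right (by rw [le_min_iff]; constructor <;> (clear * - h1 hs0 hz; linarith [hz.1]) : -t ≤ min t (z + s))]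
    rcases le_total (z - (t - s)) 0 with h | h
    · rw [max_eq_left h, min_eq_right (by (clear * - h; linarith))]
      field_simp
      ring
    · rw [max_eq_right h, min_eq_left (by (clear * - h; linarith))]
      field_simp
      ring
  rw [hval, intervalIntegral.integral_sub, intervalIntegral.integral_div, integral_max hc hs0.le]
  · simp only [intervalIntegral.integral_const, sub_zero, smul_eq_mul, mul_one]
    rw [max_eq_right (by rw [hqs] at h2; (clear * - h2; linarith)), hqs]
    field_simp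
    (clear * - hs2; nlinarith)
  · exact Continuous.intervalIntegrable (by fun_prop) _ _
  · exact Continuous.intervalIntegrable (by fun_prop) _ _

end Pool.Agent.M18.Helper34.Slab
end

/- Helper59.FA.F7 -/
section
set_option autoImplicit false

open MeasureTheory Set Real
open Pool.Agent.M18.Helper88.Slab (prob ind A cube U)

namespace Pool.Agent.M18.Helper89.FA

open Pool.Agent.M18.Helper88.Slab in
private lemma conc_good {t t' l : ℝ} (ht : 0 ≤ t) (htt : t ≤ t') (hl0 : 0 ≤ l) (hl1 : l ≤ 1) :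
    Good0 (fun y => ind ((1 - l) * t + l * t') y - ((1 - l) * ind t y + l * ind t' y)) := by
  have ht' : 0 ≤ t' := ht.trans htt
  have hT : 0 ≤ (1 - l) * t + l * t' :=
    add_nonneg (mul_nonneg (by linarith) ht) (mul_nonneg hl0 ht')
  have i1 : ∀ s x y, IntervalIntegrable (ind s) volume x y := ind_intervalIntegrable
  refine ⟨fun x y => (i1 _ x y).sub (((i1 t x y).const_mul (1 - l)).add ((i1 t' x y).const_mul l)), ?_, ?_⟩
  · intro y; simp only [ind_even]
  · intro v hv
    rw [intervalIntegral.integral_sub (i1 _ 0 v)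
      (((i1 t 0 v).const_mul (1 - l)).add ((i1 t' 0 v).const_mul l)),
      intervalIntegral.integral_add ((i1 t 0 v).const_mul (1 - l)) ((i1 t' 0 v).const_mul l),
      intervalIntegral.integral_const_mul, intervalIntegral.integral_const_mul,
      integral_ind_nonneg hT hv, integral_ind_nonneg ht hv, integral_ind_nonneg ht' hv]
    have h1 : (1 - l) * min t v ≤ (1 - l) * t := mul_le_mul_of_nonneg_left (min_le_left _ _) (by linarith)
    have h2 : l * min t' v ≤ l * t' := mul_le_mul_of_nonneg_left (min_le_left _ _) hl0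
    have h3 : (1 - l) * min t v ≤ (1 - l) * v := mul_le_mul_of_nonneg_left (min_le_right _ _) (by linarith)
    have h4 : l * min t' v ≤ l * v := mul_le_mul_of_nonneg_left (min_le_right _ _) hl0
    have h5 : (1 - l) * min t v + l * min t' v ≤ min ((1 - l) * t + l * t') v := by
      apply le_min <;> linarith
    linarith

private lemma int_ind_U (s b y : ℝ) : Integrable (fun u => ind s (b * u + y)) U := by
  refine Integrable.of_bound ((Pool.Agent.M18.Helper88.Slab.ind_measurable s).comp
    (by fun_prop)).aestronglyMeasurable 1 ?_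
  filter_upwards with u
  rw [Real.norm_eq_abs, abs_of_nonneg (Pool.Agent.M18.Helper88.Slab.ind_nonneg _ _)]
  exact Pool.Agent.M18.Helper88.Slab.ind_le_one _ _

theorem prob_concave {n : ℕ} (a : Fin n → ℝ) (i : Fin n) (hi : a i ≠ 0) {t t' l : ℝ} (ht : 0 ≤ t)
    (htt : t ≤ t') (hl0 : 0 ≤ l) (hl1 : l ≤ 1) :
    (1 - l) * prob a t + l * prob a t' ≤ prob a ((1 - l) * t + l * t') := by
  obtain ⟨m, rfl⟩ : ∃ m, n = m + 1 := ⟨n - 1, by have := i.2; omega⟩
  have ht' : 0 ≤ t' := ht.trans htt
  have hT : 0 ≤ (1 - l) * t + l * t' :=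
    add_nonneg (mul_nonneg (by linarith) ht) (mul_nonneg hl0 ht')
  have hs : 0 < |a i| := abs_pos.mpr hi
  have hgood := (conc_good ht htt hl0 hl1).A hs.ne'
  have hcube := hgood.cube (fun j => a (i.succAbove j))
  set T := (1 - l) * t + l * t' with hTdef
  have hA : ∀ y, A |a i| (fun y => ind T y - ((1 - l) * ind t y + l * ind t' y)) y =
      A |a i| (ind T) y - ((1 - l) * A |a i| (ind t) y + l * A |a i| (ind t') y) := by
    intro y
    have f1 := integral_sub (int_ind_U T |a i| y)
      (((int_ind_U t |a i| y).const_mul (1 - l)).add ((int_ind_U t' |a i| y).const_mul l))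
    have f2 := integral_add ((int_ind_U t |a i| y).const_mul (1 - l))
      ((int_ind_U t' |a i| y).const_mul l)
    rw [integral_const_mul, integral_const_mul] at f2
    simp only [Pi.add_apply] at f1 f2
    rw [A, A, A, A, f1, f2]
  simp_rw [hA] at hcube
  have c : ∀ s, 0 ≤ s → Continuous (A |a i| (ind s)) :=
    fun s hs' => Pool.Agent.M18.Helper88.Slab.A_ind_cont hs hs'
  have ci : ∀ s, 0 ≤ s → Integrable (fun y : Fin m → ℝ => A |a i| (ind s)
      (∑ j, a (i.succAbove j) * y j)) (cube m) :=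
    fun s hs' => Pool.Agent.M18.Helper88.Slab.integrable_cube (by have := c s hs'; fun_prop)
  have e1 := integral_sub (ci T hT) (((ci t ht).const_mul (1 - l)).add ((ci t' ht').const_mul l))
  have e2 := integral_add ((ci t ht).const_mul (1 - l)) ((ci t' ht').const_mul l)
  rw [integral_const_mul, integral_const_mul] at e2
  rw [← Pool.Agent.M18.Helper88.Slab.prob_split, ← Pool.Agent.M18.Helper88.Slab.prob_split] at e2
  simp only [Pi.add_apply] at e1 e2 hcube
  rw [e1, ← Pool.Agent.M18.Helper88.Slab.prob_split, e2] at hcube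
  linarith

/-- The indicator of `|z| = t`. -/
private noncomputable def bd (t z : ℝ) : ℝ := if |z| = t then 1 else 0

private lemma bd_measurable (t : ℝ) : Measurable (bd t) := by
  unfold bd
  apply Measurable.ite _ measurable_const measurable_const
  exact measurableSet_eq_fun (by fun_prop) (by fun_prop)

private lemma bd_nonneg (t z : ℝ) : 0 ≤ bd t z := by
  unfold bd; split_ifs <;> norm_num

private lemma bd_le_one (t z : ℝ) : bd t z ≤ 1 := by
  unfold bd; split_ifs <;> norm_num

private lemma bd_integrable {n : ℕ} (t : ℝ) (a : Fin n → ℝ) :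
    Integrable (fun x : Fin n → ℝ => bd t (∑ j, a j * x j)) (cube n) := by
  refine Integrable.of_bound ?_ 1 ?_
  · exact ((bd_measurable t).comp (by fun_prop)).aestronglyMeasurable
  · filter_upwards with x
    rw [Real.norm_eq_abs, abs_of_nonneg (bd_nonneg _ _)]
    exact bd_le_one _ _

private lemma A_bd {b : ℝ} (hb : b ≠ 0) (t y : ℝ) : A b (bd t) y = 0 := by
  rw [Pool.Agent.M18.Helper88.Slab.A_eq, mul_eq_zero]
  right
  have hfin : ({(t - y) / b, (-t - y) / b} : Set ℝ).Finite := by simp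
  have h0 : ∀ᵐ u : ℝ ∂volume, u ∉ ({(t - y) / b, (-t - y) / b} : Set ℝ) :=
    (measure_eq_zero_iff_ae_notMem).1 (hfin.measure_zero volume)
  have : ∫ u in (-1:ℝ)..1, bd t (b * u + y) = ∫ u in (-1:ℝ)..1, (0:ℝ) := by
    apply intervalIntegral.integral_congr_ae
    filter_upwards [h0] with u hu _
    unfold bd
    rw [if_neg]
    intro habs
    apply hu
    simp only [mem_insert_iff, mem_singleton_iff]
    rcases abs_choice (b * u + y) with h | h
    · left
      rw [h] at habs
      field_simp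
      linarith
    · right
      rw [h] at habs
      field_simp
      linarith
  rw [this]; simp

private lemma bd_null {n : ℕ} (a : Fin n → ℝ) (i : Fin n) (hi : a i ≠ 0) (t : ℝ) :
    ∀ᵐ x ∂(cube n), |∑ j, a j * x j| ≠ t := by
  obtain ⟨m, rfl⟩ : ∃ m, n = m + 1 := ⟨n - 1, by have := i.2; omega⟩
  have h1 : ∫ x, bd t (∑ j, a j * x j) ∂(cube (m + 1)) = 0 := by
    rw [Pool.Agent.M18.Helper88.Slab.cube_split i a (bd t) (bd_integrable t a)]
    simp only [A_bd hi]
    simp
  have h2 := (integral_eq_zero_iff_of_nonneg (fun x => bd_nonneg _ _) (bd_integrable t a)).1 h1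
  filter_upwards [h2] with x hx habs
  simp only [bd, if_pos habs, Pi.zero_apply] at hx
  norm_num at hx

theorem prob_tendsto {n : ℕ} (a : ℕ → Fin n → ℝ) (a₀ : Fin n → ℝ)
    (h : ∀ j, Filter.Tendsto (fun k => a k j) Filter.atTop (nhds (a₀ j))) (i : Fin n)
    (hi : a₀ i ≠ 0) {t : ℝ} (ht : 0 < t) :
    Filter.Tendsto (fun k => prob (a k) t) Filter.atTop (nhds (prob a₀ t)) := by
  unfold prob
  apply tendsto_integral_of_dominated_convergence (fun _ => (1:ℝ))
  · intro k
    exact (Pool.Agent.M18.Helper88.Slab.ind_integrable_cube t (a k)).aestronglyMeasurable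
  · exact integrable_const _
  · intro k
    filter_upwards with x
    rw [Real.norm_eq_abs, abs_of_nonneg (Pool.Agent.M18.Helper88.Slab.ind_nonneg _ _)]
    exact Pool.Agent.M18.Helper88.Slab.ind_le_one _ _
  · filter_upwards [bd_null a₀ i hi t] with x hx
    have hS : Filter.Tendsto (fun k => |∑ j, a k j * x j|) Filter.atTop
        (nhds |∑ j, a₀ j * x j|) := by
      apply Filter.Tendsto.abs
      apply tendsto_finsetSum
      intro j _
      exact (h j).mul_const _
    apply tendsto_const_nhds.congr'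
    rcases lt_or_gt_of_ne hx with h1 | h1
    · filter_upwards [hS.eventually_lt_const h1] with k hk
      simp only [ind, if_pos h1.le, if_pos hk.le]
    · filter_upwards [hS.eventually_const_lt h1] with k hk
      simp only [ind, if_neg (not_le.mpr h1), if_neg (not_le.mpr hk)]

end Pool.Agent.M18.Helper89.FA
end

/- Helper65.FA.CaseC -/
section
/-!
Module FA-F6 of the project on MP_66ebcc_gt: the case of one large coordinate.
-/

set_option autoImplicit false

open MeasureTheory Set Real
open Pool.Agent.M18.Helper88.Slab (prob ind A cube)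

namespace Pool.Agent.M18.Helper89.FA

/-- the scalar inequality behind `caseC`. -/
lemma caseC_scalar {s t q : ℝ} (hs0 : 0.78 ≤ s) (hs1 : s ≤ 1) (ht1 : 1.0129 ≤ t) (ht2 : t ≤ 1.03)
    (hq0 : 0 ≤ q) (hq : q ≤ 1.73206) :
    24 * (1 - s ^ 2) ≤ 27 * s * (t - s) * (3 - q * t) ^ 3 := by
  have hw : (3 : ℝ) - 1.73206 * t ≤ 3 - q * t := by nlinarith
  obtain ⟨w, hwdef⟩ : ∃ w, w = 3 - q * t := ⟨_, rfl⟩
  rw [← hwdef] at hw ⊢
  have hwpos : 0 < w := by (clear * - ht2 hw; nlinarith)
  have hcub : (1.860867 : ℝ) + 4.5387 * (w - 1.23) ≤ w ^ 3 := by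
    (clear * - ht2 hw; nlinarith [mul_nonneg (by linarith : (0:ℝ) ≤ w + 2 * 1.23) (sq_nonneg (w - 1.23))])
  have hcub2 : (1.860867 : ℝ) + 4.5387 * (3 - 1.73206 * t - 1.23) ≤ w ^ 3 := by (clear * - hw hcub; linarith)
  have h2 : (24 : ℝ) * 0.3916 ≤ 27 * 0.78 * (t - 0.78) * w ^ 3 := by
    have h3 : 27 * 0.78 * (t - 0.78) * ((1.860867 : ℝ) + 4.5387 * (3 - 1.73206 * t - 1.23)) ≤
        27 * 0.78 * (t - 0.78) * w ^ 3 := by
      apply mul_le_mul_of_nonneg_left hcub2
      (clear * - ht1; nlinarith)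
    (clear * - ht2 h3 ht1; nlinarith [mul_nonneg (by linarith : (0:ℝ) ≤ t - 1.0129) (by linarith : (0:ℝ) ≤ 1.03 - t)])
  have h1 : (1 - s ^ 2) * (0.78 * (t - 0.78)) ≤ 0.3916 * (s * (t - s)) := by
    have : 0 ≤ (s - 0.78) * ((t - 0.78) - (1 - 0.78 * t) * s) := by
      apply mul_nonneg (by (clear * - hs0; linarith))
      (clear * - hs1 ht1 hs0; nlinarith)
    (clear * - this; nlinarith)
  have hst : 0 ≤ s * (t - s) := mul_nonneg (by (clear * - hs0; linarith)) (by (clear * - hs1 ht1; linarith))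
  have hA : 0 < 0.78 * (t - 0.78) := by (clear * - ht1; nlinarith)
  have h4 : 24 * (1 - s ^ 2) * (0.78 * (t - 0.78)) ≤
      (27 * s * (t - s) * w ^ 3) * (0.78 * (t - 0.78)) := by
    have h5 := mul_le_mul_of_nonneg_left h2 hst
    (clear * - h1 h5; nlinarith)
  exact le_of_mul_le_mul_right h4 hA

theorem caseC {n : ℕ} (a : Fin n → ℝ) (i : Fin n) (ha : ∑ j, a j ^ 2 = 1) {t M : ℝ}
    (ht1 : 1.0129 ≤ t) (ht2 : t ≤ 1.03) (hM : M = (3 - √3 * t) ^ 3 / 24) (h : 0.78 ≤ |a i|) :
    1 - M ≤ prob a t := by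
  obtain ⟨m, rfl⟩ : ∃ m, n = m + 1 := ⟨n - 1, by have := i.2; omega⟩
  obtain ⟨s, hsdef⟩ : ∃ s, |a i| = s := ⟨_, rfl⟩
  rw [hsdef] at h
  have hs0 : 0 < s := by (clear * - h; linarith)
  have hs1 : s ≤ 1 := by
    have : a i ^ 2 ≤ 1 := by
      rw [← ha]
      exact Finset.single_le_sum (f := fun j => a j ^ 2) (fun j _ => sq_nonneg _)
        (Finset.mem_univ i)
    have h2 : s ^ 2 ≤ 1 := by rwa [← hsdef, sq_abs]
    (clear * - h2 h; nlinarith)
  have hc : 0 < t - s := by (clear * - ht1 hs1; linarith)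
  have key := Pool.Agent.M18.Helper88.Slab.prob_ge a i (T := t) (α := 1)
    (γ := 1 / (27 * s * (t - s))) (by (clear * - ht2 h hc; linarith)) ha hs0 hsdef (by
      intro v hv
      rw [abs_of_pos hc]
      have h1 : (1 : ℝ) ≤ min 1 (t / s) := by
        apply le_min le_rfl
        rw [le_div_iff₀ hs0]
        (clear * - hc; linarith)
      exact Pool.Agent.M18.Helper88.Slab.cubic0 hs0 hc h1 hv)
  refine le_trans ?_ key
  have hq0 : (0 : ℝ) ≤ √3 := Real.sqrt_nonneg _
  have hq : √3 ≤ 1.73206 := by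
    rw [Real.sqrt_le_left (by norm_num)]
    norm_num
  have hsc := caseC_scalar h hs1 ht1 ht2 hq0 hq
  have h3 : 1 / (27 * s * (t - s)) * (1 - s ^ 2) ≤ M := by
    rw [hM, div_mul_eq_mul_div, one_mul, div_le_div_iff₀ (by positivity) (by norm_num)]
    (clear * - hsc; linarith)
  (clear * - h3; linarith)

end Pool.Agent.M18.Helper89.FA
end

/- Helper82.FA.F8 -/
section
/-!
Module F8 of project FA (MP_66ebcc_gt): the value of `prob` in the direction `f₃`.
-/

set_option autoImplicit false

open MeasureTheory Set Real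
open Pool.Agent.M18.Helper88.Slab (prob ind A cube)

namespace Pool.Agent.M18.Helper89.FA

open Pool.Agent.M18.Helper88.Slab

private lemma f8_deriv (k : ℕ) (x : ℝ) :
    HasDerivAt (fun y : ℝ => (max 0 y) ^ (k + 2) / (k + 2)) ((max 0 x) ^ (k + 1)) x := by
  have hk : ((k : ℝ) + 2) ≠ 0 := by (clear * -; positivity)
  have hpow : ∀ z : ℝ, HasDerivAt (fun y : ℝ => y ^ (k + 2) / (k + 2)) (z ^ (k + 1)) z := by
    intro z
    have h := (hasDerivAt_pow (k + 2) z).div_const ((k : ℝ) + 2)
    have e : ((k + 2 : ℕ) : ℝ) * z ^ (k + 2 - 1) / ((k : ℝ) + 2) = z ^ (k + 1) := by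
      push_cast
      rw [mul_div_assoc]
      (clear * - hk; field_simp)
    rwa [e] at h
  rcases lt_trichotomy x 0 with hx | hx | hx
  · have e : (fun y : ℝ => (max 0 y) ^ (k + 2) / (k + 2)) =ᶠ[nhds x] fun _ => 0 := by
      filter_upwards [gt_mem_nhds hx] with y hy
      rw [max_eq_left hy.le]; simp
    rw [max_eq_left hx.le, zero_pow (by omega)]
    exact (hasDerivAt_const x (0 : ℝ)).congr_of_eventuallyEq e
  · subst hx
    have h1 : HasDerivWithinAt (fun y : ℝ => (max 0 y) ^ (k + 2) / (k + 2)) ((max 0 (0:ℝ)) ^ (k + 1))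
        (Iic 0) 0 := by
      refine (hasDerivWithinAt_const (0:ℝ) (Iic 0) (0:ℝ)).congr_of_eventuallyEq ?_ ?_ |>.congr_deriv ?_
      · filter_upwards [self_mem_nhdsWithin] with y hy
        rw [max_eq_left (mem_Iic.mp hy)]; simp
      · simp
      · simp
    have h2 : HasDerivWithinAt (fun y : ℝ => (max 0 y) ^ (k + 2) / (k + 2)) ((max 0 (0:ℝ)) ^ (k + 1))
        (Ici 0) 0 := by
      refine (hpow 0).hasDerivWithinAt.congr_of_eventuallyEq ?_ ?_ |>.congr_deriv ?_
      · filter_upwards [self_mem_nhdsWithin] with y hy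
        rw [max_eq_right (mem_Ici.mp hy)]
      · simp
      · simp
    have h3 := h1.union h2
    rw [Iic_union_Ici] at h3
    exact hasDerivWithinAt_univ.mp h3
  · have e : (fun y : ℝ => (max 0 y) ^ (k + 2) / (k + 2)) =ᶠ[nhds x] fun y => y ^ (k + 2) / (k + 2) := by
      filter_upwards [lt_mem_nhds hx] with y hy
      rw [max_eq_right hy.le]
    rw [max_eq_right hx.le]
    exact (hpow x).congr_of_eventuallyEq e

private lemma f8_integral (k : ℕ) (c a b : ℝ) :
    ∫ z in a..b, (max 0 (z - c)) ^ (k + 1) =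
      (max 0 (b - c)) ^ (k + 2) / (k + 2) - (max 0 (a - c)) ^ (k + 2) / (k + 2) := by
  have h : ∀ z ∈ uIcc a b, HasDerivAt (fun y : ℝ => (max 0 (y - c)) ^ (k + 2) / (k + 2))
      ((max 0 (z - c)) ^ (k + 1)) z := by
    intro z _
    have := (f8_deriv k (z - c)).comp z ((hasDerivAt_id z).sub_const c)
    rw [mul_one] at this
    exact this
  exact intervalIntegral.integral_eq_sub_of_hasDerivAt h
    (Continuous.intervalIntegrable (by fun_prop) _ _)

/-- First average, `t ≥ s`, on `|z| ≤ t + s`. -/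
private lemma f8_A1 {s t : ℝ} (hs : 0 < s) (hst : s ≤ t) {z : ℝ} (hz : |z| ≤ t + s) :
    A s (ind t) z = 1 - (max 0 (z - (t - s)) + max 0 (-z - (t - s))) / (2 * s) := by
  rw [A_ind hs (hs.le.trans hst), eq_sub_iff_add_eq, ← add_div, div_eq_one_iff_eq (by positivity)]
  obtain ⟨h1, h2⟩ := abs_le.mp hz
  unfold clamp
  rcases le_total z (t - s) with h | h
  · rw [max_eq_left (by (clear * - h; linarith) : z - (t - s) ≤ 0)]
    rcases le_total (-z) (t - s) with h' | h'
    · rw [max_eq_left (by (clear * - h'; linarith) : -z - (t - s) ≤ 0), min_eq_right (by (clear * - h; linarith) : z + s ≤ t),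
        min_eq_right (by linarith : z - s ≤ t), max_eq_right (by linarith), max_eq_right (by (clear * - h'; linarith))]
      ring
    · rw [max_eq_right (by linarith : 0 ≤ -z - (t - s)), min_eq_right (by linarith : z + s ≤ t),
        min_eq_right (by linarith : z - s ≤ t), max_eq_right (by linarith), max_eq_left (by linarith)]
      ring
  · rw [max_eq_right (by linarith : 0 ≤ z - (t - s)), max_eq_left (by linarith : -z - (t - s) ≤ 0),
      min_eq_left (by linarith : t ≤ z + s), min_eq_right (by (clear * - h2; linarith) : z - s ≤ t),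
      max_eq_right (by linarith), max_eq_right (by linarith)]
    ring

/-- Second average. -/
private lemma f8_A2 {s t : ℝ} (hs : 0 < s) (hst : s ≤ t) {y : ℝ} (hy : |y| ≤ s) :
    A s (A s (ind t)) y =
      1 - ((max 0 (y - (t - 2 * s))) ^ 2 + (max 0 (-y - (t - 2 * s))) ^ 2) / (8 * s ^ 2) := by
  obtain ⟨h1, h2⟩ := abs_le.mp hy
  have hcont : Continuous (A s (ind t)) := A_ind_cont hs (hs.le.trans hst)
  have e1 : A s (A s (ind t)) y = (1 / (2 * s)) * ∫ z in (y - s)..(y + s), A s (ind t) z := by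
    rw [A_eq_diff hs (fun _ _ => hcont.intervalIntegrable _ _),
      intervalIntegral.integral_interval_sub_left (hcont.intervalIntegrable _ _)
        (hcont.intervalIntegrable _ _)]
  have e2 : ∫ z in (y - s)..(y + s), A s (ind t) z =
      ∫ z in (y - s)..(y + s), (1 - ((max 0 (z - (t - s))) ^ (0 + 1) +
        (max 0 (-z - (t - s))) ^ (0 + 1)) / (2 * s)) := by
    apply intervalIntegral.integral_congr
    intro z hz
    rw [uIcc_of_le (by (clear * - hs; linarith))] at hz
    simp only
    rw [f8_A1 hs hst (abs_le.mpr ⟨by (clear * - hst h1 hz; linarith [hz.1]), by (clear * - hst h2 hz; linarith [hz.2])⟩)]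
    simp
  have e3 : ∫ z in (y - s)..(y + s), (max 0 (-z - (t - s))) ^ (0 + 1) =
      ∫ z in (-y - s)..(-y + s), (max 0 (z - (t - s))) ^ (0 + 1) := by
    have := intervalIntegral.integral_comp_neg (a := y - s) (b := y + s)
      (f := fun z => (max 0 (z - (t - s))) ^ (0 + 1))
    rw [this]
    congr 1 <;> ring
  have i1 : IntervalIntegrable (fun z : ℝ => (max 0 (z - (t - s))) ^ (0 + 1)) volume (y - s) (y + s) :=
    Continuous.intervalIntegrable (by fun_prop) _ _
  have i2 : IntervalIntegrable (fun z : ℝ => (max 0 (-z - (t - s))) ^ (0 + 1)) volume (y - s) (y + s) :=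
    Continuous.intervalIntegrable (by fun_prop) _ _
  rw [e1, e2, intervalIntegral.integral_sub (by simp) ((i1.add i2).div_const _),
    intervalIntegral.integral_div, intervalIntegral.integral_add i1 i2, e3, f8_integral, f8_integral]
  rw [max_eq_left (by (clear * - hst h2; linarith) : y - s - (t - s) ≤ 0),
    max_eq_left (by (clear * - hst h1; linarith) : -y - s - (t - s) ≤ 0),
    show y + s - (t - s) = y - (t - 2 * s) by ring,
    show -y + s - (t - s) = -y - (t - 2 * s) by ring]
  simp only [intervalIntegral.integral_const, smul_eq_mul]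
  push_cast
  field_simp
  ring

/-- Third average at zero. -/
private lemma f8_A3 {s t : ℝ} (hs : 0 < s) (hst : s ≤ t) (ht : t ≤ 3 * s)
    (hc : Continuous (A s (A s (ind t)))) :
    A s (A s (A s (ind t))) 0 = 1 - (3 * s - t) ^ 3 / (24 * s ^ 3) := by
  have e1 : A s (A s (A s (ind t))) 0 = (1 / (2 * s)) * ∫ z in (0 - s)..(0 + s), A s (A s (ind t)) z := by
    rw [A_eq_diff hs (fun _ _ => hc.intervalIntegrable _ _),
      intervalIntegral.integral_interval_sub_left (hc.intervalIntegrable _ _)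
        (hc.intervalIntegrable _ _)]
  have e2 : ∫ z in (0 - s)..(0 + s), A s (A s (ind t)) z =
      ∫ z in (0 - s)..(0 + s), (1 - ((max 0 (z - (t - 2 * s))) ^ (1 + 1) +
        (max 0 (-z - (t - 2 * s))) ^ (1 + 1)) / (8 * s ^ 2)) := by
    apply intervalIntegral.integral_congr
    intro z hz
    rw [uIcc_of_le (by (clear * - hs; linarith))] at hz
    simp only
    rw [f8_A2 hs hst (abs_le.mpr ⟨by (clear * - hz; linarith [hz.1]), by (clear * - hz; linarith [hz.2])⟩)]
  have e3 : ∫ z in (0 - s)..(0 + s), (max 0 (-z - (t - 2 * s))) ^ (1 + 1) =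
      ∫ z in (0 - s)..(0 + s), (max 0 (z - (t - 2 * s))) ^ (1 + 1) := by
    have := intervalIntegral.integral_comp_neg (a := 0 - s) (b := 0 + s)
      (f := fun z => (max 0 (z - (t - 2 * s))) ^ (1 + 1))
    rw [this]
    congr 1 <;> ring
  have i1 : IntervalIntegrable (fun z : ℝ => (max 0 (z - (t - 2 * s))) ^ (1 + 1)) volume (0 - s) (0 + s) :=
    Continuous.intervalIntegrable (by fun_prop) _ _
  have i2 : IntervalIntegrable (fun z : ℝ => (max 0 (-z - (t - 2 * s))) ^ (1 + 1)) volume (0 - s) (0 + s) :=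
    Continuous.intervalIntegrable (by fun_prop) _ _
  rw [e1, e2, intervalIntegral.integral_sub (by simp) ((i1.add i2).div_const _),
    intervalIntegral.integral_div, intervalIntegral.integral_add i1 i2, e3, f8_integral]
  rw [max_eq_left (by (clear * - hst; linarith) : 0 - s - (t - 2 * s) ≤ 0),
    max_eq_right (by (clear * - ht; linarith) : 0 ≤ 0 + s - (t - 2 * s))]
  simp only [intervalIntegral.integral_const, smul_eq_mul]
  push_cast
  field_simp
  ring

/-- F8. The value of `prob` in the direction `f₃`. -/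
theorem prob_f3 {n : ℕ} (hn : 3 ≤ n) {t : ℝ} (ht0 : 1 / √3 ≤ t) (ht : t ≤ √3) :
    prob (fun i : Fin n => if (i : ℕ) < 3 then 1 / √3 else 0) t =
      1 - (3 - √3 * t) ^ 3 / 24 := by
  obtain ⟨m, rfl⟩ : ∃ m, n = m + 3 := ⟨n - 3, by omega⟩
  obtain ⟨s, hs⟩ : ∃ s, s = 1 / √3 := ⟨_, rfl⟩
  have hq0 : 0 < √3 := by positivity
  have hq : √3 ^ 2 = 3 := Real.sq_sqrt (by norm_num)
  have hs0 : 0 < s := by rw [hs]; positivity
  have hs2 : s ^ 2 = 1 / 3 := by rw [hs, div_pow, hq]; norm_num
  have hqs : √3 = 3 * s := by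
    rw [hs]; field_simp; (clear * - hq; linarith)
  rw [← hs] at ht0
  simp_rw [← hs]
  have ht0' : 0 ≤ t := hs0.le.trans ht0
  have hc1 : Continuous (A s (ind t)) := A_ind_cont hs0 ht0'
  have hc2 : Continuous (A s (A s (ind t))) := by
    have : A s (A s (ind t)) = fun y => (1/(2*s)) * ((∫ t_1 in (0:ℝ)..(y+s), A s (ind t) t_1) -
        ∫ t_1 in (0:ℝ)..(y-s), A s (ind t) t_1) := by
      ext y
      exact A_eq_diff hs0 (fun _ _ => hc1.intervalIntegrable _ _) y
    rw [this]
    have hP : Continuous (fun x : ℝ => ∫ t_1 in (0:ℝ)..x, A s (ind t) t_1) :=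
      intervalIntegral.continuous_primitive (fun _ _ => hc1.intervalIntegrable _ _) 0
    exact continuous_const.mul ((hP.comp (by fun_prop)).sub (hP.comp (by fun_prop)))
  have e0 : |(if ((0 : Fin (m + 2 + 1)) : ℕ) < 3 then s else 0)| = s := by simp [abs_of_pos hs0]
  have e1 : (if ((((0 : Fin (m+2+1)).succAbove (0 : Fin (m + 1 + 1)) : Fin (m + 2 + 1))) : ℕ) < 3
      then s else 0) = s := by
    simp
  have e2 : (if ((((0 : Fin (m+2+1)).succAbove ((0 : Fin (m + 1 + 1)).succAbove (0 : Fin (m+1))) :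
      Fin (m + 2 + 1))) : ℕ) < 3 then s else 0) = s := by
    simp only [Fin.zero_succAbove, Fin.val_succ]
    exact if_pos (by simp)
  have e3 : ∀ j : Fin m, (if ((((0 : Fin (m+2+1)).succAbove ((0 : Fin (m + 1 + 1)).succAbove
      ((0 : Fin (m+1)).succAbove j)) : Fin (m + 2 + 1))) : ℕ) < 3 then s else 0) = 0 := by
    intro j
    simp only [Fin.zero_succAbove, Fin.val_succ]
    exact if_neg (by omega)
  rw [prob_split _ 0, e0, cube_split_cont 0 _ _ hc1, e1, cube_split_cont 0 _ _ hc2, e2]
  simp only [e3, zero_mul, Finset.sum_const_zero, integral_const, probReal_univ, one_smul]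
  rw [f8_A3 hs0 ht0 (by rw [hqs] at ht; exact ht) hc2, hqs]
  have h3 : 3 - 3 * s * t = 3 * s * (3 * s - t) := by (clear * - hs2; nlinarith)
  have h6 : s ^ 6 = 1 / 27 := by
    calc s ^ 6 = (s ^ 2) ^ 3 := by ring
      _ = 1 / 27 := by rw [hs2]; norm_num
  rw [h3, sub_right_inj, div_eq_div_iff (by (clear * - hs0; positivity)) (by norm_num)]
  calc (3 * s - t) ^ 3 * 24 = (3 * s - t) ^ 3 * 24 * (27 * (1 / 27)) := by ring
    _ = (3 * s - t) ^ 3 * 24 * (27 * s ^ 6) := by rw [h6]
    _ = (3 * s * (3 * s - t)) ^ 3 * (24 * s ^ 3) := by ring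

end Pool.Agent.M18.Helper89.FA
end

/- Helper89.FA.Interval -/
section
/-!
The interval lemma: for a unit vector with nonzero coordinates the set of `t` in `(0, √2)` with
`V(f₂,t) ≤ V(a,t)` is an interval.
-/

set_option autoImplicit false

open MeasureTheory Set Real
open Pool.Agent.M18.Helper88.Slab (prob ind A cube)

namespace Pool.Agent.M18.Helper89.FA

/-- One-variable calculus. -/
theorem interval_calc {T g G : ℝ → ℝ} {u v x : ℝ} (hT : ∀ x, HasDerivAt T (-2 * g x) x)
    (hg : ∀ x, HasDerivAt g (-G x) x)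
    (hq : ∀ x y z, 0 < x → x ≤ y → y ≤ z → min (G x) (G z) ≤ G y) (hT0 : T 0 = 1)
    (hT2 : 0 ≤ T √2) (h0 : 0 < u) (hux : u ≤ x) (hxv : x ≤ v) (hv2 : v < √2)
    (hu : T u ≤ (√2 - u) ^ 2 / 2) (hv : T v ≤ (√2 - v) ^ 2 / 2) : T x ≤ (√2 - x) ^ 2 / 2 := by
  rcases eq_or_lt_of_le hux with rfl | hux
  · exact hu
  rcases eq_or_lt_of_le hxv with rfl | hxv
  · exact hv
  by_contra hcon
  push Not at hcon
  have h2 : (√2) ^ 2 = 2 := Real.sq_sqrt (by norm_num)
  obtain ⟨D, hD⟩ : ∃ D : ℝ → ℝ, D = fun x => (√2 - x) ^ 2 / 2 - T x := ⟨_, rfl⟩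
  obtain ⟨E, hE⟩ : ∃ E : ℝ → ℝ, E = fun x => -(√2 - x) + 2 * g x := ⟨_, rfl⟩
  obtain ⟨F, hF⟩ : ∃ F : ℝ → ℝ, F = fun x => 1 - 2 * G x := ⟨_, rfl⟩
  have dD : ∀ x, HasDerivAt D (E x) x := by
    intro x
    rw [hD, hE]
    have h1 : HasDerivAt (fun x : ℝ => (√2 - x) ^ 2 / 2) (-(√2 - x)) x := by
      have := (((hasDerivAt_id x).const_sub (√2)).pow 2).div_const 2
      refine this.congr_deriv ?_
      simp
      ring
    refine (h1.sub (hT x)).congr_deriv ?_
    ring
  have dE : ∀ x, HasDerivAt E (F x) x := by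
    intro x
    rw [hE, hF]
    have h1 : HasDerivAt (fun x : ℝ => -(√2 - x)) 1 x := by
      have := ((hasDerivAt_id x).const_sub (√2)).neg
      refine this.congr_deriv ?_
      simp
    refine (h1.add ((hg x).const_mul 2)).congr_deriv ?_
    ring
  have cD : Continuous D := continuous_iff_continuousAt.mpr fun x => (dD x).continuousAt
  have cE : Continuous E := continuous_iff_continuousAt.mpr fun x => (dE x).continuousAt
  have mvD : ∀ a b, a < b → ∃ c ∈ Ioo a b, E c = (D b - D a) / (b - a) := fun a b hab =>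
    exists_hasDerivAt_eq_slope D E hab cD.continuousOn (fun x _ => dD x)
  have mvE : ∀ a b, a < b → ∃ c ∈ Ioo a b, F c = (E b - E a) / (b - a) := fun a b hab =>
    exists_hasDerivAt_eq_slope E F hab cE.continuousOn (fun x _ => dE x)
  have D0 : D 0 = 0 := by rw [hD]; simp only; rw [hT0, sub_zero, h2]; norm_num
  have Du : 0 ≤ D u := by rw [hD]; simp only; (clear * - hu; linarith)
  have Dx : D x < 0 := by rw [hD]; simp only; (clear * - hcon; linarith)
  have Dv : 0 ≤ D v := by rw [hD]; simp only; (clear * - hv; linarith)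
  have D2 : D √2 ≤ 0 := by rw [hD]; simp only; rw [sub_self]; (clear * - hT2; linarith)
  obtain ⟨a1, ha1, e1⟩ := mvD 0 u h0
  obtain ⟨a2, ha2, e2⟩ := mvD u x hux
  obtain ⟨a3, ha3, e3⟩ := mvD x v hxv
  obtain ⟨a4, ha4, e4⟩ := mvD v √2 hv2
  have E1 : 0 ≤ E a1 := by
    rw [e1, D0]; apply div_nonneg <;> (clear * - Du h0; linarith)
  have E2 : E a2 < 0 := by
    rw [e2]; apply div_neg_of_neg_of_pos <;> (clear * - Du Dx hux; linarith)
  have E3 : 0 < E a3 := by
    rw [e3]; apply div_pos <;> (clear * - Dx Dv hxv; linarith)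
  have E4 : E a4 ≤ 0 := by
    rw [e4]; apply div_nonpos_of_nonpos_of_nonneg <;> (clear * - Dv D2 hv2; linarith)
  obtain ⟨c1, hc1, f1⟩ := mvE a1 a2 (by (clear * - ha1 ha2; linarith [ha1.2, ha2.1]))
  obtain ⟨c2, hc2, f2⟩ := mvE a2 a3 (by (clear * - ha2 ha3; linarith [ha2.2, ha3.1]))
  obtain ⟨c3, hc3, f3⟩ := mvE a3 a4 (by (clear * - ha3 ha4; linarith [ha3.2, ha4.1]))
  have F1 : F c1 < 0 := by
    rw [f1]; apply div_neg_of_neg_of_pos <;> (clear * - E1 E2 ha1 ha2; linarith [ha1.2, ha2.1])
  have F2 : 0 < F c2 := by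
    rw [f2]; apply div_pos <;> (clear * - E2 E3 ha2 ha3; linarith [ha2.2, ha3.1])
  have F3 : F c3 < 0 := by
    rw [f3]; apply div_neg_of_neg_of_pos <;> (clear * - E3 E4 ha3 ha4; linarith [ha3.2, ha4.1])
  have G1 : 1 / 2 < G c1 := by rw [hF] at F1; simp only at F1; (clear * - F1; linarith)
  have G2 : G c2 < 1 / 2 := by rw [hF] at F2; simp only at F2; (clear * - F2; linarith)
  have G3 : 1 / 2 < G c3 := by rw [hF] at F3; simp only at F3; (clear * - F3; linarith)
  have := hq c1 c2 c3 (by (clear * - ha1 hc1; linarith [ha1.1, hc1.1])) (by (clear * - hc1 hc2; linarith [hc1.2, hc2.1]))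
    (by (clear * - hc2 hc3; linarith [hc2.2, hc3.1]))
  have h3 : 1 / 2 < min (G c1) (G c3) := lt_min G1 G3
  (clear * - G2 this h3; linarith)

end Pool.Agent.M18.Helper89.FA
end

/- Helper89.FA.Wave -/
section
/-!
F1a: the Fourier series of the square wave, averaged.
-/

set_option autoImplicit false

open MeasureTheory Set Real
open Pool.Agent.M18.Helper88.Slab (prob ind A cube cube_split cube_cos A_eq integrable_cube)

namespace Pool.Agent.M18.Helper89.FA

namespace Wave

lemma cos_odd_pi (k : ℕ) (v : ℝ) :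
    cos ((2 * (k : ℝ) + 1) * (v + π)) = - cos ((2 * (k : ℝ) + 1) * v) := by
  have : (2 * (k : ℝ) + 1) * (v + π) = (2 * (k : ℝ) + 1) * v + π + (k : ℝ) * (2 * π) := by ring
  rw [this, Real.cos_add_nat_mul_two_pi, Real.cos_add_pi]

lemma cos_even_pi (k : ℕ) (v : ℝ) :
    cos ((2 * (k : ℝ)) * (v + π)) = cos ((2 * (k : ℝ)) * v) := by
  have : (2 * (k : ℝ)) * (v + π) = (2 * (k : ℝ)) * v + (k : ℝ) * (2 * π) := by ring
  rw [this, Real.cos_add_nat_mul_two_pi]

lemma hasSum_cos_all {v : ℝ} (h0 : 0 ≤ v) (h1 : v ≤ 2 * π) :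
    HasSum (fun n : ℕ => 1 / (n : ℝ) ^ 2 * cos ((n : ℝ) * v)) (v ^ 2 / 4 - π * v / 2 + π ^ 2 / 6) := by
  have hx : v / (2 * π) ∈ Icc (0 : ℝ) 1 := by
    constructor
    · positivity
    · rw [div_le_one (by positivity)]; exact h1
  have h := hasSum_one_div_nat_pow_mul_cos (k := 1) one_ne_zero hx
  have hb : (Polynomial.map (algebraMap ℚ ℝ) (Polynomial.bernoulli 2)) =
      Polynomial.X ^ 2 - Polynomial.X + Polynomial.C (1 / 6 : ℝ) := by
    rw [Polynomial.bernoulli]
    simp only [Finset.sum_range_succ, Finset.sum_range_zero, Polynomial.map_add,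
      Polynomial.map_monomial]
    norm_num [bernoulli_one, bernoulli_two, Polynomial.monomial_zero_left, Nat.choose]
    rw [show Polynomial.monomial 2 (1:ℝ) = Polynomial.X ^ 2 from by
      rw [← Polynomial.C_mul_X_pow_eq_monomial]; simp]
    rw [show Polynomial.monomial 1 (1:ℝ) = Polynomial.X from by
      rw [← Polynomial.C_mul_X_pow_eq_monomial]; simp]
    ring
  convert h using 1
  · funext n
    congr 2
    (clear * -; field_simp)
  · rw [mul_one, hb]
    simp [Nat.factorial]
    field_simp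
    ring

lemma hasSum_cos_odd {v : ℝ} (h0 : 0 ≤ v) (h1 : v ≤ π) :
    HasSum (fun k : ℕ => cos ((2 * (k : ℝ) + 1) * v) / (2 * (k : ℝ) + 1) ^ 2)
      (π ^ 2 / 8 - π * v / 4) := by
  have hpi := Real.pi_pos
  have e1 := hasSum_cos_all h0 (by (clear * - h1 hpi; linarith))
  have e2 := hasSum_cos_all (v := v + π) (by linarith) (by linarith)
  have e3 := (e1.sub e2).mul_left (1 / 2)
  have hinj : Function.Injective (fun k : ℕ => 2 * k + 1) := by
    intro a b hab; simp only at hab; omega
  have hf : ∀ x ∉ Set.range (fun k : ℕ => 2 * k + 1),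
      (fun n : ℕ => (1 / 2 : ℝ) * (1 / (n : ℝ) ^ 2 * cos ((n : ℝ) * v) -
        1 / (n : ℝ) ^ 2 * cos ((n : ℝ) * (v + π)))) x = 0 := by
    intro x hx
    have hev : Even x := by
      rw [← Nat.not_odd_iff_even]
      rintro ⟨k, hk⟩
      exact hx ⟨k, hk.symm⟩
    obtain ⟨k, hk⟩ := hev
    have hk2 : (x : ℝ) = 2 * (k : ℝ) := by rw [hk]; push_cast; ring
    simp only [hk2, cos_even_pi, sub_self, mul_zero]
  rw [← Function.Injective.hasSum_iff hinj hf] at e3
  convert e3 using 1
  · funext k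
    simp only [Function.comp]
    push_cast
    rw [cos_odd_pi]
    ring
  · ring

lemma sin_odd (k : ℕ) (u : ℝ) :
    cos ((2 * (k : ℝ) + 1) * (π / 2 - u)) = (-1 : ℝ) ^ k * sin ((2 * (k : ℝ) + 1) * u) := by
  have : (2 * (k : ℝ) + 1) * (π / 2 - u) = (π / 2 - (2 * (k : ℝ) + 1) * u) + (k : ℝ) * π := by ring
  rw [this, Real.cos_add_nat_mul_pi, Real.cos_pi_div_two_sub]

lemma hasSum_sin_small {u : ℝ} (h0 : -(π / 2) ≤ u) (h1 : u ≤ π / 2) :
    HasSum (fun k : ℕ => (-1 : ℝ) ^ k * sin ((2 * (k : ℝ) + 1) * u) / (2 * (k : ℝ) + 1) ^ 2)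
      (π / 4 * u) := by
  have h := hasSum_cos_odd (v := π / 2 - u) (by (clear * - h1; linarith)) (by (clear * - h0; linarith))
  simp_rw [sin_odd] at h
  convert h using 1
  ring

lemma sin_odd_congr (k : ℕ) {u u' : ℝ} (h : sin u = sin u') :
    sin ((2 * (k : ℝ) + 1) * u) = sin ((2 * (k : ℝ) + 1) * u') := by
  rw [Real.sin_eq_sin_iff] at h
  obtain ⟨m, h | h⟩ := h
  · rw [h]
    have : (2 * (k : ℝ) + 1) * (2 * (m : ℝ) * π + u) =
        (2 * (k : ℝ) + 1) * u + (((2 * (k : ℤ) + 1) * m : ℤ) : ℝ) * (2 * π) := by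
      push_cast; ring
    rw [this, Real.sin_add_int_mul_two_pi]
  · rw [h]
    have : (2 * (k : ℝ) + 1) * ((2 * (m : ℝ) + 1) * π - u) =
        (π - (2 * (k : ℝ) + 1) * u) + ((2 * (k : ℤ) * m + (k : ℤ) + m : ℤ) : ℝ) * (2 * π) := by
      push_cast; ring
    rw [this, Real.sin_add_int_mul_two_pi, Real.sin_pi_sub]

lemma hasSum_sin (u : ℝ) :
    HasSum (fun k : ℕ => (-1 : ℝ) ^ k * sin ((2 * (k : ℝ) + 1) * u) / (2 * (k : ℝ) + 1) ^ 2)
      (π / 4 * arcsin (sin u)) := by
  have h := hasSum_sin_small (Real.neg_pi_div_two_le_arcsin (sin u))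
    (Real.arcsin_le_pi_div_two (sin u))
  have h2 : sin (arcsin (sin u)) = sin u :=
    Real.sin_arcsin (Real.neg_one_le_sin u) (Real.sin_le_one u)
  simp_rw [fun k => sin_odd_congr k h2] at h
  exact h

lemma countable_cos_zero : Set.Countable {u : ℝ | cos u = 0} := by
  have : {u : ℝ | cos u = 0} ⊆ Set.range (fun k : ℤ => (2 * (k : ℝ) + 1) * π / 2) := by
    intro u hu
    rw [Set.mem_ofPred_eq, Real.cos_eq_zero_iff] at hu
    obtain ⟨k, hk⟩ := hu
    exact ⟨k, hk.symm⟩
  exact (Set.countable_range _).mono this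

/-- The square wave. -/
noncomputable def sq (u : ℝ) : ℝ := if 0 < cos u then 1 else 0

lemma sq_meas : Measurable sq := by
  unfold sq
  exact Measurable.ite (measurableSet_lt measurable_const Real.continuous_cos.measurable)
    measurable_const measurable_const

lemma sq_nonneg' (u : ℝ) : 0 ≤ sq u := by unfold sq; split_ifs <;> norm_num

lemma sq_le_one (u : ℝ) : sq u ≤ 1 := by unfold sq; split_ifs <;> norm_num

lemma sq_int (x y : ℝ) : IntervalIntegrable sq volume x y := by
  rw [intervalIntegrable_iff]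
  refine Measure.integrableOn_of_bounded (M := 1) ?_ sq_meas.aestronglyMeasurable ?_
  · exact measure_Ioc_lt_top.ne
  · filter_upwards with u
    rw [Real.norm_of_nonneg (sq_nonneg' u)]
    exact sq_le_one u

lemma integral_sq (x y : ℝ) :
    ∫ u in x..y, sq u = (arcsin (sin y) + y) / 2 - (arcsin (sin x) + x) / 2 := by
  refine integral_eq_of_hasDerivAt_off_countable (fun u => (arcsin (sin u) + u) / 2) sq
    countable_cos_zero ?_ ?_ (sq_int x y)
  · fun_prop
  · intro u hu
    have hc : cos u ≠ 0 := hu.2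
    have hs : cos u ^ 2 = 1 - sin u ^ 2 := by (clear * -; nlinarith [Real.sin_sq_add_cos_sq u])
    have hpos : 0 < cos u ^ 2 := by positivity
    have h1 : sin u ≠ -1 := by
      intro h; rw [h] at hs; norm_num at hs; exact hc hs
    have h2 : sin u ≠ 1 := by
      intro h; rw [h] at hs; norm_num at hs; exact hc hs
    have hd := ((Real.hasDerivAt_arcsin h1 h2).comp u (Real.hasDerivAt_sin u))
    have hd2 := (hd.add (hasDerivAt_id u)).div_const 2
    have e : √(1 - sin u ^ 2) = |cos u| := by rw [← hs, Real.sqrt_sq_eq_abs]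
    refine (hd2.congr_deriv ?_)
    rw [e]
    unfold sq
    split_ifs with hh
    · rw [abs_of_pos hh]; field_simp; ring
    · have hlt : cos u < 0 := lt_of_le_of_ne (not_lt.mp hh) hc
      rw [abs_of_neg hlt]; field_simp; ring

lemma A_sq {a θ : ℝ} (h : a * θ ≠ 0) (y : ℝ) :
    A a (fun z => sq (θ * z)) y = 1 / 2 +
      (arcsin (sin (θ * y + a * θ)) - arcsin (sin (θ * y - a * θ))) / (4 * (a * θ)) := by
  rw [A_eq]
  have h1 : ∀ u : ℝ, sq (θ * (a * u + y)) = sq ((a * θ) * u + θ * y) := by
    intro u; ring_nf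
  simp_rw [h1]
  rw [intervalIntegral.integral_comp_mul_add sq h (θ * y), integral_sq]
  rw [show (a * θ) * 1 + θ * y = θ * y + a * θ by ring,
    show (a * θ) * (-1) + θ * y = θ * y - a * θ by ring, smul_eq_mul]
  obtain ⟨c, hc⟩ : ∃ c, c = a * θ := ⟨_, rfl⟩
  rw [← hc] at h ⊢
  field_simp
  ring

lemma hasSum_A {a θ : ℝ} (h : a * θ ≠ 0) (y : ℝ) :
    HasSum (fun k : ℕ => (2 / π) * ((-1 : ℝ) ^ k * (sinc ((2 * (k : ℝ) + 1) * (a * θ)) /
      (2 * (k : ℝ) + 1)) * cos ((2 * (k : ℝ) + 1) * θ * y)))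
      (A a (fun z => sq (θ * z)) y - 1 / 2) := by
  have h1 := hasSum_sin (θ * y + a * θ)
  have h2 := hasSum_sin (θ * y - a * θ)
  have h3 := ((h1.sub h2).mul_left (4 / π)).mul_left (1 / (4 * (a * θ)))
  obtain ⟨c, hc⟩ : ∃ c, c = a * θ := ⟨_, rfl⟩
  rw [← hc] at h h3 ⊢
  have ev : A a (fun z => sq (θ * z)) y - 1 / 2 = 1 / (4 * c) * (4 / π *
      (π / 4 * arcsin (sin (θ * y + c)) - π / 4 * arcsin (sin (θ * y - c)))) := by
    have := A_sq (a := a) (θ := θ) (by rw [← hc]; exact h) y
    rw [← hc] at this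
    rw [this]
    field_simp
    ring
  rw [ev]
  refine h3.congr_fun ?_
  intro k
  have hk : (2 * (k : ℝ) + 1) ≠ 0 := by (clear * -; positivity)
  rw [sinc_of_ne_zero (mul_ne_zero hk h)]
  have e1 : (2 * (k : ℝ) + 1) * (θ * y + c) =
    (2 * (k : ℝ) + 1) * θ * y + (2 * (k : ℝ) + 1) * c := by ring
  have e2 : (2 * (k : ℝ) + 1) * (θ * y - c) =
    (2 * (k : ℝ) + 1) * θ * y - (2 * (k : ℝ) + 1) * c := by ring
  rw [e1, e2, Real.sin_add, Real.sin_sub]
  field_simp
  ring

lemma sinc_le_inv {c : ℝ} (hc : c ≠ 0) (k : ℕ) :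
    |sinc ((2 * (k : ℝ) + 1) * c)| / (2 * (k : ℝ) + 1) ≤ (1 / |c|) * (1 / (2 * (k : ℝ) + 1) ^ 2) := by
  have hk : (0 : ℝ) < 2 * (k : ℝ) + 1 := by (clear * -; positivity)
  rw [sinc_of_ne_zero (mul_ne_zero hk.ne' hc), abs_div, abs_mul, abs_of_pos hk]
  have hc' : 0 < |c| := abs_pos.mpr hc
  rw [div_div, div_mul_div_comm, one_mul, div_le_div_iff₀ (by (clear * - hc; positivity)) (by positivity)]
  have := Real.abs_sin_le_one ((2 * (k : ℝ) + 1) * c)
  nlinarith [mul_pos hc' (pow_pos hk 2)]

lemma summable_odd : Summable (fun k : ℕ => 1 / (2 * (k : ℝ) + 1) ^ 2) := by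
  have h := (Real.summable_one_div_nat_pow (p := 2)).mpr (by norm_num)
  have hinj : Function.Injective (fun k : ℕ => 2 * k + 1) := by
    intro a b hab; simp only at hab; omega
  have := h.comp_injective hinj
  refine this.congr ?_
  intro k
  simp

lemma summable_sinc {c : ℝ} (hc : c ≠ 0) :
    Summable (fun k : ℕ => |sinc ((2 * (k : ℝ) + 1) * c)| / (2 * (k : ℝ) + 1)) :=
  Summable.of_nonneg_of_le (fun k => by (clear * -; positivity)) (fun k => sinc_le_inv hc k)
    (summable_odd.mul_left _)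

lemma abs_prod_sinc_le {ι : Type*} [Fintype ι] (f : ι → ℝ) (i : ι) :
    |∏ j, sinc (f j)| ≤ |sinc (f i)| := by
  classical
  rw [Finset.abs_prod, ← Finset.mul_prod_erase Finset.univ _ (Finset.mem_univ i)]
  exact mul_le_of_le_one_right (abs_nonneg _)
    (Finset.prod_le_one (fun j _ => abs_nonneg _) (fun j _ => abs_sinc_le_one _))

end Wave

open Wave

/-- F1a. The square wave, averaged. -/
theorem wave_expect {n : ℕ} (a : Fin n → ℝ) (i : Fin n) (hi : a i ≠ 0) {t : ℝ} (ht : 0 < t) :
    Summable (fun k : ℕ => |∏ j, sinc ((2 * (k : ℝ) + 1) * (a j * (π / (2 * t))))| / (2 * (k : ℝ) + 1)) ∧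
    ∫ x, (if 0 < cos (π / (2 * t) * ∑ j, a j * x j) then (1 : ℝ) else 0) ∂(cube n) =
      1 / 2 + (2 / π) * ∑' k : ℕ, (-1 : ℝ) ^ k *
        ((∏ j, sinc ((2 * (k : ℝ) + 1) * (a j * (π / (2 * t))))) / (2 * (k : ℝ) + 1)) := by
  obtain ⟨θ, hθ⟩ : ∃ θ, θ = π / (2 * t) := ⟨_, rfl⟩
  have hθ0 : 0 < θ := by rw [hθ]; (clear * - ht; positivity)
  rw [← hθ]
  have hc : a i * θ ≠ 0 := mul_ne_zero hi hθ0.ne'
  have hsum : Summable (fun k : ℕ => |∏ j, sinc ((2 * (k : ℝ) + 1) * (a j * θ))| / (2 * (k : ℝ) + 1)) := by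
    refine Summable.of_nonneg_of_le (fun k => by (clear * -; positivity)) (fun k => ?_) (summable_sinc hc)
    exact div_le_div_of_nonneg_right (abs_prod_sinc_le (fun j => (2 * (k : ℝ) + 1) * (a j * θ)) i)
      (by (clear * -; positivity))
  refine ⟨hsum, ?_⟩
  obtain ⟨m, rfl⟩ : ∃ m, n = m + 1 := ⟨n - 1, by have := i.2; omega⟩
  have hint : Integrable (fun x : Fin (m+1) → ℝ => sq (θ * ∑ j, a j * x j)) (cube (m+1)) := by
    refine Integrable.of_bound (C := 1) ?_ ?_
    · exact (sq_meas.comp (by fun_prop)).aestronglyMeasurable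
    · filter_upwards with x
      rw [Real.norm_of_nonneg (sq_nonneg' _)]
      exact sq_le_one _
  have h1 : ∫ x, (if 0 < cos (θ * ∑ j, a j * x j) then (1 : ℝ) else 0) ∂(cube (m+1)) =
      ∫ y, A (a i) (fun z => sq (θ * z)) (∑ j, a (i.succAbove j) * y j) ∂(cube m) :=
    cube_split i a (fun z => sq (θ * z)) hint
  rw [h1]
  obtain ⟨F, hF⟩ : ∃ F : ℕ → (Fin m → ℝ) → ℝ, F = fun (k : ℕ) (y : Fin m → ℝ) => (2 / π) * ((-1 : ℝ) ^ k *
    (sinc ((2 * (k : ℝ) + 1) * (a i * θ)) / (2 * (k : ℝ) + 1)) *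
      cos ((2 * (k : ℝ) + 1) * θ * ∑ j, a (i.succAbove j) * y j)) := ⟨_, rfl⟩
  have hA : ∀ y : Fin m → ℝ, A (a i) (fun z => sq (θ * z)) (∑ j, a (i.succAbove j) * y j) =
      1 / 2 + ∑' k, F k y := by
    intro y
    have := (hasSum_A hc (∑ j, a (i.succAbove j) * y j)).tsum_eq
    rw [hF]
    simp only
    rw [this]
    ring
  simp_rw [hA]
  have hFint : ∀ k, Integrable (F k) (cube m) := by
    intro k
    rw [hF]
    exact integrable_cube (by fun_prop)
  have hFb : ∀ k y, ‖F k y‖ ≤ (2 / π) * (|sinc ((2 * (k : ℝ) + 1) * (a i * θ))| / (2 * (k : ℝ) + 1)) := by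
    intro k y
    have hk : (0 : ℝ) < 2 * (k : ℝ) + 1 := by (clear * -; positivity)
    rw [hF]
    simp only [norm_mul, norm_div, norm_pow, norm_neg, norm_one, one_pow, one_mul, Real.norm_eq_abs,
      abs_of_pos hk, abs_of_pos Real.pi_pos, abs_two]
    refine mul_le_mul_of_nonneg_left ?_ (by positivity)
    exact mul_le_of_le_one_right (by (clear * -; positivity)) (Real.abs_cos_le_one _)
  have hFsum : Summable (fun k => ∫ y, ‖F k y‖ ∂(cube m)) := by
    refine Summable.of_nonneg_of_le (fun k => integral_nonneg fun y => norm_nonneg _) (fun k => ?_)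
      ((summable_sinc hc).mul_left (2 / π))
    calc ∫ y, ‖F k y‖ ∂(cube m) ≤ ∫ y, (2 / π) * (|sinc ((2 * (k : ℝ) + 1) * (a i * θ))| /
          (2 * (k : ℝ) + 1)) ∂(cube m) :=
          integral_mono (hFint k).norm (integrable_const _) (hFb k)
      _ = _ := by simp
  have hswap := hasSum_integral_of_summable_integral_norm hFint hFsum
  have hpt : ∀ y, HasSum (fun k => F k y) (∑' k, F k y) := by
    intro y
    have := (hasSum_A hc (∑ j, a (i.succAbove j) * y j)).summable
    rw [hF]
    exact this.hasSum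
  have hintsum : Integrable (fun y => ∑' k, F k y) (cube m) := by
    refine Integrable.of_bound (C := ∑' k : ℕ, (2 / π) * (|sinc ((2 * (k : ℝ) + 1) * (a i * θ))| / (2 * (k : ℝ) + 1))) ?_ ?_
    · have hmeas : Measurable (fun y => ∑' k, F k y) := by
        refine Measurable.tsum ?_
        intro k
        rw [hF]
        fun_prop
      exact hmeas.aestronglyMeasurable
    · filter_upwards with y
      exact tsum_of_norm_bounded ((summable_sinc hc).mul_left (2 / π)).hasSum (fun k => hFb k y)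
  rw [integral_add (integrable_const _) hintsum, ← hswap.tsum_eq]
  have hI : ∀ k : ℕ, ∫ y, F k y ∂(cube m) = (2 / π) * ((-1 : ℝ) ^ k *
      ((∏ j, sinc ((2 * (k : ℝ) + 1) * (a j * θ))) / (2 * (k : ℝ) + 1))) := by
    intro k
    rw [hF]
    simp only
    rw [integral_const_mul, integral_const_mul, cube_cos, Fin.prod_univ_succAbove _ i]
    have e : ∀ j, sinc (a (i.succAbove j) * ((2 * (k : ℝ) + 1) * θ)) =
        sinc ((2 * (k : ℝ) + 1) * (a (i.succAbove j) * θ)) := by
      intro j; ring_nf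
    simp_rw [e]
    ring
  simp_rw [hI]
  rw [tsum_mul_left]
  simp

end Pool.Agent.M18.Helper89.FA
end
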