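import Mathlib
import Mathlib.Analysis.Real.Pi.Bounds
import Mathlib.Analysis.SpecialFunctions.Log.Deriv
import Mathlib.Analysis.SpecialFunctions.Trigonometric.EulerSineProd
import Mathlib.Analysis.SpecialFunctions.Trigonometric.Sinc
import Mathlib.NumberTheory.ZetaValues

/- Helper88.SlabNumeric -/
section
set_option autoImplicit false

open MeasureTheory Set Real

namespace Pool.Agent.M18.Helper88.Slab

lemma nonneg_of_deriv {f f' : ℝ → ℝ} (hf : ∀ x, HasDerivAt f (f' x) x) (h0 : 0 ≤ f 0)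
    (h : ∀ x, 0 ≤ x → 0 ≤ f' x) {x : ℝ} (hx : 0 ≤ x) : 0 ≤ f x := by
  have hmono : MonotoneOn f (Ici 0) := by
    apply monotoneOn_of_deriv_nonneg (convex_Ici 0)
    · exact fun y _ => (hf y).continuousAt.continuousWithinAt
    · exact fun y _ => (hf y).differentiableAt.differentiableWithinAt
    · intro y hy
      rw [(hf y).deriv]
      rw [interior_Ici] at hy
      exact h y (le_of_lt hy)
  exact h0.trans (hmono (mem_Ici.mpr le_rfl) (mem_Ici.mpr hx) hx)

/-- alternating partial sums of the exponential -/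
noncomputable def E (n : ℕ) (z : ℝ) : ℝ := ∑ k ∈ Finset.range (n+1), (-z)^k / (k.factorial : ℝ)

lemma hasDerivAt_E (n : ℕ) (z : ℝ) : HasDerivAt (E (n+1)) (-(E n z)) z := by
  unfold E
  have h : ∀ k ∈ Finset.range (n+1+1), HasDerivAt (fun z : ℝ => (-z)^k / (k.factorial : ℝ))
      ((k : ℝ) * (-z)^(k-1) * (-1) / (k.factorial : ℝ)) z := by
    intro k _
    have := ((hasDerivAt_id z).neg.pow k).div_const (k.factorial : ℝ)
    simpa using this
  have h2 := HasDerivAt.fun_sum h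
  refine h2.congr_deriv ?_
  rw [Finset.sum_range_succ', ← Finset.sum_neg_distrib]
  simp only [Nat.cast_zero, zero_mul, zero_div, add_zero]
  apply Finset.sum_congr rfl
  intro k _
  rw [Nat.factorial_succ]
  push_cast
  have : ((k:ℝ) + 1) ≠ 0 := by (clear * -; positivity)
  have h3 : (k.factorial : ℝ) ≠ 0 := by (clear * -; positivity)
  (clear * - this h3; field_simp)

lemma E_alt (n : ℕ) : ∀ z : ℝ, 0 ≤ z → 0 ≤ (-1:ℝ)^n * (E n z - Real.exp (-z)) := by
  induction n with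
  | zero =>
    intro z hz
    simp [E, hz]
  | succ n ih =>
    intro z hz
    refine nonneg_of_deriv (f := fun z => (-1:ℝ)^(n+1) * (E (n+1) z - Real.exp (-z)))
      (f' := fun z => (-1:ℝ)^n * (E n z - Real.exp (-z))) ?_ ?_ (fun x hx => ih x hx) hz
    · intro x
      have h1 := (hasDerivAt_E n x).sub ((hasDerivAt_id x).neg.exp)
      have h2 := h1.const_mul ((-1:ℝ)^(n+1))
      refine h2.congr_deriv ?_
      simp only [Pi.neg_apply, id_eq]
      rw [pow_succ]
      ring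
    · simp only [E]
      rw [Finset.sum_range_succ']
      simp

lemma exp_neg_le (z : ℝ) (hz : 0 ≤ z) : Real.exp (-z) ≤ 1 - z + z^2/2 - z^3/6 + z^4/24 := by
  have := E_alt 4 z hz
  simp only [E, Finset.sum_range_succ, Finset.sum_range_zero, Nat.factorial] at this
  push_cast at this
  linarith

lemma exp_neg_ge3 (z : ℝ) (hz : 0 ≤ z) : 1 - z + z^2/2 - z^3/6 ≤ Real.exp (-z) := by
  have := E_alt 3 z hz
  simp only [E, Finset.sum_range_succ, Finset.sum_range_zero, Nat.factorial] at this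
  push_cast at this
  linarith

lemma exp_neg_ge5 (z : ℝ) (hz : 0 ≤ z) :
    1 - z + z^2/2 - z^3/6 + z^4/24 - z^5/120 ≤ Real.exp (-z) := by
  have := E_alt 5 z hz
  simp only [E, Finset.sum_range_succ, Finset.sum_range_zero, Nat.factorial] at this
  push_cast at this
  linarith

lemma exp_neg_ge7 (z : ℝ) (hz : 0 ≤ z) :
    1 - z + z^2/2 - z^3/6 + z^4/24 - z^5/120 + z^6/720 - z^7/5040 ≤ Real.exp (-z) := by
  have := E_alt 7 z hz
  simp only [E, Finset.sum_range_succ, Finset.sum_range_zero, Nat.factorial] at this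
  push_cast at this
  linarith

lemma sin_ge3 {x : ℝ} (hx : 0 ≤ x) : x - x^3/6 ≤ Real.sin x := by
  have : 0 ≤ Real.sin x - (x - x^3/6) := by
    refine nonneg_of_deriv (f := fun x => Real.sin x - (x - x^3/6)) (f' := fun x => Real.cos x - (1 - x^2/2)) ?_ ?_ ?_ hx
    · intro x
      have := (Real.hasDerivAt_sin x).sub ((hasDerivAt_id x).sub ((hasDerivAt_pow 3 x).div_const 6))
      refine this.congr_deriv ?_
      norm_num
      ring
    · simp
    · intro x _
      have := Real.one_sub_sq_div_two_le_cos (x := x)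
      (clear * - this; linarith)
  (clear * - this; linarith)

lemma cos_le4 {x : ℝ} (hx : 0 ≤ x) : Real.cos x ≤ 1 - x^2/2 + x^4/24 := by
  have : 0 ≤ (1 - x^2/2 + x^4/24) - Real.cos x := by
    refine nonneg_of_deriv (f := fun x => (1 - x^2/2 + x^4/24) - Real.cos x) (f' := fun x => Real.sin x - (x - x^3/6)) ?_ ?_ ?_ hx
    · intro x
      have := (((hasDerivAt_const x (1:ℝ)).sub ((hasDerivAt_pow 2 x).div_const 2)).add ((hasDerivAt_pow 4 x).div_const 24)).sub (Real.hasDerivAt_cos x)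
      refine this.congr_deriv ?_
      norm_num
      ring
    · simp
    · intro x hx
      have := sin_ge3 hx
      linarith
  (clear * - this; linarith)

lemma sin_le5 {x : ℝ} (hx : 0 ≤ x) : Real.sin x ≤ x - x^3/6 + x^5/120 := by
  have : 0 ≤ (x - x^3/6 + x^5/120) - Real.sin x := by
    refine nonneg_of_deriv (f := fun x => (x - x^3/6 + x^5/120) - Real.sin x) (f' := fun x => (1 - x^2/2 + x^4/24) - Real.cos x) ?_ ?_ ?_ hx
    · intro x
      have := (((hasDerivAt_id x).sub ((hasDerivAt_pow 3 x).div_const 6)).add ((hasDerivAt_pow 5 x).div_const 120)).sub (Real.hasDerivAt_sin x)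
      refine this.congr_deriv ?_
      norm_num
      ring
    · simp
    · intro x hx
      have := cos_le4 hx
      (clear * - this; linarith)
  linarith

lemma cos_ge6 {x : ℝ} (hx : 0 ≤ x) : 1 - x^2/2 + x^4/24 - x^6/720 ≤ Real.cos x := by
  have : 0 ≤ Real.cos x - (1 - x^2/2 + x^4/24 - x^6/720) := by
    refine nonneg_of_deriv (f := fun x => Real.cos x - (1 - x^2/2 + x^4/24 - x^6/720)) (f' := fun x => (x - x^3/6 + x^5/120) - Real.sin x) ?_ ?_ ?_ hx
    · intro x
      have := (Real.hasDerivAt_cos x).sub ((((hasDerivAt_const x (1:ℝ)).sub ((hasDerivAt_pow 2 x).div_const 2)).add ((hasDerivAt_pow 4 x).div_const 24)).sub ((hasDerivAt_pow 6 x).div_const 720))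
      refine this.congr_deriv ?_
      norm_num
      ring
    · simp
    · intro x hx
      have := sin_le5 hx
      (clear * - this; linarith)
  (clear * - this; linarith)

lemma sin_ge7 {x : ℝ} (hx : 0 ≤ x) : x - x^3/6 + x^5/120 - x^7/5040 ≤ Real.sin x := by
  have : 0 ≤ Real.sin x - (x - x^3/6 + x^5/120 - x^7/5040) := by
    refine nonneg_of_deriv (f := fun x => Real.sin x - (x - x^3/6 + x^5/120 - x^7/5040)) (f' := fun x => Real.cos x - (1 - x^2/2 + x^4/24 - x^6/720)) ?_ ?_ ?_ hx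
    · intro x
      have := (Real.hasDerivAt_sin x).sub ((((hasDerivAt_id x).sub ((hasDerivAt_pow 3 x).div_const 6)).add ((hasDerivAt_pow 5 x).div_const 120)).sub ((hasDerivAt_pow 7 x).div_const 5040))
      refine this.congr_deriv ?_
      norm_num
      ring
    · simp
    · intro x hx
      have := cos_ge6 hx
      (clear * - this; linarith)
  linarith

lemma poly_ineq {w : ℝ} (h0 : 0 ≤ w) (h1 : w ≤ 3.61) :
    1 - (w/6 + w^2/125) + (w/6 + w^2/125)^2/2 - (w/6 + w^2/125)^3/6 + (w/6 + w^2/125)^4/24 ≤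
      1 - w/6 + w^2/120 - w^3/5040 := by
  have e : (1 - w/6 + w^2/120 - w^3/5040) - (1 - (w/6 + w^2/125) + (w/6 + w^2/125)^2/2 -
      (w/6 + w^2/125)^3/6 + (w/6 + w^2/125)^4/24) =
      w^2 * (11/4500 - 431/567000 * w + w^2 * (22823/486000000 - 17/20250000 * w - 101/281250000 * w^2
        - 1/70312500 * w^3 - 1/5859375000 * w^4)) := by ring
  have h2 : w^2 ≤ 3.61^2 := by (clear * - h0 h1; gcongr)
  have h3 : w^3 ≤ 3.61^3 := by gcongr
  have h4 : w^4 ≤ 3.61^4 := by gcongr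
  have h5 : 3.85e-5 ≤ (22823/486000000 - 17/20250000 * w - 101/281250000 * w^2
        - 1/70312500 * w^3 - 1/5859375000 * w^4 : ℝ) := by
    norm_num at *
    (clear * - h1 h2 h3 h4; linarith)
  have h6 : w^2 * 3.85e-5 ≤ w^2 * (22823/486000000 - 17/20250000 * w - 101/281250000 * w^2
        - 1/70312500 * w^3 - 1/5859375000 * w^4 : ℝ) := mul_le_mul_of_nonneg_left h5 (sq_nonneg w)
  have h7 : 0 ≤ 11/4500 - 431/567000 * w + w^2 * 3.85e-5 := by
    (clear * - h1 h0; nlinarith [mul_nonneg h0 (by linarith : 0 ≤ 3.61 - w), sq_nonneg (w - 3.61)])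
  have h8 : 0 ≤ w^2 * (11/4500 - 431/567000 * w + w^2 * (22823/486000000 - 17/20250000 * w - 101/281250000 * w^2
        - 1/70312500 * w^3 - 1/5859375000 * w^4)) := by
    apply mul_nonneg (sq_nonneg w)
    (clear * - h6 h7; linarith)
  (clear * - h8; linarith)

/-- (N1) -/
lemma sinc_ge {y : ℝ} (hy : |y| ≤ 1.9) : Real.exp (-(y^2/6 + y^4/125)) ≤ sinc y := by
  wlog h : 0 ≤ y generalizing y
  · have := this (y := -y) (by rwa [abs_neg]) (by (clear * - h; linarith))
    rw [sinc_neg] at this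
    convert this using 2
    ring
  rcases h.eq_or_lt with rfl | hpos
  · simp
  rw [abs_of_pos hpos] at hy
  rw [sinc_of_ne_zero hpos.ne', le_div_iff₀ hpos]
  have h1 := exp_neg_le (y^2/6 + y^4/125) (by (clear * - hpos; positivity))
  have h2 := sin_ge7 h
  have h3 := poly_ineq (w := y^2) (by positivity) (by (clear * - hy h; nlinarith))
  have h4 : (1 - (y^2/6 + y^4/125) + (y^2/6 + y^4/125)^2/2 - (y^2/6 + y^4/125)^3/6 + (y^2/6 + y^4/125)^4/24) ≤
      1 - y^2/6 + y^4/120 - y^6/5040 := by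
    have e1 : (y^2)^2 = y^4 := by ring
    have e2 : (y^2)^3 = y^6 := by ring
    rw [e1, e2] at h3
    exact h3
  have h5 : Real.exp (-(y^2/6 + y^4/125)) * y ≤ (1 - y^2/6 + y^4/120 - y^6/5040) * y :=
    mul_le_mul_of_nonneg_right (h1.trans h4) h
  refine h5.trans (le_trans (le_of_eq ?_) h2)
  ring

/-- (N2) -/
lemma sinc_le {y : ℝ} (hy : |y| ≤ π) : sinc y ≤ Real.exp (-(y^2/6)) := by
  wlog h : 0 ≤ y generalizing y
  · have := this (y := -y) (by rwa [abs_neg]) (by linarith)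
    rw [sinc_neg] at this
    convert this using 3
    ring
  rcases h.eq_or_lt with rfl | hpos
  · simp
  rw [abs_of_pos hpos] at hy
  rw [sinc_of_ne_zero hpos.ne', div_le_iff₀ hpos]
  rcases le_total (y^2) 7.2 with h1 | h1
  · have h2 := exp_neg_ge3 (y^2/6) (by (clear * - hpos; positivity))
    have h3 := sin_le5 h
    have h4 : (1 - y^2/6 + y^4/120) ≤ 1 - (y^2/6) + (y^2/6)^2/2 - (y^2/6)^3/6 := by
      have e : 1 - (y^2/6) + (y^2/6)^2/2 - (y^2/6)^3/6 - (1 - y^2/6 + y^4/120) = y^4 * (7.2 - y^2)/1296 := by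
        norm_num
        ring
      have : 0 ≤ y^4 * (7.2 - y^2)/1296 := by
        apply div_nonneg _ (by norm_num)
        apply mul_nonneg (by positivity)
        (clear * - h1; linarith)
      (clear * - this; linarith)
    have h5 : (1 - y^2/6 + y^4/120) * y ≤ Real.exp (-(y^2/6)) * y :=
      mul_le_mul_of_nonneg_right (h4.trans h2) h
    refine le_trans h3 (le_trans (le_of_eq ?_) h5)
    ring
  · have hy2 : 2.68 ≤ y := by nlinarith
    have hpi := Real.pi_lt_d4
    have h2 : Real.sin y ≤ 0.4616 := by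
      have : Real.sin y = Real.sin (π - y) := by rw [Real.sin_pi_sub]
      rw [this]
      have h3 : Real.sin (π - y) ≤ π - y := Real.sin_le (by (clear * - hy; linarith))
      (clear * - hy2 hpi h3; linarith)
    have h3 : 0.18 ≤ Real.exp (-(y^2/6)) := by
      have h4 : Real.exp (-1.645) ≤ Real.exp (-(y^2/6)) := by
        apply Real.exp_le_exp.mpr
        have : y ≤ 3.1416 := by (clear * - hy hpi; linarith)
        (clear * - hy hpi h; nlinarith)
      have h5 := exp_neg_ge7 1.645 (by norm_num)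
      refine le_trans ?_ h4
      refine le_trans ?_ h5
      norm_num
    (clear * - hy2 h2 h h3; nlinarith)

lemma abs_sinc_le_inv {y : ℝ} (hy : y ≠ 0) : |sinc y| ≤ 1/|y| := by
  rw [sinc_of_ne_zero hy, abs_div]
  gcongr
  exact abs_sin_le_one y

lemma sinc_nonneg {y : ℝ} (hy : |y| ≤ π) : 0 ≤ sinc y := by
  wlog h : 0 ≤ y generalizing y
  · have := this (y := -y) (by rwa [abs_neg]) (by linarith)
    rwa [sinc_neg] at this
  rcases h.eq_or_lt with rfl | hpos
  · simp
  rw [abs_of_pos hpos] at hy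
  rw [sinc_of_ne_zero hpos.ne']
  exact div_nonneg (Real.sin_nonneg_of_nonneg_of_le_pi h hy) h

/-- (N3) tail bound for a single factor -/
lemma sinc_tail {a t : ℝ} (ha : |a| ≤ 1/2) (ht : π ≤ t) :
    |sinc (a * (2 * t))| ≤ Real.exp (-(4 * a^2 * Real.log t)) := by
  have hpi := Real.pi_gt_three
  have ht0 : 0 < t := by (clear * - ht hpi; linarith)
  wlog h : 0 ≤ a generalizing a
  · have := this (a := -a) (by rwa [abs_neg]) (by (clear * - h; linarith))
    rw [neg_mul, sinc_neg] at this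
    convert this using 5
    ring
  rw [abs_of_nonneg h] at ha
  set y := a * (2 * t) with hy
  have hy0 : 0 ≤ y := by (clear * - h ht0; positivity)
  have hyt : y ≤ t := by rw [hy]; (clear * - ha ht hpi; nlinarith)
  have ha2 : 4 * a^2 * t^2 = y^2 := by rw [hy]; ring
  rcases le_total y π with h1 | h1
  · rw [abs_of_nonneg (sinc_nonneg (by rwa [abs_of_nonneg hy0]))]
    refine (sinc_le (by rwa [abs_of_nonneg hy0])).trans ?_
    apply Real.exp_le_exp.mpr
    apply neg_le_neg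
    rw [← ha2]
    have hlog : Real.log t ≤ t^2/6 := by
      have h2 : Real.log (t / Real.exp 1) ≤ t / Real.exp 1 - 1 :=
        Real.log_le_sub_one_of_pos (by positivity)
      rw [Real.log_div ht0.ne' (by positivity), Real.log_exp] at h2
      have h3 : t / Real.exp 1 ≤ t^2/6 := by
        rw [div_le_div_iff₀ (by positivity) (by norm_num)]
        have := Real.exp_one_gt_d9
        (clear * - ht hpi this; nlinarith)
      linarith
    have : 4 * a^2 * Real.log t ≤ 4 * a^2 * (t^2/6) := by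
      apply mul_le_mul_of_nonneg_left hlog (by (clear * -; positivity))
    (clear * - this; linarith)
  · have hypos : 0 < y := by (clear * - hpi h1; linarith)
    refine (abs_sinc_le_inv hypos.ne').trans ?_
    rw [abs_of_pos hypos]
    have h2 : 1/y = Real.exp (-(Real.log y)) := by
      rw [Real.exp_neg, Real.exp_log hypos, one_div]
    rw [h2]
    apply Real.exp_le_exp.mpr
    apply neg_le_neg
    have hlogy : 1 ≤ Real.log y := by
      rw [Real.le_log_iff_exp_le hypos]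
      have := Real.exp_one_lt_d9
      (clear * - hpi h1 this; linarith)
    have hρ : Real.log t = Real.log y + Real.log (t/y) := by
      rw [Real.log_div ht0.ne' hypos.ne']; ring
    have hρ2 : Real.log (t/y) ≤ t/y - 1 := Real.log_le_sub_one_of_pos (by positivity)
    have key : y^2 * Real.log t ≤ t^2 * Real.log y := by
      rw [hρ]
      have h3 : y^2 * Real.log (t/y) ≤ y^2 * (t/y - 1) := by gcongr
      have h4 : y^2 * (t/y - 1) = y * t - y^2 := by (clear * - hypos; field_simp)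
      have h5 : 0 ≤ (t^2 - y^2) * (Real.log y - 1) := by
        apply mul_nonneg _ (by (clear * - hlogy; linarith))
        (clear * - ha hy0 hyt; nlinarith)
      (clear * - h3 h4 h5 ha; nlinarith)
    have h6 : 4 * a^2 = y^2 / t^2 := by rw [← ha2]; field_simp
    rw [h6, div_mul_eq_mul_div, div_le_iff₀ (by positivity)]
    (clear * - key; linarith)

end Pool.Agent.M18.Helper88.Slab
end

/- Helper41.FA.F2bc -/
section
/-!
One-variable bounds of `sinc` (module F2b, F2c of project FA, MP_66ebcc_gt).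
-/

set_option autoImplicit false

open Set Real

namespace Pool.Agent.M18.Helper89.FA

namespace F2bc

open Pool.Agent.M18.Helper88.Slab

lemma exp_neg_lower {x v : ℝ} (hx : 0 ≤ x) (hv : 0 ≤ v)
    (h : v ≤ 1 - x/4 + (x/4)^2/2 - (x/4)^3/6 + (x/4)^4/24 - (x/4)^5/120 + (x/4)^6/720 - (x/4)^7/5040) :
    v ^ 4 ≤ Real.exp (-x) := by
  have h1 := exp_neg_ge7 (x/4) (by (clear * - hx; positivity))
  have h2 : v ≤ Real.exp (-(x/4)) := h.trans h1
  have h3 : Real.exp (-x) = Real.exp (-(x/4)) ^ 4 := by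
    rw [← Real.exp_nat_mul]
    congr 1
    push_cast
    ring
  rw [h3]
  exact pow_le_pow_left₀ hv h2 4

lemma h_anti {c z z1 : ℝ} (hz : 0 < z) (hz1 : z ≤ z1) (hc : 1 ≤ c * z * (z + z1)) :
    z1 * Real.exp (-(c * z1 ^ 2)) ≤ z * Real.exp (-(c * z ^ 2)) := by
  have h1 : z1 / z ≤ Real.exp (z1 / z - 1) := by
    have := Real.add_one_le_exp (z1 / z - 1)
    (clear * - this; linarith)
  have h2 : z1 / z - 1 ≤ c * z1 ^ 2 - c * z ^ 2 := by
    rw [div_sub_one hz.ne', div_le_iff₀ hz]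
    have : (z1 - z) * 1 ≤ (z1 - z) * (c * z * (z + z1)) :=
      mul_le_mul_of_nonneg_left hc (by (clear * - hz1; linarith))
    (clear * - this; nlinarith)
  have h3 : z1 / z ≤ Real.exp (c * z1 ^ 2 - c * z ^ 2) := h1.trans (Real.exp_le_exp.mpr h2)
  rw [div_le_iff₀ hz] at h3
  have h4 : Real.exp (-(c * z ^ 2)) = Real.exp (c * z1 ^ 2 - c * z ^ 2) * Real.exp (-(c * z1 ^ 2)) := by
    rw [← Real.exp_add]; congr 1; ring
  rw [h4]
  have h5 := Real.exp_pos (-(c * z1 ^ 2))
  (clear * - h3 h5; nlinarith)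

/-- One piece `[z0, z1]`. -/
lemma piece {c z0 z1 s z : ℝ} (h0 : 0 < z0) (hz : z0 ≤ z) (hz1 : z ≤ z1) (hc0 : 0 ≤ c)
    (hc : 1 ≤ c * z0 * (z0 + z1))
    (hs : |Real.sin z| ≤ s) (hh : s ≤ z1 * Real.exp (-(c * z1 ^ 2))) :
    |sinc z| ≤ Real.exp (-(c * z ^ 2)) := by
  have hz0 : 0 < z := by (clear * - h0 hz; linarith)
  rw [sinc_of_ne_zero hz0.ne', abs_div, abs_of_pos hz0, div_le_iff₀ hz0]
  have hc' : 1 ≤ c * z * (z + z1) := by
    refine hc.trans ?_
    have h1 : c * z0 ≤ c * z := mul_le_mul_of_nonneg_left hz hc0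
    exact mul_le_mul h1 (by (clear * - hz; linarith)) (by linarith) (mul_nonneg hc0 hz0.le)
  have := h_anti hz0 hz1 hc'
  linarith

lemma small_case {c z : ℝ} (hc : c ≤ 1 / 6) (hz : |z| ≤ π) : |sinc z| ≤ Real.exp (-(c * z ^ 2)) := by
  rw [abs_of_nonneg (sinc_nonneg hz)]
  refine (sinc_le hz).trans (Real.exp_le_exp.mpr ?_)
  have : c * z ^ 2 ≤ 1 / 6 * z ^ 2 := mul_le_mul_of_nonneg_right hc (sq_nonneg z)
  (clear * - this; linarith)

lemma reduce {c Z : ℝ} (hc : c ≤ 1 / 6)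
    (h : ∀ z : ℝ, π ≤ z → z ≤ Z → |sinc z| ≤ Real.exp (-(c * z ^ 2))) {z : ℝ} (hz : |z| ≤ Z) :
    |sinc z| ≤ Real.exp (-(c * z ^ 2)) := by
  rcases le_total |z| π with h1 | h1
  · exact small_case hc h1
  · have h2 := h |z| h1 hz
    rw [sq_abs] at h2
    rcases abs_choice z with h3 | h3
    · rwa [h3] at h2
    · rw [h3, sinc_neg] at h2
      exact h2

/-- `|sin z|` for `π ≤ z ≤ 3π/2`, upper end `z1`. -/
lemma sin_after_pi {z v : ℝ} (hz : π ≤ z) (hv : z - π ≤ v) (hv2 : v ≤ π / 2) :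
    |Real.sin z| ≤ v - v^3/6 + v^5/120 := by
  have h1 : Real.sin z = - Real.sin (z - π) := by rw [Real.sin_sub_pi, neg_neg]
  have h2 : 0 ≤ Real.sin (z - π) :=
    Real.sin_nonneg_of_nonneg_of_le_pi (by (clear * - hz; linarith)) (by (clear * - hz hv hv2; linarith [Real.pi_pos]))
  rw [h1, abs_neg, abs_of_nonneg h2]
  have h3 : Real.sin (z - π) ≤ Real.sin v :=
    Real.sin_le_sin_of_le_of_le_pi_div_two (by (clear * - hz hv hv2; linarith [Real.pi_pos])) hv2 hv
  exact h3.trans (sin_le5 (by (clear * - hz hv; linarith)))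

/-- `|sin z|` for `3π/2 ≤ z`. -/
lemma sin_after_three {z s : ℝ} (hs : 0 ≤ s) (hz : s ≤ z - 3 * π / 2) (hz2 : z ≤ 2 * π) :
    |Real.sin z| ≤ 1 - s^2/2 + s^4/24 := by
  have h1 : Real.sin z = - Real.cos (z - 3 * π / 2) := by
    have e : z - 3 * π / 2 = (z - π) - π / 2 := by ring
    rw [e, Real.cos_sub_pi_div_two, Real.sin_sub_pi, neg_neg]
  have h2 : 0 ≤ Real.cos (z - 3 * π / 2) :=
    Real.cos_nonneg_of_neg_pi_div_two_le_of_le (by linarith [Real.pi_pos]) (by (clear * - hz2; linarith))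
  rw [h1, abs_neg, abs_of_nonneg h2]
  have h3 : Real.cos (z - 3 * π / 2) ≤ Real.cos s :=
    Real.cos_le_cos_of_nonneg_of_le_pi hs (by (clear * - hs hz hz2; linarith [Real.pi_pos])) hz
  exact h3.trans (cos_le4 hs)

end F2bc

open F2bc Pool.Agent.M18.Helper88.Slab

/-- F2b. -/
theorem sinc_ge_a {y : ℝ} (hy : |y| ≤ 1.048) : exp (-(y ^ 2 / 6 + 0.006 * y ^ 4)) ≤ sinc y := by
  wlog h : 0 ≤ y generalizing y
  · have := this (y := -y) (by rwa [abs_neg]) (by (clear * - h; linarith))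
    rw [sinc_neg] at this
    convert this using 2
    ring
  rcases h.eq_or_lt with rfl | hpos
  · simp
  rw [abs_of_pos hpos] at hy
  rw [sinc_of_ne_zero hpos.ne', le_div_iff₀ hpos]
  have h1 := exp_neg_le (y^2/6 + 0.006*y^4) (by (clear * - hpos; positivity))
  have h2 := sin_ge7 h
  have h4 : (1 - (y^2/6 + 0.006*y^4) + (y^2/6 + 0.006*y^4)^2/2 - (y^2/6 + 0.006*y^4)^3/6
      + (y^2/6 + 0.006*y^4)^4/24) ≤ 1 - y^2/6 + y^4/120 - y^6/5040 := by
    obtain ⟨w, hw⟩ : ∃ w, w = y^2 := ⟨_, rfl⟩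
    have e1 : y^4 = w^2 := by rw [hw]; ring
    have e2 : y^6 = w^3 := by rw [hw]; ring
    rw [e1, e2, ← hw]
    have h0 : 0 ≤ w := by rw [hw]; positivity
    have h1 : w ≤ 1.098304 := by rw [hw]; (clear * - hy h; nlinarith)
    have hD : (1 - w/6 + w^2/120 - w^3/5040) - (1 - (w/6 + 0.006*w^2) + (w/6 + 0.006*w^2)^2/2
        - (w/6 + 0.006*w^2)^3/6 + (w/6 + 0.006*w^2)^4/24) =
        w^2 * (1/2250 - 121/283500 * w + w^2 * (16127/486000000 - 11/6750000 * w
          - 107/500000000 * w^2 - 3/500000000 * w^3 - 27/500000000000 * w^4)) := by ring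
    have p2 : w^2 ≤ 1.1^2 := by gcongr; (clear * - h1; linarith)
    have p3 : w^3 ≤ 1.1^3 := by gcongr; (clear * - h1; linarith)
    have p4 : w^4 ≤ 1.1^4 := by gcongr; (clear * - h1; linarith)
    have h5 : 3.1e-5 ≤ (16127/486000000 - 11/6750000 * w
          - 107/500000000 * w^2 - 3/500000000 * w^3 - 27/500000000000 * w^4 : ℝ) := by
      norm_num at *
      (clear * - h1 p2 p3 p4; linarith)
    have h6 : w^2 * 3.1e-5 ≤ w^2 * (16127/486000000 - 11/6750000 * w
          - 107/500000000 * w^2 - 3/500000000 * w^3 - 27/500000000000 * w^4 : ℝ) :=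
      mul_le_mul_of_nonneg_left h5 (sq_nonneg w)
    have h7 : 0 ≤ 1/2250 - 121/283500 * w + w^2 * 3.1e-5 := by
      (clear * - h1 h0; nlinarith [mul_nonneg h0 (by linarith : 0 ≤ 1.098304 - w), sq_nonneg (w - 1.098304)])
    have h8 : 0 ≤ w^2 * (1/2250 - 121/283500 * w + w^2 * (16127/486000000 - 11/6750000 * w
          - 107/500000000 * w^2 - 3/500000000 * w^3 - 27/500000000000 * w^4)) :=
      mul_nonneg (sq_nonneg w) (by (clear * - h6 h7; linarith))
    (clear * - h8; linarith)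
  have h5 : Real.exp (-(y^2/6 + 0.006*y^4)) * y ≤ (1 - y^2/6 + y^4/120 - y^6/5040) * y :=
    mul_le_mul_of_nonneg_right (h1.trans h4) h
  refine h5.trans (le_trans (le_of_eq ?_) h2)
  ring

/-- F2b. -/
theorem sinc_ge_b {y : ℝ} (hy : |y| ≤ 1.21) : exp (-(y ^ 2 / 6 + 0.0062 * y ^ 4)) ≤ sinc y := by
  wlog h : 0 ≤ y generalizing y
  · have := this (y := -y) (by rwa [abs_neg]) (by (clear * - h; linarith))
    rw [sinc_neg] at this
    convert this using 2
    ring
  rcases h.eq_or_lt with rfl | hpos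
  · simp
  rw [abs_of_pos hpos] at hy
  rw [sinc_of_ne_zero hpos.ne', le_div_iff₀ hpos]
  have h1 := exp_neg_le (y^2/6 + 0.0062*y^4) (by (clear * - hpos; positivity))
  have h2 := sin_ge7 h
  have h4 : (1 - (y^2/6 + 0.0062*y^4) + (y^2/6 + 0.0062*y^4)^2/2 - (y^2/6 + 0.0062*y^4)^3/6
      + (y^2/6 + 0.0062*y^4)^4/24) ≤ 1 - y^2/6 + y^4/120 - y^6/5040 := by
    obtain ⟨w, hw⟩ : ∃ w, w = y^2 := ⟨_, rfl⟩
    have e1 : y^4 = w^2 := by rw [hw]; ring
    have e2 : y^6 = w^3 := by rw [hw]; ring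
    rw [e1, e2, ← hw]
    have h0 : 0 ≤ w := by rw [hw]; positivity
    have h1 : w ≤ 1.4641 := by rw [hw]; (clear * - hy h; nlinarith)
    have hD : (1 - w/6 + w^2/120 - w^3/5040) - (1 - (w/6 + 0.0062*w^2) + (w/6 + 0.0062*w^2)^2/2
        - (w/6 + 0.0062*w^2)^3/6 + (w/6 + 0.0062*w^2)^4/24) =
        w^2 * (29/45000 - 2609/5670000 * w + w^2 * (211051/6075000000 - 12803/8100000000 * w
          - 127813/562500000000 * w^2 - 29791/4500000000000 * w^3 -
          923521/15000000000000000 * w^4)) := by ring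
    have p2 : w^2 ≤ 1.47^2 := by gcongr; (clear * - h1; linarith)
    have p3 : w^3 ≤ 1.47^3 := by gcongr; (clear * - h1; linarith)
    have p4 : w^4 ≤ 1.47^4 := by gcongr; (clear * - h1; linarith)
    have h5 : 3.1e-5 ≤ (211051/6075000000 - 12803/8100000000 * w
          - 127813/562500000000 * w^2 - 29791/4500000000000 * w^3 -
          923521/15000000000000000 * w^4 : ℝ) := by
      norm_num at *
      (clear * - h1 p2 p3 p4; linarith)
    have h6 : w^2 * 3.1e-5 ≤ w^2 * (211051/6075000000 - 12803/8100000000 * w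
          - 127813/562500000000 * w^2 - 29791/4500000000000 * w^3 -
          923521/15000000000000000 * w^4 : ℝ) :=
      mul_le_mul_of_nonneg_left h5 (sq_nonneg w)
    have h7 : 0 ≤ 29/45000 - 2609/5670000 * w + w^2 * 3.1e-5 := by
      (clear * - h1 h0; nlinarith [mul_nonneg h0 (by linarith : 0 ≤ 1.4641 - w), sq_nonneg (w - 1.4641)])
    have h8 : 0 ≤ w^2 * (29/45000 - 2609/5670000 * w + w^2 * (211051/6075000000 - 12803/8100000000 * w
          - 127813/562500000000 * w^2 - 29791/4500000000000 * w^3 -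
          923521/15000000000000000 * w^4)) :=
      mul_nonneg (sq_nonneg w) (by (clear * - h6 h7; linarith))
    (clear * - h8; linarith)
  have h5 : Real.exp (-(y^2/6 + 0.0062*y^4)) * y ≤ (1 - y^2/6 + y^4/120 - y^6/5040) * y :=
    mul_le_mul_of_nonneg_right (h1.trans h4) h
  refine h5.trans (le_trans (le_of_eq ?_) h2)
  ring

/-- F2c. -/
theorem abs_sinc_357 {z : ℝ} (hz : |z| ≤ 3.57) : |sinc z| ≤ exp (-(z ^ 2 / 6)) := by
  have h := reduce (c := 1/6) (Z := 3.57) le_rfl ?_ hz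
  · convert h using 3; ring
  intro z h1 h2
  have hpi := Real.pi_gt_d6
  have hpi2 := Real.pi_lt_d6
  refine piece (z0 := 3.14) (z1 := 3.57) (s := 0.4156) (by norm_num) (by (clear * - h1 hpi hpi2; linarith)) h2 (by norm_num)
    (by norm_num) ?_ ?_
  · refine (sin_after_pi (v := 0.42841) h1 (by (clear * - h2 hpi hpi2; linarith)) (by (clear * - hpi hpi2; linarith))).trans ?_
    norm_num
  · have := exp_neg_lower (x := 1/6*3.57^2) (v := 0.5875) (by norm_num) (by norm_num) (by norm_num)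
    norm_num at this ⊢
    linarith

theorem abs_sinc_393 {z : ℝ} (hz : |z| ≤ 5 * π / 4) : |sinc z| ≤ exp (-(0.1105 * z ^ 2)) := by
  refine reduce (c := 0.1105) (Z := 5 * π / 4) (by norm_num) ?_ hz
  intro z h1 h2
  have hpi := Real.pi_gt_d6
  have hpi2 := Real.pi_lt_d6
  refine piece (z0 := 3.14) (z1 := 3.927) (s := 0.7072) (by norm_num) (by linarith) (by linarith)
    (by norm_num) (by norm_num) ?_ ?_
  · refine (sin_after_pi (v := 0.7854) h1 (by linarith) (by (clear * - hpi hpi2; linarith))).trans ?_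
    norm_num
  · have := exp_neg_lower (x := 0.1105*3.927^2) (v := 0.653) (by norm_num) (by norm_num) (by norm_num)
    norm_num at this ⊢
    (clear * - hpi hpi2 this; linarith)

theorem abs_sinc_435 {z : ℝ} (hz : |z| ≤ 4.346) : |sinc z| ≤ exp (-(0.08 * z ^ 2)) := by
  refine reduce (c := 0.08) (Z := 4.346) (by norm_num) ?_ hz
  intro z h1 h2
  have hpi := Real.pi_gt_d6
  have hpi2 := Real.pi_lt_d6
  refine piece (z0 := 3.14) (z1 := 4.346) (s := 0.935) (by norm_num) (by linarith) (by (clear * - h2; linarith))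
    (by norm_num) (by norm_num) ?_ ?_
  · refine (sin_after_pi (v := 1.20441) h1 (by linarith) (by (clear * - hpi hpi2; linarith))).trans ?_
    norm_num
  · have := exp_neg_lower (x := 0.08*4.346^2) (v := 0.685) (by norm_num) (by norm_num) (by norm_num)
    norm_num at this ⊢
    (clear * - hpi hpi2 this; linarith)

theorem abs_sinc_550 {z : ℝ} (hz : |z| ≤ 7 * π / 4) : |sinc z| ≤ exp (-(0.064 * z ^ 2)) := by
  refine reduce (c := 0.064) (Z := 7 * π / 4) (by norm_num) ?_ hz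
  intro z h1 h2
  have hpi := Real.pi_gt_d6
  have hpi2 := Real.pi_lt_d6
  rcases le_total z 5 with h3 | h3
  · refine piece (z0 := 3.14) (z1 := 5) (s := 1) (by norm_num) (by linarith) (by (clear * - h3; linarith))
      (by norm_num) (by norm_num) (Real.abs_sin_le_one z) ?_
    have := exp_neg_lower (x := 0.064*5^2) (v := 0.67) (by norm_num) (by norm_num) (by norm_num)
    norm_num at this ⊢
    (clear * - hpi hpi2 this; linarith)
  have key : ∀ (z0 z1 s v : ℝ), 4.7125 ≤ z0 → z0 ≤ z → z ≤ z1 → 1 ≤ 0.064 * z0 * (z0 + z1) →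
      1 - (z0 - 4.7124)^2/2 + (z0 - 4.7124)^4/24 ≤ s → s ≤ z1 * v ^ 4 → 0 ≤ v →
      v ≤ 1 - (0.064*z1^2)/4 + ((0.064*z1^2)/4)^2/2 - ((0.064*z1^2)/4)^3/6 + ((0.064*z1^2)/4)^4/24
        - ((0.064*z1^2)/4)^5/120 + ((0.064*z1^2)/4)^6/720 - ((0.064*z1^2)/4)^7/5040 →
      |sinc z| ≤ exp (-(0.064 * z ^ 2)) := by
    intro z0 z1 s v g0 g1 g2 g3 g4 g5 g6 g7
    refine piece (z0 := z0) (z1 := z1) (s := s) (by (clear * - hpi hpi2 g0; linarith)) g1 g2 (by norm_num) g3 ?_ ?_
    · exact (sin_after_three (s := z0 - 4.7124) (by (clear * - hpi hpi2 g0; linarith)) (by (clear * - hpi hpi2 g1; linarith)) (by (clear * - h2 hpi hpi2; linarith))).trans g4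
    · have := exp_neg_lower (x := 0.064*z1^2) (by (clear * -; positivity)) g6 g7
      have h5 : z1 * v ^ 4 ≤ z1 * Real.exp (-(0.064*z1^2)) :=
        mul_le_mul_of_nonneg_left this (by (clear * - h1 hpi hpi2 g2; linarith))
      (clear * - g5 h5; linarith)
  rcases le_total z 5.1 with h4 | h4
  · exact key 5 5.1 0.96 0.659 (by norm_num) h3 h4 (by norm_num) (by norm_num) (by norm_num)
      (by norm_num) (by norm_num)
  rcases le_total z 5.18 with h5 | h5
  · exact key 5.1 5.18 0.9265 0.6505 (by norm_num) h4 h5 (by norm_num) (by norm_num) (by norm_num)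
      (by norm_num) (by norm_num)
  rcases le_total z 5.26 with h6 | h6
  · exact key 5.18 5.26 0.8934 0.6421 (by norm_num) h5 h6 (by norm_num) (by norm_num) (by norm_num)
      (by norm_num) (by norm_num)
  rcases le_total z 5.35 with h7 | h7
  · exact key 5.26 5.35 0.8543 0.6325 (by norm_num) h6 h7 (by norm_num) (by norm_num) (by norm_num)
      (by norm_num) (by norm_num)
  rcases le_total z 5.47 with h8 | h8
  · exact key 5.35 5.47 0.804 0.6195 (by norm_num) h7 h8 (by norm_num) (by norm_num) (by norm_num)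
      (by norm_num) (by norm_num)
  · exact key 5.47 5.498 0.75 0.6165 (by norm_num) h8 (by (clear * - h2 hpi hpi2; linarith)) (by norm_num) (by norm_num)
      (by norm_num) (by norm_num) (by norm_num)

theorem abs_sinc_707 {z : ℝ} (hz : |z| ≤ 9 * π / 4) : |sinc z| ≤ exp (-(0.045 * z ^ 2)) := by
  refine reduce (c := 0.045) (Z := 9 * π / 4) (by norm_num) ?_ hz
  intro z h1 h2
  have hpi := Real.pi_gt_d6
  have hpi2 := Real.pi_lt_d6
  rcases le_total z (2 * π) with h3 | h3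
  · refine piece (z0 := 3.14) (z1 := 6.2832) (s := 1) (by norm_num) (by (clear * - h1 hpi hpi2; linarith)) (by (clear * - hpi hpi2 h3; linarith))
      (by norm_num) (by norm_num) (Real.abs_sin_le_one z) ?_
    have := exp_neg_lower (x := 0.045*6.2832^2) (v := 0.64) (by norm_num) (by norm_num) (by norm_num)
    norm_num at this ⊢
    (clear * - hpi hpi2 this; linarith)
  · refine piece (z0 := 6.28) (z1 := 7.0686) (s := 0.7072) (by norm_num) (by (clear * - hpi hpi2 h3; linarith)) (by linarith)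
      (by norm_num) (by norm_num) ?_ ?_
    · have e : Real.sin z = Real.sin (z - 2 * π) := by rw [Real.sin_sub_two_pi]
      have h4 : 0 ≤ Real.sin (z - 2 * π) :=
        Real.sin_nonneg_of_nonneg_of_le_pi (by (clear * - h3; linarith)) (by linarith)
      rw [e, abs_of_nonneg h4]
      have h5 : Real.sin (z - 2 * π) ≤ Real.sin 0.7854 :=
        Real.sin_le_sin_of_le_of_le_pi_div_two (by (clear * - hpi hpi2 h3; linarith)) (by (clear * - hpi hpi2; linarith)) (by linarith)
      refine h5.trans ((sin_le5 (by norm_num)).trans ?_)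
      norm_num
    · have := exp_neg_lower (x := 0.045*7.0686^2) (v := 0.5695) (by norm_num) (by norm_num)
        (by norm_num)
      norm_num at this ⊢
      linarith

/-- Maximum of `|sinc|` beyond `π`. -/
theorem abs_sinc_max {z : ℝ} (hz : π ≤ |z|) : |sinc z| ≤ 0.218 := by
  wlog h : 0 ≤ z generalizing z
  · have := this (z := -z) (by rwa [abs_neg]) (by linarith)
    rwa [sinc_neg] at this
  rw [abs_of_nonneg h] at hz
  have hpi := Real.pi_gt_d6
  have hpi2 := Real.pi_lt_d6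
  have hpos : 0 < z := by (clear * - hz hpi hpi2; linarith)
  rcases le_total 4.5872 z with h1 | h1
  · refine (abs_sinc_le_inv hpos.ne').trans ?_
    rw [abs_of_pos hpos, div_le_iff₀ hpos]
    linarith
  · rw [sinc_of_ne_zero hpos.ne', abs_div, abs_of_pos hpos, div_le_iff₀ hpos]
    have e : Real.sin z = - Real.cos (3 * π / 2 - z) := by
      have e : 3 * π / 2 - z = -((z - π) - π / 2) := by ring
      rw [e, Real.cos_neg, Real.cos_sub_pi_div_two, Real.sin_sub_pi, neg_neg]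
    have h2 : 0 ≤ Real.cos (3 * π / 2 - z) :=
      Real.cos_nonneg_of_neg_pi_div_two_le_of_le (by (clear * - hpi hpi2 h1; linarith [Real.pi_pos])) (by (clear * - hz; linarith))
    rw [e, abs_neg, abs_of_nonneg h2]
    obtain ⟨u, hu⟩ : ∃ u, u = 3 * π / 2 - z := ⟨_, rfl⟩
    rw [← hu]
    have hz' : z = 3 * π / 2 - u := by (clear * - hu; linarith)
    have hu0 : 0 ≤ u := by (clear * - hpi hpi2 h1 hu; linarith)
    have hu1 : u ≤ 1.5708 := by (clear * - hz hpi hpi2 hu; linarith)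
    refine (cos_le4 hu0).trans ?_
    rcases le_total u 1 with h3 | h3
    · have h4 : u ^ 4 ≤ u ^ 2 := by (clear * - h3 hu0; nlinarith [mul_nonneg hu0 hu0, mul_nonneg hu0 (by linarith : 0 ≤ 1 - u)])
      (clear * - hpi hpi2 hu h3 h4; nlinarith [sq_nonneg (u - 0.2378)])
    · have h4 : u ^ 2 ≤ 1.5708 ^ 2 := by (clear * - h3 hu1; gcongr)
      (clear * - hpi hpi2 hu h3 h4; nlinarith [sq_nonneg (u - 1), mul_nonneg (sq_nonneg u) (by linarith : 0 ≤ 1.5708 ^ 2 - u ^ 2)])

end Pool.Agent.M18.Helper89.FA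
end

/- Helper81.FA.SincLe6 -/
section
/-!
Sixth order upper bound of `sinc` on `[-π, π]`, from the Euler product.
-/

set_option autoImplicit false

open Set Real Filter Topology

namespace Pool.Agent.M18.Helper89.FA

lemma S6.bernoulli'_five' : bernoulli' 5 = 0 :=
  bernoulli'_eq_zero_of_odd (by decide) (by norm_num)

lemma S6.bernoulli'_six' : bernoulli' 6 = 1 / 42 := by
  have h2 : Nat.choose 6 2 = 15 := by decide
  have h3 : Nat.choose 6 3 = 20 := by decide
  have h4 : Nat.choose 6 4 = 15 := by decide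
  have h5 : Nat.choose 6 5 = 6 := by decide
  rw [bernoulli'_def]
  norm_num [Finset.sum_range_succ, Finset.sum_range_zero, h2, h3, h4, h5, S6.bernoulli'_five']

lemma S6.hasSum_zeta_six : HasSum (fun n : ℕ => (1 : ℝ) / (n : ℝ) ^ 6) (π ^ 6 / 945) := by
  convert! hasSum_zeta_nat three_ne_zero using 1
  simp only [Nat.reduceAdd, Nat.reduceMul, Nat.reduceSub]
  rw [bernoulli_eq_bernoulli'_of_ne_one, S6.bernoulli'_six']
  · simp [Nat.factorial]; ring
  · decide

lemma S6.shift_hasSum {k : ℕ} (hk : k ≠ 0) {s : ℝ}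
    (h : HasSum (fun n : ℕ => (1 : ℝ) / (n : ℝ) ^ k) s) :
    HasSum (fun n : ℕ => (1 : ℝ) / ((n : ℝ) + 1) ^ k) s := by
  have h1 := (hasSum_nat_add_iff' 1).mpr h
  simp only [Finset.range_one, Finset.sum_singleton, Nat.cast_zero, Nat.cast_add, Nat.cast_one] at h1
  rw [zero_pow hk, div_zero, sub_zero] at h1
  exact h1

lemma S6.one_sub_le_exp {u : ℝ} (h0 : 0 ≤ u) (h1 : u ≤ 1) :
    1 - u ≤ exp (-(u + u ^ 2 / 2 + u ^ 3 / 3)) := by
  rcases h1.eq_or_lt with rfl | h1
  · rw [sub_self]; exact (exp_pos _).le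
  have hs := hasSum_pow_div_log_of_abs_lt_one (x := u) (by rwa [abs_of_nonneg h0])
  have h2 : ∑ i ∈ Finset.range 3, u ^ (i + 1) / ((i : ℝ) + 1) ≤ -log (1 - u) :=
    sum_le_hasSum _ (fun i _ => by positivity) hs
  have h3 : u + u ^ 2 / 2 + u ^ 3 / 3 ≤ -log (1 - u) := by
    refine le_trans (le_of_eq ?_) h2
    simp only [Finset.sum_range_succ, Finset.sum_range_zero]
    norm_num
  rw [← exp_log (show (0 : ℝ) < 1 - u by linarith), exp_le_exp]
  linarith

/-- F2a. -/
theorem sinc_le6 {y : ℝ} (hy : |y| ≤ π) :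
    sinc y ≤ exp (-(y ^ 2 / 6 + y ^ 4 / 180 + y ^ 6 / 2835)) := by
  rcases eq_or_ne y 0 with rfl | hy0
  · simp
  obtain ⟨x, rfl⟩ : ∃ x, y = π * x := ⟨y / π, by field_simp⟩
  have hpi := pi_pos
  have hx0 : x ≠ 0 := fun h => hy0 (by rw [h, mul_zero])
  have hx1 : |x| ≤ 1 := by
    rw [abs_mul, abs_of_pos hpi] at hy
    nlinarith
  have hx2 : x ^ 2 ≤ 1 := by
    rw [← sq_abs]; nlinarith [abs_nonneg x]
  rw [sinc_of_ne_zero hy0]
  have hprod := tendsto_euler_sin_prod x
  have hprod' : Tendsto (fun n : ℕ => ∏ j ∈ Finset.range n, ((1 : ℝ) - x ^ 2 / ((j : ℝ) + 1) ^ 2))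
      atTop (𝓝 (sin (π * x) / (π * x))) := by
    refine (hprod.div_const (π * x)).congr fun n => ?_
    rw [mul_comm (π * x), mul_div_assoc, div_self hy0, mul_one]
  have h2 := ((S6.shift_hasSum two_ne_zero hasSum_zeta_two).mul_left (x ^ 2)).add
    (((S6.shift_hasSum four_ne_zero hasSum_zeta_four).mul_left (x ^ 4 / 2)).add
      ((S6.shift_hasSum (by norm_num) S6.hasSum_zeta_six).mul_left (x ^ 6 / 3)))
  have h3 := h2.tendsto_sum_nat
  have h4 : Tendsto (fun n : ℕ => exp (-∑ i ∈ Finset.range n,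
      (x ^ 2 * (1 / ((i : ℝ) + 1) ^ 2) + (x ^ 4 / 2 * (1 / ((i : ℝ) + 1) ^ 4) +
        x ^ 6 / 3 * (1 / ((i : ℝ) + 1) ^ 6))))) atTop
      (𝓝 (exp (-(x ^ 2 * (π ^ 2 / 6) + (x ^ 4 / 2 * (π ^ 4 / 90) + x ^ 6 / 3 * (π ^ 6 / 945)))))) :=
    (continuous_exp.tendsto _).comp h3.neg
  have h5 := le_of_tendsto_of_tendsto' hprod' h4 fun n => by
    rw [← Finset.sum_neg_distrib, exp_sum]
    refine Finset.prod_le_prod (fun j _ => ?_) fun j _ => ?_
    · have : x ^ 2 / ((j : ℝ) + 1) ^ 2 ≤ 1 := by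
        rw [div_le_one (by positivity)]
        nlinarith [Nat.cast_nonneg (α := ℝ) j]
      linarith
    · have hu : x ^ 2 / ((j : ℝ) + 1) ^ 2 ≤ 1 := by
        rw [div_le_one (by positivity)]
        nlinarith [Nat.cast_nonneg (α := ℝ) j]
      refine (S6.one_sub_le_exp (by positivity) hu).trans (le_of_eq ?_)
      congr 2
      field_simp
      ring
  refine h5.trans (le_of_eq ?_)
  congr 2
  ring

end Pool.Agent.M18.Helper89.FA
end

/- Helper85.FA.Node -/
section
/-!
F3n: the one-variable inequalities at the two nodes.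
-/

set_option autoImplicit false

open Real
open Pool.Agent.M18.Helper88.Slab

namespace Pool.Agent.M18.Helper89.FA

/-- Reduction of the two-variable expression to a polynomial in one variable. -/
theorem node_aux {w w1 w2 Q A B c T : ℝ} (h1 : w1 ≤ w) (h2 : w ≤ w2) (hw1 : 0 < w1)
    (hQ0 : 0 ≤ Q) (hA0 : 0 ≤ A)
    (hA : A ≤ exp (-(w2 / 6))) (hB : exp (-(3 / 2 * w1)) / 3 ≤ B)
    (hc0 : 0 ≤ c) (hc : c * w2 ≤ 9 / 35)
    (hP : T ≤ A * (1 - (0.006 * Q) + (0.006 * Q) ^ 2 / 2 - (0.006 * Q) ^ 3 / 6) -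
      B * (1 - (9 / 20 * Q + c * Q ^ 2) + (9 / 20 * Q + c * Q ^ 2) ^ 2 / 2 -
        (9 / 20 * Q + c * Q ^ 2) ^ 3 / 6 + (9 / 20 * Q + c * Q ^ 2) ^ 4 / 24)) :
    T ≤ exp (-(w / 6 + 0.006 * Q)) -
      exp (-(3 / 2 * w + 9 / 20 * Q + 9 / 35 * (Q ^ 2 / w))) / 3 := by
  have hw : 0 < w := lt_of_lt_of_le hw1 h1
  have hB0 : 0 ≤ B := le_trans (by positivity) hB
  -- first term
  have e1 : A * (1 - (0.006 * Q) + (0.006 * Q) ^ 2 / 2 - (0.006 * Q) ^ 3 / 6) ≤
      exp (-(w / 6 + 0.006 * Q)) := by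
    have hz : (0 : ℝ) ≤ 0.006 * Q := by (clear * - hQ0; positivity)
    have h3 := exp_neg_ge3 (0.006 * Q) hz
    have h4 : A * (1 - (0.006 * Q) + (0.006 * Q) ^ 2 / 2 - (0.006 * Q) ^ 3 / 6) ≤
        A * exp (-(0.006 * Q)) := mul_le_mul_of_nonneg_left h3 hA0
    have h5 : A * exp (-(0.006 * Q)) ≤ exp (-(w2 / 6)) * exp (-(0.006 * Q)) :=
      mul_le_mul_of_nonneg_right hA (exp_pos _).le
    have h6 : exp (-(w2 / 6)) * exp (-(0.006 * Q)) ≤ exp (-(w / 6 + 0.006 * Q)) := by
      rw [← exp_add]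
      apply exp_le_exp.mpr
      (clear * - h2; linarith)
    (clear * - h4 h5 h6; linarith)
  -- second term
  have e2 : exp (-(3 / 2 * w + 9 / 20 * Q + 9 / 35 * (Q ^ 2 / w))) / 3 ≤
      B * (1 - (9 / 20 * Q + c * Q ^ 2) + (9 / 20 * Q + c * Q ^ 2) ^ 2 / 2 -
        (9 / 20 * Q + c * Q ^ 2) ^ 3 / 6 + (9 / 20 * Q + c * Q ^ 2) ^ 4 / 24) := by
    have hz : (0 : ℝ) ≤ 9 / 20 * Q + c * Q ^ 2 := by (clear * - hQ0 hc0; positivity)
    have h3 := exp_neg_le (9 / 20 * Q + c * Q ^ 2) hz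
    have h4 : B * exp (-(9 / 20 * Q + c * Q ^ 2)) ≤
        B * (1 - (9 / 20 * Q + c * Q ^ 2) + (9 / 20 * Q + c * Q ^ 2) ^ 2 / 2 -
        (9 / 20 * Q + c * Q ^ 2) ^ 3 / 6 + (9 / 20 * Q + c * Q ^ 2) ^ 4 / 24) :=
      mul_le_mul_of_nonneg_left h3 hB0
    have h5 : exp (-(3 / 2 * w1)) / 3 * exp (-(9 / 20 * Q + c * Q ^ 2)) ≤
        B * exp (-(9 / 20 * Q + c * Q ^ 2)) :=
      mul_le_mul_of_nonneg_right hB (exp_pos _).le
    have hcw : c * Q ^ 2 ≤ 9 / 35 * (Q ^ 2 / w) := by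
      have hcw2 : c * w ≤ 9 / 35 := le_trans (mul_le_mul_of_nonneg_left h2 hc0) hc
      have : c * Q ^ 2 = (c * w) * (Q ^ 2 / w) := by
        (clear * - hw; field_simp)
      rw [this]
      exact mul_le_mul_of_nonneg_right hcw2 (by (clear * - hw; positivity))
    have h6 : exp (-(3 / 2 * w + 9 / 20 * Q + 9 / 35 * (Q ^ 2 / w))) / 3 ≤
        exp (-(3 / 2 * w1)) / 3 * exp (-(9 / 20 * Q + c * Q ^ 2)) := by
      have h7 : exp (-(3 / 2 * w + 9 / 20 * Q + 9 / 35 * (Q ^ 2 / w))) ≤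
          exp (-(3 / 2 * w1)) * exp (-(9 / 20 * Q + c * Q ^ 2)) := by
        rw [← exp_add]
        apply exp_le_exp.mpr
        (clear * - h1 hcw; linarith)
      (clear * - h7; linarith)
    (clear * - h4 h5 h6; linarith)
  (clear * - hP e1 e2; linarith)

/-- F3n. The one-variable inequality, first node. -/
theorem node_one {w Q : ℝ} (hw1 : 2.4048 ≤ w) (hw2 : w ≤ 2.405) (hQ0 : 0 ≤ Q) (hQ1 : Q ≤ 1.57) :
    0.6598 ≤ exp (-(w / 6 + 0.006 * Q)) -
      exp (-(3 / 2 * w + 9 / 20 * Q + 9 / 35 * (Q ^ 2 / w))) / 3 := by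
  have hA : (0.669761 : ℝ) ≤ exp (-(2.405 / 6)) := by
    have := exp_neg_ge7 (2.405 / 6) (by norm_num)
    refine le_trans ?_ this
    norm_num
  have hB : exp (-(3 / 2 * (2.4048 : ℝ))) / 3 ≤ 0.009043 := by
    have h1 := exp_neg_one_lt_d9
    have h2 := exp_neg_le 0.2024 (by norm_num)
    have h3 : exp (-(3 / 2 * (2.4048 : ℝ))) = exp (-1) ^ 3 * exp (-0.2024) ^ 3 := by
      rw [← exp_nat_mul, ← exp_nat_mul, ← exp_add]
      congr 1
      norm_num
    have h4 : exp (-1) ^ 3 ≤ 0.3678794412 ^ 3 := pow_le_pow_left₀ (exp_pos _).le h1.le 3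
    have h5 : exp (-0.2024) ^ 3 ≤ (1 - 0.2024 + 0.2024^2/2 - 0.2024^3/6 + 0.2024^4/24) ^ 3 :=
      pow_le_pow_left₀ (exp_pos _).le h2 3
    have h6 : exp (-1) ^ 3 * exp (-0.2024) ^ 3 ≤
        0.3678794412 ^ 3 * (1 - 0.2024 + 0.2024^2/2 - 0.2024^3/6 + 0.2024^4/24) ^ 3 :=
      mul_le_mul h4 h5 (by positivity) (by (clear * -; positivity))
    rw [h3]
    have h7 : (0.3678794412 : ℝ) ^ 3 * (1 - 0.2024 + 0.2024^2/2 - 0.2024^3/6 + 0.2024^4/24) ^ 3 / 3 ≤
      0.009043 := by norm_num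
    (clear * - h6; linarith)
  refine node_aux (w1 := 2.4048) (w2 := 2.405) (A := 0.669761) (B := 0.009043) (c := 0.1069)
    hw1 hw2 (by norm_num) hQ0 (by norm_num) hA hB (by norm_num) (by norm_num) ?_
  have hR : 0 ≤ 1.57 - Q := by (clear * - hQ1; linarith)
  have key : 0.669761 * (1 - (0.006 * Q) + (0.006 * Q) ^ 2 / 2 - (0.006 * Q) ^ 3 / 6) -
      0.009043 * (1 - (9 / 20 * Q + 0.1069 * Q ^ 2) + (9 / 20 * Q + 0.1069 * Q ^ 2) ^ 2 / 2 -
        (9 / 20 * Q + 0.1069 * Q ^ 2) ^ 3 / 6 + (9 / 20 * Q + 0.1069 * Q ^ 2) ^ 4 / 24) - 0.6598 =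
      (9180000000000/369145194573386401) * Q^0 * (1.57-Q)^8 + (74237308800000/369145194573386401) * Q^1 * (1.57-Q)^7 + (264177712624552/369145194573386401) * Q^2 * (1.57-Q)^6 + (6608027913879939609/4614314932167330012500) * Q^3 * (1.57-Q)^5 + (5104960117084687675583/2953161556587091208000000) * Q^4 * (1.57-Q)^4 + (932407266596078759852487/738290389146772802000000000) * Q^5 * (1.57-Q)^3 + (234099826209923076470326031501/442974233488063681200000000000000) * Q^6 * (1.57-Q)^2 + (47369612756044893352946139820381/442974233488063681200000000000000000) * Q^7 * (1.57-Q)^1 + (158301826179062451956247947309079199/29531615565870912080000000000000000000000) * Q^8 * (1.57-Q)^0 := by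
    ring
  have hpos : 0 ≤ (9180000000000/369145194573386401) * Q^0 * (1.57-Q)^8 + (74237308800000/369145194573386401) * Q^1 * (1.57-Q)^7 + (264177712624552/369145194573386401) * Q^2 * (1.57-Q)^6 + (6608027913879939609/4614314932167330012500) * Q^3 * (1.57-Q)^5 + (5104960117084687675583/2953161556587091208000000) * Q^4 * (1.57-Q)^4 + (932407266596078759852487/738290389146772802000000000) * Q^5 * (1.57-Q)^3 + (234099826209923076470326031501/442974233488063681200000000000000) * Q^6 * (1.57-Q)^2 + (47369612756044893352946139820381/442974233488063681200000000000000000) * Q^7 * (1.57-Q)^1 + (158301826179062451956247947309079199/29531615565870912080000000000000000000000) * Q^8 * (1.57-Q)^0 := by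
    (clear * - hQ0 hQ1; positivity)
  linarith

/-- F3n. The one-variable inequality, second node. -/
theorem node_two {w Q : ℝ} (hw1 : 2.3715 ≤ w) (hw2 : w ≤ 2.3716) (hQ0 : 0 ≤ Q) (hQ1 : Q ≤ 1.57) :
    0.6635 ≤ exp (-(w / 6 + 0.006 * Q)) -
      exp (-(3 / 2 * w + 9 / 20 * Q + 9 / 35 * (Q ^ 2 / w))) / 3 := by
  have hA : (0.6735 : ℝ) ≤ exp (-(2.3716 / 6)) := by
    have := exp_neg_ge7 (2.3716 / 6) (by norm_num)
    refine le_trans ?_ this
    norm_num
  have hB : exp (-(3 / 2 * (2.3715 : ℝ))) / 3 ≤ 0.009506 := by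
    have h1 := exp_neg_one_lt_d9
    have h2 := exp_neg_le 0.18575 (by norm_num)
    have h3 : exp (-(3 / 2 * (2.3715 : ℝ))) = exp (-1) ^ 3 * exp (-0.18575) ^ 3 := by
      rw [← exp_nat_mul, ← exp_nat_mul, ← exp_add]
      congr 1
      norm_num
    have h4 : exp (-1) ^ 3 ≤ 0.3678794412 ^ 3 := pow_le_pow_left₀ (exp_pos _).le h1.le 3
    have h5 : exp (-0.18575) ^ 3 ≤ (1 - 0.18575 + 0.18575^2/2 - 0.18575^3/6 + 0.18575^4/24) ^ 3 :=
      pow_le_pow_left₀ (exp_pos _).le h2 3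
    have h6 : exp (-1) ^ 3 * exp (-0.18575) ^ 3 ≤
        0.3678794412 ^ 3 * (1 - 0.18575 + 0.18575^2/2 - 0.18575^3/6 + 0.18575^4/24) ^ 3 :=
      mul_le_mul h4 h5 (by positivity) (by positivity)
    rw [h3]
    have h7 : (0.3678794412 : ℝ) ^ 3 *
      (1 - 0.18575 + 0.18575^2/2 - 0.18575^3/6 + 0.18575^4/24) ^ 3 / 3 ≤ 0.009506 := by norm_num
    (clear * - h6; linarith)
  refine node_aux (w1 := 2.3715) (w2 := 2.3716) (A := 0.6735) (B := 0.009506) (c := 0.1084)
    hw1 hw2 (by norm_num) hQ0 (by norm_num) hA hB (by norm_num) (by norm_num) ?_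
  have hR : 0 ≤ 1.57 - Q := by (clear * - hQ1; linarith)
  have key : 0.6735 * (1 - (0.006 * Q) + (0.006 * Q) ^ 2 / 2 - (0.006 * Q) ^ 3 / 6) -
      0.009506 * (1 - (9 / 20 * Q + 0.1084 * Q ^ 2) + (9 / 20 * Q + 0.1084 * Q ^ 2) ^ 2 / 2 -
        (9 / 20 * Q + 0.1084 * Q ^ 2) ^ 3 / 6 + (9 / 20 * Q + 0.1084 * Q ^ 2) ^ 4 / 24) - 0.6635 =
      (4940000000000/369145194573386401) * Q^0 * (1.57-Q)^8 + (43236190000000/369145194573386401) * Q^1 * (1.57-Q)^7 + (166307490594100/369145194573386401) * Q^2 * (1.57-Q)^6 + (35416627415026957/36914519457338640100) * Q^3 * (1.57-Q)^5 + (1782578105572083819253/1476580778293545604000000) * Q^4 * (1.57-Q)^4 + (165671536520191384868471/184572597286693200500000000) * Q^5 * (1.57-Q)^3 + (5111541925350253669867529261/13842944796501990037500000000000) * Q^6 * (1.57-Q)^2 + (232792272212385364632952109329/3460736199125497509375000000000000) * Q^7 * (1.57-Q)^1 + (55737949367327464774391701982869/57678936652091625156250000000000000000)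 * Q^8 * (1.57-Q)^0 := by
    ring
  have hpos : 0 ≤ (4940000000000/369145194573386401) * Q^0 * (1.57-Q)^8 + (43236190000000/369145194573386401) * Q^1 * (1.57-Q)^7 + (166307490594100/369145194573386401) * Q^2 * (1.57-Q)^6 + (35416627415026957/36914519457338640100) * Q^3 * (1.57-Q)^5 + (1782578105572083819253/1476580778293545604000000) * Q^4 * (1.57-Q)^4 + (165671536520191384868471/184572597286693200500000000) * Q^5 * (1.57-Q)^3 + (5111541925350253669867529261/13842944796501990037500000000000) * Q^6 * (1.57-Q)^2 + (232792272212385364632952109329/3460736199125497509375000000000000) * Q^7 * (1.57-Q)^1 + (55737949367327464774391701982869/57678936652091625156250000000000000000) * Q^8 * (1.57-Q)^0 := by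
    (clear * - hQ0 hQ1; positivity)
  linarith

end Pool.Agent.M18.Helper89.FA
end

/- Helper23.X2.SincGe8 -/
section
/-!
Eighth order lower bound of `sinc` on `[-1.75, 1.75]`, from the Euler product.
-/

set_option autoImplicit false

open Set Real Filter Topology

namespace Pool.Agent.M18.Helper23.X2

open Pool.Agent.M18.Helper89.FA

lemma bernoulli'_seven' : bernoulli' 7 = 0 :=
  bernoulli'_eq_zero_of_odd (by decide) (by norm_num)

lemma bernoulli'_eight' : bernoulli' 8 = -1 / 30 := by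
  have h2 : Nat.choose 8 2 = 28 := by decide
  have h3 : Nat.choose 8 3 = 56 := by decide
  have h4 : Nat.choose 8 4 = 70 := by decide
  have h5 : Nat.choose 8 5 = 56 := by decide
  have h6 : Nat.choose 8 6 = 28 := by decide
  have h7 : Nat.choose 8 7 = 8 := by decide
  rw [bernoulli'_def]
  norm_num [Finset.sum_range_succ, Finset.sum_range_zero, h2, h3, h4, h5, h6, h7,
    S6.bernoulli'_five', S6.bernoulli'_six', bernoulli'_seven']

lemma hasSum_zeta_eight : HasSum (fun n : ℕ => (1 : ℝ) / (n : ℝ) ^ 8) (π ^ 8 / 9450) := by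
  convert! hasSum_zeta_nat four_ne_zero using 1
  simp only [Nat.reduceAdd, Nat.reduceMul, Nat.reduceSub]
  rw [bernoulli_eq_bernoulli'_of_ne_one, bernoulli'_eight']
  · simp [Nat.factorial]; ring
  · decide

lemma exp_le_one_sub {u q : ℝ} (h0 : 0 ≤ u) (hu : u ≤ q) (h1 : q < 1) :
    exp (-(u + u ^ 2 / 2 + u ^ 3 / 3 + u ^ 4 / (4 * (1 - q)))) ≤ 1 - u := by
  have hu1 : u < 1 := by linarith
  have hs := hasSum_pow_div_log_of_abs_lt_one (x := u) (by rwa [abs_of_nonneg h0])
  have h2 := (hasSum_nat_add_iff' 3).mpr hs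
  have h3 : HasSum (fun k : ℕ => u ^ 4 / 4 * u ^ k) (u ^ 4 / 4 * (1 - u)⁻¹) :=
    (hasSum_geometric_of_lt_one h0 hu1).mul_left _
  have h4 := hasSum_le (fun k => ?_) h2 h3
  · have h5 : ∑ i ∈ Finset.range 3, u ^ (i + 1) / ((i : ℝ) + 1) = u + u ^ 2 / 2 + u ^ 3 / 3 := by
      simp only [Finset.sum_range_succ, Finset.sum_range_zero]
      norm_num
    rw [h5] at h4
    have h6 : u ^ 4 / 4 * (1 - u)⁻¹ ≤ u ^ 4 / (4 * (1 - q)) := by
      rw [← div_eq_mul_inv, div_div]
      apply div_le_div_of_nonneg_left (by positivity) (by linarith) (by linarith)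
    rw [← exp_log (show (0 : ℝ) < 1 - u by linarith), exp_le_exp]
    linarith
  · have e : u ^ (k + 3 + 1) = u ^ 4 * u ^ k := by ring
    rw [e]
    have hk : (0 : ℝ) ≤ u ^ 4 * u ^ k := by positivity
    have hk2 : (4 : ℝ) ≤ ((k + 3 : ℕ) : ℝ) + 1 := by
      push_cast
      have := Nat.cast_nonneg (α := ℝ) k
      linarith
    calc u ^ 4 * u ^ k / (((k + 3 : ℕ) : ℝ) + 1) ≤ u ^ 4 * u ^ k / 4 :=
          div_le_div_of_nonneg_left hk (by norm_num) hk2
      _ = u ^ 4 / 4 * u ^ k := by ring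

/-- Eighth order lower bound. -/
theorem sinc_ge8 {y : ℝ} (hy : |y| ≤ 1.75) :
    exp (-(y ^ 2 / 6 + y ^ 4 / 180 + y ^ 6 / 2835 + y ^ 8 / 26000)) ≤ sinc y := by
  rcases eq_or_ne y 0 with rfl | hy0
  · simp
  have hpi := pi_pos
  have hpi3 := Real.pi_gt_d6
  obtain ⟨x, hxy⟩ : ∃ x, y = π * x := ⟨y / π, by field_simp⟩
  have hx0 : x ≠ 0 := fun h => hy0 (by rw [hxy, h, mul_zero])
  have hq : x ^ 2 ≤ 0.3104 := by
    have h1 : y ^ 2 ≤ 1.75 ^ 2 := by
      rw [← sq_abs]
      exact pow_le_pow_left₀ (abs_nonneg _) hy 2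
    rw [hxy, mul_pow] at h1
    have h2 : (3.141592 : ℝ) ^ 2 ≤ π ^ 2 := pow_le_pow_left₀ (by norm_num) hpi3.le 2
    have h3 : (0 : ℝ) ≤ x ^ 2 := sq_nonneg x
    nlinarith
  have hy1 : π * x ≠ 0 := by rw [← hxy]; exact hy0
  rw [sinc_of_ne_zero hy0, hxy]
  have hprod := tendsto_euler_sin_prod x
  have hprod' : Tendsto (fun n : ℕ => ∏ j ∈ Finset.range n, ((1 : ℝ) - x ^ 2 / ((j : ℝ) + 1) ^ 2))
      atTop (𝓝 (sin (π * x) / (π * x))) := by
    refine (hprod.div_const (π * x)).congr fun n => ?_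
    rw [mul_comm (π * x), mul_div_assoc, div_self hy1, mul_one]
  have h2 := ((S6.shift_hasSum two_ne_zero hasSum_zeta_two).mul_left (x ^ 2)).add
    (((S6.shift_hasSum four_ne_zero hasSum_zeta_four).mul_left (x ^ 4 / 2)).add
      (((S6.shift_hasSum (by norm_num) S6.hasSum_zeta_six).mul_left (x ^ 6 / 3)).add
        ((S6.shift_hasSum (by norm_num) hasSum_zeta_eight).mul_left (x ^ 8 / (4 * (1 - 0.3104))))))
  have h3 := h2.tendsto_sum_nat
  have h4 : Tendsto (fun n : ℕ => exp (-∑ i ∈ Finset.range n,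
      (x ^ 2 * (1 / ((i : ℝ) + 1) ^ 2) + (x ^ 4 / 2 * (1 / ((i : ℝ) + 1) ^ 4) +
        (x ^ 6 / 3 * (1 / ((i : ℝ) + 1) ^ 6) +
          x ^ 8 / (4 * (1 - 0.3104)) * (1 / ((i : ℝ) + 1) ^ 8)))))) atTop
      (𝓝 (exp (-(x ^ 2 * (π ^ 2 / 6) + (x ^ 4 / 2 * (π ^ 4 / 90) + (x ^ 6 / 3 * (π ^ 6 / 945) +
        x ^ 8 / (4 * (1 - 0.3104)) * (π ^ 8 / 9450))))))) :=
    (continuous_exp.tendsto _).comp h3.neg
  have h5 := le_of_tendsto_of_tendsto' h4 hprod' fun n => by
    rw [← Finset.sum_neg_distrib, exp_sum]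
    refine Finset.prod_le_prod (fun j _ => (exp_pos _).le) fun j _ => ?_
    have hu : x ^ 2 / ((j : ℝ) + 1) ^ 2 ≤ 0.3104 := by
      refine (div_le_self (by positivity) ?_).trans hq
      nlinarith [Nat.cast_nonneg (α := ℝ) j]
    refine (le_of_eq ?_).trans (exp_le_one_sub (by positivity) hu (by norm_num))
    congr 2
    field_simp
    ring
  refine le_trans (exp_le_exp.mpr ?_) h5
  have e : π ^ 8 * x ^ 8 = (π * x) ^ 8 := by ring
  have h6 : 0 ≤ (π * x) ^ 8 := by positivity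
  rw [← hxy] at h6 e ⊢
  have e1 : y ^ 2 = π ^ 2 * x ^ 2 := by rw [hxy]; ring
  have e2 : y ^ 4 = π ^ 4 * x ^ 4 := by rw [hxy]; ring
  have e3 : y ^ 6 = π ^ 6 * x ^ 6 := by rw [hxy]; ring
  have e4 : x ^ 8 / (4 * (1 - 0.3104)) * (π ^ 8 / 9450) = y ^ 8 / (4 * (1 - 0.3104) * 9450) := by
    rw [← e]
    ring
  have e5 : y ^ 8 / (4 * (1 - 0.3104) * 9450) ≤ y ^ 8 / 26000 :=
    div_le_div_of_nonneg_left h6 (by norm_num) (by norm_num)
  rw [e1, e2, e3, e4]
  linarith

end Pool.Agent.M18.Helper23.X2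
end
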