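import Mathlib

/- Helper95.SP.Prod -/
section
/-!
Product formulas for `sinc x = sin x / x` and `shc x = sinh x / x` and the brackets
`shc c ^ 2 - shc p * shc q`, `2 c ^ 2 = p ^ 2 + q ^ 2`.
-/

set_option autoImplicit false

namespace Pool.Agent.M18.Helper95.SP

open Filter Topology Real

/-- `sinh x / x` -/
noncomputable def shc (x : ℝ) : ℝ := if x = 0 then 1 else sinh x / x

/-- the partial products of the common product formula -/
noncomputable def pr (v : ℝ) (n : ℕ) : ℝ := ∏ j ∈ Finset.range n, (1 + v / (π ^ 2 * ((j : ℝ) + 1) ^ 2))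

theorem tendsto_shc (x : ℝ) : Tendsto (pr (x ^ 2)) atTop (𝓝 (shc x)) := by
  by_cases hx : x = 0
  · subst hx
    have : pr ((0:ℝ) ^ 2) = fun _ => 1 := by
      ext n; unfold pr; simp
    rw [this]; unfold shc; simp
  · have h := Complex.tendsto_euler_sin_prod (Complex.I * (x / π : ℝ))
    have hπ : (π : ℂ) ≠ 0 := by exact_mod_cast pi_ne_zero
    have e1 : (π : ℂ) * (Complex.I * (x / π : ℝ)) = x * Complex.I := by
      push_cast; (clear * - hπ; field_simp)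
    rw [e1, Complex.sin_mul_I] at h
    have hxI : (x : ℂ) * Complex.I ≠ 0 := mul_ne_zero (by exact_mod_cast hx) Complex.I_ne_zero
    have h2 := h.const_mul ((x : ℂ) * Complex.I)⁻¹
    have e2 : ((x : ℂ) * Complex.I)⁻¹ * (Complex.sinh x * Complex.I) = ((shc x : ℝ) : ℂ) := by
      unfold shc
      rw [if_neg hx]
      push_cast
      field_simp
    rw [e2] at h2
    have h3 := (Complex.continuous_re.tendsto _).comp h2
    rw [Complex.ofReal_re] at h3
    refine h3.congr fun n => ?_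
    rw [Function.comp_apply, ← mul_assoc, inv_mul_cancel₀ hxI, one_mul]
    have e3 : (∏ j ∈ Finset.range n, ((1 : ℂ) - (Complex.I * (x / π : ℝ)) ^ 2 / ((j : ℂ) + 1) ^ 2)) =
        ((pr (x ^ 2) n : ℝ) : ℂ) := by
      unfold pr
      push_cast
      refine Finset.prod_congr rfl fun j _ => ?_
      rw [mul_pow, Complex.I_sq]
      have : ((j : ℂ) + 1) ≠ 0 := by exact_mod_cast (Nat.succ_ne_zero j)
      field_simp
      ring
    rw [e3, Complex.ofReal_re]

theorem tendsto_sinc (x : ℝ) : Tendsto (pr (-x ^ 2)) atTop (𝓝 (sinc x)) := by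
  by_cases hx : x = 0
  · subst hx
    have : pr (-(0:ℝ) ^ 2) = fun _ => 1 := by
      ext n; unfold pr; simp
    rw [this]; simp
  · have h := Real.tendsto_euler_sin_prod (x / π)
    have e1 : π * (x / π) = x := by field_simp
    rw [e1] at h
    have h2 := h.const_mul x⁻¹
    rw [sinc_of_ne_zero hx]
    have e2 : x⁻¹ * sin x = sin x / x := by (clear * - hx; field_simp)
    rw [e2] at h2
    refine h2.congr fun n => ?_
    rw [← mul_assoc, inv_mul_cancel₀ hx, one_mul]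
    unfold pr
    refine Finset.prod_congr rfl fun j _ => ?_
    have : ((j : ℝ) + 1) ≠ 0 := by positivity
    field_simp
    ring

theorem sum_sq_le (n : ℕ) : ∑ j ∈ Finset.range n, 1 / (π ^ 2 * ((j : ℝ) + 1) ^ 2) ≤ 1 / 6 := by
  have h := hasSum_zeta_two
  have h1 : HasSum (fun n : ℕ => (1 : ℝ) / ((n : ℝ) + 1) ^ 2) (π ^ 2 / 6) := by
    have := (hasSum_nat_add_iff' (f := fun n : ℕ => (1 : ℝ) / (n : ℝ) ^ 2) 1).mpr h
    simpa using this
  have h2 := h1.mul_left (1 / π ^ 2)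
  have e : 1 / π ^ 2 * (π ^ 2 / 6) = 1 / 6 := by (clear * -; field_simp)
  rw [e] at h2
  have h3 := sum_le_hasSum (Finset.range n) (fun j _ => by (clear * -; positivity)) h2
  refine le_trans (le_of_eq ?_) h3
  refine Finset.sum_congr rfl fun j _ => ?_
  (clear * -; field_simp)

theorem sum_four_le (n : ℕ) :
    ∑ j ∈ Finset.range n, 1 / (π ^ 2 * ((j : ℝ) + 1) ^ 2) ^ 2 ≤ 1 / 90 := by
  have h := hasSum_zeta_four
  have h1 : HasSum (fun n : ℕ => (1 : ℝ) / ((n : ℝ) + 1) ^ 4) (π ^ 4 / 90) := by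
    have := (hasSum_nat_add_iff' (f := fun n : ℕ => (1 : ℝ) / (n : ℝ) ^ 4) 1).mpr h
    simpa using this
  have h2 := h1.mul_left (1 / π ^ 4)
  have e : 1 / π ^ 4 * (π ^ 4 / 90) = 1 / 90 := by field_simp
  rw [e] at h2
  have h3 := sum_le_hasSum (Finset.range n) (fun j _ => by (clear * -; positivity)) h2
  refine le_trans (le_of_eq ?_) h3
  refine Finset.sum_congr rfl fun j _ => ?_
  field_simp

theorem pr_le_exp {v : ℝ} (hv : 0 ≤ v) (n : ℕ) : pr v n ≤ exp (v / 6) := by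
  have h1 : pr v n ≤ ∏ j ∈ Finset.range n, exp (v * (1 / (π ^ 2 * ((j : ℝ) + 1) ^ 2))) := by
    unfold pr
    refine Finset.prod_le_prod (fun j _ => by (clear * - hv; positivity)) fun j _ => ?_
    have := add_one_le_exp (v * (1 / (π ^ 2 * ((j : ℝ) + 1) ^ 2)))
    rw [mul_one_div] at this ⊢
    linarith
  rw [← Real.exp_sum, ← Finset.mul_sum] at h1
  refine h1.trans (exp_le_exp.mpr ?_)
  have := mul_le_mul_of_nonneg_left (sum_sq_le n) hv
  linarith

theorem shc_le_exp (x : ℝ) : shc x ≤ exp (x ^ 2 / 6) :=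
  le_of_tendsto' (tendsto_shc x) fun n => pr_le_exp (sq_nonneg x) n

theorem one_le_shc (x : ℝ) : 1 ≤ shc x := by
  refine ge_of_tendsto' (tendsto_shc x) fun n => ?_
  unfold pr
  refine Finset.prod_induction _ (fun y => 1 ≤ y) (fun a b ha hb => by nlinarith) le_rfl ?_
  intro j _
  have : 0 ≤ x ^ 2 / (π ^ 2 * ((j : ℝ) + 1) ^ 2) := by (clear * -; positivity)
  (clear * - this; linarith)

/-- Weierstrass' inequality -/
theorem one_sub_sum_le {ι : Type*} (s : Finset ι) (e : ι → ℝ) (h0 : ∀ i ∈ s, 0 ≤ e i)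
    (h1 : ∀ i ∈ s, e i ≤ 1) : 1 - ∑ i ∈ s, e i ≤ ∏ i ∈ s, (1 - e i) := by
  classical
  induction s using Finset.induction_on with
  | empty => simp
  | insert a s ha ih =>
    rw [Finset.sum_insert ha, Finset.prod_insert ha]
    have ih' := ih (fun i hi => h0 i (Finset.mem_insert_of_mem hi))
      (fun i hi => h1 i (Finset.mem_insert_of_mem hi))
    have a0 := h0 a (Finset.mem_insert_self a s)
    have a1 := h1 a (Finset.mem_insert_self a s)
    have hp : ∏ i ∈ s, (1 - e i) ≤ 1 := Finset.prod_le_one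
      (fun i hi => by linarith [h1 i (Finset.mem_insert_of_mem hi)])
      (fun i hi => by (clear * - h0 hi; linarith [h0 i (Finset.mem_insert_of_mem hi)]))
    (clear * - ih' a0 hp; nlinarith)

theorem pr_bracket_le {u δ : ℝ} (hu : 0 ≤ u) (hδ : |δ| ≤ u) (n : ℕ) :
    pr u n ^ 2 - pr (u + δ) n * pr (u - δ) n ≤ pr u n ^ 2 * (δ ^ 2 / 90) := by
  set b : ℕ → ℝ := fun j => δ / (π ^ 2 * ((j : ℝ) + 1) ^ 2) with hb
  set a : ℕ → ℝ := fun j => u / (π ^ 2 * ((j : ℝ) + 1) ^ 2) with ha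
  have ha0 : ∀ j, 0 ≤ a j := fun j => by simp only [ha]; (clear * - hu; positivity)
  have hb1 : ∀ j, |b j| ≤ a j := by
    intro j
    simp only [ha, hb]
    rw [abs_div, abs_of_pos (by (clear * -; positivity) : 0 < π ^ 2 * ((j : ℝ) + 1) ^ 2)]
    exact div_le_div_of_nonneg_right hδ (by positivity)
  have e1 : pr (u + δ) n * pr (u - δ) n =
      pr u n ^ 2 * ∏ j ∈ Finset.range n, (1 - (b j / (1 + a j)) ^ 2) := by
    unfold pr
    rw [← Finset.prod_mul_distrib, ← Finset.prod_pow, ← Finset.prod_mul_distrib]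
    refine Finset.prod_congr rfl fun j _ => ?_
    have h1 : (1 + (u + δ) / (π ^ 2 * ((j : ℝ) + 1) ^ 2)) = 1 + a j + b j := by
      simp only [ha, hb]; ring
    have h2 : (1 + (u - δ) / (π ^ 2 * ((j : ℝ) + 1) ^ 2)) = 1 + a j - b j := by
      simp only [ha, hb]; ring
    have h3 : (1 + u / (π ^ 2 * ((j : ℝ) + 1) ^ 2)) = 1 + a j := rfl
    rw [h1, h2, h3]
    have : 1 + a j ≠ 0 := by (clear * - ha0; linarith [ha0 j])
    field_simp
    ring
  have hw := one_sub_sum_le (Finset.range n) (fun j => (b j / (1 + a j)) ^ 2)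
    (fun j _ => sq_nonneg _) (fun j _ => by
      have hpos : 0 < 1 + a j := by (clear * - ha0; linarith [ha0 j])
      rw [div_pow, div_le_one (by (clear * - hu; positivity)), ← sq_abs (b j)]
      exact pow_le_pow_left₀ (abs_nonneg _) (by (clear * - hb1; linarith [hb1 j])) 2)
  have hs : ∑ j ∈ Finset.range n, (b j / (1 + a j)) ^ 2 ≤ δ ^ 2 / 90 := by
    have h4 : ∀ j ∈ Finset.range n, (b j / (1 + a j)) ^ 2 ≤
        δ ^ 2 * (1 / (π ^ 2 * ((j : ℝ) + 1) ^ 2) ^ 2) := by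
      intro j _
      have hpos : 1 ≤ 1 + a j := by (clear * - ha0; linarith [ha0 j])
      rw [div_pow]
      have : b j ^ 2 = δ ^ 2 * (1 / (π ^ 2 * ((j : ℝ) + 1) ^ 2) ^ 2) := by
        simp only [hb]; rw [div_pow]; ring
      rw [← this]
      exact div_le_self (sq_nonneg _) (by (clear * - hpos; nlinarith))
    refine (Finset.sum_le_sum h4).trans ?_
    rw [← Finset.mul_sum]
    have := mul_le_mul_of_nonneg_left (sum_four_le n) (sq_nonneg δ)
    (clear * - this; linarith)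
  rw [e1]
  nlinarith [sq_nonneg (pr u n)]

theorem shc_bracket {p q c : ℝ} (hc : 2 * c ^ 2 = p ^ 2 + q ^ 2) :
    shc c ^ 2 - shc p * shc q ≤ shc c ^ 2 * ((p ^ 2 - q ^ 2) ^ 2 / 360) := by
  have t1 := tendsto_shc c
  have t2 := tendsto_shc p
  have t3 := tendsto_shc q
  have h1 := (t1.pow 2).sub (t2.mul t3)
  have h2 := (t1.pow 2).mul_const ((p ^ 2 - q ^ 2) ^ 2 / 360)
  refine le_of_tendsto_of_tendsto' h1 h2 fun n => ?_
  have e1 : p ^ 2 = c ^ 2 + (p ^ 2 - q ^ 2) / 2 := by (clear * - hc; linarith)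
  have e2 : q ^ 2 = c ^ 2 - (p ^ 2 - q ^ 2) / 2 := by (clear * - hc; linarith)
  have := pr_bracket_le (u := c ^ 2) (δ := (p ^ 2 - q ^ 2) / 2) (sq_nonneg c) (by
    rw [abs_le]; constructor <;> (clear * - hc; nlinarith [sq_nonneg p, sq_nonneg q])) n
  rw [← e1, ← e2] at this
  have e3 : ((p ^ 2 - q ^ 2) / 2) ^ 2 / 90 = (p ^ 2 - q ^ 2) ^ 2 / 360 := by ring
  rw [e3] at this
  exact this

end Pool.Agent.M18.Helper95.SP
end

/- Helper95.SP.Crude.SincB -/
section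
/-!
# SP-wave, module SincB: bounds for `sinc`
-/

set_option autoImplicit false

namespace Pool.Agent.M18.Helper95.SP.Crude

open Real Finset Filter Topology

/-! ### Taylor bounds -/

theorem nonneg_of_deriv_nonneg' {f f' : ℝ → ℝ} (hd : ∀ x, HasDerivAt f (f' x) x) (h0 : f 0 = 0)
    (hf : ∀ x, 0 ≤ x → 0 ≤ f' x) {x : ℝ} (hx : 0 ≤ x) : 0 ≤ f x := by
  have hmono : MonotoneOn f (Set.Ici 0) := by
    apply monotoneOn_of_deriv_nonneg (convex_Ici 0)
    · exact fun y _ => (hd y).continuousAt.continuousWithinAt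
    · exact fun y _ => (hd y).differentiableAt.differentiableWithinAt
    · intro y hy
      rw [interior_Ici] at hy
      rw [(hd y).deriv]
      exact hf y (le_of_lt hy)
  have := hmono (Set.mem_Ici.mpr le_rfl) (Set.mem_Ici.mpr hx) hx
  rw [h0] at this
  exact this

theorem sincB_cos_le_four {x : ℝ} (hx : 0 ≤ x) : cos x ≤ 1 - x ^ 2 / 2 + x ^ 4 / 24 := by
  have h := nonneg_of_deriv_nonneg' (f := fun x => 1 - x ^ 2 / 2 + x ^ 4 / 24 - cos x)
    (f' := fun x => -x + x ^ 3 / 6 + sin x) (fun y => by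
      have h1 : HasDerivAt (fun x : ℝ => 1 - x ^ 2 / 2 + x ^ 4 / 24 - cos x)
          (0 - (2 * y) / 2 + (4 * y ^ 3) / 24 - (-sin y)) y := by
        refine ((((hasDerivAt_const y (1 : ℝ)).sub ?_).add ?_).sub (hasDerivAt_cos y))
        · simpa using (hasDerivAt_pow 2 y).div_const 2
        · simpa using (hasDerivAt_pow 4 y).div_const 24
      convert h1 using 1
      ring) (by norm_num) (fun y hy => by
      have := sin_ge_sub_cube hy
      (clear * - this; linarith)) hx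
  linarith

theorem sincB_sin_le_five {x : ℝ} (hx : 0 ≤ x) : sin x ≤ x - x ^ 3 / 6 + x ^ 5 / 120 := by
  have h := nonneg_of_deriv_nonneg' (f := fun x => x - x ^ 3 / 6 + x ^ 5 / 120 - sin x)
    (f' := fun x => 1 - x ^ 2 / 2 + x ^ 4 / 24 - cos x) (fun y => by
      have h1 : HasDerivAt (fun x : ℝ => x - x ^ 3 / 6 + x ^ 5 / 120 - sin x)
          (1 - (3 * y ^ 2) / 6 + (5 * y ^ 4) / 120 - cos y) y := by
        refine ((((hasDerivAt_id y).sub ?_).add ?_).sub (hasDerivAt_sin y))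
        · simpa using (hasDerivAt_pow 3 y).div_const 6
        · simpa using (hasDerivAt_pow 5 y).div_const 120
      convert h1 using 1
      ring) (by norm_num) (fun y hy => by
      have := sincB_cos_le_four hy
      linarith) hx
  (clear * - h; linarith)

theorem sincB_six_le_cos {x : ℝ} (hx : 0 ≤ x) :
    1 - x ^ 2 / 2 + x ^ 4 / 24 - x ^ 6 / 720 ≤ cos x := by
  have h := nonneg_of_deriv_nonneg' (f := fun x => cos x - (1 - x ^ 2 / 2 + x ^ 4 / 24 - x ^ 6 / 720))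
    (f' := fun x => -sin x + x - x ^ 3 / 6 + x ^ 5 / 120) (fun y => by
      have h1 : HasDerivAt (fun x : ℝ => cos x - (1 - x ^ 2 / 2 + x ^ 4 / 24 - x ^ 6 / 720))
          (-sin y - (0 - (2 * y) / 2 + (4 * y ^ 3) / 24 - (6 * y ^ 5) / 720)) y := by
        refine (hasDerivAt_cos y).sub ((((hasDerivAt_const y (1 : ℝ)).sub ?_).add ?_).sub ?_)
        · simpa using (hasDerivAt_pow 2 y).div_const 2
        · simpa using (hasDerivAt_pow 4 y).div_const 24
        · simpa using (hasDerivAt_pow 6 y).div_const 720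
      convert h1 using 1
      ring) (by norm_num) (fun y hy => by
      have := sincB_sin_le_five hy
      (clear * - this; linarith)) hx
  linarith

theorem sincB_seven_le_sin {x : ℝ} (hx : 0 ≤ x) :
    x - x ^ 3 / 6 + x ^ 5 / 120 - x ^ 7 / 5040 ≤ sin x := by
  have h := nonneg_of_deriv_nonneg' (f := fun x => sin x - (x - x ^ 3 / 6 + x ^ 5 / 120 - x ^ 7 / 5040))
    (f' := fun x => cos x - (1 - x ^ 2 / 2 + x ^ 4 / 24 - x ^ 6 / 720)) (fun y => by
      have h1 : HasDerivAt (fun x : ℝ => sin x - (x - x ^ 3 / 6 + x ^ 5 / 120 - x ^ 7 / 5040))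
          (cos y - (1 - (3 * y ^ 2) / 6 + (5 * y ^ 4) / 120 - (7 * y ^ 6) / 5040)) y := by
        refine (hasDerivAt_sin y).sub ((((hasDerivAt_id y).sub ?_).add ?_).sub ?_)
        · simpa using (hasDerivAt_pow 3 y).div_const 6
        · simpa using (hasDerivAt_pow 5 y).div_const 120
        · simpa using (hasDerivAt_pow 7 y).div_const 5040
      convert h1 using 1
      ring) (by norm_num) (fun y hy => by
      have := sincB_six_le_cos hy
      (clear * - this; linarith)) hx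
  (clear * - h; linarith)

/-- `exp (-t) ≤ 1 - t + t^2/2` for `t ≥ 0` -/
theorem sincB_exp_neg_le_two {t : ℝ} (ht : 0 ≤ t) : exp (-t) ≤ 1 - t + t ^ 2 / 2 := by
  have h := nonneg_of_deriv_nonneg' (f := fun x => 1 - x + x ^ 2 / 2 - exp (-x))
    (f' := fun x => -1 + x + exp (-x)) (fun y => by
      have h0 : HasDerivAt (fun x : ℝ => exp (-x)) (exp (-y) * (-1)) y :=
        (hasDerivAt_neg y).exp
      have h1 : HasDerivAt (fun x : ℝ => 1 - x + x ^ 2 / 2 - exp (-x))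
          (0 - 1 + (2 * y) / 2 - exp (-y) * (-1)) y := by
        refine ((((hasDerivAt_const y (1 : ℝ)).sub (hasDerivAt_id y)).add ?_).sub h0)
        simpa using (hasDerivAt_pow 2 y).div_const 2
      convert h1 using 1
      ring) (by norm_num) (fun y hy => by
      have := add_one_le_exp (-y)
      (clear * - this; linarith)) ht
  (clear * - h; linarith)

/-- `1 - t + t^2/2 - t^3/6 ≤ exp (-t)` for `t ≥ 0` -/
theorem sincB_three_le_exp_neg {t : ℝ} (ht : 0 ≤ t) : 1 - t + t ^ 2 / 2 - t ^ 3 / 6 ≤ exp (-t) := by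
  have h := nonneg_of_deriv_nonneg' (f := fun x => exp (-x) - (1 - x + x ^ 2 / 2 - x ^ 3 / 6))
    (f' := fun x => 1 - x + x ^ 2 / 2 - exp (-x)) (fun y => by
      have h0 : HasDerivAt (fun x : ℝ => exp (-x)) (exp (-y) * (-1)) y :=
        (hasDerivAt_neg y).exp
      have h1 : HasDerivAt (fun x : ℝ => exp (-x) - (1 - x + x ^ 2 / 2 - x ^ 3 / 6))
          (exp (-y) * (-1) - (0 - 1 + (2 * y) / 2 - (3 * y ^ 2) / 6)) y := by
        refine h0.sub ((((hasDerivAt_const y (1 : ℝ)).sub (hasDerivAt_id y)).add ?_).sub ?_)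
        · simpa using (hasDerivAt_pow 2 y).div_const 2
        · simpa using (hasDerivAt_pow 3 y).div_const 6
      convert h1 using 1
      ring) (by norm_num) (fun y hy => by
      have := sincB_exp_neg_le_two hy
      (clear * - this; linarith)) ht
  (clear * - h; linarith)

/-- `exp (-t) ≤ 1 - t + t^2/2 - t^3/6 + t^4/24` for `t ≥ 0` -/
theorem sincB_exp_neg_le_four {t : ℝ} (ht : 0 ≤ t) :
    exp (-t) ≤ 1 - t + t ^ 2 / 2 - t ^ 3 / 6 + t ^ 4 / 24 := by
  have h := nonneg_of_deriv_nonneg' (f := fun x => 1 - x + x ^ 2 / 2 - x ^ 3 / 6 + x ^ 4 / 24 - exp (-x))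
    (f' := fun x => exp (-x) - (1 - x + x ^ 2 / 2 - x ^ 3 / 6)) (fun y => by
      have h0 : HasDerivAt (fun x : ℝ => exp (-x)) (exp (-y) * (-1)) y :=
        (hasDerivAt_neg y).exp
      have h1 : HasDerivAt (fun x : ℝ => 1 - x + x ^ 2 / 2 - x ^ 3 / 6 + x ^ 4 / 24 - exp (-x))
          (0 - 1 + (2 * y) / 2 - (3 * y ^ 2) / 6 + (4 * y ^ 3) / 24 - exp (-y) * (-1)) y := by
        refine ((((((hasDerivAt_const y (1 : ℝ)).sub (hasDerivAt_id y)).add ?_).sub ?_).add ?_).sub h0)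
        · simpa using (hasDerivAt_pow 2 y).div_const 2
        · simpa using (hasDerivAt_pow 3 y).div_const 6
        · simpa using (hasDerivAt_pow 4 y).div_const 24
      convert h1 using 1
      ring) (by norm_num) (fun y hy => by
      have := sincB_three_le_exp_neg hy
      (clear * - this; linarith)) ht
  linarith

theorem le_sinc_poly' {x : ℝ} (hx : 0 ≤ x) :
    1 - x ^ 2 / 6 + x ^ 4 / 120 - x ^ 6 / 5040 ≤ sinc x := by
  rcases hx.eq_or_lt with h0 | hpos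
  · rw [← h0]; simp
  · rw [sinc_of_ne_zero hpos.ne', le_div_iff₀ hpos]
    have := sincB_seven_le_sin hx
    nlinarith

/-! ### the product -/

theorem tendsto_sum_sq : Tendsto (fun n => ∑ j ∈ range n, 1 / (π ^ 2 * ((j : ℝ) + 1) ^ 2)) atTop
    (𝓝 (1 / 6)) := by
  have h := hasSum_zeta_two
  have h1 : HasSum (fun n : ℕ => (1 : ℝ) / ((n : ℝ) + 1) ^ 2) (π ^ 2 / 6) := by
    have := (hasSum_nat_add_iff' (f := fun n : ℕ => (1 : ℝ) / (n : ℝ) ^ 2) 1).mpr h
    simpa using this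
  have h2 := h1.mul_left (1 / π ^ 2)
  have e : 1 / π ^ 2 * (π ^ 2 / 6) = 1 / 6 := by field_simp
  rw [e] at h2
  refine h2.tendsto_sum_nat.congr fun n => ?_
  refine Finset.sum_congr rfl fun j _ => ?_
  (clear * -; field_simp)

/-- one factor of the product for `sinc (k x)` -/
theorem pr_mul_le {k x : ℝ} (hk : 1 ≤ k) (hx : 0 ≤ x) (h : k * x ≤ π) (n : ℕ) :
    0 ≤ pr (-(k * x) ^ 2) n ∧ pr (-(k * x) ^ 2) n ≤ pr (-x ^ 2) n *
      exp (-((k ^ 2 - 1) * x ^ 2 * ∑ j ∈ range n, 1 / (π ^ 2 * ((j : ℝ) + 1) ^ 2))) := by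
  have hkx : (k * x) ^ 2 ≤ π ^ 2 := pow_le_pow_left₀ (by positivity) h 2
  have hk2 : 0 ≤ k ^ 2 - 1 := by (clear * - hk; nlinarith)
  have hA : ∀ j : ℕ, 0 < π ^ 2 * ((j : ℝ) + 1) ^ 2 := fun j => by (clear * -; positivity)
  have hAj : ∀ j : ℕ, (k * x) ^ 2 / (π ^ 2 * ((j : ℝ) + 1) ^ 2) ≤ 1 := by
    intro j
    rw [div_le_one (hA j)]
    have h1 : (1:ℝ) ≤ ((j : ℝ) + 1) ^ 2 := by
      have : (0:ℝ) ≤ (j : ℝ) := Nat.cast_nonneg j
      nlinarith
    have hπ : 0 < π ^ 2 := by positivity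
    (clear * - hkx h1; nlinarith)
  have hf0 : ∀ j ∈ range n, 0 ≤ 1 + -(k * x) ^ 2 / (π ^ 2 * ((j : ℝ) + 1) ^ 2) := by
    intro j _
    rw [neg_div]
    linarith [hAj j]
  constructor
  · exact Finset.prod_nonneg hf0
  · unfold pr
    rw [Finset.mul_sum, ← Finset.sum_neg_distrib, Real.exp_sum, ← Finset.prod_mul_distrib]
    refine Finset.prod_le_prod hf0 fun j _ => ?_
    set y : ℝ := x ^ 2 / (π ^ 2 * ((j : ℝ) + 1) ^ 2) with hy
    have hy0 : 0 ≤ y := by (clear * -; positivity)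
    have e1 : -(k * x) ^ 2 / (π ^ 2 * ((j : ℝ) + 1) ^ 2) = -(k ^ 2 * y) := by rw [hy]; ring
    have e2 : -x ^ 2 / (π ^ 2 * ((j : ℝ) + 1) ^ 2) = -y := by rw [hy]; ring
    have e3 : (k ^ 2 - 1) * x ^ 2 * (1 / (π ^ 2 * ((j : ℝ) + 1) ^ 2)) = (k ^ 2 - 1) * y := by
      rw [hy]; ring
    have hky : k ^ 2 * y ≤ 1 := by
      have := hAj j
      have e4 : (k * x) ^ 2 / (π ^ 2 * ((j : ℝ) + 1) ^ 2) = k ^ 2 * y := by rw [hy]; ring
      rwa [e4] at this
    rw [e1, e2, e3]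
    have h5 := add_one_le_exp (-((k ^ 2 - 1) * y))
    have hy1 : y ≤ 1 := by (clear * - hky hk2 hy0; nlinarith)
    have h6 : (1 + -y) * (1 + -((k ^ 2 - 1) * y)) ≤ (1 + -y) * exp (-((k ^ 2 - 1) * y)) := by
      apply mul_le_mul_of_nonneg_left _ (by (clear * - hy1; linarith))
      (clear * - h5; linarith)
    refine le_trans ?_ h6
    have : 0 ≤ (k ^ 2 - 1) * y ^ 2 := by (clear * - hk2; positivity)
    (clear * - this; nlinarith)

theorem abs_sinc_mul_le {k x : ℝ} (hk : 1 ≤ k) (hx : 0 ≤ x) (h : k * x ≤ π) :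
    |sinc (k * x)| ≤ sinc x * exp (-((k ^ 2 - 1) / 6 * x ^ 2)) := by
  have h0 : 0 ≤ sinc (k * x) := ge_of_tendsto' (tendsto_sinc (k * x)) fun n => (pr_mul_le hk hx h n).1
  rw [abs_of_nonneg h0]
  have h1 := (tendsto_sum_sq.const_mul ((k ^ 2 - 1) * x ^ 2)).neg.rexp
  have h2 := (tendsto_sinc x).mul h1
  have e : (k ^ 2 - 1) * x ^ 2 * (1 / 6) = (k ^ 2 - 1) / 6 * x ^ 2 := by ring
  rw [e] at h2
  exact le_of_tendsto_of_tendsto' (tendsto_sinc (k * x)) h2 fun n => (pr_mul_le hk hx h n).2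

theorem abs_sinc_le_exp {y : ℝ} (hy : 0 ≤ y) (h : y ≤ π) : |sinc y| ≤ exp (-(y ^ 2 / 6)) := by
  have hpr : ∀ n, 0 ≤ pr (-y ^ 2) n ∧ pr (-y ^ 2) n ≤
      exp (-(y ^ 2 * ∑ j ∈ range n, 1 / (π ^ 2 * ((j : ℝ) + 1) ^ 2))) := by
    intro n
    have hy2 : y ^ 2 ≤ π ^ 2 := pow_le_pow_left₀ hy h 2
    have hf0 : ∀ j ∈ range n, 0 ≤ 1 + -y ^ 2 / (π ^ 2 * ((j : ℝ) + 1) ^ 2) := by
      intro j _
      rw [neg_div, ← sub_eq_add_neg, sub_nonneg, div_le_one (by (clear * -; positivity))]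
      have h1 : (1:ℝ) ≤ ((j : ℝ) + 1) ^ 2 := by
        have : (0:ℝ) ≤ (j : ℝ) := Nat.cast_nonneg j
        nlinarith
      have hπ : 0 < π ^ 2 := by positivity
      (clear * - hy2 h1; nlinarith)
    constructor
    · exact Finset.prod_nonneg hf0
    · unfold pr
      rw [Finset.mul_sum, ← Finset.sum_neg_distrib, Real.exp_sum]
      refine Finset.prod_le_prod hf0 fun j _ => ?_
      have h5 := add_one_le_exp (-(y ^ 2 * (1 / (π ^ 2 * ((j : ℝ) + 1) ^ 2))))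
      have e1 : -y ^ 2 / (π ^ 2 * ((j : ℝ) + 1) ^ 2) = -(y ^ 2 * (1 / (π ^ 2 * ((j : ℝ) + 1) ^ 2))) := by
        ring
      rw [e1]
      (clear * - h5; linarith)
  have h0 : 0 ≤ sinc y := ge_of_tendsto' (tendsto_sinc y) fun n => (hpr n).1
  rw [abs_of_nonneg h0]
  have h1 := (tendsto_sum_sq.const_mul (y ^ 2)).neg.rexp
  have e : y ^ 2 * (1 / 6) = y ^ 2 / 6 := by ring
  rw [e] at h1
  exact le_of_tendsto_of_tendsto' (tendsto_sinc y) h1 fun n => (hpr n).2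

theorem abs_sinc_le_inv {y : ℝ} (h : 0 < y) : |sinc y| ≤ 1 / y := by
  rw [sinc_of_ne_zero h.ne', abs_div, abs_of_pos h]
  exact div_le_div_of_nonneg_right (abs_sin_le_one y) h.le

theorem abs_sinc_le_of_pi_le {y : ℝ} (h : π ≤ y) : |sinc y| ≤ 100 / 449 := by
  have hpi := pi_gt_d6
  have hpi' := pi_lt_d6
  have hy : 0 < y := by linarith
  rcases le_or_gt (449 / 100) y with h1 | h1
  · refine (abs_sinc_le_inv hy).trans ?_
    rw [div_le_div_iff₀ hy (by norm_num)]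
    (clear * - h1; linarith)
  · rw [sinc_of_ne_zero hy.ne', abs_div, abs_of_pos hy, div_le_div_iff₀ hy (by norm_num)]
    -- `|sin y| = cos t`, `t = 3π/2 - y`
    set t : ℝ := 3 * π / 2 - y with ht
    have ht0 : 0 ≤ t := by rw [ht]; linarith
    have ht1 : t ≤ π / 2 := by rw [ht]; (clear * - h; linarith)
    have hs : sin y = -cos t := by
      have : y = (π / 2 - t) + π := by rw [ht]; ring
      rw [this, sin_add_pi, sin_pi_div_two_sub]
    have hc0 : 0 ≤ cos t := cos_nonneg_of_mem_Icc ⟨by (clear * - hpi hpi' h1 ht; linarith), ht1⟩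
    rw [hs, abs_neg, abs_of_nonneg hc0]
    have hc := sincB_cos_le_four ht0
    have hyt : y = 3 * π / 2 - t := by rw [ht]; ring
    rw [hyt]
    have ht2 : t ^ 2 ≤ 2.4675 := by
      have : t ≤ 1.5708 := by (clear * - h hpi hpi' ht; linarith)
      (clear * - h ht hpi h1 hpi'; nlinarith)
    (clear * - hpi hpi' h1 ht hc ht2; nlinarith [sq_nonneg (t - 0.29), sq_nonneg (t ^ 2)])

theorem inv_le_exp_neg : (100 / 449 : ℝ) ≤ exp (-(3 / 2)) := by
  have h3 : exp (3 / 2) ≤ 449 / 100 := by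
    have h1 := exp_one_lt_d9
    have h2 : exp (3 / 2) ^ 2 = exp 1 ^ 3 := by
      rw [← exp_nat_mul, ← exp_nat_mul]
      norm_num
    have h4 : exp 1 ^ 3 ≤ (2.7182818286 : ℝ) ^ 3 :=
      pow_le_pow_left₀ (exp_pos 1).le h1.le 3
    have h5 : exp (3 / 2) ^ 2 ≤ (449 / 100 : ℝ) ^ 2 := by
      rw [h2]
      refine h4.trans ?_
      norm_num
    exact le_of_sq_le_sq h5 (by norm_num)
  rw [exp_neg]
  rw [show (100 / 449 : ℝ) = (449 / 100)⁻¹ by norm_num]
  exact inv_anti₀ (exp_pos _) h3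

theorem le_sinc_two_mul {x : ℝ} (hx : 0 ≤ x) (h : x ≤ 3 / 4) :
    exp (-(727 / 1000 * x ^ 2)) ≤ sinc (2 * x) := by
  have h1 := le_sinc_poly' (x := 2 * x) (by positivity)
  refine le_trans ?_ h1
  set v : ℝ := x ^ 2 with hv
  have hv0 : 0 ≤ v := sq_nonneg x
  have hv1 : v ≤ 9 / 16 := by rw [hv]; (clear * - h hx; nlinarith)
  have h2 := sincB_exp_neg_le_four (t := 727 / 1000 * v) (by (clear * -; positivity))
  refine h2.trans ?_
  have e1 : (2 * x) ^ 2 = 4 * v := by rw [hv]; ring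
  have e2 : (2 * x) ^ 4 = 16 * v ^ 2 := by rw [hv]; ring
  have e3 : (2 * x) ^ 6 = 64 * v ^ 3 := by rw [hv]; ring
  rw [e1, e2, e3]
  have h3 : 0 ≤ v * (0.060333 - 0.130932 * v + 0.0513419 * v ^ 2 - 0.0116395 * v ^ 3) := by
    apply mul_nonneg hv0
    have h4 : v ^ 3 ≤ 9 / 16 * v ^ 2 := by (clear * - hv1; nlinarith [sq_nonneg v])
    (clear * - hv1 h4; nlinarith)
  (clear * - h3 hv0; nlinarith [h3, sq_nonneg v, mul_nonneg hv0 (sq_nonneg v), mul_nonneg hv0 hv0, sq_nonneg (v ^ 2)])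

theorem abs_sinc_mul_le_four {k x : ℝ} (hk : 4 ≤ k) (hx : 0 ≤ x) (h : x ≤ 3 / 4) :
    |sinc (k * x)| ≤ exp (-(8 / 3 * x ^ 2)) := by
  have hkx : 0 ≤ k * x := by positivity
  rcases le_or_gt (k * x) π with h1 | h1
  · refine (abs_sinc_le_exp hkx h1).trans (exp_le_exp.mpr ?_)
    have : 16 * x ^ 2 ≤ (k * x) ^ 2 := by
      rw [mul_pow]
      apply mul_le_mul_of_nonneg_right _ (sq_nonneg x)
      (clear * - hk; nlinarith)
    linarith
  · refine (abs_sinc_le_of_pi_le h1.le).trans (inv_le_exp_neg.trans (exp_le_exp.mpr ?_))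
    (clear * - h hx; nlinarith)

theorem abs_sinc_mul_le_six {k x r : ℝ} (hk : 6 ≤ k) (hx : 0 ≤ x) (h : x ≤ r) (hr : 0 < r) :
    |sinc (k * x)| ≤ exp (-(min 6 (3 / 2 / r ^ 2) * x ^ 2)) := by
  have hkx : 0 ≤ k * x := by positivity
  rcases le_or_gt (k * x) π with h1 | h1
  · refine (abs_sinc_le_exp hkx h1).trans (exp_le_exp.mpr ?_)
    have h2 : min 6 (3 / 2 / r ^ 2) * x ^ 2 ≤ 6 * x ^ 2 :=
      mul_le_mul_of_nonneg_right (min_le_left _ _) (sq_nonneg x)
    have : 36 * x ^ 2 ≤ (k * x) ^ 2 := by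
      rw [mul_pow]
      apply mul_le_mul_of_nonneg_right _ (sq_nonneg x)
      (clear * - hk; nlinarith)
    linarith
  · refine (abs_sinc_le_of_pi_le h1.le).trans (inv_le_exp_neg.trans (exp_le_exp.mpr ?_))
    have h2 : min 6 (3 / 2 / r ^ 2) * x ^ 2 ≤ 3 / 2 / r ^ 2 * x ^ 2 :=
      mul_le_mul_of_nonneg_right (min_le_right _ _) (sq_nonneg x)
    have h3 : 3 / 2 / r ^ 2 * x ^ 2 ≤ 3 / 2 := by
      rw [div_mul_eq_mul_div, div_le_iff₀ (by positivity)]
      have : x ^ 2 ≤ r ^ 2 := pow_le_pow_left₀ hx h 2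
      linarith
    (clear * - h2 h3; linarith)

theorem le_sinc {x : ℝ} (hx : 0 ≤ x) (h : x ≤ 12 / 10) : exp (-(x ^ 2 / 5)) ≤ sinc x := by
  have h1 := le_sinc_poly' hx
  refine le_trans ?_ h1
  set v : ℝ := x ^ 2 with hv
  have hv0 : 0 ≤ v := sq_nonneg x
  have hv1 : v ≤ 144 / 100 := by rw [hv]; (clear * - h hx; nlinarith)
  have h2 := sincB_exp_neg_le_two (t := v / 5) (by (clear * -; positivity))
  refine h2.trans ?_
  have e2 : x ^ 4 = v ^ 2 := by rw [hv]; ring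
  have e3 : x ^ 6 = v ^ 3 := by rw [hv]; ring
  rw [e2, e3]
  have h3 : 0 ≤ v * (1 / 30 - 7 / 600 * v - v ^ 2 / 5040) := by
    apply mul_nonneg hv0
    nlinarith
  (clear * - h3; nlinarith [h3])

theorem abs_sin_nat_mul_le (k : ℕ) {x : ℝ} (hx : 0 ≤ x) (h : x ≤ π / 2) :
    |sin (k * x)| ≤ k * sin x := by
  have hs : 0 ≤ sin x := sin_nonneg_of_nonneg_of_le_pi hx (by linarith [pi_pos])
  induction k with
  | zero => simp
  | succ k ih =>
    push_cast
    have e : ((k : ℝ) + 1) * x = k * x + x := by ring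
    rw [e, sin_add]
    calc |sin (k * x) * cos x + cos (k * x) * sin x|
        ≤ |sin (k * x) * cos x| + |cos (k * x) * sin x| := abs_add_le _ _
      _ = |sin (k * x)| * |cos x| + |cos (k * x)| * |sin x| := by rw [abs_mul, abs_mul]
      _ ≤ k * sin x * 1 + 1 * sin x := by
          rw [abs_of_nonneg hs]
          gcongr
          · exact abs_cos_le_one x
          · exact abs_cos_le_one _
      _ = ((k : ℝ) + 1) * sin x := by ring

end Pool.Agent.M18.Helper95.SP.Crude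
end

/- Helper95.SP.Crude.Tau -/
section
/-!
A lower bound for `sinc (3 C) / sinc C`.
-/

set_option autoImplicit false

namespace Pool.Agent.M18.Helper95.SP.Crude

open Real Finset Filter Topology

theorem Tau.one_var {y : ℝ} (h0 : 0 ≤ y) (h1 : y ≤ 1 / 36) :
    (1 - y) * exp (-(8 * y + 97 / 2 * y ^ 2)) ≤ 1 - 9 * y := by
  set t : ℝ := 8 * y + 97 / 2 * y ^ 2 with ht
  have ht0 : 0 ≤ t := by (clear * - h0; positivity)
  have h2 := Real.sum_le_exp_of_nonneg ht0 5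
  have h3 : 1 - y ≤ (1 - 9 * y) * exp t := by
    have h4 : 0 ≤ 1 - 9 * y := by (clear * - h1; linarith)
    refine le_trans ?_ (mul_le_mul_of_nonneg_left h2 h4)
    simp only [Finset.sum_range_succ, Finset.sum_range_zero, Nat.factorial]
    have hk : ∀ k : ℕ, y ^ (k + 2) ≤ y ^ 2 * (1 / 36) ^ k := by
      intro k
      rw [pow_add, mul_comm]
      exact mul_le_mul_of_nonneg_left (pow_le_pow_left₀ h0 h1 k) (by (clear * -; positivity))
    have k1 := hk 1
    have k2 := hk 2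
    have k3 := hk 3
    have k4 := hk 4
    have k5 := hk 5
    have k6 := hk 6
    have k7 := hk 7
    norm_num at k1 k2 k3 k4 k5 k6 k7
    have e : 1 - y = 1 - y := rfl
    rw [ht]
    push_cast
    have hy2 : 0 ≤ y ^ 2 := by (clear * -; positivity)
    (clear * - k1 k2 k3 k4 k5 k6 k7 hy2; nlinarith [k1, k2, k3, k4, k5, k6, k7, hy2])
  have h5 : exp (-t) = (exp t)⁻¹ := Real.exp_neg t
  rw [h5, ← div_eq_mul_inv, div_le_iff₀ (exp_pos t)]
  exact h3

theorem Tau.sum_sq (k : ℕ) : ∑ j ∈ range k, 1 / (π ^ 2 * (((j + 1 : ℕ) : ℝ) + 1) ^ 2) ≤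
    1 / 6 - 1 / π ^ 2 := by
  have h := sum_sq_le (k + 1)
  rw [Finset.sum_range_succ'] at h
  have e : 1 / (π ^ 2 * (((0 : ℕ) : ℝ) + 1) ^ 2) = 1 / π ^ 2 := by norm_num
  rw [e] at h
  (clear * - h; linarith)

theorem Tau.sum_four (k : ℕ) : ∑ j ∈ range k, 1 / (π ^ 2 * (((j + 1 : ℕ) : ℝ) + 1) ^ 2) ^ 2 ≤
    1 / 90 - 1 / π ^ 4 := by
  have h := sum_four_le (k + 1)
  rw [Finset.sum_range_succ'] at h
  have e : 1 / (π ^ 2 * (((0 : ℕ) : ℝ) + 1) ^ 2) ^ 2 = 1 / π ^ 4 := by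
    norm_num
    rw [← pow_mul]
  rw [e] at h
  (clear * - h; linarith)

theorem Tau.pi_sq_bd : (98696 / 10000 : ℝ) ≤ π ^ 2 ∧ π ^ 2 ≤ 986961 / 100000 := by
  have h1 := pi_gt_d6
  have h2 := pi_lt_d6
  constructor <;> (clear * - h1 h2; nlinarith)

theorem Tau.sum_bd {s : ℝ} (hs : 0 ≤ s) (k : ℕ) :
    ∑ j ∈ range k, (8 * (s / (π ^ 2 * (((j + 1 : ℕ) : ℝ) + 1) ^ 2)) +
      97 / 2 * (s / (π ^ 2 * (((j + 1 : ℕ) : ℝ) + 1) ^ 2)) ^ 2) ≤
      52277 / 100000 * s + 411 / 10000 * s ^ 2 := by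
  have h1 := Tau.sum_sq k
  have h2 := Tau.sum_four k
  have e : ∑ j ∈ range k, (8 * (s / (π ^ 2 * (((j + 1 : ℕ) : ℝ) + 1) ^ 2)) +
      97 / 2 * (s / (π ^ 2 * (((j + 1 : ℕ) : ℝ) + 1) ^ 2)) ^ 2) =
      8 * s * ∑ j ∈ range k, 1 / (π ^ 2 * (((j + 1 : ℕ) : ℝ) + 1) ^ 2) +
      97 / 2 * s ^ 2 * ∑ j ∈ range k, 1 / (π ^ 2 * (((j + 1 : ℕ) : ℝ) + 1) ^ 2) ^ 2 := by
    rw [Finset.mul_sum, Finset.mul_sum, ← Finset.sum_add_distrib]
    refine Finset.sum_congr rfl fun j _ => ?_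
    rw [div_pow]
    ring
  rw [e]
  obtain ⟨p1, p2⟩ := Tau.pi_sq_bd
  have hp : 0 < π ^ 2 := by positivity
  have b1 : 1 / π ^ 2 ≥ 1 / (986961 / 100000) := one_div_le_one_div_of_le hp p2
  have b2 : 1 / π ^ 4 ≥ 1 / (986961 / 100000) ^ 2 := by
    have : π ^ 4 = (π ^ 2) ^ 2 := by ring
    rw [this]
    exact one_div_le_one_div_of_le (by positivity) (pow_le_pow_left₀ hp.le p2 2)
  have c1 : 8 * s * ∑ j ∈ range k, 1 / (π ^ 2 * (((j + 1 : ℕ) : ℝ) + 1) ^ 2) ≤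
      8 * s * (1 / 6 - 1 / (986961 / 100000)) :=
    mul_le_mul_of_nonneg_left (by (clear * - h1 b1; linarith)) (by positivity)
  have c2 : 97 / 2 * s ^ 2 * ∑ j ∈ range k, 1 / (π ^ 2 * (((j + 1 : ℕ) : ℝ) + 1) ^ 2) ^ 2 ≤
      97 / 2 * s ^ 2 * (1 / 90 - 1 / (986961 / 100000) ^ 2) :=
    mul_le_mul_of_nonneg_left (by (clear * - h2 b2; linarith)) (by (clear * -; positivity))
  have hs2 : 0 ≤ s ^ 2 := by positivity
  have a1 : (8 : ℝ) * (1 / 6 - 1 / (986961 / 100000)) ≤ 52277 / 100000 := by norm_num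
  have a2 : (97 / 2 : ℝ) * (1 / 90 - 1 / (986961 / 100000) ^ 2) ≤ 411 / 10000 := by norm_num
  have d1 := mul_le_mul_of_nonneg_right a1 hs
  have d2 := mul_le_mul_of_nonneg_right a2 hs2
  refine (add_le_add c1 c2).trans ?_
  calc _ = 8 * (1 / 6 - 1 / (986961 / 100000)) * s +
        97 / 2 * (1 / 90 - 1 / (986961 / 100000) ^ 2) * s ^ 2 := by ring
    _ ≤ _ := add_le_add d1 d2

theorem tau_le {C : ℝ} (h0 : 0 ≤ C) (h : 9 * C ^ 2 < π ^ 2) :
    sinc C * ((π ^ 2 - 9 * C ^ 2) / (π ^ 2 - C ^ 2)) *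
      exp (-(52277 / 100000 * C ^ 2 + 411 / 10000 * C ^ 4)) ≤ sinc (3 * C) := by
  have t1 := tendsto_sinc C
  have t2 := tendsto_sinc (3 * C)
  have t1' := (t1.comp (tendsto_add_atTop_nat 1)).mul_const
    (((π ^ 2 - 9 * C ^ 2) / (π ^ 2 - C ^ 2)) *
      exp (-(52277 / 100000 * C ^ 2 + 411 / 10000 * C ^ 4)))
  have t2' := t2.comp (tendsto_add_atTop_nat 1)
  rw [← mul_assoc] at t1'
  refine le_of_tendsto_of_tendsto' t1' t2' fun k => ?_
  simp only [Function.comp_apply]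
  set s := C ^ 2 with hs
  have hs0 : 0 ≤ s := by (clear * -; positivity)
  have hC4 : C ^ 4 = s ^ 2 := by rw [hs]; ring
  rw [hC4, show -(3 * C) ^ 2 = -(9 * s) by rw [hs]; ring]
  have hpi : 0 < π ^ 2 := by positivity
  unfold pr
  rw [Finset.prod_range_succ', Finset.prod_range_succ']
  have e0 : (1 + -s / (π ^ 2 * (((0 : ℕ) : ℝ) + 1) ^ 2)) * ((π ^ 2 - 9 * s) / (π ^ 2 - s)) =
      1 + -(9 * s) / (π ^ 2 * (((0 : ℕ) : ℝ) + 1) ^ 2) := by
    have : π ^ 2 - s ≠ 0 := by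
      have : s < π ^ 2 := by (clear * - h hs0; linarith)
      (clear * - h hs0; linarith)
    norm_num
    field_simp
    ring
  have hf : 0 < 1 + -(9 * s) / (π ^ 2 * (((0 : ℕ) : ℝ) + 1) ^ 2) := by
    have h9 : 9 * s / π ^ 2 < 1 := (div_lt_one hpi).mpr h
    norm_num
    rw [neg_div]
    (clear * - h9; linarith)
  have hprod : (∏ j ∈ range k, (1 + -s / (π ^ 2 * (((j + 1 : ℕ) : ℝ) + 1) ^ 2))) *
      exp (-(52277 / 100000 * s + 411 / 10000 * s ^ 2)) ≤
      ∏ j ∈ range k, (1 + -(9 * s) / (π ^ 2 * (((j + 1 : ℕ) : ℝ) + 1) ^ 2)) := by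
    have hy : ∀ j : ℕ, 0 ≤ s / (π ^ 2 * (((j + 1 : ℕ) : ℝ) + 1) ^ 2) ∧
        s / (π ^ 2 * (((j + 1 : ℕ) : ℝ) + 1) ^ 2) ≤ 1 / 36 := by
      intro j
      refine ⟨by (clear * -; positivity), ?_⟩
      rw [div_le_div_iff₀ (by positivity) (by norm_num)]
      have h1 : (4 : ℝ) ≤ (((j + 1 : ℕ) : ℝ) + 1) ^ 2 := by
        have : (2 : ℝ) ≤ ((j + 1 : ℕ) : ℝ) + 1 := by
          push_cast
          (clear * -; linarith [Nat.cast_nonneg (α := ℝ) j])
        (clear * - this; nlinarith)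
      (clear * - h h1; nlinarith)
    have h1 : ∏ j ∈ range k, ((1 + -s / (π ^ 2 * (((j + 1 : ℕ) : ℝ) + 1) ^ 2)) *
        exp (-(8 * (s / (π ^ 2 * (((j + 1 : ℕ) : ℝ) + 1) ^ 2)) +
          97 / 2 * (s / (π ^ 2 * (((j + 1 : ℕ) : ℝ) + 1) ^ 2)) ^ 2))) ≤
        ∏ j ∈ range k, (1 + -(9 * s) / (π ^ 2 * (((j + 1 : ℕ) : ℝ) + 1) ^ 2)) := by
      refine Finset.prod_le_prod (fun j _ => ?_) fun j _ => ?_
      · obtain ⟨y0, y1⟩ := hy j
        rw [neg_div]
        have : 0 ≤ 1 + -(s / (π ^ 2 * (((j + 1 : ℕ) : ℝ) + 1) ^ 2)) := by (clear * - y1; linarith)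
        (clear * - this; positivity)
      · obtain ⟨y0, y1⟩ := hy j
        have := Tau.one_var y0 y1
        rw [neg_div, neg_div, mul_div_assoc, ← sub_eq_add_neg, ← sub_eq_add_neg]
        exact this
    rw [Finset.prod_mul_distrib, ← Real.exp_sum] at h1
    refine le_trans (mul_le_mul_of_nonneg_left (exp_le_exp.mpr ?_) ?_) h1
    · rw [Finset.sum_neg_distrib, neg_le_neg_iff]
      exact Tau.sum_bd hs0 k
    · refine Finset.prod_nonneg fun j _ => ?_
      obtain ⟨y0, y1⟩ := hy j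
      rw [neg_div]
      (clear * - y1; linarith)
  calc _ = ((∏ j ∈ range k, (1 + -s / (π ^ 2 * (((j + 1 : ℕ) : ℝ) + 1) ^ 2))) *
      exp (-(52277 / 100000 * s + 411 / 10000 * s ^ 2))) *
      ((1 + -s / (π ^ 2 * (((0 : ℕ) : ℝ) + 1) ^ 2)) * ((π ^ 2 - 9 * s) / (π ^ 2 - s))) := by ring
    _ ≤ _ := by
      rw [e0]
      exact mul_le_mul_of_nonneg_right hprod hf.le

end Pool.Agent.M18.Helper95.SP.Crude
end
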