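import Mathlib
import Pool.Agent.Helper53.AM.G01

/- Helper89.Slab.S4b -/
section
namespace Pool.Agent.M18.Slab

open MeasureTheory Set

theorem ee_low {P M s : ℝ} (h : s ≤ M) : ee P M s = 4 * s / (P + M) := by
  unfold ee; rw [if_pos h]

theorem ee_mid {P M s : ℝ} (hM : 0 ≤ M) (hP : 0 < P) (hMP : M ≤ P) (h : M ≤ s) (h' : s ≤ P) :
    ee P M s = 2 - 2 * (P - s) ^ 2 / (P ^ 2 - M ^ 2) := by
  unfold ee
  rcases lt_or_eq_of_le h with h1 | h1
  · rw [if_neg (not_le.mpr h1), if_pos h']
  · subst h1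
    rw [if_pos le_rfl]
    rcases lt_or_eq_of_le hMP with h2 | h2
    · have h3 : P ^ 2 - M ^ 2 ≠ 0 := by nlinarith
      have h4 : P + M ≠ 0 := by positivity
      have h5 : P ^ 2 - M ^ 2 = (P - M) * (P + M) := by ring
      have h6 : P - M ≠ 0 := by linarith
      rw [h5]
      field_simp
      ring
    · subst h2
      have h4 : M + M ≠ 0 := by positivity
      have h6 : 4 * M / (M + M) = 2 := by
        rw [div_eq_iff h4]; ring
      rw [h6]
      simp

theorem ee_high {P M s : ℝ} (hM : 0 ≤ M) (hP : 0 < P) (hMP : M ≤ P) (h : P ≤ s) :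
    ee P M s = 2 := by
  rcases lt_or_eq_of_le h with h1 | h1
  · unfold ee
    rw [if_neg (by linarith), if_neg (by (clear * - h1; linarith))]
  · subst h1
    rw [ee_mid hM hP hMP hMP le_rfl]
    simp

theorem ee_continuous {P M : ℝ} (hM : 0 ≤ M) (hP : 0 < P) (hMP : M ≤ P) :
    Continuous (ee P M) := by
  have h1 : ee P M = fun s => if s ≤ M then 4 * s / (P + M) else
      (if s ≤ P then 2 - 2 * (P - s) ^ 2 / (P ^ 2 - M ^ 2) else 2) := by
    funext s; rfl
  rw [h1]
  refine Continuous.if_le (by fun_prop) ?_ continuous_id continuous_const ?_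
  · refine Continuous.if_le (by fun_prop) continuous_const continuous_id continuous_const ?_
    intro x hx
    have hx : x = P := hx
    subst hx
    simp
  · intro x hx
    have hx' : x = M := hx
    subst hx'
    have h2 := ee_mid hM hP hMP le_rfl hMP
    have h3 : ee P x x = 4 * x / (P + x) := ee_low le_rfl
    rw [if_pos hMP]
    rw [← h3, h2]

theorem ee_sub_sign {p q p' q' : ℝ} (hq : 0 ≤ q) (hqp : q ≤ p) (hq' : 0 ≤ q') (hqp' : q' ≤ p')
    (hc : p ^ 2 + q ^ 2 = p' ^ 2 + q' ^ 2) (hlt : p * q < p' * q') :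
    ∃ z : ℝ, 0 ≤ z ∧ (∀ s, 0 ≤ s → s ≤ z → 0 ≤ ee (p' + q') (p' - q') s - ee (p + q) (p - q) s) ∧
      (∀ s, z ≤ s → ee (p' + q') (p' - q') s - ee (p + q) (p - q) s ≤ 0) := by
  have hq'0 : 0 < q' := by
    rcases lt_or_eq_of_le hq' with h | h
    · exact h
    · subst h
      have : 0 ≤ p * q := mul_nonneg (le_trans hq hqp) hq
      simp at hlt
      linarith
  have hp'0 : 0 < p' := lt_of_lt_of_le hq'0 hqp'
  have hp0 : 0 < p := by
    rcases lt_or_eq_of_le (le_trans hq hqp) with h | h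
    · exact h
    · exfalso
      have h1 : q = 0 := le_antisymm (by (clear * - hqp h; linarith)) hq
      rw [← h, h1] at hc
      (clear * - hc hp'0 hq'0 hqp'; nlinarith [sq_nonneg p', sq_nonneg q', mul_pos hp'0 hq'0])
  obtain ⟨P, hP⟩ : ∃ P, P = p + q := ⟨_, rfl⟩
  obtain ⟨M, hM⟩ : ∃ M, M = p - q := ⟨_, rfl⟩
  obtain ⟨P', hP'⟩ : ∃ P', P' = p' + q' := ⟨_, rfl⟩
  obtain ⟨M', hM'⟩ : ∃ M', M' = p' - q' := ⟨_, rfl⟩
  rw [← hP, ← hM, ← hP', ← hM']
  have hM0 : 0 ≤ M := by rw [hM]; linarith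
  have hM'0 : 0 ≤ M' := by rw [hM']; linarith
  have hP0 : 0 < P := by rw [hP]; linarith
  have hP'0 : 0 < P' := by rw [hP']; (clear * - hqp' hq'0; linarith)
  have hMP : M ≤ P := by rw [hM, hP]; linarith
  have hM'P' : M' < P' := by rw [hM', hP']; linarith
  have hPP' : P < P' := by
    have : P ^ 2 < P' ^ 2 := by rw [hP, hP']; (clear * - hc hlt; nlinarith)
    (clear * - hc hlt hq hP hP' hqp hq' hqp'; nlinarith)
  have hMM' : M' < M := by
    have : M' ^ 2 < M ^ 2 := by rw [hM, hM']; (clear * - hc hlt; nlinarith)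
    (clear * - hc hlt hqp hM hM' hqp'; nlinarith)
  have hsum : P ^ 2 + M ^ 2 = P' ^ 2 + M' ^ 2 := by
    rw [hP, hM, hP', hM']; (clear * - hc; nlinarith)
  have hpp' : p' < p := by
    have h1 : p * q * (p * q) < p' * q' * (p' * q') := by
      have h0 : 0 ≤ p * q := mul_nonneg hp0.le hq
      (clear * - hlt h0; nlinarith)
    -- p^2 - q^2 > p'^2 - q'^2
    have h2 : (p' ^ 2 - q' ^ 2) < (p ^ 2 - q ^ 2) := by
      have h3 : (p' ^ 2 - q' ^ 2) ^ 2 < (p ^ 2 - q ^ 2) ^ 2 := by
        have e1 : (p' ^ 2 - q' ^ 2) ^ 2 = (p' ^ 2 + q' ^ 2) ^ 2 - 4 * (p' * q' * (p' * q')) := by ring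
        have e2 : (p ^ 2 - q ^ 2) ^ 2 = (p ^ 2 + q ^ 2) ^ 2 - 4 * (p * q * (p * q)) := by ring
        rw [e1, e2, hc]; linarith
      have h4 : 0 ≤ p' ^ 2 - q' ^ 2 := by (clear * - hq' hqp'; nlinarith)
      have h5 : 0 ≤ p ^ 2 - q ^ 2 := by (clear * - hq hqp; nlinarith)
      (clear * - hc hq hP hM hP' hM' hPP' hMM' hq' hq'0; nlinarith)
    (clear * - hc h2 hq hqp hq' hqp'; nlinarith)
  have hcont : Continuous (fun s => ee P' M' s - ee P M s) :=
    (ee_continuous hM'0 hP'0 hM'P'.le).sub (ee_continuous hM0 hP0 hMP)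
  -- constants
  have hQ' : 0 < P' ^ 2 - M' ^ 2 := by (clear * - hc hsum hq hq' hP hqp hM hqp' hP' hq'0 hPP' hpp'; nlinarith)
  obtain ⟨a, ha⟩ : ∃ a, a = 2 / (P' ^ 2 - M' ^ 2) := ⟨_, rfl⟩
  have ha0 : 0 < a := by rw [ha]; (clear * - hQ'; positivity)
  have haQ : a * (P' ^ 2 - M' ^ 2) = 2 := by rw [ha]; field_simp
  obtain ⟨c, hcc⟩ : ∃ c, c = 4 / (P + M) := ⟨_, rfl⟩
  have hPM : 0 < P + M := by (clear * - hq' hqp' hP hM hpp'; linarith)
  have hc0 : 0 < c := by rw [hcc]; positivity
  have hcPM : c * (P + M) = 4 := by rw [hcc]; field_simp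
  have hP'M' : 0 < P' + M' := by linarith
  have hlow' : ∀ s, s ≤ M' → 0 ≤ s → 0 ≤ ee P' M' s - ee P M s := by
    intro s hs hs0
    rw [ee_low hs, ee_low (by (clear * - hP hM hP' hM' hPP' hpp' hs; linarith) : s ≤ M)]
    have h1 : P' + M' < P + M := by rw [hP, hM, hP', hM']; (clear * - hpp'; linarith)
    have : 4 * s / (P + M) ≤ 4 * s / (P' + M') :=
      div_le_div_of_nonneg_left (by (clear * - hs0; linarith)) hP'M' h1.le
    (clear * - this; linarith)
  have hle2 : ∀ s, ee P' M' s ≤ 2 := by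
    intro s
    rcases le_total s M' with h | h
    · rw [ee_low h, div_le_iff₀ hP'M']; (clear * - hq hP hP' hM' hPP' hpp' h; linarith)
    · rcases le_total s P' with h' | h'
      · rw [ee_mid hM'0 hP'0 hM'P'.le h h']
        have : 0 ≤ 2 * (P' - s) ^ 2 / (P' ^ 2 - M' ^ 2) := by (clear * - hQ'; positivity)
        (clear * - this; linarith)
      · rw [ee_high hM'0 hP'0 hM'P'.le h']
  have hB : ∀ s, M' ≤ s → s ≤ M → ee P' M' s - ee P M s = 2 - a * (P' - s) ^ 2 - c * s := by
    intro s h1 h2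
    rw [ee_low h2, ee_mid hM'0 hP'0 hM'P'.le h1 (by (clear * - hq hP hM hPP' h2; linarith)), ha, hcc]
    ring
  have hBM' : 0 ≤ 2 - a * (P' - M') ^ 2 - c * M' := by
    have := hlow' M' le_rfl hM'0
    rw [hB M' le_rfl hMM'.le] at this
    exact this
  have conc : ∀ u t, M' ≤ u → u ≤ t → 2 - a * (P' - u) ^ 2 - c * u < 0 →
      2 - a * (P' - t) ^ 2 - c * t < 0 := by
    intro u t hu hut h
    have hu' : M' < u := by
      rcases lt_or_eq_of_le hu with h1 | h1
      · exact h1
      · rw [← h1] at h; (clear * - hBM' h; linarith)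
    have key : (2 - a * (P' - t) ^ 2 - c * t) * (u - M') ≤
        (2 - a * (P' - u) ^ 2 - c * u) * (t - M') - (2 - a * (P' - M') ^ 2 - c * M') * (t - u) := by
      have : (2 - a * (P' - u) ^ 2 - c * u) * (t - M') -
          (2 - a * (P' - M') ^ 2 - c * M') * (t - u) - (2 - a * (P' - t) ^ 2 - c * t) * (u - M')
          = a * ((u - M') * (t - u) * (t - M')) := by ring
      have h3 : 0 ≤ a * ((u - M') * (t - u) * (t - M')) := by
        apply mul_nonneg ha0.le
        apply mul_nonneg (mul_nonneg _ _) <;> (clear * - hut hu'; linarith)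
      (clear * - h3; linarith)
    have h4 : (2 - a * (P' - u) ^ 2 - c * u) * (t - M') < 0 :=
      mul_neg_of_neg_of_pos h (by (clear * - hut hu'; linarith))
    have h5 : 0 ≤ (2 - a * (P' - M') ^ 2 - c * M') * (t - u) := mul_nonneg hBM' (by (clear * - hut; linarith))
    by_contra hcon
    have h6 : 0 ≤ (2 - a * (P' - t) ^ 2 - c * t) * (u - M') :=
      mul_nonneg (not_lt.mp hcon) (by (clear * - hu'; linarith))
    linarith
  have hCcase : ∀ u t, M ≤ u → u ≤ t → t < P → ee P' M' u - ee P M u ≤ 0 →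
      ee P' M' t - ee P M t ≤ 0 := by
    intro u t hu hut ht h
    have hMPlt : M < P := by (clear * - hu hut ht; linarith)
    have hQ : 0 < P ^ 2 - M ^ 2 := by (clear * - hq hqp' hP hpp' hqp hM hq' hu hut hq'0 ht; nlinarith)
    obtain ⟨b, hb⟩ : ∃ b, b = 2 / (P ^ 2 - M ^ 2) := ⟨_, rfl⟩
    have hab : a ≤ b := by
      rw [ha, hb]
      apply div_le_div_of_nonneg_left (by norm_num) hQ
      (clear * - hc hlt hsum hq hP hqp hq' hP' hqp'; nlinarith)
    have hC : ∀ s, M ≤ s → s ≤ P → ee P' M' s - ee P M s =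
        b * (P - s) ^ 2 - a * (P' - s) ^ 2 := by
      intro s h1 h2
      rw [ee_mid hM0 hP0 hMP h1 h2, ee_mid hM'0 hP'0 hM'P'.le (by (clear * - hP hM hP' hM' hPP' hpp' h1; linarith)) (by (clear * - hPP' h2; linarith)), ha, hb]
      ring
    rw [hC u hu (by (clear * - hut ht; linarith))] at h
    rw [hC t (by (clear * - hu hut; linarith)) ht.le]
    have hCP : b * (P - P) ^ 2 - a * (P' - P) ^ 2 ≤ 0 := by
      have : 0 ≤ a * (P' - P) ^ 2 := by positivity
      simp only [sub_self]
      (clear * - this; nlinarith)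
    have key : (b * (P - t) ^ 2 - a * (P' - t) ^ 2) * (P - u) =
        (b * (P - u) ^ 2 - a * (P' - u) ^ 2) * (P - t) +
        (b * (P - P) ^ 2 - a * (P' - P) ^ 2) * (t - u) - (b - a) * ((t - u) * (P - t) * (P - u)) := by
      ring
    have h1 : (b * (P - u) ^ 2 - a * (P' - u) ^ 2) * (P - t) ≤ 0 :=
      mul_nonpos_of_nonpos_of_nonneg h (by (clear * - ht; linarith))
    have h2 : (b * (P - P) ^ 2 - a * (P' - P) ^ 2) * (t - u) ≤ 0 :=
      mul_nonpos_of_nonpos_of_nonneg hCP (by (clear * - hut; linarith))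
    have h3 : 0 ≤ (b - a) * ((t - u) * (P - t) * (P - u)) := by
      apply mul_nonneg (by (clear * - hab; linarith))
      apply mul_nonneg (mul_nonneg _ _) <;> (clear * - hut ht; linarith)
    by_contra hcon
    have h4 : 0 < (b * (P - t) ^ 2 - a * (P' - t) ^ 2) * (P - u) :=
      mul_pos (not_le.mp hcon) (by (clear * - hut ht; linarith))
    (clear * - h1 h2 h3 h4; linarith)
  have SC : ∀ u t, 0 ≤ u → u ≤ t → ee P' M' u - ee P M u < 0 → ee P' M' t - ee P M t ≤ 0 := by
    intro u t hu0 hut h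
    rcases le_or_gt P t with hPt | hPt
    · rw [ee_high hM0 hP0 hMP hPt]
      (clear * - hle2; linarith [hle2 t])
    · rcases le_or_gt u M' with h1 | h1
      · have := hlow' u h1 hu0
        linarith
      · rcases le_or_gt t M with h2 | h2
        · rw [hB u h1.le (by (clear * - hut h2; linarith))] at h
          rw [hB t (by linarith) h2]
          exact (conc u t h1.le hut h).le
        · rcases le_or_gt u M with h3 | h3
          · rw [hB u h1.le h3] at h
            have h4 := conc u M h1.le h3 h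
            rw [← hB M hMM'.le le_rfl] at h4
            exact hCcase M t le_rfl h2.le hPt h4.le
          · exact hCcase u t h3.le hut hPt h.le
  have hDP : ee P' M' P - ee P M P < 0 := by
    rw [ee_high hM0 hP0 hMP le_rfl, ee_mid hM'0 hP'0 hM'P'.le (by (clear * - hq hP hP' hM' hPP' hpp'; linarith)) hPP'.le]
    have : 0 < 2 * (P' - P) ^ 2 / (P' ^ 2 - M' ^ 2) := by
      apply div_pos _ hQ'
      have : 0 < P' - P := by linarith
      positivity
    (clear * - this; linarith)
  obtain ⟨S, hS⟩ : ∃ S : Set ℝ, S = {s | 0 ≤ s ∧ ∀ u, 0 ≤ u → u ≤ s → 0 ≤ ee P' M' u - ee P M u} :=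
    ⟨_, rfl⟩
  have hS0 : (0:ℝ) ∈ S := by
    rw [hS]
    refine ⟨le_rfl, fun u h1 h2 => ?_⟩
    have : u = 0 := le_antisymm h2 h1
    subst this
    exact hlow' 0 hM'0 le_rfl
  have hbdd : BddAbove S := by
    refine ⟨P, fun s hs => ?_⟩
    rw [hS] at hs
    by_contra hcon
    have := hs.2 P hP0.le (not_le.mp hcon).le
    (clear * - hDP this; linarith)
  refine ⟨sSup S, le_csSup hbdd hS0, ?_, ?_⟩
  · have hlt : ∀ s, 0 ≤ s → s < sSup S → 0 ≤ ee P' M' s - ee P M s := by
      intro s h0 hs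
      obtain ⟨s', hs', h1⟩ := exists_lt_of_lt_csSup ⟨0, hS0⟩ hs
      rw [hS] at hs'
      exact hs'.2 s h0 h1.le
    intro s h0 hs
    rcases lt_or_eq_of_le hs with h | h
    · exact hlt s h0 h
    · rcases lt_or_eq_of_le h0 with h1 | h1
      · -- limit
        have hcl : IsClosed {s | 0 ≤ ee P' M' s - ee P M s} :=
          isClosed_le continuous_const hcont
        have hsub : Ico 0 s ⊆ {s | 0 ≤ ee P' M' s - ee P M s} := by
          intro x hx
          exact hlt x hx.1 (by rw [← h]; exact hx.2)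
        have h2 : closure (Ico 0 s) ⊆ {s | 0 ≤ ee P' M' s - ee P M s} :=
          hcl.closure_subset_iff.mpr hsub
        rw [closure_Ico (ne_of_lt h1)] at h2
        exact h2 ⟨h0, le_rfl⟩
      · rw [← h1]
        exact hlow' 0 hM'0 le_rfl
  · intro s hs
    have hs0 : 0 ≤ s := le_trans (le_csSup hbdd hS0) hs
    rcases lt_or_eq_of_le hs with h | h
    · have hns : s ∉ S := fun hmem => absurd (le_csSup hbdd hmem) (not_le.mpr h)
      rw [hS] at hns
      simp only [mem_ofPred_eq, not_and, not_forall] at hns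
      obtain ⟨u, hu0, hus, hu⟩ := hns hs0
      exact SC u s hu0 hus (not_le.mp hu)
    · -- s = sSup S, limit from the right
      have hcl : IsClosed {s | ee P' M' s - ee P M s ≤ 0} :=
        isClosed_le hcont continuous_const
      have hsub : Ioo s (s + 1) ⊆ {s | ee P' M' s - ee P M s ≤ 0} := by
        intro x hx
        have hx0 : 0 ≤ x := by (clear * - hs0 hx; linarith [hx.1])
        have hns : x ∉ S := fun hmem => absurd (le_csSup hbdd hmem) (not_le.mpr (by rw [h]; exact hx.1))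
        rw [hS] at hns
        simp only [mem_ofPred_eq, not_and, not_forall] at hns
        obtain ⟨u, hu0, hus, hu⟩ := hns hx0
        exact SC u x hu0 hus (not_le.mp hu)
      have h2 : closure (Ioo s (s + 1)) ⊆ {s | ee P' M' s - ee P M s ≤ 0} :=
        hcl.closure_subset_iff.mpr hsub
      rw [closure_Ioo (by (clear * -; linarith))] at h2
      exact h2 ⟨le_rfl, by (clear * -; linarith)⟩

theorem ee_integral_aux {p q : ℝ} (hp : 0 < p) (hq : 0 ≤ q) (hqp : q ≤ p) {L : ℝ}
    (hL : p + q ≤ L) (k : ℕ) :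
    ∫ s in (0:ℝ)..L, s ^ k * ee (p + q) (p - q) s =
      2 / p * ((p - q) ^ (k + 2) / (k + 2)) +
      (2 * (((p + q) ^ (k + 1) - (p - q) ^ (k + 1)) / (k + 1)) - 1 / (2 * p * q) *
        ((p + q) ^ 2 * (((p + q) ^ (k + 1) - (p - q) ^ (k + 1)) / (k + 1)) -
          2 * (p + q) * (((p + q) ^ (k + 2) - (p - q) ^ (k + 2)) / (k + 2)) +
          ((p + q) ^ (k + 3) - (p - q) ^ (k + 3)) / (k + 3))) +
      2 * ((L ^ (k + 1) - (p + q) ^ (k + 1)) / (k + 1)) := by
  have hM0 : 0 ≤ p - q := by linarith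
  have hP0 : 0 < p + q := by linarith
  have hMP : p - q ≤ p + q := by linarith
  have hcont : Continuous (fun s : ℝ => s ^ k * ee (p + q) (p - q) s) :=
    (continuous_pow k).mul (ee_continuous hM0 hP0 hMP)
  have hint : ∀ a b : ℝ, IntervalIntegrable (fun s : ℝ => s ^ k * ee (p + q) (p - q) s) volume a b :=
    fun a b => hcont.intervalIntegrable a b
  rw [← intervalIntegral.integral_add_adjacent_intervals (hint 0 (p + q)) (hint (p + q) L),
    ← intervalIntegral.integral_add_adjacent_intervals (hint 0 (p - q)) (hint (p - q) (p + q))]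
  have e1 : ∫ s in (0:ℝ)..(p - q), s ^ k * ee (p + q) (p - q) s =
      2 / p * ((p - q) ^ (k + 2) / (k + 2)) := by
    have : ∫ s in (0:ℝ)..(p - q), s ^ k * ee (p + q) (p - q) s =
        ∫ s in (0:ℝ)..(p - q), 2 / p * s ^ (k + 1) := by
      apply intervalIntegral.integral_congr
      intro s hs
      rw [uIcc_of_le hM0] at hs
      simp only
      rw [ee_low hs.2]
      have : p + q + (p - q) = 2 * p := by ring
      rw [this]
      field_simp
      ring
    rw [this, intervalIntegral.integral_const_mul, integral_pow]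
    push_cast
    rw [zero_pow (by omega)]
    ring
  have e2 : ∫ s in (p - q)..(p + q), s ^ k * ee (p + q) (p - q) s =
      (2 * (((p + q) ^ (k + 1) - (p - q) ^ (k + 1)) / (k + 1)) - 1 / (2 * p * q) *
        ((p + q) ^ 2 * (((p + q) ^ (k + 1) - (p - q) ^ (k + 1)) / (k + 1)) -
          2 * (p + q) * (((p + q) ^ (k + 2) - (p - q) ^ (k + 2)) / (k + 2)) +
          ((p + q) ^ (k + 3) - (p - q) ^ (k + 3)) / (k + 3))) := by
    have : ∫ s in (p - q)..(p + q), s ^ k * ee (p + q) (p - q) s =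
        ∫ s in (p - q)..(p + q), (2 * s ^ k - 1 / (2 * p * q) *
          ((p + q) ^ 2 * s ^ k - 2 * (p + q) * s ^ (k + 1) + s ^ (k + 2))) := by
      apply intervalIntegral.integral_congr
      intro s hs
      rw [uIcc_of_le hMP] at hs
      simp only
      rw [ee_mid hM0 hP0 hMP hs.1 hs.2]
      have : (p + q) ^ 2 - (p - q) ^ 2 = 4 * (p * q) := by ring
      rw [this]
      have h2 : 2 * (p + q - s) ^ 2 / (4 * (p * q)) = 1 / (2 * p * q) * (p + q - s) ^ 2 := by
        rcases eq_or_ne q 0 with h | h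
        · simp [h]
        · field_simp
          ring
      rw [h2]
      ring
    rw [this, intervalIntegral.integral_sub, intervalIntegral.integral_const_mul,
      intervalIntegral.integral_const_mul, intervalIntegral.integral_add,
      intervalIntegral.integral_sub, intervalIntegral.integral_const_mul,
      intervalIntegral.integral_const_mul, integral_pow, integral_pow, integral_pow]
    · push_cast
      ring
    all_goals exact Continuous.intervalIntegrable (by fun_prop) _ _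
  have e3 : ∫ s in (p + q)..L, s ^ k * ee (p + q) (p - q) s =
      2 * ((L ^ (k + 1) - (p + q) ^ (k + 1)) / (k + 1)) := by
    have : ∫ s in (p + q)..L, s ^ k * ee (p + q) (p - q) s = ∫ s in (p + q)..L, 2 * s ^ k := by
      apply intervalIntegral.integral_congr
      intro s hs
      rw [uIcc_of_le hL] at hs
      simp only
      rw [ee_high hM0 hP0 hMP hs.1]
      ring
    rw [this, intervalIntegral.integral_const_mul, integral_pow]
  rw [e1, e2, e3]

theorem ee_integral {p q : ℝ} (hp : 0 < p) (hq : 0 ≤ q) (hqp : q ≤ p) {L : ℝ} (hL : p + q ≤ L) :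
    (∫ s in (0:ℝ)..L, s * ee (p + q) (p - q) s = L ^ 2 - (p ^ 2 + q ^ 2) / 3) ∧
    (∫ s in (0:ℝ)..L, s ^ 3 * ee (p + q) (p - q) s =
      L ^ 4 / 2 - ((p ^ 4 + q ^ 4) / 5 + 2 / 3 * (p * q) ^ 2) / 2) ∧
    (∫ s in (0:ℝ)..L, s ^ 5 * ee (p + q) (p - q) s =
      L ^ 6 / 3 - ((p ^ 6 + q ^ 6) / 7 + (p * q) ^ 2 * (p ^ 2 + q ^ 2)) / 3) := by
  have h1 := ee_integral_aux hp hq hqp hL 1
  have h3 := ee_integral_aux hp hq hqp hL 3
  have h5 := ee_integral_aux hp hq hqp hL 5
  simp only [pow_one] at h1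
  rw [h1, h3, h5]
  rcases eq_or_ne q 0 with h | h
  · subst h
    refine ⟨?_, ?_, ?_⟩
    all_goals
      push_cast
      simp only [sub_zero, add_zero, sub_self, zero_div, mul_zero]
      field_simp
      ring
  · refine ⟨?_, ?_, ?_⟩
    all_goals
      push_cast
      field_simp
      ring

end Pool.Agent.M18.Slab
end

/- Helper89.Slab.Base -/
section
/-!
Slabs of the cube (problem MP_66ebcc_gt): the basic member of the shape class.
-/

namespace Pool.Agent.M18.Slab

open MeasureTheory Set intervalIntegral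

/-- integral of an even function of compact support -/
theorem base_integral_even {f : ℝ → ℝ} (hf : Continuous f) (he : ∀ s, f (-s) = f s) {L : ℝ}
    (hs : ∀ s, L ≤ |s| → f s = 0) : ∫ s, f s = 2 * ∫ s in (0:ℝ)..L, f s := by
  have h1 : ∫ s in (-L)..L, f s = ∫ s, f s := by
    apply integral_eq_integral_of_support_subset
    intro s hs'
    rw [Function.mem_support] at hs'
    have : |s| < L := by
      by_contra h
      exact hs' (hs s (not_lt.mp h))
    rw [abs_lt] at this
    exact ⟨this.1, this.2.le⟩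
  have h2 : ∫ s in (-L)..0, f s = ∫ s in (0:ℝ)..L, f s := by
    have := intervalIntegral.integral_comp_neg (a := 0) (b := L) (f := f)
    rw [neg_zero] at this
    rw [← this]
    exact intervalIntegral.integral_congr (fun s _ => he s)
  rw [← h1, ← integral_add_adjacent_intervals (hf.intervalIntegrable (-L) 0)
    (hf.intervalIntegrable 0 L), h2]
  ring

/-- integration by parts -/
theorem base_by_parts {r D : ℝ → ℝ} (h : ∀ s, HasDerivAt r (D s) s) (hD : Continuous D) {L : ℝ}
    (hL : r L = 0) (k : ℕ) :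
    ∫ s in (0:ℝ)..L, s ^ k * r s = -(1 / ((k : ℝ) + 1)) * ∫ s in (0:ℝ)..L, s ^ (k + 1) * D s := by
  have hr : Continuous r := continuous_iff_continuousAt.mpr (fun s => (h s).continuousAt)
  have hd : ∀ s : ℝ, HasDerivAt (fun s : ℝ => s ^ (k + 1) * r s)
      (((k : ℝ) + 1) * s ^ k * r s + s ^ (k + 1) * D s) s := by
    intro s
    have h1 := (hasDerivAt_pow (k + 1) s).fun_mul (h s)
    rw [Nat.add_sub_cancel] at h1
    push_cast at h1
    exact h1
  have e := integral_eq_sub_of_hasDerivAt (a := (0:ℝ)) (b := L)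
    (f := fun s : ℝ => s ^ (k + 1) * r s)
    (f' := fun s => ((k : ℝ) + 1) * s ^ k * r s + s ^ (k + 1) * D s) (fun s _ => hd s)
    (Continuous.intervalIntegrable (by fun_prop) _ _)
  rw [intervalIntegral.integral_add (Continuous.intervalIntegrable (by fun_prop) _ _)
    (Continuous.intervalIntegrable (by fun_prop) _ _), hL] at e
  have e2 : ∫ s in (0:ℝ)..L, ((k : ℝ) + 1) * s ^ k * r s
      = ((k : ℝ) + 1) * ∫ s in (0:ℝ)..L, s ^ k * r s := by
    rw [← intervalIntegral.integral_const_mul]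
    congr 1
    ext s
    ring
  rw [e2] at e
  have hk : (k : ℝ) + 1 ≠ 0 := by (clear * -; positivity)
  have e3 : (0:ℝ) ^ (k + 1) = 0 := by simp
  rw [e3] at e
  field_simp
  linarith

theorem exists_base {p q p' q' : ℝ} (hq : 0 ≤ q) (hqp : q ≤ p) (hq' : 0 ≤ q') (hqp' : q' ≤ p')
    (hc : p ^ 2 + q ^ 2 = p' ^ 2 + q' ^ 2) (hlt : p * q < p' * q') :
    ∃ r : ℝ → ℝ, Sh r ∧ (∀ s, HasDerivAt r (A p (A q H) s - A p' (A q' H) s) s) ∧
      0 < (∫ s, s ^ 2 * r s) ∧
      ∫ s, s ^ 4 * r s = 6 / 7 * (p ^ 2 + q ^ 2) * ∫ s, s ^ 2 * r s := by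
  have hpq : 0 ≤ p * q := mul_nonneg (hq.trans hqp) hq
  have hpq' : 0 < p' * q' := lt_of_le_of_lt hpq hlt
  have hp' : 0 < p' := by
    rcases lt_or_eq_of_le (hq'.trans hqp') with h | h
    · exact h
    · rw [← h] at hpq'; simp at hpq'
  have hq'0 : 0 < q' := by
    rcases lt_or_eq_of_le hq' with h | h
    · exact h
    · rw [← h] at hpq'; simp at hpq'
  have hp : 0 < p := by
    rcases lt_or_eq_of_le (hq.trans hqp) with h | h
    · exact h
    · exfalso
      have hq0 : q = 0 := le_antisymm (by rw [h]; exact hqp) hq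
      rw [← h, hq0] at hc
      nlinarith [sq_nonneg q', pow_pos hp' 2]
  have c1 : Continuous (A p (A q H)) := AAH_continuous hp hq
  have c2 : Continuous (A p' (A q' H)) := AAH_continuous hp' hq'
  -- the two sums
  have hPP : p + q < p' + q' := by
    have : (p + q) ^ 2 < (p' + q') ^ 2 := by (clear * - hc hlt; nlinarith)
    exact lt_of_pow_lt_pow_left₀ 2 (by positivity) this
  set L : ℝ := p' + q' with hLdef
  have hL : 0 < L := by positivity
  set D : ℝ → ℝ := fun s => A p (A q H) s - A p' (A q' H) s with hDdef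
  have hDc : Continuous D := c1.sub c2
  have hDodd : ∀ s, D (-s) = - D s := by
    intro s
    simp only [hDdef]
    rw [AAH_neg hp hq, AAH_neg hp' hq']
    ring
  have hDee : ∀ s, 0 ≤ s → D s = ee (p' + q') (p' - q') s - ee (p + q) (p - q) s := by
    intro s hs
    simp only [hDdef]
    rw [AAH_eq hp hq hqp hs, AAH_eq hp' hq' hqp' hs]
    ring
  have hD0 : ∀ s, L ≤ s → D s = 0 := by
    intro s hs
    rw [hDee s (hL.le.trans hs)]
    have a1 : ee (p + q) (p - q) s = 2 := by
      unfold ee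
      rw [if_neg (by (clear * - hq hPP hs; linarith)), if_neg (by linarith)]
    have a2 : ee (p' + q') (p' - q') s = 2 := by
      unfold ee
      rw [if_neg (by (clear * - hq'0 hs; linarith))]
      split_ifs with h
      · have : s = p' + q' := le_antisymm h hs
        rw [this]; simp
      · rfl
    rw [a1, a2]; ring
  obtain ⟨z, hz0, hz1, hz2⟩ := ee_sub_sign hq hqp hq' hqp' hc hlt
  -- the function
  set r : ℝ → ℝ := fun s => ∫ x in L..s, D x with hrdef
  have hr : ∀ s, HasDerivAt r (D s) s := fun s =>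
    integral_hasDerivAt_right (hDc.intervalIntegrable _ _)
      (hDc.stronglyMeasurableAtFilter _ _) hDc.continuousAt
  have hrc : Continuous r := continuous_iff_continuousAt.mpr (fun s => (hr s).continuousAt)
  have hr0 : ∀ s, L ≤ s → r s = 0 := by
    intro s hs
    simp only [hrdef]
    rw [intervalIntegral.integral_congr (g := fun _ => (0:ℝ))]
    · simp
    · intro x hx
      rw [uIcc_of_le hs] at hx
      exact hD0 x hx.1
  have hre : ∀ s, r (-s) = r s := by
    intro s
    have h1 : r (-s) - r s = ∫ x in s..(-s), D x := by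
      simp only [hrdef]
      have := integral_add_adjacent_intervals (hDc.intervalIntegrable (μ := volume) L s)
        (hDc.intervalIntegrable s (-s))
      (clear * - this; linarith)
    have h2 : ∫ x in s..(-s), D x = -∫ x in s..(-s), D x := by
      have h3 := intervalIntegral.integral_comp_neg (a := s) (b := -s) (f := D)
      rw [neg_neg] at h3
      conv_lhs => rw [← h3]
      rw [← intervalIntegral.integral_neg]
      exact intervalIntegral.integral_congr (fun x _ => hDodd x)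
    (clear * - h1 h2; linarith)
  have hrs : ∀ s, L ≤ |s| → r s = 0 := by
    intro s hs
    rcases le_total 0 s with h | h
    · rw [abs_of_nonneg h] at hs
      exact hr0 s hs
    · rw [abs_of_nonpos h] at hs
      rw [← hre s]
      exact hr0 _ hs
  -- moments of D
  obtain ⟨i1, i3, i5⟩ := ee_integral hp hq hqp (L := L) hPP.le
  obtain ⟨j1, j3, j5⟩ := ee_integral hp' hq' hqp' (L := L) le_rfl
  have mD : ∀ k : ℕ, ∫ s in (0:ℝ)..L, s ^ k * D s =
      (∫ s in (0:ℝ)..L, s ^ k * ee (p' + q') (p' - q') s) -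
        ∫ s in (0:ℝ)..L, s ^ k * ee (p + q) (p - q) s := by
    intro k
    have e1 : ∫ s in (0:ℝ)..L, s ^ k * ee (p' + q') (p' - q') s =
        ∫ s in (0:ℝ)..L, s ^ k * (2 - A p' (A q' H) s) := by
      apply intervalIntegral.integral_congr
      intro s hs
      rw [uIcc_of_le hL.le] at hs
      show s ^ k * ee (p' + q') (p' - q') s = s ^ k * (2 - A p' (A q' H) s)
      rw [AAH_eq hp' hq' hqp' hs.1]
      ring
    have e2 : ∫ s in (0:ℝ)..L, s ^ k * ee (p + q) (p - q) s =
        ∫ s in (0:ℝ)..L, s ^ k * (2 - A p (A q H) s) := by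
      apply intervalIntegral.integral_congr
      intro s hs
      rw [uIcc_of_le hL.le] at hs
      show s ^ k * ee (p + q) (p - q) s = s ^ k * (2 - A p (A q H) s)
      rw [AAH_eq hp hq hqp hs.1]
      ring
    rw [e1, e2, ← intervalIntegral.integral_sub
      (Continuous.intervalIntegrable (by fun_prop) _ _)
      (Continuous.intervalIntegrable (by fun_prop) _ _)]
    apply intervalIntegral.integral_congr
    intro s _
    simp only [hDdef]
    ring
  have i1' : ∫ s in (0:ℝ)..L, s ^ 1 * ee (p + q) (p - q) s = L ^ 2 - (p ^ 2 + q ^ 2) / 3 := by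
    simpa using i1
  have j1' : ∫ s in (0:ℝ)..L, s ^ 1 * ee (p' + q') (p' - q') s
      = L ^ 2 - (p' ^ 2 + q' ^ 2) / 3 := by
    simpa using j1
  -- moments of r
  have m0 : ∫ s, r s = 0 := by
    rw [base_integral_even hrc hre hrs]
    have := base_by_parts hr hDc (hr0 L le_rfl) 0
    simp only [pow_zero, one_mul, zero_add] at this
    rw [this, mD 1, i1', j1', hc]
    ring
  have m2 : ∫ s, s ^ 2 * r s = 4 / 45 * ((p' * q') ^ 2 - (p * q) ^ 2) := by
    rw [base_integral_even (f := fun s => s ^ 2 * r s) (by fun_prop)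
      (fun s => by simp only [hre s]; ring) (fun s hs => by simp only [hrs s hs]; ring)]
    rw [base_by_parts hr hDc (hr0 L le_rfl) 2, mD 3, i3, j3]
    push_cast
    have e : p' ^ 2 = p ^ 2 + q ^ 2 - q' ^ 2 := by (clear * - hc; linarith)
    have e4 : p' ^ 4 = (p ^ 2 + q ^ 2 - q' ^ 2) ^ 2 := by rw [← e]; ring
    have e5 : (p' * q') ^ 2 = (p ^ 2 + q ^ 2 - q' ^ 2) * q' ^ 2 := by rw [← e]; ring
    rw [e4, e5]
    ring
  have m4 : ∫ s, s ^ 4 * r s =
      8 / 105 * (p ^ 2 + q ^ 2) * ((p' * q') ^ 2 - (p * q) ^ 2) := by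
    rw [base_integral_even (f := fun s => s ^ 4 * r s) (by fun_prop)
      (fun s => by simp only [hre s]; ring) (fun s hs => by simp only [hrs s hs]; ring)]
    rw [base_by_parts hr hDc (hr0 L le_rfl) 4, mD 5, i5, j5]
    push_cast
    have e : p' ^ 2 = p ^ 2 + q ^ 2 - q' ^ 2 := by (clear * - hc; linarith)
    have e4 : p' ^ 6 = (p ^ 2 + q ^ 2 - q' ^ 2) ^ 3 := by rw [← e]; ring
    have e5 : (p' * q') ^ 2 = (p ^ 2 + q ^ 2 - q' ^ 2) * q' ^ 2 := by rw [← e]; ring
    rw [e4, e5, e]
    ring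
  have hΔ : 0 < (p' * q') ^ 2 - (p * q) ^ 2 := by (clear * - hlt hpq; nlinarith)
  -- monotonicity of r
  have hDz1 : ∀ s, 0 ≤ s → s ≤ z → 0 ≤ D s := fun s h1 h2 => by rw [hDee s h1]; exact hz1 s h1 h2
  have hDz2 : ∀ s, z ≤ s → D s ≤ 0 := fun s h1 => by
    rw [hDee s (hz0.trans h1)]; exact hz2 s h1
  have mono : MonotoneOn r (Icc 0 z) := by
    apply monotoneOn_of_deriv_nonneg (convex_Icc 0 z) hrc.continuousOn
      (fun s _ => (hr s).differentiableAt.differentiableWithinAt)
    intro s hs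
    rw [interior_Icc] at hs
    rw [(hr s).deriv]
    exact hDz1 s hs.1.le hs.2.le
  have anti : AntitoneOn r (Ici z) := by
    apply antitoneOn_of_deriv_nonpos (convex_Ici z) hrc.continuousOn
      (fun s _ => (hr s).differentiableAt.differentiableWithinAt)
    intro s hs
    rw [interior_Ici] at hs
    rw [(hr s).deriv]
    exact hDz2 s (le_of_lt hs)
  have hpos : ∀ s, z ≤ s → 0 ≤ r s := by
    intro s hs
    have h1 : r (max s L) = 0 := hr0 _ (le_max_right _ _)
    rw [← h1]
    exact anti hs (hs.trans (le_max_left _ _)) (le_max_left _ _)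
  have hr00 : r 0 ≤ 0 := by
    by_contra hcon
    push Not at hcon
    have hge : ∀ s, 0 ≤ s → 0 ≤ r s := by
      intro s hs
      rcases le_total s z with h | h
      · exact hcon.le.trans (mono ⟨le_rfl, hz0⟩ ⟨hs, h⟩ hs)
      · exact hpos s h
    have h1 : 0 < ∫ s in (0:ℝ)..L, r s :=
      intervalIntegral.integral_pos hL hrc.continuousOn (fun s hs => hge s hs.1.le)
        ⟨0, ⟨le_rfl, hL.le⟩, hcon⟩
    have h2 := base_integral_even hrc hre hrs
    rw [m0] at h2
    (clear * - h1 h2; linarith)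
  have hs1 : ∃ s₁ ∈ Icc (0:ℝ) z, r s₁ = 0 := by
    have := intermediate_value_Icc hz0 hrc.continuousOn (show (0:ℝ) ∈ Icc (r 0) (r z) from
      ⟨hr00, hpos z le_rfl⟩)
    obtain ⟨s, hs, hs'⟩ := this
    exact ⟨s, hs, hs'⟩
  obtain ⟨s₁, ⟨hs10, hs1z⟩, hs1r⟩ := hs1
  refine ⟨r, ⟨hrc, hre, ⟨L, hrs⟩, m0, ⟨s₁, z, hs10, hs1z, ?_, ?_, ?_, anti⟩⟩, hr, ?_, ?_⟩
  · intro s h1 h2
    rw [← hs1r]
    exact mono ⟨h1, h2.trans hs1z⟩ ⟨hs10, hs1z⟩ h2
  · intro s h1
    rcases le_total s z with h | h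
    · rw [← hs1r]
      exact mono ⟨hs10, hs1z⟩ ⟨hs10.trans h1, h⟩ h1
    · exact hpos s h
  · exact mono.mono (Icc_subset_Icc_left hs10)
  · rw [m2]; (clear * - hΔ; positivity)
  · rw [m2, m4]; ring

end Pool.Agent.M18.Slab
end
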