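import Mathlib
import Pool.Agent.Helper53.AM.G01

/- Helper95.SP.Crude.Adm2a2 -/
section
set_option autoImplicit false

namespace Pool.Agent.M18.Helper95.SP.Crude

theorem subB13 : ∀ i < 300, subB 13 (1200 + i) = true := by decide +kernel
theorem subB15 : ∀ i < 300, subB 15 (1200 + i) = true := by decide +kernel
theorem subB17 : ∀ i < 300, subB 17 (1200 + i) = true := by decide +kernel
theorem subB19 : ∀ i < 300, subB 19 (1200 + i) = true := by decide +kernel

end Pool.Agent.M18.Helper95.SP.Crude
end

/- Helper95.SP.Crude.Adm2b2 -/
section
set_option autoImplicit false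

namespace Pool.Agent.M18.Helper95.SP.Crude

theorem subA15 : ∀ i < 391, subA 15 (209 + i) = true := by decide +kernel
theorem subA17 : ∀ i < 416, subA 17 (184 + i) = true := by decide +kernel
theorem subA19 : ∀ i < 435, subA 19 (165 + i) = true := by decide +kernel

end Pool.Agent.M18.Helper95.SP.Crude
end
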