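import Mathlib
import Mathlib.Data.Rat.Cast.Order
import Mathlib.Data.Rat.Floor
import Pool.Agent.Helper53.AM.G01

/- Helper89.SP.Defs -/
section
/-!
Project SP: full answer to Q1 of MP_66ebcc_gt.  Definitions.
-/

set_option autoImplicit false

open MeasureTheory Set Real Pool.Agent.M18.Slab

namespace Pool.Agent.M18.Helper89.SP

/-- the sum of squares -/
noncomputable def sq (L : List ℝ) : ℝ := (L.map fun x => x ^ 2).sum

/-- the sum of fourth powers -/
noncomputable def qd (L : List ℝ) : ℝ := (L.map fun x => x ^ 4).sum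

/-- `T L t = P(|∑ xᵢ Uᵢ| > t)` (for `t ≥ 0`) -/
noncomputable def T (L : List ℝ) (t : ℝ) : ℝ := 2 * AL L H t / 2 ^ L.length

/-- `P l s = P(∑ xᵢ Uᵢ > s)` -/
noncomputable def P (l : List ℝ) (s : ℝ) : ℝ := AL l H s / 2 ^ l.length

/-- the value of `f₃` -/
noncomputable def Mf (t : ℝ) : ℝ := (3 - √3 * t) ^ 3 / 24

/-- the value of `f₄` -/
noncomputable def T4 (t : ℝ) : ℝ := (2 - t) ^ 4 / 12

/-- the value of `f₅` -/
noncomputable def T5 (t : ℝ) : ℝ := ((5 - √5 * t) ^ 5 - 5 * max (3 - √5 * t) 0 ^ 5) / 1920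

/-- `L` is a maximiser of `T · t` among the nonnegative unit vectors of length `n`, with minimal sum
of fourth powers among the maximisers, in decreasing order. -/
structure MaxL (n : ℕ) (t : ℝ) (L : List ℝ) : Prop where
  len : L.length = n
  nonneg : ∀ x ∈ L, 0 ≤ x
  unit : sq L = 1
  best : ∀ L' : List ℝ, L'.length = n → (∀ x ∈ L', 0 ≤ x) → sq L' = 1 → T L' t ≤ T L t
  tie : ∀ L' : List ℝ, L'.length = n → (∀ x ∈ L', 0 ≤ x) → sq L' = 1 → T L' t = T L t →
    qd L ≤ qd L'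
  sorted : L.Pairwise fun a b => b ≤ a

/-- the critical identity at the coordinate `x`, the other coordinates being `l` -/
def Crit (t x : ℝ) (l : List ℝ) : Prop :=
  T (x :: l) t = (1 - t * x) * P l (t - x) + (1 + t * x) * P l (t + x)

/-- variance of the rest -/
noncomputable def vv (p q r : ℝ) : ℝ := (1 - p ^ 2 - q ^ 2 - r ^ 2) / 3

/-- the sixth moment bound of `E(Y-s)₊²` -/
noncomputable def Kb (v s : ℝ) : ℝ := 0.1647 * v ^ 3 / s ^ 4

/-- the three bounds of `8 q r T` -/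
noncomputable def Gi (t p q r : ℝ) : ℝ :=
  (1 - t * p) * ((p + q + r - t) ^ 2 + vv p q r) +
    max (4 * (t * p) - 2) 0 * Kb (vv p q r) (t + p - q - r) +
    (1 - t * p) * Kb (vv p q r) (t - p + q + r)

noncomputable def Gii (k t p q r : ℝ) : ℝ :=
  (1 - t * p) * ((p + q + r - t) ^ 2 * (1 + k / 2) + vv p q r * (1 / 2 + 1 / (2 * k))) +
    (3 * (t * p) - 1) * Kb (vv p q r) (t + p - q - r) +
    (1 - t * p) * Kb (vv p q r) (t - p + q + r)

noncomputable def Giii (t p q r : ℝ) : ℝ :=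
  (1 - t * p) * (vv p q r / 2) +
    (3 * (t * p) - 1) * Kb (vv p q r) (t + p - q - r) +
    (1 - t * p) * Kb (vv p q r) (t - p + q + r)

/-- the three coordinates `p, q, r` are worse than the value `F` -/
def Beats (t p q r F : ℝ) : Prop :=
  Gi t p q r < 8 * (q * r) * F ∨
  (0 ≤ p + q + r - t ∧ ∃ k : ℝ, 0 < k ∧ Gii k t p q r < 8 * (q * r) * F) ∨
  (p + q + r - t ≤ 0 ∧ Giii t p q r < 8 * (q * r) * F)

/-- the bound of `E(Y-s)₊³` -/
noncomputable def Cb (v s : ℝ) : ℝ :=
  min (0.1583 * v ^ 2 / s) (min (0.1172 * v ^ 3 / s ^ 3) (0.2641 * v ^ 4 / s ^ 5))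

/-- four equal coordinates `x` are worse than the value `F` -/
def Beats4 (t x F : ℝ) : Prop :=
  (1 - t * x) * ((4 * x - t) ^ 3 + (4 * x - t) * (1 - 4 * x ^ 2)) +
    (1 - t * x) * Cb ((1 - 4 * x ^ 2) / 3) (4 * x - t) +
    max (4 * (t * x) - 2) 0 * Cb ((1 - 4 * x ^ 2) / 3) (t - 2 * x) +
    (2 + 4 * (t * x)) * Cb ((1 - 4 * x ^ 2) / 3) (t + 2 * x) < 48 * x ^ 3 * F

/-- upper bound of `P(|Y| > s σ)`, `σ²` the sum of the squares -/
noncomputable def Phat (s : ℝ) : ℝ :=
  if s ≤ 2 * √2 - 2 then 1 - s else if s ≤ 1.0129 then (√2 - s) ^ 2 / 2 else 0.0806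

/-- the lines -/
noncomputable def S0 (p : ℝ) : ℝ := 0.952 - 0.4 * (p - 0.478)
noncomputable def S1 (p : ℝ) : ℝ := 0.975 - 0.2 * (p - 0.4875)
noncomputable def S2 (p : ℝ) : ℝ := 0.993 - 0.6 * (p - 0.4975)
noncomputable def S3 (p : ℝ) : ℝ := 1.008 - 1.5 * (p - 0.5065)
noncomputable def S4 (p : ℝ) : ℝ := 1.016 - 1.4 * (p - 0.5125)
noncomputable def S5 (p : ℝ) : ℝ := 1.02 - 1.0 * (p - 0.5275)
noncomputable def S6 (p : ℝ) : ℝ := 1.066 - 2.6 * (p - 0.535)

end Pool.Agent.M18.Helper89.SP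
end

/- Helper96.Slab.Perm -/
section
/-!
The operators `A x` commute and depend on `|x|` only (module S8 of the project SLAB).
-/

namespace Pool.Agent.M18.Slab

open MeasureTheory Set

namespace Perm

/-- bounded measurable functions -/
def Nice (φ : ℝ → ℝ) : Prop := Measurable φ ∧ ∃ C : ℝ, ∀ s, |φ s| ≤ C

theorem A_eq (x : ℝ) (φ : ℝ → ℝ) (s : ℝ) :
    A x φ s = ∫ u in Ioc (-1 : ℝ) 1, φ (s - x * u) := by
  unfold A
  exact intervalIntegral.integral_of_le (by norm_num)

theorem nice_A {φ : ℝ → ℝ} (h : Nice φ) (x : ℝ) : Nice (A x φ) := by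
  obtain ⟨hm, C, hC⟩ := h
  refine ⟨?_, 2 * C, ?_⟩
  · have h1 : A x φ = fun s => ∫ u, φ (s - x * u) ∂(volume.restrict (Ioc (-1 : ℝ) 1)) := by
      funext s; exact A_eq x φ s
    rw [h1]
    have h2 : StronglyMeasurable (Function.uncurry fun s u : ℝ => φ (s - x * u)) := by
      apply Measurable.stronglyMeasurable
      exact hm.comp (by fun_prop)
    exact h2.integral_prod_right.measurable
  · intro s
    unfold A
    have := intervalIntegral.norm_integral_le_of_norm_le_const (a := (-1 : ℝ)) (b := 1) (C := C)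
      (f := fun u => φ (s - x * u)) (fun u _ => hC _)
    rw [Real.norm_eq_abs] at this
    refine this.trans (le_of_eq ?_)
    norm_num
    ring

theorem nice_H : Nice H := by
  refine ⟨?_, 1, ?_⟩
  · unfold H
    exact Measurable.ite (measurableSet_Iio) measurable_const measurable_const
  · intro s
    unfold H
    split <;> simp

theorem nice_AL (l : List ℝ) : Nice (AL l H) := by
  induction l with
  | nil => exact nice_H
  | cons x l ih => rw [AL_cons]; exact nice_A ih x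

theorem swap {φ : ℝ → ℝ} (h : Nice φ) (x y : ℝ) : A x (A y φ) = A y (A x φ) := by
  obtain ⟨hm, C, hC⟩ := h
  funext s
  rw [A_eq, A_eq]
  have e1 : ∀ u, A y φ (s - x * u) = ∫ v in Ioc (-1 : ℝ) 1, φ (s - x * u - y * v) := fun u =>
    A_eq y φ _
  have e2 : ∀ v, A x φ (s - y * v) = ∫ u in Ioc (-1 : ℝ) 1, φ (s - y * v - x * u) := fun u =>
    A_eq x φ _
  simp only [e1, e2]
  have hint : Integrable (Function.uncurry fun u v : ℝ => φ (s - x * u - y * v))
      ((volume.restrict (Ioc (-1 : ℝ) 1)).prod (volume.restrict (Ioc (-1 : ℝ) 1))) := by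
    refine Integrable.of_bound (C := C) ?_ ?_
    · exact (hm.comp (by fun_prop)).aestronglyMeasurable
    · exact Filter.Eventually.of_forall fun p => hC _
  rw [integral_integral_swap hint]
  refine integral_congr_ae (Filter.Eventually.of_forall fun v => ?_)
  refine integral_congr_ae (Filter.Eventually.of_forall fun u => ?_)
  change φ (s - x * u - y * v) = φ (s - y * v - x * u)
  congr 1
  ring

theorem A_neg (x : ℝ) (φ : ℝ → ℝ) : A (-x) φ = A x φ := by
  funext s
  unfold A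
  have := intervalIntegral.integral_comp_neg (a := (-1 : ℝ)) (b := 1) (fun u => φ (s - x * u))
  rw [neg_neg] at this
  rw [← this]
  refine intervalIntegral.integral_congr fun u _ => ?_
  change φ (s - -x * u) = φ (s - x * -u)
  congr 1
  ring

theorem A_abs (x : ℝ) (φ : ℝ → ℝ) : A |x| φ = A x φ := by
  rcases abs_choice x with h | h
  · rw [h]
  · rw [h, A_neg]

end Perm

theorem AL_perm {l l' : List ℝ} (h : l.Perm l') : AL l H = AL l' H := by
  induction h with
  | nil => rfl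
  | cons x _ ih => rw [AL_cons, AL_cons, ih]
  | swap x y l => rw [AL_cons, AL_cons, AL_cons, AL_cons]; exact Perm.swap (Perm.nice_AL l) y x
  | trans _ _ ih1 ih2 => exact ih1.trans ih2

theorem AL_abs (l : List ℝ) : AL (l.map (fun x => |x|)) H = AL l H := by
  induction l with
  | nil => rfl
  | cons x l ih => rw [List.map_cons, AL_cons, AL_cons, ih, Perm.A_abs]

end Pool.Agent.M18.Slab
end

/- Helper55.SP.PsiPhi -/
section
/-!
Project SP: the definitions of `Psi` and `Phi`.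
-/

set_option autoImplicit false

open MeasureTheory Set Real Pool.Agent.M18.Slab

namespace Pool.Agent.M18.Helper89.SP

/-- `E (Y + m)₊²` -/
noncomputable def Psi (l : List ℝ) (m : ℝ) : ℝ :=
  AL l (fun s => max (-s) 0 ^ 2) (-m) / 2 ^ l.length

/-- `E (Y + m)₊³` -/
noncomputable def Phi (l : List ℝ) (m : ℝ) : ℝ :=
  AL l (fun s => max (-s) 0 ^ 3) (-m) / 2 ^ l.length

end Pool.Agent.M18.Helper89.SP
end

/- Helper65.Slab.DerivNonpos -/
section
/-!
SLAB-S3: for a function of the shape class, a moment inequality bounds the mode.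
-/

set_option autoImplicit false

namespace Pool.Agent.M18.Slab

open MeasureTheory Set

private theorem r_abs {r : ℝ → ℝ} (h : Sh r) (s : ℝ) : r s = r |s| := by
  rcases abs_choice s with h' | h'
  · rw [h']
  · rw [h', h.even]

private theorem compSupp {r : ℝ → ℝ} (h : Sh r) : HasCompactSupport r := by
  obtain ⟨L, hL⟩ := h.supp
  apply HasCompactSupport.intro (K := Icc (-|L|) |L|) isCompact_Icc
  intro s hs
  apply hL
  by_contra hcon
  push Not at hcon
  apply hs
  rw [mem_Icc, ← abs_le]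
  exact hcon.le.trans (le_abs_self L)

private theorem compSupp_mul {r : ℝ → ℝ} (h : Sh r) (w : ℝ → ℝ) :
    HasCompactSupport (fun s => w s * r s) := (compSupp h).mul_left

private theorem integrable_mul {r : ℝ → ℝ} (h : Sh r) {w : ℝ → ℝ} (hw : Continuous w) :
    Integrable (fun s => w s * r s) :=
  (hw.mul h.cont).integrable_of_hasCompactSupport (compSupp_mul h w)

theorem Sh.deriv_nonpos {r D : ℝ → ℝ} (h : Sh r) (hD : ∀ s, HasDerivAt r (D s) s) {β t : ℝ}
    (hM2 : 0 < ∫ s, s ^ 2 * r s) (hM4 : ∫ s, s ^ 4 * r s ≤ β * ∫ s, s ^ 2 * r s)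
    (ht : 0 ≤ t) (htβ : 5 * β / 3 ≤ t ^ 2) : D t ≤ 0 := by
  obtain ⟨s₁, z, hs10, hs1z, hneg, hpos, hmono, hanti⟩ := h.shape
  by_contra hDt
  push Not at hDt
  have hi2 : Integrable (fun s => s ^ 2 * r s) := integrable_mul h (by fun_prop)
  have hi4 : Integrable (fun s => s ^ 4 * r s) := integrable_mul h (by fun_prop)
  -- (1) `s₁ ^ 2 ≤ β`
  have hβ1 : s₁ ^ 2 ≤ β := by
    have h1 : 0 ≤ ∫ s, (s ^ 4 * r s - s₁ ^ 2 * (s ^ 2 * r s)) := by
      apply integral_nonneg
      intro s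
      show 0 ≤ s ^ 4 * r s - s₁ ^ 2 * (s ^ 2 * r s)
      have e : s ^ 4 * r s - s₁ ^ 2 * (s ^ 2 * r s) = s ^ 2 * ((s ^ 2 - s₁ ^ 2) * r s) := by ring
      rw [e]
      apply mul_nonneg (sq_nonneg s)
      rw [r_abs h s, ← sq_abs s]
      have ha := abs_nonneg s
      rcases le_total |s| s₁ with h2 | h2
      · have h3 := hneg |s| ha h2
        have h4 : |s| ^ 2 - s₁ ^ 2 ≤ 0 := by (clear * - hs10 h2 ha; nlinarith)
        exact mul_nonneg_of_nonpos_of_nonpos h4 h3
      · have h3 := hpos |s| h2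
        have h4 : 0 ≤ |s| ^ 2 - s₁ ^ 2 := by (clear * - hs10 h2 ha; nlinarith)
        exact mul_nonneg h4 h3
    rw [integral_sub hi4 (hi2.const_mul _), integral_const_mul] at h1
    by_contra hcon
    push Not at hcon
    (clear * - hM4 h1 hM2 hcon; nlinarith)
  have hβ0 : 0 ≤ β := (sq_nonneg s₁).trans hβ1
  set b := Real.sqrt β with hb
  have hb0 : 0 ≤ b := Real.sqrt_nonneg β
  have hb2 : b ^ 2 = β := Real.sq_sqrt hβ0
  have hs1b : s₁ ≤ b := by
    rw [hb]
    exact Real.le_sqrt_of_sq_le hβ1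
  have hbt : b ≤ t := by
    apply abs_le_of_sq_le_sq' _ ht |>.2
    (clear * - htβ hb2; nlinarith)
  -- (2) `t < z`
  have htz : t < z := by
    by_contra hcon
    push Not at hcon
    have hd := (hD t).hasDerivWithinAt (s := Ioi t)
    have hle : D t ≤ 0 := by
      rw [hasDerivWithinAt_iff_tendsto_slope' (by simp)] at hd
      refine le_of_tendsto hd ?_
      filter_upwards [self_mem_nhdsWithin] with s hs
      rw [slope_def_field]
      have h1 : r s ≤ r t := hanti (mem_Ici.2 hcon) (mem_Ici.2 (hcon.trans (le_of_lt hs)))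
        (le_of_lt hs)
      apply div_nonpos_of_nonpos_of_nonneg
      · (clear * - h1; linarith)
      · have : t < s := hs
        linarith
    linarith
  have hz0 : 0 < z := ht.trans_lt htz
  have hbz : b ≤ z := hbt.trans htz.le
  set c := r b with hc
  have hc0 : 0 ≤ c := hpos b hs1b
  -- the weight
  have hiw : Integrable (fun s => (s ^ 4 - β * s ^ 2) * r s) := integrable_mul h (by fun_prop)
  have hwle : ∫ s, (s ^ 4 - β * s ^ 2) * r s ≤ 0 := by
    have e : (fun s => (s ^ 4 - β * s ^ 2) * r s) =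
        fun s => s ^ 4 * r s - β * (s ^ 2 * r s) := by
      funext s; ring
    rw [e, integral_sub hi4 (hi2.const_mul _), integral_const_mul]
    (clear * - hM4; linarith)
  have hwneg : ∀ s : ℝ, |s| ≤ b → s ^ 4 - β * s ^ 2 ≤ 0 := by
    intro s hs
    have e : s ^ 4 - β * s ^ 2 = s ^ 2 * (|s| ^ 2 - b ^ 2) := by
      rw [sq_abs, hb2]; ring
    rw [e]
    have ha := abs_nonneg s
    exact mul_nonpos_of_nonneg_of_nonpos (sq_nonneg s) (by (clear * - hb0 hs ha; nlinarith))
  have hwpos : ∀ s : ℝ, b ≤ |s| → 0 ≤ s ^ 4 - β * s ^ 2 := by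
    intro s hs
    have e : s ^ 4 - β * s ^ 2 = s ^ 2 * (|s| ^ 2 - b ^ 2) := by
      rw [sq_abs, hb2]; ring
    rw [e]
    exact mul_nonneg (sq_nonneg s) (by (clear * - hb0 hs; nlinarith))
  rcases hc0.lt_or_eq with hcpos | hczero
  · -- `c > 0`
    have hgi : Integrable ((Icc (-z) z).indicator (fun s => c * (s ^ 4 - β * s ^ 2))) := by
      rw [integrable_indicator_iff measurableSet_Icc]
      exact (Continuous.continuousOn (by fun_prop)).integrableOn_compact isCompact_Icc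
    have hge : ∀ s, (Icc (-z) z).indicator (fun s => c * (s ^ 4 - β * s ^ 2)) s ≤
        (s ^ 4 - β * s ^ 2) * r s := by
      intro s
      by_cases hs : s ∈ Icc (-z) z
      · rw [indicator_of_mem hs]
        have hsz : |s| ≤ z := abs_le.2 hs
        rw [r_abs h s]
        have ha := abs_nonneg s
        rcases le_total |s| b with h1 | h1
        · have hw := hwneg s h1
          have hrc : r |s| ≤ c := by
            rcases le_total |s| s₁ with h2 | h2
            · exact (hneg |s| ha h2).trans hc0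
            · exact hmono ⟨h2, hsz⟩ ⟨hs1b, hbz⟩ h1
          (clear * - hw hrc; nlinarith)
        · have hw := hwpos s h1
          have hrc : c ≤ r |s| := hmono ⟨hs1b, hbz⟩ ⟨hs1b.trans h1, hsz⟩ h1
          (clear * - hw hrc; nlinarith)
      · rw [indicator_of_notMem hs]
        have hsz : z < |s| := by
          by_contra hcon
          push Not at hcon
          exact hs (abs_le.1 hcon)
        rw [r_abs h s]
        exact mul_nonneg (hwpos s (hbz.trans hsz.le)) (hpos |s| (hs1z.trans hsz.le))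
    have hint := integral_mono hgi hiw hge
    rw [integral_indicator measurableSet_Icc, integral_Icc_eq_integral_Ioc,
      ← intervalIntegral.integral_of_le (by (clear * - ht htz; linarith))] at hint
    have hval : ∫ s in (-z)..z, c * (s ^ 4 - β * s ^ 2) =
        c * (2 * z ^ 3 * (z ^ 2 / 5 - β / 3)) := by
      rw [intervalIntegral.integral_const_mul, intervalIntegral.integral_sub
        (Continuous.intervalIntegrable (by fun_prop) _ _)
        (Continuous.intervalIntegrable (by fun_prop) _ _),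
        intervalIntegral.integral_const_mul, integral_pow, integral_pow]
      push_cast
      ring
    rw [hval] at hint
    have h5 : 0 < z ^ 2 / 5 - β / 3 := by (clear * - htβ ht htz; nlinarith)
    have h6 : 0 < c * (2 * z ^ 3 * (z ^ 2 / 5 - β / 3)) := by (clear * - hcpos hz0 h5; positivity)
    (clear * - hwle hint h6; linarith)
  · -- `c = 0`
    -- a point with `r > 0` right of `t`
    obtain ⟨t', ht', hrt'⟩ : ∃ t', t < t' ∧ r t < r t' := by
      have hd := (hD t).hasDerivWithinAt (s := Ioi t)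
      rw [hasDerivWithinAt_iff_tendsto_slope' (by simp)] at hd
      have h1 := hd.eventually (lt_mem_nhds hDt)
      obtain ⟨s, hs1, hs2⟩ := (h1.and self_mem_nhdsWithin).exists
      refine ⟨s, hs2, ?_⟩
      rw [slope_def_field] at hs1
      have h3 : 0 < s - t := by
        have : t < s := hs2
        (clear * - hs2; linarith)
      have := (div_pos_iff_of_pos_right h3).1 hs1
      (clear * - this; linarith)
    have hrt : 0 ≤ r t := hpos t (hs1b.trans hbt)
    have hcont : Continuous (fun s => (s ^ 4 - β * s ^ 2) * r s) := by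
      have := h.cont
      fun_prop
    have hnn : 0 ≤ (fun s => (s ^ 4 - β * s ^ 2) * r s) := by
      intro s
      show 0 ≤ (s ^ 4 - β * s ^ 2) * r s
      rw [r_abs h s]
      have ha := abs_nonneg s
      rcases le_total |s| b with h1 | h1
      · rcases le_total |s| s₁ with h2 | h2
        · exact mul_nonneg_of_nonpos_of_nonpos (hwneg s h1) (hneg |s| ha h2)
        · have h3 : r |s| ≤ c := hmono ⟨h2, h1.trans hbz⟩ ⟨hs1b, hbz⟩ h1
          have h4 := hpos |s| h2
          have h5 : r |s| = 0 := by (clear * - h4 hczero h3; linarith)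
          rw [h5, mul_zero]
      · exact mul_nonneg (hwpos s h1) (hpos |s| (hs1b.trans h1))
    have hne : (fun s => (s ^ 4 - β * s ^ 2) * r s) t' ≠ 0 := by
      show (t' ^ 4 - β * t' ^ 2) * r t' ≠ 0
      have h1 : 0 < r t' := hrt.trans_lt hrt'
      have h2 : t' ^ 4 - β * t' ^ 2 = t' ^ 2 * (t' ^ 2 - b ^ 2) := by rw [hb2]; ring
      have h3 : 0 < t' := ht.trans_lt ht'
      have h4 : 0 < t' ^ 2 - b ^ 2 := by (clear * - htβ hb2 ht ht'; nlinarith)
      rw [h2]
      (clear * - h3 h4 h1; positivity)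
    have := hcont.integral_pos_of_hasCompactSupport_nonneg_nonzero (μ := volume)
      (compSupp_mul h _) hnn hne
    linarith

end Pool.Agent.M18.Slab
end

/- Helper85.Slab.Moments -/
section
/-!
# Moments of the averaged functions (project SLAB, module S2)
-/

namespace Pool.Agent.M18.Slab

open MeasureTheory Set

namespace Mom

theorem cs {r : ℝ → ℝ} {L : ℝ} (hs : ∀ s, L ≤ |s| → r s = 0) : HasCompactSupport r := by
  apply HasCompactSupport.intro (K := Icc (-|L|) |L|) isCompact_Icc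
  intro s hsn
  apply hs
  by_contra hcon
  push Not at hcon
  apply hsn
  exact abs_le.mp (hcon.le.trans (le_abs_self L))

theorem int_mul {r w : ℝ → ℝ} (hc : Continuous r) {L : ℝ} (hs : ∀ s, L ≤ |s| → r s = 0)
    (hw : Continuous w) : Integrable (fun s => w s * r s) := by
  apply Continuous.integrable_of_hasCompactSupport (hw.mul hc)
  exact (cs hs).mul_left

theorem general {r w : ℝ → ℝ} (hc : Continuous r) {L : ℝ} (hs : ∀ s, L ≤ |s| → r s = 0)
    (hw : Continuous w) (x : ℝ) :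
    ∫ s, w s * A x r s = ∫ u in (-1 : ℝ)..1, ∫ s, w (s + x * u) * r s := by
  have h1 : ∀ s, w s * A x r s = ∫ u in Ioc (-1 : ℝ) 1, w s * r (s - x * u) := by
    intro s
    unfold A
    rw [← intervalIntegral.integral_const_mul, intervalIntegral.integral_of_le (by norm_num)]
  have hf : Continuous (fun p : ℝ × ℝ => w p.1 * r (p.1 - x * p.2)) := by fun_prop
  have hint : Integrable (fun p : ℝ × ℝ => w p.1 * r (p.1 - x * p.2))
      (volume.prod (volume.restrict (Ioc (-1 : ℝ) 1))) := by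
    have h2 : (volume : Measure ℝ).prod ((volume : Measure ℝ).restrict (Ioc (-1 : ℝ) 1)) =
        ((volume : Measure ℝ).prod volume).restrict (univ ×ˢ Ioc (-1 : ℝ) 1) := by
      rw [← Measure.prod_restrict, Measure.restrict_univ]
    rw [h2]
    have h3 : IntegrableOn (fun p : ℝ × ℝ => w p.1 * r (p.1 - x * p.2))
        (Icc (-(|L| + |x|)) (|L| + |x|) ×ˢ Icc (-1 : ℝ) 1)
        ((volume : Measure ℝ).prod volume) :=
      hf.continuousOn.integrableOn_compact (isCompact_Icc.prod isCompact_Icc)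
    apply IntegrableOn.of_forall_sdiff_eq_zero h3
      (MeasurableSet.univ.prod measurableSet_Ioc)
    rintro ⟨s, u⟩ ⟨hu, hn⟩
    have hu2 : u ∈ Ioc (-1 : ℝ) 1 := hu.2
    have hs2 : ¬ (s ∈ Icc (-(|L| + |x|)) (|L| + |x|)) := by
      intro h
      exact hn ⟨h, Ioc_subset_Icc_self hu2⟩
    have h4 : |L| + |x| < |s| := by
      by_contra hcon
      push Not at hcon
      exact hs2 (abs_le.mp hcon)
    have h5 : |x * u| ≤ |x| := by
      rw [abs_mul]
      have : |u| ≤ 1 := abs_le.mpr ⟨hu2.1.le, hu2.2⟩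
      nlinarith [abs_nonneg x]
    have h6 : L ≤ |s - x * u| := by
      have h7 := abs_sub_abs_le_abs_sub s (x * u)
      have h8 := le_abs_self L
      linarith
    simp only
    rw [hs _ h6, mul_zero]
  calc ∫ s, w s * A x r s = ∫ s, ∫ u in Ioc (-1 : ℝ) 1, w s * r (s - x * u) := by
        simp_rw [h1]
    _ = ∫ u in Ioc (-1 : ℝ) 1, ∫ s, w s * r (s - x * u) := integral_integral_swap hint
    _ = ∫ u in Ioc (-1 : ℝ) 1, ∫ s, w (s + x * u) * r s := by
        congr 1
        funext u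
        have h9 := integral_add_right_eq_self (μ := (volume : Measure ℝ))
          (fun s => w s * r (s - x * u)) (x * u)
        rw [← h9]
        congr 1
        funext s
        rw [add_sub_cancel_right]
    _ = ∫ u in (-1 : ℝ)..1, ∫ s, w (s + x * u) * r s := by
        rw [intervalIntegral.integral_of_le (by norm_num)]

theorem lin_int {f g : ℝ → ℝ} (hf : Integrable f) (hg : Integrable g) (c : ℝ) :
    Integrable (fun s => f s + c * g s) := hf.add (hg.const_mul c)

theorem lin_eq {f g : ℝ → ℝ} (hf : Integrable f) (hg : Integrable g) (c : ℝ) :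
    ∫ s, (f s + c * g s) = (∫ s, f s) + c * ∫ s, g s := by
  rw [integral_add hf (hg.const_mul c), integral_const_mul]

/-- integral of a quartic over `[-1, 1]` -/
theorem quartic (a b c d e : ℝ) :
    ∫ u in (-1 : ℝ)..1, (a + b * u + c * u ^ 2 + d * u ^ 3 + e * u ^ 4) =
      2 * a + 2 * c / 3 + 2 * e / 5 := by
  have h := intervalIntegral.integral_eq_sub_of_hasDerivAt (a := (-1 : ℝ)) (b := 1)
    (f := fun u => a * u + b / 2 * u ^ 2 + c / 3 * u ^ 3 + d / 4 * u ^ 4 + e / 5 * u ^ 5)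
    (f' := fun u => a + b * u + c * u ^ 2 + d * u ^ 3 + e * u ^ 4) (by
      intro u _
      have h1 := (hasDerivAt_id u).const_mul a
      have h2 := (hasDerivAt_pow 2 u).const_mul (b / 2)
      have h3 := (hasDerivAt_pow 3 u).const_mul (c / 3)
      have h4 := (hasDerivAt_pow 4 u).const_mul (d / 4)
      have h5 := (hasDerivAt_pow 5 u).const_mul (e / 5)
      convert! (((h1.add h2).add h3).add h4).add h5 using 1
      push_cast
      ring) (by
      apply Continuous.intervalIntegrable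
      fun_prop)
  rw [h]
  ring

end Mom

open Mom in
theorem integral_sq_A {r : ℝ → ℝ} (hc : Continuous r) {L : ℝ} (hs : ∀ s, L ≤ |s| → r s = 0)
    (x : ℝ) : ∫ s, s ^ 2 * A x r s = 2 * (∫ s, s ^ 2 * r s) + 2 * x ^ 2 / 3 * ∫ s, r s := by
  have h := general hc hs (w := fun s => s ^ 2) (by fun_prop) x
  rw [h]
  have i0 : Integrable r := by simpa using int_mul hc hs (w := fun _ => 1) continuous_const
  have i1 := int_mul hc hs (w := fun s => s) continuous_id
  have i2 := int_mul hc hs (w := fun s => s ^ 2) (by fun_prop)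
  have h1 : ∀ u : ℝ, ∫ s, (s + x * u) ^ 2 * r s =
      (∫ s, s ^ 2 * r s) + (2 * x * ∫ s, s * r s) * u + (x ^ 2 * ∫ s, r s) * u ^ 2 +
        0 * u ^ 3 + 0 * u ^ 4 := by
    intro u
    have e1 : ∀ s, (s + x * u) ^ 2 * r s =
        s ^ 2 * r s + (2 * x * u) * (s * r s) + (x ^ 2 * u ^ 2) * r s := by
      intro s
      ring
    simp_rw [e1]
    rw [lin_eq (lin_int i2 i1 _) i0, lin_eq i2 i1]
    ring
  simp_rw [h1]
  rw [quartic]
  ring

open Mom in
theorem integral_pow_four_A {r : ℝ → ℝ} (hc : Continuous r) {L : ℝ}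
    (hs : ∀ s, L ≤ |s| → r s = 0) (x : ℝ) :
    ∫ s, s ^ 4 * A x r s = 2 * (∫ s, s ^ 4 * r s) + 4 * x ^ 2 * (∫ s, s ^ 2 * r s) +
      2 * x ^ 4 / 5 * ∫ s, r s := by
  have h := general hc hs (w := fun s => s ^ 4) (by fun_prop) x
  rw [h]
  have i0 : Integrable r := by simpa using int_mul hc hs (w := fun _ => 1) continuous_const
  have i1 := int_mul hc hs (w := fun s => s) continuous_id
  have i2 := int_mul hc hs (w := fun s => s ^ 2) (by fun_prop)
  have i3 := int_mul hc hs (w := fun s => s ^ 3) (by fun_prop)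
  have i4 := int_mul hc hs (w := fun s => s ^ 4) (by fun_prop)
  have h1 : ∀ u : ℝ, ∫ s, (s + x * u) ^ 4 * r s =
      (∫ s, s ^ 4 * r s) + (4 * x * ∫ s, s ^ 3 * r s) * u +
        (6 * x ^ 2 * ∫ s, s ^ 2 * r s) * u ^ 2 + (4 * x ^ 3 * ∫ s, s * r s) * u ^ 3 +
        (x ^ 4 * ∫ s, r s) * u ^ 4 := by
    intro u
    have e1 : ∀ s, (s + x * u) ^ 4 * r s =
        s ^ 4 * r s + (4 * x * u) * (s ^ 3 * r s) + (6 * x ^ 2 * u ^ 2) * (s ^ 2 * r s) +
          (4 * x ^ 3 * u ^ 3) * (s * r s) + (x ^ 4 * u ^ 4) * r s := by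
      intro s
      ring
    simp_rw [e1]
    rw [lin_eq (lin_int (lin_int (lin_int i4 i3 _) i2 _) i1 _) i0,
      lin_eq (lin_int (lin_int i4 i3 _) i2 _) i1, lin_eq (lin_int i4 i3 _) i2, lin_eq i4 i3]
    ring
  simp_rw [h1]
  rw [quartic]
  ring

end Pool.Agent.M18.Slab
end

/- Helper96.Slab.Deriv -/
section
/-!
Continuity and differentiability of the averages (module S5 of the project SLAB).
-/

namespace Pool.Agent.M18.Slab

open MeasureTheory Set

theorem continuous_A {φ : ℝ → ℝ} (h : Continuous φ) (x : ℝ) : Continuous (A x φ) := by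
  unfold A
  refine intervalIntegral.continuous_parametric_intervalIntegral_of_continuous' ?_ _ _
  exact h.comp (by fun_prop)

namespace Deriv

theorem A_zero (φ : ℝ → ℝ) (s : ℝ) : A 0 φ s = 2 * φ s := by
  unfold A
  simp
  norm_num

theorem A_eq {x : ℝ} (hx : x ≠ 0) (φ : ℝ → ℝ) (s : ℝ) :
    A x φ s = x⁻¹ * ∫ v in (s - x)..(s + x), φ v := by
  unfold A
  rw [intervalIntegral.integral_comp_sub_mul (fun v => φ v) hx s, smul_eq_mul]
  congr 2 <;> ring

end Deriv

theorem hasDerivAt_A {r D : ℝ → ℝ} (h : ∀ s, HasDerivAt r (D s) s) (hD : Continuous D) (x : ℝ) :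
    ∀ s, HasDerivAt (A x r) (A x D s) s := by
  intro s
  by_cases hx : x = 0
  · subst hx
    have e : A 0 r = fun s => 2 * r s := by funext s; exact Deriv.A_zero r s
    rw [e, Deriv.A_zero]
    exact (h s).const_mul 2
  · have hr : Continuous r := continuous_iff_continuousAt.2 fun s => (h s).continuousAt
    have hint : ∀ a b, IntervalIntegrable r volume a b := fun a b => hr.intervalIntegrable a b
    have e : A x r = fun s => x⁻¹ * ((∫ v in (0 : ℝ)..(s + x), r v) -
        ∫ v in (0 : ℝ)..(s - x), r v) := by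
      funext s
      rw [Deriv.A_eq hx, intervalIntegral.integral_interval_sub_left (hint _ _) (hint _ _)]
    have e2 : A x D s = x⁻¹ * (r (s + x) - r (s - x)) := by
      rw [Deriv.A_eq hx, intervalIntegral.integral_eq_sub_of_hasDerivAt (fun v _ => h v)
        (hD.intervalIntegrable _ _)]
    rw [e, e2]
    have p : ∀ t, HasDerivAt (fun t => ∫ v in (0 : ℝ)..t, r v) (r t) t := fun t =>
      intervalIntegral.integral_hasDerivAt_right (hint _ _)
        (hr.stronglyMeasurableAtFilter _ _) hr.continuousAt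
    have p1 : HasDerivAt (fun s => ∫ v in (0 : ℝ)..(s + x), r v) (r (s + x)) s := by
      have := (p (s + x)).comp s ((hasDerivAt_id s).add_const x)
      simpa [Function.comp_def] using this
    have p2 : HasDerivAt (fun s => ∫ v in (0 : ℝ)..(s - x), r v) (r (s - x)) s := by
      have := (p (s - x)).comp s ((hasDerivAt_id s).sub_const x)
      simpa [Function.comp_def] using this
    exact (p1.sub p2).const_mul x⁻¹

theorem A_sub {φ ψ : ℝ → ℝ} (hφ : Continuous φ) (hψ : Continuous ψ) (x : ℝ) :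
    A x (fun s => φ s - ψ s) = fun s => A x φ s - A x ψ s := by
  funext s
  unfold A
  have c1 : Continuous fun u : ℝ => φ (s - x * u) := hφ.comp (by fun_prop)
  have c2 : Continuous fun u : ℝ => ψ (s - x * u) := hψ.comp (by fun_prop)
  exact intervalIntegral.integral_sub (c1.intervalIntegrable _ _) (c2.intervalIntegrable _ _)

end Pool.Agent.M18.Slab
end

/- Helper98.Slab.Avg -/
section
/-!
Module SLAB-S1 (written by helper98): the shape class is preserved by averaging.
-/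

set_option autoImplicit false

namespace Pool.Agent.M18.Slab

open MeasureTheory Set intervalIntegral

namespace Avg

/-- the primitive -/
noncomputable def R (r : ℝ → ℝ) (y : ℝ) : ℝ := ∫ t in (0 : ℝ)..y, r t

lemma R_hasDerivAt {r : ℝ → ℝ} (hc : Continuous r) (y : ℝ) : HasDerivAt (R r) (r y) y :=
  integral_hasDerivAt_right (hc.intervalIntegrable _ _)
    (hc.stronglyMeasurableAtFilter _ _) hc.continuousAt

lemma R_sub {r : ℝ → ℝ} (hc : Continuous r) (a b : ℝ) : R r b - R r a = ∫ t in a..b, r t := by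
  unfold R
  rw [integral_interval_sub_left (hc.intervalIntegrable _ _) (hc.intervalIntegrable _ _)]

lemma R_neg {r : ℝ → ℝ} (he : ∀ s, r (-s) = r s) (y : ℝ) : R r (-y) = - R r y := by
  unfold R
  have h1 : ∫ t in (0 : ℝ)..y, r t = ∫ t in (0 : ℝ)..y, r (-t) := by
    simp only [he]
  rw [h1, integral_comp_neg, neg_zero, integral_symm]

lemma A_eq {r : ℝ → ℝ} (hc : Continuous r) {x : ℝ} (hx : 0 < x) (s : ℝ) :
    A x r s = (R r (s + x) - R r (s - x)) / x := by
  rw [R_sub hc]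
  unfold A
  rw [integral_comp_sub_mul r hx.ne' s]
  rw [smul_eq_mul]
  have h1 : s - x * 1 = s - x := by ring
  have h2 : s - x * -1 = s + x := by ring
  rw [h1, h2]
  field_simp

lemma A_hasDerivAt {r : ℝ → ℝ} (hc : Continuous r) {x : ℝ} (hx : 0 < x) (s : ℝ) :
    HasDerivAt (A x r) ((r (s + x) - r (s - x)) / x) s := by
  have h1 : A x r = fun s => (R r (s + x) - R r (s - x)) / x := funext (A_eq hc hx)
  rw [h1]
  have h2 : HasDerivAt (fun s => R r (s + x)) (r (s + x)) s := by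
    have := (R_hasDerivAt hc (s + x)).comp_add_const s x
    exact this
  have h3 : HasDerivAt (fun s => R r (s - x)) (r (s - x)) s := by
    have := (R_hasDerivAt hc (s - x)).comp_sub_const s x
    exact this
  exact (h2.sub h3).div_const x

lemma A_continuous {r : ℝ → ℝ} (hc : Continuous r) {x : ℝ} (hx : 0 < x) :
    Continuous (A x r) :=
  continuous_iff_continuousAt.2 (fun s => (A_hasDerivAt hc hx s).continuousAt)

lemma A_zero (r : ℝ → ℝ) : A 0 r = fun s => 2 * r s := by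
  funext s
  unfold A
  simp only [zero_mul, sub_zero, intervalIntegral.integral_const, smul_eq_mul]
  ring

lemma A_neg (r : ℝ → ℝ) (x : ℝ) : A (-x) r = A x r := by
  funext s
  unfold A
  have h2 := intervalIntegral.integral_comp_neg (a := -1) (b := 1) (fun v => r (s - x * v))
  simp only [neg_neg] at h2
  rw [← h2]
  apply intervalIntegral.integral_congr
  intro u _
  simp only
  congr 1
  ring

/-- the structure is inherited for positive `x` -/
lemma main {r : ℝ → ℝ} (h : Sh r) {x : ℝ} (hx : 0 < x) : Sh (A x r) := by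
  have hc := h.cont
  have he := h.even
  obtain ⟨L₁, hL₁⟩ := h.supp
  obtain ⟨s₁, z, hs0, hsz, hneg, hpos, hmono, hanti⟩ := h.shape
  -- a nonnegative bound of the support
  set L : ℝ := max L₁ 0 with hLdef
  have hL0 : 0 ≤ L := le_max_right _ _
  have hL : ∀ s, L ≤ |s| → r s = 0 := fun s hs => hL₁ s ((le_max_left _ _).trans hs)
  -- the primitive vanishes outside `[-L, L]`
  have hRconst : ∀ y, L ≤ y → R r y = R r L := by
    intro y hy
    have h1 : R r y - R r L = 0 := by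
      rw [R_sub hc]
      have : ∫ t in L..y, r t = ∫ t in L..y, (0 : ℝ) := by
        apply integral_congr
        intro t ht
        rw [uIcc_of_le hy] at ht
        simp only
        exact hL t (ht.1.trans (le_abs_self _))
      rw [this, intervalIntegral.integral_zero]
    linarith
  have hRL : R r L = 0 := by
    have h1 : ∫ s, r s = ∫ t in (-L)..L, r t := by
      rw [intervalIntegral.integral_of_le (by (clear * - hL0; linarith))]
      symm
      apply setIntegral_eq_integral_of_forall_compl_eq_zero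
      intro t ht
      apply hL
      by_contra hlt
      rw [not_le, abs_lt] at hlt
      exact ht ⟨hlt.1, hlt.2.le⟩
    rw [h.int0, ← R_sub hc, R_neg he] at h1
    (clear * - h1; linarith)
  have hR0 : ∀ y, L ≤ y → R r y = 0 := fun y hy => (hRconst y hy).trans hRL
  have hR0' : ∀ y, L ≤ |y| → R r y = 0 := by
    intro y hy
    rcases le_or_gt 0 y with h0 | h0
    · rw [abs_of_nonneg h0] at hy
      exact hR0 y hy
    · rw [abs_of_neg h0] at hy
      have := hR0 (-y) hy
      rw [R_neg he] at this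
      linarith
  -- the primitive is nonpositive on `[0, ∞)`
  have hRneg : ∀ y, 0 ≤ y → R r y ≤ 0 := by
    intro y hy
    rcases le_total y s₁ with h1 | h1
    · unfold R
      have : (∫ t in (0:ℝ)..y, r t) ≤ ∫ t in (0:ℝ)..y, (0:ℝ) := by
        apply integral_mono_on hy (hc.intervalIntegrable _ _) (by simp)
        intro t ht
        exact hneg t ht.1 (ht.2.trans h1)
      simpa using this
    · have h2 : 0 ≤ R r (max L y) - R r y := by
        rw [R_sub hc]
        apply integral_nonneg (le_max_right _ _)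
        intro t ht
        exact hpos t (h1.trans ht.1)
      rw [hR0 _ (le_max_left _ _)] at h2
      linarith
  have hrneg : ∀ y, -s₁ ≤ y → y ≤ s₁ → r y ≤ 0 := by
    intro y h1 h2
    rcases le_total 0 y with h0 | h0
    · exact hneg y h0 h2
    · rw [← he]
      exact hneg (-y) (by linarith) (by linarith)
  -- evenness
  have hAe : ∀ s, A x r (-s) = A x r s := by
    intro s
    rw [A_eq hc hx, A_eq hc hx]
    have h1 : R r (-s + x) = - R r (s - x) := by
      rw [← R_neg he]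
      congr 1
      ring
    have h2 : R r (-s - x) = - R r (s + x) := by
      rw [← R_neg he]
      congr 1
      ring
    rw [h1, h2]
    ring
  have hAsupp : ∀ s, L + x ≤ |s| → A x r s = 0 := by
    have key : ∀ s, L + x ≤ s → A x r s = 0 := by
      intro s hs
      rw [A_eq hc hx, hR0 _ (by linarith), hR0 _ (by linarith)]
      simp
    intro s hs
    rcases le_total 0 s with h0 | h0
    · rw [abs_of_nonneg h0] at hs
      exact key s hs
    · rw [abs_of_nonpos h0] at hs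
      rw [← hAe]
      exact key (-s) hs
  -- the integral
  have hint : ∫ s, A x r s = 0 := by
    have hRc : Continuous (R r) :=
      continuous_iff_continuousAt.2 (fun s => (R_hasDerivAt hc s).continuousAt)
    have hRi : Integrable (R r) := by
      apply hRc.integrable_of_hasCompactSupport
      apply HasCompactSupport.of_support_subset_isCompact (K := Icc (-L) L) isCompact_Icc
      intro y hy
      rw [mem_Icc, ← abs_le]
      by_contra hlt
      exact hy (hR0' y (not_le.1 hlt).le)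
    have h1 : (fun s => A x r s) = fun s => (R r (s + x) - R r (s - x)) / x :=
      funext (A_eq hc hx)
    rw [h1, MeasureTheory.integral_div, MeasureTheory.integral_sub (hRi.comp_add_right x) (hRi.comp_sub_right x),
      integral_add_right_eq_self (R r) x, integral_sub_right_eq_self (R r) x]
    simp
  refine ⟨A_continuous hc hx, hAe, ⟨L + x, hAsupp⟩, hint, ?_⟩
  -- the shape
  set L0 : ℝ := |s₁ - x| with hL0def
  have hL0a : s₁ - x ≤ L0 := le_abs_self _
  have hL0b : x - s₁ ≤ L0 := by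
    have := neg_abs_le (s₁ - x)
    linarith
  have hL0c : L0 ≤ s₁ + x := abs_le.2 ⟨by linarith, by linarith⟩
  have hL0n : 0 ≤ L0 := abs_nonneg _
  let D : ℝ → ℝ := fun s => r (s + x) - r (s - x)
  have hD1 : ∀ s, L0 ≤ s → s ≤ s₁ + x → 0 ≤ D s := by
    intro s h1 h2
    have h3 := hpos (s + x) (by linarith)
    have h4 := hrneg (s - x) (by linarith) (by linarith)
    simp only [D]
    linarith
  have hDz : ∀ s, s₁ + x ≤ s → 0 < D s → s - x < z := by
    intro s h1 h2
    by_contra h3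
    rw [not_lt] at h3
    have := hanti (mem_Ici.2 h3) (mem_Ici.2 (by linarith : z ≤ s + x)) (by linarith)
    simp only [D] at h2
    linarith
  have hD2 : ∀ s s', s₁ + x ≤ s' → s' ≤ s → 0 < D s → 0 ≤ D s' := by
    intro s s' h1 h2 h3
    have h4 := hDz s (h1.trans h2) h3
    simp only [D] at h3 ⊢
    rcases le_total (s' + x) z with h5 | h5
    · have := hmono (⟨by linarith, by linarith⟩ : s' - x ∈ Icc s₁ z)
        (⟨by linarith, h5⟩ : s' + x ∈ Icc s₁ z) (by linarith)
      linarith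
    · have h6 := hmono (⟨by linarith, by (clear * - h2 h4; linarith)⟩ : s' - x ∈ Icc s₁ z)
        (⟨by linarith, h4.le⟩ : s - x ∈ Icc s₁ z) (by linarith)
      have h7 := hanti (mem_Ici.2 h5) (mem_Ici.2 (by linarith : z ≤ s + x)) (by linarith)
      linarith
  let S : Set ℝ := insert (s₁ + x) {s | s₁ + x ≤ s ∧ 0 < D s}
  have hSb : BddAbove S := by
    refine ⟨z + x, ?_⟩
    rintro s (rfl | ⟨h1, h2⟩)
    · linarith
    · have := hDz s h1 h2
      linarith
  have hSne : S.Nonempty := ⟨s₁ + x, mem_insert _ _⟩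
  set z' : ℝ := sSup S with hz'
  have hz1 : s₁ + x ≤ z' := le_csSup hSb (mem_insert _ _)
  have hDa : ∀ s, L0 ≤ s → s < z' → 0 ≤ D s := by
    intro s h1 h2
    rcases le_total s (s₁ + x) with h3 | h3
    · exact hD1 s h1 h3
    · obtain ⟨s', hs', hlt⟩ := exists_lt_of_lt_csSup hSne h2
      rcases hs' with rfl | ⟨h4, h5⟩
      · exact absurd hlt (not_lt.2 h3)
      · exact hD2 s' s h3 hlt.le h5
  have hDb : ∀ s, z' < s → D s ≤ 0 := by
    intro s h1
    by_contra h2
    rw [not_le] at h2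
    have h3 : s ∈ S := mem_insert_of_mem _ ⟨by linarith, h2⟩
    have := le_csSup hSb h3
    linarith
  have hAc := A_continuous hc hx
  have hder : ∀ s, HasDerivAt (A x r) (D s / x) s := fun s => A_hasDerivAt hc hx s
  have hMono : MonotoneOn (A x r) (Icc L0 z') := by
    apply monotoneOn_of_deriv_nonneg (convex_Icc _ _) hAc.continuousOn
      (fun s _ => (hder s).differentiableAt.differentiableWithinAt)
    intro s hs
    rw [interior_Icc] at hs
    rw [(hder s).deriv]
    exact div_nonneg (hDa s hs.1.le hs.2) hx.le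
  have hAnti : AntitoneOn (A x r) (Ici z') := by
    apply antitoneOn_of_deriv_nonpos (convex_Ici _) hAc.continuousOn
      (fun s _ => (hder s).differentiableAt.differentiableWithinAt)
    intro s hs
    rw [interior_Ici] at hs
    rw [(hder s).deriv]
    exact div_nonpos_of_nonpos_of_nonneg (hDb s hs) hx.le
  have hA3 : ∀ s, z' ≤ s → 0 ≤ A x r s := by
    intro s hs
    have h1 := hAnti (mem_Ici.2 hs) (mem_Ici.2 (hs.trans (le_max_left s (L + x))))
      (le_max_left s (L + x))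
    rw [hAsupp (max s (L + x)) ((le_max_right _ _).trans (le_abs_self _))] at h1
    exact h1
  have hA4 : ∀ s, 0 ≤ s → s ≤ L0 → A x r s ≤ 0 := by
    intro s h1 h2
    rw [A_eq hc hx]
    apply div_nonpos_of_nonpos_of_nonneg _ hx.le
    rcases le_or_gt s x with h3 | h3
    · have h4 := hRneg (s + x) (by linarith)
      have h5 := hRneg (x - s) (by linarith)
      have h6 : R r (s - x) = - R r (x - s) := by
        rw [← R_neg he]
        congr 1
        ring
      rw [h6]
      linarith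
    · -- then `s₁ - x = L0`
      have h4 : s ≤ s₁ - x := by
        rcases abs_cases (s₁ - x) with ⟨h5, _⟩ | ⟨h5, _⟩
        · rw [hL0def, h5] at h2
          exact h2
        · rw [hL0def, h5] at h2
          linarith
      rw [R_sub hc]
      have : (∫ t in (s - x)..(s + x), r t) ≤ ∫ t in (s - x)..(s + x), (0:ℝ) := by
        apply integral_mono_on (by linarith) (hc.intervalIntegrable _ _) (by simp)
        intro t ht
        exact hrneg t (by linarith [ht.1]) (by linarith [ht.2])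
      simpa using this
  have hLz : L0 ≤ z' := hL0c.trans hz1
  obtain ⟨s₂, hs₂, hs₂0⟩ : ∃ s₂ ∈ Icc L0 z', A x r s₂ = 0 := by
    have h1 := intermediate_value_Icc hLz hAc.continuousOn
    exact h1 ⟨hA4 L0 hL0n le_rfl, hA3 z' le_rfl⟩
  refine ⟨s₂, z', hL0n.trans hs₂.1, hs₂.2, ?_, ?_, ?_, hAnti⟩
  · intro s h1 h2
    rcases le_total s L0 with h3 | h3
    · exact hA4 s h1 h3
    · rw [← hs₂0]
      exact hMono ⟨h3, h2.trans hs₂.2⟩ hs₂ h2
  · intro s h1
    rcases le_total s z' with h3 | h3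
    · rw [← hs₂0]
      exact hMono hs₂ ⟨hs₂.1.trans h1, h3⟩ h1
    · exact hA3 s h3
  · exact hMono.mono (Icc_subset_Icc hs₂.1 le_rfl)

end Avg

theorem Sh.avg {r : ℝ → ℝ} (h : Sh r) (x : ℝ) : Sh (A x r) := by
  rcases lt_trichotomy x 0 with hx | rfl | hx
  · rw [← Avg.A_neg]
    exact Avg.main h (by linarith)
  · rw [Avg.A_zero]
    obtain ⟨L, hL⟩ := h.supp
    obtain ⟨s₁, z, hs0, hsz, hneg, hpos, hmono, hanti⟩ := h.shape
    refine ⟨continuous_const.mul h.cont, fun s => by simp only [h.even], ⟨L, fun s hs => by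
      simp only [hL s hs, mul_zero]⟩, ?_, s₁, z, hs0, hsz, ?_, ?_, ?_, ?_⟩
    · rw [MeasureTheory.integral_const_mul, h.int0, mul_zero]
    · intro s h1 h2
      have := hneg s h1 h2
      linarith
    · intro s h1
      have := hpos s h1
      linarith
    · intro a ha b hb hab
      have := hmono ha hb hab
      simp only
      linarith
    · intro a ha b hb hab
      have := hanti ha hb hab
      simp only
      linarith
  · exact Avg.main h hx

end Pool.Agent.M18.Slab
end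

/- Helper95.SP.Crude.Tab -/
section
/-!
Rational evaluators and the box test for the crude pair facts (MP_66ebcc).
-/

set_option autoImplicit false

namespace Pool.Agent.M18.Helper95.SP.Crude

/-- lower and upper bounds for `π ^ 2` -/
def PL : ℚ := 98696 / 10000
def PH : ℚ := 98697 / 10000

/-- rounding down and up to multiples of `1 / 10 ^ 4` -/
def dn (x : ℚ) : ℚ := (⌊x * 10000⌋ : ℚ) / 10000
def up (x : ℚ) : ℚ := (⌈x * 10000⌉ : ℚ) / 10000
/-- rounding up to multiples of `1 / 10 ^ 8` -/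
def upp (x : ℚ) : ℚ := (⌈x * 100000000⌉ : ℚ) / 100000000

/-- Horner form of the alternating series of `sin y / y`, `z = y ^ 2` -/
def sinAux (z : ℚ) : ℕ → ℕ → ℚ
  | 0, _ => 1
  | n + 1, i => 1 - z / ((2 * i) * (2 * i + 1)) * sinAux z n (i + 1)

end Pool.Agent.M18.Helper95.SP.Crude
end

/- Helper95.SP.Crude.Box2 -/
section
/-!
The box test for the pair facts: `m` copies of `X`, the pair `(X, U)`, `n` copies of `Q`, and a rest
with entries `≤ rb` (all angles).
-/

set_option autoImplicit false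

namespace Pool.Agent.M18.Helper95.SP.Crude

/-- a box -/
structure Bx where
  X0 : ℚ
  X1 : ℚ
  U0 : ℚ
  U1 : ℚ
  Q0 : ℚ
  Q1 : ℚ

/-- 100 times lower bounds of `log (27 sin r)` at `r = max (35/100) (gr2 j)`, used as candidates -/
def lTab2 : List ℕ := [222, 222, 222, 222, 222, 222, 225, 227, 230, 232, 235, 237, 239, 242, 244, 246, 248, 250, 252, 254, 256, 257, 259, 261, 263, 264, 266, 267, 269, 270, 272, 273, 275, 276, 277, 279, 280, 281, 283, 284, 285, 286, 287, 289, 290, 291]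

def ll2 (j : ℕ) : ℚ := (lTab2.getD (if j ≤ 30 then j else 30 + (j - 30) / 10) 0 : ℕ) / 100

def lamQ (rho : ℚ) : ℚ := 4 / 3 + 4 / 9 * rho + 2569 / 10000 * rho ^ 2 + 3 / 10 * rho ^ 3

/-- lower bound for `sinc (3 X) / sinc X` -/
def p3 (X : ℚ) : ℚ := max 0 (1 - 4 / 3 * aSin X ^ 2)

/-- the value at one corner; `w` is reduced by the mass of the extra coordinates -/
def eCor (m : ℕ) (w lam X u0 : ℚ) : ℚ :=
  eLoF (up (max 0 (lam * (w - m * X ^ 2 - u0) + 104554 / 100000 * ((X ^ 2 + u0) / 2) +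
    822 / 10000 * ((X ^ 2 + u0) / 2) ^ 2))) * (if m = 1 then 1 else p3 X ^ (m - 1))

/-- the factor of the extra coordinates -/
def qCor (n : ℕ) (lam Q0 Q1 : ℚ) : ℚ :=
  if n = 0 then 1 else (min (p3 Q0) (p3 Q1 * (1 + lam * (Q1 ^ 2 - Q0 ^ 2)))) ^ n

def brQ (v1 u0 u1 s0 s1 : ℚ) : ℚ :=
  if 9 * v1 ≤ PL then 1 + (PL - 9 * v1) * (PL - 9 * u1) / (4 * PH - 9 * s0) ^ 2
  else max 0 (1 - 4 / 3 * ((9 * v1 - PL) * (PH - 9 * u0)) / (4 * PL - 9 * s1) ^ 2)

def deQ (s0 : ℚ) : ℚ := 1 + 85 / 100000 * (1 + 55 / 1000 * s0) * (PH - s0) ^ 2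

/-- lower bound for the third term over the first -/
def gQ (m n : ℕ) (w lam : ℚ) (b : Bx) : ℚ :=
  27 * (min (eCor m (w - n * b.Q0 ^ 2) lam b.X0 (b.U0 ^ 2)) (eCor m (w - n * b.Q0 ^ 2) lam b.X1 (b.U0 ^ 2)) *
    qCor n lam b.Q0 b.Q1) *
    brQ (b.X1 ^ 2) (b.U0 ^ 2) (b.U1 ^ 2) ((b.X0 ^ 2 + b.U0 ^ 2) / 2) ((b.X1 ^ 2 + b.U1 ^ 2) / 2) /
    deQ ((b.X0 ^ 2 + b.U0 ^ 2) / 2)

def b1Q (s0 s1 : ℚ) : ℚ :=
  (1 - s1 / 6 + s1 ^ 2 / 120 - s1 ^ 3 / 5040) ^ 2 * (1 / (PH - s0) ^ 2 + 844 / 10 ^ 6) * (997 / 1000)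

/-- square root, rounded down -/
def sqL (x : ℚ) : ℚ := (Nat.sqrt (⌊x * 10 ^ 12⌋.toNat) : ℚ) / 10 ^ 6
/-- square root, rounded up -/
def sqU (x : ℚ) : ℚ := (Nat.sqrt (⌈x * 10 ^ 12⌉.toNat) + 1 : ℚ) / 10 ^ 6

/-- upper bound for `|sin y|` on `[a, b]` -/
def supA (a b : ℚ) : ℚ := if b - a ≤ 1 then min 1 (max (aSin a) (aSin b) * (1 + (b - a) ^ 2 / 6)) else 1
/-- upper bound for `max 0 (sin y)` on `[a, b]` -/
def supP (a b : ℚ) : ℚ :=
  if b - a ≤ 1 then min 1 (max 0 (max (sinU a) (sinU b)) * (1 + (b - a) ^ 2 / 6)) else 1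
/-- lower bound for `|sin y|` on `[a, b]` -/
def infA (a b : ℚ) : ℚ :=
  if b - a ≤ 1 then max 0 (max (min (sinL a) (sinL b)) (min (-sinU a) (-sinU b))) else 0

/-- the bracket of the difference identity, simple bound -/
def brS (k : ℕ) (b : Bx) : ℚ :=
  1 / (1 + k ^ 2 * (max 0 (b.X0 - b.U1)) ^ 2 / 12) + 1 / (k * (b.X0 + b.U0))

/-- the bracket of the difference identity, precise bound; `c0, c1` enclose `C` -/
def brE (k : ℕ) (c0 c1 : ℚ) (b : Bx) : ℚ :=
  let s0 := k * (c0 + (b.X0 + b.U0) / 2)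
  let s1 := k * (c1 + (b.X1 + b.U1) / 2)
  max (1 / (1 + k ^ 2 * (max 0 (b.X0 - b.U1)) ^ 2 / 12) + supP s0 s1 / s0 -
      2 * (infA (k * c0) (k * c1) / (k * c1)) ^ 2)
    (1 / s0 + 4 / (k ^ 2 * (b.X0 ^ 2 + b.U0 ^ 2)))

def idOK (k : ℕ) (b : Bx) : Bool :=
  decide (0 < b.U0) && decide (0 < b.X0) && decide (6 ≤ (k : ℚ) ^ 2 * (b.X0 ^ 2 + b.U0 ^ 2))
def dirOK (b : Bx) : Bool := decide (b.U1 < b.X0)

/-- the direct bound, simple -/
def dvS (k : ℕ) (b : Bx) : ℚ :=
  2 / (k ^ 2 * (b.X0 ^ 2 + b.U0 ^ 2)) +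
    1 / (k * b.X0) * (if b.U0 = 0 then 1 else min 1 (1 / (k * b.U0)))

/-- the direct bound, precise -/
def dvE (k : ℕ) (c0 c1 : ℚ) (b : Bx) : ℚ :=
  (supA (k * c0) (k * c1) / (k * c0)) ^ 2 + supA (k * b.X0) (k * b.X1) / (k * b.X0) *
    (if b.U0 = 0 then 1 else min 1 (supA (k * b.U0) (k * b.U1) / (k * b.U0)))

def idV (br : ℚ) (b : Bx) : ℚ := br / (b.X0 * b.U0 * (b.X0 + b.U0) ^ 2)
def dirV (dv : ℚ) (b : Bx) : ℚ := dv / ((b.X0 ^ 2 - b.U1 ^ 2) / 2) ^ 2

/-- simple bound for `|B_k| / δ²`, valid for all larger frequencies too -/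
def bbS (k : ℕ) (b : Bx) : ℚ :=
  if idOK k b then (if dirOK b then min (idV (brS k b) b) (dirV (dvS k b) b) else idV (brS k b) b)
  else dirV (dvS k b) b

def bbOK (k : ℕ) (b : Bx) : Bool := idOK k b || dirOK b

/-- bound for `|B_k| / δ²`; `kb` is the largest frequency with precise bounds -/
def betQ (kb k : ℕ) (c0 c1 : ℚ) (b : Bx) : ℚ :=
  let s := if bbOK k b then min ((k : ℚ) ^ 4 / 90) (upp (bbS k b)) else (k : ℚ) ^ 4 / 90
  if k ≤ kb then
    (if decide (3 * b.X0 ≤ 5 * b.U0) && idOK k b then min s (upp (idV (brE k c0 c1 b) b))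
    else if dirOK b && decide (0 < c0) then min s (upp (dirV (dvE k c0 c1 b) b)) else s)
  else s

/-- bound for `|sin (k X)| / (k sin X)` on `[X0, X1]` -/
def qQ (k : ℕ) (X0 X1 : ℚ) : ℚ :=
  if 1 / 100 ≤ X0 then upp (min 1 (supA (k * X0) (k * X1) / (k * sinL X0))) else 1

/-- bound for `|sinc (k X)|` on `[X0, X1]` -/
def qE (k : ℕ) (X0 X1 : ℚ) : ℚ :=
  if 1 / 100 ≤ X0 then upp (min 1 (supA (k * X0) (k * X1) / (k * X0))) else 1

def cop (f : ℕ → ℚ → ℚ → ℚ) (k m n : ℕ) (b : Bx) : ℚ :=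
  (if m = 1 then 1 else f k b.X0 b.X1 ^ (m - 1)) * (if n = 0 then 1 else f k b.Q0 b.Q1 ^ n)

/-- lower bound for the exponent of the rest at the harmonic `k` -/
def exQ (k j : ℕ) (M : ℚ) : ℚ :=
  let F := ff2 k j
  let c := ((k : ℚ) ^ 2 - 1) / 6
  let rho := gr2 j ^ 2
  let n := ⌊M / rho⌋.toNat
  max (cc2 k j * M) (if F ≤ c * rho then min (n * F + c * (M - n * rho)) ((n + 1) * F) else 0)

/-- one odd harmonic -/
def sQ (kb k m n j : ℕ) (c0 c1 : ℚ) (b : Bx) (Mlo : ℚ) : ℚ :=
  betQ kb k c0 c1 b / k * cop qQ k m n b * eUpF (dn (exQ k j Mlo))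

/-- the factor of a copy for `k ≥ 27` -/
def cfO (X0 : ℚ) : ℚ := if 1 < 27 * sinL X0 then 1 / (27 * sinL X0) else 1

/-- the exponent for `k ≥ 27` -/
def aO (m n j : ℕ) (b : Bx) (Mlo : ℚ) : ℚ :=
  Mlo / (max (gr2 j) (35 / 100)) ^ 2 + (if 1 < 27 * sinL b.X0 then ((m - 1 : ℕ) : ℚ) else 0) +
    (if 1 < 27 * sinL b.Q0 then (n : ℚ) else 0)

/-- the common factor for `k ≥ 27` -/
def comO (m n j : ℕ) (b : Bx) (Mlo : ℚ) : ℚ :=
  cfO b.X0 ^ (m - 1) * cfO b.Q0 ^ n * eUpF (dn (ll2 j * (Mlo / (max (gr2 j) (35 / 100)) ^ 2)))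

def stOK (m n j : ℕ) (b : Bx) (Mlo : ℚ) : Bool :=
  decide (1 ≤ eLoF (ll2 j) * (27 * sinL (max (gr2 j) (35 / 100)))) &&
    ((bbOK 27 b && decide (0 < aO m n j b Mlo)) || decide (4 < aO m n j b Mlo))

/-- the odd harmonics `k ≥ 27` -/
def stQ (m n j : ℕ) (b : Bx) (Mlo : ℚ) : ℚ :=
  let a := aO m n j b Mlo
  let com := comO m n j b Mlo
  let t1 := upp (bbS 27 b) * com * (1 / 27 + 1 / (2 * a))
  let t2 := 27 ^ 4 / 90 * com * (1 / 27 + 1 / (2 * (a - 4)))
  if bbOK 27 b && decide (0 < a) then (if 4 < a then min t1 t2 else t1) else t2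

/-- lower bound of `sinc (2 X)` on `X ≤ X1` -/
def sc2 (X1 : ℚ) : ℚ :=
  if X1 ≤ 1 then max 0 (1 - (2 * X1) ^ 2 / 6 + (2 * X1) ^ 4 / 120 - (2 * X1) ^ 6 / 5040) else 0

/-- the second harmonic over four -/
def g2Q (m n : ℕ) (b : Bx) (Mhi : ℚ) : ℚ :=
  4 / PH ^ 2 * (1 - 2614 / 10000 * ((b.X1 ^ 2 + b.U1 ^ 2) / 2)) ^ 2 * eLoF (up (727 / 1000 * Mhi)) *
    (if m = 1 then 1 else sc2 b.X1 ^ (m - 1)) * (if n = 0 then 1 else sc2 b.Q1 ^ n)

def s4Q (kb m n : ℕ) (c0 c1 : ℚ) (b : Bx) (Mlo : ℚ) : ℚ :=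
  betQ kb 4 c0 c1 b / 16 * cop qE 4 m n b * eUpF (dn (8 / 3 * Mlo))

def s6Q (kb m n j : ℕ) (c0 c1 : ℚ) (b : Bx) (Mlo : ℚ) : ℚ :=
  betQ kb 6 c0 c1 b / 36 * cop qE 6 m n b * eUpF (dn (min 6 (3 / 2 / gr2 j ^ 2) * Mlo))

/-- the factor of a copy for even `k ≥ 8` -/
def cfE (X0 : ℚ) : ℚ := if 1 < 8 * X0 then 1 / (8 * X0) else 1

def aE (m n j : ℕ) (b : Bx) (Mlo : ℚ) : ℚ :=
  Mlo / (max (gr2 j) (57 / 100)) ^ 2 + (if 1 < 8 * b.X0 then ((m - 1 : ℕ) : ℚ) else 0) +
    (if 1 < 8 * b.Q0 then (n : ℚ) else 0)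

def comE (m n j : ℕ) (b : Bx) (Mlo : ℚ) : ℚ :=
  cfE b.X0 ^ (m - 1) * cfE b.Q0 ^ n * eUpF (dn (3 / 2 * (Mlo / (max (gr2 j) (57 / 100)) ^ 2)))

def seOK (m n j : ℕ) (b : Bx) (Mlo : ℚ) : Bool := bbOK 8 b || decide (3 < aE m n j b Mlo)

/-- the even harmonics `k ≥ 8` -/
def seQ (m n j : ℕ) (b : Bx) (Mlo : ℚ) : ℚ :=
  let a := aE m n j b Mlo
  let com := comE m n j b Mlo
  let t1 := upp (bbS 8 b) * com * (1 / 64 + 1 / (16 * (1 + a)))
  let t2 := 8 ^ 4 / 90 * com * (1 / 64 + 1 / (16 * (a - 3)))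
  if bbOK 8 b then (if 3 < a then min t1 t2 else t1) else t2

/-- grid index for the bound `r` of the rest (candidate, to be checked) -/
def idx1 (r : ℚ) : ℕ :=
  if r ≤ 6 / 10 then ⌈(r - 3 / 10) * 100⌉.toNat else 30 + ⌈(r - 6 / 10) * 1000⌉.toNat

def idx (r Mhi : ℚ) : ℕ := min (idx1 r) (idx1 (sqU Mhi))

def drop5 (m n : ℕ) (rho : ℚ) (b : Bx) : Bool :=
  decide (m % 2 = 0) && decide (n = 0) && decide (6284 / 10000 ≤ b.X0) &&
    decide (b.U1 ≤ 6283 / 10000) && decide (rho ≤ (6283 / 10000) ^ 2)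

/-- the odd test: all quantities; `j` is the grid index -/
def oddQ (kb m n j : ℕ) (w c0 c1 : ℚ) (b : Bx) (rho Mlo : ℚ) : ℚ :=
  b1Q ((b.X0 ^ 2 + b.U0 ^ 2) / 2) ((b.X1 ^ 2 + b.U1 ^ 2) / 2) *
    ((1 - 1 / 10 ^ 5) * gQ m n w (lamQ rho) b - 1) -
    (if drop5 m n rho b then 0 else sQ kb 5 m n j c0 c1 b Mlo) -
    sQ kb 7 m n j c0 c1 b Mlo - sQ kb 9 m n j c0 c1 b Mlo - sQ kb 11 m n j c0 c1 b Mlo -
    sQ kb 13 m n j c0 c1 b Mlo - sQ kb 15 m n j c0 c1 b Mlo - sQ kb 17 m n j c0 c1 b Mlo -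
    sQ kb 19 m n j c0 c1 b Mlo - sQ kb 21 m n j c0 c1 b Mlo - sQ kb 23 m n j c0 c1 b Mlo -
    sQ kb 25 m n j c0 c1 b Mlo - stQ m n j b Mlo - 1 / 10 ^ 8

def evenQ (kb m n j : ℕ) (w c0 c1 : ℚ) (b : Bx) (Mhi Mlo : ℚ) : ℚ :=
  (1 - 1 / 10 ^ 5) * g2Q m n b Mhi - s4Q kb m n c0 c1 b Mlo -
    s6Q kb m n j c0 c1 b Mlo - seQ m n j b Mlo - 4 / 10 ^ 4 / w ^ 2

def okJ (rb Mhi : ℚ) (j : ℕ) : Bool :=
  decide (j < 181) && (decide (rb ≤ gr2 j) || decide (Mhi ≤ gr2 j ^ 2))

/-- the odd test -/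
def chkO (m n : ℕ) (w rb : ℚ) (b : Bx) : Bool :=
  let Mhi := w - m * b.X0 ^ 2 - b.U0 ^ 2 - n * b.Q0 ^ 2
  let Mlo := max 0 (w - m * b.X1 ^ 2 - b.U1 ^ 2 - n * b.Q1 ^ 2)
  let j := idx rb Mhi
  let rho := min (rb ^ 2) Mhi
  let c0 := sqL ((b.X0 ^ 2 + b.U0 ^ 2) / 2)
  let c1 := sqU ((b.X1 ^ 2 + b.U1 ^ 2) / 2)
  decide (b.X1 ^ 2 ≤ 125 / 100) && (decide (9 * b.X1 ^ 2 ≤ PL) || decide (m = 1)) &&
    decide (9 * (b.X1 ^ 2 + b.U1 ^ 2) < 2 * PL) && decide (9 * b.Q1 ^ 2 ≤ PL) &&
    decide (rho ≤ 56 / 100) && okJ rb Mhi j && stOK m n j b Mlo &&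
    (decide (0 ≤ oddQ 3 m n j w c0 c1 b rho Mlo) || decide (0 ≤ oddQ 11 m n j w c0 c1 b rho Mlo) ||
      decide (0 ≤ oddQ 25 m n j w c0 c1 b rho Mlo))

/-- the even test -/
def chkE (m n : ℕ) (w rb : ℚ) (b : Bx) : Bool :=
  let Mhi := w - m * b.X0 ^ 2 - b.U0 ^ 2 - n * b.Q0 ^ 2
  let Mlo := max 0 (w - m * b.X1 ^ 2 - b.U1 ^ 2 - n * b.Q1 ^ 2)
  let j := idx rb Mhi
  let c0 := sqL ((b.X0 ^ 2 + b.U0 ^ 2) / 2)
  let c1 := sqU ((b.X1 ^ 2 + b.U1 ^ 2) / 2)
  decide (b.X1 ^ 2 ≤ 125 / 100) && decide (9 * (b.X1 ^ 2 + b.U1 ^ 2) < 2 * PL) &&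
    decide (b.Q1 ≤ 1) && okJ rb Mhi j && seOK m n j b Mlo &&
    (decide (0 ≤ evenQ 3 m n j w c0 c1 b Mhi Mlo) || decide (0 ≤ evenQ 6 m n j w c0 c1 b Mhi Mlo))

def Bx.scale (mu : ℚ) (b : Bx) : Bx :=
  ⟨mu * b.X0, mu * b.X1, mu * b.U0, mu * b.U1, mu * b.Q0, mu * b.Q1⟩

/-- the box test; `rb` is a bound for the rest, `mu` the scale of the even test -/
def chk (m n : ℕ) (w mu rb : ℚ) (b : Bx) : Bool :=
  decide (b.X1 ≤ b.U0) || decide (w - m * b.X0 ^ 2 - b.U0 ^ 2 - n * b.Q0 ^ 2 < 0) ||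
    decide (rb < 0) ||
  (if mu = 1 then chkE m n w rb b else chkE m n (mu ^ 2 * w) (mu * rb) (b.scale mu)) &&
    chkO m n w rb b

/-- bisection trees -/
inductive Tr
  | l : Tr
  | x : Tr → Tr → Tr
  | u : Tr → Tr → Tr
  | q : Tr → Tr → Tr

def Bx.xl (b : Bx) : Bx := { b with X1 := (b.X0 + b.X1) / 2 }
def Bx.xr (b : Bx) : Bx := { b with X0 := (b.X0 + b.X1) / 2 }
def Bx.ul (b : Bx) : Bx := { b with U1 := (b.U0 + b.U1) / 2 }
def Bx.ur (b : Bx) : Bx := { b with U0 := (b.U0 + b.U1) / 2 }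
def Bx.ql (b : Bx) : Bx := { b with Q1 := (b.Q0 + b.Q1) / 2 }
def Bx.qr (b : Bx) : Bx := { b with Q0 := (b.Q0 + b.Q1) / 2 }

/-- the test along a bisection tree; `emp` recognises irrelevant boxes, `rbf` bounds the rest -/
def cov (m n : ℕ) (w mu : ℚ) (emp : Bx → Bool) (rbf : Bx → ℚ) : Tr → Bx → Bool
  | .l, b => emp b || chk m n w mu (rbf b) b
  | .x s t, b => cov m n w mu emp rbf s b.xl && cov m n w mu emp rbf t b.xr
  | .u s t, b => cov m n w mu emp rbf s b.ul && cov m n w mu emp rbf t b.ur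
  | .q s t, b => cov m n w mu emp rbf s b.ql && cov m n w mu emp rbf t b.qr

end Pool.Agent.M18.Helper95.SP.Crude
end

/- Helper95.SP.Comb -/
section
/-!
Poisson summation for an even continuous function of compact support with summable transform.
-/

set_option autoImplicit false

namespace Pool.Agent.M18.Helper95.SP

open MeasureTheory Set Real Filter Topology
open scoped FourierTransform

/-- the cosine transform -/
noncomputable def ct (R : ℝ → ℝ) (ω : ℝ) : ℝ := ∫ s, cos (ω * s) * R s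

theorem ct_neg (R : ℝ → ℝ) (ω : ℝ) : ct R (-ω) = ct R ω := by
  unfold ct
  congr 1
  ext s
  rw [neg_mul, cos_neg]

theorem integrable_mul_cs {R w : ℝ → ℝ} (hc : Continuous R) (hw : Continuous w) {L : ℝ}
    (hs : ∀ s, L ≤ |s| → R s = 0) : Integrable (fun s => w s * R s) := by
  apply Continuous.integrable_of_hasCompactSupport (hw.mul hc)
  apply HasCompactSupport.mul_left
  apply HasCompactSupport.intro (K := Icc (-|L|) |L|) isCompact_Icc
  intro s hsn
  apply hs
  by_contra hcon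
  push Not at hcon
  apply hsn
  exact abs_le.mp (hcon.le.trans (le_abs_self L))

theorem fourier_eq_ct {R : ℝ → ℝ} (hc : Continuous R) (he : ∀ s, R (-s) = R s) {L : ℝ}
    (hs : ∀ s, L ≤ |s| → R s = 0) {P : ℝ} (hP : 0 < P) (ξ : ℝ) :
    𝓕 (fun y : ℝ => ((R (P * y) : ℝ) : ℂ)) ξ = ((1 / P * ct R (2 * π * ξ / P) : ℝ) : ℂ) := by
  rw [Real.fourier_real_eq_integral_exp_smul]
  have h1 : ∫ v : ℝ, Complex.exp (↑(-2 * π * v * ξ) * Complex.I) • ((R (P * v) : ℝ) : ℂ) =
      ((1 / P : ℝ) : ℂ) * ∫ s : ℝ, Complex.exp (↑(-2 * π * ξ / P * s) * Complex.I) * ((R s : ℝ) : ℂ) := by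
    have h2 := Measure.integral_comp_mul_left
      (fun s : ℝ => Complex.exp (↑(-2 * π * ξ / P * s) * Complex.I) * ((R s : ℝ) : ℂ)) P
    rw [abs_of_pos (by positivity)] at h2
    rw [one_div, ← Complex.real_smul, ← h2]
    congr 1
    ext v
    rw [smul_eq_mul]
    congr 3
    push_cast
    have : (P : ℂ) ≠ 0 := by exact_mod_cast hP.ne'
    field_simp
  rw [h1]
  have h3 : ∀ s : ℝ, Complex.exp (↑(-2 * π * ξ / P * s) * Complex.I) * ((R s : ℝ) : ℂ) =
      ((cos (2 * π * ξ / P * s) * R s : ℝ) : ℂ) - Complex.I * ((sin (2 * π * ξ / P * s) * R s : ℝ) : ℂ) := by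
    intro s
    rw [Complex.exp_mul_I]
    have e1 : -2 * π * ξ / P * s = -(2 * π * ξ / P * s) := by ring
    rw [e1]
    push_cast
    rw [Complex.cos_neg, Complex.sin_neg]
    ring
  simp_rw [h3]
  have i1 : Integrable (fun s => ((cos (2 * π * ξ / P * s) * R s : ℝ) : ℂ)) :=
    (integrable_mul_cs hc (w := fun s => cos (2 * π * ξ / P * s)) (by fun_prop) hs).ofReal
  have i2 : Integrable (fun s => ((sin (2 * π * ξ / P * s) * R s : ℝ) : ℂ)) :=
    (integrable_mul_cs hc (w := fun s => sin (2 * π * ξ / P * s)) (by fun_prop) hs).ofReal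
  rw [integral_sub i1 (i2.const_mul _), integral_const_mul, integral_complex_ofReal,
    integral_complex_ofReal]
  have h4 : ∫ s, sin (2 * π * ξ / P * s) * R s = 0 := by
    have h5 := integral_neg_eq_self (fun s => sin (2 * π * ξ / P * s) * R s) volume
    have h6 : ∫ s, sin (2 * π * ξ / P * -s) * R (-s) = -∫ s, sin (2 * π * ξ / P * s) * R s := by
      rw [← integral_neg]
      congr 1
      ext s
      rw [he, mul_neg, sin_neg]
      ring
    linarith
  rw [h4]
  unfold ct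
  push_cast
  ring

theorem comb {R : ℝ → ℝ} (hc : Continuous R) (he : ∀ s, R (-s) = R s) {L : ℝ}
    (hs : ∀ s, L ≤ |s| → R s = 0) {P : ℝ} (hP : 0 < P)
    (hsum : Summable fun k : ℤ => ct R (2 * π * k / P)) (x : ℝ) :
    ∑' j : ℤ, R (x + j * P) =
      1 / P * ∑' k : ℤ, ct R (2 * π * k / P) * cos (2 * π * k / P * x) := by
  set f : ℝ → ℂ := fun y => ((R (P * y) : ℝ) : ℂ) with hf
  have hfc : Continuous f := by
    simp only [hf]; fun_prop
  have hF : ∀ ξ, 𝓕 f ξ = ((1 / P * ct R (2 * π * ξ / P) : ℝ) : ℂ) := fourier_eq_ct hc he hs hP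
  have hO : Asymptotics.IsBigO (cocompact ℝ) f fun x : ℝ => |x| ^ (-(2:ℝ)) := by
    apply Asymptotics.IsBigO.of_bound 0
    have : ∀ᶠ y in cocompact ℝ, y ∉ Icc (-|L / P|) |L / P| :=
      isCompact_Icc.compl_mem_cocompact
    filter_upwards [this] with y hy
    have h1 : |L / P| < |y| := by
      by_contra hcon
      push Not at hcon
      exact hy (abs_le.mp hcon)
    have h2 : L ≤ |P * y| := by
      rw [abs_mul, abs_of_pos hP]
      rw [abs_div, abs_of_pos hP, div_lt_iff₀ hP] at h1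
      (clear * - h1; linarith [le_abs_self L])
    simp only [hf]
    rw [hs _ h2]
    simp
  have hS : Summable fun n : ℤ => 𝓕 f n := by
    simp_rw [hF]
    exact Complex.summable_ofReal.mpr (hsum.mul_left (1 / P))
  have key := Real.tsum_eq_tsum_fourier_of_rpow_decay_of_summable hfc one_lt_two hO hS (x / P)
  have e1 : ∀ n : ℤ, f (x / P + n) = ((R (x + n * P) : ℝ) : ℂ) := by
    intro n
    simp only [hf]
    congr 2
    field_simp
  simp_rw [e1] at key
  have e2 : ∀ n : ℤ, (𝓕 f n * fourier n ((x / P : ℝ) : UnitAddCircle)).re =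
      1 / P * (ct R (2 * π * n / P) * cos (2 * π * n / P * x)) := by
    intro n
    rw [hF, fourier_coe_apply, Complex.re_ofReal_mul]
    have : (2 * π * Complex.I * n * ((x / P : ℝ) : ℂ) / ((1:ℝ) : ℂ)) =
        ((2 * π * n / P * x : ℝ) : ℂ) * Complex.I := by
      push_cast; ring
    rw [this, Complex.exp_ofReal_mul_I_re]
    ring
  have hsum2 : Summable fun n : ℤ => 𝓕 f n * fourier n ((x / P : ℝ) : UnitAddCircle) := by
    apply Summable.of_norm
    have := hS.norm
    refine this.congr fun n => ?_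
    rw [norm_mul, fourier_coe_apply]
    have : (2 * π * Complex.I * n * ((x / P : ℝ) : ℂ) / ((1:ℝ) : ℂ)) =
        ((2 * π * n / P * x : ℝ) : ℂ) * Complex.I := by
      push_cast; ring
    rw [this, Complex.norm_exp_ofReal_mul_I, mul_one]
  have key2 := congrArg Complex.re key
  rw [← Complex.ofReal_tsum, Complex.ofReal_re, Complex.re_tsum hsum2] at key2
  simp_rw [e2] at key2
  rw [key2, tsum_mul_left]

end Pool.Agent.M18.Helper95.SP
end

/- Helper95.SP.Crude.ExpQ -/
section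
/-!
Soundness of the rounding functions and of the rational evaluators `eUp`, `eLo` of `exp (-E)`.
-/

set_option autoImplicit false

namespace Pool.Agent.M18.Helper95.SP.Crude

open Real Finset

theorem dn_le (x : ℚ) : dn x ≤ x := by
  unfold dn
  rw [div_le_iff₀ (by norm_num)]
  exact Int.floor_le _

theorem le_up (x : ℚ) : x ≤ up x := by
  unfold up
  rw [le_div_iff₀ (by norm_num)]
  exact Int.le_ceil _

theorem le_upp (x : ℚ) : x ≤ upp x := by
  unfold upp
  rw [le_div_iff₀ (by norm_num)]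
  exact Int.le_ceil _

theorem dn_nonneg {x : ℚ} (h : 0 ≤ x) : 0 ≤ dn x := by
  unfold dn
  have : (0 : ℤ) ≤ ⌊x * 10000⌋ := Int.floor_nonneg.mpr (by positivity)
  have h2 : (0 : ℚ) ≤ ((⌊x * 10000⌋ : ℤ) : ℚ) := by exact_mod_cast this
  positivity

theorem ExpQ.exp_eq (E : ℚ) : exp (-(E : ℝ)) = 1 / exp ((E : ℝ) / 16) ^ 16 := by
  rw [← Real.exp_nat_mul, Real.exp_neg, one_div]
  congr 2
  push_cast
  ring

end Pool.Agent.M18.Helper95.SP.Crude
end

/- Helper95.SP.Crude.CovDefs -/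
section
/-!
The box computations for the different kinds of pair facts.
-/

set_option autoImplicit false

namespace Pool.Agent.M18.Helper95.SP.Crude

/-- a nonincreasing bound: `top` up to `t`, then a line -/
def lineQ (t top a b p0 : ℚ) (y : ℚ) : ℚ := if y ≤ t then top else a - b * (y - p0)
def noQ : ℚ → ℚ := fun _ => 9

def t02 : ℚ := 15416 / 10000
def t04 : ℚ := 1512 / 1000
def t06 : ℚ := 14833 / 10000
def t08 : ℚ := 14558 / 10000
def t10 : ℚ := 14293 / 10000
def t20 : ℚ := 13101 / 10000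
def t35 : ℚ := 11645 / 10000
def mu35 : ℚ := 15120 / 11645

/-- the box of the angles -/
def mk (th a b c d e f : ℚ) : Bx := ⟨th * a, th * b, th * c, th * d, th * e, th * f⟩

/-- tests for the facts M -/
def empM (th : ℚ) (S : ℚ → ℚ) (b : Bx) : Bool := decide (S (b.X0 / th) * th < b.X0 + b.U0)
def covM (m : ℕ) (th mu : ℚ) (S : ℚ → ℚ) (T : Tr) (a b d : ℚ) : Bool :=
  cov m 0 (th ^ 2) mu (empM th S) (fun b => b.U1) T (mk th a b 0 d 0 0)

/-- test for the fact D -/
def covD (th mu : ℚ) (T : Tr) (b : ℚ) : Bool :=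
  cov 1 0 (th ^ 2) mu (fun _ => false) (fun b => b.X1) T (mk th 0 b 0 b 0 0)

/-- tests for the facts A -/
def rbA (th : ℚ) (S : ℚ → ℚ) (b : Bx) : ℚ := min b.U1 (S (b.X0 / th) * th - b.U0)
def covA (th mu : ℚ) (K : ℚ) (S : ℚ → ℚ) (T : Tr) (a b c d : ℚ) : Bool :=
  cov 1 0 (th ^ 2) mu (fun b => decide (K * th < b.X0 + b.U0)) (rbA th S) T (mk th a b c d 0 0)

/-- tests for the facts B -/
def empB (th : ℚ) (Slo Shi : ℚ → ℚ) (b : Bx) : Bool :=
  decide (Shi (b.X0 / th) * th < b.Q0 + b.U0) || decide (b.Q1 + b.U1 < Slo (b.X1 / th) * th) ||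
    decide (b.Q1 < b.U0) || decide (b.X1 < b.Q0)
def covB (th mu : ℚ) (Slo Shi : ℚ → ℚ) (T : Tr) (a b c d e f : ℚ) : Bool :=
  cov 1 1 (th ^ 2) mu (empB th Slo Shi) (fun b => b.U1) T (mk th a b c d e f)

/-- splitting the computation -/
theorem cov_x {m n : ℕ} {w mu : ℚ} {emp : Bx → Bool} {rbf : Bx → ℚ} {s t : Tr} {b : Bx}
    (h1 : cov m n w mu emp rbf s b.xl = true) (h2 : cov m n w mu emp rbf t b.xr = true) :
    cov m n w mu emp rbf (.x s t) b = true := by
  unfold cov
  rw [h1, h2]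
  rfl

theorem cov_u {m n : ℕ} {w mu : ℚ} {emp : Bx → Bool} {rbf : Bx → ℚ} {s t : Tr} {b : Bx}
    (h1 : cov m n w mu emp rbf s b.ul = true) (h2 : cov m n w mu emp rbf t b.ur = true) :
    cov m n w mu emp rbf (.u s t) b = true := by
  unfold cov
  rw [h1, h2]
  rfl

theorem cov_q {m n : ℕ} {w mu : ℚ} {emp : Bx → Bool} {rbf : Bx → ℚ} {s t : Tr} {b : Bx}
    (h1 : cov m n w mu emp rbf s b.ql = true) (h2 : cov m n w mu emp rbf t b.qr = true) :
    cov m n w mu emp rbf (.q s t) b = true := by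
  unfold cov
  rw [h1, h2]
  rfl

end Pool.Agent.M18.Helper95.SP.Crude
end
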