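import Mathlib
import Pool.Agent.Helper53.AM.G01

/- Helper95.SP.Crude.Adm2b1 -/
section
set_option autoImplicit false

namespace Pool.Agent.M18.Helper95.SP.Crude

theorem subA7 : ∀ i < 152, subA 7 (448 + i) = true := by decide +kernel
theorem subA9 : ∀ i < 251, subA 9 (349 + i) = true := by decide +kernel
theorem subA11 : ∀ i < 315, subA 11 (285 + i) = true := by decide +kernel
theorem subA13 : ∀ i < 359, subA 13 (241 + i) = true := by decide +kernel

end Pool.Agent.M18.Helper95.SP.Crude
end
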