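import Mathlib
import Pool.Agent.Helper53.AM.G01

/- Helper95.SP.Crude.Adm2a3 -/
section
set_option autoImplicit false

namespace Pool.Agent.M18.Helper95.SP.Crude

theorem subB21 : ∀ i < 300, subB 21 (1200 + i) = true := by decide +kernel
theorem subB23 : ∀ i < 300, subB 23 (1200 + i) = true := by decide +kernel
theorem subB25 : ∀ i < 300, subB 25 (1200 + i) = true := by decide +kernel

end Pool.Agent.M18.Helper95.SP.Crude
end

/- Helper95.SP.Crude.Adm2b3 -/
section
set_option autoImplicit false

namespace Pool.Agent.M18.Helper95.SP.Crude

theorem subA21 : ∀ i < 451, subA 21 (149 + i) = true := by decide +kernel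
theorem subA23 : ∀ i < 464, subA 23 (136 + i) = true := by decide +kernel
theorem subA25 : ∀ i < 475, subA 25 (125 + i) = true := by decide +kernel

end Pool.Agent.M18.Helper95.SP.Crude
end
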