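import Mathlib
import Pool.Agent.Helper53.AM.G03

/- Helper46.FA.Far -/
section
/-!
# FA-F3f: far tail of the series of the square wave
-/

set_option autoImplicit false

open MeasureTheory Set Real

namespace Pool.Agent.M18.Helper89.FA

namespace FarAux

open Pool.Agent.M18.Helper88.Slab (abs_sinc_le_inv sinc_nonneg sinc_le)

lemma log_le_six {Z : ℝ} (hZ : π ≤ Z) : log Z ≤ Z ^ 2 / 6 := by
  have hpi : 3 < π := pi_gt_three
  have hZ0 : 0 < Z := by (clear * - hZ hpi; linarith)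
  have he : 0 < exp 1 := exp_pos 1
  have h1 : log (Z / exp 1) ≤ Z / exp 1 - 1 := log_le_sub_one_of_pos (by positivity)
  rw [log_div hZ0.ne' he.ne', log_exp] at h1
  have h2 : Z / exp 1 ≤ Z / 2 := by
    have : (2 : ℝ) ≤ exp 1 := by
      have := exp_one_gt_d9; (clear * - this; linarith)
    exact div_le_div_of_nonneg_left hZ0.le (by norm_num) this
  (clear * - hZ hpi h1 h2; nlinarith)

lemma gen {z Z : ℝ} (hZ : π ≤ Z) (hz : |z| ≤ Z) :
    |sinc z| ≤ exp (-(log Z / Z ^ 2 * z ^ 2)) := by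
  have hpi : 3 < π := pi_gt_three
  have hZ0 : 0 < Z := by (clear * - hZ hpi; linarith)
  rcases le_total |z| π with h | h
  · rw [abs_of_nonneg (sinc_nonneg h)]
    refine (sinc_le h).trans (exp_le_exp.mpr ?_)
    have h1 : log Z / Z ^ 2 ≤ 1 / 6 := by
      rw [div_le_iff₀ (by positivity)]
      have := log_le_six hZ; (clear * - this; linarith)
    have h2 : log Z / Z ^ 2 * z ^ 2 ≤ 1 / 6 * z ^ 2 :=
      mul_le_mul_of_nonneg_right h1 (sq_nonneg z)
    (clear * - h2; linarith)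
  · have hz0 : 0 < |z| := by linarith
    have hzne : z ≠ 0 := abs_pos.mp hz0
    refine (abs_sinc_le_inv hzne).trans ?_
    have hexp3 : exp 1 ≤ 3 := by have := exp_one_lt_d9; (clear * - this; linarith)
    have h1 : log Z / Z ≤ log |z| / |z| :=
      log_div_self_antitoneOn (show exp 1 ≤ |z| by linarith) (show exp 1 ≤ Z by linarith) hz
    have hl : 0 ≤ log Z := log_nonneg (by (clear * - hZ hpi; linarith))
    have h2 : log Z / Z ^ 2 * z ^ 2 ≤ log |z| := by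
      rw [← sq_abs z]
      have h3 : log Z / Z ^ 2 * |z| ^ 2 = (log Z / Z) * (|z| / Z) * |z| := by
        field_simp
      rw [h3]
      have h4 : |z| / Z ≤ 1 := by rw [div_le_one hZ0]; exact hz
      have h5 : (log Z / Z) * (|z| / Z) ≤ log Z / Z := by
        have : 0 ≤ log Z / Z := by (clear * - hl hZ0; positivity)
        (clear * - h4 this; nlinarith)
      have h6 : (log Z / Z) * (|z| / Z) ≤ log |z| / |z| := h5.trans h1
      calc (log Z / Z) * (|z| / Z) * |z| ≤ log |z| / |z| * |z| :=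
            mul_le_mul_of_nonneg_right h6 hz0.le
        _ = log |z| := by (clear * - hzne; field_simp)
    calc 1 / |z| = exp (-(log |z|)) := by rw [exp_neg, exp_log hz0, one_div]
      _ ≤ exp (-(log Z / Z ^ 2 * z ^ 2)) := exp_le_exp.mpr (by (clear * - h2; linarith))

lemma tele (f v : ℕ → ℝ) (D : ℝ) (hf : ∀ k, 0 ≤ f k) (hD : 0 ≤ D) (hv : ∀ k, 0 ≤ v k)
    (h : ∀ k, f k ≤ D * (v k - v (k + 1))) : Summable f ∧ ∑' k, f k ≤ D * v 0 := by
  have hs : ∀ n, ∑ i ∈ Finset.range n, f i ≤ D * v 0 := by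
    intro n
    have h1 : ∑ i ∈ Finset.range n, f i ≤ D * (v 0 - v n) := by
      induction n with
      | zero => simp
      | succ n ih =>
        rw [Finset.sum_range_succ]
        have := h n
        (clear * - ih this; nlinarith)
    have h2 : 0 ≤ D * v n := mul_nonneg hD (hv n)
    (clear * - h1 h2; nlinarith)
  exact ⟨summable_of_sum_range_le hf hs, Real.tsum_le_of_sum_range_le hf hs⟩

lemma quartic (K : ℝ) (hK : 11 ≤ K) :
    1 / K ^ 4 ≤ 1 / 6 * (1 / (K - 1) ^ 3 - 1 / (K + 1) ^ 3) := by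
  have h1 : 0 < K - 1 := by (clear * - hK; linarith)
  have h2 : 0 < K + 1 := by (clear * - hK; linarith)
  have h0 : 0 < K := by linarith
  have e : 1 / 6 * (1 / (K - 1) ^ 3 - 1 / (K + 1) ^ 3)
      = (6 * K ^ 2 + 2) / (6 * ((K - 1) ^ 3 * (K + 1) ^ 3)) := by
    field_simp
    ring
  rw [e, div_le_div_iff₀ (by positivity) (by (clear * - h1 hK; positivity))]
  have h3 : (K - 1) ^ 3 * (K + 1) ^ 3 = (K ^ 2 - 1) ^ 3 := by ring
  rw [h3]
  have h4 : 0 < K ^ 2 := by positivity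
  (clear * - h4; nlinarith [mul_pos h4 h4, mul_pos (mul_pos h4 h4) h4, sq_nonneg (K ^ 2 - 1)])

end FarAux

open FarAux

/-- F3f. Far tail, all coordinates. -/
theorem far_all {n : ℕ} (x : Fin n → ℝ) {w m : ℝ} (hw : w ≤ ∑ j, x j ^ 2) (hm : ∀ j, |x j| ≤ m)
    (hm1 : π ≤ 11 * m) (hE : 3 * m ^ 2 ≤ w) :
    Summable (fun k : ℕ => |∏ j, sinc ((2 * ((k + 5 : ℕ) : ℝ) + 1) * x j)| / (2 * ((k + 5 : ℕ) : ℝ) + 1)) ∧
    ∑' k : ℕ, |∏ j, sinc ((2 * ((k + 5 : ℕ) : ℝ) + 1) * x j)| / (2 * ((k + 5 : ℕ) : ℝ) + 1) ≤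
      exp (-(w / m ^ 2 - 3) * log (11 * m)) / (6000 * m ^ 3) := by
  have hpi : 3 < π := pi_gt_three
  have hm0 : 0 < m := by linarith
  set C : ℝ := exp (-(w / m ^ 2 - 3) * log (11 * m)) with hC
  have hC0 : 0 < C := exp_pos _
  have key := tele
    (fun k : ℕ => |∏ j, sinc ((2 * ((k + 5 : ℕ) : ℝ) + 1) * x j)| / (2 * ((k + 5 : ℕ) : ℝ) + 1))
    (fun k : ℕ => 1 / 6 * (1 / (2 * (k : ℝ) + 10) ^ 3)) (C / m ^ 3)
    (fun k => by (clear * -; positivity)) (by positivity) (fun k => by positivity) ?_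
  · refine ⟨key.1, key.2.trans (le_of_eq ?_)⟩
    simp only [Nat.cast_zero, mul_zero, zero_add]
    field_simp
    norm_num
  · intro k
    set K : ℝ := 2 * ((k + 5 : ℕ) : ℝ) + 1 with hK
    have hK' : K = 2 * (k : ℝ) + 11 := by rw [hK]; push_cast; ring
    have hk0 : (0 : ℝ) ≤ (k : ℝ) := Nat.cast_nonneg k
    have hK11 : 11 ≤ K := by rw [hK']; (clear * -; linarith)
    have hK0 : 0 < K := by (clear * - hK'; linarith)
    have hZ11 : 11 * m ≤ K * m := mul_le_mul_of_nonneg_right hK11 hm0.le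
    have hZ : π ≤ K * m := hm1.trans hZ11
    have hZ0 : 0 < K * m := by (clear * - hm0; positivity)
    have hlogZ : 0 ≤ log (K * m) := log_nonneg (by (clear * - hm1 hpi hm0 hZ11; linarith))
    have hE' : 3 ≤ w / m ^ 2 := by rw [le_div_iff₀ (by positivity)]; exact hE
    have hlog11 : log (11 * m) ≤ log (K * m) := log_le_log (by positivity) hZ11
    have hprod : |∏ j, sinc (K * x j)| ≤ C * (1 / (K * m) ^ 3) := by
      rw [Finset.abs_prod]
      calc ∏ j, |sinc (K * x j)|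
          ≤ ∏ j, exp (-(log (K * m) / (K * m) ^ 2 * (K * x j) ^ 2)) := by
            refine Finset.prod_le_prod (fun _ _ => abs_nonneg _) fun j _ => ?_
            refine gen hZ ?_
            rw [abs_mul, abs_of_pos hK0]
            exact mul_le_mul_of_nonneg_left (hm j) hK0.le
        _ = exp (-(log (K * m) / m ^ 2 * ∑ j, x j ^ 2)) := by
            rw [← exp_sum, Finset.sum_neg_distrib, Finset.mul_sum]
            congr 2
            refine Finset.sum_congr rfl fun j _ => ?_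
            (clear * - hK11 hm0; field_simp)
        _ ≤ exp (-(w / m ^ 2 - 3) * log (K * m) - 3 * log (K * m)) := by
            refine exp_le_exp.mpr ?_
            have h1 : log (K * m) / m ^ 2 * w ≤ log (K * m) / m ^ 2 * ∑ j, x j ^ 2 :=
              mul_le_mul_of_nonneg_left hw (by (clear * - hlogZ hm0; positivity))
            have h2 : log (K * m) / m ^ 2 * w = w / m ^ 2 * log (K * m) := by ring
            (clear * - h1 h2; nlinarith)
        _ = exp (-(w / m ^ 2 - 3) * log (K * m)) * (1 / (K * m) ^ 3) := by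
            rw [exp_sub]
            have : exp (3 * log (K * m)) = (K * m) ^ 3 := by
              rw [show (3 : ℝ) * log (K * m) = ((3 : ℕ) : ℝ) * log (K * m) by norm_num,
                exp_nat_mul, exp_log hZ0]
            rw [this]; ring
        _ ≤ C * (1 / (K * m) ^ 3) := by
            refine mul_le_mul_of_nonneg_right ?_ (by (clear * - hm0; positivity))
            rw [hC]
            refine exp_le_exp.mpr ?_
            (clear * - hE' hlog11; nlinarith)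
    have hq := quartic K hK11
    have e1 : K - 1 = 2 * (k : ℝ) + 10 := by rw [hK']; ring
    have e2 : K + 1 = 2 * ((k + 1 : ℕ) : ℝ) + 10 := by rw [hK']; push_cast; ring
    calc |∏ j, sinc (K * x j)| / K ≤ C * (1 / (K * m) ^ 3) / K :=
          div_le_div_of_nonneg_right hprod hK0.le
      _ = C / m ^ 3 * (1 / K ^ 4) := by
          (clear * - hm0 hK11 hC0; field_simp)
      _ ≤ C / m ^ 3 * (1 / 6 * (1 / (K - 1) ^ 3 - 1 / (K + 1) ^ 3)) :=
          mul_le_mul_of_nonneg_left hq (by positivity)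
      _ = C / m ^ 3 * (1 / 6 * (1 / (2 * (k : ℝ) + 10) ^ 3)
            - 1 / 6 * (1 / (2 * ((k + 1 : ℕ) : ℝ) + 10) ^ 3)) := by
          rw [e1, e2]; ring

/-- F3f. Far tail, one coordinate apart. -/
theorem far_one {n : ℕ} (x : Fin n → ℝ) (i : Fin n) {r m x0 : ℝ} (hx0 : 0 < x0) (hi : x0 ≤ |x i|)
    (hr : r ≤ ∑ j ∈ Finset.univ.erase i, x j ^ 2) (hm : ∀ j, j ≠ i → |x j| ≤ m)
    (hm1 : π ≤ 11 * m) (hE : 2 * m ^ 2 ≤ r) :
    Summable (fun k : ℕ => |∏ j, sinc ((2 * ((k + 5 : ℕ) : ℝ) + 1) * x j)| / (2 * ((k + 5 : ℕ) : ℝ) + 1)) ∧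
    ∑' k : ℕ, |∏ j, sinc ((2 * ((k + 5 : ℕ) : ℝ) + 1) * x j)| / (2 * ((k + 5 : ℕ) : ℝ) + 1) ≤
      exp (-(r / m ^ 2 - 2) * log (11 * m)) / (6000 * m ^ 2 * x0) := by
  have hpi : 3 < π := pi_gt_three
  have hm0 : 0 < m := by (clear * - hm1 hpi; linarith)
  set C : ℝ := exp (-(r / m ^ 2 - 2) * log (11 * m)) with hC
  have hC0 : 0 < C := exp_pos _
  have key := tele
    (fun k : ℕ => |∏ j, sinc ((2 * ((k + 5 : ℕ) : ℝ) + 1) * x j)| / (2 * ((k + 5 : ℕ) : ℝ) + 1))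
    (fun k : ℕ => 1 / 6 * (1 / (2 * (k : ℝ) + 10) ^ 3)) (C / (m ^ 2 * x0))
    (fun k => by (clear * -; positivity)) (by (clear * - hm0 hx0; positivity)) (fun k => by (clear * -; positivity)) ?_
  · refine ⟨key.1, key.2.trans (le_of_eq ?_)⟩
    simp only [Nat.cast_zero, mul_zero, zero_add]
    field_simp
    norm_num
  · intro k
    set K : ℝ := 2 * ((k + 5 : ℕ) : ℝ) + 1 with hK
    have hK' : K = 2 * (k : ℝ) + 11 := by rw [hK]; push_cast; ring
    have hk0 : (0 : ℝ) ≤ (k : ℝ) := Nat.cast_nonneg k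
    have hK11 : 11 ≤ K := by rw [hK']; (clear * -; linarith)
    have hK0 : 0 < K := by (clear * - hK'; linarith)
    have hZ11 : 11 * m ≤ K * m := mul_le_mul_of_nonneg_right hK11 hm0.le
    have hZ : π ≤ K * m := hm1.trans hZ11
    have hZ0 : 0 < K * m := by (clear * - hm0; positivity)
    have hlogZ : 0 ≤ log (K * m) := log_nonneg (by (clear * - hm1 hpi hm0 hZ11; linarith))
    have hE' : 2 ≤ r / m ^ 2 := by rw [le_div_iff₀ (by positivity)]; exact hE
    have hlog11 : log (11 * m) ≤ log (K * m) := log_le_log (by positivity) hZ11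
    have hi0 : 0 < |x i| := lt_of_lt_of_le hx0 hi
    have hxi : |sinc (K * x i)| ≤ 1 / (K * x0) := by
      have hne : K * x i ≠ 0 := mul_ne_zero hK0.ne' (abs_pos.mp hi0)
      refine (Pool.Agent.M18.Helper88.Slab.abs_sinc_le_inv hne).trans ?_
      rw [abs_mul, abs_of_pos hK0]
      exact one_div_le_one_div_of_le (by positivity) (mul_le_mul_of_nonneg_left hi hK0.le)
    have hprod0 : ∏ j ∈ Finset.univ.erase i, |sinc (K * x j)| ≤ C * (1 / (K * m) ^ 2) := by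
      calc ∏ j ∈ Finset.univ.erase i, |sinc (K * x j)|
          ≤ ∏ j ∈ Finset.univ.erase i, exp (-(log (K * m) / (K * m) ^ 2 * (K * x j) ^ 2)) := by
            refine Finset.prod_le_prod (fun _ _ => abs_nonneg _) fun j hj => ?_
            refine gen hZ ?_
            rw [abs_mul, abs_of_pos hK0]
            exact mul_le_mul_of_nonneg_left (hm j (Finset.ne_of_mem_erase hj)) hK0.le
        _ = exp (-(log (K * m) / m ^ 2 * ∑ j ∈ Finset.univ.erase i, x j ^ 2)) := by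
            rw [← exp_sum, Finset.sum_neg_distrib, Finset.mul_sum]
            congr 2
            refine Finset.sum_congr rfl fun j _ => ?_
            (clear * - hK11 hm0; field_simp)
        _ ≤ exp (-(r / m ^ 2 - 2) * log (K * m) - 2 * log (K * m)) := by
            refine exp_le_exp.mpr ?_
            have h1 : log (K * m) / m ^ 2 * r
                ≤ log (K * m) / m ^ 2 * ∑ j ∈ Finset.univ.erase i, x j ^ 2 :=
              mul_le_mul_of_nonneg_left hr (by (clear * - hlogZ hm0; positivity))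
            have h2 : log (K * m) / m ^ 2 * r = r / m ^ 2 * log (K * m) := by ring
            (clear * - h1 h2; nlinarith)
        _ = exp (-(r / m ^ 2 - 2) * log (K * m)) * (1 / (K * m) ^ 2) := by
            rw [exp_sub]
            have : exp (2 * log (K * m)) = (K * m) ^ 2 := by
              rw [show (2 : ℝ) * log (K * m) = ((2 : ℕ) : ℝ) * log (K * m) by norm_num,
                exp_nat_mul, exp_log hZ0]
            rw [this]; ring
        _ ≤ C * (1 / (K * m) ^ 2) := by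
            refine mul_le_mul_of_nonneg_right ?_ (by (clear * - hm0; positivity))
            rw [hC]
            refine exp_le_exp.mpr ?_
            (clear * - hE' hlog11; nlinarith)
    have hprod : |∏ j, sinc (K * x j)| ≤ 1 / (K * x0) * (C * (1 / (K * m) ^ 2)) := by
      rw [Finset.abs_prod, ← Finset.mul_prod_erase Finset.univ _ (Finset.mem_univ i)]
      exact mul_le_mul hxi hprod0 (Finset.prod_nonneg fun _ _ => abs_nonneg _) (by positivity)
    have hq := quartic K hK11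
    have e1 : K - 1 = 2 * (k : ℝ) + 10 := by rw [hK']; ring
    have e2 : K + 1 = 2 * ((k + 1 : ℕ) : ℝ) + 10 := by rw [hK']; push_cast; ring
    calc |∏ j, sinc (K * x j)| / K ≤ 1 / (K * x0) * (C * (1 / (K * m) ^ 2)) / K :=
          div_le_div_of_nonneg_right hprod hK0.le
      _ = C / (m ^ 2 * x0) * (1 / K ^ 4) := by
          field_simp
      _ ≤ C / (m ^ 2 * x0) * (1 / 6 * (1 / (K - 1) ^ 3 - 1 / (K + 1) ^ 3)) :=
          mul_le_mul_of_nonneg_left hq (by positivity)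
      _ = C / (m ^ 2 * x0) * (1 / 6 * (1 / (2 * (k : ℝ) + 10) ^ 3)
            - 1 / 6 * (1 / (2 * ((k + 1 : ℕ) : ℝ) + 10) ^ 3)) := by
          rw [e1, e2]; ring

end Pool.Agent.M18.Helper89.FA
end

/- Helper51.FA.TailBound -/
section
/-!
Tail of the series of the square wave (module F3t).
-/

set_option autoImplicit false

open MeasureTheory Set Real

namespace Pool.Agent.M18.Helper89.FA

namespace TailB

/-- Upper bound for `exp (-a)`. -/
lemma exp_neg_bd (n : ℕ) {a f b : ℝ} (hf : 0 ≤ f) (ha : (n : ℝ) + f ≤ a)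
    (hb : 1 ≤ b * ((2.7182818283 : ℝ) ^ n * (1 + f + f ^ 2 / 2 + f ^ 3 / 6))) : exp (-a) ≤ b := by
  have h1 : (2.7182818283 : ℝ) ^ n ≤ exp n := by
    have := Real.exp_one_gt_d9
    calc (2.7182818283 : ℝ) ^ n ≤ (exp 1) ^ n := by
          apply pow_le_pow_left₀ (by norm_num)
          exact this.le
      _ = exp n := by rw [← Real.exp_nat_mul]; simp
  have h2 : 1 + f + f ^ 2 / 2 + f ^ 3 / 6 ≤ exp f := by
    have := Real.sum_le_exp_of_nonneg hf 4
    simp [Finset.sum_range_succ, Nat.factorial] at this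
    (clear * - this; linarith)
  have h3 : (2.7182818283 : ℝ) ^ n * (1 + f + f ^ 2 / 2 + f ^ 3 / 6) ≤ exp a := by
    calc (2.7182818283 : ℝ) ^ n * (1 + f + f ^ 2 / 2 + f ^ 3 / 6) ≤ exp n * exp f := by
          apply mul_le_mul h1 h2 (by (clear * - hf; positivity)) (by positivity)
      _ = exp (n + f) := by rw [Real.exp_add]
      _ ≤ exp a := Real.exp_le_exp.mpr ha
  have hpos : 0 < (2.7182818283 : ℝ) ^ n * (1 + f + f ^ 2 / 2 + f ^ 3 / 6) := by (clear * - hf; positivity)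
  have hb0 : 0 ≤ b := by
    by_contra h
    push Not at h
    (clear * - hb hpos h; nlinarith)
  rw [Real.exp_neg]
  rw [inv_le_iff_one_le_mul₀ (exp_pos a)]
  calc (1 : ℝ) ≤ b * ((2.7182818283 : ℝ) ^ n * (1 + f + f ^ 2 / 2 + f ^ 3 / 6)) := hb
    _ ≤ b * exp a := by apply mul_le_mul_of_nonneg_left h3 hb0

/-- The product over a finite set of coordinates. -/
lemma prod_bd {n : ℕ} (x : Fin n → ℝ) (s : Finset (Fin n)) {K m c r : ℝ} (hK : 0 ≤ K) (hc : 0 ≤ c)
    (hr : r ≤ ∑ j ∈ s, x j ^ 2) (hm : ∀ j ∈ s, |x j| ≤ m)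
    (hs : ∀ z : ℝ, |z| ≤ K * m → |sinc z| ≤ exp (-(c * z ^ 2))) :
    ∏ j ∈ s, |sinc (K * x j)| ≤ exp (-(c * K ^ 2 * r)) := by
  calc ∏ j ∈ s, |sinc (K * x j)| ≤ ∏ j ∈ s, exp (-(c * (K * x j) ^ 2)) := by
        apply Finset.prod_le_prod
        · intro j _; (clear * -; positivity)
        · intro j hj
          apply hs
          rw [abs_mul, abs_of_nonneg hK]
          exact mul_le_mul_of_nonneg_left (hm j hj) hK
    _ = exp (∑ j ∈ s, -(c * (K * x j) ^ 2)) := by rw [Real.exp_sum]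
    _ ≤ exp (-(c * K ^ 2 * r)) := by
        apply Real.exp_le_exp.mpr
        have : ∑ j ∈ s, -(c * (K * x j) ^ 2) = -(c * K ^ 2 * ∑ j ∈ s, x j ^ 2) := by
          rw [Finset.mul_sum, ← Finset.sum_neg_distrib]
          apply Finset.sum_congr rfl
          intro j _; ring
        rw [this]
        have : c * K ^ 2 * r ≤ c * K ^ 2 * ∑ j ∈ s, x j ^ 2 :=
          mul_le_mul_of_nonneg_left hr (by (clear * - hc; positivity))
        (clear * - this; linarith)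

lemma prod_all {n : ℕ} (x : Fin n → ℝ) {K m c r : ℝ} (hK : 0 ≤ K) (hc : 0 ≤ c)
    (hr : r ≤ ∑ j, x j ^ 2) (hm : ∀ j, |x j| ≤ m)
    (hs : ∀ z : ℝ, |z| ≤ K * m → |sinc z| ≤ exp (-(c * z ^ 2))) :
    |∏ j, sinc (K * x j)| ≤ exp (-(c * K ^ 2 * r)) := by
  rw [Finset.abs_prod]
  exact prod_bd x Finset.univ hK hc hr (fun j _ => hm j) hs

lemma prod_one {n : ℕ} (x : Fin n → ℝ) (i : Fin n) {K m c r s : ℝ} (hK : 0 ≤ K) (hc : 0 ≤ c)
    (hr : r ≤ ∑ j ∈ Finset.univ.erase i, x j ^ 2) (hm : ∀ j, j ≠ i → |x j| ≤ m)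
    (hs : ∀ z : ℝ, |z| ≤ K * m → |sinc z| ≤ exp (-(c * z ^ 2))) (hi : |sinc (K * x i)| ≤ s) :
    |∏ j, sinc (K * x j)| ≤ s * exp (-(c * K ^ 2 * r)) := by
  rw [Finset.abs_prod, ← Finset.mul_prod_erase Finset.univ _ (Finset.mem_univ i)]
  have h := prod_bd x (Finset.univ.erase i) hK hc hr
    (fun j hj => hm j (Finset.ne_of_mem_erase hj)) hs
  exact mul_le_mul hi h (by (clear * -; positivity)) (le_trans (abs_nonneg _) hi)

/-- Splitting the first three terms. -/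
lemma split3 {n : ℕ} (x : Fin n → ℝ) {e5 e7 e9 F : ℝ}
    (h5 : |∏ j, sinc (5 * x j)| ≤ e5) (h7 : |∏ j, sinc (7 * x j)| ≤ e7)
    (h9 : |∏ j, sinc (9 * x j)| ≤ e9)
    (hF : Summable (fun k : ℕ => |∏ j, sinc ((2 * ((k + 5 : ℕ) : ℝ) + 1) * x j)| /
        (2 * ((k + 5 : ℕ) : ℝ) + 1)) ∧
      ∑' k : ℕ, |∏ j, sinc ((2 * ((k + 5 : ℕ) : ℝ) + 1) * x j)| /
        (2 * ((k + 5 : ℕ) : ℝ) + 1) ≤ F) :
    Summable (fun k : ℕ => |∏ j, sinc ((2 * ((k + 2 : ℕ) : ℝ) + 1) * x j)| / (2 * ((k + 2 : ℕ) : ℝ) + 1)) ∧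
    ∑' k : ℕ, |∏ j, sinc ((2 * ((k + 2 : ℕ) : ℝ) + 1) * x j)| / (2 * ((k + 2 : ℕ) : ℝ) + 1) ≤
      e5 / 5 + e7 / 7 + e9 / 9 + F := by
  set f : ℕ → ℝ := fun k : ℕ => |∏ j, sinc ((2 * ((k + 2 : ℕ) : ℝ) + 1) * x j)| /
    (2 * ((k + 2 : ℕ) : ℝ) + 1) with hf
  have hs3 : Summable (fun k => f (k + 3)) := hF.1
  have hs : Summable f := (summable_nat_add_iff 3).mp hs3
  refine ⟨hs, ?_⟩
  rw [← hs.sum_add_tsum_nat_add 3]
  have h3 : ∑' k, f (k + 3) ≤ F := hF.2
  have e0 : f 0 = |∏ j, sinc (5 * x j)| / 5 := by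
    simp only [hf]; norm_num
  have e1 : f 1 = |∏ j, sinc (7 * x j)| / 7 := by
    simp only [hf]; norm_num
  have e2 : f 2 = |∏ j, sinc (9 * x j)| / 9 := by
    simp only [hf]; norm_num
  rw [Finset.sum_range_succ, Finset.sum_range_succ, Finset.sum_range_succ, Finset.sum_range_zero,
    e0, e1, e2]
  have a5 : |∏ j, sinc (5 * x j)| / 5 ≤ e5 / 5 := by (clear * - h5; gcongr)
  have a7 : |∏ j, sinc (7 * x j)| / 7 ≤ e7 / 7 := by (clear * - h7; gcongr)
  have a9 : |∏ j, sinc (9 * x j)| / 9 ≤ e9 / 9 := by (clear * - h9; gcongr)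
  (clear * - h5 h7 h9 hF; linarith)

/-- One piece. -/
lemma piece {n : ℕ} (x : Fin n → ℝ) (i : Fin n) {x0 m r s5 s7 s9 c5 c7 c9 b5 b7 b9 L B M2 : ℝ}
    (hx0 : 0 < x0) (hi : x0 ≤ |x i|)
    (hr : r ≤ ∑ j ∈ Finset.univ.erase i, x j ^ 2) (hm : ∀ j, j ≠ i → |x j| ≤ m)
    (hm1 : π ≤ 11 * m) (hE : 2 * m ^ 2 ≤ r) (hc5 : 0 ≤ c5) (hc7 : 0 ≤ c7) (hc9 : 0 ≤ c9)
    (h5 : ∀ z : ℝ, |z| ≤ 5 * m → |sinc z| ≤ exp (-(c5 * z ^ 2)))
    (h7 : ∀ z : ℝ, |z| ≤ 7 * m → |sinc z| ≤ exp (-(c7 * z ^ 2)))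
    (h9 : ∀ z : ℝ, |z| ≤ 9 * m → |sinc z| ≤ exp (-(c9 * z ^ 2)))
    (i5 : |sinc (5 * x i)| ≤ s5) (i7 : |sinc (7 * x i)| ≤ s7) (i9 : |sinc (9 * x i)| ≤ s9)
    (n5 : exp (-(c5 * 5 ^ 2 * r)) ≤ b5) (n7 : exp (-(c7 * 7 ^ 2 * r)) ≤ b7)
    (n9 : exp (-(c9 * 9 ^ 2 * r)) ≤ b9) (hL : exp L ≤ 11 * m)
    (hB : exp (-((r / m ^ 2 - 2) * L)) ≤ B) (hM2 : 0 < M2) (hM : M2 ≤ m ^ 2) :
    Summable (fun k : ℕ => |∏ j, sinc ((2 * ((k + 2 : ℕ) : ℝ) + 1) * x j)| / (2 * ((k + 2 : ℕ) : ℝ) + 1)) ∧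
    ∑' k : ℕ, |∏ j, sinc ((2 * ((k + 2 : ℕ) : ℝ) + 1) * x j)| / (2 * ((k + 2 : ℕ) : ℝ) + 1) ≤
      s5 * b5 / 5 + s7 * b7 / 7 + s9 * b9 / 9 + B / (6000 * M2 * x0) := by
  have p5 := prod_one x i (by norm_num) hc5 hr hm h5 i5
  have p7 := prod_one x i (by norm_num) hc7 hr hm h7 i7
  have p9 := prod_one x i (by norm_num) hc9 hr hm h9 i9
  have q5 : |∏ j, sinc (5 * x j)| ≤ s5 * b5 :=
    p5.trans (mul_le_mul_of_nonneg_left n5 (le_trans (abs_nonneg _) i5))
  have q7 : |∏ j, sinc (7 * x j)| ≤ s7 * b7 :=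
    p7.trans (mul_le_mul_of_nonneg_left n7 (le_trans (abs_nonneg _) i7))
  have q9 : |∏ j, sinc (9 * x j)| ≤ s9 * b9 :=
    p9.trans (mul_le_mul_of_nonneg_left n9 (le_trans (abs_nonneg _) i9))
  have hm0 : 0 < m := by
    have := Real.pi_pos
    (clear * - hm1 this; linarith)
  have hfar := far_one x i hx0 hi hr hm hm1 hE
  refine split3 x q5 q7 q9 ⟨hfar.1, hfar.2.trans ?_⟩
  have hm2 : 0 < m ^ 2 := by positivity
  have hq : 0 ≤ r / m ^ 2 - 2 := by
    rw [sub_nonneg, le_div_iff₀ hm2]; exact hE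
  have hlog : L ≤ log (11 * m) := by
    rw [Real.le_log_iff_exp_le (by positivity)]; exact hL
  have h1 : exp (-(r / m ^ 2 - 2) * log (11 * m)) ≤ B := by
    refine le_trans (Real.exp_le_exp.mpr ?_) hB
    have := mul_le_mul_of_nonneg_left hlog hq
    (clear * - this; linarith)
  have hB0 : 0 ≤ B := le_trans (exp_pos _).le hB
  have h2 : 6000 * M2 * x0 ≤ 6000 * m ^ 2 * x0 := by
    have : M2 * x0 ≤ m ^ 2 * x0 := mul_le_mul_of_nonneg_right hM hx0.le
    (clear * - this; linarith)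
  calc exp (-(r / m ^ 2 - 2) * log (11 * m)) / (6000 * m ^ 2 * x0)
      ≤ B / (6000 * m ^ 2 * x0) := by (clear * - h1 hm0 hx0; gcongr)
    _ ≤ B / (6000 * M2 * x0) := by
        apply div_le_div_of_nonneg_left hB0 (by positivity) h2

lemma sum_erase_ge {n : ℕ} (x : Fin n → ℝ) (i : Fin n) {w x1 : ℝ} (hw0 : w ≤ ∑ j, x j ^ 2)
    (h1 : |x i| ≤ x1) : w - x1 ^ 2 ≤ ∑ j ∈ Finset.univ.erase i, x j ^ 2 := by
  have h : x i ^ 2 + ∑ j ∈ Finset.univ.erase i, x j ^ 2 = ∑ j, x j ^ 2 :=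
    Finset.add_sum_erase Finset.univ (fun j => x j ^ 2) (Finset.mem_univ i)
  have h2 : x i ^ 2 ≤ x1 ^ 2 := by
    rw [← sq_abs]
    exact pow_le_pow_left₀ (abs_nonneg _) h1 2
  (clear * - hw0 h h2; linarith)

lemma sinc_inv_bd {K y s y0 : ℝ} (hK : 0 < K) (hy0 : 0 < y0) (hy : y0 ≤ |y|)
    (hs : 1 ≤ s * (K * y0)) : |sinc (K * y)| ≤ s := by
  have hyy : 0 < |y| := lt_of_lt_of_le hy0 hy
  have hy1 : y ≠ 0 := abs_pos.mp hyy
  have hne : K * y ≠ 0 := mul_ne_zero hK.ne' hy1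
  have h1 : |sinc (K * y)| ≤ 1 / |K * y| := by
    rw [Real.sinc_of_ne_zero hne, abs_div]
    have := Real.abs_sin_le_one (K * y)
    (clear * - this hK hy1; gcongr)
  refine h1.trans ?_
  rw [abs_mul, abs_of_pos hK, div_le_iff₀ (by (clear * - hK hy1; positivity))]
  have hs0 : 0 ≤ s := by
    by_contra h
    push Not at h
    have : 0 < K * y0 := by positivity
    (clear * - hs h this; nlinarith)
  calc (1 : ℝ) ≤ s * (K * y0) := hs
    _ ≤ s * (K * |y|) := by gcongr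

/-- The statement of the tail bound with a constant. -/
def TB {n : ℕ} (x : Fin n → ℝ) (c : ℝ) : Prop :=
  Summable (fun k : ℕ => |∏ j, sinc ((2 * ((k + 2 : ℕ) : ℝ) + 1) * x j)| / (2 * ((k + 2 : ℕ) : ℝ) + 1)) ∧
    ∑' k : ℕ, |∏ j, sinc ((2 * ((k + 2 : ℕ) : ℝ) + 1) * x j)| / (2 * ((k + 2 : ℕ) : ℝ) + 1) ≤ c

lemma TB.mono {n : ℕ} {x : Fin n → ℝ} {c d : ℝ} (h : TB x c) (hcd : c ≤ d) : TB x d :=
  ⟨h.1, h.2.trans hcd⟩

lemma pi_b : 3.1415 < π ∧ π < 3.1416 := ⟨by have := Real.pi_gt_d4; linarith, by have := Real.pi_lt_d4; (clear * - this; linarith)⟩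

lemma P1 {n : ℕ} (x : Fin n → ℝ) (i : Fin n) (hw0 : 2.3715 ≤ ∑ j, x j ^ 2)
    (h2 : ∀ j, |x j| ≤ |x i|) (h : |x i| ≤ π / 4) : TB x 0.0008 := by
  obtain ⟨p1, p2⟩ := pi_b
  have hm : ∀ j, |x j| ≤ π / 4 := fun j => (h2 j).trans h
  have q5 := prod_all x (K := 5) (by norm_num) (c := 0.1105) (by norm_num) hw0 hm
    (fun z hz => abs_sinc_393 (by (clear * - hz; linarith)))
  have q7 := prod_all x (K := 7) (by norm_num) (c := 0.064) (by norm_num) hw0 hm
    (fun z hz => abs_sinc_550 (by (clear * - hz; linarith)))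
  have q9 := prod_all x (K := 9) (by norm_num) (c := 0.045) (by norm_num) hw0 hm
    (fun z hz => abs_sinc_707 (by (clear * - hz; linarith)))
  have e5 : exp (-(0.1105 * 5 ^ 2 * 2.3715)) ≤ (0.00144 : ℝ) :=
    exp_neg_bd 6 (f := 0.551) (by norm_num) (by norm_num) (by norm_num)
  have e7 : exp (-(0.064 * 7 ^ 2 * 2.3715)) ≤ (0.0006 : ℝ) :=
    exp_neg_bd 7 (f := 0.437) (by norm_num) (by norm_num) (by norm_num)
  have e9 : exp (-(0.045 * 9 ^ 2 * 2.3715)) ≤ (0.00018 : ℝ) :=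
    exp_neg_bd 8 (f := 0.644) (by norm_num) (by norm_num) (by norm_num)
  have hsq : (π / 4) ^ 2 ≤ 0.7854 ^ 2 := by
    apply pow_le_pow_left₀ (by positivity); (clear * - p2; linarith)
  have hfar := far_all x hw0 hm (by (clear * - p1 p2; linarith)) (by (clear * - p1 p2 hsq; linarith))
  have hfar2 : exp (-(2.3715 / (π / 4) ^ 2 - 3) * log (11 * (π / 4))) / (6000 * (π / 4) ^ 3) ≤
      0.000345 := by
    have hq : 0 ≤ 2.3715 / (π / 4) ^ 2 - 3 := by
      rw [sub_nonneg, le_div_iff₀ (by positivity)]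
      (clear * - p1 p2 hsq; linarith)
    have hlog : 0 ≤ log (11 * (π / 4)) := by
      apply Real.log_nonneg; (clear * - p1 p2; linarith)
    have h1 : exp (-(2.3715 / (π / 4) ^ 2 - 3) * log (11 * (π / 4))) ≤ 1 := by
      rw [Real.exp_le_one_iff]
      have := mul_nonneg hq hlog
      (clear * - this; linarith)
    have hc : (0.785 : ℝ) ^ 3 ≤ (π / 4) ^ 3 := by
      apply pow_le_pow_left₀ (by norm_num); (clear * - p1 p2; linarith)
    rw [div_le_iff₀ (by positivity)]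
    have : (1 : ℝ) ≤ 0.000345 * (6000 * 0.785 ^ 3) := by norm_num
    (clear * - p1 p2 h1 hc; linarith)
  have := split3 x (q5.trans e5) (q7.trans e7) (q9.trans e9) ⟨hfar.1, hfar.2.trans hfar2⟩
  exact TB.mono this (by norm_num)

lemma P2 {n : ℕ} (x : Fin n → ℝ) (i : Fin n) (hw0 : 2.3715 ≤ ∑ j, x j ^ 2)
    (h3 : ∀ j, j ≠ i → |x j| + |x i| ≤ π / 2)
    (ha : π / 4 ≤ |x i|) (hb : |x i| ≤ 0.857) : TB x 0.0008 := by
  obtain ⟨p1, p2⟩ := pi_b
  have hm : ∀ j, j ≠ i → |x j| ≤ π / 4 := fun j hj => by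
    have := h3 j hj
    (clear * - ha this; linarith)
  have hsq : (π / 4) ^ 2 ≤ 0.7854 ^ 2 := by
    apply pow_le_pow_left₀ (by positivity); (clear * - p2; linarith)
  have hsq2 : (0.785 : ℝ) ^ 2 ≤ (π / 4) ^ 2 := by
    apply pow_le_pow_left₀ (by norm_num); linarith
  have hr : (1.637051 : ℝ) ≤ ∑ j ∈ Finset.univ.erase i, x j ^ 2 := by
    have := sum_erase_ge x i hw0 hb
    norm_num at this ⊢
    (clear * - this; linarith)
  have e2 : exp 2 ≤ (8.638 : ℝ) := by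
    have : exp 2 = (exp 1) ^ 2 := by rw [← Real.exp_nat_mul]; norm_num
    rw [this]
    have h9 := Real.exp_one_lt_d9
    calc (exp 1) ^ 2 ≤ (2.7182818286 : ℝ) ^ 2 := by
          apply pow_le_pow_left₀ (exp_pos _).le h9.le
      _ ≤ 8.638 := by norm_num
  have key := piece x i (x0 := 0.785) (m := π / 4) (r := 1.637051) (s5 := 0.218)
    (s7 := 0.18199) (s9 := 0.14155) (c5 := 0.1105) (c7 := 0.064) (c9 := 0.045)
    (b5 := 0.0109) (b7 := 0.00591) (b9 := 0.00261) (L := 2) (B := 0.2716) (M2 := 0.616)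
    (by norm_num) (by (clear * - ha p1 p2; linarith)) hr hm (by (clear * - p1 p2; linarith)) (by (clear * - p1 p2 hsq; linarith)) (by norm_num) (by norm_num)
    (by norm_num) (fun z hz => abs_sinc_393 (by (clear * - hz; linarith))) (fun z hz => abs_sinc_550 (by (clear * - hz; linarith)))
    (fun z hz => abs_sinc_707 (by (clear * - hz; linarith)))
    (abs_sinc_max (by rw [abs_mul, abs_of_pos (by norm_num : (0:ℝ) < 5)]; (clear * - ha p1 p2; linarith)))
    (sinc_inv_bd (y0 := 0.785) (by norm_num) (by norm_num) (by (clear * - ha p1 p2; linarith)) (by norm_num))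
    (sinc_inv_bd (y0 := 0.785) (by norm_num) (by norm_num) (by (clear * - ha p1 p2; linarith)) (by norm_num))
    (exp_neg_bd 4 (f := 0.522) (by norm_num) (by norm_num) (by norm_num))
    (exp_neg_bd 5 (f := 0.133) (by norm_num) (by norm_num) (by norm_num))
    (exp_neg_bd 5 (f := 0.967) (by norm_num) (by norm_num) (by norm_num))
    (by (clear * - p1 p2 e2; linarith))
    (by
      refine le_trans (Real.exp_le_exp.mpr ?_)
        (exp_neg_bd 1 (a := 1.3076) (f := 0.3076) (by norm_num) (by norm_num) (by norm_num))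
      have hq : (2.6538 : ℝ) ≤ 1.637051 / (π / 4) ^ 2 := by
        rw [le_div_iff₀ (by positivity)]
        norm_num at hsq ⊢
        (clear * - p1 p2 hsq; linarith)
      (clear * - hq; linarith))
    (by norm_num) (by norm_num at hsq2 ⊢; linarith)
  exact TB.mono key (by norm_num)

lemma others {n : ℕ} {x : Fin n → ℝ} {i : Fin n} {x0 m : ℝ}
    (h3 : ∀ j, j ≠ i → |x j| + |x i| ≤ π / 2) (ha : x0 ≤ |x i|) (hm : 1.5708 - x0 ≤ m) :
    ∀ j, j ≠ i → |x j| ≤ m := fun j hj => by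
  have := h3 j hj
  have := pi_b.2
  linarith

lemma P3 {n : ℕ} (x : Fin n → ℝ) (i : Fin n) (hw0 : 2.3715 ≤ ∑ j, x j ^ 2)
    (h3 : ∀ j, j ≠ i → |x j| + |x i| ≤ π / 2)
    (ha : 0.857 ≤ |x i|) (hb : |x i| ≤ 0.95) : TB x 0.0008 := by
  obtain ⟨p1, p2⟩ := pi_b
  have hm : ∀ j, j ≠ i → |x j| ≤ 0.7138 := others h3 ha (by norm_num)
  have hr : (1.469 : ℝ) ≤ ∑ j ∈ Finset.univ.erase i, x j ^ 2 := by
    have := sum_erase_ge x i hw0 hb
    norm_num at this ⊢
    (clear * - this; linarith)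
  have key := piece x i (x0 := 0.857) (m := 0.7138) (r := 1.469) (s5 := 0.218)
    (s7 := 0.1667) (s9 := 0.1297) (c5 := 1 / 6) (c7 := 0.064) (c9 := 0.045)
    (b5 := 0.0023) (b7 := 0.0101) (b9 := 0.0048) (L := 0) (B := 1) (M2 := 0.7138 ^ 2)
    (by norm_num) (by (clear * - ha; linarith)) hr hm (by (clear * - p1 p2; linarith)) (by norm_num) (by norm_num) (by norm_num)
    (by norm_num)
    (fun z hz => by
      have := abs_sinc_357 (z := z) (by (clear * - p1 p2 hz; linarith))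
      refine this.trans (le_of_eq ?_)
      congr 1; ring)
    (fun z hz => abs_sinc_550 (by (clear * - p1 p2 hz; linarith)))
    (fun z hz => abs_sinc_707 (by linarith))
    (abs_sinc_max (by rw [abs_mul, abs_of_pos (by norm_num : (0:ℝ) < 5)]; (clear * - ha p1 p2; linarith)))
    (sinc_inv_bd (y0 := 0.857) (by norm_num) (by norm_num) (by (clear * - ha; linarith)) (by norm_num))
    (sinc_inv_bd (y0 := 0.857) (by norm_num) (by norm_num) (by (clear * - ha; linarith)) (by norm_num))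
    (exp_neg_bd 6 (f := 0.12) (by norm_num) (by norm_num) (by norm_num))
    (exp_neg_bd 4 (f := 0.606) (by norm_num) (by norm_num) (by norm_num))
    (exp_neg_bd 5 (f := 0.354) (by norm_num) (by norm_num) (by norm_num))
    (by rw [Real.exp_zero]; norm_num)
    (by simp)
    (by norm_num) le_rfl
  exact TB.mono key (by norm_num)

lemma exp_one_le : exp 1 ≤ (2.71829 : ℝ) := by
  have := Real.exp_one_lt_d9
  linarith

lemma P4 {n : ℕ} (x : Fin n → ℝ) (i : Fin n) (hw0 : 2.3715 ≤ ∑ j, x j ^ 2)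
    (h3 : ∀ j, j ≠ i → |x j| + |x i| ≤ π / 2)
    (ha : 0.95 ≤ |x i|) (hb : |x i| ≤ 1.05) : TB x 0.0008 := by
  obtain ⟨p1, p2⟩ := pi_b
  have hm : ∀ j, j ≠ i → |x j| ≤ 0.6208 := others h3 ha (by norm_num)
  have hr : (1.269 : ℝ) ≤ ∑ j ∈ Finset.univ.erase i, x j ^ 2 := by
    have := sum_erase_ge x i hw0 hb
    norm_num at this ⊢
    (clear * - this; linarith)
  have e1 := exp_one_le
  have key := piece x i (x0 := 0.95) (m := 0.6208) (r := 1.269) (s5 := 0.218)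
    (s7 := 0.1504) (s9 := 0.117) (c5 := 1 / 6) (c7 := 0.08) (c9 := 0.045)
    (b5 := 0.00507) (b7 := 0.0071) (b9 := 0.01) (L := 1) (B := 0.276) (M2 := 0.6208 ^ 2)
    (by norm_num) (by (clear * - ha; linarith)) hr hm (by (clear * - p1 p2; linarith)) (by norm_num) (by norm_num) (by norm_num)
    (by norm_num)
    (fun z hz => by
      have := abs_sinc_357 (z := z) (by (clear * - p1 p2 hz; linarith))
      refine this.trans (le_of_eq ?_)
      congr 1; ring)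
    (fun z hz => abs_sinc_435 (by (clear * - p1 p2 hz; linarith)))
    (fun z hz => abs_sinc_707 (by (clear * - p1 p2 hz; linarith)))
    (abs_sinc_max (by rw [abs_mul, abs_of_pos (by norm_num : (0:ℝ) < 5)]; linarith))
    (sinc_inv_bd (y0 := 0.95) (by norm_num) (by norm_num) (by (clear * - ha; linarith)) (by norm_num))
    (sinc_inv_bd (y0 := 0.95) (by norm_num) (by norm_num) (by (clear * - ha; linarith)) (by norm_num))
    (exp_neg_bd 5 (f := 0.287) (by norm_num) (by norm_num) (by norm_num))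
    (exp_neg_bd 4 (f := 0.974) (by norm_num) (by norm_num) (by norm_num))
    (exp_neg_bd 4 (f := 0.625) (by norm_num) (by norm_num) (by norm_num))
    (by (clear * - p1 p2 e1; linarith))
    (exp_neg_bd 1 (f := 0.2926) (by norm_num) (by norm_num) (by norm_num))
    (by norm_num) le_rfl
  exact TB.mono key (by norm_num)

lemma P5 {n : ℕ} (x : Fin n → ℝ) (i : Fin n) (hw0 : 2.3715 ≤ ∑ j, x j ^ 2)
    (h3 : ∀ j, j ≠ i → |x j| + |x i| ≤ π / 2)
    (ha : 1.05 ≤ |x i|) (hb : |x i| ≤ 1.13) : TB x 0.001 := by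
  obtain ⟨p1, p2⟩ := pi_b
  have hm : ∀ j, j ≠ i → |x j| ≤ 0.5208 := others h3 ha (by norm_num)
  have hr : (1.0946 : ℝ) ≤ ∑ j ∈ Finset.univ.erase i, x j ^ 2 := by
    have := sum_erase_ge x i hw0 hb
    norm_num at this ⊢
    (clear * - this; linarith)
  have e1 := exp_one_le
  have key := piece x i (x0 := 1.05) (m := 0.5208) (r := 1.0946) (s5 := 0.218)
    (s7 := 0.1361) (s9 := 0.1059) (c5 := 1 / 6) (c7 := 0.1105) (c9 := 0.064)
    (b5 := 0.0106) (b7 := 0.0028) (b9 := 0.0036) (L := 1) (B := 0.14) (M2 := 0.5208 ^ 2)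
    (by norm_num) (by (clear * - ha; linarith)) hr hm (by (clear * - p1 p2; linarith)) (by norm_num) (by norm_num) (by norm_num)
    (by norm_num)
    (fun z hz => by
      have := abs_sinc_357 (z := z) (by (clear * - p1 p2 hz; linarith))
      refine this.trans (le_of_eq ?_)
      congr 1; ring)
    (fun z hz => abs_sinc_393 (by linarith))
    (fun z hz => abs_sinc_550 (by (clear * - p1 p2 hz; linarith)))
    (abs_sinc_max (by rw [abs_mul, abs_of_pos (by norm_num : (0:ℝ) < 5)]; (clear * - ha p1 p2; linarith)))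
    (sinc_inv_bd (y0 := 1.05) (by norm_num) (by norm_num) (by (clear * - ha; linarith)) (by norm_num))
    (sinc_inv_bd (y0 := 1.05) (by norm_num) (by norm_num) (by (clear * - ha; linarith)) (by norm_num))
    (exp_neg_bd 4 (f := 0.56) (by norm_num) (by norm_num) (by norm_num))
    (exp_neg_bd 5 (f := 0.926) (by norm_num) (by norm_num) (by norm_num))
    (exp_neg_bd 5 (f := 0.674) (by norm_num) (by norm_num) (by norm_num))
    (by (clear * - p1 p2 e1; linarith))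
    (exp_neg_bd 2 (f := 0.035) (by norm_num) (by norm_num) (by norm_num))
    (by norm_num) le_rfl
  exact TB.mono key (by norm_num)

lemma P6 {n : ℕ} (x : Fin n → ℝ) (i : Fin n) (hw0 : 2.3715 ≤ ∑ j, x j ^ 2)
    (h3 : ∀ j, j ≠ i → |x j| + |x i| ≤ π / 2)
    (ha : 1.13 ≤ |x i|) (hb : |x i| ≤ 1.21) : TB x 0.001 := by
  obtain ⟨p1, p2⟩ := pi_b
  have hm : ∀ j, j ≠ i → |x j| ≤ 0.4408 := others h3 ha (by norm_num)
  have hr : (0.9074 : ℝ) ≤ ∑ j ∈ Finset.univ.erase i, x j ^ 2 := by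
    have := sum_erase_ge x i hw0 hb
    norm_num at this ⊢
    (clear * - this; linarith)
  have e1 := exp_one_le
  have key := piece x i (x0 := 1.13) (m := 0.4408) (r := 0.9074) (s5 := 0.177)
    (s7 := 0.1265) (s9 := 0.0984) (c5 := 1 / 6) (c7 := 1 / 6) (c9 := 0.08)
    (b5 := 0.0233) (b7 := 0.0007) (b9 := 0.003) (L := 1) (B := 0.075) (M2 := 0.4408 ^ 2)
    (by norm_num) (by (clear * - ha; linarith)) hr hm (by (clear * - p1 p2; linarith)) (by norm_num) (by norm_num) (by norm_num)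
    (by norm_num)
    (fun z hz => by
      have := abs_sinc_357 (z := z) (by (clear * - p1 p2 hz; linarith))
      refine this.trans (le_of_eq ?_)
      congr 1; ring)
    (fun z hz => by
      have := abs_sinc_357 (z := z) (by (clear * - p1 p2 hz; linarith))
      refine this.trans (le_of_eq ?_)
      congr 1; ring)
    (fun z hz => abs_sinc_435 (by (clear * - p1 p2 hz; linarith)))
    (sinc_inv_bd (y0 := 1.13) (by norm_num) (by norm_num) (by (clear * - ha; linarith)) (by norm_num))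
    (sinc_inv_bd (y0 := 1.13) (by norm_num) (by norm_num) (by (clear * - ha; linarith)) (by norm_num))
    (sinc_inv_bd (y0 := 1.13) (by norm_num) (by norm_num) (by (clear * - ha; linarith)) (by norm_num))
    (exp_neg_bd 3 (f := 0.78) (by norm_num) (by norm_num) (by norm_num))
    (exp_neg_bd 7 (f := 0.41) (by norm_num) (by norm_num) (by norm_num))
    (exp_neg_bd 5 (f := 0.879) (by norm_num) (by norm_num) (by norm_num))
    (by (clear * - p1 p2 e1; linarith))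
    (exp_neg_bd 2 (f := 0.66) (by norm_num) (by norm_num) (by norm_num))
    (by norm_num) le_rfl
  exact TB.mono key (by norm_num)

end TailB

open TailB in
/-- F3t. Tail of the series (`w ≥ 2.3715`). -/
theorem tail_bound {n : ℕ} (x : Fin n → ℝ) (i : Fin n) (hw0 : 2.3715 ≤ ∑ j, x j ^ 2)
    (h1 : |x i| ≤ 1.21) (h2 : ∀ j, |x j| ≤ |x i|) (h3 : ∀ j, j ≠ i → |x j| + |x i| ≤ π / 2) :
    Summable (fun k : ℕ => |∏ j, sinc ((2 * ((k + 2 : ℕ) : ℝ) + 1) * x j)| / (2 * ((k + 2 : ℕ) : ℝ) + 1)) ∧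
    ∑' k : ℕ, |∏ j, sinc ((2 * ((k + 2 : ℕ) : ℝ) + 1) * x j)| / (2 * ((k + 2 : ℕ) : ℝ) + 1) ≤
      if |x i| ≤ 1.05 then 0.0008 else 0.001 := by
  change TB x _
  split_ifs with hc
  · rcases le_total |x i| (π / 4) with h | h
    · exact P1 x i hw0 h2 h
    rcases le_total |x i| 0.857 with h' | h'
    · exact P2 x i hw0 h3 h h'
    rcases le_total |x i| 0.95 with h'' | h''
    · exact P3 x i hw0 h3 h' h''
    · exact P4 x i hw0 h3 h'' hc
  · push Not at hc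
    rcases le_total |x i| 1.13 with h | h
    · exact P5 x i hw0 h3 hc.le h
    · exact P6 x i hw0 h3 h h1

end Pool.Agent.M18.Helper89.FA
end

/- Helper37.FA.CaseB -/
section
/-!
F3: the case `x_1 + x_2 ≤ π/2` (assembly).
-/

set_option autoImplicit false

open MeasureTheory Set Real

namespace Pool.Agent.M18.Helper89.FA

namespace CaseB

/-- The series is at least its first two terms minus the tail. -/
theorem series_ge {n : ℕ} (x : Fin n → ℝ) {T : ℝ}
    (hs : Summable (fun k : ℕ =>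
      |∏ j, sinc ((2 * ((k + 2 : ℕ) : ℝ) + 1) * x j)| / (2 * ((k + 2 : ℕ) : ℝ) + 1)))
    (hT : ∑' k : ℕ, |∏ j, sinc ((2 * ((k + 2 : ℕ) : ℝ) + 1) * x j)| /
      (2 * ((k + 2 : ℕ) : ℝ) + 1) ≤ T) :
    (∏ j, sinc (x j)) - (∏ j, sinc (3 * x j)) / 3 - T ≤
      ∑' k : ℕ, (-1 : ℝ) ^ k * ((∏ j, sinc ((2 * (k : ℝ) + 1) * x j)) / (2 * (k : ℝ) + 1)) := by
  set f : ℕ → ℝ := fun k => (-1 : ℝ) ^ k *
    ((∏ j, sinc ((2 * (k : ℝ) + 1) * x j)) / (2 * (k : ℝ) + 1)) with hf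
  have habs : ∀ k : ℕ, ‖f (k + 2)‖ =
      |∏ j, sinc ((2 * ((k + 2 : ℕ) : ℝ) + 1) * x j)| / (2 * ((k + 2 : ℕ) : ℝ) + 1) := by
    intro k
    rw [hf]
    simp only [Real.norm_eq_abs, abs_mul, abs_pow, abs_neg, abs_one, one_pow, one_mul, abs_div]
    congr 1
    exact abs_of_pos (by (clear * -; positivity))
  have hs1 : Summable (fun k : ℕ => ‖f (k + 2)‖) := hs.congr (fun k => (habs k).symm)
  have hs2 : Summable (fun k : ℕ => f (k + 2)) := hs1.of_norm
  have hs3 : Summable f := (summable_nat_add_iff 2).mp hs2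
  have e1 : ∑ k ∈ Finset.range 2, f k + ∑' k, f (k + 2) = ∑' k, f k :=
    hs3.sum_add_tsum_nat_add 2
  have e2 : ‖∑' k, f (k + 2)‖ ≤ ∑' k, ‖f (k + 2)‖ := norm_tsum_le_tsum_norm hs1
  have e3 : ∑' k, ‖f (k + 2)‖ ≤ T := by
    rw [tsum_congr habs]
    exact hT
  have e4 : -T ≤ ∑' k, f (k + 2) := by
    have := neg_abs_le (∑' k, f (k + 2))
    rw [Real.norm_eq_abs] at e2
    (clear * - e2 e3 this; linarith)
  have e5 : ∑ k ∈ Finset.range 2, f k = (∏ j, sinc (x j)) - (∏ j, sinc (3 * x j)) / 3 := by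
    rw [Finset.sum_range_succ, Finset.sum_range_one, hf]
    norm_num
    ring
  rw [← e1, e5]
  (clear * - e4; linarith)

theorem prod_exp {n : ℕ} (g : Fin n → ℝ) : ∏ j, exp (g j) = exp (∑ j, g j) :=
  (Real.exp_sum _ _).symm

/-- Lower bound of the first factor. -/
theorem phi0_ge {n : ℕ} (x : Fin n → ℝ) {w c : ℝ} (hw : ∑ j, x j ^ 2 = w)
    (h : ∀ j, exp (-(x j ^ 2 / 6 + c * x j ^ 4)) ≤ sinc (x j)) :
    exp (-(w / 6 + c * ∑ j, x j ^ 4)) ≤ ∏ j, sinc (x j) := by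
  calc exp (-(w / 6 + c * ∑ j, x j ^ 4)) = ∏ j, exp (-(x j ^ 2 / 6 + c * x j ^ 4)) := by
        rw [prod_exp]
        congr 1
        rw [Finset.sum_neg_distrib, Finset.sum_add_distrib, ← Finset.sum_div, hw,
          ← Finset.mul_sum]
    _ ≤ ∏ j, sinc (x j) :=
        Finset.prod_le_prod (fun j _ => (exp_pos _).le) (fun j _ => h j)

/-- Upper bound of the second factor. -/
theorem phi1_le {n : ℕ} (x : Fin n → ℝ) {w : ℝ} (hw : ∑ j, x j ^ 2 = w) (hw0 : 0 < w)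
    (h : ∀ j, |3 * x j| ≤ π) :
    ∏ j, sinc (3 * x j) ≤ exp (-(3 / 2 * w + 9 / 20 * (∑ j, x j ^ 4) +
      9 / 35 * ((∑ j, x j ^ 4) ^ 2 / w))) := by
  have cs : (∑ j, x j ^ 4) ^ 2 ≤ w * ∑ j, x j ^ 6 := by
    have := Finset.sum_mul_sq_le_sq_mul_sq Finset.univ (fun j => x j) (fun j => x j ^ 3)
    rw [← hw]
    calc (∑ j, x j ^ 4) ^ 2 = (∑ j, x j * x j ^ 3) ^ 2 := by
          congr 1
          apply Finset.sum_congr rfl
          intro j _
          ring
      _ ≤ (∑ j, x j ^ 2) * ∑ j, (x j ^ 3) ^ 2 := this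
      _ = (∑ j, x j ^ 2) * ∑ j, x j ^ 6 := by
          congr 1
          apply Finset.sum_congr rfl
          intro j _
          ring
  have cs2 : (∑ j, x j ^ 4) ^ 2 / w ≤ ∑ j, x j ^ 6 := by
    rw [div_le_iff₀ hw0]
    (clear * - cs; linarith)
  calc ∏ j, sinc (3 * x j)
      ≤ ∏ j, exp (-((3 * x j) ^ 2 / 6 + (3 * x j) ^ 4 / 180 + (3 * x j) ^ 6 / 2835)) := by
        apply Finset.prod_le_prod
        · intro j _
          exact Pool.Agent.M18.Helper88.Slab.sinc_nonneg (h j)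
        · intro j _
          exact sinc_le6 (h j)
    _ = exp (-(3 / 2 * w + 9 / 20 * (∑ j, x j ^ 4) + 9 / 35 * ∑ j, x j ^ 6)) := by
        rw [prod_exp]
        congr 1
        rw [Finset.sum_neg_distrib, ← hw, Finset.mul_sum, Finset.mul_sum, Finset.mul_sum,
          ← Finset.sum_add_distrib, ← Finset.sum_add_distrib]
        congr 1
        apply Finset.sum_congr rfl
        intro j _
        ring
    _ ≤ _ := by
        apply exp_le_exp.mpr
        linarith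

/-- `Q ≤ y^4 + (w - y^2) m^2`. -/
theorem Q_le {n : ℕ} (x : Fin n → ℝ) (i : Fin n) {w m : ℝ} (hw : ∑ j, x j ^ 2 = w)
    (hm : ∀ j, j ≠ i → |x j| ≤ m) :
    ∑ j, x j ^ 4 ≤ |x i| ^ 4 + (w - |x i| ^ 2) * m ^ 2 := by
  have e1 : ∑ j, x j ^ 4 = x i ^ 4 + ∑ j ∈ Finset.univ.erase i, x j ^ 4 :=
    (Finset.add_sum_erase _ _ (Finset.mem_univ i)).symm
  have e2 : ∑ j, x j ^ 2 = x i ^ 2 + ∑ j ∈ Finset.univ.erase i, x j ^ 2 :=
    (Finset.add_sum_erase _ _ (Finset.mem_univ i)).symm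
  have e3 : ∑ j ∈ Finset.univ.erase i, x j ^ 4 ≤ ∑ j ∈ Finset.univ.erase i, x j ^ 2 * m ^ 2 := by
    apply Finset.sum_le_sum
    intro j hj
    have h1 := hm j (Finset.ne_of_mem_erase hj)
    have h2 : x j ^ 2 ≤ m ^ 2 := by
      rw [← sq_abs (x j)]
      exact pow_le_pow_left₀ (abs_nonneg _) h1 2
    have : x j ^ 4 = x j ^ 2 * x j ^ 2 := by ring
    rw [this]
    exact mul_le_mul_of_nonneg_left h2 (sq_nonneg _)
  rw [← Finset.sum_mul] at e3
  have e4 : |x i| ^ 4 = x i ^ 4 := by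
    have : |x i| ^ 4 = (|x i| ^ 2) ^ 2 := by ring
    rw [this, sq_abs]
    ring
  rw [e1, e4, sq_abs]
  have e5 : w - x i ^ 2 = ∑ j ∈ Finset.univ.erase i, x j ^ 2 := by linarith
  rw [e5]
  (clear * - e3; linarith)

theorem Q_small {n : ℕ} (x : Fin n → ℝ) {w m : ℝ} (hw : ∑ j, x j ^ 2 = w)
    (hm : ∀ j, |x j| ≤ m) : ∑ j, x j ^ 4 ≤ w * m ^ 2 := by
  rw [← hw, Finset.sum_mul]
  apply Finset.sum_le_sum
  intro j _
  have h2 : x j ^ 2 ≤ m ^ 2 := by
    rw [← sq_abs (x j)]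
    exact pow_le_pow_left₀ (abs_nonneg _) (hm j) 2
  have : x j ^ 4 = x j ^ 2 * x j ^ 2 := by ring
  rw [this]
  exact mul_le_mul_of_nonneg_left h2 (sq_nonneg _)

/-- The one-variable bound. -/
theorem poly_bound {w y : ℝ} (hw0 : 0 ≤ w) (hw2 : w ≤ 2.405) (hy : π / 4 ≤ y) (hy2 : y ≤ 1.21) :
    (y ≤ 1.048 → y ^ 4 + (w - y ^ 2) * (π / 2 - y) ^ 2 ≤ 1.57) ∧
    y ^ 4 + (w - y ^ 2) * (π / 2 - y) ^ 2 ≤ 2.27 := by
  have p1 := Real.pi_gt_d6
  have p2 := Real.pi_lt_d6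
  set c := π / 2 with hc
  have c1 : 1.570796 ≤ c := by rw [hc]; (clear * - p1; linarith)
  have c2 : c ≤ 1.570797 := by rw [hc]; (clear * - p1 p2; linarith)
  have y1 : 0.785 ≤ y := by (clear * - hy p1 p2; linarith)
  -- replace w by 2.405
  have s1 : y ^ 4 + (w - y ^ 2) * (c - y) ^ 2 ≤ y ^ 4 + (2.405 - y ^ 2) * (c - y) ^ 2 := by
    have := mul_le_mul_of_nonneg_right (sub_le_sub_right hw2 (y ^ 2)) (sq_nonneg (c - y))
    (clear * - this; linarith)
  have hcy : 0 ≤ c - y := by (clear * - hy2 p1 p2 hc; linarith)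
  -- replace c by 1.570797 where the factor is nonnegative
  have s2 : (2.405 - y ^ 2) * (c - y) ^ 2 ≤ (2.405 - y ^ 2) * (1.570797 - y) ^ 2 := by
    apply mul_le_mul_of_nonneg_left
    · apply pow_le_pow_left₀ hcy
      (clear * - p1 p2 hc; linarith)
    · (clear * - hy2 p1 p2 hy; nlinarith)
  constructor
  · intro y2
    have : y ^ 4 + (2.405 - y ^ 2) * (1.570797 - y) ^ 2 ≤ 1.57 := by
      (clear * - p1 p2 y2 y1 hy; nlinarith [mul_nonneg (mul_nonneg (sub_nonneg.mpr y1) (sub_nonneg.mpr y2))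
        (by linarith : (0 : ℝ) ≤ y), mul_nonneg (sub_nonneg.mpr y1) (sub_nonneg.mpr y2)])
    (clear * - s1 s2 this; linarith)
  · have : y ^ 4 + (2.405 - y ^ 2) * (1.570797 - y) ^ 2 ≤ 2.27 := by
      nlinarith [mul_nonneg (mul_nonneg (sub_nonneg.mpr y1) (sub_nonneg.mpr hy2))
        (by (clear * - hy p1 p2; linarith) : (0 : ℝ) ≤ y), mul_nonneg (sub_nonneg.mpr y1) (sub_nonneg.mpr hy2)]
    linarith

/-- Bounds of `Q`. -/
theorem Q_bounds {n : ℕ} (x : Fin n → ℝ) (i : Fin n) {w : ℝ} (hw : ∑ j, x j ^ 2 = w)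
    (hw2 : w ≤ 2.405) (h1 : |x i| ≤ 1.21) (h2 : ∀ j, |x j| ≤ |x i|)
    (h3 : ∀ j, j ≠ i → |x j| + |x i| ≤ π / 2) :
    (|x i| ≤ 1.048 → ∑ j, x j ^ 4 ≤ 1.57) ∧ ∑ j, x j ^ 4 ≤ 2.27 := by
  have hw0 : 0 ≤ w := by rw [← hw]; (clear * -; positivity)
  rcases le_total |x i| (π / 4) with h | h
  · have a1 := Q_small x hw h2
    have p2 := Real.pi_lt_d6
    have p0 := Real.pi_pos
    have a2 : |x i| ^ 2 ≤ (0.7854 : ℝ) ^ 2 := by
      apply pow_le_pow_left₀ (abs_nonneg _)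
      (clear * - h p2; linarith)
    have a3 : w * |x i| ^ 2 ≤ 2.405 * 0.7854 ^ 2 :=
      mul_le_mul hw2 a2 (sq_nonneg _) (by norm_num)
    constructor
    · intro _
      (clear * - a1 a3; linarith [a1, a3, (by norm_num : (2.405 : ℝ) * 0.7854 ^ 2 ≤ 1.57)])
    · (clear * - a1 a3; linarith [a1, a3, (by norm_num : (2.405 : ℝ) * 0.7854 ^ 2 ≤ 1.57)])
  · have a1 := Q_le x i (m := π / 2 - |x i|) hw (fun j hj => by (clear * - h3 hj; linarith [h3 j hj]))
    have a2 := poly_bound hw0 hw2 h h1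
    exact ⟨fun h' => a1.trans (a2.1 h'), a1.trans a2.2⟩

/-- The second case: `π/3 < |x i|`. -/
theorem phi1_nonpos {n : ℕ} (x : Fin n → ℝ) (i : Fin n) (h0 : π / 3 ≤ |x i|)
    (h1 : |x i| ≤ 1.21) (h3 : ∀ j, j ≠ i → |x j| + |x i| ≤ π / 2) :
    ∏ j, sinc (3 * x j) ≤ 0 := by
  rw [← Finset.mul_prod_erase _ _ (Finset.mem_univ i)]
  apply mul_nonpos_of_nonpos_of_nonneg
  · have p1 := Real.pi_gt_d6
    have e : sinc (3 * x i) = sinc (3 * |x i|) := by
      rcases abs_choice (x i) with h | h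
      · rw [h]
      · rw [h, mul_neg, Real.sinc_neg]
    have hpos : 0 < 3 * |x i| := by linarith [Real.pi_pos]
    rw [e, Real.sinc_of_ne_zero hpos.ne']
    apply div_nonpos_of_nonpos_of_nonneg _ hpos.le
    have e2 : sin (3 * |x i|) = -sin (3 * |x i| - π) := by rw [Real.sin_sub_pi]; ring
    rw [e2]
    have : 0 ≤ sin (3 * |x i| - π) := by
      apply sin_nonneg_of_nonneg_of_le_pi
      · (clear * - h0; linarith)
      · (clear * - h1 p1; linarith)
    (clear * - this; linarith)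
  · apply Finset.prod_nonneg
    intro j hj
    apply Pool.Agent.M18.Helper88.Slab.sinc_nonneg
    have := h3 j (Finset.ne_of_mem_erase hj)
    rw [abs_mul]
    norm_num
    (clear * - h0 this; linarith [Real.pi_pos])

/-- Common part. -/
theorem main {n : ℕ} (x : Fin n → ℝ) (i : Fin n) {w A B : ℝ} (hw : ∑ j, x j ^ 2 = w)
    (hw1 : 2.3715 ≤ w) (hw2 : w ≤ 2.405) (h1 : |x i| ≤ 1.21) (h2 : ∀ j, |x j| ≤ |x i|)
    (h3 : ∀ j, j ≠ i → |x j| + |x i| ≤ π / 2)
    (hA : ∀ Q : ℝ, 0 ≤ Q → Q ≤ 1.57 → A ≤ exp (-(w / 6 + 0.006 * Q)) -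
      exp (-(3 / 2 * w + 9 / 20 * Q + 9 / 35 * (Q ^ 2 / w))) / 3)
    (hB : B ≤ exp (-(w / 6 + 0.0062 * 2.27))) :
    min (A - 0.0008) (B - 0.001) ≤
      ∑' k : ℕ, (-1 : ℝ) ^ k * ((∏ j, sinc ((2 * (k : ℝ) + 1) * x j)) / (2 * (k : ℝ) + 1)) := by
  have hQ0 : 0 ≤ ∑ j, x j ^ 4 := by (clear * -; positivity)
  obtain ⟨q1, q2⟩ := Q_bounds x i hw hw2 h1 h2 h3
  obtain ⟨t1, t2⟩ := tail_bound x i (by rw [hw]; exact hw1) h1 h2 h3
  have p1 := Real.pi_gt_d6
  have p2 := Real.pi_lt_d6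
  rcases le_total |x i| (π / 3) with h | h
  · have hy : |x i| ≤ 1.048 := by (clear * - p1 p2 h; linarith)
    rw [if_pos (by (clear * - p1 p2 h; linarith))] at t2
    have s := series_ge x t1 t2
    have a1 := phi0_ge x (c := 0.006) hw (fun j => sinc_ge_a ((h2 j).trans hy))
    have a2 := phi1_le x hw (by (clear * - hw1 p1 p2; linarith)) (fun j => by
      rw [abs_mul]
      norm_num
      (clear * - h h2; linarith [h2 j]))
    have a3 := hA _ hQ0 (q1 hy)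
    refine (min_le_left _ _).trans ?_
    (clear * - s a1 a2 a3; linarith)
  · have t3 : ∑' k : ℕ, |∏ j, sinc ((2 * ((k + 2 : ℕ) : ℝ) + 1) * x j)| /
        (2 * ((k + 2 : ℕ) : ℝ) + 1) ≤ 0.001 := by
      refine t2.trans ?_
      split_ifs <;> norm_num
    have s := series_ge x t1 t3
    have a1 := phi0_ge x (c := 0.0062) hw (fun j => sinc_ge_b ((h2 j).trans h1))
    have a2 := phi1_nonpos x i h h1 h3
    have a3 : exp (-(w / 6 + 0.0062 * 2.27)) ≤ exp (-(w / 6 + 0.0062 * ∑ j, x j ^ 4)) := by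
      apply exp_le_exp.mpr
      (clear * - q2; linarith)
    refine (min_le_right _ _).trans ?_
    (clear * - hB s a1 a2 a3; linarith)

end CaseB

open CaseB in
/-- F3. -/
theorem caseB_one {n : ℕ} (x : Fin n → ℝ) (i : Fin n) {w : ℝ} (hw : ∑ j, x j ^ 2 = w)
    (hw1 : 2.4048 ≤ w) (hw2 : w ≤ 2.405) (h1 : |x i| ≤ 1.21) (h2 : ∀ j, |x j| ≤ |x i|)
    (h3 : ∀ j, j ≠ i → |x j| + |x i| ≤ π / 2) :
    0.659 ≤ ∑' k : ℕ, (-1 : ℝ) ^ k *
      ((∏ j, sinc ((2 * (k : ℝ) + 1) * x j)) / (2 * (k : ℝ) + 1)) := by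
  have hB : (0.6603 : ℝ) ≤ exp (-(w / 6 + 0.0062 * 2.27)) := by
    have h := Pool.Agent.M18.Helper88.Slab.exp_neg_ge7 (2.405 / 6 + 0.0062 * 2.27) (by norm_num)
    have h' : exp (-(2.405 / 6 + 0.0062 * 2.27)) ≤ exp (-(w / 6 + 0.0062 * 2.27)) := by
      apply exp_le_exp.mpr
      (clear * - hw2; linarith)
    refine le_trans ?_ (h.trans h')
    norm_num
  have := CaseB.main x i hw (by linarith) hw2 h1 h2 h3 (A := 0.6598) (B := 0.6603)
    (fun Q q0 q1 => node_one hw1 hw2 q0 q1) hB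
  refine le_trans ?_ this
  norm_num

open CaseB in
theorem caseB_two {n : ℕ} (x : Fin n → ℝ) (i : Fin n) {w : ℝ} (hw : ∑ j, x j ^ 2 = w)
    (hw1 : 2.3715 ≤ w) (hw2 : w ≤ 2.3716) (h1 : |x i| ≤ 1.21) (h2 : ∀ j, |x j| ≤ |x i|)
    (h3 : ∀ j, j ≠ i → |x j| + |x i| ≤ π / 2) :
    0.6627 ≤ ∑' k : ℕ, (-1 : ℝ) ^ k *
      ((∏ j, sinc ((2 * (k : ℝ) + 1) * x j)) / (2 * (k : ℝ) + 1)) := by
  have hB : (0.664 : ℝ) ≤ exp (-(w / 6 + 0.0062 * 2.27)) := by
    have h := Pool.Agent.M18.Helper88.Slab.exp_neg_ge7 (2.3716 / 6 + 0.0062 * 2.27) (by norm_num)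
    have h' : exp (-(2.3716 / 6 + 0.0062 * 2.27)) ≤ exp (-(w / 6 + 0.0062 * 2.27)) := by
      apply exp_le_exp.mpr
      (clear * - hw2; linarith)
    refine le_trans ?_ (h.trans h')
    norm_num
  have := CaseB.main x i hw hw1 (by (clear * - hw2; linarith)) h1 h2 h3 (A := 0.6635) (B := 0.664)
    (fun Q q0 q1 => node_two hw1 hw2 q0 q1) hB
  refine le_trans ?_ this
  norm_num

end Pool.Agent.M18.Helper89.FA
end
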