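import Mathlib
import Pool.Agent.Helper53.AM.G01
import Pool.Agent.Helper53.AM.G07

/- Helper34.Slab.Basic -/
section
set_option autoImplicit false

open MeasureTheory Set Finset

namespace Pool.Agent.M18.Helper34.Slab

set_option linter.unusedSectionVars false

variable {ι : Type*} [DecidableEq ι]

/-- Iterated normalised central difference of `φ` with steps `b i`, `i ∈ s`. -/
noncomputable def N (b : ι → ℝ) (φ : ℝ → ℝ) (s : Finset ι) (z : ℝ) : ℝ :=
  (∑ T ∈ s.powerset, (-1 : ℝ) ^ T.card * φ (z + ∑ i ∈ s, b i - 2 * ∑ i ∈ T, b i)) /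
    ∏ i ∈ s, (2 * b i)

lemma N_empty (b : ι → ℝ) (φ : ℝ → ℝ) (z : ℝ) : N b φ ∅ z = φ z := by
  simp [N]

lemma N_insert {b : ι → ℝ} (φ : ℝ → ℝ) {s : Finset ι} {i : ι} (hi : i ∉ s) (z : ℝ) :
    N b φ (insert i s) z = (N b φ s (z + b i) - N b φ s (z - b i)) / (2 * b i) := by
  unfold N
  rw [Finset.sum_powerset_insert hi, Finset.prod_insert hi, Finset.sum_insert hi]
  have h1 : ∀ T ∈ s.powerset, (-1 : ℝ) ^ (insert i T).card *
      φ (z + (b i + ∑ j ∈ s, b j) - 2 * ∑ j ∈ insert i T, b j) =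
      - ((-1 : ℝ) ^ T.card * φ (z - b i + ∑ j ∈ s, b j - 2 * ∑ j ∈ T, b j)) := by
    intro T hT
    have hiT : i ∉ T := fun h => hi (Finset.mem_powerset.mp hT h)
    rw [Finset.card_insert_of_notMem hiT, Finset.sum_insert hiT, pow_succ]
    rw [show z + (b i + ∑ j ∈ s, b j) - 2 * (b i + ∑ j ∈ T, b j) =
      z - b i + ∑ j ∈ s, b j - 2 * ∑ j ∈ T, b j by ring]
    ring
  rw [Finset.sum_congr rfl h1, Finset.sum_neg_distrib]
  have h2 : ∀ T ∈ s.powerset, (-1 : ℝ) ^ T.card *
      φ (z + (b i + ∑ j ∈ s, b j) - 2 * ∑ j ∈ T, b j) =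
      (-1 : ℝ) ^ T.card * φ (z + b i + ∑ j ∈ s, b j - 2 * ∑ j ∈ T, b j) := by
    intro T _
    rw [show z + (b i + ∑ j ∈ s, b j) - 2 * ∑ j ∈ T, b j =
      z + b i + ∑ j ∈ s, b j - 2 * ∑ j ∈ T, b j by ring]
  rw [Finset.sum_congr rfl h2, ← sub_eq_add_neg, ← sub_div, div_div, mul_comm (2 * b i)]

/-- Euler identity. -/
lemma N_euler {b : ι → ℝ} (φ : ℝ → ℝ) (s : Finset ι) (hb : ∀ i ∈ s, b i ≠ 0) (z : ℝ) :
    N b (fun x => x * φ x) s z = (z - ∑ i ∈ s, b i) * N b φ s z +
      ∑ i ∈ s, N b φ (s.erase i) (z + b i) := by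
  induction s using Finset.induction_on generalizing z with
  | empty => simp [N_empty]
  | insert j s hj ih =>
    have hb' : ∀ i ∈ s, b i ≠ 0 := fun i hi => hb i (Finset.mem_insert_of_mem hi)
    have hbj : b j ≠ 0 := hb j (Finset.mem_insert_self j s)
    rw [N_insert _ hj, ih hb', ih hb', N_insert φ hj, Finset.sum_insert hj, Finset.sum_insert hj,
      Finset.erase_insert hj]
    have h1 : ∀ i ∈ s, N b φ ((insert j s).erase i) (z + b i) =
        (N b φ (s.erase i) (z + b j + b i) - N b φ (s.erase i) (z - b j + b i)) / (2 * b j) := by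
      intro i hi
      have hij : i ≠ j := fun h => hj (h ▸ hi)
      rw [Finset.erase_insert_of_ne hij.symm]
      rw [N_insert φ (fun h => hj (Finset.mem_of_mem_erase h))]
      rw [show z + b i + b j = z + b j + b i by ring, show z + b i - b j = z - b j + b i by ring]
    rw [Finset.sum_congr rfl h1, ← Finset.sum_div, Finset.sum_sub_distrib]
    field_simp
    ring

/-- Truncated power `x_+^k / k!` (equal to `1` at `x = 0` when `k = 0`). -/
noncomputable def pk (k : ℕ) (x : ℝ) : ℝ := if 0 ≤ x then x ^ k / k.factorial else 0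

/-- Full power `x^k / k!`. -/
noncomputable def fk (k : ℕ) (x : ℝ) : ℝ := x ^ k / k.factorial

lemma pk_of_nonneg {k : ℕ} {x : ℝ} (hx : 0 ≤ x) : pk k x = fk k x := by
  simp [pk, fk, hx]

lemma pk_of_neg {k : ℕ} {x : ℝ} (hx : x < 0) : pk k x = 0 := by
  simp [pk, not_le.mpr hx]

lemma fk_mul (k : ℕ) (x : ℝ) : (k + 1 : ℝ) * fk (k + 1) x = x * fk k x := by
  unfold fk
  rw [Nat.factorial_succ, pow_succ]
  have : (k.factorial : ℝ) ≠ 0 := by positivity
  push_cast
  field_simp

/-- `Q k s` : for `m = |s|`, `Q m` is the distribution function of `∑ b i U i`, `Q (m-1)` its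
density, and so on. -/
noncomputable def Q (b : ι → ℝ) (k : ℕ) (s : Finset ι) (z : ℝ) : ℝ := N b (pk k) s z

noncomputable def Qf (b : ι → ℝ) (k : ℕ) (s : Finset ι) (z : ℝ) : ℝ := N b (fk k) s z

lemma Q_insert {b : ι → ℝ} (k : ℕ) {s : Finset ι} {i : ι} (hi : i ∉ s) (z : ℝ) :
    Q b k (insert i s) z = (Q b k s (z + b i) - Q b k s (z - b i)) / (2 * b i) :=
  N_insert _ hi z

lemma Qf_insert {b : ι → ℝ} (k : ℕ) {s : Finset ι} {i : ι} (hi : i ∉ s) (z : ℝ) :
    Qf b k (insert i s) z = (Qf b k s (z + b i) - Qf b k s (z - b i)) / (2 * b i) :=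
  N_insert _ hi z

lemma N_smul (b : ι → ℝ) (c : ℝ) (φ : ℝ → ℝ) (s : Finset ι) (z : ℝ) :
    N b (fun x => c * φ x) s z = c * N b φ s z := by
  unfold N
  rw [← mul_div_assoc, Finset.mul_sum]
  congr 1
  apply Finset.sum_congr rfl
  intro T _
  ring

lemma Qf_euler {b : ι → ℝ} (k : ℕ) (s : Finset ι) (hb : ∀ i ∈ s, b i ≠ 0) (z : ℝ) :
    (k + 1 : ℝ) * Qf b (k + 1) s z = (z - ∑ i ∈ s, b i) * Qf b k s z +
      ∑ i ∈ s, Qf b k (s.erase i) (z + b i) := by
  unfold Qf
  rw [← N_euler (fk k) s hb z, ← N_smul]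
  congr 1
  ext x
  exact fk_mul k x

lemma Qf_erase {b : ι → ℝ} (k : ℕ) {s : Finset ι} {i : ι} (hi : i ∈ s) (z : ℝ) :
    Qf b k s z = (Qf b k (s.erase i) (z + b i) - Qf b k (s.erase i) (z - b i)) / (2 * b i) := by
  conv_lhs => rw [← Finset.insert_erase hi]
  exact Qf_insert k (Finset.notMem_erase i s) z

/-- Values of the full-power differences. -/
lemma Qf_values {b : ι → ℝ} (m : ℕ) : ∀ s : Finset ι, s.card = m → (∀ i ∈ s, b i ≠ 0) →
    (∀ k < m, ∀ z, Qf b k s z = 0) ∧ (∀ z, Qf b m s z = 1) ∧ (∀ z, Qf b (m + 1) s z = z) ∧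
    (∀ z, Qf b (m + 2) s z = z ^ 2 / 2 + (∑ i ∈ s, b i ^ 2) / 6) := by
  induction m with
  | zero =>
    intro s hs _
    rw [Finset.card_eq_zero] at hs
    subst hs
    refine ⟨by simp, ?_, ?_, ?_⟩ <;> intro z <;> simp [Qf, N_empty, fk]
  | succ m ih =>
    intro s hs hb
    have hb' : ∀ j ∈ s, ∀ i ∈ s.erase j, b i ≠ 0 := fun j _ i hi => hb i (Finset.mem_of_mem_erase hi)
    have hc : ∀ j ∈ s, (s.erase j).card = m := by
      intro j hj
      rw [Finset.card_erase_of_mem hj, hs]; rfl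
    have h0 : ∀ k < m + 1, ∀ z, Qf b k s z = 0 := by
      intro k hk z
      obtain ⟨i, hi⟩ : s.Nonempty := by
        rw [← Finset.card_pos, hs]; omega
      obtain ⟨h1, h2, -, -⟩ := ih _ (hc i hi) (hb' i hi)
      rw [Qf_erase k hi]
      rcases Nat.lt_succ_iff_lt_or_eq.mp hk with h | h
      · rw [h1 k h, h1 k h]; simp
      · rw [h, h2, h2]; simp
    have h1 : ∀ z, Qf b (m + 1) s z = 1 := by
      intro z
      have he := Qf_euler m s hb z
      have h3 : ∀ j ∈ s, Qf b m (s.erase j) (z + b j) = 1 := fun j hj =>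
        (ih _ (hc j hj) (hb' j hj)).2.1 _
      rw [h0 m (Nat.lt_succ_self m), Finset.sum_congr rfl h3, Finset.sum_const, hs] at he
      have hm : (m + 1 : ℝ) ≠ 0 := by (clear * -; positivity)
      apply mul_left_cancel₀ hm
      rw [he]
      simp
    have h2 : ∀ z, Qf b (m + 1 + 1) s z = z := by
      intro z
      have he := Qf_euler (m + 1) s hb z
      have h3 : ∀ j ∈ s, Qf b (m + 1) (s.erase j) (z + b j) = z + b j := fun j hj =>
        (ih _ (hc j hj) (hb' j hj)).2.2.1 _
      rw [h1, Finset.sum_congr rfl h3, Finset.sum_add_distrib, Finset.sum_const, hs] at he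
      have hm : ((m + 1 : ℕ) + 1 : ℝ) ≠ 0 := by (clear * -; positivity)
      apply mul_left_cancel₀ hm
      rw [he]
      simp
      ring
    refine ⟨h0, h1, h2, ?_⟩
    intro z
    have he := Qf_euler (m + 1 + 1) s hb z
    have h3 : ∀ j ∈ s, Qf b (m + 1 + 1) (s.erase j) (z + b j) =
        z ^ 2 / 2 + z * b j + b j ^ 2 / 2 + ((∑ i ∈ s, b i ^ 2) - b j ^ 2) / 6 := by
      intro j hj
      rw [(ih _ (hc j hj) (hb' j hj)).2.2.2 _, ← Finset.add_sum_erase s (fun i => b i ^ 2) hj]
      ring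
    rw [h2, Finset.sum_congr rfl h3] at he
    simp only [Finset.sum_add_distrib, Finset.sum_const, hs, ← Finset.sum_div,
      Finset.sum_sub_distrib, ← Finset.mul_sum] at he
    have hm : ((m + 1 + 1 : ℕ) + 1 : ℝ) ≠ 0 := by positivity
    apply mul_left_cancel₀ hm
    rw [he]
    simp
    ring

/-- Parity. -/
lemma pk_neg {k : ℕ} (hk : 1 ≤ k) (x : ℝ) : pk k (-x) = (-1) ^ k * (fk k x - pk k x) := by
  rcases lt_trichotomy x 0 with h | h | h
  · rw [pk_of_nonneg (by (clear * - h; linarith)), pk_of_neg h]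
    unfold fk
    rw [neg_pow]; ring
  · subst h
    rw [neg_zero, pk_of_nonneg le_rfl]
    unfold fk
    rw [zero_pow (by omega)]; simp
  · rw [pk_of_neg (by (clear * - h; linarith)), pk_of_nonneg h.le]; simp

lemma Q_neg {b : ι → ℝ} {k : ℕ} (hk : 1 ≤ k) (s : Finset ι) (z : ℝ) :
    Q b k s (-z) = (-1) ^ (k + s.card) * (Qf b k s z - Q b k s z) := by
  induction s using Finset.induction_on generalizing z with
  | empty => simp [Q, Qf, N_empty, pk_neg hk]
  | insert i s hi ih =>
    rw [Q_insert k hi, Q_insert k hi, Qf_insert k hi, Finset.card_insert_of_notMem hi]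
    rw [show -z + b i = -(z - b i) by ring, show -z - b i = -(z + b i) by ring, ih, ih, ← add_assoc,
      pow_succ]
    ring

lemma Q_eq_Qf {b : ι → ℝ} (k : ℕ) {s : Finset ι} (hb : ∀ i ∈ s, 0 < b i) {z : ℝ}
    (hz : ∑ i ∈ s, b i ≤ z) : Q b k s z = Qf b k s z := by
  unfold Q Qf N
  congr 1
  apply Finset.sum_congr rfl
  intro T hT
  congr 1
  apply pk_of_nonneg
  have : ∑ i ∈ T, b i ≤ ∑ i ∈ s, b i :=
    Finset.sum_le_sum_of_subset_of_nonneg (Finset.mem_powerset.mp hT) (fun i hi _ => (hb i hi).le)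
  linarith

lemma Q_high_zero {b : ι → ℝ} {k : ℕ} {s : Finset ι} (hb : ∀ i ∈ s, 0 < b i) (hk : k < s.card)
    {z : ℝ} (hz : ∑ i ∈ s, b i ≤ z) : Q b k s z = 0 := by
  rw [Q_eq_Qf k hb hz]
  exact (Qf_values s.card s rfl (fun i hi => (hb i hi).ne')).1 k hk z

end Pool.Agent.M18.Helper34.Slab
end

/- Helper34.Slab.Analysis -/
section
set_option autoImplicit false
set_option linter.unusedSectionVars false

open MeasureTheory Set Finset

namespace Pool.Agent.M18.Helper34.Slab

variable {ι : Type*} [DecidableEq ι]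

lemma fk_cont (k : ℕ) : Continuous (fk k) := by unfold fk; fun_prop

lemma fk_deriv (k : ℕ) (x : ℝ) : HasDerivAt (fk (k + 1)) (fk k x) x := by
  unfold fk
  have h := (hasDerivAt_pow (k + 1) x).div_const ((k + 1).factorial : ℝ)
  have e : ((k + 1 : ℕ) : ℝ) * x ^ (k + 1 - 1) / ((k + 1).factorial : ℝ) = x ^ k / (k.factorial : ℝ) := by
    rw [Nat.factorial_succ]
    have : (k.factorial : ℝ) ≠ 0 := by (clear * -; positivity)
    push_cast
    field_simp
  rw [e] at h
  exact h

lemma pk_eq_max {k : ℕ} (x : ℝ) : pk (k + 1) x = fk (k + 1) (max x 0) := by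
  rcases le_or_gt 0 x with h | h
  · rw [pk_of_nonneg h, max_eq_left h]
  · rw [pk_of_neg h, max_eq_right h.le]; simp [fk]

lemma pk_cont (k : ℕ) : Continuous (pk (k + 1)) := by
  have : pk (k + 1) = fun x => fk (k + 1) (max x 0) := by ext x; exact pk_eq_max x
  rw [this]
  exact (fk_cont _).comp (by fun_prop)

lemma pk_measurable (k : ℕ) : Measurable (pk k) := by
  unfold pk
  exact Measurable.ite measurableSet_Ici (by fun_prop) measurable_const

lemma pk_nonneg (k : ℕ) (x : ℝ) : 0 ≤ pk k x := by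
  unfold pk; split_ifs <;> positivity

lemma pk_mono (k : ℕ) : Monotone (pk k) := by
  intro x y hxy
  rcases le_or_gt 0 x with h | h
  · rw [pk_of_nonneg h, pk_of_nonneg (h.trans hxy)]
    unfold fk
    (clear * - h hxy; gcongr)
  · rw [pk_of_neg h]; exact pk_nonneg k y

lemma pk_rderiv (k : ℕ) (x : ℝ) : HasDerivWithinAt (pk (k + 1)) (pk k x) (Ioi x) x := by
  rcases le_or_gt 0 x with h | h
  · rw [pk_of_nonneg h]
    refine (fk_deriv k x).hasDerivWithinAt.congr ?_ (pk_of_nonneg h)
    intro y hy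
    exact pk_of_nonneg (h.trans (mem_Ioi.mp hy).le)
  · rw [pk_of_neg h]
    refine HasDerivAt.hasDerivWithinAt ?_
    refine (hasDerivAt_const x (0:ℝ)).congr_of_eventuallyEq ?_
    filter_upwards [Iio_mem_nhds h] with y hy
    exact pk_of_neg hy

lemma pk_deriv (k : ℕ) (x : ℝ) : HasDerivAt (pk (k + 2)) (pk (k + 1) x) x := by
  rcases lt_trichotomy x 0 with h | h | h
  · rw [pk_of_neg h]
    refine (hasDerivAt_const x (0:ℝ)).congr_of_eventuallyEq ?_
    filter_upwards [Iio_mem_nhds h] with y hy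
    exact pk_of_neg hy
  · subst h
    rw [pk_of_nonneg le_rfl]
    have h0 : fk (k + 1) 0 = 0 := by simp [fk]
    rw [h0]
    rw [hasDerivAt_iff_isLittleO_nhds_zero]
    simp only [zero_add, smul_zero, sub_zero]
    have h1 : pk (k + 2) 0 = 0 := by rw [pk_of_nonneg le_rfl]; simp [fk]
    simp only [h1, sub_zero]
    have h2 : (fun h : ℝ => pk (k + 2) h) =O[nhds 0] fun h : ℝ => h ^ 2 := by
      apply Asymptotics.IsBigO.of_bound 1
      filter_upwards [Metric.ball_mem_nhds (0:ℝ) one_pos] with y hy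
      rw [Metric.mem_ball, dist_zero_right, Real.norm_eq_abs] at hy
      rw [Real.norm_eq_abs, Real.norm_eq_abs, abs_of_nonneg (pk_nonneg _ _), one_mul]
      rcases le_or_gt 0 y with hy0 | hy0
      · rw [pk_of_nonneg hy0]
        rw [abs_of_nonneg hy0] at hy
        unfold fk
        rw [div_le_iff₀ (by positivity), abs_of_nonneg (by positivity)]
        have h3 : y ^ (k + 2) ≤ y ^ 2 := pow_le_pow_of_le_one hy0 hy.le (by omega)
        have h4 : (1 : ℝ) ≤ ((k + 2).factorial : ℝ) := by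
          exact_mod_cast Nat.succ_le_of_lt (Nat.factorial_pos _)
        (clear * - h3 h4; nlinarith [sq_nonneg y])
      · rw [pk_of_neg hy0]; positivity
    refine h2.trans_isLittleO ?_
    have := Asymptotics.isLittleO_pow_id (𝕜 := ℝ) (n := 2) (by norm_num)
    simpa using this
  · rw [pk_of_nonneg h.le]
    refine (fk_deriv (k + 1) x).congr_of_eventuallyEq ?_
    filter_upwards [Ioi_mem_nhds h] with y hy
    exact pk_of_nonneg (le_of_lt hy)

lemma pk_intervalIntegrable (k : ℕ) (x y : ℝ) : IntervalIntegrable (pk k) volume x y :=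
  (pk_mono k).intervalIntegrable

lemma pk_integral (k : ℕ) (x y : ℝ) : ∫ z in x..y, pk k z = pk (k + 1) y - pk (k + 1) x := by
  apply intervalIntegral.integral_eq_sub_of_hasDeriv_right
  · exact (pk_cont k).continuousOn
  · intro z _
    exact pk_rderiv k z
  · exact pk_intervalIntegrable k x y

lemma Q_empty (b : ι → ℝ) (k : ℕ) (z : ℝ) : Q b k ∅ z = pk k z := N_empty b _ z

lemma Q_fun_insert {b : ι → ℝ} (k : ℕ) {s : Finset ι} {i : ι} (hi : i ∉ s) :
    Q b k (insert i s) = fun z => (Q b k s (z + b i) - Q b k s (z - b i)) / (2 * b i) := by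
  ext z; exact Q_insert k hi z

lemma Q_measurable (b : ι → ℝ) (k : ℕ) (s : Finset ι) : Measurable (Q b k s) := by
  induction s using Finset.induction_on with
  | empty =>
    have : Q b k (∅ : Finset ι) = pk k := by ext z; exact Q_empty b _ z
    rw [this]; exact pk_measurable k
  | insert i s hi ih =>
    rw [Q_fun_insert _ hi]
    fun_prop

lemma Q_intervalIntegrable (b : ι → ℝ) (k : ℕ) (s : Finset ι) (x y : ℝ) :
    IntervalIntegrable (Q b k s) volume x y := by
  induction s using Finset.induction_on generalizing x y with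
  | empty =>
    have : Q b k (∅ : Finset ι) = pk k := by ext z; exact Q_empty b _ z
    rw [this]; exact pk_intervalIntegrable k x y
  | insert i s hi ih =>
    rw [Q_fun_insert _ hi]
    have h1 := (ih (x + b i) (y + b i)).comp_add_right (b i)
    have h2 := (ih (x - b i) (y - b i)).comp_sub_right (b i)
    simp only [add_sub_cancel_right, sub_add_cancel] at h1 h2
    exact (h1.sub h2).div_const _

lemma Q_deriv (b : ι → ℝ) (k : ℕ) (s : Finset ι) (z : ℝ) :
    HasDerivAt (Q b (k + 2) s) (Q b (k + 1) s z) z := by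
  induction s using Finset.induction_on generalizing z with
  | empty =>
    have : ∀ k, Q b k (∅ : Finset ι) = pk k := by intro k; ext z; exact Q_empty b _ z
    rw [this, this]; exact pk_deriv k z
  | insert i s hi ih =>
    rw [Q_fun_insert _ hi, Q_fun_insert _ hi]
    exact (((ih (z + b i)).comp_add_const z (b i)).sub ((ih (z - b i)).comp_sub_const z (b i))).div_const _

lemma Q_integral (b : ι → ℝ) (k : ℕ) (s : Finset ι) (x y : ℝ) :
    ∫ z in x..y, Q b k s z = Q b (k + 1) s y - Q b (k + 1) s x := by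
  induction s using Finset.induction_on generalizing x y with
  | empty => simp only [Q_empty]; exact pk_integral k x y
  | insert i s hi ih =>
    rw [Q_fun_insert _ hi, Q_fun_insert _ hi, intervalIntegral.integral_div,
      intervalIntegral.integral_sub, intervalIntegral.integral_comp_add_right (f := Q b k s),
      intervalIntegral.integral_comp_sub_right (f := Q b k s), ih, ih]
    · ring
    · have h1 := (Q_intervalIntegrable b k s (x + b i) (y + b i)).comp_add_right (b i)
      simpa only [add_sub_cancel_right] using h1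
    · have h1 := (Q_intervalIntegrable b k s (x - b i) (y - b i)).comp_sub_right (b i)
      simpa only [sub_add_cancel] using h1

lemma Q_bound {b : ι → ℝ} {k : ℕ} {s : Finset ι} (hb : ∀ i ∈ s, 0 < b i) (hk : k < s.card) :
    ∃ C : ℝ, ∀ z, |Q b k s z| ≤ C := by
  refine ⟨(∑ T ∈ s.powerset, pk k (2 * ∑ i ∈ s, b i)) / ∏ i ∈ s, (2 * b i), ?_⟩
  have hpos : 0 < ∏ i ∈ s, (2 * b i) := Finset.prod_pos (fun i hi => by have := hb i hi; (clear * - this; positivity))
  intro z
  rcases le_or_gt (∑ i ∈ s, b i) z with h | h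
  · rw [Q_high_zero hb hk h, abs_zero]
    exact div_nonneg (Finset.sum_nonneg (fun _ _ => pk_nonneg _ _)) hpos.le
  · unfold Q N
    rw [abs_div, abs_of_pos hpos]
    gcongr
    refine (Finset.abs_sum_le_sum_abs _ _).trans (Finset.sum_le_sum ?_)
    intro T hT
    rw [abs_mul, abs_pow, abs_neg, abs_one, one_pow, one_mul, abs_of_nonneg (pk_nonneg _ _)]
    apply pk_mono
    have : 0 ≤ ∑ i ∈ T, b i :=
      Finset.sum_nonneg (fun i hi => (hb i (Finset.mem_powerset.mp hT hi)).le)
    (clear * - h this; linarith)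

end Pool.Agent.M18.Helper34.Slab
end

/- Helper34.Slab.PL -/
section
/-!
One-dimensional Prekopa-Leindler inequality and log-concavity of averages over windows.
-/

open MeasureTheory Set

namespace Pool.Agent.M18.Helper34.Slab

/-- The volume of a set of convex combinations, when it is contained in a bounded interval. -/
theorem pl_vol {A B C : Set ℝ} (hA : A.Nonempty) (hB : B.Nonempty)
    (bA : BddAbove A ∧ BddBelow A) (bB : BddAbove B ∧ BddBelow B) (bC : BddAbove C ∧ BddBelow C)
    (oC : C.OrdConnected) {l : ℝ} (h0 : 0 < l) (h1 : l < 1)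
    (h : ∀ a ∈ A, ∀ b ∈ B, (1 - l) * a + l * b ∈ C) :
    ENNReal.ofReal (1 - l) * volume A + ENNReal.ofReal l * volume B ≤ volume C := by
  have hl1 : 0 < 1 - l := by (clear * - h1; linarith)
  have hvol : ∀ S : Set ℝ, BddAbove S ∧ BddBelow S → S.Nonempty →
      volume S ≤ ENNReal.ofReal (sSup S - sInf S) ∧ 0 ≤ sSup S - sInf S := by
    intro S hS hne
    refine ⟨?_, ?_⟩
    · rw [← Real.volume_Icc]
      exact measure_mono (subset_Icc_csInf_csSup hS.2 hS.1)
    · obtain ⟨s, hs⟩ := hne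
      have h2 := csInf_le hS.2 hs
      have h3 := le_csSup hS.1 hs
      linarith
  have hC : ENNReal.ofReal (sSup C - sInf C) ≤ volume C := by
    rw [← Real.volume_Ioo]
    refine measure_mono fun x hx => ?_
    obtain ⟨a, ha⟩ := hA
    obtain ⟨b, hb⟩ := hB
    have hne : C.Nonempty := ⟨_, h a ha b hb⟩
    obtain ⟨c, hc, hcx⟩ := exists_lt_of_csInf_lt hne hx.1
    obtain ⟨d, hd, hxd⟩ := exists_lt_of_lt_csSup hne hx.2
    exact oC.out hc hd ⟨hcx.le, hxd.le⟩
  have hinf : sInf C ≤ (1 - l) * sInf A + l * sInf B := by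
    have h2 : ∀ b ∈ B, (sInf C - l * b) / (1 - l) ≤ sInf A := by
      intro b hb
      refine le_csInf hA fun a ha => ?_
      rw [div_le_iff₀ hl1]
      have := csInf_le bC.2 (h a ha b hb)
      (clear * - this; linarith)
    have h3 : (sInf C - (1 - l) * sInf A) / l ≤ sInf B := by
      refine le_csInf hB fun b hb => ?_
      have := h2 b hb
      rw [div_le_iff₀ hl1] at this
      rw [div_le_iff₀ h0]
      (clear * - this; linarith)
    rw [div_le_iff₀ h0] at h3
    (clear * - h3; linarith)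
  have hsup : (1 - l) * sSup A + l * sSup B ≤ sSup C := by
    have h2 : ∀ b ∈ B, sSup A ≤ (sSup C - l * b) / (1 - l) := by
      intro b hb
      refine csSup_le hA fun a ha => ?_
      rw [le_div_iff₀ hl1]
      have := le_csSup bC.1 (h a ha b hb)
      (clear * - this; linarith)
    have h3 : sSup B ≤ (sSup C - (1 - l) * sSup A) / l := by
      refine csSup_le hB fun b hb => ?_
      have := h2 b hb
      rw [le_div_iff₀ hl1] at this
      rw [le_div_iff₀ h0]
      (clear * - this; linarith)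
    rw [le_div_iff₀ h0] at h3
    (clear * - h3; linarith)
  obtain ⟨vA, pA⟩ := hvol A bA hA
  obtain ⟨vB, pB⟩ := hvol B bB hB
  calc ENNReal.ofReal (1 - l) * volume A + ENNReal.ofReal l * volume B
      ≤ ENNReal.ofReal (1 - l) * ENNReal.ofReal (sSup A - sInf A) +
        ENNReal.ofReal l * ENNReal.ofReal (sSup B - sInf B) := by (clear * - vA vB; gcongr)
    _ = ENNReal.ofReal ((1 - l) * (sSup A - sInf A) + l * (sSup B - sInf B)) := by
        rw [← ENNReal.ofReal_mul hl1.le, ← ENNReal.ofReal_mul h0.le,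
          ← ENNReal.ofReal_add (mul_nonneg hl1.le pA) (mul_nonneg h0.le pB)]
    _ ≤ ENNReal.ofReal (sSup C - sInf C) := ENNReal.ofReal_le_ofReal (by linarith)
    _ ≤ volume C := hC

/-- Normalised form. -/
theorem pl_norm {f g h : ℝ → ℝ} (hf : Integrable f) (hg : Integrable g) (hh : Integrable h)
    (f0 : ∀ x, 0 ≤ f x) (g0 : ∀ x, 0 ≤ g x) (h0 : ∀ x, 0 ≤ h x) (f1 : ∀ x, f x ≤ 1)
    (g1 : ∀ x, g x ≤ 1) (f2 : ∀ c < 1, ∃ x, c < f x) (g2 : ∀ c < 1, ∃ x, c < g x) {R : ℝ}
    (fs : ∀ x, 0 < f x → |x| ≤ R) (gs : ∀ x, 0 < g x → |x| ≤ R) (hs : ∀ x, 0 < h x → |x| ≤ R)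
    (hc : ∀ c, 0 ≤ c → OrdConnected {x | c < h x}) {l : ℝ} (l0 : 0 < l) (l1 : l < 1)
    (hle : ∀ x y, f x ^ (1 - l) * g y ^ l ≤ h ((1 - l) * x + l * y)) :
    (1 - l) * (∫ x, f x) + l * (∫ x, g x) ≤ ∫ x, h x := by
  have hl1 : 0 < 1 - l := by linarith
  have hbd : ∀ (u : ℝ → ℝ) (_ : ∀ x, 0 < u x → |x| ≤ R) (c : ℝ) (_ : 0 ≤ c),
      BddAbove {x | c < u x} ∧ BddBelow {x | c < u x} := by
    intro u hu c hc0
    refine ⟨⟨R, fun x hx => (abs_le.1 (hu x (hc0.trans_lt hx))).2⟩,
      ⟨-R, fun x hx => (abs_le.1 (hu x (hc0.trans_lt hx))).1⟩⟩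
  have hmeas : ∀ u : ℝ → ℝ, Measurable fun t : ℝ => volume {x | t < u x} := by
    intro u
    refine Antitone.measurable fun s t hst => measure_mono fun x hx => ?_
    exact lt_of_le_of_lt hst hx
  have hlay : ∀ u : ℝ → ℝ, Integrable u → (∀ x, 0 ≤ u x) → (∀ x, u x ≤ 1) →
      ENNReal.ofReal (∫ x, u x) = ∫⁻ t in Ioo (0 : ℝ) 1, volume {x | t < u x} := by
    intro u hu u0 u1
    rw [ofReal_integral_eq_lintegral_ofReal hu (Filter.Eventually.of_forall u0),
      lintegral_eq_lintegral_meas_lt _ (Filter.Eventually.of_forall u0) hu.aemeasurable]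
    rw [← lintegral_indicator measurableSet_Ioi, ← lintegral_indicator measurableSet_Ioo]
    refine lintegral_congr fun t => ?_
    by_cases ht : t ∈ Ioo (0 : ℝ) 1
    · rw [indicator_of_mem ht, indicator_of_mem (show t ∈ Ioi (0 : ℝ) from ht.1)]
    · rw [indicator_of_notMem ht]
      by_cases ht0 : t ∈ Ioi (0 : ℝ)
      · rw [indicator_of_mem ht0]
        have h1t : 1 ≤ t := by
          by_contra hcon
          exact ht ⟨ht0, not_le.1 hcon⟩
        have : {x | t < u x} = ∅ := by
          ext x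
          simp only [mem_ofPred_eq, mem_empty_iff_false, iff_false, not_lt]
          exact (u1 x).trans h1t
        rw [this, measure_empty]
      · rw [indicator_of_notMem ht0]
  have hkey : ENNReal.ofReal (1 - l) * ENNReal.ofReal (∫ x, f x) +
      ENNReal.ofReal l * ENNReal.ofReal (∫ x, g x) ≤ ENNReal.ofReal (∫ x, h x) := by
    rw [hlay f hf f0 f1, hlay g hg g0 g1,
      ofReal_integral_eq_lintegral_ofReal hh (Filter.Eventually.of_forall h0),
      lintegral_eq_lintegral_meas_lt _ (Filter.Eventually.of_forall h0) hh.aemeasurable,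
      ← lintegral_const_mul _ (hmeas f), ← lintegral_const_mul _ (hmeas g),
      ← lintegral_add_left ((hmeas f).const_mul _)]
    refine le_trans (setLIntegral_mono (hmeas h) fun t ht => ?_)
      (lintegral_mono_set fun t ht => ht.1)
    obtain ⟨x, hx⟩ := f2 t ht.2
    obtain ⟨y, hy⟩ := g2 t ht.2
    refine pl_vol ⟨x, hx⟩ ⟨y, hy⟩ (hbd f fs t ht.1.le) (hbd g gs t ht.1.le) (hbd h hs t ht.1.le)
      (hc t ht.1.le) l0 l1 fun a ha b hb => ?_
    refine lt_of_lt_of_le ?_ (hle a b)
    have h3 : t = t ^ (1 - l) * t ^ l := by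
      rw [← Real.rpow_add ht.1]
      simp
    rw [h3]
    exact mul_lt_mul'' (Real.rpow_lt_rpow ht.1.le ha hl1) (Real.rpow_lt_rpow ht.1.le hb l0)
      (Real.rpow_nonneg ht.1.le _) (Real.rpow_nonneg ht.1.le _)
  have pf : 0 ≤ ∫ x, f x := integral_nonneg f0
  have pg : 0 ≤ ∫ x, g x := integral_nonneg g0
  have ph : 0 ≤ ∫ x, h x := integral_nonneg h0
  rw [← ENNReal.ofReal_mul hl1.le, ← ENNReal.ofReal_mul l0.le,
    ← ENNReal.ofReal_add (mul_nonneg hl1.le pf) (mul_nonneg l0.le pg),
    ENNReal.ofReal_le_ofReal_iff ph] at hkey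
  exact hkey

/-- The one-dimensional Prekopa-Leindler inequality for bounded functions with bounded support. -/
theorem pl_gen {f g h : ℝ → ℝ} (hf : Integrable f) (hg : Integrable g) (hh : Integrable h)
    (f0 : ∀ x, 0 ≤ f x) (g0 : ∀ x, 0 ≤ g x) (h0 : ∀ x, 0 ≤ h x) (f1 : BddAbove (range f))
    (g1 : BddAbove (range g)) {R : ℝ}
    (fs : ∀ x, 0 < f x → |x| ≤ R) (gs : ∀ x, 0 < g x → |x| ≤ R) (hs : ∀ x, 0 < h x → |x| ≤ R)
    (hc : ∀ c, 0 ≤ c → OrdConnected {x | c < h x}) {l : ℝ} (l0 : 0 < l) (l1 : l < 1)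
    (hle : ∀ x y, f x ^ (1 - l) * g y ^ l ≤ h ((1 - l) * x + l * y)) :
    (∫ x, f x) ^ (1 - l) * (∫ x, g x) ^ l ≤ ∫ x, h x := by
  have hl1 : 0 < 1 - l := by (clear * - l1; linarith)
  have pf : 0 ≤ ∫ x, f x := integral_nonneg f0
  have pg : 0 ≤ ∫ x, g x := integral_nonneg g0
  have ph : 0 ≤ ∫ x, h x := integral_nonneg h0
  rcases pf.eq_or_lt with hf0 | hf0
  · rw [← hf0, Real.zero_rpow hl1.ne', zero_mul]
    exact ph
  rcases pg.eq_or_lt with hg0 | hg0
  · rw [← hg0, Real.zero_rpow l0.ne', mul_zero]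
    exact ph
  have hsup : ∀ u : ℝ → ℝ, (∀ x, 0 ≤ u x) → BddAbove (range u) → 0 < ∫ x, u x →
      0 < sSup (range u) ∧ (∀ x, u x ≤ sSup (range u)) ∧
        ∀ c < sSup (range u), ∃ x, c < u x := by
    intro u u0 ub ui
    have h1 : ∀ x, u x ≤ sSup (range u) := fun x => le_csSup ub ⟨x, rfl⟩
    refine ⟨?_, h1, fun c hc => ?_⟩
    · by_contra hcon
      have h2 : ∀ x, u x = 0 := fun x => le_antisymm ((h1 x).trans (not_lt.1 hcon)) (u0 x)
      simp only [h2, integral_zero, lt_irrefl] at ui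
    · obtain ⟨_, ⟨x, rfl⟩, hx⟩ := exists_lt_of_lt_csSup (range_nonempty u) hc
      exact ⟨x, hx⟩
  obtain ⟨F0, F1, F2⟩ := hsup f f0 f1 hf0
  obtain ⟨G0, G1, G2⟩ := hsup g g0 g1 hg0
  set F := sSup (range f) with hF
  set G := sSup (range g) with hG
  have hH : 0 < F ^ (1 - l) * G ^ l := by (clear * - F0 G0; positivity)
  have key := pl_norm (f := fun x => f x / F) (g := fun x => g x / G)
    (h := fun x => h x / (F ^ (1 - l) * G ^ l)) (hf.div_const _) (hg.div_const _) (hh.div_const _)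
    (fun x => div_nonneg (f0 x) F0.le) (fun x => div_nonneg (g0 x) G0.le)
    (fun x => div_nonneg (h0 x) hH.le) (fun x => (div_le_one F0).2 (F1 x))
    (fun x => (div_le_one G0).2 (G1 x))
    (fun c hc1 => by
      obtain ⟨x, hx⟩ := F2 (c * F) (by (clear * - F0 hc1; nlinarith))
      exact ⟨x, (lt_div_iff₀ F0).2 hx⟩)
    (fun c hc1 => by
      obtain ⟨x, hx⟩ := G2 (c * G) (by (clear * - G0 hc1; nlinarith))
      exact ⟨x, (lt_div_iff₀ G0).2 hx⟩) (R := R)
    (fun x hx => fs x (by
      by_contra hcon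
      have : f x = 0 := le_antisymm (not_lt.1 hcon) (f0 x)
      simp [this] at hx))
    (fun x hx => gs x (by
      by_contra hcon
      have : g x = 0 := le_antisymm (not_lt.1 hcon) (g0 x)
      simp [this] at hx))
    (fun x hx => hs x (by
      by_contra hcon
      have : h x = 0 := le_antisymm (not_lt.1 hcon) (h0 x)
      simp [this] at hx))
    (fun c hc0 => by
      have := hc (c * (F ^ (1 - l) * G ^ l)) (by (clear * - hc0 F0 G0; positivity))
      simpa only [lt_div_iff₀ hH] using this) l0 l1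
    (fun x y => by
      rw [Real.div_rpow (f0 x) F0.le, Real.div_rpow (g0 y) G0.le, div_mul_div_comm]
      exact div_le_div_of_nonneg_right (hle x y) hH.le)
  rw [integral_div, integral_div, integral_div] at key
  have key2 := Real.geom_mean_le_arith_mean2_weighted hl1.le l0.le (div_nonneg pf F0.le)
    (div_nonneg pg G0.le) (by ring : 1 - l + l = 1)
  have key3 := key2.trans key
  rw [Real.div_rpow pf F0.le, Real.div_rpow pg G0.le, div_mul_div_comm,
    div_le_div_iff_of_pos_right hH] at key3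
  exact key3

theorem window_logconcave {G : ℝ → ℝ} (hm : Measurable G) {C : ℝ} (hC : ∀ x, |G x| ≤ C)
    (h0 : ∀ x, 0 < x → 0 ≤ G x)
    (hlc : ∀ x, 0 < x → ∀ y, 0 < y → ∀ l : ℝ, 0 < l → l < 1 →
      G x ^ (1 - l) * G y ^ l ≤ G ((1 - l) * x + l * y))
    {b : ℝ} (hb : 0 < b) :
    ∀ x, 0 < x → ∀ y, 0 < y → ∀ l : ℝ, 0 < l → l < 1 →
      (∫ p in |x - b|..(x + b), G p) ^ (1 - l) * (∫ p in |y - b|..(y + b), G p) ^ l
        ≤ ∫ p in |((1 - l) * x + l * y) - b|..(((1 - l) * x + l * y) + b), G p := by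
  intro x hx y hy l l0 l1
  have hl1 : 0 < 1 - l := by (clear * - l1; linarith)
  have hw : 0 < (1 - l) * x + l * y := by (clear * - l1 hx l0 hy; positivity)
  set w := (1 - l) * x + l * y with hwdef
  -- the integrals as integrals over the line
  have hint : ∀ z, 0 < z → ∫ p in |z - b|..(z + b), G p =
      ∫ p, (Ioo |z - b| (z + b)).indicator G p := by
    intro z hz
    have h1 : |z - b| ≤ z + b := abs_le.2 ⟨by linarith, by (clear * - hb; linarith)⟩
    rw [intervalIntegral.integral_of_le h1, integral_Ioc_eq_integral_Ioo,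
      integral_indicator measurableSet_Ioo]
  have hpos : ∀ z p, p ∈ Ioo |z - b| (z + b) → 0 < p := fun z p hp =>
    (abs_nonneg _).trans_lt hp.1
  have hi : ∀ z, Integrable ((Ioo |z - b| (z + b)).indicator G) := by
    intro z
    rw [integrable_indicator_iff measurableSet_Ioo]
    refine Measure.integrableOn_of_bounded (M := C) ?_ hm.aestronglyMeasurable
      (Filter.Eventually.of_forall hC)
    rw [Real.volume_Ioo]
    exact ENNReal.ofReal_ne_top
  have hn : ∀ z p, 0 ≤ (Ioo |z - b| (z + b)).indicator G p := by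
    intro z p
    exact indicator_nonneg (fun q hq => h0 q (hpos z q hq)) p
  have hbdd : ∀ z, BddAbove (range ((Ioo |z - b| (z + b)).indicator G)) := by
    intro z
    refine ⟨C, ?_⟩
    rintro _ ⟨p, rfl⟩
    have hC0 : 0 ≤ C := (abs_nonneg _).trans (hC 0)
    by_cases hp : p ∈ Ioo |z - b| (z + b)
    · rw [indicator_of_mem hp]
      exact (le_abs_self _).trans (hC p)
    · rw [indicator_of_notMem hp]
      exact hC0
  have hmem : ∀ z p, 0 < (Ioo |z - b| (z + b)).indicator G p → p ∈ Ioo |z - b| (z + b) := by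
    intro z p hp
    by_contra hcon
    rw [indicator_of_notMem hcon] at hp
    exact lt_irrefl _ hp
  have hsupp : ∀ z, |z| ≤ x + y → ∀ p, 0 < (Ioo |z - b| (z + b)).indicator G p →
      |p| ≤ x + y + b := by
    intro z hz p hp
    have h1 := hmem z p hp
    rw [abs_of_pos (hpos z p h1)]
    have := (abs_le.1 hz).2
    (clear * - this h1; linarith [h1.2])
  rw [hint x hx, hint y hy, hint w hw]
  refine pl_gen (hi x) (hi y) (hi w) (hn x) (hn y) (hn w) (hbdd x) (hbdd y) (R := x + y + b)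
    (hsupp x (by rw [abs_of_pos hx]; linarith)) (hsupp y (by rw [abs_of_pos hy]; linarith))
    (hsupp w (by rw [abs_of_pos hw, hwdef]; (clear * - hx l0 hy l1; nlinarith))) ?_ l0 l1 ?_
  · intro c hc
    refine ⟨?_⟩
    rintro p hp q hq r ⟨hpr, hrq⟩
    have hp' : c < (Ioo |w - b| (w + b)).indicator G p := hp
    have hq' : c < (Ioo |w - b| (w + b)).indicator G q := hq
    have hpm := hmem w p (hc.trans_lt hp')
    have hqm := hmem w q (hc.trans_lt hq')
    have hrm : r ∈ Ioo |w - b| (w + b) := ⟨hpm.1.trans_le hpr, hrq.trans_lt hqm.2⟩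
    rw [indicator_of_mem hpm] at hp'
    rw [indicator_of_mem hqm] at hq'
    show c < (Ioo |w - b| (w + b)).indicator G r
    rw [indicator_of_mem hrm]
    rcases hpr.eq_or_lt with h1 | h1
    · rw [← h1]; exact hp'
    rcases hrq.eq_or_lt with h2 | h2
    · rw [h2]; exact hq'
    have hpq : 0 < q - p := by (clear * - h1 h2; linarith)
    have s0 : 0 < (r - p) / (q - p) := div_pos (by linarith) hpq
    have s1 : (r - p) / (q - p) < 1 := (div_lt_one hpq).2 (by linarith)
    have h3 := hlc p (hpos w p hpm) q (hpos w q hqm) _ s0 s1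
    have h4 : (1 - (r - p) / (q - p)) * p + (r - p) / (q - p) * q = r := by
      field_simp
      ring
    rw [h4] at h3
    refine lt_of_lt_of_le ?_ h3
    have hs1 : 0 < 1 - (r - p) / (q - p) := by (clear * - s1; linarith)
    rcases hc.eq_or_lt with h5 | h5
    · rw [← h5] at hp' hq' ⊢
      (clear * - hp' hq'; positivity)
    · have h6 : c = c ^ (1 - (r - p) / (q - p)) * c ^ ((r - p) / (q - p)) := by
        rw [← Real.rpow_add h5]
        simp
      rw [h6]
      exact mul_lt_mul'' (Real.rpow_lt_rpow hc hp' hs1) (Real.rpow_lt_rpow hc hq' s0)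
        (Real.rpow_nonneg hc _) (Real.rpow_nonneg hc _)
  · intro p q
    by_cases hp : p ∈ Ioo |x - b| (x + b)
    swap
    · rw [indicator_of_notMem hp, Real.zero_rpow hl1.ne', zero_mul]
      exact hn w _
    by_cases hq : q ∈ Ioo |y - b| (y + b)
    swap
    · rw [indicator_of_notMem hq, Real.zero_rpow l0.ne', mul_zero]
      exact hn w _
    have hm' : (1 - l) * p + l * q ∈ Ioo |w - b| (w + b) := by
      constructor
      · have h1 : w - b = (1 - l) * (x - b) + l * (y - b) := by rw [hwdef]; ring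
        calc |w - b| ≤ |(1 - l) * (x - b)| + |l * (y - b)| := by rw [h1]; exact abs_add_le _ _
          _ = (1 - l) * |x - b| + l * |y - b| := by
            rw [abs_mul, abs_mul, abs_of_pos hl1, abs_of_pos l0]
          _ < (1 - l) * p + l * q := by (clear * - l0 hq l1 hp; nlinarith [hp.1, hq.1])
      · rw [hwdef]
        (clear * - l0 hq l1 hp; nlinarith [hp.2, hq.2])
    rw [indicator_of_mem hp, indicator_of_mem hq, indicator_of_mem hm']
    exact hlc p (hpos x p hp) q (hpos y q hq) l l0 l1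

end Pool.Agent.M18.Helper34.Slab
end

/- Helper34.Slab.GFun -/
section
set_option autoImplicit false
set_option linter.unusedSectionVars false

open MeasureTheory

namespace Pool.Agent.M18.Helper34.Slab

variable {ι : Type*} [DecidableEq ι]

/-- For `|r| = k + 2`, the function `G = -Q k r` is minus the derivative of the density. -/
lemma G_window {b : ι → ℝ} {k : ℕ} {r : Finset ι} (hb : ∀ i ∈ r, 0 < b i) (hr : r.card = k + 2)
    {i : ι} (hi : i ∉ r) {z : ℝ} :
    - Q b (k + 1) (insert i r) z = (∫ y in |z - b i|..(z + b i), - Q b k r y) / (2 * b i) := by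
  have heven : Q b (k + 1) r |z - b i| = Q b (k + 1) r (z - b i) := by
    rcases abs_choice (z - b i) with h | h
    · rw [h]
    · rw [h, Q_neg (by omega), (Qf_values r.card r rfl (fun i hi => (hb i hi).ne')).1 (k + 1) (by omega),
        hr, show k + 1 + (k + 2) = 2 * (k + 1) + 1 by ring, pow_succ, pow_mul]
      simp
  rw [Q_insert _ hi, intervalIntegral.integral_neg, Q_integral, heven]
  ring

lemma two_card {b : ι → ℝ} {r : Finset ι} (hb : ∀ i ∈ r, 0 < b i) (hr : r.card = 2) :
    ∃ c d e : ℝ, 0 ≤ c ∧ 0 ≤ d ∧ d ≤ e ∧ ∀ z, 0 < z → - Q b 0 r z = if d ≤ z ∧ z < e then c else 0 := by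
  obtain ⟨i, j, hij, rfl⟩ := Finset.card_eq_two.mp hr
  wlog hle : b j ≤ b i generalizing i j
  · have := this j i hij.symm (by rwa [Finset.pair_comm]) (by rwa [Finset.pair_comm]) (le_of_not_ge hle)
    rwa [Finset.pair_comm]
  have hbi : 0 < b i := hb i (by simp)
  have hbj : 0 < b j := hb j (by simp)
  refine ⟨1 / (4 * b i * b j), b i - b j, b i + b j, by (clear * - hbi hbj; positivity), by (clear * - hle; linarith), by (clear * - hbj; linarith), ?_⟩
  intro z hz
  have hi : i ∉ ({j} : Finset ι) := by simpa using hij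
  have hj : j ∉ (∅ : Finset ι) := by simp
  have e1 : Q b 0 {i, j} z = (((pk 0 (z + b i + b j) - pk 0 (z + b i - b j)) / (2 * b j)) -
      ((pk 0 (z - b i + b j) - pk 0 (z - b i - b j)) / (2 * b j))) / (2 * b i) := by
    rw [Q_insert 0 hi]
    have : ∀ y, Q b 0 {j} y = (pk 0 (y + b j) - pk 0 (y - b j)) / (2 * b j) := by
      intro y
      have := Q_insert (b := b) 0 hj y
      simpa [Q_empty] using this
    rw [this, this]
  have p1 : ∀ x : ℝ, 0 ≤ x → pk 0 x = 1 := by
    intro x hx; rw [pk_of_nonneg hx]; simp [fk]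
  rw [e1, p1 (z + b i + b j) (by (clear * - hbi hbj hz; linarith)), p1 (z + b i - b j) (by (clear * - hle hz; linarith))]
  by_cases h1 : b i - b j ≤ z
  · by_cases h2 : z < b i + b j
    · rw [if_pos ⟨h1, h2⟩, p1 (z - b i + b j) (by (clear * - h1; linarith)), pk_of_neg (by (clear * - h2; linarith) : z - b i - b j < 0)]
      field_simp
      ring
    · rw [if_neg (by tauto), p1 (z - b i + b j) (by (clear * - hbj h2; linarith)), p1 (z - b i - b j) (by (clear * - h2; linarith))]
      simp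
  · rw [if_neg (by tauto), pk_of_neg (by (clear * - h1; linarith) : z - b i + b j < 0),
      pk_of_neg (by (clear * - hbj h1; linarith) : z - b i - b j < 0)]
    simp

/-- `G` is nonnegative and log-concave on `(0, ∞)`. -/
lemma G_logconcave {b : ι → ℝ} (k : ℕ) : ∀ r : Finset ι, r.card = k + 2 → (∀ i ∈ r, 0 < b i) →
    (∀ x, 0 < x → 0 ≤ - Q b k r x) ∧
    (∀ x, 0 < x → ∀ y, 0 < y → ∀ l : ℝ, 0 < l → l < 1 →
      (- Q b k r x) ^ (1 - l) * (- Q b k r y) ^ l ≤ - Q b k r ((1 - l) * x + l * y)) := by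
  induction k with
  | zero =>
    intro r hr hb
    obtain ⟨c, d, e, hc, hd, hde, h⟩ := two_card hb hr
    have hnn : ∀ x, 0 < x → 0 ≤ - Q b 0 r x := by
      intro x hx; rw [h x hx]; split_ifs <;> simp [hc]
    refine ⟨hnn, ?_⟩
    intro x hx y hy l hl0 hl1
    have hw : 0 < (1 - l) * x + l * y := by
      have : 0 < (1 - l) * x := by apply mul_pos <;> (clear * - hl1 hx; linarith)
      (clear * - hl1 hx hl0 hy; positivity)
    by_cases h1 : d ≤ x ∧ x < e
    · by_cases h2 : d ≤ y ∧ y < e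
      · rw [h x hx, h y hy, h _ hw, if_pos h1, if_pos h2, if_pos]
        · rcases eq_or_lt_of_le hc with hc0 | hc0
          · rw [← hc0, Real.zero_rpow (by (clear * - hl1; linarith))]; simp
          · rw [← Real.rpow_add hc0]; simp
        · constructor
          · (clear * - hl0 h2 hl1 h1; nlinarith [h1.1, h2.1])
          · have a1 : (1 - l) * x < (1 - l) * e := mul_lt_mul_of_pos_left h1.2 (by linarith)
            have a2 : l * y < l * e := mul_lt_mul_of_pos_left h2.2 hl0
            linarith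
      · rw [h y hy, if_neg h2, Real.zero_rpow hl0.ne', mul_zero]
        exact hnn _ hw
    · rw [h x hx, if_neg h1, Real.zero_rpow (by (clear * - hl1; linarith)), zero_mul]
      exact hnn _ hw
  | succ k ih =>
    intro r hr hb
    obtain ⟨i, hi⟩ : r.Nonempty := by rw [← Finset.card_pos, hr]; omega
    have hc : (r.erase i).card = k + 2 := by rw [Finset.card_erase_of_mem hi, hr]; rfl
    have hb' : ∀ j ∈ r.erase i, 0 < b j := fun j hj => hb j (Finset.mem_of_mem_erase hj)
    obtain ⟨h1, h2⟩ := ih _ hc hb'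
    have hbi := hb i hi
    have hwin : ∀ z, - Q b (k + 1) r z =
        (∫ y in |z - b i|..(z + b i), - Q b k (r.erase i) y) / (2 * b i) := by
      intro z
      conv_lhs => rw [← Finset.insert_erase hi]
      exact G_window hb' hc (Finset.notMem_erase i r)
    have habs : ∀ z, 0 < z → |z - b i| ≤ z + b i := by
      intro z hz; rw [abs_le]; constructor <;> (clear * - hz hbi; linarith)
    have hnn : ∀ x, 0 < x → 0 ≤ ∫ y in |x - b i|..(x + b i), - Q b k (r.erase i) y := by
      intro x hx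
      rw [intervalIntegral.integral_of_le (habs x hx)]
      apply setIntegral_nonneg measurableSet_Ioc
      intro y hy
      exact h1 y (lt_of_le_of_lt (abs_nonneg _) hy.1)
    obtain ⟨C, hC⟩ := Q_bound (b := b) (k := k) hb' (by rw [hc]; omega)
    have hPL := window_logconcave (G := fun y => - Q b k (r.erase i) y)
      (Q_measurable b k (r.erase i)).neg (C := C) (fun x => by rw [abs_neg]; exact hC x) h1 h2 hbi
    refine ⟨?_, ?_⟩
    · intro x hx
      rw [hwin]
      exact div_nonneg (hnn x hx) (by positivity)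
    · intro x hx y hy l hl0 hl1
      have hw : 0 < (1 - l) * x + l * y := by
        have : 0 < (1 - l) * x := by apply mul_pos <;> (clear * - hl1 hx; linarith)
        (clear * - hl1 hx hl0 hy; positivity)
      rw [hwin, hwin, hwin]
      have h3 := hPL x hx y hy l hl0 hl1
      have hpos : 0 < 2 * b i := by positivity
      rw [Real.div_rpow (hnn x hx) hpos.le, Real.div_rpow (hnn y hy) hpos.le, div_mul_div_comm,
        ← Real.rpow_add hpos]
      simp only [sub_add_cancel, Real.rpow_one]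
      gcongr

/-- Tilts of `G` are quasi-concave. -/
lemma G_tilt {b : ι → ℝ} {k : ℕ} {r : Finset ι} (hr : r.card = k + 2) (hb : ∀ i ∈ r, 0 < b i)
    (a : ℝ) {x y z : ℝ} (hx : 0 < x) (hxy : x ≤ y) (hyz : y ≤ z) :
    min (Real.exp (a * x) * - Q b k r x) (Real.exp (a * z) * - Q b k r z) ≤
      Real.exp (a * y) * - Q b k r y := by
  obtain ⟨h1, h2⟩ := G_logconcave k r hr hb
  rcases eq_or_lt_of_le hxy with rfl | hxy'
  · exact min_le_left _ _
  rcases eq_or_lt_of_le hyz with rfl | hyz'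
  · exact min_le_right _ _
  set l : ℝ := (y - x) / (z - x) with hl
  have hzx : 0 < z - x := by (clear * - hxy' hyz'; linarith)
  have hl0 : 0 < l := div_pos (by (clear * - hxy'; linarith)) hzx
  have hl1 : l < 1 := by rw [hl, div_lt_one hzx]; (clear * - hyz'; linarith)
  have hy : (1 - l) * x + l * z = y := by rw [hl]; field_simp; ring
  have h3 := h2 x hx z (by (clear * - hx hxy' hyz'; linarith)) l hl0 hl1
  rw [hy] at h3
  set u := Real.exp (a * x) * - Q b k r x with hu
  set v := Real.exp (a * z) * - Q b k r z with hv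
  have hu0 : 0 ≤ u := mul_nonneg (Real.exp_pos _).le (h1 x hx)
  have hv0 : 0 ≤ v := mul_nonneg (Real.exp_pos _).le (h1 z (by (clear * - hx hxy' hyz'; linarith)))
  have hmin0 : 0 ≤ min u v := le_min hu0 hv0
  have h4 : u ^ (1 - l) * v ^ l ≤ Real.exp (a * y) * - Q b k r y := by
    rw [hu, hv, Real.mul_rpow (Real.exp_pos _).le (h1 x hx),
      Real.mul_rpow (Real.exp_pos _).le (h1 z (by (clear * - hx hxy' hyz'; linarith))), ← Real.exp_mul, ← Real.exp_mul]
    rw [mul_mul_mul_comm, ← Real.exp_add]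
    have : a * x * (1 - l) + a * z * l = a * y := by rw [← hy]; ring
    rw [this]
    (clear * - h3; gcongr)
  have h5 : min u v ≤ u ^ (1 - l) * v ^ l := by
    rcases eq_or_lt_of_le hmin0 with h | h
    · rw [← h]; (clear * - hu0 hv0; positivity)
    · calc min u v = (min u v) ^ (1 - l) * (min u v) ^ l := by
            rw [← Real.rpow_add h]; simp
        _ ≤ u ^ (1 - l) * v ^ l :=
            mul_le_mul (Real.rpow_le_rpow hmin0 (min_le_left _ _) (by (clear * - hl1; linarith)))
              (Real.rpow_le_rpow hmin0 (min_le_right _ _) hl0.le) (by (clear * - h; positivity)) (by positivity)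
  exact h5.trans h4

end Pool.Agent.M18.Helper34.Slab
end

/- Helper28.Slab.Vol -/
section
/-!
The volume of a slab of the cube (module S7 of the project SLAB, MP_66ebcc_gt).
-/

set_option autoImplicit false

namespace Pool.Agent.M18.Slab

open MeasureTheory Set

namespace Vol

/-- the part of the cube above the level `s` -/
def K (n : ℕ) (a : Fin n → ℝ) (s : ℝ) : Set (Fin n → ℝ) :=
  {x | (∀ i, |x i| ≤ 1) ∧ s < ∑ i, a i * x i}

/-- the cube -/
def C (n : ℕ) : Set (Fin n → ℝ) := {x | ∀ i, |x i| ≤ 1}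

theorem C_eq (n : ℕ) : C n = Icc (fun _ => -1) (fun _ => 1) := by
  ext x
  simp only [C, Set.mem_ofPred_eq, mem_Icc, Pi.le_def, abs_le]
  exact forall_and

theorem C_vol (n : ℕ) : volume (C n) = ENNReal.ofReal (2 ^ n) := by
  rw [C_eq, Real.volume_Icc_pi, ← ENNReal.ofReal_prod_of_nonneg]
  · norm_num
  · intro i _
    norm_num

theorem C_meas (n : ℕ) : MeasurableSet (C n) := by
  rw [C_eq]
  exact measurableSet_Icc

theorem K_meas (n : ℕ) (a : Fin n → ℝ) (s : ℝ) : MeasurableSet (K n a s) := by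
  have h : K n a s = C n ∩ {x | s < ∑ i, a i * x i} := rfl
  rw [h]
  exact (C_meas n).inter (measurableSet_lt measurable_const (by fun_prop))

theorem K_lt_top (n : ℕ) (a : Fin n → ℝ) (s : ℝ) : volume (K n a s) < ⊤ := by
  refine lt_of_le_of_lt (measure_mono (?_ : K n a s ⊆ C n)) ?_
  · intro x hx
    exact hx.1
  · rw [C_vol]
    exact ENNReal.ofReal_lt_top

theorem K_slice (n : ℕ) (a : Fin (n + 1) → ℝ) (s : ℝ) :
    volume (K (n + 1) a s) =
      ∫⁻ u in Icc (-1 : ℝ) 1, volume (K n (fun i => a i.succ) (s - a 0 * u)) := by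
  have e := volume_preserving_piFinSuccAbove (fun _ : Fin (n + 1) => ℝ) 0
  set S : Set (ℝ × (Fin n → ℝ)) :=
    {p | |p.1| ≤ 1 ∧ (∀ i, |p.2 i| ≤ 1) ∧ s < a 0 * p.1 + ∑ i : Fin n, a i.succ * p.2 i} with hS
  have hSm : MeasurableSet S := by
    have h1 : S = ({p | |p.1| ≤ 1} ∩ {p | p.2 ∈ C n}) ∩
        {p | s < a 0 * p.1 + ∑ i : Fin n, a i.succ * p.2 i} := by
      ext p
      simp only [hS, C, Set.mem_ofPred_eq, mem_inter_iff]
      tauto
    rw [h1]
    refine ((measurableSet_le (by fun_prop) measurable_const).inter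
      (measurable_snd (C_meas n))).inter (measurableSet_lt measurable_const (by fun_prop))
  have h1 : K (n + 1) a s = MeasurableEquiv.piFinSuccAbove (fun _ : Fin (n + 1) => ℝ) 0 ⁻¹' S := by
    ext x
    simp only [K, hS, mem_preimage, Set.mem_ofPred_eq, Fin.forall_fin_succ, Fin.sum_univ_succ]
    simp [MeasurableEquiv.piFinSuccAbove, Fin.insertNthEquiv, Fin.tail, and_assoc]
  rw [h1, e.measure_preimage hSm.nullMeasurableSet, Measure.volume_eq_prod,
    Measure.prod_apply hSm, ← lintegral_indicator measurableSet_Icc]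
  congr 1
  funext u
  by_cases hu : u ∈ Icc (-1 : ℝ) 1
  · rw [indicator_of_mem hu]
    congr 1
    ext y
    simp only [hS, K, mem_preimage, Set.mem_ofPred_eq, abs_le.mpr hu, true_and]
    constructor
    · rintro ⟨h2, h3⟩
      exact ⟨h2, by (clear * - h3; linarith)⟩
    · rintro ⟨h2, h3⟩
      exact ⟨h2, by linarith⟩
  · rw [indicator_of_notMem hu]
    have h2 : Prod.mk u ⁻¹' S = ∅ := by
      ext y
      simp only [hS, mem_preimage, Set.mem_ofPred_eq, mem_empty_iff_false, iff_false]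
      intro h3
      exact hu (abs_le.mp h3.1)
    rw [h2, measure_empty]

theorem K_measurable (n : ℕ) (a : Fin n → ℝ) (s c : ℝ) :
    Measurable fun u : ℝ => volume (K n a (s - c * u)) := by
  set S : Set (ℝ × (Fin n → ℝ)) :=
    {p | (∀ i, |p.2 i| ≤ 1) ∧ s - c * p.1 < ∑ i : Fin n, a i * p.2 i} with hS
  have hSm : MeasurableSet S := by
    have h1 : S = {p | p.2 ∈ C n} ∩ {p | s - c * p.1 < ∑ i : Fin n, a i * p.2 i} := rfl
    rw [h1]
    exact (measurable_snd (C_meas n)).inter (measurableSet_lt (by fun_prop) (by fun_prop))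
  exact measurable_measure_prodMk_left hSm

theorem K_eq (n : ℕ) : ∀ (a : Fin n → ℝ) (s : ℝ),
    (volume (K n a s)).toReal = AL (List.ofFn a) H s := by
  induction n with
  | zero =>
    intro a s
    rw [List.ofFn_zero, AL_nil, H]
    by_cases hs : s < 0
    · rw [if_pos hs]
      have h1 : K 0 a s = C 0 := by
        ext x
        simp only [K, C, Set.mem_ofPred_eq, IsEmpty.forall_iff, true_and, iff_true]
        simpa using hs
      rw [h1, C_vol]
      simp
    · rw [if_neg hs]
      have h1 : K 0 a s = ∅ := by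
        ext x
        simp only [K, Set.mem_ofPred_eq, IsEmpty.forall_iff, true_and, mem_empty_iff_false,
          iff_false]
        simpa using hs
      rw [h1, measure_empty, ENNReal.toReal_zero]
  | succ n ih =>
    intro a s
    rw [List.ofFn_succ, AL_cons, A, K_slice,
      intervalIntegral.integral_of_le (by norm_num), ← integral_Icc_eq_integral_Ioc,
      ← integral_toReal (K_measurable n _ s (a 0)).aemeasurable
        (Filter.Eventually.of_forall fun u => K_lt_top n _ _)]
    congr 1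
    funext u
    exact ih _ _

end Vol

open Vol in
theorem volume_slab (n : ℕ) (a : Fin n → ℝ) (t : ℝ) (ht : 0 ≤ t) :
    volume {x : Fin n → ℝ | (∀ i, |x i| ≤ 1) ∧ |∑ i, a i * x i| ≤ t} =
      ENNReal.ofReal (2 ^ n - 2 * AL (List.ofFn a) H t) := by
  set S : Set (Fin n → ℝ) := {x | (∀ i, |x i| ≤ 1) ∧ |∑ i, a i * x i| ≤ t} with hS
  set V : Set (Fin n → ℝ) := {x | (∀ i, |x i| ≤ 1) ∧ ∑ i, a i * x i < -t} with hV
  have hVK : volume V = volume (K n a t) := by
    have h1 : V = Neg.neg ⁻¹' (K n a t) := by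
      ext x
      simp only [hV, K, mem_preimage, Set.mem_ofPred_eq, Pi.neg_apply, abs_neg, mul_neg,
        Finset.sum_neg_distrib]
      constructor
      · rintro ⟨h2, h3⟩
        exact ⟨h2, by (clear * - h3; linarith)⟩
      · rintro ⟨h2, h3⟩
        exact ⟨h2, by (clear * - h3; linarith)⟩
    rw [h1]
    exact (Measure.measurePreserving_neg (volume : Measure (Fin n → ℝ))).measure_preimage
      (K_meas n a t).nullMeasurableSet
  have hVm : MeasurableSet V := by
    have h : V = C n ∩ {x | ∑ i, a i * x i < -t} := rfl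
    rw [h]
    exact (C_meas n).inter (measurableSet_lt (by fun_prop) measurable_const)
  have hC : C n = S ∪ (K n a t ∪ V) := by
    ext x
    simp only [C, hS, hV, K, mem_union, Set.mem_ofPred_eq, abs_le]
    constructor
    · intro h1
      by_cases h2 : t < ∑ i, a i * x i
      · exact Or.inr (Or.inl ⟨h1, h2⟩)
      · by_cases h3 : ∑ i, a i * x i < -t
        · exact Or.inr (Or.inr ⟨h1, h3⟩)
        · exact Or.inl ⟨h1, by (clear * - h3; linarith), by linarith⟩
    · rintro (h1 | h1 | h1)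
      · exact h1.1
      · exact h1.1
      · exact h1.1
  have hd1 : Disjoint (K n a t) V := by
    rw [Set.disjoint_left]
    intro x h1 h2
    have h3 := h1.2
    have h4 := h2.2
    linarith
  have hd2 : Disjoint S (K n a t ∪ V) := by
    rw [Set.disjoint_left]
    intro x h1 h2
    have h3 := abs_le.mp h1.2
    rcases h2 with h2 | h2
    · have h4 := h2.2
      linarith
    · have h4 := h2.2
      linarith
  have hvol : ENNReal.ofReal (2 ^ n) = volume S + (volume (K n a t) + volume (K n a t)) := by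
    rw [← C_vol, hC, measure_union hd2 ((K_meas n a t).union hVm), measure_union hd1 hVm, hVK]
  have hK := K_lt_top n a t
  have hSt : volume S ≠ ⊤ := by
    intro h
    rw [h, top_add] at hvol
    exact ENNReal.ofReal_ne_top hvol
  have h1 := congrArg ENNReal.toReal hvol
  rw [ENNReal.toReal_ofReal (by positivity), ENNReal.toReal_add hSt (by simp [hK.ne]),
    ENNReal.toReal_add hK.ne hK.ne, K_eq] at h1
  rw [← ENNReal.ofReal_toReal hSt]
  congr 1
  linarith

end Pool.Agent.M18.Slab
end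

/- Helper89.SP.WaveDefs -/
section
/-! Definitions used by the wave facts. -/

set_option autoImplicit false

open MeasureTheory Set Real Pool.Agent.M18.Slab

namespace Pool.Agent.M18.Helper89.SP

/-- from the node `ν` on, the pair `(p, q)` may be replaced by the pair `(c, c)` -/
def PairEx (l : List ℝ) (p q ν : ℝ) : Prop :=
  ∀ s, ν ≤ s → ∀ c, 0 ≤ c → 2 * c ^ 2 = p ^ 2 + q ^ 2 →
    AL (l ++ [p, q]) H s ≤ AL (l ++ [c, c]) H s

/-- the data of the facts M_m -/
structure DM (m : ℕ) (l : List ℝ) (x u : ℝ) : Prop where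
  hu : 0 ≤ u
  hux : u < x
  hl : ∀ e ∈ l, 0 ≤ e ∧ e ≤ u
  hsq : sq l + m * x ^ 2 + u ^ 2 = 1

/-- the data of the facts A: `(p, q, rest)`, `rest ≤ q`, `q + rest ≤ S` -/
structure DA (l : List ℝ) (p q S : ℝ) : Prop where
  hq : 0 ≤ q
  hqp : q < p
  hl : ∀ e ∈ l, 0 ≤ e ∧ e ≤ q ∧ q + e ≤ S
  hsq : sq l + p ^ 2 + q ^ 2 = 1

/-- the data of the facts B: `(p, q, r, rest)`, `rest ≤ r`, pair `(p, r)` -/
structure DB (l : List ℝ) (p q r : ℝ) : Prop where
  hr : 0 ≤ r
  hrq : r ≤ q
  hqp : q ≤ p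
  hrp : r < p
  hl : ∀ e ∈ l, 0 ≤ e ∧ e ≤ r
  hsq : sq l + p ^ 2 + q ^ 2 + r ^ 2 = 1

end Pool.Agent.M18.Helper89.SP
end

/- Helper95.SP.Crude.Adm2a1 -/
section
set_option autoImplicit false

namespace Pool.Agent.M18.Helper95.SP.Crude

theorem subB5 : ∀ i < 244, subB 5 (1256 + i) = true := by decide +kernel
theorem subB7 : ∀ i < 300, subB 7 (1200 + i) = true := by decide +kernel
theorem subB9 : ∀ i < 300, subB 9 (1200 + i) = true := by decide +kernel
theorem subB11 : ∀ i < 300, subB 11 (1200 + i) = true := by decide +kernel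

end Pool.Agent.M18.Helper95.SP.Crude
end

/- Helper95.SP.Crude.SumO -/
section
/-!
SP-wave2 (MP_66ebcc_gt), module SumO: two elementary sums.
-/

set_option autoImplicit false

namespace Pool.Agent.M18.Helper95.SP.Crude

open Real Finset

private theorem step_le {k a : ℝ} (hk : 2 < k) (ha : 0 < a) {S : ℝ} (hS : 0 < S) :
    2 * a / k * (S / k) ^ a ≤ (S / (k - 2)) ^ a - (S / k) ^ a := by
  have hk0 : 0 < k := by (clear * - hk; linarith)
  have hk2 : 0 < k - 2 := by (clear * - hk; linarith)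
  have h1 : (S / (k - 2)) ^ a = (k / (k - 2)) ^ a * (S / k) ^ a := by
    rw [← mul_rpow (by (clear * - hk; positivity)) (by positivity)]
    congr 1
    (clear * - hk hk2 hS; field_simp)
  have h2 : 1 + 2 * a / k ≤ (k / (k - 2)) ^ a := by
    have h3 : 2 / k ≤ Real.log (k / (k - 2)) := by
      have h4 := Real.one_sub_inv_le_log_of_pos (show 0 < k / (k - 2) by (clear * - hk; positivity))
      have h5 : 1 - (k / (k - 2))⁻¹ = 2 / k := by
        rw [inv_div]
        field_simp
        ring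
      rw [h5] at h4
      exact h4
    rw [Real.rpow_def_of_pos (by (clear * - hk; positivity))]
    have h6 : 2 * a / k ≤ Real.log (k / (k - 2)) * a := by
      calc 2 * a / k = 2 / k * a := by ring
        _ ≤ _ := mul_le_mul_of_nonneg_right h3 ha.le
    have h7 := Real.add_one_le_exp (Real.log (k / (k - 2)) * a)
    (clear * - h6 h7; linarith)
  rw [h1]
  have h8 : 0 ≤ (S / k) ^ a := by positivity
  (clear * - h2 h8; nlinarith [mul_le_mul_of_nonneg_right h2 h8])

theorem sum_odd_gen_le (n : ℕ) {T a : ℝ} (hT : 2 ≤ T) (ha : 0 < a) :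
    ∑ i ∈ range n, 1 / (2 * (i : ℝ) + T) * (T / (2 * (i : ℝ) + T)) ^ a ≤ 1 / T + 1 / (2 * a) := by
  have hT0 : 0 < T := by (clear * - hT; linarith)
  have key : ∀ m : ℕ, ∑ i ∈ range (m + 1), 1 / (2 * (i : ℝ) + T) * (T / (2 * (i : ℝ) + T)) ^ a ≤
      1 / T + 1 / (2 * a) * (1 - (T / (2 * (m : ℝ) + T)) ^ a) := by
    intro m
    induction m with
    | zero =>
      simp only [zero_add, Finset.sum_range_one, Nat.cast_zero, mul_zero, zero_add]
      rw [div_self hT0.ne', one_rpow]
      (clear * -; linarith)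
    | succ m ih =>
      rw [Finset.sum_range_succ]
      have hk : 2 < 2 * ((m + 1 : ℕ) : ℝ) + T := by
        push_cast
        have : (0 : ℝ) ≤ m := Nat.cast_nonneg m
        (clear * - hT; linarith)
      have h1 := step_le hk ha hT0
      have h2 : 2 * ((m + 1 : ℕ) : ℝ) + T - 2 = 2 * (m : ℝ) + T := by push_cast; ring
      rw [h2] at h1
      set k : ℝ := 2 * ((m + 1 : ℕ) : ℝ) + T with hkdef
      set X := (T / k) ^ a with hX
      set Y := (T / (2 * (m : ℝ) + T)) ^ a with hY
      have h3 : 1 / k * X = 1 / (2 * a) * (2 * a / k * X) := by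
        (clear * - ha hk; field_simp)
      have h4 : 1 / (2 * a) * (2 * a / k * X) ≤ 1 / (2 * a) * (Y - X) :=
        mul_le_mul_of_nonneg_left h1 (by positivity)
      calc _ ≤ 1 / T + 1 / (2 * a) * (1 - Y) + 1 / k * X := by (clear * - ih; linarith)
        _ ≤ 1 / T + 1 / (2 * a) * (1 - Y) + 1 / (2 * a) * (Y - X) := by (clear * - h3 h4; linarith)
        _ = 1 / T + 1 / (2 * a) * (1 - X) := by ring
  rcases n with _ | m
  · simp only [Finset.range_zero, Finset.sum_empty]
    (clear * - hT ha; positivity)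
  · refine (key m).trans ?_
    have h1 : 0 ≤ (T / (2 * (m : ℝ) + T)) ^ a := by (clear * - hT; positivity)
    have h2 : 0 < 1 / (2 * a) := by positivity
    (clear * - h2 h1; nlinarith [mul_nonneg h2.le h1])

theorem sum_even_le (n : ℕ) {b : ℝ} (hb : -1 < b) :
    ∑ i ∈ range n, 1 / (2 * (i : ℝ) + 8) ^ 2 * (8 / (2 * (i : ℝ) + 8)) ^ b ≤
      1 / 64 + 1 / (16 * (1 + b)) := by
  have hc : 0 < 1 + b := by linarith
  have key : ∀ m : ℕ, ∑ i ∈ range (m + 1), 1 / (2 * (i : ℝ) + 8) ^ 2 * (8 / (2 * (i : ℝ) + 8)) ^ b ≤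
      1 / 64 + 1 / (16 * (1 + b)) * (1 - (8 / (2 * (m : ℝ) + 8)) ^ (1 + b)) := by
    intro m
    induction m with
    | zero =>
      simp only [zero_add, Finset.sum_range_one, Nat.cast_zero, mul_zero, zero_add]
      rw [div_self (by norm_num), one_rpow, one_rpow]
      norm_num
    | succ m ih =>
      rw [Finset.sum_range_succ]
      have hm : (0 : ℝ) ≤ m := Nat.cast_nonneg m
      have hk : 2 < 2 * ((m + 1 : ℕ) : ℝ) + 8 := by
        push_cast
        (clear * -; linarith)
      have h1 := step_le hk hc (show (0 : ℝ) < 8 by norm_num)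
      have h2 : 2 * ((m + 1 : ℕ) : ℝ) + 8 - 2 = 2 * (m : ℝ) + 8 := by push_cast; ring
      rw [h2] at h1
      set k : ℝ := 2 * ((m + 1 : ℕ) : ℝ) + 8 with hkdef
      have hk0 : 0 < k := by (clear * - h2; linarith)
      set X := (8 / k) ^ (1 + b) with hX
      set Y := (8 / (2 * (m : ℝ) + 8)) ^ (1 + b) with hY
      have h0 : X = 8 / k * (8 / k) ^ b := by
        rw [hX, Real.rpow_add (by (clear * -; positivity)), Real.rpow_one]
      have h3 : 1 / k ^ 2 * (8 / k) ^ b = 1 / (16 * (1 + b)) * (2 * (1 + b) / k * X) := by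
        rw [h0]
        field_simp
        ring
      have h4 : 1 / (16 * (1 + b)) * (2 * (1 + b) / k * X) ≤ 1 / (16 * (1 + b)) * (Y - X) :=
        mul_le_mul_of_nonneg_left h1 (by positivity)
      calc _ ≤ 1 / 64 + 1 / (16 * (1 + b)) * (1 - Y) + 1 / k ^ 2 * (8 / k) ^ b := by (clear * - ih; linarith)
        _ ≤ 1 / 64 + 1 / (16 * (1 + b)) * (1 - Y) + 1 / (16 * (1 + b)) * (Y - X) := by (clear * - h3 h4; linarith)
        _ = 1 / 64 + 1 / (16 * (1 + b)) * (1 - X) := by ring
  rcases n with _ | m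
  · simp only [Finset.range_zero, Finset.sum_empty]
    positivity
  · refine (key m).trans ?_
    have h1 : 0 ≤ (8 / (2 * (m : ℝ) + 8)) ^ (1 + b) := by positivity
    have h2 : 0 < 1 / (16 * (1 + b)) := by positivity
    (clear * - h2 h1; nlinarith [mul_nonneg h2.le h1])

end Pool.Agent.M18.Helper95.SP.Crude
end

/- Helper94.SP.LogConc -/
section
/-!
Project SP, module SP-15a: the tail of a sum of independent uniforms is log-concave.
-/

set_option autoImplicit false

open MeasureTheory Set Real Pool.Agent.M18.Slab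

namespace Pool.Agent.M18.Helper89.SP

/-- log-concavity on the line -/
def LCv (G : ℝ → ℝ) : Prop :=
  ∀ x y l : ℝ, 0 < l → l < 1 → G x ^ (1 - l) * G y ^ l ≤ G ((1 - l) * x + l * y)

theorem LCv.ordConnected {G : ℝ → ℝ} (h : LCv G) {c : ℝ} (hc : 0 ≤ c) {p q r : ℝ}
    (hp : c < G p) (hq : c < G q) (h1 : p ≤ r) (h2 : r ≤ q) : c < G r := by
  rcases h1.eq_or_lt with h1 | h1
  · rw [← h1]; exact hp
  rcases h2.eq_or_lt with h2 | h2
  · rw [h2]; exact hq
  have hpq : 0 < q - p := by (clear * - h1 h2; linarith)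
  have s0 : 0 < (r - p) / (q - p) := div_pos (by linarith) hpq
  have s1 : (r - p) / (q - p) < 1 := (div_lt_one hpq).2 (by linarith)
  have h3 := h p q _ s0 s1
  have h4 : (1 - (r - p) / (q - p)) * p + (r - p) / (q - p) * q = r := by
    field_simp
    ring
  rw [h4] at h3
  refine lt_of_lt_of_le ?_ h3
  have hs1 : 0 < 1 - (r - p) / (q - p) := by (clear * - s1; linarith)
  rcases hc.eq_or_lt with h5 | h5
  · rw [← h5] at hp hq ⊢
    positivity
  · have h6 : c = c ^ (1 - (r - p) / (q - p)) * c ^ ((r - p) / (q - p)) := by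
      rw [← Real.rpow_add h5]
      simp
    rw [h6]
    exact mul_lt_mul'' (Real.rpow_lt_rpow hc hp hs1) (Real.rpow_lt_rpow hc hq s0)
      (Real.rpow_nonneg hc _) (Real.rpow_nonneg hc _)

theorem LCv_H : LCv H := by
  intro x y l l0 l1
  have hl : 0 < 1 - l := by (clear * - l1; linarith)
  unfold H
  by_cases hx : x < 0
  · by_cases hy : y < 0
    · have : (1 - l) * x + l * y < 0 := by (clear * - l0 hy l1 hx; nlinarith)
      rw [if_pos hx, if_pos hy, if_pos this]
      simp
    · rw [if_neg hy, Real.zero_rpow l0.ne', mul_zero]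
      split <;> norm_num
  · rw [if_neg hx, Real.zero_rpow hl.ne', zero_mul]
    split <;> norm_num

theorem LCv.windows {G : ℝ → ℝ} (hG : LCv G) (hn : Perm.Nice G) (h0 : ∀ s, 0 ≤ G s) (a : ℝ) :
    LCv (Pool.Agent.M18.Slab.A a G) := by
  intro x y l l0 l1
  have hl1 : 0 < 1 - l := by (clear * - l1; linarith)
  obtain ⟨hm, C, hC⟩ := hn
  have hC0 : 0 ≤ C := (abs_nonneg _).trans (hC 0)
  have hint : ∀ z, Pool.Agent.M18.Slab.A a G z = ∫ u, (Ioc (-1 : ℝ) 1).indicator (fun u => G (z - a * u)) u := by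
    intro z
    rw [Perm.A_eq, integral_indicator measurableSet_Ioc]
  have hmz : ∀ z : ℝ, Measurable fun u : ℝ => G (z - a * u) := fun z => hm.comp (by fun_prop)
  have hi : ∀ z, Integrable ((Ioc (-1 : ℝ) 1).indicator (fun u => G (z - a * u))) := by
    intro z
    rw [integrable_indicator_iff measurableSet_Ioc]
    refine Measure.integrableOn_of_bounded (M := C) ?_ (hmz z).aestronglyMeasurable
      (Filter.Eventually.of_forall fun u => hC _)
    rw [Real.volume_Ioc]
    exact ENNReal.ofReal_ne_top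
  have hnn : ∀ z u, 0 ≤ (Ioc (-1 : ℝ) 1).indicator (fun u => G (z - a * u)) u := fun z u =>
    indicator_nonneg (fun v _ => h0 _) u
  have hbdd : ∀ z, BddAbove (range ((Ioc (-1 : ℝ) 1).indicator (fun u => G (z - a * u)))) := by
    intro z
    refine ⟨C, ?_⟩
    rintro _ ⟨p, rfl⟩
    by_cases hp : p ∈ Ioc (-1 : ℝ) 1
    · rw [indicator_of_mem hp]
      exact (le_abs_self _).trans (hC _)
    · rw [indicator_of_notMem hp]
      exact hC0
  have hmem : ∀ z p, 0 < (Ioc (-1 : ℝ) 1).indicator (fun u => G (z - a * u)) p →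
      p ∈ Ioc (-1 : ℝ) 1 := by
    intro z p hp
    by_contra hcon
    rw [indicator_of_notMem hcon] at hp
    exact lt_irrefl _ hp
  have hsupp : ∀ z, ∀ p, 0 < (Ioc (-1 : ℝ) 1).indicator (fun u => G (z - a * u)) p →
      |p| ≤ 1 := by
    intro z p hp
    have h1 := hmem z p hp
    exact abs_le.2 ⟨h1.1.le, h1.2⟩
  set w := (1 - l) * x + l * y with hwdef
  rw [hint x, hint y, hint w]
  refine Pool.Agent.M18.Helper34.Slab.pl_gen (hi x) (hi y) (hi w) (hnn x) (hnn y) (hnn w) (hbdd x)
    (hbdd y) (R := 1) (hsupp x) (hsupp y) (hsupp w) ?_ l0 l1 ?_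
  · intro c hc
    refine ⟨?_⟩
    rintro p hp q hq r ⟨hpr, hrq⟩
    have hp' : c < (Ioc (-1 : ℝ) 1).indicator (fun u => G (w - a * u)) p := hp
    have hq' : c < (Ioc (-1 : ℝ) 1).indicator (fun u => G (w - a * u)) q := hq
    have hpm := hmem w p (hc.trans_lt hp')
    have hqm := hmem w q (hc.trans_lt hq')
    have hrm : r ∈ Ioc (-1 : ℝ) 1 := ⟨hpm.1.trans_le hpr, hrq.trans hqm.2⟩
    rw [indicator_of_mem hpm] at hp'
    rw [indicator_of_mem hqm] at hq'
    show c < (Ioc (-1 : ℝ) 1).indicator (fun u => G (w - a * u)) r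
    rw [indicator_of_mem hrm]
    rcases le_total 0 a with ha | ha
    · exact hG.ordConnected hc hq' hp' (by (clear * - l0 l1 hrq ha; nlinarith)) (by (clear * - l0 l1 hpr ha; nlinarith))
    · exact hG.ordConnected hc hp' hq' (by (clear * - l0 l1 hpr ha; nlinarith)) (by (clear * - l0 l1 hrq ha; nlinarith))
  · intro p q
    by_cases hp : p ∈ Ioc (-1 : ℝ) 1
    swap
    · rw [indicator_of_notMem hp, Real.zero_rpow hl1.ne', zero_mul]
      exact hnn w _
    by_cases hq : q ∈ Ioc (-1 : ℝ) 1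
    swap
    · rw [indicator_of_notMem hq, Real.zero_rpow l0.ne', mul_zero]
      exact hnn w _
    have hm' : (1 - l) * p + l * q ∈ Ioc (-1 : ℝ) 1 := by
      constructor
      · (clear * - l0 hq l1 hp; nlinarith [hp.1, hq.1])
      · nlinarith [hp.2, hq.2]
    rw [indicator_of_mem hp, indicator_of_mem hq, indicator_of_mem hm']
    have h5 := hG (x - a * p) (y - a * q) l l0 l1
    have h6 : (1 - l) * (x - a * p) + l * (y - a * q) = w - a * ((1 - l) * p + l * q) := by
      rw [hwdef]; ring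
    rwa [h6] at h5

theorem AL_H_nonneg (L : List ℝ) (s : ℝ) : 0 ≤ AL L H s := by
  induction L generalizing s with
  | nil => rw [AL_nil]; unfold H; split <;> norm_num
  | cons x l ih =>
    rw [AL_cons, Perm.A_eq]
    exact integral_nonneg fun u => ih _

theorem LCv_AL (L : List ℝ) : LCv (AL L H) := by
  induction L with
  | nil => rw [AL_nil]; exact LCv_H
  | cons x l ih =>
    rw [AL_cons]
    exact ih.windows (Perm.nice_AL l) (AL_H_nonneg l) x

theorem T_logconcave (L : List ℝ) (hL : ∃ y ∈ L, y ≠ 0) {x y k : ℝ} (hx : 0 < x) (hxy : x < y)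
    (hk0 : 0 < k) (hk1 : k < 1) :
    T L x ^ (1 - k) * T L y ^ k ≤ T L ((1 - k) * x + k * y) := by
  have h := LCv_AL L x y k hk0 hk1
  have hc : (0 : ℝ) < 2 / 2 ^ L.length := by positivity
  have e : ∀ s, T L s = 2 / 2 ^ L.length * AL L H s := by
    intro s; unfold T; ring
  rw [e, e, e, Real.mul_rpow hc.le (AL_H_nonneg L x), Real.mul_rpow hc.le (AL_H_nonneg L y)]
  have h6 : ((2 : ℝ) / 2 ^ L.length) ^ (1 - k) * ((2 : ℝ) / 2 ^ L.length) ^ k =
      2 / 2 ^ L.length := by
    rw [← Real.rpow_add hc]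
    simp
  calc ((2 : ℝ) / 2 ^ L.length) ^ (1 - k) * AL L H x ^ (1 - k) *
      (((2 : ℝ) / 2 ^ L.length) ^ k * AL L H y ^ k)
      = (((2 : ℝ) / 2 ^ L.length) ^ (1 - k) * ((2 : ℝ) / 2 ^ L.length) ^ k) *
        (AL L H x ^ (1 - k) * AL L H y ^ k) := by ring
    _ ≤ 2 / 2 ^ L.length * AL L H ((1 - k) * x + k * y) := by
        rw [h6]
        exact mul_le_mul_of_nonneg_left h hc.le

end Pool.Agent.M18.Helper89.SP
end
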