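import Mathlib
import Pool.Agent.Helper53.AM.G07

/- Helper94.SP.Bern -/
section
/-!
Project SP, module SP-09c: numeric facts fact_T3_4, fact_T3_8b (Bernstein certificates).
-/

set_option autoImplicit false

open Real

namespace Pool.Agent.M18.Helper89.SP.Facts94

/-- the main part of `8 q r F - Gi` -/
noncomputable def DD (p t q r A F : ℝ) : ℝ :=
  8 * (q * r) * F - A * ((p + q + r - t) ^ 2 + (1 - p ^ 2 - q ^ 2 - r ^ 2) / 3)

theorem b4_I1 {t p : ℝ} (h1 : 1.1 ≤ t) (h2 : t ≤ 1.2) (h3 : 0.5125 ≤ p) (h4 : p ≤ 0.56) :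
    0 ≤ DD (p) t (p) (p) (1 - t * (p)) ((2 - t) ^ 4 / 12) - 0.00039 := by
  have key : ∀ x y u v : ℝ, 0 ≤ x → 0 ≤ y → 0 ≤ u → 0 ≤ v → 0 ≤
      311020000/20577*(y^4*v^3) +
      4455812000/20577*(y^4*u^1*v^2) +
      2379020800/20577*(y^4*u^2*v^1) +
      15001600/6859*(y^4*u^3) +
      2287160000/20577*(x^1*y^3*v^3) +
      9247392000/6859*(x^1*y^3*u^1*v^2) +
      8330892800/6859*(x^1*y^3*u^2*v^1) +
      6945382400/20577*(x^1*y^3*u^3) +
      1449560000/6859*(x^2*y^2*v^3) +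
      18327056000/6859*(x^2*y^2*u^1*v^2) +
      19834470400/6859*(x^2*y^2*u^2*v^1) +
      6743142400/6859*(x^2*y^2*u^3) +
      2853640000/20577*(x^3*y^1*v^3) +
      43746944000/20577*(x^3*y^1*u^1*v^2) +
      52589209600/20577*(x^3*y^1*u^2*v^1) +
      6477619200/6859*(x^3*y^1*u^3) +
      514720000/20577*(x^4*v^3) +
      12159232000/20577*(x^4*u^1*v^2) +
      15813068800/20577*(x^4*u^2*v^1) +
      6143948800/20577*(x^4*u^3) := by
    intro x y u v hx hy hu hv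
    positivity
  refine (key (t - 1.1) (1.2 - t) (p - 0.5125) (0.56 - p) (by (clear * - h1; linarith)) (by (clear * - h2; linarith))
    (by (clear * - h3; linarith)) (by (clear * - h4; linarith))).trans_eq ?_
  unfold DD
  ring

theorem b4_I0 {t p : ℝ} (h1 : 1.1 ≤ t) (h2 : t ≤ 1.2) (h3 : 0.5125 ≤ p) (h4 : p ≤ 0.56) :
    0 ≤ DD (p) t (p) (1.016 - 1.4 * (p - 0.5125) - p) (1 - t * (p)) ((2 - t) ^ 4 / 12) - 0.00039 := by
  have key : ∀ x y u v : ℝ, 0 ≤ x → 0 ≤ y → 0 ≤ u → 0 ≤ v → 0 ≤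
      412655200/20577*(y^4*v^3) +
      6847461760/20577*(y^4*u^1*v^2) +
      11444511760/20577*(y^4*u^2*v^1) +
      1486812160/6859*(y^4*u^3) +
      2440620800/20577*(x^1*y^3*v^3) +
      32176008640/20577*(x^1*y^3*u^1*v^2) +
      54748432720/20577*(x^1*y^3*u^2*v^1) +
      22766036480/20577*(x^1*y^3*u^3) +
      1363145600/6859*(x^2*y^2*v^3) +
      17207529280/6859*(x^2*y^2*u^1*v^2) +
      29968058480/6859*(x^2*y^2*u^2*v^1) +
      12975203840/6859*(x^2*y^2*u^3) +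
      2302566400/20577*(x^3*y^1*v^3) +
      33742016320/20577*(x^3*y^1*u^1*v^2) +
      61251287920/20577*(x^3*y^1*u^2*v^1) +
      9154987520/6859*(x^3*y^1*u^3) +
      274124800/20577*(x^4*v^3) +
      2514215680/6859*(x^4*u^1*v^2) +
      14740594880/20577*(x^4*u^2*v^1) +
      2290956800/6859*(x^4*u^3) := by
    intro x y u v hx hy hu hv
    (clear * - hv hu hx hy; positivity)
  refine (key (t - 1.1) (1.2 - t) (p - 0.5125) (0.56 - p) (by (clear * - h1; linarith)) (by (clear * - h2; linarith))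
    (by (clear * - h3; linarith)) (by linarith)).trans_eq ?_
  unfold DD
  ring

theorem b4_II1 {t w : ℝ} (h1 : 1.1 ≤ t) (h2 : t ≤ 1.12) (h3 : 0 ≤ w) (h4 : w ≤ 0.01) :
    0 ≤ DD (t / 2 + w) t (t - (t / 2 + w)) (t - (t / 2 + w)) (1 - t * (t / 2 + w)) ((2 - t) ^ 4 / 12) - 0.00039 := by
  have key : ∀ x y u v : ℝ, 0 ≤ x → 0 ≤ y → 0 ≤ u → 0 ≤ v → 0 ≤
      120390625000/3*(y^6*v^2) +
      354000000000*(y^6*u^1*v^1) +
      308100000000*(y^6*u^2) +
      902125000000/3*(x^1*y^5*v^2) +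
      6871343750000/3*(x^1*y^5*u^1*v^1) +
      1954055000000*(x^1*y^5*u^2) +
      2739812500000/3*(x^2*y^4*v^2) +
      18491712500000/3*(x^2*y^4*u^1*v^1) +
      5158773375000*(x^2*y^4*u^2) +
      4347950000000/3*(x^3*y^3*v^2) +
      26497652500000/3*(x^3*y^3*u^1*v^1) +
      21771732100000/3*(x^3*y^3*u^2) +
      1273447500000*(x^4*y^2*v^2) +
      21326075000000/3*(x^4*y^2*u^1*v^1) +
      5738134560000*(x^4*y^2*u^2) +
      589267800000*(x^5*y^1*v^2) +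
      3047107680000*(x^5*y^1*u^1*v^1) +
      2417955400000*(x^5*y^1*u^2) +
      112444260000*(x^6*v^2) +
      543510600000*(x^6*u^1*v^1) +
      424246500000*(x^6*u^2) := by
    intro x y u v hx hy hu hv
    positivity
  refine (key (t - 1.1) (1.12 - t) (w - 0) (0.01 - w) (by (clear * - h1; linarith)) (by (clear * - h2; linarith))
    (by (clear * - h3; linarith)) (by (clear * - h4; linarith))).trans_eq ?_
  unfold DD
  ring

theorem b4_II0 {t w : ℝ} (h1 : 1.1 ≤ t) (h2 : t ≤ 1.12) (h3 : 0 ≤ w) (h4 : w ≤ 0.01) :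
    0 ≤ DD (t / 2 + w) t (t - (t / 2 + w)) (1.016 - 1.4 * (t / 2 + w - 0.5125) - (t - (t / 2 + w))) (1 - t * (t / 2 + w)) ((2 - t) ^ 4 / 12) - 0.00039 := by
  have key : ∀ x y u v : ℝ, 0 ≤ x → 0 ≤ y → 0 ≤ u → 0 ≤ v → 0 ≤
      96189179687500/3*(y^6*v^3) +
      326179140625000/3*(y^6*u^1*v^2) +
      121503539062500*(y^6*u^2*v^1) +
      44830593750000*(y^6*u^3) +
      203634578125000*(x^1*y^5*v^3) +
      2061081739062500/3*(x^1*y^5*u^1*v^2) +
      2293686200000000/3*(x^1*y^5*u^2*v^1) +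
      281111473437500*(x^1*y^5*u^3) +
      1612316646875000/3*(x^2*y^4*v^3) +
      5413961395625000/3*(x^2*y^4*u^1*v^2) +
      2000449151875000*(x^2*y^4*u^2*v^1) +
      733088985625000*(x^2*y^4*u^3) +
      754609768750000*(x^3*y^3*v^3) +
      7568082437125000/3*(x^3*y^3*u^1*v^2) +
      8358233589500000/3*(x^3*y^3*u^2*v^1) +
      3053397708625000/3*(x^3*y^3*u^3) +
      1783785376562500/3*(x^4*y^2*v^3) +
      5938602079075000/3*(x^4*y^2*u^1*v^2) +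
      6535811425662500/3*(x^4*y^2*u^2*v^1) +
      2380556348150000/3*(x^4*y^2*u^3) +
      249321999600000*(x^5*y^1*v^3) +
      2480469090737500/3*(x^5*y^1*u^1*v^2) +
      2720945122475000/3*(x^5*y^1*u^2*v^1) +
      988266155537500/3*(x^5*y^1*u^3) +
      130407835100000/3*(x^6*v^3) +
      143630216000000*(x^6*u^1*v^2) +
      471195409900000/3*(x^6*u^2*v^1) +
      56894399000000*(x^6*u^3) := by
    intro x y u v hx hy hu hv
    (clear * - hv hu hx hy; positivity)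
  refine (key (t - 1.1) (1.12 - t) (w - 0) (0.01 - w) (by linarith) (by (clear * - h2; linarith))
    (by (clear * - h3; linarith)) (by linarith)).trans_eq ?_
  unfold DD
  ring

theorem b8_V1I {t p : ℝ} (h1 : 1.2 ≤ t) (h2 : t ≤ 1.35) (h3 : 0.56 ≤ p) (h4 : p ≤ 0.72) :
    0 ≤ DD (p) t (p) (p) (1 - t * (p)) ((2 - t) ^ 4 / 12) - 0.0009 := by
  have key : ∀ x y u v : ℝ, 0 ≤ x → 0 ≤ y → 0 ≤ u → 0 ≤ v → 0 ≤
      1260925/972*(y^4*v^3) +
      5936375/972*(y^4*u^1*v^2) +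
      1740925/324*(y^4*u^2*v^1) +
      18979325/972*(y^4*u^3) +
      1731775/243*(x^1*y^3*v^3) +
      8818625/243*(x^1*y^3*u^1*v^2) +
      2842775/81*(x^1*y^3*u^2*v^1) +
      20449475/243*(x^1*y^3*u^3) +
      4184525/324*(x^2*y^2*v^3) +
      22597375/324*(x^2*y^2*u^1*v^2) +
      2490175/36*(x^2*y^2*u^2*v^1) +
      43166725/324*(x^2*y^2*u^3) +
      18394175/1944*(x^3*y^1*v^3) +
      105274375/1944*(x^3*y^1*u^1*v^2) +
      34475675/648*(x^3*y^1*u^2*v^1) +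
      177826825/1944*(x^3*y^1*u^3) +
      589825/243*(x^4*v^3) +
      14360375/972*(x^4*u^1*v^2) +
      1131575/81*(x^4*u^2*v^1) +
      22313825/972*(x^4*u^3) := by
    intro x y u v hx hy hu hv
    (clear * - hv hu hx hy; positivity)
  refine (key (t - 1.2) (1.35 - t) (p - 0.56) (0.72 - p) (by linarith) (by (clear * - h2; linarith))
    (by (clear * - h3; linarith)) (by (clear * - h4; linarith))).trans_eq ?_
  unfold DD
  ring

theorem b8_V2I {t p : ℝ} (h1 : 1.2 ≤ t) (h2 : t ≤ 1.35) (h3 : 0.56 ≤ p) (h4 : p ≤ 0.72) :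
    0 ≤ DD (p) t (p) (0.95 - p) (1 - t * (p)) ((2 - t) ^ 4 / 12) - 0.0009 := by
  have key : ∀ x y u v : ℝ, 0 ≤ x → 0 ≤ y → 0 ≤ u → 0 ≤ v → 0 ≤
      57883/243*(y^4*v^2) +
      50678/27*(y^4*u^1*v^1) +
      114649/81*(y^4*u^2) +
      232051/243*(x^1*y^3*v^2) +
      666748/81*(x^1*y^3*u^1*v^1) +
      495403/81*(x^1*y^3*u^2) +
      99959/81*(x^2*y^2*v^2) +
      344482/27*(x^2*y^2*u^1*v^1) +
      247877/27*(x^2*y^2*u^2) +
      282173/486*(x^3*y^1*v^2) +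
      75928/9*(x^3*y^1*u^1*v^1) +
      934769/162*(x^3*y^1*u^2) +
      268153/3888*(x^4*v^2) +
      165484/81*(x^4*u^1*v^1) +
      1677709/1296*(x^4*u^2) := by
    intro x y u v hx hy hu hv
    (clear * - hu hv hx hy; positivity)
  refine (key (t - 1.2) (1.35 - t) (p - 0.56) (0.72 - p) (by (clear * - h1; linarith)) (by (clear * - h2; linarith))
    (by (clear * - h3; linarith)) (by (clear * - h4; linarith))).trans_eq ?_
  unfold DD
  ring

theorem b8_V2II {t p : ℝ} (h1 : 1.2 ≤ t) (h2 : t ≤ 1.35) (h3 : 0.56 ≤ p) (h4 : p ≤ 0.72) :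
    0 ≤ DD (p) t (t - p) (0.95 - (t - p)) (1 - t * (p)) ((2 - t) ^ 4 / 12) - 0.0009 := by
  have key : ∀ x y u v : ℝ, 0 ≤ x → 0 ≤ y → 0 ≤ u → 0 ≤ v → 0 ≤
      14993200/2187*(y^6*v^2) +
      2216800/27*(y^6*u^1*v^1) +
      73219600/729*(y^6*u^2) +
      30763600/729*(x^1*y^5*v^2) +
      344110400/729*(x^1*y^5*u^1*v^1) +
      16053200/27*(x^1*y^5*u^2) +
      28265200/243*(x^2*y^4*v^2) +
      810342400/729*(x^2*y^4*u^1*v^1) +
      348630800/243*(x^2*y^4*u^2) +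
      401690600/2187*(x^3*y^3*v^2) +
      1008540800/729*(x^3*y^3*u^1*v^1) +
      1322865800/729*(x^3*y^3*u^2) +
      123405400/729*(x^4*y^2*v^2) +
      701685350/729*(x^4*y^2*u^1*v^1) +
      34307050/27*(x^4*y^2*u^2) +
      54074875/648*(x^5*y^1*v^2) +
      1033817875/2916*(x^5*y^1*u^1*v^1) +
      906912625/1944*(x^5*y^1*u^2) +
      36830950/2187*(x^6*v^2) +
      39186350/729*(x^6*u^1*v^1) +
      50973100/729*(x^6*u^2) := by
    intro x y u v hx hy hu hv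
    (clear * - hu hv hx hy; positivity)
  refine (key (t - 1.2) (1.35 - t) (p - 0.56) (0.72 - p) (by (clear * - h1; linarith)) (by (clear * - h2; linarith))
    (by (clear * - h3; linarith)) (by linarith)).trans_eq ?_
  unfold DD
  ring

theorem b8_V3 {t p : ℝ} (h1 : 1.2 ≤ t) (h2 : t ≤ 1.35) (h3 : 0.56 ≤ p) (h4 : p ≤ 0.72) :
    0 ≤ DD (p) t (0.475) (0.475) (1 - t * (p)) ((2 - t) ^ 4 / 12) - 0.0009 := by
  have key : ∀ x y u v : ℝ, 0 ≤ x → 0 ≤ y → 0 ≤ u → 0 ≤ v → 0 ≤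
      3262625/1944*(y^4*v^3) +
      29058875/1944*(y^4*u^1*v^2) +
      16728625/648*(y^4*u^2*v^1) +
      9153875/648*(y^4*u^3) +
      24137125/3888*(x^1*y^3*v^3) +
      236687125/3888*(x^1*y^3*u^1*v^2) +
      134331625/1296*(x^1*y^3*u^2*v^1) +
      71929625/1296*(x^1*y^3*u^3) +
      9714125/1296*(x^2*y^2*v^3) +
      115119125/1296*(x^2*y^2*u^1*v^2) +
      7221625/48*(x^2*y^2*u^2*v^1) +
      11403875/144*(x^2*y^2*u^3) +
      24944375/7776*(x^3*y^1*v^3) +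
      431260625/7776*(x^3*y^1*u^1*v^2) +
      243949375/2592*(x^3*y^1*u^2*v^1) +
      126430625/2592*(x^3*y^1*u^3) +
      138811625/497664*(x^4*v^3) +
      6306642875/497664*(x^4*u^1*v^2) +
      3585019625/165888*(x^4*u^2*v^1) +
      1823987875/165888*(x^4*u^3) := by
    intro x y u v hx hy hu hv
    (clear * - hv hu hx hy; positivity)
  refine (key (t - 1.2) (1.35 - t) (p - 0.56) (0.72 - p) (by (clear * - h1; linarith)) (by (clear * - h2; linarith))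
    (by (clear * - h3; linarith)) (by (clear * - h4; linarith))).trans_eq ?_
  unfold DD
  ring

theorem b8_V1II {t w : ℝ} (h1 : 1.2 ≤ t) (h2 : t ≤ 1.35) (h3 : 0 ≤ w) (h4 : w ≤ 0.12) :
    0 ≤ DD (t / 2 + w) t (t - (t / 2 + w)) (t - (t / 2 + w)) (1 - t * (t / 2 + w)) ((2 - t) ^ 4 / 12) - 0.0009 := by
  have key : ∀ x y u v : ℝ, 0 ≤ x → 0 ≤ y → 0 ≤ u → 0 ≤ v → 0 ≤
      488480000/19683*(y^6*v^2) +
      5243968000/19683*(y^6*u^1*v^1) +
      3568467200/19683*(y^6*u^2) +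
      1410880000/6561*(x^1*y^5*v^2) +
      12022016000/6561*(x^1*y^5*u^1*v^1) +
      7980889600/6561*(x^1*y^5*u^2) +
      4915600000/6561*(x^2*y^4*v^2) +
      34183520000/6561*(x^2*y^4*u^1*v^1) +
      22076329600/6561*(x^2*y^4*u^2) +
      26603200000/19683*(x^3*y^3*v^2) +
      154750520000/19683*(x^3*y^3*u^1*v^1) +
      97002769600/19683*(x^3*y^3*u^2) +
      8767900000/6561*(x^4*y^2*v^2) +
      43636760000/6561*(x^4*y^2*u^1*v^1) +
      26506686400/6561*(x^4*y^2*u^2) +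
      4517155000/6561*(x^5*y^1*v^2) +
      19633883000/6561*(x^5*y^1*u^1*v^1) +
      11547760000/6561*(x^5*y^1*u^2) +
      5697105625/39366*(x^6*v^2) +
      11013864625/19683*(x^6*u^1*v^1) +
      12542862025/39366*(x^6*u^2) := by
    intro x y u v hx hy hu hv
    (clear * - hu hv hx hy; positivity)
  refine (key (t - 1.2) (1.35 - t) (w - 0) (0.12 - w) (by (clear * - h1; linarith)) (by (clear * - h2; linarith))
    (by (clear * - h3; linarith)) (by linarith)).trans_eq ?_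
  unfold DD
  ring

end Pool.Agent.M18.Helper89.SP.Facts94
end

/- Helper94.SP.Facts -/
section
/-!
Project SP, module SP-09c: numeric facts fact_T3_4, fact_T3_8b.
-/

set_option autoImplicit false

open Real

namespace Pool.Agent.M18.Helper89.SP

namespace Facts94

/-- the two vertices of the polygon when `A ≤ 12 F` -/
theorem DD_lower {A F t p q r m Lo c : ℝ} (hA0 : 0 ≤ A) (hA : A ≤ 12 * F) (hqm : q ≤ m)
    (hrq : r ≤ q) (hL : Lo ≤ q + r) (h1 : 0 ≤ DD p t m m A F - c)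
    (h0 : 0 ≤ DD p t m (Lo - m) A F - c) : c ≤ DD p t q r A F := by
  have e1 : DD p t q r A F - DD p t m (q + r - m) A F =
      (8 * F - 2 * A / 3) * ((m - q) * (m - r)) := by
    unfold DD; ring
  have h2 : 0 ≤ (8 * F - 2 * A / 3) * ((m - q) * (m - r)) :=
    mul_nonneg (by (clear * - hA; linarith)) (mul_nonneg (by (clear * - hqm; linarith)) (by (clear * - hqm hrq; linarith)))
  have h3 : c ≤ DD p t m (q + r - m) A F := by
    have hr1 : q + r - m ≤ m := by (clear * - hqm hrq; linarith)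
    have hr0 : Lo - m ≤ q + r - m := by (clear * - hL; linarith)
    generalize q + r - m = x at hr1 hr0
    rcases hr0.eq_or_lt with h | h
    · rw [← h]; (clear * - h0; linarith)
    · have e2 : (DD p t m x A F - c) * (m - (Lo - m)) =
          (m - x) * (DD p t m (Lo - m) A F - c) + (x - (Lo - m)) * (DD p t m m A F - c) +
          2 * A / 3 * ((x - (Lo - m)) * (m - x) * (m - (Lo - m))) := by
        unfold DD; ring
      have h4 : 0 ≤ (DD p t m x A F - c) * (m - (Lo - m)) := by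
        rw [e2]
        have a1 : 0 ≤ (m - x) * (DD p t m (Lo - m) A F - c) := mul_nonneg (by (clear * - hr1; linarith)) h0
        have a2 : 0 ≤ (x - (Lo - m)) * (DD p t m m A F - c) := mul_nonneg (by (clear * - h; linarith)) h1
        have a3 : 0 ≤ 2 * A / 3 * ((x - (Lo - m)) * (m - x) * (m - (Lo - m))) := by
          refine mul_nonneg (by (clear * - hA0; linarith)) (mul_nonneg (mul_nonneg (by (clear * - h; linarith)) (by (clear * - hr1; linarith)))
            (by (clear * - hr1 h; linarith)))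
        (clear * - a1 a2 a3; linarith)
      have h5 : 0 < m - (Lo - m) := by (clear * - hr1 h; linarith)
      have := nonneg_of_mul_nonneg_left h4 h5
      (clear * - this; linarith)
  (clear * - e1 h2 h3; linarith)

/-- the two vertices on the diagonal when `12 F ≤ A` -/
theorem DD_lower' {A F t p q r m lo c : ℝ} (hA0 : 0 ≤ A) (hA : 12 * F ≤ A) (hqm : q ≤ m)
    (hrq : r ≤ q) (hL : 2 * lo ≤ q + r) (h1 : 0 ≤ DD p t m m A F - c)
    (h0 : 0 ≤ DD p t lo lo A F - c) : c ≤ DD p t q r A F := by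
  have e1 : DD p t q r A F - DD p t ((q + r) / 2) ((q + r) / 2) A F =
      (A / 6 - 2 * F) * (q - r) ^ 2 := by
    unfold DD; ring
  have h2 : 0 ≤ (A / 6 - 2 * F) * (q - r) ^ 2 :=
    mul_nonneg (by (clear * - hA; linarith)) (sq_nonneg _)
  have h3 : c ≤ DD p t ((q + r) / 2) ((q + r) / 2) A F := by
    have hr1 : (q + r) / 2 ≤ m := by (clear * - hqm hrq; linarith)
    have hr0 : lo ≤ (q + r) / 2 := by (clear * - hL; linarith)
    generalize (q + r) / 2 = x at hr1 hr0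
    rcases hr0.eq_or_lt with h | h
    · rw [← h]; (clear * - h0; linarith)
    · have e2 : (DD p t x x A F - c) * (m - lo) =
          (m - x) * (DD p t lo lo A F - c) + (x - lo) * (DD p t m m A F - c) +
          (10 * A / 3 - 8 * F) * ((x - lo) * (m - x) * (m - lo)) := by
        unfold DD; ring
      have h4 : 0 ≤ (DD p t x x A F - c) * (m - lo) := by
        rw [e2]
        have a1 : 0 ≤ (m - x) * (DD p t lo lo A F - c) := mul_nonneg (by (clear * - hr1; linarith)) h0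
        have a2 : 0 ≤ (x - lo) * (DD p t m m A F - c) := mul_nonneg (by (clear * - h; linarith)) h1
        have a3 : 0 ≤ (10 * A / 3 - 8 * F) * ((x - lo) * (m - x) * (m - lo)) := by
          refine mul_nonneg (by (clear * - hA0 hA; linarith)) (mul_nonneg (mul_nonneg (by (clear * - h; linarith)) (by (clear * - hr1; linarith)))
            (by (clear * - hr1 h; linarith)))
        (clear * - a1 a2 a3; linarith)
      have h5 : 0 < m - lo := by (clear * - hr1 h; linarith)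
      have := nonneg_of_mul_nonneg_left h4 h5
      (clear * - this; linarith)
  linarith

/-- the first correction -/
theorem K_le {c1 v b k m : ℝ} (hb : 0 < b) (hv : 0 ≤ v) (hc0 : 0 ≤ c1) (hvb : v ≤ m * b)
    (hc : c1 ≤ k * b) (hk : 0 ≤ k) (hm : 0 ≤ m) :
    c1 * (0.1647 * v ^ 3 / b ^ 4) ≤ 0.1647 * (k * m ^ 3) := by
  have h1 : v ^ 3 ≤ (m * b) ^ 3 := by (clear * - hv hvb; gcongr)
  have h2 : 0.1647 * v ^ 3 / b ^ 4 ≤ 0.1647 * m ^ 3 / b := by
    rw [div_le_div_iff₀ (by (clear * - hb; positivity)) hb]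
    have : 0.1647 * v ^ 3 * b ≤ 0.1647 * (m * b) ^ 3 * b := by gcongr
    refine this.trans (le_of_eq ?_)
    ring
  calc c1 * (0.1647 * v ^ 3 / b ^ 4) ≤ (k * b) * (0.1647 * m ^ 3 / b) :=
        mul_le_mul hc h2 (by (clear * - hv hb; positivity)) (by positivity)
    _ = 0.1647 * (k * m ^ 3) := by (clear * - hb; field_simp)

end Facts94

open Facts94

theorem fact_T3_4 {t p q r : ℝ} (hp0 : 0.5125 ≤ p) (hp1 : p ≤ 0.56) (ht0 : 1.1 ≤ t) (ht1 : t ≤ 1.2)
    (hr : 0 < r) (hrq : r ≤ q) (hqp : q ≤ p) (hpq : p + q ≤ t) (hsq : p ^ 2 + q ^ 2 + r ^ 2 ≤ 1)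
    (hS : S4 p ≤ q + r) : Beats t p q r (T4 t) := by
  left
  unfold S4 at hS
  unfold Gi Kb vv T4
  have htp0 : 0.56375 ≤ t * p := by (clear * - hp0 ht0; nlinarith)
  have htp1 : t * p ≤ 0.672 := by (clear * - hp1 ht1 hp0; nlinarith)
  have hA0 : 0 ≤ 1 - t * p := by (clear * - htp1; linarith)
  have hA : 1 - t * p ≤ 12 * ((2 - t) ^ 4 / 12) := by
    have h1 : (2 - t) ^ 4 = ((2 - t) ^ 2) ^ 2 := by ring
    have h2 : 0.64 + 0.8 * 2 * (1.2 - t) ≤ (2 - t) ^ 2 := by (clear * - ht1; nlinarith)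
    (clear * - hp0 ht1 htp0 h2 ht0; nlinarith)
  -- the main part
  have hD : 0.00039 ≤ DD p t q r (1 - t * p) ((2 - t) ^ 4 / 12) := by
    rcases le_total (2 * p) t with h2 | h2
    · exact DD_lower hA0 hA hqp hrq hS (b4_I1 ht0 ht1 hp0 hp1) (b4_I0 ht0 ht1 hp0 hp1)
    · have h3 : t ≤ 1.12 := by (clear * - hp1 h2; linarith)
      have e1 : t / 2 + (p - t / 2) = p := by ring
      have k1 := b4_II1 (t := t) (w := p - t / 2) ht0 h3 (by (clear * - h2; linarith)) (by (clear * - hp1 ht0; linarith))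
      have k0 := b4_II0 (t := t) (w := p - t / 2) ht0 h3 (by (clear * - h2; linarith)) (by (clear * - hp1 ht0; linarith))
      rw [e1] at k1 k0
      exact DD_lower hA0 hA (by (clear * - hpq; linarith)) hrq hS k1 k0
  -- the corrections
  have hv : 0 ≤ (1 - p ^ 2 - q ^ 2 - r ^ 2) / 3 := by (clear * - hsq; linarith)
  have hv1 : (1 - p ^ 2 - q ^ 2 - r ^ 2) / 3 ≤ (1 - p ^ 2 - (q + r) ^ 2 / 2) / 3 := by
    (clear * -; nlinarith [sq_nonneg (q - r)])
  have hb : 0 < t + p - q - r := by (clear * - hp1 ht0 hrq hqp; linarith)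
  have hvb : (1 - p ^ 2 - q ^ 2 - r ^ 2) / 3 ≤ 0.1245 * (t + p - q - r) := by
    have h5 : 0 ≤ 0.3735 * (1.1 + p - (q + r)) - 1 + p ^ 2 + (q + r) ^ 2 / 2 := by
      (clear * - hp0 hS hp1 hrq hqp hr; nlinarith)
    (clear * - ht0 hv1 h5; linarith)
  have hc : 4 * (t * p) - 2 ≤ 1.12 * (t + p - q - r) := by (clear * - hp1 hr hrq hqp htp1 hp0 ht1; nlinarith)
  have hK1 := K_le hb hv (by (clear * - htp0; linarith) : 0 ≤ 4 * (t * p) - 2) hvb hc (by norm_num) (by norm_num)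
  have hv2 : (1 - p ^ 2 - q ^ 2 - r ^ 2) / 3 ≤ 0.08 := by (clear * - hp1 hS hv1 hp0 hqp hr hrq; nlinarith)
  have hg : 1.4 ≤ t - p + q + r := by (clear * - hp1 ht0 hS; linarith)
  have hK2 : (1 - t * p) * (0.1647 * ((1 - p ^ 2 - q ^ 2 - r ^ 2) / 3) ^ 3 /
      (t - p + q + r) ^ 4) ≤ 0.44 * (0.1647 * 0.08 ^ 3 / 1.4 ^ 4) := by
    have h6 : 1 - t * p ≤ 0.44 := by (clear * - htp0; linarith)
    gcongr
  rw [max_eq_left (by (clear * - htp0; linarith) : 0 ≤ 4 * (t * p) - 2)]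
  unfold DD at hD
  norm_num at hK1 hK2 hD ⊢
  linarith

theorem fact_T3_8b {t p q r : ℝ} (hp0 : 0.56 ≤ p) (hp1 : p ≤ 0.72) (ht0 : 1.2 ≤ t) (ht1 : t ≤ 1.35)
    (hr : 0 < r) (hrq : r ≤ q) (hqp : q ≤ p) (hpq : p + q ≤ t) (hsq : p ^ 2 + q ^ 2 + r ^ 2 ≤ 1)
    (hS : 0.95 ≤ q + r) : Beats t p q r (T4 t) := by
  left
  unfold Gi Kb vv T4
  have htp0 : 0.672 ≤ t * p := by (clear * - hp0 ht0; nlinarith)
  have htp1 : t * p ≤ 0.972 := by (clear * - hp1 ht1 hp0; nlinarith)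
  have hA0 : 0 ≤ 1 - t * p := by (clear * - htp1; linarith)
  -- the main part
  have hD : 0.0009 ≤ DD p t q r (1 - t * p) ((2 - t) ^ 4 / 12) := by
    rcases le_total (1 - t * p) (12 * ((2 - t) ^ 4 / 12)) with hA | hA
    · rcases le_total (2 * p) t with h2 | h2
      · exact DD_lower hA0 hA hqp hrq hS (b8_V1I ht0 ht1 hp0 hp1) (b8_V2I ht0 ht1 hp0 hp1)
      · have e1 : t / 2 + (p - t / 2) = p := by ring
        have k1 := b8_V1II (t := t) (w := p - t / 2) ht0 ht1 (by (clear * - h2; linarith)) (by (clear * - hp1 ht0; linarith))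
        rw [e1] at k1
        exact DD_lower hA0 hA (by (clear * - hpq; linarith) : q ≤ t - p) hrq hS k1 (b8_V2II ht0 ht1 hp0 hp1)
    · have hS' : 2 * 0.475 ≤ q + r := by (clear * - hS; linarith)
      rcases le_total (2 * p) t with h2 | h2
      · exact DD_lower' hA0 hA hqp hrq hS' (b8_V1I ht0 ht1 hp0 hp1) (b8_V3 ht0 ht1 hp0 hp1)
      · have e1 : t / 2 + (p - t / 2) = p := by ring
        have k1 := b8_V1II (t := t) (w := p - t / 2) ht0 ht1 (by (clear * - h2; linarith)) (by (clear * - hp1 ht0; linarith))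
        rw [e1] at k1
        exact DD_lower' hA0 hA (by (clear * - hpq; linarith) : q ≤ t - p) hrq hS' k1 (b8_V3 ht0 ht1 hp0 hp1)
  -- the corrections
  have hv : 0 ≤ (1 - p ^ 2 - q ^ 2 - r ^ 2) / 3 := by (clear * - hsq; linarith)
  have hv1 : (1 - p ^ 2 - q ^ 2 - r ^ 2) / 3 ≤ (0.54875 - p ^ 2) / 3 := by
    (clear * - ht1 hqp hpq hS hr; nlinarith [sq_nonneg (q - r)])
  have hp : 0 < p := by (clear * - hr hrq hqp; linarith)
  have hbp : p ≤ t + p - q - r := by (clear * - hrq hqp hpq; linarith)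
  have hb : 0 < t + p - q - r := by (clear * - hp1 ht0 hrq hqp; linarith)
  set v := (1 - p ^ 2 - q ^ 2 - r ^ 2) / 3 with hvdef
  have hv2 : v ≤ 0.14 * p := by (clear * - hp0 hr hrq hqp hv1; nlinarith)
  have hcv : (4 * (t * p) - 2) * v ≤ 0.257 * p ^ 2 := by
    have h6 : 4 * (t * p) - 2 ≤ 5.4 * p - 2 := by (clear * - ht1 hp0; nlinarith)
    have h7 : (4 * (t * p) - 2) * v ≤ (5.4 * p - 2) * ((0.54875 - p ^ 2) / 3) :=
      mul_le_mul h6 hv1 hv (by (clear * - hp0 hr hrq hqp; linarith))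
    have h8 : 0 ≤ 0.257 * p ^ 2 - (5.4 * p - 2) * ((0.54875 - p ^ 2) / 3) := by
      have h9 : 0.257 * p ^ 2 - (5.4 * p - 2) * ((0.54875 - p ^ 2) / 3) =
        (p - 0.56) ^ 2 * (1.8 * (p - 0.56) + 2.6143333) + (p - 0.56) * 0.2449 +
          ((p - 0.56) * 0.0004 + 0) + (0.257 * p ^ 2 - (5.4 * p - 2) * ((0.54875 - p ^ 2) / 3) -
          ((p - 0.56) ^ 2 * (1.8 * (p - 0.56) + 2.6143333) + (p - 0.56) * 0.2449 +
          ((p - 0.56) * 0.0004 + 0))) := by ring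
      (clear * - hr hrq hqp hp0 hp1 hp; nlinarith [mul_nonneg (sub_nonneg.2 hp0) (sub_nonneg.2 hp1),
        mul_nonneg (mul_nonneg (sub_nonneg.2 hp0) (sub_nonneg.2 hp0)) hp.le])
    (clear * - h7 h8; linarith)
  have hK1 : (4 * (t * p) - 2) * (0.1647 * v ^ 3 / (t + p - q - r) ^ 4) ≤
      0.1647 * (0.257 * 0.14 ^ 2) := by
    have hc0 : 0 ≤ 4 * (t * p) - 2 := by (clear * - htp0; linarith)
    calc (4 * (t * p) - 2) * (0.1647 * v ^ 3 / (t + p - q - r) ^ 4)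
        ≤ (4 * (t * p) - 2) * (0.1647 * v ^ 3 / p ^ 4) := by gcongr
      _ = 0.1647 * (((4 * (t * p) - 2) * v) * v ^ 2) / p ^ 4 := by ring
      _ ≤ 0.1647 * ((0.257 * p ^ 2) * (0.14 * p) ^ 2) / p ^ 4 := by (clear * - hcv hv hv2 hp0; gcongr)
      _ = 0.1647 * (0.257 * 0.14 ^ 2) := by field_simp
  have hv3 : v ≤ 0.08 := by (clear * - hp1 hv1 hv2 hp0; nlinarith)
  have hg : 1.43 ≤ t - p + q + r := by (clear * - hp1 ht0 hS; linarith)
  have hK2 : (1 - t * p) * (0.1647 * v ^ 3 / (t - p + q + r) ^ 4) ≤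
      0.33 * (0.1647 * 0.08 ^ 3 / 1.43 ^ 4) := by
    have h6 : 1 - t * p ≤ 0.33 := by (clear * - htp0; linarith)
    (clear * - h6 hv hv3 hg; gcongr)
  rw [max_eq_left (by (clear * - htp0; linarith) : 0 ≤ 4 * (t * p) - 2)]
  unfold DD at hD
  rw [← hvdef] at hD
  norm_num at hK1 hK2 hD ⊢
  (clear * - hK1 hK2 hD; linarith)

end Pool.Agent.M18.Helper89.SP
end

/- Helper95.SP.Crude.Run12 -/
section
/-! Box computations, part 12. -/

set_option autoImplicit false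

namespace Pool.Agent.M18.Helper95.SP.Crude

def tr_A106_1 : Tr :=
    (.x (.u .l (.x .l .l)) (.u .l (.x .l .l)))

theorem run_A106_1 :
    cov 1 0 (t06 ^ 2) 1 (fun b => decide (9 * t06 < b.X0 + b.U0)) (rbA t06 (lineQ (4975 /
    10000) 9 (993 / 1000) (6 / 10) (4975 / 10000))) tr_A106_1 (mk t06 (49 / 100) (54 / 100)
    (475 / 1000) (54 / 100) 0 0).ul.xl.ul = true := by
  decide +kernel

def tr_A106_2 : Tr :=
    (.u (.x .l .l) (.x .l (.u (.x .l (.u .l .l)) .l)))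

theorem run_A106_2 :
    cov 1 0 (t06 ^ 2) 1 (fun b => decide (9 * t06 < b.X0 + b.U0)) (rbA t06 (lineQ (4975 /
    10000) 9 (993 / 1000) (6 / 10) (4975 / 10000))) tr_A106_2 (mk t06 (49 / 100) (54 / 100)
    (475 / 1000) (54 / 100) 0 0).ul.xl.ur.xl.ul.xl = true := by
  decide +kernel

def tr_A106_3 : Tr :=
    (.x .l .l)

theorem run_A106_3 :
    cov 1 0 (t06 ^ 2) 1 (fun b => decide (9 * t06 < b.X0 + b.U0)) (rbA t06 (lineQ (4975 /
    10000) 9 (993 / 1000) (6 / 10) (4975 / 10000))) tr_A106_3 (mk t06 (49 / 100) (54 / 100)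
    (475 / 1000) (54 / 100) 0 0).ul.xl.ur.xl.ul.xr.ul = true := by
  decide +kernel

def tr_A106_4 : Tr :=
    (.x (.u (.x (.u .l (.x .l .l)) (.u .l .l)) (.x (.u (.x .l (.u (.x .l .l) .l)) .l) .l)) (.u
    (.x .l .l) .l))

theorem run_A106_4 :
    cov 1 0 (t06 ^ 2) 1 (fun b => decide (9 * t06 < b.X0 + b.U0)) (rbA t06 (lineQ (4975 /
    10000) 9 (993 / 1000) (6 / 10) (4975 / 10000))) tr_A106_4 (mk t06 (49 / 100) (54 / 100)
    (475 / 1000) (54 / 100) 0 0).ul.xl.ur.xl.ul.xr.ur = true := by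
  decide +kernel

def tr_A106_5 : Tr :=
    (.x .l (.u (.x .l .l) .l))

theorem run_A106_5 :
    cov 1 0 (t06 ^ 2) 1 (fun b => decide (9 * t06 < b.X0 + b.U0)) (rbA t06 (lineQ (4975 /
    10000) 9 (993 / 1000) (6 / 10) (4975 / 10000))) tr_A106_5 (mk t06 (49 / 100) (54 / 100)
    (475 / 1000) (54 / 100) 0 0).ul.xl.ur.xl.ur = true := by
  decide +kernel

def tr_A106_6 : Tr :=
    (.u (.x (.u (.x .l .l) (.x .l .l)) (.u (.x .l .l) .l)) (.x .l .l))

theorem run_A106_6 :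
    cov 1 0 (t06 ^ 2) 1 (fun b => decide (9 * t06 < b.X0 + b.U0)) (rbA t06 (lineQ (4975 /
    10000) 9 (993 / 1000) (6 / 10) (4975 / 10000))) tr_A106_6 (mk t06 (49 / 100) (54 / 100)
    (475 / 1000) (54 / 100) 0 0).ul.xl.ur.xr = true := by
  decide +kernel

def tr_A106_7 : Tr :=
    (.u (.x (.u .l (.x .l .l)) (.u .l .l)) (.x (.u (.x .l .l) .l) .l))

theorem run_A106_7 :
    cov 1 0 (t06 ^ 2) 1 (fun b => decide (9 * t06 < b.X0 + b.U0)) (rbA t06 (lineQ (4975 /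
    10000) 9 (993 / 1000) (6 / 10) (4975 / 10000))) tr_A106_7 (mk t06 (49 / 100) (54 / 100)
    (475 / 1000) (54 / 100) 0 0).ul.xr = true := by
  decide +kernel

def tr_A106_8 : Tr :=
    (.x (.u (.x .l .l) .l) (.u (.x .l .l) .l))

theorem run_A106_8 :
    cov 1 0 (t06 ^ 2) 1 (fun b => decide (9 * t06 < b.X0 + b.U0)) (rbA t06 (lineQ (4975 /
    10000) 9 (993 / 1000) (6 / 10) (4975 / 10000))) tr_A106_8 (mk t06 (49 / 100) (54 / 100)
    (475 / 1000) (54 / 100) 0 0).ur = true := by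
  decide +kernel

def tr_A106 : Tr :=
    (.u (.x (.u tr_A106_1 (.x (.u (.x tr_A106_2 (.u tr_A106_3 tr_A106_4)) tr_A106_5) tr_A106_6))
    tr_A106_7) tr_A106_8)

theorem run_A106 :
    covA t06 1 9 (lineQ (4975 / 10000) 9 (993 / 1000) (6 / 10) (4975 / 10000)) tr_A106 (49 /
    100) (54 / 100) (475 / 1000) (54 / 100) = true :=
  cov_u (cov_x (cov_u run_A106_1 (cov_x (cov_u (cov_x run_A106_2 (cov_u run_A106_3
    run_A106_4)) run_A106_5) run_A106_6)) run_A106_7) run_A106_8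

end Pool.Agent.M18.Helper95.SP.Crude
end

/- Helper95.SP.Crude.Run5 -/
section
/-! Box computations, part 5. -/

set_option autoImplicit false

namespace Pool.Agent.M18.Helper95.SP.Crude

def tr_M2_102_1 : Tr :=
    .l

theorem run_M2_102_1 :
    cov 2 0 (t02 ^ 2) 1 (empM t02 (lineQ 0 9 (952 / 1000) (4 / 10) (478 / 1000))) (fun b =>
    b.U1) tr_M2_102_1 (mk t02 (478 / 1000) (52 / 100) 0 (478 / 1000) 0 0).ul = true := by
  decide +kernel

def tr_M2_102_2 : Tr :=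
    .l

theorem run_M2_102_2 :
    cov 2 0 (t02 ^ 2) 1 (empM t02 (lineQ 0 9 (952 / 1000) (4 / 10) (478 / 1000))) (fun b =>
    b.U1) tr_M2_102_2 (mk t02 (478 / 1000) (52 / 100) 0 (478 / 1000) 0 0).ur.ul = true := by
  decide +kernel

def tr_M2_102_3 : Tr :=
    (.x (.u .l (.x .l .l)) (.u .l (.x (.u .l .l) (.u .l (.x .l .l)))))

theorem run_M2_102_3 :
    cov 2 0 (t02 ^ 2) 1 (empM t02 (lineQ 0 9 (952 / 1000) (4 / 10) (478 / 1000))) (fun b =>
    b.U1) tr_M2_102_3 (mk t02 (478 / 1000) (52 / 100) 0 (478 / 1000) 0 0).ur.ur.ul = true := by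
  decide +kernel

def tr_M2_102_4 : Tr :=
    (.u (.x (.u .l .l) (.u .l .l)) (.x (.u .l (.x .l (.u .l .l))) (.u (.x .l .l) .l)))

theorem run_M2_102_4 :
    cov 2 0 (t02 ^ 2) 1 (empM t02 (lineQ 0 9 (952 / 1000) (4 / 10) (478 / 1000))) (fun b =>
    b.U1) tr_M2_102_4 (mk t02 (478 / 1000) (52 / 100) 0 (478 / 1000) 0 0).ur.ur.ur.xl = true := by
  decide +kernel

def tr_M2_102_5 : Tr :=
    (.u (.x (.u .l (.x .l .l)) (.u (.x .l (.u .l .l)) .l)) .l)

theorem run_M2_102_5 :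
    cov 2 0 (t02 ^ 2) 1 (empM t02 (lineQ 0 9 (952 / 1000) (4 / 10) (478 / 1000))) (fun b =>
    b.U1) tr_M2_102_5 (mk t02 (478 / 1000) (52 / 100) 0 (478 / 1000) 0 0).ur.ur.ur.xr = true := by
  decide +kernel

def tr_M2_102 : Tr :=
    (.u tr_M2_102_1 (.u tr_M2_102_2 (.u tr_M2_102_3 (.x tr_M2_102_4 tr_M2_102_5))))

theorem run_M2_102 :
    covM 2 t02 1 (lineQ 0 9 (952 / 1000) (4 / 10) (478 / 1000)) tr_M2_102 (478 / 1000) (52 /
    100) (478 / 1000) = true :=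
  cov_u run_M2_102_1 (cov_u run_M2_102_2 (cov_u run_M2_102_3 (cov_x run_M2_102_4
    run_M2_102_5)))

def tr_M2_110b_1 : Tr :=
    (.u .l (.u .l (.x .l (.u .l .l))))

theorem run_M2_110b_1 :
    cov 2 0 (t10 ^ 2) 1 (empM t10 (lineQ 0 9 (95 / 100) 0 0)) (fun b => b.U1) tr_M2_110b_1 (mk
    t10 (56 / 100) (6 / 10) 0 (39 / 100) 0 0) = true := by
  decide +kernel

def tr_M2_110b : Tr :=
    tr_M2_110b_1

theorem run_M2_110b :
    covM 2 t10 1 (lineQ 0 9 (95 / 100) 0 0) tr_M2_110b (56 / 100) (6 / 10) (39 / 100) = true :=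
  run_M2_110b_1

def tr_M2_104_1 : Tr :=
    .l

theorem run_M2_104_1 :
    cov 2 0 (t04 ^ 2) 1 (empM t04 (lineQ (49 / 100) 9 (975 / 1000) (2 / 10) (4875 / 10000)))
    (fun b => b.U1) tr_M2_104_1 (mk t04 (478 / 1000) (53 / 100) 0 (5 / 10) 0 0).ul = true := by
  decide +kernel

def tr_M2_104_2 : Tr :=
    (.x .l .l)

theorem run_M2_104_2 :
    cov 2 0 (t04 ^ 2) 1 (empM t04 (lineQ (49 / 100) 9 (975 / 1000) (2 / 10) (4875 / 10000)))
    (fun b => b.U1) tr_M2_104_2 (mk t04 (478 / 1000) (53 / 100) 0 (5 / 10) 0 0).ur.ul = true := by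
  decide +kernel

def tr_M2_104_3 : Tr :=
    (.x (.u .l (.x .l .l)) (.x (.u .l (.u .l .l)) (.u .l (.u .l (.x .l (.u .l .l))))))

theorem run_M2_104_3 :
    cov 2 0 (t04 ^ 2) 1 (empM t04 (lineQ (49 / 100) 9 (975 / 1000) (2 / 10) (4875 / 10000)))
    (fun b => b.U1) tr_M2_104_3 (mk t04 (478 / 1000) (53 / 100) 0 (5 / 10) 0 0).ur.ur.ul = true := by
  decide +kernel

def tr_M2_104_4 : Tr :=
    (.x .l (.u .l .l))

theorem run_M2_104_4 :
    cov 2 0 (t04 ^ 2) 1 (empM t04 (lineQ (49 / 100) 9 (975 / 1000) (2 / 10) (4875 / 10000)))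
    (fun b => b.U1) tr_M2_104_4 (mk t04 (478 / 1000) (53 / 100) 0 (5 / 10) 0 0).ur.ur.ur.xl.ul = true := by
  decide +kernel

def tr_M2_104_5 : Tr :=
    (.x (.u (.x .l .l) (.x (.u .l .l) (.u (.x .l (.u .l .l)) .l))) (.u (.x (.u .l .l) (.u .l
    .l)) .l))

theorem run_M2_104_5 :
    cov 2 0 (t04 ^ 2) 1 (empM t04 (lineQ (49 / 100) 9 (975 / 1000) (2 / 10) (4875 / 10000)))
    (fun b => b.U1) tr_M2_104_5 (mk t04 (478 / 1000) (53 / 100) 0 (5 / 10) 0 0).ur.ur.ur.xl.ur = true := by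
  decide +kernel

def tr_M2_104_6 : Tr :=
    (.u (.x (.u (.x .l .l) (.x (.u .l .l) (.u .l .l))) (.u (.x (.u .l (.x .l .l)) (.u (.x .l .l)
    .l)) .l)) .l)

theorem run_M2_104_6 :
    cov 2 0 (t04 ^ 2) 1 (empM t04 (lineQ (49 / 100) 9 (975 / 1000) (2 / 10) (4875 / 10000)))
    (fun b => b.U1) tr_M2_104_6 (mk t04 (478 / 1000) (53 / 100) 0 (5 / 10) 0 0).ur.ur.ur.xr = true := by
  decide +kernel

def tr_M2_104 : Tr :=
    (.u tr_M2_104_1 (.u tr_M2_104_2 (.u tr_M2_104_3 (.x (.u tr_M2_104_4 tr_M2_104_5)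
    tr_M2_104_6))))

theorem run_M2_104 :
    covM 2 t04 1 (lineQ (49 / 100) 9 (975 / 1000) (2 / 10) (4875 / 10000)) tr_M2_104 (478 /
    1000) (53 / 100) (5 / 10) = true :=
  cov_u run_M2_104_1 (cov_u run_M2_104_2 (cov_u run_M2_104_3 (cov_x (cov_u run_M2_104_4
    run_M2_104_5) run_M2_104_6)))

end Pool.Agent.M18.Helper95.SP.Crude
end
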