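import Mathlib
import Pool.Agent.Helper53.AM.G01
import Pool.Agent.Helper53.AM.G04
import Pool.Agent.Helper53.AM.G07

/- Helper48.FA.F5a -/
section
set_option autoImplicit false

open Real

namespace Pool.Agent.M18.Helper89.FA

lemma sq3_lo : (1.7320508 : ℝ) < √3 := by
  rw [show (1.7320508 : ℝ) = √(1.7320508 ^ 2) from (Real.sqrt_sq (by norm_num)).symm]
  exact Real.sqrt_lt_sqrt (by norm_num) (by norm_num)

lemma sq3_hi : √3 < (1.7320509 : ℝ) := by
  rw [show (1.7320509 : ℝ) = √(1.7320509 ^ 2) from (Real.sqrt_sq (by norm_num)).symm]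
  exact Real.sqrt_lt_sqrt (by norm_num) (by norm_num)

lemma sq3_sq : √3 ^ 2 = 3 := Real.sq_sqrt (by norm_num)

/-- F5a. -/
theorem alg_e1 {t M : ℝ} (ht : 1.0129 ≤ t) (ht2 : t ≤ √2) (hM : M = (3 - √3 * t) ^ 3 / 24) :
    (1 - t ^ 2 / 2) * (1 - 12 * M) ≤ 12 * M * (t ^ 2 - 1) := by
  have h1 := sq3_lo
  have h2 := sq3_hi
  have h3 := sq3_sq
  have h4 : √2 < 1.4143 := by
    rw [show (1.4143 : ℝ) = √(1.4143 ^ 2) from (Real.sqrt_sq (by norm_num)).symm]
    exact Real.sqrt_lt_sqrt (by norm_num) (by norm_num)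
  obtain ⟨τ, hτ⟩ : ∃ τ, τ = √3 * t := ⟨_, rfl⟩
  have hlo : 1.7543 ≤ τ := by
    rw [hτ]; (clear * - ht h1 h2; nlinarith)
  have hhi : τ ≤ 2.45 := by
    rw [hτ]; (clear * - ht2 h1 h2 h4 ht; nlinarith)
  have hsq : t ^ 2 = τ ^ 2 / 3 := by
    rw [hτ, mul_pow, h3]; ring
  have hp : 0 ≤ -τ ^ 3 + 5 * τ ^ 2 - 3 * τ - 3 := by
    have e : -τ ^ 3 + 5 * τ ^ 2 - 3 * τ - 3 = (2.45 - τ) * (τ - 1.7543) * τ + 0.7957 * τ ^ 2 + 1.298035 * τ - 3 := by
      ring
    rw [e]
    have : 0 ≤ (2.45 - τ) * (τ - 1.7543) * τ := by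
      apply mul_nonneg (mul_nonneg _ _) <;> (clear * - h1 h2 hlo hhi; linarith)
    (clear * - h1 h2 hlo this; nlinarith)
  rw [hM, ← hτ, hsq]
  have e : 12 * ((3 - τ) ^ 3 / 24) * (τ ^ 2 / 3 - 1) - (1 - τ ^ 2 / 3 / 2) * (1 - 12 * ((3 - τ) ^ 3 / 24))
      = (τ - 2) ^ 2 * (-τ ^ 3 + 5 * τ ^ 2 - 3 * τ - 3) / 12 := by ring
  have : 0 ≤ (τ - 2) ^ 2 * (-τ ^ 3 + 5 * τ ^ 2 - 3 * τ - 3) / 12 := by (clear * - hp; positivity)
  (clear * - this; linarith)

lemma e2_core {u w k : ℝ} (hR : 2 * u ^ 2 + w ^ 2 = 3) (hw0 : 0 < w) (hk1 : 1.2456 ≤ k)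
    (hk2 : k ≤ 1.2457) (hu1 : 0.8771 ≤ u) (huw : 2 * u - w ≤ 1.75440) :
    (k - (3 - w - 2 * u)) ^ 3 ≤ k ^ 3 * u ^ 2 * w := by
  have hw1 : 0.562 ≤ w := by
    by_contra hc
    push Not at hc
    have a1 : u ≤ 1.1583 := by (clear * - hw0 huw hc; linarith)
    (clear * - hR huw hc hw0 hu1; nlinarith)
  have hu2 : u ≤ 1.1585 := by
    by_contra hc
    push Not at hc
    (clear * - hR huw hc hw0 hu1; nlinarith)
  have hw2 : w ≤ 1.209 := by
    by_contra hc
    push Not at hc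
    (clear * - hR hu1 hc hw0; nlinarith)
  obtain ⟨e, he⟩ : ∃ e, e = 3 - w - 2 * u := ⟨_, rfl⟩
  obtain ⟨B, hB⟩ : ∃ B, B = u - 1 := ⟨_, rfl⟩
  have heq : e = ((w - 1) ^ 2 + 2 * B ^ 2) / 2 := by
    rw [he, hB]; linear_combination (-1 / 2 : ℝ) * hR
  have he0 : 0 ≤ e := by rw [heq]; (clear * -; positivity)
  have hB1 : -0.123 ≤ B := by rw [hB]; (clear * - hu1; linarith)
  have hB2 : B ≤ 0.1585 := by rw [hB]; (clear * - hu2; linarith)
  have he1 : e ≤ 0.13 := by
    have q1 : (w - 1) ^ 2 ≤ 0.192 := by (clear * - hR he heq hw1 hw0 hu1; nlinarith)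
    have q2 : B ^ 2 ≤ 0.0252 := by (clear * - hR hu2 he heq hw0 hu1; nlinarith)
    rw [heq]; (clear * - q1 q2; linarith)
  have hid : k ^ 3 * u ^ 2 * w - (k - e) ^ 3 = e * (3 * k ^ 2 - 2 * k ^ 3
      + e * (k ^ 3 / 2 - 3 * k) + e ^ 2 + k ^ 3 * (B ^ 2 / 3 - 2 * B / 3 + e * B / 3)) := by
    rw [he, hB]
    linear_combination k ^ 3 * (-1 / 2 - (u - 1) / 3) * hR
  have k2l : 1.5515 ≤ k ^ 2 := by
    calc (1.5515 : ℝ) ≤ 1.2456 ^ 2 := by norm_num
      _ ≤ k ^ 2 := pow_le_pow_left₀ (by norm_num) hk1 2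
  have k3l : 1.9325 ≤ k ^ 3 := by
    calc (1.9325 : ℝ) ≤ 1.2456 ^ 3 := by norm_num
      _ ≤ k ^ 3 := pow_le_pow_left₀ (by norm_num) hk1 3
  have k3h : k ^ 3 ≤ 1.9332 := by
    calc k ^ 3 ≤ 1.2457 ^ 3 := pow_le_pow_left₀ (by (clear * - hk1; linarith)) hk2 3
      _ ≤ (1.9332 : ℝ) := by norm_num
  have t1 : -2.771 * e ≤ e * (k ^ 3 / 2 - 3 * k) := by
    have : 0 ≤ e * (k ^ 3 / 2 - 3 * k + 2.771) := mul_nonneg he0 (by (clear * - hk2 k3l; linarith))
    (clear * - this; linarith)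
  have t0 : -0.017 ≤ e * B := by
    have : 0 ≤ e * (B + 0.123) := mul_nonneg he0 (by (clear * - hu1 hB; linarith))
    (clear * - he1 this; linarith)
  have t2 : -0.1115 ≤ B ^ 2 / 3 - 2 * B / 3 + e * B / 3 := by
    have := sq_nonneg B
    (clear * - hu2 hB t0 this; linarith)
  have t3 : -0.216 ≤ k ^ 3 * (B ^ 2 / 3 - 2 * B / 3 + e * B / 3) := by
    have : 0 ≤ k ^ 3 * (B ^ 2 / 3 - 2 * B / 3 + e * B / 3 + 0.1115) :=
      mul_nonneg (by positivity) (by (clear * - t2; linarith))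
    (clear * - k3h this; linarith)
  have hG : 0 ≤ 3 * k ^ 2 - 2 * k ^ 3 + e * (k ^ 3 / 2 - 3 * k) + e ^ 2
      + k ^ 3 * (B ^ 2 / 3 - 2 * B / 3 + e * B / 3) := by
    have := sq_nonneg e
    (clear * - he1 k2l k3h t1 t3 this; linarith)
  have := mul_nonneg he0 hG
  rw [← he]
  (clear * - hid this; linarith)

lemma e2_scaled {x z s : ℝ} (h1 : 1.7320508 < s) (h2 : s < 1.7320509) (h3 : s ^ 2 = 3)
    (hx : 1.0129 ≤ 2 * x) (hz : 0 < z) (h : 2 * x ^ 2 + z ^ 2 = 1) (hzx : 2 * x - z ≤ 1.0129) :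
    (z + 2 * x - 1.0129) ^ 3 ≤ (3 - s * 1.0129) ^ 3 * x ^ 2 * z := by
  have hs : 0 < s := by (clear * - h1 h2; linarith)
  have hR : 2 * (s * x) ^ 2 + (s * z) ^ 2 = 3 := by
    linear_combination s ^ 2 * h + h3
  have hk1 : 1.2456 ≤ 3 - s * 1.0129 := by (clear * - h1 h2; linarith)
  have hk2 : 3 - s * 1.0129 ≤ 1.2457 := by (clear * - h1 h2; linarith)
  have hu1 : 0.8771 ≤ s * x := by
    have : 0 ≤ (s - 1.7320508) * x := mul_nonneg (by (clear * - h1; linarith)) (by (clear * - h1 h2 hx; linarith))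
    (clear * - h1 h2 hx this; linarith)
  have huw : 2 * (s * x) - s * z ≤ 1.75440 := by
    have e : 2 * (s * x) - s * z = s * (2 * x - z) := by ring
    have : s * (2 * x - z) ≤ s * 1.0129 := mul_le_mul_of_nonneg_left hzx hs.le
    rw [e]; (clear * - h1 h2 this; linarith)
  have hmain := e2_core hR (by (clear * - h1 hz; positivity)) hk1 hk2 hu1 huw
  have e1 : 3 - s * 1.0129 - (3 - s * z - 2 * (s * x)) = s * (z + 2 * x - 1.0129) := by ring
  rw [e1] at hmain
  have e2 : (s * (z + 2 * x - 1.0129)) ^ 3 = s ^ 3 * (z + 2 * x - 1.0129) ^ 3 := by ring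
  have e3 : (3 - s * 1.0129) ^ 3 * (s * x) ^ 2 * (s * z) =
      s ^ 3 * ((3 - s * 1.0129) ^ 3 * x ^ 2 * z) := by ring
  rw [e2, e3] at hmain
  exact le_of_mul_le_mul_left hmain (by positivity)

/-- F5a. -/
theorem alg_e2 {x z : ℝ} (hx : 1.0129 ≤ 2 * x) (hz : 0 < z) (h : 2 * x ^ 2 + z ^ 2 = 1)
    (hzx : 2 * x - z ≤ 1.0129) :
    (z + 2 * x - 1.0129) ^ 3 ≤ (3 - √3 * 1.0129) ^ 3 * x ^ 2 * z :=
  e2_scaled sq3_lo sq3_hi sq3_sq hx hz h hzx

lemma e3_poly {w : ℝ} (h0 : 0 ≤ w) (h1 : w ≤ 9 / 16) :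
    8 * w ^ 2 ≤ (3 - w ^ 2) / 2 * (0.5505 + w + 0.4082 * w ^ 2) ^ 3 := by
  obtain ⟨v, hv⟩ : ∃ v, v = 9 / 16 - w := ⟨_, rfl⟩
  have hv0 : 0 ≤ v := by rw [hv]; (clear * - h1; linarith)
  have e : (3 - w ^ 2) / 2 * (0.5505 + w + 0.4082 * w ^ 2) ^ 3 - 8 * w ^ 2 =
      (25916008300544 / 1037970703125) * (w ^ 0 * v ^ 8) +
      (286770871140352 / 1037970703125) * (w ^ 1 * v ^ 7) +
      (5581430627846144 / 5189853515625) * (w ^ 2 * v ^ 6) +
      (10916857818036224 / 5189853515625) * (w ^ 3 * v ^ 5) +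
      (60206631500746928 / 25949267578125) * (w ^ 4 * v ^ 4) +
      (38422731443568512 / 25949267578125) * (w ^ 5 * v ^ 3) +
      (544974700785082691 / 1037970703125000) * (w ^ 6 * v ^ 2) +
      (92612361079922347 / 1037970703125000) * (w ^ 7 * v ^ 1) +
      (535892343634086887 / 132860250000000000) * (w ^ 8 * v ^ 0) := by
    rw [hv]; ring
  have : 0 ≤ (25916008300544 / 1037970703125) * (w ^ 0 * v ^ 8) +
      (286770871140352 / 1037970703125) * (w ^ 1 * v ^ 7) +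
      (5581430627846144 / 5189853515625) * (w ^ 2 * v ^ 6) +
      (10916857818036224 / 5189853515625) * (w ^ 3 * v ^ 5) +
      (60206631500746928 / 25949267578125) * (w ^ 4 * v ^ 4) +
      (38422731443568512 / 25949267578125) * (w ^ 5 * v ^ 3) +
      (544974700785082691 / 1037970703125000) * (w ^ 6 * v ^ 2) +
      (92612361079922347 / 1037970703125000) * (w ^ 7 * v ^ 1) +
      (535892343634086887 / 132860250000000000) * (w ^ 8 * v ^ 0) := by (clear * - h0 hv0; positivity)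
  linarith

lemma e3_core {u w : ℝ} (hw0 : 0 ≤ w) (hR : 2 * u ^ 2 + w ^ 2 = 3) (huw : 1.7543 ≤ 2 * u - w) :
    8 * w ^ 2 ≤ u ^ 2 * (3 - 2 * u + w) ^ 3 := by
  have hw1 : w ≤ 9 / 16 := by
    by_contra hc
    push Not at hc
    (clear * - hR huw hc hw0; nlinarith)
  have hw2 : w ^ 2 ≤ 1 / 2 := by (clear * - hw1 hw0; nlinarith)
  have hu2 : 2 * u ≤ 2.4495 - 0.4082 * w ^ 2 := by
    have h4 : (2 * u) ^ 2 ≤ (2.4495 - 0.4082 * w ^ 2) ^ 2 := by
      (clear * - hR; nlinarith [sq_nonneg (w ^ 2)])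
    exact (abs_le_of_sq_le_sq' h4 (by (clear * - hw2; linarith))).2
  have hk : 0.5505 + w + 0.4082 * w ^ 2 ≤ 3 - 2 * u + w := by (clear * - hu2; linarith)
  have hk0 : 0 ≤ 0.5505 + w + 0.4082 * w ^ 2 := by (clear * - hw0; positivity)
  have hcube : (0.5505 + w + 0.4082 * w ^ 2) ^ 3 ≤ (3 - 2 * u + w) ^ 3 :=
    pow_le_pow_left₀ hk0 hk 3
  have hp := e3_poly hw0 hw1
  have hu3 : u ^ 2 = (3 - w ^ 2) / 2 := by (clear * - hR; linarith)
  calc 8 * w ^ 2 ≤ u ^ 2 * (0.5505 + w + 0.4082 * w ^ 2) ^ 3 := by rw [hu3]; exact hp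
    _ ≤ _ := mul_le_mul_of_nonneg_left hcube (sq_nonneg u)

lemma e3_scaled {x z s : ℝ} (h1 : 1.7320508 < s) (h3 : s ^ 2 = 3)
    (hz : 0 ≤ z) (h : 2 * x ^ 2 + z ^ 2 = 1) (ht : 1.0129 ≤ 2 * x - z) :
    8 * z ^ 2 ≤ x ^ 2 * (3 - s * (2 * x - z)) ^ 3 := by
  have hs : 0 < s := by (clear * - h1; linarith)
  have hR : 2 * (s * x) ^ 2 + (s * z) ^ 2 = 3 := by
    linear_combination s ^ 2 * h + h3
  have huw : 1.7543 ≤ 2 * (s * x) - s * z := by
    have e : 2 * (s * x) - s * z = s * (2 * x - z) := by ring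
    have : s * 1.0129 ≤ s * (2 * x - z) := mul_le_mul_of_nonneg_left ht hs.le
    rw [e]; (clear * - h1 this; linarith)
  have hmain := e3_core (by positivity) hR huw
  have e1 : 3 - 2 * (s * x) + s * z = 3 - s * (2 * x - z) := by ring
  rw [e1] at hmain
  have e2 : 8 * (s * z) ^ 2 = s ^ 2 * (8 * z ^ 2) := by ring
  have e3 : (s * x) ^ 2 * (3 - s * (2 * x - z)) ^ 3 =
      s ^ 2 * (x ^ 2 * (3 - s * (2 * x - z)) ^ 3) := by ring
  rw [e2, e3] at hmain
  exact le_of_mul_le_mul_left hmain (by positivity)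

/-- F5a. -/
theorem alg_e3 {x z : ℝ} (hx : 0 < x) (hz : 0 ≤ z) (h : 2 * x ^ 2 + z ^ 2 = 1)
    (ht : 1.0129 ≤ 2 * x - z) :
    8 * z ^ 2 ≤ x ^ 2 * (3 - √3 * (2 * x - z)) ^ 3 := by
  have _ := hx
  exact e3_scaled sq3_lo sq3_sq hz h ht

/-- F5a. -/
theorem alg_mono {x z t t' : ℝ} (hx : 0 < x) (hz : 0 < z) (h : 2 * x ^ 2 + z ^ 2 = 1) (htt : t ≤ t')
    (ht' : t' ≤ √3) (hs : t' ≤ z + 2 * x)
    (h1 : (z + 2 * x - t) ^ 3 ≤ (3 - √3 * t) ^ 3 * x ^ 2 * z) :
    (z + 2 * x - t') ^ 3 ≤ (3 - √3 * t') ^ 3 * x ^ 2 * z := by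
  have h3 := sq3_sq
  have hs0 : 0 < √3 := by have := sq3_lo; (clear * - this; linarith)
  obtain ⟨c, hc0, hc⟩ : ∃ c : ℝ, 0 ≤ c ∧ c ^ 3 = x ^ 2 * z := by
    refine ⟨(x ^ 2 * z) ^ ((1 : ℝ) / 3), by positivity, ?_⟩
    rw [← Real.rpow_natCast, ← Real.rpow_mul (by positivity)]
    norm_num
  have hodd : Odd 3 := by decide
  have hA : z + 2 * x - t ≤ (3 - √3 * t) * c := by
    have e : (3 - √3 * t) ^ 3 * x ^ 2 * z = ((3 - √3 * t) * c) ^ 3 := by
      rw [mul_pow, hc]; ring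
    rw [e] at h1
    exact hodd.strictMono_pow.le_iff_le.mp h1
  have hc1 : √3 * c ≤ 1 := by
    have q : (x ^ 2 * z) ^ 2 * 27 ≤ 1 := by
      have q1 : x ^ 2 = (1 - z ^ 2) / 2 := by (clear * - h; linarith)
      have e : (x ^ 2 * z) ^ 2 = ((1 - z ^ 2) / 2) ^ 2 * z ^ 2 := by rw [mul_pow, q1]
      rw [e]
      have hz1 : z ^ 2 ≤ 1 := by (clear * - h; nlinarith)
      (clear * - h; nlinarith [mul_nonneg (sq_nonneg (3 * z ^ 2 - 1)) (by nlinarith : 0 ≤ 4 - 3 * z ^ 2)])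
    have q2 : ((√3 * c) ^ 3) ^ 2 ≤ 1 ^ 2 := by
      have : ((√3 * c) ^ 3) ^ 2 = (√3 ^ 2) ^ 3 * (c ^ 3) ^ 2 := by ring
      rw [this, h3, hc]; (clear * - q; linarith)
    have q3 : (√3 * c) ^ 3 ≤ 1 := by
      exact abs_le_of_sq_le_sq' q2 (by norm_num) |>.2
    have q4 : (√3 * c) ^ 3 ≤ (1 : ℝ) ^ 3 := by rw [one_pow]; exact q3
    exact hodd.strictMono_pow.le_iff_le.mp q4
  have hB : z + 2 * x - t' ≤ (3 - √3 * t') * c := by
    (clear * - hA htt hc1; nlinarith)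
  have e : (3 - √3 * t') ^ 3 * x ^ 2 * z = ((3 - √3 * t') * c) ^ 3 := by
    rw [mul_pow, hc]; ring
  rw [e]
  exact pow_le_pow_left₀ (by (clear * - hs; linarith)) hB 3

end Pool.Agent.M18.Helper89.FA
end

/- Helper83.FA.F5b -/
section
/-!
# FA-F5b: assembly of the algebra (helper83)
-/

set_option autoImplicit false

open Real

namespace Pool.Agent.M18.Helper89.FA

theorem f5b_quad {A B C a b x : ℝ} (hA : A ≤ 0) (hax : a ≤ x) (hxb : x ≤ b)
    (ha : 0 ≤ A * a ^ 2 + B * a + C) (hb : 0 ≤ A * b ^ 2 + B * b + C) :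
    0 ≤ A * x ^ 2 + B * x + C := by
  rcases (hax.trans hxb).eq_or_lt with h | h
  · have h1 : x = a := by (clear * - hax hxb h; linarith)
    rw [h1]
    exact ha
  · have h1 : 0 ≤ (b - a) * (A * x ^ 2 + B * x + C) := by
      have e : (b - a) * (A * x ^ 2 + B * x + C) = (b - x) * (A * a ^ 2 + B * a + C) +
          (x - a) * (A * b ^ 2 + B * b + C) + (-A) * (x - a) * (b - x) * (b - a) := by ring
      rw [e]
      have h2 : 0 ≤ (-A) * (x - a) * (b - x) * (b - a) := by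
        apply mul_nonneg (mul_nonneg (mul_nonneg _ _) _) <;> (clear * - h hA hax hxb; linarith)
      have h3 : 0 ≤ (b - x) * (A * a ^ 2 + B * a + C) := mul_nonneg (by (clear * - hxb; linarith)) ha
      have h4 : 0 ≤ (x - a) * (A * b ^ 2 + B * b + C) := mul_nonneg (by linarith) hb
      (clear * - h2 h3 h4; linarith)
    exact nonneg_of_mul_nonneg_right h1 (by linarith)

theorem f5b_cub {A B C a b x : ℝ} (hA : A ≤ a + b + x) (hax : a ≤ x) (hxb : x ≤ b)
    (ha : 0 ≤ A * a ^ 2 + B * a + C - a ^ 3) (hb : 0 ≤ A * b ^ 2 + B * b + C - b ^ 3) :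
    0 ≤ A * x ^ 2 + B * x + C - x ^ 3 := by
  rcases (hax.trans hxb).eq_or_lt with h | h
  · have h1 : x = a := by (clear * - hax hxb h; linarith)
    rw [h1]
    exact ha
  · have h1 : 0 ≤ (b - a) * (A * x ^ 2 + B * x + C - x ^ 3) := by
      have e : (b - a) * (A * x ^ 2 + B * x + C - x ^ 3) =
          (b - x) * (A * a ^ 2 + B * a + C - a ^ 3) +
          (x - a) * (A * b ^ 2 + B * b + C - b ^ 3) +
          (a + b + x - A) * (x - a) * (b - x) * (b - a) := by ring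
      rw [e]
      have h2 : 0 ≤ (a + b + x - A) * (x - a) * (b - x) * (b - a) := by
        apply mul_nonneg (mul_nonneg (mul_nonneg _ _) _) <;> (clear * - h hA hax hxb; linarith)
      have h3 : 0 ≤ (b - x) * (A * a ^ 2 + B * a + C - a ^ 3) := mul_nonneg (by (clear * - hxb; linarith)) ha
      have h4 : 0 ≤ (x - a) * (A * b ^ 2 + B * b + C - b ^ 3) := mul_nonneg (by (clear * - hax; linarith)) hb
      linarith
    exact nonneg_of_mul_nonneg_right h1 (by linarith)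

theorem f5b_M {t M : ℝ} (ht1 : 1.0129 ≤ t) (ht2 : t ≤ √2) (hM : M = (3 - √3 * t) ^ 3 / 24) :
    0 < M ∧ 12 * M < 1 := by
  have h1 := sq3_lo
  have h2 := sq3_hi
  have h4 : √2 < 1.4143 := by
    rw [show (1.4143 : ℝ) = √(1.4143 ^ 2) from (Real.sqrt_sq (by norm_num)).symm]
    exact Real.sqrt_lt_sqrt (by norm_num) (by norm_num)
  have h5 : 0 < 3 - √3 * t := by (clear * - ht2 h1 h2 h4 ht1; nlinarith)
  have h6 : 3 - √3 * t ≤ 1.2457 := by nlinarith
  have h7 : (3 - √3 * t) ^ 3 ≤ 1.2457 ^ 3 := pow_le_pow_left₀ h5.le h6 3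
  have h8 : 0 < (3 - √3 * t) ^ 3 := pow_pos h5 3
  constructor
  · rw [hM]
    (clear * - h5; positivity)
  · rw [hM]
    norm_num at h7 ⊢
    linarith

/-- the point `z₃` -/
theorem f5b_z3 {t M : ℝ} (ht1 : 1.0129 ≤ t) (ht2 : t ≤ √2) (hM : M = (3 - √3 * t) ^ 3 / 24) :
    ∃ z₃ : ℝ, 0 ≤ z₃ ∧ (t + z₃) ^ 2 = 2 * (1 - z₃ ^ 2) ∧ 4 * z₃ ^ 2 ≤ 3 * M * (t + z₃) ^ 2 ∧
      ∀ z : ℝ, 0 ≤ z → (t + z) ^ 2 ≤ 2 * (1 - z ^ 2) → z ≤ z₃ := by
  have ht0 : 0 < t := by (clear * - ht1; linarith)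
  have ht2' : t ^ 2 ≤ 2 := by
    have := pow_le_pow_left₀ ht0.le ht2 2
    rwa [Real.sq_sqrt (by norm_num : (0:ℝ) ≤ 2)] at this
  set r : ℝ := √(6 - 2 * t ^ 2) with hr
  have hr2 : r ^ 2 = 6 - 2 * t ^ 2 := Real.sq_sqrt (by (clear * - ht2'; linarith))
  have hr0 : 0 ≤ r := Real.sqrt_nonneg _
  have hrt : t ≤ r := by
    apply Real.le_sqrt_of_sq_le
    (clear * - ht2'; linarith)
  refine ⟨(r - t) / 3, by (clear * - hrt; linarith), ?_, ?_, ?_⟩
  · (clear * - hr2; nlinarith)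
  · have h1 : 2 * ((t + (r - t) / 3) / 2) ^ 2 + ((r - t) / 3) ^ 2 = 1 := by (clear * - hr2; nlinarith)
    have h2 := alg_e3 (x := (t + (r - t) / 3) / 2) (z := (r - t) / 3) (by (clear * - ht1 hrt; linarith)) (by (clear * - hrt; linarith)) h1
      (by (clear * - ht1; linarith))
    have h3 : 2 * ((t + (r - t) / 3) / 2) - (r - t) / 3 = t := by ring
    rw [h3] at h2
    have h4 : (3 - √3 * t) ^ 3 = 24 * M := by rw [hM]; ring
    rw [h4] at h2
    (clear * - h2; nlinarith)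
  · intro z hz hz2
    by_contra hcon
    push Not at hcon
    (clear * - hr2 hz2 hcon ht1 hrt hz; nlinarith)

theorem f5b_e3 {t M z : ℝ} (ht1 : 1.0129 ≤ t) (ht2 : t ≤ √2) (hM : M = (3 - √3 * t) ^ 3 / 24)
    (hz : 0 ≤ z) (h : (t + z) ^ 2 ≤ 2 * (1 - z ^ 2)) :
    4 * z ^ 2 ≤ 6 * M * ((t + z) ^ 2 - 1 + z ^ 2) := by
  obtain ⟨hM0, hM1⟩ := f5b_M ht1 ht2 hM
  obtain ⟨z₃, h0, h1, h2, h3⟩ := f5b_z3 ht1 ht2 hM
  have hzz := h3 z hz h
  have hq := f5b_quad (A := 12 * M - 4) (B := 12 * M * t) (C := 6 * M * (t ^ 2 - 1)) (a := 0) (b := z₃)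
    (x := z) (by (clear * - hM0 hM1; linarith)) hz hzz
    (by
      have : 0 ≤ t ^ 2 - 1 := by (clear * - ht1 hM0 hM1; nlinarith)
      have := mul_nonneg (mul_nonneg (by norm_num : (0:ℝ) ≤ 6) hM0.le) this
      (clear * - this; linarith))
    (by
      have e : (12 * M - 4) * z₃ ^ 2 + 12 * M * t * z₃ + 6 * M * (t ^ 2 - 1) =
        6 * M * ((t + z₃) ^ 2 - 1 + z₃ ^ 2) - 4 * z₃ ^ 2 := by ring
      rw [e]
      have e2 : (t + z₃) ^ 2 - 1 + z₃ ^ 2 = (t + z₃) ^ 2 / 2 := by (clear * - h1; linarith)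
      rw [e2]
      (clear * - h2; linarith))
  (clear * - hq; linarith)

theorem f5b_core {t M s z : ℝ} (ht1 : 1.0129 ≤ t) (ht2 : t ≤ √2) (hM : M = (3 - √3 * t) ^ 3 / 24)
    (hM2 : (√2 - t) ^ 2 / 2 ≤ M) (hz : 0 ≤ z) (hs : t ≤ s) (hsz : s ^ 2 ≤ 2 * (1 - z ^ 2)) :
    3 * (s - t) ^ 2 + z ^ 2 ≤ 6 * M * (s ^ 2 - 1 + z ^ 2) ∨
      (0 < z ∧ (z + (s - t)) ^ 3 ≤ 12 * M * (s ^ 2 - 1 + z ^ 2) * z) := by
  obtain ⟨hM0, hM1⟩ := f5b_M ht1 ht2 hM
  have hr2 : √2 ^ 2 = 2 := Real.sq_sqrt (by norm_num)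
  have hr20 : 0 ≤ √2 := Real.sqrt_nonneg _
  have ht0 : 0 < t := by (clear * - ht1 hM0 hM1; linarith)
  have hs0 : 0 < s := by (clear * - ht1 hs hM0 hM1; linarith)
  have hs2 : s ≤ √2 := by
    apply Real.le_sqrt_of_sq_le
    (clear * - hsz; linarith [sq_nonneg z])
  have hend : 0 ≤ 6 * M - 3 * (√2 - t) ^ 2 := by (clear * - hM2; linarith)
  have ht21 : 0 ≤ t ^ 2 - 1 := by (clear * - ht1 hM0 hM1; nlinarith)
  rcases le_total z (s - t) with hzd | hzd
  · -- first alternative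
    left
    have hz1 : z ^ 2 ≤ 1 := by (clear * - hsz; linarith [sq_nonneg s])
    set S : ℝ := √(2 * (1 - z ^ 2)) with hS
    have hS2 : S ^ 2 = 2 * (1 - z ^ 2) := Real.sq_sqrt (by (clear * - hz1; linarith))
    have hS0 : 0 ≤ S := Real.sqrt_nonneg _
    have hsS : s ≤ S := Real.le_sqrt_of_sq_le hsz
    have htz : (t + z) ^ 2 ≤ 2 * (1 - z ^ 2) := by
      refine (pow_le_pow_left₀ (by (clear * - ht1 hz hM0 hM1; linarith)) ?_ 2).trans hsz
      (clear * - hzd; linarith)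
    obtain ⟨z₃, h30, h31, h32, h33⟩ := f5b_z3 ht1 ht2 hM
    have hzz := h33 z hz htz
    have hS3 : t + z₃ ≤ S := by
      apply Real.le_sqrt_of_sq_le
      rw [h31]
      have := pow_le_pow_left₀ hz hzz 2
      (clear * - this; linarith)
    have hSr : S ≤ √2 := by
      apply Real.le_sqrt_of_sq_le
      rw [hS2]
      (clear * -; linarith [sq_nonneg z])
    have hk1 : 0 ≤ (3 * M - 5 / 2) * (t + z₃) ^ 2 + 6 * t * (t + z₃) + (-3 * t ^ 2 - 1) := by
      have e : (3 * M - 5 / 2) * (t + z₃) ^ 2 + 6 * t * (t + z₃) + (-3 * t ^ 2 - 1) =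
        3 * M * (t + z₃) ^ 2 - 3 * z₃ ^ 2 - (1 - (t + z₃) ^ 2 / 2) := by ring
      rw [e]
      (clear * - h31 h32; linarith)
    have hk2 : 0 ≤ (3 * M - 5 / 2) * √2 ^ 2 + 6 * t * √2 + (-3 * t ^ 2 - 1) := by
      have e : (3 * M - 5 / 2) * √2 ^ 2 + 6 * t * √2 + (-3 * t ^ 2 - 1) =
        (6 * M - 3 * (√2 - t) ^ 2) + (3 * M + 1 / 2) * (√2 ^ 2 - 2) := by ring
      rw [e, hr2]
      (clear * - hM2; linarith)
    have hk := f5b_quad (A := 3 * M - 5 / 2) (B := 6 * t) (C := -3 * t ^ 2 - 1) (a := t + z₃) (b := √2)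
      (x := S) (by (clear * - hM0 hM1; linarith)) hS3 hSr hk1 hk2
    have hh := f5b_quad (A := 6 * M - 3) (B := 6 * t) (C := 6 * M * (z ^ 2 - 1) - 3 * t ^ 2 - z ^ 2)
      (a := t + z) (b := S) (x := s) (by (clear * - hM0 hM1; linarith)) (by (clear * - hzd; linarith)) hsS
      (by
        have h7 := f5b_e3 ht1 ht2 hM hz htz
        have e : (6 * M - 3) * (t + z) ^ 2 + 6 * t * (t + z) +
          (6 * M * (z ^ 2 - 1) - 3 * t ^ 2 - z ^ 2) =
          6 * M * ((t + z) ^ 2 - 1 + z ^ 2) - 4 * z ^ 2 := by ring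
        rw [e]
        (clear * - h7; linarith))
      (by
        have e : (6 * M - 3) * S ^ 2 + 6 * t * S + (6 * M * (z ^ 2 - 1) - 3 * t ^ 2 - z ^ 2) =
          (3 * M - 5 / 2) * S ^ 2 + 6 * t * S + (-3 * t ^ 2 - 1) +
          ((3 * M - 1 / 2) * (S ^ 2 - 2 * (1 - z ^ 2))) := by ring
        rw [e, hS2]
        rw [hS2] at hk
        (clear * - hk; linarith))
    (clear * - hh; linarith)
  · rcases hz.eq_or_lt with hz0 | hz0
    · -- `z = 0`
      left
      have hst : s = t := by (clear * - hs hzd hz0; linarith)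
      rw [← hz0, hst]
      have := mul_nonneg (mul_nonneg (by norm_num : (0:ℝ) ≤ 6) hM0.le) ht21
      (clear * - this; linarith)
    right
    refine ⟨hz0, ?_⟩
    have hz1 : z ^ 2 ≤ 1 := by (clear * - hsz; linarith [sq_nonneg s])
    set S : ℝ := √(2 * (1 - z ^ 2)) with hS
    have hS2 : S ^ 2 = 2 * (1 - z ^ 2) := Real.sq_sqrt (by (clear * - hz1; linarith))
    have hS0 : 0 ≤ S := Real.sqrt_nonneg _
    have hsS : s ≤ S := Real.le_sqrt_of_sq_le hsz
    -- lower end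
    have hlow : 0 ≤ 12 * M * z * z ^ 2 + 24 * M * z * (t - z) * z +
        12 * M * z * ((t - z) ^ 2 - 1 + z ^ 2) - z ^ 3 := by
      have h1 := alg_e1 ht1 ht2 hM
      have h2 : z ^ 2 ≤ 1 - t ^ 2 / 2 := by
        have := pow_le_pow_left₀ ht0.le hs 2
        (clear * - hsz this; linarith)
      have h3 : z ^ 2 * (1 - 12 * M) ≤ (1 - t ^ 2 / 2) * (1 - 12 * M) :=
        mul_le_mul_of_nonneg_right h2 (by (clear * - hM1; linarith))
      have h4 : 0 ≤ z * (12 * M * (t ^ 2 - 1) - z ^ 2 * (1 - 12 * M)) :=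
        mul_nonneg hz (by (clear * - h1 h3; linarith))
      (clear * - h4; linarith [h4])
    have hfin : ∀ b : ℝ, z + (s - t) ≤ b → b ≤ 2 * z →
        0 ≤ 12 * M * z * b ^ 2 + 24 * M * z * (t - z) * b +
          12 * M * z * ((t - z) ^ 2 - 1 + z ^ 2) - b ^ 3 →
        (z + (s - t)) ^ 3 ≤ 12 * M * (s ^ 2 - 1 + z ^ 2) * z := by
      intro b hb1 hb2 hb
      have h1 := f5b_cub (A := 12 * M * z) (B := 24 * M * z * (t - z))
        (C := 12 * M * z * ((t - z) ^ 2 - 1 + z ^ 2)) (a := z) (b := b) (x := z + (s - t))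
        (by (clear * - hz hs hb1 hM1; nlinarith)) (by (clear * - hs; linarith)) hb1 hlow hb
      have e : 12 * M * z * (z + (s - t)) ^ 2 + 24 * M * z * (t - z) * (z + (s - t)) +
          12 * M * z * ((t - z) ^ 2 - 1 + z ^ 2) = 12 * M * (s ^ 2 - 1 + z ^ 2) * z := by ring
      (clear * - h1; linarith)
    rcases le_total (t + z) S with hcase | hcase
    · apply hfin (2 * z) (by (clear * - hzd; linarith)) le_rfl
      have htz : (t + z) ^ 2 ≤ 2 * (1 - z ^ 2) := by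
        rw [← hS2]
        exact pow_le_pow_left₀ (by (clear * - ht1 hM0 hM1 hz0; linarith)) hcase 2
      have h1 := f5b_e3 ht1 ht2 hM hz htz
      have h2 := mul_le_mul_of_nonneg_left h1 (by (clear * - hz0; linarith) : 0 ≤ 2 * z)
      have e : 12 * M * z * (2 * z) ^ 2 + 24 * M * z * (t - z) * (2 * z) +
          12 * M * z * ((t - z) ^ 2 - 1 + z ^ 2) - (2 * z) ^ 3 =
          2 * z * (6 * M * ((t + z) ^ 2 - 1 + z ^ 2)) - 2 * z * (4 * z ^ 2) := by ring
      rw [e]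
      (clear * - h2; linarith)
    · apply hfin (z + (S - t)) (by (clear * - hsS; linarith)) (by (clear * - hcase; linarith))
      -- `(z + S - t) ^ 3 ≤ 24 M x ^ 2 z`, `x = S / 2`
      have hx : 2 * (S / 2) ^ 2 + z ^ 2 = 1 := by
        have e : 2 * (S / 2) ^ 2 = S ^ 2 / 2 := by ring
        rw [e, hS2]
        ring
      have hx0 : 0 < S / 2 := by (clear * - ht1 hs hM0 hM1 hsS; linarith)
      have h24 : (3 - √3 * t) ^ 3 = 24 * M := by rw [hM]; ring
      have ht3 : t ≤ √3 := ht2.trans (Real.sqrt_le_sqrt (by norm_num))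
      have hkey : (z + 2 * (S / 2) - t) ^ 3 ≤ (3 - √3 * t) ^ 3 * (S / 2) ^ 2 * z := by
        rcases le_total (2 * (S / 2) - z) 1.0129 with hc | hc
        · exact alg_mono hx0 hz0 hx ht1 ht3 (by (clear * - hs hz0 hsS; linarith))
            (alg_e2 (by (clear * - ht1 hs hsS; linarith)) hz0 hx hc)
        · have h1 := alg_e3 hx0 hz hx hc
          have h2 : (z + 2 * (S / 2) - (2 * (S / 2) - z)) ^ 3 ≤
              (3 - √3 * (2 * (S / 2) - z)) ^ 3 * (S / 2) ^ 2 * z := by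
            have h3 := mul_le_mul_of_nonneg_right h1 hz
            have e : (z + 2 * (S / 2) - (2 * (S / 2) - z)) ^ 3 = 8 * z ^ 2 * z := by ring
            rw [e]
            (clear * - h3; linarith)
          exact alg_mono hx0 hz0 hx (by (clear * - hcase; linarith)) ht3 (by (clear * - hs hz0 hsS; linarith)) h2
      rw [h24] at hkey
      have e : 12 * M * z * (z + (S - t)) ^ 2 + 24 * M * z * (t - z) * (z + (S - t)) +
          12 * M * z * ((t - z) ^ 2 - 1 + z ^ 2) = 12 * M * (S ^ 2 - 1 + z ^ 2) * z := by ring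
      have e2 : 24 * M * (S / 2) ^ 2 * z = 12 * M * (S ^ 2 / 2) * z := by ring
      have e3 : S ^ 2 - 1 + z ^ 2 = S ^ 2 / 2 := by (clear * - hS2; linarith)
      have e4 : z + 2 * (S / 2) - t = z + (S - t) := by ring
      rw [e4, e2] at hkey
      rw [e, e3]
      (clear * - hkey; linarith)

/-- F5b. -/
theorem algebra_two {t M p q : ℝ} (ht1 : 1.0129 ≤ t) (ht2 : t ≤ √2)
    (hM : M = (3 - √3 * t) ^ 3 / 24) (hM2 : (√2 - t) ^ 2 / 2 ≤ M) (hp : 0 < p) (hq : 0 < q)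
    (hpq : p ^ 2 + q ^ 2 ≤ 1) (hs : t ≤ p + q) :
    3 * (p + q - t) ^ 2 + (1 - p ^ 2 - q ^ 2) ≤ 12 * M * (p * q) ∨
    ∃ z : ℝ, 0 < z ∧ z ^ 2 = 1 - p ^ 2 - q ^ 2 ∧
      (z + (p + q - t)) ^ 3 ≤ 24 * M * (p * q) * z := by
  have _ := hp
  have _ := hq
  set z : ℝ := √(1 - p ^ 2 - q ^ 2) with hz
  have hz2 : z ^ 2 = 1 - p ^ 2 - q ^ 2 := Real.sq_sqrt (by (clear * - hpq; linarith))
  have hz0 : 0 ≤ z := Real.sqrt_nonneg _
  have e : (p + q) ^ 2 - 1 + z ^ 2 = 2 * (p * q) := by rw [hz2]; ring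
  rcases f5b_core ht1 ht2 hM hM2 hz0 hs (by (clear * - hz2; nlinarith [sq_nonneg (p - q)])) with h | ⟨h1, h2⟩
  · left
    rw [e, hz2] at h
    (clear * - h; linarith)
  · right
    refine ⟨z, h1, hz2, ?_⟩
    rw [e] at h2
    (clear * - h2; linarith)

end Pool.Agent.M18.Helper89.FA
end

/- Helper95.SP.Crude.Univ -/
section
/-!
# SP-wave, module Univ: the universal bound for `sinc C ^ 2 - sinc P * sinc Q`
-/

set_option autoImplicit false

namespace Pool.Agent.M18.Helper95.SP.Crude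

open Real Finset Filter Topology

/-- telescoping of products of numbers in `[0, 1]` -/
theorem prod_sub_prod_le_sum (f g : ℕ → ℝ) (h0 : ∀ j, 0 ≤ g j) (h1 : ∀ j, g j ≤ f j)
    (h2 : ∀ j, f j ≤ 1) (n : ℕ) :
    0 ≤ ∏ j ∈ range n, g j ∧ ∏ j ∈ range n, g j ≤ ∏ j ∈ range n, f j ∧
      ∏ j ∈ range n, f j ≤ 1 ∧
      ∏ j ∈ range n, f j - ∏ j ∈ range n, g j ≤ ∑ j ∈ range n, (f j - g j) := by
  induction n with
  | zero => simp
  | succ n ih =>
    rw [Finset.prod_range_succ, Finset.prod_range_succ, Finset.sum_range_succ]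
    obtain ⟨i1, i2, i3, i4⟩ := ih
    have a0 := h0 n
    have a1 := h1 n
    have a2 := h2 n
    refine ⟨mul_nonneg i1 a0, mul_le_mul i2 a1 a0 (i1.trans i2), ?_, ?_⟩
    · exact mul_le_one₀ i3 (a0.trans a1) a2
    · have e : (∏ j ∈ range n, f j) * f n - (∏ j ∈ range n, g j) * g n =
          (∏ j ∈ range n, f j) * (f n - g n) + (∏ j ∈ range n, f j - ∏ j ∈ range n, g j) * g n := by
        ring
      rw [e]
      have b1 : (∏ j ∈ range n, f j) * (f n - g n) ≤ 1 * (f n - g n) :=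
        mul_le_mul_of_nonneg_right i3 (by (clear * - a1; linarith))
      have b2 : (∏ j ∈ range n, f j - ∏ j ∈ range n, g j) * g n ≤
          (∏ j ∈ range n, f j - ∏ j ∈ range n, g j) * 1 :=
        mul_le_mul_of_nonneg_left (a1.trans a2) (by (clear * - i2; linarith))
      (clear * - i4 b1 b2; linarith)

theorem univ_pr {s d : ℝ} (hd : 0 ≤ d) (hds : d ≤ s) (h : s ≤ 2 * π ^ 2) (n : ℕ) :
    0 ≤ pr (-s) (n + 1) ^ 2 - pr (-(s + d)) (n + 1) * pr (-(s - d)) (n + 1) ∧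
      pr (-s) (n + 1) ^ 2 - pr (-(s + d)) (n + 1) * pr (-(s - d)) (n + 1) ≤ d ^ 2 / 90 := by
  set a : ℕ → ℝ := fun j => 1 / (π ^ 2 * ((j : ℝ) + 1) ^ 2) with ha
  have hπ : 0 < π ^ 2 := by positivity
  have ha0 : ∀ j, 0 < a j := fun j => by simp only [ha]; (clear * -; positivity)
  set f : ℕ → ℝ := fun j => (1 - s * a j) ^ 2 with hf
  set g : ℕ → ℝ := fun j => (1 - (s + d) * a j) * (1 - (s - d) * a j) with hg
  have hfg : ∀ j, f j - g j = d ^ 2 * a j ^ 2 := by
    intro j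
    simp only [hf, hg]
    ring
  have e1 : pr (-s) (n + 1) ^ 2 = ∏ j ∈ range (n + 1), f j := by
    unfold pr
    rw [← Finset.prod_pow]
    refine Finset.prod_congr rfl fun j _ => ?_
    simp only [hf, ha]
    congr 1
    ring
  have e2 : pr (-(s + d)) (n + 1) * pr (-(s - d)) (n + 1) = ∏ j ∈ range (n + 1), g j := by
    unfold pr
    rw [← Finset.prod_mul_distrib]
    refine Finset.prod_congr rfl fun j _ => ?_
    simp only [hg, ha]
    congr 1 <;> ring
  rw [e1, e2]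
  have ha1 : ∀ j, (s + d) * a (j + 1) ≤ 1 := by
    intro j
    simp only [ha]
    rw [mul_one_div, div_le_one (by (clear * -; positivity))]
    push_cast
    have hj : (0 : ℝ) ≤ j := Nat.cast_nonneg j
    have h4 : (4 : ℝ) ≤ ((j : ℝ) + 1 + 1) ^ 2 := by nlinarith
    (clear * - hds h h4; nlinarith)
  have hg0 : ∀ j, 0 ≤ g (j + 1) := by
    intro j
    simp only [hg]
    have h1 := ha1 j
    have h2 := ha0 (j + 1)
    apply mul_nonneg
    · (clear * - h1; linarith)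
    · (clear * - h1 hd h2; nlinarith)
  have hgf : ∀ j, g (j + 1) ≤ f (j + 1) := by
    intro j
    have := hfg (j + 1)
    have h2 : 0 ≤ d ^ 2 * a (j + 1) ^ 2 := by (clear * -; positivity)
    linarith
  have hf1 : ∀ j, f (j + 1) ≤ 1 := by
    intro j
    simp only [hf]
    have h1 := ha1 j
    have h2 := ha0 (j + 1)
    have h3 : 0 ≤ s * a (j + 1) := mul_nonneg (hd.trans hds) h2.le
    have h4 : s * a (j + 1) ≤ 1 := by (clear * - h1 hd h2; nlinarith)
    (clear * - h3 h4; nlinarith)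
  have hf00 : 0 ≤ f 0 := sq_nonneg _
  have hf01 : f 0 ≤ 1 := by
    simp only [hf, ha]
    have h3 : 0 ≤ s * (1 / (π ^ 2 * (((0 : ℕ) : ℝ) + 1) ^ 2)) := by
      have : 0 ≤ s := hd.trans hds
      (clear * - this; positivity)
    have h4 : s * (1 / (π ^ 2 * (((0 : ℕ) : ℝ) + 1) ^ 2)) ≤ 2 := by
      rw [mul_one_div, div_le_iff₀ (by (clear * -; positivity))]
      push_cast
      (clear * - h; nlinarith)
    (clear * - h3 h4; nlinarith)
  obtain ⟨i1, i2, i3, i4⟩ := prod_sub_prod_le_sum (fun j => f (j + 1)) (fun j => g (j + 1))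
    hg0 hgf hf1 n
  rw [Finset.prod_range_succ' f, Finset.prod_range_succ' g]
  set F := ∏ j ∈ range n, f (j + 1) with hF
  set Gp := ∏ j ∈ range n, g (j + 1) with hGp
  have h00 := hfg 0
  have hd0 : 0 ≤ d ^ 2 * a 0 ^ 2 := by (clear * -; positivity)
  have hsum : ∑ j ∈ range (n + 1), d ^ 2 * a j ^ 2 ≤ d ^ 2 / 90 := by
    rw [← Finset.mul_sum]
    have h5 := mul_le_mul_of_nonneg_left (sum_four_le (n + 1)) (sq_nonneg d)
    have h6 : ∑ j ∈ range (n + 1), a j ^ 2 = ∑ j ∈ range (n + 1), 1 / (π ^ 2 * ((j : ℝ) + 1) ^ 2) ^ 2 := by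
      refine Finset.sum_congr rfl fun j _ => ?_
      simp only [ha]
      rw [one_div_pow]
    rw [h6]
    (clear * - h5; linarith)
  rw [Finset.sum_range_succ'] at hsum
  have i4' : F - Gp ≤ ∑ j ∈ range n, d ^ 2 * a (j + 1) ^ 2 := by
    refine i4.trans (le_of_eq ?_)
    exact Finset.sum_congr rfl fun j _ => hfg (j + 1)
  rcases le_or_gt (g 0) 0 with hg00 | hg00
  · constructor
    · have h7 : 0 ≤ F * f 0 := mul_nonneg (i1.trans i2) hf00
      have h8 : Gp * g 0 ≤ 0 := mul_nonpos_of_nonneg_of_nonpos i1 hg00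
      linarith
    · have h9 : F * f 0 - Gp * g 0 ≤ F * (f 0 - g 0) := by (clear * - i2 hg00; nlinarith)
      have h10 : F * (f 0 - g 0) ≤ 1 * (f 0 - g 0) :=
        mul_le_mul_of_nonneg_right i3 (by (clear * - hd0; linarith))
      have h11 : 0 ≤ F - Gp := by (clear * - i2; linarith)
      linarith
  · constructor
    · have h7 : Gp * g 0 ≤ F * f 0 := mul_le_mul i2 (by (clear * - hd0; linarith)) hg00.le (i1.trans i2)
      (clear * - h7; linarith)
    · have h8 : F * f 0 - Gp * g 0 = (F - Gp) * f 0 + Gp * (f 0 - g 0) := by ring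
      rw [h8, h00]
      have h9 : (F - Gp) * f 0 ≤ (F - Gp) * 1 := mul_le_mul_of_nonneg_left hf01 (by (clear * - i2; linarith))
      have h10 : Gp * (d ^ 2 * a 0 ^ 2) ≤ 1 * (d ^ 2 * a 0 ^ 2) :=
        mul_le_mul_of_nonneg_right (i2.trans i3) hd0
      (clear * - hsum i4' h9 h10; linarith)

/-- the case `P^2 + Q^2 ≤ 4 π^2` -/
theorem univ_caseA {P Q C : ℝ} (hQ : 0 ≤ Q) (hQP : Q ≤ P)
    (hCC : 2 * C ^ 2 = P ^ 2 + Q ^ 2) (h : P ^ 2 + Q ^ 2 ≤ 4 * π ^ 2) :
    0 ≤ sinc C ^ 2 - sinc P * sinc Q ∧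
      sinc C ^ 2 - sinc P * sinc Q ≤ (P ^ 2 - Q ^ 2) ^ 2 / 360 := by
  have hPQ : Q ^ 2 ≤ P ^ 2 := pow_le_pow_left₀ hQ hQP 2
  have hd : 0 ≤ (P ^ 2 - Q ^ 2) / 2 := by linarith
  have hds : (P ^ 2 - Q ^ 2) / 2 ≤ C ^ 2 := by (clear * - hCC; nlinarith [sq_nonneg Q])
  have hs : C ^ 2 ≤ 2 * π ^ 2 := by (clear * - hCC h; linarith)
  have e1 : -(C ^ 2 + (P ^ 2 - Q ^ 2) / 2) = -P ^ 2 := by (clear * - hCC; linarith)
  have e2 : -(C ^ 2 - (P ^ 2 - Q ^ 2) / 2) = -Q ^ 2 := by (clear * - hCC; linarith)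
  have key := fun n => univ_pr hd hds hs n
  rw [e1, e2] at key
  have t := (((tendsto_sinc C).pow 2).sub ((tendsto_sinc P).mul (tendsto_sinc Q))).comp
    (tendsto_add_atTop_nat 1)
  constructor
  · exact ge_of_tendsto' t fun n => (key n).1
  · refine le_of_tendsto' t fun n => ?_
    refine (key n).2.trans (le_of_eq ?_)
    ring

/-- the identity for the bracket -/
theorem univ_identity {P Q C : ℝ} (hQ : 0 < Q) (hQP : Q < P) (hC : 0 ≤ C)
    (hCC : 2 * C ^ 2 = P ^ 2 + Q ^ 2) :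
    sinc C ^ 2 - sinc P * sinc Q = (P - Q) ^ 2 / (4 * (P * Q)) *
      (sinc ((P - Q) / 2) ^ 2 + sinc ((2 * C + (P + Q)) / 2) * sinc ((2 * C - (P + Q)) / 2) -
        2 * sinc C ^ 2) := by
  have hP : 0 < P := hQ.trans hQP
  have hC2 : 0 < C ^ 2 := by nlinarith
  have hC0 : 0 < C := by
    rcases hC.eq_or_lt with h0 | h0
    · rw [← h0] at hC2; norm_num at hC2
    · exact h0
  have hD : 0 < P - Q := by (clear * - hQP; linarith)
  have h4 : (2 * C) ^ 2 - (P + Q) ^ 2 = (P - Q) ^ 2 := by (clear * - hCC; nlinarith)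
  have hlt : P + Q < 2 * C := by
    have : (P + Q) ^ 2 < (2 * C) ^ 2 := by (clear * - hCC hQP; nlinarith)
    exact lt_of_pow_lt_pow_left₀ 2 (by positivity) this
  have hsig : (2 * C + (P + Q)) / 2 ≠ 0 := by (clear * - hC0 hP hQ; positivity)
  have heps : (2 * C - (P + Q)) / 2 ≠ 0 := by
    have : 0 < (2 * C - (P + Q)) / 2 := by (clear * - hlt; linarith)
    exact this.ne'
  have hD2 : (P - Q) / 2 ≠ 0 := by
    have : 0 < (P - Q) / 2 := by linarith
    exact this.ne'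
  rw [sinc_of_ne_zero hC0.ne', sinc_of_ne_zero hP.ne', sinc_of_ne_zero hQ.ne',
    sinc_of_ne_zero hsig, sinc_of_ne_zero heps, sinc_of_ne_zero hD2]
  have t1 : sin C ^ 2 = (1 - cos (2 * C)) / 2 := by rw [cos_two_mul, ← sin_sq_add_cos_sq C]; ring
  have t2 : sin P * sin Q = (cos (P - Q) - cos (P + Q)) / 2 := by rw [cos_sub, cos_add]; ring
  have t3 : sin ((P - Q) / 2) ^ 2 = (1 - cos (P - Q)) / 2 := by
    have : cos (P - Q) = cos (2 * ((P - Q) / 2)) := by congr 1; ring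
    rw [this, cos_two_mul, ← sin_sq_add_cos_sq ((P - Q) / 2)]; ring
  have t4 : sin ((2 * C + (P + Q)) / 2) * sin ((2 * C - (P + Q)) / 2) =
      (cos (P + Q) - cos (2 * C)) / 2 := by
    have a1 : cos (P + Q) = cos ((2 * C + (P + Q)) / 2 - (2 * C - (P + Q)) / 2) := by congr 1; ring
    have a2 : cos (2 * C) = cos ((2 * C + (P + Q)) / 2 + (2 * C - (P + Q)) / 2) := by congr 1; ring
    rw [a1, a2, cos_sub, cos_add]; ring
  rw [div_pow, div_pow, div_mul_div_comm, div_mul_div_comm, t1, t2, t3, t4]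
  have e5 : (2 * C + (P + Q)) / 2 * ((2 * C - (P + Q)) / 2) = (P - Q) ^ 2 / 4 := by (clear * - hCC; nlinarith)
  rw [e5]
  have hPQ : P * Q ≠ 0 := (mul_pos hP hQ).ne'
  have hDD : (P - Q) ^ 2 ≠ 0 := by positivity
  have hC2' : C ^ 2 = (P ^ 2 + Q ^ 2) / 2 := by (clear * - hCC; linarith)
  rw [hC2']
  have hS : P ^ 2 + Q ^ 2 ≠ 0 := by positivity
  have hPQ' : P - Q ≠ 0 := hD.ne'
  field_simp
  ring

theorem abs_sinc_le_one' (x : ℝ) : |sinc x| ≤ 1 := by
  rw [abs_le]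
  exact ⟨neg_one_le_sinc x, sinc_le_one x⟩

theorem abs_sub_le_univ {P Q C : ℝ} (hQ : 0 ≤ Q) (hQP : Q ≤ P) (hC : 0 ≤ C)
    (hCC : 2 * C ^ 2 = P ^ 2 + Q ^ 2) :
    |sinc C ^ 2 - sinc P * sinc Q| ≤ (P ^ 2 - Q ^ 2) ^ 2 / 360 := by
  rcases le_or_gt (P ^ 2 + Q ^ 2) (4 * π ^ 2) with h | h
  · obtain ⟨h1, h2⟩ := univ_caseA hQ hQP hCC h
    rw [abs_of_nonneg h1]
    exact h2
  · have hpi := pi_gt_d6
    have hpi2 : (9.8696 : ℝ) ≤ π ^ 2 := by (clear * - hpi; nlinarith)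
    have hP0 : 0 ≤ P := hQ.trans hQP
    rcases le_or_gt P (2 * Q) with h3 | h3
    · -- comparable
      rcases hQP.eq_or_lt with h5 | h5
      · -- equal
        subst h5
        have : C = Q := by
          have : C ^ 2 = Q ^ 2 := by (clear * - hCC; linarith)
          exact (pow_left_inj₀ hC hQ (by norm_num)).mp this
        subst this
        have e : sinc C ^ 2 - sinc C * sinc C = 0 := by ring
        rw [e]
        simp
      · have hQ0 : 0 < Q := by (clear * - h3 h5; linarith)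
        have hP1 : 0 < P := hQ0.trans h5
        rw [univ_identity hQ0 h5 hC hCC, abs_mul, abs_of_nonneg (by (clear * - h5 hP1 hQ0; positivity))]
        set x1 := sinc ((P - Q) / 2) with hx1
        set x2 := sinc ((2 * C + (P + Q)) / 2) with hx2
        set x3 := sinc ((2 * C - (P + Q)) / 2) with hx3
        set x4 := sinc C with hx4
        have b1 : |x1| ≤ 1 := abs_sinc_le_one' _
        have b2 : |x2| ≤ 1 := abs_sinc_le_one' _
        have b3 : |x3| ≤ 1 := abs_sinc_le_one' _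
        have b4 : |x4| ≤ 1 := abs_sinc_le_one' _
        have c1 : x1 ^ 2 ≤ 1 := by rw [← sq_abs]; exact pow_le_one₀ (abs_nonneg _) b1
        have c4 : x4 ^ 2 ≤ 1 := by rw [← sq_abs]; exact pow_le_one₀ (abs_nonneg _) b4
        have c2 : |x2 * x3| ≤ 1 := by rw [abs_mul]; exact mul_le_one₀ b2 (abs_nonneg _) b3
        have hbr : |x1 ^ 2 + x2 * x3 - 2 * x4 ^ 2| ≤ 3 := by
          rw [abs_le] at c2 ⊢
          constructor
          · (clear * - c4 c2; nlinarith [sq_nonneg x1])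
          · (clear * - c1 c2; nlinarith [sq_nonneg x4])
        have hP2 : 19.739 ≤ P ^ 2 := by (clear * - h hpi2 hQ hQP; nlinarith)
        have hPQ : 9.869 ≤ P * Q := by (clear * - h hpi2 hQ h3 hQP; nlinarith)
        have hS : 4 * (P * Q) ≤ (P + Q) ^ 2 := by (clear * -; nlinarith [sq_nonneg (P - Q)])
        have hkey : 270 ≤ P * Q * (P + Q) ^ 2 := by (clear * - h hpi2 hPQ; nlinarith)
        have e6 : (P ^ 2 - Q ^ 2) ^ 2 / 360 = (P - Q) ^ 2 / (4 * (P * Q)) *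
            (P * Q * (P + Q) ^ 2 / 90) := by
          field_simp
          ring
        rw [e6]
        apply mul_le_mul_of_nonneg_left _ (by positivity)
        refine hbr.trans ?_
        rw [le_div_iff₀ (by norm_num)]
        (clear * - hkey; linarith)
    · -- far apart
      have hP2 : 31 ≤ P ^ 2 := by (clear * - h hpi2 hQ h3 hQP; nlinarith)
      have hP5 : 5 ≤ P := by (clear * - hQP h hpi2 hQ h3; nlinarith)
      have hP1 : 0 < P := by (clear * - hP5; linarith)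
      have hC2 : 19 ≤ C ^ 2 := by (clear * - hCC h hpi2; nlinarith)
      have hC0 : 0 < C := by (clear * - hCC h hC; nlinarith)
      have h6 : |sinc C ^ 2 - sinc P * sinc Q| ≤ 1 := by
        have b1 := abs_sinc_le_one' C
        have b3 := abs_sinc_le_one' Q
        have c4 : sinc C ^ 2 ≤ 1 / 2 := by
          rw [sinc_of_ne_zero hC0.ne', div_pow, div_le_div_iff₀ (by positivity) (by norm_num)]
          have := sin_sq_le_one C
          (clear * - hCC h hpi2 this; nlinarith)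
        have c5 : |sinc P| ≤ 1 / 2 := by
          rw [sinc_of_ne_zero hP1.ne', abs_div, abs_of_pos hP1, div_le_div_iff₀ hP1 (by norm_num)]
          have := abs_sin_le_one P
          (clear * - hP5 this; linarith)
        have c6 : |sinc P * sinc Q| ≤ 1 / 2 := by
          rw [abs_mul]
          calc |sinc P| * |sinc Q| ≤ 1 / 2 * 1 := by gcongr
            _ = 1 / 2 := by norm_num
        rw [abs_le] at c6 ⊢
        constructor <;> (clear * - c6 c4; nlinarith [sq_nonneg (sinc C)])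
      refine h6.trans ?_
      rw [le_div_iff₀ (by norm_num)]
      have h7 : 3 / 4 * P ^ 2 ≤ P ^ 2 - Q ^ 2 := by (clear * - hQ h3 hQP; nlinarith)
      have h8 : 23 ≤ P ^ 2 - Q ^ 2 := by (clear * - h hpi2 h7; linarith)
      (clear * - h hpi2 h7 hP2; nlinarith)

theorem sub_nonneg_of_le {P Q C : ℝ} (hQ : 0 ≤ Q) (hQP : Q ≤ P) (_hC : 0 ≤ C)
    (hCC : 2 * C ^ 2 = P ^ 2 + Q ^ 2) (h : P ^ 2 + Q ^ 2 ≤ 4 * π ^ 2) :
    0 ≤ sinc C ^ 2 - sinc P * sinc Q := (univ_caseA hQ hQP hCC h).1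

end Pool.Agent.M18.Helper95.SP.Crude
end

/- Helper95.SP.Crude.ExpF -/
section
/-!
Soundness of the fast rational evaluators `eUpF`, `eLoF` of `exp (-E)`.
-/

set_option autoImplicit false

namespace Pool.Agent.M18.Helper95.SP.Crude

open Real Finset

theorem ExpF.eDen_pos {D : ℕ} (hD : 0 < D) : (0 : ℝ) < (eDen D : ℝ) := by
  unfold eDen
  push_cast
  positivity

theorem ExpF.eNum_eq (n : ℕ) {D : ℕ} (hD : 0 < D) :
    (eNum n D : ℝ) / (eDen D : ℝ) = ∑ i ∈ range 8, ((n : ℝ) / D) ^ i / (i.factorial : ℝ) := by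
  have hD' : (0 : ℝ) < D := by exact_mod_cast hD
  unfold eNum eDen
  simp only [Finset.sum_range_succ, Finset.sum_range_zero, Nat.factorial]
  push_cast
  field_simp
  ring

theorem ExpF.eNum_pos (n : ℕ) {D : ℕ} (hD : 0 < D) : (0 : ℝ) < (eNum n D : ℝ) := by
  have hD' : (0 : ℝ) < D := by exact_mod_cast hD
  unfold eNum
  push_cast
  (clear * - hD; positivity)

theorem ExpF.div_eq {E : ℚ} (h : 0 ≤ E) :
    ((E.num.toNat : ℕ) : ℝ) / ((16 * E.den : ℕ) : ℝ) = (E : ℝ) / 16 := by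
  have h1 : ((E.num.toNat : ℕ) : ℤ) = E.num := Int.toNat_of_nonneg (Rat.num_nonneg.mpr h)
  have h2 : ((E.num.toNat : ℕ) : ℝ) = (E.num : ℝ) := by exact_mod_cast h1
  have h3 : (E : ℝ) = (E.num : ℝ) / (E.den : ℝ) := by
    exact_mod_cast (Rat.num_div_den E).symm
  have h4 : (0 : ℝ) < (E.den : ℝ) := by exact_mod_cast E.den_pos
  rw [h2, h3]
  push_cast
  (clear * -; field_simp)

theorem ExpF.le_exp {E : ℚ} (h : 0 ≤ E) :
    (eNum E.num.toNat (16 * E.den) : ℝ) / (eDen (16 * E.den) : ℝ) ≤ exp ((E : ℝ) / 16) := by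
  have h0 : (0 : ℝ) ≤ E := by exact_mod_cast h
  have hD : 0 < 16 * E.den := by have := E.den_pos; omega
  rw [ExpF.eNum_eq _ hD, ExpF.div_eq h]
  exact Real.sum_le_exp_of_nonneg (x := (E : ℝ) / 16) (by (clear * - h; positivity)) 8

theorem eUpF_sound {E : ℚ} (h : 0 ≤ E) : exp (-(E : ℝ)) ≤ ((eUpF E : ℚ) : ℝ) := by
  have hD : 0 < 16 * E.den := by have := E.den_pos; omega
  have hd := ExpF.eDen_pos hD
  have hn := ExpF.eNum_pos E.num.toNat hD
  have h1 := ExpF.le_exp h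
  unfold eUpF
  set d := eDen (16 * E.den) with hdd
  set n := eNum E.num.toNat (16 * E.den) with hnn
  have hn' : 0 < n ^ 16 := pow_pos (by exact_mod_cast hn) 16
  have h2 := Nat.lt_mul_div_succ (d ^ 16 * 100000000) hn'
  have h3 : ((d : ℝ) ^ 16 * 100000000) < (n : ℝ) ^ 16 *
      (((d ^ 16 * 100000000 / n ^ 16 : ℕ) : ℝ) + 1) := by
    exact_mod_cast h2
  rw [ExpQ.exp_eq]
  have h4 : (1 : ℝ) / exp ((E : ℝ) / 16) ^ 16 ≤ 1 / ((n : ℝ) / d) ^ 16 :=
    one_div_le_one_div_of_le (by (clear * - hn hd; positivity)) (pow_le_pow_left₀ (by (clear * - hn hd; positivity)) h1 16)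
  refine h4.trans ?_
  push_cast
  rw [div_pow, one_div_div, le_div_iff₀ (by norm_num), div_mul_eq_mul_div,
    div_le_iff₀ (by (clear * - hn; positivity))]
  push_cast at h3
  (clear * - h3; linarith)

theorem eUpF_nonneg (E : ℚ) : 0 ≤ eUpF E := by
  unfold eUpF
  (clear * -; positivity)

theorem eLoF_sound {E : ℚ} (h : 0 ≤ E) : ((eLoF E : ℚ) : ℝ) ≤ exp (-(E : ℝ)) := by
  unfold eLoF
  split_ifs with hE
  · have hE' : (E : ℝ) ≤ 16 := by exact_mod_cast hE
    have h0 : (0 : ℝ) ≤ E := by exact_mod_cast h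
    have hD : 0 < 16 * E.den := by have := E.den_pos; omega
    have hd := ExpF.eDen_pos hD
    have hn := ExpF.eNum_pos E.num.toNat hD
    have hx := ExpF.div_eq h
    have hs := ExpF.eNum_eq E.num.toNat hD
    have hDR : (0 : ℝ) < ((16 * E.den : ℕ) : ℝ) := by exact_mod_cast hD
    have h8 : (eDen (16 * E.den) : ℝ) = 5040 * ((16 * E.den : ℕ) : ℝ) ^ 7 := by
      unfold eDen
      push_cast
      ring
    have h1 := Real.exp_bound' (x := (E : ℝ) / 16) (by (clear * - h; positivity)) (by (clear * - hE'; linarith)) (n := 8)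
        (by norm_num)
    rw [← hx, ← hs] at h1
    rw [hx] at h1
    set D := 16 * E.den with hDD
    set d := eDen D with hdd
    set n := eNum E.num.toNat D with hnn
    set a := E.num.toNat with ha
    set num := 64 * D * d with hnum
    set den := 64 * D * n + 9 * a ^ 8 with hden
    have hnumR : (num : ℝ) = 64 * (D : ℝ) * d := by rw [hnum]; push_cast; ring
    have hdenR : (den : ℝ) = 64 * (D : ℝ) * n + 9 * (a : ℝ) ^ 8 := by rw [hden]; push_cast; ring
    have p1 : (0 : ℝ) < num := by rw [hnumR]; (clear * - hd; positivity)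
    have p2 : (0 : ℝ) < den := by rw [hdenR]; (clear * - hn; positivity)
    have h2 : exp ((E : ℝ) / 16) ≤ (den : ℝ) / num := by
      refine h1.trans (le_of_eq ?_)
      rw [hnumR, hdenR, ← hx, h8]
      norm_num [Nat.factorial]
      field_simp
      ring
    have h3 : (((num ^ 16 * 100000000 / den ^ 16 : ℕ) : ℕ) : ℝ) ≤
        (num : ℝ) ^ 16 * 100000000 / (den : ℝ) ^ 16 := by
      have := @Nat.cast_div_le ℝ _ _ _ (num ^ 16 * 100000000) (den ^ 16)
      refine this.trans (le_of_eq ?_)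
      push_cast
      ring
    rw [ExpQ.exp_eq]
    have h4 : (1 : ℝ) / ((den : ℝ) / num) ^ 16 ≤ 1 / exp ((E : ℝ) / 16) ^ 16 :=
      one_div_le_one_div_of_le (by positivity) (pow_le_pow_left₀ (exp_pos _).le h2 16)
    refine le_trans ?_ h4
    rw [div_pow, one_div_div, Rat.cast_div, Rat.cast_natCast]
    rw [div_le_iff₀ (by norm_num)]
    refine h3.trans (le_of_eq ?_)
    push_cast
    ring
  · simpa using (exp_pos _).le

theorem eLoF_nonneg (E : ℚ) : 0 ≤ eLoF E := by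
  unfold eLoF
  split_ifs with hE
  · positivity
  · exact le_rfl

end Pool.Agent.M18.Helper95.SP.Crude
end

/- Helper95.SP.Crude.TailRest -/
section
/-! SP-wave, section TailRest. -/

set_option autoImplicit false

namespace Pool.Agent.M18.Helper95.SP.Crude

open Real Finset

theorem tr_sin_ratio {x r : ℝ} (hx : 0 < x) (hxr : x ≤ r) (hr : r ≤ 3 / 4) : x * sin r ≤ r * sin x := by
  have hr0 : 0 < r := lt_of_lt_of_le hx hxr
  have hpi : r ≤ π := by have := pi_gt_three; (clear * - hx hxr hr this; linarith)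
  have hc := strictConcaveOn_sin_Icc.concaveOn.2 (show (0:ℝ) ∈ Set.Icc 0 π from ⟨le_rfl, by positivity⟩)
    (show r ∈ Set.Icc 0 π from ⟨hr0.le, hpi⟩)
    (show (0:ℝ) ≤ 1 - x / r by rw [sub_nonneg, div_le_one hr0]; exact hxr) (show (0:ℝ) ≤ x / r by positivity)
    (by ring)
  simp only [smul_eq_mul, mul_zero, zero_add, sin_zero] at hc
  have e : x / r * r = x := by (clear * - hr0 hx; field_simp)
  rw [e] at hc
  have h1 : r * (x / r * sin r) ≤ r * sin x := mul_le_mul_of_nonneg_left hc hr0.le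
  have e2 : r * (x / r * sin r) = x * sin r := by field_simp
  (clear * - h1 e2; linarith)

theorem tr_log_ratio {x r : ℝ} (hx : 0 < x) (hxr : x ≤ r) : log (r / x) ≤ 1 / 2 * (r ^ 2 / x ^ 2 - 1) := by
  have hr0 : 0 < r := lt_of_lt_of_le hx hxr
  have h1 := log_le_sub_one_of_pos (show 0 < (r / x) ^ 2 by (clear * - hr0 hx; positivity))
  rw [log_pow] at h1
  push_cast at h1
  have e : (r / x) ^ 2 = r ^ 2 / x ^ 2 := by rw [div_pow]
  rw [e] at h1
  linarith

theorem tr_half_le_log {t : ℝ} (ht : 2 ≤ t) : 1 / 2 ≤ log t := by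
  have h1 := log_le_log (by norm_num : (0:ℝ) < 2) ht
  have := log_two_gt_d9
  (clear * - h1 this; linarith)

theorem tr_sin_lower {k x : ℝ} (hk : 0 < k) (hx : 0 < x) (hx1 : x ≤ 3 / 4) (h : 449 / 100 ≤ k * x) : 2 ≤ k * sin x := by
  have h1 := sin_gt_sub_cube hx
  have h2 : 0.8 * x ≤ sin x := by (clear * - hx h1 hx1; nlinarith [sq_nonneg x, pow_pos hx 3])
  have h3 : k * (0.8 * x) ≤ k * sin x := mul_le_mul_of_nonneg_left h2 hk.le
  nlinarith

/-- `log (k sin y) ≥ (y / r)^2 log (k sin r)` -/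
theorem tr_claim_odd {k r y : ℝ} (hk : 0 < k) (hr' : r ≤ 3 / 4) (hy : 0 < y) (hyr : y ≤ r) (h : 449 / 100 ≤ k * y) :
    log (k * sin r) / r ^ 2 * y ^ 2 ≤ log (k * sin y) := by
  have hr0 : 0 < r := lt_of_lt_of_le hy hyr
  have hs1 := tr_sin_lower hk hy (hyr.trans hr') h
  have hs2 := tr_sin_lower hk hr0 hr' (h.trans (mul_le_mul_of_nonneg_left hyr hk.le))
  have h1 := tr_half_le_log hs1
  have h2 : log (k * sin r) ≤ log (k * sin y) + log (r / y) := by
    rw [← log_mul (by (clear * - hr' hy hyr hs1; linarith)) (by (clear * - hr0 hy; positivity))]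
    apply log_le_log (by (clear * - hr' hy hyr hs2; linarith))
    have h3 := tr_sin_ratio hy hyr hr'
    rw [mul_div_assoc', le_div_iff₀ hy]
    (clear * - hk h3; nlinarith)
  have h3 := tr_log_ratio hy hyr
  have h4 : 0 ≤ r ^ 2 / y ^ 2 - 1 := by
    rw [sub_nonneg, one_le_div (by positivity)]
    exact pow_le_pow_left₀ hy.le hyr 2
  have h5 : log (k * sin r) ≤ log (k * sin y) * (r ^ 2 / y ^ 2) := by (clear * - h2 h3 hr' hy hyr h1 h4; nlinarith)
  rw [div_mul_eq_mul_div, div_le_iff₀ (by positivity)]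
  have h6 : log (k * sin r) * y ^ 2 ≤ log (k * sin y) * (r ^ 2 / y ^ 2) * y ^ 2 :=
    mul_le_mul_of_nonneg_right h5 (by positivity)
  have e : log (k * sin y) * (r ^ 2 / y ^ 2) * y ^ 2 = log (k * sin y) * r ^ 2 := by field_simp
  (clear * - h6 e; linarith)

theorem tr_claim_even {k r y : ℝ} (hk : 0 < k) (hy : 0 < y) (hyr : y ≤ r) (h : 449 / 100 ≤ k * y) :
    log (k * r) / r ^ 2 * y ^ 2 ≤ log (k * y) := by
  have hr0 : 0 < r := lt_of_lt_of_le hy hyr
  have h1 := tr_half_le_log (show 2 ≤ k * y by (clear * - h; linarith))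
  have h2 : log (k * r) = log (k * y) + log (r / y) := by
    rw [← log_mul (by positivity) (by positivity)]
    congr 1
    field_simp
  have h3 := tr_log_ratio hy hyr
  have h4 : 0 ≤ r ^ 2 / y ^ 2 - 1 := by
    rw [sub_nonneg, one_le_div (by positivity)]
    exact pow_le_pow_left₀ hy.le hyr 2
  have h5 : log (k * r) ≤ log (k * y) * (r ^ 2 / y ^ 2) := by (clear * - h2 h3 h1 h4; nlinarith)
  rw [div_mul_eq_mul_div, div_le_iff₀ (by positivity)]
  have h6 : log (k * r) * y ^ 2 ≤ log (k * y) * (r ^ 2 / y ^ 2) * y ^ 2 :=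
    mul_le_mul_of_nonneg_right h5 (by positivity)
  have e : log (k * y) * (r ^ 2 / y ^ 2) * y ^ 2 = log (k * y) * r ^ 2 := by (clear * - hy hr0 h1; field_simp)
  (clear * - h6 e; linarith)

theorem tr_log_le {t : ℝ} (ht : 45 / 10 ≤ t) : log t ≤ t / 4 + 387 / 1000 := by
  have h1 := log_le_sub_one_of_pos (show 0 < t / 4 by (clear * - ht; linarith))
  rw [log_div (by (clear * - ht; linarith)) (by norm_num)] at h1
  have h2 : log 4 = 2 * log 2 := by
    rw [show (4:ℝ) = 2 ^ 2 by norm_num, log_pow]; norm_num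
  have := log_two_lt_d9
  (clear * - h1 h2 this; linarith)

theorem tail_rest_odd {k r x : ℝ} (hk : 13 ≤ k) (hr : 35 / 100 ≤ r) (hr' : r ≤ 3 / 4) (hx : 0 ≤ x)
    (hxr : x ≤ r) :
    |sinc (k * x)| ≤ sinc x * exp (-(log (k * sin r) / r ^ 2 * x ^ 2)) := by
  have hk0 : 0 < k := by (clear * - hk; linarith)
  have hr0 : 0 < r := by (clear * - hr; linarith)
  have hkr : 455 / 100 ≤ k * r := by (clear * - hk hr; nlinarith)
  have hsr := tr_sin_lower hk0 hr0 hr' (by linarith)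
  have hL := tr_half_le_log hsr
  rcases le_or_gt (k * x) π with h | h
  · refine (abs_sinc_mul_le (by (clear * - hk; linarith)) hx h).trans ?_
    have hs : 0 ≤ sinc x := by
      rcases eq_or_lt_of_le hx with h0 | h0
      · rw [← h0]; simp
      · rw [sinc_of_ne_zero h0.ne']
        have : 0 < sin x := sin_pos_of_pos_of_lt_pi h0 (by have := pi_gt_three; (clear * - hr' hxr hr0 this; linarith))
        (clear * - this h0; positivity)
    apply mul_le_mul_of_nonneg_left _ hs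
    apply exp_le_exp.mpr
    apply neg_le_neg
    apply mul_le_mul_of_nonneg_right _ (by positivity)
    rw [div_le_iff₀ (by positivity)]
    have h1 : log (k * sin r) ≤ log (k * r) :=
      log_le_log (by (clear * - hsr; linarith)) (mul_le_mul_of_nonneg_left (sin_le hr0.le) hk0.le)
    have h2 := tr_log_le (show 45 / 10 ≤ k * r by (clear * - hkr; linarith))
    have h3 : (k * r) / 4 + 387 / 1000 ≤ ((k * r) ^ 2 - 5625 / 10000) / 6 := by (clear * - hkr; nlinarith)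
    have h4 : ((k * r) ^ 2 - 5625 / 10000) / 6 ≤ (k ^ 2 - 1) / 6 * r ^ 2 := by (clear * - hr' hr; nlinarith)
    (clear * - h1 h2 h3 h4; linarith)
  · have hx0 : 0 < x := by
      by_contra hcon
      push Not at hcon
      have : x = 0 := le_antisymm hcon hx
      rw [this, mul_zero] at h
      have := pi_pos
      (clear * - h this; linarith)
    have hsx : 0 < sin x := sin_pos_of_pos_of_lt_pi hx0 (by have := pi_gt_three; (clear * - hr' hxr hr0 this; linarith))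
    rcases le_or_gt (449 / 100) (k * x) with h4 | h4
    · have hc := tr_claim_odd hk0 hr' hx0 hxr h4
      have hs1 := tr_sin_lower hk0 hx0 (hxr.trans hr') h4
      refine (abs_sinc_le_inv (by positivity)).trans ?_
      rw [sinc_of_ne_zero hx0.ne']
      have h5 : 1 / (k * sin x) ≤ exp (-(log (k * sin r) / r ^ 2 * x ^ 2)) := by
        rw [exp_neg, ← one_div]
        apply one_div_le_one_div_of_le (exp_pos _)
        rw [← exp_log (show 0 < k * sin x by (clear * - hs1; linarith))]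
        exact exp_le_exp.mpr hc
      have h6 : sin x / x * (1 / (k * sin x)) = 1 / (k * x) := by field_simp
      rw [← h6]
      exact mul_le_mul_of_nonneg_left h5 (by positivity)
    · set y := 449 / 100 / k with hy
      have hy0 : 0 < y := by positivity
      have hky : k * y = 449 / 100 := by rw [hy]; field_simp
      have hyr : y ≤ r := by
        rw [hy, div_le_iff₀ hk0]; (clear * - hkr; linarith)
      have hxy : x ≤ y := by
        rw [hy, le_div_iff₀ hk0]; (clear * - h4; linarith)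
      have hc := tr_claim_odd hk0 hr' hy0 hyr hky.ge
      have hs1 := tr_sin_lower hk0 hy0 (hyr.trans hr') hky.ge
      refine (abs_sinc_le_of_pi_le h.le).trans ?_
      rw [sinc_of_ne_zero hx0.ne']
      have hratio := tr_sin_ratio hx0 hxy (hyr.trans hr')
      have hsy : sin y / y ≤ sin x / x := by
        rw [div_le_div_iff₀ hy0 hx0]; (clear * - hratio; linarith)
      have h5 : 1 / (k * sin y) ≤ exp (-(log (k * sin r) / r ^ 2 * x ^ 2)) := by
        rw [exp_neg, ← one_div]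
        apply one_div_le_one_div_of_le (exp_pos _)
        rw [← exp_log (show 0 < k * sin y by (clear * - hs1; linarith))]
        apply exp_le_exp.mpr
        refine le_trans ?_ hc
        apply mul_le_mul_of_nonneg_left (pow_le_pow_left₀ hx hxy 2)
        apply div_nonneg (by (clear * - hL; linarith)) (by positivity)
      have hsy0 : 0 < sin y := by
        by_contra hcon
        push Not at hcon
        (clear * - hx0 h4 hs1 hcon hk hx; nlinarith)
      have h6 : sin y / y * (1 / (k * sin y)) = 100 / 449 := by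
        have : sin y / y * (1 / (k * sin y)) = 1 / (k * y) := by field_simp
        rw [this, hky]; norm_num
      rw [← h6]
      exact mul_le_mul hsy h5 (by positivity) (by positivity)

theorem tail_rest_even {k r x : ℝ} (hk : 8 ≤ k) (hr : 57 / 100 ≤ r) (hr' : r ≤ 3 / 4) (hx : 0 ≤ x)
    (hxr : x ≤ r) :
    |sinc (k * x)| ≤ exp (-(log (k * r) / r ^ 2 * x ^ 2)) := by
  have hk0 : 0 < k := by (clear * - hk; linarith)
  have hr0 : 0 < r := by (clear * - hr; linarith)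
  have hkr : 456 / 100 ≤ k * r := by (clear * - hk hr; nlinarith)
  have hL := tr_half_le_log (show 2 ≤ k * r by (clear * - hkr; linarith))
  rcases le_or_gt (k * x) π with h | h
  · refine (abs_sinc_le_exp (by positivity) h).trans ?_
    apply exp_le_exp.mpr
    apply neg_le_neg
    have h2 := tr_log_le (show 45 / 10 ≤ k * r by (clear * - hkr; linarith))
    have h3 : (k * r) / 4 + 387 / 1000 ≤ (k * r) ^ 2 / 6 := by (clear * - hkr; nlinarith)
    have h4 : log (k * r) / r ^ 2 ≤ k ^ 2 / 6 := by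
      rw [div_le_iff₀ (by positivity)]
      (clear * - h2 h3; nlinarith)
    calc log (k * r) / r ^ 2 * x ^ 2 ≤ k ^ 2 / 6 * x ^ 2 := mul_le_mul_of_nonneg_right h4 (by positivity)
      _ = (k * x) ^ 2 / 6 := by ring
  · have hx0 : 0 < x := by
      by_contra hcon
      push Not at hcon
      have : x = 0 := le_antisymm hcon hx
      rw [this, mul_zero] at h
      have := pi_pos
      (clear * - h this; linarith)
    rcases le_or_gt (449 / 100) (k * x) with h4 | h4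
    · have hc := tr_claim_even hk0 hx0 hxr h4
      refine (abs_sinc_le_inv (by positivity)).trans ?_
      rw [exp_neg, ← one_div]
      apply one_div_le_one_div_of_le (exp_pos _)
      rw [← exp_log (show 0 < k * x by positivity)]
      rw [exp_log (show 0 < k * x by positivity)]
      rw [← exp_log (show 0 < k * x by positivity)]
      exact exp_le_exp.mpr hc
    · set y := 449 / 100 / k with hy
      have hy0 : 0 < y := by positivity
      have hky : k * y = 449 / 100 := by rw [hy]; field_simp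
      have hyr : y ≤ r := by
        rw [hy, div_le_iff₀ hk0]; (clear * - hkr; linarith)
      have hxy : x ≤ y := by
        rw [hy, le_div_iff₀ hk0]; (clear * - h4; linarith)
      have hc := tr_claim_even hk0 hy0 hyr hky.ge
      refine (abs_sinc_le_of_pi_le h.le).trans ?_
      have h5 : 1 / (k * y) ≤ exp (-(log (k * r) / r ^ 2 * x ^ 2)) := by
        rw [exp_neg, ← one_div]
        apply one_div_le_one_div_of_le (exp_pos _)
        calc exp (log (k * r) / r ^ 2 * x ^ 2) ≤ exp (log (k * y)) := by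
              apply exp_le_exp.mpr
              refine le_trans ?_ hc
              apply mul_le_mul_of_nonneg_left (pow_le_pow_left₀ hx hxy 2)
              apply div_nonneg (by (clear * - hL; linarith)) (by positivity)
          _ = k * y := exp_log (by positivity)
      rw [hky] at h5
      norm_num at h5 ⊢
      exact h5

end Pool.Agent.M18.Helper95.SP.Crude
end
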