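import Mathlib
import Pool.Agent.Helper53.AM.G07

/- Helper35.SP.Real -/
section
/-! Project SP: the T3 facts, real-variable part of the box checker.
`S = q + r`, `W = (q - r)^2`; per box only the vertices of the region in `(S, W)` are evaluated. -/

set_option autoImplicit false

open Pool.Agent.M18.Helper89.SP

namespace Pool.Agent.M18.Helper35.SP

/-- `144 (8 q r F - A (al/24 (S - e)^2 + be/24 (1 - c - q^2 - r^2)/3) - κ)` -/
noncomputable def Ev (F A al be κ e c S W : ℝ) : ℝ :=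
  288 * F * (S ^ 2 - W) - 6 * al * A * (S - e) ^ 2 - be * A * (2 * (1 - c) - S ^ 2 - W) - 144 * κ

lemma concave_pos {a b c lo hi x : ℝ} (ha : a ≤ 0) (h1 : 0 < a * lo ^ 2 + b * lo + c)
    (h2 : 0 < a * hi ^ 2 + b * hi + c) (hx1 : lo ≤ x) (hx2 : x ≤ hi) : 0 < a * x ^ 2 + b * x + c := by
  rcases eq_or_lt_of_le hx1 with h | h
  · rw [← h]; exact h1
  rcases eq_or_lt_of_le hx2 with h' | h'
  · rw [h']; exact h2
  have hd : 0 < hi - lo := by (clear * - h h'; linarith)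
  have e1 : (hi - lo) * (a * x ^ 2 + b * x + c) = (hi - x) * (a * lo ^ 2 + b * lo + c) +
      (x - lo) * (a * hi ^ 2 + b * hi + c) + (-a) * ((hi - lo) * ((hi - x) * (x - lo))) := by ring
  have h3 : 0 < (hi - x) * (a * lo ^ 2 + b * lo + c) := mul_pos (by (clear * - h'; linarith)) h1
  have h4 : 0 < (x - lo) * (a * hi ^ 2 + b * hi + c) := mul_pos (by (clear * - h; linarith)) h2
  have h5 : 0 ≤ (-a) * ((hi - lo) * ((hi - x) * (x - lo))) :=
    mul_nonneg (by linarith) (mul_nonneg hd.le (mul_nonneg (by linarith) (by (clear * - h; linarith))))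
  have h6 : 0 < (hi - lo) * (a * x ^ 2 + b * x + c) := by rw [e1]; (clear * - h3 h4 h5; linarith)
  exact (pos_iff_pos_of_mul_pos h6).mp hd

/-- `Ev` is linear in `W` -/
lemma linear_pos {a b W W1 : ℝ} (h0 : 0 < b) (h1 : 0 < a * W1 + b) (hW : 0 ≤ W) (hW1 : W ≤ W1) : 0 < a * W + b := by
  rcases le_or_gt 0 a with ha | ha
  · have := mul_nonneg ha hW; (clear * - h0 this; linarith)
  · have := mul_le_mul_of_nonpos_left hW1 ha.le; (clear * - h1 this; linarith)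

/-- positivity of `Ev` from the vertices -/
lemma Ev_pos {F A al be κ e c lo hi m S W : ℝ} (hA : 0 ≤ A) (hc : be ≤ 3 * al)
    (h1 : 0 < Ev F A al be κ e c lo ((2 * m - lo) ^ 2)) (h2 : 0 < Ev F A al be κ e c hi ((2 * m - hi) ^ 2))
    (h3 : be * A ≤ 288 * F ∨ (288 * F + be * A ≤ 6 * al * A ∧ 0 < Ev F A al be κ e c lo 0 ∧
      0 < Ev F A al be κ e c hi 0))
    (hS1 : lo ≤ S) (hS2 : S ≤ hi) (hW : 0 ≤ W) (hW1 : W ≤ (2 * m - S) ^ 2) : 0 < Ev F A al be κ e c S W := by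
  -- the line `W = (2m - S)^2`
  have hline : 0 < Ev F A al be κ e c S ((2 * m - S) ^ 2) := by
    have hform : ∀ x : ℝ, Ev F A al be κ e c x ((2 * m - x) ^ 2) =
        (2 * be * A - 6 * al * A) * x ^ 2 + (1152 * F * m + 12 * al * A * e - 4 * be * A * m) * x +
          (-(1152 * F * m ^ 2) - 6 * al * A * e ^ 2 - 2 * be * A * (1 - c) + 4 * be * A * m ^ 2 - 144 * κ) := by
      intro x; unfold Ev; ring
    rw [hform] at h1 h2 ⊢
    refine concave_pos ?_ h1 h2 hS1 hS2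
    have := mul_le_mul_of_nonneg_right hc hA
    (clear * - this; linarith)
  rcases h3 with h3 | ⟨h3, h4, h5⟩
  · have e1 : Ev F A al be κ e c S W = Ev F A al be κ e c S ((2 * m - S) ^ 2) +
        (288 * F - be * A) * ((2 * m - S) ^ 2 - W) := by unfold Ev; ring
    rw [e1]
    have : 0 ≤ (288 * F - be * A) * ((2 * m - S) ^ 2 - W) := mul_nonneg (by (clear * - h3; linarith)) (by linarith)
    linarith
  · have hzero : 0 < Ev F A al be κ e c S 0 := by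
      have hform : ∀ x : ℝ, Ev F A al be κ e c x 0 =
          (288 * F - 6 * al * A + be * A) * x ^ 2 + (12 * al * A * e) * x +
            (-(6 * al * A * e ^ 2) - 2 * be * A * (1 - c) - 144 * κ) := by
        intro x; unfold Ev; ring
      rw [hform] at h4 h5 ⊢
      exact concave_pos (by (clear * - h3; linarith)) h4 h5 hS1 hS2
    have e1 : Ev F A al be κ e c S W = (be * A - 288 * F) * W + Ev F A al be κ e c S 0 := by unfold Ev; ring
    have e2 : Ev F A al be κ e c S ((2 * m - S) ^ 2) =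
        (be * A - 288 * F) * (2 * m - S) ^ 2 + Ev F A al be κ e c S 0 := by unfold Ev; ring
    rw [e1]
    rw [e2] at hline
    exact linear_pos hzero hline hW hW1

/-- without the square: monotone in `S` -/
lemma Ev_pos0 {F A be κ c lo m S W : ℝ} (hF : 0 ≤ F) (hA : 0 ≤ A) (hbe : 0 ≤ be) (hm : 0 ≤ m) (hlo : m ≤ lo)
    (h1 : 0 < Ev F A 0 be κ 0 c lo ((2 * m - lo) ^ 2)) (h3 : be * A ≤ 288 * F ∨ 0 < Ev F A 0 be κ 0 c lo 0)
    (hS1 : lo ≤ S) (hW : 0 ≤ W) (hW1 : W ≤ (2 * m - S) ^ 2) : 0 < Ev F A 0 be κ 0 c S W := by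
  have hbA : 0 ≤ be * A := mul_nonneg hbe hA
  have hline : 0 < Ev F A 0 be κ 0 c S ((2 * m - S) ^ 2) := by
    have e1 : Ev F A 0 be κ 0 c S ((2 * m - S) ^ 2) = Ev F A 0 be κ 0 c lo ((2 * m - lo) ^ 2) +
        (S - lo) * (1152 * F * m + be * A * (2 * ((S - m) + (lo - m)))) := by unfold Ev; ring
    rw [e1]
    have h5 : 0 ≤ be * A * (2 * ((S - m) + (lo - m))) := mul_nonneg hbA (by (clear * - hlo hS1; linarith))
    have h6 : 0 ≤ 1152 * F * m := by (clear * - hF hm; positivity)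
    have := mul_nonneg (sub_nonneg.mpr hS1) (by linarith : 0 ≤ 1152 * F * m + be * A * (2 * ((S - m) + (lo - m))))
    (clear * - h1 this; linarith)
  rcases h3 with h3 | h4
  · have e1 : Ev F A 0 be κ 0 c S W = Ev F A 0 be κ 0 c S ((2 * m - S) ^ 2) +
        (288 * F - be * A) * ((2 * m - S) ^ 2 - W) := by unfold Ev; ring
    rw [e1]
    have : 0 ≤ (288 * F - be * A) * ((2 * m - S) ^ 2 - W) := mul_nonneg (by (clear * - h3; linarith)) (by linarith)
    linarith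
  · have hzero : 0 < Ev F A 0 be κ 0 c S 0 := by
      have e1 : Ev F A 0 be κ 0 c S 0 = Ev F A 0 be κ 0 c lo 0 + (288 * F + be * A) * ((S - lo) * (S + lo)) := by
        unfold Ev; ring
      rw [e1]
      have : 0 ≤ (288 * F + be * A) * ((S - lo) * (S + lo)) :=
        mul_nonneg (by (clear * - hF hbA; linarith)) (mul_nonneg (by linarith) (by linarith))
      linarith
    have e1 : Ev F A 0 be κ 0 c S W = (be * A - 288 * F) * W + Ev F A 0 be κ 0 c S 0 := by unfold Ev; ring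
    have e2 : Ev F A 0 be κ 0 c S ((2 * m - S) ^ 2) =
        (be * A - 288 * F) * (2 * m - S) ^ 2 + Ev F A 0 be κ 0 c S 0 := by unfold Ev; ring
    rw [e1]
    rw [e2] at hline
    exact linear_pos hzero hline hW hW1

/-- the K term: `v^3/β^4` is largest at the left end -/
lemma K_le {v β V B0 L S : ℝ} (hv : 0 ≤ v) (hL : 0 ≤ L) (hS : L ≤ S) (hV : 0 < V) (hB : 0 < B0)
    (hvV : v ≤ V - (S ^ 2 - L ^ 2) / 6) (hβ : B0 - (S - L) ≤ β) (hβ0 : 0 < B0 - (S - L))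
    (hLB : 4 * V ≤ L * B0) : v ^ 3 / β ^ 4 ≤ V ^ 3 / B0 ^ 4 := by
  set x := S - L with hx
  have hx0 : 0 ≤ x := by rw [hx]; (clear * - hS; linarith)
  have h1 : v ≤ V - L * x / 3 := by
    have : (S ^ 2 - L ^ 2) / 6 = L * x / 3 + x ^ 2 / 6 := by rw [hx]; ring
    have := sq_nonneg x
    (clear * - hvV this; linarith)
  have hβp : 0 < β := lt_of_lt_of_le hβ0 hβ
  rw [div_le_div_iff₀ (by positivity) (by positivity)]
  -- normalise
  set b := x / B0 with hb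
  have hxb : x = b * B0 := by rw [hb]; (clear * - hB; field_simp)
  have hb0 : 0 ≤ b := by rw [hb]; (clear * - hS hB; positivity)
  have hb1 : b < 1 := by rw [hb, div_lt_one hB]; (clear * - hβ0; linarith)
  have h2 : v ≤ V * (1 - 4 * b / 3) := by
    have h3 : 4 * V * b ≤ L * B0 * b := mul_le_mul_of_nonneg_right hLB hb0
    have h4 : L * x = L * B0 * b := by rw [hxb]; ring
    rw [h4] at h1
    (clear * - h1 h3; linarith)
  have h5 : 0 ≤ 1 - 4 * b / 3 := by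
    by_contra hcon
    rw [not_le] at hcon
    have := mul_neg_of_pos_of_neg hV hcon
    (clear * - hv h2 this; linarith)
  have h6 : (1 - 4 * b / 3) ^ 3 ≤ (1 - b) ^ 4 := by
    have : (1 - b) ^ 4 - (1 - 4 * b / 3) ^ 3 = b ^ 2 * ((b - 22 / 27) ^ 2 + (2/3 - (22/27) ^ 2)) := by ring
    have h7 : 0 ≤ b ^ 2 * ((b - 22 / 27) ^ 2 + (2/3 - (22/27) ^ 2)) := by
      refine mul_nonneg (sq_nonneg _) ?_
      have := sq_nonneg (b - 22 / 27)
      norm_num
      (clear * - this; linarith)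
    (clear * - h7; linarith)
  have h8 : v ^ 3 ≤ (V * (1 - 4 * b / 3)) ^ 3 := pow_le_pow_left₀ hv h2 3
  have h9 : (B0 * (1 - b)) ^ 4 ≤ β ^ 4 := by
    refine pow_le_pow_left₀ (mul_nonneg hB.le (by (clear * - hb1; linarith))) ?_ 4
    have : B0 * (1 - b) = B0 - x := by rw [hxb]; ring
    rw [this]; exact hβ
  calc v ^ 3 * B0 ^ 4 ≤ (V * (1 - 4 * b / 3)) ^ 3 * B0 ^ 4 := mul_le_mul_of_nonneg_right h8 (by positivity)
    _ = V ^ 3 * B0 ^ 4 * (1 - 4 * b / 3) ^ 3 := by ring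
    _ ≤ V ^ 3 * B0 ^ 4 * (1 - b) ^ 4 := mul_le_mul_of_nonneg_left h6 (by positivity)
    _ = V ^ 3 * (B0 * (1 - b)) ^ 4 := by ring
    _ ≤ V ^ 3 * β ^ 4 := mul_le_mul_of_nonneg_left h9 (by positivity)

/-- the vertices for one value of `e` -/
def Vert (F0 A1 al be κ e c lo hi m : ℝ) : Prop :=
  0 < Ev F0 A1 al be κ e c lo ((2 * m - lo) ^ 2) ∧ 0 < Ev F0 A1 al be κ e c hi ((2 * m - hi) ^ 2) ∧
    (be * A1 ≤ 288 * F0 ∨ (288 * F0 + be * A1 ≤ 6 * al * A1 ∧ 0 < Ev F0 A1 al be κ e c lo 0 ∧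
      0 < Ev F0 A1 al be κ e c hi 0))

lemma sq_le_e {S t p T0 T1 P0 P1 : ℝ} (h0 : T0 - P1 ≤ t - p) (h1 : t - p ≤ T1 - P0) :
    (p + S - t) ^ 2 ≤ (S - (T0 - P1)) ^ 2 ∨ (p + S - t) ^ 2 ≤ (S - (T1 - P0)) ^ 2 := by
  rcases le_total (t - p) S with hS | hS
  · left
    refine pow_le_pow_left₀ (by (clear * - hS; linarith)) (by (clear * - h0; linarith)) 2
  · right
    rw [show (p + S - t) ^ 2 = (t - p - S) ^ 2 by ring, show (S - (T1 - P0)) ^ 2 = (T1 - P0 - S) ^ 2 by ring]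
    refine pow_le_pow_left₀ (by linarith) (by linarith) 2

/-- real data of a box -/
structure BoxR (t p q r F T0 T1 P0 P1 L m F0 A1 V B0 G0 : ℝ) : Prop where
  ht0 : T0 ≤ t
  ht1 : t ≤ T1
  hp0 : P0 ≤ p
  hp1 : p ≤ P1
  hP0 : 0 ≤ P0
  hT0 : 0 ≤ T0
  hr : 0 < r
  hrq : r ≤ q
  hqm : q ≤ m
  hsq : p ^ 2 + q ^ 2 + r ^ 2 ≤ 1
  hL : L ≤ q + r
  hL0 : 0 ≤ L
  hF : F0 ≤ F
  hF0 : 0 ≤ F0
  hA : 1 - T0 * P0 ≤ A1
  hA0 : 0 ≤ A1
  hV : (1 - P0 ^ 2 - L ^ 2 / 2) / 3 ≤ V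
  hV0 : 0 < V
  hB : B0 ≤ T0 + P0 - L
  hB0 : 0 < B0
  hBm : 0 < B0 - (2 * m - L)
  hLB : 4 * V ≤ L * B0
  hG : G0 ≤ T0 - P1 + L
  hG0 : 0 < G0

section
variable {t p q r F T0 T1 P0 P1 L m F0 A1 V B0 G0 : ℝ} (h : BoxR t p q r F T0 T1 P0 P1 L m F0 A1 V B0 G0)
include h

lemma BoxR.v0 : 0 ≤ vv p q r := by
  have := h.hsq
  unfold vv
  linarith

lemma BoxR.vle : vv p q r ≤ V - ((q + r) ^ 2 - L ^ 2) / 6 := by
  have h1 := h.hV
  have h2 : P0 ^ 2 ≤ p ^ 2 := pow_le_pow_left₀ h.hP0 h.hp0 2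
  have h3 := sq_nonneg (q - r)
  unfold vv
  (clear * - h1 h2 h3; linarith)

lemma BoxR.vle' : vv p q r ≤ V := by
  have h1 := h.vle
  have h2 : L ^ 2 ≤ (q + r) ^ 2 := pow_le_pow_left₀ h.hL0 h.hL 2
  linarith

lemma BoxR.K1 : Kb (vv p q r) (t + p - q - r) ≤ 0.1647 * (V ^ 3 / B0 ^ 4) := by
  have h1 := K_le (v := vv p q r) (β := t + p - q - r) (V := V) (B0 := B0) (L := L) (S := q + r) h.v0 h.hL0 h.hL
    h.hV0 h.hB0 h.vle (by (clear * - h; linarith [h.hB, h.ht0, h.hp0])) (by (clear * - h; linarith [h.hBm, h.hqm, h.hrq])) h.hLB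
  unfold Kb
  rw [mul_div_assoc]
  exact mul_le_mul_of_nonneg_left h1 (by norm_num)

lemma BoxR.K2 : Kb (vv p q r) (t - p + q + r) ≤ 0.1647 * (V ^ 3 / G0 ^ 4) := by
  unfold Kb
  rw [mul_div_assoc]
  refine mul_le_mul_of_nonneg_left ?_ (by norm_num)
  have hg : G0 ≤ t - p + q + r := by linarith [h.hG, h.ht0, h.hp1, h.hL]
  exact div_le_div₀ (by have := h.hV0; positivity) (pow_le_pow_left₀ h.v0 h.vle' 3) (by have := h.hG0; positivity)
    (pow_le_pow_left₀ h.hG0.le hg 4)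

lemma BoxR.K2nonneg : 0 ≤ Kb (vv p q r) (t - p + q + r) := by
  have := h.v0
  unfold Kb
  (clear * - this; positivity)

lemma BoxR.K1nonneg : 0 ≤ Kb (vv p q r) (t + p - q - r) := by
  have := h.v0
  unfold Kb
  (clear * - this; positivity)

lemma BoxR.Ale : 1 - t * p ≤ A1 := by
  have h1 : T0 * P0 ≤ t * p := mul_le_mul h.ht0 h.hp0 h.hP0 (h.hT0.trans h.ht0)
  linarith [h.hA]

lemma BoxR.qr : 0 < q * r := mul_pos (lt_of_lt_of_le h.hr h.hrq) h.hr

/-- the K terms together -/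
lemma BoxR.Ksum {C C1 κ : ℝ} (hC : C ≤ C1) (hC1 : 0 ≤ C1)
    (hκ : C1 * (0.1647 * (V ^ 3 / B0 ^ 4)) + A1 * (0.1647 * (V ^ 3 / G0 ^ 4)) ≤ κ) :
    C * Kb (vv p q r) (t + p - q - r) + (1 - t * p) * Kb (vv p q r) (t - p + q + r) ≤ κ := by
  have h1 : C * Kb (vv p q r) (t + p - q - r) ≤ C1 * (0.1647 * (V ^ 3 / B0 ^ 4)) :=
    (mul_le_mul_of_nonneg_right hC h.K1nonneg).trans (mul_le_mul_of_nonneg_left h.K1 hC1)
  have h2 : (1 - t * p) * Kb (vv p q r) (t - p + q + r) ≤ A1 * (0.1647 * (V ^ 3 / G0 ^ 4)) :=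
    (mul_le_mul_of_nonneg_right h.Ale h.K2nonneg).trans (mul_le_mul_of_nonneg_left h.K2 h.hA0)
  linarith

/-- the polynomial part -/
lemma BoxR.poly {al be κ e : ℝ} (hal : 0 ≤ al) (hbe : 0 ≤ be) (he : (p + q + r - t) ^ 2 ≤ (q + r - e) ^ 2)
    (hE : 0 < Ev F0 A1 al be κ e (P0 ^ 2) (q + r) ((q - r) ^ 2)) :
    (1 - t * p) * ((p + q + r - t) ^ 2 * (al / 24) + vv p q r * (be / 24)) + κ < 8 * (q * r) * F := by
  have h1 : (p + q + r - t) ^ 2 * (al / 24) + vv p q r * (be / 24) ≤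
      (q + r - e) ^ 2 * (al / 24) + (1 - P0 ^ 2 - q ^ 2 - r ^ 2) / 3 * (be / 24) := by
    have h2 : P0 ^ 2 ≤ p ^ 2 := pow_le_pow_left₀ h.hP0 h.hp0 2
    have h3 : vv p q r ≤ (1 - P0 ^ 2 - q ^ 2 - r ^ 2) / 3 := by unfold vv; linarith
    have h4 := mul_le_mul_of_nonneg_right he (by (clear * - hal; positivity) : 0 ≤ al / 24)
    have h5 := mul_le_mul_of_nonneg_right h3 (by positivity : 0 ≤ be / 24)
    linarith
  have h0 : 0 ≤ (p + q + r - t) ^ 2 * (al / 24) + vv p q r * (be / 24) := by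
    have := h.v0
    (clear * - hal this hbe; positivity)
  have h2 : (1 - t * p) * ((p + q + r - t) ^ 2 * (al / 24) + vv p q r * (be / 24)) ≤
      A1 * ((q + r - e) ^ 2 * (al / 24) + (1 - P0 ^ 2 - q ^ 2 - r ^ 2) / 3 * (be / 24)) :=
    (mul_le_mul_of_nonneg_right h.Ale h0).trans (mul_le_mul_of_nonneg_left h1 h.hA0)
  have h3 : 8 * (q * r) * F0 ≤ 8 * (q * r) * F := mul_le_mul_of_nonneg_left h.hF (by have := h.qr; positivity)
  have h4 : Ev F0 A1 al be κ e (P0 ^ 2) (q + r) ((q - r) ^ 2) =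
      144 * (8 * (q * r) * F0 - A1 * ((q + r - e) ^ 2 * (al / 24) +
        (1 - P0 ^ 2 - q ^ 2 - r ^ 2) / 3 * (be / 24)) - κ) := by unfold Ev; ring
  rw [h4] at hE
  (clear * - hE h2 h3; linarith)

lemma BoxR.W1 (hS : q + r ≤ 2 * m) : (q - r) ^ 2 ≤ (2 * m - (q + r)) ^ 2 := by
  refine pow_le_pow_left₀ (by (clear * - h; linarith [h.hrq])) ?_ 2
  (clear * - h; linarith [h.hqm])

/-- first alternative -/
lemma BoxR.gi {C1 κ : ℝ} (hC : 4 * (T1 * P1) - 2 ≤ C1) (hC1 : 0 ≤ C1)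
    (hκ : C1 * (0.1647 * (V ^ 3 / B0 ^ 4)) + A1 * (0.1647 * (V ^ 3 / G0 ^ 4)) ≤ κ)
    (h1 : Vert F0 A1 24 24 κ (T0 - P1) (P0 ^ 2) L (2 * m) m) (h2 : Vert F0 A1 24 24 κ (T1 - P0) (P0 ^ 2) L (2 * m) m) :
    Gi t p q r < 8 * (q * r) * F := by
  have hT1 : t * p ≤ T1 * P1 := mul_le_mul h.ht1 h.hp1 (h.hP0.trans h.hp0) ((h.hT0.trans h.ht0).trans h.ht1)
  have hcc : max (4 * (t * p) - 2) 0 ≤ C1 := max_le (by (clear * - hC hT1; linarith)) hC1
  have hK := h.Ksum hcc hC1 hκ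
  have hS : q + r ≤ 2 * m := by (clear * - h; linarith [h.hqm, h.hrq])
  have key : ∀ e : ℝ, (p + q + r - t) ^ 2 ≤ (q + r - e) ^ 2 → Vert F0 A1 24 24 κ e (P0 ^ 2) L (2 * m) m →
      Gi t p q r < 8 * (q * r) * F := by
    intro e he hv
    have hE := Ev_pos (m := m) h.hA0 (by norm_num) hv.1 hv.2.1 hv.2.2 h.hL hS (sq_nonneg (q - r)) (h.W1 hS)
    have := h.poly (al := 24) (be := 24) (by norm_num) (by norm_num) he hE
    unfold Gi
    have e1 : (p + q + r - t) ^ 2 * (24 / 24) + vv p q r * (24 / 24) = (p + q + r - t) ^ 2 + vv p q r := by ring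
    rw [e1] at this
    (clear * - hK this; linarith)
  rcases sq_le_e (S := q + r) (t := t) (p := p) (T0 := T0) (T1 := T1) (P0 := P0) (P1 := P1)
    (by (clear * - h; linarith [h.ht0, h.hp1])) (by (clear * - h; linarith [h.ht1, h.hp0])) with he | he
  · exact key _ (by rw [show p + q + r - t = p + (q + r) - t by ring]; exact he) h1
  · exact key _ (by rw [show p + q + r - t = p + (q + r) - t by ring]; exact he) h2

/-- second alternative -/
lemma BoxR.gii {C1 κ lo al be k : ℝ} (hk : 0 < k) (hal : al / 24 = 1 + k / 2) (hbe : be / 24 = 1 / 2 + 1 / (2 * k))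
    (hcc : be ≤ 3 * al) (hC : 3 * (T1 * P1) - 1 ≤ C1) (hC1 : 0 ≤ C1)
    (hκ : C1 * (0.1647 * (V ^ 3 / B0 ^ 4)) + A1 * (0.1647 * (V ^ 3 / G0 ^ 4)) ≤ κ)
    (hlo : lo ≤ q + r) (hst : t ≤ p + q + r)
    (h1 : Vert F0 A1 al be κ (T0 - P1) (P0 ^ 2) lo (2 * m) m) :
    Gii k t p q r < 8 * (q * r) * F := by
  have hT1 : t * p ≤ T1 * P1 := mul_le_mul h.ht1 h.hp1 (h.hP0.trans h.hp0) ((h.hT0.trans h.ht0).trans h.ht1)
  have hK := h.Ksum (C := 3 * (t * p) - 1) (by (clear * - hC hT1; linarith)) hC1 hκ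
  have hS : q + r ≤ 2 * m := by (clear * - h; linarith [h.hqm, h.hrq])
  have hal0 : 0 ≤ al := by
    have : al = 24 * (1 + k / 2) := by rw [← hal]; ring
    rw [this]; (clear * - hk; positivity)
  have hbe0 : 0 ≤ be := by
    have : be = 24 * (1 / 2 + 1 / (2 * k)) := by rw [← hbe]; ring
    rw [this]; (clear * - hk; positivity)
  have he : (p + q + r - t) ^ 2 ≤ (q + r - (T0 - P1)) ^ 2 :=
    pow_le_pow_left₀ (by (clear * - hst; linarith)) (by (clear * - h; linarith [h.ht0, h.hp1])) 2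
  have hE := Ev_pos (m := m) h.hA0 hcc h1.1 h1.2.1 h1.2.2 hlo hS (sq_nonneg (q - r)) (h.W1 hS)
  have := h.poly hal0 hbe0 he hE
  unfold Gii
  rw [hal, hbe] at this
  (clear * - hK this; linarith)

/-- third alternative -/
lemma BoxR.giii {C1 κ : ℝ} (hC : 3 * (T1 * P1) - 1 ≤ C1) (hC1 : 0 ≤ C1)
    (hκ : C1 * (0.1647 * (V ^ 3 / B0 ^ 4)) + A1 * (0.1647 * (V ^ 3 / G0 ^ 4)) ≤ κ) (hmL : m ≤ L)
    (h1 : 0 < Ev F0 A1 0 12 κ 0 (P0 ^ 2) L ((2 * m - L) ^ 2))
    (h3 : 12 * A1 ≤ 288 * F0 ∨ 0 < Ev F0 A1 0 12 κ 0 (P0 ^ 2) L 0) :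
    Giii t p q r < 8 * (q * r) * F := by
  have hT1 : t * p ≤ T1 * P1 := mul_le_mul h.ht1 h.hp1 (h.hP0.trans h.hp0) ((h.hT0.trans h.ht0).trans h.ht1)
  have hK := h.Ksum (C := 3 * (t * p) - 1) (by (clear * - hC hT1; linarith)) hC1 hκ
  have hS : q + r ≤ 2 * m := by (clear * - h; linarith [h.hqm, h.hrq])
  have hm0 : 0 ≤ m := by (clear * - hS h; linarith [h.hr, h.hrq, h.hqm])
  have hE := Ev_pos0 h.hF0 h.hA0 (by norm_num : (0:ℝ) ≤ 12) hm0 hmL h1 h3 h.hL (sq_nonneg (q - r)) (h.W1 hS)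
  have h1' : vv p q r * (12 / 24) ≤ (1 - P0 ^ 2 - q ^ 2 - r ^ 2) / 3 * (12 / 24) := by
    have h2 : P0 ^ 2 ≤ p ^ 2 := pow_le_pow_left₀ h.hP0 h.hp0 2
    have h3 : vv p q r ≤ (1 - P0 ^ 2 - q ^ 2 - r ^ 2) / 3 := by unfold vv; (clear * - h2; linarith)
    (clear * - h3; linarith)
  have h0 : 0 ≤ vv p q r * (12 / 24) := by
    have := h.v0
    (clear * - this; positivity)
  have h2 : (1 - t * p) * (vv p q r * (12 / 24)) ≤
      A1 * ((1 - P0 ^ 2 - q ^ 2 - r ^ 2) / 3 * (12 / 24)) :=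
    (mul_le_mul_of_nonneg_right h.Ale h0).trans (mul_le_mul_of_nonneg_left h1' h.hA0)
  have h4 : 8 * (q * r) * F0 ≤ 8 * (q * r) * F := mul_le_mul_of_nonneg_left h.hF (by have := h.qr; positivity)
  have h5 : Ev F0 A1 0 12 κ 0 (P0 ^ 2) (q + r) ((q - r) ^ 2) =
      144 * (8 * (q * r) * F0 - A1 * ((1 - P0 ^ 2 - q ^ 2 - r ^ 2) / 3 * (12 / 24)) - κ) := by unfold Ev; ring
  rw [h5] at hE
  unfold Giii
  have e1 : (1 - t * p) * (vv p q r / 2) = (1 - t * p) * (vv p q r * (12 / 24)) := by ring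
  rw [e1]
  linarith

end

end Pool.Agent.M18.Helper35.SP
end

/- Helper35.SP.Box -/
section
/-! Project SP: the T3 facts, the integer box checker and its soundness. -/

set_option autoImplicit false

open Pool.Agent.M18.Helper89.SP

namespace Pool.Agent.M18.Helper35.SP

/-- the scale -/
def NN : ℕ := 10000000

lemma NN_cast : ((NN : ℕ) : ℝ) = 10000000 := by norm_num [NN]

lemma NN_pos : (0:ℝ) < (NN : ℕ) := by rw [NN_cast]; norm_num

lemma up_ge (x : ℕ) {y : ℕ} (hy : 0 < y) : (x : ℝ) / y ≤ ((x / y : ℕ) : ℝ) + 1 := by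
  have hy' : (0:ℝ) < y := by exact_mod_cast hy
  rw [div_le_iff₀ hy']
  have h1 : x ≤ (x / y + 1) * y := by
    have := Nat.div_add_mod x y
    have h2 := Nat.mod_lt x hy
    have h3 : (x / y + 1) * y = y * (x / y) + y := by ring
    omega
  exact_mod_cast h1

/-- `0 < Ev`, scaled -/
def evOK (f a al be κ e c s w : ℕ) : Bool :=
  Nat.blt (288 * f * w + 6 * al * a * (s * s + e * e) + 2 * be * a * (NN * NN - c) + 144 * κ * (NN * NN))
    (288 * f * (s * s) + be * a * (s * s + w) + 12 * al * a * s * e)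

lemma evOK_pos {f a al be κ e c s w : ℕ} (h : evOK f a al be κ e c s w = true) :
    0 < Ev ((f : ℝ) / NN) ((a : ℝ) / NN) al be ((κ : ℝ) / NN) ((e : ℝ) / NN) ((c : ℝ) / NN ^ 2) ((s : ℝ) / NN)
      ((w : ℝ) / NN ^ 2) := by
  have hn := NN_pos
  have h1 : 288 * f * w + 6 * al * a * (s * s + e * e) + 2 * be * a * (NN * NN - c) + 144 * κ * (NN * NN) <
      288 * f * (s * s) + be * a * (s * s + w) + 12 * al * a * s * e := by
    unfold evOK at h
    simpa [Nat.blt_eq] using h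
  have h2 : 288 * (f:ℝ) * w + 6 * al * a * (s * s + e * e) + 2 * be * a * (NN * NN - c) + 144 * κ * (NN * NN) <
      288 * f * (s * s) + be * a * (s * s + w) + 12 * al * a * s * e := by
    have h3 : ((NN:ℝ) * NN - c) ≤ ((NN * NN - c : ℕ) : ℝ) := by
      have : NN * NN ≤ (NN * NN - c) + c := by omega
      have h4 : ((NN * NN : ℕ) : ℝ) ≤ ((NN * NN - c : ℕ) : ℝ) + (c : ℝ) := by exact_mod_cast this
      push_cast at h4 ⊢
      (clear * - h4; linarith)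
    have h4 : (288 * (f:ℝ) * w + 6 * al * a * (s * s + e * e) + 2 * be * a * ((NN * NN - c : ℕ) : ℝ) +
        144 * κ * (NN * NN)) < 288 * f * (s * s) + be * a * (s * s + w) + 12 * al * a * s * e := by
      exact_mod_cast h1
    have h5 : 2 * (be:ℝ) * a * (NN * NN - c) ≤ 2 * be * a * ((NN * NN - c : ℕ) : ℝ) :=
      mul_le_mul_of_nonneg_left h3 (by positivity)
    (clear * - h4 h5; linarith)
  have h3 : Ev ((f : ℝ) / NN) ((a : ℝ) / NN) al be ((κ : ℝ) / NN) ((e : ℝ) / NN) ((c : ℝ) / NN ^ 2) ((s : ℝ) / NN)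
      ((w : ℝ) / NN ^ 2) = ((288 * f * (s * s) + be * a * (s * s + w) + 12 * al * a * s * e) -
        (288 * (f:ℝ) * w + 6 * al * a * (s * s + e * e) + 2 * be * a * (NN * NN - c) + 144 * κ * (NN * NN))) /
          (NN : ℝ) ^ 3 := by
    unfold Ev
    field_simp
    ring
  rw [h3]
  exact div_pos (by (clear * - h2; linarith)) (by positivity)

/-- the vertices -/
def vert (f a al be κ e c lo hi m : ℕ) : Bool :=
  evOK f a al be κ e c lo ((2 * m - lo) * (2 * m - lo)) && evOK f a al be κ e c hi ((2 * m - hi) * (2 * m - hi)) &&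
    (Nat.ble (be * a) (288 * f) || (Nat.ble (288 * f + be * a) (6 * al * a) && evOK f a al be κ e c lo 0 &&
      evOK f a al be κ e c hi 0))

lemma vert_sound {f a al be κ e c lo hi m : ℕ} (hlo : lo ≤ 2 * m) (hhi : hi ≤ 2 * m)
    (h : vert f a al be κ e c lo hi m = true) :
    Vert ((f : ℝ) / NN) ((a : ℝ) / NN) al be ((κ : ℝ) / NN) ((e : ℝ) / NN) ((c : ℝ) / NN ^ 2) ((lo : ℝ) / NN)
      ((hi : ℝ) / NN) ((m : ℝ) / NN) := by
  have hn := NN_pos
  unfold vert at h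
  simp only [Bool.and_eq_true, Bool.or_eq_true, Nat.ble_eq] at h
  obtain ⟨⟨h1, h2⟩, h3⟩ := h
  have hw : ∀ x : ℕ, x ≤ 2 * m →
      (2 * ((m : ℝ) / NN) - (x : ℝ) / NN) ^ 2 = (((2 * m - x) * (2 * m - x) : ℕ) : ℝ) / NN ^ 2 := by
    intro x hx
    rw [Nat.cast_mul, Nat.cast_sub hx]
    push_cast
    field_simp
  have h0 : ((0 : ℕ) : ℝ) / (NN : ℝ) ^ 2 = 0 := by simp
  refine ⟨?_, ?_, ?_⟩
  · rw [hw lo hlo]; exact evOK_pos h1
  · rw [hw hi hhi]; exact evOK_pos h2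
  · rcases h3 with h3 | ⟨⟨h3, h4⟩, h5⟩
    · left
      have : (be : ℝ) * a ≤ 288 * f := by exact_mod_cast h3
      have e1 : (be : ℝ) * ((a : ℝ) / NN) = (be * a) / NN := by ring
      have e2 : 288 * ((f : ℝ) / NN) = (288 * f) / NN := by ring
      rw [e1, e2]
      exact div_le_div_of_nonneg_right this hn.le
    · right
      refine ⟨?_, ?_, ?_⟩
      · have : 288 * (f : ℝ) + be * a ≤ 6 * al * a := by exact_mod_cast h3
        have e1 : 288 * ((f : ℝ) / NN) + (be : ℝ) * ((a : ℝ) / NN) = (288 * f + be * a) / NN := by ring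
        have e2 : 6 * (al : ℝ) * ((a : ℝ) / NN) = (6 * al * a) / NN := by ring
        rw [e1, e2]
        exact div_le_div_of_nonneg_right this hn.le
      · have := evOK_pos h4
        rw [h0] at this; exact this
      · have := evOK_pos h5
        rw [h0] at this; exact this

/-- one box, after the quantities are computed -/
def core (f a V B G C1 C2 l m t0 t1 p0 p1 : ℕ) : Bool :=
  Nat.ble (4 * V * NN) (l * B) && Nat.blt (2 * m - l) B && Nat.blt 0 G && Nat.ble p1 t0 && Nat.ble p0 t1 &&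
  ((vert f a 24 24 (C1 * 1647000 * V ^ 3 / B ^ 4 + a * 1647000 * V ^ 3 / G ^ 4 + 2) (t0 - p1) (p0 * p0) l (2 * m) m &&
    vert f a 24 24 (C1 * 1647000 * V ^ 3 / B ^ 4 + a * 1647000 * V ^ 3 / G ^ 4 + 2) (t1 - p0) (p0 * p0) l (2 * m) m) ||
  (((Nat.blt (t1 - p0) l ||
    (Nat.ble m l && evOK f a 0 12 (C2 * 1647000 * V ^ 3 / B ^ 4 + a * 1647000 * V ^ 3 / G ^ 4 + 2) 0 (p0 * p0) l
      ((2 * m - l) * (2 * m - l)) && (Nat.ble (12 * a) (288 * f) ||
        evOK f a 0 12 (C2 * 1647000 * V ^ 3 / B ^ 4 + a * 1647000 * V ^ 3 / G ^ 4 + 2) 0 (p0 * p0) l 0))) &&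
    (Nat.blt (2 * m) (max l (t0 - p1)) || [(27, 60), (30, 36), (36, 24), (42, 20), (48, 18), (60, 16), (72, 15)].any
      (fun x => vert f a x.1 x.2 (C2 * 1647000 * V ^ 3 / B ^ 4 + a * 1647000 * V ^ 3 / G ^ 4 + 2) (t0 - p1) (p0 * p0)
        (max l (t0 - p1)) (2 * m) m)))))

/-- one box -/
def leaf (a0 a1 : ℕ) (fF : ℕ → ℕ) (tp : Bool) (t0 t1 p0 p1 : ℕ) : Bool :=
  let l := (a0 - a1 * p1) / 10
  let m := min p1 (t1 - p0)
  Nat.blt (2 * m) l || Nat.blt (2 * NN * NN) (2 * p0 * p0 + l * l) || (tp && Nat.ble (NN * NN) (t0 * p0)) ||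
    core (fF t1) (NN - t0 * p0 / NN) ((2 * NN * NN - 2 * p0 * p0 - l * l) / (6 * NN) + 1) (t0 + p0 - l)
      (t0 + l - p1) (4 * t1 * p1 / NN + 1 - 2 * NN) (3 * t1 * p1 / NN + 1 - NN) l m t0 t1 p0 p1

/-- bisection of the longer side -/
def chk (leaf : ℕ → ℕ → ℕ → ℕ → Bool) (fuel : ℕ) : ℕ → ℕ → ℕ → ℕ → Bool :=
  Nat.rec (fun _ _ _ _ => false) (fun _ ih t0 t1 p0 p1 =>
    bif leaf t0 t1 p0 p1 then true else
    bif Nat.blt (p1 - p0) (t1 - t0) then
      ih t0 ((t0 + t1) / 2) p0 p1 && ih ((t0 + t1) / 2) t1 p0 p1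
    else ih t0 t1 p0 ((p0 + p1) / 2) && ih t0 t1 ((p0 + p1) / 2) p1) fuel

lemma chk_sound {leaf : ℕ → ℕ → ℕ → ℕ → Bool} {Q : ℝ → ℝ → Prop}
    (hleaf : ∀ t0 t1 p0 p1 : ℕ, leaf t0 t1 p0 p1 = true → ∀ t p : ℝ, (t0 : ℝ) / NN ≤ t → t ≤ (t1 : ℝ) / NN →
      (p0 : ℝ) / NN ≤ p → p ≤ (p1 : ℝ) / NN → Q t p) (fuel : ℕ) :
    ∀ t0 t1 p0 p1 : ℕ, chk leaf fuel t0 t1 p0 p1 = true → ∀ t p : ℝ, (t0 : ℝ) / NN ≤ t → t ≤ (t1 : ℝ) / NN →
      (p0 : ℝ) / NN ≤ p → p ≤ (p1 : ℝ) / NN → Q t p := by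
  induction fuel with
  | zero =>
    intro t0 t1 p0 p1 h
    simp [chk] at h
  | succ k ih =>
    intro t0 t1 p0 p1 h t p h1 h2 h3 h4
    have hu : chk leaf (k + 1) t0 t1 p0 p1 = (bif leaf t0 t1 p0 p1 then true else
      bif Nat.blt (p1 - p0) (t1 - t0) then
        chk leaf k t0 ((t0 + t1) / 2) p0 p1 && chk leaf k ((t0 + t1) / 2) t1 p0 p1
      else chk leaf k t0 t1 p0 ((p0 + p1) / 2) && chk leaf k t0 t1 ((p0 + p1) / 2) p1) := rfl
    rw [hu] at h
    cases hl : leaf t0 t1 p0 p1 with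
    | true => exact hleaf _ _ _ _ hl t p h1 h2 h3 h4
    | false =>
      rw [hl, cond_false] at h
      cases hb : Nat.blt (p1 - p0) (t1 - t0) with
      | true =>
        rw [hb, cond_true, Bool.and_eq_true] at h
        rcases le_total t (((((t0 + t1) / 2 : ℕ)) : ℝ) / NN) with hm | hm
        · exact ih _ _ _ _ h.1 t p h1 hm h3 h4
        · exact ih _ _ _ _ h.2 t p hm h2 h3 h4
      | false =>
        rw [hb, cond_false, Bool.and_eq_true] at h
        rcases le_total p (((((p0 + p1) / 2 : ℕ)) : ℝ) / NN) with hm | hm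
        · exact ih _ _ _ _ h.1 t p h1 h2 h3 hm
        · exact ih _ _ _ _ h.2 t p h1 h2 hm h4

end Pool.Agent.M18.Helper35.SP
end

/- Helper35.SP.Sound -/
section
/-! Project SP: the T3 facts, soundness of the integer box checker. -/

set_option autoImplicit false

open Pool.Agent.M18.Helper89.SP

namespace Pool.Agent.M18.Helper35.SP

/-- the hypotheses on `t, p, q, r` -/
structure Hyp (a0 a1 : ℕ) (tp : Bool) (t p q r : ℝ) : Prop where
  hr : 0 < r
  hrq : r ≤ q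
  hqp : q ≤ p
  hpq : p + q ≤ t
  hsq : p ^ 2 + q ^ 2 + r ^ 2 ≤ 1
  hS : ((a0 : ℝ) / NN - a1 * p) / 10 ≤ q + r
  htp : tp = true → t * p < 1

lemma sub_ge (x y : ℕ) : (x : ℝ) - y ≤ ((x - y : ℕ) : ℝ) := by
  have : x ≤ (x - y) + y := by omega
  have h : (x : ℝ) ≤ ((x - y : ℕ) : ℝ) + y := by exact_mod_cast this
  (clear * - h; linarith)

lemma kap_ok (C a V B G : ℕ) (hB : 0 < B) (hG : 0 < G) :
    ((C : ℝ) / NN) * (0.1647 * (((V : ℝ) / NN) ^ 3 / ((B : ℝ) / NN) ^ 4)) +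
      ((a : ℝ) / NN) * (0.1647 * (((V : ℝ) / NN) ^ 3 / ((G : ℝ) / NN) ^ 4)) ≤
      ((C * 1647000 * V ^ 3 / B ^ 4 + a * 1647000 * V ^ 3 / G ^ 4 + 2 : ℕ) : ℝ) / NN := by
  have hn := NN_pos
  have hBr : (0:ℝ) < B := by exact_mod_cast hB
  have hGr : (0:ℝ) < G := by exact_mod_cast hG
  have key : ∀ (x y : ℝ), 0 < y → (x / NN) * (0.1647 * (((V : ℝ) / NN) ^ 3 / (y / NN) ^ 4)) =
      (x * 1647000 * (V : ℝ) ^ 3 / y ^ 4) / NN := by
    intro x y hy
    have h1 : (0.1647 : ℝ) = 1647000 / NN := by rw [NN_cast]; norm_num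
    rw [h1]
    (clear * - hy hn; field_simp)
  rw [key _ _ hBr, key _ _ hGr, ← add_div]
  refine div_le_div_of_nonneg_right ?_ hn.le
  have h1 := up_ge (C * 1647000 * V ^ 3) (y := B ^ 4) (by positivity)
  have h2 := up_ge (a * 1647000 * V ^ 3) (y := G ^ 4) (by positivity)
  push_cast at h1 h2 ⊢
  (clear * - h1 h2; linarith)

lemma kset {x : ℕ × ℕ}
    (hx : x ∈ [((27 : ℕ), (60 : ℕ)), (30, 36), (36, 24), (42, 20), (48, 18), (60, 16), (72, 15)]) :
    ∃ k : ℝ, 0 < k ∧ (x.1 : ℝ) / 24 = 1 + k / 2 ∧ (x.2 : ℝ) / 24 = 1 / 2 + 1 / (2 * k) ∧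
      (x.2 : ℝ) ≤ 3 * (x.1 : ℝ) := by
  simp only [List.mem_cons, List.not_mem_nil, or_false] at hx
  rcases hx with h | h | h | h | h | h | h <;> subst h
  · exact ⟨1 / 4, by norm_num, by norm_num, by norm_num, by norm_num⟩
  · exact ⟨1 / 2, by norm_num, by norm_num, by norm_num, by norm_num⟩
  · exact ⟨1, by norm_num, by norm_num, by norm_num, by norm_num⟩
  · exact ⟨3 / 2, by norm_num, by norm_num, by norm_num, by norm_num⟩
  · exact ⟨2, by norm_num, by norm_num, by norm_num, by norm_num⟩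
  · exact ⟨3, by norm_num, by norm_num, by norm_num, by norm_num⟩
  · exact ⟨4, by norm_num, by norm_num, by norm_num, by norm_num⟩

lemma core_sound {f a V B G C1 C2 l m t0 t1 p0 p1 : ℕ} {t p q r F : ℝ}
    (h : core f a V B G C1 C2 l m t0 t1 p0 p1 = true)
    (hb : BoxR t p q r F ((t0 : ℝ) / NN) ((t1 : ℝ) / NN) ((p0 : ℝ) / NN) ((p1 : ℝ) / NN) ((l : ℝ) / NN)
      ((m : ℝ) / NN) ((f : ℝ) / NN) ((a : ℝ) / NN) ((V : ℝ) / NN) ((B : ℝ) / NN) ((G : ℝ) / NN))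
    (hl : l ≤ 2 * m)
    (hC1 : 4 * ((t1 : ℝ) / NN * ((p1 : ℝ) / NN)) - 2 ≤ (C1 : ℝ) / NN)
    (hC2 : 3 * ((t1 : ℝ) / NN * ((p1 : ℝ) / NN)) - 1 ≤ (C2 : ℝ) / NN) : Beats t p q r F := by
  have hn := NN_pos
  unfold core at h
  simp only [Bool.and_eq_true, Bool.or_eq_true, Nat.ble_eq, Nat.blt_eq] at h
  obtain ⟨⟨⟨⟨⟨hVB, hmB⟩, hG0⟩, hpt⟩, hpt'⟩, h⟩ := h
  have hB0 : 0 < B := by omega
  have hk1 := kap_ok C1 a V B G hB0 hG0
  have hk2 := kap_ok C2 a V B G hB0 hG0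
  have hc : ((p0 : ℝ) / NN) ^ 2 = ((p0 * p0 : ℕ) : ℝ) / NN ^ 2 := by push_cast; (clear * - hn; field_simp)
  have hm2 : 2 * ((m : ℝ) / NN) = ((2 * m : ℕ) : ℝ) / NN := by push_cast; ring
  have he1 : (t0 : ℝ) / NN - (p1 : ℝ) / NN = ((t0 - p1 : ℕ) : ℝ) / NN := by
    rw [Nat.cast_sub hpt]; ring
  have he2 : (t1 : ℝ) / NN - (p0 : ℝ) / NN = ((t1 - p0 : ℕ) : ℝ) / NN := by
    rw [Nat.cast_sub hpt']; ring
  have hC1' : (0 : ℝ) ≤ (C1 : ℝ) / NN := by (clear * - hn; positivity)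
  have hC2' : (0 : ℝ) ≤ (C2 : ℝ) / NN := by (clear * - hn; positivity)
  have hqr2 : q + r ≤ 2 * ((m : ℝ) / NN) := by (clear * - hb; linarith [hb.hqm, hb.hrq])
  rcases h with ⟨h1, h2⟩ | ⟨h3, h2⟩
  · left
    have v1 := vert_sound hl le_rfl h1
    have v2 := vert_sound hl le_rfl h2
    refine hb.gi hC1 hC1' hk1 ?_ ?_
    · rw [he1, hc, hm2]; simpa using v1
    · rw [he2, hc, hm2]; simpa using v2
  · right
    rcases le_total t (p + q + r) with hst | hst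
    · left
      refine ⟨by (clear * - hst; linarith), ?_⟩
      have hlow1 : (l : ℝ) / NN ≤ q + r := hb.hL
      have hlow2 : ((t0 - p1 : ℕ) : ℝ) / NN ≤ q + r := by
        rw [← he1]; (clear * - hst hb; linarith [hb.ht0, hb.hp1])
      have hlow : ((max l (t0 - p1) : ℕ) : ℝ) / NN ≤ q + r := by
        rcases max_choice l (t0 - p1) with hx | hx <;> rw [hx] <;> assumption
      rcases h2 with h2 | h2
      · exfalso
        have h4 : ((2 * m : ℕ) : ℝ) / NN < ((max l (t0 - p1) : ℕ) : ℝ) / NN :=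
          div_lt_div_of_pos_right (by exact_mod_cast h2) hn
        rw [← hm2] at h4
        (clear * - hqr2 hlow h4; linarith)
      · rw [List.any_eq_true] at h2
        obtain ⟨x, hx, hv⟩ := h2
        obtain ⟨k, hk, hk1', hk2', hk3⟩ := kset hx
        refine ⟨k, hk, ?_⟩
        have hmax : max l (t0 - p1) ≤ 2 * m := by
          have h4 : ((max l (t0 - p1) : ℕ) : ℝ) / NN ≤ ((2 * m : ℕ) : ℝ) / NN := by
            rw [← hm2]; (clear * - hqr2 hlow; linarith)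
          have h5 := (div_le_div_iff_of_pos_right hn).mp h4
          exact_mod_cast h5
        have v := vert_sound hmax le_rfl hv
        refine hb.gii hk hk1' hk2' hk3 hC2 hC2' hk2 hlow hst ?_
        rw [he1, hc, hm2]
        exact v
    · right
      refine ⟨by (clear * - hst; linarith), ?_⟩
      rcases h3 with h3 | ⟨⟨hml, h4⟩, h5⟩
      · exfalso
        have h4 : ((t1 - p0 : ℕ) : ℝ) / NN < (l : ℝ) / NN :=
          div_lt_div_of_pos_right (by exact_mod_cast h3) hn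
        rw [← he2] at h4
        (clear * - hst h4 hb; linarith [hb.hL, hb.ht1, hb.hp0])
      · have hw : (2 * ((m : ℝ) / NN) - (l : ℝ) / NN) ^ 2 = (((2 * m - l) * (2 * m - l) : ℕ) : ℝ) / NN ^ 2 := by
          rw [Nat.cast_mul, Nat.cast_sub hl]
          push_cast
          (clear * - hn; field_simp)
        refine hb.giii hC2 hC2' hk2 ?_ ?_ ?_
        · exact div_le_div_of_nonneg_right (by exact_mod_cast hml) hn.le
        · have := evOK_pos h4
          rw [hc, hw]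
          simpa using this
        · rcases h5 with h5 | h5
          · left
            have h6 : (12 : ℝ) * a ≤ 288 * f := by exact_mod_cast h5
            have e1 : (12 : ℝ) * ((a : ℝ) / NN) = (12 * a) / NN := by ring
            have e2 : 288 * ((f : ℝ) / NN) = (288 * f) / NN := by ring
            rw [e1, e2]
            exact div_le_div_of_nonneg_right h6 hn.le
          · right
            have := evOK_pos h5
            rw [hc]
            simpa using this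

lemma leaf_sound {a0 a1 : ℕ} {fF : ℕ → ℕ} {tp : Bool} {F : ℝ → ℝ} {R : ℝ → Prop} {t0 t1 p0 p1 : ℕ}
    (hF : ∀ (t1 : ℕ) (t : ℝ), R t → t ≤ (t1 : ℝ) / NN → ((fF t1 : ℕ) : ℝ) / NN ≤ F t)
    (h : leaf a0 a1 fF tp t0 t1 p0 p1 = true) {t p q r : ℝ} (hR : R t) (hy : Hyp a0 a1 tp t p q r)
    (ht0 : (t0 : ℝ) / NN ≤ t) (ht1 : t ≤ (t1 : ℝ) / NN) (hp0 : (p0 : ℝ) / NN ≤ p) (hp1 : p ≤ (p1 : ℝ) / NN) :
    Beats t p q r (F t) := by
  have hn := NN_pos
  have hp0' : (0 : ℝ) ≤ (p0 : ℝ) / NN := by (clear * - hn; positivity)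
  have ht0' : (0 : ℝ) ≤ (t0 : ℝ) / NN := by (clear * - hn; positivity)
  have hq0 : 0 < q := lt_of_lt_of_le hy.hr hy.hrq
  unfold leaf at h
  simp only [Bool.and_eq_true, Bool.or_eq_true, Nat.ble_eq, Nat.blt_eq] at h
  set l := (a0 - a1 * p1) / 10 with hl
  set m := min p1 (t1 - p0) with hm
  have hLr : (l : ℝ) / NN ≤ q + r := by
    rcases le_total (a1 * p1) a0 with hle | hle
    · have h1 : (l : ℝ) ≤ ((a0 - a1 * p1 : ℕ) : ℝ) / 10 := by
        have : ((( a0 - a1 * p1) / 10 : ℕ) : ℝ) ≤ ((a0 - a1 * p1 : ℕ) : ℝ) / ((10 : ℕ) : ℝ) := Nat.cast_div_le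
        simpa [hl] using this
      rw [Nat.cast_sub hle] at h1
      push_cast at h1
      have h2 : (a1 : ℝ) * p ≤ a1 * ((p1 : ℝ) / NN) := mul_le_mul_of_nonneg_left hp1 (by (clear * -; positivity))
      have h3 : (l : ℝ) / NN ≤ (((a0 : ℝ) - a1 * p1) / 10) / NN := div_le_div_of_nonneg_right h1 hn.le
      have h4 : (((a0 : ℝ) - a1 * p1) / 10) / NN = ((a0 : ℝ) / NN - a1 * ((p1 : ℝ) / NN)) / 10 := by ring
      rw [h4] at h3
      (clear * - h2 h3 hy; linarith [hy.hS])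
    · have h1 : l = 0 := by
        rw [hl, Nat.sub_eq_zero_of_le hle]
      rw [h1]
      simp only [Nat.cast_zero, zero_div]
      (clear * - hq0 hy; linarith [hy.hr])
  have hqm : q ≤ (m : ℝ) / NN := by
    have h1 : q ≤ (p1 : ℝ) / NN := hy.hqp.trans hp1
    have h2 : q ≤ ((t1 - p0 : ℕ) : ℝ) / NN := by
      have h3 := sub_ge t1 p0
      have h4 : ((t1 : ℝ) - p0) / NN ≤ ((t1 - p0 : ℕ) : ℝ) / NN := div_le_div_of_nonneg_right h3 hn.le
      have h5 : ((t1 : ℝ) - p0) / NN = (t1 : ℝ) / NN - (p0 : ℝ) / NN := by ring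
      rw [h5] at h4
      (clear * - ht1 hp0 h4 hy; linarith [hy.hpq])
    rcases min_choice p1 (t1 - p0) with hx | hx <;> rw [hm, hx] <;> assumption
  rcases h with ((h | h) | h) | h
  · exfalso
    have h1 : ((2 * m : ℕ) : ℝ) / NN < (l : ℝ) / NN := div_lt_div_of_pos_right (by exact_mod_cast h) hn
    have h2 : ((2 * m : ℕ) : ℝ) / NN = 2 * ((m : ℝ) / NN) := by push_cast; ring
    rw [h2] at h1
    (clear * - hLr hqm h1 hy; linarith [hy.hrq])
  · exfalso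
    have h1 : 2 * (NN : ℝ) * NN < 2 * p0 * p0 + l * l := by exact_mod_cast h
    have h2 : ((p0 : ℝ) / NN) ^ 2 ≤ p ^ 2 := pow_le_pow_left₀ hp0' hp0 2
    have h3 : ((l : ℝ) / NN) ^ 2 ≤ (q + r) ^ 2 := pow_le_pow_left₀ (by (clear * - hn; positivity)) hLr 2
    have h4 := sq_nonneg (q - r)
    have h5 := hy.hsq
    have h6 : 2 * ((p0 : ℝ) / NN) ^ 2 + ((l : ℝ) / NN) ^ 2 ≤ 2 := by (clear * - h2 h3 h4 h5; linarith)
    have h7 : 2 * ((p0 : ℝ) / NN) ^ 2 + ((l : ℝ) / NN) ^ 2 = (2 * p0 * p0 + l * l) / (NN * NN) := by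
      field_simp
    rw [h7, div_le_iff₀ (by (clear * - hn; positivity))] at h6
    (clear * - h1 h6; linarith)
  · exfalso
    obtain ⟨htp, h⟩ := h
    have h1 : (NN : ℝ) * NN ≤ t0 * p0 := by exact_mod_cast h
    have h2 : (t0 : ℝ) / NN * ((p0 : ℝ) / NN) ≤ t * p := mul_le_mul ht0 hp0 hp0' (ht0'.trans ht0)
    have h3 : (t0 : ℝ) / NN * ((p0 : ℝ) / NN) = (t0 * p0) / (NN * NN) := by (clear * - hn; field_simp)
    have h4 : 1 ≤ ((t0 : ℝ) * p0) / (NN * NN) := by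
      rw [le_div_iff₀ (by (clear * - hn; positivity))]; (clear * - h1; linarith)
    have h5 := hy.htp htp
    (clear * - h2 h3 h4 h5; linarith)
  · have hh := h
    unfold core at hh
    simp only [Bool.and_eq_true, Nat.ble_eq, Nat.blt_eq] at hh
    obtain ⟨⟨⟨⟨⟨hVB, hmB⟩, hG0⟩, hpt⟩, hpt'⟩, -⟩ := hh
    have hl2m : l ≤ 2 * m := by
      have h4 : (l : ℝ) / NN ≤ ((2 * m : ℕ) : ℝ) / NN := by
        have h2 : ((2 * m : ℕ) : ℝ) / NN = 2 * ((m : ℝ) / NN) := by push_cast; ring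
        rw [h2]; (clear * - hLr hqm hy; linarith [hy.hrq])
      exact_mod_cast (div_le_div_iff_of_pos_right hn).mp h4
    refine core_sound h ?_ hl2m ?_ ?_
    · have hB0 : 0 < t0 + p0 - l := by omega
      have hBle : l ≤ t0 + p0 := by (clear * - hl2m hB0; omega)
      have hGle : p1 ≤ t0 + l := by omega
      exact
      { ht0 := ht0
        ht1 := ht1
        hp0 := hp0
        hp1 := hp1
        hP0 := hp0'
        hT0 := ht0'
        hr := hy.hr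
        hrq := hy.hrq
        hqm := hqm
        hsq := hy.hsq
        hL := hLr
        hL0 := by (clear * - hn; positivity)
        hF := hF t1 t hR ht1
        hF0 := by (clear * - hn; positivity)
        hA := by
          have h1 := sub_ge NN (t0 * p0 / NN)
          have h2 : ((t0 * p0 / NN : ℕ) : ℝ) ≤ ((t0 * p0 : ℕ) : ℝ) / NN := Nat.cast_div_le
          push_cast at h2
          have h3 : (NN : ℝ) - (t0 * p0) / NN ≤ ((NN - t0 * p0 / NN : ℕ) : ℝ) := by (clear * - h1 h2; linarith)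
          have h4 := div_le_div_of_nonneg_right h3 hn.le
          have h5 : ((NN : ℝ) - (t0 * p0) / NN) / NN = 1 - (t0 : ℝ) / NN * ((p0 : ℝ) / NN) := by (clear * - hn; field_simp)
          rw [h5] at h4
          exact h4
        hA0 := by (clear * - hn; positivity)
        hV := by
          have h1 := up_ge (2 * NN * NN - 2 * p0 * p0 - l * l) (y := 6 * NN) (by unfold NN; norm_num)
          have h2 : (2 * (NN:ℝ) * NN - 2 * p0 * p0 - l * l) ≤ ((2 * NN * NN - 2 * p0 * p0 - l * l : ℕ) : ℝ) := by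
            have e1 := sub_ge (2 * NN * NN - 2 * p0 * p0) (l * l)
            have e2 := sub_ge (2 * NN * NN) (2 * p0 * p0)
            push_cast at e1 e2 ⊢
            (clear * - e1 e2; linarith)
          have h3 : (2 * (NN:ℝ) * NN - 2 * p0 * p0 - l * l) / (6 * NN) ≤
              (((2 * NN * NN - 2 * p0 * p0 - l * l) / (6 * NN) + 1 : ℕ) : ℝ) := by
            have h4 := div_le_div_of_nonneg_right h2 (by positivity : (0:ℝ) ≤ 6 * NN)
            push_cast at h1 ⊢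
            (clear * - h4 h1; linarith)
          have h4 := div_le_div_of_nonneg_right h3 hn.le
          have h5 : ((2 * (NN:ℝ) * NN - 2 * p0 * p0 - l * l) / (6 * NN)) / NN =
              (1 - ((p0 : ℝ) / NN) ^ 2 - ((l : ℝ) / NN) ^ 2 / 2) / 3 := by
            field_simp
            ring
          rw [h5] at h4
          exact h4
        hV0 := by positivity
        hB := by
          rw [Nat.cast_sub hBle]
          push_cast
          exact le_of_eq (by ring)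
        hB0 := div_pos (by exact_mod_cast hB0) hn
        hBm := by
          have h1 := sub_ge (2 * m) l
          have h2 : ((2 * m - l : ℕ) : ℝ) < ((t0 + p0 - l : ℕ) : ℝ) := by exact_mod_cast hmB
          have h3 : (0:ℝ) < ((t0 + p0 - l : ℕ) : ℝ) - (2 * m - l) := by
            push_cast at h1
            (clear * - h2 h1; linarith)
          have h4 := div_pos h3 hn
          have h5 : (((t0 + p0 - l : ℕ) : ℝ) - (2 * m - l)) / NN =
              ((t0 + p0 - l : ℕ) : ℝ) / NN - (2 * ((m : ℝ) / NN) - (l : ℝ) / NN) := by ring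
          rw [h5] at h4
          exact h4
        hLB := by
          have h1 : 4 * ((((2 * NN * NN - 2 * p0 * p0 - l * l) / (6 * NN) + 1 : ℕ) : ℕ) : ℝ) * NN ≤
              l * ((t0 + p0 - l : ℕ) : ℝ) := by exact_mod_cast hVB
          have h2 := div_le_div_of_nonneg_right h1 (by positivity : (0:ℝ) ≤ NN * NN)
          have h3 : 4 * ((((2 * NN * NN - 2 * p0 * p0 - l * l) / (6 * NN) + 1 : ℕ) : ℕ) : ℝ) * NN / (NN * NN) =
              4 * (((((2 * NN * NN - 2 * p0 * p0 - l * l) / (6 * NN) + 1 : ℕ) : ℕ) : ℝ) / NN) := by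
            field_simp
          have h4 : (l : ℝ) * ((t0 + p0 - l : ℕ) : ℝ) / (NN * NN) =
              (l : ℝ) / NN * (((t0 + p0 - l : ℕ) : ℝ) / NN) := by field_simp
          rw [h3, h4] at h2
          exact h2
        hG := by
          rw [Nat.cast_sub hGle]
          push_cast
          exact le_of_eq (by ring)
        hG0 := div_pos (by exact_mod_cast hG0) hn }
    · have h1 := up_ge (4 * t1 * p1) (y := NN) (by unfold NN; norm_num)
      have h2 := sub_ge (4 * t1 * p1 / NN + 1) (2 * NN)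
      have h3 : (4 * (t1:ℝ) * p1) / NN - 2 * NN ≤ ((4 * t1 * p1 / NN + 1 - 2 * NN : ℕ) : ℝ) := by
        push_cast at h1 h2 ⊢
        (clear * - h1 h2; linarith)
      have h4 := div_le_div_of_nonneg_right h3 hn.le
      have h5 : ((4 * (t1:ℝ) * p1) / NN - 2 * NN) / NN = 4 * ((t1 : ℝ) / NN * ((p1 : ℝ) / NN)) - 2 := by (clear * - hn; field_simp)
      rw [h5] at h4
      exact h4
    · have h1 := up_ge (3 * t1 * p1) (y := NN) (by unfold NN; norm_num)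
      have h2 := sub_ge (3 * t1 * p1 / NN + 1) NN
      have h3 : (3 * (t1:ℝ) * p1) / NN - NN ≤ ((3 * t1 * p1 / NN + 1 - NN : ℕ) : ℝ) := by
        push_cast at h1 h2 ⊢
        (clear * - h1 h2; linarith)
      have h4 := div_le_div_of_nonneg_right h3 hn.le
      have h5 : ((3 * (t1:ℝ) * p1) / NN - NN) / NN = 3 * ((t1 : ℝ) / NN * ((p1 : ℝ) / NN)) - 1 := by field_simp
      rw [h5] at h4
      exact h4

end Pool.Agent.M18.Helper35.SP
end

/- Helper35.SP.FBound -/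
section
/-! Project SP: the T3 facts, lower bounds of the value functions. -/

set_option autoImplicit false

open Pool.Agent.M18.Helper89.SP

namespace Pool.Agent.M18.Helper35.SP

/-- lower bound of `10^7 Mf` -/
def fM (t1 : ℕ) : ℕ := (3 * NN * NN - 17320509 * t1) ^ 3 / (24 * NN ^ 5)

/-- lower bound of `10^7 T4` -/
def f4 (t1 : ℕ) : ℕ := (2 * NN - t1) ^ 4 / (12 * NN ^ 3)

/-- lower bound of `10^7 T5` -/
def f5 (t1 : ℕ) : ℕ := (5 * NN * NN - 22360680 * t1) ^ 5 / (1920 * NN ^ 9)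

lemma sqrt3_lt : √(3:ℝ) < 1.7320509 := by
  rw [Real.sqrt_lt (by norm_num) (by norm_num)]; norm_num

lemma sqrt5_lt : √(5:ℝ) < 2.2360680 := by
  rw [Real.sqrt_lt (by norm_num) (by norm_num)]; norm_num

lemma sqrt5_gt : 2.236 < √(5:ℝ) := by
  rw [Real.lt_sqrt (by norm_num)]; norm_num

lemma fM_le (t1 : ℕ) (t : ℝ) (hR : 0 ≤ t ∧ t ≤ 1.3) (ht : t ≤ (t1 : ℝ) / NN) :
    ((fM t1 : ℕ) : ℝ) / NN ≤ Mf t := by
  have hn := NN_pos
  have hy0 : 0 ≤ 3 - √3 * t := by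
    have := mul_le_mul sqrt3_lt.le hR.2 hR.1 (by norm_num : (0:ℝ) ≤ 1.7320509)
    norm_num at this
    (clear * - this; linarith)
  have h1 : ((fM t1 : ℕ) : ℝ) ≤ (((3 * NN * NN - 17320509 * t1 : ℕ) : ℝ)) ^ 3 / (24 * (NN : ℝ) ^ 5) := by
    have : (((3 * NN * NN - 17320509 * t1) ^ 3 / (24 * NN ^ 5) : ℕ) : ℝ) ≤
      (((3 * NN * NN - 17320509 * t1) ^ 3 : ℕ) : ℝ) / ((24 * NN ^ 5 : ℕ) : ℝ) := Nat.cast_div_le
    push_cast at this
    unfold fM
    push_cast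
    exact this
  have h2 : ((3 * NN * NN - 17320509 * t1 : ℕ) : ℝ) / (NN * NN) ≤ 3 - √3 * t := by
    rcases le_total (17320509 * t1) (3 * NN * NN) with hle | hle
    · rw [Nat.cast_sub hle]
      have h3 : √3 * t ≤ 1.7320509 * ((t1 : ℝ) / NN) := mul_le_mul sqrt3_lt.le ht hR.1 (by norm_num)
      have h4 : (((3 * NN * NN : ℕ) : ℝ) - ((17320509 * t1 : ℕ) : ℝ)) / (NN * NN) =
          3 - 1.7320509 * ((t1 : ℝ) / NN) := by
        push_cast
        have h5 : (1.7320509 : ℝ) = 17320509 / NN := by rw [NN_cast]; norm_num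
        rw [h5]
        field_simp
      rw [h4]
      (clear * - h3; linarith)
    · rw [Nat.sub_eq_zero_of_le hle]
      simpa using hy0
  have h3 := pow_le_pow_left₀ (by positivity) h2 3
  calc ((fM t1 : ℕ) : ℝ) / NN ≤ (((3 * NN * NN - 17320509 * t1 : ℕ) : ℝ)) ^ 3 / (24 * (NN : ℝ) ^ 5) / NN :=
        div_le_div_of_nonneg_right h1 hn.le
    _ = (((3 * NN * NN - 17320509 * t1 : ℕ) : ℝ) / (NN * NN)) ^ 3 / 24 := by field_simp
    _ ≤ Mf t := by
        unfold Mf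
        exact div_le_div_of_nonneg_right h3 (by norm_num)

lemma f4_le (t1 : ℕ) (t : ℝ) (hR : t ≤ 2) (ht : t ≤ (t1 : ℝ) / NN) :
    ((f4 t1 : ℕ) : ℝ) / NN ≤ T4 t := by
  have hn := NN_pos
  have h1 : ((f4 t1 : ℕ) : ℝ) ≤ (((2 * NN - t1 : ℕ) : ℝ)) ^ 4 / (12 * (NN : ℝ) ^ 3) := by
    have : (((2 * NN - t1) ^ 4 / (12 * NN ^ 3) : ℕ) : ℝ) ≤
      (((2 * NN - t1) ^ 4 : ℕ) : ℝ) / ((12 * NN ^ 3 : ℕ) : ℝ) := Nat.cast_div_le
    push_cast at this
    unfold f4
    push_cast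
    exact this
  have h2 : ((2 * NN - t1 : ℕ) : ℝ) / NN ≤ 2 - t := by
    rcases le_total t1 (2 * NN) with hle | hle
    · rw [Nat.cast_sub hle]
      have h4 : (((2 * NN : ℕ) : ℝ) - (t1 : ℝ)) / NN = 2 - (t1 : ℝ) / NN := by
        push_cast
        field_simp
      rw [h4]
      (clear * - ht; linarith)
    · rw [Nat.sub_eq_zero_of_le hle]
      simpa using hR
  have h3 := pow_le_pow_left₀ (by (clear * - hn; positivity)) h2 4
  calc ((f4 t1 : ℕ) : ℝ) / NN ≤ (((2 * NN - t1 : ℕ) : ℝ)) ^ 4 / (12 * (NN : ℝ) ^ 3) / NN :=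
        div_le_div_of_nonneg_right h1 hn.le
    _ = (((2 * NN - t1 : ℕ) : ℝ) / NN) ^ 4 / 12 := by field_simp
    _ ≤ T4 t := by
        unfold T4
        exact div_le_div_of_nonneg_right h3 (by norm_num)

lemma f5_le (t1 : ℕ) (t : ℝ) (hR : 1.6427 ≤ t ∧ t ≤ 1.9) (ht : t ≤ (t1 : ℝ) / NN) :
    ((f5 t1 : ℕ) : ℝ) / NN ≤ T5 t := by
  have hn := NN_pos
  have hy0 : 0 ≤ 5 - √5 * t := by
    have := mul_le_mul sqrt5_lt.le hR.2 (by (clear * - hR; linarith [hR.1])) (by norm_num : (0:ℝ) ≤ 2.2360680)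
    norm_num at this
    (clear * - this; linarith)
  have hmax : max (3 - √5 * t) 0 = 0 := by
    refine max_eq_right ?_
    have := mul_le_mul sqrt5_gt.le hR.1 (by norm_num) (by positivity : (0:ℝ) ≤ √5)
    norm_num at this
    (clear * - this; linarith)
  have h1 : ((f5 t1 : ℕ) : ℝ) ≤ (((5 * NN * NN - 22360680 * t1 : ℕ) : ℝ)) ^ 5 / (1920 * (NN : ℝ) ^ 9) := by
    have : (((5 * NN * NN - 22360680 * t1) ^ 5 / (1920 * NN ^ 9) : ℕ) : ℝ) ≤
      (((5 * NN * NN - 22360680 * t1) ^ 5 : ℕ) : ℝ) / ((1920 * NN ^ 9 : ℕ) : ℝ) := Nat.cast_div_le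
    push_cast at this
    unfold f5
    push_cast
    exact this
  have h2 : ((5 * NN * NN - 22360680 * t1 : ℕ) : ℝ) / (NN * NN) ≤ 5 - √5 * t := by
    rcases le_total (22360680 * t1) (5 * NN * NN) with hle | hle
    · rw [Nat.cast_sub hle]
      have h3 : √5 * t ≤ 2.2360680 * ((t1 : ℝ) / NN) :=
        mul_le_mul sqrt5_lt.le ht (by (clear * - hR; linarith [hR.1])) (by norm_num)
      have h4 : (((5 * NN * NN : ℕ) : ℝ) - ((22360680 * t1 : ℕ) : ℝ)) / (NN * NN) =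
          5 - 2.2360680 * ((t1 : ℝ) / NN) := by
        push_cast
        have h5 : (2.2360680 : ℝ) = 22360680 / NN := by rw [NN_cast]; norm_num
        rw [h5]
        (clear * - hn; field_simp)
      rw [h4]
      (clear * - h3; linarith)
    · rw [Nat.sub_eq_zero_of_le hle]
      simpa using hy0
  have h3 := pow_le_pow_left₀ (by (clear * - hn; positivity)) h2 5
  calc ((f5 t1 : ℕ) : ℝ) / NN ≤ (((5 * NN * NN - 22360680 * t1 : ℕ) : ℝ)) ^ 5 / (1920 * (NN : ℝ) ^ 9) / NN :=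
        div_le_div_of_nonneg_right h1 hn.le
    _ = (((5 * NN * NN - 22360680 * t1 : ℕ) : ℝ) / (NN * NN)) ^ 5 / 1920 := by field_simp
    _ ≤ T5 t := by
        unfold T5
        rw [hmax]
        refine div_le_div_of_nonneg_right ?_ (by norm_num)
        have : (0:ℝ) ^ 5 = 0 := by norm_num
        rw [this]
        (clear * - h3; linarith)

/-- the general form -/
lemma beats_of_chk {a0 a1 : ℕ} {fF : ℕ → ℕ} {tp : Bool} {F : ℝ → ℝ} {R : ℝ → Prop} {fuel t0 t1 p0 p1 : ℕ}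
    (hF : ∀ (t1 : ℕ) (t : ℝ), R t → t ≤ (t1 : ℝ) / NN → ((fF t1 : ℕ) : ℝ) / NN ≤ F t)
    (h : chk (leaf a0 a1 fF tp) fuel t0 t1 p0 p1 = true) {t p q r : ℝ} (hR : R t) (hy : Hyp a0 a1 tp t p q r)
    (ht0 : (t0 : ℝ) / NN ≤ t) (ht1 : t ≤ (t1 : ℝ) / NN) (hp0 : (p0 : ℝ) / NN ≤ p) (hp1 : p ≤ (p1 : ℝ) / NN) :
    Beats t p q r (F t) := by
  have := chk_sound (leaf := leaf a0 a1 fF tp)
    (Q := fun t p => ∀ q r : ℝ, R t → Hyp a0 a1 tp t p q r → Beats t p q r (F t))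
    (fun t0 t1 p0 p1 h t p h1 h2 h3 h4 q r hR hy => leaf_sound hF h hR hy h1 h2 h3 h4) fuel t0 t1 p0 p1 h t p
    ht0 ht1 hp0 hp1
  exact this q r hR hy

end Pool.Agent.M18.Helper35.SP
end

/- Helper35.SP.FactsM -/
section
/-! Project SP: fact_T3_2, fact_T3_3, fact_T3_8, fact_T3_8a. -/

set_option autoImplicit false

open Pool.Agent.M18.Helper35.SP

namespace Pool.Agent.M18.Helper35.SP

lemma c2 : chk (leaf 129150000 6 fM false) 30 10600000 10800000 4975000 5450000 = true := by decide +kernel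
lemma c3 : chk (leaf 176775000 15 fM false) 30 10800000 11000000 5065000 5500000 = true := by decide +kernel
lemma c8 : chk (leaf 95000000 0 fM false) 30 10200000 11000000 5400000 7200000 = true := by decide +kernel
lemma c8a : chk (leaf 95000000 0 f4 false) 30 11000000 12000000 5400000 7200000 = true := by decide +kernel

end Pool.Agent.M18.Helper35.SP

namespace Pool.Agent.M18.Helper89.SP

theorem fact_T3_2 {t p q r : ℝ} (hp0 : 0.4975 ≤ p) (hp1 : p ≤ 0.545) (ht0 : 1.06 ≤ t) (ht1 : t ≤ 1.08)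
    (hr : 0 < r) (hrq : r ≤ q) (hqp : q ≤ p) (hpq : p + q ≤ t) (hsq : p ^ 2 + q ^ 2 + r ^ 2 ≤ 1)
    (hS : S2 p ≤ q + r) : Beats t p q r (Mf t) := by
  refine beats_of_chk (R := fun t => 0 ≤ t ∧ t ≤ 1.3) fM_le c2 ⟨by (clear * - ht0; linarith), by (clear * - hp1 ht1 hr hrq hqp; linarith)⟩
    ⟨hr, hrq, hqp, hpq, hsq, ?_, by simp⟩ ?_ ?_ ?_ ?_ <;> rw [NN_cast]
  · unfold S2 at hS
    push_cast
    (clear * - hS; linarith)
  · push_cast; (clear * - ht0; linarith)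
  · push_cast; (clear * - ht1; linarith)
  · push_cast; (clear * - hp0; linarith)
  · push_cast; (clear * - hp1; linarith)

theorem fact_T3_3 {t p q r : ℝ} (hp0 : 0.5065 ≤ p) (hp1 : p ≤ 0.55) (ht0 : 1.08 ≤ t) (ht1 : t ≤ 1.1)
    (hr : 0 < r) (hrq : r ≤ q) (hqp : q ≤ p) (hpq : p + q ≤ t) (hsq : p ^ 2 + q ^ 2 + r ^ 2 ≤ 1)
    (hS : S3 p ≤ q + r) : Beats t p q r (Mf t) := by
  refine beats_of_chk (R := fun t => 0 ≤ t ∧ t ≤ 1.3) fM_le c3 ⟨by (clear * - ht0; linarith), by linarith⟩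
    ⟨hr, hrq, hqp, hpq, hsq, ?_, by simp⟩ ?_ ?_ ?_ ?_ <;> rw [NN_cast]
  · unfold S3 at hS
    push_cast
    (clear * - hS; linarith)
  · push_cast; (clear * - ht0; linarith)
  · push_cast; (clear * - ht1; linarith)
  · push_cast; (clear * - hp0; linarith)
  · push_cast; (clear * - hp1; linarith)

theorem fact_T3_8 {t p q r : ℝ} (hp0 : 0.54 ≤ p) (hp1 : p ≤ 0.72) (ht0 : 1.02 ≤ t) (ht1 : t ≤ 1.1)
    (hr : 0 < r) (hrq : r ≤ q) (hqp : q ≤ p) (hpq : p + q ≤ t) (hsq : p ^ 2 + q ^ 2 + r ^ 2 ≤ 1)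
    (hS : 0.95 ≤ q + r) : Beats t p q r (Mf t) := by
  refine beats_of_chk (R := fun t => 0 ≤ t ∧ t ≤ 1.3) fM_le c8 ⟨by (clear * - hr hrq hqp hpq; linarith), by (clear * - ht1 hr hrq hqp hpq; linarith)⟩
    ⟨hr, hrq, hqp, hpq, hsq, ?_, by simp⟩ ?_ ?_ ?_ ?_ <;> rw [NN_cast]
  · push_cast
    (clear * - hS; linarith)
  · push_cast; linarith
  · push_cast; (clear * - ht1; linarith)
  · push_cast; (clear * - hp0; linarith)
  · push_cast; (clear * - hp1; linarith)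

theorem fact_T3_8a {t p q r : ℝ} (hp0 : 0.54 ≤ p) (hp1 : p ≤ 0.72) (ht0 : 1.1 ≤ t) (ht1 : t ≤ 1.2)
    (hr : 0 < r) (hrq : r ≤ q) (hqp : q ≤ p) (hpq : p + q ≤ t) (hsq : p ^ 2 + q ^ 2 + r ^ 2 ≤ 1)
    (hS : 0.95 ≤ q + r) : Beats t p q r (T4 t) := by
  refine beats_of_chk (R := fun t => t ≤ 2) f4_le c8a (by (clear * - hp1 ht1 hr hrq hqp; linarith))
    ⟨hr, hrq, hqp, hpq, hsq, ?_, by simp⟩ ?_ ?_ ?_ ?_ <;> rw [NN_cast]
  · push_cast
    (clear * - hS; linarith)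
  · push_cast; (clear * - ht0; linarith)
  · push_cast; (clear * - ht1; linarith)
  · push_cast; (clear * - hp0; linarith)
  · push_cast; (clear * - hp1; linarith)

end Pool.Agent.M18.Helper89.SP
end

/- Helper35.SP.FactsR -/
section
/-! Project SP: fact_T3_6, fact_T3_6a, fact_T3_7, fact_T3_7a by the box checker. -/

set_option autoImplicit false

open Pool.Agent.M18.Helper35.SP

namespace Pool.Agent.M18.Helper35.SP

lemma c6 : chk (leaf 245700000 26 f4 true) 30 13500000 16428000 5350000 5800000 = true := by decide +kernel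
lemma c6a : chk (leaf 95000000 0 f4 true) 30 13500000 16428000 5800000 6600000 = true := by decide +kernel
lemma c7 : chk (leaf 245700000 26 f5 true) 30 16427000 18260000 5350000 5800000 = true := by decide +kernel
lemma c7a : chk (leaf 95000000 0 f5 true) 30 16427000 18260000 5800000 6600000 = true := by decide +kernel

end Pool.Agent.M18.Helper35.SP

namespace Pool.Agent.M18.Helper89.SP

theorem fact_T3_6 {t p q r : ℝ} (hp0 : 0.535 ≤ p) (hp1 : p ≤ 0.58) (ht0 : 1.35 ≤ t) (ht1 : t ≤ 1.6428)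
    (hr : 0 < r) (hrq : r ≤ q) (hqp : q ≤ p) (hpq : p + q ≤ t) (hsq : p ^ 2 + q ^ 2 + r ^ 2 ≤ 1)
    (htp : t * p < 1) (hS : S6 p ≤ q + r) : Beats t p q r (T4 t) := by
  refine beats_of_chk (R := fun t => t ≤ 2) f4_le c6 (by (clear * - hp1 ht1 hr hrq hqp; linarith))
    ⟨hr, hrq, hqp, hpq, hsq, ?_, fun _ => htp⟩ ?_ ?_ ?_ ?_ <;> rw [NN_cast]
  · unfold S6 at hS
    push_cast
    (clear * - hS; linarith)
  · push_cast; (clear * - ht0; linarith)
  · push_cast; (clear * - ht1; linarith)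
  · push_cast; (clear * - hp0; linarith)
  · push_cast; (clear * - hp1; linarith)

theorem fact_T3_6a {t p q r : ℝ} (hp0 : 0.58 ≤ p) (hp1 : p ≤ 0.66) (ht0 : 1.35 ≤ t) (ht1 : t ≤ 1.6428)
    (hr : 0 < r) (hrq : r ≤ q) (hqp : q ≤ p) (hpq : p + q ≤ t) (hsq : p ^ 2 + q ^ 2 + r ^ 2 ≤ 1)
    (htp : t * p < 1) (hS : 0.95 ≤ q + r) : Beats t p q r (T4 t) := by
  refine beats_of_chk (R := fun t => t ≤ 2) f4_le c6a (by (clear * - hp1 ht1 hr hrq hqp; linarith))
    ⟨hr, hrq, hqp, hpq, hsq, ?_, fun _ => htp⟩ ?_ ?_ ?_ ?_ <;> rw [NN_cast]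
  · push_cast
    (clear * - hS; linarith)
  · push_cast; (clear * - ht0; linarith)
  · push_cast; (clear * - ht1; linarith)
  · push_cast; (clear * - hp0; linarith)
  · push_cast; (clear * - hp1; linarith)

theorem fact_T3_7 {t p q r : ℝ} (hp0 : 0.535 ≤ p) (hp1 : p ≤ 0.58) (ht0 : 1.6427 ≤ t) (ht1 : t ≤ 1.826)
    (hr : 0 < r) (hrq : r ≤ q) (hqp : q ≤ p) (hpq : p + q ≤ t) (hsq : p ^ 2 + q ^ 2 + r ^ 2 ≤ 1)
    (htp : t * p < 1) (hS : S6 p ≤ q + r) : Beats t p q r (T5 t) := by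
  refine beats_of_chk (R := fun t => 1.6427 ≤ t ∧ t ≤ 1.9) f5_le c7 ⟨by (clear * - ht0; linarith), by (clear * - hp1 ht1 hr hrq hqp; linarith)⟩
    ⟨hr, hrq, hqp, hpq, hsq, ?_, fun _ => htp⟩ ?_ ?_ ?_ ?_ <;> rw [NN_cast]
  · unfold S6 at hS
    push_cast
    (clear * - hS; linarith)
  · push_cast; (clear * - ht0; linarith)
  · push_cast; (clear * - ht1; linarith)
  · push_cast; (clear * - hp0; linarith)
  · push_cast; (clear * - hp1; linarith)

theorem fact_T3_7a {t p q r : ℝ} (hp0 : 0.58 ≤ p) (hp1 : p ≤ 0.66) (ht0 : 1.6427 ≤ t) (ht1 : t ≤ 1.826)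
    (hr : 0 < r) (hrq : r ≤ q) (hqp : q ≤ p) (hpq : p + q ≤ t) (hsq : p ^ 2 + q ^ 2 + r ^ 2 ≤ 1)
    (htp : t * p < 1) (hS : 0.95 ≤ q + r) : Beats t p q r (T5 t) := by
  refine beats_of_chk (R := fun t => 1.6427 ≤ t ∧ t ≤ 1.9) f5_le c7a ⟨by (clear * - ht0; linarith), by (clear * - hp1 ht1 hr hrq hqp; linarith)⟩
    ⟨hr, hrq, hqp, hpq, hsq, ?_, fun _ => htp⟩ ?_ ?_ ?_ ?_ <;> rw [NN_cast]
  · push_cast
    (clear * - hS; linarith)
  · push_cast; (clear * - ht0; linarith)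
  · push_cast; (clear * - ht1; linarith)
  · push_cast; (clear * - hp0; linarith)
  · push_cast; (clear * - hp1; linarith)

end Pool.Agent.M18.Helper89.SP
end

/- Helper95.SP.Crude.Run3 -/
section
/-! Box computations, part 3. -/

set_option autoImplicit false

namespace Pool.Agent.M18.Helper95.SP.Crude

def tr_M5_104_1 : Tr :=
    (.u (.x (.u .l .l) (.u .l (.x (.u .l .l) (.u .l .l)))) (.u (.x .l (.u (.x .l .l) .l)) .l))

theorem run_M5_104_1 :
    cov 5 0 (t04 ^ 2) 1 (empM t04 noQ) (fun b => b.U1) tr_M5_104_1 (mk t04 (41 / 100) (43 /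
    100) 0 (43 / 100) 0 0) = true := by
  decide +kernel

def tr_M5_104 : Tr :=
    tr_M5_104_1

theorem run_M5_104 :
    covM 5 t04 1 noQ tr_M5_104 (41 / 100) (43 / 100) (43 / 100) = true :=
  run_M5_104_1

def tr_M5_106_1 : Tr :=
    (.u (.x (.u .l (.u .l .l)) (.u (.x .l .l) (.u (.x .l .l) .l))) .l)

theorem run_M5_106_1 :
    cov 5 0 (t06 ^ 2) 1 (empM t06 noQ) (fun b => b.U1) tr_M5_106_1 (mk t06 (43 / 100) (4473 /
    10000) 0 (4473 / 10000) 0 0) = true := by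
  decide +kernel

def tr_M5_106 : Tr :=
    tr_M5_106_1

theorem run_M5_106 :
    covM 5 t06 1 noQ tr_M5_106 (43 / 100) (4473 / 10000) (4473 / 10000) = true :=
  run_M5_106_1

def tr_M3_104_1 : Tr :=
    (.u (.u .l (.u .l .l)) (.u (.u .l (.u .l .l)) (.u (.u .l .l) (.u .l .l))))

theorem run_M3_104_1 :
    cov 3 0 (t04 ^ 2) 1 (empM t04 noQ) (fun b => b.U1) tr_M3_104_1 (mk t04 (478 / 1000) (4875
    / 10000) 0 (4875 / 10000) 0 0) = true := by
  decide +kernel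

def tr_M3_104 : Tr :=
    tr_M3_104_1

theorem run_M3_104 :
    covM 3 t04 1 noQ tr_M3_104 (478 / 1000) (4875 / 10000) (4875 / 10000) = true :=
  run_M3_104_1

def tr_M3_106_1 : Tr :=
    (.u (.u .l (.u .l .l)) (.u (.u .l (.u .l .l)) (.u (.u .l .l) (.u .l (.u .l (.x .l .l))))))

theorem run_M3_106_1 :
    cov 3 0 (t06 ^ 2) 1 (empM t06 noQ) (fun b => b.U1) tr_M3_106_1 (mk t06 (4875 / 10000)
    (4975 / 10000) 0 (4975 / 10000) 0 0) = true := by
  decide +kernel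

def tr_M3_106 : Tr :=
    tr_M3_106_1

theorem run_M3_106 :
    covM 3 t06 1 noQ tr_M3_106 (4875 / 10000) (4975 / 10000) (4975 / 10000) = true :=
  run_M3_106_1

def tr_M3_108_1 : Tr :=
    (.u .l (.u .l .l))

theorem run_M3_108_1 :
    cov 3 0 (t08 ^ 2) 1 (empM t08 noQ) (fun b => b.U1) tr_M3_108_1 (mk t08 (4975 / 10000)
    (5065 / 10000) 0 (5065 / 10000) 0 0).ul = true := by
  decide +kernel

def tr_M3_108_2 : Tr :=
    (.u (.u .l .l) (.u .l .l))

theorem run_M3_108_2 :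
    cov 3 0 (t08 ^ 2) 1 (empM t08 noQ) (fun b => b.U1) tr_M3_108_2 (mk t08 (4975 / 10000)
    (5065 / 10000) 0 (5065 / 10000) 0 0).ur.ul = true := by
  decide +kernel

def tr_M3_108_3 : Tr :=
    (.u .l .l)

theorem run_M3_108_3 :
    cov 3 0 (t08 ^ 2) 1 (empM t08 noQ) (fun b => b.U1) tr_M3_108_3 (mk t08 (4975 / 10000)
    (5065 / 10000) 0 (5065 / 10000) 0 0).ur.ur.ul = true := by
  decide +kernel

def tr_M3_108_4 : Tr :=
    (.u (.u .l (.x .l (.u .l .l))) (.u (.x .l (.u (.x .l (.u (.x .l .l) (.x .l .l))) (.x .l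
    .l))) (.x .l .l)))

theorem run_M3_108_4 :
    cov 3 0 (t08 ^ 2) 1 (empM t08 noQ) (fun b => b.U1) tr_M3_108_4 (mk t08 (4975 / 10000)
    (5065 / 10000) 0 (5065 / 10000) 0 0).ur.ur.ur = true := by
  decide +kernel

def tr_M3_108 : Tr :=
    (.u tr_M3_108_1 (.u tr_M3_108_2 (.u tr_M3_108_3 tr_M3_108_4)))

theorem run_M3_108 :
    covM 3 t08 1 noQ tr_M3_108 (4975 / 10000) (5065 / 10000) (5065 / 10000) = true :=
  cov_u run_M3_108_1 (cov_u run_M3_108_2 (cov_u run_M3_108_3 run_M3_108_4))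

def tr_M3_110_1 : Tr :=
    (.u .l (.u .l .l))

theorem run_M3_110_1 :
    cov 3 0 (t10 ^ 2) 1 (empM t10 noQ) (fun b => b.U1) tr_M3_110_1 (mk t10 (5065 / 10000)
    (5125 / 10000) 0 (5125 / 10000) 0 0).ul = true := by
  decide +kernel

def tr_M3_110_2 : Tr :=
    (.u (.u (.u .l .l) (.u .l .l)) (.u (.u .l (.u .l .l)) (.u (.u (.x .l (.u .l (.x .l .l))) (.x
    .l .l)) .l)))

theorem run_M3_110_2 :
    cov 3 0 (t10 ^ 2) 1 (empM t10 noQ) (fun b => b.U1) tr_M3_110_2 (mk t10 (5065 / 10000)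
    (5125 / 10000) 0 (5125 / 10000) 0 0).ur = true := by
  decide +kernel

def tr_M3_110 : Tr :=
    (.u tr_M3_110_1 tr_M3_110_2)

theorem run_M3_110 :
    covM 3 t10 1 noQ tr_M3_110 (5065 / 10000) (5125 / 10000) (5125 / 10000) = true :=
  cov_u run_M3_110_1 run_M3_110_2

end Pool.Agent.M18.Helper95.SP.Crude
end
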