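import Mathlib
import Pool.Agent.Helper53.AM.G07

/- Helper30.SP.FactT3a -/
section
/-! SP-09a: the numeric facts fact_T3_0 and fact_T3_1 (MP_66ebcc). -/

set_option autoImplicit false

open MeasureTheory Set Real Pool.Agent.M18.Slab

namespace Pool.Agent.M18.Helper89.SP

namespace T3a

/-- the main part of the bound, `L` in the place of the value -/
noncomputable def DD (t p L q r : ℝ) : ℝ :=
  8 * (q * r) * L - (1 - t * p) * ((p + q + r - t) ^ 2 + (1 - p ^ 2 - q ^ 2 - r ^ 2) / 3)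

/-- linear lower bound of `Mf` -/
noncomputable def LL (z t : ℝ) : ℝ :=
  (3 * z ^ 2 * (3 - 17320509 / 10000000 * t) - 2 * z ^ 3) / 24

theorem LL_le {z t : ℝ} (hz : 0 ≤ z) (ht : 0 ≤ t) (h : 17320509 / 10000000 * t ≤ 3) :
    LL z t ≤ Mf t := by
  have h3 : √3 ≤ 17320509 / 10000000 := by
    rw [show (17320509 / 10000000 : ℝ) = √((17320509 / 10000000) ^ 2) by
      rw [Real.sqrt_sq (by norm_num)]]
    exact Real.sqrt_le_sqrt (by norm_num)
  have h4 : √3 * t ≤ 17320509 / 10000000 * t := mul_le_mul_of_nonneg_right h3 ht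
  unfold LL Mf
  set y : ℝ := 3 - √3 * t with hy
  have hy0 : 0 ≤ y := by linarith
  have h5 : 3 * z ^ 2 * (3 - 17320509 / 10000000 * t) ≤ 3 * z ^ 2 * y :=
    mul_le_mul_of_nonneg_left (by (clear * - h4; linarith)) (by (clear * -; positivity))
  have h6 : 0 ≤ (y - z) ^ 2 * (y + 2 * z) := by (clear * - hy0 hz; positivity)
  have h7 : y ^ 3 - 3 * z ^ 2 * y + 2 * z ^ 3 = (y - z) ^ 2 * (y + 2 * z) := by ring
  (clear * - h5 h6; linarith)

theorem reduce {t p q r m Sl L κ : ℝ} (hqm : q ≤ m) (hrq : r ≤ q) (hS : Sl ≤ q + r)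
    (hA : 0 ≤ 1 - t * p) (hL : 1 - t * p ≤ 12 * L)
    (h1 : κ ≤ DD t p L m m) (h2 : κ ≤ DD t p L m (Sl - m)) : κ ≤ DD t p L q r := by
  have e1 : DD t p L q r - DD t p L m (q + r - m) =
      (2 * L - (1 - t * p) / 6) * (((2 * m - (q + r)) - (q - r)) * ((2 * m - (q + r)) + (q - r))) := by
    unfold DD
    ring
  have p1 : 0 ≤ (2 * L - (1 - t * p) / 6) *
      (((2 * m - (q + r)) - (q - r)) * ((2 * m - (q + r)) + (q - r))) :=
    mul_nonneg (by (clear * - hL; linarith)) (mul_nonneg (by (clear * - hqm; linarith)) (by (clear * - hqm hrq; linarith)))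
  have h3 : κ ≤ DD t p L m (q + r - m) := by
    rcases eq_or_lt_of_le (show Sl ≤ 2 * m by (clear * - hqm hrq hS; linarith)) with h | h
    · have h4 : q + r = Sl := by (clear * - hS hqm hrq h; linarith)
      rw [h4]
      exact h2
    · have e2 : (2 * m - Sl) * (DD t p L m (q + r - m) - κ) =
          (2 * m - (q + r)) * (DD t p L m (Sl - m) - κ) +
          ((q + r) - Sl) * (DD t p L m m - κ) +
          (2 / 3 * (1 - t * p)) * ((((q + r) - Sl) * (2 * m - (q + r))) * (2 * m - Sl)) := by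
        unfold DD
        ring
      have p2 : 0 ≤ (2 * m - Sl) * (DD t p L m (q + r - m) - κ) := by
        rw [e2]
        have a1 : 0 ≤ 2 * m - (q + r) := by (clear * - hqm hrq; linarith)
        have a2 : 0 ≤ (q + r) - Sl := by (clear * - hS; linarith)
        exact add_nonneg (add_nonneg (mul_nonneg a1 (by (clear * - h2; linarith))) (mul_nonneg a2 (by (clear * - h1; linarith))))
          (mul_nonneg (by (clear * - hA; linarith)) (mul_nonneg (mul_nonneg a2 a1) (by (clear * - h; linarith))))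
      have := nonneg_of_mul_nonneg_right p2 (by (clear * - h; linarith))
      (clear * - this; linarith)
  linarith

theorem Kb_le {v s V s0 : ℝ} (hv : 0 ≤ v) (hV : v ≤ V) (h0 : 0 < s0) (h : s0 ≤ s) :
    Kb v s ≤ 0.1647 * V ^ 3 / s0 ^ 4 := by
  unfold Kb
  have hs : 0 < s := h0.trans_le h
  have h1 : v ^ 3 ≤ V ^ 3 := pow_le_pow_left₀ hv hV 3
  have h2 : s0 ^ 4 ≤ s ^ 4 := pow_le_pow_left₀ h0.le h 4
  have hV0 : 0 ≤ V := hv.trans hV
  exact div_le_div₀ (by (clear * - hV0; positivity)) (by (clear * - h1; linarith)) (by positivity) h2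

theorem Kb_nonneg {v s : ℝ} (hv : 0 ≤ v) : 0 ≤ Kb v s := by
  unfold Kb
  (clear * - hv; positivity)

theorem assemble {t p q r L c : ℝ} (hLM : L ≤ Mf t) (hD : 3 / 100000 + 292 / 100000 * c ≤ DD t p L q r)
    (hq : 0 < q) (hr : 0 < r) (hc : 4 * (t * p) - 2 ≤ c) (hc0 : 0 ≤ c)
    (hA1 : 1 - t * p ≤ 51245 / 100000)
    (hsq : p ^ 2 + q ^ 2 + r ^ 2 ≤ 1) (hV : vv p q r ≤ 10613 / 100000)
    (hb : 51 / 100 ≤ t + p - q - r) (hg : 14 / 10 ≤ t - p + q + r) :
    Beats t p q r (Mf t) := by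
  left
  have hv0 : 0 ≤ vv p q r := by
    unfold vv
    (clear * - hsq; linarith)
  have k1 := Kb_le hv0 hV (by norm_num) hb
  have k2 := Kb_le hv0 hV (by norm_num) hg
  have k1' : Kb (vv p q r) (t + p - q - r) ≤ 292 / 100000 := k1.trans (by norm_num)
  have k2' : Kb (vv p q r) (t - p + q + r) ≤ 52 / 1000000 := k2.trans (by norm_num)
  have k1n : 0 ≤ Kb (vv p q r) (t + p - q - r) := Kb_nonneg hv0
  have k2n : 0 ≤ Kb (vv p q r) (t - p + q + r) := Kb_nonneg hv0
  have m1 : max (4 * (t * p) - 2) 0 * Kb (vv p q r) (t + p - q - r) ≤ c * (292 / 100000) :=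
    mul_le_mul (max_le hc hc0) k1' k1n hc0
  have m2 : (1 - t * p) * Kb (vv p q r) (t - p + q + r) ≤ 51245 / 100000 * (52 / 1000000) :=
    mul_le_mul hA1 k2' k2n (by norm_num)
  have m3 : 8 * (q * r) * L ≤ 8 * (q * r) * Mf t :=
    mul_le_mul_of_nonneg_left hLM (by positivity)
  unfold DD at hD
  unfold Gi
  have e : (1 - t * p) * ((p + q + r - t) ^ 2 + vv p q r) =
      (1 - t * p) * ((p + q + r - t) ^ 2 + (1 - p ^ 2 - q ^ 2 - r ^ 2) / 3) := by
    unfold vv
    ring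
  rw [e]
  norm_num at m2
  (clear * - hD m1 m3 m2; linarith)

theorem a0_1 {p t : ℝ} (hx : 0 ≤ p - 239 / 500) (hy : 0 ≤ 13 / 25 - p) (hu : 0 ≤ t - 51 / 50) (hw : 0 ≤ 26 / 25 - t) :
    3 / 100000 + 292 / 100000 * (39 / 10 * (p - 478 / 1000)) ≤ DD t p (LL (11987 / 10000) t) p p := by
  have N : ∀ a b c d : ℕ, 0 ≤ (p - 239 / 500) ^ a * (13 / 25 - p) ^ b * ((t - 51 / 50) ^ c * (26 / 25 - t) ^ d) := fun a b c d =>
    mul_nonneg (mul_nonneg (pow_nonneg hx a) (pow_nonneg hy b))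
      (mul_nonneg (pow_nonneg hu c) (pow_nonneg hw d))
  unfold DD LL
  linear_combination (35713303697742516227 / 22226400000000) * N 0 3 0 3 +
    (48959527835281998029 / 11113200000000) * N 0 3 1 2 +
    (15014968049580088687 / 4445280000000) * N 0 3 2 1 +
    (1084374022923246967 / 1852200000000) * N 0 3 3 0 +
    (8855423858451351281 / 823200000000) * N 1 2 0 3 +
    (39813156987902852861 / 1234800000000) * N 1 2 1 2 +
    (4988358215036616661 / 164640000000) * N 1 2 2 1 +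
    (5453632706274399509 / 617400000000) * N 1 2 3 0 +
    (2035305526683536413 / 185220000000) * N 2 1 0 3 +
    (3144828579902591251 / 92610000000) * N 2 1 1 2 +
    (1220678547911951153 / 37044000000) * N 2 1 2 1 +
    (154403008869842473 / 15435000000) * N 2 1 3 0 +
    (158811126803951003 / 55566000000) * N 3 0 0 3 +
    (255623001331168181 / 27783000000) * N 3 0 1 2 +
    (101477724982563943 / 11113200000) * N 3 0 2 1 +
    (12945312421202863 / 4630500000) * N 3 0 3 0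

theorem a0_2 {p t : ℝ} (hx : 0 ≤ p - 239 / 500) (hy : 0 ≤ 13 / 25 - p) (hu : 0 ≤ t - 51 / 50) (hw : 0 ≤ 26 / 25 - t) :
    3 / 100000 + 292 / 100000 * (39 / 10 * (p - 478 / 1000)) ≤ DD t p (LL (11987 / 10000) t) p ((952 / 1000 - 4 / 10 * (p - 478 / 1000)) - p) := by
  have N : ∀ a b c d : ℕ, 0 ≤ (p - 239 / 500) ^ a * (13 / 25 - p) ^ b * ((t - 51 / 50) ^ c * (26 / 25 - t) ^ d) := fun a b c d =>
    mul_nonneg (mul_nonneg (pow_nonneg hx a) (pow_nonneg hy b))
      (mul_nonneg (pow_nonneg hu c) (pow_nonneg hw d))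
  unfold DD LL
  linear_combination (29928143265125424041 / 22226400000000) * N 0 3 0 3 +
    (40165622531221060807 / 11113200000000) * N 0 3 1 2 +
    (11462412065901594221 / 4445280000000) * N 0 3 2 1 +
    (251869947578259769 / 793800000000) * N 0 3 3 0 +
    (134702274957802879813 / 37044000000000) * N 1 2 0 3 +
    (196284861001979443051 / 18522000000000) * N 1 2 1 2 +
    (62562067826901826553 / 7408800000000) * N 1 2 2 1 +
    (662867762956584839 / 441000000000) * N 1 2 3 0 +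
    (55557335999630545799 / 18522000000000) * N 2 1 0 3 +
    (30180232803345644291 / 3087000000000) * N 2 1 1 2 +
    (3581267680916802091 / 411600000000) * N 2 1 2 1 +
    (1286160172171884791 / 661500000000) * N 2 1 3 0 +
    (1631883766250043889 / 2778300000000) * N 3 0 0 3 +
    (3367013162759714303 / 1389150000000) * N 3 0 1 2 +
    (1368652270457745109 / 555660000000) * N 3 0 2 1 +
    (62879242607833601 / 99225000000) * N 3 0 3 0

theorem b0_1 {p t : ℝ} (hx : 0 ≤ p - t / 2) (hy : 0 ≤ 3 / 100 - (p - t / 2)) (hu : 0 ≤ t - 51 / 50) (hw : 0 ≤ 26 / 25 - t) :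
    3 / 100000 + 292 / 100000 * (416 / 100 * p - 2) ≤ DD t p (LL (11987 / 10000) t) (t - p) (t - p) := by
  have N : ∀ a b c d : ℕ, 0 ≤ (p - t / 2) ^ a * (3 / 100 - (p - t / 2)) ^ b * ((t - 51 / 50) ^ c * (26 / 25 - t) ^ d) := fun a b c d =>
    mul_nonneg (mul_nonneg (pow_nonneg hx a) (pow_nonneg hy b))
      (mul_nonneg (pow_nonneg hu c) (pow_nonneg hw d))
  unfold DD LL
  linear_combination (2920491843592168987 / 6480000000) * N 0 3 0 4 +
    (11825049290981162359 / 6480000000) * N 0 3 1 3 +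
    (4346054323182460379 / 1620000000) * N 0 3 2 2 +
    (137097347877647473 / 81000000) * N 0 3 3 1 +
    (12958999921202863 / 33750000) * N 0 3 4 0 +
    (3187220320314044713 / 2160000000) * N 1 2 0 4 +
    (2690848810907274823 / 432000000) * N 1 2 1 3 +
    (10340121618205185277 / 1080000000) * N 1 2 2 2 +
    (429347791681085111 / 67500000) * N 1 2 3 1 +
    (1385795763169451 / 900000) * N 1 2 4 0 +
    (4278205978768361 / 2700000) * N 2 1 0 4 +
    (2487210665331239521 / 360000000) * N 2 1 1 3 +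
    (23683928785905843191 / 2160000000) * N 2 1 2 2 +
    (5426926157078352047 / 720000000) * N 2 1 3 1 +
    (341462407858496773 / 180000000) * N 2 1 4 0 +
    (14166114186305083 / 25312500) * N 3 0 0 4 +
    (507253409479198481 / 202500000) * N 3 0 1 3 +
    (26395273941216259427 / 6480000000) * N 3 0 2 2 +
    (18592735242532795607 / 6480000000) * N 3 0 3 1 +
    (400253764413065527 / 540000000) * N 3 0 4 0

theorem b0_2 {p t : ℝ} (hx : 0 ≤ p - t / 2) (hy : 0 ≤ 3 / 100 - (p - t / 2)) (hu : 0 ≤ t - 51 / 50) (hw : 0 ≤ 26 / 25 - t) :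
    3 / 100000 + 292 / 100000 * (416 / 100 * p - 2) ≤ DD t p (LL (11987 / 10000) t) (t - p) ((952 / 1000 - 4 / 10 * (p - 478 / 1000)) - (t - p)) := by
  have N : ∀ a b c d : ℕ, 0 ≤ (p - t / 2) ^ a * (3 / 100 - (p - t / 2)) ^ b * ((t - 51 / 50) ^ c * (26 / 25 - t) ^ d) := fun a b c d =>
    mul_nonneg (mul_nonneg (pow_nonneg hx a) (pow_nonneg hy b))
      (mul_nonneg (pow_nonneg hu c) (pow_nonneg hw d))
  unfold DD LL
  linear_combination (2137089270968185889 / 18000000000) * N 0 3 0 4 +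
    (79973600895261718111 / 162000000000) * N 0 3 1 3 +
    (58098385417489775819 / 81000000000) * N 0 3 2 2 +
    (1087611620665409893 / 2531250000) * N 0 3 3 1 +
    (442207823254835207 / 5062500000) * N 0 3 4 0 +
    (6445210148978690921 / 10800000000) * N 1 2 0 4 +
    (140018069474933795281 / 54000000000) * N 1 2 1 3 +
    (36309473983877231729 / 9000000000) * N 1 2 2 2 +
    (4825417111495226851 / 1800000000) * N 1 2 3 1 +
    (1445757007151406493 / 2250000000) * N 1 2 4 0 +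
    (23625177130695855397 / 27000000000) * N 2 1 0 4 +
    (104188780223084051813 / 27000000000) * N 2 1 1 3 +
    (2658129335074584601 / 432000000) * N 2 1 2 2 +
    (228599540459266274753 / 54000000000) * N 2 1 3 1 +
    (2873052987985979623 / 2700000000) * N 2 1 4 0 +
    (665271604043837933 / 1687500000) * N 3 0 0 4 +
    (141640436904482321573 / 81000000000) * N 3 0 1 3 +
    (456754979778158605891 / 162000000000) * N 3 0 2 2 +
    (319329745065814640821 / 162000000000) * N 3 0 3 1 +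
    (20497511277103059127 / 40500000000) * N 3 0 4 0

theorem a1_1 {p t : ℝ} (hx : 0 ≤ p - 39 / 80) (hy : 0 ≤ 53 / 100 - p) (hu : 0 ≤ t - 26 / 25) (hw : 0 ≤ 53 / 50 - t) :
    3 / 100000 + 292 / 100000 * (424 / 100 * p - 2) ≤ DD t p (LL (291 / 250) t) p p := by
  have N : ∀ a b c d : ℕ, 0 ≤ (p - 39 / 80) ^ a * (53 / 100 - p) ^ b * ((t - 26 / 25) ^ c * (53 / 50 - t) ^ d) := fun a b c d =>
    mul_nonneg (mul_nonneg (pow_nonneg hx a) (pow_nonneg hy b))
      (mul_nonneg (pow_nonneg hu c) (pow_nonneg hw d))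
  unfold DD LL
  linear_combination (105084149670349 / 92118750) * N 0 3 0 3 +
    (390455986262687 / 122825000) * N 0 3 1 2 +
    (144090186921989 / 61412500) * N 0 3 2 1 +
    (115849761425269 / 368475000) * N 0 3 3 0 +
    (3553883926819129 / 460593750) * N 1 2 0 3 +
    (43407777768969481 / 1842375000) * N 1 2 1 2 +
    (20385971708054707 / 921187500) * N 1 2 2 1 +
    (11615821354416449 / 1842375000) * N 1 2 3 0 +
    (7905629707931828 / 1151484375) * N 2 1 0 3 +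
    (25296956278794173 / 1151484375) * N 2 1 1 2 +
    (24658748433792862 / 1151484375) * N 2 1 2 1 +
    (7290634362930517 / 1151484375) * N 2 1 3 0 +
    (510671837254456 / 383828125) * N 3 0 0 3 +
    (5443280981900938 / 1151484375) * N 3 0 1 2 +
    (5516665428511772 / 1151484375) * N 3 0 2 1 +
    (1613349958374202 / 1151484375) * N 3 0 3 0

theorem a1_2 {p t : ℝ} (hx : 0 ≤ p - 39 / 80) (hy : 0 ≤ 53 / 100 - p) (hu : 0 ≤ t - 26 / 25) (hw : 0 ≤ 53 / 50 - t) :
    3 / 100000 + 292 / 100000 * (424 / 100 * p - 2) ≤ DD t p (LL (291 / 250) t) p ((975 / 1000 - 2 / 10 * (p - 4875 / 10000)) - p) := by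
  have N : ∀ a b c d : ℕ, 0 ≤ (p - 39 / 80) ^ a * (53 / 100 - p) ^ b * ((t - 26 / 25) ^ c * (53 / 50 - t) ^ d) := fun a b c d =>
    mul_nonneg (mul_nonneg (pow_nonneg hx a) (pow_nonneg hy b))
      (mul_nonneg (pow_nonneg hu c) (pow_nonneg hw d))
  unfold DD LL
  linear_combination (105084149670349 / 92118750) * N 0 3 0 3 +
    (390455986262687 / 122825000) * N 0 3 1 2 +
    (144090186921989 / 61412500) * N 0 3 2 1 +
    (115849761425269 / 368475000) * N 0 3 3 0 +
    (4884677567197114 / 1151484375) * N 1 2 0 3 +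
    (29590115866382573 / 2302968750) * N 1 2 1 2 +
    (12881326914791231 / 1151484375) * N 1 2 2 1 +
    (5987043097594117 / 2302968750) * N 1 2 3 0 +
    (58125203854870159 / 11514843750) * N 2 1 0 3 +
    (745979505286201151 / 46059375000) * N 2 1 1 2 +
    (355716869656980197 / 23029687500) * N 2 1 2 1 +
    (66294516482413293 / 15353125000) * N 2 1 3 0 +
    (3609250419448774 / 1919140625) * N 3 0 0 3 +
    (72859627108014329 / 11514843750) * N 3 0 1 2 +
    (36878785832975363 / 5757421875) * N 3 0 2 1 +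
    (22632947074629041 / 11514843750) * N 3 0 3 0

theorem b1_1 {p t : ℝ} (hx : 0 ≤ p - t / 2) (hy : 0 ≤ 1 / 50 - (p - t / 2)) (hu : 0 ≤ t - 26 / 25) (hw : 0 ≤ 53 / 50 - t) :
    3 / 100000 + 292 / 100000 * (424 / 100 * p - 2) ≤ DD t p (LL (291 / 250) t) (t - p) (t - p) := by
  have N : ∀ a b c d : ℕ, 0 ≤ (p - t / 2) ^ a * (1 / 50 - (p - t / 2)) ^ b * ((t - 26 / 25) ^ c * (53 / 50 - t) ^ d) := fun a b c d =>
    mul_nonneg (mul_nonneg (pow_nonneg hx a) (pow_nonneg hy b))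
      (mul_nonneg (pow_nonneg hu c) (pow_nonneg hw d))
  unfold DD LL
  linear_combination (16922785727261 / 18750) * N 0 3 0 4 +
    (275104888217467 / 75000) * N 0 3 1 3 +
    (318262834828991 / 60000) * N 0 3 2 2 +
    (3853311750832153 / 1200000) * N 0 3 3 1 +
    (806674979187101 / 1200000) * N 0 3 4 0 +
    (33746652577343 / 9375) * N 1 2 0 4 +
    (1134781383983911 / 75000) * N 1 2 1 3 +
    (286849929295091 / 12500) * N 1 2 2 2 +
    (17870715650825699 / 1200000) * N 1 2 3 1 +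
    (834010610467927 / 240000) * N 1 2 4 0 +
    (13335798545113 / 3000) * N 2 1 0 4 +
    (5714343477073301 / 300000) * N 2 1 1 3 +
    (4445177724172549 / 150000) * N 2 1 2 2 +
    (23874699071858311 / 1200000) * N 2 1 3 1 +
    (1945443922908641 / 400000) * N 2 1 4 0 +
    (209780617469 / 120) * N 3 0 0 4 +
    (91025499760301 / 12000) * N 3 0 1 3 +
    (1199090439802623 / 100000) * N 3 0 2 2 +
    (657153011457651 / 80000) * N 3 0 3 1 +
    (824317898524463 / 400000) * N 3 0 4 0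

theorem b1_2 {p t : ℝ} (hx : 0 ≤ p - t / 2) (hy : 0 ≤ 1 / 50 - (p - t / 2)) (hu : 0 ≤ t - 26 / 25) (hw : 0 ≤ 53 / 50 - t) :
    3 / 100000 + 292 / 100000 * (424 / 100 * p - 2) ≤ DD t p (LL (291 / 250) t) (t - p) ((975 / 1000 - 2 / 10 * (p - 4875 / 10000)) - (t - p)) := by
  have N : ∀ a b c d : ℕ, 0 ≤ (p - t / 2) ^ a * (1 / 50 - (p - t / 2)) ^ b * ((t - 26 / 25) ^ c * (53 / 50 - t) ^ d) := fun a b c d =>
    mul_nonneg (mul_nonneg (pow_nonneg hx a) (pow_nonneg hy b))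
      (mul_nonneg (pow_nonneg hu c) (pow_nonneg hw d))
  unfold DD LL
  linear_combination (1245046043306009 / 1500000) * N 0 3 0 4 +
    (3614720252505703 / 1000000) * N 0 3 1 3 +
    (27262613083717013 / 4800000) * N 0 3 2 2 +
    (15352225520995563 / 4000000) * N 0 3 3 1 +
    (22632947074629041 / 24000000) * N 0 3 4 0 +
    (9719387562200569 / 3000000) * N 1 2 0 4 +
    (56614210915415081 / 4000000) * N 1 2 1 3 +
    (1436660595608179 / 64000) * N 1 2 2 2 +
    (3850538680333009 / 250000) * N 1 2 3 1 +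
    (92834484953787673 / 24000000) * N 1 2 4 0 +
    (3027189107201519 / 750000) * N 2 1 0 4 +
    (35317917060052239 / 2000000) * N 2 1 1 3 +
    (9012461374866413 / 320000) * N 2 1 2 2 +
    (78015886480460607 / 4000000) * N 2 1 3 1 +
    (119105999057960927 / 24000000) * N 2 1 4 0 +
    (194991238128701 / 120000) * N 3 0 0 4 +
    (28455424214712209 / 4000000) * N 3 0 1 3 +
    (54654629036099783 / 4800000) * N 3 0 2 2 +
    (15867086558064013 / 2000000) * N 3 0 3 1 +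
    (3257753411920153 / 1600000) * N 3 0 4 0

end T3a

open T3a in
theorem fact_T3_0 {t p q r : ℝ} (hp0 : 0.478 ≤ p) (hp1 : p ≤ 0.54) (ht0 : 1.02 ≤ t) (ht1 : t ≤ 1.04)
    (hr : 0 < r) (hrq : r ≤ q) (hqp : q ≤ p) (hpq : p + q ≤ t) (hsq : p ^ 2 + q ^ 2 + r ^ 2 ≤ 1)
    (hS : S0 p ≤ q + r) : Beats t p q r (Mf t) := by
  unfold S0 at hS
  norm_num at hp0 hp1 ht0 ht1 hS
  have hLM : LL (11987 / 10000) t ≤ Mf t := LL_le (by norm_num) (by (clear * - hr hrq hqp hpq; linarith)) (by (clear * - ht1; linarith))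
  have tp0 : 1.02 * 0.478 ≤ t * p := mul_le_mul (by (clear * - ht0; linarith)) (by (clear * - hp0; linarith)) (by norm_num) (by (clear * - hr hrq hqp hpq; linarith))
  have tp1 : t * p ≤ 1.04 * 0.54 := mul_le_mul (by (clear * - ht1; linarith)) (by (clear * - hp1; linarith)) (by (clear * - hr hrq hqp; linarith)) (by norm_num)
  norm_num at tp0 tp1
  have hA : 0 ≤ 1 - t * p := by (clear * - hr hrq hqp hpq ht1 tp1; linarith)
  have hL : 1 - t * p ≤ 12 * LL (11987 / 10000) t := by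
    unfold LL
    (clear * - ht1 tp0; linarith)
  have hSl : 952 / 1000 - 4 / 10 * (p - 478 / 1000) ≤ q + r := by (clear * - hS; linarith)
  have hV : vv p q r ≤ 10613 / 100000 := by
    unfold vv
    have h1 : (q + r) ^ 2 ≤ 2 * (q ^ 2 + r ^ 2) := by (clear * -; nlinarith [sq_nonneg (q - r)])
    have h2 : (952 / 1000 - 4 / 10 * (p - 478 / 1000)) ^ 2 ≤ (q + r) ^ 2 :=
      pow_le_pow_left₀ (by (clear * - hr hrq hpq ht1; linarith)) hSl 2
    (clear * - hr hrq hqp hp0 h1 h2; nlinarith [mul_nonneg (show (0:ℝ) ≤ p - 239 / 500 by linarith) (show (0:ℝ) ≤ p - 239 / 500 by linarith)])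
  rcases le_total p (t / 2) with h | h
  · have hD := reduce (m := p) (Sl := 952 / 1000 - 4 / 10 * (p - 478 / 1000)) hqp hrq hSl hA hL
      (a0_1 (by (clear * - hp0; linarith)) (by (clear * - ht1 h; linarith)) (by (clear * - ht0; linarith)) (by (clear * - ht1; linarith)))
      (a0_2 (by (clear * - hp0; linarith)) (by (clear * - ht1 h; linarith)) (by (clear * - ht0; linarith)) (by (clear * - ht1; linarith)))
    refine assemble hLM hD (by (clear * - hr hrq; linarith)) hr ?_ (by (clear * - hp0; linarith)) (by (clear * - tp0; linarith)) hsq hV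
      (by (clear * - hrq hqp hpq ht0; linarith)) (by (clear * - hr hrq hqp hS h; linarith))
    (clear * - ht1 h hr hrq hqp; nlinarith)
  · have hD := reduce (m := t - p) (Sl := 952 / 1000 - 4 / 10 * (p - 478 / 1000)) (by (clear * - hpq; linarith)) hrq
      hSl hA hL
      (b0_1 (by (clear * - h; linarith)) (by (clear * - hp1 ht0; linarith)) (by (clear * - ht0; linarith)) (by (clear * - ht1; linarith)))
      (b0_2 (by (clear * - h; linarith)) (by (clear * - hp1 ht0; linarith)) (by (clear * - ht0; linarith)) (by (clear * - ht1; linarith)))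
    refine assemble hLM hD (by (clear * - hr hrq; linarith)) hr ?_ (by (clear * - hp0 ht0 h; linarith)) (by (clear * - tp0; linarith)) hsq hV
      (by (clear * - hrq hqp hpq ht0; linarith)) (by (clear * - hrq hpq hp1 ht0 hS; linarith))
    (clear * - hr ht1 hrq hqp; nlinarith)

open T3a in
theorem fact_T3_1 {t p q r : ℝ} (hp0 : 0.4875 ≤ p) (hp1 : p ≤ 0.54) (ht0 : 1.04 ≤ t) (ht1 : t ≤ 1.06)
    (hr : 0 < r) (hrq : r ≤ q) (hqp : q ≤ p) (hpq : p + q ≤ t) (hsq : p ^ 2 + q ^ 2 + r ^ 2 ≤ 1)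
    (hS : S1 p ≤ q + r) : Beats t p q r (Mf t) := by
  unfold S1 at hS
  norm_num at hp0 hp1 ht0 ht1 hS
  have hLM : LL (291 / 250) t ≤ Mf t := LL_le (by norm_num) (by (clear * - hr hrq hqp hpq; linarith)) (by (clear * - ht1; linarith))
  have tp0 : 1.04 * 0.4875 ≤ t * p := mul_le_mul (by (clear * - ht0; linarith)) (by (clear * - hp0; linarith)) (by norm_num) (by (clear * - hr hrq hqp hpq; linarith))
  have tp1 : t * p ≤ 1.06 * 0.54 := mul_le_mul (by (clear * - ht1; linarith)) (by (clear * - hp1; linarith)) (by (clear * - hr hrq hqp; linarith)) (by norm_num)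
  norm_num at tp0 tp1
  have hA : 0 ≤ 1 - t * p := by (clear * - hr hrq hqp hpq ht1 tp1; linarith)
  have hL : 1 - t * p ≤ 12 * LL (291 / 250) t := by
    unfold LL
    (clear * - ht1 tp0; linarith)
  have hSl : 975 / 1000 - 2 / 10 * (p - 4875 / 10000) ≤ q + r := by (clear * - hS; linarith)
  have hV : vv p q r ≤ 10613 / 100000 := by
    unfold vv
    have h1 : (q + r) ^ 2 ≤ 2 * (q ^ 2 + r ^ 2) := by (clear * -; nlinarith [sq_nonneg (q - r)])
    have h2 : (975 / 1000 - 2 / 10 * (p - 4875 / 10000)) ^ 2 ≤ (q + r) ^ 2 :=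
      pow_le_pow_left₀ (by (clear * - hr hrq hpq ht1; linarith)) hSl 2
    (clear * - hr hrq hqp hp0 h1 h2; nlinarith [mul_nonneg (show (0:ℝ) ≤ p - 39 / 80 by linarith) (show (0:ℝ) ≤ p - 39 / 80 by linarith)])
  rcases le_total p (t / 2) with h | h
  · have hD := reduce (m := p) (Sl := 975 / 1000 - 2 / 10 * (p - 4875 / 10000)) hqp hrq hSl hA hL
      (a1_1 (by (clear * - hp0; linarith)) (by (clear * - ht1 h; linarith)) (by (clear * - ht0; linarith)) (by (clear * - ht1; linarith)))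
      (a1_2 (by (clear * - hp0; linarith)) (by (clear * - ht1 h; linarith)) (by (clear * - ht0; linarith)) (by (clear * - ht1; linarith)))
    refine assemble hLM hD (by (clear * - hr hrq; linarith)) hr ?_ (by (clear * - hp0; linarith)) (by (clear * - tp0; linarith)) hsq hV
      (by (clear * - hr hrq hqp hpq ht0; linarith)) (by (clear * - hr hrq hqp hS h; linarith))
    (clear * - hr ht1 hrq hqp; nlinarith)
  · have hD := reduce (m := t - p) (Sl := 975 / 1000 - 2 / 10 * (p - 4875 / 10000)) (by (clear * - hpq; linarith)) hrq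
      hSl hA hL
      (b1_1 (by (clear * - h; linarith)) (by (clear * - hp1 ht0; linarith)) (by (clear * - ht0; linarith)) (by (clear * - ht1; linarith)))
      (b1_2 (by (clear * - h; linarith)) (by (clear * - hp1 ht0; linarith)) (by (clear * - ht0; linarith)) (by (clear * - ht1; linarith)))
    refine assemble hLM hD (by (clear * - hr hrq; linarith)) hr ?_ (by (clear * - hr hrq hqp hp0; linarith)) (by (clear * - tp0; linarith)) hsq hV
      (by (clear * - hr hrq hqp hpq ht0; linarith)) (by (clear * - hr hrq hpq hp1 hS; linarith))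
    (clear * - hr ht1 hrq hqp; nlinarith)

end Pool.Agent.M18.Helper89.SP
end

/- Helper95.SP.Crude.Run1 -/
section
/-! Box computations, part 1. -/

set_option autoImplicit false

namespace Pool.Agent.M18.Helper95.SP.Crude

def tr_D_1 : Tr :=
    (.x .l (.x .l (.x .l (.u (.x .l .l) (.x .l (.u .l .l))))))

theorem run_D_1 :
    cov 1 0 (t04 ^ 2) 1 (fun _ => false) (fun b => b.X1) tr_D_1 (mk t04 0 (38 / 100) 0 (38 /
    100) 0 0).ul = true := by
  decide +kernel

def tr_D_2 : Tr :=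
    (.x .l (.u (.x .l (.x .l (.u .l .l))) (.x .l (.u (.x .l .l) .l))))

theorem run_D_2 :
    cov 1 0 (t04 ^ 2) 1 (fun _ => false) (fun b => b.X1) tr_D_2 (mk t04 0 (38 / 100) 0 (38 /
    100) 0 0).ur = true := by
  decide +kernel

def tr_D : Tr :=
    (.u tr_D_1 tr_D_2)

theorem run_D :
    covD t04 1 tr_D (38 / 100) = true :=
  cov_u run_D_1 run_D_2

def tr_M104_1_1 : Tr :=
    (.u .l (.u .l (.u .l .l)))

theorem run_M104_1_1 :
    cov 1 0 (t04 ^ 2) 1 (empM t04 noQ) (fun b => b.U1) tr_M104_1_1 (mk t04 (38 / 100) (41 /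
    100) 0 (41 / 100) 0 0) = true := by
  decide +kernel

def tr_M104_1 : Tr :=
    tr_M104_1_1

theorem run_M104_1 :
    covM 1 t04 1 noQ tr_M104_1 (38 / 100) (41 / 100) (41 / 100) = true :=
  run_M104_1_1

def tr_M104_2_1 : Tr :=
    (.u .l (.u .l .l))

theorem run_M104_2_1 :
    cov 2 0 (t04 ^ 2) 1 (empM t04 noQ) (fun b => b.U1) tr_M104_2_1 (mk t04 (38 / 100) (41 /
    100) 0 (41 / 100) 0 0) = true := by
  decide +kernel

def tr_M104_2 : Tr :=
    tr_M104_2_1

theorem run_M104_2 :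
    covM 2 t04 1 noQ tr_M104_2 (38 / 100) (41 / 100) (41 / 100) = true :=
  run_M104_2_1

def tr_M104_3_1 : Tr :=
    (.u .l (.u .l .l))

theorem run_M104_3_1 :
    cov 3 0 (t04 ^ 2) 1 (empM t04 noQ) (fun b => b.U1) tr_M104_3_1 (mk t04 (38 / 100) (41 /
    100) 0 (41 / 100) 0 0) = true := by
  decide +kernel

def tr_M104_3 : Tr :=
    tr_M104_3_1

theorem run_M104_3 :
    covM 3 t04 1 noQ tr_M104_3 (38 / 100) (41 / 100) (41 / 100) = true :=
  run_M104_3_1

def tr_M104_4_1 : Tr :=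
    (.u .l (.u .l .l))

theorem run_M104_4_1 :
    cov 4 0 (t04 ^ 2) 1 (empM t04 noQ) (fun b => b.U1) tr_M104_4_1 (mk t04 (38 / 100) (41 /
    100) 0 (41 / 100) 0 0) = true := by
  decide +kernel

def tr_M104_4 : Tr :=
    tr_M104_4_1

theorem run_M104_4 :
    covM 4 t04 1 noQ tr_M104_4 (38 / 100) (41 / 100) (41 / 100) = true :=
  run_M104_4_1

def tr_M104_5_1 : Tr :=
    (.u .l (.u .l .l))

theorem run_M104_5_1 :
    cov 5 0 (t04 ^ 2) 1 (empM t04 noQ) (fun b => b.U1) tr_M104_5_1 (mk t04 (38 / 100) (41 /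
    100) 0 (41 / 100) 0 0) = true := by
  decide +kernel

def tr_M104_5 : Tr :=
    tr_M104_5_1

theorem run_M104_5 :
    covM 5 t04 1 noQ tr_M104_5 (38 / 100) (41 / 100) (41 / 100) = true :=
  run_M104_5_1

def tr_M104_6_1 : Tr :=
    (.u (.x .l (.x (.u .l .l) (.u .l .l))) .l)

theorem run_M104_6_1 :
    cov 6 0 (t04 ^ 2) 1 (empM t04 noQ) (fun b => b.U1) tr_M104_6_1 (mk t04 (38 / 100) (41 /
    100) 0 (41 / 100) 0 0) = true := by
  decide +kernel

def tr_M104_6 : Tr :=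
    tr_M104_6_1

theorem run_M104_6 :
    covM 6 t04 1 noQ tr_M104_6 (38 / 100) (41 / 100) (41 / 100) = true :=
  run_M104_6_1

def tr_M102_1_1 : Tr :=
    .l

theorem run_M102_1_1 :
    cov 1 0 (t02 ^ 2) 1 (empM t02 noQ) (fun b => b.U1) tr_M102_1_1 (mk t02 (41 / 100) (478 /
    1000) 0 (478 / 1000) 0 0).ul = true := by
  decide +kernel

def tr_M102_1_2 : Tr :=
    (.u .l .l)

theorem run_M102_1_2 :
    cov 1 0 (t02 ^ 2) 1 (empM t02 noQ) (fun b => b.U1) tr_M102_1_2 (mk t02 (41 / 100) (478 /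
    1000) 0 (478 / 1000) 0 0).ur.ul = true := by
  decide +kernel

def tr_M102_1_3 : Tr :=
    (.x .l .l)

theorem run_M102_1_3 :
    cov 1 0 (t02 ^ 2) 1 (empM t02 noQ) (fun b => b.U1) tr_M102_1_3 (mk t02 (41 / 100) (478 /
    1000) 0 (478 / 1000) 0 0).ur.ur.ul = true := by
  decide +kernel

def tr_M102_1_4 : Tr :=
    (.u (.x (.u .l .l) (.u .l .l)) .l)

theorem run_M102_1_4 :
    cov 1 0 (t02 ^ 2) 1 (empM t02 noQ) (fun b => b.U1) tr_M102_1_4 (mk t02 (41 / 100) (478 /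
    1000) 0 (478 / 1000) 0 0).ur.ur.ur.xl = true := by
  decide +kernel

def tr_M102_1_5 : Tr :=
    (.u (.x (.u .l .l) .l) (.x (.u .l .l) (.u .l (.x (.u .l .l) (.u .l .l)))))

theorem run_M102_1_5 :
    cov 1 0 (t02 ^ 2) 1 (empM t02 noQ) (fun b => b.U1) tr_M102_1_5 (mk t02 (41 / 100) (478 /
    1000) 0 (478 / 1000) 0 0).ur.ur.ur.xr = true := by
  decide +kernel

def tr_M102_1 : Tr :=
    (.u tr_M102_1_1 (.u tr_M102_1_2 (.u tr_M102_1_3 (.x tr_M102_1_4 tr_M102_1_5))))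

theorem run_M102_1 :
    covM 1 t02 1 noQ tr_M102_1 (41 / 100) (478 / 1000) (478 / 1000) = true :=
  cov_u run_M102_1_1 (cov_u run_M102_1_2 (cov_u run_M102_1_3 (cov_x run_M102_1_4
    run_M102_1_5)))

def tr_M102_2_1 : Tr :=
    .l

theorem run_M102_2_1 :
    cov 2 0 (t02 ^ 2) 1 (empM t02 noQ) (fun b => b.U1) tr_M102_2_1 (mk t02 (41 / 100) (478 /
    1000) 0 (478 / 1000) 0 0).ul = true := by
  decide +kernel

def tr_M102_2_2 : Tr :=
    .l

theorem run_M102_2_2 :
    cov 2 0 (t02 ^ 2) 1 (empM t02 noQ) (fun b => b.U1) tr_M102_2_2 (mk t02 (41 / 100) (478 /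
    1000) 0 (478 / 1000) 0 0).ur.ul = true := by
  decide +kernel

def tr_M102_2_3 : Tr :=
    (.u .l (.x (.u .l .l) (.u .l .l)))

theorem run_M102_2_3 :
    cov 2 0 (t02 ^ 2) 1 (empM t02 noQ) (fun b => b.U1) tr_M102_2_3 (mk t02 (41 / 100) (478 /
    1000) 0 (478 / 1000) 0 0).ur.ur.xl = true := by
  decide +kernel

def tr_M102_2_4 : Tr :=
    (.u (.x .l (.u .l .l)) (.x (.u .l (.x (.u .l .l) (.u .l .l))) (.u (.x .l .l) (.x (.u .l .l)
    (.u .l .l)))))

theorem run_M102_2_4 :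
    cov 2 0 (t02 ^ 2) 1 (empM t02 noQ) (fun b => b.U1) tr_M102_2_4 (mk t02 (41 / 100) (478 /
    1000) 0 (478 / 1000) 0 0).ur.ur.xr = true := by
  decide +kernel

def tr_M102_2 : Tr :=
    (.u tr_M102_2_1 (.u tr_M102_2_2 (.x tr_M102_2_3 tr_M102_2_4)))

theorem run_M102_2 :
    covM 2 t02 1 noQ tr_M102_2 (41 / 100) (478 / 1000) (478 / 1000) = true :=
  cov_u run_M102_2_1 (cov_u run_M102_2_2 (cov_x run_M102_2_3 run_M102_2_4))

end Pool.Agent.M18.Helper95.SP.Crude
end

/- Helper95.SP.Crude.Run6 -/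
section
/-! Box computations, part 6. -/

set_option autoImplicit false

namespace Pool.Agent.M18.Helper95.SP.Crude

def tr_M2_106_1 : Tr :=
    .l

theorem run_M2_106_1 :
    cov 2 0 (t06 ^ 2) 1 (empM t06 (lineQ (4975 / 10000) 9 (993 / 1000) (6 / 10) (4975 /
    10000))) (fun b => b.U1) tr_M2_106_1 (mk t06 (49 / 100) (54 / 100) 0 (505 / 1000) 0 0).ul = true := by
  decide +kernel

def tr_M2_106_2 : Tr :=
    (.x .l .l)

theorem run_M2_106_2 :
    cov 2 0 (t06 ^ 2) 1 (empM t06 (lineQ (4975 / 10000) 9 (993 / 1000) (6 / 10) (4975 /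
    10000))) (fun b => b.U1) tr_M2_106_2 (mk t06 (49 / 100) (54 / 100) 0 (505 / 1000) 0
    0).ur.ul = true := by
  decide +kernel

def tr_M2_106_3 : Tr :=
    (.x (.u .l .l) (.u .l (.x (.u .l .l) (.u (.x .l .l) (.x .l (.u .l (.x .l .l)))))))

theorem run_M2_106_3 :
    cov 2 0 (t06 ^ 2) 1 (empM t06 (lineQ (4975 / 10000) 9 (993 / 1000) (6 / 10) (4975 /
    10000))) (fun b => b.U1) tr_M2_106_3 (mk t06 (49 / 100) (54 / 100) 0 (505 / 1000) 0
    0).ur.ur.ul = true := by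
  decide +kernel

def tr_M2_106_4 : Tr :=
    (.x .l (.u .l (.x .l (.u .l .l))))

theorem run_M2_106_4 :
    cov 2 0 (t06 ^ 2) 1 (empM t06 (lineQ (4975 / 10000) 9 (993 / 1000) (6 / 10) (4975 /
    10000))) (fun b => b.U1) tr_M2_106_4 (mk t06 (49 / 100) (54 / 100) 0 (505 / 1000) 0
    0).ur.ur.ur.xl.ul = true := by
  decide +kernel

def tr_M2_106_5 : Tr :=
    (.x .l (.u .l (.x .l .l)))

theorem run_M2_106_5 :
    cov 2 0 (t06 ^ 2) 1 (empM t06 (lineQ (4975 / 10000) 9 (993 / 1000) (6 / 10) (4975 /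
    10000))) (fun b => b.U1) tr_M2_106_5 (mk t06 (49 / 100) (54 / 100) 0 (505 / 1000) 0
    0).ur.ur.ur.xl.ur.xl.ul = true := by
  decide +kernel

def tr_M2_106_6 : Tr :=
    (.u (.x .l (.u .l .l)) .l)

theorem run_M2_106_6 :
    cov 2 0 (t06 ^ 2) 1 (empM t06 (lineQ (4975 / 10000) 9 (993 / 1000) (6 / 10) (4975 /
    10000))) (fun b => b.U1) tr_M2_106_6 (mk t06 (49 / 100) (54 / 100) 0 (505 / 1000) 0
    0).ur.ur.ur.xl.ur.xl.ur.xl = true := by
  decide +kernel

def tr_M2_106_7 : Tr :=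
    (.u (.x (.u .l (.x .l (.u .l .l))) (.u (.x .l (.u .l .l)) .l)) (.x (.u (.x (.u (.x .l .l)
    .l) .l) .l) .l))

theorem run_M2_106_7 :
    cov 2 0 (t06 ^ 2) 1 (empM t06 (lineQ (4975 / 10000) 9 (993 / 1000) (6 / 10) (4975 /
    10000))) (fun b => b.U1) tr_M2_106_7 (mk t06 (49 / 100) (54 / 100) 0 (505 / 1000) 0
    0).ur.ur.ur.xl.ur.xl.ur.xr = true := by
  decide +kernel

def tr_M2_106_8 : Tr :=
    (.u (.x (.u .l (.x (.u .l (.x .l .l)) (.u .l .l))) (.u (.x (.u .l .l) .l) .l)) .l)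

theorem run_M2_106_8 :
    cov 2 0 (t06 ^ 2) 1 (empM t06 (lineQ (4975 / 10000) 9 (993 / 1000) (6 / 10) (4975 /
    10000))) (fun b => b.U1) tr_M2_106_8 (mk t06 (49 / 100) (54 / 100) 0 (505 / 1000) 0
    0).ur.ur.ur.xl.ur.xr = true := by
  decide +kernel

def tr_M2_106_9 : Tr :=
    (.u (.x (.u (.x .l (.u .l .l)) (.x (.u .l (.x (.u .l .l) .l)) .l)) (.u (.x (.u (.x .l .l)
    .l) .l) .l)) .l)

theorem run_M2_106_9 :
    cov 2 0 (t06 ^ 2) 1 (empM t06 (lineQ (4975 / 10000) 9 (993 / 1000) (6 / 10) (4975 /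
    10000))) (fun b => b.U1) tr_M2_106_9 (mk t06 (49 / 100) (54 / 100) 0 (505 / 1000) 0
    0).ur.ur.ur.xr = true := by
  decide +kernel

def tr_M2_106 : Tr :=
    (.u tr_M2_106_1 (.u tr_M2_106_2 (.u tr_M2_106_3 (.x (.u tr_M2_106_4 (.x (.u tr_M2_106_5 (.x
    tr_M2_106_6 tr_M2_106_7)) tr_M2_106_8)) tr_M2_106_9))))

theorem run_M2_106 :
    covM 2 t06 1 (lineQ (4975 / 10000) 9 (993 / 1000) (6 / 10) (4975 / 10000)) tr_M2_106 (49 /
    100) (54 / 100) (505 / 1000) = true :=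
  cov_u run_M2_106_1 (cov_u run_M2_106_2 (cov_u run_M2_106_3 (cov_x (cov_u run_M2_106_4 (cov_x
    (cov_u run_M2_106_5 (cov_x run_M2_106_6 run_M2_106_7)) run_M2_106_8)) run_M2_106_9)))

end Pool.Agent.M18.Helper95.SP.Crude
end

/- Helper95.SP.Crude.Run7 -/
section
/-! Box computations, part 7. -/

set_option autoImplicit false

namespace Pool.Agent.M18.Helper95.SP.Crude

def tr_M2_108_1 : Tr :=
    .l

theorem run_M2_108_1 :
    cov 2 0 (t08 ^ 2) 1 (empM t08 (lineQ (5065 / 10000) 9 (1008 / 1000) (15 / 10) (5065 /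
    10000))) (fun b => b.U1) tr_M2_108_1 (mk t08 (4975 / 10000) (55 / 100) 0 (52 / 100) 0
    0).ul = true := by
  decide +kernel

def tr_M2_108_2 : Tr :=
    (.x .l .l)

theorem run_M2_108_2 :
    cov 2 0 (t08 ^ 2) 1 (empM t08 (lineQ (5065 / 10000) 9 (1008 / 1000) (15 / 10) (5065 /
    10000))) (fun b => b.U1) tr_M2_108_2 (mk t08 (4975 / 10000) (55 / 100) 0 (52 / 100) 0
    0).ur.ul = true := by
  decide +kernel

def tr_M2_108_3 : Tr :=
    (.x (.u .l (.x .l (.u .l .l))) (.u .l (.x (.u .l (.x .l (.u .l .l))) (.u (.x (.u .l .l) .l)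
    .l))))

theorem run_M2_108_3 :
    cov 2 0 (t08 ^ 2) 1 (empM t08 (lineQ (5065 / 10000) 9 (1008 / 1000) (15 / 10) (5065 /
    10000))) (fun b => b.U1) tr_M2_108_3 (mk t08 (4975 / 10000) (55 / 100) 0 (52 / 100) 0
    0).ur.ur.ul = true := by
  decide +kernel

def tr_M2_108_4 : Tr :=
    (.u .l (.x .l (.u .l .l)))

theorem run_M2_108_4 :
    cov 2 0 (t08 ^ 2) 1 (empM t08 (lineQ (5065 / 10000) 9 (1008 / 1000) (15 / 10) (5065 /
    10000))) (fun b => b.U1) tr_M2_108_4 (mk t08 (4975 / 10000) (55 / 100) 0 (52 / 100) 0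
    0).ur.ur.ur.xl.ul.xl = true := by
  decide +kernel

def tr_M2_108_5 : Tr :=
    (.u (.x .l (.u .l (.x .l .l))) (.x (.u (.x .l .l) (.x .l (.u .l .l))) (.u (.x (.u .l .l) .l)
    .l)))

theorem run_M2_108_5 :
    cov 2 0 (t08 ^ 2) 1 (empM t08 (lineQ (5065 / 10000) 9 (1008 / 1000) (15 / 10) (5065 /
    10000))) (fun b => b.U1) tr_M2_108_5 (mk t08 (4975 / 10000) (55 / 100) 0 (52 / 100) 0
    0).ur.ur.ur.xl.ul.xr = true := by
  decide +kernel

def tr_M2_108_6 : Tr :=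
    (.u (.x (.u .l (.x .l .l)) (.u (.x .l (.u .l .l)) (.x .l .l))) (.x (.u (.x .l .l) .l) (.u
    (.x .l .l) .l)))

theorem run_M2_108_6 :
    cov 2 0 (t08 ^ 2) 1 (empM t08 (lineQ (5065 / 10000) 9 (1008 / 1000) (15 / 10) (5065 /
    10000))) (fun b => b.U1) tr_M2_108_6 (mk t08 (4975 / 10000) (55 / 100) 0 (52 / 100) 0
    0).ur.ur.ur.xl.ur.xl = true := by
  decide +kernel

def tr_M2_108_7 : Tr :=
    (.u (.x (.u (.x (.u .l .l) .l) .l) .l) .l)

theorem run_M2_108_7 :
    cov 2 0 (t08 ^ 2) 1 (empM t08 (lineQ (5065 / 10000) 9 (1008 / 1000) (15 / 10) (5065 /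
    10000))) (fun b => b.U1) tr_M2_108_7 (mk t08 (4975 / 10000) (55 / 100) 0 (52 / 100) 0
    0).ur.ur.ur.xl.ur.xr = true := by
  decide +kernel

def tr_M2_108_8 : Tr :=
    (.u (.x (.u (.x (.u (.x .l .l) .l) .l) .l) .l) .l)

theorem run_M2_108_8 :
    cov 2 0 (t08 ^ 2) 1 (empM t08 (lineQ (5065 / 10000) 9 (1008 / 1000) (15 / 10) (5065 /
    10000))) (fun b => b.U1) tr_M2_108_8 (mk t08 (4975 / 10000) (55 / 100) 0 (52 / 100) 0
    0).ur.ur.ur.xr = true := by
  decide +kernel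

def tr_M2_108 : Tr :=
    (.u tr_M2_108_1 (.u tr_M2_108_2 (.u tr_M2_108_3 (.x (.u (.x tr_M2_108_4 tr_M2_108_5) (.x
    tr_M2_108_6 tr_M2_108_7)) tr_M2_108_8))))

theorem run_M2_108 :
    covM 2 t08 1 (lineQ (5065 / 10000) 9 (1008 / 1000) (15 / 10) (5065 / 10000)) tr_M2_108
    (4975 / 10000) (55 / 100) (52 / 100) = true :=
  cov_u run_M2_108_1 (cov_u run_M2_108_2 (cov_u run_M2_108_3 (cov_x (cov_u (cov_x run_M2_108_4
    run_M2_108_5) (cov_x run_M2_108_6 run_M2_108_7)) run_M2_108_8)))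

def tr_M2_120b_1 : Tr :=
    (.u .l (.u .l (.x .l (.u .l .l))))

theorem run_M2_120b_1 :
    cov 2 0 (t20 ^ 2) 1 (empM t20 (lineQ 0 9 (95 / 100) 0 0)) (fun b => b.U1) tr_M2_120b_1 (mk
    t20 (58 / 100) (66 / 100) 0 (37 / 100) 0 0).xl = true := by
  decide +kernel

def tr_M2_120b_2 : Tr :=
    (.x .l (.x .l .l))

theorem run_M2_120b_2 :
    cov 2 0 (t20 ^ 2) 1 (empM t20 (lineQ 0 9 (95 / 100) 0 0)) (fun b => b.U1) tr_M2_120b_2 (mk
    t20 (58 / 100) (66 / 100) 0 (37 / 100) 0 0).xr.ul = true := by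
  decide +kernel

def tr_M2_120b_3 : Tr :=
    (.x (.x .l .l) (.x (.u .l .l) (.u .l .l)))

theorem run_M2_120b_3 :
    cov 2 0 (t20 ^ 2) 1 (empM t20 (lineQ 0 9 (95 / 100) 0 0)) (fun b => b.U1) tr_M2_120b_3 (mk
    t20 (58 / 100) (66 / 100) 0 (37 / 100) 0 0).xr.ur.ul = true := by
  decide +kernel

def tr_M2_120b_4 : Tr :=
    (.x (.u (.x .l .l) (.x .l .l)) (.u (.x (.u .l .l) (.u .l .l)) .l))

theorem run_M2_120b_4 :
    cov 2 0 (t20 ^ 2) 1 (empM t20 (lineQ 0 9 (95 / 100) 0 0)) (fun b => b.U1) tr_M2_120b_4 (mk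
    t20 (58 / 100) (66 / 100) 0 (37 / 100) 0 0).xr.ur.ur = true := by
  decide +kernel

def tr_M2_120b : Tr :=
    (.x tr_M2_120b_1 (.u tr_M2_120b_2 (.u tr_M2_120b_3 tr_M2_120b_4)))

theorem run_M2_120b :
    covM 2 t20 1 (lineQ 0 9 (95 / 100) 0 0) tr_M2_120b (58 / 100) (66 / 100) (37 / 100) = true :=
  cov_x run_M2_120b_1 (cov_u run_M2_120b_2 (cov_u run_M2_120b_3 run_M2_120b_4))

end Pool.Agent.M18.Helper95.SP.Crude
end
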