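import Mathlib
import Pool.Agent.Helper53.AM.G04
import Pool.Agent.Helper53.AM.G05
import Pool.Agent.Helper53.AM.G07

/- Helper89.Slab.Tail -/
section
/-!
Slabs of the cube (problem MP_66ebcc_gt): comparison of two tails on lists.
-/

namespace Pool.Agent.M18.Slab

open MeasureTheory Set

theorem continuous_AL {φ : ℝ → ℝ} (h : Continuous φ) (l : List ℝ) : Continuous (AL l φ) := by
  induction l with
  | nil => exact h
  | cons x l ih => rw [AL_cons]; exact continuous_A ih x

theorem AL_sub {φ ψ : ℝ → ℝ} (hφ : Continuous φ) (hψ : Continuous ψ) (l : List ℝ) :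
    AL l (fun s => φ s - ψ s) = fun s => AL l φ s - AL l ψ s := by
  induction l with
  | nil => rfl
  | cons x l ih =>
    rw [AL_cons, ih, A_sub (continuous_AL hφ l) (continuous_AL hψ l)]
    rfl

theorem hasDerivAt_AL {r D : ℝ → ℝ} (h : ∀ s, HasDerivAt r (D s) s) (hD : Continuous D)
    (l : List ℝ) : ∀ s, HasDerivAt (AL l r) (AL l D s) s := by
  induction l with
  | nil => exact h
  | cons x l ih => rw [AL_cons, AL_cons]; exact hasDerivAt_A ih (continuous_AL hD l) x

theorem Sh.AL {r : ℝ → ℝ} (h : Sh r) (l : List ℝ) : Sh (AL l r) := by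
  induction l with
  | nil => exact h
  | cons x l ih => rw [AL_cons]; exact ih.avg x

/-- the moments of `AL l r` -/
theorem moments_AL {r : ℝ → ℝ} (h : Sh r) {β : ℝ} (h2 : 0 < ∫ s, s ^ 2 * r s)
    (h4 : ∫ s, s ^ 4 * r s = β * ∫ s, s ^ 2 * r s) (l : List ℝ) :
    0 < (∫ s, s ^ 2 * Pool.Agent.M18.Slab.AL l r s) ∧ ∫ s, s ^ 4 * Pool.Agent.M18.Slab.AL l r s =
      (β + 2 * (l.map (fun x => x ^ 2)).sum) * ∫ s, s ^ 2 * Pool.Agent.M18.Slab.AL l r s := by
  induction l with
  | nil => simpa [AL_nil] using ⟨h2, h4⟩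
  | cons x l ih =>
    obtain ⟨i2, i4⟩ := ih
    have hS := h.AL l
    obtain ⟨L, hL⟩ := hS.supp
    have e2 := integral_sq_A hS.cont hL x
    have e4 := integral_pow_four_A hS.cont hL x
    rw [hS.int0] at e2 e4
    rw [AL_cons, e2, e4, i4, List.map_cons, List.sum_cons]
    constructor
    · linarith
    · ring

/-- Comparison of the tails for two pairs with the same sum of squares. -/
theorem tail_le {p q p' q' : ℝ} (hq : 0 ≤ q) (hqp : q ≤ p) (hq' : 0 ≤ q') (hqp' : q' ≤ p')
    (hc : p ^ 2 + q ^ 2 = p' ^ 2 + q' ^ 2) (hlt : p * q < p' * q') (l : List ℝ) {t : ℝ}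
    (ht : 0 ≤ t)
    (hb : 5 / 3 * (6 / 7 * (p ^ 2 + q ^ 2) + 2 * (l.map (fun x => x ^ 2)).sum) ≤ t ^ 2) :
    AL (l ++ [p, q]) H t ≤ AL (l ++ [p', q']) H t := by
  obtain ⟨r, hr, hd, h2, h4⟩ := exists_base hq hqp hq' hqp' hc hlt
  have hpq' : 0 < p' * q' := lt_of_le_of_lt (mul_nonneg (hq.trans hqp) hq) hlt
  have hp' : 0 < p' := by
    rcases lt_or_eq_of_le (hq'.trans hqp') with h | h
    · exact h
    · rw [← h] at hpq'; simp at hpq'
  have hp : 0 < p := by
    rcases lt_or_eq_of_le (hq.trans hqp) with h | h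
    · exact h
    · exfalso
      have hq0 : q = 0 := le_antisymm (by rw [h]; exact hqp) hq
      rw [← h, hq0] at hc
      nlinarith [sq_nonneg q', pow_pos hp' 2]
  have c1 : Continuous (A p (A q H)) := AAH_continuous hp hq
  have c2 : Continuous (A p' (A q' H)) := AAH_continuous hp' hq'
  have hS := hr.AL l
  obtain ⟨m2, m4⟩ := moments_AL hr h2 h4 l
  have hD : ∀ s, HasDerivAt (AL l r) (AL l (A p (A q H)) s - AL l (A p' (A q' H)) s) s := by
    have := hasDerivAt_AL hd (c1.sub c2) l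
    intro s
    have e := AL_sub c1 c2 l
    have h3 := this s
    rw [e] at h3
    exact h3
  have key := hS.deriv_nonpos hD m2 (le_of_eq m4) ht (by linarith)
  rw [AL_append, AL_append]
  have e1 : AL [p, q] H = A p (A q H) := rfl
  have e2 : AL [p', q'] H = A p' (A q' H) := rfl
  rw [e1, e2]
  linarith

end Pool.Agent.M18.Slab
end

/- Helper95.SP.Kernel -/
section
/-!
Slabs of the cube (problem MP_66ebcc_gt), project SP: the function `AL l r` is the kernel of the
difference of the two averages: `∫ W'' * AL l r = AL (l ++ [p', q']) W 0 - AL (l ++ [p, q]) W 0`.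
-/

set_option autoImplicit false

namespace Pool.Agent.M18.Helper95.SP

open MeasureTheory Set Pool.Agent.M18.Slab

theorem H_measurable : Measurable H := by
  unfold H
  exact Measurable.ite measurableSet_Iio measurable_const measurable_const

theorem H_bdd (s : ℝ) : |H s| ≤ 1 := by
  unfold H; split_ifs <;> simp

/-- swap of a finite integral with the average -/
theorem swap {φ W₁ : ℝ → ℝ} (hφ : Measurable φ) {B : ℝ} (hB : ∀ s, |φ s| ≤ B)
    (hW : Continuous W₁) (x L b : ℝ) :
    ∫ s in (-L)..L, W₁ s * A x φ (s - b) =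
      ∫ u in (-1 : ℝ)..1, ∫ s in (-L)..L, W₁ s * φ (s - (b + x * u)) := by
  have h1 : ∀ s, W₁ s * A x φ (s - b) = ∫ u in (-1 : ℝ)..1, W₁ s * φ (s - (b + x * u)) := by
    intro s
    unfold A
    rw [← intervalIntegral.integral_const_mul]
    refine intervalIntegral.integral_congr fun u _ => ?_
    show W₁ s * φ (s - b - x * u) = W₁ s * φ (s - (b + x * u))
    rw [sub_sub]
  simp_rw [h1]
  refine intervalIntegral_intervalIntegral_swap (F := fun s u => W₁ s * φ (s - (b + x * u))) ?_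
  obtain ⟨C, hC⟩ := (isCompact_uIcc (a := -L) (b := L)).exists_bound_of_continuousOn
    (hW.continuousOn)
  refine Measure.integrableOn_of_bounded (M := C * B) ?_ ?_ ?_
  · exact ((measure_mono (prod_mono uIoc_subset_uIcc uIoc_subset_uIcc)).trans_lt
      (isCompact_uIcc.prod isCompact_uIcc).measure_lt_top).ne
  · apply Measurable.aestronglyMeasurable
    show Measurable fun p : ℝ × ℝ => W₁ p.1 * φ (p.1 - (b + x * p.2))
    exact (hW.measurable.comp measurable_fst).mul (hφ.comp (by fun_prop))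
  · refine (ae_restrict_iff' (measurableSet_uIoc.prod measurableSet_uIoc)).mpr ?_
    refine Filter.Eventually.of_forall fun p hp => ?_
    show ‖W₁ p.1 * φ (p.1 - (b + x * p.2))‖ ≤ C * B
    rw [norm_mul]
    have hC0 : 0 ≤ C := (norm_nonneg _).trans (hC p.1 (uIoc_subset_uIcc hp.1))
    exact mul_le_mul (hC p.1 (uIoc_subset_uIcc hp.1)) (hB _) (norm_nonneg _) hC0

/-- reflection invariance of the average at zero -/
theorem A_comp_mul (x : ℝ) (φ : ℝ → ℝ) (s : ℝ) :
    ∫ u in (-1 : ℝ)..1, φ (s + x * u) = A x φ s := by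
  unfold A
  have := intervalIntegral.integral_comp_neg (a := -1) (b := 1) (f := fun u => φ (s - x * u))
  rw [neg_neg] at this
  rw [← this]
  refine intervalIntegral.integral_congr fun u _ => ?_
  show φ (s + x * u) = φ (s - x * -u)
  ring_nf

/-- one indicator -/
theorem int_H {W W₁ : ℝ → ℝ} (hW : ∀ s, HasDerivAt W (W₁ s) s) (hW₁ : Continuous W₁) {L b : ℝ}
    (hb : |b| ≤ L) : ∫ s in (-L)..L, W₁ s * H (s - b) = W b - W (-L) := by
  obtain ⟨hb1, hb2⟩ := abs_le.mp hb
  have hi : ∀ x y, IntervalIntegrable (fun s => W₁ s * H (s - b)) volume x y := by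
    intro x y
    have h1 : IntervalIntegrable W₁ volume x y := hW₁.intervalIntegrable x y
    rw [intervalIntegrable_iff] at h1 ⊢
    refine h1.mul_bdd (c := 1) ?_ ?_
    · exact (H_measurable.comp (measurable_id.sub_const b)).aestronglyMeasurable
    · exact Filter.Eventually.of_forall fun s => by simpa using H_bdd (s - b)
  rw [← intervalIntegral.integral_add_adjacent_intervals (hi (-L) b) (hi b L)]
  have e1 : ∫ s in (-L)..b, W₁ s * H (s - b) = ∫ s in (-L)..b, W₁ s := by
    apply intervalIntegral.integral_congr_ae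
    have hne : ∀ᵐ s : ℝ, s ≠ b := by
      rw [ae_iff]
      simp
    filter_upwards [hne] with s hs hm
    rw [uIoc_of_le hb1] at hm
    unfold H
    rw [if_pos (by linarith [lt_of_le_of_ne hm.2 hs]), mul_one]
  have e2 : ∫ s in b..L, W₁ s * H (s - b) = 0 := by
    rw [intervalIntegral.integral_congr (g := fun _ => (0:ℝ))]
    · simp
    · intro s hs
      rw [uIcc_of_le hb2] at hs
      show W₁ s * H (s - b) = 0
      unfold H
      rw [if_neg (by linarith [hs.1]), mul_zero]
  rw [e1, e2, add_zero, intervalIntegral.integral_eq_sub_of_hasDerivAt (fun s _ => hW s)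
    (hW₁.intervalIntegrable _ _)]

/-- two averages of the indicator -/
theorem int_AAH {p q L : ℝ} (hL : |p| + |q| ≤ L) {W W₁ : ℝ → ℝ}
    (hW : ∀ s, HasDerivAt W (W₁ s) s) (hW₁ : Continuous W₁) (hAq : Measurable (A q H)) :
    ∫ s in (-L)..L, W₁ s * A p (A q H) s = A p (A q W) 0 - 4 * W (-L) := by
  have hWc : Continuous W := continuous_iff_continuousAt.mpr fun s => (hW s).continuousAt
  have hb : ∀ s, |A q H s| ≤ 2 := by
    intro s
    unfold A
    have := intervalIntegral.norm_integral_le_of_norm_le_const (a := (-1:ℝ)) (b := 1)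
      (f := fun u => H (s - q * u)) (C := 1) (fun u _ => H_bdd _)
    rw [Real.norm_eq_abs] at this
    norm_num at this
    exact this
  have h1 := swap hAq hb hW₁ p L 0
  simp only [sub_zero, zero_add] at h1
  rw [h1]
  have h2 : ∀ u ∈ uIcc (-1:ℝ) 1, (∫ s in (-L)..L, W₁ s * A q H (s - p * u)) =
      A q W (p * u) - 2 * W (-L) := by
    intro u hu
    rw [swap H_measurable H_bdd hW₁ q L (p * u)]
    have h3 : ∀ v ∈ uIcc (-1:ℝ) 1, (∫ s in (-L)..L, W₁ s * H (s - (p * u + q * v))) =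
        W (p * u + q * v) - W (-L) := by
      intro v hv
      apply int_H hW hW₁
      rw [uIcc_of_le (by norm_num)] at hu hv
      have a1 : |p * u| ≤ |p| := by
        rw [abs_mul]
        exact mul_le_of_le_one_right (abs_nonneg _) (abs_le.mpr hu)
      have a2 : |q * v| ≤ |q| := by
        rw [abs_mul]
        exact mul_le_of_le_one_right (abs_nonneg _) (abs_le.mpr hv)
      (clear * - hL a1 a2; linarith [abs_add_le (p * u) (q * v)])
    rw [intervalIntegral.integral_congr h3, intervalIntegral.integral_sub, A_comp_mul]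
    · simp only [intervalIntegral.integral_const, smul_eq_mul]; ring
    · exact Continuous.intervalIntegrable (by fun_prop) _ _
    · simp
  rw [intervalIntegral.integral_congr h2, intervalIntegral.integral_sub]
  · have h4 := A_comp_mul p (A q W) 0
    simp only [zero_add] at h4
    rw [h4]
    simp only [intervalIntegral.integral_const, smul_eq_mul]; ring
  · have : Continuous (A q W) := continuous_A hWc q
    exact Continuous.intervalIntegrable (by fun_prop) _ _
  · simp

/-- the kernel identity, base case -/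
theorem base_kernel {p q p' q' : ℝ} (hp : 0 < p) (hq : 0 ≤ q) (hp' : 0 < p') (hq' : 0 ≤ q')
    {r : ℝ → ℝ} (hr : Sh r) (hd : ∀ s, HasDerivAt r (A p (A q H) s - A p' (A q' H) s) s)
    {W W₁ w : ℝ → ℝ} (hW : ∀ s, HasDerivAt W (W₁ s) s) (hW₁ : ∀ s, HasDerivAt W₁ (w s) s)
    (hw : Continuous w) :
    ∫ s, w s * r s = A p' (A q' W) 0 - A p (A q W) 0 := by
  obtain ⟨L₀, hL₀⟩ := hr.supp
  set L : ℝ := max L₀ (max (|p| + |q|) (|p'| + |q'|)) with hL
  have l1 : L₀ ≤ L := le_max_left _ _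
  have l2 : |p| + |q| ≤ L := (le_max_left _ _).trans (le_max_right _ _)
  have l3 : |p'| + |q'| ≤ L := (le_max_right _ _).trans (le_max_right _ _)
  have l0 : 0 ≤ L := (by (clear * - hp; positivity) : 0 ≤ |p| + |q|).trans l2
  have hW₁c : Continuous W₁ := continuous_iff_continuousAt.mpr fun s => (hW₁ s).continuousAt
  have c1 : Continuous (A p (A q H)) := AAH_continuous hp hq
  have c2 : Continuous (A p' (A q' H)) := AAH_continuous hp' hq'
  have mq : ∀ x : ℝ, 0 ≤ x → Measurable (A x H) := by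
    intro x hx
    rcases hx.eq_or_lt with h | h
    · rw [← h]
      have : A 0 H = fun s => 2 * H s := by
        ext s
        exact AAHaux.A_zero H s
      rw [this]
      exact H_measurable.const_mul 2
    · have : A x H = fun s => 1 - (|s + x| - |s - x|) / (2 * x) := by
        ext s
        exact AAHaux.A_H_pos h s
      rw [this]
      fun_prop
  have e1 : ∫ s, w s * r s = ∫ s in (-L)..L, w s * r s := by
    symm
    apply intervalIntegral.integral_eq_integral_of_support_subset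
    intro s hs
    rw [Function.mem_support] at hs
    have : |s| < L := by
      by_contra h
      apply hs
      rw [hL₀ s (l1.trans (not_lt.mp h)), mul_zero]
    rw [abs_lt] at this
    exact ⟨this.1, this.2.le⟩
  have e2 := intervalIntegral.integral_mul_deriv_eq_deriv_mul (a := -L) (b := L)
    (u := r) (v := W₁) (u' := fun s => A p (A q H) s - A p' (A q' H) s) (v' := w)
    (fun s _ => hd s) (fun s _ => hW₁ s) ((c1.sub c2).intervalIntegrable _ _)
    (hw.intervalIntegrable _ _)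
  rw [hL₀ L (by rw [abs_of_nonneg l0]; exact l1),
    hL₀ (-L) (by rw [abs_neg, abs_of_nonneg l0]; exact l1)] at e2
  have e3 : ∫ s in (-L)..L, (A p (A q H) s - A p' (A q' H) s) * W₁ s =
      (∫ s in (-L)..L, W₁ s * A p (A q H) s) - ∫ s in (-L)..L, W₁ s * A p' (A q' H) s := by
    rw [← intervalIntegral.integral_sub (f := fun s => W₁ s * A p (A q H) s)
      (g := fun s => W₁ s * A p' (A q' H) s) ((hW₁c.mul c1).intervalIntegrable _ _)
      ((hW₁c.mul c2).intervalIntegrable _ _)]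
    refine intervalIntegral.integral_congr fun s _ => ?_
    show (A p (A q H) s - A p' (A q' H) s) * W₁ s = W₁ s * A p (A q H) s - W₁ s * A p' (A q' H) s
    ring
  rw [e3, int_AAH l2 hW hW₁c (mq q hq), int_AAH l3 hW hW₁c (mq q' hq')] at e2
  have e4 : ∫ s in (-L)..L, w s * r s = ∫ s in (-L)..L, r s * w s := by
    refine intervalIntegral.integral_congr fun s _ => mul_comm _ _
  rw [e1, e4, e2]
  ring

/-- translation -/
theorem AL_translate (l : List ℝ) (W : ℝ → ℝ) (b s : ℝ) :
    AL l (fun x => W (x + b)) s = AL l W (s + b) := by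
  induction l generalizing s with
  | nil => rfl
  | cons x l ih =>
    rw [AL_cons, AL_cons]
    unfold A
    refine intervalIntegral.integral_congr fun u _ => ?_
    show AL l (fun x => W (x + b)) (s - x * u) = AL l W (s + b - x * u)
    rw [ih]
    ring_nf

/-- **Kernel identity.** -/
theorem kernel {p q p' q' : ℝ} (hp : 0 < p) (hq : 0 ≤ q) (hp' : 0 < p') (hq' : 0 ≤ q')
    {r : ℝ → ℝ} (hr : Sh r) (hd : ∀ s, HasDerivAt r (A p (A q H) s - A p' (A q' H) s) s)
    (l : List ℝ) : ∀ {W W₁ w : ℝ → ℝ}, (∀ s, HasDerivAt W (W₁ s) s) →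
    (∀ s, HasDerivAt W₁ (w s) s) → Continuous w →
    ∫ s, w s * AL l r s = AL (l ++ [p', q']) W 0 - AL (l ++ [p, q]) W 0 := by
  induction l with
  | nil =>
    intro W W₁ w hW hW₁ hw
    exact base_kernel hp hq hp' hq' hr hd hW hW₁ hw
  | cons x l ih =>
    intro W W₁ w hW hW₁ hw
    have hWc : Continuous W := continuous_iff_continuousAt.mpr fun s => (hW s).continuousAt
    have hS := hr.AL l
    obtain ⟨L, hL⟩ := hS.supp
    rw [AL_cons, Mom.general hS.cont hL hw x]
    have h1 : ∀ u : ℝ, ∫ s, w (s + x * u) * AL l r s =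
        AL (l ++ [p', q']) W (x * u) - AL (l ++ [p, q]) W (x * u) := by
      intro u
      have := ih (W := fun s => W (s + x * u)) (W₁ := fun s => W₁ (s + x * u))
        (w := fun s => w (s + x * u)) (fun s => (hW _).comp_add_const s (x * u))
        (fun s => (hW₁ _).comp_add_const s (x * u)) (by fun_prop)
      rw [this, AL_translate, AL_translate, zero_add]
    simp_rw [h1]
    have c1 : Continuous (AL (l ++ [p', q']) W) := continuous_AL hWc _
    have c2 : Continuous (AL (l ++ [p, q]) W) := continuous_AL hWc _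
    rw [intervalIntegral.integral_sub (Continuous.intervalIntegrable (by fun_prop) _ _)
      (Continuous.intervalIntegrable (by fun_prop) _ _)]
    have h2 := A_comp_mul x (AL (l ++ [p', q']) W) 0
    have h3 := A_comp_mul x (AL (l ++ [p, q]) W) 0
    simp only [zero_add] at h2 h3
    rw [h2, h3]
    rfl

end Pool.Agent.M18.Helper95.SP
end

/- Helper95.SP.Far -/
section
/-!
The exponential moment bound of the kernel `R = AL l r` far out.
-/

set_option autoImplicit false

namespace Pool.Agent.M18.Helper95.SP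

open MeasureTheory Set Pool.Agent.M18.Slab Real

/-- the average of `cosh` -/
theorem A_cosh (x m s : ℝ) :
    A x (fun s => cosh (m * s)) s = 2 * shc (m * x) * cosh (m * s) := by
  unfold A
  by_cases h : m * x = 0
  · have e : ∀ u : ℝ, cosh (m * (s - x * u)) = cosh (m * s) := by
      intro u
      have : m * (s - x * u) = m * s - m * x * u := by ring
      rw [this, h]; ring_nf
    simp_rw [e]
    unfold shc
    rw [if_pos h]
    simp
    norm_num
  · have hd : ∀ u : ℝ, HasDerivAt (fun u => -sinh (m * (s - x * u)) / (m * x))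
        (cosh (m * (s - x * u))) u := by
      intro u
      have h1 : HasDerivAt (fun u => m * (s - x * u)) (-(m * x)) u := by
        have := (((hasDerivAt_id u).const_mul x).const_sub s).const_mul m
        refine this.congr_deriv ?_
        ring
      have h2 := (h1.sinh.neg).div_const (m * x)
      refine h2.congr_deriv ?_
      rw [mul_neg, neg_neg, mul_div_assoc, div_self h, mul_one]
    rw [intervalIntegral.integral_eq_sub_of_hasDerivAt (fun u _ => hd u)
      (Continuous.intervalIntegrable (by fun_prop) _ _)]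
    unfold shc
    rw [if_neg h]
    have e1 : m * (s - x * 1) = m * s - m * x := by ring
    have e2 : m * (s - x * -1) = m * s + m * x := by ring
    rw [e1, e2, sinh_sub, sinh_add]
    field_simp
    ring

theorem AL_cosh (l : List ℝ) (m s : ℝ) :
    AL l (fun s => cosh (m * s)) s = (l.map fun x => 2 * shc (m * x)).prod * cosh (m * s) := by
  induction l generalizing s with
  | nil => simp [AL_nil]
  | cons x l ih =>
    rw [AL_cons]
    have : AL l (fun s => cosh (m * s)) =
        fun s => (l.map fun x => 2 * shc (m * x)).prod * cosh (m * s) := funext ih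
    rw [this]
    have h2 : A x (fun s => (l.map fun x => 2 * shc (m * x)).prod * cosh (m * s)) s =
        (l.map fun x => 2 * shc (m * x)).prod * A x (fun s => cosh (m * s)) s := by
      unfold A
      rw [← intervalIntegral.integral_const_mul]
    rw [h2, A_cosh, List.map_cons, List.prod_cons]
    ring

theorem AL_const_mul (l : List ℝ) (c : ℝ) (W : ℝ → ℝ) (s : ℝ) :
    AL l (fun s => c * W s) s = c * AL l W s := by
  induction l generalizing s with
  | nil => rfl
  | cons x l ih =>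
    rw [AL_cons, AL_cons]
    unfold A
    rw [← intervalIntegral.integral_const_mul]
    exact intervalIntegral.integral_congr fun u _ => ih _

/-- the `cosh` transform of the kernel -/
theorem cosh_transform {p q p' q' : ℝ} (hp : 0 < p) (hq : 0 ≤ q) (hp' : 0 < p') (hq' : 0 ≤ q')
    {r : ℝ → ℝ} (hr : Sh r) (hd : ∀ s, HasDerivAt r (A p (A q H) s - A p' (A q' H) s) s)
    (l : List ℝ) {m : ℝ} (hm : m ≠ 0) :
    ∫ s, cosh (m * s) * AL l r s =
      4 / m ^ 2 * (l.map fun x => 2 * shc (m * x)).prod *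
        (shc (m * p') * shc (m * q') - shc (m * p) * shc (m * q)) := by
  have h := kernel hp hq hp' hq' hr hd l (W := fun s => 1 / m ^ 2 * cosh (m * s))
    (W₁ := fun s => 1 / m * sinh (m * s)) (w := fun s => cosh (m * s)) ?_ ?_ (by fun_prop)
  · rw [h, AL_const_mul, AL_const_mul, AL_cosh, AL_cosh]
    simp only [List.map_append, List.prod_append, List.map_cons, List.map_nil, List.prod_cons,
      List.prod_nil, mul_zero, cosh_zero, mul_one]
    field_simp
    ring
  · intro s
    have h1 : HasDerivAt (fun s : ℝ => m * s) m s := by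
      simpa using (hasDerivAt_id s).const_mul m
    refine (h1.cosh.const_mul (1 / m ^ 2)).congr_deriv ?_
    field_simp
  · intro s
    have h1 : HasDerivAt (fun s : ℝ => m * s) m s := by
      simpa using (hasDerivAt_id s).const_mul m
    refine (h1.sinh.const_mul (1 / m)).congr_deriv ?_
    field_simp

theorem prod_shc_le (l : List ℝ) (m : ℝ) :
    (l.map fun x => 2 * shc (m * x)).prod ≤
      2 ^ l.length * exp (m ^ 2 / 6 * (l.map fun x => x ^ 2).sum) := by
  induction l with
  | nil => simp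
  | cons x l ih =>
    rw [List.map_cons, List.prod_cons, List.length_cons, List.map_cons, List.sum_cons, mul_add,
      exp_add, pow_succ]
    have h1 : shc (m * x) ≤ exp (m ^ 2 / 6 * x ^ 2) := by
      refine (shc_le_exp (m * x)).trans (le_of_eq ?_)
      congr 1
      ring
    have h0 : 0 ≤ (l.map fun x => 2 * shc (m * x)).prod := by
      apply List.prod_nonneg
      intro y hy
      obtain ⟨x, _, rfl⟩ := List.mem_map.mp hy
      (clear * -; linarith [one_le_shc (m * x)])
    calc 2 * shc (m * x) * (l.map fun x => 2 * shc (m * x)).prod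
        ≤ 2 * exp (m ^ 2 / 6 * x ^ 2) *
          (2 ^ l.length * exp (m ^ 2 / 6 * (l.map fun x => x ^ 2).sum)) := by
          apply mul_le_mul _ ih h0 (by positivity)
          (clear * - h1; linarith)
      _ = _ := by ring

theorem cosh_transform_le {p q c : ℝ} (hp : 0 < p) (hq : 0 ≤ q) (hc0 : 0 < c)
    (hc : 2 * c ^ 2 = p ^ 2 + q ^ 2)
    {r : ℝ → ℝ} (hr : Sh r) (hd : ∀ s, HasDerivAt r (A p (A q H) s - A c (A c H) s) s)
    (l : List ℝ) (hl : p ^ 2 + q ^ 2 + (l.map fun x => x ^ 2).sum = 1) {m : ℝ} (hm : m ≠ 0) :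
    ∫ s, cosh (m * s) * AL l r s ≤
      2 ^ (l.length + 2) * (m ^ 2 * exp (m ^ 2 / 6) * ((p ^ 2 - q ^ 2) ^ 2 / 360)) := by
  rw [cosh_transform hp hq hc0 hc0.le hr hd l hm]
  have h1 := shc_bracket (p := m * p) (q := m * q) (c := m * c)
    (by linear_combination m ^ 2 * hc)
  have h2 : shc (m * c) ≤ exp (m ^ 2 / 6 * c ^ 2) := by
    refine (shc_le_exp (m * c)).trans (le_of_eq ?_)
    congr 1
    ring
  have h20 : 0 ≤ shc (m * c) := by (clear * -; linarith [one_le_shc (m * c)])
  have h3 : shc (m * c) ^ 2 ≤ exp (m ^ 2 / 6 * (p ^ 2 + q ^ 2)) := by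
    have : exp (m ^ 2 / 6 * (p ^ 2 + q ^ 2)) = exp (m ^ 2 / 6 * c ^ 2) ^ 2 := by
      rw [← exp_nat_mul]
      congr 1
      rw [← hc]; push_cast; ring
    rw [this]
    exact pow_le_pow_left₀ h20 h2 2
  have h4 := prod_shc_le l m
  have h40 : 0 ≤ (l.map fun x => 2 * shc (m * x)).prod := by
    apply List.prod_nonneg
    intro y hy
    obtain ⟨x, _, rfl⟩ := List.mem_map.mp hy
    (clear * -; linarith [one_le_shc (m * x)])
  have h5 : shc (m * c) * shc (m * c) - shc (m * p) * shc (m * q) ≤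
      exp (m ^ 2 / 6 * (p ^ 2 + q ^ 2)) * (m ^ 4 * (p ^ 2 - q ^ 2) ^ 2 / 360) := by
    have e : ((m * p) ^ 2 - (m * q) ^ 2) ^ 2 / 360 = m ^ 4 * (p ^ 2 - q ^ 2) ^ 2 / 360 := by ring
    rw [e] at h1
    have h6 : 0 ≤ m ^ 4 * (p ^ 2 - q ^ 2) ^ 2 / 360 := by (clear * - hm; positivity)
    calc _ = shc (m * c) ^ 2 - shc (m * p) * shc (m * q) := by ring
      _ ≤ _ := h1
      _ ≤ _ := mul_le_mul_of_nonneg_right h3 h6
  have hm2 : 0 < m ^ 2 := by positivity
  calc 4 / m ^ 2 * (l.map fun x => 2 * shc (m * x)).prod *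
        (shc (m * c) * shc (m * c) - shc (m * p) * shc (m * q))
      ≤ 4 / m ^ 2 * (l.map fun x => 2 * shc (m * x)).prod *
        (exp (m ^ 2 / 6 * (p ^ 2 + q ^ 2)) * (m ^ 4 * (p ^ 2 - q ^ 2) ^ 2 / 360)) :=
        mul_le_mul_of_nonneg_left h5 (by (clear * - hm h40; positivity))
    _ ≤ 4 / m ^ 2 * (2 ^ l.length * exp (m ^ 2 / 6 * (l.map fun x => x ^ 2).sum)) *
        (exp (m ^ 2 / 6 * (p ^ 2 + q ^ 2)) * (m ^ 4 * (p ^ 2 - q ^ 2) ^ 2 / 360)) := by
        apply mul_le_mul_of_nonneg_right _ (by (clear * - hm; positivity))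
        exact mul_le_mul_of_nonneg_left h4 (by positivity)
    _ = 2 ^ (l.length + 2) * (m ^ 2 * (exp (m ^ 2 / 6 * (l.map fun x => x ^ 2).sum) *
          exp (m ^ 2 / 6 * (p ^ 2 + q ^ 2))) * ((p ^ 2 - q ^ 2) ^ 2 / 360)) := by
        rw [pow_add]
        field_simp
        ring
    _ = _ := by
        rw [← exp_add]
        have : m ^ 2 / 6 * (l.map fun x => x ^ 2).sum + m ^ 2 / 6 * (p ^ 2 + q ^ 2) = m ^ 2 / 6 := by
          rw [← mul_add, add_comm (l.map fun x => x ^ 2).sum, hl, mul_one]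
        rw [this]

/-- exponential moment bound for a function of the shape class which is decreasing beyond `b` -/
theorem exp_bound {R : ℝ → ℝ} (hS : Sh R) {b : ℝ} (hb : 0 ≤ b) (hanti : AntitoneOn R (Ici b))
    {m a y : ℝ} (hm : 0 < m) (ha : 0 ≤ a) (hy : b ≤ y - a) :
    R y * (a * (cosh (m * (y - a)) - cosh (m * b))) ≤ ∫ s, cosh (m * s) * R s := by
  obtain ⟨s₁, z, hs10, hs1z, hneg, hpos, hmono, hanti'⟩ := hS.shape
  obtain ⟨L, hL⟩ := hS.supp
  have hRb : ∀ s, b ≤ s → 0 ≤ R s := by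
    intro s hs
    have h1 : R (max L s) ≤ R s := hanti hs (hs.trans (le_max_right _ _)) (le_max_right _ _)
    rwa [hL _ ((le_max_left L s).trans (le_abs_self _))] at h1
  -- the sign point
  obtain ⟨s₂, h20, h2b, h2neg, h2pos⟩ : ∃ s₂, 0 ≤ s₂ ∧ s₂ ≤ b ∧ (∀ s, 0 ≤ s → s ≤ s₂ → R s ≤ 0) ∧
      (∀ s, s₂ ≤ s → 0 ≤ R s) := by
    rcases le_total s₁ b with h | h
    · exact ⟨s₁, hs10, h, hneg, hpos⟩
    · exact ⟨b, hb, le_rfl, fun s hs hs' => hneg s hs (hs'.trans h), hRb⟩
  have hRc := hS.cont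
  have hcs : HasCompactSupport R := Mom.cs hL
  have hi1 : Integrable (fun s => cosh (m * s) * R s) :=
    Mom.int_mul hRc hL (w := fun s => cosh (m * s)) (by fun_prop)
  have hi0 : Integrable R := hRc.integrable_of_hasCompactSupport hcs
  have hnn : ∀ s, 0 ≤ (cosh (m * s) - cosh (m * s₂)) * R s := by
    intro s
    have e1 : R s = R |s| := by
      rcases abs_choice s with h | h
      · rw [h]
      · rw [h, hS.even]
    have e2 : cosh (m * s) = cosh (m * |s|) := by
      rw [← cosh_abs (m * s), abs_mul, abs_of_pos hm]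
    rw [e1, e2]
    have hcm : ∀ x y : ℝ, 0 ≤ x → x ≤ y → cosh (m * x) ≤ cosh (m * y) := by
      intro x y hx hxy
      rw [cosh_le_cosh, abs_of_nonneg (by (clear * - hm hx; positivity)), abs_of_nonneg (by (clear * - hm hx hxy; nlinarith))]
      (clear * - hm hxy; nlinarith)
    rcases le_total |s| s₂ with h | h
    · exact mul_nonneg_of_nonpos_of_nonpos (by linarith [hcm _ _ (abs_nonneg s) h])
        (h2neg _ (abs_nonneg s) h)
    · exact mul_nonneg (by linarith [hcm _ _ h20 h]) (h2pos _ h)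
  have hiS : Integrable (fun s => (cosh (m * s) - cosh (m * s₂)) * R s) := by
    have := hi1.sub (hi0.const_mul (cosh (m * s₂)))
    refine this.congr (Filter.Eventually.of_forall fun s => ?_)
    show cosh (m * s) * R s - cosh (m * s₂) * R s = _
    ring
  have e0 : ∫ s, (cosh (m * s) - cosh (m * s₂)) * R s = ∫ s, cosh (m * s) * R s := by
    have : ∀ s, (cosh (m * s) - cosh (m * s₂)) * R s =
        cosh (m * s) * R s - cosh (m * s₂) * R s := fun s => by ring
    simp_rw [this]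
    rw [integral_sub hi1 (hi0.const_mul _), integral_const_mul, hS.int0, mul_zero, sub_zero]
  rw [← e0]
  have hya : y - a ≤ y := by linarith
  have h3 : ∫ s in (y - a)..y, (cosh (m * s) - cosh (m * s₂)) * R s ≤
      ∫ s, (cosh (m * s) - cosh (m * s₂)) * R s := by
    rw [intervalIntegral.integral_of_le hya]
    exact setIntegral_le_integral hiS (Filter.Eventually.of_forall hnn)
  refine le_trans ?_ h3
  have h4 : ∫ s in (y - a)..y, (cosh (m * (y - a)) - cosh (m * b)) * R y ≤
      ∫ s in (y - a)..y, (cosh (m * s) - cosh (m * s₂)) * R s := by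
    refine intervalIntegral.integral_mono_on hya (by simp) hiS.intervalIntegrable ?_
    intro s hs
    have hbs : b ≤ s := hy.trans hs.1
    have hs0 : 0 ≤ s := hb.trans hbs
    have hya0 : 0 ≤ y - a := hb.trans hy
    have c1 : cosh (m * (y - a)) ≤ cosh (m * s) := by
      rw [cosh_le_cosh, abs_of_nonneg (by (clear * - hm hya0; positivity)), abs_of_nonneg (by (clear * - hm hs0; positivity))]
      (clear * - hm hs; nlinarith [hs.1])
    have c2 : cosh (m * s₂) ≤ cosh (m * b) := by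
      rw [cosh_le_cosh, abs_of_nonneg (by (clear * - hm h20; positivity)), abs_of_nonneg (by (clear * - hm hb; positivity))]
      (clear * - hm h2b; nlinarith)
    have c3 : cosh (m * b) ≤ cosh (m * (y - a)) := by
      rw [cosh_le_cosh, abs_of_nonneg (by positivity), abs_of_nonneg (by positivity)]
      (clear * - hm hy; nlinarith)
    have r1 : R y ≤ R s := hanti hbs (hbs.trans hs.2) hs.2
    have r0 : 0 ≤ R y := hRb y (hbs.trans hs.2)
    exact mul_le_mul (by (clear * - c1 c2; linarith)) r1 r0 (by linarith)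
  refine le_trans (le_of_eq ?_) h4
  rw [intervalIntegral.integral_const, smul_eq_mul]
  ring

/-- `R = AL l r` is decreasing beyond `sqrt (10/3)` -/
theorem antitone_R {p q c : ℝ} (hp : 0 < p) (hq : 0 ≤ q) (hc0 : 0 < c)
    {r : ℝ → ℝ} (hr : Sh r) (hd : ∀ s, HasDerivAt r (A p (A q H) s - A c (A c H) s) s)
    (h2 : 0 < ∫ s, s ^ 2 * r s)
    (h4 : ∫ s, s ^ 4 * r s = 6 / 7 * (p ^ 2 + q ^ 2) * ∫ s, s ^ 2 * r s)
    (l : List ℝ) (hl : p ^ 2 + q ^ 2 + (l.map fun x => x ^ 2).sum = 1) :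
    AntitoneOn (AL l r) (Ici 1.8258) := by
  have c1 : Continuous (A p (A q H)) := AAH_continuous hp hq
  have c2 : Continuous (A c (A c H)) := AAH_continuous hc0 hc0.le
  obtain ⟨m2, m4⟩ := moments_AL hr h2 h4 l
  have hD := hasDerivAt_AL hd (c1.sub c2) l
  have hS := hr.AL l
  apply antitoneOn_of_deriv_nonpos (convex_Ici _) hS.cont.continuousOn
  · intro s _
    exact (hD s).differentiableAt.differentiableWithinAt
  · intro s hs
    rw [interior_Ici] at hs
    rw [(hD s).deriv]
    have hs' : (1.8258 : ℝ) < s := hs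
    refine hS.deriv_nonpos hD m2 (le_of_eq m4) (by (clear * - hs'; linarith)) ?_
    have hpq : 0 ≤ p ^ 2 + q ^ 2 := by (clear * - hp; positivity)
    (clear * - hl hs' hp; nlinarith)

theorem exp_thirty : (10 : ℝ) ^ 13 ≤ exp 30 := by
  have h := exp_one_gt_d9
  have : exp 30 = exp 1 ^ 30 := by rw [← exp_nat_mul]; norm_num
  rw [this]
  calc (10 : ℝ) ^ 13 ≤ 2.7182818283 ^ 30 := by norm_num
    _ ≤ exp 1 ^ 30 := pow_le_pow_left₀ (by norm_num) h.le 30

theorem exp_thirteen : (442000 : ℝ) ≤ exp 13 := by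
  have h := exp_one_gt_d9
  have : exp 13 = exp 1 ^ 13 := by rw [← exp_nat_mul]; norm_num
  rw [this]
  calc (442000 : ℝ) ≤ 2.7182818283 ^ 13 := by norm_num
    _ ≤ exp 1 ^ 13 := pow_le_pow_left₀ (by norm_num) h.le 13

theorem cosh_ge (x : ℝ) : exp x / 2 ≤ cosh x := by
  rw [cosh_eq]; (clear * -; linarith [exp_pos (-x)])

theorem cosh_le_exp' {x : ℝ} (hx : 0 ≤ x) : cosh x ≤ exp x := by
  rw [cosh_eq]
  have : exp (-x) ≤ exp x := exp_le_exp.mpr (by (clear * - hx; linarith))
  (clear * - this; linarith)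

/-- far bound: beyond `5` -/
theorem far_five {p q c : ℝ} (hp : 0 < p) (hq : 0 ≤ q) (hc0 : 0 < c)
    (hc : 2 * c ^ 2 = p ^ 2 + q ^ 2)
    {r : ℝ → ℝ} (hr : Sh r) (hd : ∀ s, HasDerivAt r (A p (A q H) s - A c (A c H) s) s)
    (h2 : 0 < ∫ s, s ^ 2 * r s)
    (h4 : ∫ s, s ^ 4 * r s = 6 / 7 * (p ^ 2 + q ^ 2) * ∫ s, s ^ 2 * r s)
    (l : List ℝ) (hl : p ^ 2 + q ^ 2 + (l.map fun x => x ^ 2).sum = 1) {y : ℝ} (hy : 5 ≤ y) :
    AL l r y ≤ 2 ^ (l.length + 2) * ((p ^ 2 - q ^ 2) ^ 2 * (exp (-(12 * (y - 5))) / 10 ^ 12)) := by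
  have h := exp_bound (hr.AL l) (by norm_num) (antitone_R hp hq hc0 hr hd h2 h4 l hl)
    (m := 12) (a := 1 / 2) (y := y) (by norm_num) (by norm_num) (by (clear * - hy; linarith))
  have h' := h.trans (cosh_transform_le hp hq hc0 hc hr hd l hl (by norm_num))
  set N : ℝ := 2 ^ (l.length + 2) with hN
  have hN0 : 0 < N := by positivity
  set d : ℝ := (p ^ 2 - q ^ 2) ^ 2 with hdd
  have hd0 : 0 ≤ d := sq_nonneg _
  have e24 : ((12:ℝ) ^ 2 / 6) = 24 := by norm_num
  rw [e24] at h'
  -- lower bound of the factor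
  have k1 : exp (12 * (y - 1 / 2)) = exp 24 * exp 30 * exp (12 * (y - 5)) := by
    rw [← exp_add, ← exp_add]; congr 1; ring
  have k2 : cosh (12 * 1.8258) ≤ exp 24 :=
    (cosh_le_exp' (by norm_num)).trans (exp_le_exp.mpr (by norm_num))
  have k3 := cosh_ge (12 * (y - 1 / 2))
  have k4 : 1 ≤ exp (12 * (y - 5)) := by
    rw [← exp_zero]; exact exp_le_exp.mpr (by (clear * - hy; linarith))
  have e0 := exp_pos 24
  have k5 : exp 24 * (10 ^ 12) * exp (12 * (y - 5)) ≤
      1 / 2 * (cosh (12 * (y - 1 / 2)) - cosh (12 * 1.8258)) := by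
    have : exp 24 * (10 ^ 13) * exp (12 * (y - 5)) ≤ exp (12 * (y - 1 / 2)) := by
      rw [k1]
      apply mul_le_mul_of_nonneg_right _ (by positivity)
      exact mul_le_mul_of_nonneg_left exp_thirty e0.le
    have k6 : exp 24 ≤ exp 24 * exp (12 * (y - 5)) := le_mul_of_one_le_right e0.le k4
    have k7 : 0 ≤ exp 24 * exp (12 * (y - 5)) := by positivity
    (clear * - k2 k3 e0 this k6; nlinarith)
  have hfac : 0 < 1 / 2 * (cosh (12 * (y - 1 / 2)) - cosh (12 * 1.8258)) :=
    lt_of_lt_of_le (by positivity) k5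
  by_contra hcon
  push Not at hcon
  have k8 : N * (d * (exp (-(12 * (y - 5))) / 10 ^ 12)) *
      (exp 24 * (10 ^ 12) * exp (12 * (y - 5))) <
      AL l r y * (1 / 2 * (cosh (12 * (y - 1 / 2)) - cosh (12 * 1.8258))) := by
    calc _ ≤ N * (d * (exp (-(12 * (y - 5))) / 10 ^ 12)) *
          (1 / 2 * (cosh (12 * (y - 1 / 2)) - cosh (12 * 1.8258))) :=
          mul_le_mul_of_nonneg_left k5 (by (clear * -; positivity))
      _ < _ := mul_lt_mul_of_pos_right hcon hfac
  have k9 : N * (d * (exp (-(12 * (y - 5))) / 10 ^ 12)) *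
      (exp 24 * (10 ^ 12) * exp (12 * (y - 5))) = N * (d * exp 24) := by
    have : exp (-(12 * (y - 5))) * exp (12 * (y - 5)) = 1 := by
      rw [← exp_add]; simp
    calc _ = N * (d * exp 24) * (exp (-(12 * (y - 5))) * exp (12 * (y - 5))) := by ring
      _ = _ := by rw [this, mul_one]
  rw [k9] at k8
  have : N * (d * exp 24) < N * (12 ^ 2 * exp 24 * (d / 360)) := lt_of_lt_of_le k8 h'
  have h10 : 0 ≤ N * (d * exp 24) := by (clear * -; positivity)
  (clear * - h' k8 h10; nlinarith)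

end Pool.Agent.M18.Helper95.SP
end

/- Helper95.SP.CombNat -/
section
/-!
The comb identities for the kernel `R = AL l r`.
-/

set_option autoImplicit false

namespace Pool.Agent.M18.Helper95.SP

open MeasureTheory Set Pool.Agent.M18.Slab Real Filter Topology

/-- summability of the shifts of a function of compact support -/
theorem summable_shift {R : ℝ → ℝ} {L : ℝ} (hs : ∀ s, L ≤ |s| → R s = 0) {P : ℝ} (hP : 0 < P)
    (x : ℝ) : Summable fun n : ℕ => R (P * ((n : ℝ) + 1) + x) := by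
  apply summable_of_hasFiniteSupport
  obtain ⟨N, hN⟩ := exists_nat_gt ((|L| + |x|) / P)
  apply Set.Finite.subset (Finset.range N).finite_toSet
  intro n hn
  rw [Function.mem_support] at hn
  by_contra hcon
  apply hn
  apply hs
  have h1 : N ≤ n := by simpa using hcon
  have h2 : (N : ℝ) ≤ n := by exact_mod_cast h1
  rw [div_lt_iff₀ hP] at hN
  have h3 : |L| + |x| ≤ P * ((n : ℝ) + 1) := by (clear * - hP hN h2; nlinarith)
  have h4 := le_abs_self (P * ((n : ℝ) + 1) + x)
  have h5 := neg_abs_le x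
  (clear * - h3 h4 h5; linarith [le_abs_self L])

theorem comb_nat {R : ℝ → ℝ} (hc : Continuous R) (he : ∀ s, R (-s) = R s) {L : ℝ}
    (hs : ∀ s, L ≤ |s| → R s = 0) {P : ℝ} (hP : 0 < P)
    (hsum : Summable fun n : ℕ => ct R (2 * π / P * ((n : ℝ) + 1))) (x : ℝ) :
    R x + (∑' n : ℕ, R (P * ((n : ℝ) + 1) + x)) + (∑' n : ℕ, R (P * ((n : ℝ) + 1) - x)) =
      1 / P * (ct R 0 + 2 * ∑' n : ℕ, ct R (2 * π / P * ((n : ℝ) + 1)) *
        cos (2 * π / P * ((n : ℝ) + 1) * x)) := by
  have e0 : ∀ n : ℕ, ct R (2 * π * (((n : ℤ) + 1 : ℤ) : ℝ) / P) = ct R (2 * π / P * ((n : ℝ) + 1)) := by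
    intro n; congr 1; push_cast; ring
  have e0' : ∀ n : ℕ, ct R (2 * π * ((-((n : ℤ) + 1) : ℤ) : ℝ) / P) =
      ct R (2 * π / P * ((n : ℝ) + 1)) := by
    intro n; rw [← ct_neg]; congr 1; push_cast; ring
  have hsZ : Summable fun k : ℤ => ct R (2 * π * k / P) := by
    apply Summable.of_add_one_of_neg_add_one
    · exact hsum.congr fun n => (e0 n).symm
    · exact hsum.congr fun n => (e0' n).symm
  have key := comb hc he hs hP hsZ x
  have s1 : Summable fun n : ℕ => R (P * ((n : ℝ) + 1) + x) := summable_shift hs hP x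
  have s2 : Summable fun n : ℕ => R (P * ((n : ℝ) + 1) - x) := by
    have := summable_shift hs hP (-x)
    exact this
  have f1 : ∀ n : ℕ, R (x + (((n : ℤ) + 1 : ℤ) : ℝ) * P) = R (P * ((n : ℝ) + 1) + x) := by
    intro n; congr 1; push_cast; ring
  have f2 : ∀ n : ℕ, R (x + ((-((n : ℤ) + 1) : ℤ) : ℝ) * P) = R (P * ((n : ℝ) + 1) - x) := by
    intro n; rw [← he]; congr 1; push_cast; ring
  have t1 := tsum_of_add_one_of_neg_add_one (f := fun j : ℤ => R (x + j * P))
    (s1.congr fun n => (f1 n).symm) (s2.congr fun n => (f2 n).symm)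
  simp_rw [f1, f2] at t1
  rw [t1] at key
  have b1 : Summable fun n : ℕ => ct R (2 * π / P * ((n : ℝ) + 1)) *
      cos (2 * π / P * ((n : ℝ) + 1) * x) := by
    refine Summable.of_norm_bounded hsum.norm fun n => ?_
    rw [norm_mul]
    exact mul_le_of_le_one_right (norm_nonneg _) (abs_cos_le_one _)
  have g1 : ∀ n : ℕ, ct R (2 * π * (((n : ℤ) + 1 : ℤ) : ℝ) / P) *
      cos (2 * π * (((n : ℤ) + 1 : ℤ) : ℝ) / P * x) =
      ct R (2 * π / P * ((n : ℝ) + 1)) * cos (2 * π / P * ((n : ℝ) + 1) * x) := by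
    intro n; rw [e0]; congr 2; push_cast; ring
  have g2 : ∀ n : ℕ, ct R (2 * π * ((-((n : ℤ) + 1) : ℤ) : ℝ) / P) *
      cos (2 * π * ((-((n : ℤ) + 1) : ℤ) : ℝ) / P * x) =
      ct R (2 * π / P * ((n : ℝ) + 1)) * cos (2 * π / P * ((n : ℝ) + 1) * x) := by
    intro n; rw [e0', ← cos_neg]; congr 2; push_cast; ring
  have t2 := tsum_of_add_one_of_neg_add_one
    (f := fun k : ℤ => ct R (2 * π * k / P) * cos (2 * π * k / P * x))
    (b1.congr fun n => (g1 n).symm) (b1.congr fun n => (g2 n).symm)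
  simp_rw [g1, g2] at t2
  rw [t2] at key
  simp only [Int.cast_zero, mul_zero, zero_div, zero_mul, add_zero, cos_zero, mul_one] at key
  (clear * - key; linarith)

/-- product of `sinc` over a list -/
noncomputable def PP (l : List ℝ) (ω : ℝ) : ℝ := (l.map fun x => sinc (ω * x)).prod

/-- the bracket -/
noncomputable def BB (p q c ω : ℝ) : ℝ := sinc (ω * c) ^ 2 - sinc (ω * p) * sinc (ω * q)

theorem A_cos (x m s : ℝ) : A x (fun s => cos (m * s)) s = 2 * sinc (m * x) * cos (m * s) := by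
  unfold A
  by_cases h : m * x = 0
  · have e : ∀ u : ℝ, cos (m * (s - x * u)) = cos (m * s) := by
      intro u
      have : m * (s - x * u) = m * s - m * x * u := by ring
      rw [this, h]; ring_nf
    simp_rw [e]
    rw [h, sinc_zero]
    simp
    norm_num
  · have hd : ∀ u : ℝ, HasDerivAt (fun u => -sin (m * (s - x * u)) / (m * x))
        (cos (m * (s - x * u))) u := by
      intro u
      have h1 : HasDerivAt (fun u => m * (s - x * u)) (-(m * x)) u := by
        have := (((hasDerivAt_id u).const_mul x).const_sub s).const_mul m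
        refine this.congr_deriv ?_
        ring
      have h2 := (h1.sin.neg).div_const (m * x)
      refine h2.congr_deriv ?_
      rw [mul_neg, neg_neg, mul_div_assoc, div_self h, mul_one]
    rw [intervalIntegral.integral_eq_sub_of_hasDerivAt (fun u _ => hd u)
      (Continuous.intervalIntegrable (by fun_prop) _ _), sinc_of_ne_zero h]
    have e1 : m * (s - x * 1) = m * s - m * x := by ring
    have e2 : m * (s - x * -1) = m * s + m * x := by ring
    rw [e1, e2, sin_sub, sin_add]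
    field_simp
    ring

theorem AL_cos (l : List ℝ) (m s : ℝ) :
    AL l (fun s => cos (m * s)) s = 2 ^ l.length * PP l m * cos (m * s) := by
  induction l generalizing s with
  | nil => simp [AL_nil, PP]
  | cons x l ih =>
    rw [AL_cons]
    have : AL l (fun s => cos (m * s)) = fun s => 2 ^ l.length * PP l m * cos (m * s) := funext ih
    rw [this]
    have h2 : A x (fun s => 2 ^ l.length * PP l m * cos (m * s)) s =
        2 ^ l.length * PP l m * A x (fun s => cos (m * s)) s := by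
      unfold A
      rw [← intervalIntegral.integral_const_mul]
    rw [h2, A_cos]
    unfold PP
    rw [List.map_cons, List.prod_cons, List.length_cons]
    ring

/-- the cosine transform of the kernel -/
theorem ct_R {p q c : ℝ} (hp : 0 < p) (hq : 0 ≤ q) (hc0 : 0 < c)
    {r : ℝ → ℝ} (hr : Sh r) (hd : ∀ s, HasDerivAt r (A p (A q H) s - A c (A c H) s) s)
    (l : List ℝ) (ω : ℝ) :
    ct (AL l r) ω = -(2 ^ (l.length + 2) * (PP l ω * BB p q c ω / ω ^ 2)) := by
  by_cases hω : ω = 0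
  · subst hω
    unfold ct
    simp [(hr.AL l).int0]
  · have h := kernel hp hq hc0 hc0.le hr hd l (W := fun s => -1 / ω ^ 2 * cos (ω * s))
      (W₁ := fun s => 1 / ω * sin (ω * s)) (w := fun s => cos (ω * s)) ?_ ?_ (by fun_prop)
    · unfold ct
      rw [h, AL_const_mul, AL_const_mul, AL_cos, AL_cos]
      unfold PP BB
      simp only [List.map_append, List.prod_append, List.map_cons, List.map_nil, List.prod_cons,
        List.prod_nil, mul_zero, cos_zero, mul_one, List.length_append, List.length_cons,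
        List.length_nil]
      field_simp
      ring
    · intro s
      have h1 : HasDerivAt (fun s : ℝ => ω * s) ω s := by
        simpa using (hasDerivAt_id s).const_mul ω
      refine (h1.cos.const_mul (-1 / ω ^ 2)).congr_deriv ?_
      field_simp
    · intro s
      have h1 : HasDerivAt (fun s : ℝ => ω * s) ω s := by
        simpa using (hasDerivAt_id s).const_mul ω
      refine (h1.sin.const_mul (1 / ω)).congr_deriv ?_
      field_simp

theorem abs_PP_le (l : List ℝ) (ω : ℝ) : |PP l ω| ≤ 1 := by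
  unfold PP
  induction l with
  | nil => simp
  | cons x l ih =>
    rw [List.map_cons, List.prod_cons, abs_mul]
    exact mul_le_one₀ (abs_sinc_le_one _) (abs_nonneg _) ih

theorem abs_BB_le (p q c ω : ℝ) : |BB p q c ω| ≤ 2 := by
  unfold BB
  have h1 := abs_sinc_le_one (ω * c)
  have h2 := abs_sinc_le_one (ω * p)
  have h3 := abs_sinc_le_one (ω * q)
  have h4 : |sinc (ω * c) ^ 2| ≤ 1 := by
    rw [abs_pow]; exact pow_le_one₀ (abs_nonneg _) h1
  have h5 : |sinc (ω * p) * sinc (ω * q)| ≤ 1 := by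
    rw [abs_mul]; exact mul_le_one₀ h2 (abs_nonneg _) h3
  rw [abs_le] at h4 h5 ⊢
  constructor <;> (clear * - h4 h5; linarith [h4.1, h4.2, h5.1, h5.2])

theorem summable_inv_sq (a : ℝ) : Summable fun n : ℕ => a / ((n : ℝ) + 1) ^ 2 := by
  have h := (summable_nat_add_iff 1).mpr (Real.summable_one_div_nat_pow.mpr (one_lt_two))
  have := h.mul_left a
  refine this.congr fun n => ?_
  push_cast
  ring

theorem summable_ct {p q c : ℝ} (hp : 0 < p) (hq : 0 ≤ q) (hc0 : 0 < c)
    {r : ℝ → ℝ} (hr : Sh r) (hd : ∀ s, HasDerivAt r (A p (A q H) s - A c (A c H) s) s)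
    (l : List ℝ) {b : ℝ} (hb : 0 < b) :
    Summable fun n : ℕ => ct (AL l r) (b * ((n : ℝ) + 1)) := by
  refine Summable.of_norm_bounded (summable_inv_sq (2 ^ (l.length + 2) * (2 / b ^ 2))) fun n => ?_
  rw [ct_R hp hq hc0 hr hd l, norm_neg, norm_mul, norm_div, norm_mul]
  have h1 := abs_PP_le l (b * ((n : ℝ) + 1))
  have h2 := abs_BB_le p q c (b * ((n : ℝ) + 1))
  have h3 : ‖PP l (b * ((n : ℝ) + 1))‖ * ‖BB p q c (b * ((n : ℝ) + 1))‖ ≤ 1 * 2 :=
    mul_le_mul h1 h2 (norm_nonneg _) (by norm_num)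
  have h4 : (0:ℝ) < (n : ℝ) + 1 := by (clear * -; positivity)
  have h5 : ‖(b * ((n : ℝ) + 1)) ^ 2‖ = b ^ 2 * ((n : ℝ) + 1) ^ 2 := by
    rw [Real.norm_of_nonneg (by (clear * - hb; positivity))]; ring
  have h6 : ‖(2:ℝ) ^ (l.length + 2)‖ = 2 ^ (l.length + 2) := Real.norm_of_nonneg (by positivity)
  rw [h5, h6]
  calc (2:ℝ) ^ (l.length + 2) * (‖PP l (b * ((n : ℝ) + 1))‖ * ‖BB p q c (b * ((n : ℝ) + 1))‖ /
        (b ^ 2 * ((n : ℝ) + 1) ^ 2))
      ≤ 2 ^ (l.length + 2) * (1 * 2 / (b ^ 2 * ((n : ℝ) + 1) ^ 2)) := by gcongr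
    _ = _ := by field_simp

end Pool.Agent.M18.Helper95.SP
end

/- Helper95.SP.Crude.BB1 -/
section
/-!
Bounds of the bracket `BB X U C 1 = sinc C ^ 2 - sinc X * sinc U` from the product formula (helper18).
-/

set_option autoImplicit false

namespace Pool.Agent.M18.Helper95.SP.Crude

open Real Finset Filter Topology

namespace BBaux

/-- `A_j = π² (j+1)²` -/
noncomputable def AJ (j : ℕ) : ℝ := π ^ 2 * ((j : ℝ) + 1) ^ 2

theorem AJ_zero : AJ 0 = π ^ 2 := by unfold AJ; simp

theorem AJ_one : AJ 1 = 4 * π ^ 2 := by unfold AJ; push_cast; ring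

theorem pi_sq_le_AJ (j : ℕ) : π ^ 2 ≤ AJ j := by
  unfold AJ
  have h1 : (1:ℝ) ≤ ((j : ℝ) + 1) ^ 2 := by
    have : (1:ℝ) ≤ (j : ℝ) + 1 := by (clear * -; linarith [Nat.cast_nonneg (α := ℝ) j])
    nlinarith
  have hπ : 0 < π ^ 2 := by positivity
  (clear * - h1; nlinarith)

theorem four_pi_sq_le_AJ {j : ℕ} (hj : 1 ≤ j) : 4 * π ^ 2 ≤ AJ j := by
  unfold AJ
  have h0 : (1:ℝ) ≤ (j : ℝ) := by exact_mod_cast hj
  have h1 : (4:ℝ) ≤ ((j : ℝ) + 1) ^ 2 := by (clear * - h0; nlinarith)
  have hπ : 0 < π ^ 2 := by positivity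
  (clear * - h1; nlinarith)

theorem AJ_pos (j : ℕ) : 0 < AJ j := lt_of_lt_of_le (by positivity) (pi_sq_le_AJ j)

theorem pr_eq (v : ℝ) (n : ℕ) : pr v n = ∏ j ∈ range n, (1 + v / AJ j) := rfl

/-- the finite identity of the bracket -/
theorem bracket_eq {s d : ℝ} (hs : s < π ^ 2) (n : ℕ) :
    pr (-s) n ^ 2 - pr (-(s + d)) n * pr (-(s - d)) n =
      pr (-s) n ^ 2 * (1 - ∏ j ∈ range n, (1 - (d / (AJ j - s)) ^ 2)) := by
  have e1 : pr (-(s + d)) n * pr (-(s - d)) n =
      pr (-s) n ^ 2 * ∏ j ∈ range n, (1 - (d / (AJ j - s)) ^ 2) := by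
    rw [pr_eq, pr_eq, pr_eq, ← prod_mul_distrib, ← prod_pow, ← prod_mul_distrib]
    refine prod_congr rfl fun j _ => ?_
    have h1 : AJ j ≠ 0 := (AJ_pos j).ne'
    have h2 : AJ j - s ≠ 0 := by
      have := pi_sq_le_AJ j
      exact (by (clear * - hs this; linarith) : 0 < AJ j - s).ne'
    field_simp
    ring
  rw [e1]; ring

theorem ratio_mem {s d : ℝ} (hd : 0 ≤ d) (hsd : s + d ≤ π ^ 2) (hs : s < π ^ 2) (j : ℕ) :
    0 ≤ d / (AJ j - s) ∧ d / (AJ j - s) ≤ 1 := by
  have h1 := pi_sq_le_AJ j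
  have h2 : 0 < AJ j - s := by linarith
  exact ⟨by (clear * - hd h2; positivity), by rw [div_le_one h2]; (clear * - hsd h1; linarith)⟩

theorem sq_mem {e : ℝ} (h : 0 ≤ e ∧ e ≤ 1) : 0 ≤ e ^ 2 ∧ e ^ 2 ≤ 1 :=
  ⟨by positivity, pow_le_one₀ h.1 h.2⟩

/-- convergence of the bracket -/
theorem tendsto_bracket {X U C w : ℝ} (hCC : 2 * C ^ 2 = X ^ 2 + U ^ 2)
    (hs : w ^ 2 * C ^ 2 < π ^ 2) :
    Tendsto (fun n => pr (-(w ^ 2 * C ^ 2)) n ^ 2 *
      (1 - ∏ j ∈ range n, (1 - (w ^ 2 * ((X ^ 2 - U ^ 2) / 2) / (AJ j - w ^ 2 * C ^ 2)) ^ 2))) atTop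
      (𝓝 (BB X U C w)) := by
  have t1 := tendsto_sinc (w * C)
  have t2 := tendsto_sinc (w * X)
  have t3 := tendsto_sinc (w * U)
  have h1 := (t1.pow 2).sub (t2.mul t3)
  unfold BB
  refine h1.congr fun n => ?_
  rw [← bracket_eq hs]
  have e1 : -(w * C) ^ 2 = -(w ^ 2 * C ^ 2) := by ring
  have e2 : -(w * X) ^ 2 = -(w ^ 2 * C ^ 2 + w ^ 2 * ((X ^ 2 - U ^ 2) / 2)) := by
    have : w ^ 2 * (2 * C ^ 2) = w ^ 2 * (X ^ 2 + U ^ 2) := by rw [hCC]
    linarith
  have e3 : -(w * U) ^ 2 = -(w ^ 2 * C ^ 2 - w ^ 2 * ((X ^ 2 - U ^ 2) / 2)) := by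
    have : w ^ 2 * (2 * C ^ 2) = w ^ 2 * (X ^ 2 + U ^ 2) := by rw [hCC]
    (clear * - e2; linarith)
  rw [e1, e2, e3]

theorem sum_tail_four (n : ℕ) : ∑ j ∈ range n, 1 / AJ (j + 1) ^ 2 ≤ 85 / 100000 := by
  have h := sum_four_le (n + 1)
  have h' : ∑ j ∈ range (n + 1), 1 / AJ j ^ 2 ≤ 1 / 90 := h
  rw [sum_range_succ', AJ_zero] at h'
  have h1 : (1:ℝ) / (π ^ 2) ^ 2 ≥ 1 / 9742 * 100 := by
    have := pi_lt_d6
    have h3 : π ^ 2 ≤ 3.141593 ^ 2 := pow_le_pow_left₀ pi_pos.le (by (clear * - this; linarith)) 2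
    have h4 : (π ^ 2) ^ 2 ≤ (3.141593 ^ 2) ^ 2 := pow_le_pow_left₀ (by positivity) h3 2
    rw [ge_iff_le, le_div_iff₀ (by positivity)]
    norm_num at h4 ⊢
    (clear * - h4; nlinarith)
  norm_num at h1 h' ⊢
  (clear * - h1 h'; linarith)

end BBaux

open BBaux

namespace BBaux

theorem tendsto_sum_four : Tendsto (fun n => ∑ j ∈ range n, 1 / AJ j ^ 2) atTop (𝓝 (1 / 90)) := by
  have h := hasSum_zeta_four
  have h1 : HasSum (fun n : ℕ => (1 : ℝ) / ((n : ℝ) + 1) ^ 4) (π ^ 4 / 90) := by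
    have := (hasSum_nat_add_iff' (f := fun n : ℕ => (1 : ℝ) / (n : ℝ) ^ 4) 1).mpr h
    simpa using this
  have h2 := h1.mul_left (1 / π ^ 4)
  have e : 1 / π ^ 4 * (π ^ 4 / 90) = 1 / 90 := by (clear * -; field_simp)
  rw [e] at h2
  refine h2.tendsto_sum_nat.congr fun n => ?_
  refine sum_congr rfl fun j _ => ?_
  unfold AJ
  (clear * -; field_simp)

theorem nonneg_of_deriv {f f' : ℝ → ℝ} (h0 : 0 ≤ f 0) (hd : ∀ x, HasDerivAt f (f' x) x)
    (hf : ∀ x, 0 ≤ x → 0 ≤ f' x) {x : ℝ} (hx : 0 ≤ x) : 0 ≤ f x := by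
  have hm : MonotoneOn f (Set.Ici 0) := by
    refine monotoneOn_of_deriv_nonneg (convex_Ici 0)
      (fun y _ => (hd y).continuousAt.continuousWithinAt)
      (fun y _ => (hd y).differentiableAt.differentiableWithinAt) fun y hy => ?_
    rw [interior_Ici] at hy
    rw [(hd y).deriv]
    exact hf y (le_of_lt hy)
  exact h0.trans (hm (Set.mem_Ici.mpr le_rfl) (Set.mem_Ici.mpr hx) hx)

theorem cos_poly2 {x : ℝ} (_hx : 0 ≤ x) : 0 ≤ cos x - (1 - x ^ 2 / 2) := by
  have := one_sub_sq_div_two_le_cos (x := x); (clear * - this; linarith)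

theorem sin_poly3 {x : ℝ} (hx : 0 ≤ x) : 0 ≤ sin x - (x - x ^ 3 / 6) := by
  refine nonneg_of_deriv (f := fun x => sin x - (x - x ^ 3 / 6))
    (f' := fun x => cos x - (1 - x ^ 2 / 2)) (by simp) (fun y => ?_) (fun y hy => cos_poly2 hy) hx
  have := (hasDerivAt_sin y).sub ((hasDerivAt_id y).sub (((hasDerivAt_id y).pow 3).div_const 6))
  refine this.congr_deriv ?_
  simp only [id]
  norm_num
  ring

theorem cos_poly4 {x : ℝ} (hx : 0 ≤ x) : 0 ≤ (1 - x ^ 2 / 2 + x ^ 4 / 24) - cos x := by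
  refine nonneg_of_deriv (f := fun x => (1 - x ^ 2 / 2 + x ^ 4 / 24) - cos x)
    (f' := fun x => sin x - (x - x ^ 3 / 6)) (by simp) (fun y => ?_) (fun y hy => sin_poly3 hy) hx
  have := (((hasDerivAt_const y (1:ℝ)).sub (((hasDerivAt_id y).pow 2).div_const 2)).add
    (((hasDerivAt_id y).pow 4).div_const 24)).sub (hasDerivAt_cos y)
  refine this.congr_deriv ?_
  simp only [id]
  norm_num
  ring

theorem sin_poly5 {x : ℝ} (hx : 0 ≤ x) : 0 ≤ (x - x ^ 3 / 6 + x ^ 5 / 120) - sin x := by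
  refine nonneg_of_deriv (f := fun x => (x - x ^ 3 / 6 + x ^ 5 / 120) - sin x)
    (f' := fun x => (1 - x ^ 2 / 2 + x ^ 4 / 24) - cos x) (by simp) (fun y => ?_)
    (fun y hy => cos_poly4 hy) hx
  have := (((hasDerivAt_id y).sub (((hasDerivAt_id y).pow 3).div_const 6)).add
    (((hasDerivAt_id y).pow 5).div_const 120)).sub (hasDerivAt_sin y)
  refine this.congr_deriv ?_
  simp only [id]
  norm_num
  ring

theorem cos_poly6 {x : ℝ} (hx : 0 ≤ x) :
    0 ≤ cos x - (1 - x ^ 2 / 2 + x ^ 4 / 24 - x ^ 6 / 720) := by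
  refine nonneg_of_deriv (f := fun x => cos x - (1 - x ^ 2 / 2 + x ^ 4 / 24 - x ^ 6 / 720))
    (f' := fun x => (x - x ^ 3 / 6 + x ^ 5 / 120) - sin x) (by simp) (fun y => ?_)
    (fun y hy => sin_poly5 hy) hx
  have := (hasDerivAt_cos y).sub ((((hasDerivAt_const y (1:ℝ)).sub
    (((hasDerivAt_id y).pow 2).div_const 2)).add
    (((hasDerivAt_id y).pow 4).div_const 24)).sub (((hasDerivAt_id y).pow 6).div_const 720))
  refine this.congr_deriv ?_
  simp only [id]
  norm_num
  ring

theorem sin_poly7 {x : ℝ} (hx : 0 ≤ x) :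
    0 ≤ sin x - (x - x ^ 3 / 6 + x ^ 5 / 120 - x ^ 7 / 5040) := by
  refine nonneg_of_deriv (f := fun x => sin x - (x - x ^ 3 / 6 + x ^ 5 / 120 - x ^ 7 / 5040))
    (f' := fun x => cos x - (1 - x ^ 2 / 2 + x ^ 4 / 24 - x ^ 6 / 720)) (by simp) (fun y => ?_)
    (fun y hy => cos_poly6 hy) hx
  have := (hasDerivAt_sin y).sub ((((hasDerivAt_id y).sub
    (((hasDerivAt_id y).pow 3).div_const 6)).add
    (((hasDerivAt_id y).pow 5).div_const 120)).sub (((hasDerivAt_id y).pow 7).div_const 5040))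
  refine this.congr_deriv ?_
  simp only [id]
  norm_num
  ring

theorem sinc_poly6 {x : ℝ} (hx : 0 ≤ x) :
    1 - x ^ 2 / 6 + x ^ 4 / 120 - x ^ 6 / 5040 ≤ sinc x := by
  rcases eq_or_lt_of_le hx with h | h
  · rw [← h]; simp
  · rw [sinc_of_ne_zero h.ne', le_div_iff₀ h]
    have := sin_poly7 hx
    (clear * - this; nlinarith)

end BBaux

end Pool.Agent.M18.Helper95.SP.Crude
end
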