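import Mathlib
import Pool.Agent.Helper53.AM.G01
import Pool.Agent.Helper53.AM.G07

/- Helper8.SP.FactT35 -/
section
/-!
Project SP (MP_66ebcc_gt), module SP-09e: the numerical fact `fact_T3_5`.

With `F = (2 - t)⁴ / 12`, `A = 1 - t p` and
`D₀(p,q,r,t) = 8 q r F - A ((p+q+r-t)² + (1-p²-q²-r²)/3)` the fact says that `D₀` exceeds two small
error terms.  By concavity in `q + r` the minimum of `D₀` is attained on one of three two-parameter
families, on which the Bernstein coefficients (of bidegree `(3,4)`) of `D₀ - δ` are all positive.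
-/

set_option autoImplicit false

namespace Pool.Agent.M18.Helper8.SPNum

theorem t35_f1a {t p : ℝ} (hp0 : (211 / 400) ≤ p) (hp1 : p ≤ (31 / 50)) (ht0 : (6 / 5) ≤ t)
    (ht1 : t ≤ (13 / 10)) : (3 / 5000) ≤ 8 * (((15475 / 10000 - p) / 2) * ((15475 / 10000 - p) / 2)) * ((2 - t) ^ 4 / 12) - (1 - t * p) * ((p + ((15475 / 10000 - p) / 2) + ((15475 / 10000 - p) / 2) - t) ^ 2 + (1 - p ^ 2 - ((15475 / 10000 - p) / 2) ^ 2 - ((15475 / 10000 - p) / 2) ^ 2) / 3) := by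
  have h : 8 * (((15475 / 10000 - p) / 2) * ((15475 / 10000 - p) / 2)) * ((2 - t) ^ 4 / 12) - (1 - t * p) * ((p + ((15475 / 10000 - p) / 2) + ((15475 / 10000 - p) / 2) - t) ^ 2 + (1 - p ^ 2 - ((15475 / 10000 - p) / 2) ^ 2 - ((15475 / 10000 - p) / 2) ^ 2) / 3) - (3 / 5000) =
      (929009600 / 50653) * ((p - (211 / 400)) ^ 0 * ((31 / 50) - p) ^ 3 * ((t - (6 / 5)) ^ 0 * ((13 / 10) - t) ^ 4)) +
      (3657083600 / 50653) * ((p - (211 / 400)) ^ 0 * ((31 / 50) - p) ^ 3 * ((t - (6 / 5)) ^ 1 * ((13 / 10) - t) ^ 3)) +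
      (4963551600 / 50653) * ((p - (211 / 400)) ^ 0 * ((31 / 50) - p) ^ 3 * ((t - (6 / 5)) ^ 2 * ((13 / 10) - t) ^ 2)) +
      (2654367600 / 50653) * ((p - (211 / 400)) ^ 0 * ((31 / 50) - p) ^ 3 * ((t - (6 / 5)) ^ 3 * ((13 / 10) - t) ^ 1)) +
      (429987600 / 50653) * ((p - (211 / 400)) ^ 0 * ((31 / 50) - p) ^ 3 * ((t - (6 / 5)) ^ 4 * ((13 / 10) - t) ^ 0)) +
      (24441464000 / 151959) * ((p - (211 / 400)) ^ 1 * ((31 / 50) - p) ^ 2 * ((t - (6 / 5)) ^ 0 * ((13 / 10) - t) ^ 4)) +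
      (32672846000 / 50653) * ((p - (211 / 400)) ^ 1 * ((31 / 50) - p) ^ 2 * ((t - (6 / 5)) ^ 1 * ((13 / 10) - t) ^ 3)) +
      (47360730000 / 50653) * ((p - (211 / 400)) ^ 1 * ((31 / 50) - p) ^ 2 * ((t - (6 / 5)) ^ 2 * ((13 / 10) - t) ^ 2)) +
      (88087742000 / 151959) * ((p - (211 / 400)) ^ 1 * ((31 / 50) - p) ^ 2 * ((t - (6 / 5)) ^ 3 * ((13 / 10) - t) ^ 1)) +
      (6558822000 / 50653) * ((p - (211 / 400)) ^ 1 * ((31 / 50) - p) ^ 2 * ((t - (6 / 5)) ^ 4 * ((13 / 10) - t) ^ 0)) +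
      (14809290800 / 50653) * ((p - (211 / 400)) ^ 2 * ((31 / 50) - p) ^ 1 * ((t - (6 / 5)) ^ 0 * ((13 / 10) - t) ^ 4)) +
      (177734249900 / 151959) * ((p - (211 / 400)) ^ 2 * ((31 / 50) - p) ^ 1 * ((t - (6 / 5)) ^ 1 * ((13 / 10) - t) ^ 3)) +
      (86664716300 / 50653) * ((p - (211 / 400)) ^ 2 * ((31 / 50) - p) ^ 1 * ((t - (6 / 5)) ^ 2 * ((13 / 10) - t) ^ 2)) +
      (165072224900 / 151959) * ((p - (211 / 400)) ^ 2 * ((31 / 50) - p) ^ 1 * ((t - (6 / 5)) ^ 3 * ((13 / 10) - t) ^ 1)) +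
      (12824176300 / 50653) * ((p - (211 / 400)) ^ 2 * ((31 / 50) - p) ^ 1 * ((t - (6 / 5)) ^ 4 * ((13 / 10) - t) ^ 0)) +
      (21861683200 / 151959) * ((p - (211 / 400)) ^ 3 * ((31 / 50) - p) ^ 0 * ((t - (6 / 5)) ^ 0 * ((13 / 10) - t) ^ 4)) +
      (86963967200 / 151959) * ((p - (211 / 400)) ^ 3 * ((31 / 50) - p) ^ 0 * ((t - (6 / 5)) ^ 1 * ((13 / 10) - t) ^ 3)) +
      (42368050400 / 50653) * ((p - (211 / 400)) ^ 3 * ((31 / 50) - p) ^ 0 * ((t - (6 / 5)) ^ 2 * ((13 / 10) - t) ^ 2)) +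
      (27024210400 / 50653) * ((p - (211 / 400)) ^ 3 * ((31 / 50) - p) ^ 0 * ((t - (6 / 5)) ^ 3 * ((13 / 10) - t) ^ 1)) +
      (6366097400 / 50653) * ((p - (211 / 400)) ^ 3 * ((31 / 50) - p) ^ 0 * ((t - (6 / 5)) ^ 4 * ((13 / 10) - t) ^ 0)) := by
    ring
  have h1 : 0 ≤ p - (211 / 400) := by (clear * - hp0; linarith)
  have h2 : 0 ≤ (31 / 50) - p := by (clear * - hp1; linarith)
  have h3 : 0 ≤ t - (6 / 5) := by (clear * - ht0; linarith)
  have h4 : 0 ≤ (13 / 10) - t := by (clear * - ht1; linarith)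
  have h5 : 0 ≤ 8 * (((15475 / 10000 - p) / 2) * ((15475 / 10000 - p) / 2)) * ((2 - t) ^ 4 / 12) - (1 - t * p) * ((p + ((15475 / 10000 - p) / 2) + ((15475 / 10000 - p) / 2) - t) ^ 2 + (1 - p ^ 2 - ((15475 / 10000 - p) / 2) ^ 2 - ((15475 / 10000 - p) / 2) ^ 2) / 3) - (3 / 5000) := by
    rw [h]
    (clear * - hp1 ht0 ht1 hp0; positivity)
  (clear * - h5; linarith)

theorem t35_f1b {t p : ℝ} (hp0 : (211 / 400) ≤ p) (hp1 : p ≤ (31 / 50)) (ht0 : (13 / 10) ≤ t)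
    (ht1 : t ≤ (27 / 20)) : (33 / 100000) ≤ 8 * (((15475 / 10000 - p) / 2) * ((15475 / 10000 - p) / 2)) * ((2 - t) ^ 4 / 12) - (1 - t * p) * ((p + ((15475 / 10000 - p) / 2) + ((15475 / 10000 - p) / 2) - t) ^ 2 + (1 - p ^ 2 - ((15475 / 10000 - p) / 2) ^ 2 - ((15475 / 10000 - p) / 2) ^ 2) / 3) := by
  have h : 8 * (((15475 / 10000 - p) / 2) * ((15475 / 10000 - p) / 2)) * ((2 - t) ^ 4 / 12) - (1 - t * p) * ((p + ((15475 / 10000 - p) / 2) + ((15475 / 10000 - p) / 2) - t) ^ 2 + (1 - p ^ 2 - ((15475 / 10000 - p) / 2) ^ 2 - ((15475 / 10000 - p) / 2) ^ 2) / 3) - (33 / 100000) =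
      (9644601600 / 50653) * ((p - (211 / 400)) ^ 0 * ((31 / 50) - p) ^ 3 * ((t - (13 / 10)) ^ 0 * ((27 / 20) - t) ^ 4)) +
      (31103068800 / 50653) * ((p - (211 / 400)) ^ 0 * ((31 / 50) - p) ^ 3 * ((t - (13 / 10)) ^ 1 * ((27 / 20) - t) ^ 3)) +
      (33763094400 / 50653) * ((p - (211 / 400)) ^ 0 * ((31 / 50) - p) ^ 3 * ((t - (13 / 10)) ^ 2 * ((27 / 20) - t) ^ 2)) +
      (347273600 / 1369) * ((p - (211 / 400)) ^ 0 * ((31 / 50) - p) ^ 3 * ((t - (13 / 10)) ^ 3 * ((27 / 20) - t) ^ 1)) +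
      (555593600 / 50653) * ((p - (211 / 400)) ^ 0 * ((31 / 50) - p) ^ 3 * ((t - (13 / 10)) ^ 4 * ((27 / 20) - t) ^ 0)) +
      (113235552000 / 50653) * ((p - (211 / 400)) ^ 1 * ((31 / 50) - p) ^ 2 * ((t - (13 / 10)) ^ 0 * ((27 / 20) - t) ^ 4)) +
      (1283771600000 / 151959) * ((p - (211 / 400)) ^ 1 * ((31 / 50) - p) ^ 2 * ((t - (13 / 10)) ^ 1 * ((27 / 20) - t) ^ 3)) +
      (598861968000 / 50653) * ((p - (211 / 400)) ^ 1 * ((31 / 50) - p) ^ 2 * ((t - (13 / 10)) ^ 2 * ((27 / 20) - t) ^ 2)) +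
      (9926672000 / 1369) * ((p - (211 / 400)) ^ 1 * ((31 / 50) - p) ^ 2 * ((t - (13 / 10)) ^ 3 * ((27 / 20) - t) ^ 1)) +
      (249433472000 / 151959) * ((p - (211 / 400)) ^ 1 * ((31 / 50) - p) ^ 2 * ((t - (13 / 10)) ^ 4 * ((27 / 20) - t) ^ 0)) +
      (213481220800 / 50653) * ((p - (211 / 400)) ^ 2 * ((31 / 50) - p) ^ 1 * ((t - (13 / 10)) ^ 0 * ((27 / 20) - t) ^ 4)) +
      (2472317775200 / 151959) * ((p - (211 / 400)) ^ 2 * ((31 / 50) - p) ^ 1 * ((t - (13 / 10)) ^ 1 * ((27 / 20) - t) ^ 3)) +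
      (1185580647200 / 50653) * ((p - (211 / 400)) ^ 2 * ((31 / 50) - p) ^ 1 * ((t - (13 / 10)) ^ 2 * ((27 / 20) - t) ^ 2)) +
      (61085410400 / 4107) * ((p - (211 / 400)) ^ 2 * ((31 / 50) - p) ^ 1 * ((t - (13 / 10)) ^ 3 * ((27 / 20) - t) ^ 1)) +
      (178460143800 / 50653) * ((p - (211 / 400)) ^ 2 * ((31 / 50) - p) ^ 1 * ((t - (13 / 10)) ^ 4 * ((27 / 20) - t) ^ 0)) +
      (104622358400 / 50653) * ((p - (211 / 400)) ^ 3 * ((31 / 50) - p) ^ 0 * ((t - (13 / 10)) ^ 0 * ((27 / 20) - t) ^ 4)) +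
      (406010867200 / 50653) * ((p - (211 / 400)) ^ 3 * ((31 / 50) - p) ^ 0 * ((t - (13 / 10)) ^ 1 * ((27 / 20) - t) ^ 3)) +
      (588266465600 / 50653) * ((p - (211 / 400)) ^ 3 * ((31 / 50) - p) ^ 0 * ((t - (13 / 10)) ^ 2 * ((27 / 20) - t) ^ 2)) +
      (30589419200 / 4107) * ((p - (211 / 400)) ^ 3 * ((31 / 50) - p) ^ 0 * ((t - (13 / 10)) ^ 3 * ((27 / 20) - t) ^ 1)) +
      (271202168200 / 151959) * ((p - (211 / 400)) ^ 3 * ((31 / 50) - p) ^ 0 * ((t - (13 / 10)) ^ 4 * ((27 / 20) - t) ^ 0)) := by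
    ring
  have h1 : 0 ≤ p - (211 / 400) := by (clear * - hp0; linarith)
  have h2 : 0 ≤ (31 / 50) - p := by (clear * - hp1; linarith)
  have h3 : 0 ≤ t - (13 / 10) := by (clear * - ht0; linarith)
  have h4 : 0 ≤ (27 / 20) - t := by (clear * - ht1; linarith)
  have h5 : 0 ≤ 8 * (((15475 / 10000 - p) / 2) * ((15475 / 10000 - p) / 2)) * ((2 - t) ^ 4 / 12) - (1 - t * p) * ((p + ((15475 / 10000 - p) / 2) + ((15475 / 10000 - p) / 2) - t) ^ 2 + (1 - p ^ 2 - ((15475 / 10000 - p) / 2) ^ 2 - ((15475 / 10000 - p) / 2) ^ 2) / 3) - (33 / 100000) := by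
    rw [h]
    (clear * - hp1 ht0 ht1 hp0; positivity)
  (clear * - h5; linarith)

theorem t35_f2a {t p : ℝ} (hp0 : (211 / 400) ≤ p) (hp1 : p ≤ (31 / 50)) (ht0 : (6 / 5) ≤ t)
    (ht1 : t ≤ (13 / 10)) : (3 / 5000) ≤ 8 * (p * p) * ((2 - t) ^ 4 / 12) - (1 - t * p) * ((p + p + p - t) ^ 2 + (1 - p ^ 2 - p ^ 2 - p ^ 2) / 3) := by
  have h : 8 * (p * p) * ((2 - t) ^ 4 / 12) - (1 - t * p) * ((p + p + p - t) ^ 2 + (1 - p ^ 2 - p ^ 2 - p ^ 2) / 3) - (3 / 5000) =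
      (2831660800 / 151959) * ((p - (211 / 400)) ^ 0 * ((31 / 50) - p) ^ 3 * ((t - (6 / 5)) ^ 0 * ((13 / 10) - t) ^ 4)) +
      (12684500800 / 151959) * ((p - (211 / 400)) ^ 0 * ((31 / 50) - p) ^ 3 * ((t - (6 / 5)) ^ 1 * ((13 / 10) - t) ^ 3)) +
      (6648689600 / 50653) * ((p - (211 / 400)) ^ 0 * ((31 / 50) - p) ^ 3 * ((t - (6 / 5)) ^ 2 * ((13 / 10) - t) ^ 2)) +
      (4346113600 / 50653) * ((p - (211 / 400)) ^ 0 * ((31 / 50) - p) ^ 3 * ((t - (6 / 5)) ^ 3 * ((13 / 10) - t) ^ 1)) +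
      (2980728800 / 151959) * ((p - (211 / 400)) ^ 0 * ((31 / 50) - p) ^ 3 * ((t - (6 / 5)) ^ 4 * ((13 / 10) - t) ^ 0)) +
      (21755545600 / 151959) * ((p - (211 / 400)) ^ 1 * ((31 / 50) - p) ^ 2 * ((t - (6 / 5)) ^ 0 * ((13 / 10) - t) ^ 4)) +
      (34503667200 / 50653) * ((p - (211 / 400)) ^ 1 * ((31 / 50) - p) ^ 2 * ((t - (6 / 5)) ^ 1 * ((13 / 10) - t) ^ 3)) +
      (58865155200 / 50653) * ((p - (211 / 400)) ^ 1 * ((31 / 50) - p) ^ 2 * ((t - (6 / 5)) ^ 2 * ((13 / 10) - t) ^ 2)) +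
      (129077177600 / 151959) * ((p - (211 / 400)) ^ 1 * ((31 / 50) - p) ^ 2 * ((t - (6 / 5)) ^ 3 * ((13 / 10) - t) ^ 1)) +
      (34356509600 / 151959) * ((p - (211 / 400)) ^ 1 * ((31 / 50) - p) ^ 2 * ((t - (6 / 5)) ^ 4 * ((13 / 10) - t) ^ 0)) +
      (15714304000 / 151959) * ((p - (211 / 400)) ^ 2 * ((31 / 50) - p) ^ 1 * ((t - (6 / 5)) ^ 0 * ((13 / 10) - t) ^ 4)) +
      (86659840000 / 151959) * ((p - (211 / 400)) ^ 2 * ((31 / 50) - p) ^ 1 * ((t - (6 / 5)) ^ 1 * ((13 / 10) - t) ^ 3)) +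
      (53890816000 / 50653) * ((p - (211 / 400)) ^ 2 * ((31 / 50) - p) ^ 1 * ((t - (6 / 5)) ^ 2 * ((13 / 10) - t) ^ 2)) +
      (125362496000 / 151959) * ((p - (211 / 400)) ^ 2 * ((31 / 50) - p) ^ 1 * ((t - (6 / 5)) ^ 3 * ((13 / 10) - t) ^ 1)) +
      (11589504000 / 50653) * ((p - (211 / 400)) ^ 2 * ((31 / 50) - p) ^ 1 * ((t - (6 / 5)) ^ 4 * ((13 / 10) - t) ^ 0)) +
      (11378483200 / 151959) * ((p - (211 / 400)) ^ 3 * ((31 / 50) - p) ^ 0 * ((t - (6 / 5)) ^ 0 * ((13 / 10) - t) ^ 4)) +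
      (55401267200 / 151959) * ((p - (211 / 400)) ^ 3 * ((31 / 50) - p) ^ 0 * ((t - (6 / 5)) ^ 1 * ((13 / 10) - t) ^ 3)) +
      (32066150400 / 50653) * ((p - (211 / 400)) ^ 3 * ((31 / 50) - p) ^ 0 * ((t - (6 / 5)) ^ 2 * ((13 / 10) - t) ^ 2)) +
      (23774310400 / 50653) * ((p - (211 / 400)) ^ 3 * ((31 / 50) - p) ^ 0 * ((t - (6 / 5)) ^ 3 * ((13 / 10) - t) ^ 1)) +
      (6398822400 / 50653) * ((p - (211 / 400)) ^ 3 * ((31 / 50) - p) ^ 0 * ((t - (6 / 5)) ^ 4 * ((13 / 10) - t) ^ 0)) := by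
    ring
  have h1 : 0 ≤ p - (211 / 400) := by (clear * - hp0; linarith)
  have h2 : 0 ≤ (31 / 50) - p := by (clear * - hp1; linarith)
  have h3 : 0 ≤ t - (6 / 5) := by (clear * - ht0; linarith)
  have h4 : 0 ≤ (13 / 10) - t := by (clear * - ht1; linarith)
  have h5 : 0 ≤ 8 * (p * p) * ((2 - t) ^ 4 / 12) - (1 - t * p) * ((p + p + p - t) ^ 2 + (1 - p ^ 2 - p ^ 2 - p ^ 2) / 3) - (3 / 5000) := by
    rw [h]
    (clear * - hp1 ht0 ht1 hp0; positivity)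
  (clear * - h5; linarith)

theorem t35_f2b {t p : ℝ} (hp0 : (211 / 400) ≤ p) (hp1 : p ≤ (31 / 50)) (ht0 : (13 / 10) ≤ t)
    (ht1 : t ≤ (27 / 20)) : (33 / 100000) ≤ 8 * (p * p) * ((2 - t) ^ 4 / 12) - (1 - t * p) * ((p + p + p - t) ^ 2 + (1 - p ^ 2 - p ^ 2 - p ^ 2) / 3) := by
  have h : 8 * (p * p) * ((2 - t) ^ 4 / 12) - (1 - t * p) * ((p + p + p - t) ^ 2 + (1 - p ^ 2 - p ^ 2 - p ^ 2) / 3) - (33 / 100000) =
      (55986060800 / 151959) * ((p - (211 / 400)) ^ 0 * ((31 / 50) - p) ^ 3 * ((t - (13 / 10)) ^ 0 * ((27 / 20) - t) ^ 4)) +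
      (71673612800 / 50653) * ((p - (211 / 400)) ^ 0 * ((31 / 50) - p) ^ 3 * ((t - (13 / 10)) ^ 1 * ((27 / 20) - t) ^ 3)) +
      (101335942400 / 50653) * ((p - (211 / 400)) ^ 0 * ((31 / 50) - p) ^ 3 * ((t - (13 / 10)) ^ 2 * ((27 / 20) - t) ^ 2)) +
      (186928441600 / 151959) * ((p - (211 / 400)) ^ 0 * ((31 / 50) - p) ^ 3 * ((t - (13 / 10)) ^ 3 * ((27 / 20) - t) ^ 1)) +
      (41991008800 / 151959) * ((p - (211 / 400)) ^ 0 * ((31 / 50) - p) ^ 3 * ((t - (13 / 10)) ^ 4 * ((27 / 20) - t) ^ 0)) +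
      (574587353600 / 151959) * ((p - (211 / 400)) ^ 1 * ((31 / 50) - p) ^ 2 * ((t - (13 / 10)) ^ 0 * ((27 / 20) - t) ^ 4)) +
      (2365140300800 / 151959) * ((p - (211 / 400)) ^ 1 * ((31 / 50) - p) ^ 2 * ((t - (13 / 10)) ^ 1 * ((27 / 20) - t) ^ 3)) +
      (1209969580800 / 50653) * ((p - (211 / 400)) ^ 1 * ((31 / 50) - p) ^ 2 * ((t - (13 / 10)) ^ 2 * ((27 / 20) - t) ^ 2)) +
      (820831622400 / 50653) * ((p - (211 / 400)) ^ 1 * ((31 / 50) - p) ^ 2 * ((t - (13 / 10)) ^ 3 * ((27 / 20) - t) ^ 1)) +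
      (623258413600 / 151959) * ((p - (211 / 400)) ^ 1 * ((31 / 50) - p) ^ 2 * ((t - (13 / 10)) ^ 4 * ((27 / 20) - t) ^ 0)) +
      (193726464000 / 50653) * ((p - (211 / 400)) ^ 2 * ((31 / 50) - p) ^ 1 * ((t - (13 / 10)) ^ 0 * ((27 / 20) - t) ^ 4)) +
      (2434409984000 / 151959) * ((p - (211 / 400)) ^ 2 * ((31 / 50) - p) ^ 1 * ((t - (13 / 10)) ^ 1 * ((27 / 20) - t) ^ 3)) +
      (1264312576000 / 50653) * ((p - (211 / 400)) ^ 2 * ((31 / 50) - p) ^ 1 * ((t - (13 / 10)) ^ 2 * ((27 / 20) - t) ^ 2)) +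
      (2606706304000 / 151959) * ((p - (211 / 400)) ^ 2 * ((31 / 50) - p) ^ 1 * ((t - (13 / 10)) ^ 3 * ((27 / 20) - t) ^ 1)) +
      (667132096000 / 151959) * ((p - (211 / 400)) ^ 2 * ((31 / 50) - p) ^ 1 * ((t - (13 / 10)) ^ 4 * ((27 / 20) - t) ^ 0)) +
      (105145958400 / 50653) * ((p - (211 / 400)) ^ 3 * ((31 / 50) - p) ^ 0 * ((t - (13 / 10)) ^ 0 * ((27 / 20) - t) ^ 4)) +
      (435151667200 / 50653) * ((p - (211 / 400)) ^ 3 * ((31 / 50) - p) ^ 0 * ((t - (13 / 10)) ^ 1 * ((27 / 20) - t) ^ 3)) +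
      (671123865600 / 50653) * ((p - (211 / 400)) ^ 3 * ((31 / 50) - p) ^ 0 * ((t - (13 / 10)) ^ 2 * ((27 / 20) - t) ^ 2)) +
      (1371755110400 / 151959) * ((p - (211 / 400)) ^ 3 * ((31 / 50) - p) ^ 0 * ((t - (13 / 10)) ^ 3 * ((27 / 20) - t) ^ 1)) +
      (348449843200 / 151959) * ((p - (211 / 400)) ^ 3 * ((31 / 50) - p) ^ 0 * ((t - (13 / 10)) ^ 4 * ((27 / 20) - t) ^ 0)) := by
    ring
  have h1 : 0 ≤ p - (211 / 400) := by (clear * - hp0; linarith)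
  have h2 : 0 ≤ (31 / 50) - p := by (clear * - hp1; linarith)
  have h3 : 0 ≤ t - (13 / 10) := by (clear * - ht0; linarith)
  have h4 : 0 ≤ (27 / 20) - t := by (clear * - ht1; linarith)
  have h5 : 0 ≤ 8 * (p * p) * ((2 - t) ^ 4 / 12) - (1 - t * p) * ((p + p + p - t) ^ 2 + (1 - p ^ 2 - p ^ 2 - p ^ 2) / 3) - (33 / 100000) := by
    rw [h]
    (clear * - hp1 ht0 ht1 hp0; positivity)
  (clear * - h5; linarith)

theorem t35_f3a {t p : ℝ} (hp0 : (211 / 400) ≤ p) (hp1 : p ≤ (31 / 50)) (ht0 : (6 / 5) ≤ t)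
    (ht1 : t ≤ (13 / 10)) : (3 / 5000) ≤ 8 * (p * (15475 / 10000 - p - p)) * ((2 - t) ^ 4 / 12) - (1 - t * p) * ((p + p + (15475 / 10000 - p - p) - t) ^ 2 + (1 - p ^ 2 - p ^ 2 - (15475 / 10000 - p - p) ^ 2) / 3) := by
  have h : 8 * (p * (15475 / 10000 - p - p)) * ((2 - t) ^ 4 / 12) - (1 - t * p) * ((p + p + (15475 / 10000 - p - p) - t) ^ 2 + (1 - p ^ 2 - p ^ 2 - (15475 / 10000 - p - p) ^ 2) / 3) - (3 / 5000) =
      (923443200 / 50653) * ((p - (211 / 400)) ^ 0 * ((31 / 50) - p) ^ 3 * ((t - (6 / 5)) ^ 0 * ((13 / 10) - t) ^ 4)) +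
      (10964057600 / 151959) * ((p - (211 / 400)) ^ 0 * ((31 / 50) - p) ^ 3 * ((t - (6 / 5)) ^ 1 * ((13 / 10) - t) ^ 3)) +
      (4984739200 / 50653) * ((p - (211 / 400)) ^ 0 * ((31 / 50) - p) ^ 3 * ((t - (6 / 5)) ^ 2 * ((13 / 10) - t) ^ 2)) +
      (8046265600 / 151959) * ((p - (211 / 400)) ^ 0 * ((31 / 50) - p) ^ 3 * ((t - (6 / 5)) ^ 3 * ((13 / 10) - t) ^ 1)) +
      (1319029600 / 151959) * ((p - (211 / 400)) ^ 0 * ((31 / 50) - p) ^ 3 * ((t - (6 / 5)) ^ 4 * ((13 / 10) - t) ^ 0)) +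
      (24083052800 / 151959) * ((p - (211 / 400)) ^ 1 * ((31 / 50) - p) ^ 2 * ((t - (6 / 5)) ^ 0 * ((13 / 10) - t) ^ 4)) +
      (97705220800 / 151959) * ((p - (211 / 400)) ^ 1 * ((31 / 50) - p) ^ 2 * ((t - (6 / 5)) ^ 1 * ((13 / 10) - t) ^ 3)) +
      (47669617600 / 50653) * ((p - (211 / 400)) ^ 1 * ((31 / 50) - p) ^ 2 * ((t - (6 / 5)) ^ 2 * ((13 / 10) - t) ^ 2)) +
      (89471028800 / 151959) * ((p - (211 / 400)) ^ 1 * ((31 / 50) - p) ^ 2 * ((t - (6 / 5)) ^ 3 * ((13 / 10) - t) ^ 1)) +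
      (20177444800 / 151959) * ((p - (211 / 400)) ^ 1 * ((31 / 50) - p) ^ 2 * ((t - (6 / 5)) ^ 4 * ((13 / 10) - t) ^ 0)) +
      (14007140800 / 50653) * ((p - (211 / 400)) ^ 2 * ((31 / 50) - p) ^ 1 * ((t - (6 / 5)) ^ 0 * ((13 / 10) - t) ^ 4)) +
      (173859612400 / 151959) * ((p - (211 / 400)) ^ 2 * ((31 / 50) - p) ^ 1 * ((t - (6 / 5)) ^ 1 * ((13 / 10) - t) ^ 3)) +
      (87113378800 / 50653) * ((p - (211 / 400)) ^ 2 * ((31 / 50) - p) ^ 1 * ((t - (6 / 5)) ^ 2 * ((13 / 10) - t) ^ 2)) +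
      (169884712400 / 151959) * ((p - (211 / 400)) ^ 2 * ((31 / 50) - p) ^ 1 * ((t - (6 / 5)) ^ 3 * ((13 / 10) - t) ^ 1)) +
      (40467016400 / 151959) * ((p - (211 / 400)) ^ 2 * ((31 / 50) - p) ^ 1 * ((t - (6 / 5)) ^ 4 * ((13 / 10) - t) ^ 0)) +
      (17061683200 / 151959) * ((p - (211 / 400)) ^ 3 * ((31 / 50) - p) ^ 0 * ((t - (6 / 5)) ^ 0 * ((13 / 10) - t) ^ 4)) +
      (72226467200 / 151959) * ((p - (211 / 400)) ^ 3 * ((31 / 50) - p) ^ 0 * ((t - (6 / 5)) ^ 1 * ((13 / 10) - t) ^ 3)) +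
      (36830550400 / 50653) * ((p - (211 / 400)) ^ 3 * ((31 / 50) - p) ^ 0 * ((t - (6 / 5)) ^ 2 * ((13 / 10) - t) ^ 2)) +
      (72960131200 / 151959) * ((p - (211 / 400)) ^ 3 * ((31 / 50) - p) ^ 0 * ((t - (6 / 5)) ^ 3 * ((13 / 10) - t) ^ 1)) +
      (17657667200 / 151959) * ((p - (211 / 400)) ^ 3 * ((31 / 50) - p) ^ 0 * ((t - (6 / 5)) ^ 4 * ((13 / 10) - t) ^ 0)) := by
    ring
  have h1 : 0 ≤ p - (211 / 400) := by (clear * - hp0; linarith)
  have h2 : 0 ≤ (31 / 50) - p := by (clear * - hp1; linarith)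
  have h3 : 0 ≤ t - (6 / 5) := by (clear * - ht0; linarith)
  have h4 : 0 ≤ (13 / 10) - t := by (clear * - ht1; linarith)
  have h5 : 0 ≤ 8 * (p * (15475 / 10000 - p - p)) * ((2 - t) ^ 4 / 12) - (1 - t * p) * ((p + p + (15475 / 10000 - p - p) - t) ^ 2 + (1 - p ^ 2 - p ^ 2 - (15475 / 10000 - p - p) ^ 2) / 3) - (3 / 5000) := by
    rw [h]
    (clear * - hp1 ht0 ht1 hp0; positivity)
  (clear * - h5; linarith)

theorem t35_f3b {t p : ℝ} (hp0 : (211 / 400) ≤ p) (hp1 : p ≤ (31 / 50)) (ht0 : (13 / 10) ≤ t)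
    (ht1 : t ≤ (27 / 20)) : (33 / 100000) ≤ 8 * (p * (15475 / 10000 - p - p)) * ((2 - t) ^ 4 / 12) - (1 - t * p) * ((p + p + (15475 / 10000 - p - p) - t) ^ 2 + (1 - p ^ 2 - p ^ 2 - (15475 / 10000 - p - p) ^ 2) / 3) := by
  have h : 8 * (p * (15475 / 10000 - p - p)) * ((2 - t) ^ 4 / 12) - (1 - t * p) * ((p + p + (15475 / 10000 - p - p) - t) ^ 2 + (1 - p ^ 2 - p ^ 2 - (15475 / 10000 - p - p) ^ 2) / 3) - (33 / 100000) =
      (29398873600 / 151959) * ((p - (211 / 400)) ^ 0 * ((31 / 50) - p) ^ 3 * ((t - (13 / 10)) ^ 0 * ((27 / 20) - t) ^ 4)) +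
      (95434316800 / 151959) * ((p - (211 / 400)) ^ 0 * ((31 / 50) - p) ^ 3 * ((t - (13 / 10)) ^ 1 * ((27 / 20) - t) ^ 3)) +
      (34942700800 / 50653) * ((p - (211 / 400)) ^ 0 * ((31 / 50) - p) ^ 3 * ((t - (13 / 10)) ^ 2 * ((27 / 20) - t) ^ 2)) +
      (41112147200 / 151959) * ((p - (211 / 400)) ^ 0 * ((31 / 50) - p) ^ 3 * ((t - (13 / 10)) ^ 3 * ((27 / 20) - t) ^ 1)) +
      (784247200 / 50653) * ((p - (211 / 400)) ^ 0 * ((31 / 50) - p) ^ 3 * ((t - (13 / 10)) ^ 4 * ((27 / 20) - t) ^ 0)) +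
      (347722316800 / 151959) * ((p - (211 / 400)) ^ 1 * ((31 / 50) - p) ^ 2 * ((t - (13 / 10)) ^ 0 * ((27 / 20) - t) ^ 4)) +
      (1320799270400 / 151959) * ((p - (211 / 400)) ^ 1 * ((31 / 50) - p) ^ 2 * ((t - (13 / 10)) ^ 1 * ((27 / 20) - t) ^ 3)) +
      (619568550400 / 50653) * ((p - (211 / 400)) ^ 1 * ((31 / 50) - p) ^ 2 * ((t - (13 / 10)) ^ 2 * ((27 / 20) - t) ^ 2)) +
      (1147121113600 / 151959) * ((p - (211 / 400)) ^ 1 * ((31 / 50) - p) ^ 2 * ((t - (13 / 10)) ^ 3 * ((27 / 20) - t) ^ 1)) +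
      (261585516800 / 151959) * ((p - (211 / 400)) ^ 1 * ((31 / 50) - p) ^ 2 * ((t - (13 / 10)) ^ 4 * ((27 / 20) - t) ^ 0)) +
      (672355462400 / 151959) * ((p - (211 / 400)) ^ 2 * ((31 / 50) - p) ^ 1 * ((t - (13 / 10)) ^ 0 * ((27 / 20) - t) ^ 4)) +
      (2625288675200 / 151959) * ((p - (211 / 400)) ^ 2 * ((31 / 50) - p) ^ 1 * ((t - (13 / 10)) ^ 1 * ((27 / 20) - t) ^ 3)) +
      (1273228547200 / 50653) * ((p - (211 / 400)) ^ 2 * ((31 / 50) - p) ^ 1 * ((t - (13 / 10)) ^ 2 * ((27 / 20) - t) ^ 2)) +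
      (2454996284800 / 151959) * ((p - (211 / 400)) ^ 2 * ((31 / 50) - p) ^ 1 * ((t - (13 / 10)) ^ 3 * ((27 / 20) - t) ^ 1)) +
      (196109368800 / 50653) * ((p - (211 / 400)) ^ 2 * ((31 / 50) - p) ^ 1 * ((t - (13 / 10)) ^ 4 * ((27 / 20) - t) ^ 0)) +
      (290817075200 / 151959) * ((p - (211 / 400)) ^ 3 * ((31 / 50) - p) ^ 0 * ((t - (13 / 10)) ^ 0 * ((27 / 20) - t) ^ 4)) +
      (1144632601600 / 151959) * ((p - (211 / 400)) ^ 3 * ((31 / 50) - p) ^ 0 * ((t - (13 / 10)) ^ 1 * ((27 / 20) - t) ^ 3)) +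
      (559741465600 / 50653) * ((p - (211 / 400)) ^ 3 * ((31 / 50) - p) ^ 0 * ((t - (13 / 10)) ^ 2 * ((27 / 20) - t) ^ 2)) +
      (1088833510400 / 151959) * ((p - (211 / 400)) ^ 3 * ((31 / 50) - p) ^ 0 * ((t - (13 / 10)) ^ 3 * ((27 / 20) - t) ^ 1)) +
      (263449043200 / 151959) * ((p - (211 / 400)) ^ 3 * ((31 / 50) - p) ^ 0 * ((t - (13 / 10)) ^ 4 * ((27 / 20) - t) ^ 0)) := by
    ring
  have h1 : 0 ≤ p - (211 / 400) := by (clear * - hp0; linarith)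
  have h2 : 0 ≤ (31 / 50) - p := by (clear * - hp1; linarith)
  have h3 : 0 ≤ t - (13 / 10) := by (clear * - ht0; linarith)
  have h4 : 0 ≤ (27 / 20) - t := by (clear * - ht1; linarith)
  have h5 : 0 ≤ 8 * (p * (15475 / 10000 - p - p)) * ((2 - t) ^ 4 / 12) - (1 - t * p) * ((p + p + (15475 / 10000 - p - p) - t) ^ 2 + (1 - p ^ 2 - p ^ 2 - (15475 / 10000 - p - p) ^ 2) / 3) - (33 / 100000) := by
    rw [h]
    (clear * - hp1 ht0 ht1 hp0; positivity)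
  (clear * - h5; linarith)

/-- a concave quadratic is at least the minimum of its end values -/
theorem quad_ge {a b c x x0 x1 d : ℝ} (ha : a ≤ 0) (h0 : x0 ≤ x) (h1 : x ≤ x1)
    (e0 : d ≤ a * x0 ^ 2 + b * x0 + c) (e1 : d ≤ a * x1 ^ 2 + b * x1 + c) :
    d ≤ a * x ^ 2 + b * x + c := by
  rcases eq_or_lt_of_le (h0.trans h1) with h | h
  · have hx : x = x0 := le_antisymm (by rw [h]; exact h1) h0
    rw [hx]
    exact e0
  · by_contra hcon
    push Not at hcon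
    have key : (x1 - x0) * (a * x ^ 2 + b * x + c - d) =
        (x1 - x) * (a * x0 ^ 2 + b * x0 + c - d) + (x - x0) * (a * x1 ^ 2 + b * x1 + c - d) +
          (-a) * ((x - x0) * (x1 - x) * (x1 - x0)) := by
      ring
    have g1 : 0 ≤ (x1 - x) * (a * x0 ^ 2 + b * x0 + c - d) :=
      mul_nonneg (by linarith) (by linarith)
    have g2 : 0 ≤ (x - x0) * (a * x1 ^ 2 + b * x1 + c - d) :=
      mul_nonneg (by linarith) (by linarith)
    have g3 : 0 ≤ (-a) * ((x - x0) * (x1 - x) * (x1 - x0)) :=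
      mul_nonneg (by linarith)
        (mul_nonneg (mul_nonneg (by linarith) (by linarith)) (by (clear * - h; linarith)))
    have g4 : (x1 - x0) * (a * x ^ 2 + b * x + c - d) < 0 :=
      mul_neg_of_pos_of_neg (by (clear * - h; linarith)) (by (clear * - hcon; linarith))
    linarith

/-- reduction of the three-parameter inequality to the three two-parameter families -/
theorem D0_ge {t p q r s d F : ℝ} (hA : 0 ≤ 1 - t * p)
    (hrq : r ≤ q) (hqp : q ≤ p) (hS : s ≤ q + r)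
    (e1 : d ≤ 8 * ((s / 2) * (s / 2)) * F -
      (1 - t * p) * ((p + (s / 2) + (s / 2) - t) ^ 2 + (1 - p ^ 2 - (s / 2) ^ 2 - (s / 2) ^ 2) / 3))
    (e2 : d ≤ 8 * (p * p) * F -
      (1 - t * p) * ((p + p + p - t) ^ 2 + (1 - p ^ 2 - p ^ 2 - p ^ 2) / 3))
    (e3 : d ≤ 8 * (p * (s - p)) * F -
      (1 - t * p) * ((p + p + (s - p) - t) ^ 2 + (1 - p ^ 2 - p ^ 2 - (s - p) ^ 2) / 3)) :
    d ≤ 8 * (q * r) * F -
      (1 - t * p) * ((p + q + r - t) ^ 2 + (1 - p ^ 2 - q ^ 2 - r ^ 2) / 3) := by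
  rcases le_total 0 ((1 - t * p) / 6 - 2 * F) with h | h
  · have hc := quad_ge (a := 2 * F - 5 * (1 - t * p) / 6)
      (b := -(2 * (1 - t * p) * (p - t)))
      (c := -((1 - t * p) * ((p - t) ^ 2 + (1 - p ^ 2) / 3)))
      (x := q + r) (x0 := s) (x1 := 2 * p) (d := d) (by (clear * - hA h; linarith)) hS (by (clear * - hrq hqp; linarith))
      (by (clear * - e1; nlinarith [e1])) (by (clear * - e2; nlinarith [e2]))
    have hw : 0 ≤ ((1 - t * p) / 6 - 2 * F) * (q - r) ^ 2 := mul_nonneg h (sq_nonneg _)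
    have hid : 8 * (q * r) * F -
        (1 - t * p) * ((p + q + r - t) ^ 2 + (1 - p ^ 2 - q ^ 2 - r ^ 2) / 3) =
        (2 * F - 5 * (1 - t * p) / 6) * (q + r) ^ 2 + (-(2 * (1 - t * p) * (p - t))) * (q + r) +
          (-((1 - t * p) * ((p - t) ^ 2 + (1 - p ^ 2) / 3))) +
          ((1 - t * p) / 6 - 2 * F) * (q - r) ^ 2 := by
      ring
    rw [hid]
    (clear * - hc hw; linarith)
  · have hc := quad_ge (a := -(2 * (1 - t * p) / 3))
      (b := -(2 * (1 - t * p) * (p - t)) - 4 * p * ((1 - t * p) / 6 - 2 * F))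
      (c := -((1 - t * p) * ((p - t) ^ 2 + (1 - p ^ 2) / 3)) +
        4 * p ^ 2 * ((1 - t * p) / 6 - 2 * F))
      (x := q + r) (x0 := s) (x1 := 2 * p) (d := d) (by (clear * - hA; linarith)) hS (by (clear * - hrq hqp; linarith))
      (by (clear * - e3; nlinarith [e3])) (by (clear * - e2; nlinarith [e2]))
    have hw : (q - r) ^ 2 ≤ (2 * p - (q + r)) ^ 2 := by
      apply pow_le_pow_left₀ (by (clear * - hrq; linarith)) (by (clear * - hqp; linarith))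
    have hw2 : ((1 - t * p) / 6 - 2 * F) * (2 * p - (q + r)) ^ 2 ≤
        ((1 - t * p) / 6 - 2 * F) * (q - r) ^ 2 := mul_le_mul_of_nonpos_left hw h
    have hid : 8 * (q * r) * F -
        (1 - t * p) * ((p + q + r - t) ^ 2 + (1 - p ^ 2 - q ^ 2 - r ^ 2) / 3) =
        (-(2 * (1 - t * p) / 3)) * (q + r) ^ 2 +
          (-(2 * (1 - t * p) * (p - t)) - 4 * p * ((1 - t * p) / 6 - 2 * F)) * (q + r) +
          (-((1 - t * p) * ((p - t) ^ 2 + (1 - p ^ 2) / 3)) +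
            4 * p ^ 2 * ((1 - t * p) / 6 - 2 * F)) +
          (((1 - t * p) / 6 - 2 * F) * (q - r) ^ 2 -
            ((1 - t * p) / 6 - 2 * F) * (2 * p - (q + r)) ^ 2) := by
      ring
    rw [hid]
    (clear * - hc hw2; linarith)

theorem Kb_le {v s v1 s0 : ℝ} (hv0 : 0 ≤ v) (hv : v ≤ v1) (hs0 : 0 < s0) (hs : s0 ≤ s) :
    Helper89.SP.Kb v s ≤ 0.1647 * v1 ^ 3 / s0 ^ 4 := by
  have hv1 : 0 ≤ v1 := hv0.trans hv
  unfold Helper89.SP.Kb
  (clear * - hv1 hv0 hv hs0 hs; gcongr)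

/-- the two error terms -/
theorem err_le {c1 A v b g b0 g0 C A0 v1 : ℝ} (hv0 : 0 ≤ v) (hv : v ≤ v1) (hb0 : 0 < b0)
    (hb : b0 ≤ b) (hg0 : 0 < g0) (hg : g0 ≤ g) (hc : c1 ≤ C)
    (hA : A ≤ A0) (hc1 : 0 ≤ c1) (hA1 : 0 ≤ A) :
    c1 * Helper89.SP.Kb v b + A * Helper89.SP.Kb v g ≤
      C * (0.1647 * v1 ^ 3 / b0 ^ 4) + A0 * (0.1647 * v1 ^ 3 / g0 ^ 4) := by
  have h1 := Kb_le hv0 hv hb0 hb
  have h2 := Kb_le hv0 hv hg0 hg
  have hK : ∀ s0 : ℝ, 0 < s0 → 0 ≤ 0.1647 * v1 ^ 3 / s0 ^ 4 := fun s0 hs => by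
    have : 0 ≤ v1 := hv0.trans hv
    (clear * - this hs; positivity)
  have k1 : c1 * Helper89.SP.Kb v b ≤ C * (0.1647 * v1 ^ 3 / b0 ^ 4) :=
    (mul_le_mul_of_nonneg_left h1 hc1).trans (mul_le_mul_of_nonneg_right hc (hK b0 hb0))
  have k2 : A * Helper89.SP.Kb v g ≤ A0 * (0.1647 * v1 ^ 3 / g0 ^ 4) :=
    (mul_le_mul_of_nonneg_left h2 hA1).trans (mul_le_mul_of_nonneg_right hA (hK g0 hg0))
  (clear * - k1 k2; linarith)

end Pool.Agent.M18.Helper8.SPNum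

namespace Pool.Agent.M18.Helper89.SP

open Pool.Agent.M18.Helper8.SPNum

theorem fact_T3_5 {t p q r : ℝ} (hp0 : 0.5275 ≤ p) (hp1 : p ≤ 0.62) (ht0 : 1.2 ≤ t) (ht1 : t ≤ 1.35)
    (hr : 0 < r) (hrq : r ≤ q) (hqp : q ≤ p) (hpq : p + q ≤ t) (hsq : p ^ 2 + q ^ 2 + r ^ 2 ≤ 1)
    (hS : S5 p ≤ q + r) : Beats t p q r (T4 t) := by
  left
  have hp0' : (211 / 400 : ℝ) ≤ p := by norm_num at hp0 ⊢; (clear * - hp0; linarith)
  have hp1' : p ≤ (31 / 50 : ℝ) := by norm_num at hp1 ⊢; (clear * - hp1; linarith)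
  have hS' : 15475 / 10000 - p ≤ q + r := by
    unfold S5 at hS
    norm_num at hS ⊢
    (clear * - hS; linarith)
  have ht0' : (6 / 5 : ℝ) ≤ t := by norm_num at ht0 ⊢; (clear * - ht0; linarith)
  have ht1' : t ≤ (27 / 20 : ℝ) := by norm_num at ht1 ⊢; (clear * - ht1; linarith)
  have htp : t * p ≤ 27 / 20 * (31 / 50) :=
    mul_le_mul ht1' hp1' (by (clear * - hr hrq hqp; linarith)) (by norm_num)
  have htp2 : 6 / 5 * (211 / 400) ≤ t * p :=
    mul_le_mul ht0' hp0' (by norm_num) (by (clear * - ht0; linarith))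
  have hA : 0 ≤ 1 - t * p := by norm_num at htp; (clear * - htp; linarith)
  have hv0 : 0 ≤ vv p q r := by
    unfold vv
    (clear * - hsq; linarith)
  have hv1 : vv p q r ≤ 0.0672 := by
    unfold vv
    have h1 : (q + r) ^ 2 / 2 ≤ q ^ 2 + r ^ 2 := by (clear * -; nlinarith [sq_nonneg (q - r)])
    have h2 : (15475 / 10000 - p) ^ 2 ≤ (q + r) ^ 2 :=
      pow_le_pow_left₀ (by norm_num; (clear * - hp1; linarith)) hS' 2
    (clear * - hp0 hr hrq hqp h1 h2 hp0' hp1'; nlinarith [mul_nonneg (sub_nonneg.2 hp0') (sub_nonneg.2 hp1')])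
  have hg : (3 / 2 : ℝ) ≤ t - p + q + r := by (clear * - hp1 ht0 hS'; linarith)
  have hmax : max (4 * (t * p) - 2) 0 = 4 * (t * p) - 2 := max_eq_left (by norm_num at htp2; (clear * - htp2; linarith))
  have hc1 : 0 ≤ 4 * (t * p) - 2 := by norm_num at htp2; (clear * - htp2; linarith)
  unfold Gi T4
  rw [hmax]
  rcases le_total t (13 / 10) with h | h
  · have hD := D0_ge (F := (2 - t) ^ 4 / 12) hA hrq hqp hS' (t35_f1a hp0' hp1' ht0' h)
      (t35_f2a hp0' hp1' ht0' h) (t35_f3a hp0' hp1' ht0' h)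
    have htp3 : t * p ≤ 13 / 10 * (31 / 50) := mul_le_mul h hp1' (by (clear * - hr hrq hqp; linarith)) (by norm_num)
    have hE := err_le (b0 := 0.58) (g0 := 3 / 2) (b := t + p - q - r) (g := t - p + q + r)
      (c1 := 4 * (t * p) - 2) (A := 1 - t * p) (C := 1.224) (A0 := 0.367) hv0 hv1 (by norm_num)
      (by norm_num; (clear * - ht0 hr hrq hqp hpq; linarith)) (by norm_num) hg (by norm_num at htp3 ⊢; (clear * - htp3; linarith))
      (by norm_num at htp2 ⊢; (clear * - htp2; linarith)) hc1 hA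
    have hN : (1.224 : ℝ) * (0.1647 * 0.0672 ^ 3 / 0.58 ^ 4) +
        0.367 * (0.1647 * 0.0672 ^ 3 / (3 / 2) ^ 4) < 3 / 5000 := by norm_num
    have hvv : vv p q r = (1 - p ^ 2 - q ^ 2 - r ^ 2) / 3 := rfl
    rw [← hvv] at hD
    (clear * - hD hE; linarith)
  · have hD := D0_ge (F := (2 - t) ^ 4 / 12) hA hrq hqp hS' (t35_f1b hp0' hp1' h ht1')
      (t35_f2b hp0' hp1' h ht1') (t35_f3b hp0' hp1' h ht1')
    have htp3 : 13 / 10 * (211 / 400) ≤ t * p := mul_le_mul h hp0' (by norm_num) (by (clear * - hp1 hr hrq hqp h; linarith))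
    have hE := err_le (b0 := 0.68) (g0 := 3 / 2) (b := t + p - q - r) (g := t - p + q + r)
      (c1 := 4 * (t * p) - 2) (A := 1 - t * p) (C := 1.348) (A0 := 0.3145) hv0 hv1 (by norm_num)
      (by norm_num; (clear * - hp1 hrq hqp h; linarith)) (by norm_num) hg (by norm_num at htp ⊢; (clear * - htp; linarith))
      (by norm_num at htp3 ⊢; (clear * - hp1 hr hrq hqp htp3; linarith)) hc1 hA
    have hN : (1.348 : ℝ) * (0.1647 * 0.0672 ^ 3 / 0.68 ^ 4) +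
        0.3145 * (0.1647 * 0.0672 ^ 3 / (3 / 2) ^ 4) < 33 / 100000 := by norm_num
    have hvv : vv p q r = (1 - p ^ 2 - q ^ 2 - r ^ 2) / 3 := rfl
    rw [← hvv] at hD
    (clear * - hp1 hr hrq hqp hD hE; linarith)

end Pool.Agent.M18.Helper89.SP
end

/- Helper36.SP.NoPair -/
section
/-!
Project SP (MP_66ebcc_gt), module SP-04: exclusion of a pair, the rest of a coordinate is not zero.
-/

set_option autoImplicit false

open MeasureTheory Set Real Pool.Agent.M18.Slab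

namespace Pool.Agent.M18.Helper89.SP

namespace NoPair

theorem T_perm' {L L' : List ℝ} (h : L.Perm L') (t : ℝ) : T L t = T L' t := by
  unfold T
  rw [AL_perm h, h.length_eq]

theorem sq_perm {L L' : List ℝ} (h : L.Perm L') : sq L = sq L' :=
  (h.map _).sum_eq

theorem qd_perm {L L' : List ℝ} (h : L.Perm L') : qd L = qd L' :=
  (h.map _).sum_eq

theorem sq_append (l l' : List ℝ) : sq (l ++ l') = sq l + sq l' := by
  unfold sq
  rw [List.map_append, List.sum_append]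

theorem qd_append (l l' : List ℝ) : qd (l ++ l') = qd l + qd l' := by
  unfold qd
  rw [List.map_append, List.sum_append]

theorem AL_zeros (k : ℕ) (φ : ℝ → ℝ) : AL (List.replicate k 0) φ = fun s => 2 ^ k * φ s := by
  induction k with
  | zero =>
    funext s
    simp [AL_nil]
  | succ k ih =>
    rw [List.replicate_succ, AL_cons, ih]
    funext s
    rw [AAHaux.A_zero]
    ring

theorem T_one_zeros (k : ℕ) {t : ℝ} (ht : 1 ≤ t) : T (1 :: List.replicate k 0) t = 0 := by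
  unfold T
  rw [AL_cons, AL_zeros]
  have h1 : A 1 (fun s => 2 ^ k * H s) t = 2 ^ k * A 1 H t := by
    unfold A
    rw [intervalIntegral.integral_const_mul]
  rw [h1, AAHaux.A_H_pos one_pos, abs_of_nonneg (by (clear * - ht; linarith)), abs_of_nonneg (by linarith)]
  norm_num

end NoPair

open NoPair

theorem no_pair {n : ℕ} {t : ℝ} {L : List ℝ} (h : MaxL n t L) {p q c : ℝ} {l : List ℝ}
    (hp : L.Perm (l ++ [p, q])) (hqp : q < p) (hc0 : 0 ≤ c) (hc : 2 * c ^ 2 = p ^ 2 + q ^ 2)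
    (hle : AL (l ++ [p, q]) H t ≤ AL (l ++ [c, c]) H t) : False := by
  have hlen : (l ++ [c, c]).length = n := by
    rw [← h.len, hp.length_eq]
    simp
  have hmem : ∀ x ∈ l ++ [p, q], 0 ≤ x := fun x hx => h.nonneg x (hp.mem_iff.2 hx)
  have hq : 0 ≤ q := hmem q (by simp)
  have hnn : ∀ x ∈ l ++ [c, c], 0 ≤ x := by
    intro x hx
    rcases List.mem_append.1 hx with hx | hx
    · exact hmem x (List.mem_append.2 (Or.inl hx))
    · have : x = c := by simpa using hx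
      rw [this]
      exact hc0
  have hsq : sq (l ++ [c, c]) = 1 := by
    have h1 := h.unit
    rw [sq_perm hp, sq_append] at h1
    rw [sq_append, ← h1]
    congr 1
    simp [sq]
    (clear * - hc; linarith)
  have h1 : T L t ≤ T (l ++ [c, c]) t := by
    rw [T_perm' hp]
    unfold T
    have h2 : (l ++ [c, c]).length = (l ++ [p, q]).length := by simp
    rw [h2]
    gcongr
  have h2 : T (l ++ [c, c]) t ≤ T L t := h.best _ hlen hnn hsq
  have h3 : qd L ≤ qd (l ++ [c, c]) := h.tie _ hlen hnn hsq (le_antisymm h2 h1)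
  rw [qd_perm hp, qd_append, qd_append] at h3
  have h4 : qd [p, q] = p ^ 4 + q ^ 4 := by simp [qd]
  have h5 : qd [c, c] = 2 * c ^ 4 := by simp [qd]; ring
  rw [h4, h5] at h3
  have h6 : c ^ 2 = (p ^ 2 + q ^ 2) / 2 := by (clear * - hc; linarith)
  have h7 : c ^ 4 = ((p ^ 2 + q ^ 2) / 2) ^ 2 := by rw [← h6]; ring
  rw [h7] at h3
  have h8 : (p ^ 2 - q ^ 2) ^ 2 ≤ 0 := by (clear * - h3; nlinarith)
  have h9 : p ^ 2 - q ^ 2 = 0 := by
    have := sq_nonneg (p ^ 2 - q ^ 2)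
    exact pow_eq_zero_iff (two_ne_zero) |>.1 (le_antisymm h8 this)
  (clear * - h9 hqp hq; nlinarith)

/-- the rest of a coordinate of a maximiser is not zero -/
theorem rest_pos {t : ℝ} (ht : 1 ≤ t) {L : List ℝ} (hL : ∀ x ∈ L, 0 ≤ x) (h1 : sq L = 1)
    (hT : 0 < T L t) {x : ℝ} {l : List ℝ} (hp : L.Perm (x :: l)) : ∃ y ∈ l, 0 < y := by
  by_contra hcon
  push Not at hcon
  have hmem : ∀ z ∈ x :: l, 0 ≤ z := fun z hz => hL z (hp.mem_iff.2 hz)
  have hx : 0 ≤ x := hmem x (by simp)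
  have hz : ∀ y ∈ l, y = 0 := fun y hy =>
    le_antisymm (hcon y hy) (hmem y (List.mem_cons_of_mem _ hy))
  have hl : l = List.replicate l.length 0 := List.eq_replicate_of_mem hz
  have h2 : sq (x :: l) = x ^ 2 := by
    rw [hl]
    simp [sq]
  have h3 : x ^ 2 = 1 := by
    rw [← h2, ← sq_perm hp, h1]
  have h4 : x = 1 := by (clear * - h3 hx; nlinarith)
  rw [T_perm' hp, h4, hl, T_one_zeros _ ht] at hT
  exact lt_irrefl _ hT

end Pool.Agent.M18.Helper89.SP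
end

/- Helper91.SP.Values -/
section
/-!
Project SP, module SP-11: the values of the competitors f3, f4, f5.
-/

set_option autoImplicit false

open MeasureTheory Set Real Pool.Agent.M18.Slab

namespace Pool.Agent.M18.Helper89.SP

namespace Values

/-- truncated power -/
noncomputable def g (k : ℕ) (a s : ℝ) : ℝ := max (a - s) 0 ^ k

theorem g_zero {k : ℕ} (hk : k ≠ 0) {a s : ℝ} (h : a ≤ s) : g k a s = 0 := by
  unfold g; rw [max_eq_right (by (clear * - h; linarith)), zero_pow hk]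

theorem g_pos {k : ℕ} {a s : ℝ} (h : s ≤ a) : g k a s = (a - s) ^ k := by
  unfold g; rw [max_eq_left (by linarith)]

theorem g_shift (k : ℕ) (a c s : ℝ) : g k a (s + c) = g k (a - c) s := by
  unfold g; congr 2; ring

theorem g_shift' (k : ℕ) (a c s : ℝ) : g k a (s - c) = g k (a + c) s := by
  unfold g; congr 2; ring

theorem continuous_g (k : ℕ) (a : ℝ) : Continuous (g k a) := by
  unfold g; fun_prop

theorem hasDerivAt_g {k : ℕ} (hk : 1 ≤ k) (a s : ℝ) :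
    HasDerivAt (g (k + 1) a) (-((k + 1) * g k a s)) s := by
  rcases lt_trichotomy s a with h | h | h
  · have h1 : HasDerivAt (fun y : ℝ => (a - y) ^ (k + 1)) (((k + 1 : ℕ) : ℝ) * (a - s) ^ k * (-1)) s := by
      have h2 : HasDerivAt (fun y : ℝ => a - y) (-1) s := by
        simpa using (hasDerivAt_id s).const_sub a
      have := h2.pow (k + 1)
      simpa [Pi.pow_def] using this
    have h3 : -((k + 1 : ℝ) * g k a s) = ((k + 1 : ℕ) : ℝ) * (a - s) ^ k * (-1) := by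
      rw [g_pos h.le]; push_cast; ring
    rw [h3]
    refine h1.congr_of_eventuallyEq ?_
    filter_upwards [gt_mem_nhds h] with y hy
    exact g_pos hy.le
  · subst h
    have h0 : g k s s = 0 := g_zero (by omega) le_rfl
    rw [h0, mul_zero, neg_zero]
    rw [hasDerivAt_iff_isLittleO]
    have h1 : g (k + 1) s s = 0 := g_zero (by omega) le_rfl
    simp only [h1, sub_zero, smul_zero]
    have h2 : (fun x' => g (k + 1) s x') =O[nhds s] fun x' => ‖x' - s‖ ^ (k + 1) := by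
      refine Asymptotics.IsBigO.of_bound 1 (Filter.Eventually.of_forall fun x => ?_)
      unfold g
      rw [norm_pow, norm_pow, norm_norm, Real.norm_eq_abs, Real.norm_eq_abs, one_mul]
      refine pow_le_pow_left₀ (abs_nonneg _) ?_ _
      rw [abs_of_nonneg (le_max_right _ _)]
      refine max_le ?_ (abs_nonneg _)
      rw [abs_sub_comm]; exact le_abs_self _
    exact h2.trans_isLittleO (Asymptotics.isLittleO_pow_sub_sub s (m := k + 1) (by omega))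
  · have h3 : -((k + 1 : ℝ) * g k a s) = 0 := by
      rw [g_zero (by omega) h.le]; ring
    rw [h3]
    refine (hasDerivAt_const s (0 : ℝ)).congr_of_eventuallyEq ?_
    filter_upwards [lt_mem_nhds h] with y hy
    exact g_zero (by omega) hy.le

theorem A_of_deriv {c : ℝ} (hc : 0 < c) {F f : ℝ → ℝ} (hF : ∀ y, HasDerivAt F (f y) y)
    (hf : Continuous f) (s : ℝ) : A c f s = (F (s + c) - F (s - c)) / c := by
  rw [Pool.Agent.M18.Slab.Deriv.A_eq hc.ne', intervalIntegral.integral_eq_sub_of_hasDerivAt (fun v _ => hF v)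
    (hf.intervalIntegrable _ _)]
  field_simp

theorem A1 {c : ℝ} (hc : 0 < c) : A c H = fun s => (g 1 c s - g 1 (-c) s) / c := by
  funext s
  rw [Pool.Agent.M18.Slab.AAHaux.A_H_pos hc]
  unfold g
  rw [pow_one, pow_one]
  have h1 : ∀ x : ℝ, max x 0 = (x + |x|) / 2 := by
    intro x
    rcases le_or_gt 0 x with h | h
    · rw [max_eq_left h, abs_of_nonneg h]; ring
    · rw [max_eq_right h.le, abs_of_neg h]; ring
  rw [h1, h1]
  have h2 : |(-c : ℝ) - s| = |s + c| := by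
    rw [← abs_neg]; congr 1; ring
  rw [h2, abs_sub_comm c s]
  field_simp
  ring

theorem A2 {c : ℝ} (hc : 0 < c) :
    A c (A c H) = fun s => (g 2 (2 * c) s - 2 * g 2 0 s + g 2 (-(2 * c)) s) / (2 * c ^ 2) := by
  funext s
  rw [A1 hc]
  have hF : ∀ y, HasDerivAt (fun y => -(g 2 c y - g 2 (-c) y) / (2 * c))
      ((g 1 c y - g 1 (-c) y) / c) y := by
    intro y
    have h1 := ((hasDerivAt_g le_rfl c y).sub (hasDerivAt_g le_rfl (-c) y)).neg.div_const (2 * c)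
    refine h1.congr_deriv ?_
    push_cast
    field_simp
    ring
  rw [A_of_deriv hc hF (by have := continuous_g 1 c; have := continuous_g 1 (-c); fun_prop)]
  simp only [g_shift, g_shift']
  rw [show c - c = 0 by ring, show -c - c = -(2 * c) by ring, show c + c = 2 * c by ring,
    show -c + c = 0 by ring]
  field_simp
  ring

theorem A3 {c : ℝ} (hc : 0 < c) :
    A c (A c (A c H)) = fun s => (g 3 (3 * c) s - 3 * g 3 c s + 3 * g 3 (-c) s - g 3 (-(3 * c)) s) /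
      (6 * c ^ 3) := by
  funext s
  rw [A2 hc]
  have hF : ∀ y, HasDerivAt (fun y => -(g 3 (2 * c) y - 2 * g 3 0 y + g 3 (-(2 * c)) y) / (6 * c ^ 2))
      ((g 2 (2 * c) y - 2 * g 2 0 y + g 2 (-(2 * c)) y) / (2 * c ^ 2)) y := by
    intro y
    have h1 := ((((hasDerivAt_g one_le_two (2 * c) y).sub
      ((hasDerivAt_g one_le_two 0 y).const_mul 2)).add
      (hasDerivAt_g one_le_two (-(2 * c)) y))).neg.div_const (6 * c ^ 2)
    refine h1.congr_deriv ?_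
    push_cast
    field_simp
    ring
  rw [A_of_deriv hc hF (by
    have := continuous_g 2 (2 * c); have := continuous_g 2 0; have := continuous_g 2 (-(2 * c))
    fun_prop)]
  simp only [g_shift, g_shift']
  rw [show 2 * c - c = c by ring, show 0 - c = -c by ring, show -(2 * c) - c = -(3 * c) by ring,
    show 2 * c + c = 3 * c by ring, show 0 + c = c by ring, show -(2 * c) + c = -c by ring]
  field_simp
  ring

theorem A4 {c : ℝ} (hc : 0 < c) :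
    A c (A c (A c (A c H))) = fun s => (g 4 (4 * c) s - 4 * g 4 (2 * c) s + 6 * g 4 0 s -
      4 * g 4 (-(2 * c)) s + g 4 (-(4 * c)) s) / (24 * c ^ 4) := by
  funext s
  rw [A3 hc]
  have hF : ∀ y, HasDerivAt (fun y => -(g 4 (3 * c) y - 3 * g 4 c y + 3 * g 4 (-c) y -
      g 4 (-(3 * c)) y) / (24 * c ^ 3))
      ((g 3 (3 * c) y - 3 * g 3 c y + 3 * g 3 (-c) y - g 3 (-(3 * c)) y) / (6 * c ^ 3)) y := by
    intro y
    have h3 : 1 ≤ 3 := by norm_num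
    have h1 := ((((hasDerivAt_g h3 (3 * c) y).sub
      ((hasDerivAt_g h3 c y).const_mul 3)).add
      ((hasDerivAt_g h3 (-c) y).const_mul 3)).sub
      (hasDerivAt_g h3 (-(3 * c)) y)).neg.div_const (24 * c ^ 3)
    refine h1.congr_deriv ?_
    push_cast
    field_simp
    ring
  rw [A_of_deriv hc hF (by
    have := continuous_g 3 (3 * c); have := continuous_g 3 c; have := continuous_g 3 (-c)
    have := continuous_g 3 (-(3 * c))
    fun_prop)]
  simp only [g_shift, g_shift']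
  rw [show 3 * c - c = 2 * c by ring, show c - c = 0 by ring, show -c - c = -(2 * c) by ring,
    show -(3 * c) - c = -(4 * c) by ring, show 3 * c + c = 4 * c by ring,
    show c + c = 2 * c by ring, show -c + c = 0 by ring, show -(3 * c) + c = -(2 * c) by ring]
  field_simp
  ring

theorem A5 {c : ℝ} (hc : 0 < c) :
    A c (A c (A c (A c (A c H)))) = fun s => (g 5 (5 * c) s - 5 * g 5 (3 * c) s + 10 * g 5 c s -
      10 * g 5 (-c) s + 5 * g 5 (-(3 * c)) s - g 5 (-(5 * c)) s) / (120 * c ^ 5) := by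
  funext s
  rw [A4 hc]
  have hF : ∀ y, HasDerivAt (fun y => -(g 5 (4 * c) y - 4 * g 5 (2 * c) y + 6 * g 5 0 y -
      4 * g 5 (-(2 * c)) y + g 5 (-(4 * c)) y) / (120 * c ^ 4))
      ((g 4 (4 * c) y - 4 * g 4 (2 * c) y + 6 * g 4 0 y -
      4 * g 4 (-(2 * c)) y + g 4 (-(4 * c)) y) / (24 * c ^ 4)) y := by
    intro y
    have h4 : 1 ≤ 4 := by norm_num
    have h1 := (((((hasDerivAt_g h4 (4 * c) y).sub
      ((hasDerivAt_g h4 (2 * c) y).const_mul 4)).add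
      ((hasDerivAt_g h4 0 y).const_mul 6)).sub
      ((hasDerivAt_g h4 (-(2 * c)) y).const_mul 4)).add
      (hasDerivAt_g h4 (-(4 * c)) y)).neg.div_const (120 * c ^ 4)
    refine h1.congr_deriv ?_
    push_cast
    field_simp
    ring
  rw [A_of_deriv hc hF (by
    have := continuous_g 4 (4 * c); have := continuous_g 4 (2 * c); have := continuous_g 4 0
    have := continuous_g 4 (-(2 * c)); have := continuous_g 4 (-(4 * c))
    fun_prop)]
  simp only [g_shift, g_shift']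
  rw [show 4 * c - c = 3 * c by ring, show 2 * c - c = c by ring, show 0 - c = -c by ring,
    show -(2 * c) - c = -(3 * c) by ring,
    show -(4 * c) - c = -(5 * c) by ring, show 4 * c + c = 5 * c by ring,
    show 2 * c + c = 3 * c by ring, show 0 + c = c by ring, show -(2 * c) + c = -c by ring,
    show -(4 * c) + c = -(3 * c) by ring]
  field_simp
  ring

theorem AL_zeros (k : ℕ) (s : ℝ) : AL (List.replicate k 0) H s = 2 ^ k * H s := by
  induction k generalizing s with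
  | zero => simp [AL_nil]
  | succ k ih =>
    rw [List.replicate_succ, AL_cons, Pool.Agent.M18.Slab.Deriv.A_zero, ih]
    ring

theorem A_const_mul (x b : ℝ) (φ : ℝ → ℝ) : A x (fun s => b * φ s) = fun s => b * A x φ s := by
  funext s
  unfold A
  rw [intervalIntegral.integral_const_mul]

theorem AL_const_mul' (l : List ℝ) (b : ℝ) (φ : ℝ → ℝ) :
    AL l (fun s => b * φ s) = fun s => b * AL l φ s := by
  induction l with
  | nil => rfl
  | cons x l ih => rw [AL_cons, ih, A_const_mul, AL_cons]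

theorem T_zeros (L : List ℝ) (k : ℕ) (t : ℝ) : T (L ++ List.replicate k 0) t = T L t := by
  unfold T
  rw [AL_append, show AL (List.replicate k 0) H = fun s => 2 ^ k * H s from
    funext fun s => AL_zeros k s, AL_const_mul', List.length_append, List.length_replicate, pow_add]
  have h : (2 : ℝ) ^ k ≠ 0 := by positivity
  field_simp

end Values

open Values

theorem T_f3 {k : ℕ} {t : ℝ} (h0 : 1 / √3 ≤ t) (h1 : t ≤ √3) :
    T (List.replicate 3 (1 / √3) ++ List.replicate k 0) t = Mf t := by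
  have h3 : (0 : ℝ) < √3 := by positivity
  have hs : √3 ^ 2 = (3 : ℝ) := Real.sq_sqrt (by norm_num)
  have hc : (0 : ℝ) < 1 / √3 := by positivity
  rw [T_zeros]
  unfold T Mf
  have e : AL (List.replicate 3 (1 / √3)) H = A (1 / √3) (A (1 / √3) (A (1 / √3) H)) := rfl
  rw [e, A3 hc]
  have h4 : 3 * (1 / √3) = √3 := by
    field_simp; (clear * - hs; nlinarith)
  simp only [List.length_replicate]
  rw [h4, g_pos h1, g_zero (by norm_num) h0, g_zero (by norm_num) (by (clear * - h0 hc; linarith)),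
    g_zero (by norm_num) (by linarith)]
  have h6 : (3 - √3 * t) ^ 3 = √3 ^ 3 * (√3 - t) ^ 3 := by
    rw [← mul_pow]; congr 1; (clear * - hs; nlinarith)
  have h7 : (0 : ℝ) < (1 / √3) ^ 3 := by positivity
  rw [h6]
  have h8 : (√3 - t) ^ 3 / (6 * (1 / √3) ^ 3) = (√3 ^ 3 * (√3 - t) ^ 3) / 6 := by
    (clear * -; field_simp)
  simp only [mul_zero, sub_zero, add_zero]
  rw [h8]
  ring

theorem T_f4 {k : ℕ} {t : ℝ} (h0 : 1 ≤ t) (h1 : t ≤ 2) :
    T (List.replicate 4 (1 / √4) ++ List.replicate k 0) t = T4 t := by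
  have hs : √4 = (2 : ℝ) := by
    rw [show (4 : ℝ) = 2 ^ 2 by norm_num]; exact Real.sqrt_sq (by norm_num)
  rw [T_zeros, hs]
  unfold T T4
  have e : AL (List.replicate 4 (1 / 2 : ℝ)) H =
    A (1 / 2) (A (1 / 2) (A (1 / 2) (A (1 / 2) H))) := rfl
  rw [e, A4 (by norm_num)]
  simp only [List.length_replicate]
  rw [show (4 : ℝ) * (1 / 2) = 2 by norm_num, show (2 : ℝ) * (1 / 2) = 1 by norm_num,
    g_pos h1, g_zero (by norm_num) h0, g_zero (by norm_num) (by (clear * - h0; linarith)),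
    g_zero (by norm_num) (by (clear * - h0; linarith)), g_zero (by norm_num) (by linarith)]
  ring

theorem T_f5 {k : ℕ} {t : ℝ} (h0 : 1 ≤ t) (h1 : t ≤ √5) :
    T (List.replicate 5 (1 / √5) ++ List.replicate k 0) t = T5 t := by
  have h3 : (0 : ℝ) < √5 := by positivity
  have hs : √5 ^ 2 = (5 : ℝ) := Real.sq_sqrt (by norm_num)
  have hc : (0 : ℝ) < 1 / √5 := by positivity
  have h51 : (1 : ℝ) ≤ √5 := by
    rw [Real.one_le_sqrt]; norm_num
  have h2 : 1 / √5 ≤ 1 := by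
    rw [div_le_one h3]; exact h51
  rw [T_zeros]
  unfold T T5
  have e : AL (List.replicate 5 (1 / √5)) H =
    A (1 / √5) (A (1 / √5) (A (1 / √5) (A (1 / √5) (A (1 / √5) H)))) := rfl
  rw [e, A5 hc]
  have h4 : 5 * (1 / √5) = √5 := by
    field_simp; (clear * - hs; nlinarith)
  simp only [List.length_replicate]
  rw [h4, g_pos h1, g_zero (a := 1 / √5) (by norm_num) (by (clear * - h0 h2; linarith)),
    g_zero (a := -(1 / √5)) (by norm_num) (by linarith),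
    g_zero (a := -(3 * (1 / √5))) (by norm_num) (by linarith),
    g_zero (a := -√5) (by norm_num) (by linarith)]
  have h6 : (5 - √5 * t) ^ 5 = √5 ^ 5 * (√5 - t) ^ 5 := by
    rw [← mul_pow]; congr 1; (clear * - hs; nlinarith)
  have h7 : max (3 - √5 * t) 0 ^ 5 = √5 ^ 5 * g 5 (3 * (1 / √5)) t := by
    unfold g
    rw [← mul_pow]; congr 1
    rw [mul_max_of_nonneg _ _ h3.le, mul_zero]
    congr 1
    field_simp
  rw [h6, h7]
  have h8 : ∀ x : ℝ, x / (120 * (1 / √5) ^ 5) = (√5 ^ 5 * x) / 120 := by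
    intro x; (clear * -; field_simp)
  simp only [mul_zero, sub_zero, add_zero]
  rw [h8]
  ring

end Pool.Agent.M18.Helper89.SP
end

/- Helper95.SP.Crude.Run9 -/
section
/-! Box computations, part 9. -/

set_option autoImplicit false

namespace Pool.Agent.M18.Helper95.SP.Crude

def tr_A102b_1 : Tr :=
    .l

theorem run_A102b_1 :
    cov 1 0 (t02 ^ 2) 1 (fun b => decide ((126 / 100) * t02 < b.X0 + b.U0)) (rbA t02 (lineQ 0
    9 (95 / 100) 0 0)) tr_A102b_1 (mk t02 (66 / 100) (72 / 100) 0 (6 / 10) 0 0).ul = true := by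
  decide +kernel

def tr_A102b_2 : Tr :=
    (.u .l (.x (.u .l .l) .l))

theorem run_A102b_2 :
    cov 1 0 (t02 ^ 2) 1 (fun b => decide ((126 / 100) * t02 < b.X0 + b.U0)) (rbA t02 (lineQ 0
    9 (95 / 100) 0 0)) tr_A102b_2 (mk t02 (66 / 100) (72 / 100) 0 (6 / 10) 0 0).ur.ul = true := by
  decide +kernel

def tr_A102b_3 : Tr :=
    (.u (.x (.u .l .l) (.u .l .l)) (.x .l (.u .l .l)))

theorem run_A102b_3 :
    cov 1 0 (t02 ^ 2) 1 (fun b => decide ((126 / 100) * t02 < b.X0 + b.U0)) (rbA t02 (lineQ 0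
    9 (95 / 100) 0 0)) tr_A102b_3 (mk t02 (66 / 100) (72 / 100) 0 (6 / 10) 0 0).ur.ur.ul.xl = true := by
  decide +kernel

def tr_A102b_4 : Tr :=
    (.u (.x (.u .l .l) (.u .l (.x .l .l))) (.x (.u .l .l) (.u .l .l)))

theorem run_A102b_4 :
    cov 1 0 (t02 ^ 2) 1 (fun b => decide ((126 / 100) * t02 < b.X0 + b.U0)) (rbA t02 (lineQ 0
    9 (95 / 100) 0 0)) tr_A102b_4 (mk t02 (66 / 100) (72 / 100) 0 (6 / 10) 0 0).ur.ur.ul.xr = true := by
  decide +kernel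

def tr_A102b_5 : Tr :=
    (.u (.x (.u .l .l) (.x (.u .l .l) (.u (.x .l .l) (.x .l .l)))) (.x (.u .l (.x .l .l)) (.u
    (.x .l .l) .l)))

theorem run_A102b_5 :
    cov 1 0 (t02 ^ 2) 1 (fun b => decide ((126 / 100) * t02 < b.X0 + b.U0)) (rbA t02 (lineQ 0
    9 (95 / 100) 0 0)) tr_A102b_5 (mk t02 (66 / 100) (72 / 100) 0 (6 / 10) 0 0).ur.ur.ur = true := by
  decide +kernel

def tr_A102b : Tr :=
    (.u tr_A102b_1 (.u tr_A102b_2 (.u (.x tr_A102b_3 tr_A102b_4) tr_A102b_5)))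

theorem run_A102b :
    covA t02 1 (126 / 100) (lineQ 0 9 (95 / 100) 0 0) tr_A102b (66 / 100) (72 / 100) 0 (6 /
    10) = true :=
  cov_u run_A102b_1 (cov_u run_A102b_2 (cov_u (cov_x run_A102b_3 run_A102b_4) run_A102b_5))

def tr_A120_1 : Tr :=
    (.u (.u .l (.x .l .l)) (.u .l .l))

theorem run_A120_1 :
    cov 1 0 (t20 ^ 2) 1 (fun b => decide (9 * t20 < b.X0 + b.U0)) (rbA t20 (lineQ 0 9 1 0 0))
    tr_A120_1 (mk t20 (5125 / 10000) (5275 / 10000) (475 / 1000) (5275 / 10000) 0 0) = true := by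
  decide +kernel

def tr_A120 : Tr :=
    tr_A120_1

theorem run_A120 :
    covA t20 1 9 (lineQ 0 9 1 0 0) tr_A120 (5125 / 10000) (5275 / 10000) (475 / 1000) (5275 /
    10000) = true :=
  run_A120_1

def tr_A120b_1 : Tr :=
    (.u (.x (.u .l .l) (.u .l .l)) (.x (.u (.x (.u .l .l) (.u .l .l)) (.u .l .l)) (.u (.x .l .l)
    .l)))

theorem run_A120b_1 :
    cov 1 0 (t20 ^ 2) 1 (fun b => decide (9 * t20 < b.X0 + b.U0)) (rbA t20 (lineQ 0 9 (102 /
    100) 1 (5275 / 10000))) tr_A120b_1 (mk t20 (5275 / 10000) (58 / 100) (475 / 1000) (58 /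
    100) 0 0).ul.xl = true := by
  decide +kernel

def tr_A120b_2 : Tr :=
    (.u (.x (.u .l .l) (.u .l .l)) (.x (.u .l .l) (.u .l .l)))

theorem run_A120b_2 :
    cov 1 0 (t20 ^ 2) 1 (fun b => decide (9 * t20 < b.X0 + b.U0)) (rbA t20 (lineQ 0 9 (102 /
    100) 1 (5275 / 10000))) tr_A120b_2 (mk t20 (5275 / 10000) (58 / 100) (475 / 1000) (58 /
    100) 0 0).ul.xr = true := by
  decide +kernel

def tr_A120b_3 : Tr :=
    (.u (.x (.u (.x .l .l) (.x .l .l)) (.x .l .l)) (.x .l .l))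

theorem run_A120b_3 :
    cov 1 0 (t20 ^ 2) 1 (fun b => decide (9 * t20 < b.X0 + b.U0)) (rbA t20 (lineQ 0 9 (102 /
    100) 1 (5275 / 10000))) tr_A120b_3 (mk t20 (5275 / 10000) (58 / 100) (475 / 1000) (58 /
    100) 0 0).ur = true := by
  decide +kernel

def tr_A120b : Tr :=
    (.u (.x tr_A120b_1 tr_A120b_2) tr_A120b_3)

theorem run_A120b :
    covA t20 1 9 (lineQ 0 9 (102 / 100) 1 (5275 / 10000)) tr_A120b (5275 / 10000) (58 / 100)
    (475 / 1000) (58 / 100) = true :=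
  cov_u (cov_x run_A120b_1 run_A120b_2) run_A120b_3

end Pool.Agent.M18.Helper95.SP.Crude
end
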