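import Mathlib
import Pool.Agent.Helper53.AM.G01
import Pool.Agent.Helper53.AM.G04
import Pool.Agent.Helper53.AM.G07

/- Helper95.SP.Crude.IdP -/
section
/-!
SP-wave, module IdP: precise form of the identity bound for the bracket
sinc C ^ 2 - sinc P * sinc Q.
-/

set_option autoImplicit false

namespace Pool.Agent.M18.Helper95.SP.Crude

open Real Finset

private theorem idp_abs_le_one (x : ℝ) : |sinc x| ≤ 1 := by
  by_cases hx : x = 0
  · subst hx; simp
  · rw [sinc_of_ne_zero hx, abs_div]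
    exact div_le_one_of_le₀ (abs_sin_le_abs) (abs_nonneg _)

private theorem idp_abs_le_inv {y : ℝ} (h : 0 < y) : |sinc y| ≤ 1 / y := by
  rw [sinc_of_ne_zero h.ne', abs_div, abs_of_pos h]
  exact div_le_div_of_nonneg_right (abs_sin_le_one y) h.le

private theorem idp_sinc_le_exp {y : ℝ} (hy : y ^ 2 ≤ π ^ 2) : sinc y ≤ exp (-(y ^ 2 / 6)) := by
  have h1 : HasSum (fun n : ℕ => (1 : ℝ) / ((n : ℝ) + 1) ^ 2) (π ^ 2 / 6) := by
    have := (hasSum_nat_add_iff' (f := fun n : ℕ => (1 : ℝ) / (n : ℝ) ^ 2) 1).mpr hasSum_zeta_two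
    simpa using this
  have h2 := h1.mul_left (-(y ^ 2) / π ^ 2)
  have e : -(y ^ 2) / π ^ 2 * (π ^ 2 / 6) = -(y ^ 2 / 6) := by
    have := pi_ne_zero
    field_simp
  rw [e] at h2
  have h3 := h2.tendsto_sum_nat
  have h4 := (continuous_exp.tendsto _).comp h3
  refine le_of_tendsto_of_tendsto' (tendsto_sinc y) h4 fun n => ?_
  rw [Function.comp_apply, Real.exp_sum]
  unfold pr
  refine Finset.prod_le_prod (fun j _ => ?_) fun j _ => ?_
  · have h5 : (1:ℝ) ≤ ((j : ℝ) + 1) ^ 2 := by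
      have : (1:ℝ) ≤ (j : ℝ) + 1 := by (clear * -; linarith [Nat.cast_nonneg (α := ℝ) j])
      nlinarith
    have hπ : 0 < π ^ 2 := by positivity
    have h6 : y ^ 2 / (π ^ 2 * ((j : ℝ) + 1) ^ 2) ≤ 1 := by
      rw [div_le_one (by (clear * -; positivity))]
      (clear * - hy h5; nlinarith)
    rw [neg_div]
    linarith
  · have h7 : -y ^ 2 / (π ^ 2 * ((j : ℝ) + 1) ^ 2) = -(y ^ 2) / π ^ 2 * (1 / ((j : ℝ) + 1) ^ 2) := by
      rw [div_mul_div_comm, mul_one]
    rw [h7]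
    have := add_one_le_exp (-(y ^ 2) / π ^ 2 * (1 / ((j : ℝ) + 1) ^ 2))
    (clear * - this; linarith)

private theorem idp_sinc_nonneg {y : ℝ} (h0 : 0 ≤ y) (h : y ≤ π) : 0 ≤ sinc y := by
  by_cases hy : y = 0
  · subst hy; simp
  · rw [sinc_of_ne_zero hy]
    exact div_nonneg (sin_nonneg_of_nonneg_of_le_pi h0 h) h0

private theorem idp_sq_le {y : ℝ} (h0 : 0 ≤ y) : sinc y ^ 2 ≤ 1 / (1 + y ^ 2 / 3) := by
  rcases le_total y π with h | h
  · have h1 : y ^ 2 ≤ π ^ 2 := pow_le_pow_left₀ h0 h 2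
    have h2 := idp_sinc_le_exp h1
    have h3 := idp_sinc_nonneg h0 h
    have h4 : sinc y ^ 2 ≤ exp (-(y ^ 2 / 6)) ^ 2 := pow_le_pow_left₀ h3 h2 2
    have h5 : exp (-(y ^ 2 / 6)) ^ 2 = 1 / exp (y ^ 2 / 3) := by
      rw [← Real.exp_nat_mul, one_div, ← Real.exp_neg]
      congr 1
      push_cast
      ring
    rw [h5] at h4
    refine h4.trans ?_
    have h6 := add_one_le_exp (y ^ 2 / 3)
    exact one_div_le_one_div_of_le (by (clear * -; positivity)) (by (clear * - h6; linarith))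
  · have hy : 0 < y := lt_of_lt_of_le pi_pos h
    have h1 := idp_abs_le_inv hy
    have h2 : sinc y ^ 2 ≤ (1 / y) ^ 2 := by
      rw [← sq_abs]
      exact pow_le_pow_left₀ (abs_nonneg _) h1 2
    refine h2.trans ?_
    rw [one_div_pow]
    refine one_div_le_one_div_of_le (by (clear * - hy; positivity)) ?_
    have h3 : (3:ℝ) ≤ y := le_trans pi_gt_three.le h
    (clear * - h3 h0; nlinarith)

/-- precise identity bound -/
theorem abs_sub_le_idP {P Q C A B κ : ℝ} (hQ : 0 < Q) (hQP : Q ≤ P) (hC : 0 ≤ C)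
    (hCC : 2 * C ^ 2 = P ^ 2 + Q ^ 2) (h3 : 3 ≤ C ^ 2)
    (hA : sinc ((2 * C + P + Q) / 2) ≤ A) (hA0 : 0 ≤ A)
    (hκ : κ ≤ sinc C ^ 2) (hB : 1 / ((2 * C + P + Q) / 2) ≤ B) :
    |sinc C ^ 2 - sinc P * sinc Q| ≤ ((P ^ 2 - Q ^ 2) / 2) ^ 2 *
      (max (1 / (1 + (P - Q) ^ 2 / 12) + A - 2 * κ) (B + 2 / C ^ 2) / (P * Q * (P + Q) ^ 2)) := by
  have hP : 0 < P := lt_of_lt_of_le hQ hQP
  have hC0 : 0 < C := by
    rcases hC.eq_or_lt with h | h
    · rw [← h] at h3; norm_num at h3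
    · exact h
  rcases hQP.eq_or_lt with hPQ | hPQ
  · subst hPQ
    have h1 : C ^ 2 = Q ^ 2 := by (clear * - hCC; linarith)
    have h2 : C = Q := by
      have := (sq_eq_sq₀ hC hQ.le).mp h1
      exact this
    subst h2
    have h4 : sinc C ^ 2 - sinc C * sinc C = 0 := by ring
    have h5 : ((C ^ 2 - C ^ 2) / 2) ^ 2 = 0 := by ring
    rw [h4, abs_zero, h5, zero_mul]
  · have hassoc : 2 * C + P + Q = 2 * C + (P + Q) := by ring
    rw [hassoc] at hA hB
    set D := P - Q with hD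
    set S := P + Q with hS
    have hD0 : 0 < D := by rw [hD]; (clear * - hPQ; linarith)
    have hS0 : 0 < S := by rw [hS]; (clear * - hQ hPQ; linarith)
    have h4C : 4 * C ^ 2 = S ^ 2 + D ^ 2 := by rw [hS, hD]; (clear * - hCC; linarith)
    set sg := (2 * C + S) / 2 with hsg
    set ep := (2 * C - S) / 2 with hep
    have hprod : sg * ep = D ^ 2 / 4 := by
      rw [hsg, hep]
      have : (2 * C + S) / 2 * ((2 * C - S) / 2) = (4 * C ^ 2 - S ^ 2) / 4 := by ring
      rw [this, h4C]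
      ring
    have hsg0 : 0 < sg := by rw [hsg]; positivity
    have hep0 : 0 < ep := by
      have : 0 < sg * ep := by rw [hprod]; (clear * - hPQ; positivity)
      exact (pos_iff_pos_of_mul_pos this).mp hsg0
    have hepsg : ep ≤ sg := by rw [hsg, hep]; (clear * - hQ hPQ; linarith)
    have hPQ0 : 0 < P * Q := by positivity
    -- the identity
    have hid : sinc C ^ 2 - sinc P * sinc Q =
        D ^ 2 / (4 * (P * Q)) * (sinc (D / 2) ^ 2 + sinc sg * sinc ep - 2 * sinc C ^ 2) := by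
      have hD2 : D / 2 ≠ 0 := by (clear * - hPQ; positivity)
      rw [sinc_of_ne_zero hC0.ne', sinc_of_ne_zero hP.ne', sinc_of_ne_zero hQ.ne',
        sinc_of_ne_zero hD2, sinc_of_ne_zero hsg0.ne', sinc_of_ne_zero hep0.ne']
      have e1 : sin C ^ 2 = (1 - cos (2 * C)) / 2 := by
        rw [cos_two_mul, cos_sq']; ring
      have e2 : sin P * sin Q = (cos D - cos S) / 2 := by
        rw [hD, hS, cos_sub, cos_add]; ring
      have e3 : sin (D / 2) ^ 2 = (1 - cos D) / 2 := by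
        have : cos D = cos (2 * (D / 2)) := by congr 1; ring
        rw [this, cos_two_mul, cos_sq']; ring
      have e4 : sin sg * sin ep = (cos S - cos (2 * C)) / 2 := by
        have h1 : S = sg - ep := by rw [hsg, hep]; ring
        have h2 : 2 * C = sg + ep := by rw [hsg, hep]; ring
        rw [h2, h1, cos_sub, cos_add]; ring
      have e5 : sin sg / sg * (sin ep / ep) = (cos S - cos (2 * C)) / 2 / (D ^ 2 / 4) := by
        rw [div_mul_div_comm, hprod, e4]
      have e6 : sin P / P * (sin Q / Q) = (cos D - cos S) / 2 / (P * Q) := by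
        rw [div_mul_div_comm, e2]
      rw [e5, e6, div_pow, div_pow, e1, e3]
      have hC2 : C ^ 2 = (P ^ 2 + Q ^ 2) / 2 := by (clear * - hCC; linarith)
      have hDne : D ≠ 0 := hD0.ne'
      have hPne : P ≠ 0 := hP.ne'
      have hQne : Q ≠ 0 := hQ.ne'
      have hDD : D ^ 2 = 2 * C ^ 2 - 2 * (P * Q) := by rw [hD]; (clear * - hCC; linarith)
      have hCne : C ≠ 0 := hC0.ne'
      have e7 : D ^ 2 / (4 * (P * Q)) * ((1 - cos D) / 2 / (D / 2) ^ 2 +
          (cos S - cos (2 * C)) / 2 / (D ^ 2 / 4) - 2 * ((1 - cos (2 * C)) / 2 / C ^ 2)) =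
          (1 - cos D + cos S - cos (2 * C)) / (2 * (P * Q)) -
            D ^ 2 * ((1 - cos (2 * C)) / (4 * (P * Q) * C ^ 2)) := by
        field_simp
        ring
      rw [e7, hDD]
      field_simp
      ring
    rw [hid, abs_mul, abs_of_pos (by positivity : 0 < D ^ 2 / (4 * (P * Q)))]
    have hR : ∀ M : ℝ, ((P ^ 2 - Q ^ 2) / 2) ^ 2 * (M / (P * Q * S ^ 2)) =
        D ^ 2 / (4 * (P * Q)) * M := by
      intro M
      have : P ^ 2 - Q ^ 2 = D * S := by rw [hD, hS]; ring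
      rw [this]
      have hPne : P ≠ 0 := hP.ne'
      have hQne : Q ≠ 0 := hQ.ne'
      have hSne : S ≠ 0 := hS0.ne'
      field_simp
      ring
    rw [hR]
    refine mul_le_mul_of_nonneg_left ?_ (by (clear * - hPQ hP hQ; positivity))
    have k1 : sinc (D / 2) ^ 2 ≤ 1 / (1 + D ^ 2 / 12) := by
      have := idp_sq_le (y := D / 2) (by positivity)
      have e : (D / 2) ^ 2 / 3 = D ^ 2 / 12 := by ring
      rwa [e] at this
    have ku : sinc (D / 2) ^ 2 + sinc sg * sinc ep ≤ 1 / (1 + D ^ 2 / 12) + A := by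
      rcases le_total ep π with he | he
      · have n0 := idp_sinc_nonneg hep0.le he
        have n1 : sinc ep ≤ 1 := (le_abs_self _).trans (idp_abs_le_one ep)
        have n2 : sinc sg * sinc ep ≤ A * sinc ep := mul_le_mul_of_nonneg_right hA n0
        have n3 : A * sinc ep ≤ A * 1 := mul_le_mul_of_nonneg_left n1 hA0
        (clear * - k1 n2 n3; linarith)
      · have hD36 : 36 < D ^ 2 := by
          have hpi := pi_gt_three
          have h5 : 9 < sg * ep := by (clear * - hQ hCC hPQ hep hprod he hpi hQP hC; nlinarith)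
          rw [hprod] at h5
          (clear * - h5; linarith)
        have h6 : |sinc sg * sinc ep| ≤ 4 / D ^ 2 := by
          rw [abs_mul]
          have i1 := idp_abs_le_inv hsg0
          have i2 := idp_abs_le_inv hep0
          have i3 : |sinc sg| * |sinc ep| ≤ 1 / sg * (1 / ep) :=
            mul_le_mul i1 i2 (abs_nonneg _) (by positivity)
          have i4 : 1 / sg * (1 / ep) = 4 / D ^ 2 := by
            rw [div_mul_div_comm, one_mul, hprod]
            have hDne : D ≠ 0 := hD0.ne'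
            field_simp
          (clear * - i3 i4; linarith)
        have h7 : sinc (D / 2) ^ 2 ≤ 4 / D ^ 2 := by
          have i1 := idp_abs_le_inv (show 0 < D / 2 by (clear * - hPQ; positivity))
          have i2 : sinc (D / 2) ^ 2 ≤ (1 / (D / 2)) ^ 2 := by
            rw [← sq_abs]
            exact pow_le_pow_left₀ (abs_nonneg _) i1 2
          have i3 : (1 / (D / 2)) ^ 2 = 4 / D ^ 2 := by
            have hDne : D ≠ 0 := hD0.ne'
            field_simp
            norm_num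
          (clear * - i2 i3; linarith)
        have h8 : 8 / D ^ 2 ≤ 1 / (1 + D ^ 2 / 12) := by
          rw [div_le_div_iff₀ (by positivity) (by positivity)]
          (clear * - hD36; linarith)
        have h9 : 8 / D ^ 2 = 4 / D ^ 2 + 4 / D ^ 2 := by ring
        have h10 := (abs_le.mp h6).2
        (clear * - hA0 h7 h8 h9 h10; linarith)
    have kl : |sinc sg * sinc ep| ≤ B := by
      rw [abs_mul]
      have h1 := idp_abs_le_inv hsg0
      have h2 := idp_abs_le_one ep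
      calc |sinc sg| * |sinc ep| ≤ |sinc sg| * 1 := mul_le_mul_of_nonneg_left h2 (abs_nonneg _)
        _ ≤ B := by (clear * - hB h1; linarith)
    have kc : 2 * sinc C ^ 2 ≤ 2 / C ^ 2 := by
      have h1 := idp_abs_le_inv hC0
      have h2 : sinc C ^ 2 ≤ (1 / C) ^ 2 := by
        rw [← sq_abs]
        exact pow_le_pow_left₀ (abs_nonneg _) h1 2
      have h4 : 2 / C ^ 2 = 2 * (1 / C) ^ 2 := by
        rw [one_div_pow]; ring
      (clear * - h2 h4; linarith)
    have k4 : 0 ≤ sinc (D / 2) ^ 2 := sq_nonneg _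
    have kl' := (abs_le.mp kl).1
    rw [abs_le]
    constructor
    · have := le_max_right (1 / (1 + D ^ 2 / 12) + A - 2 * κ) (B + 2 / C ^ 2)
      (clear * - kc k4 kl' this; linarith)
    · have := le_max_left (1 / (1 + D ^ 2 / 12) + A - 2 * κ) (B + 2 / C ^ 2)
      (clear * - hκ ku this; linarith)

end Pool.Agent.M18.Helper95.SP.Crude
end

/- Helper95.SP.Crude.IdB -/
section
/-!
SP-wave, module IdB: the bracket sinc C ^ 2 - sinc P * sinc Q away from the origin.
-/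

set_option autoImplicit false

namespace Pool.Agent.M18.Helper95.SP.Crude

open Real Finset Filter Topology

private theorem idb_abs_le_one (x : ℝ) : |sinc x| ≤ 1 := by
  by_cases hx : x = 0
  · subst hx; simp
  · rw [sinc_of_ne_zero hx, abs_div]
    exact div_le_one_of_le₀ (abs_sin_le_abs) (abs_nonneg _)

private theorem idb_abs_le_inv {y : ℝ} (h : 0 < y) : |sinc y| ≤ 1 / y := by
  rw [sinc_of_ne_zero h.ne', abs_div, abs_of_pos h]
  exact div_le_div_of_nonneg_right (abs_sin_le_one y) h.le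

private theorem idb_sinc_le_exp {y : ℝ} (hy : y ^ 2 ≤ π ^ 2) : sinc y ≤ exp (-(y ^ 2 / 6)) := by
  have h1 : HasSum (fun n : ℕ => (1 : ℝ) / ((n : ℝ) + 1) ^ 2) (π ^ 2 / 6) := by
    have := (hasSum_nat_add_iff' (f := fun n : ℕ => (1 : ℝ) / (n : ℝ) ^ 2) 1).mpr hasSum_zeta_two
    simpa using this
  have h2 := h1.mul_left (-(y ^ 2) / π ^ 2)
  have e : -(y ^ 2) / π ^ 2 * (π ^ 2 / 6) = -(y ^ 2 / 6) := by
    have := pi_ne_zero
    (clear * - this; field_simp)
  rw [e] at h2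
  have h3 := h2.tendsto_sum_nat
  have h4 := (continuous_exp.tendsto _).comp h3
  refine le_of_tendsto_of_tendsto' (tendsto_sinc y) h4 fun n => ?_
  rw [Function.comp_apply, Real.exp_sum]
  unfold pr
  refine Finset.prod_le_prod (fun j _ => ?_) fun j _ => ?_
  · have h5 : (1:ℝ) ≤ ((j : ℝ) + 1) ^ 2 := by
      have : (1:ℝ) ≤ (j : ℝ) + 1 := by (clear * -; linarith [Nat.cast_nonneg (α := ℝ) j])
      nlinarith
    have hπ : 0 < π ^ 2 := by positivity
    have h6 : y ^ 2 / (π ^ 2 * ((j : ℝ) + 1) ^ 2) ≤ 1 := by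
      rw [div_le_one (by (clear * -; positivity))]
      (clear * - hy h5; nlinarith)
    rw [neg_div]
    (clear * - h6; linarith)
  · have h7 : -y ^ 2 / (π ^ 2 * ((j : ℝ) + 1) ^ 2) = -(y ^ 2) / π ^ 2 * (1 / ((j : ℝ) + 1) ^ 2) := by
      rw [div_mul_div_comm, mul_one]
    rw [h7]
    have := add_one_le_exp (-(y ^ 2) / π ^ 2 * (1 / ((j : ℝ) + 1) ^ 2))
    (clear * - this; linarith)

private theorem idb_sinc_nonneg {y : ℝ} (h0 : 0 ≤ y) (h : y ≤ π) : 0 ≤ sinc y := by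
  by_cases hy : y = 0
  · subst hy; simp
  · rw [sinc_of_ne_zero hy]
    exact div_nonneg (sin_nonneg_of_nonneg_of_le_pi h0 h) h0

private theorem idb_sq_le {y : ℝ} (h0 : 0 ≤ y) : sinc y ^ 2 ≤ 1 / (1 + y ^ 2 / 3) := by
  rcases le_total y π with h | h
  · have h1 : y ^ 2 ≤ π ^ 2 := pow_le_pow_left₀ h0 h 2
    have h2 := idb_sinc_le_exp h1
    have h3 := idb_sinc_nonneg h0 h
    have h4 : sinc y ^ 2 ≤ exp (-(y ^ 2 / 6)) ^ 2 := pow_le_pow_left₀ h3 h2 2
    have h5 : exp (-(y ^ 2 / 6)) ^ 2 = 1 / exp (y ^ 2 / 3) := by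
      rw [← Real.exp_nat_mul, one_div, ← Real.exp_neg]
      congr 1
      push_cast
      ring
    rw [h5] at h4
    refine h4.trans ?_
    have h6 := add_one_le_exp (y ^ 2 / 3)
    exact one_div_le_one_div_of_le (by (clear * -; positivity)) (by (clear * - h6; linarith))
  · have hy : 0 < y := lt_of_lt_of_le pi_pos h
    have h1 := idb_abs_le_inv hy
    have h2 : sinc y ^ 2 ≤ (1 / y) ^ 2 := by
      rw [← sq_abs]
      exact pow_le_pow_left₀ (abs_nonneg _) h1 2
    refine h2.trans ?_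
    rw [one_div_pow]
    refine one_div_le_one_div_of_le (by (clear * - hy; positivity)) ?_
    have h3 : (3:ℝ) ≤ y := le_trans pi_gt_three.le h
    (clear * - h3 h0; nlinarith)

theorem abs_sub_le_id {P Q C : ℝ} (hQ : 0 < Q) (hQP : Q ≤ P) (hC : 0 ≤ C)
    (hCC : 2 * C ^ 2 = P ^ 2 + Q ^ 2) (h3 : 3 ≤ C ^ 2) :
    |sinc C ^ 2 - sinc P * sinc Q| ≤ ((P ^ 2 - Q ^ 2) / 2) ^ 2 *
      ((1 / (1 + (P - Q) ^ 2 / 12) + 1 / (P + Q)) / (P * Q * (P + Q) ^ 2)) := by
  have hP : 0 < P := lt_of_lt_of_le hQ hQP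
  have hC0 : 0 < C := by
    rcases hC.eq_or_lt with h | h
    · rw [← h] at h3; norm_num at h3
    · exact h
  rcases hQP.eq_or_lt with hPQ | hPQ
  · subst hPQ
    have h1 : C ^ 2 = Q ^ 2 := by linarith
    have h2 : C = Q := by
      have := (sq_eq_sq₀ hC hQ.le).mp h1
      exact this
    subst h2
    have h4 : sinc C ^ 2 - sinc C * sinc C = 0 := by ring
    rw [h4, abs_zero]
    (clear * - hC0; positivity)
  · set D := P - Q with hD
    set S := P + Q with hS
    have hD0 : 0 < D := by rw [hD]; linarith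
    have hS0 : 0 < S := by rw [hS]; (clear * - hQ hPQ; linarith)
    have h4C : 4 * C ^ 2 = S ^ 2 + D ^ 2 := by rw [hS, hD]; (clear * - hCC; linarith)
    set sg := (2 * C + S) / 2 with hsg
    set ep := (2 * C - S) / 2 with hep
    have hprod : sg * ep = D ^ 2 / 4 := by
      rw [hsg, hep]
      have : (2 * C + S) / 2 * ((2 * C - S) / 2) = (4 * C ^ 2 - S ^ 2) / 4 := by ring
      rw [this, h4C]
      ring
    have hsg0 : 0 < sg := by rw [hsg]; positivity
    have hep0 : 0 < ep := by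
      have : 0 < sg * ep := by rw [hprod]; positivity
      exact (pos_iff_pos_of_mul_pos this).mp hsg0
    have hsgS : S ≤ sg := by
      have : 0 < 2 * C - S := by
        have := hep0
        rw [hep] at this
        (clear * - hep hep0; linarith)
      rw [hsg]
      (clear * - hep hep0; linarith)
    have hPQ0 : 0 < P * Q := by positivity
    -- the identity
    have hid : sinc C ^ 2 - sinc P * sinc Q =
        D ^ 2 / (4 * (P * Q)) * (sinc (D / 2) ^ 2 + sinc sg * sinc ep - 2 * sinc C ^ 2) := by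
      have hD2 : D / 2 ≠ 0 := by (clear * - hPQ; positivity)
      rw [sinc_of_ne_zero hC0.ne', sinc_of_ne_zero hP.ne', sinc_of_ne_zero hQ.ne',
        sinc_of_ne_zero hD2, sinc_of_ne_zero hsg0.ne', sinc_of_ne_zero hep0.ne']
      have e1 : sin C ^ 2 = (1 - cos (2 * C)) / 2 := by
        rw [cos_two_mul, cos_sq']; ring
      have e2 : sin P * sin Q = (cos D - cos S) / 2 := by
        rw [hD, hS, cos_sub, cos_add]; ring
      have e3 : sin (D / 2) ^ 2 = (1 - cos D) / 2 := by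
        have : cos D = cos (2 * (D / 2)) := by congr 1; ring
        rw [this, cos_two_mul, cos_sq']; ring
      have e4 : sin sg * sin ep = (cos S - cos (2 * C)) / 2 := by
        have h1 : S = sg - ep := by rw [hsg, hep]; ring
        have h2 : 2 * C = sg + ep := by rw [hsg, hep]; ring
        rw [h2, h1, cos_sub, cos_add]; ring
      have e5 : sin sg / sg * (sin ep / ep) = (cos S - cos (2 * C)) / 2 / (D ^ 2 / 4) := by
        rw [div_mul_div_comm, hprod, e4]
      have e6 : sin P / P * (sin Q / Q) = (cos D - cos S) / 2 / (P * Q) := by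
        rw [div_mul_div_comm, e2]
      rw [e5, e6, div_pow, div_pow, e1, e3]
      have hC2 : C ^ 2 = (P ^ 2 + Q ^ 2) / 2 := by (clear * - hCC; linarith)
      have hDne : D ≠ 0 := hD0.ne'
      have hPne : P ≠ 0 := hP.ne'
      have hQne : Q ≠ 0 := hQ.ne'
      have hDD : D ^ 2 = 2 * C ^ 2 - 2 * (P * Q) := by rw [hD]; (clear * - hCC; linarith)
      have hCne : C ≠ 0 := hC0.ne'
      have e7 : D ^ 2 / (4 * (P * Q)) * ((1 - cos D) / 2 / (D / 2) ^ 2 +
          (cos S - cos (2 * C)) / 2 / (D ^ 2 / 4) - 2 * ((1 - cos (2 * C)) / 2 / C ^ 2)) =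
          (1 - cos D + cos S - cos (2 * C)) / (2 * (P * Q)) -
            D ^ 2 * ((1 - cos (2 * C)) / (4 * (P * Q) * C ^ 2)) := by
        field_simp
        ring
      rw [e7, hDD]
      field_simp
      ring
    rw [hid, abs_mul, abs_of_pos (by (clear * - hPQ hP hQ; positivity) : 0 < D ^ 2 / (4 * (P * Q)))]
    have hR : ((P ^ 2 - Q ^ 2) / 2) ^ 2 *
        ((1 / (1 + D ^ 2 / 12) + 1 / S) / (P * Q * S ^ 2)) =
        D ^ 2 / (4 * (P * Q)) * (1 / (1 + D ^ 2 / 12) + 1 / S) := by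
      have : P ^ 2 - Q ^ 2 = D * S := by rw [hD, hS]; ring
      rw [this]
      have hPne : P ≠ 0 := hP.ne'
      have hQne : Q ≠ 0 := hQ.ne'
      have hSne : S ≠ 0 := hS0.ne'
      field_simp
      norm_num
    rw [hR]
    refine mul_le_mul_of_nonneg_left ?_ (by positivity)
    have k1 : sinc (D / 2) ^ 2 ≤ 1 / (1 + D ^ 2 / 12) := by
      have := idb_sq_le (y := D / 2) (by positivity)
      have e : (D / 2) ^ 2 / 3 = D ^ 2 / 12 := by ring
      rwa [e] at this
    have k2 : |sinc sg * sinc ep| ≤ 1 / S := by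
      rw [abs_mul]
      have h1 := idb_abs_le_inv hsg0
      have h2 := idb_abs_le_one ep
      have h4 : 1 / sg ≤ 1 / S := one_div_le_one_div_of_le hS0 hsgS
      calc |sinc sg| * |sinc ep| ≤ |sinc sg| * 1 := mul_le_mul_of_nonneg_left h2 (abs_nonneg _)
        _ ≤ 1 / S := by (clear * - h1 h4; linarith)
    have k3 : 2 * sinc C ^ 2 ≤ 1 / (1 + D ^ 2 / 12) := by
      have h1 := idb_abs_le_inv hC0
      have h2 : sinc C ^ 2 ≤ (1 / C) ^ 2 := by
        rw [← sq_abs]
        exact pow_le_pow_left₀ (abs_nonneg _) h1 2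
      have h4 : 2 * (1 / C) ^ 2 ≤ 1 / (1 + D ^ 2 / 12) := by
        rw [one_div_pow, mul_one_div, div_le_div_iff₀ (by positivity) (by positivity)]
        have hDD : D ^ 2 = 2 * C ^ 2 - 2 * (P * Q) := by rw [hD]; (clear * - hCC; linarith)
        (clear * - hCC h3 hPQ0; nlinarith)
      (clear * - h2 h4; linarith)
    rw [abs_le] at k2 ⊢
    have k4 : 0 ≤ sinc (D / 2) ^ 2 := sq_nonneg _
    have k5 : 0 ≤ sinc C ^ 2 := sq_nonneg _
    constructor <;> (clear * - k2 k3 k4 k1 k5; linarith [k2.1, k2.2])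

theorem abs_sub_le_dir {P Q C : ℝ} (hQ : 0 ≤ Q) (hP : 0 < P) (hC : 0 < C) :
    |sinc C ^ 2 - sinc P * sinc Q| ≤
      1 / C ^ 2 + 1 / P * (if Q = 0 then 1 else min 1 (1 / Q)) := by
  have h1 := idb_abs_le_inv hC
  have h2 := idb_abs_le_inv hP
  have h3 : |sinc Q| ≤ (if Q = 0 then 1 else min 1 (1 / Q)) := by
    split_ifs with h
    · exact idb_abs_le_one Q
    · exact le_min (idb_abs_le_one Q) (idb_abs_le_inv (lt_of_le_of_ne hQ (Ne.symm h)))
  have h4 : |sinc C ^ 2| ≤ 1 / C ^ 2 := by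
    rw [abs_pow, ← one_div_pow]
    exact pow_le_pow_left₀ (abs_nonneg _) h1 2
  have h5 : |sinc P * sinc Q| ≤ 1 / P * (if Q = 0 then 1 else min 1 (1 / Q)) := by
    rw [abs_mul]
    exact mul_le_mul h2 h3 (abs_nonneg _) (by positivity)
  exact (abs_sub _ _).trans (add_le_add h4 h5)

/-- maximum of `|sin|` on a short interval -/
theorem abs_sin_le_max {a b y : ℝ} (h1 : a ≤ y) (h2 : y ≤ b) (h : b - a ≤ 1) :
    |sin y| ≤ max |sin a| |sin b| * (1 + (b - a) ^ 2 / 6) := by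
  rcases (h1.trans h2).eq_or_lt with hab | hab
  · have : y = a := le_antisymm (by rw [hab]; exact h2) h1
    subst this
    have h3 : |sin y| ≤ max |sin y| |sin b| := le_max_left _ _
    have h4 : 0 ≤ max |sin y| |sin b| := le_trans (abs_nonneg _) h3
    (clear * - h3 h4; nlinarith [sq_nonneg (b - y)])
  · set m := max |sin a| |sin b| with hm
    have hm0 : 0 ≤ m := le_trans (abs_nonneg _) (le_max_left _ _)
    set g := b - a with hg
    have hg0 : 0 < g := by rw [hg]; (clear * - hab; linarith)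
    have hpi := pi_gt_three
    have s1 : 0 ≤ sin (b - y) := sin_nonneg_of_nonneg_of_le_pi (by linarith) (by (clear * - h1 h hpi; linarith))
    have s2 : 0 ≤ sin (y - a) := sin_nonneg_of_nonneg_of_le_pi (by linarith) (by (clear * - h2 h hpi; linarith))
    have s3 : 0 < sin (g / 2) := sin_pos_of_pos_of_lt_pi (by (clear * - hab; linarith)) (by linarith)
    have c1 : 1 - (g / 2) ^ 2 / 2 ≤ cos (g / 2) := one_sub_sq_div_two_le_cos
    have hid : sin y * sin g = sin (b - y) * sin a + sin (y - a) * sin b := by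
      rw [hg, sin_sub, sin_sub, sin_sub]
      have := sin_sq_add_cos_sq y
      ring_nf
    have h3 : |sin y| * sin g ≤ m * (sin (b - y) + sin (y - a)) := by
      have hsg : 0 ≤ sin g := sin_nonneg_of_nonneg_of_le_pi hg0.le (by (clear * - h hpi; linarith))
      have e : |sin y| * sin g = |sin y * sin g| := by rw [abs_mul, abs_of_nonneg hsg]
      rw [e, hid]
      refine (abs_add_le _ _).trans ?_
      rw [abs_mul, abs_mul, abs_of_nonneg s1, abs_of_nonneg s2]
      have i1 := mul_le_mul_of_nonneg_left (le_max_left |sin a| |sin b|) s1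
      have i2 := mul_le_mul_of_nonneg_left (le_max_right |sin a| |sin b|) s2
      rw [← hm] at i1 i2
      (clear * - i1 i2; linarith)
    have h4 : sin (b - y) + sin (y - a) ≤ 2 * sin (g / 2) := by
      have e : sin (b - y) + sin (y - a) = 2 * sin (g / 2) * cos ((b + a) / 2 - y) := by
        have e1 : b - y = g / 2 + ((b + a) / 2 - y) := by rw [hg]; ring
        have e2 : y - a = g / 2 - ((b + a) / 2 - y) := by rw [hg]; ring
        rw [e1, e2, sin_add (g / 2) ((b + a) / 2 - y), sin_sub (g / 2) ((b + a) / 2 - y)]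
        ring
      rw [e]
      have := cos_le_one ((b + a) / 2 - y)
      (clear * - s3 this; nlinarith)
    have h5 : sin g = 2 * sin (g / 2) * cos (g / 2) := by
      have : g = 2 * (g / 2) := by ring
      conv_lhs => rw [this]
      exact sin_two_mul _
    have h6 : |sin y| * cos (g / 2) ≤ m := by
      have h7 : |sin y| * sin g ≤ m * (2 * sin (g / 2)) :=
        h3.trans (mul_le_mul_of_nonneg_left h4 hm0)
      rw [h5] at h7
      have h8 : (|sin y| * cos (g / 2)) * (2 * sin (g / 2)) ≤ m * (2 * sin (g / 2)) := by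
        calc _ = |sin y| * (2 * sin (g / 2) * cos (g / 2)) := by ring
          _ ≤ _ := h7
      exact le_of_mul_le_mul_right h8 (by (clear * - s3; positivity))
    have h9 : 1 ≤ cos (g / 2) * (1 + g ^ 2 / 6) := by
      have hg2 : g ^ 2 ≤ 1 := by (clear * - h h1 h2; nlinarith)
      have : 1 ≤ (1 - (g / 2) ^ 2 / 2) * (1 + g ^ 2 / 6) := by (clear * - hg2; nlinarith [sq_nonneg g])
      exact this.trans (mul_le_mul_of_nonneg_right c1 (by positivity))
    calc |sin y| = |sin y| * 1 := by ring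
      _ ≤ |sin y| * (cos (g / 2) * (1 + g ^ 2 / 6)) := mul_le_mul_of_nonneg_left h9 (abs_nonneg _)
      _ = (|sin y| * cos (g / 2)) * (1 + g ^ 2 / 6) := by ring
      _ ≤ m * (1 + g ^ 2 / 6) := mul_le_mul_of_nonneg_right h6 (by positivity)

end Pool.Agent.M18.Helper95.SP.Crude
end

/- Helper95.SP.Crude.SinT -/
section
/-!
Taylor bounds for `sin` and soundness of the rational evaluators `sinQ`, `asinUp`, `sinLo`.
-/

set_option autoImplicit false

namespace Pool.Agent.M18.Helper95.SP.Crude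

open Real Finset

namespace SinT

noncomputable def sS (n : ℕ) (y : ℝ) : ℝ :=
  ∑ j ∈ range n, (-1) ^ j * y ^ (2 * j + 1) / ((2 * j + 1).factorial : ℝ)

noncomputable def sC (n : ℕ) (y : ℝ) : ℝ :=
  ∑ j ∈ range n, (-1) ^ j * y ^ (2 * j) / ((2 * j).factorial : ℝ)

theorem hasDerivAt_sS (n : ℕ) (y : ℝ) : HasDerivAt (sS n) (sC n y) y := by
  unfold sS sC
  have : ∀ j ∈ range n, HasDerivAt (fun y : ℝ => (-1) ^ j * y ^ (2 * j + 1) / ((2 * j + 1).factorial : ℝ))
      ((-1) ^ j * y ^ (2 * j) / ((2 * j).factorial : ℝ)) y := by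
    intro j _
    have h := ((hasDerivAt_pow (2 * j + 1) y).const_mul ((-1 : ℝ) ^ j)).div_const
      ((2 * j + 1).factorial : ℝ)
    refine h.congr_deriv ?_
    rw [Nat.factorial_succ]
    push_cast
    have h1 : ((2 : ℝ) * j + 1) ≠ 0 := by (clear * -; positivity)
    have h2 : ((2 * j).factorial : ℝ) ≠ 0 := by positivity
    (clear * - h1 h2; field_simp)
  exact HasDerivAt.fun_sum this

theorem hasDerivAt_sC (n : ℕ) (y : ℝ) : HasDerivAt (sC (n + 1)) (-sS n y) y := by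
  have e : sC (n + 1) = fun y => 1 + ∑ j ∈ range n, (-1) ^ (j + 1) * y ^ (2 * j + 2) /
      ((2 * j + 2).factorial : ℝ) := by
    funext y
    unfold sC
    rw [Finset.sum_range_succ']
    simp only [mul_add, mul_one, Nat.factorial_zero, Nat.cast_one, pow_zero, mul_zero, div_one]
    ring
  rw [e]
  have : ∀ j ∈ range n, HasDerivAt (fun y : ℝ => (-1) ^ (j + 1) * y ^ (2 * j + 2) /
      ((2 * j + 2).factorial : ℝ)) (-((-1) ^ j * y ^ (2 * j + 1) / ((2 * j + 1).factorial : ℝ))) y := by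
    intro j _
    have h := ((hasDerivAt_pow (2 * j + 2) y).const_mul ((-1 : ℝ) ^ (j + 1))).div_const
      ((2 * j + 2).factorial : ℝ)
    refine h.congr_deriv ?_
    rw [Nat.factorial_succ (2 * j + 1)]
    push_cast
    have h1 : ((2 : ℝ) * j + 1 + 1) ≠ 0 := by (clear * -; positivity)
    have h2 : ((2 * j + 1).factorial : ℝ) ≠ 0 := by positivity
    field_simp
    ring
  have h := (HasDerivAt.fun_sum this).const_add 1
  refine h.congr_deriv ?_
  unfold sS
  rw [Finset.sum_neg_distrib]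

theorem mono_bd {f g f' g' : ℝ → ℝ} (hf : ∀ y, HasDerivAt f (f' y) y)
    (hg : ∀ y, HasDerivAt g (g' y) y) (f0 : f 0 = 0) (g0 : g 0 = 0)
    (h : ∀ y, 0 ≤ y → 0 ≤ f' y ∧ f' y ≤ g' y) (y : ℝ) (hy : 0 ≤ y) : 0 ≤ f y ∧ f y ≤ g y := by
  constructor
  · have hm : MonotoneOn f (Set.Ici 0) := by
      refine monotoneOn_of_deriv_nonneg (convex_Ici 0)
        (fun x _ => (hf x).continuousAt.continuousWithinAt)
        (fun x _ => (hf x).differentiableAt.differentiableWithinAt) fun x hx => ?_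
      rw [(hf x).deriv]
      rw [interior_Ici] at hx
      exact (h x (le_of_lt hx)).1
    have := hm (Set.mem_Ici.mpr le_rfl) (Set.mem_Ici.mpr hy) hy
    rwa [f0] at this
  · have hd : ∀ x, HasDerivAt (fun x => g x - f x) (g' x - f' x) x := fun x => (hg x).sub (hf x)
    have hm : MonotoneOn (fun x => g x - f x) (Set.Ici 0) := by
      refine monotoneOn_of_deriv_nonneg (convex_Ici 0)
        (fun x _ => (hd x).continuousAt.continuousWithinAt)
        (fun x _ => (hd x).differentiableAt.differentiableWithinAt) fun x hx => ?_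
      rw [(hd x).deriv]
      rw [interior_Ici] at hx
      linarith [(h x (le_of_lt hx)).2]
    have := hm (Set.mem_Ici.mpr le_rfl) (Set.mem_Ici.mpr hy) hy
    simp only [f0, g0] at this
    linarith

theorem hasDerivAt_mono (n : ℕ) (y : ℝ) :
    HasDerivAt (fun y : ℝ => y ^ (n + 1) / ((n + 1).factorial : ℝ)) (y ^ n / (n.factorial : ℝ)) y := by
  have h := (hasDerivAt_pow (n + 1) y).div_const ((n + 1).factorial : ℝ)
  refine h.congr_deriv ?_
  rw [Nat.factorial_succ]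
  push_cast
  have h1 : ((n : ℝ) + 1) ≠ 0 := by (clear * -; positivity)
  have h2 : (n.factorial : ℝ) ≠ 0 := by positivity
  (clear * - h1 h2; field_simp)

theorem sin_of_cos (n : ℕ)
    (h : ∀ y : ℝ, 0 ≤ y → 0 ≤ (-1) ^ (n + 1) * (cos y - sC (n + 1) y) ∧
      (-1) ^ (n + 1) * (cos y - sC (n + 1) y) ≤ y ^ (2 * n + 2) / ((2 * n + 2).factorial : ℝ)) :
    ∀ y : ℝ, 0 ≤ y → 0 ≤ (-1) ^ (n + 1) * (sin y - sS (n + 1) y) ∧
      (-1) ^ (n + 1) * (sin y - sS (n + 1) y) ≤ y ^ (2 * n + 3) / ((2 * n + 3).factorial : ℝ) := by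
  refine mono_bd (fun y => ((hasDerivAt_sin y).sub (hasDerivAt_sS (n + 1) y)).const_mul _)
    (fun y => hasDerivAt_mono (2 * n + 2) y) ?_ ?_ h
  · simp [sS]
  · simp

theorem cos_of_sin (n : ℕ)
    (h : ∀ y : ℝ, 0 ≤ y → 0 ≤ (-1) ^ (n + 1) * (sin y - sS (n + 1) y) ∧
      (-1) ^ (n + 1) * (sin y - sS (n + 1) y) ≤ y ^ (2 * n + 3) / ((2 * n + 3).factorial : ℝ)) :
    ∀ y : ℝ, 0 ≤ y → 0 ≤ (-1) ^ (n + 2) * (cos y - sC (n + 2) y) ∧
      (-1) ^ (n + 2) * (cos y - sC (n + 2) y) ≤ y ^ (2 * n + 4) / ((2 * n + 4).factorial : ℝ) := by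
  refine mono_bd (f' := fun y => (-1) ^ (n + 1) * (sin y - sS (n + 1) y))
    (fun y => ?_) (fun y => hasDerivAt_mono (2 * n + 3) y) ?_ ?_ h
  · have := ((hasDerivAt_cos y).sub (hasDerivAt_sC (n + 1) y)).const_mul ((-1 : ℝ) ^ (n + 2))
    refine this.congr_deriv ?_
    rw [pow_succ (-1 : ℝ) (n + 1)]
    ring
  · have : sC (n + 2) 0 = 1 := by
      unfold sC
      rw [Finset.sum_range_succ']
      simp
    rw [this]; simp
  · simp

theorem cos_bd (n : ℕ) : ∀ y : ℝ, 0 ≤ y → 0 ≤ (-1) ^ (n + 1) * (cos y - sC (n + 1) y) ∧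
      (-1) ^ (n + 1) * (cos y - sC (n + 1) y) ≤ y ^ (2 * n + 2) / ((2 * n + 2).factorial : ℝ) := by
  induction n with
  | zero =>
    intro y hy
    have h1 := cos_le_one y
    have h2 := one_sub_sq_div_two_le_cos (x := y)
    have e : sC (0 + 1) y = 1 := by unfold sC; simp
    rw [e]
    have e2 : ((2 * 0 + 2).factorial : ℝ) = 2 := by norm_num [Nat.factorial]
    rw [e2]
    constructor
    · norm_num; (clear * - h1; linarith)
    · norm_num; (clear * - h2; linarith)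
  | succ n ih => exact cos_of_sin n (sin_of_cos n ih)

end SinT

theorem abs_sin_sub_le (n : ℕ) {y : ℝ} (hy : 0 ≤ y) :
    |sin y - ∑ j ∈ range n, (-1) ^ j * y ^ (2 * j + 1) / ((2 * j + 1).factorial : ℝ)| ≤
      y ^ (2 * n + 1) / ((2 * n + 1).factorial : ℝ) := by
  rcases n with _ | n
  · simp only [Finset.range_zero, Finset.sum_empty, sub_zero, mul_zero, zero_add, pow_one,
      Nat.factorial_one, Nat.cast_one, div_one]
    exact abs_sin_le_abs.trans_eq (abs_of_nonneg hy)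
  · obtain ⟨h1, h2⟩ := SinT.sin_of_cos n (SinT.cos_bd n) y hy
    have e : |sin y - SinT.sS (n + 1) y| = (-1) ^ (n + 1) * (sin y - SinT.sS (n + 1) y) := by
      rw [← abs_of_nonneg h1, abs_mul, abs_pow, abs_neg, abs_one, one_pow, one_mul]
    change |sin y - SinT.sS (n + 1) y| ≤ _
    rw [e]
    exact h2

/-- Horner form: general remainder identity -/
theorem SinT.sinAux_eq (z : ℚ) (n i : ℕ) (hi : 0 < i) :
    sinAux z n i = ∑ j ∈ range (n + 1), (-1) ^ j * z ^ j *
      (((2 * i - 1).factorial : ℚ) / ((2 * (i + j) - 1).factorial : ℚ)) := by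
  induction n generalizing i with
  | zero =>
    unfold sinAux
    have : ((2 * i - 1).factorial : ℚ) ≠ 0 := by positivity
    simp [this]
  | succ n ih =>
    unfold sinAux
    rw [ih (i + 1) (by omega), Finset.sum_range_succ' _ (n + 1)]
    have h0 : ((2 * i - 1).factorial : ℚ) ≠ 0 := by positivity
    simp only [pow_zero, mul_one, add_zero, div_self h0]
    rw [Finset.mul_sum, sub_eq_add_neg, add_comm, ← Finset.sum_neg_distrib]
    congr 1
    refine Finset.sum_congr rfl fun j _ => ?_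
    have e1 : 2 * (i + 1) - 1 = 2 * i + 1 := by omega
    have e2 : 2 * (i + 1 + j) - 1 = 2 * (i + (j + 1)) - 1 := by omega
    have e3 : ((2 * i + 1).factorial : ℚ) = (2 * i + 1) * (2 * i) * ((2 * i - 1).factorial : ℚ) := by
      obtain ⟨k, rfl⟩ : ∃ k, i = k + 1 := ⟨i - 1, by omega⟩
      have e4 : 2 * (k + 1) - 1 = 2 * k + 1 := by omega
      rw [e4, show 2 * (k + 1) + 1 = (2 * k + 1) + 1 + 1 by ring, Nat.factorial_succ,
        Nat.factorial_succ]
      push_cast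
      ring
    rw [e1, e2, e3]
    have h1 : ((2 * (i + (j + 1)) - 1).factorial : ℚ) ≠ 0 := by positivity
    have h2 : (i : ℚ) ≠ 0 := by positivity
    have h3 : (2 * (i : ℚ) + 1) ≠ 0 := by positivity
    field_simp
    ring

end Pool.Agent.M18.Helper95.SP.Crude
end

/- Helper95.SP.Crude.SinR -/
section
/-!
Soundness of the fast integer evaluator `sinR` and of `aSin`, `sinL`, `sinU`.
-/

set_option autoImplicit false

namespace Pool.Agent.M18.Helper95.SP.Crude

open Real Finset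

namespace SinR

theorem sDen_pos {q : ℕ} (hq : 0 < q) (n i : ℕ) (hi : 0 < i) : 0 < sDen q n i := by
  induction n generalizing i with
  | zero => simp [sDen]
  | succ n ih =>
    have := ih (i + 1) (by omega)
    unfold sDen
    (clear * - hq hi this; positivity)

theorem sNum_div {p q : ℕ} (hq : 0 < q) (n i : ℕ) (hi : 0 < i) :
    (sNum p q n i : ℚ) / (sDen q n i : ℚ) = sinAux (((p : ℚ) / q) ^ 2) n i := by
  induction n generalizing i with
  | zero => simp [sNum, sDen, sinAux]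
  | succ n ih =>
    have h1 := sDen_pos hq n (i + 1) (by omega)
    have h2 := ih (i + 1) (by omega)
    have h3 : (sDen q n (i + 1) : ℚ) ≠ 0 := by positivity
    have h4 : (q : ℚ) ≠ 0 := by positivity
    have h5 : (i : ℚ) ≠ 0 := by positivity
    have h6 : (2 * (i : ℚ) + 1) ≠ 0 := by positivity
    have e1 : sNum p q (n + 1) i = (sDen q (n + 1) i : ℤ) - (p * p : ℕ) * sNum p q n (i + 1) := rfl
    have e2 : sDen q (n + 1) i = q * q * ((2 * i) * (2 * i + 1)) * sDen q n (i + 1) := rfl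
    have e3 : sinAux (((p : ℚ) / q) ^ 2) (n + 1) i =
        1 - ((p : ℚ) / q) ^ 2 / ((2 * i) * (2 * i + 1)) * sinAux (((p : ℚ) / q) ^ 2) n (i + 1) := rfl
    rw [e3, ← h2, e1, e2]
    push_cast
    (clear * - h3 h6 h5 h4; field_simp)

theorem sinZ_eq (z : ℚ) : sinZ z = ⌊(10 ^ 8 * (z * sinAux (z ^ 2) 6 1) : ℚ)⌋ := by
  have hq : 0 < z.den := z.den_pos
  have h := sNum_div (p := z.num.natAbs) hq 6 1 (by norm_num)
  have h2 : (((z.num.natAbs : ℕ) : ℚ) / (z.den : ℚ)) ^ 2 = z ^ 2 := by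
    rw [div_pow, Nat.cast_natAbs, Int.cast_abs, sq_abs, ← div_pow, Rat.num_div_den]
  rw [h2] at h
  rw [← h]
  unfold sinZ
  rw [← Rat.floor_intCast_div_natCast]
  congr 1
  have h3 : (sDen z.den 6 1 : ℚ) ≠ 0 := by
    have := sDen_pos hq 6 1 (by norm_num)
    positivity
  have h4 : (z.den : ℚ) ≠ 0 := by positivity
  nth_rewrite 6 [← Rat.num_div_den z]
  push_cast
  field_simp
  ring

/-- the Taylor polynomial -/
theorem taylor (z : ℚ) : ((z * sinAux (z ^ 2) 6 1 : ℚ) : ℝ) =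
    ∑ j ∈ range 7, (-1) ^ j * (z : ℝ) ^ (2 * j + 1) / ((2 * j + 1).factorial : ℝ) := by
  rw [SinT.sinAux_eq (z ^ 2) 6 1 (by norm_num), Finset.mul_sum]
  push_cast
  refine Finset.sum_congr rfl fun j _ => ?_
  have e : 2 * (1 + j) - 1 = 2 * j + 1 := by omega
  rw [e]
  simp only [Nat.factorial_one, Nat.cast_one]
  rw [pow_succ (z : ℝ) (2 * j), pow_mul (z : ℝ) 2 j]
  ring

theorem taylor_err {x : ℝ} (hx : |x| ≤ 15708 / 10000) :
    |sin x - ∑ j ∈ range 7, (-1) ^ j * x ^ (2 * j + 1) / ((2 * j + 1).factorial : ℝ)| * 10 ^ 8 ≤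
      1 / 10 := by
  have key : ∀ y : ℝ, 0 ≤ y → y ≤ 15708 / 10000 →
      |sin y - ∑ j ∈ range 7, (-1) ^ j * y ^ (2 * j + 1) / ((2 * j + 1).factorial : ℝ)| * 10 ^ 8 ≤
      1 / 10 := by
    intro y h0 h1
    have h := abs_sin_sub_le 7 h0
    have h2 : y ^ (2 * 7 + 1) ≤ (15708 / 10000) ^ (2 * 7 + 1) := pow_le_pow_left₀ h0 h1 _
    have h3 : y ^ (2 * 7 + 1) / ((2 * 7 + 1).factorial : ℝ) ≤
        (15708 / 10000) ^ (2 * 7 + 1) / ((2 * 7 + 1).factorial : ℝ) := by gcongr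
    have h4 : (15708 / 10000 : ℝ) ^ (2 * 7 + 1) / ((2 * 7 + 1).factorial : ℝ) * 10 ^ 8 ≤ 1 / 10 := by
      norm_num [Nat.factorial]
    (clear * - h h2 h3 h4; nlinarith [h, h3, h4])
  rcases le_total 0 x with h0 | h0
  · rw [abs_of_nonneg h0] at hx
    exact key x h0 hx
  · rw [abs_of_nonpos h0] at hx
    have h := key (-x) (by linarith) hx
    have e : sin (-x) - ∑ j ∈ range 7, (-1) ^ j * (-x) ^ (2 * j + 1) / ((2 * j + 1).factorial : ℝ) =
        -(sin x - ∑ j ∈ range 7, (-1) ^ j * x ^ (2 * j + 1) / ((2 * j + 1).factorial : ℝ)) := by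
      rw [sin_neg, neg_sub, Finset.sum_congr rfl (g := fun j =>
        -((-1) ^ j * x ^ (2 * j + 1) / ((2 * j + 1).factorial : ℝ)))]
      · rw [Finset.sum_neg_distrib]; ring
      · intro j _
        rw [Odd.neg_pow (⟨j, rfl⟩ : Odd (2 * j + 1))]
        ring
    rw [e, abs_neg] at h
    exact h

theorem sinZ_sound {z : ℚ} (hz : |(z : ℝ)| ≤ 15708 / 10000) :
    |sin (z : ℝ) * 10 ^ 8 - ((sinZ z : ℤ) : ℝ)| ≤ 11 / 10 := by
  rw [sinZ_eq]
  set v : ℚ := 10 ^ 8 * (z * sinAux (z ^ 2) 6 1) with hv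
  have h1 : ((⌊v⌋ : ℤ) : ℝ) ≤ (v : ℝ) := by exact_mod_cast Int.floor_le v
  have h2 : (v : ℝ) < ((⌊v⌋ : ℤ) : ℝ) + 1 := by exact_mod_cast Int.lt_floor_add_one v
  have h3 : (v : ℝ) = 10 ^ 8 * ((z * sinAux (z ^ 2) 6 1 : ℚ) : ℝ) := by rw [hv]; push_cast; ring
  rw [taylor] at h3
  have h4 := taylor_err hz
  have h5 : |(sin (z : ℝ) - ∑ j ∈ range 7, (-1) ^ j * (z : ℝ) ^ (2 * j + 1) /
      ((2 * j + 1).factorial : ℝ)) * 10 ^ 8| ≤ 1 / 10 := by
    rw [abs_mul, abs_of_pos (by norm_num : (0 : ℝ) < 10 ^ 8)]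
    exact h4
  rw [abs_le] at h5 ⊢
  constructor <;> (clear * - h1 h3 h5 h2; linarith [h5.1, h5.2])

theorem sin_sub_int_mul_pi (x : ℝ) (j : ℤ) :
    sin x = (if j % 2 = 0 then 1 else -1) * sin (x - j * π) := by
  rw [Real.sin_sub_int_mul_pi]
  rcases Int.emod_two_eq_zero_or_one j with h | h
  · rw [if_pos h, Even.neg_one_zpow (Int.even_iff.mpr h)]; ring
  · rw [if_neg (by omega), Odd.neg_one_zpow (Int.odd_iff.mpr h)]; ring

end SinR

theorem sinR_sound {y : ℚ} (h0 : 0 ≤ y) (h1 : y ≤ 60) :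
    |sin (y : ℝ) * 10 ^ 8 - ((sinR y : ℤ) : ℝ)| ≤ 3 := by
  set j : ℤ := ⌊y / PIQ + 1 / 2⌋ with hj
  set z : ℚ := y - j * PIQ with hz
  have hP : (0 : ℚ) < PIQ := by unfold PIQ; norm_num
  have hPr : ((PIQ : ℚ) : ℝ) = 3141592654 / 1000000000 := by unfold PIQ; norm_num
  have hj1 : (j : ℚ) ≤ y / PIQ + 1 / 2 := Int.floor_le _
  have hj2 : y / PIQ + 1 / 2 < (j : ℚ) + 1 := Int.lt_floor_add_one _
  have hyP : y / PIQ * PIQ = y := div_mul_cancel₀ _ hP.ne'
  have hz1 : z ≤ PIQ / 2 := by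
    rw [hz]; (clear * - hyP hP hj2; nlinarith)
  have hz2 : -(PIQ / 2) ≤ z := by
    rw [hz]; (clear * - hyP hP hj1; nlinarith)
  have hj0 : 0 ≤ j := by
    rw [hj]
    apply Int.floor_nonneg.mpr
    (clear * - h0 hP; positivity)
  have hj20 : j ≤ 20 := by
    have h2 : y / PIQ ≤ 195 / 10 := by
      rw [div_le_iff₀ hP]
      unfold PIQ
      (clear * - h1; linarith)
    have h3 : (j : ℚ) ≤ 20 := by (clear * - hj1 h2; linarith)
    exact_mod_cast h3
  have hzr : |(z : ℝ)| ≤ 15708 / 10000 := by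
    have h3 : (z : ℝ) ≤ ((PIQ / 2 : ℚ) : ℝ) := Rat.cast_le.mpr hz1
    have h4 : ((-(PIQ / 2) : ℚ) : ℝ) ≤ (z : ℝ) := Rat.cast_le.mpr hz2
    push_cast at h3 h4
    rw [hPr] at h3 h4
    rw [abs_le]
    constructor <;> (clear * - h4 h3; linarith)
  have hs := SinR.sinZ_sound hzr
  have hd : |((y : ℝ) - j * π) - (z : ℝ)| ≤ 20 * (5 / 10 ^ 10) := by
    have e : ((y : ℝ) - j * π) - (z : ℝ) = j * (((PIQ : ℚ) : ℝ) - π) := by
      rw [hz]; push_cast; ring
    rw [e, abs_mul]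
    have h5 : |((j : ℤ) : ℝ)| ≤ 20 := by
      rw [abs_of_nonneg (by exact_mod_cast hj0)]
      exact_mod_cast hj20
    have h6 : |((PIQ : ℚ) : ℝ) - π| ≤ 5 / 10 ^ 10 := by
      rw [hPr, abs_le]
      have := Real.pi_gt_d20
      have := Real.pi_lt_d20
      constructor <;> linarith
    exact mul_le_mul h5 h6 (abs_nonneg _) (by norm_num)
  have hsd : |sin ((y : ℝ) - j * π) - sin (z : ℝ)| ≤ 20 * (5 / 10 ^ 10) :=
    (Real.abs_sin_sub_sin_le _ _).trans hd
  have hmain : |sin ((y : ℝ) - j * π) * 10 ^ 8 - ((sinZ z : ℤ) : ℝ)| ≤ 3 := by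
    rw [abs_le] at hsd hs ⊢
    constructor <;> linarith [hsd.1, hsd.2, hs.1, hs.2]
  have hR : sinR y = if j % 2 = 0 then sinZ z else -sinZ z := rfl
  rw [hR, SinR.sin_sub_int_mul_pi (y : ℝ) j]
  split_ifs with hc
  · rw [one_mul]; exact hmain
  · push_cast
    rw [← abs_neg]
    convert hmain using 2
    ring

theorem aSin_sound {y : ℚ} (h0 : 0 ≤ y) (h1 : y ≤ 60) : |sin (y : ℝ)| ≤ ((aSin y : ℚ) : ℝ) := by
  have h := sinR_sound h0 h1
  unfold aSin
  push_cast
  rw [le_div_iff₀ (by norm_num)]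
  have e : ((sinR y).natAbs : ℝ) = |((sinR y : ℤ) : ℝ)| := by
    rw [Nat.cast_natAbs, Int.cast_abs]
  rw [e]
  have h2 : |sin (y : ℝ)| * 100000000 = |sin (y : ℝ) * 10 ^ 8| := by
    rw [abs_mul]; norm_num
  rw [h2]
  have h3 := abs_add_le (sin (y : ℝ) * 10 ^ 8 - ((sinR y : ℤ) : ℝ)) ((sinR y : ℤ) : ℝ)
  rw [sub_add_cancel] at h3
  linarith

theorem sinL_sound {y : ℚ} (h0 : 0 ≤ y) (h1 : y ≤ 60) : ((sinL y : ℚ) : ℝ) ≤ sin (y : ℝ) := by
  have h := abs_le.mp (sinR_sound h0 h1)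
  unfold sinL
  push_cast
  rw [div_le_iff₀ (by norm_num)]
  linarith [h.1, h.2]

theorem sinU_sound {y : ℚ} (h0 : 0 ≤ y) (h1 : y ≤ 60) : sin (y : ℝ) ≤ ((sinU y : ℚ) : ℝ) := by
  have h := abs_le.mp (sinR_sound h0 h1)
  unfold sinU
  push_cast
  rw [le_div_iff₀ (by norm_num)]
  linarith [h.1, h.2]

theorem le_sinL {y : ℚ} (h0 : 0 ≤ y) (h1 : y ≤ 60) :
    sin (y : ℝ) - 6 / 10 ^ 8 ≤ ((sinL y : ℚ) : ℝ) := by
  have h := abs_le.mp (sinR_sound h0 h1)
  unfold sinL
  push_cast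
  rw [le_div_iff₀ (by norm_num)]
  (clear * - h; linarith [h.1, h.2])

theorem aSin_nonneg (y : ℚ) : 0 ≤ aSin y := by
  unfold aSin
  (clear * -; positivity)

end Pool.Agent.M18.Helper95.SP.Crude
end

/- Helper95.SP.Crude.SupQ -/
section
/-!
Bounds for `|sin|` on intervals and rounded square roots.
-/

set_option autoImplicit false

namespace Pool.Agent.M18.Helper95.SP.Crude

open Real Finset

/-- the interpolation identity -/
private theorem supq_id (a b y : ℝ) :
    sin y * sin (b - a) = sin (b - y) * sin a + sin (y - a) * sin b := by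
  rw [sin_sub, sin_sub, sin_sub]
  have := sin_sq_add_cos_sq y
  ring_nf

private theorem supq_core {a b y m : ℝ} (h1 : a ≤ y) (h2 : y ≤ b) (h : b - a ≤ 1) (hm : 0 ≤ m)
    (ha : sin a ≤ m) (hb : sin b ≤ m) : sin y ≤ m * (1 + (b - a) ^ 2 / 6) := by
  rcases (h1.trans h2).eq_or_lt with hab | hab
  · have : y = a := le_antisymm (by rw [hab]; exact h2) h1
    subst this
    (clear * - ha hm; nlinarith [sq_nonneg (b - y)])
  · set g := b - a with hg
    have hg0 : 0 < g := by rw [hg]; linarith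
    have hpi := pi_gt_three
    have s1 : 0 ≤ sin (b - y) := sin_nonneg_of_nonneg_of_le_pi (by linarith) (by linarith)
    have s2 : 0 ≤ sin (y - a) := sin_nonneg_of_nonneg_of_le_pi (by linarith) (by linarith)
    have s3 : 0 < sin (g / 2) := sin_pos_of_pos_of_lt_pi (by (clear * - hab; linarith)) (by linarith)
    have c1 : 1 - (g / 2) ^ 2 / 2 ≤ cos (g / 2) := one_sub_sq_div_two_le_cos
    have h3 : sin y * sin g ≤ m * (sin (b - y) + sin (y - a)) := by
      rw [hg, supq_id a b y]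
      have i1 := mul_le_mul_of_nonneg_left ha s1
      have i2 := mul_le_mul_of_nonneg_left hb s2
      (clear * - i1 i2; linarith)
    have h4 : sin (b - y) + sin (y - a) ≤ 2 * sin (g / 2) := by
      have e : sin (b - y) + sin (y - a) = 2 * sin (g / 2) * cos ((b + a) / 2 - y) := by
        have e1 : b - y = g / 2 + ((b + a) / 2 - y) := by rw [hg]; ring
        have e2 : y - a = g / 2 - ((b + a) / 2 - y) := by rw [hg]; ring
        rw [e1, e2, sin_add (g / 2) ((b + a) / 2 - y), sin_sub (g / 2) ((b + a) / 2 - y)]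
        ring
      rw [e]
      have := cos_le_one ((b + a) / 2 - y)
      (clear * - s3 this; nlinarith)
    have h5 : sin g = 2 * sin (g / 2) * cos (g / 2) := by
      have : g = 2 * (g / 2) := by ring
      conv_lhs => rw [this]
      exact sin_two_mul _
    have h6 : sin y * cos (g / 2) ≤ m := by
      have h7 : sin y * sin g ≤ m * (2 * sin (g / 2)) :=
        h3.trans (mul_le_mul_of_nonneg_left h4 hm)
      rw [h5] at h7
      have h8 : (sin y * cos (g / 2)) * (2 * sin (g / 2)) ≤ m * (2 * sin (g / 2)) := by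
        calc _ = sin y * (2 * sin (g / 2) * cos (g / 2)) := by ring
          _ ≤ _ := h7
      exact le_of_mul_le_mul_right h8 (by positivity)
    rcases le_total (sin y) 0 with hs | hs
    · exact hs.trans (by (clear * - hm hab; positivity))
    · have hcp : 0 < cos (g / 2) := by (clear * - h c1 h1 h2; nlinarith)
      have h9 : 1 ≤ cos (g / 2) * (1 + g ^ 2 / 6) := by
        (clear * - c1 hab h h1 h2; nlinarith [mul_le_mul_of_nonneg_right c1 (by positivity : 0 ≤ 1 + g ^ 2 / 6), sq_nonneg g,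
          mul_nonneg (sq_nonneg g) (by nlinarith : 0 ≤ 1 - g ^ 2)])
      have h10 := mul_le_mul_of_nonneg_right h6 (by positivity : 0 ≤ 1 + g ^ 2 / 6)
      have h11 := mul_le_mul_of_nonneg_left h9 hs
      (clear * - h10 h11; nlinarith)

private theorem supq_low {a b y m : ℝ} (h1 : a ≤ y) (h2 : y ≤ b) (h : b - a ≤ 1) (hm : 0 ≤ m)
    (ha : m ≤ sin a) (hb : m ≤ sin b) : m ≤ sin y := by
  rcases (h1.trans h2).eq_or_lt with hab | hab
  · have : y = a := le_antisymm (by rw [hab]; exact h2) h1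
    subst this
    exact ha
  · have hpi := pi_gt_three
    have s1 : 0 ≤ sin (b - y) := sin_nonneg_of_nonneg_of_le_pi (by (clear * - h2; linarith)) (by (clear * - h1 h hpi; linarith))
    have s2 : 0 ≤ sin (y - a) := sin_nonneg_of_nonneg_of_le_pi (by (clear * - h1; linarith)) (by (clear * - h2 h hpi; linarith))
    have s3 : 0 < sin (b - a) := sin_pos_of_pos_of_lt_pi (by linarith) (by linarith)
    have h4 : sin (b - a) ≤ sin (b - y) + sin (y - a) := by
      have e : b - a = (b - y) + (y - a) := by ring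
      rw [e, sin_add]
      have i1 := mul_le_mul_of_nonneg_left (cos_le_one (y - a)) s1
      have i2 := mul_le_mul_of_nonneg_right (cos_le_one (b - y)) s2
      linarith
    have h3 : m * sin (b - a) ≤ sin y * sin (b - a) := by
      rw [supq_id a b y]
      have i1 := mul_le_mul_of_nonneg_left ha s1
      have i2 := mul_le_mul_of_nonneg_left hb s2
      have i3 := mul_le_mul_of_nonneg_left h4 hm
      linarith
    exact le_of_mul_le_mul_right h3 s3

private theorem supq_low_neg {a b y m : ℝ} (h1 : a ≤ y) (h2 : y ≤ b) (h : b - a ≤ 1) (hm : 0 ≤ m)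
    (ha : m ≤ -sin a) (hb : m ≤ -sin b) : m ≤ -sin y := by
  have := supq_low (a := -b) (b := -a) (y := -y) (m := m) (by linarith) (by (clear * - h1; linarith))
    (by linarith) hm (by rw [sin_neg]; exact hb) (by rw [sin_neg]; exact ha)
  rwa [sin_neg] at this

theorem supA_sound {a b : ℚ} {y : ℝ} (h0 : 0 ≤ a) (hb : b ≤ 60) (h1 : (a : ℝ) ≤ y)
    (h2 : y ≤ (b : ℝ)) : |sin y| ≤ ((supA a b : ℚ) : ℝ) := by
  have hab : a ≤ b := by exact_mod_cast h1.trans h2
  unfold supA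
  split_ifs with h
  · push_cast
    refine le_min (abs_sin_le_one y) ?_
    have h3 : (b : ℝ) - a ≤ 1 := by exact_mod_cast h
    refine (abs_sin_le_max h1 h2 h3).trans ?_
    refine mul_le_mul_of_nonneg_right ?_ (by (clear * -; positivity))
    exact max_le_max (aSin_sound h0 (hab.trans hb)) (aSin_sound (h0.trans hab) hb)
  · push_cast
    exact abs_sin_le_one y

theorem supP_sound {a b : ℚ} {y : ℝ} (h0 : 0 ≤ a) (hb : b ≤ 60) (h1 : (a : ℝ) ≤ y)
    (h2 : y ≤ (b : ℝ)) : sin y ≤ ((supP a b : ℚ) : ℝ) := by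
  have hab : a ≤ b := by exact_mod_cast h1.trans h2
  unfold supP
  split_ifs with h
  · push_cast
    refine le_min (sin_le_one y) ?_
    have h3 : (b : ℝ) - a ≤ 1 := by exact_mod_cast h
    exact supq_core h1 h2 h3 (le_max_left _ _)
      ((sinU_sound h0 (hab.trans hb)).trans ((le_max_left _ _).trans (le_max_right _ _)))
      ((sinU_sound (h0.trans hab) hb).trans ((le_max_right _ _).trans (le_max_right _ _)))
  · push_cast
    exact sin_le_one y

theorem infA_sound {a b : ℚ} {y : ℝ} (h0 : 0 ≤ a) (hb : b ≤ 60) (h1 : (a : ℝ) ≤ y)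
    (h2 : y ≤ (b : ℝ)) : ((infA a b : ℚ) : ℝ) ≤ |sin y| := by
  have hab : a ≤ b := by exact_mod_cast h1.trans h2
  unfold infA
  split_ifs with h
  · push_cast
    have h3 : (b : ℝ) - a ≤ 1 := by exact_mod_cast h
    refine max_le (abs_nonneg _) (max_le ?_ ?_)
    · rcases le_total (min ((sinL a : ℚ) : ℝ) ((sinL b : ℚ) : ℝ)) 0 with hm | hm
      · exact hm.trans (abs_nonneg _)
      · exact (supq_low h1 h2 h3 hm ((min_le_left _ _).trans (sinL_sound h0 (hab.trans hb)))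
          ((min_le_right _ _).trans (sinL_sound (h0.trans hab) hb))).trans (le_abs_self _)
    · rcases le_total (min (-((sinU a : ℚ) : ℝ)) (-((sinU b : ℚ) : ℝ))) 0 with hm | hm
      · exact hm.trans (abs_nonneg _)
      · exact (supq_low_neg h1 h2 h3 hm
          ((min_le_left _ _).trans (neg_le_neg (sinU_sound h0 (hab.trans hb))))
          ((min_le_right _ _).trans (neg_le_neg (sinU_sound (h0.trans hab) hb)))).trans
          (neg_le_abs _)
  · push_cast
    exact abs_nonneg _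

theorem supA_nonneg (a b : ℚ) : 0 ≤ supA a b := by
  unfold supA
  split_ifs
  · exact le_min zero_le_one (mul_nonneg ((aSin_nonneg a).trans (le_max_left _ _)) (by positivity))
  · exact zero_le_one

theorem supP_nonneg (a b : ℚ) : 0 ≤ supP a b := by
  unfold supP
  split_ifs
  · exact le_min zero_le_one (mul_nonneg (le_max_left _ _) (by (clear * -; positivity)))
  · exact zero_le_one

theorem infA_nonneg (a b : ℚ) : 0 ≤ infA a b := by
  unfold infA
  split_ifs
  · exact le_max_left _ _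
  · exact le_refl _

theorem sqL_nonneg (x : ℚ) : 0 ≤ sqL x := by
  unfold sqL
  (clear * -; positivity)

theorem sqL_sound {x : ℚ} {C : ℝ} (h0 : 0 ≤ C) (h : (x : ℝ) ≤ C ^ 2) : ((sqL x : ℚ) : ℝ) ≤ C := by
  unfold sqL
  set n := (⌊x * 10 ^ 12⌋).toNat with hn
  have hsq : ((Nat.sqrt n : ℕ) : ℝ) ^ 2 ≤ (n : ℝ) := by exact_mod_cast Nat.sqrt_le' n
  have hnC : (n : ℝ) ≤ (C * 10 ^ 6) ^ 2 := by
    have hC : 0 ≤ (C * 10 ^ 6) ^ 2 := by positivity
    rcases le_total 0 ⌊x * 10 ^ 12⌋ with h1 | h1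
    · have h2 : ((n : ℤ) : ℚ) ≤ x * 10 ^ 12 := by
        rw [hn, Int.toNat_of_nonneg h1]
        exact Int.floor_le _
      have h3 : ((n : ℕ) : ℝ) ≤ (x : ℝ) * 10 ^ 12 := by exact_mod_cast h2
      nlinarith
    · have h2 : n = 0 := by rw [hn]; exact Int.toNat_of_nonpos h1
      rw [h2]
      simpa using hC
  have h4 : ((Nat.sqrt n : ℕ) : ℝ) ≤ C * 10 ^ 6 :=
    le_of_sq_le_sq (hsq.trans hnC) (by positivity)
  push_cast
  rw [div_le_iff₀ (by positivity)]
  exact h4

theorem sqU_sound {x : ℚ} {C : ℝ} (h : C ^ 2 ≤ (x : ℝ)) : C ≤ ((sqU x : ℚ) : ℝ) := by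
  unfold sqU
  set n := (⌈x * 10 ^ 12⌉).toNat with hn
  have hsq : (n : ℝ) < ((Nat.sqrt n : ℕ) + 1 : ℝ) ^ 2 := by exact_mod_cast Nat.lt_succ_sqrt' n
  have hnC : (C * 10 ^ 6) ^ 2 ≤ (n : ℝ) := by
    have h2 : x * 10 ^ 12 ≤ ((n : ℤ) : ℚ) :=
      (Int.le_ceil _).trans (by exact_mod_cast Int.self_le_toNat _)
    have h3 : (x : ℝ) * 10 ^ 12 ≤ ((n : ℕ) : ℝ) := by exact_mod_cast h2
    (clear * - h h3; nlinarith)
  have h4 : C * 10 ^ 6 ≤ ((Nat.sqrt n : ℕ) : ℝ) + 1 :=
    le_of_sq_le_sq (hnC.trans hsq.le) (by (clear * -; positivity))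
  push_cast
  rw [le_div_iff₀ (by positivity)]
  exact h4

theorem sqU_le {x y : ℚ} (hy : 0 ≤ y) (h : x ≤ y ^ 2) : sqU x ≤ y + 3 / 10 ^ 6 := by
  unfold sqU
  set n := (⌈x * 10 ^ 12⌉).toNat with hn
  have hsq : ((Nat.sqrt n : ℕ) : ℚ) ^ 2 ≤ (n : ℚ) := by exact_mod_cast Nat.sqrt_le' n
  have hnC : (n : ℚ) ≤ (y * 10 ^ 6 + 1) ^ 2 := by
    have hC : 0 ≤ (y * 10 ^ 6 + 1) ^ 2 := by (clear * - hy; positivity)
    rcases le_total 0 ⌈x * 10 ^ 12⌉ with h1 | h1
    · have h2 : ((n : ℤ) : ℚ) < x * 10 ^ 12 + 1 := by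
        rw [hn, Int.toNat_of_nonneg h1]
        exact Int.ceil_lt_add_one _
      have h3 : ((n : ℕ) : ℚ) < x * 10 ^ 12 + 1 := by exact_mod_cast h2
      (clear * - hy h h3; nlinarith)
    · have h2 : n = 0 := by rw [hn]; exact Int.toNat_of_nonpos h1
      rw [h2]
      simpa using hC
  have h4 : ((Nat.sqrt n : ℕ) : ℚ) ≤ y * 10 ^ 6 + 1 :=
    le_of_sq_le_sq (hsq.trans hnC) (by (clear * - hy; positivity))
  rw [div_le_iff₀ (by positivity)]
  have e : (y + 3 / 10 ^ 6) * 10 ^ 6 = y * 10 ^ 6 + 3 := by ring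
  rw [e]
  (clear * - h4; linarith)

end Pool.Agent.M18.Helper95.SP.Crude
end

/- Helper95.SP.Crude.Psi3 -/
section
/-! SP-wave, module Psi3 (MP_66ebcc): the ratio `sinc (3 x) / sinc x`. -/

set_option autoImplicit false

namespace Pool.Agent.M18.Helper95.SP.Crude

open Real Finset Filter Topology

namespace Psi3

/-! ### Monotonicity helpers -/

theorem le_of_deriv_nonneg {f f' : ℝ → ℝ} (hf : ∀ y, HasDerivAt f (f' y) y) {a b : ℝ} (hab : a ≤ b)
    (h' : ∀ y, a ≤ y → y ≤ b → 0 ≤ f' y) : f a ≤ f b := by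
  have h1 : MonotoneOn f (Set.Icc a b) := by
    refine monotoneOn_of_deriv_nonneg (convex_Icc a b)
      (fun y _ => (hf y).continuousAt.continuousWithinAt)
      (fun y _ => (hf y).differentiableAt.differentiableWithinAt) ?_
    intro y hy
    rw [interior_Icc] at hy
    rw [(hf y).deriv]
    exact h' y hy.1.le hy.2.le
  exact h1 (Set.left_mem_Icc.2 hab) (Set.right_mem_Icc.2 hab) hab

/-! ### Taylor polynomials of `sin` and `cos` -/

noncomputable def tc (n : ℕ) (y : ℝ) : ℝ :=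
  ∑ j ∈ range n, (-1) ^ j * y ^ (2 * j) / ((2 * j).factorial : ℝ)

noncomputable def ts (n : ℕ) (y : ℝ) : ℝ :=
  ∑ j ∈ range n, (-1) ^ j * y ^ (2 * j + 1) / ((2 * j + 1).factorial : ℝ)

theorem hasDerivAt_ts (n : ℕ) (y : ℝ) : HasDerivAt (ts n) (tc n y) y := by
  unfold tc
  have h : HasDerivAt (fun y : ℝ => ∑ j ∈ range n,
      (-1) ^ j * y ^ (2 * j + 1) / ((2 * j + 1).factorial : ℝ)) (∑ j ∈ range n,
      (-1) ^ j * (((2 * j + 1 : ℕ) : ℝ) * y ^ (2 * j + 1 - 1)) / ((2 * j + 1).factorial : ℝ)) y := by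
    refine HasDerivAt.fun_sum fun j _ => ?_
    exact ((hasDerivAt_pow (2 * j + 1) y).const_mul _).div_const _
  refine h.congr_deriv (sum_congr rfl fun j _ => ?_)
  rw [Nat.add_sub_cancel, Nat.factorial_succ]
  have h1 : ((2 * j).factorial : ℝ) ≠ 0 := by exact_mod_cast (Nat.factorial_pos _).ne'
  have h2 : ((2 * j + 1 : ℕ) : ℝ) ≠ 0 := Nat.cast_ne_zero.2 (Nat.succ_ne_zero (2 * j))
  rw [Nat.cast_mul]
  field_simp

theorem hasDerivAt_tc (n : ℕ) (y : ℝ) : HasDerivAt (tc (n + 1)) (-ts n y) y := by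
  unfold ts
  have h : HasDerivAt (fun y : ℝ => ∑ j ∈ range (n + 1),
      (-1) ^ j * y ^ (2 * j) / ((2 * j).factorial : ℝ)) (∑ j ∈ range (n + 1),
      (-1) ^ j * (((2 * j : ℕ) : ℝ) * y ^ (2 * j - 1)) / ((2 * j).factorial : ℝ)) y := by
    refine HasDerivAt.fun_sum fun j _ => ?_
    exact ((hasDerivAt_pow (2 * j) y).const_mul _).div_const _
  refine h.congr_deriv ?_
  rw [sum_range_succ']
  simp only [Nat.cast_zero, zero_mul, mul_zero, zero_div, add_zero]
  rw [← sum_neg_distrib]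
  refine sum_congr rfl fun j _ => ?_
  have e : 2 * (j + 1) = (2 * j + 1) + 1 := by ring
  rw [e, Nat.add_sub_cancel, Nat.factorial_succ (2 * j + 1)]
  have h1 : ((2 * j + 1).factorial : ℝ) ≠ 0 := by exact_mod_cast (Nat.factorial_pos _).ne'
  have h2 : ((2 * j + 1 + 1 : ℕ) : ℝ) ≠ 0 := Nat.cast_ne_zero.2 (Nat.succ_ne_zero (2 * j + 1))
  rw [Nat.cast_mul, pow_succ]
  field_simp

theorem tc_zero (n : ℕ) : tc (n + 1) 0 = 1 := by
  unfold tc
  rw [sum_range_succ']
  have : ∑ j ∈ range n, (-1 : ℝ) ^ (j + 1) * 0 ^ (2 * (j + 1)) / ((2 * (j + 1)).factorial : ℝ) = 0 := by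
    refine sum_eq_zero fun j _ => ?_
    rw [zero_pow (by positivity)]
    simp
  rw [this]
  simp

theorem ts_zero (n : ℕ) : ts n 0 = 0 := by
  unfold ts
  refine sum_eq_zero fun j _ => ?_
  rw [zero_pow (by (clear * -; positivity))]
  simp

theorem alt (n : ℕ) :
    (∀ y : ℝ, 0 ≤ y → 0 ≤ (-1 : ℝ) ^ (n + 1) * (cos y - tc (n + 1) y)) ∧
      ∀ y : ℝ, 0 ≤ y → 0 ≤ (-1 : ℝ) ^ (n + 1) * (sin y - ts (n + 1) y) := by
  have key : ∀ n : ℕ, (∀ y : ℝ, 0 ≤ y → 0 ≤ (-1 : ℝ) ^ (n + 1) * (cos y - tc (n + 1) y)) →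
      ∀ y : ℝ, 0 ≤ y → 0 ≤ (-1 : ℝ) ^ (n + 1) * (sin y - ts (n + 1) y) := by
    intro n h y hy
    have h1 := le_of_deriv_nonneg (f := fun y => (-1 : ℝ) ^ (n + 1) * (sin y - ts (n + 1) y))
      (f' := fun y => (-1 : ℝ) ^ (n + 1) * (cos y - tc (n + 1) y))
      (fun y => ((hasDerivAt_sin y).sub (hasDerivAt_ts (n + 1) y)).const_mul _) hy
      (fun z hz _ => h z hz)
    simpa [ts_zero] using h1
  induction n with
  | zero =>
    have h0 : ∀ y : ℝ, 0 ≤ y → 0 ≤ (-1 : ℝ) ^ (0 + 1) * (cos y - tc (0 + 1) y) := by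
      intro y _
      have : tc (0 + 1) y = 1 := by simp [tc]
      rw [this]
      have := cos_le_one y
      norm_num
      exact this
    exact ⟨h0, key 0 h0⟩
  | succ n ih =>
    have h0 : ∀ y : ℝ, 0 ≤ y → 0 ≤ (-1 : ℝ) ^ (n + 1 + 1) * (cos y - tc (n + 1 + 1) y) := by
      intro y hy
      have h1 := le_of_deriv_nonneg
        (f := fun y => (-1 : ℝ) ^ (n + 1 + 1) * (cos y - tc (n + 1 + 1) y))
        (f' := fun y => (-1 : ℝ) ^ (n + 1 + 1) * (-sin y - -ts (n + 1) y))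
        (fun y => ((hasDerivAt_cos y).sub (hasDerivAt_tc (n + 1) y)).const_mul _) hy
        (fun z hz _ => by
          have := ih.2 z hz
          rw [pow_succ]
          linarith)
      simpa [tc_zero] using h1
    exact ⟨h0, key (n + 1) h0⟩

/-- the polynomial upper bound for `sin x ^ 2` -/
theorem sin_sq_le {x : ℝ} (hx : 0 ≤ x) :
    sin x ^ 2 ≤ x ^ 2 - x ^ 4 / 3 + 2 * x ^ 6 / 45 - x ^ 8 / 315 + 2 * x ^ 10 / 14175 := by
  have h := (alt 5).1 (2 * x) (by positivity)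
  have h2 : cos (2 * x) = 1 - 2 * sin x ^ 2 := by
    rw [cos_two_mul, cos_sq']
    ring
  have h3 : tc (5 + 1) (2 * x) = 1 - 2 * (x ^ 2 - x ^ 4 / 3 + 2 * x ^ 6 / 45 - x ^ 8 / 315 +
      2 * x ^ 10 / 14175) := by
    unfold tc
    simp only [sum_range_succ, sum_range_zero, Nat.factorial]
    push_cast
    ring
  rw [h2, h3] at h
  norm_num at h
  linarith

/-! ### The one variable inequality -/

/-- `1 - (4/3) sin² x` is at least this polynomial in `v = x²` -/
noncomputable def P (v : ℝ) : ℝ :=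
  1 - 4 / 3 * (v - v ^ 2 / 3 + 2 * v ^ 3 / 45 - v ^ 4 / 315 + 2 * v ^ 5 / 14175)

noncomputable def g (v : ℝ) : ℝ := 4 / 3 * v + 4 / 9 * v ^ 2 + 2569 / 10000 * v ^ 3 + 3 / 10 * v ^ 4

noncomputable def T (v : ℝ) : ℝ :=
  (16 / 945 + 6 / 5 - 4 / 3 * (7707 / 10000) + 32 / 81 - 32 / 405) +
  (-8 / 8505 - 8 / 5 + 4 / 9 * (7707 / 10000) - 64 / 1215 + 16 / 2835) * v +
  (8 / 15 - 8 / 135 * (7707 / 10000) + 32 / 8505 - 32 / 127575) * v ^ 2 +
  (-48 / 675 + 4 / 945 * (7707 / 10000) - 64 / 382725) * v ^ 3 +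
  (24 / 4725 - 8 / 42525 * (7707 / 10000)) * v ^ 4 - 48 / 212625 * v ^ 5

noncomputable def R (v : ℝ) : ℝ :=
  (-8 / 45 + 7707 / 10000 - 32 / 27 + 16 / 27) + v * T v

theorem hasDerivAt_P (v : ℝ) : HasDerivAt P
    (-(4 / 3 * (1 - 2 * v / 3 + 6 * v ^ 2 / 45 - 4 * v ^ 3 / 315 + 10 * v ^ 4 / 14175))) v := by
  have h1 := ((((hasDerivAt_id v).sub ((hasDerivAt_pow 2 v).div_const 3)).add
    (((hasDerivAt_pow 3 v).const_mul 2).div_const 45)).sub ((hasDerivAt_pow 4 v).div_const 315)).add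
    (((hasDerivAt_pow 5 v).const_mul 2).div_const 14175)
  have h2 := (h1.const_mul (4 / 3)).const_sub 1
  refine h2.congr_deriv ?_
  norm_num
  ring

theorem hasDerivAt_g (v : ℝ) : HasDerivAt g
    (4 / 3 + 8 / 9 * v + 7707 / 10000 * v ^ 2 + 12 / 10 * v ^ 3) v := by
  have h1 := ((((hasDerivAt_id v).const_mul (4 / 3)).add ((hasDerivAt_pow 2 v).const_mul (4 / 9))).add
    ((hasDerivAt_pow 3 v).const_mul (2569 / 10000))).add ((hasDerivAt_pow 4 v).const_mul (3 / 10))
  refine h1.congr_deriv ?_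
  norm_num
  ring

theorem hasDerivAt_F (v : ℝ) : HasDerivAt (fun v => P v * exp (g v)) (v ^ 2 * R v * exp (g v)) v := by
  have h := (hasDerivAt_P v).mul (hasDerivAt_g v).exp
  refine h.congr_deriv ?_
  unfold R T P
  ring

theorem T_anti {u w : ℝ} (hu : 0 ≤ u) (huw : u ≤ w) (hw : w ≤ 56 / 100) : T w ≤ T u := by
  have h := le_of_deriv_nonneg (f := fun v => -T v) (f' := fun v =>
    -((-8 / 8505 - 8 / 5 + 4 / 9 * (7707 / 10000) - 64 / 1215 + 16 / 2835) +
    (8 / 15 - 8 / 135 * (7707 / 10000) + 32 / 8505 - 32 / 127575) * (2 * v) +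
    (-48 / 675 + 4 / 945 * (7707 / 10000) - 64 / 382725) * (3 * v ^ 2) +
    (24 / 4725 - 8 / 42525 * (7707 / 10000)) * (4 * v ^ 3) - 48 / 212625 * (5 * v ^ 4)))
    (fun v => by
      have h1 := (((((hasDerivAt_const v (16 / 945 + 6 / 5 - 4 / 3 * (7707 / 10000) + 32 / 81 -
        32 / 405 : ℝ)).add ((hasDerivAt_id v).const_mul
        (-8 / 8505 - 8 / 5 + 4 / 9 * (7707 / 10000) - 64 / 1215 + 16 / 2835))).add
        ((hasDerivAt_pow 2 v).const_mul (8 / 15 - 8 / 135 * (7707 / 10000) + 32 / 8505 - 32 / 127575))).add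
        ((hasDerivAt_pow 3 v).const_mul (-48 / 675 + 4 / 945 * (7707 / 10000) - 64 / 382725))).add
        ((hasDerivAt_pow 4 v).const_mul (24 / 4725 - 8 / 42525 * (7707 / 10000)))).sub
        ((hasDerivAt_pow 5 v).const_mul (48 / 212625))
      refine h1.neg.congr_deriv ?_
      norm_num) huw ?_
  · simpa using h
  · intro y hy1 hy2
    have hy0 : 0 ≤ y := hu.trans hy1
    have hy3 : y ≤ 56 / 100 := hy2.trans hw
    have e1 : 0 ≤ y ^ 2 := sq_nonneg y
    have e2 : y ^ 3 ≤ 1 := by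
      calc y ^ 3 ≤ (56 / 100 : ℝ) ^ 3 := by (clear * - hy0 hy3; gcongr)
        _ ≤ 1 := by norm_num
    have e3 : 0 ≤ y ^ 4 := by positivity
    (clear * - hw hy2 e1 e2 e3; linarith)

theorem key {v : ℝ} (h0 : 0 ≤ v) (h1 : v ≤ 56 / 100) : 1 ≤ P v * exp (g v) := by
  have hR0 : 0 < (-8 / 45 + 7707 / 10000 - 32 / 27 + 16 / 27 : ℝ) := by norm_num
  by_cases hR : 0 ≤ R v
  · have h2 := le_of_deriv_nonneg hasDerivAt_F h0 (fun u hu huv => by
      have hRu : 0 ≤ R u := by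
        by_cases hT : 0 ≤ T v
        · have := T_anti hu huv h1
          have h3 : 0 ≤ u * T u := mul_nonneg hu (hT.trans this)
          unfold R
          (clear * - h3; linarith)
        · push Not at hT
          have h3 := T_anti hu huv h1
          have h4 : u * T v ≤ u * T u := mul_le_mul_of_nonneg_left h3 hu
          have h5 : v * T v ≤ u * T v := mul_le_mul_of_nonpos_right huv hT.le
          unfold R at hR ⊢
          (clear * - hR h4 h5; linarith)
      exact mul_nonneg (mul_nonneg (sq_nonneg u) hRu) (exp_pos _).le)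
    have h3 : P 0 * exp (g 0) = 1 := by
      unfold P g
      norm_num
    (clear * - h2 h3; linarith)
  · push Not at hR
    have hT : T v < 0 := by
      by_contra h
      push Not at h
      have : 0 ≤ v * T v := mul_nonneg h0 h
      unfold R at hR
      (clear * - hR this; linarith)
    have h2 := le_of_deriv_nonneg (f := fun v => -(P v * exp (g v)))
      (fun u => (hasDerivAt_F u).neg) h1 (fun u hu huv => by
      have hu0 : 0 ≤ u := h0.trans hu
      have hRu : R u ≤ 0 := by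
        have h3 := T_anti h0 hu huv
        have h4 : u * T u ≤ u * T v := mul_le_mul_of_nonneg_left h3 hu0
        have h5 : u * T v ≤ v * T v := mul_le_mul_of_nonpos_right hu hT.le
        unfold R at hR ⊢
        linarith
      have h6 : 0 ≤ u ^ 2 * (-R u) * exp (g u) :=
        mul_nonneg (mul_nonneg (sq_nonneg u) (by (clear * - hRu; linarith))) (exp_pos _).le
      (clear * - h6; linarith))
    have h3 : 1 ≤ P (56 / 100) * exp (g (56 / 100)) := by
      have h4 : 1 / P (56 / 100) ≤ exp (g (56 / 100)) := by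
        refine le_trans ?_ (Real.sum_le_exp_of_nonneg (x := g (56 / 100)) (by unfold g; norm_num) 10)
        unfold P g
        simp only [sum_range_succ, sum_range_zero, Nat.factorial]
        norm_num
      have h5 : 0 < P (56 / 100) := by
        unfold P
        norm_num
      rw [div_le_iff₀ h5] at h4
      (clear * - h4; linarith)
    (clear * - h2 h3; linarith)

end Psi3

/-- log-concavity of `sinc 3x / sinc x` in `x ^ 2` -/
theorem psi3_chord {a b x t : ℝ} (ha : 0 ≤ a) (hb : 0 ≤ b) (hx : 0 ≤ x) (ha' : 9 * a ^ 2 ≤ π ^ 2)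
    (hb' : 9 * b ^ 2 ≤ π ^ 2) (ht0 : 0 ≤ t) (ht1 : t ≤ 1)
    (h : x ^ 2 = (1 - t) * a ^ 2 + t * b ^ 2) :
    (sinc (3 * a) / sinc a) ^ (1 - t) * (sinc (3 * b) / sinc b) ^ t ≤ sinc (3 * x) / sinc x := by
  have hx' : 9 * x ^ 2 ≤ π ^ 2 := by
    rw [h]
    (clear * - ha' ht1 hb' ht0; nlinarith)
  have hπ := pi_pos
  -- positivity of `sinc y` for `9 y ^ 2 ≤ π ^ 2`
  have hpos : ∀ y : ℝ, 0 ≤ y → 9 * y ^ 2 ≤ π ^ 2 → sinc y ≠ 0 := by
    intro y hy hy'
    by_cases h0 : y = 0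
    · rw [h0, sinc_zero]
      exact one_ne_zero
    · rw [sinc_of_ne_zero h0]
      have hy0 : 0 < y := lt_of_le_of_ne hy (Ne.symm h0)
      have hlt : y < π := by (clear * - hy' hπ hy0 hy; nlinarith)
      exact (div_pos (sin_pos_of_pos_of_lt_pi hy0 hlt) hy0).ne'
  have hlim : ∀ y : ℝ, 0 ≤ y → 9 * y ^ 2 ≤ π ^ 2 →
      Tendsto (fun n => pr (-(3 * y) ^ 2) n / pr (-y ^ 2) n) atTop (𝓝 (sinc (3 * y) / sinc y)) :=
    fun y hy hy' => (tendsto_sinc (3 * y)).div (tendsto_sinc y) (hpos y hy hy')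
  -- the factors
  have hfac : ∀ (y : ℝ) (n : ℕ), pr (-(3 * y) ^ 2) n / pr (-y ^ 2) n = ∏ j ∈ range n,
      ((π ^ 2 * ((j : ℝ) + 1) ^ 2 - 9 * y ^ 2) / (π ^ 2 * ((j : ℝ) + 1) ^ 2 - y ^ 2)) := by
    intro y n
    unfold pr
    rw [← prod_div_distrib]
    refine prod_congr rfl fun j _ => ?_
    have hA : (0 : ℝ) < π ^ 2 * ((j : ℝ) + 1) ^ 2 := by (clear * -; positivity)
    have e1 : 1 + -(3 * y) ^ 2 / (π ^ 2 * ((j : ℝ) + 1) ^ 2) =
        (π ^ 2 * ((j : ℝ) + 1) ^ 2 - 9 * y ^ 2) / (π ^ 2 * ((j : ℝ) + 1) ^ 2) := by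
      field_simp
      ring
    have e2 : 1 + -y ^ 2 / (π ^ 2 * ((j : ℝ) + 1) ^ 2) =
        (π ^ 2 * ((j : ℝ) + 1) ^ 2 - y ^ 2) / (π ^ 2 * ((j : ℝ) + 1) ^ 2) := by
      field_simp
      ring
    rw [e1, e2, div_div_div_cancel_right₀ hA.ne']
  have hA1 : ∀ j : ℕ, π ^ 2 ≤ π ^ 2 * ((j : ℝ) + 1) ^ 2 := by
    intro j
    have h1 : (1 : ℝ) ≤ ((j : ℝ) + 1) ^ 2 := by
      have : (1 : ℝ) ≤ (j : ℝ) + 1 := by linarith [Nat.cast_nonneg (α := ℝ) j]
      nlinarith
    (clear * - h1; nlinarith [sq_nonneg π])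
  have hnn : ∀ (y : ℝ), 9 * y ^ 2 ≤ π ^ 2 → ∀ j : ℕ,
      0 ≤ (π ^ 2 * ((j : ℝ) + 1) ^ 2 - 9 * y ^ 2) / (π ^ 2 * ((j : ℝ) + 1) ^ 2 - y ^ 2) := by
    intro y hy j
    have := hA1 j
    refine div_nonneg (by linarith) ?_
    (clear * - hy this; nlinarith [sq_nonneg y])
  have hstep : ∀ n : ℕ, (pr (-(3 * a) ^ 2) n / pr (-a ^ 2) n) ^ (1 - t) *
      (pr (-(3 * b) ^ 2) n / pr (-b ^ 2) n) ^ t ≤ pr (-(3 * x) ^ 2) n / pr (-x ^ 2) n := by
    intro n
    rw [hfac a, hfac b, hfac x, ← Real.finsetProd_rpow _ _ (fun j _ => hnn a ha' j),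
      ← Real.finsetProd_rpow _ _ (fun j _ => hnn b hb' j), ← prod_mul_distrib]
    refine prod_le_prod (fun j _ => mul_nonneg (rpow_nonneg (hnn a ha' j) _)
      (rpow_nonneg (hnn b hb' j) _)) fun j _ => ?_
    refine (geom_mean_le_arith_mean2_weighted (by linarith) ht0 (hnn a ha' j) (hnn b hb' j)
      (by ring)).trans ?_
    have hA := hA1 j
    set A : ℝ := π ^ 2 * ((j : ℝ) + 1) ^ 2
    have hπ2 : 0 < π ^ 2 := by positivity
    have pa : 0 < A - a ^ 2 := by (clear * - ha' hA hπ2; nlinarith [sq_nonneg a])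
    have pb : 0 < A - b ^ 2 := by (clear * - hb' hA hπ2; nlinarith [sq_nonneg b])
    have px : 0 < A - x ^ 2 := by (clear * - hx' hA hπ2; nlinarith [sq_nonneg x])
    have hA0 : 0 < A := by linarith
    have ea : (A - 9 * a ^ 2) / (A - a ^ 2) = 9 - 8 * A / (A - a ^ 2) := by
      field_simp
      ring
    have eb : (A - 9 * b ^ 2) / (A - b ^ 2) = 9 - 8 * A / (A - b ^ 2) := by
      field_simp
      ring
    have ex : (A - 9 * x ^ 2) / (A - x ^ 2) = 9 - 8 * A / (A - x ^ 2) := by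
      field_simp
      ring
    rw [ea, eb, ex]
    have hconv : 1 / (A - x ^ 2) ≤ (1 - t) * (1 / (A - a ^ 2)) + t * (1 / (A - b ^ 2)) := by
      have e1 : A - x ^ 2 = (1 - t) * (A - a ^ 2) + t * (A - b ^ 2) := by
        rw [h]
        ring
      have e2 : (1 - t) * (1 / (A - a ^ 2)) + t * (1 / (A - b ^ 2)) =
          ((1 - t) * (A - b ^ 2) + t * (A - a ^ 2)) / ((A - a ^ 2) * (A - b ^ 2)) := by
        (clear * - pb pa; field_simp)
      rw [e2, div_le_div_iff₀ px (by (clear * - pa pb; positivity)), e1]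
      have h3 : 0 ≤ t * (1 - t) * (a ^ 2 - b ^ 2) ^ 2 :=
        mul_nonneg (mul_nonneg ht0 (by (clear * - ht1; linarith))) (sq_nonneg _)
      (clear * - h3; nlinarith [h3])
    have h4 : 8 * A * (1 / (A - x ^ 2)) ≤
        8 * A * ((1 - t) * (1 / (A - a ^ 2)) + t * (1 / (A - b ^ 2))) :=
      mul_le_mul_of_nonneg_left hconv (by (clear * - hA hπ2; linarith))
    have e3 : 8 * A / (A - x ^ 2) = 8 * A * (1 / (A - x ^ 2)) := by ring
    have e4 : 8 * A / (A - a ^ 2) = 8 * A * (1 / (A - a ^ 2)) := by ring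
    have e5 : 8 * A / (A - b ^ 2) = 8 * A * (1 / (A - b ^ 2)) := by ring
    rw [e3, e4, e5]
    (clear * - h4; nlinarith [h4])
  have l1 : Tendsto (fun n => (pr (-(3 * a) ^ 2) n / pr (-a ^ 2) n) ^ (1 - t)) atTop
      (𝓝 ((sinc (3 * a) / sinc a) ^ (1 - t))) :=
    (hlim a ha ha').rpow_const (Or.inr (by linarith))
  have l2 : Tendsto (fun n => (pr (-(3 * b) ^ 2) n / pr (-b ^ 2) n) ^ t) atTop
      (𝓝 ((sinc (3 * b) / sinc b) ^ t)) :=
    (hlim b hb hb').rpow_const (Or.inr ht0)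
  exact le_of_tendsto_of_tendsto (l1.mul l2) (hlim x hx hx') (Eventually.of_forall hstep)

theorem psi3_rest {x rho : ℝ} (hx : 0 ≤ x) (hxr : x ^ 2 ≤ rho) (hr : rho ≤ 56 / 100) :
    exp (-((4 / 3 + 4 / 9 * rho + 2569 / 10000 * rho ^ 2 + 3 / 10 * rho ^ 3) * x ^ 2)) * sinc x ≤
      sinc (3 * x) := by
  by_cases h0 : x = 0
  · subst h0
    simp
  have hx0 : 0 < x := lt_of_le_of_ne hx (Ne.symm h0)
  have hv : x ^ 2 ≤ 56 / 100 := hxr.trans hr
  have hv0 : 0 ≤ x ^ 2 := sq_nonneg x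
  have hx1 : x < π := by
    have := pi_gt_three
    (clear * - hxr hr this hx; nlinarith)
  have hs : 0 < sin x := sin_pos_of_pos_of_lt_pi hx0 hx1
  have hsx : 0 < sinc x := by
    rw [sinc_of_ne_zero h0]
    exact div_pos hs hx0
  have e3 : sinc (3 * x) = sinc x * (1 - 4 / 3 * sin x ^ 2) := by
    rw [sinc_of_ne_zero (by positivity), sinc_of_ne_zero h0, sin_three_mul]
    (clear * - h0 hs; field_simp)
  have hexp : exp (-((4 / 3 + 4 / 9 * rho + 2569 / 10000 * rho ^ 2 + 3 / 10 * rho ^ 3) * x ^ 2)) ≤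
      exp (-Psi3.g (x ^ 2)) := by
    refine exp_le_exp.2 (neg_le_neg ?_)
    have h1 : x ^ 2 * x ^ 2 ≤ rho * x ^ 2 := mul_le_mul_of_nonneg_right hxr hv0
    have h2 : (x ^ 2) ^ 2 * x ^ 2 ≤ rho ^ 2 * x ^ 2 :=
      mul_le_mul_of_nonneg_right (pow_le_pow_left₀ hv0 hxr 2) hv0
    have h3 : (x ^ 2) ^ 3 * x ^ 2 ≤ rho ^ 3 * x ^ 2 :=
      mul_le_mul_of_nonneg_right (pow_le_pow_left₀ hv0 hxr 3) hv0
    unfold Psi3.g
    (clear * - h1 h2 h3; nlinarith [h1, h2, h3])
  have hP : Psi3.P (x ^ 2) ≤ 1 - 4 / 3 * sin x ^ 2 := by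
    have := Psi3.sin_sq_le hx
    unfold Psi3.P
    have e : x ^ 2 - (x ^ 2) ^ 2 / 3 + 2 * (x ^ 2) ^ 3 / 45 - (x ^ 2) ^ 4 / 315 +
        2 * (x ^ 2) ^ 5 / 14175 =
        x ^ 2 - x ^ 4 / 3 + 2 * x ^ 6 / 45 - x ^ 8 / 315 + 2 * x ^ 10 / 14175 := by ring
    rw [e]
    (clear * - this; linarith)
  have hkey := Psi3.key hv0 hv
  have h4 : exp (-Psi3.g (x ^ 2)) ≤ Psi3.P (x ^ 2) := by
    rw [exp_neg, inv_le_iff_one_le_mul₀ (exp_pos _)]
    (clear * - hkey; linarith)
  rw [e3, mul_comm (sinc x)]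
  exact mul_le_mul_of_nonneg_right (hexp.trans (h4.trans hP)) hsx.le

end Pool.Agent.M18.Helper95.SP.Crude
end
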