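import Mathlib
import Pool.Agent.Helper53.AM.G07

/- Helper95.SP.Crude.Run10 -/
section
/-! Box computations, part 10. -/

set_option autoImplicit false

namespace Pool.Agent.M18.Helper95.SP.Crude

def tr_A102_1 : Tr :=
    (.x (.u .l (.x .l .l)) (.u .l (.x .l .l)))

theorem run_A102_1 :
    cov 1 0 (t02 ^ 2) 1 (fun b => decide (9 * t02 < b.X0 + b.U0)) (rbA t02 (lineQ 0 9 (952 /
    1000) 0 0)) tr_A102_1 (mk t02 (478 / 1000) (66 / 100) 0 (66 / 100) 0 0).ul = true := by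
  decide +kernel

def tr_A102_2 : Tr :=
    (.x .l (.u .l .l))

theorem run_A102_2 :
    cov 1 0 (t02 ^ 2) 1 (fun b => decide (9 * t02 < b.X0 + b.U0)) (rbA t02 (lineQ 0 9 (952 /
    1000) 0 0)) tr_A102_2 (mk t02 (478 / 1000) (66 / 100) 0 (66 / 100) 0 0).ur.ul.xl.ul = true := by
  decide +kernel

def tr_A102_3 : Tr :=
    (.x (.u .l .l) .l)

theorem run_A102_3 :
    cov 1 0 (t02 ^ 2) 1 (fun b => decide (9 * t02 < b.X0 + b.U0)) (rbA t02 (lineQ 0 9 (952 /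
    1000) 0 0)) tr_A102_3 (mk t02 (478 / 1000) (66 / 100) 0 (66 / 100) 0 0).ur.ul.xl.ur.xl.ul = true := by
  decide +kernel

def tr_A102_4 : Tr :=
    (.u (.x (.u .l .l) (.u .l .l)) (.x (.u (.x .l .l) .l) (.u (.x .l .l) .l)))

theorem run_A102_4 :
    cov 1 0 (t02 ^ 2) 1 (fun b => decide (9 * t02 < b.X0 + b.U0)) (rbA t02 (lineQ 0 9 (952 /
    1000) 0 0)) tr_A102_4 (mk t02 (478 / 1000) (66 / 100) 0 (66 / 100) 0
    0).ur.ul.xl.ur.xl.ur.xl = true := by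
  decide +kernel

def tr_A102_5 : Tr :=
    (.u (.x (.u .l .l) (.u .l .l)) (.x (.u (.x .l (.u .l .l)) .l) (.u (.x (.u .l .l) (.u .l .l))
    .l)))

theorem run_A102_5 :
    cov 1 0 (t02 ^ 2) 1 (fun b => decide (9 * t02 < b.X0 + b.U0)) (rbA t02 (lineQ 0 9 (952 /
    1000) 0 0)) tr_A102_5 (mk t02 (478 / 1000) (66 / 100) 0 (66 / 100) 0
    0).ur.ul.xl.ur.xl.ur.xr = true := by
  decide +kernel

def tr_A102_6 : Tr :=
    (.x .l .l)

theorem run_A102_6 :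
    cov 1 0 (t02 ^ 2) 1 (fun b => decide (9 * t02 < b.X0 + b.U0)) (rbA t02 (lineQ 0 9 (952 /
    1000) 0 0)) tr_A102_6 (mk t02 (478 / 1000) (66 / 100) 0 (66 / 100) 0 0).ur.ul.xl.ur.xr.ul = true := by
  decide +kernel

def tr_A102_7 : Tr :=
    (.u (.x (.u .l .l) (.u .l .l)) (.x (.u (.x (.u .l .l) (.u .l .l)) .l) (.u (.x (.u .l .l) (.u
    .l .l)) .l)))

theorem run_A102_7 :
    cov 1 0 (t02 ^ 2) 1 (fun b => decide (9 * t02 < b.X0 + b.U0)) (rbA t02 (lineQ 0 9 (952 /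
    1000) 0 0)) tr_A102_7 (mk t02 (478 / 1000) (66 / 100) 0 (66 / 100) 0
    0).ur.ul.xl.ur.xr.ur.xl = true := by
  decide +kernel

def tr_A102_8 : Tr :=
    (.u (.x (.u .l .l) (.u .l .l)) (.x (.u (.x .l .l) .l) (.u .l .l)))

theorem run_A102_8 :
    cov 1 0 (t02 ^ 2) 1 (fun b => decide (9 * t02 < b.X0 + b.U0)) (rbA t02 (lineQ 0 9 (952 /
    1000) 0 0)) tr_A102_8 (mk t02 (478 / 1000) (66 / 100) 0 (66 / 100) 0
    0).ur.ul.xl.ur.xr.ur.xr = true := by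
  decide +kernel

def tr_A102_9 : Tr :=
    (.x .l .l)

theorem run_A102_9 :
    cov 1 0 (t02 ^ 2) 1 (fun b => decide (9 * t02 < b.X0 + b.U0)) (rbA t02 (lineQ 0 9 (952 /
    1000) 0 0)) tr_A102_9 (mk t02 (478 / 1000) (66 / 100) 0 (66 / 100) 0 0).ur.ul.xr.ul = true := by
  decide +kernel

def tr_A102_10 : Tr :=
    (.u (.x .l .l) (.x (.u (.x .l .l) (.x (.u .l .l) (.u .l .l))) (.u (.x .l .l) (.x .l .l))))

theorem run_A102_10 :
    cov 1 0 (t02 ^ 2) 1 (fun b => decide (9 * t02 < b.X0 + b.U0)) (rbA t02 (lineQ 0 9 (952 /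
    1000) 0 0)) tr_A102_10 (mk t02 (478 / 1000) (66 / 100) 0 (66 / 100) 0 0).ur.ul.xr.ur.xl = true := by
  decide +kernel

def tr_A102_11 : Tr :=
    (.u (.x .l .l) (.x (.u .l (.x .l .l)) (.u .l .l)))

theorem run_A102_11 :
    cov 1 0 (t02 ^ 2) 1 (fun b => decide (9 * t02 < b.X0 + b.U0)) (rbA t02 (lineQ 0 9 (952 /
    1000) 0 0)) tr_A102_11 (mk t02 (478 / 1000) (66 / 100) 0 (66 / 100) 0 0).ur.ul.xr.ur.xr = true := by
  decide +kernel

def tr_A102_12 : Tr :=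
    (.u (.x (.u (.x .l (.u .l .l)) .l) (.u (.x (.u .l .l) (.u .l .l)) .l)) .l)

theorem run_A102_12 :
    cov 1 0 (t02 ^ 2) 1 (fun b => decide (9 * t02 < b.X0 + b.U0)) (rbA t02 (lineQ 0 9 (952 /
    1000) 0 0)) tr_A102_12 (mk t02 (478 / 1000) (66 / 100) 0 (66 / 100) 0 0).ur.ur.xl = true := by
  decide +kernel

def tr_A102_13 : Tr :=
    (.x (.u (.x (.u .l .l) (.u .l .l)) (.x .l .l)) (.u (.x (.u .l .l) (.u .l .l)) (.x .l (.u .l
    .l))))

theorem run_A102_13 :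
    cov 1 0 (t02 ^ 2) 1 (fun b => decide (9 * t02 < b.X0 + b.U0)) (rbA t02 (lineQ 0 9 (952 /
    1000) 0 0)) tr_A102_13 (mk t02 (478 / 1000) (66 / 100) 0 (66 / 100) 0 0).ur.ur.xr.ul = true := by
  decide +kernel

def tr_A102_14 : Tr :=
    (.x (.u .l .l) (.u (.x .l (.u .l .l)) (.x .l (.u .l .l))))

theorem run_A102_14 :
    cov 1 0 (t02 ^ 2) 1 (fun b => decide (9 * t02 < b.X0 + b.U0)) (rbA t02 (lineQ 0 9 (952 /
    1000) 0 0)) tr_A102_14 (mk t02 (478 / 1000) (66 / 100) 0 (66 / 100) 0 0).ur.ur.xr.ur = true := by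
  decide +kernel

def tr_A102 : Tr :=
    (.u tr_A102_1 (.u (.x (.u tr_A102_2 (.x (.u tr_A102_3 (.x tr_A102_4 tr_A102_5)) (.u
    tr_A102_6 (.x tr_A102_7 tr_A102_8)))) (.u tr_A102_9 (.x tr_A102_10 tr_A102_11))) (.x
    tr_A102_12 (.u tr_A102_13 tr_A102_14))))

theorem run_A102 :
    covA t02 1 9 (lineQ 0 9 (952 / 1000) 0 0) tr_A102 (478 / 1000) (66 / 100) 0 (66 / 100) = true :=
  cov_u run_A102_1 (cov_u (cov_x (cov_u run_A102_2 (cov_x (cov_u run_A102_3 (cov_x run_A102_4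
    run_A102_5)) (cov_u run_A102_6 (cov_x run_A102_7 run_A102_8)))) (cov_u run_A102_9 (cov_x
    run_A102_10 run_A102_11))) (cov_x run_A102_12 (cov_u run_A102_13 run_A102_14)))

end Pool.Agent.M18.Helper95.SP.Crude
end

/- Helper95.SP.Crude.Run13 -/
section
/-! Box computations, part 13. -/

set_option autoImplicit false

namespace Pool.Agent.M18.Helper95.SP.Crude

def tr_A108_1 : Tr :=
    (.x .l .l)

theorem run_A108_1 :
    cov 1 0 (t08 ^ 2) 1 (fun b => decide (9 * t08 < b.X0 + b.U0)) (rbA t08 (lineQ (5065 /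
    10000) 9 (1008 / 1000) (15 / 10) (5065 / 10000))) tr_A108_1 (mk t08 (4975 / 10000) (54 /
    100) (475 / 1000) (54 / 100) 0 0).ul.xl.ul = true := by
  decide +kernel

def tr_A108_2 : Tr :=
    (.u (.x .l .l) (.x (.u (.x .l .l) .l) (.u (.x .l .l) (.x (.u .l .l) (.u .l (.x (.u .l (.x .l
    .l)) .l))))))

theorem run_A108_2 :
    cov 1 0 (t08 ^ 2) 1 (fun b => decide (9 * t08 < b.X0 + b.U0)) (rbA t08 (lineQ (5065 /
    10000) 9 (1008 / 1000) (15 / 10) (5065 / 10000))) tr_A108_2 (mk t08 (4975 / 10000) (54 /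
    100) (475 / 1000) (54 / 100) 0 0).ul.xl.ur.xl = true := by
  decide +kernel

def tr_A108_3 : Tr :=
    (.u (.x .l .l) (.x (.u .l .l) .l))

theorem run_A108_3 :
    cov 1 0 (t08 ^ 2) 1 (fun b => decide (9 * t08 < b.X0 + b.U0)) (rbA t08 (lineQ (5065 /
    10000) 9 (1008 / 1000) (15 / 10) (5065 / 10000))) tr_A108_3 (mk t08 (4975 / 10000) (54 /
    100) (475 / 1000) (54 / 100) 0 0).ul.xl.ur.xr = true := by
  decide +kernel

def tr_A108_4 : Tr :=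
    (.u (.x .l .l) (.x (.u (.x .l .l) .l) .l))

theorem run_A108_4 :
    cov 1 0 (t08 ^ 2) 1 (fun b => decide (9 * t08 < b.X0 + b.U0)) (rbA t08 (lineQ (5065 /
    10000) 9 (1008 / 1000) (15 / 10) (5065 / 10000))) tr_A108_4 (mk t08 (4975 / 10000) (54 /
    100) (475 / 1000) (54 / 100) 0 0).ul.xr = true := by
  decide +kernel

def tr_A108_5 : Tr :=
    (.x (.u (.x (.u (.x .l (.u (.x .l (.u (.x .l .l) .l)) .l)) .l) (.u (.x .l .l) .l)) .l) (.u
    .l .l))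

theorem run_A108_5 :
    cov 1 0 (t08 ^ 2) 1 (fun b => decide (9 * t08 < b.X0 + b.U0)) (rbA t08 (lineQ (5065 /
    10000) 9 (1008 / 1000) (15 / 10) (5065 / 10000))) tr_A108_5 (mk t08 (4975 / 10000) (54 /
    100) (475 / 1000) (54 / 100) 0 0).ur = true := by
  decide +kernel

def tr_A108 : Tr :=
    (.u (.x (.u tr_A108_1 (.x tr_A108_2 tr_A108_3)) tr_A108_4) tr_A108_5)

theorem run_A108 :
    covA t08 1 9 (lineQ (5065 / 10000) 9 (1008 / 1000) (15 / 10) (5065 / 10000)) tr_A108 (4975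
    / 10000) (54 / 100) (475 / 1000) (54 / 100) = true :=
  cov_u (cov_x (cov_u run_A108_1 (cov_x run_A108_2 run_A108_3)) run_A108_4) run_A108_5

def tr_A110_1 : Tr :=
    (.u .l (.x (.u .l (.x (.u .l .l) (.u .l .l))) (.u .l (.x (.u .l .l) (.u .l .l)))))

theorem run_A110_1 :
    cov 1 0 (t10 ^ 2) 1 (fun b => decide (9 * t10 < b.X0 + b.U0)) (rbA t10 (lineQ (5125 /
    10000) 9 (1016 / 1000) (14 / 10) (5125 / 10000))) tr_A110_1 (mk t10 (5065 / 10000) (54 /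
    100) (475 / 1000) (54 / 100) 0 0).ul.xl = true := by
  decide +kernel

def tr_A110_2 : Tr :=
    (.u .l (.x (.u .l .l) .l))

theorem run_A110_2 :
    cov 1 0 (t10 ^ 2) 1 (fun b => decide (9 * t10 < b.X0 + b.U0)) (rbA t10 (lineQ (5125 /
    10000) 9 (1016 / 1000) (14 / 10) (5125 / 10000))) tr_A110_2 (mk t10 (5065 / 10000) (54 /
    100) (475 / 1000) (54 / 100) 0 0).ul.xr = true := by
  decide +kernel

def tr_A110_3 : Tr :=
    (.x (.u .l (.x .l (.u .l (.x .l .l)))) (.x (.u .l (.u .l (.x .l .l))) .l))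

theorem run_A110_3 :
    cov 1 0 (t10 ^ 2) 1 (fun b => decide (9 * t10 < b.X0 + b.U0)) (rbA t10 (lineQ (5125 /
    10000) 9 (1016 / 1000) (14 / 10) (5125 / 10000))) tr_A110_3 (mk t10 (5065 / 10000) (54 /
    100) (475 / 1000) (54 / 100) 0 0).ur.ul.xl.ul.xl.ul = true := by
  decide +kernel

def tr_A110_4 : Tr :=
    (.x .l (.u (.x (.u (.x (.u .l .l) (.u .l (.x .l .l))) (.x .l (.u (.x .l (.u .l .l)) .l)))
    .l) (.x .l .l)))

theorem run_A110_4 :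
    cov 1 0 (t10 ^ 2) 1 (fun b => decide (9 * t10 < b.X0 + b.U0)) (rbA t10 (lineQ (5125 /
    10000) 9 (1016 / 1000) (14 / 10) (5125 / 10000))) tr_A110_4 (mk t10 (5065 / 10000) (54 /
    100) (475 / 1000) (54 / 100) 0 0).ur.ul.xl.ul.xl.ur = true := by
  decide +kernel

def tr_A110_5 : Tr :=
    (.x .l .l)

theorem run_A110_5 :
    cov 1 0 (t10 ^ 2) 1 (fun b => decide (9 * t10 < b.X0 + b.U0)) (rbA t10 (lineQ (5125 /
    10000) 9 (1016 / 1000) (14 / 10) (5125 / 10000))) tr_A110_5 (mk t10 (5065 / 10000) (54 /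
    100) (475 / 1000) (54 / 100) 0 0).ur.ul.xl.ul.xr = true := by
  decide +kernel

def tr_A110_6 : Tr :=
    (.x .l .l)

theorem run_A110_6 :
    cov 1 0 (t10 ^ 2) 1 (fun b => decide (9 * t10 < b.X0 + b.U0)) (rbA t10 (lineQ (5125 /
    10000) 9 (1016 / 1000) (14 / 10) (5125 / 10000))) tr_A110_6 (mk t10 (5065 / 10000) (54 /
    100) (475 / 1000) (54 / 100) 0 0).ur.ul.xl.ur = true := by
  decide +kernel

def tr_A110_7 : Tr :=
    (.x .l .l)

theorem run_A110_7 :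
    cov 1 0 (t10 ^ 2) 1 (fun b => decide (9 * t10 < b.X0 + b.U0)) (rbA t10 (lineQ (5125 /
    10000) 9 (1016 / 1000) (14 / 10) (5125 / 10000))) tr_A110_7 (mk t10 (5065 / 10000) (54 /
    100) (475 / 1000) (54 / 100) 0 0).ur.ul.xr = true := by
  decide +kernel

def tr_A110_8 : Tr :=
    (.x .l .l)

theorem run_A110_8 :
    cov 1 0 (t10 ^ 2) 1 (fun b => decide (9 * t10 < b.X0 + b.U0)) (rbA t10 (lineQ (5125 /
    10000) 9 (1016 / 1000) (14 / 10) (5125 / 10000))) tr_A110_8 (mk t10 (5065 / 10000) (54 /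
    100) (475 / 1000) (54 / 100) 0 0).ur.ur = true := by
  decide +kernel

def tr_A110 : Tr :=
    (.u (.x tr_A110_1 tr_A110_2) (.u (.x (.u (.x (.u tr_A110_3 tr_A110_4) tr_A110_5) tr_A110_6)
    tr_A110_7) tr_A110_8))

theorem run_A110 :
    covA t10 1 9 (lineQ (5125 / 10000) 9 (1016 / 1000) (14 / 10) (5125 / 10000)) tr_A110 (5065
    / 10000) (54 / 100) (475 / 1000) (54 / 100) = true :=
  cov_u (cov_x run_A110_1 run_A110_2) (cov_u (cov_x (cov_u (cov_x (cov_u run_A110_3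
    run_A110_4) run_A110_5) run_A110_6) run_A110_7) run_A110_8)

end Pool.Agent.M18.Helper95.SP.Crude
end

/- Helper95.SP.Crude.Run8 -/
section
/-! Box computations, part 8. -/

set_option autoImplicit false

namespace Pool.Agent.M18.Helper95.SP.Crude

def tr_M2_110_1 : Tr :=
    .l

theorem run_M2_110_1 :
    cov 2 0 (t10 ^ 2) 1 (empM t10 (lineQ (5125 / 10000) 9 (1016 / 1000) (14 / 10) (5125 /
    10000))) (fun b => b.U1) tr_M2_110_1 (mk t10 (5065 / 10000) (56 / 100) 0 (52 / 100) 0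
    0).ul = true := by
  decide +kernel

def tr_M2_110_2 : Tr :=
    (.x .l .l)

theorem run_M2_110_2 :
    cov 2 0 (t10 ^ 2) 1 (empM t10 (lineQ (5125 / 10000) 9 (1016 / 1000) (14 / 10) (5125 /
    10000))) (fun b => b.U1) tr_M2_110_2 (mk t10 (5065 / 10000) (56 / 100) 0 (52 / 100) 0
    0).ur.ul = true := by
  decide +kernel

def tr_M2_110_3 : Tr :=
    (.x (.u .l (.x .l (.u .l (.x .l .l)))) (.x (.u .l (.u .l (.x (.u .l (.x .l .l)) .l))) (.u .l
    .l)))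

theorem run_M2_110_3 :
    cov 2 0 (t10 ^ 2) 1 (empM t10 (lineQ (5125 / 10000) 9 (1016 / 1000) (14 / 10) (5125 /
    10000))) (fun b => b.U1) tr_M2_110_3 (mk t10 (5065 / 10000) (56 / 100) 0 (52 / 100) 0
    0).ur.ur.ul = true := by
  decide +kernel

def tr_M2_110_4 : Tr :=
    (.x (.u .l (.x .l (.u .l .l))) (.u (.x (.u .l .l) (.u .l (.x .l .l))) (.x (.u (.x .l .l) (.x
    .l .l)) .l)))

theorem run_M2_110_4 :
    cov 2 0 (t10 ^ 2) 1 (empM t10 (lineQ (5125 / 10000) 9 (1016 / 1000) (14 / 10) (5125 /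
    10000))) (fun b => b.U1) tr_M2_110_4 (mk t10 (5065 / 10000) (56 / 100) 0 (52 / 100) 0
    0).ur.ur.ur.xl.ul = true := by
  decide +kernel

def tr_M2_110_5 : Tr :=
    (.x (.u (.x (.u .l .l) (.u .l .l)) (.x .l .l)) .l)

theorem run_M2_110_5 :
    cov 2 0 (t10 ^ 2) 1 (empM t10 (lineQ (5125 / 10000) 9 (1016 / 1000) (14 / 10) (5125 /
    10000))) (fun b => b.U1) tr_M2_110_5 (mk t10 (5065 / 10000) (56 / 100) 0 (52 / 100) 0
    0).ur.ur.ur.xl.ur = true := by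
  decide +kernel

def tr_M2_110_6 : Tr :=
    .l

theorem run_M2_110_6 :
    cov 2 0 (t10 ^ 2) 1 (empM t10 (lineQ (5125 / 10000) 9 (1016 / 1000) (14 / 10) (5125 /
    10000))) (fun b => b.U1) tr_M2_110_6 (mk t10 (5065 / 10000) (56 / 100) 0 (52 / 100) 0
    0).ur.ur.ur.xr = true := by
  decide +kernel

def tr_M2_110 : Tr :=
    (.u tr_M2_110_1 (.u tr_M2_110_2 (.u tr_M2_110_3 (.x (.u tr_M2_110_4 tr_M2_110_5)
    tr_M2_110_6))))

theorem run_M2_110 :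
    covM 2 t10 1 (lineQ (5125 / 10000) 9 (1016 / 1000) (14 / 10) (5125 / 10000)) tr_M2_110
    (5065 / 10000) (56 / 100) (52 / 100) = true :=
  cov_u run_M2_110_1 (cov_u run_M2_110_2 (cov_u run_M2_110_3 (cov_x (cov_u run_M2_110_4
    run_M2_110_5) run_M2_110_6)))

def tr_M2_120_1 : Tr :=
    (.x (.x .l .l) (.x .l .l))

theorem run_M2_120_1 :
    cov 2 0 (t20 ^ 2) 1 (empM t20 (lineQ (5275 / 10000) 9 (102 / 100) 1 (5275 / 10000))) (fun
    b => b.U1) tr_M2_120_1 (mk t20 (5125 / 10000) (62 / 100) 0 (5275 / 10000) 0 0).ul = true := by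
  decide +kernel

def tr_M2_120_2 : Tr :=
    (.x (.u .l .l) (.u .l .l))

theorem run_M2_120_2 :
    cov 2 0 (t20 ^ 2) 1 (empM t20 (lineQ (5275 / 10000) 9 (102 / 100) 1 (5275 / 10000))) (fun
    b => b.U1) tr_M2_120_2 (mk t20 (5125 / 10000) (62 / 100) 0 (5275 / 10000) 0 0).ur.xl.ul = true := by
  decide +kernel

def tr_M2_120_3 : Tr :=
    (.u (.x .l (.x .l .l)) (.x (.u (.x (.u .l .l) (.u .l .l)) (.x .l .l)) (.u (.x (.u .l .l) .l)
    .l)))

theorem run_M2_120_3 :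
    cov 2 0 (t20 ^ 2) 1 (empM t20 (lineQ (5275 / 10000) 9 (102 / 100) 1 (5275 / 10000))) (fun
    b => b.U1) tr_M2_120_3 (mk t20 (5125 / 10000) (62 / 100) 0 (5275 / 10000) 0 0).ur.xl.ur = true := by
  decide +kernel

def tr_M2_120_4 : Tr :=
    (.u (.x (.u .l .l) (.u .l (.x .l .l))) (.x (.u (.x .l .l) .l) .l))

theorem run_M2_120_4 :
    cov 2 0 (t20 ^ 2) 1 (empM t20 (lineQ (5275 / 10000) 9 (102 / 100) 1 (5275 / 10000))) (fun
    b => b.U1) tr_M2_120_4 (mk t20 (5125 / 10000) (62 / 100) 0 (5275 / 10000) 0 0).ur.xr = true := by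
  decide +kernel

def tr_M2_120 : Tr :=
    (.u tr_M2_120_1 (.x (.u tr_M2_120_2 tr_M2_120_3) tr_M2_120_4))

theorem run_M2_120 :
    covM 2 t20 1 (lineQ (5275 / 10000) 9 (102 / 100) 1 (5275 / 10000)) tr_M2_120 (5125 /
    10000) (62 / 100) (5275 / 10000) = true :=
  cov_u run_M2_120_1 (cov_x (cov_u run_M2_120_2 run_M2_120_3) run_M2_120_4)

def tr_M2_135_1 : Tr :=
    (.x .l .l)

theorem run_M2_135_1 :
    cov 2 0 (t35 ^ 2) mu35 (empM t35 (lineQ (535 / 1000) 9 (1066 / 1000) (26 / 10) (535 /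
    1000))) (fun b => b.U1) tr_M2_135_1 (mk t35 (5275 / 10000) (58 / 100) 0 (56 / 100) 0 0).ul = true := by
  decide +kernel

def tr_M2_135_2 : Tr :=
    (.x (.u .l .l) (.u .l .l))

theorem run_M2_135_2 :
    cov 2 0 (t35 ^ 2) mu35 (empM t35 (lineQ (535 / 1000) 9 (1066 / 1000) (26 / 10) (535 /
    1000))) (fun b => b.U1) tr_M2_135_2 (mk t35 (5275 / 10000) (58 / 100) 0 (56 / 100) 0
    0).ur.ul = true := by
  decide +kernel

def tr_M2_135_3 : Tr :=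
    (.u (.x (.u .l (.x .l .l)) (.u (.x .l .l) (.x .l .l))) (.x (.u (.x .l .l) (.x .l .l)) .l))

theorem run_M2_135_3 :
    cov 2 0 (t35 ^ 2) mu35 (empM t35 (lineQ (535 / 1000) 9 (1066 / 1000) (26 / 10) (535 /
    1000))) (fun b => b.U1) tr_M2_135_3 (mk t35 (5275 / 10000) (58 / 100) 0 (56 / 100) 0
    0).ur.ur = true := by
  decide +kernel

def tr_M2_135 : Tr :=
    (.u tr_M2_135_1 (.u tr_M2_135_2 tr_M2_135_3))

theorem run_M2_135 :
    covM 2 t35 mu35 (lineQ (535 / 1000) 9 (1066 / 1000) (26 / 10) (535 / 1000)) tr_M2_135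
    (5275 / 10000) (58 / 100) (56 / 100) = true :=
  cov_u run_M2_135_1 (cov_u run_M2_135_2 run_M2_135_3)

end Pool.Agent.M18.Helper95.SP.Crude
end
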