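import Mathlib
import Pool.Agent.Helper53.AM.G07

/- Helper95.SP.Crude.Run2 -/
section
/-! Box computations, part 2. -/

set_option autoImplicit false

namespace Pool.Agent.M18.Helper95.SP.Crude

def tr_M102_3_1 : Tr :=
    (.x .l (.x (.u .l .l) (.u .l (.x (.u .l .l) (.u .l (.u .l .l))))))

theorem run_M102_3_1 :
    cov 3 0 (t02 ^ 2) 1 (empM t02 noQ) (fun b => b.U1) tr_M102_3_1 (mk t02 (41 / 100) (478 /
    1000) 0 (478 / 1000) 0 0).ul = true := by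
  decide +kernel

def tr_M102_3_2 : Tr :=
    (.u (.x .l .l) (.u .l (.x (.u .l .l) (.u .l .l))))

theorem run_M102_3_2 :
    cov 3 0 (t02 ^ 2) 1 (empM t02 noQ) (fun b => b.U1) tr_M102_3_2 (mk t02 (41 / 100) (478 /
    1000) 0 (478 / 1000) 0 0).ur.xl = true := by
  decide +kernel

def tr_M102_3_3 : Tr :=
    (.x (.u .l .l) (.u (.x .l (.u .l .l)) (.x .l (.u .l .l))))

theorem run_M102_3_3 :
    cov 3 0 (t02 ^ 2) 1 (empM t02 noQ) (fun b => b.U1) tr_M102_3_3 (mk t02 (41 / 100) (478 /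
    1000) 0 (478 / 1000) 0 0).ur.xr.ul = true := by
  decide +kernel

def tr_M102_3_4 : Tr :=
    (.x (.u .l .l) (.u (.x .l (.x .l (.u .l .l))) (.x (.u .l .l) (.u .l .l))))

theorem run_M102_3_4 :
    cov 3 0 (t02 ^ 2) 1 (empM t02 noQ) (fun b => b.U1) tr_M102_3_4 (mk t02 (41 / 100) (478 /
    1000) 0 (478 / 1000) 0 0).ur.xr.ur.ul = true := by
  decide +kernel

def tr_M102_3_5 : Tr :=
    (.x (.u .l .l) (.u (.x .l .l) .l))

theorem run_M102_3_5 :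
    cov 3 0 (t02 ^ 2) 1 (empM t02 noQ) (fun b => b.U1) tr_M102_3_5 (mk t02 (41 / 100) (478 /
    1000) 0 (478 / 1000) 0 0).ur.xr.ur.ur = true := by
  decide +kernel

def tr_M102_3 : Tr :=
    (.u tr_M102_3_1 (.x tr_M102_3_2 (.u tr_M102_3_3 (.u tr_M102_3_4 tr_M102_3_5))))

theorem run_M102_3 :
    covM 3 t02 1 noQ tr_M102_3 (41 / 100) (478 / 1000) (478 / 1000) = true :=
  cov_u run_M102_3_1 (cov_x run_M102_3_2 (cov_u run_M102_3_3 (cov_u run_M102_3_4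
    run_M102_3_5)))

def tr_M4_102_1 : Tr :=
    (.u (.x .l (.u .l .l)) (.u (.x .l (.u .l .l)) (.x .l (.u .l .l))))

theorem run_M4_102_1 :
    cov 4 0 (t02 ^ 2) 1 (empM t02 noQ) (fun b => b.U1) tr_M4_102_1 (mk t02 (41 / 100) (44 /
    100) 0 (44 / 100) 0 0) = true := by
  decide +kernel

def tr_M4_102 : Tr :=
    tr_M4_102_1

theorem run_M4_102 :
    covM 4 t02 1 noQ tr_M4_102 (41 / 100) (44 / 100) (44 / 100) = true :=
  run_M4_102_1

def tr_M4_104_1 : Tr :=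
    (.x (.u .l .l) (.u .l (.x (.u .l .l) (.u .l (.x .l (.u .l .l))))))

theorem run_M4_104_1 :
    cov 4 0 (t04 ^ 2) 1 (empM t04 noQ) (fun b => b.U1) tr_M4_104_1 (mk t04 (44 / 100) (47 /
    100) 0 (47 / 100) 0 0).ul = true := by
  decide +kernel

def tr_M4_104_2 : Tr :=
    (.u (.x (.u .l .l) (.u (.x .l (.u .l .l)) (.x .l (.u .l .l)))) (.x (.u .l .l) (.u .l .l)))

theorem run_M4_104_2 :
    cov 4 0 (t04 ^ 2) 1 (empM t04 noQ) (fun b => b.U1) tr_M4_104_2 (mk t04 (44 / 100) (47 /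
    100) 0 (47 / 100) 0 0).ur = true := by
  decide +kernel

def tr_M4_104 : Tr :=
    (.u tr_M4_104_1 tr_M4_104_2)

theorem run_M4_104 :
    covM 4 t04 1 noQ tr_M4_104 (44 / 100) (47 / 100) (47 / 100) = true :=
  cov_u run_M4_104_1 run_M4_104_2

def tr_M4_120_1 : Tr :=
    (.u (.x (.u .l (.x .l (.u .l .l))) (.u .l (.x (.u .l .l) .l))) (.u .l .l))

theorem run_M4_120_1 :
    cov 4 0 (t20 ^ 2) 1 (empM t20 noQ) (fun b => b.U1) tr_M4_120_1 (mk t20 (47 / 100) (5 / 10)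
    0 (5 / 10) 0 0) = true := by
  decide +kernel

def tr_M4_120 : Tr :=
    tr_M4_120_1

theorem run_M4_120 :
    covM 4 t20 1 noQ tr_M4_120 (47 / 100) (5 / 10) (5 / 10) = true :=
  run_M4_120_1

end Pool.Agent.M18.Helper95.SP.Crude
end

/- Helper95.SP.Crude.Run4 -/
section
/-! Box computations, part 4. -/

set_option autoImplicit false

namespace Pool.Agent.M18.Helper95.SP.Crude

def tr_M3_120_1 : Tr :=
    (.u .l (.u .l (.x .l .l)))

theorem run_M3_120_1 :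
    cov 3 0 (t20 ^ 2) 1 (empM t20 noQ) (fun b => b.U1) tr_M3_120_1 (mk t20 (5125 / 10000) (55
    / 100) 0 (55 / 100) 0 0).ul.xl = true := by
  decide +kernel

def tr_M3_120_2 : Tr :=
    (.x .l .l)

theorem run_M3_120_2 :
    cov 3 0 (t20 ^ 2) 1 (empM t20 noQ) (fun b => b.U1) tr_M3_120_2 (mk t20 (5125 / 10000) (55
    / 100) 0 (55 / 100) 0 0).ul.xr.ul = true := by
  decide +kernel

def tr_M3_120_3 : Tr :=
    (.u (.x .l (.x .l (.u .l .l))) (.x (.u .l .l) (.u (.x .l (.u .l .l)) (.x .l (.u .l (.x .l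
    .l))))))

theorem run_M3_120_3 :
    cov 3 0 (t20 ^ 2) 1 (empM t20 noQ) (fun b => b.U1) tr_M3_120_3 (mk t20 (5125 / 10000) (55
    / 100) 0 (55 / 100) 0 0).ul.xr.ur = true := by
  decide +kernel

def tr_M3_120_4 : Tr :=
    (.u (.x .l (.u .l .l)) (.x (.u .l .l) (.u .l (.x .l .l))))

theorem run_M3_120_4 :
    cov 3 0 (t20 ^ 2) 1 (empM t20 noQ) (fun b => b.U1) tr_M3_120_4 (mk t20 (5125 / 10000) (55
    / 100) 0 (55 / 100) 0 0).ur.ul.xl = true := by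
  decide +kernel

def tr_M3_120_5 : Tr :=
    (.u (.x .l .l) (.x .l (.u .l (.x .l .l))))

theorem run_M3_120_5 :
    cov 3 0 (t20 ^ 2) 1 (empM t20 noQ) (fun b => b.U1) tr_M3_120_5 (mk t20 (5125 / 10000) (55
    / 100) 0 (55 / 100) 0 0).ur.ul.xr.ul.xl = true := by
  decide +kernel

def tr_M3_120_6 : Tr :=
    (.u .l (.x .l .l))

theorem run_M3_120_6 :
    cov 3 0 (t20 ^ 2) 1 (empM t20 noQ) (fun b => b.U1) tr_M3_120_6 (mk t20 (5125 / 10000) (55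
    / 100) 0 (55 / 100) 0 0).ur.ul.xr.ul.xr.ul.xl = true := by
  decide +kernel

def tr_M3_120_7 : Tr :=
    (.u (.x .l (.u .l .l)) (.x (.u .l .l) (.u (.x .l (.u .l .l)) (.x (.u .l .l) (.u .l .l)))))

theorem run_M3_120_7 :
    cov 3 0 (t20 ^ 2) 1 (empM t20 noQ) (fun b => b.U1) tr_M3_120_7 (mk t20 (5125 / 10000) (55
    / 100) 0 (55 / 100) 0 0).ur.ul.xr.ul.xr.ul.xr = true := by
  decide +kernel

def tr_M3_120_8 : Tr :=
    (.u (.x .l (.u .l .l)) (.x (.u .l .l) (.u (.x (.u .l .l) (.u (.x .l .l) .l)) .l)))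

theorem run_M3_120_8 :
    cov 3 0 (t20 ^ 2) 1 (empM t20 noQ) (fun b => b.U1) tr_M3_120_8 (mk t20 (5125 / 10000) (55
    / 100) 0 (55 / 100) 0 0).ur.ul.xr.ul.xr.ur.xl = true := by
  decide +kernel

def tr_M3_120_9 : Tr :=
    (.u (.x (.u (.x .l .l) .l) (.u (.x .l .l) .l)) (.x (.u .l .l) .l))

theorem run_M3_120_9 :
    cov 3 0 (t20 ^ 2) 1 (empM t20 noQ) (fun b => b.U1) tr_M3_120_9 (mk t20 (5125 / 10000) (55
    / 100) 0 (55 / 100) 0 0).ur.ul.xr.ul.xr.ur.xr = true := by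
  decide +kernel

def tr_M3_120_10 : Tr :=
    (.x (.u (.x (.u .l .l) (.u (.x .l .l) .l)) (.x .l .l)) (.u (.x (.u (.x .l .l) .l) .l) .l))

theorem run_M3_120_10 :
    cov 3 0 (t20 ^ 2) 1 (empM t20 noQ) (fun b => b.U1) tr_M3_120_10 (mk t20 (5125 / 10000) (55
    / 100) 0 (55 / 100) 0 0).ur.ul.xr.ur = true := by
  decide +kernel

def tr_M3_120_11 : Tr :=
    (.u (.x (.u (.x .l .l) .l) .l) .l)

theorem run_M3_120_11 :
    cov 3 0 (t20 ^ 2) 1 (empM t20 noQ) (fun b => b.U1) tr_M3_120_11 (mk t20 (5125 / 10000) (55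
    / 100) 0 (55 / 100) 0 0).ur.ur = true := by
  decide +kernel

def tr_M3_120 : Tr :=
    (.u (.x tr_M3_120_1 (.u tr_M3_120_2 tr_M3_120_3)) (.u (.x tr_M3_120_4 (.u (.x tr_M3_120_5
    (.u (.x tr_M3_120_6 tr_M3_120_7) (.x tr_M3_120_8 tr_M3_120_9))) tr_M3_120_10))
    tr_M3_120_11))

theorem run_M3_120 :
    covM 3 t20 1 noQ tr_M3_120 (5125 / 10000) (55 / 100) (55 / 100) = true :=
  cov_u (cov_x run_M3_120_1 (cov_u run_M3_120_2 run_M3_120_3)) (cov_u (cov_x run_M3_120_4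
    (cov_u (cov_x run_M3_120_5 (cov_u (cov_x run_M3_120_6 run_M3_120_7) (cov_x run_M3_120_8
    run_M3_120_9))) run_M3_120_10)) run_M3_120_11)

end Pool.Agent.M18.Helper95.SP.Crude
end
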