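import Mathlib
import Pool.Agent.Helper53.AM.G07

/- Helper95.SP.Crude.Run11 -/
section
/-! Box computations, part 11. -/

set_option autoImplicit false

namespace Pool.Agent.M18.Helper95.SP.Crude

def tr_A104_1 : Tr :=
    .l

theorem run_A104_1 :
    cov 1 0 (t04 ^ 2) 1 (fun b => decide (9 * t04 < b.X0 + b.U0)) (rbA t04 (lineQ (49 / 100) 9
    (975 / 1000) (2 / 10) (4875 / 10000))) tr_A104_1 (mk t04 (478 / 1000) (54 / 100) (475 /
    1000) (54 / 100) 0 0).ul.xl.ul.xl.ul = true := by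
  decide +kernel

def tr_A104_2 : Tr :=
    (.u .l .l)

theorem run_A104_2 :
    cov 1 0 (t04 ^ 2) 1 (fun b => decide (9 * t04 < b.X0 + b.U0)) (rbA t04 (lineQ (49 / 100) 9
    (975 / 1000) (2 / 10) (4875 / 10000))) tr_A104_2 (mk t04 (478 / 1000) (54 / 100) (475 /
    1000) (54 / 100) 0 0).ul.xl.ul.xl.ur.xl = true := by
  decide +kernel

def tr_A104_3 : Tr :=
    .l

theorem run_A104_3 :
    cov 1 0 (t04 ^ 2) 1 (fun b => decide (9 * t04 < b.X0 + b.U0)) (rbA t04 (lineQ (49 / 100) 9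
    (975 / 1000) (2 / 10) (4875 / 10000))) tr_A104_3 (mk t04 (478 / 1000) (54 / 100) (475 /
    1000) (54 / 100) 0 0).ul.xl.ul.xl.ur.xr.ul = true := by
  decide +kernel

def tr_A104_4 : Tr :=
    (.u (.x .l .l) (.x .l (.u (.x .l (.u .l .l)) .l)))

theorem run_A104_4 :
    cov 1 0 (t04 ^ 2) 1 (fun b => decide (9 * t04 < b.X0 + b.U0)) (rbA t04 (lineQ (49 / 100) 9
    (975 / 1000) (2 / 10) (4875 / 10000))) tr_A104_4 (mk t04 (478 / 1000) (54 / 100) (475 /
    1000) (54 / 100) 0 0).ul.xl.ul.xl.ur.xr.ur.xl = true := by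
  decide +kernel

def tr_A104_5 : Tr :=
    (.u (.x .l .l) (.x (.u (.x (.u .l (.x (.u .l .l) .l)) .l) (.x (.u (.x .l .l) .l) .l)) .l))

theorem run_A104_5 :
    cov 1 0 (t04 ^ 2) 1 (fun b => decide (9 * t04 < b.X0 + b.U0)) (rbA t04 (lineQ (49 / 100) 9
    (975 / 1000) (2 / 10) (4875 / 10000))) tr_A104_5 (mk t04 (478 / 1000) (54 / 100) (475 /
    1000) (54 / 100) 0 0).ul.xl.ul.xl.ur.xr.ur.xr = true := by
  decide +kernel

def tr_A104_6 : Tr :=
    (.u (.x .l .l) (.x (.u (.x .l .l) (.x .l .l)) (.u (.x .l .l) .l)))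

theorem run_A104_6 :
    cov 1 0 (t04 ^ 2) 1 (fun b => decide (9 * t04 < b.X0 + b.U0)) (rbA t04 (lineQ (49 / 100) 9
    (975 / 1000) (2 / 10) (4875 / 10000))) tr_A104_6 (mk t04 (478 / 1000) (54 / 100) (475 /
    1000) (54 / 100) 0 0).ul.xl.ul.xr = true := by
  decide +kernel

def tr_A104_7 : Tr :=
    (.x (.u (.x .l (.u (.x .l (.u (.x (.u (.x .l .l) .l) .l) (.x .l .l))) .l)) .l) (.u (.x .l
    .l) .l))

theorem run_A104_7 :
    cov 1 0 (t04 ^ 2) 1 (fun b => decide (9 * t04 < b.X0 + b.U0)) (rbA t04 (lineQ (49 / 100) 9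
    (975 / 1000) (2 / 10) (4875 / 10000))) tr_A104_7 (mk t04 (478 / 1000) (54 / 100) (475 /
    1000) (54 / 100) 0 0).ul.xl.ur = true := by
  decide +kernel

def tr_A104_8 : Tr :=
    (.u (.x (.u (.x .l .l) (.x (.u (.x .l .l) .l) (.u .l .l))) (.x (.u .l .l) (.u .l .l))) (.x
    (.u .l .l) .l))

theorem run_A104_8 :
    cov 1 0 (t04 ^ 2) 1 (fun b => decide (9 * t04 < b.X0 + b.U0)) (rbA t04 (lineQ (49 / 100) 9
    (975 / 1000) (2 / 10) (4875 / 10000))) tr_A104_8 (mk t04 (478 / 1000) (54 / 100) (475 /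
    1000) (54 / 100) 0 0).ul.xr = true := by
  decide +kernel

def tr_A104_9 : Tr :=
    (.x (.u (.x .l .l) .l) (.u .l .l))

theorem run_A104_9 :
    cov 1 0 (t04 ^ 2) 1 (fun b => decide (9 * t04 < b.X0 + b.U0)) (rbA t04 (lineQ (49 / 100) 9
    (975 / 1000) (2 / 10) (4875 / 10000))) tr_A104_9 (mk t04 (478 / 1000) (54 / 100) (475 /
    1000) (54 / 100) 0 0).ur = true := by
  decide +kernel

def tr_A104 : Tr :=
    (.u (.x (.u (.x (.u tr_A104_1 (.x tr_A104_2 (.u tr_A104_3 (.x tr_A104_4 tr_A104_5))))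
    tr_A104_6) tr_A104_7) tr_A104_8) tr_A104_9)

theorem run_A104 :
    covA t04 1 9 (lineQ (49 / 100) 9 (975 / 1000) (2 / 10) (4875 / 10000)) tr_A104 (478 /
    1000) (54 / 100) (475 / 1000) (54 / 100) = true :=
  cov_u (cov_x (cov_u (cov_x (cov_u run_A104_1 (cov_x run_A104_2 (cov_u run_A104_3 (cov_x
    run_A104_4 run_A104_5)))) run_A104_6) run_A104_7) run_A104_8) run_A104_9

end Pool.Agent.M18.Helper95.SP.Crude
end

/- Helper95.SP.Crude.Run14 -/
section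
/-! Box computations, part 14. -/

set_option autoImplicit false

namespace Pool.Agent.M18.Helper95.SP.Crude

def tr_B120_1 : Tr :=
    (.u (.q .l (.q .l (.u .l .l))) (.q .l (.u (.q .l .l) .l)))

theorem run_B120_1 :
    cov 1 1 (t20 ^ 2) 1 (empB t20 (lineQ 0 9 1 0 0) noQ) (fun b => b.U1) tr_B120_1 (mk t20
    (5125 / 10000) (5275 / 10000) (47 / 100) (5275 / 10000) (47 / 100) (5275 / 10000)) = true := by
  decide +kernel

def tr_B120 : Tr :=
    tr_B120_1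

theorem run_B120 :
    covB t20 1 (lineQ 0 9 1 0 0) noQ tr_B120 (5125 / 10000) (5275 / 10000) (47 / 100) (5275 /
    10000) (47 / 100) (5275 / 10000) = true :=
  run_B120_1

def tr_B135_1 : Tr :=
    (.u .l (.q .l (.x .l (.u .l (.q .l .l)))))

theorem run_B135_1 :
    cov 1 1 (t35 ^ 2) mu35 (empB t35 (lineQ 0 9 (102 / 100) 1 (5275 / 10000)) (lineQ (535 /
    1000) (114 / 100) (1066 / 1000) (26 / 10) (535 / 1000))) (fun b => b.U1) tr_B135_1 (mk t35
    (5275 / 10000) (57 / 100) (4 / 10) (57 / 100) (45 / 100) (57 / 100)).ul.ql = true := by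
  decide +kernel

def tr_B135_2 : Tr :=
    (.q (.x .l .l) (.x (.u .l .l) (.u .l .l)))

theorem run_B135_2 :
    cov 1 1 (t35 ^ 2) mu35 (empB t35 (lineQ 0 9 (102 / 100) 1 (5275 / 10000)) (lineQ (535 /
    1000) (114 / 100) (1066 / 1000) (26 / 10) (535 / 1000))) (fun b => b.U1) tr_B135_2 (mk t35
    (5275 / 10000) (57 / 100) (4 / 10) (57 / 100) (45 / 100) (57 / 100)).ul.qr.ul = true := by
  decide +kernel

def tr_B135_3 : Tr :=
    (.x (.u .l (.q .l .l)) (.u .l (.q .l .l)))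

theorem run_B135_3 :
    cov 1 1 (t35 ^ 2) mu35 (empB t35 (lineQ 0 9 (102 / 100) 1 (5275 / 10000)) (lineQ (535 /
    1000) (114 / 100) (1066 / 1000) (26 / 10) (535 / 1000))) (fun b => b.U1) tr_B135_3 (mk t35
    (5275 / 10000) (57 / 100) (4 / 10) (57 / 100) (45 / 100) (57 / 100)).ul.qr.ur.ql = true := by
  decide +kernel

def tr_B135_4 : Tr :=
    (.x (.u (.q .l .l) (.q .l .l)) (.u (.q .l (.x .l .l)) (.q .l (.x .l .l))))

theorem run_B135_4 :
    cov 1 1 (t35 ^ 2) mu35 (empB t35 (lineQ 0 9 (102 / 100) 1 (5275 / 10000)) (lineQ (535 /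
    1000) (114 / 100) (1066 / 1000) (26 / 10) (535 / 1000))) (fun b => b.U1) tr_B135_4 (mk t35
    (5275 / 10000) (57 / 100) (4 / 10) (57 / 100) (45 / 100) (57 / 100)).ul.qr.ur.qr = true := by
  decide +kernel

def tr_B135_5 : Tr :=
    (.u (.q .l (.x (.u (.q (.x .l .l) (.x .l .l)) (.q .l .l)) (.u (.q .l .l) (.q .l .l)))) .l)

theorem run_B135_5 :
    cov 1 1 (t35 ^ 2) mu35 (empB t35 (lineQ 0 9 (102 / 100) 1 (5275 / 10000)) (lineQ (535 /
    1000) (114 / 100) (1066 / 1000) (26 / 10) (535 / 1000))) (fun b => b.U1) tr_B135_5 (mk t35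
    (5275 / 10000) (57 / 100) (4 / 10) (57 / 100) (45 / 100) (57 / 100)).ur.ql = true := by
  decide +kernel

def tr_B135_6 : Tr :=
    (.x (.u (.q .l .l) (.q .l .l)) (.u (.q .l .l) (.q .l .l)))

theorem run_B135_6 :
    cov 1 1 (t35 ^ 2) mu35 (empB t35 (lineQ 0 9 (102 / 100) 1 (5275 / 10000)) (lineQ (535 /
    1000) (114 / 100) (1066 / 1000) (26 / 10) (535 / 1000))) (fun b => b.U1) tr_B135_6 (mk t35
    (5275 / 10000) (57 / 100) (4 / 10) (57 / 100) (45 / 100) (57 / 100)).ur.qr.ul.ql = true := by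
  decide +kernel

def tr_B135_7 : Tr :=
    (.x (.u (.q .l .l) (.q .l .l)) (.u (.q .l .l) .l))

theorem run_B135_7 :
    cov 1 1 (t35 ^ 2) mu35 (empB t35 (lineQ 0 9 (102 / 100) 1 (5275 / 10000)) (lineQ (535 /
    1000) (114 / 100) (1066 / 1000) (26 / 10) (535 / 1000))) (fun b => b.U1) tr_B135_7 (mk t35
    (5275 / 10000) (57 / 100) (4 / 10) (57 / 100) (45 / 100) (57 / 100)).ur.qr.ul.qr = true := by
  decide +kernel

def tr_B135_8 : Tr :=
    (.q (.u (.x (.q .l .l) .l) .l) (.u (.x (.q .l .l) .l) (.x .l .l)))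

theorem run_B135_8 :
    cov 1 1 (t35 ^ 2) mu35 (empB t35 (lineQ 0 9 (102 / 100) 1 (5275 / 10000)) (lineQ (535 /
    1000) (114 / 100) (1066 / 1000) (26 / 10) (535 / 1000))) (fun b => b.U1) tr_B135_8 (mk t35
    (5275 / 10000) (57 / 100) (4 / 10) (57 / 100) (45 / 100) (57 / 100)).ur.qr.ur = true := by
  decide +kernel

def tr_B135 : Tr :=
    (.u (.q tr_B135_1 (.u tr_B135_2 (.q tr_B135_3 tr_B135_4))) (.q tr_B135_5 (.u (.q tr_B135_6
    tr_B135_7) tr_B135_8)))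

theorem run_B135 :
    covB t35 mu35 (lineQ 0 9 (102 / 100) 1 (5275 / 10000)) (lineQ (535 / 1000) (114 / 100)
    (1066 / 1000) (26 / 10) (535 / 1000)) tr_B135 (5275 / 10000) (57 / 100) (4 / 10) (57 /
    100) (45 / 100) (57 / 100) = true :=
  cov_u (cov_q run_B135_1 (cov_u run_B135_2 (cov_q run_B135_3 run_B135_4))) (cov_q run_B135_5
    (cov_u (cov_q run_B135_6 run_B135_7) run_B135_8))

end Pool.Agent.M18.Helper95.SP.Crude
end
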