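import Mathlib
import Pool.Agent.Helper53.AM.G07
import Pool.Agent.Helper53.AM.G16

/- Helper50.SP.FactG -/
section
/-!
Module SP-10c of project SP (MP_66ebcc_gt): one large coordinate.
-/

set_option autoImplicit false

open MeasureTheory Set Real Pool.Agent.M18.Slab

namespace Pool.Agent.M18.Helper89.SP

theorem Phat_cases (s : ℝ) : Phat s ≤ 1 - s ∨ (Phat s ≤ 0.1716 ∧ 0.828 ≤ s) := by
  have h2a : (1.41421 : ℝ) < √2 := by
    rw [Real.lt_sqrt (by norm_num)]; norm_num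
  have h2b : √2 < (1.41422 : ℝ) := by
    rw [Real.sqrt_lt' (by norm_num)]; norm_num
  have h2 : √2 * √2 = 2 := Real.mul_self_sqrt (by norm_num)
  unfold Phat
  split_ifs with h h'
  · left; exact le_rfl
  · right
    push Not at h
    refine ⟨?_, by (clear * - h2a h; linarith)⟩
    have h3 : √2 - s ≤ 2 - √2 := by (clear * - h; linarith)
    have h4 : 0 ≤ √2 - s := by (clear * - h2a h'; linarith)
    (clear * - h2a h2 h' h h4 h3; nlinarith [mul_self_nonneg (2 - √2 - (√2 - s)), mul_nonneg h4 (sub_nonneg.2 h3)])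
  · right
    push Not at h
    exact ⟨by norm_num, by (clear * - h'; linarith)⟩

theorem exp_tail {t p : ℝ} (hp0 : 0 < p) (ht0 : 0 < t) (hp1 : p < 1) (htp : t * p ≤ 1)
    (h : 6.28 * (1 - p ^ 2) ≤ (t + p) ^ 2) :
    (1 + t * p) * exp (-(3 / 2) * ((t + p) ^ 2 / (1 - p ^ 2))) ≤ 0.00017 := by
  have hw : 0 < 1 - p ^ 2 := by (clear * - hp1 hp0; nlinarith)
  have h1 : 6.28 ≤ (t + p) ^ 2 / (1 - p ^ 2) := by
    rw [le_div_iff₀ hw]; exact h
  have h2 : exp (-(3 / 2) * ((t + p) ^ 2 / (1 - p ^ 2))) ≤ exp (-9.42) :=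
    exp_le_exp.2 (by (clear * - h1; nlinarith))
  have h3 : (11765 : ℝ) ≤ exp 9.42 := by
    have e1 : exp 9.42 = exp 1 ^ 9 * exp 0.42 := by
      rw [← Real.exp_nat_mul, ← Real.exp_add]; norm_num
    have e2 : (2.7182 : ℝ) ^ 9 ≤ exp 1 ^ 9 :=
      pow_le_pow_left₀ (by norm_num) (by (clear * - hp0 hp1; linarith [Real.exp_one_gt_d9])) 9
    have e3 : (1.5 : ℝ) ≤ exp 0.42 := by
      have := Real.quadratic_le_exp_of_nonneg (x := 0.42) (by norm_num)
      norm_num at this ⊢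
      (clear * - hp0 hp1 this; linarith)
    rw [e1]
    calc (11765 : ℝ) ≤ 2.7182 ^ 9 * 1.5 := by norm_num
      _ ≤ exp 1 ^ 9 * exp 0.42 := mul_le_mul e2 e3 (by norm_num) (by positivity)
  have h4 : exp (-9.42) ≤ 0.000085 := by
    rw [Real.exp_neg, inv_le_comm₀ (exp_pos _) (by norm_num)]
    refine le_trans ?_ h3
    norm_num
  have h5 : 0 ≤ exp (-(3 / 2) * ((t + p) ^ 2 / (1 - p ^ 2))) := (exp_pos _).le
  have h6 : 0 ≤ t * p := by positivity
  calc (1 + t * p) * exp (-(3 / 2) * ((t + p) ^ 2 / (1 - p ^ 2)))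
      ≤ 2 * 0.000085 := mul_le_mul (by (clear * - htp; linarith)) (h2.trans h4) h5 (by norm_num)
    _ = 0.00017 := by norm_num

/-- tangent lines of the fourth power -/
theorem T4_ge (t b : ℝ) : (b ^ 4 + 4 * b ^ 3 * ((2 - t) - b)) / 12 ≤ T4 t := by
  unfold T4
  have : 0 ≤ (2 - t - b) ^ 2 * ((2 - t + b) ^ 2 + 2 * b ^ 2) := by (clear * -; positivity)
  nlinarith

theorem Mf_ge {t : ℝ} (ht : t ≤ 1.2) (ht0 : 1.02 ≤ t) :
    0.07816 - 0.32932 * (t - 1.02) ≤ Mf t := by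
  have h3 : √3 < (1.73206 : ℝ) := by
    rw [Real.sqrt_lt' (by norm_num)]; norm_num
  unfold Mf
  have h4 : 3 - 1.73206 * t ≤ 3 - √3 * t := by nlinarith
  have h5 : 0 ≤ 3 - 1.73206 * t := by (clear * - ht; nlinarith)
  have h6 : (3 - 1.73206 * t) ^ 3 ≤ (3 - √3 * t) ^ 3 := pow_le_pow_left₀ h5 h4 3
  have h7 : 0 ≤ (3 - 1.73206 * t - 1.2332988) ^ 2 * (3 - 1.73206 * t + 2 * 1.2332988) := by
    (clear * - h5; positivity)
  (clear * - ht0 h6 h7; nlinarith)

/-- the case `p ≥ 0.72`, small `u` -/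
theorem main_a {t p w : ℝ} (hp : 0.72 ≤ p) (hp1 : p < 1) (ht : 1.02 ≤ t) (htp : t * p ≤ 1)
    (hw : 0 < w) (hw2 : w ^ 2 = 1 - p ^ 2) :
    (1 - t * p) * ((1 - (t - p) / w) / 2) + 0.00017 < max (Mf t) (T4 t) := by
  obtain ⟨x, hx⟩ : ∃ x, x = p - 0.72 := ⟨_, rfl⟩
  obtain ⟨y, hy⟩ : ∃ y, y = t - 1.02 := ⟨_, rfl⟩
  have hx0 : 0 ≤ x := by (clear * - hp hx; linarith)
  have hy0 : 0 ≤ y := by (clear * - ht hy; linarith)
  have hx1 : x < 0.28 := by (clear * - hp1 hx; linarith)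
  have hp' : p = 0.72 + x := by (clear * - hx; linarith)
  have ht' : t = 1.02 + y := by (clear * - hy; linarith)
  have hy1 : y ≤ 0.37 := by (clear * - hp hp1 htp hy ht; nlinarith)
  -- lower bound of `1 / w`
  have hL : (1.44097 + 2.15 * x) ≤ 1 / w := by
    rw [le_div_iff₀ hw]
    have hL0 : 0 ≤ (1.44097 + 2.15 * x) * w := by (clear * - hx0 hw; positivity)
    have h2 : ((1.44097 + 2.15 * x) * w) ^ 2 ≤ 1 := by
      rw [mul_pow, hw2, hp']
      have hx3 : 0 ≤ x ^ 2 := by positivity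
      have hx4 : 0 ≤ x ^ 3 := by positivity
      have hx5 : 0 ≤ x ^ 4 := by (clear * -; positivity)
      (clear * - hp hp1 hx hx4 hx5; nlinarith)
    (clear * - h2 hp hp1 hL0; nlinarith)
  have hA : 0 ≤ 1 - t * p := by (clear * - htp; linarith)
  have hu : (t - p) * (1.44097 + 2.15 * x) ≤ (t - p) / w := by
    rw [div_eq_mul_one_div]
    exact mul_le_mul_of_nonneg_left hL (by (clear * - hp hp1 ht; linarith))
  have h1 : (1 - t * p) * ((1 - (t - p) / w) / 2) ≤
      (1 - t * p) * ((1 - (t - p) * (1.44097 + 2.15 * x)) / 2) :=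
    mul_le_mul_of_nonneg_left (by (clear * - hu; linarith)) hA
  have h2 : (1 - t * p) * ((1 - (t - p) * (1.44097 + 2.15 * x)) / 2) ≤
      (0.2656 - 0.72 * y) * (0.567709 - 1.44097 * y) / 2 := by
    rw [hp', ht']
    have hxy : 0 ≤ x * (0.367653 + 0.242058 * y - 2.98897 * y ^ 2) := by
      apply mul_nonneg hx0; (clear * - hp hy hy1 hp1 ht; nlinarith)
    have hxy2 : 0 ≤ x ^ 2 * (0.240849 + 0.15097 * y - 2.15 * y ^ 2) := by
      apply mul_nonneg (by (clear * -; positivity)); (clear * - hp hy hy1 hp1 ht; nlinarith)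
    have hx3 : 0 ≤ x ^ 3 := by positivity
    have hx3y : 0 ≤ x ^ 3 * y := by (clear * - hx0 hy0; positivity)
    have hx2 : 0 ≤ x ^ 2 := by positivity
    have hx2y : 0 ≤ x ^ 2 * y := by (clear * - hy0; positivity)
    have hxy3 : 0 ≤ x * y := by positivity
    (clear * - hp hx hxy hxy2 hx3 hx3y; nlinarith)
  rw [lt_max_iff]
  rcases le_total y 0.1 with h | h
  · left
    have h3 := Mf_ge (t := t) (by (clear * - hp hp1 hy h; linarith)) ht
    have : t - 1.02 = y := hy.symm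
    rw [this] at h3
    (clear * - hy h1 h2 h3 ht hy1 h; nlinarith)
  · right
    have h3 := T4_ge t 0.8
    have h4 : (2 - t) - 0.8 = 0.18 - y := by (clear * - hy; linarith)
    rw [h4] at h3
    have h5 : 0 ≤ (y - 0.1) * (0.37 - y) := mul_nonneg (by (clear * - h; linarith)) (by (clear * - hy1; linarith))
    (clear * - hp hp1 hy1 h1 h2 h3 h5; nlinarith)

/-- the case `p ≥ 0.72`, large `u` -/
theorem main_b {t p w : ℝ} (hp : 0.72 ≤ p) (hp1 : p < 1) (ht : 1.02 ≤ t) (htp : t * p ≤ 1)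
    (hw : 0 < w) (hw2 : w ^ 2 = 1 - p ^ 2) (hu : 0.828 ≤ (t - p) / w) :
    (1 - t * p) * (0.1716 / 2) + 0.00017 < max (Mf t) (T4 t) := by
  rw [le_div_iff₀ hw] at hu
  have h1 : 0.88 ≤ t * p := by
    by_contra hc
    push Not at hc
    have h2 : 0.828 * (p * w) ≤ t * p - p ^ 2 := by (clear * - hu hp; nlinarith)
    have h3 : 0.828 * (p * w) ≤ 0.88 - p ^ 2 := by (clear * - hc h2; linarith)
    have h4 : 0 < p * w := by positivity
    have h5 : (0.828 * (p * w)) ^ 2 ≤ (0.88 - p ^ 2) ^ 2 := pow_le_pow_left₀ (by positivity) h3 2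
    have h6 : (0.828 * (p * w)) ^ 2 = 0.828 ^ 2 * (p ^ 2 * (1 - p ^ 2)) := by
      rw [← hw2]; ring
    rw [h6] at h5
    have h7 : 0.5184 ≤ p ^ 2 := by (clear * - hp hp1 h5; nlinarith)
    have h8 : p ^ 2 ≤ 0.88 := by (clear * - hc h2 h4; nlinarith)
    (clear * - hp hp1 h5 h7 h8; nlinarith [mul_nonneg (sub_nonneg.2 h7) (sub_nonneg.2 h8)])
  have h2 : t ≤ 1.3889 := by (clear * - hp hp1 htp ht; nlinarith)
  rw [lt_max_iff]
  right
  have h3 := T4_ge t 0.6
  (clear * - hp hp1 h1 h2 h3; nlinarith)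

/-- the case `p ≤ 0.72`, small `u` -/
theorem main_c {t p w : ℝ} (hp : 0.66 ≤ p) (hp1 : p ≤ 0.72) (ht : 1.26 ≤ t) (htp : t * p ≤ 1)
    (hw : 0 < w) (hw2 : w ^ 2 = 1 - p ^ 2) :
    (1 - t * p) * ((1 - (t - p) / w) / 2) + 0.00017 < max (Mf t) (T4 t) := by
  have hL : (1.331 : ℝ) ≤ 1 / w := by
    rw [le_div_iff₀ hw]
    (clear * - hp hw2 hw; nlinarith)
  have hA : 0 ≤ 1 - t * p := by (clear * - htp; linarith)
  have hu : (t - p) * 1.331 ≤ (t - p) / w := by
    rw [div_eq_mul_one_div]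
    exact mul_le_mul_of_nonneg_left hL (by (clear * - hp1 ht; linarith))
  have ht2 : t ≤ 1.5152 := by (clear * - hp htp ht; nlinarith)
  have h3a := T4_ge t 0.7
  have h3b := T4_ge t 0.55
  rw [lt_max_iff]
  right
  have h1 : (1 - t * p) * ((1 - (t - p) / w) / 2) ≤ (1 - t * p) * ((1 - (t - p) * 1.331) / 2) :=
    mul_le_mul_of_nonneg_left (by (clear * - hu; linarith)) hA
  rcases le_total (1 - (t - p) * 1.331) 0 with h | h
  · have h2 : (1 - t * p) * ((1 - (t - p) * 1.331) / 2) ≤ 0 :=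
      mul_nonpos_of_nonneg_of_nonpos hA (by (clear * - h; linarith))
    (clear * - ht2 h3b h1 h2; nlinarith)
  · have h2 : (1 - t * p) * ((1 - (t - p) * 1.331) / 2) ≤
        (1 - 0.66 * t) * ((1.95832 - 1.331 * t) / 2) :=
      mul_le_mul (by (clear * - hp ht; nlinarith)) (by (clear * - hp1; linarith)) (by (clear * - h; linarith)) (by (clear * - hp1 ht2 h; nlinarith))
    rcases le_total t 1.42 with h4 | h4
    · (clear * - ht h3a h1 h2 h4; nlinarith [mul_nonneg (sub_nonneg.2 ht) (sub_nonneg.2 h4)])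
    · have h5 : t ≤ 1.4714 := by (clear * - hp1 h; linarith)
      (clear * - hp1 h3b h1 h h2 h4 h5; nlinarith [mul_nonneg (sub_nonneg.2 h4) (sub_nonneg.2 h5)])

/-- the case `p ≤ 0.72`, large `u` -/
theorem main_d {t p : ℝ} (hp : 0.66 ≤ p) (ht : 1.26 ≤ t) (htp : t * p ≤ 1) :
    (1 - t * p) * (0.1716 / 2) + 0.00017 < max (Mf t) (T4 t) := by
  have ht2 : t ≤ 1.5152 := by nlinarith
  have h3 := T4_ge t 0.6
  rw [lt_max_iff]
  right
  nlinarith

theorem fact_G {t p : ℝ} (hp : 0.66 ≤ p) (hp1 : p < 1) (ht : 1.02 ≤ t) (h : 0.72 ≤ p ∨ 1.26 ≤ t)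
    (htp : t * p ≤ 1) :
    (1 - t * p) * (Phat ((t - p) / √(1 - p ^ 2)) / 2) +
      (1 + t * p) * exp (-(3 / 2) * ((t + p) ^ 2 / (1 - p ^ 2))) < max (Mf t) (T4 t) := by
  have hw2 : 0 < 1 - p ^ 2 := by (clear * - hp1 hp; nlinarith)
  have hw : 0 < √(1 - p ^ 2) := Real.sqrt_pos.2 hw2
  have hw3 : √(1 - p ^ 2) ^ 2 = 1 - p ^ 2 := Real.sq_sqrt hw2.le
  have hA : 0 ≤ 1 - t * p := by (clear * - htp; linarith)
  have hE : (1 + t * p) * exp (-(3 / 2) * ((t + p) ^ 2 / (1 - p ^ 2))) ≤ 0.00017 := by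
    refine exp_tail (by (clear * - hp hp1; linarith)) (by (clear * - hp hp1 ht; linarith)) hp1 htp ?_
    rcases h with h | h <;> (clear * - ht h hp hp1; nlinarith)
  refine lt_of_le_of_lt (add_le_add le_rfl hE) ?_
  rcases Phat_cases ((t - p) / √(1 - p ^ 2)) with h1 | ⟨h1, h2⟩
  · have h3 : (1 - t * p) * (Phat ((t - p) / √(1 - p ^ 2)) / 2) ≤
        (1 - t * p) * ((1 - (t - p) / √(1 - p ^ 2)) / 2) :=
      mul_le_mul_of_nonneg_left (by (clear * - h1; linarith)) hA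
    refine lt_of_le_of_lt (add_le_add h3 le_rfl) ?_
    rcases le_total 0.72 p with h4 | h4
    · exact main_a h4 hp1 ht htp hw hw3
    · rcases h with h | h
      · exact main_a h hp1 ht htp hw hw3
      · exact main_c hp h4 h htp hw hw3
  · have h3 : (1 - t * p) * (Phat ((t - p) / √(1 - p ^ 2)) / 2) ≤
        (1 - t * p) * (0.1716 / 2) :=
      mul_le_mul_of_nonneg_left (by (clear * - h1; linarith)) hA
    refine lt_of_le_of_lt (add_le_add h3 le_rfl) ?_
    rcases h with h | h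
    · exact main_b h hp1 ht htp hw hw3 h2
    · exact main_d hp h htp

end Pool.Agent.M18.Helper89.SP
end

/- Helper45.SP.Third -/
section
/-!
Project SP (MP_66ebcc_gt), module SP-08a: the third difference.
-/

set_option autoImplicit false

open MeasureTheory Set Real Pool.Agent.M18.Slab

namespace Pool.Agent.M18.Helper45.SP

/-- the derivative of `max y 0 ^ (k + 2)` -/
theorem hasDerivAt_max_pow (k : ℕ) (y : ℝ) :
    HasDerivAt (fun y : ℝ => max y 0 ^ (k + 2)) (((k : ℝ) + 2) * max y 0 ^ (k + 1)) y := by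
  rcases lt_trichotomy y 0 with h | h | h
  · have e : (fun y : ℝ => max y 0 ^ (k + 2)) =ᶠ[nhds y] fun _ => (0 : ℝ) := by
      filter_upwards [Iio_mem_nhds h] with z hz
      rw [max_eq_right (le_of_lt hz)]
      simp
    rw [max_eq_right h.le]
    have h2 : ((k : ℝ) + 2) * (0 : ℝ) ^ (k + 1) = 0 := by simp
    rw [h2]
    exact (hasDerivAt_const y (0 : ℝ)).congr_of_eventuallyEq e
  · subst h
    have h2 : ((k : ℝ) + 2) * (max (0 : ℝ) 0) ^ (k + 1) = 0 := by simp
    rw [h2, hasDerivAt_iff_isLittleO]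
    simp only [max_self, sub_zero, smul_zero, ne_eq, Nat.add_eq_zero_iff, OfNat.ofNat_ne_zero,
      and_false, not_false_eq_true, zero_pow]
    have h3 : (fun y : ℝ => max y 0 ^ (k + 2)) =O[nhds 0] fun y : ℝ => y ^ (k + 2) := by
      refine Asymptotics.isBigO_of_le _ fun z => ?_
      rw [norm_pow, norm_pow]
      refine pow_le_pow_left₀ (norm_nonneg _) ?_ _
      rw [Real.norm_eq_abs, Real.norm_eq_abs, abs_of_nonneg (le_max_right _ _)]
      exact max_le (le_abs_self z) (abs_nonneg z)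
    refine h3.trans_isLittleO ?_
    exact Asymptotics.isLittleO_pow_id (by omega)
  · have e : (fun y : ℝ => max y 0 ^ (k + 2)) =ᶠ[nhds y] fun y => y ^ (k + 2) := by
      filter_upwards [Ioi_mem_nhds h] with z hz
      rw [max_eq_left (le_of_lt hz)]
    rw [max_eq_left h.le]
    have h2 := (hasDerivAt_pow (k + 2) y).congr_of_eventuallyEq e
    push_cast at h2
    exact h2

theorem max_zero_eq (y : ℝ) : max y 0 = (y + |y|) / 2 := by
  rcases le_total 0 y with h | h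
  · rw [max_eq_left h, abs_of_nonneg h]; ring
  · rw [max_eq_right h, abs_of_nonpos h]; ring

theorem A_H_diff {x : ℝ} (hx : 0 < x) (s : ℝ) :
    A x H s = x⁻¹ * max (x - s) 0 - x⁻¹ * max (-x - s) 0 := by
  rw [Pool.Agent.M18.Slab.AAHaux.A_H_pos hx s, max_zero_eq, max_zero_eq, abs_sub_comm x s,
    show |-x - s| = |s + x| by rw [← abs_neg]; congr 1; ring]
  field_simp
  ring

theorem A_step {x : ℝ} (hx : 0 < x) (k : ℕ) (c s : ℝ) :
    A x (fun s => max (c - s) 0 ^ (k + 1)) s =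
      x⁻¹ * (((k : ℝ) + 2)⁻¹ * (max (c + x - s) 0 ^ (k + 2) - max (c - x - s) 0 ^ (k + 2))) := by
  rw [Pool.Agent.M18.Slab.Deriv.A_eq hx.ne']
  congr 1
  have h : ∀ v ∈ uIcc (s - x) (s + x), HasDerivAt (fun v => -((k : ℝ) + 2)⁻¹ * max (c - v) 0 ^ (k + 2))
      (max (c - v) 0 ^ (k + 1)) v := by
    intro v _
    have h1 := (hasDerivAt_max_pow k (c - v)).comp v ((hasDerivAt_id v).const_sub c)
    have h2 := h1.const_mul (-((k : ℝ) + 2)⁻¹)
    refine h2.congr_deriv ?_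
    have : ((k : ℝ) + 2) ≠ 0 := by (clear * -; positivity)
    (clear * - this; field_simp)
  rw [intervalIntegral.integral_eq_sub_of_hasDerivAt h]
  · rw [show c - (s + x) = c - x - s by ring, show c - (s - x) = c + x - s by ring]
    ring
  · exact Continuous.intervalIntegrable (by fun_prop) _ _

theorem A_step_fun {x : ℝ} (hx : 0 < x) (k : ℕ) (c : ℝ) :
    A x (fun s => max (c - s) 0 ^ (k + 1)) = fun s =>
      x⁻¹ * (((k : ℝ) + 2)⁻¹ * (max (c + x - s) 0 ^ (k + 2) - max (c - x - s) 0 ^ (k + 2))) := by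
  funext s
  exact A_step hx k c s

theorem AL_const_mul' (l : List ℝ) (c : ℝ) (φ : ℝ → ℝ) :
    AL l (fun s => c * φ s) = fun s => c * AL l φ s := by
  funext s
  exact Pool.Agent.M18.Helper95.SP.AL_const_mul l c φ s

/-- the function of the third difference -/
theorem AAAH {x : ℝ} (hx : 0 < x) :
    A x (A x (A x H)) = fun s => (6 * x ^ 3)⁻¹ * (((max (3 * x - s) 0 ^ 3 - 3 * max (x - s) 0 ^ 3) -
      (max (-(3 * x) - s) 0 ^ 3 - 3 * max (-x - s) 0 ^ 3))) := by
  have c1 : ∀ c : ℝ, Continuous fun s : ℝ => max (c - s) 0 := fun c => by fun_prop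
  have c2 : ∀ c : ℝ, Continuous fun s : ℝ => max (c - s) 0 ^ (1 + 1) := fun c => by fun_prop
  have e1 : A x H = fun s => x⁻¹ * (fun s => max (x - s) 0 ^ (0 + 1)) s -
      x⁻¹ * (fun s => max (-x - s) 0 ^ (0 + 1)) s := by
    funext s
    rw [A_H_diff hx]
    simp
  have cm : ∀ (c : ℝ) (φ : ℝ → ℝ), A x (fun s => c * φ s) = fun s => c * A x φ s := by
    intro c φ
    have := AL_const_mul' [x] c φ
    simpa [AL] using this
  have e2 : A x (A x H) = fun s => (2 * x ^ 2)⁻¹ * (fun s => max (2 * x - s) 0 ^ (1 + 1)) s -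
      ((x ^ 2)⁻¹ * (fun s => max (0 - s) 0 ^ (1 + 1)) s -
        (2 * x ^ 2)⁻¹ * (fun s => max (-(2 * x) - s) 0 ^ (1 + 1)) s) := by
    rw [e1, A_sub (by fun_prop) (by fun_prop), cm, cm, A_step_fun hx, A_step_fun hx]
    funext s
    beta_reduce
    rw [show x + x - s = 2 * x - s by ring, show x - x - s = 0 - s by ring,
      show -x + x - s = 0 - s by ring, show -x - x - s = -(2 * x) - s by ring]
    push_cast
    field_simp
    ring
  rw [e2, A_sub (by fun_prop) (by fun_prop), A_sub (by fun_prop) (by fun_prop), cm, cm, cm,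
    A_step_fun hx, A_step_fun hx, A_step_fun hx]
  funext s
  beta_reduce
  rw [show 2 * x + x - s = 3 * x - s by ring, show 2 * x - x - s = x - s by ring,
    show 0 + x - s = x - s by ring, show 0 - x - s = -x - s by ring,
    show -(2 * x) + x - s = -x - s by ring, show -(2 * x) - x - s = -(3 * x) - s by ring]
  push_cast
  field_simp
  ring

end Pool.Agent.M18.Helper45.SP

namespace Pool.Agent.M18.Helper89.SP

open Pool.Agent.M18.Helper45.SP

theorem third_difference (l : List ℝ) {x : ℝ} (hx : 0 < x) (s : ℝ) :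
    48 * x ^ 3 * P (x :: x :: x :: l) s =
      Phi l (3 * x - s) - 3 * Phi l (x - s) + 3 * Phi l (-x - s) - Phi l (-(3 * x) - s) := by
  have c1 : ∀ c : ℝ, Continuous fun s : ℝ => max (c - s) 0 ^ 3 := fun c => by fun_prop
  have hp : AL (x :: x :: x :: l) H = AL l (A x (A x (A x H))) := by
    have h : List.Perm (x :: x :: x :: l) (l ++ [x, x, x]) := by
      have := List.perm_append_comm (l₁ := [x, x, x]) (l₂ := l)
      simpa using this
    rw [AL_perm h, AL_append]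
    rfl
  have hT : ∀ c : ℝ, AL l (fun s => max (c - s) 0 ^ 3) s = 2 ^ l.length * Phi l (c - s) := by
    intro c
    have h := Pool.Agent.M18.Helper95.SP.AL_translate l (fun s => max (-s) 0 ^ 3) (-c) s
    unfold Phi
    rw [show -(c - s) = s + -c by ring, ← h, mul_div_cancel₀]
    · congr 1
      funext y
      rw [show -(y + -c) = c - y by ring]
    · positivity
  unfold P
  rw [hp, AAAH hx, AL_const_mul', AL_sub (by fun_prop) (by fun_prop),
    AL_sub (by fun_prop) (by fun_prop), AL_sub (by fun_prop) (by fun_prop),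
    AL_const_mul', AL_const_mul']
  beta_reduce
  rw [hT, hT, hT, hT]
  simp only [List.length_cons]
  have h2 : (2 : ℝ) ^ l.length ≠ 0 := by positivity
  rw [pow_succ, pow_succ, pow_succ]
  field_simp
  ring

end Pool.Agent.M18.Helper89.SP
end

/- Helper55.SP.Mom -/
section
/-!
Project SP: the expectation `E φ(Y)`, its linearity, monotonicity, symmetry and the moments up to
eight.
-/

set_option autoImplicit false

open MeasureTheory Set Real Pool.Agent.M18.Slab

namespace Pool.Agent.M18.Helper89.SP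

/-- `E φ(Y)` -/
noncomputable def Ex (l : List ℝ) (φ : ℝ → ℝ) : ℝ := AL l φ 0 / 2 ^ l.length

theorem Ex_AL_add {φ ψ : ℝ → ℝ} (hφ : Continuous φ) (hψ : Continuous ψ) (l : List ℝ) :
    AL l (fun s => φ s + ψ s) = fun s => AL l φ s + AL l ψ s := by
  induction l with
  | nil => rfl
  | cons x l ih =>
    rw [AL_cons, ih, AL_cons, AL_cons]
    funext s
    unfold A
    rw [← intervalIntegral.integral_add]
    · exact ((continuous_AL hφ l).comp (by fun_prop)).intervalIntegrable _ _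
    · exact ((continuous_AL hψ l).comp (by fun_prop)).intervalIntegrable _ _

theorem Ex_AL_mono {φ ψ : ℝ → ℝ} (hφ : Continuous φ) (hψ : Continuous ψ) (h : ∀ s, φ s ≤ ψ s)
    (l : List ℝ) (s : ℝ) : AL l φ s ≤ AL l ψ s := by
  induction l generalizing s with
  | nil => exact h s
  | cons x l ih =>
    rw [AL_cons, AL_cons]
    unfold A
    refine intervalIntegral.integral_mono_on (by norm_num) ?_ ?_ fun u _ => ih _
    · exact ((continuous_AL hφ l).comp (by fun_prop)).intervalIntegrable _ _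
    · exact ((continuous_AL hψ l).comp (by fun_prop)).intervalIntegrable _ _

theorem Ex_AL_const (c : ℝ) (l : List ℝ) (s : ℝ) : AL l (fun _ => c) s = 2 ^ l.length * c := by
  induction l generalizing s with
  | nil => simp [AL_nil]
  | cons x l ih =>
    rw [AL_cons]
    unfold A
    simp_rw [ih]
    simp only [intervalIntegral.integral_const, smul_eq_mul, List.length_cons, pow_succ]
    ring

theorem Ex_AL_neg (φ : ℝ → ℝ) (l : List ℝ) (s : ℝ) : AL l (fun s => φ (-s)) s = AL l φ (-s) := by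
  induction l generalizing s with
  | nil => rfl
  | cons x l ih =>
    rw [AL_cons, AL_cons]
    have h := Pool.Agent.M18.Helper95.SP.A_comp_mul x (AL l φ) (-s)
    rw [← h]
    unfold A
    refine intervalIntegral.integral_congr fun u _ => ?_
    show AL l (fun s => φ (-s)) (s - x * u) = AL l φ (-s + x * u)
    rw [ih]
    ring_nf

theorem Ex_add {φ ψ : ℝ → ℝ} (hφ : Continuous φ) (hψ : Continuous ψ) (l : List ℝ) :
    Ex l (fun s => φ s + ψ s) = Ex l φ + Ex l ψ := by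
  unfold Ex
  rw [Ex_AL_add hφ hψ, add_div]

theorem Ex_sub {φ ψ : ℝ → ℝ} (hφ : Continuous φ) (hψ : Continuous ψ) (l : List ℝ) :
    Ex l (fun s => φ s - ψ s) = Ex l φ - Ex l ψ := by
  unfold Ex
  rw [AL_sub hφ hψ, sub_div]

theorem Ex_const_mul (l : List ℝ) (c : ℝ) (φ : ℝ → ℝ) :
    Ex l (fun s => c * φ s) = c * Ex l φ := by
  unfold Ex
  rw [Pool.Agent.M18.Helper95.SP.AL_const_mul, mul_div_assoc]

theorem Ex_const (l : List ℝ) (c : ℝ) : Ex l (fun _ => c) = c := by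
  unfold Ex
  rw [Ex_AL_const]
  (clear * -; field_simp)

theorem Ex_mono {φ ψ : ℝ → ℝ} (hφ : Continuous φ) (hψ : Continuous ψ) (h : ∀ s, φ s ≤ ψ s)
    (l : List ℝ) : Ex l φ ≤ Ex l ψ := by
  unfold Ex
  exact div_le_div_of_nonneg_right (Ex_AL_mono hφ hψ h l 0) (by positivity)

theorem Ex_neg (φ : ℝ → ℝ) (l : List ℝ) : Ex l (fun s => φ (-s)) = Ex l φ := by
  unfold Ex
  rw [Ex_AL_neg, neg_zero]

theorem Ex_nonneg {φ : ℝ → ℝ} (hφ : Continuous φ) (h : ∀ s, 0 ≤ φ s) (l : List ℝ) :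
    0 ≤ Ex l φ := by
  have := Ex_mono (continuous_const (y := (0:ℝ))) hφ h l
  rwa [Ex_const] at this

/-- symmetrisation: `2 E φ ≤ E ψ` if `φ y + φ (-y) ≤ ψ y` -/
theorem Ex_symm_le {φ ψ : ℝ → ℝ} (hφ : Continuous φ) (hψ : Continuous ψ)
    (h : ∀ s, φ s + φ (-s) ≤ ψ s) (l : List ℝ) : Ex l φ ≤ Ex l ψ / 2 := by
  have h1 := Ex_mono (φ := fun s => φ s + φ (-s)) (hφ.add (hφ.comp continuous_neg)) hψ h l
  rw [Ex_add (ψ := fun s => φ (-s)) hφ (hφ.comp continuous_neg), Ex_neg] at h1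
  linarith

theorem Ex_odd (l : List ℝ) {φ : ℝ → ℝ} (h : ∀ s, φ (-s) = -φ s) : Ex l φ = 0 := by
  have h1 := Ex_neg φ l
  have h2 : (fun s => φ (-s)) = fun s => (-1) * φ s := by
    funext s; rw [h]; ring
  rw [h2, Ex_const_mul] at h1
  (clear * - h1; linarith)

/-- translation to the origin -/
theorem Ex_shift (l : List ℝ) (φ : ℝ → ℝ) (m : ℝ) :
    AL l (fun s => φ (-s)) (-m) / 2 ^ l.length = Ex l (fun s => φ (s + m)) := by
  rw [Ex_AL_neg φ, neg_neg]
  unfold Ex
  rw [Pool.Agent.M18.Helper95.SP.AL_translate, zero_add]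

theorem Psi_eq (l : List ℝ) (m : ℝ) : Psi l m = Ex l (fun s => max (s + m) 0 ^ 2) :=
  Ex_shift l (fun s => max s 0 ^ 2) m

theorem Phi_eq (l : List ℝ) (m : ℝ) : Phi l m = Ex l (fun s => max (s + m) 0 ^ 3) :=
  Ex_shift l (fun s => max s 0 ^ 3) m

/-! ### moments -/

/-- one average of an even polynomial of degree eight -/
theorem A_poly (x : ℝ) (a b c d e s : ℝ) :
    A x (fun s => a * s ^ 8 + b * s ^ 6 + c * s ^ 4 + d * s ^ 2 + e) s =
      2 * (a * (s ^ 8 + 28 * s ^ 6 * (x ^ 2 / 3) + 70 * s ^ 4 * (x ^ 4 / 5) +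
          28 * s ^ 2 * (x ^ 6 / 7) + x ^ 8 / 9) +
        b * (s ^ 6 + 15 * s ^ 4 * (x ^ 2 / 3) + 15 * s ^ 2 * (x ^ 4 / 5) + x ^ 6 / 7) +
        c * (s ^ 4 + 6 * s ^ 2 * (x ^ 2 / 3) + x ^ 4 / 5) +
        d * (s ^ 2 + x ^ 2 / 3) + e) := by
  unfold A
  have e1 : (fun u : ℝ => a * (s - x * u) ^ 8 + b * (s - x * u) ^ 6 + c * (s - x * u) ^ 4 +
      d * (s - x * u) ^ 2 + e) =
      fun u : ℝ =>
        (a * s ^ 8 + b * s ^ 6 + c * s ^ 4 + d * s ^ 2 + e) +
        (-(8 * a * s ^ 7 * x + 6 * b * s ^ 5 * x + 4 * c * s ^ 3 * x + 2 * d * s * x)) * u ^ 1 +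
        (28 * a * s ^ 6 * x ^ 2 + 15 * b * s ^ 4 * x ^ 2 + 6 * c * s ^ 2 * x ^ 2 + d * x ^ 2) *
          u ^ 2 +
        (-(56 * a * s ^ 5 * x ^ 3 + 20 * b * s ^ 3 * x ^ 3 + 4 * c * s * x ^ 3)) * u ^ 3 +
        (70 * a * s ^ 4 * x ^ 4 + 15 * b * s ^ 2 * x ^ 4 + c * x ^ 4) * u ^ 4 +
        (-(56 * a * s ^ 3 * x ^ 5 + 6 * b * s * x ^ 5)) * u ^ 5 +
        (28 * a * s ^ 2 * x ^ 6 + b * x ^ 6) * u ^ 6 +
        (-(8 * a * s * x ^ 7)) * u ^ 7 + (a * x ^ 8) * u ^ 8 := by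
    funext u; ring
  rw [show (∫ u in (-1 : ℝ)..1, (a * (s - x * u) ^ 8 + b * (s - x * u) ^ 6 +
      c * (s - x * u) ^ 4 + d * (s - x * u) ^ 2 + e)) = _ from by rw [e1]]
  have hd : ∀ u : ℝ, HasDerivAt (fun u : ℝ =>
        (a * s ^ 8 + b * s ^ 6 + c * s ^ 4 + d * s ^ 2 + e) * u +
        (-(8 * a * s ^ 7 * x + 6 * b * s ^ 5 * x + 4 * c * s ^ 3 * x + 2 * d * s * x)) *
          (u ^ 2 / 2) +
        (28 * a * s ^ 6 * x ^ 2 + 15 * b * s ^ 4 * x ^ 2 + 6 * c * s ^ 2 * x ^ 2 + d * x ^ 2) *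
          (u ^ 3 / 3) +
        (-(56 * a * s ^ 5 * x ^ 3 + 20 * b * s ^ 3 * x ^ 3 + 4 * c * s * x ^ 3)) * (u ^ 4 / 4) +
        (70 * a * s ^ 4 * x ^ 4 + 15 * b * s ^ 2 * x ^ 4 + c * x ^ 4) * (u ^ 5 / 5) +
        (-(56 * a * s ^ 3 * x ^ 5 + 6 * b * s * x ^ 5)) * (u ^ 6 / 6) +
        (28 * a * s ^ 2 * x ^ 6 + b * x ^ 6) * (u ^ 7 / 7) +
        (-(8 * a * s * x ^ 7)) * (u ^ 8 / 8) + (a * x ^ 8) * (u ^ 9 / 9))
      ((a * s ^ 8 + b * s ^ 6 + c * s ^ 4 + d * s ^ 2 + e) +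
        (-(8 * a * s ^ 7 * x + 6 * b * s ^ 5 * x + 4 * c * s ^ 3 * x + 2 * d * s * x)) * u ^ 1 +
        (28 * a * s ^ 6 * x ^ 2 + 15 * b * s ^ 4 * x ^ 2 + 6 * c * s ^ 2 * x ^ 2 + d * x ^ 2) *
          u ^ 2 +
        (-(56 * a * s ^ 5 * x ^ 3 + 20 * b * s ^ 3 * x ^ 3 + 4 * c * s * x ^ 3)) * u ^ 3 +
        (70 * a * s ^ 4 * x ^ 4 + 15 * b * s ^ 2 * x ^ 4 + c * x ^ 4) * u ^ 4 +
        (-(56 * a * s ^ 3 * x ^ 5 + 6 * b * s * x ^ 5)) * u ^ 5 +
        (28 * a * s ^ 2 * x ^ 6 + b * x ^ 6) * u ^ 6 +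
        (-(8 * a * s * x ^ 7)) * u ^ 7 + (a * x ^ 8) * u ^ 8) u := by
    intro u
    have p1 : HasDerivAt (fun u : ℝ => u) 1 u := hasDerivAt_id u
    have p2 : HasDerivAt (fun u : ℝ => u ^ 2 / 2) (u ^ 1) u := by
      refine ((hasDerivAt_pow 2 u).div_const 2).congr_deriv ?_; norm_num
    have p3 : HasDerivAt (fun u : ℝ => u ^ 3 / 3) (u ^ 2) u := by
      refine ((hasDerivAt_pow 3 u).div_const 3).congr_deriv ?_; norm_num
    have p4 : HasDerivAt (fun u : ℝ => u ^ 4 / 4) (u ^ 3) u := by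
      refine ((hasDerivAt_pow 4 u).div_const 4).congr_deriv ?_; norm_num
    have p5 : HasDerivAt (fun u : ℝ => u ^ 5 / 5) (u ^ 4) u := by
      refine ((hasDerivAt_pow 5 u).div_const 5).congr_deriv ?_; norm_num
    have p6 : HasDerivAt (fun u : ℝ => u ^ 6 / 6) (u ^ 5) u := by
      refine ((hasDerivAt_pow 6 u).div_const 6).congr_deriv ?_; norm_num
    have p7 : HasDerivAt (fun u : ℝ => u ^ 7 / 7) (u ^ 6) u := by
      refine ((hasDerivAt_pow 7 u).div_const 7).congr_deriv ?_; norm_num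
    have p8 : HasDerivAt (fun u : ℝ => u ^ 8 / 8) (u ^ 7) u := by
      refine ((hasDerivAt_pow 8 u).div_const 8).congr_deriv ?_; norm_num
    have p9 : HasDerivAt (fun u : ℝ => u ^ 9 / 9) (u ^ 8) u := by
      refine ((hasDerivAt_pow 9 u).div_const 9).congr_deriv ?_; norm_num
    have h := (((((((((p1.const_mul (a * s ^ 8 + b * s ^ 6 + c * s ^ 4 + d * s ^ 2 + e)).add
      (p2.const_mul (-(8 * a * s ^ 7 * x + 6 * b * s ^ 5 * x + 4 * c * s ^ 3 * x +
        2 * d * s * x)))).add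
      (p3.const_mul (28 * a * s ^ 6 * x ^ 2 + 15 * b * s ^ 4 * x ^ 2 + 6 * c * s ^ 2 * x ^ 2 +
        d * x ^ 2))).add
      (p4.const_mul (-(56 * a * s ^ 5 * x ^ 3 + 20 * b * s ^ 3 * x ^ 3 + 4 * c * s * x ^ 3)))).add
      (p5.const_mul (70 * a * s ^ 4 * x ^ 4 + 15 * b * s ^ 2 * x ^ 4 + c * x ^ 4))).add
      (p6.const_mul (-(56 * a * s ^ 3 * x ^ 5 + 6 * b * s * x ^ 5)))).add
      (p7.const_mul (28 * a * s ^ 2 * x ^ 6 + b * x ^ 6))).add
      (p8.const_mul (-(8 * a * s * x ^ 7)))).add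
      (p9.const_mul (a * x ^ 8)))
    refine h.congr_deriv ?_
    ring
  rw [intervalIntegral.integral_eq_sub_of_hasDerivAt (fun u _ => hd u)
    (Continuous.intervalIntegrable (by fun_prop) _ _)]
  ring

/-- the moments up to eight, as a polynomial identity -/
theorem exists_moments (l : List ℝ) : ∃ m4 m6 m8 : ℝ, 0 ≤ m4 ∧ 0 ≤ m6 ∧ 0 ≤ m8 ∧
    m4 ≤ 3 * (sq l / 3) ^ 2 ∧ m6 ≤ 15 * (sq l / 3) ^ 3 ∧ m8 ≤ 105 * (sq l / 3) ^ 4 ∧
    ∀ a b c d e s : ℝ, AL l (fun s => a * s ^ 8 + b * s ^ 6 + c * s ^ 4 + d * s ^ 2 + e) s =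
      2 ^ l.length * (a * (s ^ 8 + 28 * s ^ 6 * (sq l / 3) + 70 * s ^ 4 * m4 + 28 * s ^ 2 * m6 +
          m8) +
        b * (s ^ 6 + 15 * s ^ 4 * (sq l / 3) + 15 * s ^ 2 * m4 + m6) +
        c * (s ^ 4 + 6 * s ^ 2 * (sq l / 3) + m4) + d * (s ^ 2 + sq l / 3) + e) := by
  induction l with
  | nil =>
    have h0 : sq [] = 0 := by simp [sq]
    refine ⟨0, 0, 0, le_rfl, le_rfl, le_rfl, by rw [h0]; norm_num, by rw [h0]; norm_num,
      by rw [h0]; norm_num, ?_⟩
    intro a b c d e s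
    simp [AL_nil, sq]
  | cons x l ih =>
    obtain ⟨m4, m6, m8, h4, h6, h8, b4, b6, b8, ih⟩ := ih
    have hsq : sq (x :: l) = x ^ 2 + sq l := by simp [sq]
    have hnn : 0 ≤ sq l / 3 := by
      have : 0 ≤ sq l := by
        unfold sq
        apply List.sum_nonneg
        intro y hy
        obtain ⟨z, _, rfl⟩ := List.mem_map.mp hy
        positivity
      (clear * - this; positivity)
    obtain ⟨v, hv⟩ : ∃ v, v = sq l / 3 := ⟨_, rfl⟩
    obtain ⟨w, hw⟩ : ∃ w, w = x ^ 2 / 3 := ⟨_, rfl⟩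
    have hw0 : 0 ≤ w := by rw [hw]; (clear * -; positivity)
    have hx2 : x ^ 2 = 3 * w := by rw [hw]; ring
    have hx4 : x ^ 4 = 9 * w ^ 2 := by
      have : x ^ 4 = (x ^ 2) ^ 2 := by ring
      rw [this, hx2]; ring
    have hx6 : x ^ 6 = 27 * w ^ 3 := by
      have : x ^ 6 = (x ^ 2) ^ 3 := by ring
      rw [this, hx2]; ring
    have hx8 : x ^ 8 = 81 * w ^ 4 := by
      have : x ^ 8 = (x ^ 2) ^ 4 := by ring
      rw [this, hx2]; ring
    rw [← hv] at hnn b4 b6 b8 ih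
    have hv' : sq (x :: l) / 3 = v + w := by rw [hsq, hv, hw]; ring
    rw [hv']
    refine ⟨m4 + 6 * v * (x ^ 2 / 3) + x ^ 4 / 5,
      m6 + 15 * m4 * (x ^ 2 / 3) + 15 * v * (x ^ 4 / 5) + x ^ 6 / 7,
      m8 + 28 * m6 * (x ^ 2 / 3) + 70 * m4 * (x ^ 4 / 5) + 28 * v * (x ^ 6 / 7) + x ^ 8 / 9,
      by (clear * - h4 hnn; positivity), by (clear * - h6 h4 hnn; positivity), by (clear * - h8 h6 h4 hnn; positivity), ?_, ?_, ?_, ?_⟩
    · rw [hx4, hx2]
      (clear * - b4; nlinarith [sq_nonneg w])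
    · rw [hx6, hx4, hx2]
      have t1 : m4 * w ≤ 3 * v ^ 2 * w := mul_le_mul_of_nonneg_right b4 hw0
      have t2 : 0 ≤ v * w ^ 2 := by (clear * - hnn; positivity)
      have t3 : 0 ≤ w ^ 3 := by positivity
      (clear * - b6 t1 t2 t3; nlinarith)
    · rw [hx8, hx6, hx4, hx2]
      have t1 : m6 * w ≤ 15 * v ^ 3 * w := mul_le_mul_of_nonneg_right b6 hw0
      have t2 : m4 * w ^ 2 ≤ 3 * v ^ 2 * w ^ 2 := mul_le_mul_of_nonneg_right b4 (by positivity)
      have t3 : 0 ≤ v * w ^ 3 := by (clear * - hnn hw0; positivity)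
      have t4 : 0 ≤ w ^ 4 := by positivity
      have t5 : 0 ≤ v ^ 2 * w ^ 2 := by (clear * -; positivity)
      (clear * - b8 t1 t2 t3 t4 t5; nlinarith)
    · intro a b c d e s
      rw [AL_cons]
      have e1 : AL l (fun s => a * s ^ 8 + b * s ^ 6 + c * s ^ 4 + d * s ^ 2 + e) =
          fun s => 2 ^ l.length * (
            a * s ^ 8 + (28 * a * v + b) * s ^ 6 + (70 * a * m4 + 15 * b * v + c) * s ^ 4 +
            (28 * a * m6 + 15 * b * m4 + 6 * c * v + d) * s ^ 2 +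
            (a * m8 + b * m6 + c * m4 + d * v + e)) := by
        funext s
        rw [ih]
        ring
      rw [e1]
      have e2 : A x (fun s => 2 ^ l.length * (
            a * s ^ 8 + (28 * a * v + b) * s ^ 6 + (70 * a * m4 + 15 * b * v + c) * s ^ 4 +
            (28 * a * m6 + 15 * b * m4 + 6 * c * v + d) * s ^ 2 +
            (a * m8 + b * m6 + c * m4 + d * v + e))) s =
          2 ^ l.length * A x (fun s =>
            a * s ^ 8 + (28 * a * v + b) * s ^ 6 + (70 * a * m4 + 15 * b * v + c) * s ^ 4 +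
            (28 * a * m6 + 15 * b * m4 + 6 * c * v + d) * s ^ 2 +
            (a * m8 + b * m6 + c * m4 + d * v + e)) s := by
        unfold A
        rw [← intervalIntegral.integral_const_mul]
      rw [e2, A_poly, hw, List.length_cons, pow_succ]
      ring

theorem Ex_sq (l : List ℝ) : Ex l (fun s => s ^ 2) = sq l / 3 := by
  obtain ⟨m4, m6, m8, -, -, -, -, -, -, h⟩ := exists_moments l
  have := h 0 0 0 1 0 0
  unfold Ex
  have e : (fun s : ℝ => (0:ℝ) * s ^ 8 + 0 * s ^ 6 + 0 * s ^ 4 + 1 * s ^ 2 + 0) =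
      fun s => s ^ 2 := by funext s; ring
  rw [e] at this
  rw [this]
  field_simp
  ring

theorem Ex_four (l : List ℝ) : Ex l (fun s => s ^ 4) ≤ 3 * (sq l / 3) ^ 2 := by
  obtain ⟨m4, m6, m8, -, -, -, b4, -, -, h⟩ := exists_moments l
  have := h 0 0 1 0 0 0
  unfold Ex
  have e : (fun s : ℝ => (0:ℝ) * s ^ 8 + 0 * s ^ 6 + 1 * s ^ 4 + 0 * s ^ 2 + 0) =
      fun s => s ^ 4 := by funext s; ring
  rw [e] at this
  rw [this]
  have : (2:ℝ) ^ l.length * (0 * (0 ^ 8 + 28 * 0 ^ 6 * (sq l / 3) + 70 * 0 ^ 4 * m4 +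
      28 * 0 ^ 2 * m6 + m8) + 0 * (0 ^ 6 + 15 * 0 ^ 4 * (sq l / 3) + 15 * 0 ^ 2 * m4 + m6) +
      1 * (0 ^ 4 + 6 * 0 ^ 2 * (sq l / 3) + m4) + 0 * (0 ^ 2 + sq l / 3) + 0) /
      2 ^ l.length = m4 := by
    field_simp
    ring
  rw [this]
  exact b4

theorem Ex_six (l : List ℝ) : Ex l (fun s => s ^ 6) ≤ 15 * (sq l / 3) ^ 3 := by
  obtain ⟨m4, m6, m8, -, -, -, -, b6, -, h⟩ := exists_moments l
  have := h 0 1 0 0 0 0
  unfold Ex
  have e : (fun s : ℝ => (0:ℝ) * s ^ 8 + 1 * s ^ 6 + 0 * s ^ 4 + 0 * s ^ 2 + 0) =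
      fun s => s ^ 6 := by funext s; ring
  rw [e] at this
  rw [this]
  have : (2:ℝ) ^ l.length * (0 * (0 ^ 8 + 28 * 0 ^ 6 * (sq l / 3) + 70 * 0 ^ 4 * m4 +
      28 * 0 ^ 2 * m6 + m8) + 1 * (0 ^ 6 + 15 * 0 ^ 4 * (sq l / 3) + 15 * 0 ^ 2 * m4 + m6) +
      0 * (0 ^ 4 + 6 * 0 ^ 2 * (sq l / 3) + m4) + 0 * (0 ^ 2 + sq l / 3) + 0) /
      2 ^ l.length = m6 := by
    field_simp
    ring
  rw [this]
  exact b6

theorem Ex_eight (l : List ℝ) : Ex l (fun s => s ^ 8) ≤ 105 * (sq l / 3) ^ 4 := by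
  obtain ⟨m4, m6, m8, -, -, -, -, -, b8, h⟩ := exists_moments l
  have := h 1 0 0 0 0 0
  unfold Ex
  have e : (fun s : ℝ => (1:ℝ) * s ^ 8 + 0 * s ^ 6 + 0 * s ^ 4 + 0 * s ^ 2 + 0) =
      fun s => s ^ 8 := by funext s; ring
  rw [e] at this
  rw [this]
  have : (2:ℝ) ^ l.length * (1 * (0 ^ 8 + 28 * 0 ^ 6 * (sq l / 3) + 70 * 0 ^ 4 * m4 +
      28 * 0 ^ 2 * m6 + m8) + 0 * (0 ^ 6 + 15 * 0 ^ 4 * (sq l / 3) + 15 * 0 ^ 2 * m4 + m6) +
      0 * (0 ^ 4 + 6 * 0 ^ 2 * (sq l / 3) + m4) + 0 * (0 ^ 2 + sq l / 3) + 0) /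
      2 ^ l.length = m8 := by
    field_simp
    ring
  rw [this]
  exact b8

theorem sq_nonneg' (l : List ℝ) : 0 ≤ sq l := by
  unfold sq
  apply List.sum_nonneg
  intro y hy
  obtain ⟨z, _, rfl⟩ := List.mem_map.mp hy
  positivity

end Pool.Agent.M18.Helper89.SP
end

/- Helper55.SP.Phi -/
section
/-!
Project SP, module SP-08b: facts on `Phi l m = E (Y + m)₊³`.
-/

set_option autoImplicit false

open MeasureTheory Set Real Pool.Agent.M18.Slab

namespace Pool.Agent.M18.Helper89.SP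

theorem Phi_nonneg (l : List ℝ) (m : ℝ) : 0 ≤ Phi l m := by
  rw [Phi_eq]
  exact Ex_nonneg (by fun_prop) (fun s => by positivity) l

theorem Phi_sub (l : List ℝ) (m : ℝ) : Phi l m - Phi l (-m) = m ^ 3 + m * sq l := by
  rw [Phi_eq, Phi_eq, ← Ex_neg (fun s => max (s + -m) 0 ^ 3), ← Ex_sub (by fun_prop) (by fun_prop)]
  have e : (fun s : ℝ => max (s + m) 0 ^ 3 - max (-s + -m) 0 ^ 3) =
      fun s => ((3 * m) * s ^ 2 + m ^ 3) + (s ^ 3 + (3 * m ^ 2) * s) := by
    funext s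
    rcases le_total 0 (s + m) with h | h
    · rw [max_eq_left h, max_eq_right (by linarith)]
      ring
    · rw [max_eq_right h, max_eq_left (by linarith)]
      ring
  rw [e, Ex_add (by fun_prop) (by fun_prop), Ex_add (by fun_prop) (by fun_prop),
    Ex_const_mul, Ex_sq, Ex_const, Ex_odd l (φ := fun s => s ^ 3 + (3 * m ^ 2) * s)
      (fun s => by ring)]
  ring

/-- a power bound of the tail gives a moment bound -/
theorem Phi_neg_le_aux (l : List ℝ) {s : ℝ} (hs : 0 < s) (n : ℕ) (c : ℝ) (hc : 0 ≤ c)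
    (h : ∀ y, 0 ≤ y + -s → (y + -s) ^ 3 ≤ c * y ^ (2 * n)) :
    Phi l (-s) ≤ c * Ex l (fun y => y ^ (2 * n)) / 2 := by
  rw [Phi_eq, ← Ex_const_mul]
  refine Ex_symm_le (by fun_prop) (by fun_prop) (fun y => ?_) l
  have e : (-y) ^ (2 * n) = y ^ (2 * n) := by
    rw [pow_mul, pow_mul, neg_sq]
  rcases le_total 0 (y + -s) with h1 | h1
  · rw [max_eq_left h1, max_eq_right (by (clear * - hs h1; linarith))]
    have := h y h1
    (clear * - this; linarith)
  · rcases le_total 0 (-y + -s) with h' | h'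
    · rw [max_eq_right h1, max_eq_left h']
      have := h (-y) h'
      rw [e] at this
      (clear * - this; linarith)
    · rw [max_eq_right h1, max_eq_right h', zero_pow three_ne_zero, add_zero, pow_mul]
      (clear * - hc; positivity)

theorem Phi_neg_le (l : List ℝ) {s : ℝ} (hs : 0 < s) : Phi l (-s) ≤ Cb (sq l / 3) s := by
  have hv : 0 ≤ sq l / 3 := by have := sq_nonneg' l; (clear * - this; positivity)
  unfold Cb
  refine le_min ?_ (le_min ?_ ?_)
  · have h := Phi_neg_le_aux l hs 2 (27 / 256 / s) (by (clear * - hs; positivity)) ?_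
    · refine h.trans ?_
      have h4 : Ex l (fun y => y ^ (2 * 2)) ≤ 3 * (sq l / 3) ^ 2 := Ex_four l
      calc 27 / 256 / s * Ex l (fun y => y ^ (2 * 2)) / 2
          ≤ 27 / 256 / s * (3 * (sq l / 3) ^ 2) / 2 := by (clear * - h4 hs; gcongr)
        _ = (81 / 512) * (sq l / 3) ^ 2 / s := by ring
        _ ≤ 0.1583 * (sq l / 3) ^ 2 / s := by
            gcongr
            norm_num
    · intro y hy
      rw [div_mul_eq_mul_div, le_div_iff₀ hs]
      obtain ⟨d, hd⟩ : ∃ d, d = y + -s := ⟨_, rfl⟩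
      have hy' : y = d + s := by (clear * - hd; linarith)
      rw [← hd] at hy ⊢
      rw [hy']
      have h1 : 0 ≤ (d - 3 * s) ^ 2 * (27 * d ^ 2 + 14 * d * s + 3 * s ^ 2) := by (clear * - hy hs; positivity)
      have e : 256 * (27 / 256 * (d + s) ^ (2 * 2) - d ^ 3 * s) =
          (d - 3 * s) ^ 2 * (27 * d ^ 2 + 14 * d * s + 3 * s ^ 2) := by ring
      (clear * - h1; linarith)
  · have h := Phi_neg_le_aux l hs 3 (1 / 64 / s ^ 3) (by positivity) ?_
    · refine h.trans ?_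
      have h6 : Ex l (fun y => y ^ (2 * 3)) ≤ 15 * (sq l / 3) ^ 3 := Ex_six l
      calc 1 / 64 / s ^ 3 * Ex l (fun y => y ^ (2 * 3)) / 2
          ≤ 1 / 64 / s ^ 3 * (15 * (sq l / 3) ^ 3) / 2 := by gcongr
        _ = (15 / 128) * (sq l / 3) ^ 3 / s ^ 3 := by ring
        _ ≤ 0.1172 * (sq l / 3) ^ 3 / s ^ 3 := by
            gcongr
            norm_num
    · intro y hy
      have h0 : 0 < y := by (clear * - hs hy; linarith)
      rw [div_mul_eq_mul_div, le_div_iff₀ (by positivity)]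
      have h1 : (y + -s) * s ≤ 1 / 4 * y ^ 2 := by (clear * -; nlinarith [sq_nonneg (y - 2 * s)])
      have h2 := pow_le_pow_left₀ (by positivity) h1 3
      (clear * - h2; nlinarith [h2])
  · have h := Phi_neg_le_aux l hs 4 (3 ^ 3 * 5 ^ 5 / 8 ^ 8 / s ^ 5) (by positivity) ?_
    · refine h.trans ?_
      have h8 : Ex l (fun y => y ^ (2 * 4)) ≤ 105 * (sq l / 3) ^ 4 := Ex_eight l
      calc 3 ^ 3 * 5 ^ 5 / 8 ^ 8 / s ^ 5 * Ex l (fun y => y ^ (2 * 4)) / 2
          ≤ 3 ^ 3 * 5 ^ 5 / 8 ^ 8 / s ^ 5 * (105 * (sq l / 3) ^ 4) / 2 := by gcongr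
        _ = (3 ^ 3 * 5 ^ 5 / 8 ^ 8 * 105 / 2) * (sq l / 3) ^ 4 / s ^ 5 := by ring
        _ ≤ 0.2641 * (sq l / 3) ^ 4 / s ^ 5 := by
            gcongr
            norm_num
    · intro y hy
      have h0 : 0 < y := by linarith
      rw [div_mul_eq_mul_div, le_div_iff₀ (by positivity)]
      obtain ⟨d, hd⟩ : ∃ d, d = y + -s := ⟨_, rfl⟩
      have hy' : y = d + s := by (clear * - hd; linarith)
      rw [← hd] at hy ⊢
      rw [hy']
      have h1 : 0 ≤ (5 * d - 3 * s) ^ 2 * (3375 * d ^ 6 + 31050 * d ^ 5 * s +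
          130545 * d ^ 4 * s ^ 2 + 334476 * d ^ 3 * s ^ 3 + 590625 * d ^ 2 * s ^ 4 +
          106250 * d * s ^ 5 + 9375 * s ^ 6) := by (clear * - hy hs; positivity)
      have e : 8 ^ 8 * (3 ^ 3 * 5 ^ 5 / 8 ^ 8 * (d + s) ^ (2 * 4) - d ^ 3 * s ^ 5) =
          (5 * d - 3 * s) ^ 2 * (3375 * d ^ 6 + 31050 * d ^ 5 * s +
          130545 * d ^ 4 * s ^ 2 + 334476 * d ^ 3 * s ^ 3 + 590625 * d ^ 2 * s ^ 4 +
          106250 * d * s ^ 5 + 9375 * s ^ 6) := by ring
      have h2 : 0 ≤ 3 ^ 3 * 5 ^ 5 / 8 ^ 8 * (d + s) ^ (2 * 4) - d ^ 3 * s ^ 5 := by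
        by_contra hcon
        push Not at hcon
        have : 8 ^ 8 * (3 ^ 3 * 5 ^ 5 / 8 ^ 8 * (d + s) ^ (2 * 4) - d ^ 3 * s ^ 5) < 0 :=
          mul_neg_of_pos_of_neg (by norm_num) hcon
        (clear * - h1 hcon; linarith)
      (clear * - h1; linarith)

end Pool.Agent.M18.Helper89.SP
end

/- Helper72.SP.E4 -/
section
/-!
Module SP-08c of project SP (MP_66ebcc_gt): four equal coordinates.
-/

set_option autoImplicit false

open MeasureTheory Set Real Pool.Agent.M18.Slab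

namespace Pool.Agent.M18.Helper89.SP

theorem E4_bound {t x F : ℝ} {l : List ℝ} (hc : Crit t x (x :: x :: x :: l))
    (hsq : sq (x :: x :: x :: x :: l) = 1) (hx : 0 < x) (h2 : 2 * x < t) (h4 : t < 4 * x)
    (h1 : t * x ≤ 1) (hB : Beats4 t x F) : T (x :: x :: x :: x :: l) t < F := by
  have hsl : sq l = 1 - 4 * x ^ 2 := by
    unfold sq at hsq ⊢
    simp only [List.map_cons, List.sum_cons] at hsq
    linarith
  unfold Crit at hc
  have d1 := third_difference l hx (t - x)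
  have d2 := third_difference l hx (t + x)
  rw [show 3 * x - (t - x) = 4 * x - t by ring, show x - (t - x) = -(t - 2 * x) by ring,
    show -x - (t - x) = -t by ring, show -(3 * x) - (t - x) = -(t + 2 * x) by ring] at d1
  rw [show 3 * x - (t + x) = -(t - 2 * x) by ring, show x - (t + x) = -t by ring,
    show -x - (t + x) = -(t + 2 * x) by ring, show -(3 * x) - (t + x) = -(t + 4 * x) by ring] at d2
  have ht : 0 < t := by linarith
  have e1 := Phi_sub l (4 * x - t)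
  have b1 := Phi_neg_le l (s := 4 * x - t) (by linarith)
  have b2 := Phi_neg_le l (s := t - 2 * x) (by linarith)
  have b3 := Phi_neg_le l (s := t + 2 * x) (by linarith)
  rw [hsl] at e1 b1 b2 b3
  have n1 := Phi_nonneg l (-(t - 2 * x))
  have n2 := Phi_nonneg l (-t)
  have n3 := Phi_nonneg l (-(t + 4 * x))
  obtain ⟨C1, hC1⟩ : ∃ C, C = Cb ((1 - 4 * x ^ 2) / 3) (4 * x - t) := ⟨_, rfl⟩
  obtain ⟨C2, hC2⟩ : ∃ C, C = Cb ((1 - 4 * x ^ 2) / 3) (t - 2 * x) := ⟨_, rfl⟩
  obtain ⟨C3, hC3⟩ : ∃ C, C = Cb ((1 - 4 * x ^ 2) / 3) (t + 2 * x) := ⟨_, rfl⟩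
  unfold Beats4 at hB
  rw [← hC1, ← hC2, ← hC3] at hB
  rw [← hC1] at b1
  rw [← hC2] at b2
  rw [← hC3] at b3
  have htx : 0 < t * x := mul_pos ht hx
  have k1 : (1 - t * x) * Phi l (-(4 * x - t)) ≤ (1 - t * x) * C1 :=
    mul_le_mul_of_nonneg_left b1 (by linarith)
  have k2 : (4 * (t * x) - 2) * Phi l (-(t - 2 * x)) ≤ max (4 * (t * x) - 2) 0 * C2 :=
    (mul_le_mul_of_nonneg_right (le_max_left _ _) n1).trans
      (mul_le_mul_of_nonneg_left b2 (le_max_right _ _))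
  have k3 : (2 + 4 * (t * x)) * Phi l (-(t + 2 * x)) ≤ (2 + 4 * (t * x)) * C3 :=
    mul_le_mul_of_nonneg_left b3 (by linarith)
  have k4 : 0 ≤ 6 * (t * x) * Phi l (-t) := by positivity
  have k5 : 0 ≤ (1 + t * x) * Phi l (-(t + 4 * x)) := by positivity
  have e2 : Phi l (4 * x - t) = Phi l (-(4 * x - t)) + ((4 * x - t) ^ 3 + (4 * x - t) * (1 - 4 * x ^ 2)) := by
    linarith
  have hT : 48 * x ^ 3 * T (x :: x :: x :: x :: l) t =
      (1 - t * x) * (48 * x ^ 3 * P (x :: x :: x :: l) (t - x)) +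
        (1 + t * x) * (48 * x ^ 3 * P (x :: x :: x :: l) (t + x)) := by
    rw [hc]; ring
  rw [d1, d2, e2] at hT
  have h48 : 0 < 48 * x ^ 3 := by positivity
  refine lt_of_mul_lt_mul_left ?_ h48.le
  rw [hT]
  refine lt_of_le_of_lt ?_ hB
  linarith

end Pool.Agent.M18.Helper89.SP
end

/- Helper5.SP.SecondDiff -/
section
/-!
Project SP (MP_66ebcc_gt): the second difference (helper5).
-/

set_option autoImplicit false

open MeasureTheory Set Real Pool.Agent.M18.Slab Pool.Agent.M18.Slab.AAHaux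

namespace Pool.Agent.M18.Helper89.SP

theorem sd_max_sq (y : ℝ) : max y 0 ^ 2 = y ^ 2 / 2 + hh y := by
  unfold hh
  rcases le_total 0 y with h | h
  · rw [max_eq_left h, abs_of_nonneg h]; ring
  · rw [max_eq_right h, abs_of_nonpos h]; ring

theorem sd_hasDerivAt_sq (y : ℝ) : HasDerivAt (fun y : ℝ => max y 0 ^ 2) (2 * max y 0) y := by
  have h1 : HasDerivAt (fun y : ℝ => y ^ 2 / 2 + hh y) (2 * y / 2 + |y|) y := by
    have h2 : HasDerivAt (fun y : ℝ => y ^ 2) (2 * y) y := by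
      simpa using hasDerivAt_pow 2 y
    exact (h2.div_const 2).add (hasDerivAt_hh y)
  have h3 : (fun y : ℝ => max y 0 ^ 2) = fun y : ℝ => y ^ 2 / 2 + hh y := funext sd_max_sq
  rw [h3]
  convert h1 using 1
  rcases le_total 0 y with h | h
  · rw [max_eq_left h, abs_of_nonneg h]; ring
  · rw [max_eq_right h, abs_of_nonpos h]; ring

theorem sd_int {q : ℝ} (hq : 0 < q) (c : ℝ) :
    ∫ u in (-1 : ℝ)..1, max (c + q * u) 0 = (max (c + q) 0 ^ 2 - max (c - q) 0 ^ 2) / (2 * q) := by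
  have h1 : ∀ u ∈ uIcc (-1 : ℝ) 1,
      HasDerivAt (fun u : ℝ => max (c + q * u) 0 ^ 2 / (2 * q)) (max (c + q * u) 0) u := by
    intro u _
    have h2 : HasDerivAt (fun u : ℝ => c + q * u) q u := by
      simpa using ((hasDerivAt_id u).const_mul q).const_add c
    have h3 := ((sd_hasDerivAt_sq (c + q * u)).comp u h2).div_const (2 * q)
    have h4 : 2 * max (c + q * u) 0 * q / (2 * q) = max (c + q * u) 0 := by
      (clear * - hq; field_simp)
    rw [h4] at h3
    exact h3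
  rw [intervalIntegral.integral_eq_sub_of_hasDerivAt h1
    (Continuous.intervalIntegrable (by fun_prop) _ _)]
  rw [mul_one, mul_neg, mul_one, ← sub_eq_add_neg]
  ring

theorem sd_AH {r : ℝ} (hr : 0 < r) (s : ℝ) :
    A r H s = (max (r - s) 0 - max (-r - s) 0) / r := by
  rw [A_H_pos hr]
  have h1 : ∀ x : ℝ, max x 0 = (x + |x|) / 2 := by
    intro x
    rcases le_total 0 x with h | h
    · rw [max_eq_left h, abs_of_nonneg h]; ring
    · rw [max_eq_right h, abs_of_nonpos h]; ring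
  rw [h1, h1, show |r - s| = |s - r| from abs_sub_comm _ _,
    show |-r - s| = |s + r| by rw [show -r - s = -(s + r) by ring, abs_neg]]
  field_simp
  ring

theorem sd_AAH {q r : ℝ} (hq : 0 < q) (hr : 0 < r) (s : ℝ) :
    A q (A r H) s = 1 / (2 * (q * r)) * (max (q + r - s) 0 ^ 2 - max (q - r - s) 0 ^ 2
      - (max (r - q - s) 0 ^ 2 - max (-q - r - s) 0 ^ 2)) := by
  have h1 : A q (A r H) s = ∫ u in (-1 : ℝ)..1,
      (1 / r * max ((r - s) + q * u) 0 - 1 / r * max ((-r - s) + q * u) 0) := by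
    show ∫ u in (-1 : ℝ)..1, A r H (s - q * u) = _
    refine intervalIntegral.integral_congr fun u _ => ?_
    show A r H (s - q * u) = _
    rw [sd_AH hr, show r - (s - q * u) = (r - s) + q * u by ring,
      show -r - (s - q * u) = (-r - s) + q * u by ring]
    ring
  rw [h1, intervalIntegral.integral_sub (Continuous.intervalIntegrable (by fun_prop) _ _)
    (Continuous.intervalIntegrable (by fun_prop) _ _), intervalIntegral.integral_const_mul,
    intervalIntegral.integral_const_mul, sd_int hq, sd_int hq,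
    show r - s + q = q + r - s by ring, show r - s - q = r - q - s by ring,
    show -r - s + q = q - r - s by ring, show -r - s - q = -q - r - s by ring]
  field_simp
  ring

theorem sd_AL (l : List ℝ) (m s : ℝ) :
    AL l (fun x => max (m - x) 0 ^ 2) s = 2 ^ l.length * Psi l (m - s) := by
  have h1 := Pool.Agent.M18.Helper95.SP.AL_translate l (fun x => max (-x) 0 ^ 2) (-m) s
  have h2 : (fun x : ℝ => max (-(x + -m)) 0 ^ 2) = fun x => max (m - x) 0 ^ 2 := by
    funext x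
    rw [show -(x + -m) = m - x by ring]
  rw [h2] at h1
  rw [h1]
  unfold Psi
  rw [show s + -m = -(m - s) by ring]
  field_simp

theorem second_difference (l : List ℝ) {q r : ℝ} (hq : 0 < q) (hr : 0 < r) (s : ℝ) :
    8 * (q * r) * P (q :: r :: l) s =
      Psi l (q + r - s) - Psi l (q - r - s) - Psi l (r - q - s) + Psi l (-q - r - s) := by
  have hperm : (q :: r :: l).Perm (l ++ [q, r]) := by
    have h := List.perm_append_comm (l₁ := [q, r]) (l₂ := l)
    simpa using h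
  have h1 : AL (q :: r :: l) H s = AL l (A q (A r H)) s := by
    rw [AL_perm hperm, AL_append]
    rfl
  have h2 : A q (A r H) = fun s => 1 / (2 * (q * r)) *
      ((max (q + r - s) 0 ^ 2 - max (q - r - s) 0 ^ 2)
      - (max (r - q - s) 0 ^ 2 - max (-q - r - s) 0 ^ 2)) := funext fun s => sd_AAH hq hr s
  have h3 : AL l (A q (A r H)) s = 1 / (2 * (q * r)) * (2 ^ l.length * (
      Psi l (q + r - s) - Psi l (q - r - s) - (Psi l (r - q - s) - Psi l (-q - r - s)))) := by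
    rw [h2, Pool.Agent.M18.Helper95.SP.AL_const_mul]
    rw [AL_sub (φ := fun s => max (q + r - s) 0 ^ 2 - max (q - r - s) 0 ^ 2)
      (ψ := fun s => max (r - q - s) 0 ^ 2 - max (-q - r - s) 0 ^ 2) (by fun_prop) (by fun_prop)]
    rw [AL_sub (φ := fun s => max (q + r - s) 0 ^ 2) (ψ := fun s => max (q - r - s) 0 ^ 2)
      (by fun_prop) (by fun_prop)]
    rw [AL_sub (φ := fun s => max (r - q - s) 0 ^ 2) (ψ := fun s => max (-q - r - s) 0 ^ 2)
      (by fun_prop) (by fun_prop)]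
    dsimp only
    rw [sd_AL, sd_AL, sd_AL, sd_AL]
    ring
  unfold P
  rw [h1, h3, List.length_cons, List.length_cons, pow_succ, pow_succ]
  field_simp
  ring

end Pool.Agent.M18.Helper89.SP
end

/- Helper55.SP.Psi -/
section
/-!
Project SP, module SP-06b: facts on `Psi l m = E (Y + m)₊²`.
-/

set_option autoImplicit false

open MeasureTheory Set Real Pool.Agent.M18.Slab

namespace Pool.Agent.M18.Helper89.SP

theorem Psi_nonneg (l : List ℝ) (m : ℝ) : 0 ≤ Psi l m := by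
  rw [Psi_eq]
  exact Ex_nonneg (by fun_prop) (fun s => by positivity) l

theorem Psi_mono (l : List ℝ) {m m' : ℝ} (h : m ≤ m') : Psi l m ≤ Psi l m' := by
  rw [Psi_eq, Psi_eq]
  refine Ex_mono (by fun_prop) (by fun_prop) (fun s => ?_) l
  have h1 : max (s + m) 0 ≤ max (s + m') 0 := max_le_max (by (clear * - h; linarith)) le_rfl
  exact pow_le_pow_left₀ (le_max_right _ _) h1 2

theorem Psi_add (l : List ℝ) (m : ℝ) : Psi l m + Psi l (-m) = sq l / 3 + m ^ 2 := by
  rw [Psi_eq, Psi_eq, ← Ex_neg (fun s => max (s + -m) 0 ^ 2), ← Ex_add (by fun_prop) (by fun_prop)]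
  have e : (fun s : ℝ => max (s + m) 0 ^ 2 + max (-s + -m) 0 ^ 2) =
      fun s => (s ^ 2 + m ^ 2) + (2 * m) * s := by
    funext s
    rcases le_total 0 (s + m) with h | h
    · rw [max_eq_left h, max_eq_right (by (clear * - h; linarith))]
      ring
    · rw [max_eq_right h, max_eq_left (by linarith)]
      ring
  rw [e, Ex_add (by fun_prop) (by fun_prop), Ex_add (by fun_prop) (by fun_prop), Ex_sq, Ex_const,
    Ex_const_mul, Ex_odd l (φ := fun s => s) (fun s => rfl)]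
  ring

theorem Psi_nonpos_le (l : List ℝ) {m : ℝ} (hm : m ≤ 0) : Psi l m ≤ sq l / 3 / 2 := by
  have h1 := Psi_mono l hm
  have h2 := Psi_add l 0
  rw [neg_zero] at h2
  (clear * - h1 h2; linarith)

theorem Psi_le (l : List ℝ) {m k : ℝ} (hm : 0 ≤ m) (hk : 0 < k) :
    Psi l m ≤ m ^ 2 * (1 + k / 2) + sq l / 3 * (1 / 2 + 1 / (2 * k)) := by
  rw [Psi_eq]
  have h := Ex_symm_le (φ := fun s => max (s + m) 0 ^ 2)
    (ψ := fun s => (1 + 1 / k) * s ^ 2 + m ^ 2 * (2 + k)) (by fun_prop) (by fun_prop) ?_ l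
  · rw [Ex_add (by fun_prop) (by fun_prop), Ex_const_mul, Ex_sq, Ex_const] at h
    refine h.trans (le_of_eq ?_)
    field_simp
    ring
  · intro s
    have hk' : k * (1 / k) = 1 := by (clear * - hk; field_simp)
    obtain ⟨i, hi⟩ : ∃ i, i = 1 / k := ⟨_, rfl⟩
    have hi0 : 0 < i := by rw [hi]; (clear * - hk; positivity)
    rw [← hi] at hk' ⊢
    have key : ∀ y : ℝ, 2 * m * y ≤ i * y ^ 2 + k * m ^ 2 := by
      intro y
      have : 0 ≤ i * (y - k * m) ^ 2 := by (clear * - hi0; positivity)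
      have e : i * (y - k * m) ^ 2 = i * y ^ 2 - 2 * (k * i) * m * y + (k * i) * k * m ^ 2 := by
        ring
      rw [e, hk'] at this
      (clear * - this; linarith)
    rcases le_total 0 (s + m) with h | h <;> rcases le_total 0 (-s + m) with h' | h'
    · rw [max_eq_left h, max_eq_left h']
      have h1 : s ^ 2 ≤ i * s ^ 2 + k * m ^ 2 := by
        have h2 : |s| ≤ m := abs_le.mpr ⟨by (clear * - h; linarith), by (clear * - h'; linarith)⟩
        have h3 := key |s|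
        have h4 : |s| ^ 2 = s ^ 2 := sq_abs s
        rw [h4] at h3
        (clear * - h3 h4 hi0 hk h2; nlinarith [abs_nonneg s])
      (clear * - h1; nlinarith)
    · rw [max_eq_left h, max_eq_right h']
      (clear * - key; nlinarith [key s])
    · rw [max_eq_right h, max_eq_left h']
      (clear * - key; nlinarith [key (-s)])
    · have : m = 0 := by linarith
      have : s = 0 := by linarith
      subst this
      rw [max_eq_right h, max_eq_right h', zero_pow two_ne_zero, add_zero]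
      (clear * - hi0 hk; positivity)

theorem Psi_neg_le (l : List ℝ) {s : ℝ} (hs : 0 < s) : Psi l (-s) ≤ Kb (sq l / 3) s := by
  rw [Psi_eq]
  have h := Ex_symm_le (φ := fun y => max (y + -s) 0 ^ 2)
    (ψ := fun y => (16 / 729 / s ^ 4) * y ^ 6) (by fun_prop) (by fun_prop) ?_ l
  · rw [Ex_const_mul] at h
    refine h.trans ?_
    have h6 := Ex_six l
    unfold Kb
    have hv : 0 ≤ sq l / 3 := by have := sq_nonneg' l; (clear * - this; positivity)
    calc 16 / 729 / s ^ 4 * Ex l (fun y => y ^ 6) / 2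
        ≤ 16 / 729 / s ^ 4 * (15 * (sq l / 3) ^ 3) / 2 := by (clear * - h6 hs; gcongr)
      _ = (120 / 729) * (sq l / 3) ^ 3 / s ^ 4 := by ring
      _ ≤ 0.1647 * (sq l / 3) ^ 3 / s ^ 4 := by
          gcongr
          norm_num
  · intro y
    have key : ∀ y : ℝ, 0 ≤ y + -s → (y + -s) ^ 2 ≤ 16 / 729 / s ^ 4 * y ^ 6 := by
      intro y hy
      have hy0 : 0 < y := by (clear * - hs hy; linarith)
      have h1 : (y + -s) * s ^ 2 ≤ 4 / 27 * y ^ 3 := by
        (clear * - hy0 hs; nlinarith [mul_nonneg (sq_nonneg (2 * y - 3 * s)) (by positivity : 0 ≤ y + 3 * s)])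
      have h2 : ((y + -s) * s ^ 2) ^ 2 ≤ (4 / 27 * y ^ 3) ^ 2 :=
        pow_le_pow_left₀ (by positivity) h1 2
      rw [div_mul_eq_mul_div, le_div_iff₀ (by positivity)]
      (clear * - h2; nlinarith)
    rcases le_total 0 (y + -s) with h | h
    · rw [max_eq_left h, max_eq_right (by linarith)]
      have := key y h
      (clear * - this; linarith)
    · rcases le_total 0 (-y + -s) with h' | h'
      · rw [max_eq_right h, max_eq_left h']
        have := key (-y) h'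
        have e : (-y) ^ 6 = y ^ 6 := by ring
        rw [e] at this
        linarith
      · rw [max_eq_right h, max_eq_right h', zero_pow two_ne_zero, add_zero]
        positivity

end Pool.Agent.M18.Helper89.SP
end

/- Helper83.SP.T3 -/
section
/-!
Project SP, module SP-07 (helper83): the bound with three coordinates.
-/

set_option autoImplicit false

open MeasureTheory Set Real Pool.Agent.M18.Slab

namespace Pool.Agent.M18.Helper89.SP

theorem T3_master {t p q r : ℝ} {l : List ℝ} (hc : Crit t p (q :: r :: l))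
    (hr : 0 < r) (hrq : r ≤ q) (hqp : q ≤ p) (hpq : p + q ≤ t) (h1 : t * p ≤ 1) :
    8 * (q * r) * T (p :: q :: r :: l) t ≤
      (1 - t * p) * Psi l (p + q + r - t) + (3 * (t * p) - 1) * Psi l (-(t + p - q - r)) +
        (1 - t * p) * Psi l (-(t - p + q + r)) := by
  have hq : 0 < q := lt_of_lt_of_le hr hrq
  have hp : 0 < p := lt_of_lt_of_le hq hqp
  have ht : 0 < t := by (clear * - hr hrq hqp hpq; linarith)
  have htp : 0 < t * p := mul_pos ht hp
  have hA := second_difference l hq hr (t - p)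
  have hB := second_difference l hq hr (t + p)
  unfold Crit at hc
  have e1 : q + r - (t - p) = p + q + r - t := by ring
  have e2 : -q - r - (t - p) = -(t - p + q + r) := by ring
  have e3 : q + r - (t + p) = -(t + p - q - r) := by ring
  rw [e1, e2] at hA
  rw [e3] at hB
  have m1 : Psi l (-(t + p - q - r)) ≤ Psi l (q - r - (t - p)) := Psi_mono l (by (clear * - hrq hqp; linarith))
  have m2 : Psi l (-(t + p - q - r)) ≤ Psi l (r - q - (t - p)) := Psi_mono l (by linarith)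
  have m3 : Psi l (-q - r - (t + p)) ≤ Psi l (q - r - (t + p)) := Psi_mono l (by (clear * - hr hrq; linarith))
  have m4 : 0 ≤ Psi l (r - q - (t + p)) := Psi_nonneg l _
  have hPA : 8 * (q * r) * P (q :: r :: l) (t - p) ≤
      Psi l (p + q + r - t) - 2 * Psi l (-(t + p - q - r)) + Psi l (-(t - p + q + r)) := by
    rw [hA]
    (clear * - m1 m2; linarith)
  have hPB : 8 * (q * r) * P (q :: r :: l) (t + p) ≤ Psi l (-(t + p - q - r)) := by
    rw [hB]
    (clear * - m3 m4; linarith)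
  have hA' := mul_le_mul_of_nonneg_left hPA (show (0 : ℝ) ≤ 1 - t * p by (clear * - h1; linarith))
  have hB' := mul_le_mul_of_nonneg_left hPB (show (0 : ℝ) ≤ 1 + t * p by (clear * - htp; linarith))
  rw [hc]
  calc 8 * (q * r) * ((1 - t * p) * P (q :: r :: l) (t - p) +
        (1 + t * p) * P (q :: r :: l) (t + p))
      = (1 - t * p) * (8 * (q * r) * P (q :: r :: l) (t - p)) +
        (1 + t * p) * (8 * (q * r) * P (q :: r :: l) (t + p)) := by ring
    _ ≤ (1 - t * p) * (Psi l (p + q + r - t) - 2 * Psi l (-(t + p - q - r)) +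
          Psi l (-(t - p + q + r))) + (1 + t * p) * Psi l (-(t + p - q - r)) := by linarith
    _ = _ := by ring

theorem T3_bound {t p q r F : ℝ} {l : List ℝ} (hc : Crit t p (q :: r :: l))
    (hsq : sq (p :: q :: r :: l) = 1) (hr : 0 < r) (hrq : r ≤ q) (hqp : q ≤ p) (hpq : p + q ≤ t)
    (h1 : t * p ≤ 1) (h3 : 1 ≤ 3 * (t * p)) (hB : Beats t p q r F) :
    T (p :: q :: r :: l) t < F := by
  have hq : 0 < q := lt_of_lt_of_le hr hrq
  have hp : 0 < p := lt_of_lt_of_le hq hqp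
  have hv : sq l / 3 = vv p q r := by
    unfold sq at hsq
    simp only [List.map_cons, List.sum_cons] at hsq
    unfold vv sq
    (clear * - hsq; linarith)
  have hM := T3_master hc hr hrq hqp hpq h1
  have hβ : 0 < t + p - q - r := by (clear * - hr hrq hqp hpq; linarith)
  have hγ : 0 < t - p + q + r := by (clear * - hr hrq hpq; linarith)
  have kβ := Psi_neg_le l hβ
  have kγ := Psi_neg_le l hγ
  rw [hv] at kβ kγ
  have nβ := Psi_nonneg l (-(t + p - q - r))
  have hone : 0 ≤ 1 - t * p := by linarith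
  have kγ' := mul_le_mul_of_nonneg_left kγ hone
  have h8 : 0 < 8 * (q * r) := by positivity
  suffices h : 8 * (q * r) * T (p :: q :: r :: l) t < 8 * (q * r) * F from
    lt_of_mul_lt_mul_left h h8.le
  rcases hB with hB | ⟨hal, k, hk, hB⟩ | ⟨hal, hB⟩
  · refine lt_of_le_of_lt ?_ hB
    have hadd := Psi_add l (p + q + r - t)
    rw [hv] at hadd
    have m5 : Psi l (-(t + p - q - r)) ≤ Psi l (-(p + q + r - t)) := Psi_mono l (by (clear * - hrq hqp hpq; linarith))
    have hal : Psi l (p + q + r - t) ≤ (p + q + r - t) ^ 2 + vv p q r -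
        Psi l (-(t + p - q - r)) := by linarith
    have hal' := mul_le_mul_of_nonneg_left hal hone
    have hmax : (4 * (t * p) - 2) * Psi l (-(t + p - q - r)) ≤
        max (4 * (t * p) - 2) 0 * Kb (vv p q r) (t + p - q - r) := by
      refine le_trans (mul_le_mul_of_nonneg_right (le_max_left _ 0) nβ) ?_
      exact mul_le_mul_of_nonneg_left kβ (le_max_right _ _)
    unfold Gi
    (clear * - hM kγ' hal' hmax; nlinarith [hM, hal', kγ', hmax])
  · refine lt_of_le_of_lt ?_ hB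
    have hP := Psi_le l hal hk
    rw [hv] at hP
    have hP' := mul_le_mul_of_nonneg_left hP hone
    have kβ' := mul_le_mul_of_nonneg_left kβ (show 0 ≤ 3 * (t * p) - 1 by (clear * - h3; linarith))
    unfold Gii
    linarith
  · refine lt_of_le_of_lt ?_ hB
    have hP := Psi_nonpos_le l hal
    rw [hv] at hP
    have hP' := mul_le_mul_of_nonneg_left hP hone
    have kβ' := mul_le_mul_of_nonneg_left kβ (show 0 ≤ 3 * (t * p) - 1 by (clear * - h3; linarith))
    unfold Giii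
    (clear * - hM kγ' hP' kβ'; linarith)

end Pool.Agent.M18.Helper89.SP
end
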