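import Mathlib
import Pool.Agent.Helper53.AM.G02
import Pool.Agent.Helper53.AM.G03
import Pool.Agent.Helper53.AM.G04
import Pool.Agent.Helper53.AM.G07
import Pool.Agent.Helper53.AM.G16

/- Helper88.SlabSmall -/
section
set_option autoImplicit false

open MeasureTheory Set Real
open scoped ENNReal Topology

namespace Pool.Agent.M18.Helper88.Slab

/-- the product of sinc's -/
noncomputable def P {n : ℕ} (a : Fin n → ℝ) (x : ℝ) : ℝ := ∏ j, sinc (a j * x)

/-- the Gaussian characteristic function -/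
noncomputable def g (x : ℝ) : ℝ := Real.exp (-(x^2/6))

lemma g_pos (x : ℝ) : 0 < g x := Real.exp_pos _

lemma P_le {n : ℕ} {a : Fin n → ℝ} (ha : ∑ j, a j ^ 2 = 1) (hs : ∀ j, |a j| ≤ 1/2) {x : ℝ}
    (hx : |x| ≤ 2*π) : P a x ≤ g x := by
  have h1 : ∀ j, |a j * x| ≤ π := by
    intro j
    rw [abs_mul]
    have := mul_le_mul (hs j) hx (abs_nonneg _) (by norm_num)
    (clear * - this; linarith)
  have h2 : P a x ≤ ∏ j, Real.exp (-((a j * x)^2/6)) := by
    apply Finset.prod_le_prod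
    · intro j _; exact sinc_nonneg (h1 j)
    · intro j _; exact sinc_le (h1 j)
  refine h2.trans (le_of_eq ?_)
  rw [← Real.exp_sum, g]
  congr 1
  have : ∑ j, -((a j * x)^2/6) = -((∑ j, a j^2) * x^2/6) := by
    rw [Finset.sum_mul, Finset.sum_div, ← Finset.sum_neg_distrib]
    apply Finset.sum_congr rfl
    intro j _
    ring
  rw [this, ha, one_mul]

lemma sum_four {n : ℕ} {a : Fin n → ℝ} (ha : ∑ j, a j ^ 2 = 1) (hs : ∀ j, |a j| ≤ 1/2) :
    ∑ j, a j ^ 4 ≤ 1/4 := by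
  have : ∑ j, a j ^ 4 ≤ ∑ j, (1/4) * a j ^ 2 := by
    apply Finset.sum_le_sum
    intro j _
    have h1 : a j ^ 2 ≤ (1/2)^2 := by
      rw [← sq_abs]
      exact pow_le_pow_left₀ (abs_nonneg _) (hs j) 2
    have : a j ^ 4 = a j^2 * a j^2 := by ring
    rw [this]
    (clear * - h1; nlinarith [sq_nonneg (a j)])
  rw [← Finset.mul_sum, ha] at this
  (clear * - this; linarith)

lemma P_ge {n : ℕ} {a : Fin n → ℝ} (ha : ∑ j, a j ^ 2 = 1) (hs : ∀ j, |a j| ≤ 1/2) {x : ℝ}
    (hx : |x| ≤ 3.8) : g x * (1 - x^4/500) ≤ P a x := by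
  have h1 : ∀ j, |a j * x| ≤ 1.9 := by
    intro j
    rw [abs_mul]
    have := mul_le_mul (hs j) hx (abs_nonneg _) (by norm_num)
    (clear * - this; linarith)
  have h2 : ∏ j, Real.exp (-((a j * x)^2/6 + (a j * x)^4/125)) ≤ P a x := by
    apply Finset.prod_le_prod
    · intro j _; exact (Real.exp_pos _).le
    · intro j _; exact sinc_ge (h1 j)
  refine le_trans ?_ h2
  rw [← Real.exp_sum, g]
  have e : ∑ j, -((a j * x)^2/6 + (a j * x)^4/125) = -((∑ j, a j^2) * x^2/6) + -((∑ j, a j^4) * x^4/125) := by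
    rw [Finset.sum_mul, Finset.sum_div, Finset.sum_mul, Finset.sum_div, ← Finset.sum_neg_distrib,
      ← Finset.sum_neg_distrib, ← Finset.sum_add_distrib]
    apply Finset.sum_congr rfl
    intro j _
    ring
  rw [e, ha, one_mul, Real.exp_add]
  apply mul_le_mul_of_nonneg_left _ (Real.exp_pos _).le
  have h3 := Real.add_one_le_exp (-((∑ j, a j^4) * x^4/125))
  have h4 := sum_four ha hs
  have h5 : (∑ j, a j^4) * x^4 ≤ 1/4 * x^4 := by (clear * - h4; gcongr)
  (clear * - h3 h5; linarith)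

lemma P_tail {n : ℕ} {a : Fin n → ℝ} (ha : ∑ j, a j ^ 2 = 1) (hs : ∀ j, |a j| ≤ 1/2) {x : ℝ}
    (hx : 2 * π ≤ x) : |P a x| ≤ 16 / x^4 := by
  have hpi := Real.pi_pos
  have hx0 : 0 < x := by linarith
  obtain ⟨t, rfl⟩ : ∃ t, x = 2 * t := ⟨x/2, by ring⟩
  have ht : π ≤ t := by linarith
  have ht0 : 0 < t := by (clear * - hpi hx; linarith)
  have h1 : |P a (2*t)| ≤ ∏ j, Real.exp (-(4 * a j^2 * Real.log t)) := by
    rw [P, Finset.abs_prod]
    apply Finset.prod_le_prod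
    · intro j _; exact abs_nonneg _
    · intro j _; exact sinc_tail (hs j) ht
  refine h1.trans (le_of_eq ?_)
  rw [← Real.exp_sum]
  have e : ∑ j, -(4 * a j^2 * Real.log t) = -(4 * (∑ j, a j^2) * Real.log t) := by
    rw [Finset.mul_sum, Finset.sum_mul, ← Finset.sum_neg_distrib]
  rw [e, ha, mul_one, Real.exp_neg]
  have e2 : 4 * Real.log t = Real.log (t^4) := by rw [Real.log_pow]; norm_num
  rw [e2, Real.exp_log (by positivity)]
  field_simp
  norm_num

lemma P_even {n : ℕ} (a : Fin n → ℝ) (x : ℝ) : P a |x| = P a x := by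
  rcases abs_choice x with h | h
  · rw [h]
  · rw [h]
    unfold P
    apply Finset.prod_congr rfl
    intro j _
    rw [mul_neg, sinc_neg]

lemma g_even (x : ℝ) : g |x| = g x := by simp [g]

lemma g_integrable : Integrable g := by
  have := integrable_exp_neg_mul_sq (b := 1/6) (by norm_num)
  refine this.congr ?_
  filter_upwards with x
  rw [g]; congr 1; ring

lemma g_cont : Continuous g := by unfold g; fun_prop

lemma P_cont {n : ℕ} (a : Fin n → ℝ) : Continuous (P a) := by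
  unfold P
  apply continuous_finsetProd
  intro j _
  exact continuous_sinc.comp (by fun_prop)

lemma sincP_integrable {n : ℕ} (a : Fin n → ℝ) (i : Fin n) (hi : a i ≠ 0) {T : ℝ} (hT : 0 < T) :
    Integrable (fun x => sinc (T * x) * P a x) := by
  have h0 := integrable_sinc_mul (abs_pos.mpr hi) hT
  refine h0.mono ?_ ?_
  · exact ((continuous_sinc.comp (by fun_prop)).mul (P_cont a)).aestronglyMeasurable
  · filter_upwards with x
    rw [norm_mul, norm_mul]
    apply mul_le_mul_of_nonneg_left _ (norm_nonneg _)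
    rw [P, ← Finset.mul_prod_erase _ _ (Finset.mem_univ i), norm_mul]
    have e : ‖sinc (|a i| * x)‖ = ‖sinc (a i * x)‖ := by
      rcases abs_choice (a i) with h | h
      · rw [h]
      · rw [h, neg_mul, sinc_neg]
    rw [e]
    apply mul_le_of_le_one_right (norm_nonneg _)
    rw [Real.norm_eq_abs, Finset.abs_prod]
    apply Finset.prod_le_one
    · intro j _; exact abs_nonneg _
    · intro j _; exact abs_sinc_le_one _

lemma sincg_integrable {T : ℝ} :
    Integrable (fun x => sinc (T * x) * g x) := by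
  refine g_integrable.mono ?_ ?_
  · exact ((continuous_sinc.comp (by fun_prop)).mul g_cont).aestronglyMeasurable
  · filter_upwards with x
    rw [norm_mul]
    apply mul_le_of_le_one_left (norm_nonneg _)
    exact abs_sinc_le_one _

/-- Gaussian value -/
lemma gauss_value {T : ℝ} (hT : 0 < T) :
    (T/π) * ∫ x, sinc (T * x) * g x = (Real.sqrt (6 * π) / π) * ∫ y in (0:ℝ)..T, Real.exp (-(3/2) * y^2) := by
  have h1 : ∀ x : ℝ, T * sinc (T * x) = ∫ y in (0:ℝ)..T, Real.cos (x * y) := by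
    intro x
    rcases eq_or_ne x 0 with rfl | hx
    · simp
    · rw [intervalIntegral.integral_comp_mul_left (fun z => Real.cos z) hx, integral_cos,
        sinc_of_ne_zero (by (clear * - hT hx; positivity))]
      simp only [mul_zero, Real.sin_zero, sub_zero, smul_eq_mul]
      rw [mul_comm x T]
      field_simp
  have h2 : T * ∫ x, sinc (T * x) * g x = ∫ x, ∫ y in (0:ℝ)..T, Real.cos (x * y) * g x := by
    rw [← integral_const_mul]
    congr 1
    ext x
    rw [← mul_assoc, h1, intervalIntegral.integral_mul_const]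
  have hjoint : Integrable (Function.uncurry fun (x y : ℝ) => Real.cos (x * y) * g x)
      (volume.prod (volume.restrict (uIoc 0 T))) := by
    have hdom : Integrable (fun p : ℝ × ℝ => g p.1 * 1) (volume.prod (volume.restrict (uIoc 0 T))) :=
      Integrable.mul_prod (f := g) (g := fun _ : ℝ => (1:ℝ)) g_integrable (by
        have : IsFiniteMeasure (volume.restrict (uIoc (0:ℝ) T)) := by
          constructor
          simp [uIoc]
        exact integrable_const _)
    refine hdom.mono ?_ ?_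
    · have hc : Continuous (Function.uncurry fun (x y : ℝ) => Real.cos (x * y) * g x) := by
        have := g_cont
        unfold Function.uncurry
        fun_prop
      exact hc.aestronglyMeasurable
    · filter_upwards with p
      simp only [Function.uncurry, mul_one]
      rw [norm_mul]
      exact mul_le_of_le_one_left (norm_nonneg _) (abs_cos_le_one _)
  have h3 : ∫ x, ∫ y in (0:ℝ)..T, Real.cos (x * y) * g x = ∫ y in (0:ℝ)..T, ∫ x, Real.cos (x * y) * g x := by
    simp_rw [intervalIntegral.integral_of_le hT.le]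
    rw [uIoc_of_le hT.le] at hjoint
    exact integral_integral_swap hjoint
  have h4 : ∀ y : ℝ, ∫ x, Real.cos (x * y) * g x = Real.sqrt (6 * π) * Real.exp (-(3/2) * y^2) := by
    intro y
    rw [← gauss_cos y]
    congr 1
    ext x
    rw [g, neg_div]
  rw [div_mul_eq_mul_div, h2, h3]
  simp_rw [h4]
  rw [intervalIntegral.integral_const_mul]
  ring

lemma T0_bounds : 0.82842 < T0 ∧ T0 < 0.82844 := by
  obtain ⟨q1, q2⟩ := sqrt2_bounds
  unfold T0
  constructor <;> (clear * - q1 q2; linarith)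

/-- the difference integrand -/
noncomputable def F {n : ℕ} (a : Fin n → ℝ) (x : ℝ) : ℝ := sinc (T0 * x) * (P a x - g x)

lemma F_int {n : ℕ} (a : Fin n → ℝ) (i : Fin n) (hi : a i ≠ 0) : Integrable (F a) := by
  have := (sincP_integrable a i hi T0_pos).sub (sincg_integrable (T := T0))
  refine this.congr ?_
  filter_upwards with x
  simp only [Pi.sub_apply, F]
  ring

lemma T_sinc {x : ℝ} (hx : 0 < x) : T0 * sinc (T0 * x) = Real.sin (T0 * x) / x := by
  have := T0_pos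
  rw [sinc_of_ne_zero (by positivity)]
  field_simp

lemma F_ge1 {n : ℕ} {a : Fin n → ℝ} (ha : ∑ j, a j ^ 2 = 1) (hs : ∀ j, |a j| ≤ 1/2) {x : ℝ}
    (hx0 : 0 < x) (hx : x ≤ 3.8) : -(x^3 * g x / 500) ≤ T0 * F a x := by
  have hpi := Real.pi_gt_three
  have h1 : P a x ≤ g x := P_le ha hs (by rw [abs_of_pos hx0]; linarith)
  have h2 := P_ge ha hs (x := x) (by rw [abs_of_pos hx0]; exact hx)
  have hg := g_pos x
  rw [F, ← mul_assoc, T_sinc hx0]
  have h3 : 0 ≤ g x - P a x := by (clear * - h1; linarith)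
  have h4 : g x - P a x ≤ g x * (x^4/500) := by (clear * - h2; linarith)
  have h5 : Real.sin (T0 * x) / x * (g x - P a x) ≤ 1 / x * (g x * (x^4/500)) := by
    have h6 : Real.sin (T0 * x) / x ≤ 1/x := by
      gcongr
      exact sin_le_one _
    calc Real.sin (T0 * x) / x * (g x - P a x) ≤ 1/x * (g x - P a x) :=
          mul_le_mul_of_nonneg_right h6 h3
      _ ≤ 1 / x * (g x * (x^4/500)) := mul_le_mul_of_nonneg_left h4 (by positivity)
  have h7 : 1 / x * (g x * (x^4/500)) = x^3 * g x / 500 := by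
    field_simp
  (clear * - h5 h7; linarith)

lemma F_ge2 {n : ℕ} {a : Fin n → ℝ} (ha : ∑ j, a j ^ 2 = 1) (hs : ∀ j, |a j| ≤ 1/2) {x : ℝ}
    (hx0 : 3.8 ≤ x) (hx : x ≤ 2 * π) : 0 ≤ T0 * F a x := by
  have hpi := Real.pi_lt_d4
  have hpos : 0 < x := by (clear * - hx0; linarith)
  obtain ⟨t1, t2⟩ := T0_bounds
  have h1 : P a x ≤ g x := P_le ha hs (by rw [abs_of_pos hpos]; (clear * - hx; linarith))
  rw [F, ← mul_assoc, T_sinc hpos]
  have h3 : P a x - g x ≤ 0 := by (clear * - h1; linarith)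
  apply mul_nonneg_of_nonpos_of_nonpos _ h3
  apply div_nonpos_of_nonpos_of_nonneg _ hpos.le
  have hlow : π ≤ T0 * x := by
    have : 0.82842 * 3.8 ≤ T0 * x := by
      apply mul_le_mul t1.le hx0 (by norm_num) T0_pos.le
    linarith
  have hup : T0 * x ≤ 2 * π := by
    have : T0 * x ≤ 1 * x := by
      apply mul_le_mul_of_nonneg_right _ hpos.le
      linarith
    (clear * - hx this; linarith)
  have : Real.sin (T0 * x) = - Real.sin (T0 * x - π) := by
    rw [Real.sin_sub_pi]; ring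
  rw [this]
  have h5 : 0 ≤ Real.sin (T0 * x - π) := Real.sin_nonneg_of_nonneg_of_le_pi (by (clear * - hlow; linarith)) (by (clear * - hup; linarith))
  (clear * - h5; linarith)

lemma F_ge3 {n : ℕ} {a : Fin n → ℝ} (ha : ∑ j, a j ^ 2 = 1) (hs : ∀ j, |a j| ≤ 1/2) {x : ℝ}
    (hx : 2 * π ≤ x) : -(16 / x^5 + x * g x / (4*π^2)) ≤ T0 * F a x := by
  have hpi := Real.pi_pos
  have hpos : 0 < x := by linarith
  have hg := g_pos x
  have h1 := P_tail ha hs hx
  rw [F, ← mul_assoc, T_sinc hpos]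
  have h2 : |Real.sin (T0 * x) / x * (P a x - g x)| ≤ 1/x * (16/x^4 + g x) := by
    rw [abs_mul]
    apply mul_le_mul
    · rw [abs_div, abs_of_pos hpos]
      gcongr
      exact abs_sin_le_one _
    · calc |P a x - g x| ≤ |P a x| + |g x| := abs_sub _ _
        _ ≤ 16/x^4 + g x := by rw [abs_of_pos hg]; (clear * - h1; linarith)
    · exact abs_nonneg _
    · positivity
  have h3 : 1/x * (16/x^4 + g x) ≤ 16 / x^5 + x * g x / (4*π^2) := by
    have h4 : 1/x ≤ x/(4*π^2) := by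
      rw [div_le_div_iff₀ hpos (by positivity)]
      (clear * - hx hpi; nlinarith)
    have h5 : 1/x * g x ≤ x/(4*π^2) * g x := mul_le_mul_of_nonneg_right h4 hg.le
    have h6 : 1/x * (16/x^4) = 16/x^5 := by field_simp
    have h7 : x/(4*π^2) * g x = x * g x / (4*π^2) := by ring
    rw [mul_add, h6, ← h7]
    (clear * - h5; linarith)
  have := neg_abs_le (Real.sin (T0 * x) / x * (P a x - g x))
  linarith

lemma hasDerivAt_g (x : ℝ) : HasDerivAt g (-(x/3) * g x) x := by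
  have h := (((hasDerivAt_pow 2 x).div_const 6).neg).exp
  refine h.congr_deriv ?_
  simp only [g]
  norm_num
  ring

lemma int1 : ∫ x in (0:ℝ)..3.8, x^3 * g x / 500 = (18 - 61.32 * Real.exp (-(3.8^2/6)))/500 := by
  have h : ∀ x ∈ uIcc (0:ℝ) 3.8, HasDerivAt (fun x => -(3 * (x^2+6) * g x)/500) (x^3 * g x / 500) x := by
    intro x _
    have h1 := ((((hasDerivAt_pow 2 x).add_const 6).const_mul 3).mul (hasDerivAt_g x)).neg.div_const 500
    refine h1.congr_deriv ?_
    norm_num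
    ring
  rw [intervalIntegral.integral_eq_sub_of_hasDerivAt h]
  · simp only [g]
    norm_num
    ring
  · exact ((by fun_prop : Continuous fun x : ℝ => x^3).mul g_cont |>.div_const 500).intervalIntegrable _ _

lemma tendsto_g : Filter.Tendsto g Filter.atTop (𝓝 0) := by
  unfold g
  apply Real.tendsto_exp_neg_atTop_nhds_zero.comp
  apply Filter.Tendsto.atTop_div_const (by norm_num)
  exact Filter.tendsto_pow_atTop (by norm_num)

lemma tail_deriv {x : ℝ} (hx : x ≠ 0) :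
    HasDerivAt (fun x => -(4 * (x^4)⁻¹) - 3 * g x / (4*π^2)) (16 / x^5 + x * g x / (4*π^2)) x := by
  have h1 := (((hasDerivAt_pow 4 x).inv (by positivity)).const_mul 4).neg
  have h2 := ((hasDerivAt_g x).const_mul 3).div_const (4*π^2)
  refine (h1.sub h2).congr_deriv ?_
  have hpi := Real.pi_pos
  norm_num
  field_simp
  ring

lemma tail_tendsto : Filter.Tendsto (fun x => -(4 * (x^4)⁻¹) - 3 * g x / (4*π^2)) Filter.atTop (𝓝 0) := by
  have h1 : Filter.Tendsto (fun x : ℝ => (x^4)⁻¹) Filter.atTop (𝓝 0) :=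
    Filter.Tendsto.inv_tendsto_atTop (Filter.tendsto_pow_atTop (by norm_num))
  have h2 := ((h1.const_mul 4).neg).sub ((tendsto_g.const_mul 3).div_const (4*π^2))
  simpa using h2

lemma int3 : IntegrableOn (fun x => 16 / x^5 + x * g x / (4*π^2)) (Ioi (2*π)) ∧
    ∫ x in Ioi (2*π), (16 / x^5 + x * g x / (4*π^2)) = 4 * ((2*π)^4)⁻¹ + 3 * g (2*π) / (4*π^2) := by
  have hpi := Real.pi_pos
  have hd : ∀ x ∈ Ici (2*π), HasDerivAt (fun x => -(4 * (x^4)⁻¹) - 3 * g x / (4*π^2))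
      (16 / x^5 + x * g x / (4*π^2)) x := by
    intro x hx
    have : 0 < x := by have := mem_Ici.mp hx; linarith
    exact tail_deriv this.ne'
  have hp : ∀ x ∈ Ioi (2*π), 0 ≤ 16 / x^5 + x * g x / (4*π^2) := by
    intro x hx
    have : 0 < x := by have := mem_Ioi.mp hx; (clear * - hpi this; linarith)
    have hg := g_pos x
    (clear * - this hg; positivity)
  refine ⟨integrableOn_Ioi_deriv_of_nonneg' hd hp tail_tendsto, ?_⟩
  rw [integral_Ioi_of_hasDerivAt_of_nonneg' hd hp tail_tendsto]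
  ring

/-- The error estimate. -/
lemma F_integral {n : ℕ} {a : Fin n → ℝ} (ha : ∑ j, a j ^ 2 = 1) (hs : ∀ j, |a j| ≤ 1/2)
    (i : Fin n) (hi : a i ≠ 0) :
    -((18 - 61.32 * Real.exp (-(3.8^2/6)))/500 + (4 * ((2*π)^4)⁻¹ + 3 * g (2*π) / (4*π^2))) ≤
      ∫ x in Ioi (0:ℝ), T0 * F a x := by
  have hpi := Real.pi_gt_three
  have hpi' := Real.pi_pos
  have hF : Integrable (fun x => T0 * F a x) := (F_int a i hi).const_mul T0
  have hsplit : Ioi (0:ℝ) = (Ioc 0 3.8 ∪ Ioc 3.8 (2*π)) ∪ Ioi (2*π) := by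
    rw [Ioc_union_Ioc_eq_Ioc (by norm_num) (by (clear * - hpi; linarith)), Ioc_union_Ioi_eq_Ioi (by linarith)]
  have hd1 : Disjoint (Ioc (0:ℝ) 3.8 ∪ Ioc 3.8 (2*π)) (Ioi (2*π)) := by
    rw [Ioc_union_Ioc_eq_Ioc (by norm_num) (by (clear * - hpi; linarith))]
    exact Ioc_disjoint_Ioi le_rfl
  have hd2 : Disjoint (Ioc (0:ℝ) 3.8) (Ioc 3.8 (2*π)) := Ioc_disjoint_Ioc_of_le le_rfl
  rw [hsplit, setIntegral_union hd1 measurableSet_Ioi hF.integrableOn hF.integrableOn,
    setIntegral_union hd2 measurableSet_Ioc hF.integrableOn hF.integrableOn]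
  have h1 : -((18 - 61.32 * Real.exp (-(3.8^2/6)))/500) ≤ ∫ x in Ioc (0:ℝ) 3.8, T0 * F a x := by
    rw [← int1, intervalIntegral.integral_of_le (by norm_num), ← integral_neg]
    apply setIntegral_mono_on _ hF.integrableOn measurableSet_Ioc
    · intro x hx
      exact F_ge1 ha hs hx.1 hx.2
    · have : Continuous fun x : ℝ => -(x^3 * g x / 500) :=
        ((by fun_prop : Continuous fun x : ℝ => x^3).mul g_cont |>.div_const 500).neg
      exact (this.continuousOn.integrableOn_compact isCompact_Icc).mono_set Ioc_subset_Icc_self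
  have h2 : 0 ≤ ∫ x in Ioc (3.8:ℝ) (2*π), T0 * F a x := by
    apply setIntegral_nonneg measurableSet_Ioc
    intro x hx
    exact F_ge2 ha hs hx.1.le hx.2
  have h3 : -(4 * ((2*π)^4)⁻¹ + 3 * g (2*π) / (4*π^2)) ≤ ∫ x in Ioi (2*π), T0 * F a x := by
    rw [← int3.2, ← integral_neg]
    apply setIntegral_mono_on int3.1.neg hF.integrableOn measurableSet_Ioi
    intro x hx
    exact F_ge3 ha hs (le_of_lt hx)
  linarith

lemma int_gauss_poly (T : ℝ) (hT : 0 ≤ T) :
    T - T^3/2 + 9/40*T^5 - 27/336*T^7 + 81/3456*T^9 - 243/42240*T^11 ≤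
      ∫ y in (0:ℝ)..T, Real.exp (-(3/2) * y^2) := by
  have h1 : ∫ y in (0:ℝ)..T, (1 - (3/2*y^2) + (3/2*y^2)^2/2 - (3/2*y^2)^3/6 + (3/2*y^2)^4/24 - (3/2*y^2)^5/120) ≤
      ∫ y in (0:ℝ)..T, Real.exp (-(3/2) * y^2) := by
    apply intervalIntegral.integral_mono_on hT
    · exact Continuous.intervalIntegrable (by fun_prop) _ _
    · exact Continuous.intervalIntegrable (by fun_prop) _ _
    · intro y _
      have := exp_neg_ge5 (3/2*y^2) (by (clear * -; positivity))
      rw [neg_mul]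
      exact this
  refine le_trans (le_of_eq ?_) h1
  have h : ∀ x ∈ uIcc (0:ℝ) T, HasDerivAt (fun T => T - T^3/2 + 9/40*T^5 - 27/336*T^7 + 81/3456*T^9 - 243/42240*T^11)
      (1 - (3/2*x^2) + (3/2*x^2)^2/2 - (3/2*x^2)^3/6 + (3/2*x^2)^4/24 - (3/2*x^2)^5/120) x := by
    intro x _
    have h1 := (((((hasDerivAt_id x).sub ((hasDerivAt_pow 3 x).div_const 2)).add
      ((hasDerivAt_pow 5 x).const_mul (9/40))).sub ((hasDerivAt_pow 7 x).const_mul (27/336))).add
      ((hasDerivAt_pow 9 x).const_mul (81/3456))).sub ((hasDerivAt_pow 11 x).const_mul (243/42240))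
    refine h1.congr_deriv ?_
    norm_num
    ring
  rw [intervalIntegral.integral_eq_sub_of_hasDerivAt h]
  · simp
  · exact Continuous.intervalIntegrable (by fun_prop) _ _

lemma int_gauss_lower : 0.6139 ≤ ∫ y in (0:ℝ)..T0, Real.exp (-(3/2) * y^2) := by
  have h1 := int_gauss_poly 0.82842 (by norm_num)
  obtain ⟨t1, t2⟩ := T0_bounds
  have hc : Continuous fun y : ℝ => Real.exp (-(3/2) * y^2) := by fun_prop
  have h2 : ∫ y in (0:ℝ)..0.82842, Real.exp (-(3/2) * y^2) ≤ ∫ y in (0:ℝ)..T0, Real.exp (-(3/2) * y^2) := by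
    rw [← intervalIntegral.integral_add_adjacent_intervals (b := (0.82842:ℝ)) (c := T0)
      (hc.intervalIntegrable _ _) (hc.intervalIntegrable _ _)]
    have : 0 ≤ ∫ y in (0.82842:ℝ)..T0, Real.exp (-(3/2) * y^2) :=
      intervalIntegral.integral_nonneg t1.le (fun u _ => (Real.exp_pos _).le)
    (clear * - this; linarith)
  refine le_trans ?_ (h1.trans h2)
  norm_num

lemma exp_lower : 0.09 ≤ Real.exp (-(3.8^2/6)) := by
  have h1 := exp_neg_ge5 (3.8^2/24) (by norm_num)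
  have h2 : Real.exp (-(3.8^2/6)) = Real.exp (-(3.8^2/24))^4 := by
    rw [← Real.exp_nat_mul]
    congr 1
    norm_num
  have h3 : (0.5478:ℝ) ≤ Real.exp (-(3.8^2/24)) := by
    refine le_trans ?_ h1
    norm_num
  rw [h2]
  have h4 : (0.5478:ℝ)^4 ≤ Real.exp (-(3.8^2/24))^4 := by gcongr
  refine le_trans ?_ h4
  norm_num

lemma g_2pi : g (2*π) ≤ 0.0025 := by
  have hpi := Real.pi_gt_d4
  have h1 : g (2*π) ≤ Real.exp (-6) := by
    unfold g
    apply Real.exp_le_exp.mpr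
    nlinarith
  refine h1.trans ?_
  have h2 : Real.exp (-6) = (Real.exp 1 ^ 6)⁻¹ := by
    rw [Real.exp_neg, ← Real.exp_nat_mul]
    norm_num
  have h3 : (400:ℝ) ≤ Real.exp 1 ^ 6 := by
    have := Real.exp_one_gt_d9
    have h4 : (2.718:ℝ)^6 ≤ Real.exp 1 ^ 6 := by
      apply pow_le_pow_left₀ (by norm_num)
      (clear * - this; linarith)
    refine le_trans ?_ h4
    norm_num
  rw [h2]
  calc (Real.exp 1 ^ 6)⁻¹ ≤ (400:ℝ)⁻¹ := inv_anti₀ (by norm_num) h3
    _ ≤ 0.0025 := by norm_num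

lemma err_bound : (18 - 61.32 * Real.exp (-(3.8^2/6)))/500 + (4 * ((2*π)^4)⁻¹ + 3 * g (2*π) / (4*π^2)) ≤ 0.0278 := by
  have hpi := Real.pi_gt_d4
  have h1 := exp_lower
  have h2 : (18 - 61.32 * Real.exp (-(3.8^2/6)))/500 ≤ 0.02497 := by
    norm_num at *
    linarith
  have h3 : 4 * ((2*π)^4)⁻¹ ≤ 0.00257 := by
    have h4 : (6.283:ℝ)^4 ≤ (2*π)^4 := by
      apply pow_le_pow_left₀ (by norm_num)
      (clear * - hpi; linarith)
    have h5 : ((2*π)^4)⁻¹ ≤ ((6.283:ℝ)^4)⁻¹ := inv_anti₀ (by norm_num) h4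
    have h6 : ((6.283:ℝ)^4)⁻¹ ≤ 0.0006425 := by norm_num
    (clear * - h5; linarith)
  have h4 : 3 * g (2*π) / (4*π^2) ≤ 0.0002 := by
    rw [div_le_iff₀ (by positivity)]
    have := g_2pi
    (clear * - hpi this; nlinarith)
  (clear * - h1 h3 h4; linarith)

theorem small_case {n : ℕ} (a : Fin n → ℝ) (ha : ∑ j, a j ^ 2 = 1) (hs : ∀ j, |a j| ≤ 1/2) :
    T0 ≤ prob a T0 := by
  obtain ⟨i, hi⟩ : ∃ i, a i ≠ 0 := by
    by_contra hcon
    push Not at hcon
    simp [hcon] at ha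
  have hT := T0_pos
  have hpi := Real.pi_pos
  have h1 := prob_fourier a i hi hT
  have h2 : ∫ x, sinc (T0 * x) * ∏ j, sinc (a j * x) =
      (∫ x, sinc (T0 * x) * g x) + ∫ x, F a x := by
    rw [← integral_add sincg_integrable (F_int a i hi)]
    congr 1
    ext x
    rw [F, P]
    ring
  have h3 : T0 * ∫ x, F a x = 2 * ∫ x in Ioi (0:ℝ), T0 * F a x := by
    rw [← integral_comp_abs (f := fun x => T0 * F a x), ← integral_const_mul]
    congr 1
    ext x
    rw [F, F, P_even, g_even]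
    congr 2
    rcases abs_choice x with h | h
    · rw [h]
    · rw [h, mul_neg, sinc_neg]
  have h4 := F_integral ha hs i hi
  have h5 := err_bound
  have h6 := int_gauss_lower
  have h7 := gauss_value hT
  have hq : 4.3415 ≤ Real.sqrt (6 * π) := by
    apply Real.le_sqrt_of_sq_le
    have := Real.pi_gt_d4
    norm_num at *
    (clear * - this; linarith)
  have h8 : prob a T0 * π = Real.sqrt (6 * π) * (∫ y in (0:ℝ)..T0, Real.exp (-(3/2) * y^2)) +
      2 * ∫ x in Ioi (0:ℝ), T0 * F a x := by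
    rw [h1, h2, mul_add, h7, ← h3]
    field_simp
  have h9 : 4.3415 * 0.6139 ≤ Real.sqrt (6 * π) * (∫ y in (0:ℝ)..T0, Real.exp (-(3/2) * y^2)) := by
    apply mul_le_mul hq h6 (by norm_num) (by positivity)
  have h10 : T0 * π ≤ prob a T0 * π := by
    rw [h8]
    have h11 : T0 * π ≤ 0.82844 * 3.1416 := by
      apply mul_le_mul T0_bounds.2.le Real.pi_lt_d4.le hpi.le (by norm_num)
    have h12 : (0.82844:ℝ) * 3.1416 ≤ 4.3415 * 0.6139 - 2 * 0.0278 := by norm_num
    linarith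
  exact le_of_mul_le_mul_right h10 hpi

theorem all_case {n : ℕ} (a : Fin n → ℝ) (ha : ∑ j, a j ^ 2 = 1) : T0 ≤ prob a T0 := by
  by_cases h : ∀ j, |a j| ≤ 1/2
  · exact small_case a ha h
  · push Not at h
    obtain ⟨i, hi⟩ := h
    obtain ⟨m, rfl⟩ : ∃ m, n = m + 1 := ⟨n - 1, by have := i.2; omega⟩
    exact large_case a i ha hi.le

end Pool.Agent.M18.Helper88.Slab
end

/- Helper95.SP.Crude.Lists -/
section
/-! Products of `sinc` over lists (SP-wave, module Lists). -/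

set_option autoImplicit false

namespace Pool.Agent.M18.Helper95.SP.Crude

open Real Finset

theorem PP_cons' (x : ℝ) (l : List ℝ) (k : ℝ) : PP (x :: l) k = sinc (k * x) * PP l k := by
  simp [PP]

theorem PP_append (l₁ l₂ : List ℝ) (k : ℝ) : PP (l₁ ++ l₂) k = PP l₁ k * PP l₂ k := by
  unfold PP
  rw [List.map_append, List.prod_append]

theorem PP_replicate (n : ℕ) (x k : ℝ) : PP (List.replicate n x) k = sinc (k * x) ^ n := by
  unfold PP
  rw [List.map_replicate, List.prod_replicate]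

theorem PP_one_pos {R : List ℝ} (h1 : ∀ x ∈ R, 0 < sinc x) : 0 < PP R 1 := by
  induction R with
  | nil => simp [PP]
  | cons x R ih =>
    rw [PP_cons', one_mul]
    exact mul_pos (h1 x (by simp)) (ih fun y hy => h1 y (by simp [hy]))

theorem abs_PP_le_exp {R : List ℝ} {k c : ℝ} (h1 : ∀ x ∈ R, 0 < sinc x)
    (h : ∀ x ∈ R, |sinc (k * x)| ≤ sinc x * exp (-(c * x ^ 2))) :
    |PP R k| ≤ PP R 1 * exp (-(c * (R.map fun x => x ^ 2).sum)) := by
  induction R with
  | nil => simp [PP]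
  | cons x R ih =>
    have ih' := ih (fun y hy => h1 y (by simp [hy])) (fun y hy => h y (by simp [hy]))
    have hx := h x (by simp)
    have hx1 := h1 x (by simp)
    rw [PP_cons', PP_cons', one_mul, abs_mul, List.map_cons, List.sum_cons]
    calc |sinc (k * x)| * |PP R k|
        ≤ (sinc x * exp (-(c * x ^ 2))) *
          (PP R 1 * exp (-(c * (R.map fun x => x ^ 2).sum))) :=
          mul_le_mul hx ih' (abs_nonneg _) (by positivity)
      _ = sinc x * PP R 1 * exp (-(c * (x ^ 2 + (R.map fun x => x ^ 2).sum))) := by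
          rw [show -(c * (x ^ 2 + (R.map fun x => x ^ 2).sum)) =
            -(c * x ^ 2) + -(c * (R.map fun x => x ^ 2).sum) by ring, exp_add]
          ring

theorem abs_PP_le_exp' {R : List ℝ} {k c : ℝ}
    (h : ∀ x ∈ R, |sinc (k * x)| ≤ exp (-(c * x ^ 2))) :
    |PP R k| ≤ exp (-(c * (R.map fun x => x ^ 2).sum)) := by
  induction R with
  | nil => simp [PP]
  | cons x R ih =>
    have ih' := ih (fun y hy => h y (by simp [hy]))
    have hx := h x (by simp)
    rw [PP_cons', abs_mul, List.map_cons, List.sum_cons]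
    calc |sinc (k * x)| * |PP R k|
        ≤ exp (-(c * x ^ 2)) * exp (-(c * (R.map fun x => x ^ 2).sum)) :=
          mul_le_mul hx ih' (abs_nonneg _) (by positivity)
      _ = exp (-(c * (x ^ 2 + (R.map fun x => x ^ 2).sum))) := by
          rw [← exp_add]
          congr 1
          ring

theorem exp_mul_PP_le {R : List ℝ} {k c : ℝ} (h1 : ∀ x ∈ R, 0 < sinc x)
    (h : ∀ x ∈ R, exp (-(c * x ^ 2)) * sinc x ≤ sinc (k * x)) :
    exp (-(c * (R.map fun x => x ^ 2).sum)) * PP R 1 ≤ PP R k := by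
  induction R with
  | nil => simp [PP]
  | cons x R ih =>
    have h1' : ∀ y ∈ R, 0 < sinc y := fun y hy => h1 y (by simp [hy])
    have ih' := ih h1' (fun y hy => h y (by simp [hy]))
    have hx := h x (by simp)
    have hx1 := h1 x (by simp)
    have hp := PP_one_pos h1'
    rw [PP_cons', PP_cons', one_mul, List.map_cons, List.sum_cons]
    have h2 : 0 ≤ exp (-(c * x ^ 2)) * sinc x := by positivity
    calc exp (-(c * (x ^ 2 + (R.map fun x => x ^ 2).sum))) * (sinc x * PP R 1)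
        = (exp (-(c * x ^ 2)) * sinc x) *
          (exp (-(c * (R.map fun x => x ^ 2).sum)) * PP R 1) := by
          rw [show -(c * (x ^ 2 + (R.map fun x => x ^ 2).sum)) =
            -(c * x ^ 2) + -(c * (R.map fun x => x ^ 2).sum) by ring, exp_add]
          ring
      _ ≤ sinc (k * x) * PP R k :=
          mul_le_mul hx ih' (by positivity) (h2.trans hx)

theorem exp_le_PP {R : List ℝ} {k c : ℝ} (h : ∀ x ∈ R, exp (-(c * x ^ 2)) ≤ sinc (k * x)) :
    exp (-(c * (R.map fun x => x ^ 2).sum)) ≤ PP R k := by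
  induction R with
  | nil => simp [PP]
  | cons x R ih =>
    have ih' := ih (fun y hy => h y (by simp [hy]))
    have hx := h x (by simp)
    rw [PP_cons', List.map_cons, List.sum_cons]
    calc exp (-(c * (x ^ 2 + (R.map fun x => x ^ 2).sum)))
        = exp (-(c * x ^ 2)) * exp (-(c * (R.map fun x => x ^ 2).sum)) := by
          rw [← exp_add]
          congr 1
          ring
      _ ≤ sinc (k * x) * PP R k :=
          mul_le_mul hx ih' (exp_pos _).le ((exp_pos _).le.trans hx)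

theorem abs_PP_le_exists {R : List ℝ} {k c F rho : ℝ} (h1 : ∀ x ∈ R, 0 < sinc x)
    (hr : ∀ x ∈ R, x ^ 2 ≤ rho)
    (h : ∀ x ∈ R, |sinc (k * x)| ≤ sinc x * max (exp (-(c * x ^ 2))) (exp (-F)))
    (hc : 0 ≤ c) :
    ∃ j : ℕ, |PP R k| ≤ PP R 1 *
      exp (-(j * F + c * max 0 ((R.map fun x => x ^ 2).sum - j * rho))) := by
  induction R with
  | nil => exact ⟨0, by simp [PP]⟩
  | cons x R ih =>
    have h1' : ∀ y ∈ R, 0 < sinc y := fun y hy => h1 y (by simp [hy])
    obtain ⟨j, ih'⟩ := ih h1' (fun y hy => hr y (by simp [hy])) (fun y hy => h y (by simp [hy]))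
    have hx := h x (by simp)
    have hx1 := h1 x (by simp)
    have hxr := hr x (by simp)
    have hp := PP_one_pos h1'
    set M := (R.map fun x => x ^ 2).sum with hM
    rcases le_total (exp (-F)) (exp (-(c * x ^ 2))) with hcase | hcase
    · refine ⟨j, ?_⟩
      rw [max_eq_left hcase] at hx
      rw [PP_cons', PP_cons', one_mul, abs_mul, List.map_cons, List.sum_cons]
      have hm : max 0 (x ^ 2 + M - j * rho) ≤ x ^ 2 + max 0 (M - j * rho) := by
        apply max_le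
        · have := le_max_left 0 (M - j * rho)
          positivity
        · have := le_max_right 0 (M - j * rho)
          linarith
      have hm2 := mul_le_mul_of_nonneg_left hm hc
      calc |sinc (k * x)| * |PP R k|
          ≤ (sinc x * exp (-(c * x ^ 2))) *
            (PP R 1 * exp (-(j * F + c * max 0 (M - j * rho)))) :=
            mul_le_mul hx ih' (abs_nonneg _) (by positivity)
        _ = sinc x * PP R 1 * exp (-(c * x ^ 2) + -(j * F + c * max 0 (M - j * rho))) := by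
            rw [exp_add]
            ring
        _ ≤ sinc x * PP R 1 * exp (-(j * F + c * max 0 (x ^ 2 + M - j * rho))) := by
            apply mul_le_mul_of_nonneg_left _ (by positivity)
            apply exp_le_exp.mpr
            linarith
    · refine ⟨j + 1, ?_⟩
      rw [max_eq_right hcase] at hx
      rw [PP_cons', PP_cons', one_mul, abs_mul, List.map_cons, List.sum_cons]
      have hm : max 0 (x ^ 2 + M - ((j + 1 : ℕ) : ℝ) * rho) ≤ max 0 (M - j * rho) := by
        apply max_le_max le_rfl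
        push_cast
        linarith
      have hm2 := mul_le_mul_of_nonneg_left hm hc
      calc |sinc (k * x)| * |PP R k|
          ≤ (sinc x * exp (-F)) *
            (PP R 1 * exp (-(j * F + c * max 0 (M - j * rho)))) :=
            mul_le_mul hx ih' (abs_nonneg _) (by positivity)
        _ = sinc x * PP R 1 * exp (-F + -(j * F + c * max 0 (M - j * rho))) := by
            rw [exp_add]
            ring
        _ ≤ sinc x * PP R 1 *
            exp (-(((j + 1 : ℕ) : ℝ) * F + c * max 0 (x ^ 2 + M - ((j + 1 : ℕ) : ℝ) * rho))) := by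
            apply mul_le_mul_of_nonneg_left _ (by positivity)
            apply exp_le_exp.mpr
            push_cast at hm2 ⊢
            linarith

/-- the integrality bound -/
theorem abs_PP_le_floor {R : List ℝ} {k c F rho : ℝ} (h1 : ∀ x ∈ R, 0 < sinc x)
    (hr : ∀ x ∈ R, x ^ 2 ≤ rho)
    (h : ∀ x ∈ R, |sinc (k * x)| ≤ sinc x * max (exp (-(c * x ^ 2))) (exp (-F)))
    (hc : 0 ≤ c) (hF : 0 ≤ F) (hFc : F ≤ c * rho) (n : ℕ) :
    |PP R k| ≤ PP R 1 * exp (-(min (n * F + c * ((R.map fun x => x ^ 2).sum - n * rho))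
      ((n + 1) * F))) := by
  obtain ⟨j, hj⟩ := abs_PP_le_exists h1 hr h hc
  refine hj.trans ?_
  apply mul_le_mul_of_nonneg_left _ (PP_one_pos h1).le
  apply exp_le_exp.mpr
  apply neg_le_neg
  set M := (R.map fun x => x ^ 2).sum with hM
  rcases Nat.lt_or_ge n j with hnj | hnj
  · refine (min_le_right _ _).trans ?_
    have h2 : ((n : ℝ) + 1) ≤ j := by exact_mod_cast hnj
    have h3 : 0 ≤ c * max 0 (M - j * rho) := mul_nonneg hc (le_max_left _ _)
    have h4 := mul_le_mul_of_nonneg_right h2 hF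
    linarith
  · refine (min_le_left _ _).trans ?_
    have h2 : (0 : ℝ) ≤ (n : ℝ) - j := by
      have : (j : ℝ) ≤ n := by exact_mod_cast hnj
      linarith
    have h3 : c * (M - j * rho) ≤ c * max 0 (M - j * rho) :=
      mul_le_mul_of_nonneg_left (le_max_right _ _) hc
    have h4 := mul_nonneg h2 (sub_nonneg.mpr hFc)
    nlinarith

end Pool.Agent.M18.Helper95.SP.Crude
end

/- Helper95.SP.Pair -/
section
/-!
Pair facts: explicit inequalities between products of `sinc` imply that replacing the pair `(p, q)`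
by `(c, c)` increases the tail for all `s ≥ t + 1/1000`.
-/

set_option autoImplicit false

namespace Pool.Agent.M18.Helper95.SP

open MeasureTheory Set Pool.Agent.M18.Slab Real Filter Topology

/-- the standing assumptions on the kernel -/
structure Ker (p q c : ℝ) (l : List ℝ) (r : ℝ → ℝ) : Prop where
  hq : 0 ≤ q
  hqp : q < p
  hc0 : 0 < c
  hc : 2 * c ^ 2 = p ^ 2 + q ^ 2
  hl : p ^ 2 + q ^ 2 + (l.map fun x => x ^ 2).sum = 1
  hr : Sh r
  hd : ∀ s, HasDerivAt r (A p (A q H) s - A c (A c H) s) s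
  h2 : 0 < ∫ s, s ^ 2 * r s
  h4 : ∫ s, s ^ 4 * r s = 6 / 7 * (p ^ 2 + q ^ 2) * ∫ s, s ^ 2 * r s

namespace Ker

variable {p q c : ℝ} {l : List ℝ} {r : ℝ → ℝ}

theorem hp (K : Ker p q c l r) : 0 < p := K.hq.trans_lt K.hqp

theorem sh (K : Ker p q c l r) : Sh (AL l r) := K.hr.AL l

theorem anti (K : Ker p q c l r) : AntitoneOn (AL l r) (Ici 1.8258) :=
  antitone_R K.hp K.hq K.hc0 K.hr K.hd K.h2 K.h4 l K.hl

theorem nonneg (K : Ker p q c l r) {s : ℝ} (hs : 1.8258 ≤ s) : 0 ≤ AL l r s := by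
  obtain ⟨L, hL⟩ := K.sh.supp
  have h1 : AL l r (max L s) ≤ AL l r s := K.anti hs (hs.trans (le_max_right _ _)) (le_max_right _ _)
  rwa [hL _ ((le_max_left L s).trans (le_abs_self _))] at h1

theorem dpos (K : Ker p q c l r) : 0 < (p ^ 2 - q ^ 2) ^ 2 := by
  have h1 := K.hqp
  have h2 := K.hq
  have : 0 < p ^ 2 - q ^ 2 := by nlinarith
  (clear * - this; positivity)

/-- sum of the values far out -/
theorem tail_sum (K : Ker p q c l r) {P x : ℝ} (hP : 2 ≤ P) (hx : 5 ≤ P + x) :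
    ∑' n : ℕ, AL l r (P * ((n : ℝ) + 1) + x) ≤
      2 ^ (l.length + 2) * ((p ^ 2 - q ^ 2) ^ 2 * (1.001 / 10 ^ 12)) := by
  obtain ⟨L, hL⟩ := K.sh.supp
  have s1 := summable_shift hL (by (clear * - hP; linarith) : 0 < P) x
  have hlt : exp (-24) < 1 := by rw [← exp_zero]; exact exp_lt_exp.mpr (by norm_num)
  have s2 : Summable fun n : ℕ => 2 ^ (l.length + 2) * ((p ^ 2 - q ^ 2) ^ 2 *
      (exp (-24) ^ n / 10 ^ 12)) :=
    (((summable_geometric_of_lt_one (exp_pos _).le hlt).div_const _).mul_left _).mul_left _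
  have h3 : ∀ n : ℕ, AL l r (P * ((n : ℝ) + 1) + x) ≤ 2 ^ (l.length + 2) *
      ((p ^ 2 - q ^ 2) ^ 2 * (exp (-24) ^ n / 10 ^ 12)) := by
    intro n
    have hn : (0:ℝ) ≤ n := Nat.cast_nonneg n
    have hy : 5 ≤ P * ((n : ℝ) + 1) + x := by (clear * - hx hP; nlinarith)
    refine (far_five K.hp K.hq K.hc0 K.hc K.hr K.hd K.h2 K.h4 l K.hl hy).trans ?_
    have e1 : exp (-(12 * (P * ((n : ℝ) + 1) + x - 5))) ≤ exp (-24) ^ n := by
      rw [← exp_nat_mul]
      apply exp_le_exp.mpr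
      (clear * - hx hP; nlinarith)
    (clear * - e1; gcongr)
  refine (s1.tsum_le_tsum h3 s2).trans ?_
  rw [tsum_mul_left, tsum_mul_left, tsum_div_const, tsum_geometric_of_lt_one (exp_pos _).le hlt]
  have h4 : (1 - exp (-24))⁻¹ ≤ 1.001 := by
    have h5 : exp (-24) ≤ 1 / 1001 := by
      rw [exp_neg, inv_eq_one_div]
      apply one_div_le_one_div_of_le (by norm_num)
      have h6 : exp 24 = exp 1 ^ 24 := by rw [← exp_nat_mul]; norm_num
      rw [h6]
      calc (1001:ℝ) ≤ 2 ^ 24 := by norm_num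
        _ ≤ exp 1 ^ 24 := pow_le_pow_left₀ (by norm_num) (by (clear * -; linarith [add_one_le_exp (1:ℝ)])) 24
    rw [inv_le_comm₀ (by (clear * - hlt; linarith)) (by norm_num)]
    refine le_trans ?_ (by (clear * - h5; linarith) : 1 - 1 / 1001 ≤ 1 - exp (-24))
    norm_num
  gcongr

/-- the common value of a pair product -/
noncomputable def PB (l : List ℝ) (p q c ω : ℝ) : ℝ := PP l ω * BB p q c ω

theorem abs_PB_le (l : List ℝ) (p q c ω : ℝ) : |PB l p q c ω| ≤ 2 := by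
  unfold PB
  rw [abs_mul]
  calc |PP l ω| * |BB p q c ω| ≤ 1 * 2 :=
        mul_le_mul (abs_PP_le _ _) (abs_BB_le _ _ _ _) (abs_nonneg _) (by norm_num)
    _ = 2 := by norm_num

/-- the odd identity -/
theorem odd_identity (K : Ker p q c l r) {t h : ℝ} (ht : 0 < t) :
    AL l r (t - h) - AL l r (t + h) +
      ((∑' n : ℕ, AL l r (4 * t * ((n : ℝ) + 1) + (t - h))) -
        ∑' n : ℕ, AL l r (4 * t * ((n : ℝ) + 1) + (t + h))) +
      ((∑' n : ℕ, AL l r (4 * t * ((n : ℝ) + 1) - (t - h))) -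
        ∑' n : ℕ, AL l r (4 * t * ((n : ℝ) + 1) - (t + h))) =
    -(2 ^ (l.length + 2) / t * ∑' n : ℕ, PB l p q c (π / (2 * t) * ((n : ℝ) + 1)) /
      (π / (2 * t) * ((n : ℝ) + 1)) ^ 2 * (sin (((n : ℝ) + 1) * (π / 2)) *
        sin (π / (2 * t) * ((n : ℝ) + 1) * h))) := by
  obtain ⟨L, hL⟩ := K.sh.supp
  have hθ : 2 * π / (4 * t) = π / (2 * t) := by field_simp; norm_num
  have hθ0 : 0 < π / (2 * t) := by positivity
  have hsum := summable_ct K.hp K.hq K.hc0 K.hr K.hd l hθ0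
  have E1 := comb_nat K.sh.cont K.sh.even hL (by (clear * - ht; linarith) : 0 < 4 * t) (by rw [hθ]; exact hsum) (t - h)
  have E2 := comb_nat K.sh.cont K.sh.even hL (by (clear * - ht; linarith) : 0 < 4 * t) (by rw [hθ]; exact hsum) (t + h)
  rw [hθ] at E1 E2
  have b : ∀ x : ℝ, Summable fun n : ℕ => ct (AL l r) (π / (2 * t) * ((n : ℝ) + 1)) *
      cos (π / (2 * t) * ((n : ℝ) + 1) * x) := by
    intro x
    refine Summable.of_norm_bounded hsum.norm fun n => ?_
    rw [norm_mul]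
    exact mul_le_of_le_one_right (norm_nonneg _) (abs_cos_le_one _)
  have e3 : (∑' n : ℕ, ct (AL l r) (π / (2 * t) * ((n : ℝ) + 1)) *
      cos (π / (2 * t) * ((n : ℝ) + 1) * (t - h))) - ∑' n : ℕ, ct (AL l r)
      (π / (2 * t) * ((n : ℝ) + 1)) * cos (π / (2 * t) * ((n : ℝ) + 1) * (t + h)) =
      -(2 * 2 ^ (l.length + 2) * ∑' n : ℕ, PB l p q c (π / (2 * t) * ((n : ℝ) + 1)) /
        (π / (2 * t) * ((n : ℝ) + 1)) ^ 2 * (sin (((n : ℝ) + 1) * (π / 2)) *
        sin (π / (2 * t) * ((n : ℝ) + 1) * h))) := by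
    rw [← (b (t - h)).tsum_sub (b (t + h)), ← tsum_mul_left, ← tsum_neg]
    congr 1
    ext n
    rw [ct_R K.hp K.hq K.hc0 K.hr K.hd l]
    have c1 : π / (2 * t) * ((n : ℝ) + 1) * (t - h) =
        ((n : ℝ) + 1) * (π / 2) - π / (2 * t) * ((n : ℝ) + 1) * h := by (clear * - ht; field_simp)
    have c2 : π / (2 * t) * ((n : ℝ) + 1) * (t + h) =
        ((n : ℝ) + 1) * (π / 2) + π / (2 * t) * ((n : ℝ) + 1) * h := by (clear * - ht; field_simp)
    rw [c1, c2, cos_sub, cos_add]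
    unfold PB
    ring
  have e4 : AL l r (t - h) - AL l r (t + h) +
      ((∑' n : ℕ, AL l r (4 * t * ((n : ℝ) + 1) + (t - h))) -
        ∑' n : ℕ, AL l r (4 * t * ((n : ℝ) + 1) + (t + h))) +
      ((∑' n : ℕ, AL l r (4 * t * ((n : ℝ) + 1) - (t - h))) -
        ∑' n : ℕ, AL l r (4 * t * ((n : ℝ) + 1) - (t + h))) =
      1 / (4 * t) * (2 * ((∑' n : ℕ, ct (AL l r) (π / (2 * t) * ((n : ℝ) + 1)) *
      cos (π / (2 * t) * ((n : ℝ) + 1) * (t - h))) - ∑' n : ℕ, ct (AL l r)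
      (π / (2 * t) * ((n : ℝ) + 1)) * cos (π / (2 * t) * ((n : ℝ) + 1) * (t + h)))) := by
    linear_combination E1 - E2
  rw [e4, e3]
  generalize (∑' n : ℕ, PB l p q c (π / (2 * t) * ((n : ℝ) + 1)) /
        (π / (2 * t) * ((n : ℝ) + 1)) ^ 2 * (sin (((n : ℝ) + 1) * (π / 2)) *
        sin (π / (2 * t) * ((n : ℝ) + 1) * h))) = T
  field_simp
  ring

/-- the even identity -/
theorem even_identity (K : Ker p q c l r) {t h : ℝ} (ht : 0 < t) :
    AL l r (t - h) + (∑' n : ℕ, AL l r (2 * t * ((n : ℝ) + 1) + (t - h))) +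
      (∑' n : ℕ, AL l r (2 * t * ((n : ℝ) + 1) - (t - h))) =
    2 ^ (l.length + 2) / t * ∑' n : ℕ, PB l p q c (π / t * ((n : ℝ) + 1)) /
      (π / t * ((n : ℝ) + 1)) ^ 2 * ((-1) ^ n * cos (π / t * ((n : ℝ) + 1) * h)) := by
  obtain ⟨L, hL⟩ := K.sh.supp
  have hθ : 2 * π / (2 * t) = π / t := by field_simp
  have hθ0 : 0 < π / t := by positivity
  have hsum := summable_ct K.hp K.hq K.hc0 K.hr K.hd l hθ0
  have E1 := comb_nat K.sh.cont K.sh.even hL (by (clear * - ht; linarith) : 0 < 2 * t) (by rw [hθ]; exact hsum) (t - h)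
  rw [hθ] at E1
  rw [E1]
  have e0 : ct (AL l r) 0 = 0 := by
    unfold ct
    simp [K.sh.int0]
  rw [e0, zero_add]
  have e3 : (∑' n : ℕ, ct (AL l r) (π / t * ((n : ℝ) + 1)) *
      cos (π / t * ((n : ℝ) + 1) * (t - h))) =
      2 ^ (l.length + 2) * ∑' n : ℕ, PB l p q c (π / t * ((n : ℝ) + 1)) /
      (π / t * ((n : ℝ) + 1)) ^ 2 * ((-1) ^ n * cos (π / t * ((n : ℝ) + 1) * h)) := by
    rw [← tsum_mul_left]
    congr 1
    ext n
    rw [ct_R K.hp K.hq K.hc0 K.hr K.hd l]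
    have c1 : π / t * ((n : ℝ) + 1) * (t - h) = ((n + 1 : ℕ) : ℝ) * π - π / t * ((n : ℝ) + 1) * h := by
      push_cast; (clear * - ht; field_simp)
    rw [c1, cos_nat_mul_pi_sub]
    unfold PB
    rw [pow_succ]
    ring
  rw [e3]
  generalize (∑' n : ℕ, PB l p q c (π / t * ((n : ℝ) + 1)) /
      (π / t * ((n : ℝ) + 1)) ^ 2 * ((-1) ^ n * cos (π / t * ((n : ℝ) + 1) * h))) = T
  field_simp

theorem sin_mul_le {a : ℝ} (ha : 0 ≤ a) : sin a ≤ a := sin_le ha

end Ker

end Pool.Agent.M18.Helper95.SP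
end

/- Helper95.SP.Crude.Cfg2 -/
section
/-!
The scaled configuration of the pair facts: `m` copies of `X` (one of them in the pair `(X, U)`),
`n` copies of `Q` and a list `R` of small entries (all multiplied by the node angle).
-/

set_option autoImplicit false

namespace Pool.Agent.M18.Helper95.SP.Crude

open Real Finset

/-- the scaled configuration -/
structure Cfg2 (m n : ℕ) (w X U Q C : ℝ) (R : List ℝ) : Prop where
  hm : 1 ≤ m
  hU : 0 ≤ U
  hUX : U < X
  hQ : 0 ≤ Q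
  hC : 0 < C
  hCC : 2 * C ^ 2 = X ^ 2 + U ^ 2
  hX : X ^ 2 ≤ 5 / 4
  h9 : 9 * C ^ 2 < π ^ 2
  hQ9 : 9 * Q ^ 2 ≤ π ^ 2
  hR : ∀ x ∈ R, 0 ≤ x ∧ x ≤ 3 / 4
  hw : m * X ^ 2 + U ^ 2 + n * Q ^ 2 + (R.map fun x => x ^ 2).sum = w

/-- the sum of the squares of the rest -/
noncomputable def MM (R : List ℝ) : ℝ := (R.map fun x => x ^ 2).sum

/-- the list of the other entries -/
def LL (m n : ℕ) (X Q : ℝ) (R : List ℝ) : List ℝ :=
  List.replicate (m - 1) X ++ (List.replicate n Q ++ R)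

/-- the product of `sinc` at frequency `k` times the bracket -/
noncomputable def FF (m n : ℕ) (X U Q C : ℝ) (R : List ℝ) (k : ℝ) : ℝ :=
  Ker.PB (LL m n X Q R) X U C k

/-- the base product -/
noncomputable def R1 (m n : ℕ) (X Q : ℝ) (R : List ℝ) : ℝ := sinc X ^ (m - 1) * sinc Q ^ n * PP R 1

noncomputable def dd (X U : ℝ) : ℝ := ((X ^ 2 - U ^ 2) / 2) ^ 2

/-- membership in a box -/
structure InB (b : Bx) (X U Q : ℝ) : Prop where
  x0 : 0 ≤ b.X0
  u0 : 0 ≤ b.U0
  q0 : 0 ≤ b.Q0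
  hx0 : (b.X0 : ℝ) ≤ X
  hx1 : X ≤ (b.X1 : ℝ)
  hu0 : (b.U0 : ℝ) ≤ U
  hu1 : U ≤ (b.U1 : ℝ)
  hq0 : (b.Q0 : ℝ) ≤ Q
  hq1 : Q ≤ (b.Q1 : ℝ)

/-- the conditions on a box checked by `chkO`, `chkE` -/
structure Reg (b : Bx) (X U Q C : ℝ) (c0 c1 : ℚ) : Prop extends InB b X U Q where
  x1 : b.X1 ^ 2 ≤ 125 / 100
  xu : 9 * (b.X1 ^ 2 + b.U1 ^ 2) < 2 * PL
  q1 : 9 * b.Q1 ^ 2 ≤ PH
  hUX : U < X
  hC : 0 < C
  hCC : 2 * C ^ 2 = X ^ 2 + U ^ 2
  c0n : 0 ≤ c0
  hc0 : (c0 : ℝ) ≤ C
  hc1 : C ≤ (c1 : ℝ)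
  c1u : c1 ≤ 106 / 100

theorem PL_lt : ((PL : ℚ) : ℝ) < π ^ 2 := by
  have h1 := pi_gt_d6
  have : ((PL : ℚ) : ℝ) = 9.8696 := by unfold PL; norm_num
  rw [this]
  nlinarith

theorem lt_PH : π ^ 2 < ((PH : ℚ) : ℝ) := by
  have h1 := pi_lt_d6
  have h0 := pi_pos
  have : ((PH : ℚ) : ℝ) = 9.8697 := by unfold PH; norm_num
  rw [this]
  (clear * - h1 h0; nlinarith)

theorem FF_eq (m n : ℕ) (X U Q C : ℝ) (R : List ℝ) (k : ℝ) :
    FF m n X U Q C R k =
      sinc (k * X) ^ (m - 1) * sinc (k * Q) ^ n * PP R k * BB X U C k := by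
  unfold FF Ker.PB LL
  rw [PP_append, PP_append, PP_replicate, PP_replicate]
  ring

theorem MM_nonneg (R : List ℝ) : 0 ≤ MM R := by
  unfold MM
  apply List.sum_nonneg
  intro y hy
  obtain ⟨x, -, rfl⟩ := List.mem_map.mp hy
  (clear * -; positivity)

theorem sq_le_MM {R : List ℝ} {x : ℝ} (hx : x ∈ R) : x ^ 2 ≤ MM R := by
  unfold MM
  apply List.single_le_sum
  · intro y hy
    obtain ⟨z, -, rfl⟩ := List.mem_map.mp hy
    positivity
  · exact List.mem_map.mpr ⟨x, hx, rfl⟩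

theorem sinc_pos' {x : ℝ} (h0 : 0 ≤ x) (h1 : x ≤ 12 / 10) : 0 < sinc x :=
  (exp_pos _).trans_le (le_sinc h0 h1)

namespace Cfg2

variable {m n : ℕ} {w X U Q C : ℝ} {R : List ℝ}

theorem X0 (h : Cfg2 m n w X U Q C R) : 0 < X := h.hU.trans_lt h.hUX

theorem hM (h : Cfg2 m n w X U Q C R) : MM R = w - m * X ^ 2 - U ^ 2 - n * Q ^ 2 := by
  have := h.hw
  unfold MM
  linarith

theorem X_le (h : Cfg2 m n w X U Q C R) : X ≤ 1.12 := by
  have h1 := h.hX
  have h4 := h.X0
  nlinarith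

theorem Q_le (h : Cfg2 m n w X U Q C R) : Q ≤ 1.05 := by
  have h1 := h.hQ9
  have h2 := pi_lt_d2
  have h3 := pi_pos
  have h4 := h.hQ
  nlinarith

theorem sinc_X (h : Cfg2 m n w X U Q C R) : 0 < sinc X :=
  sinc_pos' h.X0.le (h.X_le.trans (by norm_num))

theorem sinc_Q (h : Cfg2 m n w X U Q C R) : 0 < sinc Q :=
  sinc_pos' h.hQ (h.Q_le.trans (by norm_num))

theorem sinc_R (h : Cfg2 m n w X U Q C R) : ∀ x ∈ R, 0 < sinc x := fun x hx =>
  sinc_pos' (h.hR x hx).1 (by linarith [(h.hR x hx).2])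

theorem PP_pos (h : Cfg2 m n w X U Q C R) : 0 < PP R 1 := by
  unfold PP
  apply List.prod_pos
  intro y hy
  obtain ⟨x, hx, rfl⟩ := List.mem_map.mp hy
  rw [one_mul]
  exact h.sinc_R x hx

theorem R1_pos (h : Cfg2 m n w X U Q C R) : 0 < R1 m n X Q R :=
  mul_pos (mul_pos (pow_pos h.sinc_X _) (pow_pos h.sinc_Q _)) h.PP_pos

theorem R1_ge (h : Cfg2 m n w X U Q C R) : exp (-(w / 5)) ≤ R1 m n X Q R := by
  have h1 : exp (-(1 / 5 * (R.map fun x => x ^ 2).sum)) ≤ PP R 1 := by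
    apply exp_le_PP
    intro x hx
    rw [one_mul]
    refine le_trans (le_of_eq ?_) (le_sinc (h.hR x hx).1 (by linarith [(h.hR x hx).2]))
    congr 1; ring
  have h2 : exp (-(X ^ 2 / 5)) ^ (m - 1) ≤ sinc X ^ (m - 1) :=
    pow_le_pow_left₀ (exp_pos _).le (le_sinc h.X0.le (h.X_le.trans (by norm_num))) _
  have h2' : exp (-(Q ^ 2 / 5)) ^ n ≤ sinc Q ^ n :=
    pow_le_pow_left₀ (exp_pos _).le (le_sinc h.hQ (h.Q_le.trans (by norm_num))) _
  have h3 : exp (-(X ^ 2 / 5)) ^ (m - 1) * exp (-(Q ^ 2 / 5)) ^ n *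
      exp (-(1 / 5 * (R.map fun x => x ^ 2).sum)) ≤ R1 m n X Q R :=
    mul_le_mul (mul_le_mul h2 h2' (pow_nonneg (exp_pos _).le _) (pow_nonneg h.sinc_X.le _)) h1
      (exp_pos _).le (mul_nonneg (pow_nonneg h.sinc_X.le _) (pow_nonneg h.sinc_Q.le _))
  refine le_trans ?_ h3
  rw [← exp_nat_mul, ← exp_nat_mul, ← exp_add, ← exp_add]
  apply exp_le_exp.mpr
  have h4 := h.hw
  have h5 : ((m - 1 : ℕ) : ℝ) ≤ m := by exact_mod_cast Nat.sub_le _ _
  have h6 : ((m - 1 : ℕ) : ℝ) * X ^ 2 ≤ m * X ^ 2 := mul_le_mul_of_nonneg_right h5 (sq_nonneg _)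
  have h7 := sq_nonneg U
  have e : ((m - 1 : ℕ) : ℝ) * -(X ^ 2 / 5) = -(((m - 1 : ℕ) : ℝ) * X ^ 2 / 5) := by ring
  have e' : (n : ℝ) * -(Q ^ 2 / 5) = -((n : ℝ) * Q ^ 2 / 5) := by ring
  rw [e, e']
  (clear * - h4 h6 h7; linarith)

theorem dd_pos (h : Cfg2 m n w X U Q C R) : 0 < dd X U := by
  have h1 := h.hUX
  have h2 := h.hU
  have : 0 < (X ^ 2 - U ^ 2) / 2 := by (clear * - h1 h2; nlinarith)
  unfold dd
  (clear * - this; positivity)

end Cfg2

end Pool.Agent.M18.Helper95.SP.Crude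
end

/- Helper95.SP.Crude.Drop5 -/
section
/-! The frequency `5` may be dropped: its term has the right sign (SP-wave2, module Drop5). -/

set_option autoImplicit false

namespace Pool.Agent.M18.Helper95.SP.Crude

open Real Finset

theorem sinc_nonneg_of_le_pi {x : ℝ} (h0 : 0 ≤ x) (h1 : x ≤ π) : 0 ≤ sinc x := by
  rcases h0.eq_or_lt with h | h
  · rw [← h, sinc_zero]; exact zero_le_one
  · rw [sinc_of_ne_zero h.ne']
    exact div_nonneg (sin_nonneg_of_nonneg_of_le_pi h0 h1) h0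

theorem sinc_nonpos_of_pi_le {x : ℝ} (h0 : π ≤ x) (h1 : x ≤ 2 * π) : sinc x ≤ 0 := by
  have hx : 0 < x := pi_pos.trans_le h0
  rw [sinc_of_ne_zero hx.ne']
  have h2 : 0 ≤ sin (x - π) := sin_nonneg_of_nonneg_of_le_pi (by (clear * - h0; linarith)) (by (clear * - h1; linarith))
  rw [sin_sub_pi] at h2
  exact div_nonpos_of_nonpos_of_nonneg (by linarith) hx.le

theorem drop5_sound {m n : ℕ} {w X U Q C : ℝ} {R : List ℝ} (h : Cfg2 m n w X U Q C R) {b : Bx}
    {c0 c1 : ℚ} (hb : Reg b X U Q C c0 c1) {rho : ℚ} (hrho : ∀ x ∈ R, x ^ 2 ≤ (rho : ℝ))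
    (hd : drop5 m n rho b = true) : FF m n X U Q C R 5 ≤ 0 := by
  unfold drop5 at hd
  simp only [Bool.and_eq_true, decide_eq_true_eq] at hd
  obtain ⟨⟨⟨⟨hm2, hn⟩, hX0⟩, hU1⟩, hr⟩ := hd
  have hpi1 := pi_gt_d4
  have hpi2 := pi_lt_d4
  have hX0' : (6284 / 10000 : ℝ) ≤ (b.X0 : ℝ) := by
    have : ((6284 / 10000 : ℚ) : ℝ) ≤ (b.X0 : ℝ) := by exact_mod_cast hX0
    push_cast at this
    exact this
  have hU1' : (b.U1 : ℝ) ≤ 6283 / 10000 := by
    have : (b.U1 : ℝ) ≤ ((6283 / 10000 : ℚ) : ℝ) := by exact_mod_cast hU1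
    push_cast at this
    exact this
  have hr' : (rho : ℝ) ≤ (6283 / 10000) ^ 2 := by
    have : (rho : ℝ) ≤ (((6283 / 10000) ^ 2 : ℚ) : ℝ) := by exact_mod_cast hr
    push_cast at this
    exact this
  have hX := hb.hx0
  have hU := hb.hu1
  have hXl := h.X_le
  have hsX : sinc (5 * X) ≤ 0 := sinc_nonpos_of_pi_le (by (clear * - hpi1 hpi2 hX0' hX; linarith)) (by (clear * - hpi1 hpi2 hXl; linarith))
  have hsU : 0 ≤ sinc (5 * U) :=
    sinc_nonneg_of_le_pi (by (clear * - h; linarith [h.hU])) (by (clear * - hpi1 hU1' hU; linarith))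
  have hPP : 0 ≤ PP R 5 := by
    unfold PP
    apply List.prod_nonneg
    intro y hy
    obtain ⟨x, hx, rfl⟩ := List.mem_map.mp hy
    have hx0 := (h.hR x hx).1
    have hx2 : x ^ 2 ≤ (6283 / 10000) ^ 2 := (hrho x hx).trans hr'
    have hx1 : x ≤ 6283 / 10000 := by
      by_contra hc
      push Not at hc
      (clear * - hx2 hpi1 hc hpi2 hx0; nlinarith)
    exact sinc_nonneg_of_le_pi (by (clear * - hx0; linarith)) (by (clear * - hpi1 hx1; linarith))
  have hBB : 0 ≤ BB X U C 5 := by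
    unfold BB
    have h1 : sinc (5 * X) * sinc (5 * U) ≤ 0 := mul_nonpos_of_nonpos_of_nonneg hsX hsU
    have h2 := sq_nonneg (sinc (5 * C))
    (clear * - h1 h2; linarith)
  have hodd : Odd (m - 1) := by
    have := h.hm
    rw [Nat.odd_iff]
    omega
  have hpow : sinc (5 * X) ^ (m - 1) ≤ 0 := hodd.pow_nonpos hsX
  rw [FF_eq, hn, pow_zero, mul_one]
  exact mul_nonpos_of_nonpos_of_nonneg (mul_nonpos_of_nonpos_of_nonneg hpow hPP) hBB

end Pool.Agent.M18.Helper95.SP.Crude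
end
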