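import Mathlib
import Pool.Agent.Helper53.AM.G04
import Pool.Agent.Helper53.AM.G06
import Pool.Agent.Helper53.AM.G08
import Pool.Agent.Helper53.AM.G09
import Pool.Agent.Helper53.AM.G11
import Pool.Agent.Helper53.AM.G13
import Pool.Agent.Helper53.AM.G18
import Pool.Agent.Helper53.AM.G23

/- Helper95.SP.Crude.Adm2b -/
section
set_option autoImplicit false

namespace Pool.Agent.M18.Helper95.SP.Crude

theorem subB_all {k i : ℕ} (hk : k ∈ [5, 7, 9, 11, 13, 15, 17, 19, 21, 23, 25]) (h0 : 1200 ≤ i)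
    (hi : i < 1500) (h : 6284 ≤ k * (i + 1)) : subB k i = true := by
  simp only [List.mem_cons, List.not_mem_nil, or_false] at hk
  rcases hk with rfl | rfl | rfl | rfl | rfl | rfl | rfl | rfl | rfl | rfl | rfl
  · have := subB5 (i - 1256) (by omega)
    rwa [Nat.add_sub_cancel' (by omega)] at this
  · have := subB7 (i - 1200) (by omega)
    rwa [Nat.add_sub_cancel' (by omega)] at this
  · have := subB9 (i - 1200) (by omega)
    rwa [Nat.add_sub_cancel' (by omega)] at this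
  · have := subB11 (i - 1200) (by omega)
    rwa [Nat.add_sub_cancel' (by omega)] at this
  · have := subB13 (i - 1200) (by omega)
    rwa [Nat.add_sub_cancel' (by omega)] at this
  · have := subB15 (i - 1200) (by omega)
    rwa [Nat.add_sub_cancel' (by omega)] at this
  · have := subB17 (i - 1200) (by omega)
    rwa [Nat.add_sub_cancel' (by omega)] at this
  · have := subB19 (i - 1200) (by omega)
    rwa [Nat.add_sub_cancel' (by omega)] at this
  · have := subB21 (i - 1200) (by omega)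
    rwa [Nat.add_sub_cancel' (by omega)] at this
  · have := subB23 (i - 1200) (by omega)
    rwa [Nat.add_sub_cancel' (by omega)] at this
  · have := subB25 (i - 1200) (by omega)
    rwa [Nat.add_sub_cancel' (by omega)] at this

theorem subA_all {k i : ℕ} (hk : k ∈ [5, 7, 9, 11, 13, 15, 17, 19, 21, 23, 25])
    (hi : i < 600) (h : 3142 ≤ k * (i + 1)) : subA k i = true := by
  simp only [List.mem_cons, List.not_mem_nil, or_false] at hk
  rcases hk with rfl | rfl | rfl | rfl | rfl | rfl | rfl | rfl | rfl | rfl | rfl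
  · omega
  · have := subA7 (i - 448) (by omega)
    rwa [Nat.add_sub_cancel' (by omega)] at this
  · have := subA9 (i - 349) (by omega)
    rwa [Nat.add_sub_cancel' (by omega)] at this
  · have := subA11 (i - 285) (by omega)
    rwa [Nat.add_sub_cancel' (by omega)] at this
  · have := subA13 (i - 241) (by omega)
    rwa [Nat.add_sub_cancel' (by omega)] at this
  · have := subA15 (i - 209) (by omega)
    rwa [Nat.add_sub_cancel' (by omega)] at this
  · have := subA17 (i - 184) (by omega)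
    rwa [Nat.add_sub_cancel' (by omega)] at this
  · have := subA19 (i - 165) (by omega)
    rwa [Nat.add_sub_cancel' (by omega)] at this
  · have := subA21 (i - 149) (by omega)
    rwa [Nat.add_sub_cancel' (by (clear * - hi h; omega))] at this
  · have := subA23 (i - 136) (by omega)
    rwa [Nat.add_sub_cancel' (by omega)] at this
  · have := subA25 (i - 125) (by omega)
    rwa [Nat.add_sub_cancel' (by omega)] at this

end Pool.Agent.M18.Helper95.SP.Crude
end

/- Helper95.SP.Crude.Adm2 -/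
section
/-!
Module `Adm2` (MP_66ebcc): verification of the tables `cT`, `fT` on the fine grid.
-/

set_option autoImplicit false

namespace Pool.Agent.M18.Helper95.SP.Crude

open Real Finset

theorem cc2_nonneg (k j : ℕ) : 0 ≤ cc2 k j := by unfold cc2; (clear * -; positivity)
theorem ff2_nonneg (k j : ℕ) : 0 ≤ ff2 k j := by unfold ff2; (clear * -; positivity)
theorem gr2_pos (j : ℕ) : 0 < gr2 j := by unfold gr2; split_ifs <;> (clear * -; positivity)
theorem gr2_le {j : ℕ} (hj : j < 181) : gr2 j ≤ 3 / 4 := by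
  unfold gr2
  split_ifs with h
  · have : (j : ℚ) ≤ 30 := by exact_mod_cast h
    (clear * - this; linarith)
  · have : ((j - 30 : ℕ) : ℚ) ≤ 150 := by exact_mod_cast (show j - 30 ≤ 150 by omega)
    (clear * - this; linarith)

/-- monotonicity of the tables, one step -/
theorem cc2_step : ∀ k ∈ [5, 7, 9, 11, 13, 15, 17, 19, 21, 23, 25], ∀ j < 180,
    cT k / 2 ^ (16 * (j + 1)) % 65536 ≤ cT k / 2 ^ (16 * j) % 65536 := by decide +kernel
theorem ff2_step : ∀ k ∈ [5, 7, 9, 11, 13, 15, 17, 19, 21, 23, 25], ∀ j < 180,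
    fT k / 2 ^ (16 * (j + 1)) % 65536 ≤ fT k / 2 ^ (16 * j) % 65536 := by decide +kernel
theorem cc2_zero : ∀ k ∈ [5, 7, 9, 11, 13, 15, 17, 19, 21, 23, 25],
    cc2 k 0 ≤ ((k : ℚ) ^ 2 - 1) / 6 := by decide +kernel

theorem cc2_anti {k : ℕ} (hk : k ∈ [5, 7, 9, 11, 13, 15, 17, 19, 21, 23, 25]) {i j : ℕ}
    (hij : i ≤ j) (hj : j < 181) : cc2 k j ≤ cc2 k i := by
  induction j, hij using Nat.le_induction with
  | base => exact le_rfl
  | succ j hij ih =>
    refine le_trans ?_ (ih (by omega))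
    unfold cc2
    refine div_le_div_of_nonneg_right ?_ (by norm_num)
    exact_mod_cast cc2_step k hk j (by omega)

theorem ff2_anti {k : ℕ} (hk : k ∈ [5, 7, 9, 11, 13, 15, 17, 19, 21, 23, 25]) {i j : ℕ}
    (hij : i ≤ j) (hj : j < 181) : ff2 k j ≤ ff2 k i := by
  induction j, hij using Nat.le_induction with
  | base => exact le_rfl
  | succ j hij ih =>
    refine le_trans ?_ (ih (by omega))
    unfold ff2
    refine div_le_div_of_nonneg_right ?_ (by norm_num)
    exact_mod_cast ff2_step k hk j (by omega)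

theorem cc2_le {k : ℕ} (hk : k ∈ [5, 7, 9, 11, 13, 15, 17, 19, 21, 23, 25]) {j : ℕ}
    (hj : j < 181) : cc2 k j ≤ ((k : ℚ) ^ 2 - 1) / 6 :=
  (cc2_anti hk (Nat.zero_le j) hj).trans (cc2_zero k hk)

/-- the bound on one subinterval -/
theorem abs_sin_le_of_sub2 {k : ℕ} {a b c F : ℚ} (hk : k ≤ 25) (ha : 0 ≤ a) (hab : a ≤ b)
    (hb : b ≤ 3 / 4) (hw : b - a ≤ 1 / 1000) (hc : 0 ≤ c) (hF : 0 ≤ F)
    (h : sub2 k a b c F = true) {x : ℝ} (h1 : ((a : ℚ) : ℝ) ≤ x) (h2 : x ≤ ((b : ℚ) : ℝ)) :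
    |sin (k * x)| ≤ k * sin x * exp (-((c : ℝ) * x ^ 2)) ∧
    |sin (k * x)| ≤ k * sin x * exp (-(F : ℝ)) := by
  unfold sub2 at h
  simp only [Bool.and_eq_true, decide_eq_true_eq] at h
  obtain ⟨hcc, hff⟩ := h
  have hkR : (k : ℝ) ≤ 25 := by exact_mod_cast hk
  have hkQ : (k : ℚ) ≤ 25 := by exact_mod_cast hk
  have hk0 : (0 : ℝ) ≤ k := Nat.cast_nonneg k
  have hk0Q : (0 : ℚ) ≤ k := Nat.cast_nonneg k
  have haR : (0 : ℝ) ≤ a := by exact_mod_cast ha
  have hbR : (b : ℝ) ≤ 3 / 4 := by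
    have := (Rat.cast_le (K := ℝ)).mpr hb
    push_cast at this
    exact this
  have hwR : (b : ℝ) - a ≤ 1 / 1000 := by
    have := (Rat.cast_le (K := ℝ)).mpr hw
    push_cast at this
    exact this
  have habR : (a : ℝ) ≤ b := by exact_mod_cast hab
  have hb0 : 0 ≤ b := ha.trans hab
  have hx0 : 0 ≤ x := haR.trans h1
  have hx1 : x ≤ 3 / 4 := h2.trans hbR
  have hpi : (3 : ℝ) < π := pi_gt_three
  -- sine bounds
  have hA := aSin_sound (y := k * a) (mul_nonneg hk0Q ha) (by (clear * - hkQ hab hb; nlinarith))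
  have hB := aSin_sound (y := k * b) (mul_nonneg hk0Q hb0) (by (clear * - hkQ hb; nlinarith))
  have hS := sinL_sound (y := a) ha (by (clear * - hab hb; linarith))
  push_cast at hA hB hS
  have hmax := abs_sin_le_max (a := k * a) (b := k * b) (y := k * x)
    (mul_le_mul_of_nonneg_left h1 hk0) (mul_le_mul_of_nonneg_left h2 hk0)
    (by rw [← mul_sub]; (clear * - hkR hwR; nlinarith))
  rw [← mul_sub] at hmax
  have hmax2 : |sin (k * x)| ≤ max ((aSin (k * a) : ℚ) : ℝ) ((aSin (k * b) : ℚ) : ℝ) *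
      (1 + ((k : ℝ) * (b - a)) ^ 2 / 6) :=
    hmax.trans (mul_le_mul_of_nonneg_right (max_le_max hA hB) (by (clear * -; positivity)))
  have hsx : sin (a : ℝ) ≤ sin x :=
    sin_le_sin_of_le_of_le_pi_div_two (by (clear * - haR hpi; linarith)) (by (clear * - h2 hbR hpi; linarith)) h1
  have hsi : 0 ≤ sin (a : ℝ) := sin_nonneg_of_nonneg_of_le_pi haR (by (clear * - h1 h2 hbR hpi; linarith))
  have key : ∀ {E : ℚ} {E' : ℝ}, 0 ≤ E → E' ≤ (E : ℝ) →
      max (aSin (k * a)) (aSin (k * b)) * (1 + ((k : ℚ) * (b - a)) ^ 2 / 6) ≤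
        k * sinL a * eLoF E → |sin (k * x)| ≤ k * sin x * exp (-E') := by
    intro E E' hE hEE' hh
    have hh' : max ((aSin (k * a) : ℚ) : ℝ) ((aSin (k * b) : ℚ) : ℝ) *
        (1 + ((k : ℝ) * (b - a)) ^ 2 / 6) ≤ k * ((sinL a : ℚ) : ℝ) * ((eLoF E : ℚ) : ℝ) := by
      have := (Rat.cast_le (K := ℝ)).mpr hh
      push_cast at this
      exact this
    have he0 : (0 : ℝ) ≤ ((eLoF E : ℚ) : ℝ) := by exact_mod_cast eLoF_nonneg E
    have he1 := eLoF_sound hE
    have he2 : exp (-(E : ℝ)) ≤ exp (-E') := exp_le_exp.mpr (by (clear * - hEE'; linarith))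
    calc |sin (k * x)| ≤ _ := hmax2
      _ ≤ _ := hh'
      _ ≤ k * sin x * ((eLoF E : ℚ) : ℝ) := by
          refine mul_le_mul_of_nonneg_right (mul_le_mul_of_nonneg_left ?_ hk0) he0
          exact hS.trans hsx
      _ ≤ k * sin x * exp (-E') := by
          refine mul_le_mul_of_nonneg_left (he1.trans he2) (mul_nonneg hk0 (hsi.trans hsx))
  refine ⟨key (mul_nonneg hc (sq_nonneg b)) ?_ hcc, key hF le_rfl hff⟩
  push_cast
  refine mul_le_mul_of_nonneg_left ?_ (by exact_mod_cast hc)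
  exact pow_le_pow_left₀ hx0 h2 2

theorem gr2_cast_le {j : ℕ} (hj : j < 181) : ((gr2 j : ℚ) : ℝ) ≤ 3 / 4 := by
  have := (Rat.cast_le (K := ℝ)).mpr (gr2_le hj)
  push_cast at this
  exact this

theorem adm2_aux {k j : ℕ} (hk : k ∈ [5, 7, 9, 11, 13, 15, 17, 19, 21, 23, 25]) (hj : j < 181)
    {x : ℝ} (hxj : x ≤ ((gr2 j : ℚ) : ℝ)) (hkx : π < k * x) :
    |sin (k * x)| ≤ k * sin x * exp (-(((cc2 k j : ℚ) : ℝ) * x ^ 2)) ∧
    |sin (k * x)| ≤ k * sin x * exp (-((ff2 k j : ℚ) : ℝ)) := by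
  have hpi : (3.14159 : ℝ) < π := by linarith [pi_gt_d6]
  have hk25 : k ≤ 25 ∧ 5 ≤ k := by
    simp only [List.mem_cons, List.not_mem_nil, or_false] at hk
    (clear * - j hk; omega)
  have hkR : (k : ℝ) ≤ 25 := by exact_mod_cast hk25.1
  have hk5R : (5 : ℝ) ≤ k := by exact_mod_cast hk25.2
  have hx0 : 0 < x := by
    by_contra h
    push Not at h
    (clear * - hkx hpi h; nlinarith)
  have hx75 : x ≤ 3 / 4 := hxj.trans (gr2_cast_le hj)
  have hs : 0 ≤ (k : ℝ) * sin x := mul_nonneg (by (clear * - hk5R hx0 hx75; linarith))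
    (sin_nonneg_of_nonneg_of_le_pi hx0.le (by (clear * - hpi hx0 hx75; linarith)))
  -- reduction to a subinterval
  suffices hsuff : ∃ (i : ℕ) (a b : ℚ), i ≤ j ∧ 0 ≤ a ∧ a ≤ b ∧ b ≤ 3 / 4 ∧ b - a ≤ 1 / 1000 ∧
      (a : ℝ) ≤ x ∧ x ≤ (b : ℝ) ∧ sub2 k a b (cc2 k i) (ff2 k i) = true by
    obtain ⟨i, a, b, hij, ha, hab, hb, hw, h1, h2, h⟩ := hsuff
    obtain ⟨hA, hB⟩ := abs_sin_le_of_sub2 hk25.1 ha hab hb hw (cc2_nonneg _ _) (ff2_nonneg _ _) h
      h1 h2
    have hc := cc2_anti hk hij hj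
    have hf := ff2_anti hk hij hj
    have hcR : ((cc2 k j : ℚ) : ℝ) ≤ ((cc2 k i : ℚ) : ℝ) := by exact_mod_cast hc
    have hfR : ((ff2 k j : ℚ) : ℝ) ≤ ((ff2 k i : ℚ) : ℝ) := by exact_mod_cast hf
    constructor
    · refine hA.trans (mul_le_mul_of_nonneg_left (exp_le_exp.mpr ?_) hs)
      (clear * - hcR; nlinarith [sq_nonneg x])
    · refine hB.trans (mul_le_mul_of_nonneg_left (exp_le_exp.mpr ?_) hs)
      (clear * - hfR; linarith)
  rcases le_or_gt x (6 / 10) with hx6 | hx6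
  · -- coarse part
    obtain ⟨i, hi1, hi2⟩ : ∃ i : ℕ, (i : ℝ) / 1000 < x ∧ x ≤ ((i : ℝ) + 1) / 1000 := by
      refine ⟨⌈1000 * x⌉₊ - 1, ?_, ?_⟩
      · have h1 := Nat.ceil_lt_add_one (show 0 ≤ 1000 * x by positivity)
        have h2 : 1 ≤ ⌈1000 * x⌉₊ := Nat.one_le_ceil_iff.mpr (by positivity)
        rw [Nat.cast_sub h2, div_lt_iff₀ (by norm_num)]
        push_cast; (clear * - h1; linarith)
      · have h1 := Nat.le_ceil (1000 * x)
        have h2 : 1 ≤ ⌈1000 * x⌉₊ := Nat.one_le_ceil_iff.mpr (by positivity)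
        rw [Nat.cast_sub h2, le_div_iff₀ (by norm_num)]
        push_cast; (clear * - h1; linarith)
    have hi600 : i < 600 := by
      have h1 : (i : ℝ) < 600 := by
        rw [div_lt_iff₀ (by norm_num)] at hi1
        (clear * - hx6 hi1; linarith)
      exact_mod_cast h1
    have hk3142 : 3142 ≤ k * (i + 1) := by
      have h1 : (3141 : ℝ) < k * (i + 1) := by
        rw [le_div_iff₀ (by norm_num)] at hi2
        have : (k : ℝ) * (x * 1000) ≤ k * (i + 1) := mul_le_mul_of_nonneg_left hi2 (by (clear * - hk5R hx0 hx6; linarith))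
        (clear * - hkx hpi hx0 hx6 this; linarith)
      have h2 : 3141 < k * (i + 1) := by exact_mod_cast h1
      (clear * - j h2; omega)
    have hcell : cellA i ≤ j := by
      unfold cellA
      by_cases hj30 : j ≤ 30
      · have hgr : ((gr2 j : ℚ) : ℝ) = 3 / 10 + (j : ℝ) / 100 := by
          unfold gr2; rw [if_pos hj30]; push_cast; ring
        rw [hgr] at hxj
        have h1 : (i : ℝ) < 300 + 10 * j := by
          rw [div_lt_iff₀ (by norm_num)] at hi1
          (clear * - hxj hi1; linarith)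
        have h2 : i < 300 + 10 * j := by exact_mod_cast h1
        omega
      · omega
    have hiQ : (i : ℚ) + 1 ≤ 600 := by exact_mod_cast hi600
    refine ⟨cellA i, i / 1000, (i + 1) / 1000, hcell, by (clear * -; positivity), by (clear * -; linarith), by (clear * - hiQ; linarith),
      by (clear * -; linarith), ?_, ?_, subA_all hk hi600 hk3142⟩
    · push_cast; exact hi1.le
    · push_cast; exact hi2
  · -- fine part
    have hj30 : ¬ j ≤ 30 := by
      intro hj30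
      have hgr : ((gr2 j : ℚ) : ℝ) = 3 / 10 + (j : ℝ) / 100 := by
        unfold gr2; rw [if_pos hj30]; push_cast; ring
      have hjR : (j : ℝ) ≤ 30 := by exact_mod_cast hj30
      rw [hgr] at hxj
      (clear * - hxj hx6 hjR; linarith)
    have hgr : ((gr2 j : ℚ) : ℝ) = 6 / 10 + ((j : ℝ) - 30) / 1000 := by
      unfold gr2; rw [if_neg hj30, Nat.cast_sub (by omega)]; push_cast; ring
    rw [hgr] at hxj
    obtain ⟨i, hi1, hi2⟩ : ∃ i : ℕ, (i : ℝ) / 2000 < x ∧ x ≤ ((i : ℝ) + 1) / 2000 := by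
      refine ⟨⌈2000 * x⌉₊ - 1, ?_, ?_⟩
      · have h1 := Nat.ceil_lt_add_one (show 0 ≤ 2000 * x by positivity)
        have h2 : 1 ≤ ⌈2000 * x⌉₊ := Nat.one_le_ceil_iff.mpr (by positivity)
        rw [Nat.cast_sub h2, div_lt_iff₀ (by norm_num)]
        push_cast; (clear * - h1; linarith)
      · have h1 := Nat.le_ceil (2000 * x)
        have h2 : 1 ≤ ⌈2000 * x⌉₊ := Nat.one_le_ceil_iff.mpr (by positivity)
        rw [Nat.cast_sub h2, le_div_iff₀ (by norm_num)]
        push_cast; (clear * - h1; linarith)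
    have hi1200 : 1200 ≤ i := by
      have h1 : (1200 : ℝ) < i + 1 := by
        rw [le_div_iff₀ (by norm_num)] at hi2
        (clear * - hx6 hi2; linarith)
      have h2 : 1200 < i + 1 := by exact_mod_cast h1
      omega
    have hcell0 : i < 1200 + 2 * (j - 30) := by
      have h1 : (i : ℝ) < 1200 + 2 * ((j - 30 : ℕ) : ℝ) := by
        rw [div_lt_iff₀ (by norm_num)] at hi1
        rw [Nat.cast_sub (by omega)]
        push_cast
        (clear * - hxj hi1; linarith)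
      exact_mod_cast h1
    have hi1500 : i < 1500 := by omega
    have hk6284 : 6284 ≤ k * (i + 1) := by
      have h1 : (6283 : ℝ) < k * (i + 1) := by
        rw [le_div_iff₀ (by norm_num)] at hi2
        have : (k : ℝ) * (x * 2000) ≤ k * (i + 1) := mul_le_mul_of_nonneg_left hi2 (by (clear * - hk5R hx0 hx75; linarith))
        (clear * - hkx hpi hx0 hx75 this; linarith)
      have h2 : 6283 < k * (i + 1) := by exact_mod_cast h1
      omega
    have hcell : cellB i ≤ j := by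
      unfold cellB
      omega
    have hiQ : (i : ℚ) + 1 ≤ 1500 := by exact_mod_cast hi1500
    refine ⟨cellB i, i / 2000, (i + 1) / 2000, hcell, by positivity, by (clear * -; linarith), by (clear * - hiQ; linarith),
      by (clear * -; linarith), ?_, ?_, subB_all hk hi1200 hi1500 hk6284⟩
    · push_cast; exact hi1.le
    · push_cast; exact hi2

theorem sinc_of_sin2 {k x E : ℝ} (hk : 0 < k) (hx : 0 < x)
    (h : |sin (k * x)| ≤ k * sin x * exp E) : |sinc (k * x)| ≤ sinc x * exp E := by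
  rw [sinc_of_ne_zero (by (clear * - hk hx; positivity)), sinc_of_ne_zero hx.ne', abs_div,
    abs_of_pos (show 0 < k * x by (clear * - hk hx; positivity)), div_le_iff₀ (by positivity)]
  have : sin x / x * exp E * (k * x) = k * sin x * exp E := by field_simp
  rw [this]; exact h

theorem sinc_nonneg_of_le2 {x : ℝ} (hx : 0 ≤ x) (h : x ≤ 3 / 4) : 0 ≤ sinc x := by
  by_cases h0 : x = 0
  · simp [h0]
  · rw [sinc_of_ne_zero h0]
    exact div_nonneg (sin_nonneg_of_nonneg_of_le_pi hx (by (clear * - h; linarith [pi_gt_three]))) hx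

theorem five_le_of_mem2 {k : ℕ} (hk : k ∈ [5, 7, 9, 11, 13, 15, 17, 19, 21, 23, 25]) : 5 ≤ k := by
  simp only [List.mem_cons, List.not_mem_nil, or_false] at hk
  omega

theorem adm2 {k j : ℕ} (hk : k ∈ [5, 7, 9, 11, 13, 15, 17, 19, 21, 23, 25]) (hj : j < 181) {x : ℝ}
    (hx : 0 ≤ x) (hxj : x ≤ ((gr2 j : ℚ) : ℝ)) :
    |sinc (k * x)| ≤ sinc x * exp (-(((cc2 k j : ℚ) : ℝ) * x ^ 2)) := by
  have hk5 : 5 ≤ k := five_le_of_mem2 hk
  have hk5R : (5 : ℝ) ≤ k := by exact_mod_cast hk5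
  rcases le_or_gt (k * x) π with h | h
  · have hcR : ((cc2 k j : ℚ) : ℝ) ≤ ((k : ℝ) ^ 2 - 1) / 6 := by
      have := (Rat.cast_le (K := ℝ)).mpr (cc2_le hk hj)
      push_cast at this
      exact this
    have hsx : 0 ≤ sinc x := sinc_nonneg_of_le2 hx (hxj.trans (gr2_cast_le hj))
    refine (abs_sinc_mul_le (by (clear * - hk5R; linarith)) hx h).trans (mul_le_mul_of_nonneg_left
      (exp_le_exp.mpr ?_) hsx)
    (clear * - hcR; nlinarith [sq_nonneg x])
  · have hx0 : 0 < x := by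
      by_contra h'
      have : x = 0 := le_antisymm (not_lt.mp h') hx
      rw [this, mul_zero] at h
      (clear * - h; linarith [pi_pos])
    exact sinc_of_sin2 (by linarith) hx0 (adm2_aux hk hj hxj h).1

theorem admJ2 {k j : ℕ} (hk : k ∈ [5, 7, 9, 11, 13, 15, 17, 19, 21, 23, 25]) (hj : j < 181) {x : ℝ}
    (hx : 0 ≤ x) (hxj : x ≤ ((gr2 j : ℚ) : ℝ)) :
    |sinc (k * x)| ≤ sinc x *
      max (exp (-(((k : ℝ) ^ 2 - 1) / 6 * x ^ 2))) (exp (-((ff2 k j : ℚ) : ℝ))) := by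
  have hk5 : 5 ≤ k := five_le_of_mem2 hk
  have hk5R : (5 : ℝ) ≤ k := by exact_mod_cast hk5
  have hsx : 0 ≤ sinc x := sinc_nonneg_of_le2 hx (hxj.trans (gr2_cast_le hj))
  rcases le_or_gt (k * x) π with h | h
  · exact (abs_sinc_mul_le (by (clear * - hk5R; linarith)) hx h).trans (mul_le_mul_of_nonneg_left
      (le_max_left _ _) hsx)
  · have hx0 : 0 < x := by
      by_contra h'
      have : x = 0 := le_antisymm (not_lt.mp h') hx
      rw [this, mul_zero] at h
      (clear * - h; linarith [pi_pos])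
    exact (sinc_of_sin2 (by (clear * - hk5R; linarith)) hx0 (adm2_aux hk hj hxj h).2).trans
      (mul_le_mul_of_nonneg_left (le_max_right _ _) hsx)

end Pool.Agent.M18.Helper95.SP.Crude
end

/- Helper95.SP.Crude.Copy -/
section
/-!
SP-wave2 Copy: a copy at an odd harmonic, and the rest at an odd harmonic.
-/

set_option autoImplicit false

namespace Pool.Agent.M18.Helper95.SP.Crude

open Real Finset

private theorem cp_half_pi {X : ℝ} {X1 : ℚ} (h2 : X ≤ (X1 : ℝ)) (h3 : X1 ≤ 112 / 100) :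
    X ≤ 112 / 100 ∧ X ≤ π / 2 := by
  have h4 : (X1 : ℝ) ≤ 112 / 100 := by
    have : ((X1 : ℚ) : ℝ) ≤ ((112 / 100 : ℚ) : ℝ) := Rat.cast_le.mpr h3
    simpa using this
  have := pi_gt_three
  constructor <;> (clear * - h2 h4 this; linarith)

private theorem cp_sinc_le {k : ℕ} {X : ℝ} (hk : 1 ≤ k) (h0 : 0 ≤ X) (h1 : X ≤ π / 2) :
    |sinc (k * X)| ≤ sinc X := by
  rcases h0.eq_or_lt with h | h
  · rw [← h, mul_zero, sinc_zero, abs_one]
  · have hk0 : (0 : ℝ) < k := by exact_mod_cast hk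
    have h2 := abs_sin_nat_mul_le k h0 h1
    rw [sinc_of_ne_zero (by (clear * - hk h; positivity)), sinc_of_ne_zero h.ne', abs_div,
      abs_of_pos (show (0 : ℝ) < k * X by (clear * - hk h; positivity)), div_le_div_iff₀ (by positivity) h]
    (clear * - h0 h2; nlinarith)

private theorem cp_sinL_pos {X0 : ℚ} (h : 1 / 100 ≤ X0) (h1 : X0 ≤ 112 / 100) :
    (0 : ℝ) < ((sinL X0 : ℚ) : ℝ) := by
  have h0 : 0 ≤ X0 := by (clear * - h; linarith)
  have h2 := le_sinL h0 (by (clear * - h1; linarith))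
  have h3 : (1 / 100 : ℝ) ≤ (X0 : ℝ) := by
    have : ((1 / 100 : ℚ) : ℝ) ≤ ((X0 : ℚ) : ℝ) := Rat.cast_le.mpr h
    simpa using this
  have h4 : (X0 : ℝ) ≤ 112 / 100 := by
    have : ((X0 : ℚ) : ℝ) ≤ ((112 / 100 : ℚ) : ℝ) := Rat.cast_le.mpr h1
    simpa using this
  have h5 : 0 < (X0 : ℝ) := by (clear * - h3; linarith)
  have h6 := sin_gt_sub_cube h5
  have h7 : (X0 : ℝ) ^ 3 ≤ (112 / 100) ^ 2 * X0 := by
    have : (X0 : ℝ) ^ 2 ≤ (112 / 100) ^ 2 := pow_le_pow_left₀ h5.le h4 2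
    nlinarith
  norm_num at h7 h2
  (clear * - h3 h5 h6 h7 h2; linarith)

private theorem cp_supA {k : ℕ} {X0 X1 : ℚ} {X : ℝ} (hk25 : k ≤ 25) (h0 : 0 ≤ X0)
    (h1 : (X0 : ℝ) ≤ X) (h2 : X ≤ (X1 : ℝ)) (h3 : X1 ≤ 112 / 100) :
    |sin (k * X)| ≤ ((supA (k * X0) (k * X1) : ℚ) : ℝ) := by
  have hk0 : (0 : ℝ) ≤ k := Nat.cast_nonneg k
  have h01 : 0 ≤ X1 := by
    have h5 : (0 : ℝ) ≤ (X0 : ℝ) := by exact_mod_cast h0
    have h6 : ((0 : ℚ) : ℝ) ≤ (X1 : ℝ) := by rw [Rat.cast_zero]; (clear * - h1 h2 h5; linarith)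
    exact_mod_cast h6
  apply supA_sound
  · positivity
  · have : (k : ℚ) ≤ 25 := by exact_mod_cast hk25
    calc (k : ℚ) * X1 ≤ 25 * (112 / 100) := by (clear * - this h3 h01; gcongr)
      _ ≤ 60 := by norm_num
  · push_cast
    exact mul_le_mul_of_nonneg_left h1 hk0
  · push_cast
    exact mul_le_mul_of_nonneg_left h2 hk0

private theorem cp_X0le {X0 X1 : ℚ} {X : ℝ} (h1 : (X0 : ℝ) ≤ X) (h2 : X ≤ (X1 : ℝ))
    (h3 : X1 ≤ 112 / 100) : X0 ≤ 112 / 100 := by
  have : (X0 : ℝ) ≤ (X1 : ℝ) := h1.trans h2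
  have : X0 ≤ X1 := by exact_mod_cast this
  exact this.trans h3

/-- a copy `X ∈ [X0, X1]` at the odd harmonic `k` -/
theorem qQ_sound {k : ℕ} {X0 X1 : ℚ} {X : ℝ} (hk : 1 ≤ k) (hk25 : k ≤ 25) (h0 : 0 ≤ X0)
    (h1 : (X0 : ℝ) ≤ X) (h2 : X ≤ (X1 : ℝ)) (h3 : X1 ≤ 112 / 100) :
    |sinc (k * X)| ≤ ((qQ k X0 X1 : ℚ) : ℝ) * sinc X := by
  have h0' : (0 : ℝ) ≤ (X0 : ℝ) := by exact_mod_cast h0
  have hX0 : 0 ≤ X := h0'.trans h1
  obtain ⟨hX1, hX2⟩ := cp_half_pi h2 h3
  have hs1 := cp_sinc_le hk hX0 hX2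
  have hsp : 0 < sinc X := sinc_pos' hX0 (by (clear * - hX1; linarith))
  unfold qQ
  split_ifs with hc
  · have hpos := cp_sinL_pos hc (cp_X0le h1 h2 h3)
    have hX0' : (0 : ℝ) < (X0 : ℝ) := by
      have : ((1 / 100 : ℚ) : ℝ) ≤ ((X0 : ℚ) : ℝ) := Rat.cast_le.mpr hc
      have h4 : (0 : ℝ) < ((1 / 100 : ℚ) : ℝ) := by norm_num
      (clear * - this; linarith)
    have hXp : 0 < X := hX0'.trans_le h1
    have hk0 : (0 : ℝ) < k := by exact_mod_cast hk
    have h4 := cp_supA hk25 h0 h1 h2 h3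
    have h5 : ((sinL X0 : ℚ) : ℝ) ≤ sin X := by
      refine (sinL_sound h0 ((cp_X0le h1 h2 h3).trans (by norm_num))).trans ?_
      exact sin_le_sin_of_le_of_le_pi_div_two (by (clear * - h1 hX2 hX0'; linarith [pi_pos])) hX2 h1
    have h6 : |sinc (k * X)| ≤
        ((supA (k * X0) (k * X1) / (k * sinL X0) : ℚ) : ℝ) * sinc X := by
      push_cast
      rw [sinc_of_ne_zero (by (clear * - hk hXp; positivity)), sinc_of_ne_zero hXp.ne', abs_div,
        abs_of_pos (show (0 : ℝ) < k * X by positivity), div_mul_div_comm,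
        div_le_div_iff₀ (by positivity) (by positivity)]
      have h7 : 0 ≤ ((supA (k * X0) (k * X1) : ℚ) : ℝ) := (abs_nonneg _).trans h4
      calc |sin (k * X)| * (k * ((sinL X0 : ℚ) : ℝ) * X)
          ≤ ((supA (k * X0) (k * X1) : ℚ) : ℝ) * (k * sin X * X) := by gcongr
        _ = ((supA (k * X0) (k * X1) : ℚ) : ℝ) * sin X * (k * X) := by ring
    refine le_trans ?_ (mul_le_mul_of_nonneg_right (Rat.cast_le.mpr (le_upp _)) hsp.le)
    rw [Rat.cast_min, min_mul_of_nonneg _ _ hsp.le]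
    refine le_min ?_ h6
    rwa [Rat.cast_one, one_mul]
  · rwa [Rat.cast_one, one_mul]

theorem qQ_nonneg {k : ℕ} {X0 X1 : ℚ} {X : ℝ} (hk : 1 ≤ k) (hk25 : k ≤ 25) (h0 : 0 ≤ X0)
    (h1 : (X0 : ℝ) ≤ X) (h2 : X ≤ (X1 : ℝ)) (h3 : X1 ≤ 112 / 100) : 0 ≤ qQ k X0 X1 := by
  unfold qQ
  split_ifs with hc
  · have hpos : 0 < sinL X0 := by exact_mod_cast cp_sinL_pos hc (cp_X0le h1 h2 h3)
    refine le_trans ?_ (le_upp _)
    refine le_min zero_le_one ?_
    exact div_nonneg (supA_nonneg _ _) (by positivity)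
  · exact zero_le_one

theorem qE_sound {k : ℕ} {X0 X1 : ℚ} {X : ℝ} (hk : 1 ≤ k) (hk25 : k ≤ 25) (h0 : 0 ≤ X0)
    (h1 : (X0 : ℝ) ≤ X) (h2 : X ≤ (X1 : ℝ)) (h3 : X1 ≤ 112 / 100) :
    |sinc (k * X)| ≤ ((qE k X0 X1 : ℚ) : ℝ) := by
  unfold qE
  split_ifs with hc
  · have hX0' : (0 : ℝ) < (X0 : ℝ) := by
      have : ((1 / 100 : ℚ) : ℝ) ≤ ((X0 : ℚ) : ℝ) := Rat.cast_le.mpr hc
      have h4 : (0 : ℝ) < ((1 / 100 : ℚ) : ℝ) := by norm_num
      (clear * - this; linarith)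
    have hXp : 0 < X := hX0'.trans_le h1
    have hk0 : (0 : ℝ) < k := by exact_mod_cast hk
    have h4 := cp_supA hk25 h0 h1 h2 h3
    refine le_trans ?_ (Rat.cast_le.mpr (le_upp _))
    rw [Rat.cast_min, Rat.cast_one]
    refine le_min (abs_sinc_le_one _) ?_
    push_cast
    rw [sinc_of_ne_zero (by (clear * - hk hXp; positivity)), abs_div,
      abs_of_pos (show (0 : ℝ) < k * X by positivity)]
    have h7 : 0 ≤ ((supA (k * X0) (k * X1) : ℚ) : ℝ) := (abs_nonneg _).trans h4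
    gcongr
  · rw [Rat.cast_one]
    exact abs_sinc_le_one _

/-- the rest at the odd harmonic `k` -/
theorem exQ_sound {k j : ℕ} (hk : k ∈ [5, 7, 9, 11, 13, 15, 17, 19, 21, 23, 25]) (hj : j < 181)
    {R : List ℝ} (hR : ∀ x ∈ R, 0 ≤ x ∧ x ≤ ((gr2 j : ℚ) : ℝ)) {Mlo : ℚ} (h0 : 0 ≤ Mlo)
    (hM : (Mlo : ℝ) ≤ MM R) :
    |PP R k| ≤ PP R 1 * ((eUpF (dn (exQ k j Mlo)) : ℚ) : ℝ) := by
  have hgr : (0 : ℝ) < ((gr2 j : ℚ) : ℝ) := by exact_mod_cast gr2_pos j
  have hgr' : ((gr2 j : ℚ) : ℝ) ≤ 3 / 4 := by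
    have : ((gr2 j : ℚ) : ℝ) ≤ ((3 / 4 : ℚ) : ℝ) := Rat.cast_le.mpr (gr2_le hj)
    simpa using this
  have hs : ∀ x ∈ R, 0 < sinc x := fun x hx =>
    sinc_pos' (hR x hx).1 (by (clear * - hgr hgr' hR hx; linarith [(hR x hx).2]))
  have hP := PP_one_pos hs
  have hcc : (0 : ℝ) ≤ ((cc2 k j : ℚ) : ℝ) := by exact_mod_cast cc2_nonneg k j
  have hff : (0 : ℝ) ≤ ((ff2 k j : ℚ) : ℝ) := by exact_mod_cast ff2_nonneg k j
  have hM0 : (0 : ℝ) ≤ (Mlo : ℝ) := by exact_mod_cast h0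
  have hk1 : (1 : ℝ) ≤ k := by
    have : 1 ≤ k := by
      fin_cases hk <;> norm_num
    exact_mod_cast this
  -- the first bound
  have hA : |PP R k| ≤ PP R 1 * exp (-(((cc2 k j * Mlo : ℚ) : ℝ))) := by
    refine (abs_PP_le_exp (c := ((cc2 k j : ℚ) : ℝ)) hs
      (fun x hx => adm2 hk hj (hR x hx).1 (hR x hx).2)).trans ?_
    apply mul_le_mul_of_nonneg_left _ hP.le
    apply exp_le_exp.mpr
    apply neg_le_neg
    push_cast
    exact mul_le_mul_of_nonneg_left hM hcc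
  have hE0 : 0 ≤ exQ k j Mlo := by
    unfold exQ
    exact (mul_nonneg (cc2_nonneg k j) h0).trans (le_max_left _ _)
  have hE : |PP R k| ≤ PP R 1 * exp (-(((exQ k j Mlo : ℚ) : ℝ))) := by
    unfold exQ
    simp only
    rcases le_total (if ff2 k j ≤ ((k : ℚ) ^ 2 - 1) / 6 * gr2 j ^ 2 then
        min (((⌊Mlo / gr2 j ^ 2⌋.toNat : ℕ) : ℚ) * ff2 k j + ((k : ℚ) ^ 2 - 1) / 6 *
          (Mlo - ((⌊Mlo / gr2 j ^ 2⌋.toNat : ℕ) : ℚ) * gr2 j ^ 2))
          ((((⌊Mlo / gr2 j ^ 2⌋.toNat : ℕ) : ℚ) + 1) * ff2 k j) else 0) (cc2 k j * Mlo) with hle | hle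
    · rw [max_eq_left hle]
      exact hA
    · rw [max_eq_right hle]
      split_ifs with hF
      · have hF' : ((ff2 k j : ℚ) : ℝ) ≤ (((k : ℝ) ^ 2 - 1) / 6) * ((gr2 j : ℚ) : ℝ) ^ 2 := by
          have : ((ff2 k j : ℚ) : ℝ) ≤ ((((k : ℚ) ^ 2 - 1) / 6 * gr2 j ^ 2 : ℚ) : ℝ) :=
            Rat.cast_le.mpr hF
          push_cast at this
          exact this
        have hc0 : 0 ≤ ((k : ℝ) ^ 2 - 1) / 6 := by (clear * - hk1; nlinarith)
        refine (abs_PP_le_floor (rho := ((gr2 j : ℚ) : ℝ) ^ 2) hs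
          (fun x hx => pow_le_pow_left₀ (hR x hx).1 (hR x hx).2 2)
          (fun x hx => admJ2 hk hj (hR x hx).1 (hR x hx).2) hc0 hff hF'
          ⌊Mlo / gr2 j ^ 2⌋.toNat).trans ?_
        apply mul_le_mul_of_nonneg_left _ hP.le
        apply exp_le_exp.mpr
        apply neg_le_neg
        push_cast
        apply min_le_min_right
        have := mul_le_mul_of_nonneg_left hM hc0
        unfold MM at this
        (clear * - this; linarith)
      · rw [Rat.cast_zero, neg_zero, exp_zero, mul_one]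
        refine hA.trans ?_
        have : exp (-(((cc2 k j * Mlo : ℚ) : ℝ))) ≤ 1 := by
          apply exp_le_one_iff.mpr
          push_cast
          have := mul_nonneg hcc hM0
          (clear * - this; linarith)
        (clear * - hgr hgr' hP this; nlinarith)
  refine hE.trans ?_
  apply mul_le_mul_of_nonneg_left _ hP.le
  refine le_trans ?_ (eUpF_sound (dn_nonneg hE0))
  apply exp_le_exp.mpr
  apply neg_le_neg
  exact Rat.cast_le.mpr (dn_le _)

end Pool.Agent.M18.Helper95.SP.Crude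
end
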