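import Mathlib
import Pool.Agent.Helper53.AM.G02
import Pool.Agent.Helper53.AM.G07
import Pool.Agent.Helper53.AM.G10
import Pool.Agent.Helper53.AM.G11
import Pool.Agent.Helper53.AM.G13
import Pool.Agent.Helper53.AM.G23

/- Helper15.FA.ProbQ -/
section
/-! F9: the splines `Q` of helper34 are the distribution functions of the sums `∑ b_j U_j`. -/

set_option autoImplicit false

open MeasureTheory Set Real
open Pool.Agent.M18.Helper88.Slab (prob ind A cube)

namespace Pool.Agent.M18.Helper89.FA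

open Pool.Agent.M18.Helper34.Slab (Q pk Q_insert Q_empty pk_integral pk_intervalIntegrable pk_measurable pk_mono
  pk_nonneg)
open Pool.Agent.M18.Helper88.Slab (A_eq_diff A_abs_b cube_split ae_cube)

lemma pq_map {α β : Type*} [DecidableEq α] [DecidableEq β] (e : α ↪ β) (b : β → ℝ) (k : ℕ) (s : Finset α) (z : ℝ) :
    Q b k (s.map e) z = Q (fun a => b (e a)) k s z := by
  induction s using Finset.induction_on generalizing z with
  | empty => rw [Finset.map_empty, Q_empty, Q_empty]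
  | insert i s hi ih =>
    have hi' : e i ∉ s.map e := by
      rw [Finset.mem_map]
      rintro ⟨j, hj, hji⟩
      exact hi (e.injective hji ▸ hj)
    rw [Finset.map_insert, Q_insert k hi', Q_insert k hi, ih, ih]

lemma pq_A {b : ℝ} (hb : 0 < b) (k : ℕ) (z y : ℝ) :
    A b (fun w => pk k (z + w)) y = (pk (k + 1) ((z + b) + y) - pk (k + 1) ((z - b) + y)) / (2 * b) := by
  have hint : ∀ x y, IntervalIntegrable (fun w => pk k (z + w)) volume x y := by
    intro x y
    have h1 := (pk_intervalIntegrable k (z + x) (z + y)).comp_add_left z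
    simpa only [add_sub_cancel_left] using h1
  rw [A_eq_diff hb hint, intervalIntegral.integral_comp_add_left (fun w => pk k w),
    intervalIntegral.integral_comp_add_left (fun w => pk k w), pk_integral, pk_integral]
  rw [show z + (y + b) = z + b + y by ring, show z + (y - b) = z - b + y by ring]
  ring

lemma pq_integrable {n : ℕ} (a : Fin n → ℝ) (k : ℕ) (z : ℝ) :
    Integrable (fun x : Fin n → ℝ => pk k (z + ∑ j, a j * x j)) (cube n) := by
  refine Integrable.of_bound ?_ (pk k (|z| + ∑ j, |a j|)) ?_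
  · exact ((pk_measurable k).comp (by fun_prop)).aestronglyMeasurable
  · filter_upwards [ae_cube n] with x hx
    rw [Real.norm_eq_abs, abs_of_nonneg (pk_nonneg _ _)]
    apply pk_mono
    refine add_le_add (le_abs_self z) (Finset.sum_le_sum (fun j _ => ?_))
    refine (le_abs_self _).trans ?_
    rw [abs_mul]
    have h1 : |x j| ≤ 1 := abs_le.2 ⟨hx.1 j, hx.2 j⟩
    exact mul_le_of_le_one_right (abs_nonneg _) h1

lemma pq_cube {n : ℕ} (a : Fin n → ℝ) (ha : ∀ j, a j ≠ 0) (k : ℕ) (z : ℝ) :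
    ∫ x, pk k (z + ∑ j, a j * x j) ∂(cube n) = Q (fun j => |a j|) (k + n) Finset.univ z := by
  induction n generalizing k z with
  | zero =>
    simp only [Finset.univ_eq_empty, Finset.sum_empty, integral_const]
    rw [Q_empty]
    simp
  | succ n ih =>
    rw [cube_split 0 a (fun w => pk k (z + w)) (pq_integrable a k z)]
    have h0 : 0 < |a 0| := abs_pos.2 (ha 0)
    have h1 : ∀ y : Fin n → ℝ, A (a 0) (fun w => pk k (z + w)) (∑ j, a (Fin.succAbove 0 j) * y j) =
        (pk (k + 1) ((z + |a 0|) + ∑ j, a (Fin.succAbove 0 j) * y j) -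
          pk (k + 1) ((z - |a 0|) + ∑ j, a (Fin.succAbove 0 j) * y j)) / (2 * |a 0|) := by
      intro y
      rw [← A_abs_b, pq_A h0]
    simp only [h1]
    rw [integral_div, integral_sub (pq_integrable _ _ _) (pq_integrable _ _ _),
      ih (fun j => a (Fin.succAbove 0 j)) (fun j => ha _), ih (fun j => a (Fin.succAbove 0 j)) (fun j => ha _)]
    have h2 : (Finset.univ : Finset (Fin (n + 1))) =
        insert 0 ((Finset.univ : Finset (Fin n)).map (Fin.succEmb n)) := by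
      ext j
      refine Fin.cases ?_ (fun j => ?_) j <;> simp
    have h3 : (0 : Fin (n + 1)) ∉ (Finset.univ : Finset (Fin n)).map (Fin.succEmb n) := by
      rw [Finset.mem_map]
      rintro ⟨j, _, hj⟩
      exact Fin.succ_ne_zero j hj
    rw [h2, Q_insert _ h3, pq_map, pq_map, show k + 1 + n = k + (n + 1) by ring]
    rfl

lemma pq_ind {t : ℝ} (ht : 0 ≤ t) (w : ℝ) : ind t w = pk 0 (t + w) + pk 0 (t + -w) - 1 := by
  unfold Pool.Agent.M18.Helper88.Slab.ind pk
  simp only [pow_zero, Nat.factorial_zero, Nat.cast_one, div_one]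
  simp only [abs_le]
  by_cases h1 : -t ≤ w
  · by_cases h2 : w ≤ t
    · rw [if_pos ⟨h1, h2⟩, if_pos (by linarith), if_pos (by linarith)]
      ring
    · rw [if_neg (fun h => h2 h.2), if_pos (by linarith), if_neg (by intro h; apply h2; linarith)]
      ring
  · rw [if_neg (fun h => h1 h.1), if_neg (by intro h; apply h1; linarith), if_pos (by
      have := not_le.1 h1
      linarith)]
    ring

theorem prob_eq_Q {n : ℕ} (hn : 1 ≤ n) (b : Fin n → ℝ) (hb : ∀ j, 0 < b j) {t : ℝ} (ht : 0 ≤ t) :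
    prob b t = 2 * Pool.Agent.M18.Helper34.Slab.Q b n Finset.univ t - 1 := by
  have h1 : ∀ x : Fin n → ℝ, ind t (∑ j, b j * x j) =
      pk 0 (t + ∑ j, b j * x j) + pk 0 (t + ∑ j, (-b j) * x j) - 1 := by
    intro x
    rw [pq_ind ht]
    congr 3
    simp [Finset.sum_neg_distrib]
  have h2 := pq_cube b (fun j => (hb j).ne') 0 t
  have h3 := pq_cube (fun j => -b j) (fun j => neg_ne_zero.2 (hb j).ne') 0 t
  have h4 : (fun j => |b j|) = b := by
    funext j
    exact abs_of_pos (hb j)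
  have h5 : (fun j => |-b j|) = b := by
    funext j
    rw [abs_neg]
    exact abs_of_pos (hb j)
  rw [h4, zero_add] at h2
  rw [h5, zero_add] at h3
  rw [Pool.Agent.M18.Helper88.Slab.prob]
  simp only [h1]
  have i1 := pq_integrable b 0 t
  have i2 := pq_integrable (fun j => -b j) 0 t
  have h6 : ∫ x : Fin n → ℝ, (pk 0 (t + ∑ j, b j * x j) + pk 0 (t + ∑ j, (-b j) * x j) - 1) ∂(cube n) =
      (∫ x : Fin n → ℝ, (pk 0 (t + ∑ j, b j * x j) + pk 0 (t + ∑ j, (-b j) * x j)) ∂(cube n)) -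
        ∫ _ : Fin n → ℝ, (1 : ℝ) ∂(cube n) := integral_sub (i1.add i2) (integrable_const _)
  have h7 : ∫ x : Fin n → ℝ, (pk 0 (t + ∑ j, b j * x j) + pk 0 (t + ∑ j, (-b j) * x j)) ∂(cube n) =
      (∫ x : Fin n → ℝ, pk 0 (t + ∑ j, b j * x j) ∂(cube n)) +
        ∫ x : Fin n → ℝ, pk 0 (t + ∑ j, (-b j) * x j) ∂(cube n) := integral_add i1 i2
  rw [h6, h7, h2, h3]
  simp
  ring

end Pool.Agent.M18.Helper89.FA
end

/- Helper5.FA.F1b -/
section
/-!
# Project FA (MP_66ebcc_gt), module F1b: sub-Gaussian tail of a slab and comparison with the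
square wave
-/

set_option autoImplicit false

open MeasureTheory Set Real
open Pool.Agent.M18.Helper88.Slab (prob ind A cube)

namespace Pool.Agent.M18.Helper89.FA

theorem f1b_factorial (n : ℕ) : 6 ^ n * n.factorial ≤ (2 * n + 1).factorial := by
  induction n with
  | zero => simp
  | succ n ih =>
    have h1 : (2 * (n + 1) + 1).factorial = (2 * n + 3) * ((2 * n + 2) * (2 * n + 1).factorial) := by
      rw [show 2 * (n + 1) + 1 = (2 * n + 2) + 1 by ring, Nat.factorial_succ,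
        show 2 * n + 2 = (2 * n + 1) + 1 by ring, Nat.factorial_succ]
    have h2 : 6 ^ (n + 1) * (n + 1).factorial = (6 * (n + 1)) * (6 ^ n * n.factorial) := by
      rw [pow_succ, Nat.factorial_succ]
      ring
    rw [h1, h2, ← Nat.mul_assoc (2 * n + 3)]
    refine Nat.mul_le_mul ?_ ih
    (clear * -; nlinarith)

theorem f1b_sinh_le {c : ℝ} (hc : 0 ≤ c) : sinh c ≤ c * exp (c ^ 2 / 6) := by
  have h1 := Real.hasSum_sinh c
  have h2 : HasSum (fun n : ℕ => c * ((c ^ 2 / 6) ^ n / (n.factorial : ℝ))) (c * exp (c ^ 2 / 6)) := by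
    have h3 : HasSum (fun n : ℕ => (c ^ 2 / 6) ^ n / (n.factorial : ℝ)) (exp (c ^ 2 / 6)) := by
      rw [Real.exp_eq_exp_ℝ]
      exact NormedSpace.expSeries_div_hasSum_exp (c ^ 2 / 6)
    exact h3.mul_left c
  refine hasSum_le (fun n => ?_) h1 h2
  have h4 : ((6 : ℝ) ^ n * (n.factorial : ℝ)) ≤ ((2 * n + 1).factorial : ℝ) := by
    exact_mod_cast f1b_factorial n
  have h5 : (0 : ℝ) < (6 : ℝ) ^ n * (n.factorial : ℝ) := by (clear * -; positivity)
  have h6 : c * ((c ^ 2 / 6) ^ n / (n.factorial : ℝ)) = c ^ (2 * n + 1) / ((6 : ℝ) ^ n * (n.factorial : ℝ)) := by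
    rw [div_pow, ← pow_mul, pow_succ]
    (clear * -; field_simp)
  rw [h6]
  exact div_le_div_of_nonneg_left (by (clear * - hc; positivity)) h5 h4

theorem f1b_A_cosh (b lam y : ℝ) :
    A b (fun z => cosh (lam * z)) y ≤ exp (lam ^ 2 * b ^ 2 / 6) * cosh (lam * y) := by
  rw [Pool.Agent.M18.Helper88.Slab.A_eq]
  rcases eq_or_ne (lam * b) 0 with h | h
  · have h1 : ∀ u : ℝ, lam * (b * u + y) = lam * y := by
      intro u
      have : lam * (b * u + y) = (lam * b) * u + lam * y := by ring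
      rw [this, h]; ring
    simp_rw [h1]
    have h2 : lam ^ 2 * b ^ 2 / 6 = 0 := by
      rw [← mul_pow, h]; norm_num
    rw [h2, exp_zero]
    simp
    (clear * -; linarith)
  · have h1 : ∀ u : ℝ, cosh (lam * (b * u + y)) = cosh ((lam * b) * u + lam * y) := by
      intro u; ring_nf
    simp_rw [h1]
    have hint : ∫ z in ((lam * b) * (-1) + lam * y)..((lam * b) * 1 + lam * y), cosh z =
        sinh ((lam * b) * 1 + lam * y) - sinh ((lam * b) * (-1) + lam * y) :=
      intervalIntegral.integral_eq_sub_of_hasDerivAt (fun x _ => Real.hasDerivAt_sinh x)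
        (Real.continuous_cosh.intervalIntegrable _ _)
    rw [intervalIntegral.integral_comp_mul_add (fun z => cosh z) h (lam * y), hint]
    rw [show (lam * b) * 1 + lam * y = lam * y + lam * b by ring,
      show (lam * b) * (-1) + lam * y = lam * y - lam * b by ring, Real.sinh_add, Real.sinh_sub,
      smul_eq_mul]
    have h2 : (1 / 2 : ℝ) * ((lam * b)⁻¹ * (sinh (lam * y) * cosh (lam * b) + cosh (lam * y) * sinh (lam * b) -
        (sinh (lam * y) * cosh (lam * b) - cosh (lam * y) * sinh (lam * b)))) =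
        ((lam * b)⁻¹ * sinh (lam * b)) * cosh (lam * y) := by ring
    rw [h2]
    refine mul_le_mul_of_nonneg_right ?_ (Real.cosh_pos _).le
    have h3 : ∀ c : ℝ, 0 < c → c⁻¹ * sinh c ≤ exp (c ^ 2 / 6) := by
      intro c hc
      rw [inv_mul_le_iff₀ hc]
      exact f1b_sinh_le hc.le
    rw [show lam ^ 2 * b ^ 2 / 6 = (lam * b) ^ 2 / 6 by ring]
    rcases lt_or_gt_of_ne h with h4 | h4
    · have := h3 (-(lam * b)) (by (clear * - h4; linarith))
      rw [Real.sinh_neg, inv_neg, neg_mul_neg, neg_sq] at this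
      exact this
    · exact h3 _ h4

theorem f1b_cube_cosh {n : ℕ} (b : Fin n → ℝ) (lam : ℝ) :
    ∫ y, cosh (lam * ∑ j, b j * y j) ∂(cube n) ≤ exp (lam ^ 2 * (∑ j, b j ^ 2) / 6) := by
  induction n with
  | zero => simp
  | succ n ih =>
    rw [Pool.Agent.M18.Helper88.Slab.cube_split_cont 0 b (fun z => cosh (lam * z)) (by fun_prop)]
    have hc : Continuous (A (b 0) (fun z => cosh (lam * z))) :=
      Pool.Agent.M18.Helper88.Slab.A_cont (b 0) (by fun_prop)
    calc ∫ y, A (b 0) (fun z => cosh (lam * z)) (∑ j, b (Fin.succAbove 0 j) * y j) ∂(cube n)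
        ≤ ∫ y, exp (lam ^ 2 * (b 0) ^ 2 / 6) * cosh (lam * (∑ j, b (Fin.succAbove 0 j) * y j)) ∂(cube n) := by
          refine integral_mono ?_ ?_ (fun y => f1b_A_cosh _ _ _)
          · exact Pool.Agent.M18.Helper88.Slab.integrable_cube (hc.comp (by fun_prop))
          · exact Pool.Agent.M18.Helper88.Slab.integrable_cube (by fun_prop)
      _ = exp (lam ^ 2 * (b 0) ^ 2 / 6) * ∫ y, cosh (lam * (∑ j, b (Fin.succAbove 0 j) * y j)) ∂(cube n) := by
          rw [integral_const_mul]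
      _ ≤ exp (lam ^ 2 * (b 0) ^ 2 / 6) * exp (lam ^ 2 * (∑ j, b (Fin.succAbove 0 j) ^ 2) / 6) :=
          mul_le_mul_of_nonneg_left (ih _) (exp_pos _).le
      _ = exp (lam ^ 2 * (∑ j, b j ^ 2) / 6) := by
          rw [← exp_add, Fin.sum_univ_succ]
          simp only [Fin.zero_succAbove]
          congr 1
          ring

/-- F1b. Sub-Gaussian tail. -/
theorem tail_prob {n : ℕ} (a : Fin n → ℝ) (ha : ∑ j, a j ^ 2 = 1) {L : ℝ} (hL : 0 ≤ L) :
    1 - prob a L ≤ 2 * exp (-(3 / 2) * L ^ 2) := by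
  have h1 : ∀ z : ℝ, 1 - ind L z ≤ 2 * exp (-(3 * L) * L) * cosh (3 * L * z) := by
    intro z
    unfold ind
    split_ifs with h
    · rw [sub_self]
      have := Real.cosh_pos (3 * L * z)
      positivity
    · push Not at h
      rw [sub_zero]
      have h2 : exp (3 * L * |z|) ≤ 2 * cosh (3 * L * z) := by
        rw [Real.cosh_eq]
        rcases abs_choice z with hz | hz
        · rw [hz]
          have := exp_pos (-(3 * L * z))
          linarith
        · rw [hz]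
          have := exp_pos (3 * L * z)
          have h3 : 3 * L * -z = -(3 * L * z) := by ring
          rw [h3]
          (clear * - this; linarith)
      have h4 : exp (3 * L * L) ≤ exp (3 * L * |z|) := by
        apply exp_le_exp.2
        have : L ≤ |z| := h.le
        (clear * - hL h; nlinarith)
      have h5 : exp (-(3 * L) * L) * exp (3 * L * L) = 1 := by
        rw [← exp_add]
        have : -(3 * L) * L + 3 * L * L = 0 := by ring
        rw [this, exp_zero]
      calc (1 : ℝ) = exp (-(3 * L) * L) * exp (3 * L * L) := h5.symm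
        _ ≤ exp (-(3 * L) * L) * (2 * cosh (3 * L * z)) :=
            mul_le_mul_of_nonneg_left (h4.trans h2) (exp_pos _).le
        _ = _ := by ring
  have hi : Integrable (fun x : Fin n → ℝ => ind L (∑ j, a j * x j)) (cube n) :=
    Pool.Agent.M18.Helper88.Slab.ind_integrable_cube L a
  have h2 : 1 - prob a L = ∫ x, (1 - ind L (∑ j, a j * x j)) ∂(cube n) := by
    rw [integral_sub (integrable_const _) hi]
    simp [prob]
  rw [h2]
  calc ∫ x, (1 - ind L (∑ j, a j * x j)) ∂(cube n)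
      ≤ ∫ x, 2 * exp (-(3 * L) * L) * cosh (3 * L * (∑ j, a j * x j)) ∂(cube n) := by
        refine integral_mono ((integrable_const _).sub hi) ?_ (fun x => h1 _)
        exact Pool.Agent.M18.Helper88.Slab.integrable_cube (by fun_prop)
    _ = 2 * exp (-(3 * L) * L) * ∫ x, cosh (3 * L * (∑ j, a j * x j)) ∂(cube n) := by
        rw [integral_const_mul]
    _ ≤ 2 * exp (-(3 * L) * L) * exp ((3 * L) ^ 2 * (∑ j, a j ^ 2) / 6) :=
        mul_le_mul_of_nonneg_left (f1b_cube_cosh a (3 * L)) (by positivity)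
    _ = 2 * exp (-(3 / 2) * L ^ 2) := by
        rw [ha, mul_assoc, ← exp_add]
        congr 2
        ring

/-- F1b. Comparison of the indicator with the square wave. -/
theorem prob_ge_wave {n : ℕ} (a : Fin n → ℝ) (ha : ∑ j, a j ^ 2 = 1) {t : ℝ} (ht : 0 < t) :
    (∫ x, (if 0 < cos (π / (2 * t) * ∑ j, a j * x j) then (1 : ℝ) else 0) ∂(cube n))
      - 2 * exp (-(27 / 2) * t ^ 2) ≤ prob a t := by
  have hpt : ∀ z : ℝ, (if 0 < cos (π / (2 * t) * z) then (1 : ℝ) else 0) ≤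
      ind t z + (1 - ind (3 * t) z) := by
    intro z
    have hn1 := Pool.Agent.M18.Helper88.Slab.ind_nonneg t z
    have hn2 := Pool.Agent.M18.Helper88.Slab.ind_le_one (3 * t) z
    split_ifs with h
    · by_cases h3 : |z| ≤ 3 * t
      · have h4 : |z| ≤ t := by
          by_contra hcon
          push Not at hcon
          have habs : cos (π / (2 * t) * |z|) = cos (π / (2 * t) * z) := by
            rcases abs_choice z with hz | hz
            · rw [hz]
            · rw [hz, mul_neg, cos_neg]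
          have h5 : cos (π / (2 * t) * |z|) ≤ 0 := by
            apply Real.cos_nonpos_of_pi_div_two_le_of_le
            · rw [div_mul_eq_mul_div, div_le_div_iff₀ (by norm_num) (by positivity)]
              (clear * - hcon; nlinarith [Real.pi_pos])
            · rw [div_mul_eq_mul_div, div_le_iff₀ (by positivity)]
              (clear * - h3; nlinarith [Real.pi_pos])
          rw [habs] at h5
          linarith
        have h6 : ind t z = 1 := by
          unfold ind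
          rw [if_pos h4]
        (clear * - hn2 h6; linarith)
      · have h6 : ind (3 * t) z = 0 := by
          unfold ind
          rw [if_neg h3]
        linarith
    · linarith
  have hi1 : Integrable (fun x : Fin n → ℝ => ind t (∑ j, a j * x j)) (cube n) :=
    Pool.Agent.M18.Helper88.Slab.ind_integrable_cube t a
  have hi2 : Integrable (fun x : Fin n → ℝ => ind (3 * t) (∑ j, a j * x j)) (cube n) :=
    Pool.Agent.M18.Helper88.Slab.ind_integrable_cube (3 * t) a
  have hw : Integrable (fun x : Fin n → ℝ => (if 0 < cos (π / (2 * t) * ∑ j, a j * x j) then (1 : ℝ) else 0))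
      (cube n) := by
    refine Integrable.of_bound ?_ 1 ?_
    · refine (Measurable.ite ?_ measurable_const measurable_const).aestronglyMeasurable
      exact measurableSet_lt measurable_const (by fun_prop)
    · filter_upwards with x
      split_ifs <;> simp
  have hmono : (∫ x, (if 0 < cos (π / (2 * t) * ∑ j, a j * x j) then (1 : ℝ) else 0) ∂(cube n)) ≤
      ∫ x, (ind t (∑ j, a j * x j) + (1 - ind (3 * t) (∑ j, a j * x j))) ∂(cube n) :=
    integral_mono hw (hi1.add ((integrable_const _).sub hi2)) (fun x => hpt _)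
  have hsum : ∫ x, (ind t (∑ j, a j * x j) + (1 - ind (3 * t) (∑ j, a j * x j))) ∂(cube n) =
      prob a t + (1 - prob a (3 * t)) := by
    have hi3 : Integrable (fun x : Fin n → ℝ => 1 - ind (3 * t) (∑ j, a j * x j)) (cube n) :=
      (integrable_const _).sub hi2
    rw [integral_add hi1 hi3, integral_sub (integrable_const _) hi2]
    simp [prob]
  have htail := tail_prob a ha (L := 3 * t) (by positivity)
  have he : -(3 / 2 : ℝ) * (3 * t) ^ 2 = -(27 / 2) * t ^ 2 := by ring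
  rw [he] at htail
  (clear * - hmono hsum htail; linarith)

end Pool.Agent.M18.Helper89.FA
end

/- Helper88.SlabVolume -/
section
set_option autoImplicit false

open MeasureTheory Set Real
open scoped ENNReal Topology

namespace Pool.Agent.M18.Helper88.Slab

lemma scale_good {t T : ℝ} (ht : 0 < t) (htT : t ≤ T) :
    Good0 (fun y => ind t y / t - ind T y / T) := by
  have hT : 0 < T := by linarith
  refine ⟨fun x y => ((ind_intervalIntegrable t x y).div_const t).sub
    ((ind_intervalIntegrable T x y).div_const T), ?_, ?_⟩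
  · intro y; simp only [ind_even]
  · intro v hv
    rw [intervalIntegral.integral_sub ((ind_intervalIntegrable t 0 v).div_const t)
      ((ind_intervalIntegrable T 0 v).div_const T), intervalIntegral.integral_div,
      intervalIntegral.integral_div, integral_ind_nonneg ht.le hv, integral_ind_nonneg hT.le hv]
    rw [sub_nonneg, div_le_div_iff₀ hT ht]
    rcases le_total v t with h1 | h1
    · rw [min_eq_right h1, min_eq_right (h1.trans htT)]
      exact mul_le_mul_of_nonneg_left htT hv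
    · rw [min_eq_left h1]
      have := min_le_left T v
      nlinarith

/-- `P(|X| ≤ t)/t` is nonincreasing. -/
lemma prob_mono {n : ℕ} (a : Fin n → ℝ) (i : Fin n) (hi : a i ≠ 0) {t T : ℝ} (ht : 0 < t)
    (htT : t ≤ T) : prob a T / T ≤ prob a t / t := by
  obtain ⟨m, rfl⟩ : ∃ m, n = m + 1 := ⟨n - 1, by have := i.2; omega⟩
  have hT : 0 < T := by linarith
  have hs : 0 < |a i| := abs_pos.mpr hi
  have hgood := (scale_good ht htT).A hs.ne'
  have hcube := hgood.cube (fun j => a (i.succAbove j))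
  have hA : ∀ y, A |a i| (fun y => ind t y / t - ind T y / T) y =
      A |a i| (ind t) y / t - A |a i| (ind T) y / T := by
    intro y
    have hi1 : ∀ s : ℝ, Integrable (fun u => ind s (|a i| * u + y)) U := by
      intro s
      refine Integrable.of_bound ((ind_measurable s).comp (by fun_prop)).aestronglyMeasurable 1 ?_
      filter_upwards with u
      rw [Real.norm_eq_abs, abs_of_nonneg (ind_nonneg _ _)]
      exact ind_le_one _ _
    rw [A, A, A, integral_sub ((hi1 t).div_const t) ((hi1 T).div_const T), integral_div, integral_div]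
  simp_rw [hA] at hcube
  rw [integral_sub, integral_div, integral_div, ← prob_split, ← prob_split] at hcube
  · linarith
  · exact integrable_cube (by have := A_ind_cont hs ht.le; fun_prop)
  · exact integrable_cube (by have := A_ind_cont hs hT.le; fun_prop)

theorem prob_ge_t {n : ℕ} (a : Fin n → ℝ) (ha : ∑ j, a j ^ 2 = 1) {t : ℝ} (ht : 0 < t)
    (htT : t ≤ T0) : t ≤ prob a t := by
  obtain ⟨i, hi⟩ : ∃ i, a i ≠ 0 := by
    by_contra hcon
    push Not at hcon
    simp [hcon] at ha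
  have h1 := prob_mono a i hi ht htT
  have h2 := all_case a ha
  have hT := T0_pos
  have h3 : 1 ≤ prob a T0 / T0 := by rwa [le_div_iff₀ hT, one_mul]
  have h4 : 1 ≤ prob a t / t := h3.trans h1
  rwa [le_div_iff₀ ht, one_mul] at h4

lemma cube_eq (n : ℕ) : cube n = ((2⁻¹ : ℝ≥0∞)^n) •
    (volume : Measure (Fin n → ℝ)).restrict (univ.pi (fun _ => Icc (-1:ℝ) 1)) := by
  unfold cube
  apply Measure.pi_eq
  intro s hs
  rw [Measure.smul_apply, Measure.restrict_apply (MeasurableSet.univ_pi hs), ← pi_inter_distrib,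
    volume_pi_pi, smul_eq_mul]
  have : ∀ i, U (s i) = 2⁻¹ * volume (s i ∩ Icc (-1:ℝ) 1) := by
    intro i
    rw [U, Measure.smul_apply, Measure.restrict_apply (hs i), smul_eq_mul]
  simp_rw [this]
  rw [Finset.prod_mul_distrib]
  simp

/-- Set in `Fin n → ℝ`. -/
lemma volume_slab_pi {n : ℕ} (a : Fin n → ℝ) (t : ℝ) :
    volume {x : Fin n → ℝ | (∀ i, |x i| ≤ 1) ∧ |∑ j, a j * x j| ≤ t} =
      2^n * ENNReal.ofReal (prob a t) := by
  have hmeas : MeasurableSet {x : Fin n → ℝ | |∑ j, a j * x j| ≤ t} :=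
    measurableSet_le (by fun_prop) (by fun_prop)
  have h1 : ENNReal.ofReal (prob a t) = cube n {x : Fin n → ℝ | |∑ j, a j * x j| ≤ t} := by
    rw [prob]
    have : (fun x : Fin n → ℝ => ind t (∑ j, a j * x j)) =
        indicator {x : Fin n → ℝ | |∑ j, a j * x j| ≤ t} (fun _ => (1:ℝ)) := by
      ext x
      unfold ind indicator
      rfl
    rw [this, integral_indicator hmeas]
    simp
  rw [h1, cube_eq, Measure.smul_apply, Measure.restrict_apply hmeas, smul_eq_mul, ← mul_assoc]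
  have h2 : (2:ℝ≥0∞)^n * (2⁻¹)^n = 1 := by
    rw [← mul_pow, ENNReal.mul_inv_cancel (by norm_num) (by norm_num), one_pow]
  rw [h2, one_mul]
  congr 1
  ext x
  simp only [mem_ofPred_eq, mem_inter_iff, mem_univ_pi, mem_Icc, abs_le]
  tauto

end Pool.Agent.M18.Helper88.Slab
end

/- Helper89.FA.ProbAbs -/
section
set_option autoImplicit false

open MeasureTheory Set Real
open Pool.Agent.M18.Helper88.Slab (prob ind A cube cube_split A_abs_b ind_measurable ind_nonneg ind_le_one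
  integrable_cube U ind_integrable_cube)

namespace Pool.Agent.M18.Helper89.FA

lemma A_meas {g : ℝ → ℝ} (hg : Measurable g) (b : ℝ) : Measurable (A b g) := by
  unfold Pool.Agent.M18.Helper88.Slab.A
  have : StronglyMeasurable (fun y : ℝ => ∫ u, g (b * u + y) ∂U) := by
    apply StronglyMeasurable.integral_prod_right (f := fun (y u : ℝ) => g (b * u + y))
    exact (hg.comp (by fun_prop : Measurable fun p : ℝ × ℝ => b * p.2 + p.1)).stronglyMeasurable
  exact this.measurable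

lemma A_bound {g : ℝ → ℝ} {C : ℝ} (hC : ∀ x, |g x| ≤ C) (b y : ℝ) :
    |A b g y| ≤ C := by
  unfold Pool.Agent.M18.Helper88.Slab.A
  have := norm_integral_le_of_norm_le_const (μ := U) (f := fun u => g (b * u + y)) (C := C)
    (Filter.Eventually.of_forall fun u => hC _)
  simpa using this

lemma cube_abs {n : ℕ} (a : Fin n → ℝ) : ∀ {g : ℝ → ℝ}, Measurable g → ∀ {C : ℝ}, (∀ x, |g x| ≤ C) →
    ∫ x, g (∑ j, a j * x j) ∂(cube n) = ∫ x, g (∑ j, |a j| * x j) ∂(cube n) := by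
  induction n with
  | zero => intro g hg C hC; simp
  | succ n ih =>
    intro g hg C hC
    have hint : ∀ c : Fin (n+1) → ℝ, Integrable (fun x => g (∑ j, c j * x j)) (cube (n+1)) := by
      intro c
      refine Integrable.of_bound (hg.comp (by fun_prop)).aestronglyMeasurable C ?_
      exact Filter.Eventually.of_forall fun x => hC _
    rw [cube_split 0 a g (hint _), cube_split 0 (fun j => |a j|) g (hint _)]
    have e : A |a 0| g = A (a 0) g := by ext y; exact A_abs_b _ _ _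
    rw [e]
    exact ih (fun j => a (Fin.succAbove 0 j)) (A_meas hg _) (A_bound hC _)

lemma prob_abs {n : ℕ} (a : Fin n → ℝ) (t : ℝ) : prob (fun j => |a j|) t = prob a t := by
  unfold Pool.Agent.M18.Helper88.Slab.prob
  rw [cube_abs a (ind_measurable t) (C := 1)]
  intro x
  rw [abs_of_nonneg (ind_nonneg _ _)]
  exact ind_le_one _ _

lemma prob_nonneg {n : ℕ} (a : Fin n → ℝ) (t : ℝ) : 0 ≤ prob a t := by
  unfold Pool.Agent.M18.Helper88.Slab.prob
  exact integral_nonneg fun x => ind_nonneg _ _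

lemma prob_le_one {n : ℕ} (a : Fin n → ℝ) (t : ℝ) : prob a t ≤ 1 := by
  unfold Pool.Agent.M18.Helper88.Slab.prob
  have h := integral_mono (μ := cube n) (ind_integrable_cube t a) (integrable_const 1)
    (fun x => ind_le_one _ _)
  simpa using h

end Pool.Agent.M18.Helper89.FA
end

/- Helper89.FA.Main -/
section
/-!
Assembly of the first assertion.
-/

set_option autoImplicit false

open MeasureTheory Set Real
open Pool.Agent.M18.Helper88.Slab (prob ind A cube T0 all_case)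

namespace Pool.Agent.M18.Helper89.FA

open Pool.Agent.M18.Helper34.Slab (Q Q_deriv Q_neg Qf_values G_tilt)

/-- The interval lemma for positive coordinates. -/
theorem interval_prob {n : ℕ} (hn : 3 ≤ n) (b : Fin n → ℝ) (hb : ∀ j, 0 < b j) {u v x : ℝ}
    (h0 : 0 < u) (hux : u ≤ x) (hxv : x ≤ v) (hv2 : v < √2)
    (hu : 1 - prob b u ≤ (√2 - u) ^ 2 / 2) (hv : 1 - prob b v ≤ (√2 - v) ^ 2 / 2) :
    1 - prob b x ≤ (√2 - x) ^ 2 / 2 := by
  obtain ⟨k, rfl⟩ : ∃ k, n = k + 3 := ⟨n - 3, by omega⟩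
  have hcard : (Finset.univ : Finset (Fin (k + 3))).card = k + 3 := by simp
  have hb0 : ∀ j ∈ (Finset.univ : Finset (Fin (k + 3))), 0 < b j := fun j _ => hb j
  have hT : ∀ y, 0 ≤ y → 1 - prob b y = 2 - 2 * Q b (k + 3) Finset.univ y := by
    intro y hy
    rw [prob_eq_Q (by omega) b hb hy]
    ring
  have hQ0 : Q b (k + 3) Finset.univ 0 = 1 / 2 := by
    obtain ⟨v0, v1, v2, v3⟩ := Qf_values (k + 3) (Finset.univ : Finset (Fin (k + 3))) hcard
      (fun i hi => (hb0 i hi).ne')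
    have h := Q_neg (b := b) (k := k + 3) (by omega) (Finset.univ : Finset (Fin (k + 3))) 0
    rw [v1, hcard, neg_zero, show k + 3 + (k + 3) = 2 * (k + 3) by ring, pow_mul] at h
    norm_num at h
    (clear * - h; linarith)
  have hx0 : 0 < x := by (clear * - h0 hux; linarith)
  have hv0 : 0 < v := by (clear * - h0 hux hxv; linarith)
  rw [hT x hx0.le]
  refine interval_calc (T := fun y => 2 - 2 * Q b (k + 3) Finset.univ y)
    (g := Q b (k + 2) Finset.univ) (G := fun y => - Q b (k + 1) Finset.univ y) (u := u) (v := v)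
    ?_ ?_ ?_ ?_ ?_ h0 hux hxv hv2 ?_ ?_
  · intro y
    refine (((Q_deriv b (k + 1) Finset.univ y).const_mul 2).const_sub 2).congr_deriv ?_
    ring
  · intro y
    refine (Q_deriv b k Finset.univ y).congr_deriv ?_
    ring
  · intro y1 y2 y3 h1 h12 h23
    have := G_tilt (k := k + 1) (r := (Finset.univ : Finset (Fin (k + 3)))) (by rw [hcard]) hb0 0
      h1 h12 h23
    simpa using this
  · simp only [hQ0]; norm_num
  · rw [← hT _ (Real.sqrt_nonneg 2)]
    (clear * -; linarith [prob_le_one b (√2)])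
  · rw [← hT _ h0.le]; exact hu
  · rw [← hT _ hv0.le]; exact hv

lemma sqrt2_b : 1.4142135 < √2 ∧ √2 < 1.4142136 := by
  constructor
  · rw [Real.lt_sqrt (by norm_num)]; norm_num
  · rw [Real.sqrt_lt' (by norm_num)]; norm_num

lemma sqrt3_b : 1.7320508 < √3 ∧ √3 < 1.7320509 := by
  constructor
  · rw [Real.lt_sqrt (by norm_num)]; norm_num
  · rw [Real.sqrt_lt' (by norm_num)]; norm_num

/-- `f t = T(f₂,t) - T(f₃,t)`. -/
noncomputable def ff (t : ℝ) : ℝ := (√2 - t) ^ 2 / 2 - (3 - √3 * t) ^ 3 / 24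

lemma ff_convex {s t u : ℝ} (hs : 0.97 ≤ s) (hst : s < t) (htu : t < u) :
    ff t * (u - s) ≤ ff s * (u - t) + ff u * (t - s) := by
  obtain ⟨h3a, h3b⟩ := sqrt3_b
  have h33 : √3 ^ 2 = 3 := Real.sq_sqrt (by norm_num)
  have key : ff s * (u - t) + ff u * (t - s) - ff t * (u - s) =
      (u - t) * (t - s) * (u - s) * (1 / 2 - (3 / 8) * 3 + √3 * 3 * (s + t + u) / 24) := by
    unfold ff
    have h333 : √3 ^ 3 = 3 * √3 := by rw [pow_succ, h33]
    ring_nf
    rw [h33, h333]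
    ring
  have h1 : 0 ≤ 1 / 2 - (3 / 8) * 3 + √3 * 3 * (s + t + u) / 24 := by (clear * - hs htu h3a h3b hst; nlinarith)
  have h2 : 0 ≤ (u - t) * (t - s) * (u - s) := by
    apply mul_nonneg (mul_nonneg _ _) <;> (clear * - hst htu; linarith)
  nlinarith [mul_nonneg h2 h1]

lemma ff_cont : Continuous ff := by unfold ff; fun_prop

lemma ff_a : 0 < ff 1.0129 := by
  obtain ⟨h3a, h3b⟩ := sqrt3_b
  obtain ⟨h2a, h2b⟩ := sqrt2_b
  unfold ff
  have h1 : (0.4013135:ℝ) ≤ √2 - 1.0129 := by (clear * - h2a; linarith)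
  have h2 : (0.4013135:ℝ) ^ 2 ≤ (√2 - 1.0129) ^ 2 := pow_le_pow_left₀ (by norm_num) h1 2
  have h3 : 3 - √3 * 1.0129 ≤ 1.2456058 := by (clear * - h3a h2a h2b; linarith)
  have h4 : (3 - √3 * 1.0129) ^ 3 ≤ 1.2456058 ^ 3 := pow_le_pow_left₀ (by (clear * - h3b h2a h2b; linarith)) h3 3
  norm_num at h2 h4 ⊢
  (clear * - h2a h2b h2 h4; linarith)

lemma ff_b : ff 1.01293 < 0 := by
  obtain ⟨h3a, h3b⟩ := sqrt3_b
  obtain ⟨h2a, h2b⟩ := sqrt2_b
  unfold ff
  have h1 : √2 - 1.01293 ≤ 0.4012836 := by (clear * - h2b; linarith)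
  have h2 : (√2 - 1.01293) ^ 2 ≤ (0.4012836:ℝ) ^ 2 := pow_le_pow_left₀ (by (clear * - h2a h2b; linarith)) h1 2
  have h3 : 1.2455536 ≤ 3 - √3 * 1.01293 := by (clear * - h3b h2a h2b; linarith)
  have h4 : (1.2455536:ℝ) ^ 3 ≤ (3 - √3 * 1.01293) ^ 3 := pow_le_pow_left₀ (by norm_num) h3 3
  norm_num at h2 h4 ⊢
  (clear * - h2a h2b h2 h4; linarith)

/-- The crossing. -/
lemma exists_t1 : ∃ t₁ : ℝ, 1.0129 < t₁ ∧ t₁ < 1.01293 ∧ ff t₁ = 0 := by
  obtain ⟨t, ht, h⟩ := intermediate_value_Icc' (by norm_num : (1.0129:ℝ) ≤ 1.01293)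
    ff_cont.continuousOn (show (0:ℝ) ∈ Icc (ff 1.01293) (ff 1.0129) from ⟨ff_b.le, ff_a.le⟩)
  refine ⟨t, ?_, ?_, h⟩
  · rcases eq_or_lt_of_le ht.1 with h1 | h1
    · exfalso; have := ff_a; rw [h1, h] at this; exact lt_irrefl _ this
    · exact h1
  · rcases eq_or_lt_of_le ht.2 with h1 | h1
    · exfalso; have := ff_b; rw [← h1, h] at this; exact lt_irrefl _ this
    · exact h1

lemma ff_two : ff √2 < 0 := by
  obtain ⟨h3a, h3b⟩ := sqrt3_b
  obtain ⟨h2a, h2b⟩ := sqrt2_b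
  unfold ff
  have h1 : 0.5 < 3 - √3 * √2 := by nlinarith
  have h2 : (0.5:ℝ) ^ 3 < (3 - √3 * √2) ^ 3 := pow_lt_pow_left₀ h1 (by norm_num) (by norm_num)
  rw [sub_self]
  norm_num at h2 ⊢
  (clear * - h2a h2b h2; linarith)

lemma ff_neg {t₁ t : ℝ} (h1 : 1.0129 < t₁) (h0 : ff t₁ = 0) (ht : t₁ < t) (ht2 : t ≤ √2) :
    ff t < 0 := by
  rcases eq_or_lt_of_le ht2 with rfl | ht2
  · exact ff_two
  have h := ff_convex (s := t₁) (t := t) (u := √2) (by linarith) ht ht2
  rw [h0, zero_mul, zero_add] at h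
  have h2 := ff_two
  have h3 : 0 < √2 - t₁ := by (clear * - ht ht2; linarith)
  have h4 : ff √2 * (t - t₁) < 0 := mul_neg_of_neg_of_pos h2 (by (clear * - ht; linarith))
  by_contra hcon
  push Not at hcon
  have := mul_nonneg hcon h3.le
  (clear * - h h4 this; linarith)

/-- Cases (A) and (C). -/
theorem direct {n : ℕ} (a : Fin n → ℝ) (ha : ∑ j, a j ^ 2 = 1) {t : ℝ} (h1 : 1.0129 ≤ t)
    (h2 : t ≤ 1.03) (hM2 : ff t ≤ 0)
    (h : (∃ i, 0.78 ≤ |a i|) ∨ ∃ i j, i ≠ j ∧ t ≤ |a i| + |a j|) :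
    1 - (3 - √3 * t) ^ 3 / 24 ≤ prob a t := by
  rcases h with ⟨i, hi⟩ | ⟨i, j, hij, hs⟩
  · exact caseC a i ha h1 h2 rfl hi
  obtain ⟨h2a, h2b⟩ := sqrt2_b
  have hsum : a i ^ 2 + a j ^ 2 ≤ 1 := by
    rw [← ha]
    have := Finset.sum_le_sum_of_subset_of_nonneg (Finset.subset_univ ({i, j} : Finset (Fin n)))
      (f := fun l => a l ^ 2) (fun l _ _ => sq_nonneg _)
    rwa [Finset.sum_pair hij] at this
  have hpi : |a i| ≤ 1 := by
    rw [abs_le_one_iff_mul_self_le_one]; (clear * - hsum; nlinarith [sq_nonneg (a j)])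
  have hpj : |a j| ≤ 1 := by
    rw [abs_le_one_iff_mul_self_le_one]; (clear * - hsum; nlinarith [sq_nonneg (a i)])
  have hi : a i ≠ 0 := by
    intro h0; rw [h0, abs_zero] at hs; linarith
  have hj : a j ≠ 0 := by
    intro h0; rw [h0, abs_zero] at hs; linarith
  have hp : 0 < |a i| := abs_pos.mpr hi
  have hq : 0 < |a j| := abs_pos.mpr hj
  obtain ⟨k1, k2⟩ := prob_two a i j hij ha (by (clear * - h1 h2a h2b; linarith)) hi hj hs
  rcases algebra_two (t := t) (M := (3 - √3 * t) ^ 3 / 24) h1 (by (clear * - h2 h2a h2b; linarith)) rfl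
    (by unfold ff at hM2; (clear * - hM2; linarith)) hp hq (by rw [sq_abs, sq_abs]; exact hsum) hs with h | ⟨z, hz, hz2, h⟩
  · refine le_trans ?_ k1
    rw [sq_abs, sq_abs] at h
    have : (3 * (|a i| + |a j| - t) ^ 2 + (1 - a i ^ 2 - a j ^ 2)) / (12 * (|a i| * |a j|)) ≤
        (3 - √3 * t) ^ 3 / 24 := by
      rw [div_le_iff₀ (by (clear * - hi hj; positivity))]
      (clear * - h; linarith)
    (clear * - this; linarith)
  · rw [sq_abs, sq_abs] at hz2
    refine le_trans ?_ (k2 z hz hz2)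
    have : (z + (|a i| + |a j| - t)) ^ 3 / (24 * (|a i| * |a j|) * z) ≤ (3 - √3 * t) ^ 3 / 24 := by
      rw [div_le_iff₀ (by (clear * - hi hj hz; positivity))]
      (clear * - h; linarith)
    (clear * - this; linarith)

lemma max_coord {n : ℕ} (a : Fin n → ℝ) (ha : ∑ j, a j ^ 2 = 1) :
    ∃ i, a i ≠ 0 ∧ ∀ j, |a j| ≤ |a i| := by
  have hne : (Finset.univ : Finset (Fin n)).Nonempty := by
    rw [Finset.nonempty_iff_ne_empty]
    intro h
    rw [h] at ha
    simp at ha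
  obtain ⟨i, -, hi⟩ := Finset.exists_max_image Finset.univ (fun j => |a j|) hne
  refine ⟨i, ?_, fun j => hi j (Finset.mem_univ j)⟩
  intro h0
  have : ∀ j, a j = 0 := by
    intro j
    have := hi j (Finset.mem_univ j)
    rw [h0, abs_zero] at this
    exact abs_eq_zero.mp (le_antisymm this (abs_nonneg _))
  simp [this] at ha

lemma wave_lower {n : ℕ} (a : Fin n → ℝ) (ha : ∑ j, a j ^ 2 = 1) {i : Fin n} (hi : a i ≠ 0) {t s : ℝ}
    (ht : 0 < t) (hs : s ≤ ∑' k : ℕ, (-1 : ℝ) ^ k *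
      ((∏ j, sinc ((2 * (k : ℝ) + 1) * (a j * (π / (2 * t))))) / (2 * (k : ℝ) + 1))) :
    1 / 2 + (2 / π) * s - 2 * exp (-(27 / 2) * t ^ 2) ≤ prob a t := by
  have h1 := prob_ge_wave a ha ht
  rw [(wave_expect a i hi ht).2] at h1
  have h2 : (2 / π) * s ≤ (2 / π) * ∑' k : ℕ, (-1 : ℝ) ^ k *
      ((∏ j, sinc ((2 * (k : ℝ) + 1) * (a j * (π / (2 * t))))) / (2 * (k : ℝ) + 1)) :=
    mul_le_mul_of_nonneg_left hs (by positivity)
  linarith

lemma scaled {n : ℕ} (a : Fin n → ℝ) (ha : ∑ j, a j ^ 2 = 1) {t : ℝ} (ht : 1.0129 ≤ t) {i : Fin n}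
    (hmax : ∀ j, |a j| ≤ |a i|) (h78 : ∀ j, |a j| < 0.78)
    (hpair : ∀ j k, j ≠ k → |a j| + |a k| < t) :
    ∑ j, (a j * (π / (2 * t))) ^ 2 = (π / (2 * t)) ^ 2 ∧ |a i * (π / (2 * t))| ≤ 1.21 ∧
    (∀ j, |a j * (π / (2 * t))| ≤ |a i * (π / (2 * t))|) ∧
    ∀ j, j ≠ i → |a j * (π / (2 * t))| + |a i * (π / (2 * t))| ≤ π / 2 := by
  have ht0 : 0 < t := by linarith
  have hθ : 0 < π / (2 * t) := by (clear * - ht; positivity)
  have hθ2 : π / (2 * t) ≤ 1.551 := by
    rw [div_le_iff₀ (by positivity)]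
    (clear * - ht; nlinarith [Real.pi_lt_d6])
  refine ⟨?_, ?_, ?_, ?_⟩
  · simp_rw [mul_pow]
    rw [← Finset.sum_mul, ha, one_mul]
  · rw [abs_mul, abs_of_pos hθ]
    have := h78 i
    (clear * - hθ2 hθ this; nlinarith [abs_nonneg (a i)])
  · intro j
    rw [abs_mul, abs_mul]
    exact mul_le_mul_of_nonneg_right (hmax j) (abs_nonneg _)
  · intro j hj
    rw [abs_mul, abs_mul, abs_of_pos hθ, ← add_mul]
    have h1 := hpair j i hj
    calc (|a j| + |a i|) * (π / (2 * t)) ≤ t * (π / (2 * t)) :=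
          mul_le_mul_of_nonneg_right h1.le hθ.le
      _ = π / 2 := by (clear * - ht; field_simp)

lemma exp_small {t : ℝ} (ht : 1.0129 ≤ t) : exp (-(27 / 2) * t ^ 2) ≤ 0.000003 := by
  have h1 : exp (-(27 / 2) * t ^ 2) ≤ exp (-13) := by
    apply Real.exp_le_exp.mpr
    (clear * - ht; nlinarith)
  have h2 : exp (-13) ≤ 0.000003 := by
    have h3 : (2.718:ℝ) ^ 13 ≤ exp 1 ^ 13 :=
      pow_le_pow_left₀ (by norm_num) (by (clear * -; linarith [Real.exp_one_gt_d9])) 13
    rw [← Real.exp_nat_mul] at h3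
    norm_num at h3
    rw [Real.exp_neg]
    rw [inv_le_comm₀ (Real.exp_pos _) (by norm_num)]
    refine le_trans ?_ h3
    norm_num
  exact h1.trans h2

/-- Case (B) at the crossing. -/
theorem node1 {n : ℕ} (a : Fin n → ℝ) (ha : ∑ j, a j ^ 2 = 1) {t : ℝ} (h1 : 1.0129 < t)
    (h2 : t < 1.01293) (h78 : ∀ j, |a j| < 0.78) (hpair : ∀ j k, j ≠ k → |a j| + |a k| < t) :
    1 - (3 - √3 * t) ^ 3 / 24 ≤ prob a t := by
  obtain ⟨i, hi, hmax⟩ := max_coord a ha
  obtain ⟨e1, e2, e3, e4⟩ := scaled a ha h1.le hmax h78 hpair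
  have ht0 : 0 < t := by linarith
  have hθl : 1.550743 ≤ π / (2 * t) := by
    rw [le_div_iff₀ (by (clear * - h1; positivity))]
    (clear * - h1 h2; nlinarith [Real.pi_gt_d6])
  have hθr : π / (2 * t) ≤ 1.5508 := by
    rw [div_le_iff₀ (by positivity)]
    nlinarith [Real.pi_lt_d6]
  have hs := caseB_one (fun j => a j * (π / (2 * t))) i e1
    (by (clear * - hθl h1 h2; nlinarith)) (by nlinarith) e2 e3 e4
  have h3 := wave_lower a ha hi ht0 hs
  refine le_trans ?_ h3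
  have h4 := exp_small h1.le
  have h5 : 0.63661968 ≤ 2 / π := by
    rw [le_div_iff₀ Real.pi_pos]
    (clear * - h1 h2; nlinarith [Real.pi_lt_d6])
  obtain ⟨h3a, h3b⟩ := sqrt3_b
  have h6 : 1.2455536 ≤ 3 - √3 * t := by (clear * - h2 h3b h1; nlinarith)
  have h7 : (1.2455536:ℝ) ^ 3 ≤ (3 - √3 * t) ^ 3 := pow_le_pow_left₀ (by norm_num) h6 3
  norm_num at h7
  (clear * - h4 h5 h3a h3b h7; nlinarith)

/-- Case (B) at `1.02`. -/
theorem node2 {n : ℕ} (a : Fin n → ℝ) (ha : ∑ j, a j ^ 2 = 1)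
    (h78 : ∀ j, |a j| < 0.78) (hpair : ∀ j k, j ≠ k → |a j| + |a k| < 1.02) :
    1 - (3 - √3 * 1.02) ^ 3 / 24 + 0.00004 ≤ prob a 1.02 := by
  obtain ⟨i, hi, hmax⟩ := max_coord a ha
  obtain ⟨e1, e2, e3, e4⟩ := scaled a ha (by norm_num : (1.0129:ℝ) ≤ 1.02) hmax h78 hpair
  have hθl : 1.539995 ≤ π / (2 * 1.02) := by
    rw [le_div_iff₀ (by positivity)]
    (clear * -; nlinarith [Real.pi_gt_d6])
  have hθr : π / (2 * 1.02) ≤ 1.539997 := by
    rw [div_le_iff₀ (by (clear * -; positivity))]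
    (clear * -; nlinarith [Real.pi_lt_d6])
  have hs := caseB_two (fun j => a j * (π / (2 * 1.02))) i e1
    (by (clear * - hθl; nlinarith)) (by (clear * - hθr hθl; nlinarith)) e2 e3 e4
  have h3 := wave_lower a ha hi (by norm_num) hs
  refine le_trans ?_ h3
  have h4 := exp_small (by norm_num : (1.0129:ℝ) ≤ 1.02)
  have h5 : 0.63661968 ≤ 2 / π := by
    rw [le_div_iff₀ Real.pi_pos]
    (clear * -; nlinarith [Real.pi_lt_d6])
  obtain ⟨h3a, h3b⟩ := sqrt3_b
  have h6 : 1.233308 ≤ 3 - √3 * 1.02 := by (clear * - h3a h3b; linarith)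
  have h7 : (1.233308:ℝ) ^ 3 ≤ (3 - √3 * 1.02) ^ 3 := pow_le_pow_left₀ (by norm_num) h6 3
  norm_num at h7 h4 ⊢
  (clear * - h5 h3a h3b h7 h4; nlinarith)

/-- `1 - T(f₃,t)` is a lower bound at `t₁` for every unit vector. -/
theorem at_t1 {n : ℕ} (a : Fin n → ℝ) (ha : ∑ j, a j ^ 2 = 1) {t : ℝ} (h1 : 1.0129 < t)
    (h2 : t < 1.01293) (hM : ff t ≤ 0) : 1 - (3 - √3 * t) ^ 3 / 24 ≤ prob a t := by
  by_cases h : (∃ i, 0.78 ≤ |a i|) ∨ ∃ i j, i ≠ j ∧ t ≤ |a i| + |a j|
  · exact direct a ha h1.le (by linarith) hM h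
  · push Not at h
    exact node1 a ha h1 h2 h.1 h.2

/-- Convexity chord for the cubic. -/
lemma chord {t₁ t l : ℝ} (h1 : 1.0129 < t₁) (h2 : t₁ < 1.01293) (hl0 : 0 ≤ l) (hl1 : l ≤ 1)
    (ht : t = (1 - l) * t₁ + l * 1.02) :
    (1 - l) * (3 - √3 * t₁) ^ 3 / 24 + l * (3 - √3 * 1.02) ^ 3 / 24 ≤
      (3 - √3 * t) ^ 3 / 24 + 0.00004 * l := by
  obtain ⟨h3a, h3b⟩ := sqrt3_b
  have h33 : √3 ^ 2 = 3 := Real.sq_sqrt (by norm_num)
  obtain ⟨y0, hy0⟩ : ∃ y, y = 3 - √3 * t₁ := ⟨_, rfl⟩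
  obtain ⟨y1, hy1⟩ : ∃ y, y = 3 - √3 * 1.02 := ⟨_, rfl⟩
  have hy : 3 - √3 * t = (1 - l) * y0 + l * y1 := by rw [ht, hy0, hy1]; ring
  rw [hy, ← hy0, ← hy1]
  have key : (1 - l) * y0 ^ 3 + l * y1 ^ 3 - ((1 - l) * y0 + l * y1) ^ 3 =
      l * ((1 - l) * (y0 - y1) ^ 2 * ((2 - l) * y0 + (1 + l) * y1)) := by ring
  have d1 : y0 - y1 = √3 * (1.02 - t₁) := by rw [hy0, hy1]; ring
  have d2 : (y0 - y1) ^ 2 ≤ 0.000152 := by
    rw [d1, mul_pow, h33]
    (clear * - h1 h3a h3b h2; nlinarith)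
  have b0 : y0 ≤ 1.2457 := by rw [hy0]; (clear * - h2 h3a h1; nlinarith)
  have b0' : 0 ≤ y0 := by rw [hy0]; (clear * - h2 h3b h1; nlinarith)
  have b1 : y1 ≤ 1.2457 := by rw [hy1]; (clear * - h3a h3b; nlinarith)
  have b1' : 0 ≤ y1 := by rw [hy1]; (clear * - h3a h3b; nlinarith)
  have h4 : (2 - l) * y0 + (1 + l) * y1 ≤ 3.7371 := by (clear * - hy0 hy1 h1 h3a h3b h2 hl0 b0' hl1 b0; nlinarith)
  have h4' : 0 ≤ (2 - l) * y0 + (1 + l) * y1 := by
    apply add_nonneg <;> apply mul_nonneg <;> (clear * - hl1 h3a h3b b0' hl0 hy1; linarith)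
  have h5 : (1 - l) * (y0 - y1) ^ 2 ≤ 0.000152 := by (clear * - d2 hl0; nlinarith [sq_nonneg (y0 - y1)])
  have h5' : 0 ≤ (1 - l) * (y0 - y1) ^ 2 := mul_nonneg (by (clear * - hl1; linarith)) (sq_nonneg _)
  have h6 : (1 - l) * (y0 - y1) ^ 2 * ((2 - l) * y0 + (1 + l) * y1) ≤ 0.000152 * 3.7371 :=
    mul_le_mul h5 h4 h4' (by norm_num)
  have h7 : l * ((1 - l) * (y0 - y1) ^ 2 * ((2 - l) * y0 + (1 + l) * y1)) ≤ l * (0.000152 * 3.7371) :=
    mul_le_mul_of_nonneg_left h6 hl0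
  have h8 : l * (0.000152 * 3.7371) ≤ 24 * (0.00004 * l) := by (clear * - hl0; nlinarith)
  (clear * - hl0 h7; linarith)

/-- `f₃` is minimal on `[t₁, 1.02]`. -/
theorem three_min {n : ℕ} (a : Fin n → ℝ) (ha : ∑ j, a j ^ 2 = 1) {t₁ t : ℝ} (h1 : 1.0129 < t₁)
    (h2 : t₁ < 1.01293) (h0 : ff t₁ = 0) (ht : t₁ ≤ t) (ht2 : t ≤ 1.02) :
    1 - (3 - √3 * t) ^ 3 / 24 ≤ prob a t := by
  obtain ⟨h2a, h2b⟩ := sqrt2_b
  have hM : ff t ≤ 0 := by
    rcases eq_or_lt_of_le ht with rfl | ht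
    · exact h0.le
    · exact (ff_neg h1 h0 ht (by linarith)).le
  by_cases h : (∃ i, 0.78 ≤ |a i|) ∨ ∃ i j, i ≠ j ∧ t ≤ |a i| + |a j|
  · exact direct a ha (by (clear * - h1 ht; linarith)) (by (clear * - ht2 h2a h2b; linarith)) hM h
  push Not at h
  obtain ⟨h78, hpair⟩ := h
  obtain ⟨i, hi, -⟩ := max_coord a ha
  obtain ⟨l, hl⟩ : ∃ l, l = (t - t₁) / (1.02 - t₁) := ⟨_, rfl⟩
  have hd : 0 < 1.02 - t₁ := by (clear * - h2 h2a h2b; linarith)
  have hl0 : 0 ≤ l := by rw [hl]; apply div_nonneg <;> (clear * - ht h2 h2a h2b; linarith)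
  have hl1 : l ≤ 1 := by rw [hl, div_le_one hd]; (clear * - ht2; linarith)
  have htl : t = (1 - l) * t₁ + l * 1.02 := by rw [hl]; field_simp; ring
  have k1 := prob_concave a i hi (t := t₁) (t' := 1.02) (by linarith) (by (clear * - h2 h2a h2b; linarith)) hl0 hl1
  rw [← htl] at k1
  have k2 := at_t1 a ha h1 h2 h0.le
  have k3 := node2 a ha h78 (fun j k hjk => lt_of_lt_of_le (hpair j k hjk) ht2)
  have k4 := chord h1 h2 hl0 hl1 htl
  have k5 : (1 - l) * (1 - (3 - √3 * t₁) ^ 3 / 24) ≤ (1 - l) * prob a t₁ :=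
    mul_le_mul_of_nonneg_left k2 (by (clear * - hl1; linarith))
  have k6 : l * (1 - (3 - √3 * 1.02) ^ 3 / 24 + 0.00004) ≤ l * prob a 1.02 :=
    mul_le_mul_of_nonneg_left k3 hl0
  (clear * - k1 k4 k5 k6; linarith)

/-- `f₂` is minimal on `[2√2-2, t₁]`, positive coordinates. -/
theorem two_min_pos {n : ℕ} (hn : 3 ≤ n) (b : Fin n → ℝ) (hb : ∀ j, 0 < b j)
    (hb1 : ∑ j, b j ^ 2 = 1) {t₁ t : ℝ} (h1 : 1.0129 < t₁) (h2 : t₁ < 1.01293) (h0 : ff t₁ = 0)
    (ht : 2 * √2 - 2 ≤ t) (ht2 : t ≤ t₁) : 1 - prob b t ≤ (√2 - t) ^ 2 / 2 := by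
  obtain ⟨h2a, h2b⟩ := sqrt2_b
  have h22 : √2 ^ 2 = 2 := Real.sq_sqrt (by norm_num)
  refine interval_prob hn b hb (u := 2 * √2 - 2) (v := t₁) (by (clear * - h2a h2b; linarith)) ht ht2 (by (clear * - h2 h2a h2b; linarith)) ?_ ?_
  · have := all_case b hb1
    unfold Pool.Agent.M18.Helper88.Slab.T0 at this
    (clear * - h22 this; nlinarith)
  · have := at_t1 b hb1 h1 h2 h0.le
    unfold ff at h0
    (clear * - h0 this; linarith)

/-- `f₂` is minimal on `[2√2-2, t₁]`. -/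
theorem two_min {n : ℕ} (hn : 3 ≤ n) (a : Fin n → ℝ) (ha : ∑ j, a j ^ 2 = 1) {t₁ t : ℝ}
    (h1 : 1.0129 < t₁) (h2 : t₁ < 1.01293) (h0 : ff t₁ = 0)
    (ht : 2 * √2 - 2 ≤ t) (ht2 : t ≤ t₁) : 1 - prob a t ≤ (√2 - t) ^ 2 / 2 := by
  obtain ⟨h2a, h2b⟩ := sqrt2_b
  obtain ⟨i, hi, -⟩ := max_coord a ha
  -- approximation by positive vectors
  obtain ⟨c, hc⟩ : ∃ c : ℕ → Fin n → ℝ, c = fun (k : ℕ) (j : Fin n) => |a j| + 1 / ((k : ℝ) + 1) := ⟨_, rfl⟩
  obtain ⟨N, hN⟩ : ∃ N : ℕ → ℝ, N = fun k => √(∑ j, c k j ^ 2) := ⟨_, rfl⟩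
  have cpos : ∀ k j, 0 < c k j := by
    intro k j; rw [hc]; simp only; have := abs_nonneg (a j); (clear * -; positivity)
  have clim : ∀ j, Filter.Tendsto (fun k => c k j) Filter.atTop (nhds |a j|) := by
    intro j
    rw [hc]
    have := (tendsto_one_div_add_atTop_nhds_zero_nat (𝕜 := ℝ)).const_add |a j|
    simpa using this
  have Nlim : Filter.Tendsto N Filter.atTop (nhds 1) := by
    rw [hN]
    have h3 : Filter.Tendsto (fun k => ∑ j, c k j ^ 2) Filter.atTop (nhds (∑ j, |a j| ^ 2)) :=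
      tendsto_finsetSum _ (fun j _ => (clim j).pow 2)
    have h4 := h3.sqrt
    simp only [sq_abs, ha, Real.sqrt_one] at h4
    exact h4
  have hne : (Finset.univ : Finset (Fin n)).Nonempty := ⟨i, Finset.mem_univ i⟩
  have Spos : ∀ k, 0 < ∑ j, c k j ^ 2 := fun k =>
    Finset.sum_pos (fun j _ => by have := cpos k j; (clear * - this; positivity)) hne
  have Npos : ∀ k, 0 < N k := by
    intro k; rw [hN]; exact Real.sqrt_pos.mpr (Spos k)
  have Nsq : ∀ k, N k ^ 2 = ∑ j, c k j ^ 2 := by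
    intro k; rw [hN]; exact Real.sq_sqrt (Spos k).le
  have key : ∀ k, 1 - prob (fun j => c k j / N k) t ≤ (√2 - t) ^ 2 / 2 := by
    intro k
    refine two_min_pos hn _ (fun j => div_pos (cpos k j) (Npos k)) ?_ h1 h2 h0 ht ht2
    simp_rw [div_pow]
    rw [← Finset.sum_div, Nsq k, div_self (Spos k).ne']
  have lim := prob_tendsto (fun k j => c k j / N k) (fun j => |a j|) (fun j => by
    have h5 := (clim j).div Nlim one_ne_zero
    rw [div_one] at h5
    exact h5) i (by simpa using hi) (t := t) (by linarith)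
  rw [prob_abs] at lim
  have lim2 : Filter.Tendsto (fun k => 1 - prob (fun j => c k j / N k) t) Filter.atTop
      (nhds (1 - prob a t)) := lim.const_sub 1
  exact le_of_tendsto lim2 (Filter.Eventually.of_forall key)

/-- Volumes from probabilities. -/
lemma vol_le {n : ℕ} (a b : Fin n → ℝ) {t : ℝ} (h : prob a t ≤ prob b t) :
    volume {x : Fin n → ℝ | (∀ i, |x i| ≤ 1) ∧ |∑ i, a i * x i| ≤ t} ≤
      volume {x : Fin n → ℝ | (∀ i, |x i| ≤ 1) ∧ |∑ i, b i * x i| ≤ t} := by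
  rw [Pool.Agent.M18.Helper88.Slab.volume_slab_pi, Pool.Agent.M18.Helper88.Slab.volume_slab_pi]
  exact mul_le_mul_right (ENNReal.ofReal_le_ofReal h) _

lemma vol_lt {n : ℕ} (a b : Fin n → ℝ) {t : ℝ} (h : prob a t < prob b t) :
    volume {x : Fin n → ℝ | (∀ i, |x i| ≤ 1) ∧ |∑ i, a i * x i| ≤ t} <
      volume {x : Fin n → ℝ | (∀ i, |x i| ≤ 1) ∧ |∑ i, b i * x i| ≤ t} := by
  rw [Pool.Agent.M18.Helper88.Slab.volume_slab_pi, Pool.Agent.M18.Helper88.Slab.volume_slab_pi]
  refine (ENNReal.mul_lt_mul_iff_right (by positivity) (ENNReal.pow_ne_top (by norm_num))).mpr ?_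
  exact (ENNReal.ofReal_lt_ofReal_iff (lt_of_le_of_lt (prob_nonneg a t) h)).mpr h

/-- Values of the candidates and both minimality statements. -/
theorem first_assertion : ∃ t₁ : ℝ, 1.0129 < t₁ ∧ t₁ < 1.01293 ∧
    (Real.sqrt 2 - t₁) ^ 2 / 2 = (3 - Real.sqrt 3 * t₁) ^ 3 / 24 ∧
    ∀ n : ℕ, 3 ≤ n →
      (∀ t : ℝ, 2 * Real.sqrt 2 - 2 < t → t ≤ t₁ → ∀ a : Fin n → ℝ, ∑ i, a i ^ 2 = 1 →
        volume {x : Fin n → ℝ | (∀ i, |x i| ≤ 1) ∧
          |∑ i : Fin n, (if (i : ℕ) < 2 then 1 / Real.sqrt 2 else 0) * x i| ≤ t} ≤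
        volume {x : Fin n → ℝ | (∀ i, |x i| ≤ 1) ∧ |∑ i, a i * x i| ≤ t}) ∧
      (∀ t : ℝ, t₁ < t → t < Real.sqrt 2 →
        volume {x : Fin n → ℝ | (∀ i, |x i| ≤ 1) ∧
          |∑ i : Fin n, (if (i : ℕ) < 3 then 1 / Real.sqrt 3 else 0) * x i| ≤ t} <
        volume {x : Fin n → ℝ | (∀ i, |x i| ≤ 1) ∧
          |∑ i : Fin n, (if (i : ℕ) < 2 then 1 / Real.sqrt 2 else 0) * x i| ≤ t}) ∧
      (∀ t : ℝ, t₁ ≤ t → t ≤ 1.02 → ∀ a : Fin n → ℝ, ∑ i, a i ^ 2 = 1 →
        volume {x : Fin n → ℝ | (∀ i, |x i| ≤ 1) ∧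
          |∑ i : Fin n, (if (i : ℕ) < 3 then 1 / Real.sqrt 3 else 0) * x i| ≤ t} ≤
        volume {x : Fin n → ℝ | (∀ i, |x i| ≤ 1) ∧ |∑ i, a i * x i| ≤ t}) := by
  obtain ⟨t₁, h1, h2, h0⟩ := exists_t1
  obtain ⟨h2a, h2b⟩ := sqrt2_b
  obtain ⟨h3a, h3b⟩ := sqrt3_b
  have h33 : √3 ^ 2 = 3 := Real.sq_sqrt (by norm_num)
  have h22 : √2 ^ 2 = 2 := Real.sq_sqrt (by norm_num)
  refine ⟨t₁, h1, h2, ?_, ?_⟩
  · unfold ff at h0; (clear * - h0; linarith)
  intro n hn
  have e2 : ∀ t, 2 * √2 - 2 ≤ t → t ≤ √2 →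
      prob (fun j : Fin n => if (j : ℕ) < 2 then 1 / √2 else 0) t = 1 - (√2 - t) ^ 2 / 2 := by
    intro t ht1 ht2
    rw [Pool.Agent.M18.Helper34.Slab.prob_f2 (by omega) _ ht2]
    · (clear * - h22; nlinarith)
    · rw [div_le_iff₀ (by positivity)]; (clear * - h22 ht1 h1 h2 h2a h2b; nlinarith)
  have e3 : ∀ t, 2 * √2 - 2 ≤ t → t ≤ √2 →
      prob (fun j : Fin n => if (j : ℕ) < 3 then 1 / √3 else 0) t = 1 - (3 - √3 * t) ^ 3 / 24 := by
    intro t ht1 ht2
    rw [prob_f3 hn _ (by (clear * - h2a h2b h3a ht2; linarith))]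
    rw [div_le_iff₀ (by positivity)]; (clear * - h2a h33 ht1 h3a h2b; nlinarith)
  refine ⟨?_, ?_, ?_⟩
  · intro t ht1 ht2 a ha
    apply vol_le
    rw [e2 t ht1.le (by (clear * - h2 h2a h2b ht2; linarith))]
    (clear * - hn ha h1 h2 h0 ht1 ht2; linarith [two_min hn a ha h1 h2 h0 ht1.le ht2])
  · intro t ht1 ht2
    apply vol_lt
    rw [e2 t (by (clear * - h1 h2a h2b ht1; linarith)) ht2.le, e3 t (by linarith) ht2.le]
    have := ff_neg h1 h0 ht1 ht2.le
    unfold ff at this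
    (clear * - this; linarith)
  · intro t ht1 ht2 a ha
    apply vol_le
    rw [e3 t (by (clear * - h1 h2a h2b ht1; linarith)) (by (clear * - h2a h2b ht2; linarith))]
    (clear * - ha h1 h2 h0 ht1 ht2; linarith [three_min a ha h1 h2 h0 ht1 ht2])

end Pool.Agent.M18.Helper89.FA
end

/- Helper37.SP.Bridge -/
section
/-!
Project SP, module SP-01: the bridge between lists and vectors.
-/

set_option autoImplicit false

open MeasureTheory Set Real Pool.Agent.M18.Slab
open Pool.Agent.M18.Helper88.Slab (prob)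

namespace Pool.Agent.M18.Helper89.SP

theorem two_AL_le (n : ℕ) (a : Fin n → ℝ) {t : ℝ} (ht : 0 ≤ t) :
    2 * AL (List.ofFn a) H t ≤ 2 ^ n := by
  have hV : volume (Neg.neg ⁻¹' (Pool.Agent.M18.Slab.Vol.K n a t)) = volume (Pool.Agent.M18.Slab.Vol.K n a t) :=
    (Measure.measurePreserving_neg (volume : Measure (Fin n → ℝ))).measure_preimage
      (Pool.Agent.M18.Slab.Vol.K_meas n a t).nullMeasurableSet
  have hd : Disjoint (Pool.Agent.M18.Slab.Vol.K n a t) (Neg.neg ⁻¹' (Pool.Agent.M18.Slab.Vol.K n a t)) := by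
    rw [Set.disjoint_left]
    rintro x ⟨_, h1⟩ ⟨_, h2⟩
    have e : ∑ i, a i * (-x) i = -∑ i, a i * x i := by
      simp [Finset.sum_neg_distrib]
    rw [e] at h2
    linarith
  have hU : volume (Pool.Agent.M18.Slab.Vol.K n a t ∪ Neg.neg ⁻¹' (Pool.Agent.M18.Slab.Vol.K n a t)) ≤ volume (Pool.Agent.M18.Slab.Vol.C n) := by
    refine measure_mono ?_
    rintro x (⟨h, _⟩ | ⟨h, _⟩)
    · exact h
    · intro i
      have := h i
      simpa using this
  rw [measure_union hd ((Pool.Agent.M18.Slab.Vol.K_meas n a t).preimage measurable_neg), hV, Pool.Agent.M18.Slab.Vol.C_vol] at hU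
  have h3 := ENNReal.toReal_mono ENNReal.ofReal_ne_top hU
  rw [ENNReal.toReal_add (Pool.Agent.M18.Slab.Vol.K_lt_top n a t).ne (Pool.Agent.M18.Slab.Vol.K_lt_top n a t).ne,
    ENNReal.toReal_ofReal (by positivity), Pool.Agent.M18.Slab.Vol.K_eq] at h3
  linarith

theorem T_ofFn {n : ℕ} (a : Fin n → ℝ) {t : ℝ} (ht : 0 ≤ t) :
    T (List.ofFn a) t = 1 - prob a t := by
  have h1 := volume_slab n a t ht
  rw [Pool.Agent.M18.Helper88.Slab.volume_slab_pi] at h1
  have h2 := congrArg ENNReal.toReal h1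
  rw [ENNReal.toReal_mul, ENNReal.toReal_ofReal (Pool.Agent.M18.Helper89.FA.prob_nonneg a t),
    ENNReal.toReal_ofReal (by linarith [two_AL_le n a ht])] at h2
  have h3 : ((2 : ENNReal) ^ n).toReal = 2 ^ n := by
    rw [ENNReal.toReal_pow]
    norm_num
  rw [h3] at h2
  unfold T
  rw [List.length_ofFn]
  have h4 : (0 : ℝ) < 2 ^ n := by positivity
  rw [div_eq_iff h4.ne']
  linarith

theorem T_perm {L L' : List ℝ} (h : L.Perm L') (t : ℝ) : T L t = T L' t := by
  unfold T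
  rw [AL_perm h, h.length_eq]

/-- lists as vectors: every list is `ofFn` of a vector with the same data -/
theorem exists_vec (L : List ℝ) : ∃ a : Fin L.length → ℝ, List.ofFn a = L ∧
    ∑ i, a i ^ 2 = sq L := by
  refine ⟨L.get, List.ofFn_get L, ?_⟩
  unfold sq
  conv_rhs => rw [← List.ofFn_get L]
  rw [List.map_ofFn, List.sum_ofFn]
  rfl

end Pool.Agent.M18.Helper89.SP
end
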