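import Mathlib
import Pool.Agent.Helper53.AM.G07
import Pool.Agent.Helper53.AM.G11
import Pool.Agent.Helper53.AM.G13
import Pool.Agent.Helper53.AM.G18
import Pool.Agent.Helper53.AM.G23

/- Helper95.SP.Crude.Bet -/
section
/-!
SP-wave2, module Bet: bounds for the bracket at one harmonic over a box.
-/

set_option autoImplicit false

namespace Pool.Agent.M18.Helper95.SP.Crude

open Real Finset

theorem Bet.hCC' {X U C : ℝ} (κ : ℝ) (hCC : 2 * C ^ 2 = X ^ 2 + U ^ 2) :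
    2 * (κ * C) ^ 2 = (κ * X) ^ 2 + (κ * U) ^ 2 := by
  rw [mul_pow, mul_pow, mul_pow]
  linear_combination κ ^ 2 * hCC

theorem BB_univ {X U C κ : ℝ} (hU : 0 ≤ U) (hUX : U < X) (hC : 0 < C)
    (hCC : 2 * C ^ 2 = X ^ 2 + U ^ 2) (hκ : 0 ≤ κ) :
    |BB X U C κ| ≤ κ ^ 4 / 90 * dd X U := by
  have h := abs_sub_le_univ (P := κ * X) (Q := κ * U) (C := κ * C) (mul_nonneg hκ hU)
    (mul_le_mul_of_nonneg_left hUX.le hκ) (mul_nonneg hκ hC.le) (Bet.hCC' κ hCC)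
  unfold BB dd
  refine h.trans (le_of_eq ?_)
  ring

/-- the shape of the identity bound over a box -/
theorem Bet.id_bound {X U X0 U0 κ N M : ℝ} (hX0 : 0 < X0) (hU0 : 0 < U0) (hX : X0 ≤ X)
    (hU : U0 ≤ U) (hκ : 0 < κ) (hM : 0 ≤ M) (hNM : N ≤ M) :
    (((κ * X) ^ 2 - (κ * U) ^ 2) / 2) ^ 2 *
      (N / (κ * X * (κ * U) * (κ * X + κ * U) ^ 2)) ≤ M / (X0 * U0 * (X0 + U0) ^ 2) * dd X U := by
  have hX' : 0 < X := hX0.trans_le hX
  have hU' : 0 < U := hU0.trans_le hU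
  have e : (((κ * X) ^ 2 - (κ * U) ^ 2) / 2) ^ 2 *
      (N / (κ * X * (κ * U) * (κ * X + κ * U) ^ 2)) = N / (X * U * (X + U) ^ 2) * dd X U := by
    unfold dd
    have h1 : X + U ≠ 0 := by (clear * - hX' hU'; positivity)
    have e2 : κ * X + κ * U = κ * (X + U) := by ring
    rw [e2]
    (clear * - hκ h1 hU' hX'; field_simp)
  rw [e]
  have hd : 0 ≤ dd X U := by unfold dd; (clear * -; positivity)
  apply mul_le_mul_of_nonneg_right _ hd
  apply div_le_div₀ hM hNM (by (clear * - hX0 hU0; positivity))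
  have h3 : X0 * U0 ≤ X * U := mul_le_mul hX hU hU0.le hX'.le
  have h4 : (X0 + U0) ^ 2 ≤ (X + U) ^ 2 := pow_le_pow_left₀ (by positivity) (by (clear * - hX hU; linarith)) 2
  exact mul_le_mul h3 h4 (by positivity) (by positivity)

/-- the shape of the direct bound over a box -/
theorem Bet.dir_bound {X U X0 U1 N M B : ℝ} (hU : 0 ≤ U) (hU1 : U ≤ U1) (h : U1 < X0)
    (hX : X0 ≤ X) (hN : 0 ≤ N) (hB : B ≤ N) (hNM : N ≤ M) :
    B ≤ M / ((X0 ^ 2 - U1 ^ 2) / 2) ^ 2 * dd X U := by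
  have h0 : 0 ≤ U1 := hU.trans hU1
  have h1 : 0 < (X0 ^ 2 - U1 ^ 2) / 2 := by (clear * - hU h hU1; nlinarith)
  have h2 : (X0 ^ 2 - U1 ^ 2) / 2 ≤ (X ^ 2 - U ^ 2) / 2 := by (clear * - hU hU1 hX h; nlinarith)
  have h3 : ((X0 ^ 2 - U1 ^ 2) / 2) ^ 2 ≤ dd X U := pow_le_pow_left₀ h1.le h2 2
  have h4 : 0 < ((X0 ^ 2 - U1 ^ 2) / 2) ^ 2 := by (clear * - h1; positivity)
  have hM : 0 ≤ M := hN.trans hNM
  calc B ≤ M := hB.trans hNM
    _ = M / ((X0 ^ 2 - U1 ^ 2) / 2) ^ 2 * ((X0 ^ 2 - U1 ^ 2) / 2) ^ 2 := by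
        rw [div_mul_cancel₀ _ h4.ne']
    _ ≤ _ := mul_le_mul_of_nonneg_left h3 (by (clear * - hM h1; positivity))

theorem Bet.one_div_sq_le {X U X0 U1 k κ : ℝ} (hk : 0 ≤ k) (hκ : k ≤ κ) (hUX : U < X)
    (hX : X0 ≤ X) (hU1 : U ≤ U1) :
    1 / (1 + (κ * X - κ * U) ^ 2 / 12) ≤ 1 / (1 + k ^ 2 * (max 0 (X0 - U1)) ^ 2 / 12) := by
  apply one_div_le_one_div_of_le (by (clear * -; positivity))
  have h1 : 0 ≤ max 0 (X0 - U1) := le_max_left _ _
  have h2 : max 0 (X0 - U1) ≤ X - U := max_le (by (clear * - hUX; linarith)) (by (clear * - hX hU1; linarith))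
  have h3 : k * max 0 (X0 - U1) ≤ κ * (X - U) := mul_le_mul hκ h2 h1 (hk.trans hκ)
  have h4 : (k * max 0 (X0 - U1)) ^ 2 ≤ (κ * (X - U)) ^ 2 :=
    pow_le_pow_left₀ (by (clear * - hk; positivity)) h3 2
  have e1 : k ^ 2 * (max 0 (X0 - U1)) ^ 2 = (k * max 0 (X0 - U1)) ^ 2 := by ring
  have e2 : (κ * X - κ * U) ^ 2 = (κ * (X - U)) ^ 2 := by ring
  rw [e1, e2]
  linarith

theorem Bet.sq_ge {X U C X0 U0 k κ : ℝ} (hk : 0 ≤ k) (hκ : k ≤ κ) (hX0 : 0 ≤ X0) (hU0 : 0 ≤ U0)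
    (hX : X0 ≤ X) (hU : U0 ≤ U) (hCC : 2 * C ^ 2 = X ^ 2 + U ^ 2) :
    k ^ 2 * (X0 ^ 2 + U0 ^ 2) ≤ 2 * (κ * C) ^ 2 := by
  have h1 : k ^ 2 ≤ κ ^ 2 := pow_le_pow_left₀ hk hκ 2
  have h2 : X0 ^ 2 ≤ X ^ 2 := pow_le_pow_left₀ hX0 hX 2
  have h3 : U0 ^ 2 ≤ U ^ 2 := pow_le_pow_left₀ hU0 hU 2
  have e : 2 * (κ * C) ^ 2 = κ ^ 2 * (X ^ 2 + U ^ 2) := by rw [← hCC]; ring
  rw [e]
  exact mul_le_mul h1 (by (clear * - h2 h3; linarith)) (by (clear * -; positivity)) (by positivity)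

/-- the simple identity bound -/
theorem Bet.idS {b : Bx} {X U Q C : ℝ} {c0 c1 : ℚ} (h : Reg b X U Q C c0 c1) {k : ℕ} {κ : ℝ}
    (hk : 1 ≤ k) (hκ : (k : ℝ) ≤ κ) (hok : idOK k b = true) :
    |BB X U C κ| ≤ ((idV (brS k b) b : ℚ) : ℝ) * dd X U := by
  unfold idOK at hok
  rw [Bool.and_eq_true, Bool.and_eq_true, decide_eq_true_iff, decide_eq_true_iff,
    decide_eq_true_iff] at hok
  obtain ⟨⟨hu0, hx0⟩, h6⟩ := hok
  have hu0' : (0 : ℝ) < (b.U0 : ℝ) := by exact_mod_cast hu0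
  have hx0' : (0 : ℝ) < (b.X0 : ℝ) := by exact_mod_cast hx0
  have h6' : (6 : ℝ) ≤ (k : ℝ) ^ 2 * ((b.X0 : ℝ) ^ 2 + (b.U0 : ℝ) ^ 2) := by exact_mod_cast h6
  have hk' : (1 : ℝ) ≤ (k : ℝ) := by exact_mod_cast hk
  have hκ0 : 0 < κ := by (clear * - hκ hk'; linarith)
  have hX := h.hx0
  have hU := h.hu0
  have hX' : 0 < X := hx0'.trans_le hX
  have hU' : 0 < U := hu0'.trans_le hU
  have h3 := Bet.sq_ge (by (clear * - hk'; linarith)) hκ hx0'.le hu0'.le hX hU h.hCC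
  have h1 := abs_sub_le_id (P := κ * X) (Q := κ * U) (C := κ * C) (by (clear * - hκ0 hU'; positivity))
    (mul_le_mul_of_nonneg_left h.hUX.le hκ0.le) (mul_nonneg hκ0.le h.hC.le) (Bet.hCC' κ h.hCC)
    (by (clear * - h6' h3; linarith))
  refine h1.trans ?_
  have e : ((idV (brS k b) b : ℚ) : ℝ) =
      (1 / (1 + (k : ℝ) ^ 2 * (max 0 ((b.X0 : ℝ) - (b.U1 : ℝ))) ^ 2 / 12) +
        1 / ((k : ℝ) * ((b.X0 : ℝ) + (b.U0 : ℝ)))) /
      ((b.X0 : ℝ) * (b.U0 : ℝ) * ((b.X0 : ℝ) + (b.U0 : ℝ)) ^ 2) := by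
    unfold idV brS
    push_cast
    rfl
  rw [e]
  apply Bet.id_bound hx0' hu0' hX hU hκ0 (by (clear * - hk hx0 hu0; positivity))
  apply add_le_add
  · exact Bet.one_div_sq_le (by (clear * - hk'; linarith)) hκ h.hUX hX h.hu1
  · apply one_div_le_one_div_of_le (by positivity)
    have : κ * X + κ * U = κ * (X + U) := by ring
    rw [this]
    exact mul_le_mul hκ (by (clear * - hX hU; linarith)) (by positivity) hκ0.le

/-- the simple direct bound -/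
theorem Bet.dirS {b : Bx} {X U Q C : ℝ} {c0 c1 : ℚ} (h : Reg b X U Q C c0 c1) {k : ℕ} {κ : ℝ}
    (hk : 1 ≤ k) (hκ : (k : ℝ) ≤ κ) (hok : dirOK b = true) :
    |BB X U C κ| ≤ ((dirV (dvS k b) b : ℚ) : ℝ) * dd X U := by
  unfold dirOK at hok
  rw [decide_eq_true_iff] at hok
  have hok' : (b.U1 : ℝ) < (b.X0 : ℝ) := by exact_mod_cast hok
  have hu00 : (0 : ℝ) ≤ (b.U0 : ℝ) := by exact_mod_cast h.u0
  have hk' : (1 : ℝ) ≤ (k : ℝ) := by exact_mod_cast hk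
  have hκ0 : 0 < κ := by (clear * - hκ hk'; linarith)
  have hX := h.hx0
  have hU := h.hu0
  have hU1 := h.hu1
  have hU' : 0 ≤ U := hu00.trans hU
  have hx0' : (0 : ℝ) < (b.X0 : ℝ) := by (clear * - hok' hu00 hU hU1; linarith)
  have hX' : 0 < X := hx0'.trans_le hX
  have h1 := abs_sub_le_dir (P := κ * X) (Q := κ * U) (C := κ * C) (by (clear * - hκ0 hU'; positivity))
    (by (clear * - hκ0 hX'; positivity)) (mul_pos hκ0 h.hC)
  have h3 := Bet.sq_ge (by (clear * - hk'; linarith)) hκ hx0'.le hu00 hX hU h.hCC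
  have hC := h.hC
  have e : ((dirV (dvS k b) b : ℚ) : ℝ) =
      (2 / ((k : ℝ) ^ 2 * ((b.X0 : ℝ) ^ 2 + (b.U0 : ℝ) ^ 2)) +
        1 / ((k : ℝ) * (b.X0 : ℝ)) *
          (if b.U0 = 0 then 1 else min 1 (1 / ((k : ℝ) * (b.U0 : ℝ))))) /
      (((b.X0 : ℝ) ^ 2 - (b.U1 : ℝ) ^ 2) / 2) ^ 2 := by
    unfold dirV dvS
    push_cast
    split_ifs <;> push_cast <;> rfl
  rw [e]
  have hif0 : 0 ≤ (if κ * U = 0 then (1 : ℝ) else min 1 (1 / (κ * U))) := by
    split_ifs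
    · norm_num
    · exact le_min (by norm_num) (by positivity)
  have hN : 0 ≤ 1 / (κ * C) ^ 2 + 1 / (κ * X) * (if κ * U = 0 then (1 : ℝ) else min 1 (1 / (κ * U))) := by
    (clear * - hκ0 hC hX' hU'; positivity)
  refine Bet.dir_bound hU' hU1 hok' hX hN h1 ?_
  apply add_le_add
  · rw [div_le_div_iff₀ (by positivity) (by (clear * - hk hx0'; positivity))]
    (clear * - h3; linarith)
  · have hkX : (k : ℝ) * (b.X0 : ℝ) ≤ κ * X := mul_le_mul hκ hX hx0'.le hκ0.le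
    apply mul_le_mul _ _ hif0 (by (clear * - hk hx0'; positivity))
    · exact one_div_le_one_div_of_le (by positivity) hkX
    · by_cases hz : b.U0 = 0
      · rw [if_pos hz]
        split_ifs
        · exact le_refl _
        · exact min_le_left _ _
      · rw [if_neg hz]
        have hu0p : (0 : ℝ) < (b.U0 : ℝ) := by
          rcases hu00.eq_or_lt with h0 | h0
          · exact absurd (by exact_mod_cast h0.symm) hz
          · exact h0
        have hUp : 0 < U := hu0p.trans_le hU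
        rw [if_neg (by (clear * - hκ0 hUp; positivity))]
        apply min_le_min_left
        apply one_div_le_one_div_of_le (by (clear * - hk hu00 hz; positivity))
        exact mul_le_mul hκ hU hu00 hκ0.le

/-- the simple bound, valid for all frequencies `≥ k` -/
theorem bbS_sound {b : Bx} {X U Q C : ℝ} {c0 c1 : ℚ} (h : Reg b X U Q C c0 c1) {k : ℕ} {κ : ℝ}
    (hk : 1 ≤ k) (hκ : (k : ℝ) ≤ κ) (hok : bbOK k b = true) :
    |BB X U C κ| ≤ ((bbS k b : ℚ) : ℝ) * dd X U := by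
  unfold bbS
  have hd : 0 ≤ dd X U := by unfold dd; (clear * -; positivity)
  split_ifs with h1 h2
  · have a1 := Bet.idS h hk hκ h1
    have a2 := Bet.dirS h hk hκ h2
    rw [Rat.cast_min, min_mul_of_nonneg _ _ hd]
    exact le_min a1 a2
  · exact Bet.idS h hk hκ h1
  · unfold bbOK at hok
    rw [Bool.or_eq_true] at hok
    rcases hok with h3 | h3
    · exact absurd h3 h1
    · exact Bet.dirS h hk hκ h3

theorem Bet.X1_le {b : Bx} {X U Q C : ℝ} {c0 c1 : ℚ} (h : Reg b X U Q C c0 c1) :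
    b.X1 ≤ 112 / 100 := by
  have h1 := h.x1
  by_contra hc
  push Not at hc
  nlinarith

theorem Bet.U1_nonneg {b : Bx} {X U Q C : ℝ} {c0 c1 : ℚ} (h : Reg b X U Q C c0 c1) :
    0 ≤ b.U1 := by
  have h0 : (0 : ℝ) ≤ (b.U0 : ℝ) := by exact_mod_cast h.u0
  have : (0 : ℝ) ≤ (b.U1 : ℝ) := h0.trans (h.hu0.trans h.hu1)
  exact_mod_cast this

theorem Bet.X1_nonneg {b : Bx} {X U Q C : ℝ} {c0 c1 : ℚ} (h : Reg b X U Q C c0 c1) :
    0 ≤ b.X1 := by
  have h0 : (0 : ℝ) ≤ (b.X0 : ℝ) := by exact_mod_cast h.x0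
  have : (0 : ℝ) ≤ (b.X1 : ℝ) := h0.trans (h.hx0.trans h.hx1)
  exact_mod_cast this

theorem Bet.U1_le {b : Bx} {X U Q C : ℝ} {c0 c1 : ℚ} (h : Reg b X U Q C c0 c1) :
    b.U1 ≤ 3 / 2 := by
  have h1 := h.xu
  have h2 := Bet.U1_nonneg h
  unfold PL at h1
  by_contra hc
  push Not at hc
  nlinarith [sq_nonneg b.X1]

theorem Bet.XU_le {b : Bx} {X U Q C : ℝ} {c0 c1 : ℚ} (h : Reg b X U Q C c0 c1) :
    b.X1 + b.U1 ≤ 21 / 10 := by
  have h1 := h.xu
  unfold PL at h1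
  by_contra hc
  push Not at hc
  nlinarith [sq_nonneg (b.X1 - b.U1)]

/-- the precise identity bound -/
theorem Bet.idE {b : Bx} {X U Q C : ℝ} {c0 c1 : ℚ} (h : Reg b X U Q C c0 c1) {k : ℕ}
    (hk : 1 ≤ k) (hk25 : k ≤ 25) (hok : idOK k b = true) :
    |BB X U C k| ≤ ((idV (brE k c0 c1 b) b : ℚ) : ℝ) * dd X U := by
  unfold idOK at hok
  rw [Bool.and_eq_true, Bool.and_eq_true, decide_eq_true_iff, decide_eq_true_iff,
    decide_eq_true_iff] at hok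
  obtain ⟨⟨hu0, hx0⟩, h6⟩ := hok
  have hu0' : (0 : ℝ) < (b.U0 : ℝ) := by exact_mod_cast hu0
  have hx0' : (0 : ℝ) < (b.X0 : ℝ) := by exact_mod_cast hx0
  have h6' : (6 : ℝ) ≤ (k : ℝ) ^ 2 * ((b.X0 : ℝ) ^ 2 + (b.U0 : ℝ) ^ 2) := by exact_mod_cast h6
  have hk' : (1 : ℝ) ≤ (k : ℝ) := by exact_mod_cast hk
  have hk25' : (k : ℝ) ≤ 25 := by exact_mod_cast hk25
  have hkQ : (1 : ℚ) ≤ (k : ℚ) := by exact_mod_cast hk
  have hk25Q : (k : ℚ) ≤ 25 := by exact_mod_cast hk25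
  have hk0 : (0 : ℝ) < k := by (clear * - hk'; linarith)
  have hX := h.hx0
  have hU := h.hu0
  have hX' : 0 < X := hx0'.trans_le hX
  have hU' : 0 < U := hu0'.trans_le hU
  have hC := h.hC
  have h3 := Bet.sq_ge hk0.le le_rfl hx0'.le hu0'.le hX hU h.hCC
  set s0 : ℚ := k * (c0 + (b.X0 + b.U0) / 2) with hs0
  set s1 : ℚ := k * (c1 + (b.X1 + b.U1) / 2) with hs1
  have hc00 : (0 : ℝ) ≤ (c0 : ℝ) := by exact_mod_cast h.c0n
  have hs0p : 0 < s0 := by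
    rw [hs0]
    have := h.c0n
    have : 0 < c0 + (b.X0 + b.U0) / 2 := by (clear * - hu0 hx0 this; linarith)
    exact mul_pos (by (clear * - hkQ; linarith)) this
  have hs0r : (0 : ℝ) < (s0 : ℝ) := by exact_mod_cast hs0p
  have hs1le : s1 ≤ 60 := by
    rw [hs1]
    have h7 := Bet.XU_le h
    have h8 := h.c1u
    have h9 : c1 + (b.X1 + b.U1) / 2 ≤ 24 / 10 := by (clear * - h7 h8; linarith)
    have h10 : 0 ≤ c1 + (b.X1 + b.U1) / 2 := by
      have : (0 : ℝ) ≤ (c1 : ℝ) := hC.le.trans h.hc1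
      have : 0 ≤ c1 := by exact_mod_cast this
      have := Bet.U1_nonneg h
      have := Bet.X1_nonneg h
      linarith
    (clear * - hk25Q h7 h8; nlinarith)
  set σ : ℝ := (2 * (k * C) + k * X + k * U) / 2 with hσ
  have hσ0 : (s0 : ℝ) ≤ σ := by
    rw [hs0, hσ]
    push_cast
    have e : (2 * ((k : ℝ) * C) + k * X + k * U) / 2 = k * (C + (X + U) / 2) := by ring
    rw [e]
    exact mul_le_mul_of_nonneg_left (by (clear * - hX hU h; linarith [h.hc0])) hk0.le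
  have hσ1 : σ ≤ (s1 : ℝ) := by
    rw [hs1, hσ]
    push_cast
    have e : (2 * ((k : ℝ) * C) + k * X + k * U) / 2 = k * (C + (X + U) / 2) := by ring
    rw [e]
    exact mul_le_mul_of_nonneg_left (by (clear * - h; linarith [h.hc1, h.hx1, h.hu1])) hk0.le
  have hσp : 0 < σ := hs0r.trans_le hσ0
  have hsup := supP_sound hs0p.le hs1le hσ0 hσ1
  have hsup0 : (0 : ℝ) ≤ ((supP s0 s1 : ℚ) : ℝ) := by exact_mod_cast supP_nonneg s0 s1
  have hA : sinc σ ≤ ((supP s0 s1 : ℚ) : ℝ) / (s0 : ℝ) := by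
    rw [sinc_of_ne_zero hσp.ne']
    exact div_le_div₀ hsup0 hsup hs0r hσ0
  have hc1p : (0 : ℝ) < (c1 : ℝ) := hC.trans_le h.hc1
  have hc1le : (k : ℚ) * c1 ≤ 60 := by
    have h8 := h.c1u
    have : 0 < c1 := by exact_mod_cast hc1p
    (clear * - hk25Q h8; nlinarith)
  have hkc0 : (((k : ℚ) * c0 : ℚ) : ℝ) ≤ k * C := by
    push_cast
    exact mul_le_mul_of_nonneg_left h.hc0 hk0.le
  have hkc1 : (k : ℝ) * C ≤ (((k : ℚ) * c1 : ℚ) : ℝ) := by
    push_cast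
    exact mul_le_mul_of_nonneg_left h.hc1 hk0.le
  have hinf := infA_sound (mul_nonneg (by (clear * - hkQ; linarith) : (0 : ℚ) ≤ k) h.c0n) hc1le hkc0 hkc1
  have hinf0 : (0 : ℝ) ≤ ((infA (k * c0) (k * c1) : ℚ) : ℝ) := by
    exact_mod_cast infA_nonneg (k * c0) (k * c1)
  have hkC : 0 < (k : ℝ) * C := mul_pos hk0 hC
  have hκ : (((infA (k * c0) (k * c1) : ℚ) : ℝ) / ((k : ℝ) * (c1 : ℝ))) ^ 2 ≤
      sinc (k * C) ^ 2 := by
    rw [← sq_abs (sinc (k * C)), sinc_of_ne_zero hkC.ne', abs_div, abs_of_pos hkC]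
    apply pow_le_pow_left₀ (by (clear * - hinf0 hk hc1p; positivity))
    apply div_le_div₀ (abs_nonneg _) hinf hkC
    push_cast at hkc1
    exact hkc1
  have hB : 1 / σ ≤ 1 / (s0 : ℝ) := one_div_le_one_div_of_le hs0r hσ0
  have h1 := abs_sub_le_idP (P := k * X) (Q := k * U) (C := k * C) (by positivity)
    (mul_le_mul_of_nonneg_left h.hUX.le hk0.le) (mul_nonneg hk0.le h.hC.le) (Bet.hCC' (k : ℝ) h.hCC)
    (by (clear * - h6' h3; linarith)) hA (by (clear * - hsup0 hs0p; positivity)) hκ hB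
  refine h1.trans ?_
  have e : ((idV (brE k c0 c1 b) b : ℚ) : ℝ) =
      (max (1 / (1 + (k : ℝ) ^ 2 * (max 0 ((b.X0 : ℝ) - (b.U1 : ℝ))) ^ 2 / 12) +
          ((supP s0 s1 : ℚ) : ℝ) / (s0 : ℝ) -
          2 * (((infA (k * c0) (k * c1) : ℚ) : ℝ) / ((k : ℝ) * (c1 : ℝ))) ^ 2)
        (1 / (s0 : ℝ) + 4 / ((k : ℝ) ^ 2 * ((b.X0 : ℝ) ^ 2 + (b.U0 : ℝ) ^ 2)))) /
      ((b.X0 : ℝ) * (b.U0 : ℝ) * ((b.X0 : ℝ) + (b.U0 : ℝ)) ^ 2) := by
    unfold idV brE
    simp only [← hs0, ← hs1]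
    push_cast
    rfl
  rw [e]
  apply Bet.id_bound hx0' hu0' hX hU hk0 (le_max_of_le_right (by (clear * - hs0p hk hx0 hu0; positivity)))
  apply max_le_max
  · have := Bet.one_div_sq_le (k := (k : ℝ)) hk0.le le_rfl h.hUX hX h.hu1
    (clear * - this; linarith)
  · apply add_le_add le_rfl
    rw [div_le_div_iff₀ (by positivity) (by positivity)]
    (clear * - h3; linarith)

/-- the precise direct bound -/
theorem Bet.dirE {b : Bx} {X U Q C : ℝ} {c0 c1 : ℚ} (h : Reg b X U Q C c0 c1) {k : ℕ}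
    (hk : 1 ≤ k) (hk25 : k ≤ 25) (hok : dirOK b = true) (hc0p : 0 < c0) :
    |BB X U C k| ≤ ((dirV (dvE k c0 c1 b) b : ℚ) : ℝ) * dd X U := by
  unfold dirOK at hok
  rw [decide_eq_true_iff] at hok
  have hok' : (b.U1 : ℝ) < (b.X0 : ℝ) := by exact_mod_cast hok
  have hu00 : (0 : ℝ) ≤ (b.U0 : ℝ) := by exact_mod_cast h.u0
  have hk' : (1 : ℝ) ≤ (k : ℝ) := by exact_mod_cast hk
  have hkQ : (1 : ℚ) ≤ (k : ℚ) := by exact_mod_cast hk
  have hk25Q : (k : ℚ) ≤ 25 := by exact_mod_cast hk25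
  have hk0 : (0 : ℝ) < k := by (clear * - hk'; linarith)
  have hX := h.hx0
  have hU := h.hu0
  have hU1 := h.hu1
  have hU' : 0 ≤ U := hu00.trans hU
  have hx0' : (0 : ℝ) < (b.X0 : ℝ) := by (clear * - hok' hu00 hU hU1; linarith)
  have hX' : 0 < X := hx0'.trans_le hX
  have hC := h.hC
  have hc0r : (0 : ℝ) < (c0 : ℝ) := by exact_mod_cast hc0p
  -- the three sines
  have hc1p : (0 : ℝ) < (c1 : ℝ) := hC.trans_le h.hc1
  have hc1le : (k : ℚ) * c1 ≤ 60 := by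
    have h8 := h.c1u
    have : 0 < c1 := by exact_mod_cast hc1p
    (clear * - hk25Q h8; nlinarith)
  have hX1le : (k : ℚ) * b.X1 ≤ 60 := by
    have h8 := Bet.X1_le h
    have := Bet.X1_nonneg h
    (clear * - hk25Q h8; nlinarith)
  have hU1le : (k : ℚ) * b.U1 ≤ 60 := by
    have h8 := Bet.U1_le h
    have := Bet.U1_nonneg h
    (clear * - hk25Q h8; nlinarith)
  have hkn : (0 : ℚ) ≤ k := by (clear * - hkQ; linarith)
  have a1 := supA_sound (a := k * c0) (b := k * c1) (y := k * C) (mul_nonneg hkn h.c0n) hc1le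
    (by push_cast; exact mul_le_mul_of_nonneg_left h.hc0 hk0.le)
    (by push_cast; exact mul_le_mul_of_nonneg_left h.hc1 hk0.le)
  have a2 := supA_sound (a := k * b.X0) (b := k * b.X1) (y := k * X) (mul_nonneg hkn h.x0) hX1le
    (by push_cast; exact mul_le_mul_of_nonneg_left hX hk0.le)
    (by push_cast; exact mul_le_mul_of_nonneg_left h.hx1 hk0.le)
  have a3 := supA_sound (a := k * b.U0) (b := k * b.U1) (y := k * U) (mul_nonneg hkn h.u0) hU1le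
    (by push_cast; exact mul_le_mul_of_nonneg_left hU hk0.le)
    (by push_cast; exact mul_le_mul_of_nonneg_left hU1 hk0.le)
  have n1 : (0 : ℝ) ≤ ((supA (k * c0) (k * c1) : ℚ) : ℝ) := by exact_mod_cast supA_nonneg _ _
  have n2 : (0 : ℝ) ≤ ((supA (k * b.X0) (k * b.X1) : ℚ) : ℝ) := by exact_mod_cast supA_nonneg _ _
  have n3 : (0 : ℝ) ≤ ((supA (k * b.U0) (k * b.U1) : ℚ) : ℝ) := by exact_mod_cast supA_nonneg _ _
  have e : ((dirV (dvE k c0 c1 b) b : ℚ) : ℝ) =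
      ((((supA (k * c0) (k * c1) : ℚ) : ℝ) / ((k : ℝ) * (c0 : ℝ))) ^ 2 +
        ((supA (k * b.X0) (k * b.X1) : ℚ) : ℝ) / ((k : ℝ) * (b.X0 : ℝ)) *
          (if b.U0 = 0 then 1 else
            min 1 (((supA (k * b.U0) (k * b.U1) : ℚ) : ℝ) / ((k : ℝ) * (b.U0 : ℝ))))) /
      (((b.X0 : ℝ) ^ 2 - (b.U1 : ℝ) ^ 2) / 2) ^ 2 := by
    unfold dirV dvE
    push_cast
    split_ifs <;> push_cast <;> rfl
  rw [e]
  have hkC : 0 < (k : ℝ) * C := mul_pos hk0 hC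
  have hkX : 0 < (k : ℝ) * X := mul_pos hk0 hX'
  have b1 : |sinc (k * C) ^ 2| ≤ (((supA (k * c0) (k * c1) : ℚ) : ℝ) / ((k : ℝ) * (c0 : ℝ))) ^ 2 := by
    rw [abs_pow, sinc_of_ne_zero hkC.ne', abs_div, abs_of_pos hkC]
    apply pow_le_pow_left₀ (by (clear * - hk hC; positivity))
    exact div_le_div₀ n1 a1 (by positivity) (mul_le_mul_of_nonneg_left h.hc0 hk0.le)
  have b2 : |sinc (k * X)| ≤ ((supA (k * b.X0) (k * b.X1) : ℚ) : ℝ) / ((k : ℝ) * (b.X0 : ℝ)) := by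
    rw [sinc_of_ne_zero hkX.ne', abs_div, abs_of_pos hkX]
    exact div_le_div₀ n2 a2 (by positivity) (mul_le_mul_of_nonneg_left hX hk0.le)
  have b3 : |sinc (k * U)| ≤ (if b.U0 = 0 then 1 else
      min 1 (((supA (k * b.U0) (k * b.U1) : ℚ) : ℝ) / ((k : ℝ) * (b.U0 : ℝ)))) := by
    split_ifs with hz
    · exact abs_sinc_le_one' _
    · have hu0p : (0 : ℝ) < (b.U0 : ℝ) := by
        rcases hu00.eq_or_lt with h0 | h0
        · exact absurd (by exact_mod_cast h0.symm) hz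
        · exact h0
      have hkU : 0 < (k : ℝ) * U := mul_pos hk0 (hu0p.trans_le hU)
      apply le_min (abs_sinc_le_one' _)
      rw [sinc_of_ne_zero hkU.ne', abs_div, abs_of_pos hkU]
      exact div_le_div₀ n3 a3 (by (clear * - hk hu00 hz; positivity)) (mul_le_mul_of_nonneg_left hU hk0.le)
  have b4 : |sinc (k * X) * sinc (k * U)| ≤
      ((supA (k * b.X0) (k * b.X1) : ℚ) : ℝ) / ((k : ℝ) * (b.X0 : ℝ)) *
        (if b.U0 = 0 then 1 else
          min 1 (((supA (k * b.U0) (k * b.U1) : ℚ) : ℝ) / ((k : ℝ) * (b.U0 : ℝ)))) := by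
    rw [abs_mul]
    exact mul_le_mul b2 b3 (abs_nonneg _) (by (clear * - n2 hk hx0'; positivity))
  have h1 : |BB X U C k| ≤ (((supA (k * c0) (k * c1) : ℚ) : ℝ) / ((k : ℝ) * (c0 : ℝ))) ^ 2 +
        ((supA (k * b.X0) (k * b.X1) : ℚ) : ℝ) / ((k : ℝ) * (b.X0 : ℝ)) *
          (if b.U0 = 0 then 1 else
            min 1 (((supA (k * b.U0) (k * b.U1) : ℚ) : ℝ) / ((k : ℝ) * (b.U0 : ℝ)))) := by
    unfold BB
    exact (abs_sub _ _).trans (add_le_add b1 b4)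
  exact Bet.dir_bound hU' hU1 hok' hX ((abs_nonneg _).trans h1) h1 le_rfl

theorem Bet.cast_upp (x : ℚ) : (x : ℝ) ≤ ((upp x : ℚ) : ℝ) := Rat.cast_le.mpr (le_upp x)

theorem betQ_sound {b : Bx} {X U Q C : ℝ} {c0 c1 : ℚ} (h : Reg b X U Q C c0 c1) {kb k : ℕ}
    (hk : 1 ≤ k) (hk25 : k ≤ 25) :
    |BB X U C k| ≤ ((betQ kb k c0 c1 b : ℚ) : ℝ) * dd X U := by
  have hd : 0 ≤ dd X U := by unfold dd; (clear * -; positivity)
  have hu00 : (0 : ℝ) ≤ (b.U0 : ℝ) := by exact_mod_cast h.u0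
  have h1 : |BB X U C k| ≤ (((k : ℚ) ^ 4 / 90 : ℚ) : ℝ) * dd X U := by
    push_cast
    exact BB_univ (hu00.trans h.hu0) h.hUX h.hC h.hCC (Nat.cast_nonneg k)
  have h2 : |BB X U C k| ≤
      (((if bbOK k b then min ((k : ℚ) ^ 4 / 90) (upp (bbS k b)) else (k : ℚ) ^ 4 / 90) : ℚ) : ℝ) *
        dd X U := by
    split_ifs with h3
    · rw [Rat.cast_min, min_mul_of_nonneg _ _ hd]
      refine le_min h1 ?_
      exact (bbS_sound h hk le_rfl h3).trans (mul_le_mul_of_nonneg_right (Bet.cast_upp _) hd)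
    · exact h1
  unfold betQ
  dsimp only
  generalize (if bbOK k b then min ((k : ℚ) ^ 4 / 90) (upp (bbS k b)) else (k : ℚ) ^ 4 / 90) = s
    at h2 ⊢
  split_ifs with h3 h4 h5
  all_goals first | exact h2 | skip
  · rw [Rat.cast_min, min_mul_of_nonneg _ _ hd]
    refine le_min h2 ?_
    rw [Bool.and_eq_true] at h4
    exact (Bet.idE h hk hk25 h4.2).trans (mul_le_mul_of_nonneg_right (Bet.cast_upp _) hd)
  · rw [Rat.cast_min, min_mul_of_nonneg _ _ hd]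
    refine le_min h2 ?_
    rw [Bool.and_eq_true, decide_eq_true_iff] at h5
    exact (Bet.dirE h hk hk25 h5.1 h5.2).trans (mul_le_mul_of_nonneg_right (Bet.cast_upp _) hd)

theorem betQ_nonneg {b : Bx} {X U Q C : ℝ} {c0 c1 : ℚ} (h : Reg b X U Q C c0 c1) {kb k : ℕ}
    (hk : 1 ≤ k) (hk25 : k ≤ 25) : 0 ≤ betQ kb k c0 c1 b := by
  have hu00 : (0 : ℝ) ≤ (b.U0 : ℝ) := by exact_mod_cast h.u0
  have hU : 0 ≤ U := hu00.trans h.hu0
  have hd : 0 < dd X U := by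
    have h1 := h.hUX
    have : 0 < (X ^ 2 - U ^ 2) / 2 := by (clear * - hU h1; nlinarith)
    unfold dd
    (clear * - this; positivity)
  have h2 := (abs_nonneg _).trans (betQ_sound (kb := kb) h hk hk25)
  have h3 : (0 : ℝ) ≤ ((betQ kb k c0 c1 b : ℚ) : ℝ) := by
    by_contra hc
    push Not at hc
    (clear * - h2 hd hc; nlinarith)
  exact_mod_cast h3

end Pool.Agent.M18.Helper95.SP.Crude
end

/- Helper95.SP.Crude.TailO -/
section
/-! The odd harmonics `k ≥ 27` (SP-wave 2, module TailO). -/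

set_option autoImplicit false

namespace Pool.Agent.M18.Helper95.SP.Crude

open Real Finset

/-- a copy at a harmonic `κ ≥ 27` -/
private theorem tailO_copy {X0 : ℚ} {X : ℝ} (h0 : 0 ≤ X0) (h1 : (X0 : ℝ) ≤ X) (h2 : X ≤ 1.12)
    (κ : ℕ) (hκ : 27 ≤ κ) (p : ℕ) :
    |sinc ((κ : ℝ) * X)| ^ p ≤ sinc X ^ p * (((cfO X0 : ℚ) : ℝ) ^ p *
      (27 / (κ : ℝ)) ^ (((if 1 < 27 * sinL X0 then (p : ℚ) else 0 : ℚ)) : ℝ)) := by
  have h0' : (0 : ℝ) ≤ X0 := by exact_mod_cast h0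
  have hX0 : 0 ≤ X := h0'.trans h1
  have hpi := pi_gt_three
  have hs : 0 < sinc X := sinc_pos' hX0 (by norm_num at h2 ⊢; (clear * - h2; linarith))
  have hκ0 : (0 : ℝ) < κ := by
    have : 0 < κ := by omega
    exact_mod_cast this
  have hX060 : X0 ≤ 60 := by
    have : (X0 : ℝ) ≤ 60 := by norm_num at h2; (clear * - h1 h2; linarith)
    exact_mod_cast this
  unfold cfO
  split_ifs with hc
  · -- the case of a positive bound
    have hc' : (1 : ℝ) < 27 * ((sinL X0 : ℚ) : ℝ) := by exact_mod_cast hc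
    have hsl : 0 < ((sinL X0 : ℚ) : ℝ) := by (clear * - hc'; linarith)
    have h3 : ((sinL X0 : ℚ) : ℝ) ≤ sin X := by
      refine (sinL_sound h0 hX060).trans ?_
      apply sin_le_sin_of_le_of_le_pi_div_two (by (clear * - h0' hpi; linarith)) (by norm_num at h2; (clear * - hpi h2; linarith)) h1
    have hXpos : 0 < X := by
      rcases hX0.eq_or_lt with h | h
      · rw [← h, sin_zero] at h3; (clear * - hsl h3; linarith)
      · exact h
    have h4 : |sinc ((κ : ℝ) * X)| ≤ sinc X * (1 / (27 * ((sinL X0 : ℚ) : ℝ)) * (27 / (κ : ℝ))) := by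
      have e1 : sinc X = sin X / X := sinc_of_ne_zero hXpos.ne'
      have e2 : sinc ((κ : ℝ) * X) = sin ((κ : ℝ) * X) / ((κ : ℝ) * X) :=
        sinc_of_ne_zero (mul_pos hκ0 hXpos).ne'
      rw [e1, e2, abs_div, abs_of_pos (mul_pos hκ0 hXpos)]
      have h5 : |sin ((κ : ℝ) * X)| / ((κ : ℝ) * X) ≤ 1 / ((κ : ℝ) * X) :=
        div_le_div_of_nonneg_right (abs_sin_le_one _) (mul_pos hκ0 hXpos).le
      refine h5.trans ?_
      have e3 : sin X / X * (1 / (27 * ((sinL X0 : ℚ) : ℝ)) * (27 / (κ : ℝ))) =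
          (sin X / ((sinL X0 : ℚ) : ℝ)) * (1 / ((κ : ℝ) * X)) := by
        field_simp
      rw [e3]
      refine le_mul_of_one_le_left (by (clear * - hκ hXpos; positivity)) ?_
      rw [le_div_iff₀ hsl, one_mul]
      exact h3
    have h6 := pow_le_pow_left₀ (abs_nonneg _) h4 p
    refine h6.trans (le_of_eq ?_)
    rw [mul_pow, mul_pow]
    push_cast
    rw [Real.rpow_natCast]
  · have h4 : |sinc ((κ : ℝ) * X)| ≤ sinc X := by
      rcases hX0.eq_or_lt with h | h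
      · rw [← h, mul_zero, sinc_zero, abs_one]
      · rw [sinc_of_ne_zero h.ne', sinc_of_ne_zero (mul_pos hκ0 h).ne', abs_div,
          abs_of_pos (mul_pos hκ0 h)]
        have h5 := abs_sin_nat_mul_le κ h.le (by norm_num at h2; (clear * - hpi h2; linarith))
        rw [div_le_div_iff₀ (mul_pos hκ0 h) h]
        calc |sin ((κ : ℝ) * X)| * X ≤ (κ * sin X) * X := mul_le_mul_of_nonneg_right h5 h.le
          _ = sin X * ((κ : ℝ) * X) := by ring
    have h6 := pow_le_pow_left₀ (abs_nonneg _) h4 p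
    refine h6.trans (le_of_eq ?_)
    push_cast
    rw [Real.rpow_zero, one_pow, mul_one, mul_one]

theorem tailO_gr2_le {j : ℕ} (hj : j < 181) : gr2 j ≤ 3 / 4 := by
  unfold gr2
  split_ifs with h
  · have : (j : ℚ) ≤ 30 := by exact_mod_cast h
    (clear * - this; linarith)
  · have h1 : ((j - 30 : ℕ) : ℚ) ≤ 150 := by
      have : j - 30 ≤ 150 := by omega
      exact_mod_cast this
    (clear * - h1; linarith)

/-- the rest at a harmonic `κ ≥ 27` -/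
private theorem tailO_rest {R : List ℝ} (hs : ∀ x ∈ R, 0 < sinc x) (h00 : ∀ x ∈ R, 0 ≤ x) {j : ℕ}
    (hj : j < 181) (hR : ∀ x ∈ R, x ≤ ((gr2 j : ℚ) : ℝ)) {Mlo : ℚ} (h0 : 0 ≤ Mlo)
    (hM : (Mlo : ℝ) ≤ MM R)
    (hst : 1 ≤ eLoF (ll2 j) * (27 * sinL (max (gr2 j) (35 / 100)))) (κ : ℕ) (hκ : 27 ≤ κ) :
    |PP R κ| ≤ PP R 1 *
      (((eUpF (dn (ll2 j * (Mlo / (max (gr2 j) (35 / 100)) ^ 2))) : ℚ) : ℝ) *
        (27 / (κ : ℝ)) ^ ((Mlo / (max (gr2 j) (35 / 100)) ^ 2 : ℚ) : ℝ)) := by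
  set rq : ℚ := max (gr2 j) (35 / 100) with hrq
  have hr1 : 35 / 100 ≤ rq := le_max_right _ _
  have hr2 : rq ≤ 3 / 4 := max_le (tailO_gr2_le hj) (by norm_num)
  have hr1' : (35 / 100 : ℝ) ≤ (rq : ℝ) := by
    have : ((35 / 100 : ℚ) : ℝ) ≤ (rq : ℝ) := by exact_mod_cast hr1
    push_cast at this
    exact this
  have hr2' : (rq : ℝ) ≤ 3 / 4 := by
    have : (rq : ℝ) ≤ ((3 / 4 : ℚ) : ℝ) := by exact_mod_cast hr2
    push_cast at this
    exact this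
  have hr0 : (0 : ℝ) < rq := by (clear * - hr1'; linarith)
  have hκ27 : (27 : ℝ) ≤ κ := by exact_mod_cast hκ
  have hκ0 : (0 : ℝ) < κ := by (clear * - hκ27; linarith)
  have hll : 0 ≤ ll2 j := by unfold ll2; (clear * -; positivity)
  have hll' : (0 : ℝ) ≤ ((ll2 j : ℚ) : ℝ) := by exact_mod_cast hll
  -- the logarithm
  have hst' : (1 : ℝ) ≤ ((eLoF (ll2 j) : ℚ) : ℝ) * (27 * ((sinL rq : ℚ) : ℝ)) := by
    exact_mod_cast hst
  have he := eLoF_sound hll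
  have hen : (0 : ℝ) ≤ ((eLoF (ll2 j) : ℚ) : ℝ) := by exact_mod_cast eLoF_nonneg (ll2 j)
  have hsin := sinL_sound (y := rq) (by (clear * - hr1; linarith)) (by (clear * - hr2; linarith))
  have hsl : 0 < ((sinL rq : ℚ) : ℝ) := by
    by_contra hneg
    push Not at hneg
    have : ((eLoF (ll2 j) : ℚ) : ℝ) * (27 * ((sinL rq : ℚ) : ℝ)) ≤ 0 :=
      mul_nonpos_of_nonneg_of_nonpos hen (by (clear * - hneg; linarith))
    (clear * - hst' this; linarith)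
  have h27 : (1 : ℝ) ≤ exp (-((ll2 j : ℚ) : ℝ)) * (27 * sin (rq : ℝ)) := by
    refine hst'.trans ?_
    exact mul_le_mul he (by (clear * - hsin; linarith)) (by (clear * - hsl; linarith)) (exp_pos _).le
  have hsr : 0 < sin (rq : ℝ) := hsl.trans_le hsin
  have hlog : ((ll2 j : ℚ) : ℝ) ≤ log (27 * sin (rq : ℝ)) := by
    rw [le_log_iff_exp_le (by positivity)]
    rw [exp_neg] at h27
    rwa [inv_mul_eq_div, le_div_iff₀ (exp_pos _), one_mul] at h27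
  have hlogκ : log (κ * sin (rq : ℝ)) = log (27 * sin (rq : ℝ)) + log ((κ : ℝ) / 27) := by
    rw [← log_mul (by positivity) (by positivity)]
    congr 1
    (clear * - hsr hκ; field_simp)
  have hlogκ0 : 0 ≤ log ((κ : ℝ) / 27) := log_nonneg (by rw [le_div_iff₀ (by norm_num)]; (clear * - hκ27; linarith))
  have hlog0 : 0 ≤ log (κ * sin (rq : ℝ)) := by rw [hlogκ]; (clear * - hll' hlog hlogκ0; linarith)
  -- the product
  have h1 : |PP R κ| ≤ PP R 1 * exp (-(log (κ * sin (rq : ℝ)) / (rq : ℝ) ^ 2 *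
      (R.map fun x => x ^ 2).sum)) := by
    apply abs_PP_le_exp hs
    intro x hx
    refine tail_rest_odd (by (clear * - hκ27; linarith)) hr1' hr2' (h00 x hx) ((hR x hx).trans ?_)
    have : gr2 j ≤ rq := le_max_left _ _
    exact_mod_cast this
  refine h1.trans (mul_le_mul_of_nonneg_left ?_ (PP_one_pos hs).le)
  set E : ℚ := Mlo / rq ^ 2 with hE
  have hE' : ((E : ℚ) : ℝ) = (Mlo : ℝ) / (rq : ℝ) ^ 2 := by rw [hE]; push_cast; rfl
  have hE0 : 0 ≤ E := by rw [hE]; (clear * - h0; positivity)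
  have hE0' : (0 : ℝ) ≤ (E : ℝ) := by exact_mod_cast hE0
  have h2 : exp (-(log (κ * sin (rq : ℝ)) / (rq : ℝ) ^ 2 * (R.map fun x => x ^ 2).sum)) ≤
      exp (-(((ll2 j : ℚ) : ℝ) * (E : ℝ))) * exp (-((E : ℝ) * log ((κ : ℝ) / 27))) := by
    rw [← exp_add]
    apply exp_le_exp.mpr
    have h3 : log (κ * sin (rq : ℝ)) / (rq : ℝ) ^ 2 * (Mlo : ℝ) ≤
        log (κ * sin (rq : ℝ)) / (rq : ℝ) ^ 2 * (R.map fun x => x ^ 2).sum :=
      mul_le_mul_of_nonneg_left hM (div_nonneg hlog0 (by (clear * -; positivity)))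
    have h4 : log (κ * sin (rq : ℝ)) / (rq : ℝ) ^ 2 * (Mlo : ℝ) =
        log (κ * sin (rq : ℝ)) * (E : ℝ) := by rw [hE']; ring
    have h5 : ((ll2 j : ℚ) : ℝ) * (E : ℝ) + (E : ℝ) * log ((κ : ℝ) / 27) ≤
        log (κ * sin (rq : ℝ)) * (E : ℝ) := by
      rw [hlogκ]
      (clear * - hlog hE0'; nlinarith)
    (clear * - h3 h4 h5; linarith)
  refine h2.trans ?_
  have h6 : exp (-((E : ℝ) * log ((κ : ℝ) / 27))) = (27 / (κ : ℝ)) ^ (E : ℝ) := by
    rw [Real.rpow_def_of_pos (by (clear * - hκ; positivity))]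
    congr 1
    have : log (27 / (κ : ℝ)) = -log ((κ : ℝ) / 27) := by
      rw [← log_inv, inv_div]
    rw [this]; ring
  rw [h6]
  refine mul_le_mul_of_nonneg_right ?_ (by (clear * - hκ; positivity))
  have h7 := eUpF_sound (dn_nonneg (mul_nonneg hll hE0))
  refine le_trans (exp_le_exp.mpr ?_) h7
  have h8 : ((dn (ll2 j * E) : ℚ) : ℝ) ≤ ((ll2 j * E : ℚ) : ℝ) := by exact_mod_cast dn_le _
  push_cast at h8
  (clear * - h8; linarith)

/-- the sum over the harmonics, with a bound `β (27/κ)^s` for the bracket -/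
private theorem tailO_sum {m n : ℕ} {w X U Q C : ℝ} {R : List ℝ} (h : Cfg2 m n w X U Q C R)
    {b : Bx} {c0 c1 : ℚ} (hb : Reg b X U Q C c0 c1) {j : ℕ} (hj : j < 181)
    (hR : ∀ x ∈ R, x ≤ ((gr2 j : ℚ) : ℝ)) {Mlo : ℚ} (h0 : 0 ≤ Mlo) (hM : (Mlo : ℝ) ≤ MM R)
    (hst : 1 ≤ eLoF (ll2 j) * (27 * sinL (max (gr2 j) (35 / 100)))) {β s : ℝ} (hβ : 0 ≤ β)
    (hB : ∀ κ : ℕ, 27 ≤ κ → |BB X U C κ| ≤ β * (27 / (κ : ℝ)) ^ s * dd X U)
    (ha : 0 < ((aO m n j b Mlo : ℚ) : ℝ) + s) (N : ℕ) :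
    ∑ i ∈ range N, |FF m n X U Q C R (2 * (i : ℝ) + 27)| / (2 * (i : ℝ) + 27) ≤
      (β * ((comO m n j b Mlo : ℚ) : ℝ) *
        (1 / 27 + 1 / (2 * (((aO m n j b Mlo : ℚ) : ℝ) + s)))) * (R1 m n X Q R * dd X U) := by
  have hcfO : ∀ {X0 : ℚ}, 0 ≤ cfO X0 := by
    intro X0
    unfold cfO
    split_ifs with hc
    · have : 0 < sinL X0 := by (clear * - hc; linarith)
      (clear * - this; positivity)
    · norm_num
  have hcom : (0 : ℝ) ≤ ((comO m n j b Mlo : ℚ) : ℝ) := by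
    have : 0 ≤ comO m n j b Mlo := by
      unfold comO
      exact mul_nonneg (mul_nonneg (pow_nonneg hcfO _) (pow_nonneg hcfO _)) (eUpF_nonneg _)
    exact_mod_cast this
  have hR1 := h.R1_pos
  have hdd := h.dd_pos
  have key : ∀ i ∈ range N, |FF m n X U Q C R (2 * (i : ℝ) + 27)| / (2 * (i : ℝ) + 27) ≤
      (β * ((comO m n j b Mlo : ℚ) : ℝ) * (R1 m n X Q R * dd X U)) *
        (1 / (2 * (i : ℝ) + 27) * (27 / (2 * (i : ℝ) + 27)) ^ (((aO m n j b Mlo : ℚ) : ℝ) + s)) := by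
    intro i _
    have e1 : (2 * (i : ℝ) + 27) = ((2 * i + 27 : ℕ) : ℝ) := by push_cast; ring
    rw [e1]
    set κ : ℕ := 2 * i + 27 with hκ
    have hκ27 : 27 ≤ κ := by omega
    have hκ0 : (0 : ℝ) < κ := by
      have : 0 < κ := by omega
      exact_mod_cast this
    have hX1 := tailO_copy hb.x0 hb.hx0 h.X_le κ hκ27 (m - 1)
    have hQ1 := tailO_copy hb.q0 hb.hq0 (h.Q_le.trans (by norm_num)) κ hκ27 n
    have hP1 := tailO_rest h.sinc_R (fun x hx => (h.hR x hx).1) hj hR h0 hM hst κ hκ27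
    have hB1 := hB κ hκ27
    have hcomE : ((comO m n j b Mlo : ℚ) : ℝ) = ((cfO b.X0 : ℚ) : ℝ) ^ (m - 1) *
        ((cfO b.Q0 : ℚ) : ℝ) ^ n *
        ((eUpF (dn (ll2 j * (Mlo / (max (gr2 j) (35 / 100)) ^ 2))) : ℚ) : ℝ) := by
      unfold comO
      push_cast
      rfl
    have haE : (27 / (κ : ℝ)) ^ (((aO m n j b Mlo : ℚ) : ℝ) + s) =
        (27 / (κ : ℝ)) ^ ((Mlo / (max (gr2 j) (35 / 100)) ^ 2 : ℚ) : ℝ) *
        (27 / (κ : ℝ)) ^ (((if 1 < 27 * sinL b.X0 then ((m - 1 : ℕ) : ℚ) else 0 : ℚ)) : ℝ) *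
        (27 / (κ : ℝ)) ^ (((if 1 < 27 * sinL b.Q0 then (n : ℚ) else 0 : ℚ)) : ℝ) *
        (27 / (κ : ℝ)) ^ s := by
      rw [← Real.rpow_add (by (clear * -; positivity)), ← Real.rpow_add (by (clear * -; positivity)),
        ← Real.rpow_add (by (clear * -; positivity))]
      congr 1
      unfold aO
      push_cast
      ring
    rw [FF_eq, abs_mul, abs_mul, abs_mul, abs_pow, abs_pow]
    set a1 := |sinc ((κ : ℝ) * X)| ^ (m - 1)
    set a2 := |sinc ((κ : ℝ) * Q)| ^ n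
    set a3 := |PP R (κ : ℝ)|
    set a4 := |BB X U C (κ : ℝ)|
    have hsX := h.sinc_X
    have hsQ := h.sinc_Q
    have hPP := h.PP_pos
    have n1 : 0 ≤ a1 := pow_nonneg (abs_nonneg _) _
    have n2 : 0 ≤ a2 := pow_nonneg (abs_nonneg _) _
    have n3 : 0 ≤ a3 := abs_nonneg _
    have n4 : 0 ≤ a4 := abs_nonneg _
    have hcX : (0 : ℝ) ≤ ((cfO b.X0 : ℚ) : ℝ) := by exact_mod_cast hcfO
    have hcQ : (0 : ℝ) ≤ ((cfO b.Q0 : ℚ) : ℝ) := by exact_mod_cast hcfO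
    have heU : (0 : ℝ) ≤ ((eUpF (dn (ll2 j * (Mlo / (max (gr2 j) (35 / 100)) ^ 2))) : ℚ) : ℝ) := by
      exact_mod_cast eUpF_nonneg _
    have h12 : a1 * a2 * a3 * a4 ≤ _ := mul_le_mul (mul_le_mul (mul_le_mul hX1 hQ1 n2 (by (clear * - hsX hcX; positivity)))
      hP1 n3 (by (clear * - hsX hcX hsQ hcQ; positivity))) hB1 n4 (by (clear * - hsX hcX hsQ hcQ hPP heU; positivity))
    have hfin : a1 * a2 * a3 * a4 / (κ : ℝ) ≤ _ := div_le_div_of_nonneg_right h12 hκ0.le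
    refine hfin.trans (le_of_eq ?_)
    rw [haE, hcomE]
    unfold R1
    ring
  refine (sum_le_sum key).trans ?_
  rw [← mul_sum]
  have h5 := sum_odd_gen_le N (T := 27) (by norm_num) ha
  have h6 : 0 ≤ β * ((comO m n j b Mlo : ℚ) : ℝ) * (R1 m n X Q R * dd X U) := by (clear * - hβ hcom hR1 hdd; positivity)
  refine (mul_le_mul_of_nonneg_left h5 h6).trans (le_of_eq ?_)
  ring

theorem stQ_sound {m n : ℕ} {w X U Q C : ℝ} {R : List ℝ} (h : Cfg2 m n w X U Q C R) {b : Bx}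
    {c0 c1 : ℚ} (hb : Reg b X U Q C c0 c1) {j : ℕ} (hj : j < 181)
    (hR : ∀ x ∈ R, x ≤ ((gr2 j : ℚ) : ℝ)) {Mlo : ℚ} (h0 : 0 ≤ Mlo) (hM : (Mlo : ℝ) ≤ MM R)
    (hst : stOK m n j b Mlo = true) (N : ℕ) :
    ∑ i ∈ range N, |FF m n X U Q C R (2 * (i : ℝ) + 27)| / (2 * (i : ℝ) + 27) ≤
      ((stQ m n j b Mlo : ℚ) : ℝ) * (R1 m n X Q R * dd X U) := by
  unfold stOK at hst
  simp only [Bool.and_eq_true, Bool.or_eq_true, decide_eq_true_eq] at hst
  obtain ⟨hst1, hst2⟩ := hst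
  have hR1 := h.R1_pos
  have hdd := h.dd_pos
  -- first bound
  have b1 : bbOK 27 b = true → 0 < aO m n j b Mlo →
      ∑ i ∈ range N, |FF m n X U Q C R (2 * (i : ℝ) + 27)| / (2 * (i : ℝ) + 27) ≤
      (((upp (bbS 27 b) * comO m n j b Mlo * (1 / 27 + 1 / (2 * aO m n j b Mlo)) : ℚ)) : ℝ) *
        (R1 m n X Q R * dd X U) := by
    intro hok ha
    have hu : ((bbS 27 b : ℚ) : ℝ) ≤ ((upp (bbS 27 b) : ℚ) : ℝ) := by exact_mod_cast le_upp _
    have hbs0 : (0 : ℝ) ≤ ((bbS 27 b : ℚ) : ℝ) := by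
      have := bbS_sound hb (k := 27) (κ := 27) (by norm_num) (by norm_num) hok
      by_contra hneg
      push Not at hneg
      have h1 : ((bbS 27 b : ℚ) : ℝ) * dd X U < 0 := mul_neg_of_neg_of_pos hneg hdd
      (clear * - this h1; linarith [abs_nonneg (BB X U C 27)])
    have h1 := tailO_sum h hb hj hR h0 hM hst1 (β := ((upp (bbS 27 b) : ℚ) : ℝ)) (s := 0)
      (hbs0.trans hu) (fun κ hκ => by
        rw [Real.rpow_zero, mul_one]
        refine (bbS_sound hb (k := 27) (κ := κ) (by norm_num) (by exact_mod_cast hκ) hok).trans ?_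
        exact mul_le_mul_of_nonneg_right hu hdd.le) (by rw [add_zero]; exact_mod_cast ha) N
    refine h1.trans (le_of_eq ?_)
    push_cast
    rw [add_zero]
  have b2 : 4 < aO m n j b Mlo →
      ∑ i ∈ range N, |FF m n X U Q C R (2 * (i : ℝ) + 27)| / (2 * (i : ℝ) + 27) ≤
      (((27 ^ 4 / 90 * comO m n j b Mlo * (1 / 27 + 1 / (2 * (aO m n j b Mlo - 4))) : ℚ)) : ℝ) *
        (R1 m n X Q R * dd X U) := by
    intro ha
    have ha' : (4 : ℝ) < ((aO m n j b Mlo : ℚ) : ℝ) := by exact_mod_cast ha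
    have h1 := tailO_sum h hb hj hR h0 hM hst1 (β := 27 ^ 4 / 90) (s := -4)
      (by norm_num) (fun κ hκ => by
        have hκ0 : (0 : ℝ) < κ := by
          have : 0 < κ := by omega
          exact_mod_cast this
        refine (BB_univ h.hU h.hUX h.hC h.hCC hκ0.le).trans (le_of_eq ?_)
        congr 1
        have e : ((27 : ℝ) / κ) ^ (-4 : ℝ) = ((κ : ℝ) / 27) ^ 4 := by
          rw [Real.rpow_neg (by (clear * - hκ; positivity)), ← Real.inv_rpow (by positivity), inv_div]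
          norm_cast
        rw [e]
        (clear * - hκ; field_simp)) (by (clear * - ha'; linarith)) N
    refine h1.trans (le_of_eq ?_)
    push_cast
    ring
  unfold stQ
  simp only [Bool.and_eq_true, decide_eq_true_eq]
  split_ifs with h1 h2
  · rcases le_total (upp (bbS 27 b) * comO m n j b Mlo * (1 / 27 + 1 / (2 * aO m n j b Mlo)))
      (27 ^ 4 / 90 * comO m n j b Mlo * (1 / 27 + 1 / (2 * (aO m n j b Mlo - 4)))) with h3 | h3
    · rw [min_eq_left h3]; exact b1 h1.1 h1.2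
    · rw [min_eq_right h3]; exact b2 h2
  · exact b1 h1.1 h1.2
  · rcases hst2 with h3 | h3
    · exact absurd h3 h1
    · exact b2 h3

end Pool.Agent.M18.Helper95.SP.Crude
end
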