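import Mathlib
import Pool.Agent.Helper53.AM.G02
import Pool.Agent.Helper53.AM.G03
import Pool.Agent.Helper53.AM.G23

/- Helper95.SP.Crude.Pair2 -/
section
/-!
The exclusion of a pair with the even test at an earlier node: as in `Even`, for all nodes from
`1.015` on.
-/

set_option autoImplicit false

namespace Pool.Agent.M18.Helper95.SP

open MeasureTheory Set Pool.Agent.M18.Slab Real Filter Topology

/-- single crossing, with the positive value at an earlier point -/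
theorem _root_.Pool.Agent.M18.Slab.Sh.crossing2 {R : ℝ → ℝ} (hS : Sh R) {w u v : ℝ} (hw : 0 ≤ w) (hwu : w ≤ u)
    (huv : u < v) (hpos : 0 < R w) (hlt : R v < R u) : ∃ z, z < v ∧ AntitoneOn R (Ici z) := by
  obtain ⟨s₁, z, hs10, hs1z, hneg, hpos', hmono, hanti⟩ := hS.shape
  refine ⟨z, ?_, hanti⟩
  by_contra hcon
  push Not at hcon
  have h1 : s₁ ≤ w := by
    by_contra h
    push Not at h
    linarith [hneg w hw h.le]
  have h1u : s₁ ≤ u := h1.trans hwu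
  have h2 : R u ≤ R v := hmono ⟨h1u, huv.le.trans hcon⟩ ⟨h1u.trans huv.le, hcon⟩ huv.le
  linarith

theorem exp_aux : (380000 : ℝ) ≤ exp 12.87 := by
  have h := exp_thirteen
  have h1 : exp 13 = exp 12.87 * exp 0.13 := by rw [← exp_add]; congr 1; norm_num
  have h2 : exp 0.13 ≤ 1.15 := by
    have h3 := add_one_le_exp (-0.13 : ℝ)
    rw [exp_neg] at h3
    have h4 : (0.87 : ℝ) ≤ (exp 0.13)⁻¹ := by linarith
    have h5 := (le_inv_comm₀ (by norm_num) (exp_pos _)).mp h4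
    refine h5.trans ?_
    norm_num
  have h6 : 0 < exp 12.87 := exp_pos _
  rw [h1] at h
  have h7 : exp 12.87 * exp 0.13 ≤ exp 12.87 * 1.15 := mul_le_mul_of_nonneg_left h2 h6.le
  (clear * - h h7; linarith)

/-- far bound: beyond `3.04` -/
theorem far_three2 {p q c : ℝ} (hp : 0 < p) (hq : 0 ≤ q) (hc0 : 0 < c)
    (hc : 2 * c ^ 2 = p ^ 2 + q ^ 2)
    {r : ℝ → ℝ} (hr : Sh r) (hd : ∀ s, HasDerivAt r (A p (A q H) s - A c (A c H) s) s)
    (h2 : 0 < ∫ s, s ^ 2 * r s)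
    (h4 : ∫ s, s ^ 4 * r s = 6 / 7 * (p ^ 2 + q ^ 2) * ∫ s, s ^ 2 * r s)
    (l : List ℝ) (hl : p ^ 2 + q ^ 2 + (l.map fun x => x ^ 2).sum = 1) {y : ℝ} (hy : 3.04 ≤ y) :
    AL l r y ≤ 2 ^ (l.length + 2) * ((p ^ 2 - q ^ 2) ^ 2 * (1.1 / 10 ^ 5)) := by
  have h := exp_bound (hr.AL l) (by norm_num) (antitone_R hp hq hc0 hr hd h2 h4 l hl)
    (m := 9) (a := 0.11) (y := y) (by norm_num) (by norm_num) (by linarith)
  have h' := h.trans (cosh_transform_le hp hq hc0 hc hr hd l hl (by norm_num))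
  set N : ℝ := 2 ^ (l.length + 2) with hN
  have hN0 : 0 < N := by positivity
  set d : ℝ := (p ^ 2 - q ^ 2) ^ 2 with hdd
  have hd0 : 0 ≤ d := sq_nonneg _
  have e24 : ((9:ℝ) ^ 2 / 6) = 13.5 := by norm_num
  rw [e24] at h'
  have k1 : exp 13.5 * exp 12.87 = exp 26.37 := by
    rw [← exp_add]; congr 1; norm_num
  have k2 : cosh (9 * 1.8258) ≤ exp 13.5 * 20.25 := by
    have a1 : cosh (9 * 1.8258) ≤ exp (13.5 + 3) :=
      (cosh_le_exp' (by norm_num)).trans (exp_le_exp.mpr (by norm_num))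
    rw [exp_add] at a1
    have a2 : exp 3 ≤ 20.25 := by
      have : exp 3 = exp 1 ^ 3 := by rw [← exp_nat_mul]; norm_num
      rw [this]
      calc exp 1 ^ 3 ≤ 2.7182818286 ^ 3 := pow_le_pow_left₀ (exp_pos 1).le exp_one_lt_d9.le 3
        _ ≤ 20.25 := by norm_num
    exact a1.trans (mul_le_mul_of_nonneg_left a2 (exp_pos _).le)
  have k3 : exp 26.37 / 2 ≤ cosh (9 * (y - 0.11)) := by
    refine le_trans ?_ (cosh_ge _)
    have : exp 26.37 ≤ exp (9 * (y - 0.11)) := exp_le_exp.mpr (by (clear * - hy; linarith))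
    (clear * - this; linarith)
  have e0 := exp_pos 13.5
  have k5 : exp 13.5 * 20500 ≤ 0.11 * (cosh (9 * (y - 0.11)) - cosh (9 * 1.8258)) := by
    have a1 : exp 13.5 * 380000 ≤ exp 26.37 := by
      rw [← k1]
      exact mul_le_mul_of_nonneg_left exp_aux e0.le
    (clear * - k2 k3 e0 a1; nlinarith)
  have hfac : 0 < 0.11 * (cosh (9 * (y - 0.11)) - cosh (9 * 1.8258)) :=
    lt_of_lt_of_le (by positivity) k5
  by_contra hcon
  push Not at hcon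
  have k8 : N * (d * (1.1 / 10 ^ 5)) * (exp 13.5 * 20500) <
      AL l r y * (0.11 * (cosh (9 * (y - 0.11)) - cosh (9 * 1.8258))) := by
    calc _ ≤ N * (d * (1.1 / 10 ^ 5)) * (0.11 * (cosh (9 * (y - 0.11)) - cosh (9 * 1.8258))) :=
          mul_le_mul_of_nonneg_left k5 (by (clear * -; positivity))
      _ < _ := mul_lt_mul_of_pos_right hcon hfac
  have : N * (d * (1.1 / 10 ^ 5)) * (exp 13.5 * 20500) < N * (9 ^ 2 * exp 13.5 * (d / 360)) :=
    lt_of_lt_of_le k8 h'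
  have h10 : 0 ≤ N * (d * exp 13.5) := by (clear * -; positivity)
  (clear * - h' k8 h10; nlinarith)

namespace Ker

variable {p q c : ℝ} {l : List ℝ} {r : ℝ → ℝ}

theorem far_odd2 (K : Ker p q c l r) {t : ℝ} (ht : 1.015 ≤ t) :
    ((∑' n : ℕ, AL l r (4 * t * ((n : ℝ) + 1) + (t - 1 / 1000))) -
        ∑' n : ℕ, AL l r (4 * t * ((n : ℝ) + 1) + (t + 1 / 1000))) +
      ((∑' n : ℕ, AL l r (4 * t * ((n : ℝ) + 1) - (t - 1 / 1000))) -
        ∑' n : ℕ, AL l r (4 * t * ((n : ℝ) + 1) - (t + 1 / 1000))) ≤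
      2 ^ (l.length + 2) * ((p ^ 2 - q ^ 2) ^ 2 * (1.001 / 10 ^ 12)) := by
  obtain ⟨L, hL⟩ := K.sh.supp
  have f1 : ∑' n : ℕ, AL l r (4 * t * ((n : ℝ) + 1) + (t - 1 / 1000)) ≤
      2 ^ (l.length + 2) * ((p ^ 2 - q ^ 2) ^ 2 * (1.001 / 10 ^ 12)) :=
    K.tail_sum (by (clear * - ht; linarith)) (by (clear * - ht; linarith))
  have hn' : ∀ n : ℕ, 4 * t ≤ 4 * t * ((n : ℝ) + 1) := by
    intro n
    have hn : (0:ℝ) ≤ n := Nat.cast_nonneg n
    have : 0 ≤ 4 * t * (n : ℝ) := mul_nonneg (by (clear * - ht; linarith)) hn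
    (clear * - this; linarith)
  have f2 : 0 ≤ ∑' n : ℕ, AL l r (4 * t * ((n : ℝ) + 1) + (t + 1 / 1000)) := by
    apply tsum_nonneg
    intro n
    apply K.nonneg
    linarith [hn' n]
  have s1 : Summable fun n : ℕ => AL l r (4 * t * ((n : ℝ) + 1) - (t - 1 / 1000)) :=
    summable_shift hL (by (clear * - ht; linarith) : 0 < 4 * t) (-(t - 1 / 1000))
  have s2 : Summable fun n : ℕ => AL l r (4 * t * ((n : ℝ) + 1) - (t + 1 / 1000)) :=
    summable_shift hL (by (clear * - ht; linarith) : 0 < 4 * t) (-(t + 1 / 1000))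
  have f3 : ∑' n : ℕ, AL l r (4 * t * ((n : ℝ) + 1) - (t - 1 / 1000)) ≤
      ∑' n : ℕ, AL l r (4 * t * ((n : ℝ) + 1) - (t + 1 / 1000)) := by
    refine s1.tsum_le_tsum (fun n => ?_) s2
    apply K.anti
    · show (1.8258:ℝ) ≤ _
      (clear * - ht hn'; linarith [hn' n])
    · show (1.8258:ℝ) ≤ _
      (clear * - ht hn'; linarith [hn' n])
    · (clear * -; linarith)
  linarith

/-- the odd fact -/
theorem odd_fact2 (K : Ker p q c l r) {t : ℝ} (ht : 1.015 ≤ t)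
    (h1 : 0 ≤ PB l p q c (π / (2 * t))) (h3 : 0 ≤ PB l p q c (3 * (π / (2 * t)))) {T7 : ℝ}
    (hT7 : ∀ m : ℕ, ∑ i ∈ Finset.range m, |PB l p q c ((2 * (i : ℝ) + 7) * (π / (2 * t)))| /
      (2 * (i : ℝ) + 7) ≤ T7)
    (H : PB l p q c (π / (2 * t)) + max (PB l p q c (5 * (π / (2 * t)))) 0 / 5 + T7 +
      2 / 10 ^ 9 * (p ^ 2 - q ^ 2) ^ 2 ≤ (1 - 1 / 10 ^ 5) * PB l p q c (3 * (π / (2 * t))) / 3) :
    AL l r (t + 1 / 1000) < AL l r (t - 1 / 1000) := by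
  set h : ℝ := 1 / 1000 with hh
  set θ : ℝ := π / (2 * t) with hθ
  have ht0 : 0 < t := by (clear * - ht; linarith)
  have hθ0 : 0 < θ := by (clear * - ht; positivity)
  have hπ : π < 3.15 := pi_lt_d2
  have hθ1 : θ ≤ 1.56 := by
    rw [hθ, div_le_iff₀ (by (clear * - ht; linarith))]
    (clear * - ht hπ; nlinarith)
  obtain ⟨L, hL⟩ := K.sh.supp
  have id := K.odd_identity (h := h) ht0
  rw [← hθ] at id
  set g : ℕ → ℝ := fun n => PB l p q c (θ * ((n : ℝ) + 1)) / (θ * ((n : ℝ) + 1)) ^ 2 *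
    (sin (((n : ℝ) + 1) * (π / 2)) * sin (θ * ((n : ℝ) + 1) * h)) with hg
  -- summability of g
  have hgb : ∀ n, |g n| ≤ 2 / θ ^ 2 / ((n : ℝ) + 1) ^ 2 := by
    intro n
    have hn : (0:ℝ) < (n : ℝ) + 1 := by (clear * -; positivity)
    simp only [hg]
    rw [abs_mul, abs_div, abs_mul, abs_of_pos (by (clear * - ht; positivity) : 0 < (θ * ((n : ℝ) + 1)) ^ 2)]
    have b1 := abs_PB_le l p q c (θ * ((n : ℝ) + 1))
    have b2 : |sin (((n : ℝ) + 1) * (π / 2))| * |sin (θ * ((n : ℝ) + 1) * h)| ≤ 1 :=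
      mul_le_one₀ (abs_sin_le_one _) (abs_nonneg _) (abs_sin_le_one _)
    calc _ ≤ 2 / (θ * ((n : ℝ) + 1)) ^ 2 * 1 := by (clear * - b1 ht b2; gcongr)
      _ = _ := by field_simp
  have hgs : Summable g := Summable.of_norm_bounded (summable_inv_sq (2 / θ ^ 2)) hgb
  have gval : ∀ n : ℕ, sin (((n : ℝ) + 1) * (π / 2)) = 0 → g n = 0 := by
    intro n hn
    simp only [hg]; rw [hn]; ring
  have s2 : ∀ m : ℕ, sin ((m : ℝ) * π) = 0 := sin_nat_mul_pi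
  have g1 : g 1 = 0 := by
    apply gval; have := s2 1; convert this using 2; push_cast; ring
  have g3 : g 3 = 0 := by
    apply gval; have := s2 2; convert this using 2; push_cast; ring
  have g5 : g 5 = 0 := by
    apply gval; have := s2 3; convert this using 2; push_cast; ring
  have g0 : g 0 ≤ h / θ * PB l p q c θ := by
    have e : g 0 = PB l p q c θ / θ ^ 2 * sin (θ * h) := by
      simp only [hg]; norm_num
    rw [e]
    have := sin_mul_le (a := θ * h) (by (clear * - ht; positivity))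
    calc PB l p q c θ / θ ^ 2 * sin (θ * h) ≤ PB l p q c θ / θ ^ 2 * (θ * h) := by (clear * - this h1 ht; gcongr)
      _ = _ := by (clear * - hh hθ0; field_simp)
  have g2 : g 2 ≤ -(h / θ * ((1 - 1 / 10 ^ 5) * PB l p q c (3 * θ) / 3)) := by
    have e : g 2 = -(PB l p q c (3 * θ) / (3 * θ) ^ 2 * sin (3 * θ * h)) := by
      simp only [hg]
      have a1 : ((2 : ℕ) : ℝ) + 1 = 3 := by norm_num
      have a2 : sin (3 * (π / 2)) = -1 := by
        have : 3 * (π / 2) = π / 2 + π := by ring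
        rw [this, sin_add_pi, sin_pi_div_two]
      rw [a1, a2]
      ring_nf
    rw [e]
    have h30 : 0 < 3 * θ * h := by (clear * - ht; positivity)
    have b1 := (sin_gt_sub_cube h30).le
    have b2 : 3 * θ * h * (1 - 1 / 10 ^ 5) ≤ sin (3 * θ * h) := by
      refine le_trans ?_ b1
      have b3 : (3 * θ * h) ^ 2 ≤ 6 / 10 ^ 5 := by
        have : 3 * θ * h ≤ 0.0047 := by rw [hh]; (clear * - hθ1; nlinarith)
        calc (3 * θ * h) ^ 2 ≤ 0.0047 ^ 2 := pow_le_pow_left₀ h30.le this 2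
          _ ≤ _ := by norm_num
      nlinarith
    have b4 : 0 ≤ PB l p q c (3 * θ) / (3 * θ) ^ 2 := by (clear * - h3 ht; positivity)
    have b5 := mul_le_mul_of_nonneg_left b2 b4
    have b6 : PB l p q c (3 * θ) / (3 * θ) ^ 2 * (3 * θ * h * (1 - 1 / 10 ^ 5)) =
        h / θ * ((1 - 1 / 10 ^ 5) * PB l p q c (3 * θ) / 3) := by (clear * - hh hθ0; field_simp)
    (clear * - b5 b6; linarith)
  have g4 : g 4 ≤ h / θ * (max (PB l p q c (5 * θ)) 0 / 5) := by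
    have e : g 4 = PB l p q c (5 * θ) / (5 * θ) ^ 2 * sin (5 * θ * h) := by
      simp only [hg]
      have a1 : ((4 : ℕ) : ℝ) + 1 = 5 := by norm_num
      have a2 : sin (5 * (π / 2)) = 1 := by
        have : 5 * (π / 2) = π / 2 + 2 * π := by ring
        rw [this, sin_add_two_pi, sin_pi_div_two]
      rw [a1, a2]
      ring_nf
    rw [e]
    have h50 : 0 < 5 * θ * h := by (clear * - ht; positivity)
    have b1 := sin_mul_le h50.le
    have b2 : 0 ≤ sin (5 * θ * h) := by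
      apply sin_nonneg_of_nonneg_of_le_pi h50.le
      have : 5 * θ * h ≤ 1 := by rw [hh]; (clear * - hθ1; nlinarith)
      (clear * - hπ this; linarith [pi_gt_three])
    calc PB l p q c (5 * θ) / (5 * θ) ^ 2 * sin (5 * θ * h)
        ≤ max (PB l p q c (5 * θ)) 0 / (5 * θ) ^ 2 * (5 * θ * h) := by
          gcongr
          exact le_max_left _ _
      _ = _ := by field_simp
  -- the tail
  have hT : Summable fun i : ℕ => |PB l p q c ((2 * (i : ℝ) + 7) * θ)| / (2 * (i : ℝ) + 7) :=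
    summable_of_sum_range_le (fun i => by (clear * -; positivity)) hT7
  have hT' : ∑' i : ℕ, |PB l p q c ((2 * (i : ℝ) + 7) * θ)| / (2 * (i : ℝ) + 7) ≤ T7 :=
    Real.tsum_le_of_sum_range_le (fun i => by (clear * -; positivity)) hT7
  have g6 : ∑' n : ℕ, g (n + 6) ≤ h / θ * T7 := by
    have inj : Function.Injective fun i : ℕ => 2 * i := fun a b hab => by
      have : 2 * a = 2 * b := hab
      (clear * - this; omega)
    have hsupp : Function.support (fun n : ℕ => g (n + 6)) ⊆ Set.range fun i : ℕ => 2 * i := by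
      intro n hn
      rw [Function.mem_support] at hn
      rcases Nat.even_or_odd' n with ⟨m, hm | hm⟩
      · exact ⟨m, hm.symm⟩
      · exfalso
        apply hn
        apply gval
        have := s2 (m + 4)
        convert this using 2
        rw [hm]; push_cast; ring
    rw [← inj.tsum_eq hsupp]
    have b1 : ∀ i : ℕ, g (2 * i + 6) ≤
        h / θ * (|PB l p q c ((2 * (i : ℝ) + 7) * θ)| / (2 * (i : ℝ) + 7)) := by
      intro i
      have hi : (0:ℝ) < 2 * (i : ℝ) + 7 := by (clear * -; positivity)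
      have e : g (2 * i + 6) = PB l p q c ((2 * (i : ℝ) + 7) * θ) / ((2 * (i : ℝ) + 7) * θ) ^ 2 *
          (sin ((2 * (i : ℝ) + 7) * (π / 2)) * sin ((2 * (i : ℝ) + 7) * θ * h)) := by
        simp only [hg]
        have a1 : ((2 * i + 6 : ℕ) : ℝ) + 1 = 2 * (i : ℝ) + 7 := by push_cast; ring
        rw [a1, mul_comm θ]
      rw [e]
      have b2 : |sin ((2 * (i : ℝ) + 7) * θ * h)| ≤ (2 * (i : ℝ) + 7) * θ * h := by
        have := abs_sin_le_abs (x := (2 * (i : ℝ) + 7) * θ * h)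
        rwa [abs_of_pos (by (clear * - ht; positivity) : 0 < (2 * (i : ℝ) + 7) * θ * h)] at this
      refine (le_abs_self _).trans ?_
      rw [abs_mul, abs_div, abs_mul,
        abs_of_pos (by (clear * - ht; positivity) : 0 < ((2 * (i : ℝ) + 7) * θ) ^ 2)]
      calc |PB l p q c ((2 * (i : ℝ) + 7) * θ)| / ((2 * (i : ℝ) + 7) * θ) ^ 2 *
            (|sin ((2 * (i : ℝ) + 7) * (π / 2))| * |sin ((2 * (i : ℝ) + 7) * θ * h)|)
          ≤ |PB l p q c ((2 * (i : ℝ) + 7) * θ)| / ((2 * (i : ℝ) + 7) * θ) ^ 2 *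
            (1 * ((2 * (i : ℝ) + 7) * θ * h)) := by
            gcongr
            exact abs_sin_le_one _
        _ = _ := by (clear * - hh hθ0; field_simp)
    have sg : Summable fun i : ℕ => g (2 * i + 6) := by
      have := (summable_nat_add_iff 6).mpr hgs
      exact this.comp_injective inj
    refine (sg.tsum_le_tsum b1 (hT.mul_left _)).trans ?_
    rw [tsum_mul_left]
    (clear * - hT' ht; gcongr)
  have gsum : ∑' n, g n ≤ h / θ * (PB l p q c θ - (1 - 1 / 10 ^ 5) * PB l p q c (3 * θ) / 3 +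
      max (PB l p q c (5 * θ)) 0 / 5 + T7) := by
    rw [← hgs.sum_add_tsum_nat_add 6]
    simp only [Finset.sum_range_succ, Finset.sum_range_zero]
    rw [g1, g3, g5]
    have e : h / θ * (PB l p q c θ - (1 - 1 / 10 ^ 5) * PB l p q c (3 * θ) / 3 +
      max (PB l p q c (5 * θ)) 0 / 5 + T7) = h / θ * PB l p q c θ +
      -(h / θ * ((1 - 1 / 10 ^ 5) * PB l p q c (3 * θ) / 3)) +
      h / θ * (max (PB l p q c (5 * θ)) 0 / 5) + h / θ * T7 := by ring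
    rw [e]
    (clear * - g0 g2 g4 g6; linarith)
  -- the far terms
  have f0 := K.far_odd2 ht
  rw [← hh] at f0
  set N : ℝ := 2 ^ (l.length + 2) with hN
  have hN0 : 0 < N := by positivity
  set d : ℝ := (p ^ 2 - q ^ 2) ^ 2 with hd
  have hd0 : 0 < d := K.dpos
  have f4 : N / t * (h / θ * (2 / 10 ^ 9 * d)) ≤ -(N / t * ∑' n, g n) := by
    have : ∑' n, g n ≤ -(h / θ * (2 / 10 ^ 9 * d)) := by
      refine gsum.trans ?_
      rw [← mul_neg]
      apply mul_le_mul_of_nonneg_left _ (by positivity)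
      (clear * - H; linarith)
    have h6 : 0 ≤ N / t := by positivity
    (clear * - this h6; nlinarith)
  have f5 : N * (d * (1.001 / 10 ^ 12)) < N / t * (h / θ * (2 / 10 ^ 9 * d)) := by
    have e : N / t * (h / θ * (2 / 10 ^ 9 * d)) = N * d * (2 / 10 ^ 9 * h / (t * θ)) := by
      (clear * - hd0 hθ0 hh ht hN0; field_simp)
    have e2 : t * θ = π / 2 := by rw [hθ]; (clear * - ht; field_simp)
    rw [e, e2]
    have : N * (d * (1.001 / 10 ^ 12)) = N * d * (1.001 / 10 ^ 12) := by ring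
    rw [this]
    apply mul_lt_mul_of_pos_left _ (by (clear * - hd0; positivity))
    rw [lt_div_iff₀ (by positivity), hh]
    (clear * - hπ; nlinarith)
  (clear * - id f0 f4 f5; linarith)

theorem far_even2 (K : Ker p q c l r) {t : ℝ} (ht : 1.015 ≤ t) :
    (∑' n : ℕ, AL l r (2 * t * ((n : ℝ) + 1) + (t - 1 / 1000))) +
      (∑' n : ℕ, AL l r (2 * t * ((n : ℝ) + 1) - (t - 1 / 1000))) ≤
    AL l r (t + 1 / 1000) + 2 ^ (l.length + 2) * ((p ^ 2 - q ^ 2) ^ 2 * (2.3 / 10 ^ 5)) := by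
  obtain ⟨L, hL⟩ := K.sh.supp
  have h2t : 0 < 2 * t := by (clear * - ht; linarith)
  have s1 : Summable fun n : ℕ => AL l r (2 * t * ((n : ℝ) + 1) + (t - 1 / 1000)) :=
    summable_shift hL h2t _
  have s2 : Summable fun n : ℕ => AL l r (2 * t * ((n : ℝ) + 1) - (t - 1 / 1000)) :=
    summable_shift hL h2t (-(t - 1 / 1000))
  have d0 : 0 ≤ (p ^ 2 - q ^ 2) ^ 2 := K.dpos.le
  have t1 := K.tail_sum (P := 2 * t) (x := 3 * t - 1 / 1000) (by (clear * - ht; linarith)) (by linarith)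
  have t2 := K.tail_sum (P := 2 * t) (x := 3 * t + 1 / 1000) (by (clear * - ht; linarith)) (by (clear * - ht; linarith))
  have e1 : ∑' n : ℕ, AL l r (2 * t * ((n : ℝ) + 1) + (t - 1 / 1000)) =
      AL l r (3 * t - 1 / 1000) + ∑' n : ℕ, AL l r (2 * t * ((n : ℝ) + 1) + (3 * t - 1 / 1000)) := by
    rw [s1.tsum_eq_zero_add]
    congr 1
    · congr 1; push_cast; ring
    · congr 1; ext n; congr 1; push_cast; ring
  have e2 : ∑' n : ℕ, AL l r (2 * t * ((n : ℝ) + 1) - (t - 1 / 1000)) =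
      AL l r (t + 1 / 1000) + (AL l r (3 * t + 1 / 1000) +
        ∑' n : ℕ, AL l r (2 * t * ((n : ℝ) + 1) + (3 * t + 1 / 1000))) := by
    have s3 : Summable fun n : ℕ => AL l r (2 * t * (((n + 1 : ℕ) : ℝ) + 1) - (t - 1 / 1000)) :=
      (summable_nat_add_iff 1).mpr s2
    rw [s2.tsum_eq_zero_add, s3.tsum_eq_zero_add]
    congr 1
    · congr 1; push_cast; ring
    · congr 1
      · congr 1; push_cast; ring
      · congr 1; ext n; congr 1; push_cast; ring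
  have b1 := far_three2 K.hp K.hq K.hc0 K.hc K.hr K.hd K.h2 K.h4 l K.hl
    (y := 3 * t - 1 / 1000) (by (clear * - ht; linarith))
  have b2 := far_three2 K.hp K.hq K.hc0 K.hc K.hr K.hd K.h2 K.h4 l K.hl
    (y := 3 * t + 1 / 1000) (by (clear * - ht; linarith))
  rw [e1, e2]
  set N : ℝ := 2 ^ (l.length + 2) with hN
  have hN0 : 0 < N := by positivity
  have hNd : 0 ≤ N * (p ^ 2 - q ^ 2) ^ 2 := by (clear * -; positivity)
  have e3 : N * ((p ^ 2 - q ^ 2) ^ 2 * (2.3 / 10 ^ 5)) = N * (p ^ 2 - q ^ 2) ^ 2 * (2.3 / 10 ^ 5) := by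
    ring
  have e4 : N * ((p ^ 2 - q ^ 2) ^ 2 * (1.001 / 10 ^ 12)) =
    N * (p ^ 2 - q ^ 2) ^ 2 * (1.001 / 10 ^ 12) := by ring
  have e5 : N * ((p ^ 2 - q ^ 2) ^ 2 * (1.1 / 10 ^ 5)) = N * (p ^ 2 - q ^ 2) ^ 2 * (1.1 / 10 ^ 5) := by ring
  rw [e3]
  rw [e4] at t1 t2
  rw [e5] at b1 b2
  (clear * - t1 t2 b1 b2 hNd; nlinarith)

/-- the even fact -/
theorem even_fact2 (K : Ker p q c l r) {t : ℝ} (ht : 1.015 ≤ t)
    (h2' : 0 ≤ PB l p q c (2 * (π / (2 * t)))) {T4 : ℝ}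
    (hT4 : ∀ m : ℕ, ∑ i ∈ Finset.range m, |PB l p q c ((2 * (i : ℝ) + 4) * (π / (2 * t)))| /
      (2 * (i : ℝ) + 4) ^ 2 ≤ T4)
    (H : T4 + 1 / 10 ^ 4 * (p ^ 2 - q ^ 2) ^ 2 ≤
      (1 - 1 / 10 ^ 5) * PB l p q c (2 * (π / (2 * t))) / 4) :
    0 < AL l r (t - 1 / 1000) + AL l r (t + 1 / 1000) := by
  have ht0 : 0 < t := by (clear * - ht; linarith)
  have hθ0 : 0 < π / t := by (clear * - ht; positivity)
  have hπ : π < 3.15 := pi_lt_d2
  have hθ1 : π / t ≤ 3.11 := by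
    rw [div_le_iff₀ ht0]
    (clear * - ht hπ; nlinarith)
  have hω : 2 * (π / (2 * t)) = π / t := by field_simp
  have id := K.even_identity (h := 1 / 1000) ht0
  have fe := K.far_even2 ht
  rw [hω] at h2' H
  set φ : ℝ := π / t with hφ
  set g : ℕ → ℝ := fun n => PB l p q c (φ * ((n : ℝ) + 1)) / (φ * ((n : ℝ) + 1)) ^ 2 *
    ((-1) ^ n * cos (φ * ((n : ℝ) + 1) * (1 / 1000))) with hg
  have habs : ∀ n : ℕ, |(-1 : ℝ) ^ n * cos (φ * ((n : ℝ) + 1) * (1 / 1000))| ≤ 1 := by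
    intro n
    rw [abs_mul, abs_pow, abs_neg, abs_one, one_pow, one_mul]
    exact abs_cos_le_one _
  have hgb : ∀ n, |g n| ≤ 2 / φ ^ 2 / ((n : ℝ) + 1) ^ 2 := by
    intro n
    have hn : (0:ℝ) < (n : ℝ) + 1 := by (clear * -; positivity)
    simp only [hg]
    rw [abs_mul, abs_div, abs_of_pos (by (clear * - ht; positivity) : 0 < (φ * ((n : ℝ) + 1)) ^ 2)]
    have b1 := abs_PB_le l p q c (φ * ((n : ℝ) + 1))
    calc _ ≤ 2 / (φ * ((n : ℝ) + 1)) ^ 2 * 1 := by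
          gcongr
          exact habs n
      _ = _ := by (clear * - hθ0; field_simp)
  have hgs : Summable g := Summable.of_norm_bounded (summable_inv_sq (2 / φ ^ 2)) hgb
  have g0 : PB l p q c φ / φ ^ 2 * (1 - 1 / 10 ^ 5) ≤ g 0 := by
    have e : g 0 = PB l p q c φ / φ ^ 2 * cos (φ * (1 / 1000)) := by
      simp only [hg]; norm_num
    rw [e]
    have := one_sub_sq_div_two_le_cos (x := φ * (1 / 1000))
    have b1 : (φ * (1 / 1000)) ^ 2 ≤ 2 / 10 ^ 5 := by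
      have : φ * (1 / 1000) ≤ 0.00311 := by (clear * - hθ1; linarith)
      calc (φ * (1 / 1000)) ^ 2 ≤ 0.00311 ^ 2 := pow_le_pow_left₀ (by (clear * - ht; positivity)) this 2
        _ ≤ _ := by norm_num
    have b2 : (1:ℝ) - 1 / 10 ^ 5 ≤ cos (φ * (1 / 1000)) := by (clear * - this b1; linarith)
    (clear * - b2 h2' ht; gcongr)
  have hkω : ∀ i : ℕ, (2 * (i : ℝ) + 4) * (π / (2 * t)) = φ * (((i + 1 : ℕ) : ℝ) + 1) := by
    intro i; rw [hφ]; push_cast; field_simp; ring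
  simp_rw [hkω] at hT4
  have hT : Summable fun i : ℕ => |PB l p q c (φ * (((i + 1 : ℕ) : ℝ) + 1))| / (2 * (i : ℝ) + 4) ^ 2 :=
    summable_of_sum_range_le (fun i => by (clear * -; positivity)) hT4
  have hT' : ∑' i : ℕ, |PB l p q c (φ * (((i + 1 : ℕ) : ℝ) + 1))| / (2 * (i : ℝ) + 4) ^ 2 ≤ T4 :=
    Real.tsum_le_of_sum_range_le (fun i => by (clear * -; positivity)) hT4
  have g1 : -(4 / φ ^ 2 * T4) ≤ ∑' n : ℕ, g (n + 1) := by
    have b1 : ∀ i : ℕ, -g (i + 1) ≤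
        4 / φ ^ 2 * (|PB l p q c (φ * (((i + 1 : ℕ) : ℝ) + 1))| / (2 * (i : ℝ) + 4) ^ 2) := by
      intro i
      refine (neg_le_abs _).trans ?_
      simp only [hg]
      rw [abs_mul, abs_div,
        abs_of_pos (by (clear * - ht; positivity) : 0 < (φ * (((i + 1 : ℕ) : ℝ) + 1)) ^ 2)]
      calc _ ≤ |PB l p q c (φ * (((i + 1 : ℕ) : ℝ) + 1))| / (φ * (((i + 1 : ℕ) : ℝ) + 1)) ^ 2 * 1 := by
            gcongr
            exact habs (i + 1)
        _ = _ := by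
            push_cast
            have : 2 * (i : ℝ) + 4 = 2 * ((i : ℝ) + 1 + 1) := by ring
            rw [this]
            field_simp
            norm_num
    have sg : Summable fun i : ℕ => -g (i + 1) := ((summable_nat_add_iff 1).mpr hgs).neg
    have b2 := sg.tsum_le_tsum b1 (hT.mul_left _)
    rw [tsum_mul_left, tsum_neg] at b2
    have b3 : 4 / φ ^ 2 * ∑' i : ℕ, |PB l p q c (φ * (((i + 1 : ℕ) : ℝ) + 1))| /
        (2 * (i : ℝ) + 4) ^ 2 ≤ 4 / φ ^ 2 * T4 := by (clear * - hT' ht; gcongr)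
    (clear * - b2 b3; linarith)
  have gsum : 4 / φ ^ 2 * (1 / 10 ^ 4 * (p ^ 2 - q ^ 2) ^ 2) ≤ ∑' n, g n := by
    rw [hgs.tsum_eq_zero_add]
    have e : PB l p q c φ / φ ^ 2 * (1 - 1 / 10 ^ 5) =
      4 / φ ^ 2 * ((1 - 1 / 10 ^ 5) * PB l p q c φ / 4) := by (clear * - hθ0; field_simp)
    rw [e] at g0
    have : 4 / φ ^ 2 * (1 / 10 ^ 4 * (p ^ 2 - q ^ 2) ^ 2) ≤
      4 / φ ^ 2 * ((1 - 1 / 10 ^ 5) * PB l p q c φ / 4 - T4) := by
      apply mul_le_mul_of_nonneg_left _ (by (clear * - ht; positivity))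
      (clear * - H; linarith)
    (clear * - g0 g1 this; linarith)
  set N : ℝ := 2 ^ (l.length + 2) with hN
  have hN0 : 0 < N := by positivity
  have hd0 : 0 < (p ^ 2 - q ^ 2) ^ 2 := K.dpos
  have f1 : N / t * (4 / φ ^ 2 * (1 / 10 ^ 4 * (p ^ 2 - q ^ 2) ^ 2)) ≤ N / t * ∑' n, g n := by
    (clear * - gsum ht; gcongr)
  have f2 : N * ((p ^ 2 - q ^ 2) ^ 2 * (2.3 / 10 ^ 5)) <
      N / t * (4 / φ ^ 2 * (1 / 10 ^ 4 * (p ^ 2 - q ^ 2) ^ 2)) := by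
    have e : N / t * (4 / φ ^ 2 * (1 / 10 ^ 4 * (p ^ 2 - q ^ 2) ^ 2)) =
      N * (p ^ 2 - q ^ 2) ^ 2 * (4 / 10 ^ 4 / (t * φ * φ)) := by (clear * - hθ0 ht hN0; field_simp)
    have e2 : t * φ = π := by rw [hφ]; field_simp
    rw [e, e2]
    have e3 : N * ((p ^ 2 - q ^ 2) ^ 2 * (2.3 / 10 ^ 5)) =
      N * (p ^ 2 - q ^ 2) ^ 2 * (2.3 / 10 ^ 5) := by ring
    rw [e3]
    apply mul_lt_mul_of_pos_left _ (by (clear * - hd0; positivity))
    rw [lt_div_iff₀ (by (clear * - ht; positivity))]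
    have : π * φ ≤ 3.15 * 3.11 := mul_le_mul hπ.le hθ1 hθ0.le (by norm_num)
    (clear * - this; nlinarith)
  (clear * - fe id f1 f2; linarith)

end Ker

/-- as `pair_exclusion`, with the even test at a node `te` which is `t` or smaller -/
theorem pair_exclusion2 {p q c : ℝ} (hq : 0 ≤ q) (hqp : q < p) (hc0 : 0 ≤ c)
    (hc : 2 * c ^ 2 = p ^ 2 + q ^ 2) (l : List ℝ)
    (hl : p ^ 2 + q ^ 2 + (l.map fun x => x ^ 2).sum = 1) {t te : ℝ} (ht : 1.015 ≤ te)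
    (hte : te = t ∨ te + 1 / 500 ≤ t)
    (h1 : 0 ≤ Ker.PB l p q c (π / (2 * t))) (h3 : 0 ≤ Ker.PB l p q c (3 * (π / (2 * t)))) {T7 : ℝ}
    (hT7 : ∀ m : ℕ, ∑ i ∈ Finset.range m, |Ker.PB l p q c ((2 * (i : ℝ) + 7) * (π / (2 * t)))| /
      (2 * (i : ℝ) + 7) ≤ T7)
    (hodd : Ker.PB l p q c (π / (2 * t)) + max (Ker.PB l p q c (5 * (π / (2 * t)))) 0 / 5 + T7 +
      2 / 10 ^ 9 * (p ^ 2 - q ^ 2) ^ 2 ≤ (1 - 1 / 10 ^ 5) * Ker.PB l p q c (3 * (π / (2 * t))) / 3)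
    (h2' : 0 ≤ Ker.PB l p q c (2 * (π / (2 * te)))) {T4 : ℝ}
    (hT4 : ∀ m : ℕ, ∑ i ∈ Finset.range m, |Ker.PB l p q c ((2 * (i : ℝ) + 4) * (π / (2 * te)))| /
      (2 * (i : ℝ) + 4) ^ 2 ≤ T4)
    (heven : T4 + 1 / 10 ^ 4 * (p ^ 2 - q ^ 2) ^ 2 ≤
      (1 - 1 / 10 ^ 5) * Ker.PB l p q c (2 * (π / (2 * te))) / 4) {s : ℝ}
    (hs : t + 1 / 1000 ≤ s) :
    AL (l ++ [p, q]) H s ≤ AL (l ++ [c, c]) H s := by
  have hp : 0 < p := hq.trans_lt hqp
  have htt : te ≤ t := by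
    rcases hte with h | h
    · exact h.le
    · (clear * - h; linarith)
  have hcpos : 0 < c := by
    rcases hc0.eq_or_lt with h | h
    · rw [← h] at hc
      (clear * - hc hp; nlinarith [sq_nonneg q, pow_pos hp 2])
    · exact h
  have hlt : p * q < c * c := by (clear * - hc hqp; nlinarith [sq_pos_of_pos (sub_pos.mpr hqp)])
  obtain ⟨r, hr, hd, hm2, hm4⟩ := exists_base hq hqp.le hc0 le_rfl (by (clear * - hc; linarith)) hlt
  have K : Ker p q c l r := ⟨hq, hqp, hcpos, hc, hl, hr, hd, hm2, hm4⟩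
  have hodd' := K.odd_fact2 (ht.trans htt) h1 h3 hT7 hodd
  have heven' := K.even_fact2 ht h2' hT4 heven
  obtain ⟨w, hw0, hwt, hwpos⟩ : ∃ w, 0 ≤ w ∧ w ≤ t - 1 / 1000 ∧ 0 < AL l r w := by
    rcases hte with h | h
    · subst h
      exact ⟨te - 1 / 1000, by (clear * - ht; linarith), le_rfl, by (clear * - heven' hodd'; linarith)⟩
    · by_cases hpos : 0 < AL l r (te - 1 / 1000)
      · exact ⟨te - 1 / 1000, by (clear * - ht; linarith), by (clear * - h; linarith), hpos⟩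
      · push Not at hpos
        exact ⟨te + 1 / 1000, by (clear * - ht; linarith), by (clear * - h; linarith), by (clear * - heven' hpos; linarith)⟩
  obtain ⟨z, hz, hanti⟩ := K.sh.crossing2 hw0 hwt (by (clear * -; linarith)) hwpos hodd'
  have c1 : Continuous (A p (A q H)) := AAH_continuous hp hq
  have c2 : Continuous (A c (A c H)) := AAH_continuous hcpos hcpos.le
  have hD : HasDerivAt (AL l r) (AL l (A p (A q H)) s - AL l (A c (A c H)) s) s := by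
    have := hasDerivAt_AL hd (c1.sub c2) l
    have e := AL_sub c1 c2 l
    have h3 := this s
    rw [e] at h3
    exact h3
  have hzs : z < s := by (clear * - hs hz; linarith)
  have hle := hanti.derivWithin_nonpos (x := s)
  have hu : UniqueDiffWithinAt ℝ (Ici z) s := (uniqueDiffOn_Ici z) s hzs.le
  rw [(hD.hasDerivWithinAt).derivWithin hu] at hle
  rw [AL_append, AL_append]
  have e1 : AL [p, q] H = A p (A q H) := rfl
  have e2 : AL [c, c] H = A c (A c H) := rfl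
  rw [e1, e2]
  (clear * - hle; linarith)

end Pool.Agent.M18.Helper95.SP
end

/- Helper23.X2.Combine -/
section
/-!
Combination of the numerical bounds for the comparison of two diagonal slabs.
-/

set_option autoImplicit false

open MeasureTheory Set Real
open Pool.Agent.M18.Helper88.Slab (prob ind cube)

namespace Pool.Agent.M18.Helper23.X2

/-- Upper bound for `exp (-a)`. -/
lemma exp_up (n : ℕ) {a f b : ℝ} (hf : 0 ≤ f) (ha : (n : ℝ) + f ≤ a)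
    (hb : 1 ≤ b * ((2.7182818283 : ℝ) ^ n *
      (1 + f + f ^ 2 / 2 + f ^ 3 / 6 + f ^ 4 / 24 + f ^ 5 / 120 + f ^ 6 / 720 + f ^ 7 / 5040))) :
    exp (-a) ≤ b := by
  have h1 : (2.7182818283 : ℝ) ^ n ≤ exp n := by
    have := Real.exp_one_gt_d9
    calc (2.7182818283 : ℝ) ^ n ≤ (exp 1) ^ n := by
          apply pow_le_pow_left₀ (by norm_num)
          exact this.le
      _ = exp n := by rw [← Real.exp_nat_mul]; simp
  have h2 : 1 + f + f ^ 2 / 2 + f ^ 3 / 6 + f ^ 4 / 24 + f ^ 5 / 120 + f ^ 6 / 720 + f ^ 7 / 5040 ≤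
      exp f := by
    have := Real.sum_le_exp_of_nonneg hf 8
    simp [Finset.sum_range_succ, Nat.factorial] at this
    (clear * - this; linarith)
  have h3 : (2.7182818283 : ℝ) ^ n * (1 + f + f ^ 2 / 2 + f ^ 3 / 6 + f ^ 4 / 24 + f ^ 5 / 120 +
      f ^ 6 / 720 + f ^ 7 / 5040) ≤ exp a := by
    calc (2.7182818283 : ℝ) ^ n * (1 + f + f ^ 2 / 2 + f ^ 3 / 6 + f ^ 4 / 24 + f ^ 5 / 120 +
        f ^ 6 / 720 + f ^ 7 / 5040) ≤ exp n * exp f := by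
          apply mul_le_mul h1 h2 (by (clear * - hf; positivity)) (by positivity)
      _ = exp (n + f) := by rw [Real.exp_add]
      _ ≤ exp a := Real.exp_le_exp.mpr ha
  have hpos : 0 < (2.7182818283 : ℝ) ^ n * (1 + f + f ^ 2 / 2 + f ^ 3 / 6 + f ^ 4 / 24 +
      f ^ 5 / 120 + f ^ 6 / 720 + f ^ 7 / 5040) := by (clear * - hf; positivity)
  have hb0 : 0 ≤ b := by
    by_contra h
    push Not at h
    (clear * - hb hpos h; nlinarith)
  rw [Real.exp_neg]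
  rw [inv_le_iff_one_le_mul₀ (exp_pos a)]
  calc (1 : ℝ) ≤ b * ((2.7182818283 : ℝ) ^ n * (1 + f + f ^ 2 / 2 + f ^ 3 / 6 + f ^ 4 / 24 +
      f ^ 5 / 120 + f ^ 6 / 720 + f ^ 7 / 5040)) := hb
    _ ≤ b * exp a := by apply mul_le_mul_of_nonneg_left h3 hb0

/-- Lower bound for `exp (-a)`. -/
lemma exp_lo (n : ℕ) {a f b : ℝ} (hf : 0 ≤ f) (hb0 : 0 ≤ b) (ha : a ≤ (n : ℝ) + f)
    (hb : b * (2.7182818286 : ℝ) ^ n ≤
      1 - f + f ^ 2 / 2 - f ^ 3 / 6 + f ^ 4 / 24 - f ^ 5 / 120 + f ^ 6 / 720 - f ^ 7 / 5040) :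
    b ≤ exp (-a) := by
  have h1 : exp n ≤ (2.7182818286 : ℝ) ^ n := by
    have := Real.exp_one_lt_d9
    calc exp n = (exp 1) ^ n := by rw [← Real.exp_nat_mul]; simp
      _ ≤ (2.7182818286 : ℝ) ^ n := by
          apply pow_le_pow_left₀ (exp_pos _).le
          exact this.le
  have h2 := Pool.Agent.M18.Helper88.Slab.exp_neg_ge7 f hf
  have h3 : b * exp n ≤ exp (-f) := by
    calc b * exp n ≤ b * (2.7182818286 : ℝ) ^ n := mul_le_mul_of_nonneg_left h1 hb0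
      _ ≤ _ := hb
      _ ≤ exp (-f) := by (clear * - h2; linarith)
  have h4 : b ≤ exp (-f) * exp (-(n : ℝ)) := by
    rw [Real.exp_neg (n : ℝ), ← div_eq_mul_inv, le_div_iff₀ (exp_pos _)]
    exact h3
  calc b ≤ exp (-f) * exp (-(n : ℝ)) := h4
    _ = exp (-((n : ℝ) + f)) := by rw [← Real.exp_add]; congr 1; ring
    _ ≤ exp (-a) := exp_le_exp.mpr (by (clear * - ha; linarith))

lemma final_step {U L X0 X1 Y0 Y1 τ τ' ε κ : ℝ} (hκ : 0 ≤ κ)
    (hU : U ≤ 1 / 2 - (2 / π) * (X0 - X1 / 3 - τ) + 2 * ε)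
    (hL : 1 / 2 - (2 / π) * (Y0 - Y1 / 3 + τ') ≤ L)
    (h : 0 ≤ π * (κ - 1) / 4 - π * ε - κ * τ' - τ + X0 - κ * Y0 + κ * Y1 / 3 - X1 / 3) :
    U ≤ κ * L := by
  have h1 := mul_le_mul_of_nonneg_left hL hκ
  refine hU.trans (le_trans ?_ h1)
  have hp := Real.pi_pos
  have e : κ * (1 / 2 - (2 / π) * (Y0 - Y1 / 3 + τ')) -
      (1 / 2 - (2 / π) * (X0 - X1 / 3 - τ) + 2 * ε) =
      (2 / π) * (π * (κ - 1) / 4 - π * ε - κ * τ' - τ + X0 - κ * Y0 + κ * Y1 / 3 - X1 / 3) := by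
    field_simp
    ring
  have h2 : 0 ≤ (2 / π) * (π * (κ - 1) / 4 - π * ε - κ * τ' - τ + X0 - κ * Y0 + κ * Y1 / 3 - X1 / 3) :=
    mul_nonneg (by positivity) h
  (clear * - e h2; linarith)

lemma cube_le {u : ℝ} (hu1 : u ≤ 1 / 6) : u ^ 3 ≤ u ^ 2 / 6 := by
  nlinarith [sq_nonneg u]

lemma sq_le_one36 {u : ℝ} (hu0 : 0 ≤ u) (hu1 : u ≤ 1 / 6) : u ^ 2 ≤ 1 / 36 := by
  (clear * - hu1 hu0; nlinarith)

lemma exp_two {z : ℝ} (h5 : 0 ≤ z) (h6 : z ≤ 1) : exp (-z) ≤ 1 - z + z ^ 2 / 2 := by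
  have := Pool.Agent.M18.Helper88.Slab.exp_neg_le z h5
  have : z ^ 4 ≤ z ^ 3 := by
    have : 0 ≤ z ^ 3 := by (clear * - h5; positivity)
    (clear * - h6 this; nlinarith)
  nlinarith [pow_nonneg h5 3]

lemma pos_three {z : ℝ} (h6 : z ≤ 1) : 0 ≤ 1 - z + z ^ 2 / 2 - z ^ 3 / 6 := by
  have : z ^ 3 ≤ z ^ 2 := by
    have : 0 ≤ z ^ 2 := by positivity
    nlinarith
  (clear * - h6 this; nlinarith [sq_nonneg z])

lemma combine {u κ w v e0 f0 e1 f1 ta tb g α1 α2 γ1 γ2 β1 β2 δ1 δ2 τ τ' ε : ℝ} (hu0 : 0 ≤ u)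
    (hu1 : u ≤ 1 / 6) (hκ : 1 ≤ κ) (hw : 0 ≤ w) (hv : 0 ≤ v)
    (H0 : e0 ≤ exp (-(w / 6))) (H1 : exp (-(v / 6)) ≤ f0)
    (H2 : exp (-((9 * w) / 6)) ≤ e1) (H3 : f1 ≤ exp (-((9 * v) / 6)))
    (A1 : w ^ 2 / 180 ≤ α1) (A2 : w ^ 3 / 2835 + w ^ 4 / 156000 ≤ α2)
    (G1 : γ1 ≤ v ^ 2 / 180) (G2 : γ2 ≤ v ^ 3 / 2835)
    (B1 : β1 ≤ 9 / 20 * w ^ 2) (B2 : β2 ≤ 9 / 35 * w ^ 3)
    (D1 : 9 / 20 * v ^ 2 ≤ δ1) (D2 : 9 / 35 * v ^ 3 + 6561 / 156000 * v ^ 4 ≤ δ2)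
    (hγ1 : 0 ≤ γ1) (hγ2 : 0 ≤ γ2) (hβ1 : 0 ≤ β1)
    (hβ2 : 0 ≤ β2) (hδ : δ1 / 6 + δ2 / 36 ≤ 1) (hα : α1 / 6 + α2 / 36 ≤ 1)
    (hγ : γ1 / 6 + γ2 / 36 ≤ 1)
    (ht : τ ≤ ta) (ht' : τ' ≤ tb) (hg : ε ≤ g) (hg0 : 0 ≤ g)
    (P : 0 ≤ 3.141592 * (κ - 1) / 4 - 3.141593 * g - κ * tb - ta +
      e0 * (1 - (α1 * u + α2 * u ^ 2)) -
      κ * (f0 * (1 - (γ1 * u + γ2 * u ^ 2) + (γ1 * u + γ2 * u ^ 2) ^ 2 / 2)) +
      κ * (f1 * (1 - (δ1 * u + δ2 * u ^ 2) + (δ1 * u + δ2 * u ^ 2) ^ 2 / 2 -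
        (δ1 * u + δ2 * u ^ 2) ^ 3 / 6)) / 3 -
      e1 * (1 - (β1 * u + β2 * u ^ 2) + (β1 * u + β2 * u ^ 2) ^ 2 / 2 -
        (β1 * u + β2 * u ^ 2) ^ 3 / 6 + (β1 * u + β2 * u ^ 2) ^ 4 / 24) / 3) :
    0 ≤ π * (κ - 1) / 4 - π * ε - κ * τ' - τ +
      exp (-(w / 6 + w ^ 2 * u / 180 + w ^ 3 * u ^ 2 / 2835 + w ^ 4 * u ^ 3 / 26000)) -
      κ * exp (-(v / 6 + v ^ 2 * u / 180 + v ^ 3 * u ^ 2 / 2835)) +
      κ * exp (-((9 * v) / 6 + (9 * v) ^ 2 * u / 180 + (9 * v) ^ 3 * u ^ 2 / 2835 +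
        (9 * v) ^ 4 * u ^ 3 / 26000)) / 3 -
      exp (-((9 * w) / 6 + (9 * w) ^ 2 * u / 180 + (9 * w) ^ 3 * u ^ 2 / 2835)) / 3 := by
  have hκ0 : 0 ≤ κ := by (clear * - hκ; linarith)
  have hp1 := Real.pi_gt_d6
  have hp2 := Real.pi_lt_d6
  have hu2 : 0 ≤ u ^ 2 := sq_nonneg u
  have hu3 : u ^ 3 ≤ u ^ 2 / 6 := cube_le hu1
  have hu4 : u ^ 2 ≤ 1 / 36 := sq_le_one36 hu0 hu1
  have hw4 : 0 ≤ w ^ 4 := by (clear * -; positivity)
  have hv4 : 0 ≤ v ^ 4 := by (clear * -; positivity)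
  -- X0
  have x0 : e0 * (1 - (α1 * u + α2 * u ^ 2)) ≤
      exp (-(w / 6 + w ^ 2 * u / 180 + w ^ 3 * u ^ 2 / 2835 + w ^ 4 * u ^ 3 / 26000)) := by
    have h1 : w ^ 2 * u / 180 + w ^ 3 * u ^ 2 / 2835 + w ^ 4 * u ^ 3 / 26000 ≤ α1 * u + α2 * u ^ 2 := by
      have a1 := mul_le_mul_of_nonneg_right A1 hu0
      have a2 := mul_le_mul_of_nonneg_right A2 hu2
      have a3 := mul_le_mul_of_nonneg_left hu3 hw4
      (clear * - a1 a2 a3; linarith)
    have h2 : exp (-(w / 6 + w ^ 2 * u / 180 + w ^ 3 * u ^ 2 / 2835 + w ^ 4 * u ^ 3 / 26000)) =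
        exp (-(w / 6)) * exp (-(w ^ 2 * u / 180 + w ^ 3 * u ^ 2 / 2835 + w ^ 4 * u ^ 3 / 26000)) := by
      rw [← Real.exp_add]; congr 1; ring
    rw [h2]
    have h3 : 1 - (α1 * u + α2 * u ^ 2) ≤
        exp (-(w ^ 2 * u / 180 + w ^ 3 * u ^ 2 / 2835 + w ^ 4 * u ^ 3 / 26000)) := by
      have := Real.add_one_le_exp (-(w ^ 2 * u / 180 + w ^ 3 * u ^ 2 / 2835 + w ^ 4 * u ^ 3 / 26000))
      (clear * - h1 this; linarith)
    have h4 : 0 ≤ 1 - (α1 * u + α2 * u ^ 2) := by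
      have b1 : 0 ≤ α1 := le_trans (by (clear * -; positivity)) A1
      have b2 : 0 ≤ α2 := le_trans (by (clear * - hw; positivity)) A2
      have c1 := mul_le_mul_of_nonneg_left hu1 b1
      have c2 := mul_le_mul_of_nonneg_left hu4 b2
      (clear * - hα c1 c2; linarith)
    exact mul_le_mul H0 h3 h4 (exp_pos _).le
  -- Y0
  have y0 : exp (-(v / 6 + v ^ 2 * u / 180 + v ^ 3 * u ^ 2 / 2835)) ≤
      f0 * (1 - (γ1 * u + γ2 * u ^ 2) + (γ1 * u + γ2 * u ^ 2) ^ 2 / 2) := by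
    have h1 : γ1 * u + γ2 * u ^ 2 ≤ v ^ 2 * u / 180 + v ^ 3 * u ^ 2 / 2835 := by
      have a1 := mul_le_mul_of_nonneg_right G1 hu0
      have a2 := mul_le_mul_of_nonneg_right G2 hu2
      (clear * - a1 a2; linarith)
    have h2 : exp (-(v / 6 + v ^ 2 * u / 180 + v ^ 3 * u ^ 2 / 2835)) =
        exp (-(v / 6)) * exp (-(v ^ 2 * u / 180 + v ^ 3 * u ^ 2 / 2835)) := by
      rw [← Real.exp_add]; congr 1; ring
    rw [h2]
    have h5 : 0 ≤ γ1 * u + γ2 * u ^ 2 := by (clear * - hγ1 hu0 hγ2; positivity)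
    have h6 : γ1 * u + γ2 * u ^ 2 ≤ 1 := by
      have c1 := mul_le_mul_of_nonneg_left hu1 hγ1
      have c2 := mul_le_mul_of_nonneg_left hu4 hγ2
      (clear * - hγ c1 c2; linarith)
    have h3 : exp (-(v ^ 2 * u / 180 + v ^ 3 * u ^ 2 / 2835)) ≤
        1 - (γ1 * u + γ2 * u ^ 2) + (γ1 * u + γ2 * u ^ 2) ^ 2 / 2 := by
      exact (exp_le_exp.mpr (neg_le_neg h1)).trans (exp_two h5 h6)
    exact mul_le_mul H1 h3 (exp_pos _).le (le_trans (exp_pos _).le H1)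
  -- Y1
  have y1 : f1 * (1 - (δ1 * u + δ2 * u ^ 2) + (δ1 * u + δ2 * u ^ 2) ^ 2 / 2 -
        (δ1 * u + δ2 * u ^ 2) ^ 3 / 6) ≤
      exp (-((9 * v) / 6 + (9 * v) ^ 2 * u / 180 + (9 * v) ^ 3 * u ^ 2 / 2835 +
        (9 * v) ^ 4 * u ^ 3 / 26000)) := by
    have h1 : (9 * v) ^ 2 * u / 180 + (9 * v) ^ 3 * u ^ 2 / 2835 + (9 * v) ^ 4 * u ^ 3 / 26000 ≤
        δ1 * u + δ2 * u ^ 2 := by
      have a1 := mul_le_mul_of_nonneg_right D1 hu0
      have a2 := mul_le_mul_of_nonneg_right D2 hu2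
      have a3 := mul_le_mul_of_nonneg_left hu3 hv4
      (clear * - a1 a2 a3; linarith)
    have h2 : exp (-((9 * v) / 6 + (9 * v) ^ 2 * u / 180 + (9 * v) ^ 3 * u ^ 2 / 2835 +
        (9 * v) ^ 4 * u ^ 3 / 26000)) = exp (-((9 * v) / 6)) *
        exp (-((9 * v) ^ 2 * u / 180 + (9 * v) ^ 3 * u ^ 2 / 2835 + (9 * v) ^ 4 * u ^ 3 / 26000)) := by
      rw [← Real.exp_add]; congr 1; ring
    rw [h2]
    have b1 : 0 ≤ δ1 := le_trans (by (clear * -; positivity)) D1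
    have b2 : 0 ≤ δ2 := le_trans (by (clear * - hv; positivity)) D2
    have h5 : 0 ≤ δ1 * u + δ2 * u ^ 2 := by (clear * - b1 hu0 b2; positivity)
    have h6 : δ1 * u + δ2 * u ^ 2 ≤ 1 := by
      have c1 := mul_le_mul_of_nonneg_left hu1 b1
      have c2 := mul_le_mul_of_nonneg_left hu4 b2
      (clear * - hδ c1 c2; linarith)
    have h3 : 1 - (δ1 * u + δ2 * u ^ 2) + (δ1 * u + δ2 * u ^ 2) ^ 2 / 2 -
        (δ1 * u + δ2 * u ^ 2) ^ 3 / 6 ≤
        exp (-((9 * v) ^ 2 * u / 180 + (9 * v) ^ 3 * u ^ 2 / 2835 + (9 * v) ^ 4 * u ^ 3 / 26000)) :=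
      (Pool.Agent.M18.Helper88.Slab.exp_neg_ge3 _ h5).trans (exp_le_exp.mpr (neg_le_neg h1))
    have h4 : 0 ≤ 1 - (δ1 * u + δ2 * u ^ 2) + (δ1 * u + δ2 * u ^ 2) ^ 2 / 2 -
        (δ1 * u + δ2 * u ^ 2) ^ 3 / 6 := pos_three h6
    exact mul_le_mul H3 h3 h4 (exp_pos _).le
  -- X1
  have x1 : exp (-((9 * w) / 6 + (9 * w) ^ 2 * u / 180 + (9 * w) ^ 3 * u ^ 2 / 2835)) ≤
      e1 * (1 - (β1 * u + β2 * u ^ 2) + (β1 * u + β2 * u ^ 2) ^ 2 / 2 -
        (β1 * u + β2 * u ^ 2) ^ 3 / 6 + (β1 * u + β2 * u ^ 2) ^ 4 / 24) := by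
    have h1 : β1 * u + β2 * u ^ 2 ≤ (9 * w) ^ 2 * u / 180 + (9 * w) ^ 3 * u ^ 2 / 2835 := by
      have a1 := mul_le_mul_of_nonneg_right B1 hu0
      have a2 := mul_le_mul_of_nonneg_right B2 hu2
      (clear * - a1 a2; linarith)
    have h2 : exp (-((9 * w) / 6 + (9 * w) ^ 2 * u / 180 + (9 * w) ^ 3 * u ^ 2 / 2835)) =
        exp (-((9 * w) / 6)) * exp (-((9 * w) ^ 2 * u / 180 + (9 * w) ^ 3 * u ^ 2 / 2835)) := by
      rw [← Real.exp_add]; congr 1; ring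
    rw [h2]
    have h5 : 0 ≤ β1 * u + β2 * u ^ 2 := by (clear * - hβ1 hu0 hβ2; positivity)
    have h3 := (exp_le_exp.mpr (neg_le_neg h1)).trans (Pool.Agent.M18.Helper88.Slab.exp_neg_le _ h5)
    exact mul_le_mul H2 h3 (exp_pos _).le (le_trans (exp_pos _).le H2)
  generalize e0 * (1 - (α1 * u + α2 * u ^ 2)) = p0 at x0 P
  generalize f0 * (1 - (γ1 * u + γ2 * u ^ 2) + (γ1 * u + γ2 * u ^ 2) ^ 2 / 2) = p1 at y0 P
  generalize f1 * (1 - (δ1 * u + δ2 * u ^ 2) + (δ1 * u + δ2 * u ^ 2) ^ 2 / 2 -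
        (δ1 * u + δ2 * u ^ 2) ^ 3 / 6) = p2 at y1 P
  generalize e1 * (1 - (β1 * u + β2 * u ^ 2) + (β1 * u + β2 * u ^ 2) ^ 2 / 2 -
        (β1 * u + β2 * u ^ 2) ^ 3 / 6 + (β1 * u + β2 * u ^ 2) ^ 4 / 24) = p3 at x1 P
  generalize exp (-(w / 6 + w ^ 2 * u / 180 + w ^ 3 * u ^ 2 / 2835 + w ^ 4 * u ^ 3 / 26000)) = q0 at x0 ⊢
  generalize exp (-(v / 6 + v ^ 2 * u / 180 + v ^ 3 * u ^ 2 / 2835)) = q1 at y0 ⊢
  generalize exp (-((9 * v) / 6 + (9 * v) ^ 2 * u / 180 + (9 * v) ^ 3 * u ^ 2 / 2835 +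
        (9 * v) ^ 4 * u ^ 3 / 26000)) = q2 at y1 ⊢
  generalize exp (-((9 * w) / 6 + (9 * w) ^ 2 * u / 180 + (9 * w) ^ 3 * u ^ 2 / 2835)) = q3 at x1 ⊢
  clear A1 A2 G1 G2 B1 B2 D1 D2 H0 H1 H2 H3 hu3 hu4 hu2 hw4 hv4 hγ hα hδ
  have y0' := mul_le_mul_of_nonneg_left y0 hκ0
  have y1' := mul_le_mul_of_nonneg_left y1 hκ0
  have t1 := mul_le_mul_of_nonneg_left ht' hκ0
  have t2 : π * ε ≤ 3.141593 * g := by
    calc π * ε ≤ π * g := mul_le_mul_of_nonneg_left hg Real.pi_pos.le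
      _ ≤ 3.141593 * g := mul_le_mul_of_nonneg_right hp2.le hg0
  have t3 : 3.141592 * (κ - 1) ≤ π * (κ - 1) :=
    mul_le_mul_of_nonneg_right hp1.le (by (clear * - hκ; linarith))
  (clear * - ht P x0 x1 y0' y1' t1 t2 t3; linarith)

end Pool.Agent.M18.Helper23.X2
end
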