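import Mathlib
import Pool.Agent.Helper53.AM.G07
import Pool.Agent.Helper53.AM.G11
import Pool.Agent.Helper53.AM.G16
import Pool.Agent.Helper53.AM.G17
import Pool.Agent.Helper53.AM.G22
import Pool.Agent.Helper53.AM.G26

/- Helper40.SP.PHat -/
section
/-!
Project SP (MP_66ebcc_gt), SP-05b: the bound of `P` by `Phat`.
-/

set_option autoImplicit false

open MeasureTheory Set Real Pool.Agent.M18.Slab
open Pool.Agent.M18.Helper88.Slab (prob ind cube T0 prob_ge_t ind_integrable_cube)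

namespace Pool.Agent.M18.Helper89.SP

/-- the bridge (SP-01) -/
def PHatBridge : Prop := ∀ {n : ℕ} (a : Fin n → ℝ) {t : ℝ}, 0 ≤ t → T (List.ofFn a) t = 1 - prob a t

theorem prob_mono_right {n : ℕ} (a : Fin n → ℝ) {t t' : ℝ} (h : t ≤ t') : prob a t ≤ prob a t' := by
  unfold prob
  apply integral_mono (ind_integrable_cube t a) (ind_integrable_cube t' a)
  intro x
  simp only [ind]
  split_ifs with h1 h2
  · exact le_rfl
  · exact absurd (h1.trans h) h2
  · norm_num
  · exact le_rfl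

theorem prob_scale {n : ℕ} (a : Fin n → ℝ) {t c : ℝ} (hc : 0 < c) :
    prob (fun j => a j / c) (t / c) = prob a t := by
  unfold prob
  congr 1
  funext x
  have h1 : ∑ j, a j / c * x j = (∑ j, a j * x j) / c := by
    rw [Finset.sum_div]
    exact Finset.sum_congr rfl fun j _ => by ring
  rw [h1]
  simp only [ind]
  have h2 : |(∑ j, a j * x j) / c| ≤ t / c ↔ |∑ j, a j * x j| ≤ t := by
    rw [abs_div, abs_of_pos hc, div_le_div_iff_of_pos_right hc]
  simp only [h2]

theorem prob_hat {n : ℕ} (hn : 3 ≤ n) (b : Fin n → ℝ) (hb : ∑ j, b j ^ 2 = 1) {u : ℝ} (hu : 0 ≤ u) :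
    1 - prob b u ≤ Phat u := by
  obtain ⟨t₁, h1, h2, h0⟩ := Pool.Agent.M18.Helper89.FA.exists_t1
  obtain ⟨s1, s2⟩ := Pool.Agent.M18.Helper89.FA.sqrt2_b
  unfold Phat
  split_ifs with c1 c2
  · rcases hu.eq_or_lt with h | h
    · rw [← h]
      have := Pool.Agent.M18.Helper89.FA.prob_nonneg b 0
      (clear * - this; linarith)
    · have := prob_ge_t b hb h c1
      (clear * - this; linarith)
  · rw [not_le] at c1
    exact Pool.Agent.M18.Helper89.FA.two_min hn b hb h1 h2 h0 c1.le (c2.trans h1.le)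
  · rw [not_le] at c2
    have h3 := Pool.Agent.M18.Helper89.FA.two_min hn b hb h1 h2 h0 (t := 1.0129) (by (clear * - s1 s2; linarith)) h1.le
    have h4 := prob_mono_right b c2.le
    have h5 : (√2 - 1.0129) ^ 2 / 2 ≤ 0.0806 := by (clear * - h1 s2 h2 s1; nlinarith)
    (clear * - h3 h4 h5; linarith)

theorem P_le_hat_of (hT : PHatBridge) (l : List ℝ) (hlen : 3 ≤ l.length) (hl : 0 < sq l) {s : ℝ}
    (hs : 0 ≤ s) : P l s ≤ Phat (s / √(sq l)) / 2 := by
  have hσ : 0 < √(sq l) := Real.sqrt_pos.2 hl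
  have h1 : P l s = T l s / 2 := by
    unfold P T
    ring
  have h2 := hT l.get hs
  rw [List.ofFn_get] at h2
  have hsum : ∑ j, (l.get j / √(sq l)) ^ 2 = 1 := by
    simp only [div_pow]
    rw [← Finset.sum_div, Real.sq_sqrt hl.le]
    have : ∑ j, l.get j ^ 2 = sq l := by
      unfold sq
      conv_rhs => rw [← List.ofFn_get l]
      rw [List.map_ofFn, List.sum_ofFn]
      rfl
    rw [this, div_self hl.ne']
  have h3 := prob_hat hlen (fun j => l.get j / √(sq l)) hsum (div_nonneg hs hσ.le)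
  rw [prob_scale l.get hσ] at h3
  rw [h1, h2]
  (clear * - h3; linarith)

end Pool.Agent.M18.Helper89.SP
end

/- Helper40.SP.PHat2 -/
section
/-!
Project SP (MP_66ebcc_gt), SP-05b: the bound of `P` by `Phat` (final form).
-/

set_option autoImplicit false

open MeasureTheory Set Real Pool.Agent.M18.Slab

namespace Pool.Agent.M18.Helper89.SP

theorem P_le_hat (l : List ℝ) (hlen : 3 ≤ l.length) (hl : 0 < sq l) {s : ℝ} (hs : 0 ≤ s) :
    P l s ≤ Phat (s / √(sq l)) / 2 :=
  P_le_hat_of (fun a _ ht => T_ofFn a ht) l hlen hl hs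

end Pool.Agent.M18.Helper89.SP
end

/- Helper82.SP.Crit -/
section
/-!
SP-03: the critical identity at a maximiser.
-/

set_option autoImplicit false

open MeasureTheory Set Real Pool.Agent.M18.Slab

namespace Pool.Agent.M18.Helper89.SP

namespace Cr

theorem antitone_H : Antitone H := by
  intro a b hab
  unfold H
  by_cases hb : b < 0
  · rw [if_pos hb, if_pos (lt_of_le_of_lt hab hb)]
  · rw [if_neg hb]
    split <;> norm_num

theorem int_H (a b : ℝ) : IntervalIntegrable H volume a b :=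
  (antitone_H.antitoneOn _).intervalIntegrable

theorem continuous_AH {y : ℝ} (hy : 0 < y) : Continuous (A y H) := by
  have e : A y H = fun s => y⁻¹ * ((∫ v in (0 : ℝ)..(s + y), H v) - ∫ v in (0 : ℝ)..(s - y), H v) := by
    funext s
    rw [Deriv.A_eq hy.ne', intervalIntegral.integral_interval_sub_left (int_H _ _) (int_H _ _)]
  rw [e]
  have c : Continuous fun s : ℝ => ∫ v in (0 : ℝ)..s, H v :=
    intervalIntegral.continuous_primitive (fun a b => int_H a b) 0
  exact continuous_const.mul ((c.comp (by fun_prop)).sub (c.comp (by fun_prop)))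

theorem continuous_AL {l : List ℝ} (hl : ∃ y ∈ l, 0 < y) : Continuous (AL l H) := by
  obtain ⟨y, hy, hy0⟩ := hl
  have h1 : l.Perm (l.erase y ++ [y]) :=
    (List.perm_cons_erase hy).trans (List.perm_append_singleton y (l.erase y)).symm
  rw [AL_perm h1, AL_append, AL_cons, AL_nil]
  have : ∀ (l' : List ℝ) (φ : ℝ → ℝ), Continuous φ → Continuous (AL l' φ) := by
    intro l'
    induction l' with
    | nil => intro φ h; exact h
    | cons z l' ih => intro φ h; rw [AL_cons]; exact continuous_A (ih φ h) z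
  exact this _ _ (continuous_AH hy0)

theorem H_scale {c : ℝ} (hc : 0 < c) (s : ℝ) : H (s * c) = H s := by
  unfold H
  by_cases hs : s < 0
  · rw [if_pos hs, if_pos (mul_neg_of_neg_of_pos hs hc)]
  · rw [if_neg hs, if_neg (not_lt.2 (mul_nonneg (not_lt.1 hs) hc.le))]

theorem AL_scale {c : ℝ} (hc : 0 < c) (l : List ℝ) (t : ℝ) :
    AL (l.map (fun x => x / c)) H t = AL l H (t * c) := by
  induction l generalizing t with
  | nil => exact (H_scale hc t).symm
  | cons x l ih =>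
    rw [List.map_cons, AL_cons, AL_cons]
    unfold A
    apply intervalIntegral.integral_congr
    intro u _
    change AL (List.map (fun x => x / c) l) H (t - x / c * u) = AL l H (t * c - x * u)
    rw [ih]
    congr 1
    (clear * - hc; field_simp)

theorem sq_cons (x : ℝ) (l : List ℝ) : sq (x :: l) = x ^ 2 + sq l := by
  unfold sq; simp

theorem sq_perm {l l' : List ℝ} (h : l.Perm l') : sq l = sq l' := by
  unfold sq
  exact (h.map _).sum_eq

theorem sq_div (l : List ℝ) (c : ℝ) : sq (l.map (fun x => x / c)) = sq l / c ^ 2 := by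
  induction l with
  | nil => simp [sq]
  | cons x l ih => rw [List.map_cons, sq_cons, sq_cons, ih, div_pow, add_div]

theorem sq_nonneg (l : List ℝ) : 0 ≤ sq l := by
  induction l with
  | nil => simp [sq]
  | cons x l ih => rw [sq_cons]; positivity

theorem sq_pos {l : List ℝ} (hl : ∃ y ∈ l, 0 < y) : 0 < sq l := by
  obtain ⟨y, hy, hy0⟩ := hl
  rw [sq_perm (List.perm_cons_erase hy), sq_cons]
  have := sq_nonneg (l.erase y)
  positivity

end Cr

theorem crit {n : ℕ} {t : ℝ} {L : List ℝ} (h : MaxL n t L) (ht : 0 < t) {x : ℝ} {l : List ℝ}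
    (hp : L.Perm (x :: l)) (hx : 0 < x) (hl : ∃ y ∈ l, 0 < y) : Crit t x l := by
  set G : ℝ → ℝ := AL l H with hG
  have hGc : Continuous G := Cr.continuous_AL hl
  have hsq : x ^ 2 + sq l = 1 := by
    rw [← Cr.sq_cons, ← Cr.sq_perm hp]; exact h.unit
  have hsqpos := Cr.sq_pos hl
  have hlen : l.length + 1 = n := by
    have := hp.length_eq
    rw [h.len] at this
    simpa using this.symm
  -- norm
  set N : ℝ → ℝ := fun e => √(1 + 2 * x * e + e ^ 2) with hN
  have hN2 : ∀ e, 0 < 1 + 2 * x * e + e ^ 2 := by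
    intro e
    (clear * - hsq hsqpos; nlinarith [_root_.sq_nonneg (x + e)])
  have hNpos : ∀ e, 0 < N e := fun e => Real.sqrt_pos.2 (hN2 e)
  have hN0 : N 0 = 1 := by simp [hN]
  -- the function
  set f : ℝ → ℝ := fun e => (x + e)⁻¹ *
    ∫ v in (t * N e - (x + e))..(t * N e + (x + e)), G v with hf
  have hTe : ∀ e, x + e ≠ 0 → T (((x + e) :: l).map (fun y => y / N e)) t
      = 2 * f e / 2 ^ n := by
    intro e he
    unfold T
    rw [Cr.AL_scale (hNpos e), AL_cons, Deriv.A_eq he, List.length_map, List.length_cons, hlen]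
  have hT0 : T L t = 2 * f 0 / 2 ^ n := by
    have h1 : T L t = T (x :: l) t := by
      unfold T
      rw [AL_perm hp, hp.length_eq]
    rw [h1]
    have h2 := hTe 0 (by simpa using hx.ne')
    rw [hN0] at h2
    simpa using h2
  -- local maximum
  have hmax : IsLocalMax f 0 := by
    have hmem : Ioo (-x) x ∈ nhds (0 : ℝ) := Ioo_mem_nhds (by (clear * - hx; linarith)) hx
    filter_upwards [hmem] with e he
    have he0 : 0 < x + e := by (clear * - he; linarith [he.1])
    have h1 := h.best (((x + e) :: l).map (fun y => y / N e)) (by simp [hlen]) (by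
      intro z hz
      obtain ⟨y, hy, rfl⟩ := List.mem_map.1 hz
      apply div_nonneg _ (hNpos e).le
      rcases List.mem_cons.1 hy with hy | hy
      · rw [hy]; exact he0.le
      · exact h.nonneg y (hp.mem_iff.2 (List.mem_cons_of_mem _ hy))) (by
      rw [Cr.sq_div, Cr.sq_cons]
      have : N e ^ 2 = 1 + 2 * x * e + e ^ 2 := Real.sq_sqrt (hN2 e).le
      rw [this, div_eq_one_iff_eq (hN2 e).ne']
      (clear * - hsq; linarith))
    rw [hTe e he0.ne', hT0] at h1
    have h2 : (0 : ℝ) < 2 ^ n := by positivity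
    have h3 := (div_le_div_iff_of_pos_right h2).1 h1
    (clear * - h3; linarith)
  -- derivative
  have hNd : HasDerivAt N x 0 := by
    have h1 : HasDerivAt (fun e : ℝ => 1 + 2 * x * e + e ^ 2) (2 * x) 0 := by
      have h2 : HasDerivAt (fun e : ℝ => 2 * x * e) (2 * x) 0 := by
        simpa using (hasDerivAt_id (0 : ℝ)).const_mul (2 * x)
      have h3 : HasDerivAt (fun e : ℝ => e ^ 2) 0 0 := by
        simpa using hasDerivAt_pow 2 (0 : ℝ)
      have h4 := (h2.const_add 1).add h3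
      have h5 : HasDerivAt (fun e : ℝ => 1 + 2 * x * e + e ^ 2) (2 * x + 0) 0 := h4
      rwa [add_zero] at h5
    have h2 := h1.sqrt (hN2 0).ne'
    simpa using h2
  have hint : ∀ a b, IntervalIntegrable G volume a b := fun a b => hGc.intervalIntegrable a b
  have hprim : ∀ s, HasDerivAt (fun s => ∫ v in (0 : ℝ)..s, G v) (G s) s := fun s =>
    intervalIntegral.integral_hasDerivAt_right (hint _ _)
      (hGc.stronglyMeasurableAtFilter _ _) hGc.continuousAt
  have hfd : HasDerivAt f (-(x ^ 2)⁻¹ * (∫ v in (t - x)..(t + x), G v) +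
      x⁻¹ * (G (t + x) * (t * x + 1) - G (t - x) * (t * x - 1))) 0 := by
    have e1 : f = fun e => (x + e)⁻¹ * ((∫ v in (0 : ℝ)..(t * N e + (x + e)), G v) -
        ∫ v in (0 : ℝ)..(t * N e - (x + e)), G v) := by
      funext e
      rw [hf]
      simp only
      rw [intervalIntegral.integral_interval_sub_left (hint _ _) (hint _ _)]
    have e2 : HasDerivAt (fun e : ℝ => x + e) 1 0 := by
      simpa using (hasDerivAt_id (0 : ℝ)).const_add x
    have e3 : HasDerivAt (fun e : ℝ => (x + e)⁻¹) (-(x ^ 2)⁻¹) 0 := by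
      have h1 := e2.inv (by simpa using hx.ne')
      have h2 : HasDerivAt (fun e : ℝ => (x + e)⁻¹) (-1 / (x + 0) ^ 2) 0 := h1
      rwa [add_zero, neg_div, one_div] at h2
    have e4 : HasDerivAt (fun e : ℝ => t * N e + (x + e)) (t * x + 1) 0 :=
      (hNd.const_mul t).add e2
    have e5 : HasDerivAt (fun e : ℝ => t * N e - (x + e)) (t * x - 1) 0 :=
      (hNd.const_mul t).sub e2
    have a4 : t * N 0 + (x + 0) = t + x := by rw [hN0]; ring
    have a5 : t * N 0 - (x + 0) = t - x := by rw [hN0]; ring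
    have e6 : HasDerivAt (fun e : ℝ => ∫ v in (0 : ℝ)..(t * N e + (x + e)), G v)
        (G (t + x) * (t * x + 1)) 0 := by
      have h1 : HasDerivAt (fun s => ∫ v in (0 : ℝ)..s, G v) (G (t + x)) (t * N 0 + (x + 0)) := by
        rw [a4]; exact hprim _
      exact h1.comp (0 : ℝ) e4
    have e7 : HasDerivAt (fun e : ℝ => ∫ v in (0 : ℝ)..(t * N e - (x + e)), G v)
        (G (t - x) * (t * x - 1)) 0 := by
      have h1 : HasDerivAt (fun s => ∫ v in (0 : ℝ)..s, G v) (G (t - x)) (t * N 0 - (x + 0)) := by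
        rw [a5]; exact hprim _
      exact h1.comp (0 : ℝ) e5
    rw [e1]
    have e8 := e3.mul (e6.sub e7)
    refine e8.congr_deriv ?_
    simp only [hN0, mul_one, add_zero, Pi.sub_apply]
    rw [intervalIntegral.integral_interval_sub_left (hint _ _) (hint _ _)]
  have hzero := hmax.hasDerivAt_eq_zero hfd
  have hI : (∫ v in (t - x)..(t + x), G v) =
      x * (G (t + x) * (t * x + 1) - G (t - x) * (t * x - 1)) := by
    have hx2 : x ≠ 0 := hx.ne'
    field_simp at hzero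
    (clear * - hzero; linarith)
  unfold Crit T P
  rw [AL_cons, ← hG, Deriv.A_eq hx.ne', hI, List.length_cons, pow_succ]
  have h2 : (2 : ℝ) ^ l.length ≠ 0 := by positivity
  field_simp
  ring

end Pool.Agent.M18.Helper89.SP
end

/- Helper84.SP.Tails -/
section
/-!
Project SP (MP_66ebcc_gt), module SP-05a: the elementary bounds of `P`.
-/

set_option autoImplicit false

open MeasureTheory Set Real Pool.Agent.M18.Slab

namespace Pool.Agent.M18.Helper89.SP

theorem p5_int {φ : ℝ → ℝ} (ha : Antitone φ) {B : ℝ} (hb : ∀ s, 0 ≤ φ s ∧ φ s ≤ B) (x s : ℝ) :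
    IntervalIntegrable (fun u => φ (s - x * u)) volume (-1) 1 := by
  rw [intervalIntegrable_iff]
  refine Measure.integrableOn_of_bounded (M := B) ?_ ?_ ?_
  · exact ((measure_mono uIoc_subset_uIcc).trans_lt isCompact_uIcc.measure_lt_top).ne
  · exact (ha.measurable.comp (by fun_prop)).aestronglyMeasurable
  · refine Filter.Eventually.of_forall fun u => ?_
    rw [Real.norm_eq_abs, abs_of_nonneg (hb _).1]
    exact (hb _).2

theorem p5_props (l : List ℝ) :
    Antitone (AL l H) ∧ ∀ s, 0 ≤ AL l H s ∧ AL l H s ≤ 2 ^ l.length := by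
  induction l with
  | nil =>
    rw [AL_nil]
    refine ⟨fun a b hab => ?_, fun s => ?_⟩
    · unfold H
      split_ifs with h1 h2 h2
      · exact le_refl _
      · exact absurd (lt_of_le_of_lt hab h1) h2
      · exact zero_le_one
      · exact le_refl _
    · unfold H
      split_ifs <;> simp
  | cons x l ih =>
    obtain ⟨ia, ib⟩ := ih
    rw [AL_cons]
    refine ⟨fun a b hab => ?_, fun s => ⟨?_, ?_⟩⟩
    · unfold A
      refine intervalIntegral.integral_mono_on (by norm_num) (p5_int ia ib x b)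
        (p5_int ia ib x a) fun u _ => ia ?_
      (clear * - hab; linarith)
    · unfold A
      exact intervalIntegral.integral_nonneg (by norm_num) fun u _ => (ib _).1
    · unfold A
      have h := intervalIntegral.integral_mono_on (a := (-1 : ℝ)) (b := 1) (by norm_num)
        (p5_int ia ib x s) (intervalIntegrable_const (c := (2 : ℝ) ^ l.length))
        fun u _ => (ib (s - x * u)).2
      refine h.trans (le_of_eq ?_)
      rw [intervalIntegral.integral_const, List.length_cons, pow_succ, smul_eq_mul]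
      ring

theorem P_nonneg (l : List ℝ) (s : ℝ) : 0 ≤ P l s := by
  unfold P
  exact div_nonneg ((p5_props l).2 s).1 (by (clear * -; positivity))

theorem P_anti (l : List ℝ) {s s' : ℝ} (h : s ≤ s') : P l s' ≤ P l s := by
  unfold P
  exact div_le_div_of_nonneg_right ((p5_props l).1 h) (by positivity)

theorem p5_sinh (y : ℝ) : ∫ u in (-1 : ℝ)..1, exp (y * u) ≤ 2 * exp (y ^ 2 / 6) := by
  have key : ∀ c : ℝ, 0 < c → ∫ u in (-1 : ℝ)..1, exp (c * u) ≤ 2 * exp (c ^ 2 / 6) := by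
    intro c hc
    have h1 := Pool.Agent.M18.Helper89.FA.f1b_sinh_le hc.le
    have h2 : ∫ u in (-1 : ℝ)..1, exp (c * u) = 2 * sinh c / c := by
      have hd : ∀ u ∈ uIcc (-1 : ℝ) 1, HasDerivAt (fun u => exp (c * u) / c) (exp (c * u)) u := by
        intro u _
        have h3 : HasDerivAt (fun u : ℝ => c * u) c u := by
          simpa using (hasDerivAt_id u).const_mul c
        have h4 := h3.exp.div_const c
        refine h4.congr_deriv ?_
        (clear * - hc; field_simp)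
      rw [intervalIntegral.integral_eq_sub_of_hasDerivAt hd
        (Continuous.intervalIntegrable (by fun_prop) _ _), Real.sinh_eq]
      simp only [mul_one, mul_neg]
      (clear * - hc; field_simp)
    rw [h2, div_le_iff₀ hc]
    (clear * - h1; linarith)
  rcases lt_trichotomy y 0 with h | h | h
  · have h1 := key (-y) (by linarith)
    have h2 := intervalIntegral.integral_comp_neg (a := -1) (b := 1) (f := fun u => exp (y * u))
    rw [neg_neg] at h2
    rw [← h2]
    have e : ∀ u : ℝ, y * -u = -y * u := fun u => by ring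
    simp only [e]
    simpa using h1
  · subst h
    simp
    norm_num
  · exact key y h

theorem p5_exp (l : List ℝ) {m : ℝ} (hm : 0 ≤ m) (s : ℝ) :
    AL l H s ≤ 2 ^ l.length * exp (-(m * s) + m ^ 2 * sq l / 6) := by
  induction l generalizing s with
  | nil =>
    rw [AL_nil]
    unfold H sq
    split_ifs with h
    · simp
      nlinarith
    · positivity
  | cons x l ih =>
    obtain ⟨ia, ib⟩ := p5_props l
    rw [AL_cons]
    unfold A
    have h := intervalIntegral.integral_mono_on (a := (-1 : ℝ)) (b := 1) (by norm_num)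
        (p5_int ia ib x s)
        (Continuous.intervalIntegrable (u := fun u : ℝ =>
          2 ^ l.length * exp (-(m * (s - x * u)) + m ^ 2 * sq l / 6)) (by fun_prop) _ _)
        fun u _ => ih (s - x * u)
    refine h.trans ?_
    have e : ∀ u : ℝ, (2 : ℝ) ^ l.length * exp (-(m * (s - x * u)) + m ^ 2 * sq l / 6) =
        2 ^ l.length * exp (-(m * s) + m ^ 2 * sq l / 6) * exp ((m * x) * u) := by
      intro u
      rw [mul_assoc, ← exp_add]
      congr 2
      ring
    simp only [e]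
    rw [intervalIntegral.integral_const_mul]
    have h2 := p5_sinh (m * x)
    have h3 : (0 : ℝ) < 2 ^ l.length * exp (-(m * s) + m ^ 2 * sq l / 6) := by positivity
    refine (mul_le_mul_of_nonneg_left h2 h3.le).trans (le_of_eq ?_)
    have e2 : sq (x :: l) = x ^ 2 + sq l := by
      unfold sq
      simp
    rw [e2, List.length_cons, pow_succ (2 : ℝ)]
    have e3 : -(m * s) + m ^ 2 * (x ^ 2 + sq l) / 6 =
        (-(m * s) + m ^ 2 * sq l / 6) + (m * x) ^ 2 / 6 := by ring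
    rw [e3, exp_add (-(m * s) + m ^ 2 * sq l / 6)]
    ring

theorem P_le_exp (l : List ℝ) (hl : 0 < sq l) {s : ℝ} (hs : 0 ≤ s) :
    P l s ≤ exp (-(3 / 2) * (s ^ 2 / sq l)) := by
  have h := p5_exp l (m := 3 * s / sq l) (by (clear * - hs hl; positivity)) s
  unfold P
  rw [div_le_iff₀ (by positivity), mul_comm]
  refine h.trans (le_of_eq ?_)
  congr 2
  field_simp
  ring

/-- at a maximiser `t x < 1` for every coordinate -/
theorem tx_lt {t x : ℝ} {l : List ℝ} (ht : 1.02 ≤ t) (hx : 0 < x) (hsq : sq (x :: l) = 1)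
    (hl : 0 < sq l) (hc : Crit t x l) (hT : 0.000013 < T (x :: l) t) : t * x < 1 := by
  by_contra hcon
  push Not at hcon
  have e2 : sq (x :: l) = x ^ 2 + sq l := by
    unfold sq
    simp
  rw [e2] at hsq
  have hsl : sq l = 1 - x ^ 2 := by (clear * - hsq; linarith)
  have h1 : P l (t + x) ≤ P l (t - x) := P_anti l (by (clear * - hx; linarith))
  have h2 := P_le_exp l hl (s := t + x) (by (clear * - ht hx; linarith))
  unfold Crit at hc
  have h3 : T (x :: l) t ≤ 2 * P l (t + x) := by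
    rw [hc]
    (clear * - hcon h1; nlinarith)
  have h4 : 8 ≤ (t + x) ^ 2 / sq l := by
    rw [le_div_iff₀ hl, hsl]
    have h5 : 1 + x ^ 2 ≤ (t + x) * x := by (clear * - hcon; nlinarith)
    have h6 : (1 + x ^ 2) ^ 2 ≤ ((t + x) * x) ^ 2 := by
      apply pow_le_pow_left₀ (by positivity) h5
    have h7 : 8 * (x ^ 2 * (1 - x ^ 2)) ≤ (1 + x ^ 2) ^ 2 := by
      (clear * -; nlinarith [sq_nonneg (1 - 3 * x ^ 2)])
    have h8 : x ^ 2 * (8 * (1 - x ^ 2)) ≤ x ^ 2 * (t + x) ^ 2 := by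
      calc x ^ 2 * (8 * (1 - x ^ 2)) = 8 * (x ^ 2 * (1 - x ^ 2)) := by ring
        _ ≤ (1 + x ^ 2) ^ 2 := h7
        _ ≤ ((t + x) * x) ^ 2 := h6
        _ = x ^ 2 * (t + x) ^ 2 := by ring
    exact le_of_mul_le_mul_left h8 (by positivity)
  have h9 : exp (-(3 / 2) * ((t + x) ^ 2 / sq l)) ≤ exp (-12) := by
    apply exp_le_exp.mpr
    (clear * - h4; linarith)
  have h10 : exp (-12) < 0.0000065 := by
    rw [exp_neg, show (12 : ℝ) = ((12 : ℕ) : ℝ) * 1 by norm_num, exp_nat_mul]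
    have h11 : (2.7182818283 : ℝ) ^ 12 < exp 1 ^ 12 := by
      apply pow_lt_pow_left₀ Real.exp_one_gt_d9 (by norm_num) (by norm_num)
    rw [inv_lt_comm₀ (by positivity) (by norm_num)]
    refine lt_trans ?_ h11
    norm_num
  (clear * - hT h2 h3 h9 h10; linarith)

end Pool.Agent.M18.Helper89.SP
end

/- Helper89.SP.Cases -/
section
/-!
Case analysis: a maximiser is either `f_n` or not better than `f₃`.
-/

set_option autoImplicit false

open MeasureTheory Set Real Pool.Agent.M18.Slab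

namespace Pool.Agent.M18.Helper89.SP

lemma asq_cons (x : ℝ) (l : List ℝ) : sq (x :: l) = x ^ 2 + sq l := by simp [sq]
lemma asq_append (l l' : List ℝ) : sq (l ++ l') = sq l + sq l' := by simp [sq]
lemma asq_replicate (k : ℕ) (x : ℝ) : sq (List.replicate k x) = k * x ^ 2 := by simp [sq]
lemma asq_nonneg' (l : List ℝ) : 0 ≤ sq l := by
  unfold sq
  apply List.sum_nonneg
  intro y hy
  obtain ⟨z, -, rfl⟩ := List.mem_map.mp hy
  positivity
lemma asq_perm {l l' : List ℝ} (h : l.Perm l') : sq l = sq l' := (h.map _).sum_eq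

lemma asq_pos_of_mem {l : List ℝ} {y : ℝ} (hy : y ∈ l) (h : 0 < y) : 0 < sq l := by
  induction l with
  | nil => simp at hy
  | cons x l ih =>
    rw [asq_cons]
    rcases List.mem_cons.mp hy with rfl | hy
    · have := asq_nonneg' l; (clear * - h this; positivity)
    · have := ih hy; (clear * - this; positivity)

/-- the competitors -/
lemma competitor {n m : ℕ} {t : ℝ} {L : List ℝ} (h : MaxL n t L) (hm : 1 ≤ m) (hmn : m ≤ n) :
    T (List.replicate m (1 / √(m : ℝ)) ++ List.replicate (n - m) 0) t ≤ T L t := by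
  apply h.best
  · simp; omega
  · intro x hx
    rcases List.mem_append.mp hx with hx | hx
    · rw [List.eq_of_mem_replicate hx]; (clear * - hm; positivity)
    · rw [List.eq_of_mem_replicate hx]
  · rw [asq_append, asq_replicate, asq_replicate]
    have : (0:ℝ) < m := by exact_mod_cast hm
    rw [div_pow, Real.sq_sqrt this.le]
    field_simp
    simp

lemma aT_nonneg (L : List ℝ) (t : ℝ) : 0 ≤ T L t := by
  have := P_nonneg L t
  unfold P at this
  unfold T
  rw [mul_div_assoc]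
  (clear * - this; linarith)

variable {n : ℕ} {t : ℝ} {L : List ℝ}

lemma ge_Mf (h : MaxL n t L) (hn : 4 ≤ n) (ht : 1.02 ≤ t) : Mf t ≤ T L t := by
  rcases le_total t √3 with h3 | h3
  · have h1 := competitor h (m := 3) (by norm_num) (by omega)
    have h2 := T_f3 (k := n - 3) (t := t) (by
      rw [div_le_iff₀ (by positivity)]
      (clear * - ht h3; nlinarith [Real.sq_sqrt (show (0:ℝ) ≤ 3 by norm_num), Real.sqrt_nonneg 3])) h3
    rw [show ((3:ℕ):ℝ) = 3 by norm_num, h2] at h1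
    exact h1
  · refine le_trans ?_ (aT_nonneg L t)
    unfold Mf
    have h33 : √3 ^ 2 = 3 := Real.sq_sqrt (by norm_num)
    have : 3 - √3 * t ≤ 0 := by (clear * - h33 h3; nlinarith [Real.sqrt_nonneg 3])
    have h4 : (3 - √3 * t) ^ 3 ≤ 0 := by
      have := pow_nonneg (neg_nonneg.mpr this) 3
      (clear * - this; nlinarith)
    (clear * - h4; linarith)

lemma ge_T4 (h : MaxL n t L) (hn : 4 ≤ n) (ht : 1.02 ≤ t) (ht2 : t ≤ 1.826) : T4 t ≤ T L t := by
  have h1 := competitor h (m := 4) (by norm_num) hn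
  have h2 := T_f4 (k := n - 4) (t := t) (by (clear * - ht; linarith)) (by (clear * - ht2; linarith))
  rw [show ((4:ℕ):ℝ) = 4 by norm_num, h2] at h1
  exact h1

lemma ge_T5 (h : MaxL n t L) (hn : 5 ≤ n) (ht : 1.02 ≤ t) (ht2 : t ≤ 1.826) : T5 t ≤ T L t := by
  have h1 := competitor h (m := 5) (by norm_num) hn
  have h5 : t ≤ √5 := by
    rw [Real.le_sqrt (by linarith) (by norm_num)]
    (clear * - ht2 ht; nlinarith)
  have h2 := T_f5 (k := n - 5) (t := t) (by linarith) h5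
  rw [show ((5:ℕ):ℝ) = 5 by norm_num, h2] at h1
  exact h1

lemma T_big (h : MaxL n t L) (hn : 4 ≤ n) (ht : 1.02 ≤ t) (ht2 : t ≤ 1.826) :
    0.000013 < T L t := by
  refine lt_of_lt_of_le ?_ (ge_T4 h hn ht ht2)
  unfold T4
  have : (0.174:ℝ) ^ 4 ≤ (2 - t) ^ 4 := pow_le_pow_left₀ (by norm_num) (by linarith) 4
  norm_num at this
  (clear * - this; linarith)

/-- facts about a coordinate of a maximiser -/
lemma coord (h : MaxL n t L) (hn : 4 ≤ n) (ht : 1.02 ≤ t) (ht2 : t ≤ 1.826) {x : ℝ} {l : List ℝ}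
    (hp : L.Perm (x :: l)) (hx : 0 < x) :
    Crit t x l ∧ 0 < sq l ∧ t * x < 1 ∧ sq l = 1 - x ^ 2 ∧ l.length = n - 1 := by
  have hT := T_big h hn ht ht2
  obtain ⟨y, hy, hy0⟩ := rest_pos (by (clear * - ht; linarith) : (1:ℝ) ≤ t) h.nonneg h.unit
    (lt_trans (by norm_num) hT) hp
  have hc := crit h (by (clear * - ht; linarith)) hp hx ⟨y, hy, hy0⟩
  have hs := asq_pos_of_mem hy hy0
  have h1 : sq (x :: l) = 1 := by rw [← asq_perm hp]; exact h.unit
  rw [T_perm hp] at hT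
  have htx := tx_lt ht hx h1 hs hc hT
  refine ⟨hc, hs, htx, ?_, ?_⟩
  · rw [asq_cons] at h1; (clear * - h1; linarith)
  · have := hp.length_eq
    rw [h.len] at this
    simp at this
    omega

lemma kill_Ex (h : MaxL n t L) {l : List ℝ} {p q ν : ℝ} (hp : L.Perm (l ++ [p, q])) (hqp : q < p)
    (hE : PairEx l p q ν) (hν : ν ≤ t) : False := by
  obtain ⟨c, hc⟩ : ∃ c, c = √((p ^ 2 + q ^ 2) / 2) := ⟨_, rfl⟩
  have hc0 : 0 ≤ c := by rw [hc]; (clear * -; positivity)
  have hc2 : 2 * c ^ 2 = p ^ 2 + q ^ 2 := by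
    rw [hc, Real.sq_sqrt (by (clear * -; positivity))]; ring
  exact no_pair h hp hqp hc0 hc2 (hE t hν c hc0 hc2)

lemma kill_T3 (h : MaxL n t L) (hn : 4 ≤ n) (ht : 1.02 ≤ t) (ht2 : t ≤ 1.826) {p q r F : ℝ}
    {l : List ℝ} (hp : L.Perm (p :: q :: r :: l)) (hr : 0 < r) (hrq : r ≤ q) (hqp : q ≤ p)
    (hpq : p + q ≤ t) (hp0 : 0.478 ≤ p) (hB : Beats t p q r F) (hF : F ≤ T L t) : False := by
  obtain ⟨hc, -, htx, -, -⟩ := coord h hn ht ht2 hp (by (clear * - hr hrq hqp; linarith))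
  have h1 : sq (p :: q :: r :: l) = 1 := by rw [← asq_perm hp]; exact h.unit
  have h3 : 1 ≤ 3 * (t * p) := by (clear * - hr hrq hqp hp0 ht; nlinarith)
  have := T3_bound hc h1 hr hrq hqp hpq htx.le h3 hB
  rw [← T_perm hp] at this
  (clear * - hF this; linarith)

lemma kill_E4 (h : MaxL n t L) (hn : 4 ≤ n) (ht : 1.02 ≤ t) (ht2 : t ≤ 1.2) {x F : ℝ}
    {l : List ℝ} (hp : L.Perm (x :: x :: x :: x :: l)) (hx : 0.41 ≤ x)
    (h2 : 2 * x < t) (hB : Beats4 t x F) (hF : F ≤ T L t) : False := by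
  obtain ⟨hc, -, htx, -, -⟩ := coord h hn ht (by (clear * - ht2; linarith)) hp (by (clear * - hx; linarith))
  have h1 : sq (x :: x :: x :: x :: l) = 1 := by rw [← asq_perm hp]; exact h.unit
  have := E4_bound hc h1 (by (clear * - hx; linarith)) h2 (by (clear * - ht2 hx h2; linarith)) htx.le hB
  rw [← T_perm hp] at this
  (clear * - hF this; linarith)

lemma kill_G (h : MaxL n t L) (hn : 4 ≤ n) (ht : 1.02 ≤ t) (ht2 : t ≤ 1.826) {p : ℝ}
    {l : List ℝ} (hp : L.Perm (p :: l)) (hp0 : 0.66 ≤ p) (hor : 0.72 ≤ p ∨ 1.26 ≤ t) : False := by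
  obtain ⟨hc, hs, htx, hs1, hlen⟩ := coord h hn ht ht2 hp (by (clear * - hp0; linarith))
  have hp1 : p < 1 := by (clear * - ht htx hp0; nlinarith)
  have hg := fact_G hp0 hp1 ht hor htx.le
  have b1 := P_le_hat l (by omega) hs (s := t - p) (by (clear * - ht hp0 hp1; linarith))
  have b2 := P_le_exp l hs (s := t + p) (by (clear * - ht hp0 hp1; linarith))
  rw [hs1] at b1 b2
  unfold Crit at hc
  rw [← T_perm hp] at hc
  have e1 : (1 - t * p) * P l (t - p) ≤ (1 - t * p) * (Phat ((t - p) / √(1 - p ^ 2)) / 2) :=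
    mul_le_mul_of_nonneg_left b1 (by (clear * - htx; linarith))
  have e2 : (1 + t * p) * P l (t + p) ≤ (1 + t * p) * exp (-(3 / 2) * ((t + p) ^ 2 / (1 - p ^ 2))) :=
    mul_le_mul_of_nonneg_left b2 (by (clear * - ht hp0 hp1; nlinarith))
  have e3 : max (Mf t) (T4 t) ≤ T L t := max_le (ge_Mf h hn ht) (ge_T4 h hn ht ht2)
  (clear * - hc hg e1 e2 e3; linarith)

end Pool.Agent.M18.Helper89.SP
end

/- Helper97.SP.BiPoly -/
section
/-!
Bivariate integer polynomials as lists of lists, with a verified lower bound on a box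
(used for numeric facts of project SP by evaluation in the kernel).
-/

set_option autoImplicit false

namespace Pool.Agent.M18.Helper97.SP

/-- value of the polynomial with coefficient list `p` -/
def ev : List ℤ → ℝ → ℝ
  | [], _ => 0
  | c :: p, u => (c : ℝ) + u * ev p u

/-- value of a bivariate polynomial: outer index = power of `w`, inner index = power of `u` -/
def ev2 : List (List ℤ) → ℝ → ℝ → ℝ
  | [], _, _ => 0
  | P :: Q, u, w => ev P u + w * ev2 Q u w

def padd : List ℤ → List ℤ → List ℤ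
  | [], q => q
  | a :: p, [] => a :: p
  | a :: p, b :: q => (a + b) :: padd p q

def psmul (a : ℤ) : List ℤ → List ℤ
  | [] => []
  | b :: q => (a * b) :: psmul a q

def pmul : List ℤ → List ℤ → List ℤ
  | [], _ => []
  | a :: p, q => padd (psmul a q) (0 :: pmul p q)

def add2 : List (List ℤ) → List (List ℤ) → List (List ℤ)
  | [], q => q
  | a :: p, [] => a :: p
  | a :: p, b :: q => (padd a b) :: add2 p q

def smul2 (a : ℤ) : List (List ℤ) → List (List ℤ)
  | [] => []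
  | b :: q => (psmul a b) :: smul2 a q

def pm2 (a : List ℤ) : List (List ℤ) → List (List ℤ)
  | [] => []
  | b :: q => (pmul a b) :: pm2 a q

def mul2 : List (List ℤ) → List (List ℤ) → List (List ℤ)
  | [], _ => []
  | a :: p, q => add2 (pm2 a q) ([] :: mul2 p q)

def pow2 (P : List (List ℤ)) : ℕ → List (List ℤ)
  | 0 => [[1]]
  | n + 1 => mul2 (pow2 P n) P

theorem ev_padd : ∀ (p q : List ℤ) (u : ℝ), ev (padd p q) u = ev p u + ev q u
  | [], q, u => by simp [padd, ev]
  | a :: p, [], u => by simp [padd, ev]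
  | a :: p, b :: q, u => by
      simp only [padd, ev, ev_padd p q u]
      push_cast
      ring

theorem ev_psmul (a : ℤ) : ∀ (q : List ℤ) (u : ℝ), ev (psmul a q) u = a * ev q u
  | [], u => by simp [psmul, ev]
  | b :: q, u => by
      simp only [psmul, ev, ev_psmul a q u]
      push_cast
      ring

theorem ev_pmul : ∀ (p q : List ℤ) (u : ℝ), ev (pmul p q) u = ev p u * ev q u
  | [], q, u => by simp [pmul, ev]
  | a :: p, q, u => by
      simp only [pmul, ev, ev_padd, ev_psmul, ev_pmul p q u]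
      push_cast
      ring

theorem ev2_add2 : ∀ (p q : List (List ℤ)) (u w : ℝ),
    ev2 (add2 p q) u w = ev2 p u w + ev2 q u w
  | [], q, u, w => by simp [add2, ev2]
  | a :: p, [], u, w => by simp [add2, ev2]
  | a :: p, b :: q, u, w => by
      simp only [add2, ev2, ev2_add2 p q u w, ev_padd]
      ring

theorem ev2_smul2 (a : ℤ) : ∀ (q : List (List ℤ)) (u w : ℝ),
    ev2 (smul2 a q) u w = a * ev2 q u w
  | [], u, w => by simp [smul2, ev2]
  | b :: q, u, w => by
      simp only [smul2, ev2, ev2_smul2 a q u w, ev_psmul]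
      ring

theorem ev2_pm2 (a : List ℤ) : ∀ (q : List (List ℤ)) (u w : ℝ),
    ev2 (pm2 a q) u w = ev a u * ev2 q u w
  | [], u, w => by simp [pm2, ev2]
  | b :: q, u, w => by
      simp only [pm2, ev2, ev2_pm2 a q u w, ev_pmul]
      ring

theorem ev2_mul2 : ∀ (p q : List (List ℤ)) (u w : ℝ),
    ev2 (mul2 p q) u w = ev2 p u w * ev2 q u w
  | [], q, u, w => by simp [mul2, ev2]
  | a :: p, q, u, w => by
      simp only [mul2, ev2, ev2_add2, ev2_pm2, ev2_mul2 p q u w, ev]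
      ring

theorem ev2_pow2 (P : List (List ℤ)) (u w : ℝ) : ∀ n : ℕ, ev2 (pow2 P n) u w = ev2 P u w ^ n
  | 0 => by simp [pow2, ev2, ev]
  | n + 1 => by rw [pow2, ev2_mul2, ev2_pow2 P u w n, pow_succ]

/-- lower bound on `[0,h]` -/
def lb (h : ℤ) : List ℤ → ℤ
  | [] => 0
  | c :: p => c + min 0 (h * lb h p)

/-- lower bound on `[0,h] × [0,k]` -/
def lb2 (h k : ℤ) : List (List ℤ) → ℤ
  | [] => 0
  | P :: Q => lb h P + min 0 (k * lb2 h k Q)

theorem min_le_mul {h : ℤ} {b : ℤ} {u x : ℝ} (hu0 : 0 ≤ u) (hu : u ≤ h) (hx : (b : ℝ) ≤ x) :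
    ((min 0 (h * b) : ℤ) : ℝ) ≤ u * x := by
  have h1 : u * (b : ℝ) ≤ u * x := mul_le_mul_of_nonneg_left hx hu0
  refine le_trans ?_ h1
  push_cast
  rcases le_total (0 : ℝ) (b : ℝ) with hb | hb
  · exact le_trans (min_le_left _ _) (mul_nonneg hu0 hb)
  · refine le_trans (min_le_right _ _) ?_
    (clear * - hu hb; nlinarith)

theorem lb_le {h : ℤ} {u : ℝ} (hu0 : 0 ≤ u) (hu : u ≤ h) : ∀ p : List ℤ,
    ((lb h p : ℤ) : ℝ) ≤ ev p u
  | [] => by simp [lb, ev]
  | c :: p => by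
      have h1 := min_le_mul hu0 hu (lb_le hu0 hu p)
      simp only [lb, ev]
      push_cast at h1 ⊢
      linarith

theorem lb2_le {h k : ℤ} {u w : ℝ} (hu0 : 0 ≤ u) (hu : u ≤ h) (hw0 : 0 ≤ w) (hw : w ≤ k) :
    ∀ P : List (List ℤ), ((lb2 h k P : ℤ) : ℝ) ≤ ev2 P u w
  | [] => by simp [lb2, ev2]
  | P :: Q => by
      have h1 := min_le_mul hw0 hw (lb2_le hu0 hu hw0 hw Q)
      have h2 := lb_le hu0 hu P
      simp only [lb2, ev2]
      push_cast at h1 ⊢
      (clear * - h2 h1; linarith)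

end Pool.Agent.M18.Helper97.SP
end

/- Helper97.SP.E4Facts -/
section
/-!
Project SP, modules SP-10a and SP-10b: numeric facts for four equal coordinates.
-/

set_option autoImplicit false

open Real
open Pool.Agent.M18.Helper97.SP

namespace Pool.Agent.M18.Helper89.SP.E4

/-- the unit of the coordinates is `1/N` -/
abbrev N : ℤ := 100000
/-- the unit of the error bounds is `1/M` -/
abbrev M : ℤ := 1000000000

def tp (T : ℤ) : List (List ℤ) := [[T, 1]]
def xp (X : ℤ) : List (List ℤ) := [[X], [1]]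
def ep (T X : ℤ) : List (List ℤ) := add2 (smul2 4 (xp X)) (smul2 (-1) (tp T))
def ap (T X : ℤ) : List (List ℤ) := add2 [[N * N]] (smul2 (-1) (mul2 (tp T) (xp X)))
/-- `N^5 A W` -/
def awp (T X : ℤ) : List (List ℤ) :=
  mul2 (ap T X) (add2 (pow2 (ep T X) 3)
    (mul2 (ep T X) (add2 [[N * N]] (smul2 (-4) (pow2 (xp X) 2)))))

def pol0 (T X : ℤ) : List (List ℤ) :=
  add2 (smul2 2 (mul2 (pow2 (xp X) 3) (pow2 (add2 [[3 * N * N]] (smul2 (-173206) (tp T))) 3)))
    (smul2 (-N ^ 4) (awp T X))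

def pol1 (T X : ℤ) : List (List ℤ) :=
  add2 (smul2 4 (mul2 (pow2 (xp X) 3) (pow2 (add2 [[2 * N]] (smul2 (-1) (tp T))) 4)))
    (smul2 (-N ^ 2) (awp T X))

def pol2 (T X : ℤ) : List (List ℤ) :=
  add2 (mul2 (pow2 (xp X) 3)
    (add2 (pow2 (add2 [[5 * N * N]] (smul2 (-223607) (tp T))) 5)
      (smul2 (-5) (pow2 (add2 [[3 * N * N]] (smul2 (-223607) (tp T))) 5))))
    (smul2 (-40 * N ^ 8) (awp T X))

def cb (vn s : ℤ) : ℤ :=
  min (1 + M * 1583 * vn ^ 2 / (90000 * N ^ 3 * s))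
    (min (1 + M * 1172 * vn ^ 3 / (270000 * N ^ 3 * s ^ 3))
      (1 + M * 2641 * vn ^ 4 / (810000 * N ^ 3 * s ^ 5)))

/-- `N² M` times a bound of the error terms -/
def er (T0 T1 X0 X1 : ℤ) : ℤ :=
  (N * N - T0 * X0) * cb (N * N - 4 * X0 * X0) (4 * X0 - T1) +
    max (4 * T1 * X1 - 2 * N * N) 0 * cb (N * N - 4 * X0 * X0) (T0 - 2 * X1) +
    (2 * N * N + 4 * T1 * X1) * cb (N * N - 4 * X0 * X0) (T0 + 2 * X0)

/-- admissibility of the box -/
def ok (T0 T1 X0 X1 : ℤ) : Bool :=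
  decide (0 < T0) && decide (0 < X0) && decide (0 < 4 * X0 - T1) && decide (0 < T0 - 2 * X1) &&
    decide (2 * X1 ≤ N) && decide (T1 * X1 ≤ N * N) && decide (T1 ≤ 120000)

def test0 (T0 T1 X0 X1 : ℤ) : Bool :=
  ok T0 T1 X0 X1 &&
  decide (N ^ 7 * er T0 T1 X0 X1 < M * lb2 (T1 - T0) (X1 - X0) (pol0 T0 X0))

def test1 (T0 T1 X0 X1 : ℤ) : Bool :=
  ok T0 T1 X0 X1 &&
  decide (N ^ 5 * er T0 T1 X0 X1 < M * lb2 (T1 - T0) (X1 - X0) (pol1 T0 X0))

def test2 (T0 T1 X0 X1 : ℤ) : Bool :=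
  ok T0 T1 X0 X1 &&
  decide (40 * N ^ 11 * er T0 T1 X0 X1 < M * lb2 (T1 - T0) (X1 - X0) (pol2 T0 X0))

theorem div_le_ceil (a b : ℤ) (hb : 0 < b) : (a : ℝ) / b ≤ ((1 + a / b : ℤ) : ℝ) := by
  have hb' : (0 : ℝ) < b := by exact_mod_cast hb
  rw [div_le_iff₀ hb']
  have := Int.lt_ediv_add_one_mul_self a hb
  have h2 : a ≤ (1 + a / b) * b := by (clear * - this; linarith)
  exact_mod_cast h2

theorem frac_mono {c v v0 s s0 : ℝ} {m k : ℕ} (hc : 0 ≤ c) (hv : 0 ≤ v) (hv0 : v ≤ v0)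
    (hs0 : 0 < s0) (hs : s0 ≤ s) : c * v ^ m / s ^ k ≤ c * v0 ^ m / s0 ^ k := by
  have h1 : v ^ m ≤ v0 ^ m := pow_le_pow_left₀ hv hv0 m
  have h2 : s0 ^ k ≤ s ^ k := pow_le_pow_left₀ hs0.le hs k
  have h3 : 0 < s0 ^ k := pow_pos hs0 k
  have h4 : 0 ≤ v0 ^ m := pow_nonneg (hv.trans hv0) m
  exact div_le_div₀ (mul_nonneg hc h4) (mul_le_mul_of_nonneg_left h1 hc) h3 h2

theorem Cb_le {v σ : ℝ} {vn s : ℤ} (hv : 0 ≤ v) (hvn : v * (3 * N ^ 2) ≤ vn) (hs : 0 < s)
    (hσ : (s : ℝ) ≤ N * σ) : Cb v σ * M ≤ cb vn s := by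
  have hs' : (0 : ℝ) < s := by exact_mod_cast hs
  have hv0 : v ≤ vn / (3 * (100000 : ℝ) ^ 2) := by
    rw [le_div_iff₀ (by norm_num)]; simpa using hvn
  have hσ0 : (s : ℝ) / 100000 ≤ σ := by
    rw [div_le_iff₀ (by norm_num)]
    have : (s : ℝ) ≤ 100000 * σ := by simpa using hσ
    (clear * - this; linarith)
  have hs0 : (0 : ℝ) < (s : ℝ) / 100000 := by positivity
  have a1 := frac_mono (c := 0.1583) (m := 2) (k := 1) (by norm_num) hv hv0 hs0 hσ0
  have a2 := frac_mono (c := 0.1172) (m := 3) (k := 3) (by norm_num) hv hv0 hs0 hσ0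
  have a3 := frac_mono (c := 0.2641) (m := 4) (k := 5) (by norm_num) hv hv0 hs0 hσ0
  have b1 := div_le_ceil (M * 1583 * vn ^ 2) (90000 * N ^ 3 * s) (by positivity)
  have b2 := div_le_ceil (M * 1172 * vn ^ 3) (270000 * N ^ 3 * s ^ 3) (by positivity)
  have b3 := div_le_ceil (M * 2641 * vn ^ 4) (810000 * N ^ 3 * s ^ 5) (by positivity)
  have c1 : 0.1583 * ((vn : ℝ) / (3 * (100000 : ℝ) ^ 2)) ^ 2 / ((s : ℝ) / 100000) ^ 1 * M =
      ((M * 1583 * vn ^ 2 : ℤ) : ℝ) / ((90000 * N ^ 3 * s : ℤ) : ℝ) := by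
    push_cast
    field_simp
    norm_num
    try ring
  have c2 : 0.1172 * ((vn : ℝ) / (3 * (100000 : ℝ) ^ 2)) ^ 3 / ((s : ℝ) / 100000) ^ 3 * M =
      ((M * 1172 * vn ^ 3 : ℤ) : ℝ) / ((270000 * N ^ 3 * s ^ 3 : ℤ) : ℝ) := by
    push_cast
    field_simp
    norm_num
    try ring
  have c3 : 0.2641 * ((vn : ℝ) / (3 * (100000 : ℝ) ^ 2)) ^ 4 / ((s : ℝ) / 100000) ^ 5 * M =
      ((M * 2641 * vn ^ 4 : ℤ) : ℝ) / ((810000 * N ^ 3 * s ^ 5 : ℤ) : ℝ) := by
    push_cast
    field_simp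
    norm_num
    try ring
  have hM : (0 : ℝ) ≤ (M : ℤ) := by norm_num
  have e1 := (mul_le_mul_of_nonneg_right a1 hM).trans (c1.le.trans b1)
  have e2 := (mul_le_mul_of_nonneg_right a2 hM).trans (c2.le.trans b2)
  have e3 := (mul_le_mul_of_nonneg_right a3 hM).trans (c3.le.trans b3)
  rw [pow_one] at e1
  unfold Cb cb
  rw [Int.cast_min, Int.cast_min]
  refine le_min ?_ (le_min ?_ ?_)
  · exact (mul_le_mul_of_nonneg_right (min_le_left _ _) hM).trans e1
  · exact (mul_le_mul_of_nonneg_right ((min_le_right _ _).trans (min_le_left _ _)) hM).trans e2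
  · exact (mul_le_mul_of_nonneg_right ((min_le_right _ _).trans (min_le_right _ _)) hM).trans e3

theorem Cb_nonneg {v σ : ℝ} (hv : 0 ≤ v) (hσ : 0 < σ) : 0 ≤ Cb v σ := by
  unfold Cb
  refine le_min (by (clear * - hσ; positivity)) (le_min (by (clear * - hv hσ; positivity)) (by positivity))

theorem awp_ev {T X : ℤ} {t x : ℝ} :
    ev2 (awp T X) (N * t - T) (N * x - X) =
      (N : ℝ) ^ 5 * ((1 - t * x) * ((4 * x - t) ^ 3 + (4 * x - t) * (1 - 4 * x ^ 2))) := by
  simp only [awp, ap, ep, tp, xp, ev2_add2, ev2_mul2, ev2_smul2, ev2_pow2, ev2, ev]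
  push_cast
  ring

/-- the error terms -/
noncomputable def Er (t x : ℝ) : ℝ :=
  (1 - t * x) * Cb ((1 - 4 * x ^ 2) / 3) (4 * x - t) +
    max (4 * (t * x) - 2) 0 * Cb ((1 - 4 * x ^ 2) / 3) (t - 2 * x) +
    (2 + 4 * (t * x)) * Cb ((1 - 4 * x ^ 2) / 3) (t + 2 * x)

structure InBox (T0 T1 X0 X1 : ℤ) (t x : ℝ) : Prop where
  t0 : (T0 : ℝ) ≤ N * t
  t1 : N * t ≤ (T1 : ℝ)
  x0 : (X0 : ℝ) ≤ N * x
  x1 : N * x ≤ (X1 : ℝ)

structure Ok (T0 T1 X0 X1 : ℤ) : Prop where
  a : 0 < T0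
  b : 0 < X0
  c : 0 < 4 * X0 - T1
  d : 0 < T0 - 2 * X1
  e : 2 * X1 ≤ N
  f : T1 * X1 ≤ N * N
  g : T1 ≤ 120000

theorem Er_le {T0 T1 X0 X1 : ℤ} {t x : ℝ} (hb : InBox T0 T1 X0 X1 t x) (h : Ok T0 T1 X0 X1) :
    (N : ℝ) ^ 2 * M * Er t x ≤ er T0 T1 X0 X1 := by
  obtain ⟨t0, t1, x0, x1⟩ := hb
  obtain ⟨ha, hb, hc, hd, he, hf, -⟩ := h
  have ha' : (0 : ℝ) < T0 := by exact_mod_cast ha
  have hb' : (0 : ℝ) < X0 := by exact_mod_cast hb
  have hc' : (0 : ℝ) < 4 * X0 - T1 := by exact_mod_cast hc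
  have hd' : (0 : ℝ) < T0 - 2 * X1 := by exact_mod_cast hd
  have he' : (2 : ℝ) * X1 ≤ 100000 := by exact_mod_cast he
  have hf' : (T1 : ℝ) * X1 ≤ 100000 * 100000 := by exact_mod_cast hf
  have t0' : (T0 : ℝ) ≤ 100000 * t := by simpa using t0
  have t1' : 100000 * t ≤ (T1 : ℝ) := by simpa using t1
  have x0' : (X0 : ℝ) ≤ 100000 * x := by simpa using x0
  have x1' : 100000 * x ≤ (X1 : ℝ) := by simpa using x1
  have hxpos : 0 < x := by (clear * - hb' x0'; linarith)
  have htpos : 0 < t := by (clear * - ha' t0'; linarith)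
  have hx2 : 2 * x ≤ 1 := by (clear * - he' x1'; linarith)
  have hxx : x ^ 2 ≤ 1 / 4 := by
    have : x * x ≤ (1 / 2) * (1 / 2) := mul_le_mul (by (clear * - he' x1'; linarith)) (by linarith) hxpos.le (by norm_num)
    rw [pow_two]; linarith
  have hX0x : (X0 : ℝ) * X0 ≤ 100000 ^ 2 * x ^ 2 := by
    have := mul_le_mul x0' x0' hb'.le (by (clear * - hxpos; linarith))
    calc (X0 : ℝ) * X0 ≤ 100000 * x * (100000 * x) := this
      _ = _ := by ring
  have tx0 : (T0 : ℝ) * X0 ≤ 100000 ^ 2 * (t * x) := by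
    have := mul_le_mul t0' x0' hb'.le (by (clear * - ha' t0'; linarith))
    calc (T0 : ℝ) * X0 ≤ 100000 * t * (100000 * x) := this
      _ = _ := by ring
  have tx1 : 100000 ^ 2 * (t * x) ≤ (T1 : ℝ) * X1 := by
    have := mul_le_mul t1' x1' (by (clear * - hxpos; linarith)) (by (clear * - t0 t1 ha'; linarith))
    calc 100000 ^ 2 * (t * x) = 100000 * t * (100000 * x) := by ring
      _ ≤ _ := this
  have htx : t * x ≤ 1 := by (clear * - hf' tx1; linarith)
  have htx0 : 0 ≤ t * x := by positivity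
  set v : ℝ := (1 - 4 * x ^ 2) / 3 with hv
  have hv0 : 0 ≤ v := by rw [hv]; (clear * - hxx; linarith)
  have hvn : v * (3 * ((N : ℤ) : ℝ) ^ 2) ≤ ((N * N - 4 * X0 * X0 : ℤ) : ℝ) := by
    rw [hv]; push_cast; (clear * - hX0x; linarith)
  have hvn0 : 0 ≤ (N * N - 4 * X0 * X0 : ℤ) := by
    have : (0 : ℝ) ≤ ((N * N - 4 * X0 * X0 : ℤ) : ℝ) := le_trans (by (clear * - hv0; positivity)) hvn
    exact_mod_cast this
  have k1 := Cb_le (σ := 4 * x - t) hv0 hvn hc (by push_cast; (clear * - t1' x0'; linarith))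
  have k2 := Cb_le (σ := t - 2 * x) hv0 hvn hd (by push_cast; (clear * - t0' x1'; linarith))
  have k3 := Cb_le (σ := t + 2 * x) hv0 hvn (by (clear * - ha hb; linarith) : 0 < T0 + 2 * X0)
    (by push_cast; (clear * - t0' x0'; linarith))
  have n1 := Cb_nonneg (σ := 4 * x - t) hv0 (by (clear * - hc' t1' x0'; linarith))
  have n2 := Cb_nonneg (σ := t - 2 * x) hv0 (by (clear * - hd' t0' x1'; linarith))
  have n3 := Cb_nonneg (σ := t + 2 * x) hv0 (by (clear * - ha' t0' hxpos; linarith))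
  have e1 : (100000 : ℝ) ^ 2 * (1 - t * x) * (Cb v (4 * x - t) * (M : ℤ)) ≤
      (100000 * 100000 - T0 * X0) * (cb (N * N - 4 * X0 * X0) (4 * X0 - T1) : ℤ) :=
    mul_le_mul (by (clear * - tx0; linarith)) k1 (mul_nonneg n1 (by norm_num)) (by (clear * - hf' tx0 tx1; linarith))
  have e2 : (100000 : ℝ) ^ 2 * max (4 * (t * x) - 2) 0 * (Cb v (t - 2 * x) * (M : ℤ)) ≤
      max (4 * (T1 : ℝ) * X1 - 2 * 100000 * 100000) 0 *
        (cb (N * N - 4 * X0 * X0) (T0 - 2 * X1) : ℤ) := by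
    refine mul_le_mul ?_ k2 (mul_nonneg n2 (by norm_num)) (le_max_right _ _)
    rcases le_total (4 * (t * x) - 2) 0 with h | h
    · rw [max_eq_right h]; simp
    · rw [max_eq_left h]
      exact le_max_of_le_left (by (clear * - tx1; linarith))
  have e3 : (100000 : ℝ) ^ 2 * (2 + 4 * (t * x)) * (Cb v (t + 2 * x) * (M : ℤ)) ≤
      (2 * 100000 * 100000 + 4 * T1 * X1) *
        (cb (N * N - 4 * X0 * X0) (T0 + 2 * X0) : ℤ) :=
    mul_le_mul (by (clear * - tx1; linarith)) k3 (mul_nonneg n3 (by norm_num)) (by (clear * - tx1 htx0; linarith))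
  have g1 : (N : ℝ) ^ 2 * M * Er t x =
      (100000 : ℝ) ^ 2 * (1 - t * x) * (Cb v (4 * x - t) * (M : ℤ)) +
      (100000 : ℝ) ^ 2 * max (4 * (t * x) - 2) 0 * (Cb v (t - 2 * x) * (M : ℤ)) +
      (100000 : ℝ) ^ 2 * (2 + 4 * (t * x)) * (Cb v (t + 2 * x) * (M : ℤ)) := by
    rw [Er, ← hv]
    push_cast
    ring
  have g2 : ((er T0 T1 X0 X1 : ℤ) : ℝ) =
      (100000 * 100000 - T0 * X0) * (cb (N * N - 4 * X0 * X0) (4 * X0 - T1) : ℤ) +
      max (4 * (T1 : ℝ) * X1 - 2 * 100000 * 100000) 0 *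
        (cb (N * N - 4 * X0 * X0) (T0 - 2 * X1) : ℤ) +
      (2 * 100000 * 100000 + 4 * T1 * X1) *
        (cb (N * N - 4 * X0 * X0) (T0 + 2 * X0) : ℤ) := by
    rw [er]
    generalize cb (N * N - 4 * X0 * X0) (4 * X0 - T1) = c1
    generalize cb (N * N - 4 * X0 * X0) (T0 - 2 * X1) = c2
    generalize cb (N * N - 4 * X0 * X0) (T0 + 2 * X0) = c3
    push_cast
    ring
  rw [g1, g2]
  exact add_le_add (add_le_add e1 e2) e3

theorem beats_iff (t x F : ℝ) : Beats4 t x F ↔
    (1 - t * x) * ((4 * x - t) ^ 3 + (4 * x - t) * (1 - 4 * x ^ 2)) + Er t x < 48 * x ^ 3 * F := by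
  unfold Beats4 Er
  constructor <;> intro h <;> linarith

theorem sqrt3_le : √3 ≤ 1.73206 := by
  rw [Real.sqrt_le_left (by norm_num)]
  norm_num

theorem sqrt5_le : √5 ≤ 2.23607 := by
  rw [Real.sqrt_le_left (by norm_num)]
  norm_num

theorem Mf_ge {t : ℝ} (h0 : 0 ≤ t) (h1 : t ≤ 1.2) : (3 - 1.73206 * t) ^ 3 / 24 ≤ Mf t := by
  unfold Mf
  have h2 : 0 ≤ 3 - 1.73206 * t := by nlinarith
  have h3 : 3 - 1.73206 * t ≤ 3 - √3 * t := by (clear * - h0; nlinarith [sqrt3_le])
  have := pow_le_pow_left₀ h2 h3 3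
  (clear * - this; linarith)

theorem quint_mono {a b : ℝ} (ha : 0 ≤ a) (hab : a ≤ b) (hb : b ≤ 3) :
    (a + 2) ^ 5 - 5 * a ^ 5 ≤ (b + 2) ^ 5 - 5 * b ^ 5 := by
  have hb0 : 0 ≤ b := ha.trans hab
  have h1 : b ^ 4 ≤ 3 * b ^ 3 := by
    have := mul_le_mul_of_nonneg_left hb (pow_nonneg hb0 3)
    calc b ^ 4 = b ^ 3 * b := by ring
      _ ≤ _ := this
      _ = _ := by ring
  have h2 : b ^ 3 * a ≤ 3 * (b ^ 2 * a) := by
    have := mul_le_mul_of_nonneg_left hb (mul_nonneg (pow_nonneg hb0 2) ha)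
    calc b ^ 3 * a = b ^ 2 * a * b := by ring
      _ ≤ _ := this
      _ = _ := by ring
  have h3 : b ^ 2 * a ^ 2 ≤ 3 * (b * a ^ 2) := by
    have := mul_le_mul_of_nonneg_left hb (mul_nonneg hb0 (pow_nonneg ha 2))
    calc b ^ 2 * a ^ 2 = b * a ^ 2 * b := by ring
      _ ≤ _ := this
      _ = _ := by ring
  have h4 : b * a ^ 3 ≤ 3 * a ^ 3 := mul_le_mul_of_nonneg_right hb (pow_nonneg ha 3)
  have h5 : a ^ 4 ≤ 3 * a ^ 3 := by
    have := mul_le_mul_of_nonneg_left (hab.trans hb) (pow_nonneg ha 3)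
    calc a ^ 4 = a ^ 3 * a := by ring
      _ ≤ _ := this
      _ = _ := by ring
  have h6 : b ^ 3 ≤ 3 * b ^ 2 := by
    have := mul_le_mul_of_nonneg_left hb (pow_nonneg hb0 2)
    calc b ^ 3 = b ^ 2 * b := by ring
      _ ≤ _ := this
      _ = _ := by ring
  have h7 : b ^ 2 * a ≤ 3 * (b * a) := by
    have := mul_le_mul_of_nonneg_left hb (mul_nonneg hb0 ha)
    calc b ^ 2 * a = b * a * b := by ring
      _ ≤ _ := this
      _ = _ := by ring
  have h8 : b * a ^ 2 ≤ 3 * a ^ 2 := mul_le_mul_of_nonneg_right hb (pow_nonneg ha 2)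
  have h9 : a ^ 3 ≤ 3 * a ^ 2 := by
    have := mul_le_mul_of_nonneg_left (hab.trans hb) (pow_nonneg ha 2)
    calc a ^ 3 = a ^ 2 * a := by ring
      _ ≤ _ := this
      _ = _ := by ring
  have h10 : a ^ 2 ≤ b ^ 2 := pow_le_pow_left₀ ha hab 2
  have h11 : 0 ≤ a * b := mul_nonneg ha hb0
  have h12 : 0 ≤ a ^ 2 := by positivity
  have key : 0 ≤ -4 * (b ^ 4 + b ^ 3 * a + b ^ 2 * a ^ 2 + b * a ^ 3 + a ^ 4) +
      10 * (b ^ 3 + b ^ 2 * a + b * a ^ 2 + a ^ 3) + 40 * (b ^ 2 + a * b + a ^ 2) +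
      80 * (b + a) + 80 := by
    (clear * - ha hab h1 h2 h3 h4 h5 h6 h7 h8 h9 h10 h11 h12; linarith)
  have := mul_nonneg (sub_nonneg.2 hab) key
  have e : (b - a) * (-4 * (b ^ 4 + b ^ 3 * a + b ^ 2 * a ^ 2 + b * a ^ 3 + a ^ 4) +
      10 * (b ^ 3 + b ^ 2 * a + b * a ^ 2 + a ^ 3) + 40 * (b ^ 2 + a * b + a ^ 2) +
      80 * (b + a) + 80) = ((b + 2) ^ 5 - 5 * b ^ 5) - ((a + 2) ^ 5 - 5 * a ^ 5) := by ring
  linarith

theorem T5_ge {t : ℝ} (h0 : 0 ≤ t) (h1 : t ≤ 1.2) :
    ((5 - 2.23607 * t) ^ 5 - 5 * (3 - 2.23607 * t) ^ 5) / 1920 ≤ T5 t := by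
  unfold T5
  have h2 : 0 ≤ 3 - 2.23607 * t := by linarith
  have h3 : √5 * t ≤ 2.23607 * t := mul_le_mul_of_nonneg_right sqrt5_le h0
  have h4 : 0 ≤ √5 * t := by positivity
  have hb0 : 0 ≤ 3 - √5 * t := by (clear * - h1 h3; linarith)
  rw [max_eq_left hb0]
  have key := quint_mono h2 (by (clear * - h3; linarith) : 3 - 2.23607 * t ≤ 3 - √5 * t) (by (clear * - h4; linarith))
  have e1 : 3 - 2.23607 * t + 2 = 5 - 2.23607 * t := by ring
  have e2 : 3 - √5 * t + 2 = 5 - √5 * t := by ring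
  rw [e1, e2] at key
  (clear * - key; linarith)

theorem ok_sound {T0 T1 X0 X1 : ℤ} (h : ok T0 T1 X0 X1 = true) : Ok T0 T1 X0 X1 := by
  unfold ok at h
  simp only [Bool.and_eq_true, decide_eq_true_eq] at h
  obtain ⟨⟨⟨⟨⟨⟨a, b⟩, c⟩, d⟩, e⟩, f⟩, g⟩ := h
  exact ⟨a, b, c, d, e, f, g⟩

theorem pol0_ev {T X : ℤ} {t x : ℝ} :
    ev2 (pol0 T X) (N * t - T) (N * x - X) =
      (100000 : ℝ) ^ 9 * (48 * x ^ 3 * ((3 - 1.73206 * t) ^ 3 / 24) -
        ((1 - t * x) * ((4 * x - t) ^ 3 + (4 * x - t) * (1 - 4 * x ^ 2)))) := by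
  rw [pol0, ev2_add2, ev2_smul2, ev2_smul2, awp_ev]
  simp only [tp, xp, ev2_add2, ev2_mul2, ev2_smul2, ev2_pow2, ev2, ev]
  push_cast
  ring

theorem pol1_ev {T X : ℤ} {t x : ℝ} :
    ev2 (pol1 T X) (N * t - T) (N * x - X) =
      (100000 : ℝ) ^ 7 * (48 * x ^ 3 * ((2 - t) ^ 4 / 12) -
        ((1 - t * x) * ((4 * x - t) ^ 3 + (4 * x - t) * (1 - 4 * x ^ 2)))) := by
  rw [pol1, ev2_add2, ev2_smul2, ev2_smul2, awp_ev]
  simp only [tp, xp, ev2_add2, ev2_mul2, ev2_smul2, ev2_pow2, ev2, ev]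
  push_cast
  ring

theorem pol2_ev {T X : ℤ} {t x : ℝ} :
    ev2 (pol2 T X) (N * t - T) (N * x - X) =
      40 * (100000 : ℝ) ^ 13 * (48 * x ^ 3 *
        (((5 - 2.23607 * t) ^ 5 - 5 * (3 - 2.23607 * t) ^ 5) / 1920) -
        ((1 - t * x) * ((4 * x - t) ^ 3 + (4 * x - t) * (1 - 4 * x ^ 2)))) := by
  rw [pol2, ev2_add2, ev2_smul2, awp_ev]
  simp only [tp, xp, ev2_add2, ev2_mul2, ev2_smul2, ev2_pow2, ev2, ev]
  push_cast
  ring

theorem final {L E c : ℝ} {t x F G : ℝ} (hc : 0 < c) (hE : (100000 : ℝ) ^ 2 * 1000000000 * Er t x ≤ E)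
    (hL : L ≤ c * 100000 ^ 2 * (48 * x ^ 3 * G -
        ((1 - t * x) * ((4 * x - t) ^ 3 + (4 * x - t) * (1 - 4 * x ^ 2)))))
    (hK : c * E < 1000000000 * L) (hG : G ≤ F) (hx : 0 ≤ x) : Beats4 t x F := by
  rw [beats_iff]
  have h1 : c * ((100000 : ℝ) ^ 2 * 1000000000 * Er t x) ≤ c * E :=
    mul_le_mul_of_nonneg_left hE hc.le
  have h2 : c * ((100000 : ℝ) ^ 2 * 1000000000 * Er t x) <
      1000000000 * (c * 100000 ^ 2 * (48 * x ^ 3 * G -
        ((1 - t * x) * ((4 * x - t) ^ 3 + (4 * x - t) * (1 - 4 * x ^ 2))))) := by linarith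
  have h3 : Er t x < 48 * x ^ 3 * G -
        ((1 - t * x) * ((4 * x - t) ^ 3 + (4 * x - t) * (1 - 4 * x ^ 2))) := by
    by_contra hcon
    push Not at hcon
    have := mul_le_mul_of_nonneg_left hcon (by positivity : 0 ≤ 1000000000 * (c * 100000 ^ 2))
    linarith
  have h4 : 48 * x ^ 3 * G ≤ 48 * x ^ 3 * F := mul_le_mul_of_nonneg_left hG (by (clear * - hx; positivity))
  linarith

/-- what follows from membership in an admissible box -/
theorem box_facts {T0 T1 X0 X1 : ℤ} {t x : ℝ} (hok : Ok T0 T1 X0 X1)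
    (hb : InBox T0 T1 X0 X1 t x) : 0 ≤ (N : ℝ) * t - T0 ∧ (N : ℝ) * t - T0 ≤ ((T1 - T0 : ℤ) : ℝ) ∧
      0 ≤ (N : ℝ) * x - X0 ∧ (N : ℝ) * x - X0 ≤ ((X1 - X0 : ℤ) : ℝ) ∧ 0 ≤ t ∧ 0 ≤ x ∧
      t ≤ 1.2 ∧ (100000 : ℝ) ^ 2 * 1000000000 * Er t x ≤ er T0 T1 X0 X1 := by
  have hE := Er_le hb hok
  obtain ⟨t0, t1, x0, x1⟩ := hb
  have hE' : (100000 : ℝ) ^ 2 * 1000000000 * Er t x ≤ er T0 T1 X0 X1 := by simpa using hE
  have hu0 : 0 ≤ (N : ℝ) * t - T0 := by linarith
  have hu1 : (N : ℝ) * t - T0 ≤ ((T1 - T0 : ℤ) : ℝ) := by push_cast at t1 ⊢; (clear * - t1; linarith)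
  have hw0 : 0 ≤ (N : ℝ) * x - X0 := by linarith
  have hw1 : (N : ℝ) * x - X0 ≤ ((X1 - X0 : ℤ) : ℝ) := by push_cast at x1 ⊢; linarith
  have htp : 0 ≤ t := by
    have : (0 : ℝ) < T0 := by exact_mod_cast hok.a
    have t0' : (T0 : ℝ) ≤ 100000 * t := by simpa using t0
    (clear * - this t0'; linarith)
  have hxp : 0 ≤ x := by
    have : (0 : ℝ) < X0 := by exact_mod_cast hok.b
    have x0' : (X0 : ℝ) ≤ 100000 * x := by simpa using x0
    (clear * - this x0'; linarith)
  have htl : t ≤ 1.2 := by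
    have : (T1 : ℝ) ≤ 120000 := by exact_mod_cast hok.g
    have t1' : 100000 * t ≤ (T1 : ℝ) := by simpa using t1
    (clear * - this t1'; linarith)
  exact ⟨hu0, hu1, hw0, hw1, htp, hxp, htl, hE'⟩

theorem test0_sound {T0 T1 X0 X1 : ℤ} (h : test0 T0 T1 X0 X1 = true) {t x : ℝ}
    (hb : InBox T0 T1 X0 X1 t x) : Beats4 t x (Mf t) := by
  rw [test0, Bool.and_eq_true, decide_eq_true_eq] at h
  obtain ⟨h1, h3⟩ := h
  obtain ⟨hu0, hu1, hw0, hw1, htp, hxp, htl, hE'⟩ := box_facts (ok_sound h1) hb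
  have hl := lb2_le hu0 hu1 hw0 hw1 (pol0 T0 X0)
  rw [pol0_ev] at hl
  have h3' : ((N ^ 7 * er T0 T1 X0 X1 : ℤ) : ℝ) <
    ((M * lb2 (T1 - T0) (X1 - X0) (pol0 T0 X0) : ℤ) : ℝ) := by exact_mod_cast h3
  rw [Int.cast_mul, Int.cast_mul, Int.cast_pow] at h3'
  exact final (c := 100000 ^ 7) (by norm_num) hE' (hl.trans (le_of_eq (by ring)))
    (by simpa using h3') (Pool.Agent.M18.Helper89.SP.E4.Mf_ge htp htl) hxp

theorem test1_sound {T0 T1 X0 X1 : ℤ} (h : test1 T0 T1 X0 X1 = true) {t x : ℝ}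
    (hb : InBox T0 T1 X0 X1 t x) : Beats4 t x (T4 t) := by
  rw [test1, Bool.and_eq_true, decide_eq_true_eq] at h
  obtain ⟨h1, h3⟩ := h
  obtain ⟨hu0, hu1, hw0, hw1, htp, hxp, htl, hE'⟩ := box_facts (ok_sound h1) hb
  have hl := lb2_le hu0 hu1 hw0 hw1 (pol1 T0 X0)
  rw [pol1_ev] at hl
  have h3' : ((N ^ 5 * er T0 T1 X0 X1 : ℤ) : ℝ) <
    ((M * lb2 (T1 - T0) (X1 - X0) (pol1 T0 X0) : ℤ) : ℝ) := by exact_mod_cast h3
  rw [Int.cast_mul, Int.cast_mul, Int.cast_pow] at h3'
  exact final (c := 100000 ^ 5) (G := (2 - t) ^ 4 / 12) (by norm_num) hE'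
    (hl.trans (le_of_eq (by ring))) (by simpa using h3') (le_of_eq rfl) hxp

theorem test2_sound {T0 T1 X0 X1 : ℤ} (h : test2 T0 T1 X0 X1 = true) {t x : ℝ}
    (hb : InBox T0 T1 X0 X1 t x) : Beats4 t x (T5 t) := by
  rw [test2, Bool.and_eq_true, decide_eq_true_eq] at h
  obtain ⟨h1, h3⟩ := h
  obtain ⟨hu0, hu1, hw0, hw1, htp, hxp, htl, hE'⟩ := box_facts (ok_sound h1) hb
  have hl := lb2_le hu0 hu1 hw0 hw1 (pol2 T0 X0)
  rw [pol2_ev] at hl
  have h3' : ((40 * N ^ 11 * er T0 T1 X0 X1 : ℤ) : ℝ) <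
    ((M * lb2 (T1 - T0) (X1 - X0) (pol2 T0 X0) : ℤ) : ℝ) := by exact_mod_cast h3
  rw [Int.cast_mul, Int.cast_mul, Int.cast_mul, Int.cast_pow] at h3'
  exact final (c := 40 * 100000 ^ 11) (by norm_num) hE' (hl.trans (le_of_eq (by ring)))
    (by simpa using h3') (T5_ge htp htl) hxp

/-- adaptive subdivision -/
def chk : ℕ → ℤ → ℤ → ℤ → ℤ → Bool
  | 0, _, _, _, _ => false
  | n + 1, T0, T1, X0, X1 =>
    test0 T0 T1 X0 X1 || test2 T0 T1 X0 X1 || test1 T0 T1 X0 X1 ||
    (if X1 - X0 ≤ T1 - T0 then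
      chk n T0 ((T0 + T1) / 2) X0 X1 && chk n ((T0 + T1) / 2) T1 X0 X1
    else
      chk n T0 T1 X0 ((X0 + X1) / 2) && chk n T0 T1 ((X0 + X1) / 2) X1)

theorem chk_sound : ∀ (n : ℕ) {T0 T1 X0 X1 : ℤ}, chk n T0 T1 X0 X1 = true → ∀ {t x : ℝ},
    InBox T0 T1 X0 X1 t x → Beats4 t x (Mf t) ∨ Beats4 t x (T4 t) ∨ Beats4 t x (T5 t)
  | 0, _, _, _, _, h, _, _, _ => by simp [chk] at h
  | n + 1, T0, T1, X0, X1, h, t, x, hb => by
      rw [chk, Bool.or_eq_true, Bool.or_eq_true, Bool.or_eq_true] at h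
      rcases h with ((h | h) | h) | h
      · exact Or.inl (test0_sound h hb)
      · exact Or.inr (Or.inr (test2_sound h hb))
      · exact Or.inr (Or.inl (test1_sound h hb))
      · obtain ⟨t0, t1, x0, x1⟩ := hb
        split_ifs at h
        · rw [Bool.and_eq_true] at h
          rcases le_total ((N : ℝ) * t) (((T0 + T1) / 2 : ℤ) : ℝ) with hc | hc
          · exact chk_sound n h.1 ⟨t0, hc, x0, x1⟩
          · exact chk_sound n h.2 ⟨hc, t1, x0, x1⟩
        · rw [Bool.and_eq_true] at h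
          rcases le_total ((N : ℝ) * x) (((X0 + X1) / 2 : ℤ) : ℝ) with hc | hc
          · exact chk_sound n h.1 ⟨t0, t1, x0, hc⟩
          · exact chk_sound n h.2 ⟨t0, t1, hc, x1⟩

theorem c_a : test0 102000 104000 41000 43000 = true := by decide +kernel
theorem c_b : test0 102000 106000 43000 44730 = true := by decide +kernel
theorem c_c : test0 102000 104000 44000 47000 = true := by decide +kernel
theorem c_d : chk 12 102000 120000 47000 50000 = true := by decide +kernel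

end Pool.Agent.M18.Helper89.SP.E4

namespace Pool.Agent.M18.Helper89.SP

open E4

theorem fact_E4_a {t x : ℝ} (hx0 : 0.41 ≤ x) (hx1 : x ≤ 0.43) (ht0 : 1.02 ≤ t) (ht1 : t ≤ 1.04) :
    Beats4 t x (Mf t) :=
  test0_sound c_a ⟨by push_cast; (clear * - ht0; linarith), by push_cast; (clear * - ht1; linarith), by push_cast; (clear * - hx0; linarith),
    by push_cast; (clear * - hx1; linarith)⟩

theorem fact_E4_b {t x : ℝ} (hx0 : 0.43 ≤ x) (hx1 : x ≤ 0.4473) (ht0 : 1.02 ≤ t) (ht1 : t ≤ 1.06) :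
    Beats4 t x (Mf t) :=
  test0_sound c_b ⟨by push_cast; (clear * - ht0; linarith), by push_cast; (clear * - ht1; linarith), by push_cast; (clear * - hx0; linarith),
    by push_cast; (clear * - hx1; linarith)⟩

theorem fact_E4_c {t x : ℝ} (hx0 : 0.44 ≤ x) (hx1 : x ≤ 0.47) (ht0 : 1.02 ≤ t) (ht1 : t ≤ 1.04) :
    Beats4 t x (Mf t) :=
  test0_sound c_c ⟨by push_cast; (clear * - ht0; linarith), by push_cast; (clear * - ht1; linarith), by push_cast; (clear * - hx0; linarith),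
    by push_cast; (clear * - hx1; linarith)⟩

theorem fact_E4_d {t x : ℝ} (hx0 : 0.47 ≤ x) (hx1 : x ≤ 0.5) (ht0 : 1.02 ≤ t) (ht1 : t ≤ 1.2) :
    Beats4 t x (Mf t) ∨ Beats4 t x (T4 t) ∨ Beats4 t x (T5 t) :=
  chk_sound 12 c_d ⟨by push_cast; (clear * - ht0; linarith), by push_cast; (clear * - ht1; linarith), by push_cast; (clear * - hx0; linarith),
    by push_cast; (clear * - hx1; linarith)⟩

end Pool.Agent.M18.Helper89.SP
end

/- Helper96.Slab.Reduce -/
section
/-!
Finite combinatorics of the project SLAB (modules S9 and S10).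
-/

namespace Pool.Agent.M18.Slab

open MeasureTheory Set

theorem reduce (n : ℕ) (hn : 2 ≤ n) (Φ : (Fin n → ℝ) → ℝ)
    (step : ∀ a : Fin n → ℝ, (∀ i, 0 ≤ a i) → ∑ i, a i ^ 2 = 1 → ∀ i j, i ≠ j → ∀ x y : ℝ,
      0 ≤ x → 0 ≤ y → x ^ 2 + y ^ 2 = a i ^ 2 + a j ^ 2 → a i * a j < x * y →
      1 / ((n : ℝ) - 1) ≤ a i ^ 2 + a j ^ 2 →
      Φ a ≤ Φ (Function.update (Function.update a i x) j y)) :
    ∀ a : Fin n → ℝ, (∀ i, 0 ≤ a i) → ∑ i, a i ^ 2 = 1 → Φ a ≤ Φ (fun _ => 1 / Real.sqrt n) := by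
  have hn0 : (0 : ℝ) < n := by exact_mod_cast (by omega : 0 < n)
  have hn1 : (1 : ℝ) ≤ (n : ℝ) - 1 := by
    have : (2 : ℝ) ≤ n := by exact_mod_cast hn
    linarith
  set c : ℝ := 1 / Real.sqrt n with hc
  have hc0 : 0 < c := by rw [hc]; positivity
  have hc2 : c ^ 2 = 1 / n := by
    rw [hc, div_pow, Real.sq_sqrt hn0.le, one_pow]
  have hsumc : ∑ _i : Fin n, c ^ 2 = 1 := by
    rw [Finset.sum_const, Finset.card_univ, Fintype.card_fin, nsmul_eq_mul, hc2]
    field_simp
  have main : ∀ m : ℕ, ∀ a : Fin n → ℝ, (Finset.univ.filter fun k => a k ≠ c).card = m →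
      (∀ i, 0 ≤ a i) → ∑ i, a i ^ 2 = 1 → Φ a ≤ Φ (fun _ => c) := by
    intro m
    induction m using Nat.strong_induction_on with
    | _ m ih =>
      intro a hm ha hs
      by_cases hall : ∀ k, a k = c
      · have : a = fun _ => c := funext hall
        rw [this]
      · push Not at hall
        have : Nonempty (Fin n) := ⟨⟨0, by omega⟩⟩
        obtain ⟨i, hi⟩ := Finite.exists_max a
        obtain ⟨j, hj⟩ := Finite.exists_min a
        have hic : c < a i := by
          by_contra hle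
          push Not at hle
          obtain ⟨k, hk⟩ := hall
          have hle' : ∀ l, a l ^ 2 ≤ c ^ 2 := fun l =>
            pow_le_pow_left₀ (ha l) ((hi l).trans hle) 2
          have hlt : a k ^ 2 < c ^ 2 :=
            pow_lt_pow_left₀ (lt_of_le_of_ne ((hi k).trans hle) hk) (ha k) two_ne_zero
          have : ∑ l, a l ^ 2 < ∑ _l : Fin n, c ^ 2 :=
            Finset.sum_lt_sum (fun l _ => hle' l) ⟨k, Finset.mem_univ _, hlt⟩
          rw [hs, hsumc] at this
          exact lt_irrefl _ this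
        have hjc : a j < c := by
          by_contra hle
          push Not at hle
          have hle' : ∀ l, c ^ 2 ≤ a l ^ 2 := fun l =>
            pow_le_pow_left₀ hc0.le (hle.trans (hj l)) 2
          have hlt : c ^ 2 < a i ^ 2 := pow_lt_pow_left₀ hic hc0.le two_ne_zero
          have : ∑ _l : Fin n, c ^ 2 < ∑ l, a l ^ 2 :=
            Finset.sum_lt_sum (fun l _ => hle' l) ⟨i, Finset.mem_univ _, hlt⟩
          rw [hs, hsumc] at this
          exact lt_irrefl _ this
        have hij : i ≠ j := by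
          rintro rfl
          exact absurd hic (not_lt.2 hjc.le)
        have hi2 : 1 / (n : ℝ) < a i ^ 2 := by
          rw [← hc2]; exact pow_lt_pow_left₀ hic hc0.le two_ne_zero
        have hj2 : a j ^ 2 < 1 / (n : ℝ) := by
          rw [← hc2]; exact pow_lt_pow_left₀ hjc (ha j) two_ne_zero
        -- the size of the pair
        have hbig : 1 / ((n : ℝ) - 1) ≤ a i ^ 2 + a j ^ 2 := by
          have h1 : ∑ l, a l ^ 2 = a j ^ 2 + ∑ l ∈ Finset.univ.erase j, a l ^ 2 :=
            (Finset.add_sum_erase _ _ (Finset.mem_univ j)).symm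
          have h2 : ∑ l ∈ Finset.univ.erase j, a l ^ 2 ≤ ((n : ℝ) - 1) * a i ^ 2 := by
            calc ∑ l ∈ Finset.univ.erase j, a l ^ 2 ≤ ∑ _l ∈ Finset.univ.erase j, a i ^ 2 :=
                  Finset.sum_le_sum fun l _ => pow_le_pow_left₀ (ha l) (hi l) 2
              _ = ((n : ℝ) - 1) * a i ^ 2 := by
                  rw [Finset.sum_const, Finset.card_erase_of_mem (Finset.mem_univ j),
                    Finset.card_univ, Fintype.card_fin, nsmul_eq_mul, Nat.cast_sub (by omega),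
                    Nat.cast_one]
          rw [div_le_iff₀ (by (clear * - hn1; linarith))]
          have h3 : 0 ≤ a j ^ 2 := sq_nonneg _
          (clear * - hs h1 h2 hn1; nlinarith)
        set y : ℝ := Real.sqrt (a i ^ 2 + a j ^ 2 - 1 / n) with hy
        have hy0 : 0 ≤ y := Real.sqrt_nonneg _
        have hy2 : y ^ 2 = a i ^ 2 + a j ^ 2 - 1 / n :=
          Real.sq_sqrt (by (clear * - hi2; linarith [sq_nonneg (a j)]))
        have hxy : c ^ 2 + y ^ 2 = a i ^ 2 + a j ^ 2 := by rw [hy2, hc2]; ring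
        have hprod : a i * a j < c * y := by
          refine lt_of_pow_lt_pow_left₀ 2 (by (clear * - hn; positivity)) ?_
          rw [mul_pow, mul_pow, hy2, hc2]
          (clear * - hi2 hj2; nlinarith [mul_pos (sub_pos.2 hi2) (sub_pos.2 hj2)])
        have hstep := step a ha hs i j hij c y hc0.le hy0 hxy hprod hbig
        refine hstep.trans (ih _ ?_ _ rfl ?_ ?_)
        · rw [← hm]
          refine Finset.card_lt_card ?_
          refine Finset.ssubset_iff_subset_ne.2 ⟨?_, ?_⟩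
          · intro k hk
            rw [Finset.mem_filter] at hk ⊢
            refine ⟨Finset.mem_univ _, ?_⟩
            by_cases hkj : k = j
            · subst hkj; exact hjc.ne
            · rw [Function.update_of_ne hkj] at hk
              by_cases hki : k = i
              · subst hki; exact hic.ne'
              · rw [Function.update_of_ne hki] at hk
                exact hk.2
          · intro heq
            have h1 : i ∈ Finset.univ.filter fun k => a k ≠ c :=
              Finset.mem_filter.2 ⟨Finset.mem_univ _, hic.ne'⟩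
            rw [← heq, Finset.mem_filter, Function.update_of_ne hij, Function.update_self] at h1
            exact h1.2 rfl
        · intro k
          by_cases hkj : k = j
          · subst hkj; rw [Function.update_self]; exact hy0
          · rw [Function.update_of_ne hkj]
            by_cases hki : k = i
            · subst hki; rw [Function.update_self]; exact hc0.le
            · rw [Function.update_of_ne hki]; exact ha k
        · have h1 : ∑ l, (Function.update (Function.update a i c) j y l) ^ 2 =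
              y ^ 2 + (c ^ 2 + ∑ l ∈ (Finset.univ.erase j).erase i, a l ^ 2) := by
            rw [← Finset.add_sum_erase _ _ (Finset.mem_univ j), Function.update_self,
              ← Finset.add_sum_erase (Finset.univ.erase j) _
                (Finset.mem_erase.2 ⟨hij, Finset.mem_univ i⟩),
              Function.update_of_ne hij, Function.update_self]
            congr 2
            refine Finset.sum_congr rfl fun l hl => ?_
            rw [Finset.mem_erase, Finset.mem_erase] at hl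
            rw [Function.update_of_ne hl.2.1, Function.update_of_ne hl.1]
          have h2 : ∑ l, a l ^ 2 =
              a j ^ 2 + (a i ^ 2 + ∑ l ∈ (Finset.univ.erase j).erase i, a l ^ 2) := by
            rw [← Finset.add_sum_erase _ _ (Finset.mem_univ j),
              ← Finset.add_sum_erase (Finset.univ.erase j) _
                (Finset.mem_erase.2 ⟨hij, Finset.mem_univ i⟩)]
          rw [h1]
          rw [hs] at h2
          (clear * - hc2 hy2 h2; linarith)
  intro a ha hs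
  exact main _ a rfl ha hs

theorem exists_list {n : ℕ} (a : Fin n → ℝ) {i j : Fin n} (hij : i ≠ j) :
    ∃ l : List ℝ, ∀ x y : ℝ,
      (List.ofFn (Function.update (Function.update a i x) j y)).Perm (l ++ [x, y]) ∧
      (l.map (fun x => x ^ 2)).sum = (∑ k, a k ^ 2) - a i ^ 2 - a j ^ 2 := by
  have hji : j ∈ Finset.univ.erase i := Finset.mem_erase.2 ⟨hij.symm, Finset.mem_univ _⟩
  refine ⟨(((Finset.univ.erase i).erase j).toList).map a, fun x y => ⟨?_, ?_⟩⟩
  · rw [← Multiset.coe_eq_coe, ← Fin.univ_val_map, ← Multiset.coe_add, ← Multiset.map_coe,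
      Finset.coe_toList]
    have h1 : (Finset.univ : Finset (Fin n)).val =
        i ::ₘ j ::ₘ ((Finset.univ.erase i).erase j).val := by
      have hji' : j ∈ (Finset.univ.erase i : Finset (Fin n)).val := hji
      rw [Finset.erase_val, Multiset.cons_erase hji', Finset.erase_val,
        Multiset.cons_erase (Finset.mem_univ i)]
    conv_lhs => rw [h1]
    rw [Multiset.map_cons, Multiset.map_cons, Function.update_self, Function.update_of_ne hij,
      Function.update_self]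
    have h2 : Multiset.map (Function.update (Function.update a i x) j y)
        ((Finset.univ.erase i).erase j).val = Multiset.map a
          ((Finset.univ.erase i).erase j).val := by
      refine Multiset.map_congr rfl fun k hk => ?_
      have hk' : k ∈ (Finset.univ.erase i).erase j := hk
      rw [Finset.mem_erase, Finset.mem_erase] at hk'
      rw [Function.update_of_ne hk'.1, Function.update_of_ne hk'.2.1]
    rw [h2, ← Multiset.singleton_add, ← Multiset.singleton_add, ← add_assoc, add_comm]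
    rfl
  · have h1 : ((((Finset.univ.erase i).erase j).toList).map a).map (fun x => x ^ 2) =
        (((Finset.univ.erase i).erase j).toList).map (fun k => a k ^ 2) := by
      rw [List.map_map]; rfl
    rw [h1, Finset.sum_map_toList]
    have h2 : ∑ k, a k ^ 2 = a i ^ 2 + (a j ^ 2 + ∑ k ∈ (Finset.univ.erase i).erase j, a k ^ 2) := by
      rw [← Finset.add_sum_erase _ _ (Finset.mem_univ i),
        ← Finset.add_sum_erase (Finset.univ.erase i) _ hji]
    (clear * - h2; linarith)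

end Pool.Agent.M18.Slab
end

/- Helper89.Slab.Main -/
section
/-!
Slabs of the cube (problem MP_66ebcc_gt): main theorem.
-/

namespace Pool.Agent.M18.Slab

open MeasureTheory Set

theorem tail_le_unordered {p q p' q' : ℝ} (hp : 0 ≤ p) (hq : 0 ≤ q) (hp' : 0 ≤ p') (hq' : 0 ≤ q')
    (hc : p ^ 2 + q ^ 2 = p' ^ 2 + q' ^ 2) (hlt : p * q < p' * q') (l : List ℝ) {t : ℝ}
    (ht : 0 ≤ t)
    (hb : 5 / 3 * (6 / 7 * (p ^ 2 + q ^ 2) + 2 * (l.map (fun x => x ^ 2)).sum) ≤ t ^ 2) :
    AL (l ++ [p, q]) H t ≤ AL (l ++ [p', q']) H t := by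
  have sw : ∀ x y : ℝ, AL (l ++ [x, y]) H = AL (l ++ [y, x]) H := fun x y =>
    AL_perm (List.Perm.append_left l (List.Perm.swap y x []))
  rcases le_total q p with h | h
  · rcases le_total q' p' with h' | h'
    · exact tail_le hq h hq' h' hc hlt l ht hb
    · rw [sw p' q']
      exact tail_le hq h hp' h' (by linarith) (by linarith [mul_comm p' q']) l ht hb
  · rw [sw p q]
    rcases le_total q' p' with h' | h'
    · exact tail_le hp h hq' h' (by linarith) (by linarith [mul_comm p q]) l ht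
        (by rw [add_comm (q ^ 2)]; exact hb)
    · rw [sw p' q']
      exact tail_le hp h hp' h' (by linarith) (by linarith [mul_comm p q, mul_comm p' q']) l ht
        (by rw [add_comm (q ^ 2)]; exact hb)

theorem tail_ofFn_le (n : ℕ) (hn : 2 ≤ n) (t : ℝ) (ht : 0 ≤ t)
    (htn : 10 / 3 - 40 / (21 * ((n : ℝ) - 1)) ≤ t ^ 2) (a : Fin n → ℝ) (ha : ∑ i, a i ^ 2 = 1) :
    AL (List.ofFn a) H t ≤ AL (List.ofFn (fun _ : Fin n => 1 / Real.sqrt n)) H t := by
  have hn1 : (0 : ℝ) < (n : ℝ) - 1 := by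
    have : (2 : ℝ) ≤ n := by exact_mod_cast hn
    linarith
  have habs : AL (List.ofFn a) H = AL (List.ofFn (fun i => |a i|)) H := by
    rw [← AL_abs (List.ofFn a), List.map_ofFn]
    rfl
  rw [habs]
  refine reduce n hn (fun b => AL (List.ofFn b) H t) ?_ (fun i => |a i|) (fun i => abs_nonneg _)
    (by simpa [sq_abs] using ha)
  intro b hb0 hb1 i j hij x y hx hy hxy hlt hge
  obtain ⟨l, hl⟩ := exists_list b hij
  have h1 := (hl (b i) (b j)).1
  have h2 := (hl x y).1
  have h3 := (hl x y).2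
  rw [Function.update_eq_self, Function.update_eq_self] at h1
  show AL (List.ofFn b) H t ≤ AL (List.ofFn (Function.update (Function.update b i x) j y)) H t
  rw [AL_perm h1, AL_perm h2]
  refine tail_le_unordered (hb0 i) (hb0 j) hx hy hxy.symm hlt l ht ?_
  rw [h3, hb1]
  have e : 40 / (21 * ((n : ℝ) - 1)) = 40 / 21 * (1 / ((n : ℝ) - 1)) := by
    field_simp
  rw [e] at htn
  linarith

theorem slab_le (n : ℕ) (hn : 2 ≤ n) (t : ℝ) (ht : 0 ≤ t)
    (htn : 10 / 3 - 40 / (21 * ((n : ℝ) - 1)) ≤ t ^ 2) (a : Fin n → ℝ) (ha : ∑ i, a i ^ 2 = 1) :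
    volume {x : Fin n → ℝ | (∀ i, |x i| ≤ 1) ∧ |∑ i, (1 / Real.sqrt n) * x i| ≤ t} ≤
      volume {x : Fin n → ℝ | (∀ i, |x i| ≤ 1) ∧ |∑ i, a i * x i| ≤ t} := by
  rw [volume_slab n (fun _ => 1 / Real.sqrt n) t ht, volume_slab n a t ht]
  apply ENNReal.ofReal_le_ofReal
  have := tail_ofFn_le n hn t ht htn a ha
  linarith

end Pool.Agent.M18.Slab
end
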