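import Mathlib
import Pool.Agent.Helper53.AM.G07
import Pool.Agent.Helper53.AM.G11
import Pool.Agent.Helper53.AM.G17
import Pool.Agent.Helper53.AM.G26

/- Helper48.SP.TnDef -/
section
/-!
Project SP: the definition of `Tn` (Spec SP-15).
-/

set_option autoImplicit false

open MeasureTheory Set Real Pool.Agent.M18.Slab

namespace Pool.Agent.M18.Helper89.SP

/-- `T_n` -/
noncomputable def Tn (n : ℕ) (t : ℝ) : ℝ := T (List.replicate n (1 / √(n : ℝ))) t

end Pool.Agent.M18.Helper89.SP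
end

/- Helper72.SP.ThreeDim -/
section
/-!
Module SP-14 of project SP (MP_66ebcc_gt): dimension three.
-/

set_option autoImplicit false

open MeasureTheory Set Real
open Pool.Agent.M18.Helper88.Slab (prob ind A cube)

namespace Pool.Agent.M18.Helper89.SP

open Pool.Agent.M18.Helper88.Slab
open Pool.Agent.M18.Helper89.FA (prob_abs prob_two algebra_two ff ff_neg exists_t1 three_min sqrt2_b sqrt3_b)

private lemma td_deriv (k : ℕ) (x : ℝ) :
    HasDerivAt (fun y : ℝ => (max 0 y) ^ (k + 2) / (k + 2)) ((max 0 x) ^ (k + 1)) x := by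
  have hk : ((k : ℝ) + 2) ≠ 0 := by (clear * -; positivity)
  have hpow : ∀ z : ℝ, HasDerivAt (fun y : ℝ => y ^ (k + 2) / (k + 2)) (z ^ (k + 1)) z := by
    intro z
    have h := (hasDerivAt_pow (k + 2) z).div_const ((k : ℝ) + 2)
    have e : ((k + 2 : ℕ) : ℝ) * z ^ (k + 2 - 1) / ((k : ℝ) + 2) = z ^ (k + 1) := by
      push_cast
      rw [mul_div_assoc]
      field_simp
    rwa [e] at h
  rcases lt_trichotomy x 0 with hx | hx | hx
  · have e : (fun y : ℝ => (max 0 y) ^ (k + 2) / (k + 2)) =ᶠ[nhds x] fun _ => 0 := by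
      filter_upwards [gt_mem_nhds hx] with y hy
      rw [max_eq_left hy.le]; simp
    rw [max_eq_left hx.le, zero_pow (by omega)]
    exact (hasDerivAt_const x (0 : ℝ)).congr_of_eventuallyEq e
  · subst hx
    have h1 : HasDerivWithinAt (fun y : ℝ => (max 0 y) ^ (k + 2) / (k + 2)) ((max 0 (0:ℝ)) ^ (k + 1))
        (Iic 0) 0 := by
      refine (hasDerivWithinAt_const (0:ℝ) (Iic 0) (0:ℝ)).congr_of_eventuallyEq ?_ ?_ |>.congr_deriv ?_
      · filter_upwards [self_mem_nhdsWithin] with y hy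
        rw [max_eq_left (mem_Iic.mp hy)]; simp
      · simp
      · simp
    have h2 : HasDerivWithinAt (fun y : ℝ => (max 0 y) ^ (k + 2) / (k + 2)) ((max 0 (0:ℝ)) ^ (k + 1))
        (Ici 0) 0 := by
      refine (hpow 0).hasDerivWithinAt.congr_of_eventuallyEq ?_ ?_ |>.congr_deriv ?_
      · filter_upwards [self_mem_nhdsWithin] with y hy
        rw [max_eq_right (mem_Ici.mp hy)]
      · simp
      · simp
    have h3 := h1.union h2
    rw [Iic_union_Ici] at h3
    exact hasDerivWithinAt_univ.mp h3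
  · have e : (fun y : ℝ => (max 0 y) ^ (k + 2) / (k + 2)) =ᶠ[nhds x] fun y => y ^ (k + 2) / (k + 2) := by
      filter_upwards [lt_mem_nhds hx] with y hy
      rw [max_eq_right hy.le]
    rw [max_eq_right hx.le]
    exact (hpow x).congr_of_eventuallyEq e

private lemma td_integral (k : ℕ) (c a b : ℝ) :
    ∫ z in a..b, (max 0 (z - c)) ^ (k + 1) =
      (max 0 (b - c)) ^ (k + 2) / (k + 2) - (max 0 (a - c)) ^ (k + 2) / (k + 2) := by
  have h : ∀ z ∈ uIcc a b, HasDerivAt (fun y : ℝ => (max 0 (y - c)) ^ (k + 2) / (k + 2))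
      ((max 0 (z - c)) ^ (k + 1)) z := by
    intro z _
    have := (td_deriv k (z - c)).comp z ((hasDerivAt_id z).sub_const c)
    rw [mul_one] at this
    exact this
  exact intervalIntegral.integral_eq_sub_of_hasDerivAt h
    (Continuous.intervalIntegrable (by fun_prop) _ _)

private lemma td_A1 {s t : ℝ} (hs : 0 < s) (hst : s ≤ t) {z : ℝ} (hz : |z| ≤ t + s) :
    A s (ind t) z = 1 - (max 0 (z - (t - s)) + max 0 (-z - (t - s))) / (2 * s) := by
  rw [A_ind hs (hs.le.trans hst), eq_sub_iff_add_eq, ← add_div, div_eq_one_iff_eq (by (clear * - hs; positivity))]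
  obtain ⟨h1, h2⟩ := abs_le.mp hz
  unfold clamp
  rcases le_total z (t - s) with h | h
  · rw [max_eq_left (by (clear * - h; linarith) : z - (t - s) ≤ 0)]
    rcases le_total (-z) (t - s) with h' | h'
    · rw [max_eq_left (by (clear * - h'; linarith) : -z - (t - s) ≤ 0), min_eq_right (by (clear * - h; linarith) : z + s ≤ t),
        min_eq_right (by linarith : z - s ≤ t), max_eq_right (by linarith), max_eq_right (by linarith)]
      ring
    · rw [max_eq_right (by linarith : 0 ≤ -z - (t - s)), min_eq_right (by linarith : z + s ≤ t),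
        min_eq_right (by (clear * - h2; linarith) : z - s ≤ t), max_eq_right (by linarith), max_eq_left (by linarith)]
      ring
  · rw [max_eq_right (by linarith : 0 ≤ z - (t - s)), max_eq_left (by linarith : -z - (t - s) ≤ 0),
      min_eq_left (by (clear * - h; linarith) : t ≤ z + s), min_eq_right (by linarith : z - s ≤ t),
      max_eq_right (by (clear * - hs hst; linarith)), max_eq_right (by (clear * - hst h; linarith))]
    ring

private lemma td_A2 {p q r t : ℝ} (hq : 0 < q) (hr : 0 < r) (h1 : p + q ≤ t)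
    (h2 : p + r ≤ t) (hrt : r ≤ t) {y : ℝ} (hy : |y| ≤ p) :
    A q (A r (ind t)) y =
      1 - ((max 0 (y - (t - q - r))) ^ 2 + (max 0 (-y - (t - q - r))) ^ 2) / (8 * (q * r)) := by
  obtain ⟨hy1, hy2⟩ := abs_le.mp hy
  have hcont : Continuous (A r (ind t)) := A_ind_cont hr (hr.le.trans hrt)
  have e1 : A q (A r (ind t)) y = (1 / (2 * q)) * ∫ z in (y - q)..(y + q), A r (ind t) z := by
    rw [A_eq_diff hq (fun _ _ => hcont.intervalIntegrable _ _),
      intervalIntegral.integral_interval_sub_left (hcont.intervalIntegrable _ _)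
        (hcont.intervalIntegrable _ _)]
  have e2 : ∫ z in (y - q)..(y + q), A r (ind t) z =
      ∫ z in (y - q)..(y + q), (1 - ((max 0 (z - (t - r))) ^ (0 + 1) +
        (max 0 (-z - (t - r))) ^ (0 + 1)) / (2 * r)) := by
    apply intervalIntegral.integral_congr
    intro z hz
    rw [uIcc_of_le (by (clear * - hq; linarith))] at hz
    simp only
    rw [td_A1 hr hrt (abs_le.mpr ⟨by linarith [hz.1], by linarith [hz.2]⟩)]
    simp
  have e3 : ∫ z in (y - q)..(y + q), (max 0 (-z - (t - r))) ^ (0 + 1) =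
      ∫ z in (-y - q)..(-y + q), (max 0 (z - (t - r))) ^ (0 + 1) := by
    have := intervalIntegral.integral_comp_neg (a := y - q) (b := y + q)
      (f := fun z => (max 0 (z - (t - r))) ^ (0 + 1))
    rw [this]
    congr 1 <;> ring
  have i1 : IntervalIntegrable (fun z : ℝ => (max 0 (z - (t - r))) ^ (0 + 1)) volume (y - q) (y + q) :=
    Continuous.intervalIntegrable (by fun_prop) _ _
  have i2 : IntervalIntegrable (fun z : ℝ => (max 0 (-z - (t - r))) ^ (0 + 1)) volume (y - q) (y + q) :=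
    Continuous.intervalIntegrable (by fun_prop) _ _
  rw [e1, e2, intervalIntegral.integral_sub (by simp) ((i1.add i2).div_const _),
    intervalIntegral.integral_div, intervalIntegral.integral_add i1 i2, e3, td_integral, td_integral]
  rw [max_eq_left (by (clear * - hq h2 hy2; linarith) : y - q - (t - r) ≤ 0),
    max_eq_left (by (clear * - hq h2 hy1; linarith) : -y - q - (t - r) ≤ 0),
    show y + q - (t - r) = y - (t - q - r) by ring,
    show -y + q - (t - r) = -y - (t - q - r) by ring]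
  simp only [intervalIntegral.integral_const, smul_eq_mul]
  push_cast
  field_simp
  ring

private lemma td_A3 {p q r t : ℝ} (hp : 0 < p) (hq : 0 < q) (hr : 0 < r) (h1 : p + q ≤ t)
    (h2 : p + r ≤ t) (h3 : q + r ≤ t) (hc : Continuous (A q (A r (ind t)))) :
    A p (A q (A r (ind t))) 0 = 1 - (max 0 (p + q + r - t)) ^ 3 / (24 * (p * q * r)) := by
  have e1 : A p (A q (A r (ind t))) 0 = (1 / (2 * p)) * ∫ z in (0 - p)..(0 + p), A q (A r (ind t)) z := by
    rw [A_eq_diff hp (fun _ _ => hc.intervalIntegrable _ _),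
      intervalIntegral.integral_interval_sub_left (hc.intervalIntegrable _ _)
        (hc.intervalIntegrable _ _)]
  have e2 : ∫ z in (0 - p)..(0 + p), A q (A r (ind t)) z =
      ∫ z in (0 - p)..(0 + p), (1 - ((max 0 (z - (t - q - r))) ^ (1 + 1) +
        (max 0 (-z - (t - q - r))) ^ (1 + 1)) / (8 * (q * r))) := by
    apply intervalIntegral.integral_congr
    intro z hz
    rw [uIcc_of_le (by linarith)] at hz
    simp only
    rw [td_A2 hq hr h1 h2 (by (clear * - hp h2; linarith)) (abs_le.mpr ⟨by (clear * - hz; linarith [hz.1]), by (clear * - hz; linarith [hz.2])⟩)]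
  have e3 : ∫ z in (0 - p)..(0 + p), (max 0 (-z - (t - q - r))) ^ (1 + 1) =
      ∫ z in (0 - p)..(0 + p), (max 0 (z - (t - q - r))) ^ (1 + 1) := by
    have := intervalIntegral.integral_comp_neg (a := 0 - p) (b := 0 + p)
      (f := fun z => (max 0 (z - (t - q - r))) ^ (1 + 1))
    rw [this]
    congr 1 <;> ring
  have i1 : IntervalIntegrable (fun z : ℝ => (max 0 (z - (t - q - r))) ^ (1 + 1)) volume (0 - p) (0 + p) :=
    Continuous.intervalIntegrable (by fun_prop) _ _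
  have i2 : IntervalIntegrable (fun z : ℝ => (max 0 (-z - (t - q - r))) ^ (1 + 1)) volume (0 - p) (0 + p) :=
    Continuous.intervalIntegrable (by fun_prop) _ _
  rw [e1, e2, intervalIntegral.integral_sub (by simp) ((i1.add i2).div_const _),
    intervalIntegral.integral_div, intervalIntegral.integral_add i1 i2, e3, td_integral]
  rw [max_eq_left (by (clear * - hp h3; linarith) : 0 - p - (t - q - r) ≤ 0),
    show 0 + p - (t - q - r) = p + q + r - t by ring]
  simp only [intervalIntegral.integral_const, smul_eq_mul]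
  push_cast
  field_simp
  ring

/-- The closed form when only the corners are cut off. -/
theorem prob_three (a : Fin 3 → ℝ) {t : ℝ} (h0 : 0 < a 0) (h1 : 0 < a 1) (h2 : 0 < a 2)
    (h01 : a 0 + a 1 ≤ t) (h02 : a 0 + a 2 ≤ t) (h12 : a 1 + a 2 ≤ t) :
    prob a t = 1 - (max 0 (a 0 + a 1 + a 2 - t)) ^ 3 / (24 * (a 0 * a 1 * a 2)) := by
  have ht : 0 ≤ t := by (clear * - h0 h1 h01; linarith)
  have hc1 : Continuous (A (a 0) (ind t)) := A_ind_cont h0 ht
  have hc2 : Continuous (A (a 1) (A (a 0) (ind t))) := A_cont _ hc1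
  have e0 : |a 0| = a 0 := abs_of_pos h0
  have e1 : a ((0 : Fin 3).succAbove (0 : Fin 2)) = a 1 := by simp
  have e2 : a ((0 : Fin 3).succAbove ((0 : Fin 2).succAbove (0 : Fin 1))) = a 2 := by
    simp only [Fin.zero_succAbove]
    rfl
  rw [prob_split (n := 2) _ 0, e0, cube_split_cont (n := 1) 0 _ _ hc1, e1,
    cube_split_cont (n := 0) 0 _ _ hc2, e2]
  simp only [Finset.univ_eq_empty, Finset.sum_empty, integral_const, probReal_univ, one_smul]
  rw [td_A3 h2 h1 h0 (by linarith) (by linarith) (by linarith) hc2]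
  congr 2
  · congr 2; ring
  · ring

/-- A slab containing the cube. -/
theorem prob_eq_one {n : ℕ} (a : Fin n → ℝ) {t : ℝ} (h : ∑ j, |a j| ≤ t) : prob a t = 1 := by
  unfold Pool.Agent.M18.Helper88.Slab.prob
  have : ∫ x, ind t (∑ j, a j * x j) ∂(cube n) = ∫ _x, (1 : ℝ) ∂(cube n) := by
    apply integral_congr_ae
    filter_upwards [ae_cube n] with x hx
    unfold ind
    rw [if_pos]
    refine (Finset.abs_sum_le_sum_abs _ _).trans (le_trans ?_ h)
    apply Finset.sum_le_sum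
    intro j _
    rw [abs_mul]
    have hx1 : |x j| ≤ 1 := abs_le.mpr ⟨hx.1 j, hx.2 j⟩
    exact mul_le_of_le_one_right (abs_nonneg _) hx1
  rw [this]
  simp

/-- Two coordinates with sum at least `t`. -/
theorem regionA_vec3 {n : ℕ} (a : Fin n → ℝ) (ha : ∑ j, a j ^ 2 = 1) {t : ℝ} (h1 : 1.0129 ≤ t)
    (h2 : t ≤ √2) (hM2 : ff t ≤ 0) {i j : Fin n} (hij : i ≠ j) (hs : t ≤ |a i| + |a j|) :
    1 - (3 - √3 * t) ^ 3 / 24 ≤ prob a t := by
  have hsum : a i ^ 2 + a j ^ 2 ≤ 1 := by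
    rw [← ha]
    have := Finset.sum_le_sum_of_subset_of_nonneg (Finset.subset_univ ({i, j} : Finset (Fin n)))
      (f := fun l => a l ^ 2) (fun l _ _ => sq_nonneg _)
    rwa [Finset.sum_pair hij] at this
  have hpi : |a i| ≤ 1 := by
    rw [abs_le_one_iff_mul_self_le_one]; (clear * - hsum; nlinarith [sq_nonneg (a j)])
  have hpj : |a j| ≤ 1 := by
    rw [abs_le_one_iff_mul_self_le_one]; (clear * - hsum; nlinarith [sq_nonneg (a i)])
  have hi : a i ≠ 0 := by
    intro h0; rw [h0, abs_zero] at hs; linarith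
  have hj : a j ≠ 0 := by
    intro h0; rw [h0, abs_zero] at hs; linarith
  have hp : 0 < |a i| := abs_pos.mpr hi
  have hq : 0 < |a j| := abs_pos.mpr hj
  obtain ⟨k1, k2⟩ := prob_two a i j hij ha (by linarith) hi hj hs
  rcases algebra_two (t := t) (M := (3 - √3 * t) ^ 3 / 24) h1 h2 rfl
    (by unfold ff at hM2; (clear * - hM2; linarith)) hp hq (by rw [sq_abs, sq_abs]; exact hsum) hs with h | ⟨z, hz, hz2, h⟩
  · refine le_trans ?_ k1
    rw [sq_abs, sq_abs] at h
    have : (3 * (|a i| + |a j| - t) ^ 2 + (1 - a i ^ 2 - a j ^ 2)) / (12 * (|a i| * |a j|)) ≤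
        (3 - √3 * t) ^ 3 / 24 := by
      rw [div_le_iff₀ (by positivity)]
      linarith
    (clear * - this; linarith)
  · rw [sq_abs, sq_abs] at hz2
    refine le_trans ?_ (k2 z hz hz2)
    have : (z + (|a i| + |a j| - t)) ^ 3 / (24 * (|a i| * |a j|) * z) ≤ (3 - √3 * t) ^ 3 / 24 := by
      rw [div_le_iff₀ (by positivity)]
      (clear * - h; linarith)
    (clear * - this; linarith)

lemma ff_nonpos {t : ℝ} (h1 : 1.02 ≤ t) (h2 : t ≤ √2) : ff t ≤ 0 := by
  obtain ⟨t₁, a1, a2, a3⟩ := exists_t1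
  exact (ff_neg a1 a3 (by linarith) h2).le

private lemma td_alg {S K t t0 : ℝ} (hS : S ^ 2 ≤ 3) (htS : t < S) (ht0 : 0 < t0) (htt : t0 ≤ t)
    (hK : 0 < K) (h : (S - t0) ^ 3 / (24 * K) ≤ (3 - √3 * t0) ^ 3 / 24) :
    (S - t) ^ 3 / (24 * K) ≤ (3 - √3 * t) ^ 3 / 24 := by
  have h33 : √3 ^ 2 = 3 := Real.sq_sqrt (by norm_num)
  have h3 : 0 < √3 := by positivity
  have hS3 : S ≤ √3 := by
    rw [← abs_of_nonneg (by (clear * - htS ht0 htt; linarith) : 0 ≤ S)]
    exact Real.abs_le_sqrt hS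
  rw [div_le_div_iff₀ (by positivity) (by norm_num)] at h ⊢
  have e : ∀ u : ℝ, 3 - √3 * u = √3 * (√3 - u) := by intro u; linear_combination -h33
  rw [e, mul_pow] at h ⊢
  have p0 : 0 < √3 - t0 := by linarith
  have p1 : 0 ≤ √3 - t := by linarith
  have p2 : 0 ≤ S - t := by linarith
  have p3 : 0 ≤ S - t0 := by linarith
  have c1 : (S - t) * (√3 - t0) ≤ (S - t0) * (√3 - t) := by (clear * - htt hS3; nlinarith)
  have c2 : ((S - t) * (√3 - t0)) ^ 3 ≤ ((S - t0) * (√3 - t)) ^ 3 :=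
    pow_le_pow_left₀ (mul_nonneg p2 p0.le) c1 3
  rw [mul_pow, mul_pow] at c2
  have c3 : 0 < (√3 - t0) ^ 3 := by positivity
  have c4 : 0 ≤ (√3 - t) ^ 3 := by (clear * - p1; positivity)
  have c5 : (S - t0) ^ 3 * (√3 - t) ^ 3 ≤ √3 ^ 3 * (√3 - t0) ^ 3 * K * (√3 - t) ^ 3 := by
    apply mul_le_mul_of_nonneg_right _ c4
    (clear * - h; nlinarith)
  have c6 : (S - t) ^ 3 * (√3 - t0) ^ 3 ≤ (√3 ^ 3 * (√3 - t) ^ 3 * K) * (√3 - t0) ^ 3 := by
    calc _ ≤ _ := c2
      _ ≤ _ := c5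
      _ = _ := by ring
  have c7 := le_of_mul_le_mul_right c6 c3
  (clear * - c7; nlinarith)

private lemma td_pos (a : Fin 3 → ℝ) (ha : ∑ i, a i ^ 2 = 1) {t : ℝ} (ht : 1.02 ≤ t)
    (hpos : ∀ i, 0 < a i) (h01 : a 0 + a 1 < t) (h02 : a 0 + a 2 < t) (h12 : a 1 + a 2 < t)
    (hS : t < a 0 + a 1 + a 2) :
    1 - (3 - √3 * t) ^ 3 / 24 ≤ prob a t := by
  have ha' : a 0 ^ 2 + a 1 ^ 2 + a 2 ^ 2 = 1 := by
    rw [← ha, Fin.sum_univ_three]
  obtain ⟨h2a, h2b⟩ := sqrt2_b
  have hS3 : (a 0 + a 1 + a 2) ^ 2 ≤ 3 := by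
    (clear * - ha'; nlinarith [sq_nonneg (a 0 - a 1), sq_nonneg (a 0 - a 2), sq_nonneg (a 1 - a 2)])
  have hK : 0 < a 0 * a 1 * a 2 := mul_pos (mul_pos (hpos 0) (hpos 1)) (hpos 2)
  have key : ∃ t0 : ℝ, 0 < t0 ∧ t0 ≤ t ∧ a 0 + a 1 ≤ t0 ∧ a 0 + a 2 ≤ t0 ∧ a 1 + a 2 ≤ t0 ∧
      1 - (3 - √3 * t0) ^ 3 / 24 ≤ prob a t0 := by
    have hpair : ∀ i j : Fin 3, i ≠ j → 1.02 ≤ a i + a j →
        1 - (3 - √3 * (a i + a j)) ^ 3 / 24 ≤ prob a (a i + a j) := by
      intro i j hij hle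
      have hsum : a i ^ 2 + a j ^ 2 ≤ 1 := by
        rw [← ha]
        have := Finset.sum_le_sum_of_subset_of_nonneg
          (Finset.subset_univ ({i, j} : Finset (Fin 3)))
          (f := fun l => a l ^ 2) (fun l _ _ => sq_nonneg _)
        rwa [Finset.sum_pair hij] at this
      have hle2 : a i + a j ≤ √2 := by
        apply Real.le_sqrt_of_sq_le
        (clear * - hsum; nlinarith [sq_nonneg (a i - a j)])
      refine regionA_vec3 a ha (by linarith) hle2 (ff_nonpos hle hle2) hij ?_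
      rw [abs_of_pos (hpos i), abs_of_pos (hpos j)]
    rcases le_total (a 0 + a 1) (a 0 + a 2) with c1 | c1
    · rcases le_total (a 0 + a 2) (a 1 + a 2) with c2 | c2
      · rcases le_total 1.02 (a 1 + a 2) with c3 | c3
        · exact ⟨a 1 + a 2, by linarith, by (clear * - h12; linarith), by (clear * - c1 c2; linarith), by (clear * - c2; linarith), le_rfl,
            hpair 1 2 (by decide) c3⟩
        · obtain ⟨t₁, b1, b2, b3⟩ := exists_t1
          exact ⟨1.02, by norm_num, ht, by (clear * - c1 c2 c3; linarith), by (clear * - c2 c3; linarith), by (clear * - c3; linarith),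
            three_min a ha b1 b2 b3 (by linarith) le_rfl⟩
      · rcases le_total 1.02 (a 0 + a 2) with c3 | c3
        · exact ⟨a 0 + a 2, by linarith, by (clear * - h02; linarith), by (clear * - c1; linarith), le_rfl, by (clear * - c2; linarith),
            hpair 0 2 (by decide) c3⟩
        · obtain ⟨t₁, b1, b2, b3⟩ := exists_t1
          exact ⟨1.02, by norm_num, ht, by (clear * - c1 c3; linarith), by (clear * - c3; linarith), by (clear * - c2 c3; linarith),
            three_min a ha b1 b2 b3 (by (clear * - h2a h2b b2; linarith)) le_rfl⟩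
    · rcases le_total (a 0 + a 1) (a 1 + a 2) with c2 | c2
      · rcases le_total 1.02 (a 1 + a 2) with c3 | c3
        · exact ⟨a 1 + a 2, by linarith, by (clear * - h12; linarith), by (clear * - c2; linarith), by (clear * - c1 c2; linarith), le_rfl,
            hpair 1 2 (by decide) c3⟩
        · obtain ⟨t₁, b1, b2, b3⟩ := exists_t1
          exact ⟨1.02, by norm_num, ht, by (clear * - c2 c3; linarith), by (clear * - c1 c2 c3; linarith), by (clear * - c3; linarith),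
            three_min a ha b1 b2 b3 (by (clear * - h2a h2b b2; linarith)) le_rfl⟩
      · rcases le_total 1.02 (a 0 + a 1) with c3 | c3
        · exact ⟨a 0 + a 1, by linarith, by (clear * - h01; linarith), le_rfl, by (clear * - c1; linarith), by (clear * - c2; linarith),
            hpair 0 1 (by decide) c3⟩
        · obtain ⟨t₁, b1, b2, b3⟩ := exists_t1
          exact ⟨1.02, by norm_num, ht, by (clear * - c3; linarith), by (clear * - c1 c3; linarith), by (clear * - c2 c3; linarith),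
            three_min a ha b1 b2 b3 (by (clear * - h2a h2b b2; linarith)) le_rfl⟩
  obtain ⟨t0, t0pos, t0t, k01, k02, k12, hk⟩ := key
  rw [prob_three a (hpos 0) (hpos 1) (hpos 2) k01 k02 k12,
    max_eq_right (by (clear * - hS t0t; linarith) : 0 ≤ a 0 + a 1 + a 2 - t0)] at hk
  rw [prob_three a (hpos 0) (hpos 1) (hpos 2) h01.le h02.le h12.le,
    max_eq_right (by (clear * - hS; linarith) : 0 ≤ a 0 + a 1 + a 2 - t)]
  have := td_alg hS3 hS t0pos t0t hK (by (clear * - hk; linarith))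
  (clear * - this; linarith)

/-- SP-14. -/
theorem three_dim (a : Fin 3 → ℝ) (ha : ∑ i, a i ^ 2 = 1) {t : ℝ} (ht : 1.02 ≤ t) (ht2 : t ≤ √3) :
    1 - (3 - √3 * t) ^ 3 / 24 ≤ prob a t := by
  have h33 : √3 ^ 2 = 3 := Real.sq_sqrt (by norm_num)
  have hM : 0 ≤ (3 - √3 * t) ^ 3 / 24 := by
    have : 0 ≤ 3 - √3 * t := by (clear * - ht2 h33 ht; nlinarith [Real.sqrt_nonneg 3])
    positivity
  rcases le_or_gt (∑ j, |a j|) t with hS | hS
  · rw [prob_eq_one a hS]
    linarith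
  by_cases hp : ∃ i j, i ≠ j ∧ t ≤ |a i| + |a j|
  · obtain ⟨i, j, hij, hle⟩ := hp
    have hsum : a i ^ 2 + a j ^ 2 ≤ 1 := by
      rw [← ha]
      have := Finset.sum_le_sum_of_subset_of_nonneg
        (Finset.subset_univ ({i, j} : Finset (Fin 3)))
        (f := fun l => a l ^ 2) (fun l _ _ => sq_nonneg _)
      rwa [Finset.sum_pair hij] at this
    have hle2 : t ≤ √2 := by
      refine hle.trans ?_
      apply Real.le_sqrt_of_sq_le
      (clear * - hsum; nlinarith [sq_nonneg (|a i| - |a j|), sq_abs (a i), sq_abs (a j)])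
    exact regionA_vec3 a ha (by (clear * - ht; linarith)) hle2 (ff_nonpos ht hle2) hij hle
  · push Not at hp
    rw [Fin.sum_univ_three] at hS
    rw [← prob_abs]
    refine td_pos (fun j => |a j|) ?_ ht ?_ (hp 0 1 (by decide)) (hp 0 2 (by decide))
      (hp 1 2 (by decide)) hS
    · simp only [sq_abs]; exact ha
    · have q01 := hp 0 1 (by decide)
      have q02 := hp 0 2 (by decide)
      have q12 := hp 1 2 (by decide)
      intro i
      fin_cases i <;> simp only [Fin.zero_eta, Fin.mk_one, Fin.reduceFinMk] <;> (clear * - hS q12 q02 q01; linarith)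

end Pool.Agent.M18.Helper89.SP
end

/- Helper44.SP.RegionA -/
section
/-!
Project SP, module SP-12: two coordinates with sum at least `t`.
-/

set_option autoImplicit false

open MeasureTheory Set Real Pool.Agent.M18.Slab
open Pool.Agent.M18.Helper88.Slab (prob)

namespace Pool.Agent.M18.Helper89.SP

theorem regionA_perm {L L' : List ℝ} (h : L.Perm L') (t : ℝ) : T L t = T L' t := by
  unfold T
  rw [AL_perm h, h.length_eq]

/-- the tail in terms of `prob`, when `prob` is positive -/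
theorem regionA_bridge {n : ℕ} (a : Fin n → ℝ) {t : ℝ} (ht : 0 ≤ t) (hpos : 0 < prob a t) :
    T (List.ofFn a) t = 1 - prob a t := by
  have h1 := Pool.Agent.M18.Slab.volume_slab n a t ht
  rw [Pool.Agent.M18.Helper88.Slab.volume_slab_pi] at h1
  have h2 := congrArg ENNReal.toReal h1
  rw [ENNReal.toReal_mul, ENNReal.toReal_ofReal hpos.le, ENNReal.toReal_ofReal'] at h2
  have h3 : (2 ^ n : ENNReal).toReal = 2 ^ n := by simp
  rw [h3] at h2
  have h4 : (0 : ℝ) < 2 ^ n * prob a t := by positivity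
  have h5 : 2 ^ n * prob a t = 2 ^ n - 2 * AL (List.ofFn a) H t := by
    rcases le_total (2 ^ n - 2 * AL (List.ofFn a) H t) 0 with h | h
    · rw [max_eq_right h] at h2
      linarith
    · rwa [max_eq_left h] at h2
  unfold T
  rw [List.length_ofFn, div_eq_iff (by (clear * -; positivity))]
  (clear * - h5; linarith)

/-- the second case of `FA.direct`, for all `t` up to `√2` -/
theorem regionA_vec {n : ℕ} (a : Fin n → ℝ) (ha : ∑ j, a j ^ 2 = 1) {t : ℝ} (h1 : 1.0129 ≤ t)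
    (h2 : t ≤ √2) (hM2 : FA.ff t ≤ 0) {i j : Fin n} (hij : i ≠ j) (hs : t ≤ |a i| + |a j|) :
    1 - (3 - √3 * t) ^ 3 / 24 ≤ prob a t := by
  obtain ⟨h2a, h2b⟩ := FA.sqrt2_b
  have hsum : a i ^ 2 + a j ^ 2 ≤ 1 := by
    rw [← ha]
    have := Finset.sum_le_sum_of_subset_of_nonneg (Finset.subset_univ ({i, j} : Finset (Fin n)))
      (f := fun l => a l ^ 2) (fun l _ _ => sq_nonneg _)
    rwa [Finset.sum_pair hij] at this
  have hpi : |a i| ≤ 1 := by
    rw [abs_le_one_iff_mul_self_le_one]; (clear * - hsum; nlinarith [sq_nonneg (a j)])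
  have hpj : |a j| ≤ 1 := by
    rw [abs_le_one_iff_mul_self_le_one]; (clear * - hsum; nlinarith [sq_nonneg (a i)])
  have hi : a i ≠ 0 := by
    intro h0; rw [h0, abs_zero] at hs; linarith
  have hj : a j ≠ 0 := by
    intro h0; rw [h0, abs_zero] at hs; linarith
  have hp : 0 < |a i| := abs_pos.mpr hi
  have hq : 0 < |a j| := abs_pos.mpr hj
  obtain ⟨k1, k2⟩ := FA.prob_two a i j hij ha (by linarith) hi hj hs
  rcases FA.algebra_two (t := t) (M := (3 - √3 * t) ^ 3 / 24) h1 h2 rfl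
    (by unfold FA.ff at hM2; (clear * - hM2; linarith)) hp hq (by rw [sq_abs, sq_abs]; exact hsum) hs with h | ⟨z, hz, hz2, h⟩
  · refine le_trans ?_ k1
    rw [sq_abs, sq_abs] at h
    have : (3 * (|a i| + |a j| - t) ^ 2 + (1 - a i ^ 2 - a j ^ 2)) / (12 * (|a i| * |a j|)) ≤
        (3 - √3 * t) ^ 3 / 24 := by
      rw [div_le_iff₀ (by (clear * - hi hj; positivity))]
      (clear * - h; linarith)
    (clear * - this; linarith)
  · rw [sq_abs, sq_abs] at hz2
    refine le_trans ?_ (k2 z hz hz2)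
    have : (z + (|a i| + |a j| - t)) ^ 3 / (24 * (|a i| * |a j|) * z) ≤ (3 - √3 * t) ^ 3 / 24 := by
      rw [div_le_iff₀ (by positivity)]
      linarith
    (clear * - this; linarith)

theorem regionA {L : List ℝ} (_hL : ∀ x ∈ L, 0 ≤ x) (h1 : sq L = 1) {t : ℝ} (ht : 1.02 ≤ t)
    (ht2 : t ≤ √2) {p q : ℝ} {l : List ℝ} (hp : L.Perm (p :: q :: l)) (hpq : t ≤ p + q) :
    T L t ≤ Mf t := by
  have hsq : sq (p :: q :: l) = 1 := by
    rw [← h1]
    unfold sq
    exact (List.Perm.sum_eq (hp.map _)).symm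
  set a : Fin (p :: q :: l).length → ℝ := fun i => (p :: q :: l).get i with ha
  have hof : List.ofFn a = p :: q :: l := List.ofFn_get _
  have hsum : ∑ j, a j ^ 2 = 1 := by
    rw [← hsq]
    unfold sq
    conv_rhs => rw [← hof]
    rw [List.map_ofFn, List.sum_ofFn]
    rfl
  obtain ⟨t₁, h3, h4, h5⟩ := FA.exists_t1
  have hneg := FA.ff_neg (t := t) h3 h5 (by (clear * - ht h3 h4; linarith)) ht2
  have hlen : (p :: q :: l).length = l.length + 2 := by simp
  have h0 : 0 < (p :: q :: l).length := by omega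
  have h01 : 1 < (p :: q :: l).length := by omega
  have key := regionA_vec a hsum (t := t) (by (clear * - ht h3 h4; linarith)) ht2 hneg.le
    (i := ⟨0, h0⟩) (j := ⟨1, h01⟩) (by simp) (by
      have e0 : a ⟨0, h0⟩ = p := by simp [ha]
      have e1 : a ⟨1, h01⟩ = q := by simp [ha]
      rw [e0, e1]
      exact hpq.trans (add_le_add (le_abs_self _) (le_abs_self _)))
  have hM : Mf t < 1 := by
    obtain ⟨h3a, h3b⟩ := FA.sqrt3_b
    have e1 : 3 - √3 * t ≤ 1.3 := by (clear * - ht h3a h3b; nlinarith)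
    have e2 : 0 ≤ 3 - √3 * t := by
      obtain ⟨h2a, h2b⟩ := FA.sqrt2_b
      (clear * - ht2 h3b h2a h2b ht; nlinarith)
    have e3 : (3 - √3 * t) ^ 3 ≤ 1.3 ^ 3 := pow_le_pow_left₀ e2 e1 3
    unfold Mf
    norm_num at e3
    (clear * - h3a h3b e3; linarith)
  rw [regionA_perm hp t, ← hof, regionA_bridge a (by (clear * - ht h3 h4; linarith)) (by unfold Mf at hM; linarith)]
  unfold Mf
  (clear * - key; linarith)

end Pool.Agent.M18.Helper89.SP
end

/- Helper68.SP.Node104 -/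
section
/-!
SP-13a: the node `t = 1.04`, all coordinates at most `0.41`.
-/

set_option autoImplicit false

open MeasureTheory Set Real
open Pool.Agent.M18.Helper88.Slab (prob exp_neg_ge7 exp_neg_le)

namespace Pool.Agent.M18.Helper89.SP

namespace Node104

open Pool.Agent.M18.Helper89.FA Pool.Agent.M18.Helper89.FA.CaseB Pool.Agent.M18.Helper89.FA.TailB

/-- The one-variable inequality at the node `1.04`. -/
theorem node_num {w Q : ℝ} (hw1 : 2.281249 ≤ w) (hw2 : w ≤ 2.281253) (hQ0 : 0 ≤ Q)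
    (hQ1 : Q ≤ 0.875) :
    0.67283 ≤ exp (-(w / 6 + 0.006 * Q)) -
      exp (-(3 / 2 * w + 9 / 20 * Q + 9 / 35 * (Q ^ 2 / w))) / 3 := by
  have hA : (0.6837186 : ℝ) ≤ exp (-(2.281253 / 6)) := by
    have := exp_neg_ge7 (2.281253 / 6) (by norm_num)
    refine le_trans ?_ this
    norm_num
  have hB : exp (-(3 / 2 * (2.281249 : ℝ))) / 3 ≤ 0.0108838 := by
    have h1 := exp_neg_one_lt_d9
    have h2 := exp_neg_le 0.1406245 (by norm_num)
    have h3 : exp (-(3 / 2 * (2.281249 : ℝ))) = exp (-1) ^ 3 * exp (-0.1406245) ^ 3 := by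
      rw [← exp_nat_mul, ← exp_nat_mul, ← exp_add]
      congr 1
      norm_num
    have h4 : exp (-1) ^ 3 ≤ 0.3678794412 ^ 3 := pow_le_pow_left₀ (exp_pos _).le h1.le 3
    have h5 : exp (-0.1406245) ^ 3 ≤
        (1 - 0.1406245 + 0.1406245^2/2 - 0.1406245^3/6 + 0.1406245^4/24) ^ 3 :=
      pow_le_pow_left₀ (exp_pos _).le h2 3
    have h6 : exp (-1) ^ 3 * exp (-0.1406245) ^ 3 ≤ 0.3678794412 ^ 3 *
        (1 - 0.1406245 + 0.1406245^2/2 - 0.1406245^3/6 + 0.1406245^4/24) ^ 3 :=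
      mul_le_mul h4 h5 (by positivity) (by positivity)
    rw [h3]
    have h7 : (0.3678794412 : ℝ) ^ 3 *
        (1 - 0.1406245 + 0.1406245^2/2 - 0.1406245^3/6 + 0.1406245^4/24) ^ 3 / 3 ≤
      0.0108838 := by norm_num
    (clear * - h6; linarith)
  refine node_aux (w1 := 2.281249) (w2 := 2.281253) (A := 0.6837186) (B := 0.0108838)
    (c := 0.1127) hw1 hw2 (by norm_num) hQ0 (by norm_num) hA hB (by norm_num) (by norm_num) ?_
  have hR : 0 ≤ 0.875 - Q := by (clear * - hQ1; linarith)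
  have key : 0.6837186 * (1 - (0.006 * Q) + (0.006 * Q) ^ 2 / 2 - (0.006 * Q) ^ 3 / 6) -
      0.0108838 * (1 - (9 / 20 * Q + 0.1127 * Q ^ 2) + (9 / 20 * Q + 0.1127 * Q ^ 2) ^ 2 / 2 -
        (9 / 20 * Q + 0.1127 * Q ^ 2) ^ 3 / 6 + (9 / 20 * Q + 0.1127 * Q ^ 2) ^ 4 / 24) - 0.67283 =
      (6291456/450375078125) * Q^0 * (0.875-Q)^8 + (120319770624/56296884765625) * Q^1 * (0.875-Q)^7 + (14953470564352/1005301513671875) * Q^2 * (0.875-Q)^6 + (5578676464763448/125662689208984375) * Q^3 * (0.875-Q)^5 + (58499501967189889/804241210937500000) * Q^4 * (0.875-Q)^4 + (567024791572025861/8042412109375000000) * Q^5 * (0.875-Q)^3 + (31181574986667592201103/772071562500000000000000) * Q^6 * (0.875-Q)^2 + (5466329541338182293776261/432360075000000000000000000) * Q^7 * (0.875-Q)^1 + (11513300277869177166779550221/6917761200000000000000000000000) * Q^8 * (0.875-Q)^0 := by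
    ring
  have hpos : 0 ≤ (6291456/450375078125) * Q^0 * (0.875-Q)^8 + (120319770624/56296884765625) * Q^1 * (0.875-Q)^7 + (14953470564352/1005301513671875) * Q^2 * (0.875-Q)^6 + (5578676464763448/125662689208984375) * Q^3 * (0.875-Q)^5 + (58499501967189889/804241210937500000) * Q^4 * (0.875-Q)^4 + (567024791572025861/8042412109375000000) * Q^5 * (0.875-Q)^3 + (31181574986667592201103/772071562500000000000000) * Q^6 * (0.875-Q)^2 + (5466329541338182293776261/432360075000000000000000000) * Q^7 * (0.875-Q)^1 + (11513300277869177166779550221/6917761200000000000000000000000) * Q^8 * (0.875-Q)^0 := by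
    (clear * - hQ0 hQ1; positivity)
  (clear * - hpos; linarith)

/-- The series, keeping the fifth harmonic as a nonnegative term. -/
theorem series_ge3 {n : ℕ} (x : Fin n → ℝ) {e7 e9 F : ℝ}
    (h5 : 0 ≤ ∏ j, sinc (5 * x j))
    (h7 : |∏ j, sinc (7 * x j)| ≤ e7) (h9 : |∏ j, sinc (9 * x j)| ≤ e9)
    (hF : Summable (fun k : ℕ => |∏ j, sinc ((2 * ((k + 5 : ℕ) : ℝ) + 1) * x j)| /
        (2 * ((k + 5 : ℕ) : ℝ) + 1)) ∧
      ∑' k : ℕ, |∏ j, sinc ((2 * ((k + 5 : ℕ) : ℝ) + 1) * x j)| /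
        (2 * ((k + 5 : ℕ) : ℝ) + 1) ≤ F) :
    (∏ j, sinc (x j)) - (∏ j, sinc (3 * x j)) / 3 - (e7 / 7 + e9 / 9 + F) ≤
      ∑' k : ℕ, (-1 : ℝ) ^ k * ((∏ j, sinc ((2 * (k : ℝ) + 1) * x j)) / (2 * (k : ℝ) + 1)) := by
  set f : ℕ → ℝ := fun k => (-1 : ℝ) ^ k *
    ((∏ j, sinc ((2 * (k : ℝ) + 1) * x j)) / (2 * (k : ℝ) + 1)) with hf
  have habs : ∀ k : ℕ, ‖f (k + 5)‖ =
      |∏ j, sinc ((2 * ((k + 5 : ℕ) : ℝ) + 1) * x j)| / (2 * ((k + 5 : ℕ) : ℝ) + 1) := by
    intro k
    rw [hf]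
    simp only [Real.norm_eq_abs, abs_mul, abs_pow, abs_neg, abs_one, one_pow, one_mul, abs_div]
    congr 1
    exact abs_of_pos (by positivity)
  have hs1 : Summable (fun k : ℕ => ‖f (k + 5)‖) := hF.1.congr (fun k => (habs k).symm)
  have hs2 : Summable (fun k : ℕ => f (k + 5)) := hs1.of_norm
  have hs3 : Summable f := (summable_nat_add_iff 5).mp hs2
  have e1 : ∑ k ∈ Finset.range 5, f k + ∑' k, f (k + 5) = ∑' k, f k :=
    hs3.sum_add_tsum_nat_add 5
  have e2 : ‖∑' k, f (k + 5)‖ ≤ ∑' k, ‖f (k + 5)‖ := norm_tsum_le_tsum_norm hs1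
  have e3 : ∑' k, ‖f (k + 5)‖ ≤ F := by
    rw [tsum_congr habs]
    exact hF.2
  have e4 : -F ≤ ∑' k, f (k + 5) := by
    have := neg_abs_le (∑' k, f (k + 5))
    rw [Real.norm_eq_abs] at e2
    (clear * - e2 e3 this; linarith)
  have e5 : ∑ k ∈ Finset.range 5, f k = (∏ j, sinc (x j)) - (∏ j, sinc (3 * x j)) / 3 +
      (∏ j, sinc (5 * x j)) / 5 - (∏ j, sinc (7 * x j)) / 7 + (∏ j, sinc (9 * x j)) / 9 := by
    rw [Finset.sum_range_succ, Finset.sum_range_succ, Finset.sum_range_succ,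
      Finset.sum_range_succ, Finset.sum_range_one, hf]
    norm_num
    ring
  rw [← e1, e5]
  have a7 := le_abs_self (∏ j, sinc (7 * x j))
  have a9 := neg_abs_le (∏ j, sinc (9 * x j))
  (clear * - h5 h7 h9 e4 a7 a9; linarith)

/-- The series at the node. -/
theorem series_104 {n : ℕ} (x : Fin n → ℝ) {w : ℝ} (hw : ∑ j, x j ^ 2 = w)
    (hw1 : 2.281249 ≤ w) (hw2 : w ≤ 2.281253) (hm : ∀ j, |x j| ≤ 0.61926) :
    0.67278 ≤ ∑' k : ℕ, (-1 : ℝ) ^ k *
      ((∏ j, sinc ((2 * (k : ℝ) + 1) * x j)) / (2 * (k : ℝ) + 1)) := by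
  obtain ⟨p1, p2⟩ := pi_b
  have hQ0 : 0 ≤ ∑ j, x j ^ 4 := by positivity
  have hQ1 : ∑ j, x j ^ 4 ≤ 0.875 := by
    refine (Q_small x hw hm).trans ?_
    have : w * (0.61926 : ℝ) ^ 2 ≤ 2.281253 * 0.61926 ^ 2 :=
      mul_le_mul_of_nonneg_right hw2 (by positivity)
    norm_num at this ⊢
    (clear * - hw2 p1 p2; linarith)
  have hw0 : (2.281249 : ℝ) ≤ ∑ j, x j ^ 2 := by rw [hw]; exact hw1
  have h5 : 0 ≤ ∏ j, sinc (5 * x j) := by
    apply Finset.prod_nonneg
    intro j _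
    apply Pool.Agent.M18.Helper88.Slab.sinc_nonneg
    rw [abs_mul]
    norm_num
    (clear * - p1 p2 hm; linarith [hm j])
  have q7 := prod_all x (K := 7) (by norm_num) (c := 0.08) (by norm_num) hw0 hm
    (fun z hz => abs_sinc_435 (by (clear * - p1 p2 hz; linarith)))
  have q9 := prod_all x (K := 9) (by norm_num) (c := 0.045) (by norm_num) hw0 hm
    (fun z hz => abs_sinc_707 (by (clear * - p1 p2 hz; linarith)))
  have e7 : exp (-(0.08 * 7 ^ 2 * 2.281249)) ≤ (0.000133 : ℝ) :=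
    exp_neg_bd 8 (f := 0.9424) (by norm_num) (by norm_num) (by norm_num)
  have e9 : exp (-(0.045 * 9 ^ 2 * 2.281249)) ≤ (0.000246 : ℝ) :=
    exp_neg_bd 8 (f := 0.3151) (by norm_num) (by norm_num) (by norm_num)
  have hfar := far_all x hw0 hm (by (clear * - p1 p2; linarith)) (by norm_num)
  have hfar2 : exp (-(2.281249 / (0.61926 : ℝ) ^ 2 - 3) * log (11 * 0.61926)) /
      (6000 * (0.61926 : ℝ) ^ 3) ≤ 0.0000027 := by
    have hlog : (1.9 : ℝ) ≤ log (11 * 0.61926) := by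
      rw [Real.le_log_iff_exp_le (by norm_num)]
      have : exp (1.9 : ℝ) = exp 1 ^ 2 * exp (-0.1) := by
        rw [← Real.exp_nat_mul, ← Real.exp_add]; norm_num
      rw [this]
      have h9 := Real.exp_one_lt_d9
      have h10 := exp_neg_le 0.1 (by norm_num)
      have h11 : (exp 1) ^ 2 ≤ (2.7182818286 : ℝ) ^ 2 :=
        pow_le_pow_left₀ (exp_pos _).le h9.le 2
      have h12 := mul_le_mul h11 h10 (exp_pos _).le (by positivity)
      refine h12.trans ?_
      norm_num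
    have h1 : exp (-(2.281249 / (0.61926 : ℝ) ^ 2 - 3) * log (11 * 0.61926)) ≤ 0.00371 := by
      have hq : (2.948 : ℝ) ≤ 2.281249 / (0.61926 : ℝ) ^ 2 - 3 := by
        rw [le_sub_iff_add_le, le_div_iff₀ (by norm_num)]
        norm_num
      refine le_trans (Real.exp_le_exp.mpr ?_)
        (exp_neg_bd 5 (a := 5.6012) (f := 0.6012) (by norm_num) (by norm_num) (by norm_num))
      have := mul_le_mul hq hlog (by norm_num) (by (clear * - p1 p2; linarith))
      norm_num at this ⊢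
      (clear * - p1 p2 hlog; linarith)
    rw [div_le_iff₀ (by norm_num)]
    refine h1.trans ?_
    norm_num
  have s := series_ge3 x h5 (q7.trans e7) (q9.trans e9) ⟨hfar.1, hfar.2.trans hfar2⟩
  have a1 := phi0_ge x (c := 0.006) hw (fun j => sinc_ge_a ((hm j).trans (by norm_num)))
  have a2 := phi1_le x hw (by (clear * - hw1 p1 p2; linarith)) (fun j => by
    rw [abs_mul]
    norm_num
    (clear * - p1 p2 hm; linarith [hm j]))
  have a3 := node_num hw1 hw2 hQ0 hQ1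
  norm_num at s ⊢
  (clear * - p1 p2 a1 a2 a3 s; linarith)

lemma exp_small {t : ℝ} (ht : 1.04 ≤ t) : exp (-(27 / 2) * t ^ 2) ≤ 0.0000008 := by
  have h1 : exp (-(27 / 2) * t ^ 2) ≤ exp (-(14.6)) := by
    apply Real.exp_le_exp.mpr
    (clear * - ht; nlinarith)
  exact h1.trans (exp_neg_bd 14 (f := 0.6) (by norm_num) (by norm_num) (by norm_num))

end Node104

open Node104 in
/-- SP-13a. -/
theorem node104 {n : ℕ} (a : Fin n → ℝ) (ha : ∑ j, a j ^ 2 = 1) (h41 : ∀ j, |a j| ≤ 0.41) :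
    1 - (3 - √3 * 1.04) ^ 3 / 24 + 0.00006 ≤ prob a 1.04 := by
  obtain ⟨i, hi, -⟩ := Pool.Agent.M18.Helper89.FA.max_coord a ha
  have hθl : 1.5103807 ≤ π / (2 * 1.04) := by
    rw [le_div_iff₀ (by positivity)]
    (clear * -; nlinarith [Real.pi_gt_d6])
  have hθr : π / (2 * 1.04) ≤ 1.5103813 := by
    rw [div_le_iff₀ (by positivity)]
    nlinarith [Real.pi_lt_d6]
  have e1 : ∑ j, (a j * (π / (2 * 1.04))) ^ 2 = (π / (2 * 1.04)) ^ 2 := by
    simp_rw [mul_pow]
    rw [← Finset.sum_mul, ha, one_mul]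
  have hs := series_104 (fun j => a j * (π / (2 * 1.04))) e1
    (by (clear * - hθl; nlinarith)) (by nlinarith) (fun j => by
      rw [abs_mul, abs_of_pos (by positivity : (0:ℝ) < π / (2 * 1.04))]
      have := h41 j
      have h0 := abs_nonneg (a j)
      (clear * - hθr this hθl; nlinarith))
  have h3 := Pool.Agent.M18.Helper89.FA.wave_lower a ha hi (by norm_num) hs
  refine le_trans ?_ h3
  have h4 := Node104.exp_small (le_refl (1.04 : ℝ))
  have h5 : 0.63661968 ≤ 2 / π := by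
    rw [le_div_iff₀ Real.pi_pos]
    (clear * -; nlinarith [Real.pi_lt_d6])
  obtain ⟨h3a, h3b⟩ := Pool.Agent.M18.Helper89.FA.sqrt3_b
  have h6 : 1.198667 ≤ 3 - √3 * 1.04 := by (clear * - h3a h3b; linarith)
  have h7 : (1.198667:ℝ) ^ 3 ≤ (3 - √3 * 1.04) ^ 3 := pow_le_pow_left₀ (by norm_num) h6 3
  norm_num at h7 h4 ⊢
  (clear * - h5 h3a h3b h7 h4; nlinarith)

end Pool.Agent.M18.Helper89.SP
end

/- Helper91.SP.SmallCoords -/
section
/-!
Project SP, module SP-13b: small coordinates, `t ≤ 1.04`.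
-/

set_option autoImplicit false

open MeasureTheory Set Real Pool.Agent.M18.Slab
open Pool.Agent.M18.Helper88.Slab (prob)

namespace Pool.Agent.M18.Helper89.SP

theorem chord104 {t l : ℝ} (hl0 : 0 ≤ l) (hl1 : l ≤ 1) (ht : t = (1 - l) * 1.02 + l * 1.04) :
    (1 - l) * ((3 - √3 * 1.02) ^ 3 / 24 - 0.00004) + l * ((3 - √3 * 1.04) ^ 3 / 24 - 0.00006) ≤
      (3 - √3 * t) ^ 3 / 24 := by
  obtain ⟨h3a, h3b⟩ := FA.sqrt3_b
  have h33 : √3 ^ 2 = 3 := Real.sq_sqrt (by norm_num)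
  obtain ⟨y0, hy0⟩ : ∃ y, y = 3 - √3 * 1.02 := ⟨_, rfl⟩
  obtain ⟨y1, hy1⟩ : ∃ y, y = 3 - √3 * 1.04 := ⟨_, rfl⟩
  have hy : 3 - √3 * t = (1 - l) * y0 + l * y1 := by rw [ht, hy0, hy1]; ring
  rw [hy, ← hy0, ← hy1]
  have key : (1 - l) * y0 ^ 3 + l * y1 ^ 3 - ((1 - l) * y0 + l * y1) ^ 3 =
      l * (1 - l) * ((y0 - y1) ^ 2 * ((2 - l) * y0 + (1 + l) * y1)) := by ring
  have d1 : y0 - y1 = √3 * 0.02 := by rw [hy0, hy1]; ring
  have d2 : (y0 - y1) ^ 2 = 0.0012 := by
    rw [d1, mul_pow, h33]; norm_num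
  have b0 : y0 ≤ 1.2334 := by rw [hy0]; (clear * - h3a h3b; linarith)
  have b1 : y1 ≤ 1.2 := by rw [hy1]; (clear * - h3a h3b; linarith)
  have h4 : (2 - l) * y0 + (1 + l) * y1 ≤ 3.7002 := by (clear * - hl0 h3a h3b hy0 hy1; nlinarith)
  rw [d2] at key
  have hll : 0 ≤ l * (1 - l) := mul_nonneg hl0 (by (clear * - hl1; linarith))
  have h6 : l * (1 - l) * (0.0012 * ((2 - l) * y0 + (1 + l) * y1)) ≤
      l * (1 - l) * (0.0012 * 3.7002) :=
    mul_le_mul_of_nonneg_left (by (clear * - h4; linarith)) hll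
  have h7 : l * (1 - l) * (0.0012 * 3.7002) ≤ 24 * ((1 - l) * 0.00004 + l * 0.00006) := by
    (clear * - hl0 h3a h3b; nlinarith [sq_nonneg (l - 0.446)])
  (clear * - key h6 h7; linarith)

theorem small_coords {L : List ℝ} (hL : ∀ x ∈ L, 0 ≤ x) (h1 : sq L = 1) (h41 : ∀ x ∈ L, x ≤ 0.41)
    {t : ℝ} (ht : 1.02 ≤ t) (ht2 : t ≤ 1.04) : T L t ≤ Mf t := by
  obtain ⟨a, ha, hs⟩ := exists_vec L
  rw [h1] at hs
  have hmem : ∀ j, a j ∈ L := by
    intro j
    have : a j ∈ List.ofFn a := List.mem_ofFn.2 ⟨j, rfl⟩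
    rwa [ha] at this
  have habs : ∀ j, |a j| ≤ 0.41 := by
    intro j
    rw [abs_of_nonneg (hL _ (hmem j))]
    exact h41 _ (hmem j)
  rw [← ha, T_ofFn a (by (clear * - ht; linarith))]
  have k3 := FA.node2 a hs (fun j => lt_of_le_of_lt (habs j) (by norm_num))
    (fun j k _ => by have := habs j; have := habs k; norm_num at *; linarith)
  have k2 := node104 a hs habs
  obtain ⟨i, hi, -⟩ := FA.max_coord a hs
  obtain ⟨l, hl⟩ : ∃ l, l = (t - 1.02) / 0.02 := ⟨_, rfl⟩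
  have hl0 : 0 ≤ l := by rw [hl]; apply div_nonneg <;> (clear * - ht; linarith)
  have hl1 : l ≤ 1 := by rw [hl, div_le_one (by norm_num)]; (clear * - ht2; linarith)
  have htl : t = (1 - l) * 1.02 + l * 1.04 := by rw [hl]; ring
  have k1 := FA.prob_concave a i hi (t := 1.02) (t' := 1.04) (by norm_num) (by norm_num) hl0 hl1
  rw [← htl] at k1
  have k4 := chord104 hl0 hl1 htl
  have k5 : (1 - l) * (1 - (3 - √3 * 1.02) ^ 3 / 24 + 0.00004) ≤ (1 - l) * prob a 1.02 :=
    mul_le_mul_of_nonneg_left k3 (by (clear * - hl1; linarith))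
  have k6 : l * (1 - (3 - √3 * 1.04) ^ 3 / 24 + 0.00006) ≤ l * prob a 1.04 :=
    mul_le_mul_of_nonneg_left k2 hl0
  unfold Mf
  linarith

end Pool.Agent.M18.Helper89.SP
end

/- Helper91.SP.Cross45 -/
section
/-!
Project SP, module SP-15c: crossing for `n = 4, 5`, and `T_n ≤ M` on `[1.02, 1.04]`.
-/

set_option autoImplicit false

open MeasureTheory Set Real Pool.Agent.M18.Slab

namespace Pool.Agent.M18.Helper89.SP

namespace Cross

theorem mono_aux {D D' : ℝ → ℝ} {a b : ℝ} (h : ∀ t, HasDerivAt D (D' t) t)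
    (h0 : ∀ t, a ≤ t → t ≤ b → 0 ≤ D' t) {s t : ℝ} (hs : a ≤ s) (hst : s ≤ t) (ht : t ≤ b) :
    D s ≤ D t := by
  have hm : MonotoneOn D (Icc a b) := by
    refine monotoneOn_of_deriv_nonneg (convex_Icc a b)
      (fun x _ => (h x).continuousAt.continuousWithinAt)
      (fun x _ => (h x).differentiableAt.differentiableWithinAt) ?_
    intro x hx
    rw [interior_Icc] at hx
    rw [(h x).deriv]
    exact h0 x hx.1.le hx.2.le
  exact hm ⟨hs, by linarith⟩ ⟨by linarith, ht⟩ hst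

lemma sqrt5_b : 2.236067 < √5 ∧ √5 < 2.236068 := by
  constructor
  · apply Real.lt_sqrt_of_sq_lt; norm_num
  · rw [Real.sqrt_lt' (by norm_num)]; norm_num

theorem hasDerivAt_Mf (t : ℝ) : HasDerivAt Mf (-(√3 / 8 * (3 - √3 * t) ^ 2)) t := by
  have h1 : HasDerivAt (fun t : ℝ => 3 - √3 * t) (-√3) t := by
    have := ((hasDerivAt_id t).const_mul √3).const_sub 3
    simpa using this
  have h2 := (h1.pow 3).div_const 24
  refine h2.congr_deriv ?_
  push_cast
  ring

theorem hasDerivAt_T4 (t : ℝ) : HasDerivAt T4 (-((2 - t) ^ 3 / 3)) t := by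
  have h1 : HasDerivAt (fun t : ℝ => 2 - t) (-1) t := by
    simpa using (hasDerivAt_id t).const_sub 2
  have h2 := (h1.pow 4).div_const 12
  refine h2.congr_deriv ?_
  push_cast
  ring

/-- the polynomial value of `T5` -/
noncomputable def T5p (t : ℝ) : ℝ := ((5 - √5 * t) ^ 5 - 5 * (3 - √5 * t) ^ 5) / 1920

theorem T5_eq {t : ℝ} (ht : t ≤ 1.3) : T5 t = T5p t := by
  obtain ⟨ha, hb⟩ := sqrt5_b
  unfold T5 T5p
  rw [max_eq_left]
  nlinarith

theorem hasDerivAt_T5p (t : ℝ) :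
    HasDerivAt T5p (-(√5 * 5 * ((5 - √5 * t) ^ 4 - 5 * (3 - √5 * t) ^ 4) / 1920)) t := by
  have h1 : ∀ c : ℝ, HasDerivAt (fun t : ℝ => c - √5 * t) (-√5) t := by
    intro c
    have := ((hasDerivAt_id t).const_mul √5).const_sub c
    simpa using this
  have h2 := (((h1 5).pow 5).sub (((h1 3).pow 5).const_mul 5)).div_const 1920
  refine h2.congr_deriv ?_
  push_cast
  ring

theorem M_tangent (t : ℝ) (h1 : t ≤ 1.1) (h0 : 1.02 ≤ t) :
    0.2933 - 0.8731 * (t - 1.06) - 0.0001 ≤ √3 / 8 * (3 - √3 * t) ^ 2 := by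
  obtain ⟨h3a, h3b⟩ := FA.sqrt3_b
  have h33 : √3 ^ 2 = 3 := Real.sq_sqrt (by norm_num)
  have h2 : 2 * 1.164 * (3 - √3 * t) - 1.164 ^ 2 ≤ (3 - √3 * t) ^ 2 := by
    (clear * -; nlinarith [sq_nonneg (3 - √3 * t - 1.164)])
  have h3 : √3 / 8 * (2 * 1.164 * (3 - √3 * t) - 1.164 ^ 2) ≤ √3 / 8 * (3 - √3 * t) ^ 2 :=
    mul_le_mul_of_nonneg_left h2 (by (clear * -; positivity))
  refine le_trans ?_ h3
  have h4 : √3 / 8 * (2 * 1.164 * (3 - √3 * t) - 1.164 ^ 2) =
    √3 / 8 * (2 * 1.164 * 3 - 1.164 ^ 2) - 2 * 1.164 * 3 / 8 * t := by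
    have : √3 / 8 * (2 * 1.164 * (3 - √3 * t) - 1.164 ^ 2) =
      √3 / 8 * (2 * 1.164 * 3 - 1.164 ^ 2) - 2 * 1.164 * √3 ^ 2 / 8 * t := by ring
    rw [this, h33]
  rw [h4]
  (clear * - h0 h3a h3b; linarith)

theorem four_le (t : ℝ) (h0 : 1.02 ≤ t) (h1 : t ≤ 1.1) :
    (2 - t) ^ 3 / 3 ≤ √3 / 8 * (3 - √3 * t) ^ 2 := by
  refine le_trans ?_ (M_tangent t h1 h0)
  have h2 : (2 - t) ^ 3 ≤ 0.729 + 2.6525 * (1.1 - t) := by
    have h3 : 0 ≤ (1.1 - t) * (t - 1.02) := mul_nonneg (by (clear * - h1; linarith)) (by (clear * - h0; linarith))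
    (clear * - h1 h3; nlinarith [mul_nonneg h3 (by linarith : (0:ℝ) ≤ 2 - t)])
  linarith

theorem five_le (t : ℝ) (h0 : 1.02 ≤ t) (h1 : t ≤ 1.1) :
    √5 * 5 * ((5 - √5 * t) ^ 4 - 5 * (3 - √5 * t) ^ 4) / 1920 ≤ √3 / 8 * (3 - √3 * t) ^ 2 := by
  refine le_trans ?_ (M_tangent t h1 h0)
  obtain ⟨ha, hb⟩ := sqrt5_b
  obtain ⟨y, hy⟩ : ∃ y, y = 5 - √5 * t := ⟨_, rfl⟩
  have hy3 : 3 - √5 * t = y - 2 := by rw [hy]; ring
  rw [hy3, ← hy]
  have y0 : 2.54 ≤ y := by rw [hy]; (clear * - h1 ha hb h0; nlinarith)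
  have y1 : y ≤ 2.72 := by rw [hy]; (clear * - h0 ha hb; nlinarith)
  have h2 : y ^ 4 - 5 * (y - 2) ^ 4 ≤ 41.198 + 67.749 * (y - 2.54) := by
    have h3 : 0 ≤ (2.72 - y) * (y - 2.54) := mul_nonneg (by (clear * - y1; linarith)) (by (clear * - y0; linarith))
    nlinarith [mul_nonneg h3 (by (clear * - ha hb y0; linarith) : (0:ℝ) ≤ y - 2), mul_nonneg h3 (by (clear * - y1; linarith) : (0:ℝ) ≤ 2.72 - y), mul_nonneg h3 (mul_nonneg (by (clear * - ha hb y0; linarith) : (0:ℝ) ≤ y - 2) (by (clear * - ha hb y1; linarith) : (0:ℝ) ≤ 3 - y))]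
  have h4 : √5 * 5 * (y ^ 4 - 5 * (y - 2) ^ 4) / 1920 ≤
      2.236068 * 5 * (41.198 + 67.749 * (y - 2.54)) / 1920 := by
    have h5 : 0 ≤ 41.198 + 67.749 * (y - 2.54) := by (clear * - ha hb y0; linarith)
    have h6 : √5 * (y ^ 4 - 5 * (y - 2) ^ 4) ≤ 2.236068 * (41.198 + 67.749 * (y - 2.54)) :=
      le_trans (mul_le_mul_of_nonneg_left h2 (by positivity))
        (mul_le_mul_of_nonneg_right hb.le h5)
    (clear * - h6; linarith)
  refine le_trans h4 ?_
  have h7 : y ≤ 5 - 2.236067 * t := by rw [hy]; (clear * - ha h0; nlinarith)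
  (clear * - h0 ha hb h7; linarith)

/-- the difference for `n = 4` is increasing -/
theorem mono4 {s t : ℝ} (hs : 1.02 ≤ s) (hst : s ≤ t) (ht : t ≤ 1.1) :
    T4 s - Mf s ≤ T4 t - Mf t := by
  refine mono_aux (D := fun t => T4 t - Mf t)
    (D' := fun t => -((2 - t) ^ 3 / 3) - (-(√3 / 8 * (3 - √3 * t) ^ 2)))
    (fun t => (hasDerivAt_T4 t).sub (hasDerivAt_Mf t)) ?_ hs hst ht
  intro t h0 h1
  have := four_le t h0 h1
  show 0 ≤ -((2 - t) ^ 3 / 3) - (-(√3 / 8 * (3 - √3 * t) ^ 2))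
  (clear * - this; linarith)

/-- the difference for `n = 5` is increasing -/
theorem mono5 {s t : ℝ} (hs : 1.02 ≤ s) (hst : s ≤ t) (ht : t ≤ 1.1) :
    T5 s - Mf s ≤ T5 t - Mf t := by
  rw [T5_eq (by (clear * - hst ht; linarith)), T5_eq (by (clear * - ht; linarith))]
  refine mono_aux (D := fun t => T5p t - Mf t)
    (D' := fun t => -(√5 * 5 * ((5 - √5 * t) ^ 4 - 5 * (3 - √5 * t) ^ 4) / 1920) -
      (-(√3 / 8 * (3 - √3 * t) ^ 2)))
    (fun t => (hasDerivAt_T5p t).sub (hasDerivAt_Mf t)) ?_ hs hst ht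
  intro t h0 h1
  have := five_le t h0 h1
  show 0 ≤ -(√5 * 5 * ((5 - √5 * t) ^ 4 - 5 * (3 - √5 * t) ^ 4) / 1920) -
      (-(√3 / 8 * (3 - √3 * t) ^ 2))
  (clear * - this; linarith)

theorem at104_4 : T4 1.04 < Mf 1.04 := by
  obtain ⟨h3a, h3b⟩ := FA.sqrt3_b
  unfold T4 Mf
  have h1 : 1.198 ≤ 3 - √3 * 1.04 := by linarith
  have h2 : (1.198 : ℝ) ^ 3 ≤ (3 - √3 * 1.04) ^ 3 := pow_le_pow_left₀ (by norm_num) h1 3
  norm_num at h2 ⊢
  linarith

theorem at104_5 : T5 1.04 < Mf 1.04 := by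
  obtain ⟨h3a, h3b⟩ := FA.sqrt3_b
  obtain ⟨ha, hb⟩ := sqrt5_b
  rw [T5_eq (by norm_num)]
  unfold T5p Mf
  have h1 : 1.1986 ≤ 3 - √3 * 1.04 := by linarith
  have h2 : (1.1986 : ℝ) ^ 3 ≤ (3 - √3 * 1.04) ^ 3 := pow_le_pow_left₀ (by norm_num) h1 3
  have h3 : 5 - √5 * 1.04 ≤ 2.6745 := by (clear * - h3a h3b ha; linarith)
  have h30 : 0 ≤ 5 - √5 * 1.04 := by (clear * - h3a h3b hb; linarith)
  have h4 : (5 - √5 * 1.04) ^ 5 ≤ 2.6745 ^ 5 := pow_le_pow_left₀ h30 h3 5
  have h5 : 0.6744 ≤ 3 - √5 * 1.04 := by (clear * - h3a h3b hb; linarith)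
  have h6 : (0.6744 : ℝ) ^ 5 ≤ (3 - √5 * 1.04) ^ 5 := pow_le_pow_left₀ (by norm_num) h5 5
  norm_num at h2 h4 h6 ⊢
  linarith

theorem Tn4 {t : ℝ} (h0 : 1 ≤ t) (h1 : t ≤ 2) : Tn 4 t = T4 t := by
  have := T_f4 (k := 0) h0 h1
  rw [List.replicate_zero, List.append_nil] at this
  unfold Tn
  push_cast
  exact this

theorem Tn5 {t : ℝ} (h0 : 1 ≤ t) (h1 : t ≤ √5) : Tn 5 t = T5 t := by
  have := T_f5 (k := 0) h0 h1
  rw [List.replicate_zero, List.append_nil] at this
  unfold Tn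
  push_cast
  exact this

end Cross

open Cross

theorem crossing_45 {n : ℕ} (hn : n = 4 ∨ n = 5) {s t : ℝ} (hs : 1.04 ≤ s) (hst : s ≤ t)
    (ht : t ≤ 1.1) (h : Mf s ≤ Tn n s) : Mf t ≤ Tn n t := by
  obtain ⟨ha, hb⟩ := sqrt5_b
  rcases hn with rfl | rfl
  · rw [Tn4 (by (clear * - hs ha hb hst; linarith)) (by (clear * - hst ht ha hb; linarith))] at h ⊢
    have := mono4 (by linarith) hst ht
    (clear * - h this; linarith)
  · rw [Tn5 (by linarith) (by (clear * - hst ht ha hb; linarith))] at h ⊢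
    have := mono5 (by (clear * - hs ha hb; linarith)) hst ht
    (clear * - h this; linarith)

theorem sq_replicate {n : ℕ} (hn : 1 ≤ n) : sq (List.replicate n (1 / √(n : ℝ))) = 1 := by
  unfold sq
  rw [List.map_replicate, List.sum_replicate, nsmul_eq_mul, div_pow, one_pow,
    Real.sq_sqrt (Nat.cast_nonneg n)]
  have : (n : ℝ) ≠ 0 := by (clear * - hn; positivity)
  field_simp

theorem Tn_le {n : ℕ} (hn : 4 ≤ n) {t : ℝ} (ht : 1.02 ≤ t) (ht2 : t ≤ 1.04) : Tn n t ≤ Mf t := by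
  obtain ⟨ha, hb⟩ := sqrt5_b
  rcases eq_or_lt_of_le hn with rfl | hn4
  · rw [Tn4 (by (clear * - ht ha hb; linarith)) (by (clear * - ht2 ha hb; linarith))]
    have h1 := mono4 ht ht2 (by norm_num)
    have h2 := at104_4
    (clear * - h1 h2; linarith)
  rcases eq_or_lt_of_le (show 5 ≤ n by omega) with rfl | hn5
  · rw [Tn5 (by (clear * - ht ha hb; linarith)) (by linarith)]
    have h1 := mono5 ht ht2 (by norm_num)
    have h2 := at104_5
    (clear * - h1 h2; linarith)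
  have hn6 : 6 ≤ n := by omega
  have h6 : (6 : ℝ) ≤ n := by exact_mod_cast hn6
  unfold Tn
  refine small_coords ?_ (sq_replicate (by omega)) ?_ ht ht2
  · intro x hx
    rw [List.eq_of_mem_replicate hx]
    positivity
  · intro x hx
    rw [List.eq_of_mem_replicate hx, div_le_iff₀ (by positivity)]
    have h7 : 2.44 ≤ √(n : ℝ) := by
      apply Real.le_sqrt_of_sq_le
      norm_num
      (clear * - ha hb h6; linarith)
    (clear * - ha hb h7; linarith)

end Pool.Agent.M18.Helper89.SP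
end
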