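import Mathlib
import Pool.Agent.Helper53.AM.G03
import Pool.Agent.Helper53.AM.G26
import Pool.Agent.Helper53.AM.G28

/- Helper23.X2.Bounds -/
section
/-!
Two-sided bounds for the probability of a diagonal slab, by the square wave.
-/

set_option autoImplicit false

open MeasureTheory Set Real
open Pool.Agent.M18.Helper88.Slab (prob ind cube)
open Pool.Agent.M18.Helper89.FA

namespace Pool.Agent.M18.Helper23.X2

/-- The series is at most its first two terms plus the tail. -/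
theorem series_le {n : ℕ} (x : Fin n → ℝ) {T : ℝ}
    (hs : Summable (fun k : ℕ =>
      |∏ j, sinc ((2 * ((k + 2 : ℕ) : ℝ) + 1) * x j)| / (2 * ((k + 2 : ℕ) : ℝ) + 1)))
    (hT : ∑' k : ℕ, |∏ j, sinc ((2 * ((k + 2 : ℕ) : ℝ) + 1) * x j)| /
      (2 * ((k + 2 : ℕ) : ℝ) + 1) ≤ T) :
    ∑' k : ℕ, (-1 : ℝ) ^ k * ((∏ j, sinc ((2 * (k : ℝ) + 1) * x j)) / (2 * (k : ℝ) + 1)) ≤
    (∏ j, sinc (x j)) - (∏ j, sinc (3 * x j)) / 3 + T := by
  set f : ℕ → ℝ := fun k => (-1 : ℝ) ^ k *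
    ((∏ j, sinc ((2 * (k : ℝ) + 1) * x j)) / (2 * (k : ℝ) + 1)) with hf
  have habs : ∀ k : ℕ, ‖f (k + 2)‖ =
      |∏ j, sinc ((2 * ((k + 2 : ℕ) : ℝ) + 1) * x j)| / (2 * ((k + 2 : ℕ) : ℝ) + 1) := by
    intro k
    rw [hf]
    simp only [Real.norm_eq_abs, abs_mul, abs_pow, abs_neg, abs_one, one_pow, one_mul, abs_div]
    congr 1
    exact abs_of_pos (by positivity)
  have hs1 : Summable (fun k : ℕ => ‖f (k + 2)‖) := hs.congr (fun k => (habs k).symm)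
  have hs2 : Summable (fun k : ℕ => f (k + 2)) := hs1.of_norm
  have hs3 : Summable f := (summable_nat_add_iff 2).mp hs2
  have e1 : ∑ k ∈ Finset.range 2, f k + ∑' k, f (k + 2) = ∑' k, f k :=
    hs3.sum_add_tsum_nat_add 2
  have e2 : ‖∑' k, f (k + 2)‖ ≤ ∑' k, ‖f (k + 2)‖ := norm_tsum_le_tsum_norm hs1
  have e3 : ∑' k, ‖f (k + 2)‖ ≤ T := by
    rw [tsum_congr habs]
    exact hT
  have e4 : ∑' k, f (k + 2) ≤ T := by
    have := le_abs_self (∑' k, f (k + 2))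
    rw [Real.norm_eq_abs] at e2
    (clear * - e2 e3 this; linarith)
  have e5 : ∑ k ∈ Finset.range 2, f k = (∏ j, sinc (x j)) - (∏ j, sinc (3 * x j)) / 3 := by
    rw [Finset.sum_range_succ, Finset.sum_range_one, hf]
    norm_num
    ring
  rw [← e1, e5]
  (clear * - e4; linarith)

/-- The indicator is below the square wave. -/
theorem prob_le_wave {n : ℕ} (a : Fin n → ℝ) (i : Fin n) (hi : a i ≠ 0) {t : ℝ} (ht : 0 < t) :
    prob a t ≤ ∫ x, (if 0 < cos (π / (2 * t) * ∑ j, a j * x j) then (1 : ℝ) else 0) ∂(cube n) := by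
  set W : ℝ := ∫ x, (if 0 < cos (π / (2 * t) * ∑ j, a j * x j) then (1 : ℝ) else 0) ∂(cube n) with hW
  have hW0 : 0 ≤ W := by
    apply integral_nonneg
    intro x
    simp only
    split_ifs <;> simp
  have hw : Integrable (fun x : Fin n → ℝ => (if 0 < cos (π / (2 * t) * ∑ j, a j * x j) then (1 : ℝ) else 0))
      (cube n) := by
    refine Integrable.of_bound ?_ 1 ?_
    · refine (Measurable.ite ?_ measurable_const measurable_const).aestronglyMeasurable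
      exact measurableSet_lt measurable_const (by fun_prop)
    · filter_upwards with x
      split_ifs <;> simp
  have key : ∀ s : ℝ, 0 < s → s < t → prob a t * s ≤ W * t := by
    intro s hs hst
    have h1 : prob a s ≤ W := by
      rw [hW]
      unfold prob
      refine integral_mono (Pool.Agent.M18.Helper88.Slab.ind_integrable_cube s a) hw (fun x => ?_)
      simp only
      set z : ℝ := ∑ j, a j * x j with hz
      unfold ind
      split_ifs with h2 h3 h3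
      · exact le_refl _
      · exfalso
        apply h3
        have h4 := abs_le.mp (h2.trans hst.le)
        have h5 : |z| < t := lt_of_le_of_lt h2 hst
        have h6 := abs_lt.mp h5
        have hp := Real.pi_pos
        apply Real.cos_pos_of_mem_Ioo
        constructor
        · rw [div_mul_eq_mul_div, lt_div_iff₀ (by positivity)]
          (clear * - h6 hp; nlinarith)
        · rw [div_mul_eq_mul_div, div_lt_iff₀ (by positivity)]
          (clear * - h6 hp; nlinarith)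
      · norm_num
      · exact le_refl _
    have h2 := Pool.Agent.M18.Helper88.Slab.prob_mono a i hi hs hst.le
    rw [div_le_div_iff₀ ht hs] at h2
    exact h2.trans (mul_le_mul_of_nonneg_right h1 ht.le)
  by_contra hcon
  push Not at hcon
  have hP : 0 < prob a t := lt_of_le_of_lt hW0 hcon
  have h1 := key (t * (W + prob a t) / (2 * prob a t)) (by (clear * - ht hP; positivity)) (by
    rw [div_lt_iff₀ (by positivity)]
    (clear * - ht hcon; nlinarith))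
  have h2 : prob a t * (t * (W + prob a t) / (2 * prob a t)) = t * (W + prob a t) / 2 := by
    field_simp
  rw [h2] at h1
  (clear * - h1 ht hcon; nlinarith)

/-- Tail of the series for the diagonal. -/
theorem tail {n : ℕ} (hn : 6 ≤ n) {x w c7 : ℝ} (hx : (n : ℝ) * x ^ 2 = w) (hw0 : 1 ≤ w)
    (hw1 : w ≤ 2.2) (hc7 : 0 ≤ c7)
    (h7 : ∀ z : ℝ, |z| ≤ 7 * √(w / 6) → |sinc z| ≤ exp (-(c7 * z ^ 2))) :
    Summable (fun k : ℕ => |∏ _j : Fin n, sinc ((2 * ((k + 2 : ℕ) : ℝ) + 1) * x)| /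
      (2 * ((k + 2 : ℕ) : ℝ) + 1)) ∧
    ∑' k : ℕ, |∏ _j : Fin n, sinc ((2 * ((k + 2 : ℕ) : ℝ) + 1) * x)| /
      (2 * ((k + 2 : ℕ) : ℝ) + 1) ≤
      exp (-(1 / 6 * 5 ^ 2 * w)) / 5 + exp (-(c7 * 7 ^ 2 * w)) / 7 +
      exp (-(0.064 * 9 ^ 2 * w)) / 9 + 1 / (36972 * w ^ 3) := by
  have hm2 : √(w / 6) ^ 2 = w / 6 := Real.sq_sqrt (by (clear * - hw0; linarith))
  set m : ℝ := √(w / 6) with hm
  have hm0 : 0 ≤ m := Real.sqrt_nonneg _
  have hn' : (6 : ℝ) ≤ (n : ℝ) := by exact_mod_cast hn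
  have hsum : ∑ _j : Fin n, x ^ 2 = w := by simp [hx]
  have hxm : |x| ≤ m := by
    apply abs_le_of_sq_le_sq _ hm0
    rw [hm2]
    (clear * - hx hn'; nlinarith [sq_nonneg x])
  have hml : 0.4 ≤ m := by
    by_contra h
    push Not at h
    (clear * - hw0 hm2 h hm0; nlinarith)
  have hmu : m ≤ 0.6056 := by
    by_contra h
    push Not at h
    nlinarith
  have hp1 := Real.pi_gt_d6
  have hp2 := Real.pi_lt_d6
  have hfar := far_all (fun _ : Fin n => x) (w := w) (m := m) hsum.ge (fun _ => hxm)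
    (by (clear * - hml hp1 hp2; linarith)) (by (clear * - hw0 hm2 hp1 hp2; nlinarith))
  have hlast : exp (-(w / m ^ 2 - 3) * log (11 * m)) / (6000 * m ^ 3) ≤ 1 / (36972 * w ^ 3) := by
    have e1 : w / m ^ 2 = 6 := by
      rw [hm2]
      field_simp
    have h11 : 0 < 11 * m := by (clear * - hml hp1 hp2; linarith)
    have e2 : exp (-(w / m ^ 2 - 3) * log (11 * m)) = 1 / (11 * m) ^ 3 := by
      rw [e1, show (-(6 - 3 : ℝ) * log (11 * m)) = -(((3 : ℕ) : ℝ) * log (11 * m)) by push_cast; ring,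
        Real.exp_neg, Real.exp_nat_mul, Real.exp_log h11, one_div]
    rw [e2, div_div]
    have e3 : (11 * m) ^ 3 * (6000 * m ^ 3) = 7986000 * (w / 6) ^ 3 := by
      rw [← hm2]
      ring
    rw [e3]
    apply one_div_le_one_div_of_le (by positivity)
    have : 0 < w ^ 3 := by positivity
    (clear * - this; nlinarith)
  have h5 := TailB.prod_all (fun _ : Fin n => x) (K := 5) (m := m) (c := 1 / 6) (r := w)
    (by norm_num) (by norm_num) hsum.ge (fun _ => hxm) (fun z hz => by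
      have := abs_sinc_357 (z := z) (by (clear * - hmu hp1 hp2 hz; linarith))
      rw [show (1 / 6 * z ^ 2 : ℝ) = z ^ 2 / 6 by ring]
      exact this)
  have h7' := TailB.prod_all (fun _ : Fin n => x) (K := 7) (m := m) (c := c7) (r := w)
    (by norm_num) hc7 hsum.ge (fun _ => hxm) h7
  have h9 := TailB.prod_all (fun _ : Fin n => x) (K := 9) (m := m) (c := 0.064) (r := w)
    (by norm_num) (by norm_num) hsum.ge (fun _ => hxm) (fun z hz => abs_sinc_550 (by (clear * - hmu hp1 hp2 hz; linarith)))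
  obtain ⟨s1, s2⟩ := TailB.split3 (fun _ : Fin n => x) h5 h7' h9 ⟨hfar.1, hfar.2.trans hlast⟩
  exact ⟨s1, s2⟩

section

variable {n : ℕ} {c : ℝ}

lemma n_mul {w : ℝ} (hc : (n : ℝ) * c ^ 2 = 1) {x : ℝ} (hx : x ^ 2 = w * c ^ 2) (α β γ δ : ℝ) :
    (n : ℝ) * (α * x ^ 2 + β * x ^ 4 + γ * x ^ 6 + δ * x ^ 8) =
      α * w + β * (w ^ 2 * c ^ 2) + γ * (w ^ 3 * (c ^ 2) ^ 2) + δ * (w ^ 4 * (c ^ 2) ^ 3) := by
  have e2 : x ^ 4 = (w * c ^ 2) ^ 2 := by rw [← hx]; ring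
  have e3 : x ^ 6 = (w * c ^ 2) ^ 3 := by rw [← hx]; ring
  have e4 : x ^ 8 = (w * c ^ 2) ^ 4 := by rw [← hx]; ring
  rw [e2, e3, e4, hx]
  have : (n : ℝ) * (α * (w * c ^ 2) + β * (w * c ^ 2) ^ 2 + γ * (w * c ^ 2) ^ 3 + δ * (w * c ^ 2) ^ 4)
    = ((n : ℝ) * c ^ 2) * (α * w + β * (w ^ 2 * c ^ 2) + γ * (w ^ 3 * (c ^ 2) ^ 2) +
      δ * (w ^ 4 * (c ^ 2) ^ 3)) := by ring
  rw [this, hc, one_mul]

lemma pow_le {w : ℝ} (hc : (n : ℝ) * c ^ 2 = 1) {x : ℝ} (hx : x ^ 2 = w * c ^ 2) (hp : |x| ≤ π) :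
    sinc x ^ n ≤ exp (-(w / 6 + w ^ 2 * c ^ 2 / 180 + w ^ 3 * (c ^ 2) ^ 2 / 2835)) := by
  have h0 : 0 ≤ sinc x := Pool.Agent.M18.Helper88.Slab.sinc_nonneg hp
  have h1 := pow_le_pow_left₀ h0 (sinc_le6 hp) n
  refine h1.trans (le_of_eq ?_)
  rw [← Real.exp_nat_mul]
  congr 1
  have := n_mul hc hx (1 / 6) (1 / 180) (1 / 2835) 0
  linarith

lemma pow_ge {w : ℝ} (hc : (n : ℝ) * c ^ 2 = 1) {x : ℝ} (hx : x ^ 2 = w * c ^ 2) (hp : |x| ≤ 1.75) :
    exp (-(w / 6 + w ^ 2 * c ^ 2 / 180 + w ^ 3 * (c ^ 2) ^ 2 / 2835 + w ^ 4 * (c ^ 2) ^ 3 / 26000)) ≤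
      sinc x ^ n := by
  have h1 := pow_le_pow_left₀ (exp_pos _).le (sinc_ge8 hp) n
  refine le_trans (le_of_eq ?_) h1
  rw [← Real.exp_nat_mul]
  congr 1
  have := n_mul hc hx (1 / 6) (1 / 180) (1 / 2835) (1 / 26000)
  linarith

/-- Upper bound of the probability of the complement. -/
theorem T_le (hn : 6 ≤ n) (hc0 : 0 < c) (hc : (n : ℝ) * c ^ 2 = 1) {t w c7 : ℝ} (ht : 0 < t)
    (hw : (π / (2 * t)) ^ 2 = w) (hw0 : 1 ≤ w) (hw1 : w ≤ 2.2) (hc7 : 0 ≤ c7)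
    (h7 : ∀ z : ℝ, |z| ≤ 7 * √(w / 6) → |sinc z| ≤ exp (-(c7 * z ^ 2))) :
    1 - prob (fun _ : Fin n => c) t ≤ 1 / 2 - (2 / π) *
      (exp (-(w / 6 + w ^ 2 * c ^ 2 / 180 + w ^ 3 * (c ^ 2) ^ 2 / 2835 +
        w ^ 4 * (c ^ 2) ^ 3 / 26000)) -
      exp (-((9 * w) / 6 + (9 * w) ^ 2 * c ^ 2 / 180 + (9 * w) ^ 3 * (c ^ 2) ^ 2 / 2835)) / 3 -
      (exp (-(1 / 6 * 5 ^ 2 * w)) / 5 + exp (-(c7 * 7 ^ 2 * w)) / 7 +
      exp (-(0.064 * 9 ^ 2 * w)) / 9 + 1 / (36972 * w ^ 3))) + 2 * exp (-(27 / 2) * t ^ 2) := by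
  have hn' : (6 : ℝ) ≤ (n : ℝ) := by exact_mod_cast hn
  have hcs : c ^ 2 ≤ 1 / 6 := by (clear * - hc hn'; nlinarith [sq_nonneg c])
  have ha : ∑ j : Fin n, (fun _ : Fin n => c) j ^ 2 = 1 := by simp [hc]
  have hθ : 0 < π / (2 * t) := by positivity
  obtain ⟨x, hx⟩ : ∃ x, x = c * (π / (2 * t)) := ⟨_, rfl⟩
  have hx2 : x ^ 2 = w * c ^ 2 := by rw [hx, mul_pow, hw]; ring
  have hnx : (n : ℝ) * x ^ 2 = w := by rw [hx2, mul_left_comm, hc, mul_one]
  have hxs : x ^ 2 ≤ 0.3667 := by rw [hx2]; (clear * - hcs hw1; nlinarith [sq_nonneg c])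
  have hxa : |x| ≤ 0.6056 := by
    apply abs_le_of_sq_le_sq _ (by norm_num)
    norm_num
    (clear * - hxs; linarith)
  obtain ⟨s1, s2⟩ := tail hn hnx hw0 hw1 hc7 h7
  have h1 := CaseB.series_ge (fun _ : Fin n => x) s1 s2
  have i : Fin n := ⟨0, by omega⟩
  have e0 : ∏ _j : Fin n, sinc x = sinc x ^ n := by simp
  have e1 : ∏ _j : Fin n, sinc (3 * x) = sinc (3 * x) ^ n := by simp
  rw [e0, e1] at h1
  have h2 : 1 / 2 + (2 / π) * (sinc x ^ n - sinc (3 * x) ^ n / 3 -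
      (exp (-(1 / 6 * 5 ^ 2 * w)) / 5 + exp (-(c7 * 7 ^ 2 * w)) / 7 +
      exp (-(0.064 * 9 ^ 2 * w)) / 9 + 1 / (36972 * w ^ 3))) - 2 * exp (-(27 / 2) * t ^ 2) ≤
      prob (fun _ : Fin n => c) t :=
    wave_lower (fun _ : Fin n => c) ha (i := i) hc0.ne' ht (by
      rw [← hx]
      exact h1)
  have h3 := pow_ge hc hx2 (hxa.trans (by norm_num))
  have hx3 : (3 * x) ^ 2 = (9 * w) * c ^ 2 := by rw [mul_pow, hx2]; ring
  have h4 := pow_le hc hx3 (by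
    rw [abs_mul]
    norm_num
    (clear * - hxa; linarith [Real.pi_gt_d6]))
  have hpi : 0 < 2 / π := by positivity
  have h5 := mul_le_mul_of_nonneg_left h3 hpi.le
  have h6 := mul_le_mul_of_nonneg_left h4 hpi.le
  (clear * - h2 h5 h6; nlinarith)

/-- Lower bound of the probability of the complement. -/
theorem T_ge (hn : 6 ≤ n) (hc0 : 0 < c) (hc : (n : ℝ) * c ^ 2 = 1) {t w c7 : ℝ} (ht : 0 < t)
    (hw : (π / (2 * t)) ^ 2 = w) (hw0 : 1 ≤ w) (hw1 : w ≤ 2.01) (hc7 : 0 ≤ c7)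
    (h7 : ∀ z : ℝ, |z| ≤ 7 * √(w / 6) → |sinc z| ≤ exp (-(c7 * z ^ 2))) :
    1 / 2 - (2 / π) *
      (exp (-(w / 6 + w ^ 2 * c ^ 2 / 180 + w ^ 3 * (c ^ 2) ^ 2 / 2835)) -
      exp (-((9 * w) / 6 + (9 * w) ^ 2 * c ^ 2 / 180 + (9 * w) ^ 3 * (c ^ 2) ^ 2 / 2835 +
        (9 * w) ^ 4 * (c ^ 2) ^ 3 / 26000)) / 3 +
      (exp (-(1 / 6 * 5 ^ 2 * w)) / 5 + exp (-(c7 * 7 ^ 2 * w)) / 7 +
      exp (-(0.064 * 9 ^ 2 * w)) / 9 + 1 / (36972 * w ^ 3))) ≤ 1 - prob (fun _ : Fin n => c) t := by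
  have hn' : (6 : ℝ) ≤ (n : ℝ) := by exact_mod_cast hn
  have hcs : c ^ 2 ≤ 1 / 6 := by (clear * - hc hn'; nlinarith [sq_nonneg c])
  have hθ : 0 < π / (2 * t) := by positivity
  obtain ⟨x, hx⟩ : ∃ x, x = c * (π / (2 * t)) := ⟨_, rfl⟩
  have hx2 : x ^ 2 = w * c ^ 2 := by rw [hx, mul_pow, hw]; ring
  have hnx : (n : ℝ) * x ^ 2 = w := by rw [hx2, mul_left_comm, hc, mul_one]
  have hxs : x ^ 2 ≤ 0.335 := by rw [hx2]; (clear * - hcs hw1; nlinarith [sq_nonneg c])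
  have hxa : |x| ≤ 0.58 := by
    apply abs_le_of_sq_le_sq _ (by norm_num)
    norm_num
    (clear * - hxs; linarith)
  obtain ⟨s1, s2⟩ := tail hn hnx hw0 (hw1.trans (by norm_num)) hc7 h7
  have h1 := series_le (fun _ : Fin n => x) s1 s2
  have i : Fin n := ⟨0, by omega⟩
  have h2 := prob_le_wave (fun _ : Fin n => c) i hc0.ne' ht
  rw [(wave_expect (fun _ : Fin n => c) i hc0.ne' ht).2] at h2
  rw [← hx] at h2
  have e0 : ∏ _j : Fin n, sinc x = sinc x ^ n := by simp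
  have e1 : ∏ _j : Fin n, sinc (3 * x) = sinc (3 * x) ^ n := by simp
  rw [e0, e1] at h1
  have h3 := pow_le hc hx2 (hxa.trans (by (clear * -; linarith [Real.pi_gt_d6])))
  have hx3 : (3 * x) ^ 2 = (9 * w) * c ^ 2 := by rw [mul_pow, hx2]; ring
  have h4 := pow_ge hc hx3 (by
    rw [abs_mul]
    norm_num
    (clear * - hxa; linarith))
  have hpi : 0 < 2 / π := by positivity
  have h5 := mul_le_mul_of_nonneg_left h1 hpi.le
  have h6 := mul_le_mul_of_nonneg_left h3 hpi.le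
  have h7 := mul_le_mul_of_nonneg_left h4 hpi.le
  (clear * - h2 h5 h6 h7; nlinarith)

end

end Pool.Agent.M18.Helper23.X2
end

/- Helper23.X2.Crossing -/
section
/-!
Comparison of the probabilities of two slabs orthogonal to the diagonal (crossing, n at least 6).
-/

set_option autoImplicit false

open MeasureTheory Set Real
open Pool.Agent.M18.Helper88.Slab (prob ind cube)
open Pool.Agent.M18.Helper89.FA

namespace Pool.Agent.M18.Helper23.X2

lemma sqrt_bd {w r : ℝ} (hr : 0 ≤ r) (h : w / 6 ≤ r ^ 2) : √(w / 6) ≤ r :=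
  Real.sqrt_le_iff.mpr ⟨hr, h⟩

lemma cube_bd {w w0 b : ℝ} (h0 : 0 < w0) (h : w0 ≤ w) (hb : 1 ≤ b * (36972 * w0 ^ 3)) :
    1 / (36972 * w ^ 3) ≤ b := by
  have h1 : w0 ^ 3 ≤ w ^ 3 := pow_le_pow_left₀ h0.le h 3
  have h2 : 0 < w0 ^ 3 := by positivity
  have h3 : 0 < 36972 * w0 ^ 3 := by positivity
  calc 1 / (36972 * w ^ 3) ≤ 1 / (36972 * w0 ^ 3) :=
        one_div_le_one_div_of_le h3 (by linarith)
    _ ≤ b := by rw [div_le_iff₀ h3]; exact hb

lemma tau_a1 {w : ℝ} (h : 2.195977 ≤ w) :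
    exp (-(1 / 6 * 5 ^ 2 * w)) / 5 + exp (-(0.08 * 7 ^ 2 * w)) / 7 +
      exp (-(0.064 * 9 ^ 2 * w)) / 9 + 1 / (36972 * w ^ 3) ≤ 0.0000513 := by
  have h5 : exp (-(1 / 6 * 5 ^ 2 * w)) ≤ 0.00010634 :=
    exp_up 9 (f := 0.1499) (by norm_num) (by push_cast; (clear * - h; linarith)) (by norm_num)
  have h7 : exp (-(0.08 * 7 ^ 2 * w)) ≤ 0.00018278 :=
    exp_up 8 (f := 0.60822) (by norm_num) (by push_cast; linarith) (by norm_num)
  have h9 : exp (-(0.064 * 9 ^ 2 * w)) ≤ 0.00001139 :=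
    exp_up 11 (f := 0.38394) (by norm_num) (by push_cast; (clear * - h; linarith)) (by norm_num)
  have hl : 1 / (36972 * w ^ 3) ≤ 0.00000256 := cube_bd (by norm_num) h (by norm_num)
  (clear * - h5 h7 h9 hl; linarith)

lemma tau_a2 {w : ℝ} (h : 2.002597 ≤ w) :
    exp (-(1 / 6 * 5 ^ 2 * w)) / 5 + exp (-(0.08 * 7 ^ 2 * w)) / 7 +
      exp (-(0.064 * 9 ^ 2 * w)) / 9 + 1 / (36972 * w ^ 3) ≤ 0.0001102 := by
  have h5 : exp (-(1 / 6 * 5 ^ 2 * w)) ≤ 0.00023803 :=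
    exp_up 8 (f := 0.34415) (by norm_num) (by push_cast; (clear * - h; linarith)) (by norm_num)
  have h7 : exp (-(0.08 * 7 ^ 2 * w)) ≤ 0.00039008 :=
    exp_up 7 (f := 0.85018) (by norm_num) (by push_cast; (clear * - h; linarith)) (by norm_num)
  have h9 : exp (-(0.064 * 9 ^ 2 * w)) ≤ 0.00003104 :=
    exp_up 10 (f := 0.38146) (by norm_num) (by push_cast; (clear * - h; linarith)) (by norm_num)
  have hl : 1 / (36972 * w ^ 3) ≤ 0.00000337 := cube_bd (by norm_num) h (by norm_num)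
  (clear * - h5 h7 h9 hl; linarith)

lemma poly_a {u : ℝ} (hu0 : 0 ≤ u) (hu1 : u ≤ 1 / 6) :
    0 ≤ 3.141592 * (1.242 - 1) / 4 - 3.141593 * 0.00000026 - 1.242 * 0.0001102 - 0.0000513 +
      0.693505 * (1 - (0.026791 * u + 0.003885 * u ^ 2)) -
      1.242 * (0.716222 * (1 - (0.022279 * u + 0.002832 * u ^ 2) +
        (0.022279 * u + 0.002832 * u ^ 2) ^ 2 / 2)) +
      1.242 * (0.049591 * (1 - (1.804682 * u + 2.741601 * u ^ 2) +
        (1.804682 * u + 2.741601 * u ^ 2) ^ 2 / 2 -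
        (1.804682 * u + 2.741601 * u ^ 2) ^ 3 / 6)) / 3 -
      0.037107 * (1 - (2.170041 * u + 2.723063 * u ^ 2) +
        (2.170041 * u + 2.723063 * u ^ 2) ^ 2 / 2 -
        (2.170041 * u + 2.723063 * u ^ 2) ^ 3 / 6 +
        (2.170041 * u + 2.723063 * u ^ 2) ^ 4 / 24) / 3 := by
  obtain ⟨s, rfl⟩ : ∃ s, u = 1 / 6 - s := ⟨1 / 6 - u, by ring⟩
  have hs0 : 0 ≤ s := by (clear * - hu1; linarith)
  have hs1 : s ≤ 1 / 6 := by (clear * - hu0; linarith)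
  have p2 : 0 ≤ s ^ 2 := by positivity
  have p3 : 0 ≤ s ^ 3 := by positivity
  have p4 : 0 ≤ s ^ 4 := by positivity
  have p5 : 0 ≤ s ^ 5 := by positivity
  have p6 : 0 ≤ s ^ 6 := by positivity
  have p7 : 0 ≤ s ^ 7 := by positivity
  have q2 : s ^ 2 ≤ s / 6 := by
    have := mul_le_mul_of_nonneg_left hs1 hs0
    (clear * - this; linarith)
  have q3 : s ^ 3 ≤ s ^ 2 / 6 := by
    have := mul_le_mul_of_nonneg_left hs1 p2
    (clear * - this; linarith)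
  have q4 : s ^ 4 ≤ s ^ 3 / 6 := by
    have := mul_le_mul_of_nonneg_left hs1 p3
    (clear * - this; linarith)
  have q5 : s ^ 5 ≤ s ^ 4 / 6 := by
    have := mul_le_mul_of_nonneg_left hs1 p4
    (clear * - this; linarith)
  have q6 : s ^ 6 ≤ s ^ 5 / 6 := by
    have := mul_le_mul_of_nonneg_left hs1 p5
    (clear * - this; linarith)
  have q7 : s ^ 7 ≤ s ^ 6 / 6 := by
    have := mul_le_mul_of_nonneg_left hs1 p6
    (clear * - this; linarith)
  have q8 : s ^ 8 ≤ s ^ 7 / 6 := by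
    have := mul_le_mul_of_nonneg_left hs1 p7
    (clear * - this; linarith)
  have p8 : 0 ≤ s ^ 8 := by positivity
  linarith

/-- The crossing inequality, pair 1. -/
theorem crossing_a {n : ℕ} (hn : 6 ≤ n) {c : ℝ} (hc0 : 0 < c) (hc : (n : ℝ) * c ^ 2 = 1) :
    1 - prob (fun _ : Fin n => c) 1.06 ≤ 1.242 * (1 - prob (fun _ : Fin n => c) 1.11) := by
  have hn' : (6 : ℝ) ≤ (n : ℝ) := by exact_mod_cast hn
  have hcs : c ^ 2 ≤ 1 / 6 := by (clear * - hc hn'; nlinarith [sq_nonneg c])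
  have hp1 := Real.pi_gt_d6
  have hp2 := Real.pi_lt_d6
  obtain ⟨w, hw⟩ : ∃ w, (π / (2 * 1.06)) ^ 2 = w := ⟨_, rfl⟩
  obtain ⟨v, hv⟩ : ∃ v, (π / (2 * 1.11)) ^ 2 = v := ⟨_, rfl⟩
  have hw' : w = π ^ 2 / 4.4944 := by rw [← hw, div_pow]; norm_num
  have hv' : v = π ^ 2 / 4.9284 := by rw [← hv, div_pow]; norm_num
  have hq1 : (3.141592 : ℝ) ^ 2 ≤ π ^ 2 := pow_le_pow_left₀ (by norm_num) hp1.le 2
  have hq2 : π ^ 2 ≤ (3.141593 : ℝ) ^ 2 := pow_le_pow_left₀ Real.pi_pos.le hp2.le 2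
  have hw0 : 2.195977 ≤ w := by rw [hw', le_div_iff₀ (by norm_num)]; (clear * - hp1 hp2 hq1; linarith)
  have hw1 : w ≤ 2.195979 := by rw [hw', div_le_iff₀ (by norm_num)]; (clear * - hp1 hp2 hq2; linarith)
  have hv0 : 2.002597 ≤ v := by rw [hv', le_div_iff₀ (by norm_num)]; (clear * - hp1 hp2 hq1; linarith)
  have hv1 : v ≤ 2.002599 := by rw [hv', div_le_iff₀ (by norm_num)]; linarith
  have sw : √(w / 6) ≤ 0.6056 := sqrt_bd (by norm_num) (by (clear * - hp1 hp2 hw1; linarith))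
  have sv : √(v / 6) ≤ 0.6056 := sqrt_bd (by norm_num) (by (clear * - hp1 hp2 hv1; linarith))
  have hU := T_le hn hc0 hc (t := 1.06) (c7 := 0.08) (by norm_num) hw (by (clear * - hp1 hp2 hw0; linarith)) (by (clear * - hp1 hp2 hw1; linarith))
    (by norm_num) (fun z hz => abs_sinc_435 (hz.trans (by (clear * - hp1 hp2 sw; linarith))))
  have hL := T_ge hn hc0 hc (t := 1.11) (c7 := 0.08) (by norm_num) hv (by (clear * - hp1 hp2 hv0; linarith)) (by (clear * - hp1 hp2 hv1; linarith))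
    (by norm_num) (fun z hz => abs_sinc_435 (hz.trans (by (clear * - hp1 hp2 sv; linarith))))
  have pw2a : (2.195977 : ℝ) ^ 2 ≤ w ^ 2 := pow_le_pow_left₀ (by norm_num) hw0 2
  have pw3a : (2.195977 : ℝ) ^ 3 ≤ w ^ 3 := pow_le_pow_left₀ (by norm_num) hw0 3
  have hwp : 0 ≤ w := by (clear * - hp1 hp2 hw0; linarith)
  have hvp : 0 ≤ v := by (clear * - hp1 hp2 hv0; linarith)
  have pw2b : w ^ 2 ≤ (2.195979 : ℝ) ^ 2 := pow_le_pow_left₀ hwp hw1 2
  have pw3b : w ^ 3 ≤ (2.195979 : ℝ) ^ 3 := pow_le_pow_left₀ hwp hw1 3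
  have pw4b : w ^ 4 ≤ (2.195979 : ℝ) ^ 4 := pow_le_pow_left₀ hwp hw1 4
  have pv2a : (2.002597 : ℝ) ^ 2 ≤ v ^ 2 := pow_le_pow_left₀ (by norm_num) hv0 2
  have pv3a : (2.002597 : ℝ) ^ 3 ≤ v ^ 3 := pow_le_pow_left₀ (by norm_num) hv0 3
  have pv2b : v ^ 2 ≤ (2.002599 : ℝ) ^ 2 := pow_le_pow_left₀ hvp hv1 2
  have pv3b : v ^ 3 ≤ (2.002599 : ℝ) ^ 3 := pow_le_pow_left₀ hvp hv1 3
  have pv4b : v ^ 4 ≤ (2.002599 : ℝ) ^ 4 := pow_le_pow_left₀ hvp hv1 4
  have H0 : 0.693505 ≤ exp (-(w / 6)) :=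
    exp_lo 0 (f := 0.3659965) (by norm_num) (by norm_num) (by push_cast; (clear * - hw1; linarith)) (by norm_num)
  have H1 : exp (-(v / 6)) ≤ 0.716222 :=
    exp_up 0 (f := 0.3337661) (by norm_num) (by push_cast; (clear * - hp1 hp2 hv0; linarith)) (by norm_num)
  have H2 : exp (-((9 * w) / 6)) ≤ 0.037107 :=
    exp_up 3 (f := 0.2939655) (by norm_num) (by push_cast; (clear * - hw0; linarith)) (by norm_num)
  have H3 : 0.049591 ≤ exp (-((9 * v) / 6)) :=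
    exp_lo 3 (f := 0.0038985) (by norm_num) (by norm_num) (by push_cast; (clear * - hv1; linarith)) (by norm_num)
  have He : exp (-(27 / 2) * 1.06 ^ 2) ≤ 0.00000026 := by
    have := exp_up 15 (a := 27 / 2 * 1.06 ^ 2) (f := 0.1686) (b := 0.00000026) (by norm_num)
      (by norm_num) (by norm_num)
    rw [← neg_mul] at this
    exact this
  refine final_step (κ := 1.242) (by norm_num) hU hL ?_
  exact combine (sq_nonneg c) hcs (by norm_num) hwp hvp H0 H1 H2 H3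
    (α1 := 0.026791) (α2 := 0.003885) (γ1 := 0.022279) (γ2 := 0.002832)
    (β1 := 2.170041) (β2 := 2.723063) (δ1 := 1.804682) (δ2 := 2.741601)
    (by (clear * - hp1 hp2 pw2b; linarith)) (by (clear * - hp1 hp2 pw3b pw4b; linarith)) (by (clear * - hp1 hp2 pv2a; linarith)) (by (clear * - hp1 hp2 pv3a; linarith)) (by (clear * - hp1 hp2 pw2a; linarith)) (by (clear * - hp1 hp2 pw3a; linarith))
    (by (clear * - hp1 hp2 pv2b; linarith)) (by (clear * - hp1 hp2 pv3b pv4b; linarith)) (by norm_num) (by norm_num) (by norm_num) (by norm_num)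
    (by norm_num) (by norm_num) (by norm_num) (tau_a1 hw0) (tau_a2 hv0) He (by norm_num)
    (poly_a (sq_nonneg c) hcs)

lemma tau_b1 {w : ℝ} (h : 2.115397 ≤ w) :
    exp (-(1 / 6 * 5 ^ 2 * w)) / 5 + exp (-(0.08 * 7 ^ 2 * w)) / 7 +
      exp (-(0.064 * 9 ^ 2 * w)) / 9 + 1 / (36972 * w ^ 3) ≤ 0.0000704 := by
  have h5 : exp (-(1 / 6 * 5 ^ 2 * w)) ≤ 0.00014877 :=
    exp_up 8 (f := 0.81415) (by norm_num) (by push_cast; linarith) (by norm_num)
  have h7 : exp (-(0.08 * 7 ^ 2 * w)) ≤ 0.00025068 :=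
    exp_up 8 (f := 0.29235) (by norm_num) (by push_cast; (clear * - h; linarith)) (by norm_num)
  have h9 : exp (-(0.064 * 9 ^ 2 * w)) ≤ 0.0000173 :=
    exp_up 10 (f := 0.96621) (by norm_num) (by push_cast; (clear * - h; linarith)) (by norm_num)
  have hl : 1 / (36972 * w ^ 3) ≤ 0.00000286 := cube_bd (by norm_num) h (by norm_num)
  (clear * - h5 h7 h9 hl; linarith)

lemma tau_b2 {w : ℝ} (h : 1.932336 ≤ w) :
    exp (-(1 / 6 * 5 ^ 2 * w)) / 5 + exp (-(0.08 * 7 ^ 2 * w)) / 7 +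
      exp (-(0.064 * 9 ^ 2 * w)) / 9 + 1 / (36972 * w ^ 3) ≤ 0.000146 := by
  have h5 : exp (-(1 / 6 * 5 ^ 2 * w)) ≤ 0.00031898 :=
    exp_up 8 (f := 0.0514) (by norm_num) (by push_cast; linarith) (by norm_num)
  have h7 : exp (-(0.08 * 7 ^ 2 * w)) ≤ 0.00051376 :=
    exp_up 7 (f := 0.57475) (by norm_num) (by push_cast; (clear * - h; linarith)) (by norm_num)
  have h9 : exp (-(0.064 * 9 ^ 2 * w)) ≤ 0.00004467 :=
    exp_up 10 (f := 0.01722) (by norm_num) (by push_cast; (clear * - h; linarith)) (by norm_num)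
  have hl : 1 / (36972 * w ^ 3) ≤ 0.00000375 := cube_bd (by norm_num) h (by norm_num)
  linarith

lemma poly_b {u : ℝ} (hu0 : 0 ≤ u) (hu1 : u ≤ 1 / 6) :
    0 ≤ 3.141592 * (1.25 - 1) / 4 - 3.141593 * 0.00000015 - 1.25 * 0.000146 - 0.0000704 +
      0.702881 * (1 - (0.024861 * u + 0.003468 * u ^ 2)) -
      1.25 * (0.724658 * (1 - (0.020744 * u + 0.002545 * u ^ 2) +
        (0.020744 * u + 0.002545 * u ^ 2) ^ 2 / 2)) +
      1.25 * (0.055103 * (1 - (1.680269 * u + 2.44172 * u ^ 2) +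
        (1.680269 * u + 2.44172 * u ^ 2) ^ 2 / 2 -
        (1.680269 * u + 2.44172 * u ^ 2) ^ 3 / 6)) / 3 -
      0.041874 * (1 - (2.013707 * u + 2.434165 * u ^ 2) +
        (2.013707 * u + 2.434165 * u ^ 2) ^ 2 / 2 -
        (2.013707 * u + 2.434165 * u ^ 2) ^ 3 / 6 +
        (2.013707 * u + 2.434165 * u ^ 2) ^ 4 / 24) / 3 := by
  obtain ⟨s, rfl⟩ : ∃ s, u = 1 / 6 - s := ⟨1 / 6 - u, by ring⟩
  have hs0 : 0 ≤ s := by (clear * - hu1; linarith)
  have hs1 : s ≤ 1 / 6 := by (clear * - hu0; linarith)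
  have p2 : 0 ≤ s ^ 2 := by positivity
  have p3 : 0 ≤ s ^ 3 := by positivity
  have p4 : 0 ≤ s ^ 4 := by positivity
  have p5 : 0 ≤ s ^ 5 := by positivity
  have p6 : 0 ≤ s ^ 6 := by positivity
  have p7 : 0 ≤ s ^ 7 := by positivity
  have q2 : s ^ 2 ≤ s / 6 := by
    have := mul_le_mul_of_nonneg_left hs1 hs0
    (clear * - this; linarith)
  have q3 : s ^ 3 ≤ s ^ 2 / 6 := by
    have := mul_le_mul_of_nonneg_left hs1 p2
    (clear * - this; linarith)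
  have q4 : s ^ 4 ≤ s ^ 3 / 6 := by
    have := mul_le_mul_of_nonneg_left hs1 p3
    (clear * - this; linarith)
  have q5 : s ^ 5 ≤ s ^ 4 / 6 := by
    have := mul_le_mul_of_nonneg_left hs1 p4
    (clear * - this; linarith)
  have q6 : s ^ 6 ≤ s ^ 5 / 6 := by
    have := mul_le_mul_of_nonneg_left hs1 p5
    (clear * - this; linarith)
  have q7 : s ^ 7 ≤ s ^ 6 / 6 := by
    have := mul_le_mul_of_nonneg_left hs1 p6
    (clear * - this; linarith)
  have q8 : s ^ 8 ≤ s ^ 7 / 6 := by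
    have := mul_le_mul_of_nonneg_left hs1 p7
    (clear * - this; linarith)
  have p8 : 0 ≤ s ^ 8 := by positivity
  (clear * - hu1 p5 p7 q2 q3 q4 q6 q8; linarith)

/-- The crossing inequality, pair 2. -/
theorem crossing_b {n : ℕ} (hn : 6 ≤ n) {c : ℝ} (hc0 : 0 < c) (hc : (n : ℝ) * c ^ 2 = 1) :
    1 - prob (fun _ : Fin n => c) 1.08 ≤ 1.25 * (1 - prob (fun _ : Fin n => c) 1.13) := by
  have hn' : (6 : ℝ) ≤ (n : ℝ) := by exact_mod_cast hn
  have hcs : c ^ 2 ≤ 1 / 6 := by (clear * - hc hn'; nlinarith [sq_nonneg c])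
  have hp1 := Real.pi_gt_d6
  have hp2 := Real.pi_lt_d6
  obtain ⟨w, hw⟩ : ∃ w, (π / (2 * 1.08)) ^ 2 = w := ⟨_, rfl⟩
  obtain ⟨v, hv⟩ : ∃ v, (π / (2 * 1.13)) ^ 2 = v := ⟨_, rfl⟩
  have hw' : w = π ^ 2 / 4.6656 := by rw [← hw, div_pow]; norm_num
  have hv' : v = π ^ 2 / 5.1076 := by rw [← hv, div_pow]; norm_num
  have hq1 : (3.141592 : ℝ) ^ 2 ≤ π ^ 2 := pow_le_pow_left₀ (by norm_num) hp1.le 2
  have hq2 : π ^ 2 ≤ (3.141593 : ℝ) ^ 2 := pow_le_pow_left₀ Real.pi_pos.le hp2.le 2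
  have hw0 : 2.115397 ≤ w := by rw [hw', le_div_iff₀ (by norm_num)]; (clear * - hp1 hp2 hq1; linarith)
  have hw1 : w ≤ 2.1154 := by rw [hw', div_le_iff₀ (by norm_num)]; (clear * - hp1 hp2 hq2; linarith)
  have hv0 : 1.932336 ≤ v := by rw [hv', le_div_iff₀ (by norm_num)]; (clear * - hp1 hp2 hq1; linarith)
  have hv1 : v ≤ 1.932338 := by rw [hv', div_le_iff₀ (by norm_num)]; (clear * - hp1 hp2 hq2; linarith)
  have sw : √(w / 6) ≤ 0.6056 := sqrt_bd (by norm_num) (by (clear * - hp1 hp2 hw1; linarith))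
  have sv : √(v / 6) ≤ 0.6056 := sqrt_bd (by norm_num) (by (clear * - hp1 hp2 hv1; linarith))
  have hU := T_le hn hc0 hc (t := 1.08) (c7 := 0.08) (by norm_num) hw (by (clear * - hp1 hp2 hw0; linarith)) (by (clear * - hp1 hp2 hw1; linarith))
    (by norm_num) (fun z hz => abs_sinc_435 (hz.trans (by (clear * - hp1 hp2 sw; linarith))))
  have hL := T_ge hn hc0 hc (t := 1.13) (c7 := 0.08) (by norm_num) hv (by (clear * - hp1 hp2 hv0; linarith)) (by (clear * - hp1 hp2 hv1; linarith))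
    (by norm_num) (fun z hz => abs_sinc_435 (hz.trans (by (clear * - hp1 hp2 sv; linarith))))
  have pw2a : (2.115397 : ℝ) ^ 2 ≤ w ^ 2 := pow_le_pow_left₀ (by norm_num) hw0 2
  have pw3a : (2.115397 : ℝ) ^ 3 ≤ w ^ 3 := pow_le_pow_left₀ (by norm_num) hw0 3
  have hwp : 0 ≤ w := by (clear * - hp1 hp2 hw0; linarith)
  have hvp : 0 ≤ v := by (clear * - hp1 hp2 hv0; linarith)
  have pw2b : w ^ 2 ≤ (2.1154 : ℝ) ^ 2 := pow_le_pow_left₀ hwp hw1 2
  have pw3b : w ^ 3 ≤ (2.1154 : ℝ) ^ 3 := pow_le_pow_left₀ hwp hw1 3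
  have pw4b : w ^ 4 ≤ (2.1154 : ℝ) ^ 4 := pow_le_pow_left₀ hwp hw1 4
  have pv2a : (1.932336 : ℝ) ^ 2 ≤ v ^ 2 := pow_le_pow_left₀ (by norm_num) hv0 2
  have pv3a : (1.932336 : ℝ) ^ 3 ≤ v ^ 3 := pow_le_pow_left₀ (by norm_num) hv0 3
  have pv2b : v ^ 2 ≤ (1.932338 : ℝ) ^ 2 := pow_le_pow_left₀ hvp hv1 2
  have pv3b : v ^ 3 ≤ (1.932338 : ℝ) ^ 3 := pow_le_pow_left₀ hvp hv1 3
  have pv4b : v ^ 4 ≤ (1.932338 : ℝ) ^ 4 := pow_le_pow_left₀ hvp hv1 4
  have H0 : 0.702881 ≤ exp (-(w / 6)) :=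
    exp_lo 0 (f := 0.3525667) (by norm_num) (by norm_num) (by push_cast; (clear * - hp1 hp2 hw1; linarith)) (by norm_num)
  have H1 : exp (-(v / 6)) ≤ 0.724658 :=
    exp_up 0 (f := 0.322056) (by norm_num) (by push_cast; (clear * - hv0; linarith)) (by norm_num)
  have H2 : exp (-((9 * w) / 6)) ≤ 0.041874 :=
    exp_up 3 (f := 0.1730955) (by norm_num) (by push_cast; (clear * - hw0; linarith)) (by norm_num)
  have H3 : 0.055103 ≤ exp (-((9 * v) / 6)) :=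
    exp_lo 2 (f := 0.898507) (by norm_num) (by norm_num) (by push_cast; (clear * - hv1; linarith)) (by norm_num)
  have He : exp (-(27 / 2) * 1.08 ^ 2) ≤ 0.00000015 := by
    have := exp_up 15 (a := 27 / 2 * 1.08 ^ 2) (f := 0.7464) (b := 0.00000015) (by norm_num)
      (by norm_num) (by norm_num)
    rw [← neg_mul] at this
    exact this
  refine final_step (κ := 1.25) (by norm_num) hU hL ?_
  exact combine (sq_nonneg c) hcs (by norm_num) hwp hvp H0 H1 H2 H3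
    (α1 := 0.024861) (α2 := 0.003468) (γ1 := 0.020744) (γ2 := 0.002545)
    (β1 := 2.013707) (β2 := 2.434165) (δ1 := 1.680269) (δ2 := 2.44172)
    (by (clear * - hp1 hp2 pw2b; linarith)) (by (clear * - hp1 hp2 pw3b pw4b; linarith)) (by (clear * - hp1 hp2 pv2a; linarith)) (by (clear * - hp1 hp2 pv3a; linarith)) (by (clear * - hp1 hp2 pw2a; linarith)) (by (clear * - hp1 hp2 pw3a; linarith))
    (by (clear * - hp1 hp2 pv2b; linarith)) (by (clear * - hp1 hp2 pv3b pv4b; linarith)) (by norm_num) (by norm_num) (by norm_num) (by norm_num)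
    (by norm_num) (by norm_num) (by norm_num) (tau_b1 hw0) (tau_b2 hv0) He (by norm_num)
    (poly_b (sq_nonneg c) hcs)

lemma tau_c1 {w : ℝ} (h : 2.039173 ≤ w) :
    exp (-(1 / 6 * 5 ^ 2 * w)) / 5 + exp (-(0.08 * 7 ^ 2 * w)) / 7 +
      exp (-(0.064 * 9 ^ 2 * w)) / 9 + 1 / (36972 * w ^ 3) ≤ 0.0000953 := by
  have h5 : exp (-(1 / 6 * 5 ^ 2 * w)) ≤ 0.00020438 :=
    exp_up 8 (f := 0.49655) (by norm_num) (by push_cast; linarith) (by norm_num)
  have h7 : exp (-(0.08 * 7 ^ 2 * w)) ≤ 0.00033797 :=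
    exp_up 7 (f := 0.99355) (by norm_num) (by push_cast; linarith) (by norm_num)
  have h9 : exp (-(0.064 * 9 ^ 2 * w)) ≤ 0.00002568 :=
    exp_up 10 (f := 0.57107) (by norm_num) (by push_cast; (clear * - h; linarith)) (by norm_num)
  have hl : 1 / (36972 * w ^ 3) ≤ 0.00000319 := cube_bd (by norm_num) h (by norm_num)
  linarith

lemma tau_c2 {w : ℝ} (h : 1.865708 ≤ w) :
    exp (-(1 / 6 * 5 ^ 2 * w)) / 5 + exp (-(0.1105 * 7 ^ 2 * w)) / 7 +
      exp (-(0.064 * 9 ^ 2 * w)) / 9 + 1 / (36972 * w ^ 3) ≤ 0.0001013 := by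
  have h5 : exp (-(1 / 6 * 5 ^ 2 * w)) ≤ 0.00042104 :=
    exp_up 7 (f := 0.77378) (by norm_num) (by push_cast; (clear * - h; linarith)) (by norm_num)
  have h7 : exp (-(0.1105 * 7 ^ 2 * w)) ≤ 0.00004105 :=
    exp_up 10 (f := 0.10187) (by norm_num) (by push_cast; (clear * - h; linarith)) (by norm_num)
  have h9 : exp (-(0.064 * 9 ^ 2 * w)) ≤ 0.0000631 :=
    exp_up 9 (f := 0.67183) (by norm_num) (by push_cast; linarith) (by norm_num)
  have hl : 1 / (36972 * w ^ 3) ≤ 0.00000417 := cube_bd (by norm_num) h (by norm_num)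
  linarith

lemma poly_c {u : ℝ} (hu0 : 0 ≤ u) (hu1 : u ≤ 1 / 6) :
    0 ≤ 3.141592 * (1.2586 - 1) / 4 - 3.141593 * 0.00000009 - 1.2586 * 0.0001013 - 0.0000953 +
      0.711868 * (1 - (0.023102 * u + 0.003102 * u ^ 2)) -
      1.2586 * (0.73275 * (1 - (0.019338 * u + 0.00229 * u ^ 2) +
        (0.019338 * u + 0.00229 * u ^ 2) ^ 2 / 2)) +
      1.2586 * (0.060895 * (1 - (1.566395 * u + 2.179559 * u ^ 2) +
        (1.566395 * u + 2.179559 * u ^ 2) ^ 2 / 2 -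
        (1.566395 * u + 2.179559 * u ^ 2) ^ 3 / 6)) / 3 -
      0.046946 * (1 - (1.871201 * u + 2.180402 * u ^ 2) +
        (1.871201 * u + 2.180402 * u ^ 2) ^ 2 / 2 -
        (1.871201 * u + 2.180402 * u ^ 2) ^ 3 / 6 +
        (1.871201 * u + 2.180402 * u ^ 2) ^ 4 / 24) / 3 := by
  obtain ⟨s, rfl⟩ : ∃ s, u = 1 / 6 - s := ⟨1 / 6 - u, by ring⟩
  have hs0 : 0 ≤ s := by (clear * - hu1; linarith)
  have hs1 : s ≤ 1 / 6 := by (clear * - hu0; linarith)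
  have p2 : 0 ≤ s ^ 2 := by positivity
  have p3 : 0 ≤ s ^ 3 := by positivity
  have p4 : 0 ≤ s ^ 4 := by positivity
  have p5 : 0 ≤ s ^ 5 := by positivity
  have p6 : 0 ≤ s ^ 6 := by positivity
  have p7 : 0 ≤ s ^ 7 := by positivity
  have q2 : s ^ 2 ≤ s / 6 := by
    have := mul_le_mul_of_nonneg_left hs1 hs0
    (clear * - this; linarith)
  have q3 : s ^ 3 ≤ s ^ 2 / 6 := by
    have := mul_le_mul_of_nonneg_left hs1 p2
    (clear * - this; linarith)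
  have q4 : s ^ 4 ≤ s ^ 3 / 6 := by
    have := mul_le_mul_of_nonneg_left hs1 p3
    (clear * - this; linarith)
  have q5 : s ^ 5 ≤ s ^ 4 / 6 := by
    have := mul_le_mul_of_nonneg_left hs1 p4
    (clear * - this; linarith)
  have q6 : s ^ 6 ≤ s ^ 5 / 6 := by
    have := mul_le_mul_of_nonneg_left hs1 p5
    (clear * - this; linarith)
  have q7 : s ^ 7 ≤ s ^ 6 / 6 := by
    have := mul_le_mul_of_nonneg_left hs1 p6
    (clear * - this; linarith)
  have q8 : s ^ 8 ≤ s ^ 7 / 6 := by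
    have := mul_le_mul_of_nonneg_left hs1 p7
    (clear * - this; linarith)
  have p8 : 0 ≤ s ^ 8 := by positivity
  linarith

/-- The crossing inequality, pair 3. -/
theorem crossing_c {n : ℕ} (hn : 6 ≤ n) {c : ℝ} (hc0 : 0 < c) (hc : (n : ℝ) * c ^ 2 = 1) :
    1 - prob (fun _ : Fin n => c) 1.10 ≤ 1.2586 * (1 - prob (fun _ : Fin n => c) 1.15) := by
  have hn' : (6 : ℝ) ≤ (n : ℝ) := by exact_mod_cast hn
  have hcs : c ^ 2 ≤ 1 / 6 := by (clear * - hc hn'; nlinarith [sq_nonneg c])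
  have hp1 := Real.pi_gt_d6
  have hp2 := Real.pi_lt_d6
  obtain ⟨w, hw⟩ : ∃ w, (π / (2 * 1.10)) ^ 2 = w := ⟨_, rfl⟩
  obtain ⟨v, hv⟩ : ∃ v, (π / (2 * 1.15)) ^ 2 = v := ⟨_, rfl⟩
  have hw' : w = π ^ 2 / 4.84 := by rw [← hw, div_pow]; norm_num
  have hv' : v = π ^ 2 / 5.29 := by rw [← hv, div_pow]; norm_num
  have hq1 : (3.141592 : ℝ) ^ 2 ≤ π ^ 2 := pow_le_pow_left₀ (by norm_num) hp1.le 2
  have hq2 : π ^ 2 ≤ (3.141593 : ℝ) ^ 2 := pow_le_pow_left₀ Real.pi_pos.le hp2.le 2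
  have hw0 : 2.039173 ≤ w := by rw [hw', le_div_iff₀ (by norm_num)]; (clear * - hp1 hp2 hq1; linarith)
  have hw1 : w ≤ 2.039175 := by rw [hw', div_le_iff₀ (by norm_num)]; (clear * - hp1 hp2 hq2; linarith)
  have hv0 : 1.865708 ≤ v := by rw [hv', le_div_iff₀ (by norm_num)]; (clear * - hp1 hp2 hq1; linarith)
  have hv1 : v ≤ 1.865711 := by rw [hv', div_le_iff₀ (by norm_num)]; (clear * - hp1 hp2 hq2; linarith)
  have sw : √(w / 6) ≤ 0.6056 := sqrt_bd (by norm_num) (by (clear * - hp1 hp2 hw1; linarith))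
  have sv : √(v / 6) ≤ 0.558 := sqrt_bd (by norm_num) (by (clear * - hp1 hp2 hv1; linarith))
  have hU := T_le hn hc0 hc (t := 1.10) (c7 := 0.08) (by norm_num) hw (by (clear * - hp1 hp2 hw0; linarith)) (by (clear * - hp1 hp2 hw1; linarith))
    (by norm_num) (fun z hz => abs_sinc_435 (hz.trans (by (clear * - hp1 hp2 sw; linarith))))
  have hL := T_ge hn hc0 hc (t := 1.15) (c7 := 0.1105) (by norm_num) hv (by (clear * - hp1 hp2 hv0; linarith)) (by (clear * - hp1 hp2 hv1; linarith))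
    (by norm_num) (fun z hz => abs_sinc_393 (hz.trans (by (clear * - hp1 hp2 sv; linarith))))
  have pw2a : (2.039173 : ℝ) ^ 2 ≤ w ^ 2 := pow_le_pow_left₀ (by norm_num) hw0 2
  have pw3a : (2.039173 : ℝ) ^ 3 ≤ w ^ 3 := pow_le_pow_left₀ (by norm_num) hw0 3
  have hwp : 0 ≤ w := by (clear * - hp1 hp2 hw0; linarith)
  have hvp : 0 ≤ v := by (clear * - hp1 hp2 hv0; linarith)
  have pw2b : w ^ 2 ≤ (2.039175 : ℝ) ^ 2 := pow_le_pow_left₀ hwp hw1 2
  have pw3b : w ^ 3 ≤ (2.039175 : ℝ) ^ 3 := pow_le_pow_left₀ hwp hw1 3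
  have pw4b : w ^ 4 ≤ (2.039175 : ℝ) ^ 4 := pow_le_pow_left₀ hwp hw1 4
  have pv2a : (1.865708 : ℝ) ^ 2 ≤ v ^ 2 := pow_le_pow_left₀ (by norm_num) hv0 2
  have pv3a : (1.865708 : ℝ) ^ 3 ≤ v ^ 3 := pow_le_pow_left₀ (by norm_num) hv0 3
  have pv2b : v ^ 2 ≤ (1.865711 : ℝ) ^ 2 := pow_le_pow_left₀ hvp hv1 2
  have pv3b : v ^ 3 ≤ (1.865711 : ℝ) ^ 3 := pow_le_pow_left₀ hvp hv1 3
  have pv4b : v ^ 4 ≤ (1.865711 : ℝ) ^ 4 := pow_le_pow_left₀ hvp hv1 4
  have H0 : 0.711868 ≤ exp (-(w / 6)) :=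
    exp_lo 0 (f := 0.3398625) (by norm_num) (by norm_num) (by push_cast; (clear * - hw1; linarith)) (by norm_num)
  have H1 : exp (-(v / 6)) ≤ 0.73275 :=
    exp_up 0 (f := 0.3109513) (by norm_num) (by push_cast; (clear * - hp1 hp2 hv0; linarith)) (by norm_num)
  have H2 : exp (-((9 * w) / 6)) ≤ 0.046946 :=
    exp_up 3 (f := 0.0587595) (by norm_num) (by push_cast; (clear * - hw0; linarith)) (by norm_num)
  have H3 : 0.060895 ≤ exp (-((9 * v) / 6)) :=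
    exp_lo 2 (f := 0.7985665) (by norm_num) (by norm_num) (by push_cast; (clear * - hv1; linarith)) (by norm_num)
  have He : exp (-(27 / 2) * 1.10 ^ 2) ≤ 0.00000009 := by
    have := exp_up 16 (a := 27 / 2 * 1.10 ^ 2) (f := 0.335) (b := 0.00000009) (by norm_num)
      (by norm_num) (by norm_num)
    rw [← neg_mul] at this
    exact this
  refine final_step (κ := 1.2586) (by norm_num) hU hL ?_
  exact combine (sq_nonneg c) hcs (by norm_num) hwp hvp H0 H1 H2 H3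
    (α1 := 0.023102) (α2 := 0.003102) (γ1 := 0.019338) (γ2 := 0.00229)
    (β1 := 1.871201) (β2 := 2.180402) (δ1 := 1.566395) (δ2 := 2.179559)
    (by (clear * - hp1 hp2 pw2b; linarith)) (by (clear * - hp1 hp2 pw3b pw4b; linarith)) (by (clear * - hp1 hp2 pv2a; linarith)) (by (clear * - hp1 hp2 pv3a; linarith)) (by (clear * - hp1 hp2 pw2a; linarith)) (by (clear * - hp1 hp2 pw3a; linarith))
    (by (clear * - hp1 hp2 pv2b; linarith)) (by (clear * - hp1 hp2 pv3b pv4b; linarith)) (by norm_num) (by norm_num) (by norm_num) (by norm_num)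
    (by norm_num) (by norm_num) (by norm_num) (tau_c1 hw0) (tau_c2 hv0) He (by norm_num)
    (poly_c (sq_nonneg c) hcs)

end Pool.Agent.M18.Helper23.X2
end
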