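import Mathlib
import Pool.Agent.Helper53.AM.G07
import Pool.Agent.Helper53.AM.G11
import Pool.Agent.Helper53.AM.G23
import Pool.Agent.Helper53.AM.G27
import Pool.Agent.Helper53.AM.G28
import Pool.Agent.Helper53.AM.G29
import Pool.Agent.Helper53.AM.G30

/- Helper95.SP.Crude.Chk -/
section
/-!
Soundness of the box test.
-/

set_option autoImplicit false

namespace Pool.Agent.M18.Helper95.SP.Crude

open Real Finset

/-- the data of a configuration -/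
structure Raw (m n : ℕ) (w X U Q C : ℝ) (R : List ℝ) : Prop where
  hm : 1 ≤ m
  hU : 0 ≤ U
  hUX : U < X
  hQ : 0 ≤ Q
  hC : 0 < C
  hCC : 2 * C ^ 2 = X ^ 2 + U ^ 2
  hR : ∀ x ∈ R, 0 ≤ x
  hw : m * X ^ 2 + U ^ 2 + n * Q ^ 2 + (R.map fun x => x ^ 2).sum = w

/-- the odd inequality -/
def OddI (m n : ℕ) (w X U Q C : ℝ) (R : List ℝ) : Prop :=
  0 ≤ FF m n X U Q C R 1 ∧ 0 ≤ FF m n X U Q C R 3 ∧ ∃ T7 : ℝ,
    (∀ N : ℕ, ∑ i ∈ range N, |FF m n X U Q C R (2 * (i : ℝ) + 7)| / (2 * (i : ℝ) + 7) ≤ T7) ∧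
    FF m n X U Q C R 1 + max (FF m n X U Q C R 5) 0 / 5 + T7 +
      2 / 10 ^ 9 * (4 * dd X U / w ^ 2) ≤ (1 - 1 / 10 ^ 5) * FF m n X U Q C R 3 / 3

/-- the even inequality -/
def EvenI (m n : ℕ) (w X U Q C : ℝ) (R : List ℝ) : Prop :=
  0 ≤ FF m n X U Q C R 2 ∧ ∃ T4 : ℝ,
    (∀ N : ℕ, ∑ i ∈ range N, |FF m n X U Q C R (2 * (i : ℝ) + 4)| / (2 * (i : ℝ) + 4) ^ 2 ≤ T4) ∧
    T4 + 1 / 10 ^ 4 * (4 * dd X U / w ^ 2) ≤ (1 - 1 / 10 ^ 5) * FF m n X U Q C R 2 / 4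

namespace Raw

variable {m n : ℕ} {w X U Q C : ℝ} {R : List ℝ}

theorem hM (h : Raw m n w X U Q C R) : MM R = w - m * X ^ 2 - U ^ 2 - n * Q ^ 2 := by
  have := h.hw
  unfold MM
  linarith

theorem MM_le (h : Raw m n w X U Q C R) {b : Bx} (hb : InB b X U Q) {wq : ℚ} (hw : (wq : ℝ) = w) :
    MM R ≤ ((wq - m * b.X0 ^ 2 - b.U0 ^ 2 - n * b.Q0 ^ 2 : ℚ) : ℝ) := by
  have x0 : (0:ℝ) ≤ (b.X0 : ℝ) := by exact_mod_cast hb.x0
  have u0 : (0:ℝ) ≤ (b.U0 : ℝ) := by exact_mod_cast hb.u0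
  have q0 : (0:ℝ) ≤ (b.Q0 : ℝ) := by exact_mod_cast hb.q0
  have h1 : (m : ℝ) * (b.X0 : ℝ) ^ 2 ≤ m * X ^ 2 :=
    mul_le_mul_of_nonneg_left (pow_le_pow_left₀ x0 hb.hx0 2) (Nat.cast_nonneg _)
  have h2 : (b.U0 : ℝ) ^ 2 ≤ U ^ 2 := pow_le_pow_left₀ u0 hb.hu0 2
  have h3 : (n : ℝ) * (b.Q0 : ℝ) ^ 2 ≤ n * Q ^ 2 :=
    mul_le_mul_of_nonneg_left (pow_le_pow_left₀ q0 hb.hq0 2) (Nat.cast_nonneg _)
  rw [h.hM]
  push_cast
  linarith

theorem le_MM (h : Raw m n w X U Q C R) {b : Bx} (hb : InB b X U Q) {wq : ℚ} (hw : (wq : ℝ) = w) :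
    ((max 0 (wq - m * b.X1 ^ 2 - b.U1 ^ 2 - n * b.Q1 ^ 2) : ℚ) : ℝ) ≤ MM R := by
  have x0 : (0:ℝ) ≤ X := h.hU.trans h.hUX.le
  have h1 : (m : ℝ) * X ^ 2 ≤ m * (b.X1 : ℝ) ^ 2 :=
    mul_le_mul_of_nonneg_left (pow_le_pow_left₀ x0 hb.hx1 2) (Nat.cast_nonneg _)
  have h2 : U ^ 2 ≤ (b.U1 : ℝ) ^ 2 := pow_le_pow_left₀ h.hU hb.hu1 2
  have h3 : (n : ℝ) * Q ^ 2 ≤ n * (b.Q1 : ℝ) ^ 2 :=
    mul_le_mul_of_nonneg_left (pow_le_pow_left₀ h.hQ hb.hq1 2) (Nat.cast_nonneg _)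
  push_cast
  apply max_le (MM_nonneg R)
  rw [h.hM]
  linarith

theorem rest_le (h : Raw m n w X U Q C R) {b : Bx} (hb : InB b X U Q) {wq : ℚ} (hw : (wq : ℝ) = w)
    {rb : ℚ} (hrb : ∀ x ∈ R, x ≤ (rb : ℝ)) {j : ℕ}
    (hj : okJ rb (wq - m * b.X0 ^ 2 - b.U0 ^ 2 - n * b.Q0 ^ 2) j = true) :
    ∀ x ∈ R, x ≤ ((gr2 j : ℚ) : ℝ) := by
  unfold okJ at hj
  simp only [Bool.and_eq_true, Bool.or_eq_true, decide_eq_true_eq] at hj
  intro x hx
  rcases hj.2 with h1 | h1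
  · exact (hrb x hx).trans (by exact_mod_cast h1)
  · have h2 := (sq_le_MM hx).trans (h.MM_le hb hw)
    have h3 : ((wq - m * b.X0 ^ 2 - b.U0 ^ 2 - n * b.Q0 ^ 2 : ℚ) : ℝ) ≤ (((gr2 j) ^ 2 : ℚ) : ℝ) := by
      exact_mod_cast h1
    have h4 : x ^ 2 ≤ ((gr2 j : ℚ) : ℝ) ^ 2 := by
      have := h2.trans h3
      push_cast at this ⊢
      exact this
    have h5 : (0:ℝ) ≤ ((gr2 j : ℚ) : ℝ) := by exact_mod_cast (gr2_pos j).le
    exact le_of_sq_le_sq h4 h5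
where
  le_of_sq_le_sq {a b : ℝ} (h : a ^ 2 ≤ b ^ 2) (hb : 0 ≤ b) : a ≤ b := by
    exact abs_le_of_sq_le_sq' h hb |>.2

end Raw

theorem reg_of {m n : ℕ} {w X U Q C : ℝ} {R : List ℝ} (h : Raw m n w X U Q C R) {b : Bx}
    (hb : InB b X U Q) (h1 : b.X1 ^ 2 ≤ 125 / 100) (h2 : 9 * (b.X1 ^ 2 + b.U1 ^ 2) < 2 * PL)
    (h3 : 9 * b.Q1 ^ 2 ≤ PH) :
    Reg b X U Q C (sqL ((b.X0 ^ 2 + b.U0 ^ 2) / 2)) (sqU ((b.X1 ^ 2 + b.U1 ^ 2) / 2)) := by
  have x0 : (0:ℝ) ≤ (b.X0 : ℝ) := by exact_mod_cast hb.x0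
  have u0 : (0:ℝ) ≤ (b.U0 : ℝ) := by exact_mod_cast hb.u0
  have xn : (0:ℝ) ≤ X := h.hU.trans h.hUX.le
  have hCC := h.hCC
  refine ⟨hb, h1, h2, h3, h.hUX, h.hC, h.hCC, sqL_nonneg _, ?_, ?_, ?_⟩
  · apply sqL_sound h.hC.le
    push_cast
    have a1 := pow_le_pow_left₀ x0 hb.hx0 2
    have a2 := pow_le_pow_left₀ u0 hb.hu0 2
    (clear * - hCC a1 a2; linarith)
  · apply sqU_sound
    push_cast
    have a1 := pow_le_pow_left₀ xn hb.hx1 2
    have a2 := pow_le_pow_left₀ h.hU hb.hu1 2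
    (clear * - hCC a1 a2; linarith)
  · have hPL : PL = 98696 / 10000 := rfl
    rw [hPL] at h2
    have := sqU_le (x := (b.X1 ^ 2 + b.U1 ^ 2) / 2) (y := 10473 / 10000) (by norm_num) (by
      (clear * - h2; linarith))
    (clear * - this; linarith)

theorem sum_split10 {f : ℕ → ℝ} (hf : ∀ i, 0 ≤ f i) {T : ℝ}
    (hT : ∀ N, ∑ i ∈ range N, f (i + 10) ≤ T) (N : ℕ) :
    ∑ i ∈ range N, f i ≤ f 0 + f 1 + f 2 + f 3 + f 4 + f 5 + f 6 + f 7 + f 8 + f 9 + T := by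
  have h1 : ∑ i ∈ range N, f i ≤ ∑ i ∈ range (10 + N), f i := by
    apply sum_le_sum_of_subset_of_nonneg
    · intro i hi
      simp only [Finset.mem_range] at hi ⊢
      omega
    · intro i _ _; exact hf i
  rw [sum_range_add] at h1
  have h2 : ∑ i ∈ range N, f (10 + i) = ∑ i ∈ range N, f (i + 10) := by
    apply sum_congr rfl
    intro i _; rw [add_comm]
  rw [h2] at h1
  have h3 : ∑ i ∈ range 10, f i = f 0 + f 1 + f 2 + f 3 + f 4 + f 5 + f 6 + f 7 + f 8 + f 9 := by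
    simp [sum_range_succ]
  rw [h3] at h1
  (clear * - h1 hT; linarith [hT N])

theorem sum_split2 {f : ℕ → ℝ} (hf : ∀ i, 0 ≤ f i) {T : ℝ}
    (hT : ∀ N, ∑ i ∈ range N, f (i + 2) ≤ T) (N : ℕ) :
    ∑ i ∈ range N, f i ≤ f 0 + f 1 + T := by
  have h1 : ∑ i ∈ range N, f i ≤ ∑ i ∈ range (2 + N), f i := by
    apply sum_le_sum_of_subset_of_nonneg
    · intro i hi
      simp only [Finset.mem_range] at hi ⊢
      omega
    · intro i _ _; exact hf i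
  rw [sum_range_add] at h1
  have h2 : ∑ i ∈ range N, f (2 + i) = ∑ i ∈ range N, f (i + 2) := by
    apply sum_congr rfl
    intro i _; rw [add_comm]
  rw [h2] at h1
  have h3 : ∑ i ∈ range 2, f i = f 0 + f 1 := by
    simp [sum_range_succ]
  rw [h3] at h1
  (clear * - h1 hT; linarith [hT N])

theorem oddI_of {m n : ℕ} {w X U Q C : ℝ} {R : List ℝ} (h : Cfg2 m n w X U Q C R) {b : Bx}
    {c0 c1 : ℚ} (hb : Reg b X U Q C c0 c1) {wq rho Mlo : ℚ} (hw : (wq : ℝ) = w)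
    (hw1 : 13 / 10 ≤ w) (hw2 : w ≤ 24 / 10)
    (hrho : ∀ x ∈ R, x ^ 2 ≤ (rho : ℝ)) (hrho0 : 0 ≤ rho) (hrho1 : rho ≤ 56 / 100)
    (h2 : 9 * b.X1 ^ 2 ≤ PL ∨ m = 1) (h4 : 9 * b.Q1 ^ 2 ≤ PL) {kb j : ℕ} (hj : j < 181)
    (hR : ∀ x ∈ R, x ≤ ((gr2 j : ℚ) : ℝ)) (h0 : 0 ≤ Mlo) (hM : (Mlo : ℝ) ≤ MM R)
    (hst : stOK m n j b Mlo = true) (hodd : 0 ≤ oddQ kb m n j wq c0 c1 b rho Mlo) :
    OddI m n w X U Q C R := by
  have hF1 : 0 ≤ FF m n X U Q C R 1 := by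
    rw [FF_eq, one_mul, one_mul]
    exact mul_nonneg h.R1_pos.le (BB1_nonneg h.hU h.hUX h.hC h.hCC h.hX)
  have ht := third2 h hb hw hrho hrho0 hrho1 h2 h4
  have hf := first2 h hb
  have hD := h.dd_pos
  have hR1 := h.R1_pos
  have hRD : 0 < R1 m n X Q R * dd X U := mul_pos hR1 hD
  have t5 := sQ_sound (kb := kb) (k := 5) h hb (by simp) hj hR h0 hM
  have t7 := sQ_sound (kb := kb) (k := 7) h hb (by simp) hj hR h0 hM
  have t9 := sQ_sound (kb := kb) (k := 9) h hb (by simp) hj hR h0 hM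
  have t11 := sQ_sound (kb := kb) (k := 11) h hb (by simp) hj hR h0 hM
  have t13 := sQ_sound (kb := kb) (k := 13) h hb (by simp) hj hR h0 hM
  have t15 := sQ_sound (kb := kb) (k := 15) h hb (by simp) hj hR h0 hM
  have t17 := sQ_sound (kb := kb) (k := 17) h hb (by simp) hj hR h0 hM
  have t19 := sQ_sound (kb := kb) (k := 19) h hb (by simp) hj hR h0 hM
  have t21 := sQ_sound (kb := kb) (k := 21) h hb (by simp) hj hR h0 hM
  have t23 := sQ_sound (kb := kb) (k := 23) h hb (by simp) hj hR h0 hM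
  have t25 := sQ_sound (kb := kb) (k := 25) h hb (by simp) hj hR h0 hM
  have tt := stQ_sound h hb hj hR h0 hM hst
  set RD := R1 m n X Q R * dd X U with hRDdef
  -- the fifth harmonic
  have t5' : max (FF m n X U Q C R 5) 0 / 5 ≤
      ((if drop5 m n rho b then 0 else sQ kb 5 m n j c0 c1 b Mlo : ℚ) : ℝ) * RD := by
    by_cases hd : drop5 m n rho b = true
    · rw [if_pos hd]
      have := drop5_sound h hb hrho hd
      rw [max_eq_right this]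
      simp
    · rw [if_neg hd]
      refine le_trans ?_ t5
      have e : ((5 : ℕ) : ℝ) = 5 := by norm_num
      rw [e]
      apply div_le_div_of_nonneg_right _ (by norm_num)
      exact max_le (le_abs_self _) (abs_nonneg _)
  -- the tiny term
  have tiny : 2 / 10 ^ 9 * (4 * dd X U / w ^ 2) ≤ 1 / 10 ^ 8 * RD := by
    have e1 := h.R1_ge
    have e2 : (1 - w / 5) ≤ exp (-(w / 5)) := by
      have := add_one_le_exp (-(w / 5)); (clear * - this; linarith)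
    have e3 : 52 / 100 ≤ R1 m n X Q R := by (clear * - hw2 e1 e2; linarith)
    have e4 : (13 / 10 : ℝ) ^ 2 ≤ w ^ 2 := pow_le_pow_left₀ (by norm_num) hw1 2
    have e5 : 4 * dd X U / w ^ 2 ≤ 4 * dd X U / (13 / 10) ^ 2 := by (clear * - hD e4; gcongr)
    have e6 : 52 / 100 * dd X U ≤ RD := mul_le_mul_of_nonneg_right e3 hD.le
    calc 2 / 10 ^ 9 * (4 * dd X U / w ^ 2) ≤ 2 / 10 ^ 9 * (4 * dd X U / (13 / 10) ^ 2) := by (clear * - e5; gcongr)
      _ ≤ 1 / 10 ^ 8 * (52 / 100 * dd X U) := by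
          have : 2 / 10 ^ 9 * (4 * dd X U / (13 / 10) ^ 2) = (800 / 169) / 10 ^ 9 * dd X U := by ring
          rw [this]
          (clear * - hD; nlinarith)
      _ ≤ _ := by gcongr
  -- the test
  have hodd' : (0:ℝ) ≤ ((oddQ kb m n j wq c0 c1 b rho Mlo : ℚ) : ℝ) := by exact_mod_cast hodd
  unfold oddQ at hodd'
  set B1 := b1Q ((b.X0 ^ 2 + b.U0 ^ 2) / 2) ((b.X1 ^ 2 + b.U1 ^ 2) / 2) with hB1
  set G := gQ m n wq (lamQ rho) b with hG
  set S5 : ℚ := (if drop5 m n rho b then 0 else sQ kb 5 m n j c0 c1 b Mlo) with hS5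
  set S7 := sQ kb 7 m n j c0 c1 b Mlo
  set S9 := sQ kb 9 m n j c0 c1 b Mlo
  set S11 := sQ kb 11 m n j c0 c1 b Mlo
  set S13 := sQ kb 13 m n j c0 c1 b Mlo
  set S15 := sQ kb 15 m n j c0 c1 b Mlo
  set S17 := sQ kb 17 m n j c0 c1 b Mlo
  set S19 := sQ kb 19 m n j c0 c1 b Mlo
  set S21 := sQ kb 21 m n j c0 c1 b Mlo
  set S23 := sQ kb 23 m n j c0 c1 b Mlo
  set S25 := sQ kb 25 m n j c0 c1 b Mlo
  set ST := stQ m n j b Mlo
  rw [Rat.cast_sub, Rat.cast_sub, Rat.cast_sub, Rat.cast_sub, Rat.cast_sub, Rat.cast_sub,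
    Rat.cast_sub, Rat.cast_sub, Rat.cast_sub, Rat.cast_sub, Rat.cast_sub, Rat.cast_sub,
    Rat.cast_sub, Rat.cast_mul] at hodd'
  have eG : (((1 - 1 / 10 ^ 5) * G - 1 : ℚ) : ℝ) = (1 - 1 / 10 ^ 5) * (G : ℝ) - 1 := by
    push_cast; ring
  have eT : ((1 / 10 ^ 8 : ℚ) : ℝ) = 1 / 10 ^ 8 := by push_cast; ring
  rw [eG, eT] at hodd'
  have nn : ∀ {a b c : ℝ}, 0 ≤ a → a ≤ b * c → 0 < c → 0 ≤ b := by
    intro a b c h1 h2 h3
    by_contra hcon
    push Not at hcon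
    (clear * - h1 h2 h3 hcon; nlinarith)
  have absn : ∀ k : ℕ, 0 ≤ |FF m n X U Q C R k| / k := fun k => by (clear * -; positivity)
  have n5 : (0:ℝ) ≤ ((S5 : ℚ) : ℝ) := nn (by (clear * -; positivity)) t5' hRD
  have n7 := nn (absn 7) t7 hRD
  have n9 := nn (absn 9) t9 hRD
  have n11 := nn (absn 11) t11 hRD
  have n13 := nn (absn 13) t13 hRD
  have n15 := nn (absn 15) t15 hRD
  have n17 := nn (absn 17) t17 hRD
  have n19 := nn (absn 19) t19 hRD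
  have n21 := nn (absn 21) t21 hRD
  have n23 := nn (absn 23) t23 hRD
  have n25 := nn (absn 25) t25 hRD
  have nT : (0:ℝ) ≤ ((ST : ℚ) : ℝ) := by
    have := tt 0
    simp only [range_zero, sum_empty] at this
    exact nn le_rfl this hRD
  have hB1n : (0:ℝ) ≤ ((B1 : ℚ) : ℝ) := by
    have : 0 ≤ B1 := by
      rw [hB1]; unfold b1Q; (clear * -; positivity)
    exact_mod_cast this
  have hprodn : 0 ≤ ((B1 : ℚ) : ℝ) * ((1 - 1 / 10 ^ 5) * (G : ℝ) - 1) := by (clear * - hodd' n5 n7 n9 n11 n13 n15 n17 n19 n21 n23 n25 nT; linarith)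
  have hGn : 0 ≤ (1 - 1 / 10 ^ 5) * (G : ℝ) - 1 := by
    by_contra hcon
    push Not at hcon
    have hB0 : ((B1 : ℚ) : ℝ) = 0 := by
      by_contra hne
      have : 0 < ((B1 : ℚ) : ℝ) := lt_of_le_of_ne hB1n (Ne.symm hne)
      (clear * - hodd' n5 n7 n9 n11 n13 n15 n17 n19 n21 n23 n25 nT hB1n hcon; nlinarith)
    rw [hB0] at hodd'
    (clear * - hodd' n5 n7 n9 n11 n13 n15 n17 n19 n21 n23 n25 nT; linarith)
  have hG0 : 0 ≤ (G : ℝ) := by (clear * - hGn; linarith)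
  have hF3 : 0 ≤ FF m n X U Q C R 3 := by
    have := mul_nonneg hG0 hF1
    (clear * - ht this; linarith)
  refine ⟨hF1, hF3, (S7 + S9 + S11 + S13 + S15 + S17 + S19 + S21 + S23 + S25 + ST) * RD, ?_, ?_⟩
  · intro N
    have hs := sum_split10 (f := fun i : ℕ => |FF m n X U Q C R (2 * (i : ℝ) + 7)| / (2 * (i : ℝ) + 7))
      (fun i => by (clear * -; positivity)) (T := ((ST : ℚ) : ℝ) * RD) (by
        intro N
        have := tt N
        refine le_trans (le_of_eq ?_) this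
        apply sum_congr rfl
        intro i _
        have e : 2 * (((i + 10 : ℕ)) : ℝ) + 7 = 2 * (i : ℝ) + 27 := by push_cast; ring
        simp only [e]) N
    refine hs.trans ?_
    push_cast at t7 t9 t11 t13 t15 t17 t19 t21 t23 t25 ⊢
    norm_num at t7 t9 t11 t13 t15 t17 t19 t21 t23 t25 ⊢
    (clear * - t7 t9 t11 t13 t15 t17 t19 t21 t23 t25; linarith)
  · have k1 : FF m n X U Q C R 1 * ((1 - 1 / 10 ^ 5) * (G : ℝ)) ≤
        (1 - 1 / 10 ^ 5) * FF m n X U Q C R 3 / 3 := by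
      have := mul_le_mul_of_nonneg_left ht (by norm_num : (0:ℝ) ≤ 1 - 1 / 10 ^ 5)
      (clear * - ht; linarith)
    have k2 : ((B1 : ℚ) : ℝ) * RD * ((1 - 1 / 10 ^ 5) * (G : ℝ) - 1) ≤
        FF m n X U Q C R 1 * ((1 - 1 / 10 ^ 5) * (G : ℝ) - 1) :=
      mul_le_mul_of_nonneg_right hf hGn
    have k3 := mul_le_mul_of_nonneg_right hodd' hRD.le
    rw [zero_mul] at k3
    (clear * - tiny ht t5' k2 k3; nlinarith)

theorem evenI_of {m n : ℕ} {w X U Q C : ℝ} {R : List ℝ} (h : Cfg2 m n w X U Q C R) {b : Bx}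
    {c0 c1 : ℚ} (hb : Reg b X U Q C c0 c1) {wq Mhi Mlo : ℚ} (hw : (wq : ℝ) = w) (hw0 : 0 < w)
    {kb j : ℕ} (hj : j < 181)
    (hR : ∀ x ∈ R, x ≤ ((gr2 j : ℚ) : ℝ)) (h0 : 0 ≤ Mlo) (hM : (Mlo : ℝ) ≤ MM R)
    (hM' : MM R ≤ (Mhi : ℝ))
    (hst : seOK m n j b Mlo = true) (hev : 0 ≤ evenQ kb m n j wq c0 c1 b Mhi Mlo) :
    EvenI m n w X U Q C R := by
  have hD := h.dd_pos
  have g2 := g2Q_sound h hb hM'
  have g2n := g2Q_nonneg h hb hM'
  have s4 := s4Q_sound (kb := kb) h hb h0 hM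
  have s6 := s6Q_sound (kb := kb) h hb hj hR h0 hM
  have se := seQ_sound h hb hj hR h0 hM hst
  have hev' : (0:ℝ) ≤ ((evenQ kb m n j wq c0 c1 b Mhi Mlo : ℚ) : ℝ) := by exact_mod_cast hev
  unfold evenQ at hev'
  push_cast at hev'
  rw [hw] at hev'
  have g2n' : (0:ℝ) ≤ ((g2Q m n b Mhi : ℚ) : ℝ) := by exact_mod_cast g2n
  have hF2 : 0 ≤ FF m n X U Q C R 2 := by
    have := mul_nonneg g2n' hD.le
    (clear * - g2 this; linarith)
  refine ⟨hF2, (((s4Q kb m n c0 c1 b Mlo : ℚ) : ℝ) + ((s6Q kb m n j c0 c1 b Mlo : ℚ) : ℝ) +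
    ((seQ m n j b Mlo : ℚ) : ℝ)) * dd X U, ?_, ?_⟩
  · intro N
    have hs := sum_split2 (f := fun i : ℕ => |FF m n X U Q C R (2 * (i : ℝ) + 4)| /
        (2 * (i : ℝ) + 4) ^ 2)
      (fun i => by (clear * -; positivity)) (T := ((seQ m n j b Mlo : ℚ) : ℝ) * dd X U) (by
        intro N
        have := se N
        refine le_trans (le_of_eq ?_) this
        apply sum_congr rfl
        intro i _
        have e : 2 * (((i + 2 : ℕ)) : ℝ) + 4 = 2 * (i : ℝ) + 8 := by push_cast; ring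
        simp only [e]) N
    refine hs.trans ?_
    push_cast
    have e4 : (2:ℝ) * 0 + 4 = 4 := by norm_num
    have e6 : (2:ℝ) * 1 + 4 = 6 := by norm_num
    rw [e4, e6]
    have e16 : (4:ℝ) ^ 2 = 16 := by norm_num
    have e36 : (6:ℝ) ^ 2 = 36 := by norm_num
    rw [e16, e36]
    (clear * - s4 s6; linarith)
  · have k1 := mul_le_mul_of_nonneg_right hev' hD.le
    rw [zero_mul] at k1
    have k2 := mul_le_mul_of_nonneg_left g2 (by norm_num : (0:ℝ) ≤ 1 - 1 / 10 ^ 5)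
    have e : 1 / 10 ^ 4 * (4 * dd X U / w ^ 2) = 4 / 10 ^ 4 / w ^ 2 * dd X U := by ring
    rw [e]
    (clear * - g2 k1; nlinarith)

theorem gr2_bound {R : List ℝ} {j : ℕ} (hj : j < 181) (h : ∀ x ∈ R, x ≤ ((gr2 j : ℚ) : ℝ)) :
    ∀ x ∈ R, x ≤ 3 / 4 := by
  intro x hx
  refine (h x hx).trans ?_
  have : ((gr2 j : ℚ) : ℝ) ≤ ((3 / 4 : ℚ) : ℝ) := by exact_mod_cast gr2_le hj
  push_cast at this
  exact this

theorem chkO_sound {m n : ℕ} {w X U Q C : ℝ} {R : List ℝ} (h : Raw m n w X U Q C R) {b : Bx}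
    (hb : InB b X U Q) {wq rb : ℚ} (hw : (wq : ℝ) = w) (hw1 : 13 / 10 ≤ w) (hw2 : w ≤ 24 / 10)
    (hrb : ∀ x ∈ R, x ≤ (rb : ℝ)) (hc : chkO m n wq rb b = true) : OddI m n w X U Q C R := by
  unfold chkO at hc
  simp only [Bool.and_eq_true, Bool.or_eq_true, decide_eq_true_eq] at hc
  obtain ⟨⟨⟨⟨⟨⟨⟨k1, k2⟩, k3⟩, k4⟩, k5⟩, k6⟩, k7⟩, k8⟩ := hc
  have hL := PL_lt
  have hPLPH : PL ≤ PH := by decide +kernel
  have hreg := reg_of h hb k1 k3 (k4.trans hPLPH)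
  have hR := h.rest_le hb hw hrb k6
  have hj : idx rb (wq - m * b.X0 ^ 2 - b.U0 ^ 2 - n * b.Q0 ^ 2) < 181 := by
    unfold okJ at k6
    simp only [Bool.and_eq_true, Bool.or_eq_true, decide_eq_true_eq] at k6
    exact k6.1
  have hMhi := h.MM_le hb hw
  have hMlo := h.le_MM hb hw
  have xn : (0:ℝ) ≤ X := h.hU.trans h.hUX.le
  have hcfg : Cfg2 m n w X U Q C R := by
    refine ⟨h.hm, h.hU, h.hUX, h.hQ, h.hC, h.hCC, ?_, ?_, ?_, ?_, h.hw⟩
    · have a1 := pow_le_pow_left₀ xn hb.hx1 2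
      have a2 : ((b.X1 ^ 2 : ℚ) : ℝ) ≤ ((125 / 100 : ℚ) : ℝ) := by exact_mod_cast k1
      push_cast at a2
      (clear * - a1 a2; linarith)
    · have a1 := pow_le_pow_left₀ xn hb.hx1 2
      have a2 := pow_le_pow_left₀ h.hU hb.hu1 2
      have a3 : ((9 * (b.X1 ^ 2 + b.U1 ^ 2) : ℚ) : ℝ) < ((2 * PL : ℚ) : ℝ) := by exact_mod_cast k3
      push_cast at a3
      have := h.hCC
      (clear * - hL a1 a2 a3 this; linarith)
    · have a1 := pow_le_pow_left₀ h.hQ hb.hq1 2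
      have a3 : ((9 * b.Q1 ^ 2 : ℚ) : ℝ) ≤ ((PL : ℚ) : ℝ) := by exact_mod_cast k4
      push_cast at a3
      (clear * - hL a1 a3; linarith)
    · intro x hx
      exact ⟨h.hR x hx, gr2_bound hj hR x hx⟩
  have hrho : ∀ x ∈ R, x ^ 2 ≤
      ((min (rb ^ 2) (wq - m * b.X0 ^ 2 - b.U0 ^ 2 - n * b.Q0 ^ 2) : ℚ) : ℝ) := by
    intro x hx
    rw [Rat.cast_min]
    apply le_min
    · push_cast
      exact pow_le_pow_left₀ (h.hR x hx) (hrb x hx) 2
    · exact (sq_le_MM hx).trans hMhi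
  have hrho0 : 0 ≤ min (rb ^ 2) (wq - m * b.X0 ^ 2 - b.U0 ^ 2 - n * b.Q0 ^ 2) := by
    apply le_min (sq_nonneg _)
    have := (MM_nonneg R).trans hMhi
    exact_mod_cast this
  have h0 : (0:ℚ) ≤ max 0 (wq - m * b.X1 ^ 2 - b.U1 ^ 2 - n * b.Q1 ^ 2) := le_max_left _ _
  rcases k8 with (k8 | k8) | k8
  · exact oddI_of hcfg hreg hw hw1 hw2 hrho hrho0 k5 k2 k4 hj hR h0 hMlo k7 k8
  · exact oddI_of hcfg hreg hw hw1 hw2 hrho hrho0 k5 k2 k4 hj hR h0 hMlo k7 k8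
  · exact oddI_of hcfg hreg hw hw1 hw2 hrho hrho0 k5 k2 k4 hj hR h0 hMlo k7 k8

theorem chkE_sound {m n : ℕ} {w X U Q C : ℝ} {R : List ℝ} (h : Raw m n w X U Q C R) {b : Bx}
    (hb : InB b X U Q) {wq rb : ℚ} (hw : (wq : ℝ) = w) (hw0 : 0 < w)
    (hrb : ∀ x ∈ R, x ≤ (rb : ℝ)) (hc : chkE m n wq rb b = true) : EvenI m n w X U Q C R := by
  unfold chkE at hc
  simp only [Bool.and_eq_true, Bool.or_eq_true, decide_eq_true_eq] at hc
  obtain ⟨⟨⟨⟨⟨k1, k3⟩, k4⟩, k6⟩, k7⟩, k8⟩ := hc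
  have hL := PL_lt
  have hQ0 : 0 ≤ b.Q1 := by
    have : (0:ℝ) ≤ (b.Q1 : ℝ) := h.hQ.trans hb.hq1
    exact_mod_cast this
  have hreg := reg_of h hb k1 k3 (by
    have hPH : PH = 98697 / 10000 := rfl
    rw [hPH]; (clear * - k4 hQ0; nlinarith))
  have hR := h.rest_le hb hw hrb k6
  have hj : idx rb (wq - m * b.X0 ^ 2 - b.U0 ^ 2 - n * b.Q0 ^ 2) < 181 := by
    unfold okJ at k6
    simp only [Bool.and_eq_true, Bool.or_eq_true, decide_eq_true_eq] at k6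
    exact k6.1
  have hMhi := h.MM_le hb hw
  have hMlo := h.le_MM hb hw
  have xn : (0:ℝ) ≤ X := h.hU.trans h.hUX.le
  have hcfg : Cfg2 m n w X U Q C R := by
    refine ⟨h.hm, h.hU, h.hUX, h.hQ, h.hC, h.hCC, ?_, ?_, ?_, ?_, h.hw⟩
    · have a1 := pow_le_pow_left₀ xn hb.hx1 2
      have a2 : ((b.X1 ^ 2 : ℚ) : ℝ) ≤ ((125 / 100 : ℚ) : ℝ) := by exact_mod_cast k1
      push_cast at a2
      (clear * - a1 a2; linarith)
    · have a1 := pow_le_pow_left₀ xn hb.hx1 2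
      have a2 := pow_le_pow_left₀ h.hU hb.hu1 2
      have a3 : ((9 * (b.X1 ^ 2 + b.U1 ^ 2) : ℚ) : ℝ) < ((2 * PL : ℚ) : ℝ) := by exact_mod_cast k3
      push_cast at a3
      have := h.hCC
      (clear * - hL a1 a2 a3 this; linarith)
    · have a1 : Q ≤ 1 := by
        refine hb.hq1.trans ?_
        exact_mod_cast k4
      have := pi_gt_three
      (clear * - a1 this h; nlinarith [h.hQ])
    · intro x hx
      exact ⟨h.hR x hx, gr2_bound hj hR x hx⟩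
  have h0 : (0:ℚ) ≤ max 0 (wq - m * b.X1 ^ 2 - b.U1 ^ 2 - n * b.Q1 ^ 2) := le_max_left _ _
  rcases k8 with k8 | k8
  · exact evenI_of hcfg hreg hw hw0 hj hR h0 hMlo hMhi k7 k8
  · exact evenI_of hcfg hreg hw hw0 hj hR h0 hMlo hMhi k7 k8

/-- both inequalities -/
def Both (m n : ℕ) (w : ℝ) (mu : ℚ) (X U Q C : ℝ) (R : List ℝ) : Prop :=
  OddI m n w X U Q C R ∧ EvenI m n (mu ^ 2 * w) (mu * X) (mu * U) (mu * Q) (mu * C)
    (R.map fun x => mu * x)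

theorem map_sq_sum (mu : ℝ) (R : List ℝ) :
    ((R.map fun x => mu * x).map fun x => x ^ 2).sum = mu ^ 2 * (R.map fun x => x ^ 2).sum := by
  induction R with
  | nil => simp
  | cons a R ih =>
    simp only [List.map_cons, List.sum_cons]
    rw [ih]
    ring

theorem Raw.scale {m n : ℕ} {w X U Q C : ℝ} {R : List ℝ} (h : Raw m n w X U Q C R) {mu : ℚ}
    (hmu : 0 < mu) : Raw m n (mu ^ 2 * w) (mu * X) (mu * U) (mu * Q) (mu * C)
      (R.map fun x => mu * x) := by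
  have hm : (0:ℝ) < (mu : ℝ) := by exact_mod_cast hmu
  refine ⟨h.hm, mul_nonneg hm.le h.hU, mul_lt_mul_of_pos_left h.hUX hm, mul_nonneg hm.le h.hQ,
    mul_pos hm h.hC, ?_, ?_, ?_⟩
  · have := h.hCC
    (clear * - this; nlinarith [sq_nonneg (mu : ℝ)])
  · intro x hx
    obtain ⟨y, hy, rfl⟩ := List.mem_map.mp hx
    exact mul_nonneg hm.le (h.hR y hy)
  · rw [map_sq_sum, ← h.hw]
    ring

theorem InB.scale {b : Bx} {X U Q : ℝ} (h : InB b X U Q) {mu : ℚ} (hmu : 0 < mu) :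
    InB (b.scale mu) (mu * X) (mu * U) (mu * Q) := by
  have hm : (0:ℝ) < (mu : ℝ) := by exact_mod_cast hmu
  unfold Bx.scale
  refine ⟨mul_nonneg hmu.le h.x0, mul_nonneg hmu.le h.u0, mul_nonneg hmu.le h.q0, ?_, ?_, ?_, ?_,
    ?_, ?_⟩ <;> push_cast
  · exact mul_le_mul_of_nonneg_left h.hx0 hm.le
  · exact mul_le_mul_of_nonneg_left h.hx1 hm.le
  · exact mul_le_mul_of_nonneg_left h.hu0 hm.le
  · exact mul_le_mul_of_nonneg_left h.hu1 hm.le
  · exact mul_le_mul_of_nonneg_left h.hq0 hm.le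
  · exact mul_le_mul_of_nonneg_left h.hq1 hm.le

theorem chk_sound {m n : ℕ} {w X U Q C : ℝ} {R : List ℝ} (h : Raw m n w X U Q C R) {b : Bx}
    (hb : InB b X U Q) {wq mu rb : ℚ} (hw : (wq : ℝ) = w) (hw1 : 13 / 10 ≤ w) (hw2 : w ≤ 24 / 10)
    (hmu : 0 < mu) (hrb : ∀ x ∈ R, x ≤ (rb : ℝ)) (hne : R = [] → 0 ≤ rb)
    (hc : chk m n wq mu rb b = true) : Both m n w mu X U Q C R := by
  have hm : (0:ℝ) < (mu : ℝ) := by exact_mod_cast hmu
  unfold chk at hc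
  simp only [Bool.and_eq_true, Bool.or_eq_true, decide_eq_true_eq] at hc
  rcases hc with ((hc | hc) | hc) | hc
  · exfalso
    have : (b.X1 : ℝ) ≤ (b.U0 : ℝ) := by exact_mod_cast hc
    (clear * - this hb h; linarith [hb.hx1, hb.hu0, h.hUX])
  · exfalso
    have h1 := (MM_nonneg R).trans (h.MM_le hb hw)
    have h2 : ((wq - m * b.X0 ^ 2 - b.U0 ^ 2 - n * b.Q0 ^ 2 : ℚ) : ℝ) < ((0 : ℚ) : ℝ) := by
      exact_mod_cast hc
    push_cast at h1 h2
    (clear * - h1 h2; linarith)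
  · exfalso
    rcases R with _ | ⟨x, R⟩
    · exact absurd (hne rfl) (not_le.mpr hc)
    · have h1 := hrb x (by simp)
      have h2 := h.hR x (by simp)
      have h3 : (rb : ℝ) < ((0:ℚ) : ℝ) := by exact_mod_cast hc
      push_cast at h3
      (clear * - h1 h2 h3; linarith)
  · obtain ⟨he, ho⟩ := hc
    refine ⟨chkO_sound h hb hw hw1 hw2 hrb ho, ?_⟩
    have hrb' : ∀ x ∈ (R.map fun x => (mu : ℝ) * x), x ≤ ((mu * rb : ℚ) : ℝ) := by
      intro x hx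
      obtain ⟨y, hy, rfl⟩ := List.mem_map.mp hx
      push_cast
      exact mul_le_mul_of_nonneg_left (hrb y hy) hm.le
    have hws : (((mu ^ 2 * wq : ℚ)) : ℝ) = mu ^ 2 * w := by push_cast; rw [hw]
    have hpos : 0 < (mu : ℝ) ^ 2 * w := by (clear * - hmu hw1; positivity)
    by_cases h1 : mu = 1
    · rw [if_pos h1] at he
      subst h1
      have hid : (R.map fun x => ((1 : ℚ) : ℝ) * x) = R := by simp
      rw [hid]
      have := chkE_sound h hb hw (by linarith) hrb he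
      simpa using this
    · rw [if_neg h1] at he
      exact chkE_sound (h.scale hmu) (hb.scale hmu) hws hpos hrb' he

theorem cov_sound {m n : ℕ} {w X U Q C : ℝ} {R : List ℝ} (h : Raw m n w X U Q C R)
    {wq mu : ℚ} (hw : (wq : ℝ) = w) (hw1 : 13 / 10 ≤ w) (hw2 : w ≤ 24 / 10)
    (hmu : 0 < mu) {emp : Bx → Bool} {rbf : Bx → ℚ}
    (hemp : ∀ b, InB b X U Q → emp b = true → False)
    (hrbf : ∀ b, InB b X U Q → (∀ x ∈ R, x ≤ ((rbf b : ℚ) : ℝ)) ∧ (R = [] → 0 ≤ rbf b)) :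
    ∀ (T : Tr) (b : Bx), InB b X U Q → cov m n wq mu emp rbf T b = true →
      Both m n w mu X U Q C R := by
  intro T
  induction T with
  | l =>
    intro b hb hc
    unfold cov at hc
    rw [Bool.or_eq_true] at hc
    rcases hc with hc | hc
    · exact (hemp b hb hc).elim
    · exact chk_sound h hb hw hw1 hw2 hmu (hrbf b hb).1 (hrbf b hb).2 hc
  | x s t ihs iht =>
    intro b hb hc
    unfold cov at hc
    rw [Bool.and_eq_true] at hc
    have e : (((b.X0 + b.X1) / 2 : ℚ) : ℝ) = ((b.X0 : ℝ) + b.X1) / 2 := by push_cast; ring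
    rcases le_total X (((b.X0 + b.X1) / 2 : ℚ) : ℝ) with h1 | h1
    · exact ihs b.xl ⟨hb.x0, hb.u0, hb.q0, hb.hx0, h1, hb.hu0, hb.hu1, hb.hq0, hb.hq1⟩ hc.1
    · refine iht b.xr ⟨?_, hb.u0, hb.q0, h1, hb.hx1, hb.hu0, hb.hu1, hb.hq0, hb.hq1⟩ hc.2
      have h2 : b.X0 ≤ b.X1 := by exact_mod_cast hb.hx0.trans hb.hx1
      show 0 ≤ (b.X0 + b.X1) / 2
      (clear * - h2 hb; linarith [hb.x0])
  | u s t ihs iht =>
    intro b hb hc
    unfold cov at hc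
    rw [Bool.and_eq_true] at hc
    rcases le_total U (((b.U0 + b.U1) / 2 : ℚ) : ℝ) with h1 | h1
    · exact ihs b.ul ⟨hb.x0, hb.u0, hb.q0, hb.hx0, hb.hx1, hb.hu0, h1, hb.hq0, hb.hq1⟩ hc.1
    · refine iht b.ur ⟨hb.x0, ?_, hb.q0, hb.hx0, hb.hx1, h1, hb.hu1, hb.hq0, hb.hq1⟩ hc.2
      have h2 : b.U0 ≤ b.U1 := by exact_mod_cast hb.hu0.trans hb.hu1
      show 0 ≤ (b.U0 + b.U1) / 2
      (clear * - h2 hb; linarith [hb.u0])
  | q s t ihs iht =>
    intro b hb hc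
    unfold cov at hc
    rw [Bool.and_eq_true] at hc
    rcases le_total Q (((b.Q0 + b.Q1) / 2 : ℚ) : ℝ) with h1 | h1
    · exact ihs b.ql ⟨hb.x0, hb.u0, hb.q0, hb.hx0, hb.hx1, hb.hu0, hb.hu1, hb.hq0, h1⟩ hc.1
    · refine iht b.qr ⟨hb.x0, hb.u0, ?_, hb.hx0, hb.hx1, hb.hu0, hb.hu1, h1, hb.hq1⟩ hc.2
      have h2 : b.Q0 ≤ b.Q1 := by exact_mod_cast hb.hq0.trans hb.hq1
      show 0 ≤ (b.Q0 + b.Q1) / 2
      (clear * - h2 hb; linarith [hb.q0])

end Pool.Agent.M18.Helper95.SP.Crude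
end

/- Helper95.SP.Crude.Final -/
section
/-!
From the box test to the exclusion of pairs.
-/

set_option autoImplicit false

namespace Pool.Agent.M18.Helper95.SP.Crude

open Real Finset Pool.Agent.M18.Slab Pool.Agent.M18.Helper89.SP

theorem PP_map (θ k : ℝ) (l : List ℝ) : PP (l.map fun x => θ * x) k = PP l (k * θ) := by
  unfold PP
  rw [List.map_map]
  congr 1
  apply List.map_congr_left
  intro x _
  simp only [Function.comp]
  congr 1
  ring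

theorem LL_map (θ : ℝ) (m n : ℕ) (x q : ℝ) (l : List ℝ) :
    LL m n (θ * x) (θ * q) (l.map fun x => θ * x) = (LL m n x q l).map fun x => θ * x := by
  unfold LL
  rw [List.map_append, List.map_append, List.map_replicate, List.map_replicate]

theorem FF_scale (θ : ℝ) (m n : ℕ) (x u q c k : ℝ) (l : List ℝ) :
    FF m n (θ * x) (θ * u) (θ * q) (θ * c) (l.map fun x => θ * x) k =
      Ker.PB (LL m n x q l) x u c (k * θ) := by
  unfold FF Ker.PB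
  rw [LL_map, PP_map]
  congr 1
  unfold BB
  rw [mul_assoc, mul_assoc, mul_assoc]

theorem sq_LL (m n : ℕ) (hm : 1 ≤ m) (x q : ℝ) (l : List ℝ) :
    ((LL m n x q l).map fun x => x ^ 2).sum + x ^ 2 =
      m * x ^ 2 + n * q ^ 2 + (l.map fun x => x ^ 2).sum := by
  unfold LL
  rw [List.map_append, List.map_append, List.map_replicate, List.map_replicate, List.sum_append,
    List.sum_append, List.sum_replicate, List.sum_replicate, nsmul_eq_mul, nsmul_eq_mul,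
    Nat.cast_sub hm]
  push_cast
  ring

/-- the numerical conditions on the node -/
def okN (th mu nu : ℚ) : Bool :=
  decide (0 < th) && decide (0 < mu) && decide (13 / 10 ≤ th ^ 2) && decide (th ^ 2 ≤ 24 / 10) &&
    decide (1015 / 1000 * (2 * (mu * th)) ≤ 3141592 / 1000000) &&
    (decide (mu = 1) || decide (1 < mu) &&
      decide (mu * th / 250 ≤ 3141592 / 1000000 * (mu - 1))) &&
    decide (3141593 / 1000000 + 2 * th / 1000 ≤ 2 * th * nu)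

theorem ex_of_both {m n : ℕ} {th mu nu : ℚ} {x u q ν : ℝ} {l : List ℝ} (hm : 1 ≤ m)
    (hu : 0 ≤ u) (hux : u < x) (hsq : sq l + m * x ^ 2 + u ^ 2 + n * q ^ 2 = 1)
    (hN : okN th mu nu = true) (hν : ((nu : ℚ) : ℝ) = ν)
    (hB : ∀ c : ℝ, 0 < c → 2 * c ^ 2 = x ^ 2 + u ^ 2 →
      Both m n ((th : ℝ) ^ 2) mu (th * x) (th * u) (th * q) (th * c) (l.map fun x => (th : ℝ) * x)) :
    PairEx (LL m n x q l) x u ν := by
  unfold okN at hN
  simp only [Bool.and_eq_true, Bool.or_eq_true, decide_eq_true_eq] at hN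
  obtain ⟨⟨⟨⟨⟨⟨n1, n2⟩, n3⟩, n4⟩, n5⟩, n6⟩, n7⟩ := hN
  have th0 : (0:ℝ) < (th : ℝ) := by exact_mod_cast n1
  have mu0 : (0:ℝ) < (mu : ℝ) := by exact_mod_cast n2
  have hπ1 := pi_gt_d6
  have hπ2 := pi_lt_d6
  have hπ0 := pi_pos
  intro s hs c hc0 hc
  have hcpos : 0 < c := by
    rcases hc0.eq_or_lt with h | h
    · rw [← h] at hc
      have : 0 < x := hu.trans_lt hux
      (clear * - hc this; nlinarith [sq_nonneg u, pow_pos this 2])
    · exact h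
  obtain ⟨⟨o1, o3, T7, oT, oI⟩, e2, T4, eT, eI⟩ := hB c hcpos hc
  set θ : ℝ := (th : ℝ) with hθ
  have hmap : (l.map fun x => θ * x).map (fun x => (mu : ℝ) * x) =
      l.map fun x => ((mu : ℝ) * θ) * x := by
    rw [List.map_map]
    apply List.map_congr_left
    intro y _
    simp only [Function.comp]
    ring
  have hscale : ∀ k : ℝ, FF m n (mu * (θ * x)) (mu * (θ * u)) (mu * (θ * q)) (mu * (θ * c))
      ((l.map fun x => θ * x).map fun x => (mu : ℝ) * x) k =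
      Ker.PB (LL m n x q l) x u c (k * (mu * θ)) := by
    intro k
    rw [hmap, ← mul_assoc, ← mul_assoc, ← mul_assoc, ← mul_assoc]
    exact FF_scale _ _ _ _ _ _ _ _ _
  simp_rw [FF_scale] at o1 o3 oT oI
  simp_rw [hscale] at e2 eT eI
  have t0 : π / (2 * (π / (2 * θ))) = θ := by (clear * - th0; field_simp)
  have te0 : π / (2 * (π / (2 * (mu * θ)))) = mu * θ := by (clear * - th0 n2; field_simp)
  have dd1 : 4 * dd (θ * x) (θ * u) / (θ ^ 2) ^ 2 = (x ^ 2 - u ^ 2) ^ 2 := by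
    unfold dd; field_simp; ring
  have dd2 : 4 * dd (mu * (θ * x)) (mu * (θ * u)) / (mu ^ 2 * θ ^ 2) ^ 2 = (x ^ 2 - u ^ 2) ^ 2 := by
    unfold dd; field_simp; ring
  rw [dd1] at oI
  rw [dd2] at eI
  have hsum : x ^ 2 + u ^ 2 + ((LL m n x q l).map fun x => x ^ 2).sum = 1 := by
    have := sq_LL m n hm x q l
    unfold Pool.Agent.M18.Helper89.SP.sq at hsq
    (clear * - hsq this; linarith)
  have n5' : 1015 / 1000 * (2 * ((mu : ℝ) * θ)) ≤ 3141592 / 1000000 := by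
    have : ((1015 / 1000 * (2 * (mu * th)) : ℚ) : ℝ) ≤ ((3141592 / 1000000 : ℚ) : ℝ) := by
      exact_mod_cast n5
    push_cast at this
    exact this
  have n7' : 3141593 / 1000000 + 2 * θ / 1000 ≤ 2 * θ * ν := by
    have : ((3141593 / 1000000 + 2 * th / 1000 : ℚ) : ℝ) ≤ ((2 * th * nu : ℚ) : ℝ) := by
      exact_mod_cast n7
    push_cast at this
    rw [hν] at this
    exact this
  have k1 : (1.015 : ℝ) ≤ π / (2 * (mu * θ)) := by
    rw [le_div_iff₀ (by (clear * - n2 n1; positivity))]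
    (clear * - hπ1 n5'; linarith)
  have k2 : π / (2 * (mu * θ)) = π / (2 * θ) ∨ π / (2 * (mu * θ)) + 1 / 500 ≤ π / (2 * θ) := by
    rcases n6 with n6 | ⟨n6, n8⟩
    · left; rw [n6]; norm_num
    · right
      have n6' : (1:ℝ) < (mu : ℝ) := by exact_mod_cast n6
      have n8' : (mu : ℝ) * θ / 250 ≤ 3141592 / 1000000 * ((mu : ℝ) - 1) := by
        have : ((mu * th / 250 : ℚ) : ℝ) ≤ ((3141592 / 1000000 * (mu - 1) : ℚ) : ℝ) := by
          exact_mod_cast n8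
        push_cast at this
        exact this
      have e : π / (2 * θ) - π / (2 * (mu * θ)) = π * (mu - 1) / (2 * (mu * θ)) := by
        (clear * - n2 th0; field_simp)
      have : 1 / 500 ≤ π * (mu - 1) / (2 * (mu * θ)) := by
        rw [le_div_iff₀ (by positivity)]
        have : 3141592 / 1000000 * ((mu : ℝ) - 1) ≤ π * (mu - 1) :=
          mul_le_mul_of_nonneg_right (by (clear * - hπ1; linarith)) (by (clear * - n6'; linarith))
        (clear * - n8' this; linarith)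
      (clear * - e this; linarith)
  have k3 : π / (2 * θ) + 1 / 1000 ≤ s := by
    refine le_trans ?_ hs
    rw [← sub_nonneg]
    have e : ν - (π / (2 * θ) + 1 / 1000) = (2 * θ * ν - (π + 2 * θ / 1000)) / (2 * θ) := by
      (clear * - th0; field_simp)
    rw [e]
    apply div_nonneg _ (by positivity)
    (clear * - hπ2 n7'; linarith)
  have key := pair_exclusion2 hu hux hc0 hc (LL m n x q l) hsum k1 k2 (T7 := T7) (T4 := T4)
    (s := s)
  rw [t0, te0] at key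
  have o1' : 0 ≤ Ker.PB (LL m n x q l) x u c θ := by rwa [one_mul] at o1
  rw [one_mul] at oI
  exact key o1' o3 oT oI e2 eT eI k3

theorem ex_of_cov {m n : ℕ} {th mu nu : ℚ} {x u q ν : ℝ} {l : List ℝ} (hm : 1 ≤ m)
    (hu : 0 ≤ u) (hux : u < x) (hq : 0 ≤ q) (hl : ∀ e ∈ l, 0 ≤ e)
    (hsq : sq l + m * x ^ 2 + u ^ 2 + n * q ^ 2 = 1)
    (hN : okN th mu nu = true) (hν : ((nu : ℚ) : ℝ) = ν)
    {emp : Bx → Bool} {rbf : Bx → ℚ}
    (hemp : ∀ b, InB b (th * x) (th * u) (th * q) → emp b = true → False)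
    (hrbf : ∀ b, InB b (th * x) (th * u) (th * q) →
      (∀ e ∈ l, (th : ℝ) * e ≤ ((rbf b : ℚ) : ℝ)) ∧ (l = [] → 0 ≤ rbf b))
    {T : Tr} {b : Bx} (hb : InB b (th * x) (th * u) (th * q))
    (hc : cov m n (th ^ 2) mu emp rbf T b = true) : PairEx (LL m n x q l) x u ν := by
  have hN' := hN
  unfold okN at hN
  simp only [Bool.and_eq_true, Bool.or_eq_true, decide_eq_true_eq] at hN
  obtain ⟨⟨⟨⟨⟨⟨n1, n2⟩, n3⟩, n4⟩, n5⟩, n6⟩, n7⟩ := hN
  have th0 : (0:ℝ) < (th : ℝ) := by exact_mod_cast n1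
  have w1 : (13 / 10 : ℝ) ≤ (th : ℝ) ^ 2 := by
    have : ((13 / 10 : ℚ) : ℝ) ≤ ((th ^ 2 : ℚ) : ℝ) := by exact_mod_cast n3
    push_cast at this
    exact this
  have w2 : (th : ℝ) ^ 2 ≤ (24 / 10 : ℝ) := by
    have : ((th ^ 2 : ℚ) : ℝ) ≤ ((24 / 10 : ℚ) : ℝ) := by exact_mod_cast n4
    push_cast at this
    exact this
  apply ex_of_both hm hu hux hsq hN' hν
  intro c hc0 hcc
  have hraw : Raw m n ((th : ℝ) ^ 2) (th * x) (th * u) (th * q) (th * c)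
      (l.map fun x => (th : ℝ) * x) := by
    refine ⟨hm, mul_nonneg th0.le hu, mul_lt_mul_of_pos_left hux th0, mul_nonneg th0.le hq,
      mul_pos th0 hc0, ?_, ?_, ?_⟩
    · (clear * - hcc; nlinarith [sq_nonneg (th : ℝ)])
    · intro y hy
      obtain ⟨e, he, rfl⟩ := List.mem_map.mp hy
      exact mul_nonneg th0.le (hl e he)
    · rw [map_sq_sum]
      unfold Pool.Agent.M18.Helper89.SP.sq at hsq
      linear_combination (th : ℝ) ^ 2 * hsq
  refine cov_sound hraw (wq := th ^ 2) (by push_cast; rfl) w1 w2 n2 hemp ?_ T b hb hc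
  intro b' hb'
  obtain ⟨r1, r2⟩ := hrbf b' hb'
  refine ⟨?_, ?_⟩
  · intro y hy
    obtain ⟨e, he, rfl⟩ := List.mem_map.mp hy
    exact r1 e he
  · intro hnil
    exact r2 (List.map_eq_nil_iff.mp hnil)

theorem inB_mk {th a b c d e f : ℚ} {x u q : ℝ} (hth : 0 ≤ th) (ha : 0 ≤ a) (hc : 0 ≤ c)
    (he : 0 ≤ e) (h1 : (a : ℝ) ≤ x) (h2 : x ≤ (b : ℝ)) (h3 : (c : ℝ) ≤ u) (h4 : u ≤ (d : ℝ))
    (h5 : (e : ℝ) ≤ q) (h6 : q ≤ (f : ℝ)) : InB (mk th a b c d e f) (th * x) (th * u) (th * q) := by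
  have hth' : (0:ℝ) ≤ (th : ℝ) := by exact_mod_cast hth
  unfold mk
  refine ⟨mul_nonneg hth ha, mul_nonneg hth hc, mul_nonneg hth he, ?_, ?_, ?_, ?_, ?_, ?_⟩ <;>
    push_cast <;> exact mul_le_mul_of_nonneg_left (by assumption) hth'

theorem ex_M {m : ℕ} {th mu nu : ℚ} {S : ℚ → ℚ} {T : Tr} {a b d : ℚ} {x u ν : ℝ} {l : List ℝ}
    (h : DM m l x u) (hm : 1 ≤ m) (hN : okN th mu nu = true) (hν : ((nu : ℚ) : ℝ) = ν)
    (ha : 0 ≤ a) (h1 : (a : ℝ) ≤ x) (h2 : x ≤ (b : ℝ)) (h4 : u ≤ (d : ℝ))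
    (hS : ∀ y : ℚ, (y : ℝ) ≤ x → x + u ≤ ((S y : ℚ) : ℝ))
    (hc : covM m th mu S T a b d = true) : PairEx (List.replicate (m - 1) x ++ l) x u ν := by
  have hN' := hN
  unfold okN at hN'
  simp only [Bool.and_eq_true, Bool.or_eq_true, decide_eq_true_eq] at hN'
  have n1 : 0 < th := hN'.1.1.1.1.1.1
  have th0 : (0:ℝ) < (th : ℝ) := by exact_mod_cast n1
  have e : List.replicate (m - 1) x ++ l = LL m 0 x 0 l := by unfold LL; simp
  rw [e]
  refine ex_of_cov hm h.hu h.hux le_rfl (fun e he => (h.hl e he).1) ?_ hN hν ?_ ?_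
    (inB_mk n1.le ha le_rfl le_rfl h1 h2 (by simpa using h.hu) h4 (by simp) (by simp)) hc
  · have := h.hsq
    push_cast
    (clear * - this; linarith)
  · intro b' hb' he'
    unfold empM at he'
    rw [decide_eq_true_eq] at he'
    have h5 : (((b'.X0 / th : ℚ)) : ℝ) ≤ x := by
      push_cast
      rw [div_le_iff₀ th0]
      (clear * - hb'; linarith [hb'.hx0])
    have h6 := hS _ h5
    have h7 : ((S (b'.X0 / th) * th : ℚ) : ℝ) < ((b'.X0 + b'.U0 : ℚ) : ℝ) := by exact_mod_cast he'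
    push_cast at h6 h7
    have h8 : (x + u) * th ≤ (S (b'.X0 / th) : ℝ) * th := mul_le_mul_of_nonneg_right h6 th0.le
    (clear * - h7 h8 hb'; linarith [hb'.hx0, hb'.hu0])
  · intro b' hb'
    refine ⟨fun e he => ?_, fun _ => ?_⟩
    · exact (mul_le_mul_of_nonneg_left (h.hl e he).2 th0.le).trans hb'.hu1
    · have : (0:ℝ) ≤ (b'.U1 : ℝ) := (mul_nonneg th0.le h.hu).trans hb'.hu1
      exact_mod_cast this

theorem ex_D {th mu nu : ℚ} {T : Tr} {b : ℚ} {x u ν : ℝ} {l : List ℝ}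
    (hu : 0 ≤ u) (hux : u < x) (hl : ∀ e ∈ l, 0 ≤ e ∧ e ≤ x) (hsq : sq l + x ^ 2 + u ^ 2 = 1)
    (hN : okN th mu nu = true) (hν : ((nu : ℚ) : ℝ) = ν) (h2 : x ≤ (b : ℝ))
    (hc : covD th mu T b = true) : PairEx l x u ν := by
  have hN' := hN
  unfold okN at hN'
  simp only [Bool.and_eq_true, Bool.or_eq_true, decide_eq_true_eq] at hN'
  have n1 : 0 < th := hN'.1.1.1.1.1.1
  have th0 : (0:ℝ) < (th : ℝ) := by exact_mod_cast n1
  have e : l = LL 1 0 x 0 l := by unfold LL; simp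
  rw [e]
  refine ex_of_cov le_rfl hu hux le_rfl (fun e he => (hl e he).1) ?_ hN hν ?_ ?_
    (inB_mk n1.le le_rfl le_rfl le_rfl (by simpa using hu.trans hux.le) h2 (by simpa using hu)
      (hux.le.trans h2) (by simp) (by simp)) hc
  · push_cast
    (clear * - hsq; linarith)
  · intro b' _ he'
    exact absurd he' (by simp)
  · intro b' hb'
    refine ⟨fun e he => ?_, fun _ => ?_⟩
    · exact (mul_le_mul_of_nonneg_left (hl e he).2 th0.le).trans hb'.hx1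
    · have : (0:ℝ) ≤ (b'.X1 : ℝ) := (mul_nonneg th0.le (hu.trans hux.le)).trans hb'.hx1
      exact_mod_cast this

theorem ex_A {th mu nu K : ℚ} {S : ℚ → ℚ} {T : Tr} {a b c d : ℚ} {p q S' ν : ℝ} {l : List ℝ}
    (h : DA l p q S') (hN : okN th mu nu = true) (hν : ((nu : ℚ) : ℝ) = ν)
    (ha : 0 ≤ a) (hc0 : 0 ≤ c) (h1 : (a : ℝ) ≤ p) (h2 : p ≤ (b : ℝ)) (h3 : (c : ℝ) ≤ q)
    (h4 : q ≤ (d : ℝ)) (hK : p + q ≤ (K : ℝ)) (hne : l ≠ [])
    (hS : ∀ y : ℚ, (y : ℝ) ≤ p → (∀ e ∈ l, q + e ≤ ((S y : ℚ) : ℝ)))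
    (hc : covA th mu K S T a b c d = true) : PairEx l p q ν := by
  have hN' := hN
  unfold okN at hN'
  simp only [Bool.and_eq_true, Bool.or_eq_true, decide_eq_true_eq] at hN'
  have n1 : 0 < th := hN'.1.1.1.1.1.1
  have th0 : (0:ℝ) < (th : ℝ) := by exact_mod_cast n1
  have e : l = LL 1 0 p 0 l := by unfold LL; simp
  rw [e]
  refine ex_of_cov le_rfl h.hq h.hqp le_rfl (fun e he => (h.hl e he).1) ?_ hN hν ?_ ?_
    (inB_mk n1.le ha hc0 le_rfl h1 h2 h3 h4 (by simp) (by simp)) hc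
  · have := h.hsq
    push_cast
    (clear * - this; linarith)
  · intro b' hb' he'
    rw [decide_eq_true_eq] at he'
    have h7 : ((K * th : ℚ) : ℝ) < ((b'.X0 + b'.U0 : ℚ) : ℝ) := by exact_mod_cast he'
    push_cast at h7
    have h8 : (p + q) * th ≤ (K : ℝ) * th := mul_le_mul_of_nonneg_right hK th0.le
    (clear * - h7 h8 hb'; linarith [hb'.hx0, hb'.hu0])
  · intro b' hb'
    refine ⟨fun e he => ?_, fun h0 => absurd h0 hne⟩
    unfold rbA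
    rw [Rat.cast_min]
    apply le_min
    · exact (mul_le_mul_of_nonneg_left (h.hl e he).2.1 th0.le).trans hb'.hu1
    · have h5 : (((b'.X0 / th : ℚ)) : ℝ) ≤ p := by
        push_cast
        rw [div_le_iff₀ th0]
        (clear * - hb'; linarith [hb'.hx0])
      have h6 := hS _ h5 e he
      have h8 : (q + e) * th ≤ (S (b'.X0 / th) : ℝ) * th := mul_le_mul_of_nonneg_right h6 th0.le
      push_cast
      (clear * - h8 hb'; linarith [hb'.hu0])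

theorem ex_B {th mu nu : ℚ} {Slo Shi : ℚ → ℚ} {T : Tr} {a b c d e f : ℚ} {p q r ν : ℝ}
    {l : List ℝ} (h : DB l p q r) (hN : okN th mu nu = true) (hν : ((nu : ℚ) : ℝ) = ν)
    (ha : 0 ≤ a) (hc0 : 0 ≤ c) (he0 : 0 ≤ e) (h1 : (a : ℝ) ≤ p) (h2 : p ≤ (b : ℝ))
    (h3 : (c : ℝ) ≤ r) (h4 : r ≤ (d : ℝ)) (h5 : (e : ℝ) ≤ q) (h6 : q ≤ (f : ℝ))
    (hShi : ∀ y : ℚ, (y : ℝ) ≤ p → q + r ≤ ((Shi y : ℚ) : ℝ))
    (hSlo : ∀ y : ℚ, p ≤ (y : ℝ) → ((Slo y : ℚ) : ℝ) ≤ q + r)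
    (hc : covB th mu Slo Shi T a b c d e f = true) : PairEx (q :: l) p r ν := by
  have hN' := hN
  unfold okN at hN'
  simp only [Bool.and_eq_true, Bool.or_eq_true, decide_eq_true_eq] at hN'
  have n1 : 0 < th := hN'.1.1.1.1.1.1
  have th0 : (0:ℝ) < (th : ℝ) := by exact_mod_cast n1
  have hq : 0 ≤ q := h.hr.trans h.hrq
  have el : q :: l = LL 1 1 p q l := by unfold LL; simp
  rw [el]
  refine ex_of_cov le_rfl h.hr h.hrp hq (fun e he => (h.hl e he).1) ?_ hN hν ?_ ?_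
    (inB_mk n1.le ha hc0 he0 h1 h2 h3 h4 h5 h6) hc
  · have := h.hsq
    push_cast
    (clear * - this; linarith)
  · intro b' hb' he'
    unfold empB at he'
    simp only [Bool.or_eq_true, decide_eq_true_eq] at he'
    rcases he' with ((he' | he') | he') | he'
    · have k5 : (((b'.X0 / th : ℚ)) : ℝ) ≤ p := by
        push_cast
        rw [div_le_iff₀ th0]
        (clear * - hb'; linarith [hb'.hx0])
      have k6 := hShi _ k5
      have k7 : ((Shi (b'.X0 / th) * th : ℚ) : ℝ) < ((b'.Q0 + b'.U0 : ℚ) : ℝ) := by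
        exact_mod_cast he'
      push_cast at k6 k7
      have k8 : (q + r) * th ≤ (Shi (b'.X0 / th) : ℝ) * th := mul_le_mul_of_nonneg_right k6 th0.le
      (clear * - k7 k8 hb'; linarith [hb'.hq0, hb'.hu0])
    · have k5 : p ≤ (((b'.X1 / th : ℚ)) : ℝ) := by
        push_cast
        rw [le_div_iff₀ th0]
        (clear * - hb'; linarith [hb'.hx1])
      have k6 := hSlo _ k5
      have k7 : ((b'.Q1 + b'.U1 : ℚ) : ℝ) < ((Slo (b'.X1 / th) * th : ℚ) : ℝ) := by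
        exact_mod_cast he'
      push_cast at k6 k7
      have k8 : (Slo (b'.X1 / th) : ℝ) * th ≤ (q + r) * th := mul_le_mul_of_nonneg_right k6 th0.le
      (clear * - k7 k8 hb'; linarith [hb'.hq1, hb'.hu1])
    · have k7 : (b'.Q1 : ℝ) < (b'.U0 : ℝ) := by exact_mod_cast he'
      have := mul_le_mul_of_nonneg_left h.hrq th0.le
      (clear * - k7 this hb'; linarith [hb'.hq1, hb'.hu0])
    · have k7 : (b'.X1 : ℝ) < (b'.Q0 : ℝ) := by exact_mod_cast he'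
      have := mul_le_mul_of_nonneg_left h.hqp th0.le
      (clear * - k7 this hb'; linarith [hb'.hx1, hb'.hq0])
  · intro b' hb'
    refine ⟨fun e he => ?_, fun _ => ?_⟩
    · exact (mul_le_mul_of_nonneg_left (h.hl e he).2 th0.le).trans hb'.hu1
    · have : (0:ℝ) ≤ (b'.U1 : ℝ) := (mul_nonneg th0.le h.hr).trans hb'.hu1
      exact_mod_cast this

/-- lines as bounds -/
theorem lineQ_ge {t top a b p0 : ℚ} (hb : 0 ≤ b) {x v : ℝ} (hv : v ≤ (top : ℝ))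
    (h : x ≤ (t : ℝ) ∨ v ≤ (a : ℝ) - b * (x - p0)) :
    ∀ y : ℚ, (y : ℝ) ≤ x → v ≤ ((lineQ t top a b p0 y : ℚ) : ℝ) := by
  intro y hy
  have hb' : (0:ℝ) ≤ (b : ℝ) := by exact_mod_cast hb
  unfold lineQ
  split_ifs with hyt
  · exact hv
  · push_cast
    have h1 : (t : ℝ) < (y : ℝ) := by
      push Not at hyt
      exact_mod_cast hyt
    rcases h with h | h
    · (clear * - hy h1 h; linarith)
    · have := mul_le_mul_of_nonneg_left hy hb'
      linarith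

theorem noQ_ge {x v : ℝ} (hv : v ≤ 9) : ∀ y : ℚ, (y : ℝ) ≤ x → v ≤ ((noQ y : ℚ) : ℝ) := by
  intro y _
  unfold noQ
  push_cast
  exact hv

end Pool.Agent.M18.Helper95.SP.Crude
end
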