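import Mathlib
import Pool.Agent.Helper53.AM.G02
import Pool.Agent.Helper53.AM.G07
import Pool.Agent.Helper53.AM.G11
import Pool.Agent.Helper53.AM.G12
import Pool.Agent.Helper53.AM.G17
import Pool.Agent.Helper53.AM.G19
import Pool.Agent.Helper53.AM.G21
import Pool.Agent.Helper53.AM.G26
import Pool.Agent.Helper53.AM.G34

/- Helper7.SP.ExistsMax -/
section
/-!
Project SP (MP_66ebcc_gt), module SP-02: existence of the maximiser with minimal sum of fourth powers.
-/

set_option autoImplicit false

open MeasureTheory Set Real Pool.Agent.M18.Slab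
open Pool.Agent.M18.Helper88.Slab (prob)

namespace Pool.Agent.M18.Helper89.SP

open Pool.Agent.M18.Slab.Vol in
private theorem two_AL_le_pv1 {n : ℕ} (a : Fin n → ℝ) {t : ℝ} (ht : 0 ≤ t) :
    2 * AL (List.ofFn a) H t ≤ 2 ^ n := by
  set V : Set (Fin n → ℝ) := Neg.neg ⁻¹' (K n a t) with hV
  have hVm : MeasurableSet V := (K_meas n a t).preimage measurable_neg
  have hVK : volume V = volume (K n a t) :=
    (Measure.measurePreserving_neg (volume : Measure (Fin n → ℝ))).measure_preimage
      (K_meas n a t).nullMeasurableSet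
  have hd : Disjoint (K n a t) V := by
    rw [Set.disjoint_left]
    intro x h1 h2
    have h3 : t < ∑ i, a i * x i := h1.2
    have h4 : t < ∑ i, a i * (-x) i := h2.2
    have h5 : ∑ i, a i * (-x) i = -∑ i, a i * x i := by
      rw [← Finset.sum_neg_distrib]
      exact Finset.sum_congr rfl fun i _ => by simp
    rw [h5] at h4
    (clear * - ht h3 h4; linarith)
  have hsub : K n a t ∪ V ⊆ C n := by
    rintro x (h | h)
    · exact h.1
    · intro i
      have h1 : |(-x) i| ≤ 1 := h.1 i
      simpa using h1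
  have h1 : volume (K n a t) + volume (K n a t) ≤ ENNReal.ofReal (2 ^ n) := by
    have h6 : volume (K n a t) + volume (K n a t) = volume (K n a t ∪ V) := by
      rw [measure_union hd hVm, hVK]
    rw [h6, ← C_vol]
    exact measure_mono hsub
  have h2 := ENNReal.toReal_mono ENNReal.ofReal_ne_top h1
  rw [ENNReal.toReal_add (K_lt_top n a t).ne (K_lt_top n a t).ne, K_eq,
    ENNReal.toReal_ofReal (by positivity)] at h2
  (clear * - h2; linarith)

private theorem T_ofFn' {n : ℕ} (a : Fin n → ℝ) {t : ℝ} (ht : 0 ≤ t) :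
    T (List.ofFn a) t = 1 - prob a t := by
  have h1 := Pool.Agent.M18.Slab.volume_slab n a t ht
  rw [Pool.Agent.M18.Helper88.Slab.volume_slab_pi a t] at h1
  have h0 : 0 ≤ prob a t := integral_nonneg fun x => Pool.Agent.M18.Helper88.Slab.ind_nonneg _ _
  have h2 := congrArg ENNReal.toReal h1
  have h3 := two_AL_le_pv1 a ht
  rw [ENNReal.toReal_mul, ENNReal.toReal_ofReal h0, ENNReal.toReal_ofReal (by (clear * - h3; linarith))] at h2
  simp only [ENNReal.toReal_pow, ENNReal.toReal_ofNat] at h2
  unfold T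
  rw [List.length_ofFn]
  have h4 : (0 : ℝ) < 2 ^ n := by positivity
  rw [div_eq_iff h4.ne']
  linarith

private theorem T_perm' {L L' : List ℝ} (h : L.Perm L') (t : ℝ) : T L t = T L' t := by
  unfold T
  rw [AL_perm h, h.length_eq]

private theorem sq_ofFn {n : ℕ} (a : Fin n → ℝ) : sq (List.ofFn a) = ∑ i, a i ^ 2 := by
  unfold sq
  rw [List.map_ofFn, List.sum_ofFn]
  rfl

private theorem qd_ofFn {n : ℕ} (a : Fin n → ℝ) : qd (List.ofFn a) = ∑ i, a i ^ 4 := by
  unfold qd
  rw [List.map_ofFn, List.sum_ofFn]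
  rfl

private theorem sq_perm {L L' : List ℝ} (h : L.Perm L') : sq L = sq L' :=
  (h.map _).sum_eq

private theorem qd_perm {L L' : List ℝ} (h : L.Perm L') : qd L = qd L' :=
  (h.map _).sum_eq

private theorem exists_fn {n : ℕ} (L : List ℝ) (h : L.length = n) :
    ∃ a : Fin n → ℝ, List.ofFn a = L := by
  subst h
  exact ⟨L.get, List.ofFn_get L⟩

/-- the compact set of nonnegative unit vectors -/
private def KK (n : ℕ) : Set (Fin n → ℝ) := {a | (∀ i, 0 ≤ a i) ∧ ∑ i, a i ^ 2 = 1}

private theorem KK_closed (n : ℕ) : IsClosed (KK n) := by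
  have h1 : IsClosed {a : Fin n → ℝ | ∀ i, 0 ≤ a i} := by
    simp only [Set.ofPred_forall]
    exact isClosed_iInter fun i => isClosed_le continuous_const (continuous_apply i)
  have h2 : IsClosed {a : Fin n → ℝ | ∑ i, a i ^ 2 = 1} :=
    isClosed_eq (continuous_finsetSum _ fun i _ => (continuous_apply i).pow 2) continuous_const
  exact h1.inter h2

private theorem KK_compact (n : ℕ) : IsCompact (KK n) := by
  refine IsCompact.of_isClosed_subset (isCompact_Icc : IsCompact (Set.Icc (0 : Fin n → ℝ) 1))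
    (KK_closed n) ?_
  rintro a ⟨h0, h1⟩
  refine ⟨fun i => h0 i, fun i => ?_⟩
  have h2 : a i ^ 2 ≤ 1 := by
    rw [← h1]
    exact Finset.single_le_sum (f := fun i => a i ^ 2) (fun j _ => sq_nonneg (a j))
      (Finset.mem_univ i)
  have h3 := h0 i
  simp only [Pi.one_apply]
  nlinarith

private theorem prob_continuousAt {n : ℕ} {a₀ : Fin n → ℝ} (h : a₀ ∈ KK n) {t : ℝ} (ht : 0 < t) :
    ContinuousAt (fun a : Fin n → ℝ => prob a t) a₀ := by
  obtain ⟨i, hi⟩ : ∃ i, a₀ i ≠ 0 := by
    by_contra hcon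
    push Not at hcon
    have := h.2
    simp [hcon] at this
  refine Filter.tendsto_of_seq_tendsto fun a ha => ?_
  have h1 : ∀ j, Filter.Tendsto (fun k => a k j) Filter.atTop (nhds (a₀ j)) :=
    fun j => (tendsto_pi_nhds.mp ha) j
  exact Pool.Agent.M18.Helper89.FA.prob_tendsto a a₀ h1 i hi ht

theorem exists_MaxL {n : ℕ} (hn : 1 ≤ n) {t : ℝ} (ht : 0 < t) : ∃ L, MaxL n t L := by
  have hK := KK_compact n
  have hKne : (KK n).Nonempty := by
    refine ⟨Pi.single ⟨0, by omega⟩ 1, ?_, ?_⟩
    · intro i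
      by_cases h : i = ⟨0, by omega⟩
      · subst h; simp
      · rw [Pi.single_eq_of_ne h]
    · rw [Finset.sum_eq_single (⟨0, by omega⟩ : Fin n)]
      · simp
      · intro j _ hj
        rw [Pi.single_eq_of_ne hj]
        norm_num
      · intro h
        exact absurd (Finset.mem_univ _) h
  have hcont : ContinuousOn (fun a : Fin n → ℝ => prob a t) (KK n) := fun a ha =>
    (prob_continuousAt ha ht).continuousWithinAt
  obtain ⟨a₁, ha₁, hmin₁⟩ := hK.exists_isMinOn hKne hcont
  have hmin₁' : ∀ a ∈ KK n, prob a₁ t ≤ prob a t := fun a ha => hmin₁ ha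
  have hK2c : IsClosed (KK n ∩ (fun a : Fin n → ℝ => prob a t) ⁻¹' {prob a₁ t}) :=
    hcont.preimage_isClosed_of_isClosed (KK_closed n) isClosed_singleton
  have hK2 : IsCompact (KK n ∩ (fun a : Fin n → ℝ => prob a t) ⁻¹' {prob a₁ t}) :=
    hK.of_isClosed_subset hK2c Set.inter_subset_left
  have hK2ne : (KK n ∩ (fun a : Fin n → ℝ => prob a t) ⁻¹' {prob a₁ t}).Nonempty :=
    ⟨a₁, ha₁, rfl⟩
  have hq : Continuous fun a : Fin n → ℝ => ∑ i, a i ^ 4 :=
    continuous_finsetSum _ fun i _ => (continuous_apply i).pow 4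
  obtain ⟨a, ⟨haK, hap⟩, hmin⟩ := hK2.exists_isMinOn hK2ne hq.continuousOn
  have hap' : prob a t = prob a₁ t := hap
  have hmin' : ∀ b ∈ KK n, prob b t = prob a₁ t → ∑ i, a i ^ 4 ≤ ∑ i, b i ^ 4 :=
    fun b hb hb2 => hmin ⟨hb, hb2⟩
  set L := (List.ofFn a).mergeSort (fun x y => decide (y ≤ x)) with hL
  have hperm : L.Perm (List.ofFn a) := List.mergeSort_perm _ _
  have hKmem : ∀ b : Fin n → ℝ, (∀ x ∈ List.ofFn b, 0 ≤ x) → sq (List.ofFn b) = 1 → b ∈ KK n := by
    intro b hb hb2
    refine ⟨fun i => hb _ (by rw [List.mem_ofFn]; exact ⟨i, rfl⟩), ?_⟩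
    rw [← sq_ofFn]
    exact hb2
  refine ⟨L, ?_⟩
  constructor
  · rw [hperm.length_eq, List.length_ofFn]
  · intro x hx
    have h1 := hperm.mem_iff.mp hx
    rw [List.mem_ofFn] at h1
    obtain ⟨i, rfl⟩ := h1
    exact haK.1 i
  · rw [sq_perm hperm, sq_ofFn]
    exact haK.2
  · intro L' hlen hnn hsq
    obtain ⟨b, rfl⟩ := exists_fn L' hlen
    have hb := hKmem b hnn hsq
    rw [T_perm' hperm, T_ofFn' b ht.le, T_ofFn' a ht.le, hap']
    have := hmin₁' b hb
    (clear * - this; linarith)
  · intro L' hlen hnn hsq hT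
    obtain ⟨b, rfl⟩ := exists_fn L' hlen
    have hb := hKmem b hnn hsq
    rw [T_perm' hperm, T_ofFn' b ht.le, T_ofFn' a ht.le, hap'] at hT
    rw [qd_perm hperm, qd_ofFn, qd_ofFn]
    exact hmin' b hb (by (clear * - hT; linarith))
  · have h1 := List.pairwise_mergeSort (le := fun x y : ℝ => decide (y ≤ x)) (by
      intro x y z hxy hyz
      simp only [decide_eq_true_eq] at *
      exact hyz.trans hxy) (by
      intro x y
      simp only [Bool.or_eq_true, decide_eq_true_eq]
      exact le_total y x) (List.ofFn a)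
    rw [← hL] at h1
    refine h1.imp ?_
    intro x y hxy
    simpa using hxy

end Pool.Agent.M18.Helper89.SP
end

/- Helper95.SP.WaveA -/
section
/-! The wave facts A and B. -/

set_option autoImplicit false

open MeasureTheory Set Real Pool.Agent.M18.Slab Pool.Agent.M18.Helper95.SP.Crude

namespace Pool.Agent.M18.Helper89.SP

theorem w_DA_ne {l : List ℝ} {p q S : ℝ} (h : DA l p q S) (hp : p ≤ 0.72) (hpq : p + q ≤ 1.4) :
    l ≠ [] := by
  rintro rfl
  have h1 := h.hsq
  have h2 := h.hqp
  have h3 := h.hq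
  unfold sq at h1
  norm_num at h1 hp hpq
  nlinarith

theorem w_A_102 {l : List ℝ} {p q : ℝ} (h : DA l p q 0.952) (h0 : 0.478 ≤ p) (h1 : p ≤ 0.66) :
    PairEx l p q 1.02 := by
  have h2 := h.hqp
  have h3 := h.hq
  have hne := w_DA_ne h (h1.trans (by norm_num)) (by norm_num at h1 ⊢; (clear * - h2 h1; linarith))
  norm_num at h0 h1
  refine ex_A (nu := 102 / 100) (K := 9) (a := 478 / 1000) (b := 66 / 100) (c := 0) (d := 66 / 100)
    h (by decide +kernel) (by norm_num) (by norm_num) le_rfl ?_ ?_ ?_ ?_ ?_ hne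
    (fun y hy e he => lineQ_ge (by norm_num) ?_ (Or.inr ?_) y hy) run_A102
  · push_cast; norm_num; (clear * - h0; linarith)
  · push_cast; norm_num; linarith
  · push_cast; norm_num; linarith
  · push_cast; norm_num; linarith
  · push_cast; norm_num; linarith
  · have := (h.hl e he).2.2
    push_cast; norm_num at this ⊢; (clear * - h2 h3 h1 this; linarith)
  · have := (h.hl e he).2.2
    push_cast; norm_num at this ⊢; (clear * - this; linarith)
theorem w_A_102b {l : List ℝ} {p q : ℝ} (h : DA l p q 0.95) (h0 : 0.66 ≤ p) (h1 : p ≤ 0.72)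
    (h2 : p + q ≤ 1.26) : PairEx l p q 1.02 := by
  have h2' := h.hqp
  have h3 := h.hq
  have hne := w_DA_ne h h1 (h2.trans (by norm_num))
  norm_num at h0 h1 h2
  refine ex_A (nu := 102 / 100) (K := 126 / 100) (a := 66 / 100) (b := 72 / 100) (c := 0)
    (d := 6 / 10) h (by decide +kernel) (by norm_num) (by norm_num) le_rfl ?_ ?_ ?_ ?_ ?_ hne
    (fun y hy e he => lineQ_ge (by norm_num) ?_ (Or.inr ?_) y hy) run_A102b
  · push_cast; norm_num; linarith
  · push_cast; norm_num; (clear * - h1; linarith)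
  · push_cast; norm_num; linarith
  · push_cast; norm_num; linarith
  · push_cast; norm_num; linarith
  · have := (h.hl e he).2.2
    push_cast; norm_num at this ⊢; (clear * - h2' h3 h1 this; linarith)
  · have := (h.hl e he).2.2
    push_cast; norm_num at this ⊢; (clear * - this; linarith)
theorem w_A_104 {l : List ℝ} {p q S : ℝ} (h : DA l p q S) (h0 : 0.478 ≤ p) (h1 : p ≤ 0.54)
    (hq : 0.475 ≤ q) (hS : p ≤ 0.49 ∨ S ≤ S1 p) : PairEx l p q 1.04 := by
  have h2 := h.hqp
  have h3 := h.hq
  have hne := w_DA_ne h (h1.trans (by norm_num)) (by norm_num at h1 ⊢; linarith)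
  unfold S1 at hS
  norm_num at h0 h1 hq hS
  refine ex_A (nu := 104 / 100) (K := 9) (a := 478 / 1000) (b := 54 / 100) (c := 475 / 1000)
    (d := 54 / 100) h (by decide +kernel) (by norm_num) (by norm_num) (by norm_num) ?_ ?_ ?_ ?_ ?_
    hne (fun y hy e he => lineQ_ge (by norm_num) ?_ ?_ y hy) run_A104
  · push_cast; norm_num; (clear * - h0; linarith)
  · push_cast; norm_num; linarith
  · push_cast; norm_num; linarith
  · push_cast; norm_num; linarith
  · push_cast; norm_num; linarith
  · have := (h.hl e he).2.1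
    push_cast; norm_num; linarith
  · have := (h.hl e he).2.2
    push_cast; norm_num
    rcases hS with hS | hS
    · left; (clear * - hS; linarith)
    · right; (clear * - this hS; linarith)
theorem w_A_106 {l : List ℝ} {p q S : ℝ} (h : DA l p q S) (h0 : 0.49 ≤ p) (h1 : p ≤ 0.54)
    (hq : 0.475 ≤ q) (hS : p ≤ 0.4975 ∨ S ≤ S2 p) : PairEx l p q 1.06 := by
  have h2 := h.hqp
  have h3 := h.hq
  have hne := w_DA_ne h (h1.trans (by norm_num)) (by norm_num at h1 ⊢; linarith)
  unfold S2 at hS
  norm_num at h0 h1 hq hS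
  refine ex_A (nu := 106 / 100) (K := 9) (a := 49 / 100) (b := 54 / 100) (c := 475 / 1000)
    (d := 54 / 100) h (by decide +kernel) (by norm_num) (by norm_num) (by norm_num) ?_ ?_ ?_ ?_ ?_
    hne (fun y hy e he => lineQ_ge (by norm_num) ?_ ?_ y hy) run_A106
  · push_cast; norm_num; (clear * - h0; linarith)
  · push_cast; norm_num; linarith
  · push_cast; norm_num; linarith
  · push_cast; norm_num; linarith
  · push_cast; norm_num; linarith
  · have := (h.hl e he).2.1
    push_cast; norm_num; (clear * - h2 h1 hq this; linarith)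
  · have := (h.hl e he).2.2
    push_cast; norm_num
    rcases hS with hS | hS
    · left; (clear * - hS; linarith)
    · right; linarith
theorem w_A_108 {l : List ℝ} {p q S : ℝ} (h : DA l p q S) (h0 : 0.4975 ≤ p) (h1 : p ≤ 0.54)
    (hq : 0.475 ≤ q) (hS : p ≤ 0.5065 ∨ S ≤ S3 p) : PairEx l p q 1.08 := by
  have h2 := h.hqp
  have h3 := h.hq
  have hne := w_DA_ne h (h1.trans (by norm_num)) (by norm_num at h1 ⊢; (clear * - hq h2 h1; linarith))
  unfold S3 at hS
  norm_num at h0 h1 hq hS
  refine ex_A (nu := 108 / 100) (K := 9) (a := 4975 / 10000) (b := 54 / 100) (c := 475 / 1000)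
    (d := 54 / 100) h (by decide +kernel) (by norm_num) (by norm_num) (by norm_num) ?_ ?_ ?_ ?_ ?_
    hne (fun y hy e he => lineQ_ge (by norm_num) ?_ ?_ y hy) run_A108
  · push_cast; norm_num; linarith
  · push_cast; norm_num; linarith
  · push_cast; norm_num; (clear * - hq; linarith)
  · push_cast; norm_num; linarith
  · push_cast; norm_num; (clear * - h2 h1 hq; linarith)
  · have := (h.hl e he).2.1
    push_cast; norm_num; (clear * - h2 h1 hq this; linarith)
  · have := (h.hl e he).2.2
    push_cast; norm_num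
    rcases hS with hS | hS
    · left; (clear * - hS; linarith)
    · right; linarith
theorem w_A_110 {l : List ℝ} {p q S : ℝ} (h : DA l p q S) (h0 : 0.5065 ≤ p) (h1 : p ≤ 0.54)
    (hq : 0.475 ≤ q) (hS : p ≤ 0.5125 ∨ S ≤ S4 p) : PairEx l p q 1.1 := by
  have h2 := h.hqp
  have h3 := h.hq
  have hne := w_DA_ne h (h1.trans (by norm_num)) (by norm_num at h1 ⊢; linarith)
  unfold S4 at hS
  norm_num at h0 h1 hq hS
  refine ex_A (nu := 11 / 10) (K := 9) (a := 5065 / 10000) (b := 54 / 100) (c := 475 / 1000)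
    (d := 54 / 100) h (by decide +kernel) (by norm_num) (by norm_num) (by norm_num) ?_ ?_ ?_ ?_ ?_
    hne (fun y hy e he => lineQ_ge (by norm_num) ?_ ?_ y hy) run_A110
  · push_cast; norm_num; linarith
  · push_cast; norm_num; (clear * - h1; linarith)
  · push_cast; norm_num; (clear * - hq; linarith)
  · push_cast; norm_num; (clear * - h2 h1; linarith)
  · push_cast; norm_num; (clear * - h2 h1 hq; linarith)
  · have := (h.hl e he).2.1
    push_cast; norm_num; (clear * - h2 h1 hq this; linarith)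
  · have := (h.hl e he).2.2
    push_cast; norm_num
    rcases hS with hS | hS
    · left; (clear * - hS; linarith)
    · right; (clear * - this hS; linarith)
theorem w_A_120 {l : List ℝ} {p q : ℝ} (h : DA l p q 1.0) (h0 : 0.5125 ≤ p) (h1 : p ≤ 0.5275)
    (hq : 0.475 ≤ q) : PairEx l p q 1.2 := by
  have h2 := h.hqp
  have h3 := h.hq
  have hne := w_DA_ne h (h1.trans (by norm_num)) (by norm_num at h1 ⊢; linarith)
  norm_num at h0 h1 hq
  refine ex_A (nu := 12 / 10) (K := 9) (a := 5125 / 10000) (b := 5275 / 10000) (c := 475 / 1000)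
    (d := 5275 / 10000) h (by decide +kernel) (by norm_num) (by norm_num) (by norm_num)
    ?_ ?_ ?_ ?_ ?_ hne (fun y hy e he => lineQ_ge (by norm_num) ?_ (Or.inr ?_) y hy) run_A120
  · push_cast; norm_num; (clear * - h0; linarith)
  · push_cast; norm_num; (clear * - h1; linarith)
  · push_cast; norm_num; (clear * - hq; linarith)
  · push_cast; norm_num; (clear * - h2 h1; linarith)
  · push_cast; norm_num; linarith
  · have := (h.hl e he).2.2
    push_cast; norm_num at this ⊢; (clear * - h2 h1 hq this; linarith)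
  · have := (h.hl e he).2.2
    push_cast; norm_num at this ⊢; (clear * - this; linarith)
theorem w_A_120b {l : List ℝ} {p q : ℝ} (h : DA l p q (S5 p)) (h0 : 0.5275 ≤ p) (h1 : p ≤ 0.58)
    (hq : 0.475 ≤ q) : PairEx l p q 1.2 := by
  have h2 := h.hqp
  have h3 := h.hq
  have hne := w_DA_ne h (h1.trans (by norm_num)) (by norm_num at h1 ⊢; linarith)
  norm_num at h0 h1 hq
  refine ex_A (nu := 12 / 10) (K := 9) (a := 5275 / 10000) (b := 58 / 100) (c := 475 / 1000)
    (d := 58 / 100) h (by decide +kernel) (by norm_num) (by norm_num) (by norm_num)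
    ?_ ?_ ?_ ?_ ?_ hne (fun y hy e he => lineQ_ge (by norm_num) ?_ (Or.inr ?_) y hy) run_A120b
  · push_cast; norm_num; (clear * - h0; linarith)
  · push_cast; norm_num; (clear * - h1; linarith)
  · push_cast; norm_num; linarith
  · push_cast; norm_num; (clear * - h2 h1; linarith)
  · push_cast; norm_num; linarith
  · have := (h.hl e he).2.1
    push_cast; norm_num; (clear * - h2 h1 hq this; linarith)
  · have := (h.hl e he).2.2
    unfold S5 at this
    push_cast; norm_num at this ⊢; (clear * - this; linarith)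

theorem w_B_120 {l : List ℝ} {p q r : ℝ} (h : DB l p q r) (h0 : 0.5125 ≤ p) (h1 : p ≤ 0.5275)
    (hS : 1.0 ≤ q + r) : PairEx (q :: l) p r 1.2 := by
  have h2 := h.hr
  have h3 := h.hrq
  have h4 := h.hqp
  norm_num at h0 h1 hS
  refine ex_B (nu := 12 / 10) (a := 5125 / 10000) (b := 5275 / 10000) (c := 47 / 100)
    (d := 5275 / 10000) (e := 47 / 100) (f := 5275 / 10000) h (by decide +kernel) (by norm_num)
    (by norm_num) (by norm_num) (by norm_num) ?_ ?_ ?_ ?_ ?_ ?_ (noQ_ge ?_) ?_ run_B120
  · push_cast; norm_num; linarith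
  · push_cast; norm_num; linarith
  · push_cast; norm_num; linarith
  · push_cast; norm_num; linarith
  · push_cast; norm_num; (clear * - h3 hS; linarith)
  · push_cast; norm_num; linarith
  · linarith
  · intro y hy
    unfold lineQ
    have h5 : ¬ y ≤ 0 := by
      intro h6
      have : (y : ℝ) ≤ 0 := by exact_mod_cast h6
      (clear * - h0 hy this; linarith)
    rw [if_neg h5]
    push_cast
    (clear * - hS; linarith)
theorem w_B_135 {l : List ℝ} {p q r : ℝ} (h : DB l p q r) (h0 : 0.5275 ≤ p) (h1 : p ≤ 0.57)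
    (hS : S5 p ≤ q + r) (hS2 : p ≤ 0.535 ∨ q + r ≤ S6 p) : PairEx (q :: l) p r 1.35 := by
  have h2 := h.hr
  have h3 := h.hrq
  have h4 := h.hqp
  unfold S5 at hS
  unfold S6 at hS2
  norm_num at h0 h1 hS hS2
  refine ex_B (nu := 135 / 100) (a := 5275 / 10000) (b := 57 / 100) (c := 4 / 10)
    (d := 57 / 100) (e := 45 / 100) (f := 57 / 100) h (by decide +kernel) (by norm_num)
    (by norm_num) (by norm_num) (by norm_num) ?_ ?_ ?_ ?_ ?_ ?_
    (lineQ_ge (by norm_num) ?_ ?_) ?_ run_B135
  · push_cast; norm_num; (clear * - h0; linarith)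
  · push_cast; norm_num; (clear * - h1; linarith)
  · push_cast; norm_num; (clear * - h4 h1 hS; linarith)
  · push_cast; norm_num; (clear * - h3 h4 h1; linarith)
  · push_cast; norm_num; linarith
  · push_cast; norm_num; (clear * - h4 h1; linarith)
  · push_cast; norm_num; (clear * - h3 h4 h1; linarith)
  · push_cast; norm_num
    rcases hS2 with hS2 | hS2
    · left; (clear * - hS2; linarith)
    · right; (clear * - hS2; linarith)
  · intro y hy
    unfold lineQ
    have h5 : ¬ y ≤ 0 := by
      intro h6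
      have : (y : ℝ) ≤ 0 := by exact_mod_cast h6
      (clear * - h0 hy this; linarith)
    rw [if_neg h5]
    push_cast
    (clear * - hS hy; linarith)

end Pool.Agent.M18.Helper89.SP
end
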