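import Mathlib
import Pool.Agent.Helper53.AM.G12
import Pool.Agent.Helper53.AM.G14
import Pool.Agent.Helper53.AM.G15
import Pool.Agent.Helper53.AM.G19
import Pool.Agent.Helper53.AM.G20
import Pool.Agent.Helper53.AM.G34

/- Helper95.SP.WaveM -/
section
/-! The wave facts D and M. -/

set_option autoImplicit false

open MeasureTheory Set Real Pool.Agent.M18.Slab Pool.Agent.M18.Helper95.SP.Crude

namespace Pool.Agent.M18.Helper89.SP

theorem w_D {l : List ℝ} {x u : ℝ} (hx : x ≤ 0.38) (hu : 0 ≤ u) (hux : u < x)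
    (hl : ∀ e ∈ l, 0 ≤ e ∧ e ≤ x) (hsq : sq l + x ^ 2 + u ^ 2 = 1) : PairEx l x u 1.04 :=
  ex_D (nu := 104 / 100) hu hux hl hsq (by decide +kernel) (by norm_num)
    (hx.trans (by norm_num)) run_D

section M

variable {m : ℕ} {l : List ℝ} {x u : ℝ}

theorem w_M_104 {m : ℕ} (hm : 1 ≤ m) (hm6 : m ≤ 6) {l : List ℝ} {x u : ℝ} (h : DM m l x u)
    (h0 : 0.38 ≤ x) (h1 : x ≤ 0.41) : PairEx (List.replicate (m - 1) x ++ l) x u 1.04 := by
  have hux := h.hux
  have a0 : ((38 / 100 : ℚ) : ℝ) ≤ x := by push_cast; norm_num at h0 ⊢; (clear * - h0; linarith)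
  have a1 : x ≤ ((41 / 100 : ℚ) : ℝ) := by push_cast; norm_num at h1 ⊢; (clear * - h1; linarith)
  have a2 : u ≤ ((41 / 100 : ℚ) : ℝ) := hux.le.trans a1
  have hS : ∀ y : ℚ, (y : ℝ) ≤ x → x + u ≤ ((noQ y : ℚ) : ℝ) := noQ_ge (by norm_num at h1; (clear * - hux a1; linarith))
  have hN : okN t04 1 (104 / 100) = true := by decide +kernel
  have hν : (((104 / 100 : ℚ)) : ℝ) = 1.04 := by norm_num
  interval_cases m
  · exact ex_M h le_rfl hN hν (by norm_num) a0 a1 a2 hS run_M104_1
  · exact ex_M h (by norm_num) hN hν (by norm_num) a0 a1 a2 hS run_M104_2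
  · exact ex_M h (by norm_num) hN hν (by norm_num) a0 a1 a2 hS run_M104_3
  · exact ex_M h (by norm_num) hN hν (by norm_num) a0 a1 a2 hS run_M104_4
  · exact ex_M h (by norm_num) hN hν (by norm_num) a0 a1 a2 hS run_M104_5
  · exact ex_M h (by norm_num) hN hν (by norm_num) a0 a1 a2 hS run_M104_6

theorem w_M_102 {m : ℕ} (hm : 1 ≤ m) (hm6 : m ≤ 3) {l : List ℝ} {x u : ℝ} (h : DM m l x u)
    (h0 : 0.41 ≤ x) (h1 : x ≤ 0.478) : PairEx (List.replicate (m - 1) x ++ l) x u 1.02 := by
  have hux := h.hux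
  have a0 : ((41 / 100 : ℚ) : ℝ) ≤ x := by push_cast; norm_num at h0 ⊢; (clear * - h0; linarith)
  have a1 : x ≤ ((478 / 1000 : ℚ) : ℝ) := by push_cast; norm_num at h1 ⊢; (clear * - h1; linarith)
  have a2 : u ≤ ((478 / 1000 : ℚ) : ℝ) := hux.le.trans a1
  have hS : ∀ y : ℚ, (y : ℝ) ≤ x → x + u ≤ ((noQ y : ℚ) : ℝ) := noQ_ge (by norm_num at h1; (clear * - hux a1; linarith))
  have hN : okN t02 1 (102 / 100) = true := by decide +kernel
  have hν : (((102 / 100 : ℚ)) : ℝ) = 1.02 := by norm_num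
  interval_cases m
  · exact ex_M h le_rfl hN hν (by norm_num) a0 a1 a2 hS run_M102_1
  · exact ex_M h (by norm_num) hN hν (by norm_num) a0 a1 a2 hS run_M102_2
  · exact ex_M h (by norm_num) hN hν (by norm_num) a0 a1 a2 hS run_M102_3

end M

/-- the facts without a line -/
theorem w_M_no {m : ℕ} (hm : 1 ≤ m) {l : List ℝ} {x u ν : ℝ} (h : DM m l x u) {th nu a b : ℚ}
    {T : Tr} (ha : 0 ≤ a) (hb : b ≤ 1) (h0 : (a : ℝ) ≤ x) (h1 : x ≤ (b : ℝ))
    (hN : okN th 1 nu = true) (hν : ((nu : ℚ) : ℝ) = ν)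
    (hc : covM m th 1 noQ T a b b = true) : PairEx (List.replicate (m - 1) x ++ l) x u ν := by
  have hux := h.hux
  have hb' : (b : ℝ) ≤ 1 := by exact_mod_cast hb
  exact ex_M h hm hN hν ha h0 h1 (hux.le.trans h1) (noQ_ge (by (clear * - h1 hux hb'; linarith))) hc

theorem w_M4_102 {l : List ℝ} {x u : ℝ} (h : DM 4 l x u)
    (h0 : 0.41 ≤ x) (h1 : x ≤ 0.44) : PairEx (List.replicate 3 x ++ l) x u 1.02 :=
  w_M_no (m := 4) (nu := 102 / 100) (a := 41 / 100) (b := 44 / 100) (by norm_num) h (by norm_num)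
    (by norm_num) (by norm_num at h0 ⊢; linarith) (by norm_num at h1 ⊢; (clear * - h1; linarith))
    (by decide +kernel) (by norm_num) run_M4_102
theorem w_M4_104 {l : List ℝ} {x u : ℝ} (h : DM 4 l x u)
    (h0 : 0.44 ≤ x) (h1 : x ≤ 0.47) : PairEx (List.replicate 3 x ++ l) x u 1.04 :=
  w_M_no (m := 4) (nu := 104 / 100) (a := 44 / 100) (b := 47 / 100) (by norm_num) h (by norm_num)
    (by norm_num) (by norm_num at h0 ⊢; linarith) (by norm_num at h1 ⊢; (clear * - h1; linarith))
    (by decide +kernel) (by norm_num) run_M4_104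
theorem w_M4_120 {l : List ℝ} {x u : ℝ} (h : DM 4 l x u)
    (h0 : 0.47 ≤ x) (h1 : x ≤ 0.5) : PairEx (List.replicate 3 x ++ l) x u 1.2 :=
  w_M_no (m := 4) (nu := 12 / 10) (a := 47 / 100) (b := 5 / 10) (by norm_num) h (by norm_num)
    (by norm_num) (by norm_num at h0 ⊢; linarith) (by norm_num at h1 ⊢; (clear * - h1; linarith))
    (by decide +kernel) (by norm_num) run_M4_120

theorem w_M5_104 {l : List ℝ} {x u : ℝ} (h : DM 5 l x u)
    (h0 : 0.41 ≤ x) (h1 : x ≤ 0.43) : PairEx (List.replicate 4 x ++ l) x u 1.04 :=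
  w_M_no (m := 5) (nu := 104 / 100) (a := 41 / 100) (b := 43 / 100) (by norm_num) h (by norm_num)
    (by norm_num) (by norm_num at h0 ⊢; (clear * - h0; linarith)) (by norm_num at h1 ⊢; (clear * - h1; linarith))
    (by decide +kernel) (by norm_num) run_M5_104
theorem w_M5_106 {l : List ℝ} {x u : ℝ} (h : DM 5 l x u)
    (h0 : 0.43 ≤ x) (h1 : x ≤ 0.4473) : PairEx (List.replicate 4 x ++ l) x u 1.06 :=
  w_M_no (m := 5) (nu := 106 / 100) (a := 43 / 100) (b := 4473 / 10000) (by norm_num) h (by norm_num)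
    (by norm_num) (by norm_num at h0 ⊢; linarith) (by norm_num at h1 ⊢; linarith)
    (by decide +kernel) (by norm_num) run_M5_106

theorem w_M3_104 {l : List ℝ} {x u : ℝ} (h : DM 3 l x u)
    (h0 : 0.478 ≤ x) (h1 : x ≤ 0.4875) : PairEx (List.replicate 2 x ++ l) x u 1.04 :=
  w_M_no (m := 3) (nu := 104 / 100) (a := 478 / 1000) (b := 4875 / 10000) (by norm_num) h
    (by norm_num) (by norm_num) (by norm_num at h0 ⊢; (clear * - h0; linarith)) (by norm_num at h1 ⊢; (clear * - h1; linarith))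
    (by decide +kernel) (by norm_num) run_M3_104
theorem w_M3_106 {l : List ℝ} {x u : ℝ} (h : DM 3 l x u)
    (h0 : 0.4875 ≤ x) (h1 : x ≤ 0.4975) : PairEx (List.replicate 2 x ++ l) x u 1.06 :=
  w_M_no (m := 3) (nu := 106 / 100) (a := 4875 / 10000) (b := 4975 / 10000) (by norm_num) h
    (by norm_num) (by norm_num) (by norm_num at h0 ⊢; (clear * - h0; linarith)) (by norm_num at h1 ⊢; (clear * - h1; linarith))
    (by decide +kernel) (by norm_num) run_M3_106
theorem w_M3_108 {l : List ℝ} {x u : ℝ} (h : DM 3 l x u)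
    (h0 : 0.4975 ≤ x) (h1 : x ≤ 0.5065) : PairEx (List.replicate 2 x ++ l) x u 1.08 :=
  w_M_no (m := 3) (nu := 108 / 100) (a := 4975 / 10000) (b := 5065 / 10000) (by norm_num) h
    (by norm_num) (by norm_num) (by norm_num at h0 ⊢; linarith) (by norm_num at h1 ⊢; (clear * - h1; linarith))
    (by decide +kernel) (by norm_num) run_M3_108
theorem w_M3_110 {l : List ℝ} {x u : ℝ} (h : DM 3 l x u)
    (h0 : 0.5065 ≤ x) (h1 : x ≤ 0.5125) : PairEx (List.replicate 2 x ++ l) x u 1.1 :=
  w_M_no (m := 3) (nu := 11 / 10) (a := 5065 / 10000) (b := 5125 / 10000) (by norm_num) h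
    (by norm_num) (by norm_num) (by norm_num at h0 ⊢; linarith) (by norm_num at h1 ⊢; (clear * - h1; linarith))
    (by decide +kernel) (by norm_num) run_M3_110
theorem w_M3_120 {l : List ℝ} {x u : ℝ} (h : DM 3 l x u)
    (h0 : 0.5125 ≤ x) (h1 : x ≤ 0.55) : PairEx (List.replicate 2 x ++ l) x u 1.2 :=
  w_M_no (m := 3) (nu := 12 / 10) (a := 5125 / 10000) (b := 55 / 100) (by norm_num) h
    (by norm_num) (by norm_num) (by norm_num at h0 ⊢; linarith) (by norm_num at h1 ⊢; (clear * - h1; linarith))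
    (by decide +kernel) (by norm_num) run_M3_120

/-- the data of the facts M_2 : `(x, x, u, rest)` -/
theorem w_M2_102 {l : List ℝ} {x u : ℝ} (h : DM 2 l x u) (h0 : 0.478 ≤ x) (h1 : x ≤ 0.52)
    (hS : x + u ≤ S0 x) : PairEx (List.replicate 1 x ++ l) x u 1.02 := by
  have hux := h.hux
  unfold S0 at hS
  norm_num at h0 h1 hS
  refine ex_M (m := 2) (nu := 102 / 100) (a := 478 / 1000) (b := 52 / 100) (d := 478 / 1000) h
    (by norm_num) (by decide +kernel) (by norm_num) (by norm_num) ?_ ?_ ?_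
    (lineQ_ge (by norm_num) ?_ (Or.inr ?_)) run_M2_102 <;> push_cast <;> norm_num <;> (clear * - h0 h1 hux hS; linarith)
theorem w_M2_104 {l : List ℝ} {x u : ℝ} (h : DM 2 l x u) (h0 : 0.478 ≤ x) (h1 : x ≤ 0.53)
    (hS : x ≤ 0.49 ∨ x + u ≤ S1 x) : PairEx (List.replicate 1 x ++ l) x u 1.04 := by
  have hux := h.hux
  unfold S1 at hS
  norm_num at h0 h1 hS
  refine ex_M (m := 2) (nu := 104 / 100) (a := 478 / 1000) (b := 53 / 100) (d := 5 / 10) h
    (by norm_num) (by decide +kernel) (by norm_num) (by norm_num) ?_ ?_ ?_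
    (lineQ_ge (by norm_num) ?_ ?_) run_M2_104
  · push_cast; norm_num; linarith
  · push_cast; norm_num; (clear * - h1; linarith)
  · push_cast; norm_num
    rcases hS with hS | hS <;> linarith
  · push_cast; norm_num; linarith
  · push_cast; norm_num
    rcases hS with hS | hS
    · left; linarith
    · right; linarith
theorem w_M2_106 {l : List ℝ} {x u : ℝ} (h : DM 2 l x u) (h0 : 0.49 ≤ x) (h1 : x ≤ 0.54)
    (hS : x ≤ 0.4975 ∨ x + u ≤ S2 x) : PairEx (List.replicate 1 x ++ l) x u 1.06 := by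
  have hux := h.hux
  unfold S2 at hS
  norm_num at h0 h1 hS
  refine ex_M (m := 2) (nu := 106 / 100) (a := 49 / 100) (b := 54 / 100) (d := 505 / 1000) h
    (by norm_num) (by decide +kernel) (by norm_num) (by norm_num) ?_ ?_ ?_
    (lineQ_ge (by norm_num) ?_ ?_) run_M2_106
  · push_cast; norm_num; linarith
  · push_cast; norm_num; (clear * - h1; linarith)
  · push_cast; norm_num
    rcases hS with hS | hS
    · (clear * - hux h1 hS; linarith)
    · rcases le_total x (4975 / 10000) with h5 | h5 <;> (clear * - hux h1 hS; linarith)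
  · push_cast; norm_num; linarith
  · push_cast; norm_num
    rcases hS with hS | hS
    · left; linarith
    · right; linarith
theorem w_M2_108 {l : List ℝ} {x u : ℝ} (h : DM 2 l x u) (h0 : 0.4975 ≤ x) (h1 : x ≤ 0.55)
    (hS : x ≤ 0.5065 ∨ x + u ≤ S3 x) : PairEx (List.replicate 1 x ++ l) x u 1.08 := by
  have hux := h.hux
  unfold S3 at hS
  norm_num at h0 h1 hS
  refine ex_M (m := 2) (nu := 108 / 100) (a := 4975 / 10000) (b := 55 / 100) (d := 52 / 100) h
    (by norm_num) (by decide +kernel) (by norm_num) (by norm_num) ?_ ?_ ?_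
    (lineQ_ge (by norm_num) ?_ ?_) run_M2_108
  · push_cast; norm_num; linarith
  · push_cast; norm_num; (clear * - h1; linarith)
  · push_cast; norm_num
    rcases hS with hS | hS
    · (clear * - hux h1 hS; linarith)
    · rcases le_total x (5065 / 10000) with h5 | h5 <;> (clear * - hux h1 hS; linarith)
  · push_cast; norm_num; linarith
  · push_cast; norm_num
    rcases hS with hS | hS
    · left; linarith
    · right; linarith
theorem w_M2_110 {l : List ℝ} {x u : ℝ} (h : DM 2 l x u) (h0 : 0.5065 ≤ x) (h1 : x ≤ 0.56)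
    (hS : x ≤ 0.5125 ∨ x + u ≤ S4 x) : PairEx (List.replicate 1 x ++ l) x u 1.1 := by
  have hux := h.hux
  unfold S4 at hS
  norm_num at h0 h1 hS
  refine ex_M (m := 2) (nu := 11 / 10) (a := 5065 / 10000) (b := 56 / 100) (d := 52 / 100) h
    (by norm_num) (by decide +kernel) (by norm_num) (by norm_num) ?_ ?_ ?_
    (lineQ_ge (by norm_num) ?_ ?_) run_M2_110
  · push_cast; norm_num; linarith
  · push_cast; norm_num; linarith
  · push_cast; norm_num
    rcases hS with hS | hS
    · linarith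
    · rcases le_total x (5125 / 10000) with h5 | h5 <;> (clear * - hux h1 hS; linarith)
  · push_cast; norm_num; linarith
  · push_cast; norm_num
    rcases hS with hS | hS
    · left; (clear * - hS; linarith)
    · right; (clear * - hS; linarith)
theorem w_M2_110b {l : List ℝ} {x u : ℝ} (h : DM 2 l x u) (h0 : 0.56 ≤ x) (h1 : x ≤ 0.6)
    (hS : x + u ≤ 0.95) : PairEx (List.replicate 1 x ++ l) x u 1.1 := by
  have hux := h.hux
  norm_num at h0 h1 hS
  refine ex_M (m := 2) (nu := 11 / 10) (a := 56 / 100) (b := 6 / 10) (d := 39 / 100) h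
    (by norm_num) (by decide +kernel) (by norm_num) (by norm_num) ?_ ?_ ?_
    (lineQ_ge (by norm_num) ?_ (Or.inr ?_)) run_M2_110b <;> push_cast <;> norm_num <;> (clear * - h0 h1 hS hux; linarith)
theorem w_M2_120 {l : List ℝ} {x u : ℝ} (h : DM 2 l x u) (h0 : 0.5125 ≤ x) (h1 : x ≤ 0.62)
    (hS : x ≤ 0.5275 ∨ x + u ≤ S5 x) : PairEx (List.replicate 1 x ++ l) x u 1.2 := by
  have hux := h.hux
  unfold S5 at hS
  norm_num at h0 h1 hS
  refine ex_M (m := 2) (nu := 12 / 10) (a := 5125 / 10000) (b := 62 / 100) (d := 5275 / 10000) h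
    (by norm_num) (by decide +kernel) (by norm_num) (by norm_num) ?_ ?_ ?_
    (lineQ_ge (by norm_num) ?_ ?_) run_M2_120
  · push_cast; norm_num; linarith
  · push_cast; norm_num; linarith
  · push_cast; norm_num
    rcases hS with hS | hS
    · linarith
    · rcases le_total x (5275 / 10000) with h5 | h5 <;> (clear * - hux h1 hS; linarith)
  · push_cast; norm_num; linarith
  · push_cast; norm_num
    rcases hS with hS | hS
    · left; linarith
    · right; linarith
theorem w_M2_120b {l : List ℝ} {x u : ℝ} (h : DM 2 l x u) (h0 : 0.58 ≤ x) (h1 : x ≤ 0.66)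
    (hS : x + u ≤ 0.95) : PairEx (List.replicate 1 x ++ l) x u 1.2 := by
  have hux := h.hux
  norm_num at h0 h1 hS
  refine ex_M (m := 2) (nu := 12 / 10) (a := 58 / 100) (b := 66 / 100) (d := 37 / 100) h
    (by norm_num) (by decide +kernel) (by norm_num) (by norm_num) ?_ ?_ ?_
    (lineQ_ge (by norm_num) ?_ (Or.inr ?_)) run_M2_120b <;> push_cast <;> norm_num <;> (clear * - h0 h1 hS hux; linarith)
theorem w_M2_135 {l : List ℝ} {x u : ℝ} (h : DM 2 l x u) (h0 : 0.5275 ≤ x) (h1 : x ≤ 0.58)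
    (hS : x ≤ 0.535 ∨ x + u ≤ S6 x) : PairEx (List.replicate 1 x ++ l) x u 1.35 := by
  have hux := h.hux
  unfold S6 at hS
  norm_num at h0 h1 hS
  refine ex_M (m := 2) (nu := 135 / 100) (a := 5275 / 10000) (b := 58 / 100) (d := 56 / 100) h
    (by norm_num) (by decide +kernel) (by norm_num) (by norm_num) ?_ ?_ ?_
    (lineQ_ge (by norm_num) ?_ ?_) run_M2_135
  · push_cast; norm_num; linarith
  · push_cast; norm_num; (clear * - h1; linarith)
  · push_cast; norm_num
    rcases hS with hS | hS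
    · linarith
    · rcases le_total x (535 / 1000) with h5 | h5 <;> (clear * - hux h1 hS; linarith)
  · push_cast; norm_num; linarith
  · push_cast; norm_num
    rcases hS with hS | hS
    · left; linarith
    · right; linarith

end Pool.Agent.M18.Helper89.SP
end
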