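import Mathlib
import Pool.Agent.Helper53.AM.G12
import Pool.Agent.Helper53.AM.G14
import Pool.Agent.Helper53.AM.G15
import Pool.Agent.Helper53.AM.G17
import Pool.Agent.Helper53.AM.G31
import Pool.Agent.Helper53.AM.G32
import Pool.Agent.Helper53.AM.G35
import Pool.Agent.Helper53.AM.G36

/- Helper89.SP.Cases2 -/
section
/-!
Case analysis, second part.
-/

set_option autoImplicit false

open MeasureTheory Set Real Pool.Agent.M18.Slab

namespace Pool.Agent.M18.Helper89.SP

lemma decomp : ∀ {L : List ℝ}, (L.Pairwise fun a b => b ≤ a) → L ≠ [] →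
    ∃ (x : ℝ) (m : ℕ), 1 ≤ m ∧ (L = List.replicate m x ∨
      ∃ (u : ℝ) (l : List ℝ), L = List.replicate m x ++ u :: l ∧ u < x)
  | [], _, h => absurd rfl h
  | [x], _, _ => ⟨x, 1, le_rfl, Or.inl rfl⟩
  | x :: y :: L, hs, _ => by
    rw [List.pairwise_cons] at hs
    obtain ⟨h1, h2⟩ := hs
    obtain ⟨x', m, hm, h⟩ := decomp h2 (by simp)
    have hy : y = x' := by
      rcases h with h | ⟨u, l, h, -⟩
      · obtain ⟨m, rfl⟩ : ∃ k, m = k + 1 := ⟨m - 1, by omega⟩
        rw [List.replicate_succ] at h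
        exact (List.cons.inj h).1
      · obtain ⟨m, rfl⟩ : ∃ k, m = k + 1 := ⟨m - 1, by omega⟩
        rw [List.replicate_succ, List.cons_append] at h
        exact (List.cons.inj h).1
    rcases eq_or_lt_of_le (h1 y (by simp)) with hxy | hxy
    · refine ⟨x, m + 1, by omega, ?_⟩
      rcases h with h | ⟨u, l, h, hu⟩
      · left
        rw [h, List.replicate_succ, ← hy, hxy]
      · right
        refine ⟨u, l, ?_, ?_⟩
        · rw [h, List.replicate_succ, ← hy, hxy, List.cons_append]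
        · rw [← hxy, hy]; exact hu
    · exact ⟨x, 1, le_rfl, Or.inr ⟨y, L, rfl, hxy⟩⟩

/-- the basic data of three leading coordinates -/
structure D3 (n : ℕ) (t : ℝ) (L : List ℝ) (p q r : ℝ) (l : List ℝ) : Prop where
  h : MaxL n t L
  hn : 4 ≤ n
  ht : 1.02 ≤ t
  ht2 : t ≤ 1.826
  hn4 : n = 4 → t ≤ 1.6428
  hp : L.Perm (p :: q :: r :: l)
  hr0 : 0 ≤ r
  hrq : r ≤ q
  hqp : q ≤ p
  hpq : p + q < t
  hl : ∀ e ∈ l, 0 ≤ e ∧ e ≤ r

variable {n : ℕ} {t : ℝ} {L : List ℝ} {p q r : ℝ} {l : List ℝ}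

namespace D3

lemma hsq (d : D3 n t L p q r l) : sq l + p ^ 2 + q ^ 2 + r ^ 2 = 1 := by
  have := d.h.unit
  rw [asq_perm d.hp, asq_cons, asq_cons, asq_cons] at this
  (clear * - this; linarith)

lemma hsq1 (d : D3 n t L p q r l) : p ^ 2 + q ^ 2 + r ^ 2 ≤ 1 := by
  have := d.hsq
  have := asq_nonneg' l
  linarith

lemma Mf_le (d : D3 n t L p q r l) : Mf t ≤ T L t := ge_Mf d.h d.hn d.ht
lemma T4_le (d : D3 n t L p q r l) : T4 t ≤ T L t := ge_T4 d.h d.hn d.ht d.ht2

lemma kill (d : D3 n t L p q r l) {F : ℝ} (hp0 : 0.478 ≤ p) (hr : 0 < r)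
    (hB : Beats t p q r F) (hF : F ≤ T L t) : False :=
  kill_T3 d.h d.hn d.ht d.ht2 d.hp hr d.hrq d.hqp d.hpq.le hp0 hB hF

lemma k0 (d : D3 n t L p q r l) (h0 : 0.478 ≤ p) (h1 : p ≤ 0.54) (ht1 : t ≤ 1.04)
    (hS : S0 p ≤ q + r) : False := by
  have hr : 0 < r := by have := d.hqp; unfold S0 at hS; (clear * - h1 hS this; linarith)
  exact d.kill h0 hr (fact_T3_0 h0 h1 d.ht ht1 hr d.hrq d.hqp d.hpq.le d.hsq1 hS) d.Mf_le

lemma k1 (d : D3 n t L p q r l) (h0 : 0.4875 ≤ p) (h1 : p ≤ 0.54) (ht0 : 1.04 ≤ t) (ht1 : t ≤ 1.06)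
    (hS : S1 p ≤ q + r) : False := by
  have hr : 0 < r := by have := d.hqp; unfold S1 at hS; (clear * - h1 hS this; linarith)
  exact d.kill (by (clear * - h0; linarith)) hr (fact_T3_1 h0 h1 ht0 ht1 hr d.hrq d.hqp d.hpq.le d.hsq1 hS) d.Mf_le

lemma k2 (d : D3 n t L p q r l) (h0 : 0.4975 ≤ p) (h1 : p ≤ 0.545) (ht0 : 1.06 ≤ t) (ht1 : t ≤ 1.08)
    (hS : S2 p ≤ q + r) : False := by
  have hr : 0 < r := by have := d.hqp; unfold S2 at hS; (clear * - h1 hS this; linarith)
  exact d.kill (by (clear * - h0; linarith)) hr (fact_T3_2 h0 h1 ht0 ht1 hr d.hrq d.hqp d.hpq.le d.hsq1 hS) d.Mf_le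

lemma k3 (d : D3 n t L p q r l) (h0 : 0.5065 ≤ p) (h1 : p ≤ 0.55) (ht0 : 1.08 ≤ t) (ht1 : t ≤ 1.1)
    (hS : S3 p ≤ q + r) : False := by
  have hr : 0 < r := by have := d.hqp; unfold S3 at hS; (clear * - h1 hS this; linarith)
  exact d.kill (by (clear * - h0; linarith)) hr (fact_T3_3 h0 h1 ht0 ht1 hr d.hrq d.hqp d.hpq.le d.hsq1 hS) d.Mf_le

lemma k4 (d : D3 n t L p q r l) (h0 : 0.5125 ≤ p) (h1 : p ≤ 0.56) (ht0 : 1.1 ≤ t) (ht1 : t ≤ 1.2)
    (hS : S4 p ≤ q + r) : False := by
  have hr : 0 < r := by have := d.hqp; unfold S4 at hS; linarith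
  exact d.kill (by (clear * - h0; linarith)) hr (fact_T3_4 h0 h1 ht0 ht1 hr d.hrq d.hqp d.hpq.le d.hsq1 hS) d.T4_le

lemma k5 (d : D3 n t L p q r l) (h0 : 0.5275 ≤ p) (h1 : p ≤ 0.62) (ht0 : 1.2 ≤ t) (ht1 : t ≤ 1.35)
    (hS : S5 p ≤ q + r) : False := by
  have hr : 0 < r := by have := d.hqp; unfold S5 at hS; (clear * - h1 hS this; linarith)
  exact d.kill (by (clear * - h0; linarith)) hr (fact_T3_5 h0 h1 ht0 ht1 hr d.hrq d.hqp d.hpq.le d.hsq1 hS) d.T4_le

lemma htp (d : D3 n t L p q r l) (hp : 0 < p) : t * p < 1 :=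
  (coord d.h d.hn d.ht d.ht2 d.hp hp).2.2.1

lemma k67 (d : D3 n t L p q r l) (h0 : 0.535 ≤ p) (h1 : p ≤ 0.58) (ht0 : 1.35 ≤ t)
    (hS : S6 p ≤ q + r) : False := by
  have hr : 0 < r := by have := d.hqp; unfold S6 at hS; linarith
  have htp := d.htp (by (clear * - h0; linarith))
  rcases le_total t 1.6428 with h3 | h3
  · exact d.kill (by (clear * - h0; linarith)) hr
      (fact_T3_6 h0 h1 ht0 h3 hr d.hrq d.hqp d.hpq.le d.hsq1 htp hS) d.T4_le
  · have hn5 : 5 ≤ n := by
      rcases eq_or_lt_of_le d.hn with h4 | h4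
      · have h5 : t = 1.6428 := le_antisymm (d.hn4 h4.symm) h3
        exact (d.kill (by (clear * - h0; linarith)) hr
          (fact_T3_6 h0 h1 ht0 h5.le hr d.hrq d.hqp d.hpq.le d.hsq1 htp hS) d.T4_le).elim
      · exact h4
    exact d.kill (by (clear * - h0; linarith)) hr
      (fact_T3_7 h0 h1 (by (clear * - h3; linarith)) d.ht2 hr d.hrq d.hqp d.hpq.le d.hsq1 htp hS)
      (ge_T5 d.h hn5 d.ht d.ht2)

lemma k67a (d : D3 n t L p q r l) (h0 : 0.58 ≤ p) (h1 : p ≤ 0.66) (ht0 : 1.35 ≤ t)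
    (hS : 0.95 ≤ q + r) : False := by
  have hr : 0 < r := by have := d.hqp; linarith
  have htp := d.htp (by (clear * - h0; linarith))
  rcases le_total t 1.6428 with h3 | h3
  · exact d.kill (by (clear * - h0; linarith)) hr
      (fact_T3_6a h0 h1 ht0 h3 hr d.hrq d.hqp d.hpq.le d.hsq1 htp hS) d.T4_le
  · have hn5 : 5 ≤ n := by
      rcases eq_or_lt_of_le d.hn with h4 | h4
      · have h5 : t = 1.6428 := le_antisymm (d.hn4 h4.symm) h3
        exact (d.kill (by (clear * - h0; linarith)) hr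
          (fact_T3_6a h0 h1 ht0 h5.le hr d.hrq d.hqp d.hpq.le d.hsq1 htp hS) d.T4_le).elim
      · exact h4
    exact d.kill (by (clear * - h0; linarith)) hr
      (fact_T3_7a h0 h1 (by linarith) d.ht2 hr d.hrq d.hqp d.hpq.le d.hsq1 htp hS)
      (ge_T5 d.h hn5 d.ht d.ht2)

lemma k8 (d : D3 n t L p q r l) (h0 : 0.56 ≤ p) (h1 : p ≤ 0.72) (ht1 : t ≤ 1.35)
    (hS : 0.95 ≤ q + r) : False := by
  have hr : 0 < r := by have := d.hqp; linarith
  rcases le_total t 1.1 with h3 | h3
  · exact d.kill (by (clear * - h0; linarith)) hr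
      (fact_T3_8 (by (clear * - h0; linarith)) h1 d.ht h3 hr d.hrq d.hqp d.hpq.le d.hsq1 hS) d.Mf_le
  rcases le_total t 1.2 with h4 | h4
  · exact d.kill (by (clear * - h0; linarith)) hr
      (fact_T3_8a (by linarith) h1 h3 h4 hr d.hrq d.hqp d.hpq.le d.hsq1 hS) d.T4_le
  · exact d.kill (by (clear * - h0; linarith)) hr
      (fact_T3_8b (by (clear * - h0; linarith)) h1 h4 ht1 hr d.hrq d.hqp d.hpq.le d.hsq1 hS) d.T4_le

lemma k8a (d : D3 n t L p q r l) (h0 : 0.54 ≤ p) (h1 : p ≤ 0.72) (ht1 : t ≤ 1.2)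
    (hS : 0.95 ≤ q + r) : False := by
  have hr : 0 < r := by have := d.hqp; linarith
  rcases le_total t 1.1 with h3 | h3
  · exact d.kill (by (clear * - h0; linarith)) hr
      (fact_T3_8 (by (clear * - h0; linarith)) h1 d.ht h3 hr d.hrq d.hqp d.hpq.le d.hsq1 hS) d.Mf_le
  · exact d.kill (by (clear * - h0; linarith)) hr
      (fact_T3_8a (by linarith) h1 h3 ht1 hr d.hrq d.hqp d.hpq.le d.hsq1 hS) d.T4_le

lemma kG (d : D3 n t L p q r l) (h0 : 0.66 ≤ p) (h : 0.72 ≤ p ∨ 1.26 ≤ t) : False :=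
  kill_G d.h d.hn d.ht d.ht2 d.hp h0 h

/-- the second coordinate is smaller than the first: pair `(p, q)` -/
lemma permA (d : D3 n t L p q r l) : L.Perm ((r :: l) ++ [p, q]) := by
  refine d.hp.trans ?_
  have : (p :: q :: r :: l) = [p, q] ++ (r :: l) := rfl
  rw [this]
  exact List.perm_append_comm

lemma dA (d : D3 n t L p q r l) (hqp : q < p) {S : ℝ} (hS : q + r ≤ S) : DA (r :: l) p q S := by
  refine ⟨d.hr0.trans d.hrq, hqp, ?_, ?_⟩
  · intro e he
    rcases List.mem_cons.mp he with rfl | he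
    · exact ⟨d.hr0, d.hrq, hS⟩
    · have := d.hl e he
      exact ⟨this.1, this.2.trans d.hrq, by linarith [this.2]⟩
  · rw [asq_cons]; have := d.hsq; (clear * - this; linarith)

lemma exA (d : D3 n t L p q r l) (hqp : q < p) {ν : ℝ} (hE : PairEx (r :: l) p q ν) (hν : ν ≤ t) :
    False := kill_Ex d.h d.permA hqp hE hν

/-- pair `(p, r)` -/
lemma permB (d : D3 n t L p q r l) : L.Perm ((q :: l) ++ [p, r]) := by
  refine d.hp.trans ?_
  have e : (p :: r :: q :: l) = [p, r] ++ (q :: l) := rfl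
  refine (List.Perm.cons p (List.Perm.swap r q l)).trans ?_
  rw [e]
  exact List.perm_append_comm

lemma dB (d : D3 n t L p q r l) (hrp : r < p) : DB l p q r :=
  ⟨d.hr0, d.hrq, d.hqp, hrp, d.hl, d.hsq⟩

lemma exB (d : D3 n t L p q r l) (hrp : r < p) {ν : ℝ} (hE : PairEx (q :: l) p r ν) (hν : ν ≤ t) :
    False := kill_Ex d.h d.permB hrp hE hν

/-- multiplicity one, `p > 0.478` -/
theorem one (d : D3 n t L p q r l) (hqp : q < p) (h0 : 0.478 ≤ p) : False := by
  have hq0 := d.hr0.trans d.hrq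
  have ht := d.ht
  have hrq := d.hrq
  have hpq := d.hpq
  -- large p
  rcases le_total 0.72 p with g1 | g1
  · exact d.kG (by linarith) (Or.inl g1)
  rcases le_total 0.66 p with g2 | g2
  · rcases le_total 1.26 t with g3 | g3
    · exact d.kG g2 (Or.inr g3)
    · rcases le_total (q + r) 0.95 with g4 | g4
      · exact d.exA hqp (w_A_102b (d.dA hqp g4) g2 g1 (by (clear * - hpq g3; linarith))) ht
      · exact d.k8 (by linarith) g1 (by linarith) g4
  -- p ≤ 0.66
  rcases le_total (q + r) 0.952 with s0 | s0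
  · exact d.exA hqp (w_A_102 (d.dA hqp s0) h0 g2) ht
  have hq : 0.475 ≤ q := by (clear * - hrq s0; linarith)
  rcases le_total 0.58 p with g3 | g3
  · rcases le_total t 1.35 with t1 | t1
    · exact d.k8 (by (clear * - hqp hrq s0 g3; linarith)) (by (clear * - g1; linarith)) t1 (by (clear * - s0; linarith))
    · exact d.k67a g3 g2 t1 (by (clear * - s0; linarith))
  rcases le_total 0.54 p with g4 | g4
  · rcases le_total t 1.2 with t1 | t1
    · exact d.k8a g4 (by (clear * - g1; linarith)) t1 (by (clear * - s0; linarith))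
    rcases le_total (q + r) (S5 p) with s5 | s5
    · exact d.exA hqp (w_A_120b (d.dA hqp s5) (by (clear * - hqp hrq s0 g4; linarith)) g3 hq) t1
    rcases le_total t 1.35 with t2 | t2
    · exact d.k5 (by (clear * - hqp hrq s0 g4; linarith)) (by (clear * - g3; linarith)) t1 t2 s5
    rcases le_total (S6 p) (q + r) with s6 | s6
    · exact d.k67 (by (clear * - hqp hrq s0 g4; linarith)) g3 t2 s6
    rcases le_total p 0.57 with g5 | g5
    · exact d.exB (by (clear * - hqp hrq; linarith)) (w_B_135 (d.dB (by (clear * - hqp hrq; linarith))) (by (clear * - hqp hrq s0 g4; linarith)) g5 s5 (Or.inr s6)) t2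
    · refine d.k67 (by linarith) g3 t2 ?_
      refine le_trans ?_ s5
      unfold S5 S6
      (clear * - hqp hrq s0 g5; linarith)
  -- 0.478 ≤ p ≤ 0.54
  rcases le_total t 1.04 with t1 | t1
  · refine d.k0 h0 g4 t1 ?_
    unfold S0
    (clear * - h0 s0; linarith)
  rcases le_total p 0.49 with p1 | p1
  · exact d.exA hqp (w_A_104 (d.dA hqp le_rfl) h0 g4 hq (Or.inl p1)) t1
  rcases le_total t 1.06 with t2 | t2
  · rcases le_total (q + r) (S1 p) with s1 | s1
    · exact d.exA hqp (w_A_104 (d.dA hqp s1) h0 g4 hq (Or.inr le_rfl)) t1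
    · exact d.k1 (by (clear * - hqp hrq s0 p1; linarith)) g4 t1 t2 s1
  rcases le_total p 0.4975 with p2 | p2
  · exact d.exA hqp (w_A_106 (d.dA hqp le_rfl) p1 g4 hq (Or.inl p2)) t2
  rcases le_total t 1.08 with t3 | t3
  · rcases le_total (q + r) (S2 p) with s1 | s1
    · exact d.exA hqp (w_A_106 (d.dA hqp s1) p1 g4 hq (Or.inr le_rfl)) t2
    · exact d.k2 p2 (by (clear * - g4; linarith)) t2 t3 s1
  rcases le_total p 0.5065 with p3 | p3
  · exact d.exA hqp (w_A_108 (d.dA hqp le_rfl) p2 g4 hq (Or.inl p3)) t3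
  rcases le_total t 1.1 with t4 | t4
  · rcases le_total (q + r) (S3 p) with s1 | s1
    · exact d.exA hqp (w_A_108 (d.dA hqp s1) p2 g4 hq (Or.inr le_rfl)) t3
    · exact d.k3 p3 (by (clear * - g4; linarith)) t3 t4 s1
  rcases le_total p 0.5125 with p4 | p4
  · exact d.exA hqp (w_A_110 (d.dA hqp le_rfl) p3 g4 hq (Or.inl p4)) t4
  rcases le_total t 1.2 with t5 | t5
  · rcases le_total (q + r) (S4 p) with s1 | s1
    · exact d.exA hqp (w_A_110 (d.dA hqp s1) p3 g4 hq (Or.inr le_rfl)) t4
    · exact d.k4 p4 (by (clear * - hqp hrq s0 g4; linarith)) t4 t5 s1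
  rcases le_total p 0.5275 with p5 | p5
  · rcases le_total (q + r) 1.0 with s1 | s1
    · exact d.exA hqp (w_A_120 (d.dA hqp s1) p4 p5 hq) t5
    · exact d.exB (by (clear * - hqp hrq; linarith)) (w_B_120 (d.dB (by (clear * - hqp hrq; linarith))) p4 p5 s1) t5
  rcases le_total (q + r) (S5 p) with s5 | s5
  · exact d.exA hqp (w_A_120b (d.dA hqp s5) p5 g3 hq) t5
  rcases le_total t 1.35 with t6 | t6
  · exact d.k5 p5 (by (clear * - hqp hrq s0 g4; linarith)) t5 t6 s5
  rcases le_total p 0.535 with p6 | p6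
  · exact d.exB (by (clear * - hqp hrq; linarith)) (w_B_135 (d.dB (by (clear * - hqp hrq; linarith))) p5 (by (clear * - hqp hrq s0 p6; linarith)) s5 (Or.inl p6)) t6
  rcases le_total (q + r) (S6 p) with s6 | s6
  · exact d.exB (by (clear * - hqp hrq; linarith)) (w_B_135 (d.dB (by (clear * - hqp hrq; linarith))) p5 (by (clear * - hqp hrq s0 g4; linarith)) s5 (Or.inr s6)) t6
  · exact d.k67 p6 g3 t6 s6

end D3

/-- multiplicity two, `x > 0.478` -/
theorem D3.two {x : ℝ} (d : D3 n t L x x r l) (hrx : r < x) (h0 : 0.478 ≤ x) : False := by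
  have hr0 := d.hr0
  have ht := d.ht
  have hpq := d.hpq
  have dM : DM 2 l x r := by
    refine ⟨hr0, hrx, d.hl, ?_⟩
    have := d.hsq
    push_cast
    (clear * - this; linarith)
  have kE : ∀ {ν : ℝ}, PairEx (List.replicate 1 x ++ l) x r ν → ν ≤ t → False := by
    intro ν hE hν
    exact d.exB hrx hE hν
  -- large x
  rcases le_total 0.66 x with g1 | g1
  · exact d.kG g1 (Or.inr (by (clear * - hrx hr0 hpq g1; linarith)))
  rcases le_total 0.58 x with g2 | g2
  · rcases le_total t 1.2 with t1 | t1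
    · rcases le_total (x + r) 0.95 with s1 | s1
      · exact kE (w_M2_110b dM (by (clear * - hpq g2 t1; linarith)) (by (clear * - hpq t1; linarith)) s1) (by linarith)
      · exact d.k8a (by linarith) (by (clear * - hpq g2 t1; linarith)) t1 s1
    rcases le_total (x + r) 0.95 with s1 | s1
    · exact kE (w_M2_120b dM g2 g1 s1) t1
    rcases le_total t 1.35 with t2 | t2
    · exact d.k8 (by linarith) (by (clear * - hpq g2 t2; linarith)) t2 s1
    · exact d.k67a g2 g1 t2 s1
  rcases le_total t 1.04 with t1 | t1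
  · rcases le_total (x + r) (S0 x) with s1 | s1
    · exact kE (w_M2_102 dM h0 (by (clear * - hpq t1; linarith)) s1) ht
    · exact d.k0 h0 (by (clear * - hrx hr0 hpq t1; linarith)) t1 s1
  rcases le_total x 0.49 with p1 | p1
  · exact kE (w_M2_104 dM h0 (by (clear * - hrx hr0 p1; linarith)) (Or.inl p1)) t1
  rcases le_total t 1.06 with t2 | t2
  · rcases le_total (x + r) (S1 x) with s1 | s1
    · exact kE (w_M2_104 dM h0 (by (clear * - hpq t2; linarith)) (Or.inr s1)) t1
    · exact d.k1 (by (clear * - p1; linarith)) (by (clear * - hrx hr0 hpq t2; linarith)) t1 t2 s1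
  rcases le_total x 0.4975 with p2 | p2
  · exact kE (w_M2_106 dM p1 (by (clear * - hrx hr0 p2; linarith)) (Or.inl p2)) t2
  rcases le_total t 1.08 with t3 | t3
  · rcases le_total (x + r) (S2 x) with s1 | s1
    · exact kE (w_M2_106 dM p1 (by (clear * - hpq t3; linarith)) (Or.inr s1)) t2
    · exact d.k2 p2 (by (clear * - hrx hr0 hpq t3; linarith)) t2 t3 s1
  rcases le_total x 0.5065 with p3 | p3
  · exact kE (w_M2_108 dM p2 (by (clear * - hrx hr0 p3; linarith)) (Or.inl p3)) t3
  rcases le_total t 1.1 with t4 | t4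
  · rcases le_total (x + r) (S3 x) with s1 | s1
    · exact kE (w_M2_108 dM p2 (by (clear * - hpq t4; linarith)) (Or.inr s1)) t3
    · exact d.k3 p3 (by (clear * - hpq t4; linarith)) t3 t4 s1
  rcases le_total x 0.5125 with p4 | p4
  · exact kE (w_M2_110 dM p3 (by (clear * - g2 p4; linarith)) (Or.inl p4)) t4
  rcases le_total t 1.2 with t5 | t5
  · rcases le_total x 0.56 with p5 | p5
    · rcases le_total (x + r) (S4 x) with s1 | s1
      · exact kE (w_M2_110 dM p3 p5 (Or.inr s1)) t4
      · exact d.k4 p4 p5 t4 t5 s1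
    · rcases le_total (x + r) 0.95 with s1 | s1
      · exact kE (w_M2_110b dM p5 (by (clear * - hpq t5; linarith)) s1) t4
      · exact d.k8a (by (clear * - hpq t5 p5; linarith)) (by (clear * - hpq t5 p5; linarith)) t5 s1
  rcases le_total x 0.5275 with p5 | p5
  · exact kE (w_M2_120 dM p4 (by (clear * - hrx hr0 g2; linarith)) (Or.inl p5)) t5
  rcases le_total (x + r) (S5 x) with s5 | s5
  · exact kE (w_M2_120 dM p4 (by (clear * - hrx hr0 g2; linarith)) (Or.inr s5)) t5
  rcases le_total t 1.35 with t6 | t6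
  · exact d.k5 p5 (by (clear * - hrx hr0 g2; linarith)) t5 t6 s5
  rcases le_total x 0.535 with p6 | p6
  · exact kE (w_M2_135 dM p5 (by (clear * - g2; linarith)) (Or.inl p6)) t6
  rcases le_total (x + r) (S6 x) with s6 | s6
  · exact kE (w_M2_135 dM p5 (by (clear * - g2; linarith)) (Or.inr s6)) t6
  · exact d.k67 p6 g2 t6 s6

/-- multiplicity three, `x > 0.478` -/
theorem D3.three {x u : ℝ} (d : D3 n t L x x x (u :: l)) (hux : u < x) (hlu : ∀ e ∈ l, e ≤ u)
    (h0 : 0.478 ≤ x) : False := by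
  have ht := d.ht
  have hpq := d.hpq
  have hsq := d.hsq1
  have hx58 : x ≤ 0.578 := by nlinarith
  have hu0 : 0 ≤ u := (d.hl u (by simp)).1
  have dM : DM 3 l x u := by
    refine ⟨hu0, hux, fun e he => ⟨(d.hl e (by simp [he])).1, hlu e he⟩, ?_⟩
    have := d.hsq
    rw [asq_cons] at this
    push_cast
    (clear * - this; linarith)
  have kE : ∀ {ν : ℝ}, PairEx (List.replicate 2 x ++ l) x u ν → ν ≤ t → False := by
    intro ν hE hν
    refine kill_Ex d.h ?_ hux hE hν
    refine d.hp.trans ?_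
    have e : (x :: x :: x :: u :: l) = [x, x] ++ ([x, u] ++ l) := rfl
    rw [e]
    have e2 : List.replicate 2 x ++ l ++ [x, u] = [x, x] ++ (l ++ [x, u]) := by simp
    rw [e2]
    exact List.Perm.append_left _ List.perm_append_comm
  rcases le_total t 1.04 with t1 | t1
  · refine d.k0 h0 (by (clear * - hux hpq hu0 t1; linarith)) t1 ?_
    unfold S0; (clear * - h0; linarith)
  rcases le_total x 0.4875 with p1 | p1
  · exact kE (w_M3_104 dM h0 p1) t1
  rcases le_total t 1.06 with t2 | t2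
  · refine d.k1 p1 (by (clear * - hux hpq hu0 t2; linarith)) t1 t2 ?_
    unfold S1; (clear * - p1; linarith)
  rcases le_total x 0.4975 with p2 | p2
  · exact kE (w_M3_106 dM p1 p2) t2
  rcases le_total t 1.08 with t3 | t3
  · refine d.k2 p2 (by (clear * - hux hpq hu0 t3; linarith)) t2 t3 ?_
    unfold S2; (clear * - p2; linarith)
  rcases le_total x 0.5065 with p3 | p3
  · exact kE (w_M3_108 dM p2 p3) t3
  rcases le_total t 1.1 with t4 | t4
  · refine d.k3 p3 (by (clear * - hpq t4; linarith)) t3 t4 ?_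
    unfold S3; (clear * - p3; linarith)
  rcases le_total x 0.5125 with p4 | p4
  · exact kE (w_M3_110 dM p3 p4) t4
  rcases le_total t 1.2 with t5 | t5
  · rcases le_total x 0.56 with p5 | p5
    · refine d.k4 p4 p5 t4 t5 ?_
      unfold S4; (clear * - p4; linarith)
    · exact d.k8a (by (clear * - hpq t5 p5; linarith)) (by (clear * - hpq t5 p5; linarith)) t5 (by (clear * - hpq t5 p5; linarith))
  rcases le_total x 0.55 with p5 | p5
  · exact kE (w_M3_120 dM p4 p5) t5
  rcases le_total t 1.35 with t6 | t6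
  · refine d.k5 (by (clear * - p5; linarith)) (by (clear * - hx58; linarith)) t5 t6 ?_
    unfold S5; (clear * - p5; linarith)
  · refine d.k67 (by (clear * - p5; linarith)) (by (clear * - hx58; linarith)) t6 ?_
    unfold S6; (clear * - p5; linarith)

end Pool.Agent.M18.Helper89.SP
end

/- Helper89.SP.Dich -/
section
/-!
The dichotomy: a maximiser is `f_n` or not better than `f₃`.
-/

set_option autoImplicit false

open MeasureTheory Set Real Pool.Agent.M18.Slab

namespace Pool.Agent.M18.Helper89.SP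

variable {n : ℕ} {t : ℝ} {L : List ℝ}

/-- general data: `m` copies of `x`, then `u < x`, then `l ≤ u` -/
structure DX (n : ℕ) (t : ℝ) (L : List ℝ) (m : ℕ) (x u : ℝ) (l : List ℝ) : Prop where
  h : MaxL n t L
  hn : 4 ≤ n
  ht : 1.02 ≤ t
  ht2 : t ≤ 1.826
  hm : 1 ≤ m
  hL : L = List.replicate m x ++ u :: l
  hux : u < x
  hl : ∀ e ∈ l, 0 ≤ e ∧ e ≤ u
  hu : 0 ≤ u

namespace DX

variable {m : ℕ} {x u : ℝ} {l : List ℝ}

lemma hsq (d : DX n t L m x u l) : sq l + m * x ^ 2 + u ^ 2 = 1 := by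
  have := d.h.unit
  rw [d.hL, asq_append, asq_replicate, asq_cons] at this
  (clear * - this; linarith)

lemma dM (d : DX n t L m x u l) : DM m l x u := ⟨d.hu, d.hux, d.hl, d.hsq⟩

lemma perm (d : DX n t L m x u l) : L.Perm ((List.replicate (m - 1) x ++ l) ++ [x, u]) := by
  obtain ⟨k, rfl⟩ : ∃ k, m = k + 1 := ⟨m - 1, by have := d.hm; omega⟩
  have h1 := d.hL
  rw [List.replicate_succ', List.append_assoc] at h1
  rw [h1, Nat.add_sub_cancel, List.append_assoc]
  refine List.Perm.append_left _ ?_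
  have e : ([x] ++ u :: l) = [x, u] ++ l := rfl
  rw [e]
  exact List.perm_append_comm

lemma kE (d : DX n t L m x u l) {ν : ℝ} (hE : PairEx (List.replicate (m - 1) x ++ l) x u ν)
    (hν : ν ≤ t) : False := kill_Ex d.h d.perm d.hux hE hν

lemma hmx (d : DX n t L m x u l) : m * x ^ 2 ≤ 1 := by
  have := d.hsq
  have := asq_nonneg' l
  nlinarith [sq_nonneg u]

lemma len (d : DX n t L m x u l) : m + 1 ≤ n := by
  have := d.h.len
  rw [d.hL] at this
  simp at this
  omega

/-- `x ≤ 0.41`, `t ≥ 1.04` -/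
theorem small (d : DX n t L m x u l) (hx : x ≤ 0.41) (ht : 1.04 ≤ t) : False := by
  have hx0 : 0 < x := lt_of_le_of_lt d.hu d.hux
  rcases le_total x 0.38 with h1 | h1
  · refine d.kE (w_D h1 d.hu d.hux ?_ ?_) ht
    · intro e he
      rcases List.mem_append.mp he with he | he
      · rw [List.eq_of_mem_replicate he]; exact ⟨hx0.le, le_rfl⟩
      · have := d.hl e he
        exact ⟨this.1, this.2.trans d.hux.le⟩
    · have h2 := d.hsq
      rw [asq_append, asq_replicate]
      have hm := d.hm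
      rw [Nat.cast_sub hm]
      push_cast
      (clear * - h2; linarith)
  · have hm6 : m ≤ 6 := by
      by_contra hcon
      have h7 : (7:ℝ) ≤ m := by exact_mod_cast (by omega : 7 ≤ m)
      have := d.hmx
      (clear * - hx0 h1 this h7 hx; nlinarith)
    exact d.kE (w_M_104 d.hm hm6 d.dM h1 hx) ht

lemma m_le {k : ℕ} (d : DX n t L m x u l) {x0 : ℝ} (hx0 : 0 ≤ x0) (hx : x0 ≤ x)
    (hk : 1 < ((k : ℝ) + 1) * x0 ^ 2) : m ≤ k := by
  by_contra hcon
  have h7 : (k:ℝ) + 1 ≤ m := by exact_mod_cast (by omega : k + 1 ≤ m)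
  have h1 := d.hmx
  have h2 : x0 ^ 2 ≤ x ^ 2 := by (clear * - hx0 hx; gcongr)
  have h3 : ((k : ℝ) + 1) * x0 ^ 2 ≤ m * x ^ 2 := by
    have : (0:ℝ) ≤ (k:ℝ) + 1 := by (clear * -; positivity)
    exact mul_le_mul h7 h2 (by (clear * -; positivity)) (by positivity)
  (clear * - hk h1 h3; linarith)

/-- four equal coordinates -/
theorem four (d : DX n t L m x u l) (hm : 4 ≤ m) (h2x : 2 * x < t) (h0 : 0.41 ≤ x) : False := by
  have ht := d.ht
  have ht2 := d.ht2
  have hn := d.hn
  have hlen := d.len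
  have hm5 : m ≤ 5 := d.m_le (x0 := 0.41) (by norm_num) h0 (by norm_num)
  have hx5 : x ≤ 0.5 := by
    have h1 := d.hmx
    have h4 : (4:ℝ) ≤ m := by exact_mod_cast hm
    (clear * - h1 h4 h0; nlinarith)
  have hperm : L.Perm (x :: x :: x :: x :: (List.replicate (m - 4) x ++ u :: l)) := by
    have e : (x :: x :: x :: x :: (List.replicate (m - 4) x ++ u :: l)) =
        (List.replicate 4 x ++ List.replicate (m - 4) x) ++ u :: l := rfl
    rw [e, ← List.replicate_add, show 4 + (m - 4) = m by omega, ← d.hL]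
  have hMf := ge_Mf d.h hn ht
  have hE : ∀ {F : ℝ}, t ≤ 1.2 → Beats4 t x F → F ≤ T L t → False := fun h1 h2 h3 =>
    kill_E4 d.h hn ht h1 hperm h0 h2x h2 h3
  obtain h4 | h5 : m = 4 ∨ m = 5 := by omega
  · subst h4
    rcases le_total x 0.44 with h1 | h1
    · exact d.kE (w_M4_102 d.dM h0 h1) ht
    rcases le_total x 0.47 with h2 | h2
    · rcases le_total t 1.04 with t1 | t1
      · exact hE (by linarith) (fact_E4_c h1 h2 ht t1) hMf
      · exact d.kE (w_M4_104 d.dM h1 h2) t1
    · rcases le_total t 1.2 with t1 | t1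
      · rcases fact_E4_d h2 hx5 ht t1 with hF | hF | hF
        · exact hE t1 hF hMf
        · exact hE t1 hF (ge_T4 d.h hn ht ht2)
        · exact hE t1 hF (ge_T5 d.h (by omega) ht ht2)
      · exact d.kE (w_M4_120 d.dM h2 hx5) t1
  · subst h5
    have hx45 : x ≤ 0.4473 := by
      have h1 := d.hmx
      push_cast at h1
      (clear * - ht2 h1 h2x h0; nlinarith)
    rcases le_total x 0.43 with h1 | h1
    · rcases le_total t 1.04 with t1 | t1
      · exact hE (by (clear * - h2x h0 t1; linarith)) (fact_E4_a h0 h1 ht t1) hMf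
      · exact d.kE (w_M5_104 d.dM h0 h1) t1
    · rcases le_total t 1.06 with t1 | t1
      · exact hE (by (clear * - h2x h1 t1; linarith)) (fact_E4_b h1 hx45 ht t1) hMf
      · exact d.kE (w_M5_106 d.dM h1 hx45) t1

end DX

/-- The dichotomy. -/
theorem dichotomy (h : MaxL n t L) (hn : 4 ≤ n) (ht : 1.02 ≤ t) (ht2 : t ≤ 1.826)
    (hn4 : n = 4 → t ≤ 1.6428) :
    L = List.replicate n (1 / √(n : ℝ)) ∨ T L t ≤ Mf t := by
  have hne : L ≠ [] := by
    intro h0
    have := h.len
    rw [h0] at this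
    simp at this
    omega
  obtain ⟨x, m, hm, hL | ⟨u, l, hL, hux⟩⟩ := decomp h.sorted hne
  · left
    have hmn : m = n := by
      have := h.len
      rw [hL] at this
      simpa using this
    subst hmn
    have h1 := h.unit
    rw [hL, asq_replicate] at h1
    have hx0 : 0 ≤ x := h.nonneg x (by rw [hL]; simp; omega)
    have hm0 : (0:ℝ) < m := by exact_mod_cast (by omega : 0 < m)
    have hx : x = 1 / √(m : ℝ) := by
      have h2 : x ^ 2 = (1 / √(m : ℝ)) ^ 2 := by
        rw [div_pow, Real.sq_sqrt hm0.le]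
        field_simp
        (clear * - h1; linarith)
      exact (pow_left_inj₀ hx0 (by positivity) (by norm_num)).mp h2
    rw [hL, hx]
  · have hu : 0 ≤ u := h.nonneg u (by rw [hL]; simp)
    have hx0 : 0 < x := lt_of_le_of_lt hu hux
    have hl : ∀ e ∈ l, 0 ≤ e ∧ e ≤ u := by
      intro e he
      refine ⟨h.nonneg e (by rw [hL]; simp [he]), ?_⟩
      have h1 := h.sorted
      rw [hL, List.pairwise_append] at h1
      exact (List.pairwise_cons.mp h1.2.1).1 e he
    have d : DX n t L m x u l := ⟨h, hn, ht, ht2, hm, hL, hux, hl, hu⟩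
    have hsq2 : x ^ 2 ≤ 1 := by
      have h1 := d.hmx
      have h2 : (1:ℝ) ≤ m := by exact_mod_cast hm
      (clear * - h1 h2; nlinarith [sq_nonneg x])
    -- small coordinates
    rcases le_total x 0.41 with h41 | h41
    · rcases le_total t 1.04 with t1 | t1
      · right
        refine small_coords h.nonneg h.unit ?_ ht t1
        intro e he
        rw [hL] at he
        rcases List.mem_append.mp he with he | he
        · rw [List.eq_of_mem_replicate he]; exact h41
        · rcases List.mem_cons.mp he with rfl | he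
          · (clear * - h41 hux; linarith)
          · (clear * - hux h41 hl he; linarith [(hl e he).2])
      · exact (d.small h41 t1).elim
    -- region A
    have rA : ∀ {p q : ℝ} {l' : List ℝ}, L.Perm (p :: q :: l') → t ≤ p + q → T L t ≤ Mf t := by
      intro p q l' hp hA
      have h1 := h.unit
      rw [asq_perm hp, asq_cons, asq_cons] at h1
      have h2 := asq_nonneg' l'
      have ht2' : t ≤ √2 := by
        rw [Real.le_sqrt (by (clear * - ht; linarith)) (by norm_num)]
        (clear * - hA h1 h2 ht; nlinarith [sq_nonneg (p - q)])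
      exact regionA h.nonneg h.unit ht ht2' hp hA
    have sortedl : l.Pairwise fun a b => b ≤ a := by
      have h1 := h.sorted
      rw [hL, List.pairwise_append] at h1
      exact (List.pairwise_cons.mp h1.2.1).2
    obtain h1 | h2 | h3 | h4 : m = 1 ∨ m = 2 ∨ m = 3 ∨ 4 ≤ m := by omega
    · subst h1
      have hL' : L = x :: u :: l := hL
      rcases le_or_gt t (x + u) with hA | hA
      · right; exact rA (by rw [hL']) hA
      exfalso
      rcases le_total x 0.478 with h5 | h5
      · exact d.kE (w_M_102 le_rfl (by norm_num) d.dM h41 h5) ht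
      · obtain ⟨r, l', rfl⟩ : ∃ r l', l = r :: l' := by
          rcases l with _ | ⟨r, l'⟩
          · have := h.len
            rw [hL'] at this
            simp at this
            omega
          · exact ⟨r, l', rfl⟩
        have hr := hl r (by simp)
        have d3 : D3 n t L x u r l' := by
          refine ⟨h, hn, ht, ht2, hn4, by rw [hL'], hr.1, hr.2, hux.le, hA, ?_⟩
          intro e he
          exact ⟨(hl e (by simp [he])).1, (List.pairwise_cons.mp sortedl).1 e he⟩
        exact d3.one hux h5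
    · subst h2
      have hL' : L = x :: x :: u :: l := hL
      rcases le_or_gt t (x + x) with hA | hA
      · right; exact rA (by rw [hL']) hA
      exfalso
      rcases le_total x 0.478 with h5 | h5
      · exact d.kE (w_M_102 (by norm_num) (by norm_num) d.dM h41 h5) ht
      · have d3 : D3 n t L x x u l :=
          ⟨h, hn, ht, ht2, hn4, by rw [hL'], hu, hux.le, le_rfl, hA, hl⟩
        exact d3.two hux h5
    · subst h3
      have hL' : L = x :: x :: x :: u :: l := hL
      rcases le_or_gt t (x + x) with hA | hA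
      · right; exact rA (by rw [hL']) hA
      exfalso
      rcases le_total x 0.478 with h5 | h5
      · exact d.kE (w_M_102 (by norm_num) (by norm_num) d.dM h41 h5) ht
      · have d3 : D3 n t L x x x (u :: l) := by
          refine ⟨h, hn, ht, ht2, hn4, by rw [hL'], hx0.le, le_rfl, le_rfl, hA, ?_⟩
          intro e he
          rcases List.mem_cons.mp he with rfl | he
          · exact ⟨hu, hux.le⟩
          · exact ⟨(hl e he).1, (hl e he).2.trans hux.le⟩
        exact d3.three hux (fun e he => (hl e he).2) h5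
    · obtain ⟨k, rfl⟩ : ∃ k, m = k + 2 := ⟨m - 2, by omega⟩
      have hL' : L = x :: x :: (List.replicate k x ++ u :: l) := by
        rw [hL, List.replicate_succ, List.replicate_succ]; rfl
      rcases le_or_gt t (x + x) with hA | hA
      · right; exact rA (by rw [hL']) hA
      exfalso
      exact d.four h4 (by (clear * - hA; linarith)) h41

end Pool.Agent.M18.Helper89.SP
end
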